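import Pool.Agent.TSM.SDefs

/-!
# TSM, Part S: exact statements of the modules of the smoothing theorem
-/

set_option autoImplicit false

namespace Pool.Agent.TSM

open Set Filter Topology Metric
open scoped Manifold ContDiff

/-- INVD: invariance of domain in the plane. -/
def Stmt_InvD : Prop :=
  ∀ (U : Set E2) (f : E2 → E2), IsOpen U → ContinuousOn f U → InjOn f U → IsOpen (f '' U)

/-- INVM (uses INVD): the same for a topological surface. -/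
def Stmt_InvM : Prop :=
  ∀ (M : Type) [TopologicalSpace M] [ChartedSpace E2 M] (U : Set M) (f : M → E2),
    IsOpen U → ContinuousOn f U → InjOn f U → IsOpen (f '' U)

/-- OPIM (uses INVM): an injective map into a surface `{F = 0}` is locally onto. -/
def Stmt_Opim : Prop :=
  ∀ (M : Type) [TopologicalSpace M] [ChartedSpace E2 M] (U : Set M) (D : M → E3) (x : M),
    U ∈ 𝓝 x → ContinuousOn D U → InjOn D U →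
    (∀ (F : E3 → ℝ) (e : E3) (r : ℝ), 0 < r →
      (∀ y ∈ ball (D x) r, ∀ t : ℝ, 0 < t → y - t • e ∈ ball (D x) r → F (y - t • e) < F y) →
      (∀ y ∈ U, F (D y) = 0) → ∃ s > 0, ∀ y ∈ ball (D x) s, F y = 0 → y ∈ D '' U) ∧
    (∀ F : E3 → ℝ, ContDiff ℝ 1 F → fderiv ℝ F (D x) ≠ 0 → (∀ y ∈ U, F (D y) = 0) →
      ∃ s > 0, ∀ y ∈ ball (D x) s, F y = 0 → y ∈ D '' U)

/-- PHI. -/
def Stmt_Phi : Prop := ∃ φ : ℝ → ℝ, IsPhi φ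

/-- F3P: properties of the smoothed saddle function. -/
def Stmt_F3P : Prop :=
  ∀ (φ : ℝ → ℝ), IsPhi φ → ∀ (a b c : Aff),
    (∀ ε : ℝ, 0 < ε → ContDiff ℝ ∞ (F3 φ ε a b c) ∧
      (∀ x, |F3 φ ε a b c x - G3 a b c x| ≤ 2 * ε) ∧
      (Indep a b c → ∀ x, fderiv ℝ (F3 φ ε a b c) x ≠ 0)) ∧
    (∀ e : E3, inner ℝ a.1 e = 1 → inner ℝ b.1 e = 1 → inner ℝ c.1 e = 1 →
      ∀ (x : E3) (t : ℝ), G3 a b c (x - t • e) = G3 a b c x - t ∧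
        ∀ ε : ℝ, 0 < ε → F3 φ ε a b c (x - t • e) = F3 φ ε a b c x - t) ∧
    (∀ y : E3, G3 a b c y = 0 → ∀ B : ℝ, ∃ r > 0, ∃ ε₀ > 0, ∀ e : E3, ‖e‖ ≤ B →
      (∀ n ∈ Nrm a b c y, inner ℝ n e = 1) → ∀ x ∈ ball y r, ∀ t : ℝ, |t| < r →
        G3 a b c (x - t • e) = G3 a b c x - t ∧
        ∀ ε : ℝ, 0 < ε → ε < ε₀ → F3 φ ε a b c (x - t • e) = F3 φ ε a b c x - t)

/-- SADL: a smoothed saddle has no local maximum of a generic linear function. -/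
def Stmt_Sadl : Prop :=
  ∀ (φ : ℝ → ℝ), IsPhi φ → ∀ ε : ℝ, 0 < ε → ∀ a b c : Aff, Indep a b c → ∀ ν : E3,
    ν ∉ Submodule.span ℝ {a.1, b.1} → ν ∉ Submodule.span ℝ {a.1, c.1} →
    ν ∉ Submodule.span ℝ {b.1, c.1} → ∀ y : E3, F3 φ ε a b c y = 0 → ∀ r : ℝ, 0 < r →
    ∃ z ∈ ball y r, F3 φ ε a b c z = 0 ∧ (inner ℝ ν y : ℝ) < inner ℝ ν z

/-- UNIQ: the zero set determines the relevant germ (up to sign). -/
def Stmt_Uniq : Prop :=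
  ∀ (φ : ℝ → ℝ), IsPhi φ → ∀ a b c a' b' c' : Aff, Indep a b c → Indep a' b' c' →
    ‖a.1‖ = 1 → ‖b.1‖ = 1 → ‖c.1‖ = 1 → ‖a'.1‖ = 1 → ‖b'.1‖ = 1 → ‖c'.1‖ = 1 →
    ∀ y : E3, G3 a b c y = 0 →
    (∃ r > 0, ∀ x ∈ ball y r, (G3 a b c x = 0 ↔ G3 a' b' c' x = 0)) →
    ∃ s : ℝ, (s = 1 ∨ s = -1) ∧ (∀ n ∈ Nrm a b c y, s • n ∈ Nrm a' b' c' y) ∧
      ∃ r > 0, ∃ ε₀ > 0, ∀ x ∈ ball y r, G3 a' b' c' x = s * G3 a b c x ∧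
        ∀ ε : ℝ, 0 < ε → ε < ε₀ → F3 φ ε a' b' c' x = s * F3 φ ε a b c x

/-- FLAT (uses UNIQ): planar germs are not changed by the smoothing. -/
def Stmt_Flat : Prop :=
  ∀ (φ : ℝ → ℝ), IsPhi φ → ∀ a b c : Aff, Indep a b c →
    ‖a.1‖ = 1 → ‖b.1‖ = 1 → ‖c.1‖ = 1 → ∀ d : Aff, d.1 ≠ 0 → ∀ y : E3, G3 a b c y = 0 →
    (∃ r > 0, ∀ x ∈ ball y r, (G3 a b c x = 0 ↔ ev d x = 0)) →
    ∃ r > 0, ∃ ε₀ > 0, ∀ x ∈ ball y r, G3 a b c x = 0 →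
      ∀ ε : ℝ, 0 < ε → ε < ε₀ → F3 φ ε a b c x = 0

/-- PART: finite good covers with Lipschitz partition of unity. -/
def Stmt_Part : Prop :=
  ∀ (M : Type) [TopologicalSpace M] [CompactSpace M] [T2Space M] (D : M → E3) (K : Set M),
    Continuous D → IsClosed K → (∀ x ∈ K, Good D x) →
    ∃ (m : ℕ) (U : Fin m → Set M) (a b c : Fin m → Aff) (e : Fin m → E3)
      (χ : Fin m → M → ℝ), GCover D K m U a b c e χ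

/-- LOCG (uses OPIM, F3P, UNIQ): local structure of the smoothed map. -/
def Stmt_LocG : Prop :=
  ∀ (M : Type) [TopologicalSpace M] [ChartedSpace E2 M] (D : M → E3) (K : Set M) (m : ℕ)
    (U : Fin m → Set M) (a b c : Fin m → Aff) (e : Fin m → E3) (χ : Fin m → M → ℝ),
    Continuous D → GCover D K m U a b c e χ → ∀ φ : ℝ → ℝ, IsPhi φ → ∀ x ∈ interior K,
    ∃ V ∈ 𝓝 x, ∃ ε₀ > 0, ∃ j : Fin m, ∀ ε : ℝ, 0 < ε → ε < ε₀ →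
      InjOn (gsm D m a b c e χ φ ε) V ∧
      ∀ y ∈ V, F3 φ ε (a j) (b j) (c j) (gsm D m a b c e χ φ ε y) = 0

/-- GOODP (uses PHI, F3P, OPIM, FLAT, PART, LOCG): the smoothed map on the good part;
it is equal to `D` on a closed set `R` of planar points. -/
def Stmt_Goodp : Prop :=
  ∀ (M : Type) [TopologicalSpace M] [CompactSpace M] [T2Space M] [ChartedSpace E2 M]
    (D : M → E3) (K K' R : Set M), Continuous D → IsClosed K → IsClosed K' → IsClosed R →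
    K' ⊆ interior K → R ⊆ K → (∀ x ∈ K, Good D x) →
    (∀ x ∈ R, ∃ d : Aff, d.1 ≠ 0 ∧ ∀ᶠ y in 𝓝 x, ev d (D y) = 0) →
    ∀ ε : ℝ, 0 < ε → ∃ (N : Set E3) (g : M → E3), N.Finite ∧ Continuous g ∧
      (∀ x, ‖g x - D x‖ < ε) ∧ (∀ x ∈ R, g x = D x) ∧ ∀ x ∈ K', GoodSm N g x

/-- THETA. -/
def Stmt_Theta : Prop :=
  ∀ l : ℝ, 0 < l → ContDiff ℝ ∞ (theta l) ∧ (∀ s, s ≤ -l → theta l s = 0) ∧
    theta l 0 = 1 ∧ (∀ s, 0 < s → 1 < theta l s) ∧ Monotone (theta l) ∧ (∀ s, 0 ≤ theta l s) ∧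
    (∀ s, 0 ≤ deriv (theta l) s) ∧ (∀ s, -l < s → 0 < deriv (theta l) s) ∧
    (∀ s, s ≤ -l → deriv (theta l) s = 0) ∧
    (∀ s t, s ≤ 0 → t ≤ 0 → theta l t + deriv (theta l) t * (s - t) ≤ theta l s) ∧
    (∀ s t, s ≤ 0 → t ≤ 0 → -l < t → s ≠ t →
      theta l t + deriv (theta l) t * (s - t) < theta l s)

/-- HHD (uses THETA). -/
def Stmt_HHd : Prop :=
  ∀ (Φ : Finset Aff) (l : ℝ) (o : E3), Poly Φ → 0 < l → (∀ φ ∈ Φ, ev φ o ≤ -l) →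
    ContDiff ℝ ∞ (HH Φ l) ∧ ∀ y, HH Φ l y = 0 → fderiv ℝ (HH Φ l) y ≠ 0 ∧ y ∈ hull Φ

/-- LMAX (uses THETA, HHD): local maxima on the smooth convex surface. -/
def Stmt_Lmax : Prop :=
  ∀ (Φ : Finset Aff) (l : ℝ) (o : E3), Poly Φ → 0 < l → (∀ φ ∈ Φ, ev φ o ≤ -l) →
    ∀ ν : E3, (∀ φ ∈ Φ, ∀ ψ ∈ Φ, ν ∉ Submodule.span ℝ {φ.1, ψ.1}) → ∀ y : E3, HH Φ l y = 0 →
    (∃ r > 0, ∀ z ∈ ball y r, HH Φ l z = 0 → (inner ℝ ν z : ℝ) ≤ inner ℝ ν y) →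
    (∀ z, HH Φ l z ≤ 0 → z ≠ y → (inner ℝ ν z : ℝ) < inner ℝ ν y) ∧
    ∃ φ₁ ∈ Φ, ∃ φ₂ ∈ Φ, ∃ φ₃ ∈ Φ, Indep φ₁ φ₂ φ₃ ∧
      -l < ev φ₁ y ∧ -l < ev φ₂ y ∧ -l < ev φ₃ y

/-- RHO (uses THETA, HHD): radial projection of the boundary of the polytope. -/
def Stmt_Rho : Prop :=
  ∀ Φ : Finset Aff, Poly Φ → ∀ ε : ℝ, 0 < ε → ∃ l₀ > 0, ∀ l : ℝ, 0 < l → l < l₀ →
    (∃ o, ∀ φ ∈ Φ, ev φ o ≤ -l) ∧ ∃ ρ : E3 → E3,
      ContinuousOn ρ {x | x ∈ hull Φ ∧ ∃ φ ∈ Φ, ev φ x = 0} ∧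
      InjOn ρ {x | x ∈ hull Φ ∧ ∃ φ ∈ Φ, ev φ x = 0} ∧
      (∀ x ∈ hull Φ, (∃ φ ∈ Φ, ev φ x = 0) → HH Φ l (ρ x) = 0 ∧ ‖ρ x - x‖ < ε ∧
        ((∀ φ ∈ Φ, ∀ ψ ∈ Φ, -l < ev φ x → -l < ev ψ x → φ = ψ) → ρ x = x))

/-- NEAR: points near three independent facets are near a vertex of the polytope. -/
def Stmt_Near : Prop :=
  ∀ Φ : Finset Aff, Poly Φ → ∀ r : ℝ, 0 < r → ∃ l₀ > 0, ∀ y ∈ hull Φ,
    (∃ φ₁ ∈ Φ, ∃ φ₂ ∈ Φ, ∃ φ₃ ∈ Φ, Indep φ₁ φ₂ φ₃ ∧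
      -l₀ < ev φ₁ y ∧ -l₀ < ev φ₂ y ∧ -l₀ < ev φ₃ y) →
    ∃ e ∈ extremePoints ℝ (hull Φ), ‖y - e‖ < r

/-- PREX: uniqueness of preimages near the vertices of the polytope. -/
def Stmt_Prex : Prop :=
  ∀ (M : Type) [TopologicalSpace M] [CompactSpace M] [T2Space M] (Φ : Finset Aff)
    (D : M → E3), PreSmooth Φ D → ∃ r > 0, ∀ e ∈ extremePoints ℝ (hull Φ), ∀ x y : M,
      ‖D x - e‖ < r → ‖D y - e‖ < r → D x = D y → x = y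

/-- GLUE (uses GOODP, RHO, NEAR, PREX): the smoothed map. -/
def Stmt_Glue : Prop :=
  ∀ (M : Type) [TopologicalSpace M] [CompactSpace M] [T2Space M] [ChartedSpace E2 M]
    (Φ : Finset Aff) (D : M → E3), PreSmooth Φ D → ∀ ε : ℝ, 0 < ε →
    ∃ (N : Set E3) (l : ℝ) (g : M → E3), N.Finite ∧ 0 < l ∧ (∃ o, ∀ φ ∈ Φ, ev φ o ≤ -l) ∧
      Continuous g ∧ (∀ x, ‖g x - D x‖ < ε) ∧ (∀ x, GoodSm N g x ∨ OutSm Φ l g x) ∧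
      ∀ x x', g x = g x' → (∃ φ₁ ∈ Φ, ∃ φ₂ ∈ Φ, ∃ φ₃ ∈ Φ, Indep φ₁ φ₂ φ₃ ∧
        -l < ev φ₁ (g x) ∧ -l < ev φ₂ (g x) ∧ -l < ev φ₃ (g x)) → x = x'

/-- CLOP: if there is at most one local maximum, all superlevel sets are connected. -/
def Stmt_Clop : Prop :=
  ∀ (M : Type) [TopologicalSpace M] [CompactSpace M] (h : M → ℝ), Continuous h →
    (∀ x y, IsLocalMax h x → IsLocalMax h y → x = y) → ∀ c : ℝ, IsPreconnected {x | c ≤ h x}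

/-- LIMV: the two-piece property follows from a dense set of directions. -/
def Stmt_Limv : Prop :=
  ∀ (M : Type) [TopologicalSpace M] [CompactSpace M] [T2Space M] (g : M → E3) (S : Set E3),
    Continuous g → Dense S →
    (∀ ν ∈ S, ∀ c : ℝ, IsPreconnected {x : M | c ≤ inner ℝ ν (g x)}) → TPP g

/-- TPPG (uses OPIM, F3P, SADL, HHD, LMAX, CLOP, LIMV): two-piece property of the smooth map. -/
def Stmt_Tppg : Prop :=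
  ∀ (M : Type) [TopologicalSpace M] [CompactSpace M] [T2Space M] [ChartedSpace E2 M]
    (Φ : Finset Aff) (N : Set E3) (l : ℝ) (g : M → E3), Poly Φ → N.Finite → 0 < l →
    (∃ o, ∀ φ ∈ Φ, ev φ o ≤ -l) → Continuous g → (∀ x, GoodSm N g x ∨ OutSm Φ l g x) →
    (∀ x x', g x = g x' → (∃ φ₁ ∈ Φ, ∃ φ₂ ∈ Φ, ∃ φ₃ ∈ Φ, Indep φ₁ φ₂ φ₃ ∧
        -l < ev φ₁ (g x) ∧ -l < ev φ₂ (g x) ∧ -l < ev φ₃ (g x)) → x = x') → TPP g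

/-- ATL (uses INVM): smooth charts from local equations (`LocImm` is in `Imm.lean`). -/
def Stmt_Atl : Prop :=
  ∀ (M : Type) [TopologicalSpace M] [ChartedSpace E2 M] (g : M → E3), Continuous g →
    (∀ x, ∃ U ∈ 𝓝 x, InjOn g U ∧ ∃ F : E3 → ℝ, ContDiff ℝ ∞ F ∧ fderiv ℝ F (g x) ≠ 0 ∧
      ∀ y ∈ U, F (g y) = 0) → LocImm g

end Pool.Agent.TSM
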