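import Pool.Agent.TSM.Chart
import Pool.Agent.TSM.SStmts

/-!
# TSM: the resolution statement `Stmt_R` and the smoothing theorem give `Stmt_RS`
-/

set_option autoImplicit false

namespace Pool.Agent.TSM

/-- RESOLUTION (Part R): a framed map is arbitrarily close to an input of the smoothing
theorem. -/
def Stmt_R : Prop :=
  ∀ (V : Type) [Fintype V] [DecidableEq V] (K : Surf V) (p : V → E3) (Φ : Finset Aff),
    K.Framed p Φ → ∀ ε : ℝ, 0 < ε →
    ∃ (Φ' : Finset Aff) (D : K.body → E3), PreSmooth Φ' D ∧ ∀ x, ‖D x - K.map p x‖ < ε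

theorem rs_of (hR : Stmt_R) (hS : Stmt_Smooth) : Stmt_RS := by
  intro V _ _ K p Φ hfr ε hε
  obtain ⟨Φ', D, hD1, hD2⟩ := hR V K p Φ hfr (ε / 2) (by linarith)
  obtain ⟨cs⟩ := chartedSpace_body K
  have c1 : CompactSpace K.body := compactSpace_body K
  obtain ⟨g, hg1, hg2, hg3⟩ := hS K.body Φ' D hD1 (ε / 2) (by linarith)
  refine ⟨g, hg1, hg2, fun x => ?_⟩
  have h1 := hg3 x
  have h2 := hD2 x
  calc ‖g x - K.map p x‖ = ‖(g x - D x) + (D x - K.map p x)‖ := by congr 1; abel
    _ ≤ ‖g x - D x‖ + ‖D x - K.map p x‖ := norm_add_le _ _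
    _ < ε := by linarith

/-- The whole proof from the three parts. -/
theorem final_of (hP : Stmt_P) (hR : Stmt_R) (hS : Stmt_Smooth) : Stmt_Final :=
  final_of_main (main_of hP (rs_of hR hS))

end Pool.Agent.TSM
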