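import Pool.Agent.TSM.SStmts

/-!
# TSM, module CLOP: superlevel sets are connected if there is at most one local maximum
-/

set_option autoImplicit false

namespace Pool.Agent.TSM

open Set Filter Topology

namespace CLOP_

theorem locmax {M : Type} [TopologicalSpace M] [CompactSpace M] (h : M → ℝ) (hh : Continuous h)
    (c : ℝ) (A B : Set M) (hA : IsClosed A) (hB : IsClosed B) (hne : A.Nonempty)
    (hAs : A ⊆ {x | c ≤ h x}) (hsub : {x | c ≤ h x} ⊆ A ∪ B) (hd : ∀ x ∈ A, x ∉ B) :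
    ∃ a ∈ A, IsLocalMax h a := by
  obtain ⟨a, haA, hmax⟩ := hA.isCompact.exists_isMaxOn hne hh.continuousOn
  refine ⟨a, haA, ?_⟩
  have hn : Bᶜ ∈ 𝓝 a := hB.isOpen_compl.mem_nhds (hd a haA)
  filter_upwards [hn] with y hy
  by_cases hc : c ≤ h y
  · rcases hsub hc with h1 | h1
    · exact hmax h1
    · exact absurd h1 hy
  · exact (not_le.mp hc).le.trans (hAs haA)

end CLOP_

theorem clop_proof : Stmt_Clop := by
  intro M _ _ h hh huniq c
  rw [isPreconnected_closed_iff]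
  intro t t' ht ht' hst h1 h2
  by_contra hcon
  have hs : IsClosed {x | c ≤ h x} := isClosed_le continuous_const hh
  have hd : ∀ x, x ∈ {x | c ≤ h x} → x ∈ t → x ∈ t' → False := fun x hx hx1 hx2 =>
    hcon ⟨x, hx, hx1, hx2⟩
  obtain ⟨a, haA, ha⟩ := CLOP_.locmax h hh c ({x | c ≤ h x} ∩ t) ({x | c ≤ h x} ∩ t')
    (hs.inter ht) (hs.inter ht') h1 inter_subset_left
    (fun x hx => (hst hx).imp (fun h => ⟨hx, h⟩) (fun h => ⟨hx, h⟩))
    (fun x hx hx' => hd x hx.1 hx.2 hx'.2)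
  obtain ⟨b, hbB, hb⟩ := CLOP_.locmax h hh c ({x | c ≤ h x} ∩ t') ({x | c ≤ h x} ∩ t)
    (hs.inter ht') (hs.inter ht) h2 inter_subset_left
    (fun x hx => (hst hx).symm.imp (fun h => ⟨hx, h⟩) (fun h => ⟨hx, h⟩))
    (fun x hx hx' => hd x hx.1 hx'.2 hx.2)
  have hab := huniq a b ha hb
  subst hab
  exact hd a haA.1 haA.2 hbB.2

end Pool.Agent.TSM
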