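import Pool.Agent.TSM.SStmts

/-!
# TSM, module F3P: properties of the smoothed saddle function
-/

set_option autoImplicit false

namespace Pool.Agent.TSM.F3P_

open Set Filter Topology Metric
open scoped Manifold ContDiff

variable {φ : ℝ → ℝ}

lemma smax_left (hφ : IsPhi φ) {ε a b : ℝ} (hε : 0 < ε) (h : ε ≤ a - b) :
    smax φ ε a b = a := by
  unfold smax
  have h1 : (1 : ℝ) ≤ (a - b) / ε := by
    rw [le_div_iff₀ hε]; linarith
  rw [hφ.one _ h1]
  field_simp
  ring

lemma smax_right (hφ : IsPhi φ) {ε a b : ℝ} (hε : 0 < ε) (h : ε ≤ b - a) :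
    smax φ ε a b = b := by
  unfold smax
  have h1 : (a - b) / ε ≤ -1 := by
    rw [div_le_iff₀ hε]; linarith
  rw [hφ.zero _ h1]
  ring

lemma smax_shift (φ : ℝ → ℝ) (ε a b t : ℝ) :
    smax φ ε (a - t) (b - t) = smax φ ε a b - t := by
  unfold smax
  have : a - t - (b - t) = a - b := by ring
  rw [this]
  ring

lemma smin_shift (φ : ℝ → ℝ) (ε a b t : ℝ) :
    -(smax φ ε (-(a - t)) (-(b - t))) = -(smax φ ε (-a) (-b)) - t := by
  have h := smax_shift φ ε (-a) (-b) (-t)
  have h1 : -(a - t) = -a - -t := by ring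
  have h2 : -(b - t) = -b - -t := by ring
  rw [h1, h2, h]
  ring

lemma le_smax (hφ : IsPhi φ) {ε : ℝ} (hε : 0 < ε) (a b : ℝ) :
    max a b ≤ smax φ ε a b := by
  unfold smax
  have h := hφ.ge ((a - b) / ε)
  have h1 : (a - b) / ε ≤ φ ((a - b) / ε) := le_trans (le_max_left _ _) h
  have h2 : 0 ≤ φ ((a - b) / ε) := le_trans (le_max_right _ _) h
  have h3 : a - b ≤ ε * φ ((a - b) / ε) := by
    have := mul_le_mul_of_nonneg_left h1 hε.le
    have h4 : ε * ((a - b) / ε) = a - b := by field_simp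
    linarith
  have h5 : 0 ≤ ε * φ ((a - b) / ε) := mul_nonneg hε.le h2
  exact max_le (by linarith) (by linarith)

lemma smax_le (hφ : IsPhi φ) {ε : ℝ} (hε : 0 < ε) (a b : ℝ) :
    smax φ ε a b ≤ max a b + ε := by
  unfold smax
  have h := hφ.le ((a - b) / ε)
  have h3 : ε * φ ((a - b) / ε) ≤ ε * (max ((a - b) / ε) 0 + 1) :=
    mul_le_mul_of_nonneg_left h hε.le
  have h4 : ε * ((a - b) / ε) = a - b := by field_simp
  rcases le_total 0 ((a - b) / ε) with h5 | h5
  · rw [max_eq_left h5] at h3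
    have := le_max_left a b
    have h6 : ε * ((a - b) / ε + 1) = a - b + ε := by rw [mul_add, h4]; ring
    linarith
  · rw [max_eq_right h5] at h3
    have := le_max_right a b
    linarith

lemma smin_le (hφ : IsPhi φ) {ε : ℝ} (hε : 0 < ε) (a b : ℝ) :
    -(smax φ ε (-a) (-b)) ≤ min a b := by
  have h := le_smax hφ hε (-a) (-b)
  have h1 := le_trans (le_max_left _ _) h
  have h2 := le_trans (le_max_right _ _) h
  exact le_min (by linarith) (by linarith)

lemma le_smin (hφ : IsPhi φ) {ε : ℝ} (hε : 0 < ε) (a b : ℝ) :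
    min a b - ε ≤ -(smax φ ε (-a) (-b)) := by
  have h := smax_le hφ hε (-a) (-b)
  rcases le_total a b with h1 | h1
  · rw [min_eq_left h1]
    rw [max_eq_left (by linarith)] at h
    linarith
  · rw [min_eq_right h1]
    rw [max_eq_right (by linarith)] at h
    linarith

lemma min_shift (a b t : ℝ) : min (a - t) (b - t) = min a b - t := by
  rcases le_total a b with h | h
  · rw [min_eq_left h, min_eq_left (by linarith)]
  · rw [min_eq_right h, min_eq_right (by linarith)]

lemma max_shift (a b t : ℝ) : max (a - t) (b - t) = max a b - t := by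
  rcases le_total a b with h | h
  · rw [max_eq_right h, max_eq_right (by linarith)]
  · rw [max_eq_left h, max_eq_left (by linarith)]

/-- local shift property for the minimum -/
lemma core_min (hφ : IsPhi φ) {α β : ℝ} (h0 : min α β = 0) :
    ∃ δ > 0, ∃ ε₀ > 0, ∀ u v u' v' t : ℝ, |u - α| < δ → |v - β| < δ →
      |u' - α| < δ → |v' - β| < δ →
      (α = 0 → 0 ≤ β → u' = u - t) → (β = 0 → 0 ≤ α → v' = v - t) →
      min u' v' = min u v - t ∧ ∀ ε : ℝ, 0 < ε → ε < ε₀ →
        -(smax φ ε (-u') (-v')) = -(smax φ ε (-u) (-v)) - t := by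
  have hα : 0 ≤ α := h0 ▸ min_le_left α β
  have hβ : 0 ≤ β := h0 ▸ min_le_right α β
  rcases eq_or_lt_of_le hα with hα0 | hα0
  · rcases eq_or_lt_of_le hβ with hβ0 | hβ0
    · refine ⟨1, one_pos, 1, one_pos, ?_⟩
      intro u v u' v' t _ _ _ _ h1 h2
      have e1 := h1 hα0.symm hβ
      have e2 := h2 hβ0.symm hα
      subst e1 e2
      exact ⟨min_shift _ _ _, fun ε _ _ => smin_shift φ ε u v t⟩
    · refine ⟨β / 4, by linarith, β / 4, by linarith, ?_⟩
      intro u v u' v' t hu hv hu' hv' h1 _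
      have e1 := h1 hα0.symm hβ
      rw [← hα0] at hu hu'
      rw [abs_lt] at hu hv hu' hv'
      refine ⟨?_, ?_⟩
      · rw [min_eq_left (by linarith), min_eq_left (by linarith), e1]
      · intro ε hε hε'
        rw [smax_left hφ hε (by linarith), smax_left hφ hε (by linarith), e1]
        ring
  · have hβ0 : β = 0 := by
      rcases le_total α β with h | h
      · rw [min_eq_left h] at h0; linarith
      · rw [min_eq_right h] at h0; exact h0
    refine ⟨α / 4, by linarith, α / 4, by linarith, ?_⟩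
    intro u v u' v' t hu hv hu' hv' _ h2
    have e2 := h2 hβ0 hα
    rw [hβ0] at hv hv'
    rw [abs_lt] at hu hv hu' hv'
    refine ⟨?_, ?_⟩
    · rw [min_eq_right (by linarith), min_eq_right (by linarith), e2]
    · intro ε hε hε'
      rw [smax_right hφ hε (by linarith), smax_right hφ hε (by linarith), e2]
      ring

/-- local shift property for the saddle function -/
lemma core (hφ : IsPhi φ) {α β γ : ℝ} (h0 : max (min α β) γ = 0) :
    ∃ δ > 0, ∃ ε₀ > 0, ∀ u v w u' v' w' t : ℝ, |u - α| < δ → |v - β| < δ → |w - γ| < δ →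
      |u' - α| < δ → |v' - β| < δ → |w' - γ| < δ →
      (γ = 0 → w' = w - t) →
      (α = 0 → 0 ≤ β → u' = u - t) → (β = 0 → 0 ≤ α → v' = v - t) →
      max (min u' v') w' = max (min u v) w - t ∧ ∀ ε : ℝ, 0 < ε → ε < ε₀ →
        smax φ ε (-(smax φ ε (-u') (-v'))) w' = smax φ ε (-(smax φ ε (-u) (-v))) w - t := by
  have hm : min α β ≤ 0 := h0 ▸ le_max_left _ _
  have hγ : γ ≤ 0 := h0 ▸ le_max_right _ _
  rcases eq_or_lt_of_le hm with hm0 | hm0
  · obtain ⟨δ₁, hδ₁, ε₁, hε₁, H⟩ := core_min hφ hm0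
    rcases eq_or_lt_of_le hγ with hγ0 | hγ0
    · refine ⟨δ₁, hδ₁, ε₁, hε₁, ?_⟩
      intro u v w u' v' w' t hu hv _ hu' hv' _ h1 h2 h3
      obtain ⟨H1, H2⟩ := H u v u' v' t hu hv hu' hv' h2 h3
      have e := h1 hγ0
      refine ⟨?_, ?_⟩
      · rw [H1, e, max_shift]
      · intro ε hε hε'
        rw [H2 ε hε hε', e, smax_shift]
    · refine ⟨min δ₁ (-γ / 8), lt_min hδ₁ (by linarith), min ε₁ (-γ / 8),
        lt_min hε₁ (by linarith), ?_⟩
      intro u v w u' v' w' t hu hv hw hu' hv' hw' h1 h2 h3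
      obtain ⟨H1, H2⟩ := H u v u' v' t (lt_of_lt_of_le hu (min_le_left _ _))
        (lt_of_lt_of_le hv (min_le_left _ _)) (lt_of_lt_of_le hu' (min_le_left _ _))
        (lt_of_lt_of_le hv' (min_le_left _ _)) h2 h3
      have hu := lt_of_lt_of_le hu (min_le_right _ _)
      have hv := lt_of_lt_of_le hv (min_le_right _ _)
      have hw := lt_of_lt_of_le hw (min_le_right _ _)
      have hu' := lt_of_lt_of_le hu' (min_le_right _ _)
      have hv' := lt_of_lt_of_le hv' (min_le_right _ _)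
      have hw' := lt_of_lt_of_le hw' (min_le_right _ _)
      rw [abs_lt] at hu hv hw hu' hv' hw'
      have hα : 0 ≤ α := hm0 ▸ min_le_left α β
      have hβ : 0 ≤ β := hm0 ▸ min_le_right α β
      have k1 : γ / 8 < min u v := lt_min (by linarith) (by linarith)
      have k2 : γ / 8 < min u' v' := lt_min (by linarith) (by linarith)
      refine ⟨?_, ?_⟩
      · rw [max_eq_left (by linarith), max_eq_left (by linarith), H1]
      · intro ε hε hε'
        have e1 := lt_of_lt_of_le hε' (min_le_left _ _)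
        have e2 := lt_of_lt_of_le hε' (min_le_right _ _)
        have k3 := le_smin hφ hε u v
        have k4 := le_smin hφ hε u' v'
        rw [smax_left (a := -(smax φ ε (-u') (-v'))) (b := w') hφ hε (by linarith),
          smax_left (a := -(smax φ ε (-u) (-v))) (b := w) hφ hε (by linarith), H2 ε hε e1]
  · have hγ0 : γ = 0 := by
      rcases le_total (min α β) γ with h | h
      · rw [max_eq_right h] at h0; exact h0
      · rw [max_eq_left h] at h0; linarith
    set μ := -min α β with hμ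
    have hμ0 : 0 < μ := by linarith
    refine ⟨μ / 4, by linarith, μ / 4, by linarith, ?_⟩
    intro u v w u' v' w' t hu hv hw hu' hv' hw' h1 _ _
    have e := h1 hγ0
    rw [hγ0] at hw hw'
    rw [abs_lt] at hu hv hw hu' hv' hw'
    have key : ∀ p q : ℝ, p < α + μ / 4 → q < β + μ / 4 → min p q < - (3 * μ / 4) := by
      intro p q hp hq
      rcases le_total α β with h | h
      · have : μ = -α := by rw [hμ, min_eq_left h]
        exact lt_of_le_of_lt (min_le_left _ _) (by linarith)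
      · have : μ = -β := by rw [hμ, min_eq_right h]
        exact lt_of_le_of_lt (min_le_right _ _) (by linarith)
    have k1 := key u v (by linarith) (by linarith)
    have k2 := key u' v' (by linarith) (by linarith)
    refine ⟨?_, ?_⟩
    · rw [max_eq_right (by linarith), max_eq_right (by linarith), e]
    · intro ε hε hε'
      have k3 := smin_le hφ hε u v
      have k4 := smin_le hφ hε u' v'
      rw [smax_right (a := -(smax φ ε (-u') (-v'))) (b := w') hφ hε (by linarith),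
        smax_right (a := -(smax φ ε (-u) (-v))) (b := w) hφ hε (by linarith), e]

lemma ev_sub (a : Aff) (x e : E3) (t : ℝ) :
    ev a (x - t • e) = ev a x - t * inner ℝ a.1 e := by
  simp only [ev, inner_sub_right, inner_smul_right]
  ring

lemma ev_contDiff (a : Aff) : ContDiff ℝ ∞ (ev a) := by
  have h : ev a = fun x => inner ℝ a.1 x - a.2 := rfl
  rw [h]
  exact (contDiff_const.inner ℝ contDiff_id).sub contDiff_const

lemma smax_contDiff (hφ : IsPhi φ) (ε : ℝ) {f g : E3 → ℝ} (hf : ContDiff ℝ ∞ f)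
    (hg : ContDiff ℝ ∞ g) : ContDiff ℝ ∞ (fun x => smax φ ε (f x) (g x)) := by
  unfold smax
  exact hg.add (contDiff_const.mul (hφ.smooth.comp ((hf.sub hg).div_const ε)))

lemma F3_contDiff (hφ : IsPhi φ) (ε : ℝ) (a b c : Aff) : ContDiff ℝ ∞ (F3 φ ε a b c) := by
  have h : F3 φ ε a b c = fun x =>
    smax φ ε (-(smax φ ε (-(ev a x)) (-(ev b x)))) (ev c x) := rfl
  rw [h]
  exact smax_contDiff hφ ε
    (smax_contDiff hφ ε (ev_contDiff a).neg (ev_contDiff b).neg).neg (ev_contDiff c)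

lemma F3_close (hφ : IsPhi φ) {ε : ℝ} (hε : 0 < ε) (a b c : Aff) (x : E3) :
    |F3 φ ε a b c x - G3 a b c x| ≤ 2 * ε := by
  unfold F3 G3
  have h1 := smin_le hφ hε (ev a x) (ev b x)
  have h2 := le_smin hφ hε (ev a x) (ev b x)
  generalize -(smax φ ε (-(ev a x)) (-(ev b x))) = m at *
  generalize min (ev a x) (ev b x) = k at *
  generalize ev c x = w at *
  have h3 := le_smax hφ hε m w
  have h4 := smax_le hφ hε m w
  have h5 : max m w ≤ max k w := max_le_max h1 le_rfl
  have h6 : max k w ≤ max m w + ε := by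
    refine max_le ?_ ?_
    · linarith [le_max_left m w]
    · linarith [le_max_right m w]
  rw [abs_le]
  constructor <;> linarith

lemma exists_e {a b c : Aff} (h : Indep a b c) :
    ∃ e : E3, inner ℝ a.1 e = (1 : ℝ) ∧ inner ℝ b.1 e = (1 : ℝ) ∧ inner ℝ c.1 e = (1 : ℝ) := by
  have hcard : Fintype.card (Fin 3) = Module.finrank ℝ E3 := by simp
  let B := basisOfLinearIndependentOfCardEqFinrank h hcard
  let f : E3 →ₗ[ℝ] ℝ := B.constr ℝ (fun _ => (1 : ℝ))
  have hf : ∀ i, f (![a.1, b.1, c.1] i) = 1 := by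
    intro i
    have h1 : B i = ![a.1, b.1, c.1] i := by
      exact congrFun (coe_basisOfLinearIndependentOfCardEqFinrank h hcard) i
    rw [← h1]
    simp [f]
  let F : E3 →L[ℝ] ℝ := LinearMap.toContinuousLinearMap f
  have hF : ∀ x, inner ℝ x ((InnerProductSpace.toDual ℝ E3).symm F) = F x := by
    intro x
    rw [real_inner_comm]
    exact InnerProductSpace.toDual_symm_apply
  refine ⟨(InnerProductSpace.toDual ℝ E3).symm F, ?_, ?_, ?_⟩
  · rw [hF]; exact hf 0
  · rw [hF]; exact hf 1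
  · rw [hF]; exact hf 2

lemma F3_shift (φ : ℝ → ℝ) (ε : ℝ) {a b c : Aff} {e : E3} (ha : inner ℝ a.1 e = (1 : ℝ))
    (hb : inner ℝ b.1 e = (1 : ℝ)) (hc : inner ℝ c.1 e = (1 : ℝ)) (x : E3) (t : ℝ) :
    F3 φ ε a b c (x - t • e) = F3 φ ε a b c x - t := by
  unfold F3
  rw [ev_sub, ev_sub, ev_sub, ha, hb, hc, mul_one, smin_shift, smax_shift]

lemma G3_shift {a b c : Aff} {e : E3} (ha : inner ℝ a.1 e = (1 : ℝ))
    (hb : inner ℝ b.1 e = (1 : ℝ)) (hc : inner ℝ c.1 e = (1 : ℝ)) (x : E3) (t : ℝ) :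
    G3 a b c (x - t • e) = G3 a b c x - t := by
  unfold G3
  rw [ev_sub, ev_sub, ev_sub, ha, hb, hc, mul_one, min_shift, max_shift]

lemma F3_fderiv (hφ : IsPhi φ) (ε : ℝ) {a b c : Aff} (h : Indep a b c) (x : E3) :
    fderiv ℝ (F3 φ ε a b c) x ≠ 0 := by
  obtain ⟨e, ha, hb, hc⟩ := exists_e h
  intro h0
  have hd : DifferentiableAt ℝ (F3 φ ε a b c) x :=
    ((F3_contDiff hφ ε a b c).differentiable (by simp)).differentiableAt
  have h1 : HasFDerivAt (F3 φ ε a b c) (0 : E3 →L[ℝ] ℝ) x := h0 ▸ hd.hasFDerivAt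
  have h2 : HasDerivAt (fun t : ℝ => x - t • e) (-e) 0 := by
    have h3 : HasDerivAt (fun t : ℝ => t • e) ((1 : ℝ) • e) 0 :=
      (hasDerivAt_id (0 : ℝ)).smul_const e
    rw [one_smul] at h3
    exact h3.const_sub x
  have h1' : HasFDerivAt (F3 φ ε a b c) (0 : E3 →L[ℝ] ℝ) ((fun t : ℝ => x - t • e) 0) := by
    simpa using h1
  have h4 := h1'.comp_hasDerivAt (0 : ℝ) h2
  have h5 : (F3 φ ε a b c ∘ fun t : ℝ => x - t • e) = fun t => F3 φ ε a b c x - t := by
    funext t
    exact F3_shift φ ε ha hb hc x t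
  rw [h5] at h4
  have h6 : HasDerivAt (fun t : ℝ => F3 φ ε a b c x - t) (-1) 0 :=
    (hasDerivAt_id (0 : ℝ)).const_sub _
  have h7 := h4.unique h6
  simp at h7

lemma ev_close (a : Aff) (x y : E3) : |ev a x - ev a y| ≤ ‖a.1‖ * ‖x - y‖ := by
  have : ev a x - ev a y = inner ℝ a.1 (x - y) := by
    simp only [ev, inner_sub_right]
    ring
  rw [this]
  exact abs_real_inner_le_norm _ _

end Pool.Agent.TSM.F3P_

namespace Pool.Agent.TSM

open Set Filter Topology Metric F3P_
open scoped Manifold ContDiff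

theorem f3p_proof : Stmt_F3P := by
  intro φ hφ a b c
  refine ⟨?_, ?_, ?_⟩
  · intro ε hε
    exact ⟨F3_contDiff hφ ε a b c, F3_close hφ hε a b c, fun h x => F3_fderiv hφ ε h x⟩
  · intro e ha hb hc x t
    exact ⟨G3_shift ha hb hc x t, fun ε _ => F3_shift φ ε ha hb hc x t⟩
  · intro y hy B
    obtain ⟨δ, hδ, ε₀, hε₀, H⟩ := core hφ (α := ev a y) (β := ev b y) (γ := ev c y) hy
    set K : ℝ := (‖a.1‖ + ‖b.1‖ + ‖c.1‖ + 1) * (1 + |B|) with hK
    have hK0 : 0 < K := by positivity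
    refine ⟨δ / K, by positivity, ε₀, hε₀, ?_⟩
    intro e he hn x hx t ht
    have hx' : ‖x - y‖ < δ / K := by
      rw [mem_ball, dist_eq_norm] at hx; exact hx
    have hte : ‖t • e‖ ≤ δ / K * |B| := by
      rw [norm_smul, Real.norm_eq_abs]
      exact mul_le_mul ht.le (le_trans he (le_abs_self B)) (norm_nonneg _) (by positivity)
    have hx1 : ‖x - y‖ < δ / K * (1 + |B|) := by
      have : 0 ≤ δ / K * |B| := by positivity
      nlinarith
    have hx2 : ‖(x - t • e) - y‖ < δ / K * (1 + |B|) := by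
      have h1 : (x - t • e) - y = (x - y) - t • e := by abel
      rw [h1]
      have h2 := norm_sub_le (x - y) (t • e)
      nlinarith
    have hfin : ∀ (n : Aff), ‖n.1‖ ≤ ‖a.1‖ + ‖b.1‖ + ‖c.1‖ → ∀ z : E3,
        ‖z - y‖ < δ / K * (1 + |B|) → |ev n z - ev n y| < δ := by
      intro n hn z hz
      have h1 := ev_close n z y
      have h2 : ‖n.1‖ * ‖z - y‖ ≤ (‖a.1‖ + ‖b.1‖ + ‖c.1‖) * ‖z - y‖ :=
        mul_le_mul_of_nonneg_right hn (norm_nonneg _)
      have h3 : (‖a.1‖ + ‖b.1‖ + ‖c.1‖) * ‖z - y‖ ≤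
          (‖a.1‖ + ‖b.1‖ + ‖c.1‖) * (δ / K * (1 + |B|)) :=
        mul_le_mul_of_nonneg_left hz.le (by positivity)
      have h4 : (‖a.1‖ + ‖b.1‖ + ‖c.1‖) * (δ / K * (1 + |B|)) <
          (‖a.1‖ + ‖b.1‖ + ‖c.1‖ + 1) * (δ / K * (1 + |B|)) := by
        apply mul_lt_mul_of_pos_right (by linarith)
        positivity
      have h5 : (‖a.1‖ + ‖b.1‖ + ‖c.1‖ + 1) * (δ / K * (1 + |B|)) = δ := by
        have : (‖a.1‖ + ‖b.1‖ + ‖c.1‖ + 1) * (δ / K * (1 + |B|)) = K * (δ / K) := by
          rw [hK]; ring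
        rw [this]
        field_simp
      linarith
    have na : ‖a.1‖ ≤ ‖a.1‖ + ‖b.1‖ + ‖c.1‖ := by
      linarith [norm_nonneg b.1, norm_nonneg c.1]
    have nb : ‖b.1‖ ≤ ‖a.1‖ + ‖b.1‖ + ‖c.1‖ := by
      linarith [norm_nonneg a.1, norm_nonneg c.1]
    have nc : ‖c.1‖ ≤ ‖a.1‖ + ‖b.1‖ + ‖c.1‖ := by
      linarith [norm_nonneg b.1, norm_nonneg a.1]
    have H' := H (ev a x) (ev b x) (ev c x) (ev a (x - t • e)) (ev b (x - t • e))
      (ev c (x - t • e)) t (hfin a na x hx1) (hfin b nb x hx1) (hfin c nc x hx1)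
      (hfin a na _ hx2) (hfin b nb _ hx2) (hfin c nc _ hx2)
      (fun h => by
        rw [ev_sub, hn c.1 (Or.inl ⟨rfl, h⟩), mul_one])
      (fun h h' => by
        rw [ev_sub, hn a.1 (Or.inr (Or.inl ⟨rfl, h, h'⟩)), mul_one])
      (fun h h' => by
        rw [ev_sub, hn b.1 (Or.inr (Or.inr ⟨rfl, h, h'⟩)), mul_one])
    exact ⟨H'.1, fun ε hε hε' => H'.2 ε hε hε'⟩

end Pool.Agent.TSM
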