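import Pool.Agent.TSM.SStmts

set_option autoImplicit false

/-! Planar germs are not changed by the smoothing. -/

namespace Pool.Agent.TSM

open Set Filter Topology Metric

namespace FLAT_

/-- A unit vector is the third member of an orthonormal triple. -/
lemma exists_triple (v : E3) (hv : ‖v‖ = 1) :
    ∃ u w : E3, ‖u‖ = 1 ∧ ‖w‖ = 1 ∧ LinearIndependent ℝ ![u, w, v] := by
  have hcard : Module.finrank ℝ E3 = Fintype.card (Fin 3) := by simp
  have ho : Orthonormal ℝ (({2} : Set (Fin 3)).domRestrict (fun _ : Fin 3 => v)) := by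
    constructor
    · intro i
      exact hv
    · rintro ⟨i, hi⟩ ⟨j, hj⟩ hij
      exact absurd (Subtype.ext ((mem_singleton_iff.1 hi).trans (mem_singleton_iff.1 hj).symm)) hij
  obtain ⟨b, hb⟩ := ho.exists_orthonormalBasis_extension_of_card_eq hcard
  refine ⟨b 0, b 1, b.orthonormal.1 0, b.orthonormal.1 1, ?_⟩
  have h2 : b 2 = v := hb 2 rfl
  have h3 : (![b 0, b 1, v] : Fin 3 → E3) = b := by
    funext i
    fin_cases i
    · rfl
    · rfl
    · exact h2.symm
  rw [h3]
  exact b.orthonormal.linearIndependent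

lemma ev_sub (n : E3) (t : ℝ) (x y : E3) :
    ev (n, t) x = inner ℝ n (x - y) + ev (n, t) y := by
  unfold ev
  rw [inner_sub_right]
  ring

lemma inner_le {n z : E3} (hn : ‖n‖ = 1) (hz : ‖z‖ < 1) :
    |(inner ℝ n z : ℝ)| < 1 := by
  refine lt_of_le_of_lt (abs_real_inner_le_norm n z) ?_
  rw [hn, one_mul]
  exact hz

end FLAT_

open FLAT_ in
theorem flat_proof (h1 : Stmt_Uniq) : Stmt_Flat := by
  intro φ hφ a b c hind ha hb hc d hd y hy ⟨r, hr, hrd⟩
  have hdn : 0 < ‖d.1‖ := norm_pos_iff.2 hd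
  -- the unit version of `d`
  set n : E3 := (‖d.1‖)⁻¹ • d.1 with hn
  have hn1 : ‖n‖ = 1 := by
    rw [hn, norm_smul, norm_inv, norm_norm, inv_mul_cancel₀ hdn.ne']
  obtain ⟨u, w, hu, hw, hli⟩ := exists_triple n hn1
  set c' : Aff := (n, (‖d.1‖)⁻¹ * d.2) with hc'
  set a' : Aff := (u, inner ℝ u y + 10) with ha'
  set b' : Aff := (w, inner ℝ w y + 10) with hb'
  have hevc : ∀ x, ev c' x = (‖d.1‖)⁻¹ * ev d x := by
    intro x
    change inner ℝ n x - (‖d.1‖)⁻¹ * d.2 = (‖d.1‖)⁻¹ * (inner ℝ d.1 x - d.2)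
    rw [hn, real_inner_smul_left]
    ring
  have hyd : ev d y = 0 := (hrd y (mem_ball_self hr)).1 hy
  have hyc : ev c' y = 0 := by rw [hevc, hyd, mul_zero]
  have hya : ev a' y = -10 := by
    change inner ℝ u y - (inner ℝ u y + 10) = -10
    ring
  have hyb : ev b' y = -10 := by
    change inner ℝ w y - (inner ℝ w y + 10) = -10
    ring
  have hxa : ∀ x ∈ ball y 1, ev a' x ≤ -9 := by
    intro x hx
    have h := abs_lt.1 (inner_le hu (by rwa [mem_ball_iff_norm] at hx : ‖x - y‖ < 1))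
    rw [show ev a' x = inner ℝ u (x - y) + ev a' y from ev_sub u _ x y, hya]
    linarith [h.2]
  have hxb : ∀ x ∈ ball y 1, ev b' x ≤ -9 := by
    intro x hx
    have h := abs_lt.1 (inner_le hw (by rwa [mem_ball_iff_norm] at hx : ‖x - y‖ < 1))
    rw [show ev b' x = inner ℝ w (x - y) + ev b' y from ev_sub w _ x y, hyb]
    linarith [h.2]
  have hxc : ∀ x ∈ ball y 1, -1 ≤ ev c' x := by
    intro x hx
    have h := abs_lt.1 (inner_le hn1 (by rwa [mem_ball_iff_norm] at hx : ‖x - y‖ < 1))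
    rw [show ev c' x = inner ℝ n (x - y) + ev c' y from ev_sub n _ x y, hyc]
    linarith [h.1]
  have hG : ∀ x ∈ ball y 1, G3 a' b' c' x = ev c' x := by
    intro x hx
    unfold G3
    refine max_eq_right ?_
    exact (min_le_left _ _).trans (by linarith [hxa x hx, hxc x hx])
  have hF : ∀ x ∈ ball y 1, ∀ ε : ℝ, 0 < ε → ε < 1 → F3 φ ε a' b' c' x = ev c' x := by
    intro x hx ε hε hε1
    have hp : 0 ≤ φ ((-(ev a' x) - -(ev b' x)) / ε) := (le_max_right _ _).trans (hφ.ge _)
    unfold F3 smax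
    rw [hφ.zero, mul_zero, add_zero]
    rw [div_le_iff₀ hε]
    have h := mul_nonneg hε.le hp
    linarith [hxb x hx, hxc x hx]
  obtain ⟨s, hs, -, r', hr', ε₀, hε₀, huniq⟩ := h1 φ hφ a b c a' b' c' hind hli ha hb hc hu hw hn1 y hy
    ⟨min r 1, lt_min hr one_pos, fun x hx => by
      have hx1 : x ∈ ball y r := ball_subset_ball (min_le_left _ _) hx
      have hx2 : x ∈ ball y 1 := ball_subset_ball (min_le_right _ _) hx
      rw [hrd x hx1, hG x hx2, hevc x]
      constructor
      · intro h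
        rw [h, mul_zero]
      · intro h
        rcases mul_eq_zero.1 h with h | h
        · exact absurd h (inv_pos.2 hdn).ne'
        · exact h⟩
  have hs0 : s ≠ 0 := by
    rcases hs with h | h <;> rw [h] <;> norm_num
  refine ⟨min r' 1, lt_min hr' one_pos, min ε₀ 1, lt_min hε₀ one_pos, ?_⟩
  intro x hx hGx ε hε hεlt
  have hx1 : x ∈ ball y r' := ball_subset_ball (min_le_left _ _) hx
  have hx2 : x ∈ ball y 1 := ball_subset_ball (min_le_right _ _) hx
  obtain ⟨hg, hf⟩ := huniq x hx1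
  have h2 := hf ε hε (hεlt.trans_le (min_le_left _ _))
  rw [hGx, mul_zero, hG x hx2] at hg
  rw [hF x hx2 ε hε (hεlt.trans_le (min_le_right _ _)), hg] at h2
  rcases mul_eq_zero.1 h2.symm with h | h
  · exact absurd h hs0
  · exact h

end Pool.Agent.TSM
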