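import Pool.Agent.TSM.SStmts

/-!
# TSM, module GLUE: the smoothed map, glued from the good part and the outer part
-/

set_option autoImplicit false

namespace Pool.Agent.TSM

open Set Filter Topology Metric
open scoped Manifold ContDiff

namespace GLUE_

theorem ev_sub_le (φ : Aff) (h : ‖φ.1‖ = 1) (x y : E3) : ev φ x - ev φ y ≤ ‖x - y‖ := by
  have h1 : ev φ x - ev φ y = inner ℝ φ.1 (x - y) := by
    unfold ev; rw [inner_sub_right]; ring
  rw [h1]
  calc (inner ℝ φ.1 (x - y) : ℝ) ≤ ‖φ.1‖ * ‖x - y‖ := real_inner_le_norm _ _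
    _ = ‖x - y‖ := by rw [h, one_mul]

theorem ev_cont (φ : Aff) : Continuous (ev φ) := by
  unfold ev; fun_prop

theorem indep_ne {a b c : Aff} (h : Indep a b c) : a ≠ b := by
  intro hab
  have h1 := h.injective
  have h2 : (0 : Fin 3) = 1 := by
    apply h1
    simp [hab]
  exact absurd h2 (by decide)

/-- the points with two different active planes -/
def Z2 {M : Type} (Φ : Finset Aff) (D : M → E3) : Set M :=
  {x | ∃ φ ∈ Φ, ∃ ψ ∈ Φ, φ ≠ ψ ∧ ev φ (D x) = 0 ∧ ev ψ (D x) = 0}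

theorem isClosed_Z2 {M : Type} [TopologicalSpace M] (Φ : Finset Aff) (D : M → E3)
    (hD : Continuous D) : IsClosed (Z2 Φ D) := by
  have h : Z2 Φ D = ⋃ φ ∈ Φ, ⋃ ψ ∈ Φ, {x | φ ≠ ψ ∧ ev φ (D x) = 0 ∧ ev ψ (D x) = 0} := by
    ext x
    simp only [Z2, Set.mem_ofPred_eq, mem_iUnion, exists_prop]
  rw [h]
  refine isClosed_biUnion_finset fun φ _ => isClosed_biUnion_finset fun ψ _ => ?_
  by_cases hne : φ = ψ
  · simp [hne]
  · have h2 : {x | φ ≠ ψ ∧ ev φ (D x) = 0 ∧ ev ψ (D x) = 0} =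
        {x | ev φ (D x) = 0} ∩ {x | ev ψ (D x) = 0} := by
      ext x
      simp [hne]
    rw [h2]
    exact (isClosed_eq ((ev_cont φ).comp hD) continuous_const).inter
      (isClosed_eq ((ev_cont ψ).comp hD) continuous_const)

theorem isOpen_OG {M : Type} [TopologicalSpace M] (Φ : Finset Aff) (D : M → E3) :
    IsOpen {x | OutGood Φ D x} := by
  rw [isOpen_iff_mem_nhds]
  rintro x ⟨U, hU, hinj, hz⟩
  rw [_root_.mem_nhds_iff] at hU
  obtain ⟨V, hVU, hV, hxV⟩ := hU
  refine mem_of_superset (hV.mem_nhds hxV) ?_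
  intro y hy
  exact ⟨U, mem_of_superset (hV.mem_nhds hy) hVU, hinj, hz⟩

/-- away from `O1` two different planes are never both almost active -/
theorem exists_lam {M : Type} [TopologicalSpace M] [CompactSpace M] (Φ : Finset Aff) (D : M → E3)
    (hD : Continuous D) (hC : ∀ x, D x ∈ hull Φ) (O : Set M) (hO : IsOpen O)
    (hZ : Z2 Φ D ⊆ O) : ∃ lam : ℝ, 0 < lam ∧ ∀ x, x ∉ O → ∀ φ ∈ Φ, ∀ ψ ∈ Φ,
      -(2 * lam) < ev φ (D x) → -(2 * lam) < ev ψ (D x) → φ = ψ := by
  have key : ∀ φ ∈ Φ, ∀ ψ ∈ Φ, ∀ᶠ t in 𝓝[>] (0 : ℝ), ∀ x, x ∉ O →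
      -(2 * t) < ev φ (D x) → -(2 * t) < ev ψ (D x) → φ = ψ := by
    intro φ hφ ψ hψ
    by_cases hne : φ = ψ
    · exact Eventually.of_forall fun t x _ _ _ => hne
    · rcases (Oᶜ).eq_empty_or_nonempty with he | hn
      · refine Eventually.of_forall fun t x hx => ?_
        have : x ∈ Oᶜ := hx
        rw [he] at this
        exact this.elim
      · have hc : IsCompact Oᶜ := hO.isClosed_compl.isCompact
        obtain ⟨x0, hx0, hmax⟩ := hc.exists_isMaxOn hn
          (f := fun x => min (ev φ (D x)) (ev ψ (D x)))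
          (((ev_cont φ).comp hD).min ((ev_cont ψ).comp hD)).continuousOn
        have hneg : min (ev φ (D x0)) (ev ψ (D x0)) < 0 := by
          by_contra hcon
          rw [not_lt] at hcon
          have h1 := le_trans hcon (min_le_left _ _)
          have h2 := le_trans hcon (min_le_right _ _)
          have h3 := hC x0 φ hφ
          have h4 := hC x0 ψ hψ
          exact hx0 (hZ ⟨φ, hφ, ψ, hψ, hne, le_antisymm h3 h1, le_antisymm h4 h2⟩)
        have hev : ∀ᶠ t in 𝓝[>] (0 : ℝ), 2 * t < -min (ev φ (D x0)) (ev ψ (D x0)) := by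
          have h5 : Tendsto (fun t : ℝ => 2 * t) (𝓝[>] 0) (𝓝 (2 * 0)) :=
            ((continuous_const.mul continuous_id).tendsto 0).mono_left nhdsWithin_le_nhds
          refine h5.eventually_lt_const ?_
          linarith
        filter_upwards [hev] with t ht x hx h1 h2
        exfalso
        have h6 : min (ev φ (D x)) (ev ψ (D x)) ≤ min (ev φ (D x0)) (ev ψ (D x0)) := hmax hx
        have h7 : -(2 * t) < min (ev φ (D x)) (ev ψ (D x)) := lt_min h1 h2
        linarith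
  have hall : ∀ᶠ t in 𝓝[>] (0 : ℝ), ∀ φ ∈ Φ, ∀ ψ ∈ Φ, ∀ x, x ∉ O →
      -(2 * t) < ev φ (D x) → -(2 * t) < ev ψ (D x) → φ = ψ := by
    refine (Filter.eventually_all_finset Φ).2 fun φ hφ => ?_
    exact (Filter.eventually_all_finset Φ).2 fun ψ hψ => key φ hφ ψ hψ
  obtain ⟨t, ht, ht0⟩ := (hall.and self_mem_nhdsWithin).exists
  exact ⟨t, ht0, fun x hx φ hφ ψ hψ h1 h2 => ht φ hφ ψ hψ x hx h1 h2⟩

/-- near a point with exactly one active plane the map is planar -/
theorem planar {M : Type} [TopologicalSpace M] (Φ : Finset Aff) (D : M → E3)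
    (hP : Poly Φ) (hD : Continuous D) (hC : ∀ x, D x ∈ hull Φ) (x : M) (hx : x ∉ Z2 Φ D)
    (hO : OutGood Φ D x) : ∃ d : Aff, d.1 ≠ 0 ∧ ∀ᶠ y in 𝓝 x, ev d (D y) = 0 := by
  obtain ⟨U, hU, -, hz⟩ := hO
  obtain ⟨φ, hφ, h0⟩ := hz x (mem_of_mem_nhds hU)
  refine ⟨φ, ?_, ?_⟩
  · intro h
    have := hP.unit φ hφ
    rw [h, norm_zero] at this
    exact zero_ne_one this
  · have hall : ∀ᶠ y in 𝓝 x, ∀ ψ ∈ Φ, ψ ≠ φ → ev ψ (D y) < 0 := by
      refine (Filter.eventually_all_finset Φ).2 fun ψ hψ => ?_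
      by_cases hne : ψ = φ
      · exact Eventually.of_forall fun y h => absurd hne h
      · have h1 : ev ψ (D x) < 0 := by
          refine lt_of_le_of_ne (hC x ψ hψ) fun h2 => ?_
          exact hx ⟨ψ, hψ, φ, hφ, hne, h2, h0⟩
        have h2 : ∀ᶠ y in 𝓝 x, ev ψ (D y) < 0 :=
          (((ev_cont ψ).comp hD).tendsto x).eventually_lt_const h1
        exact h2.mono fun y hy _ => hy
    filter_upwards [hall, hU] with y hy hyU
    obtain ⟨ψ, hψ, h1⟩ := hz y hyU
    by_cases hne : ψ = φ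
    · rw [← hne]; exact h1
    · exact absurd h1 (hy ψ hψ hne).ne

end GLUE_

open GLUE_

/-- GLUE (uses GOODP, RHO, NEAR, PREX): the smoothed map. -/
theorem glue_proof (h1 : Stmt_Goodp) (h2 : Stmt_Rho) (h3 : Stmt_Near) (h4 : Stmt_Prex) :
    Stmt_Glue := by
  intro M _ _ _ _ Φ D hPS ε hε
  have hP := hPS.poly
  have hD := hPS.cont
  have hC := hPS.inC
  have hZc := isClosed_Z2 Φ D hD
  have hOGo := isOpen_OG Φ D
  have hZOG : Z2 Φ D ⊆ {x | OutGood Φ D x} := by
    rintro x hx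
    exact hPS.out x hx
  obtain ⟨O2, hO2, hZO2, hO2c⟩ := normal_exists_closure_subset hZc hOGo hZOG
  obtain ⟨O1, hO1, hZO1, hO1c⟩ := normal_exists_closure_subset hZc hO2 hZO2
  obtain ⟨lam, hlam, hlamP⟩ := exists_lam Φ D hD hC O1 hO1 hZO1
  obtain ⟨r, hr, hrP⟩ := h4 M Φ D hPS
  obtain ⟨lN, hlN, hlNP⟩ := h3 Φ hP r hr
  obtain ⟨e1, he1, he1a, he1b, he1c⟩ : ∃ e1 : ℝ, 0 < e1 ∧ e1 < ε ∧ e1 < lam ∧ 2 * e1 ≤ lN := by
    refine ⟨min (min ε lam) lN / 2, ?_, ?_, ?_, ?_⟩
    · have : 0 < min (min ε lam) lN := lt_min (lt_min hε hlam) hlN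
      linarith
    · have := min_le_left (min ε lam) lN
      have := min_le_left ε lam
      linarith
    · have := min_le_left (min ε lam) lN
      have := min_le_right ε lam
      linarith
    · have := min_le_right (min ε lam) lN
      linarith
  obtain ⟨lR, hlR, hlRP⟩ := h2 Φ hP e1 he1
  obtain ⟨l, hl, hla, hlb, hlc⟩ : ∃ l : ℝ, 0 < l ∧ l < lam ∧ 2 * l ≤ lN ∧ l < lR := by
    refine ⟨min (min lam lN) lR / 2, ?_, ?_, ?_, ?_⟩
    · have : 0 < min (min lam lN) lR := lt_min (lt_min hlam hlN) hlR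
      linarith
    · have := min_le_left (min lam lN) lR
      have := min_le_left lam lN
      linarith
    · have := min_le_left (min lam lN) lR
      have := min_le_right lam lN
      linarith
    · have := min_le_right (min lam lN) lR
      linarith
  obtain ⟨ho, ρ, hρc, hρi, hρ⟩ := hlRP l hl hlc
  have hO12 : O1 ⊆ O2 := subset_closure.trans hO1c
  have hKgood : ∀ x ∈ O1ᶜ, Good D x := by
    intro x hx
    refine hPS.good x fun φ hφ ψ hψ ha hb => ?_
    by_contra hne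
    exact hx (hZO1 ⟨φ, hφ, ψ, hψ, hne, ha, hb⟩)
  have hRplan : ∀ x ∈ closure O2 \ O1, ∃ d : Aff, d.1 ≠ 0 ∧ ∀ᶠ y in 𝓝 x, ev d (D y) = 0 := by
    rintro x ⟨hxa, hxb⟩
    exact planar Φ D hP hD hC x (fun h => hxb (hZO1 h)) (hO2c hxa)
  obtain ⟨N, g1, hN, hg1, hg1D, hg1R, hg1K⟩ := h1 M D O1ᶜ O2ᶜ (closure O2 \ O1) hD
    hO1.isClosed_compl hO2.isClosed_compl (isClosed_closure.sdiff hO1)
    (by rw [interior_compl]; exact compl_subset_compl.2 hO1c)
    (fun x hx => hx.2) hKgood hRplan e1 he1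
  -- points of `closure O2` are mapped to the boundary
  have hbd : ∀ x ∈ closure O2, ∃ φ ∈ Φ, ev φ (D x) = 0 := by
    intro x hx
    obtain ⟨U, hU, -, hz⟩ := hO2c hx
    exact hz x (mem_of_mem_nhds hU)
  have hρR : ∀ x ∈ closure O2 \ O1, ρ (D x) = D x := by
    rintro x ⟨hxa, hxb⟩
    refine (hρ (D x) (hC x) (hbd x hxa)).2.2 fun φ hφ ψ hψ ha hb => ?_
    exact hlamP x hxb φ hφ ψ hψ (by linarith) (by linarith)
  classical
  set g : M → E3 := fun x => if x ∈ O2 then ρ (D x) else g1 x with hg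
  have hgin : ∀ x ∈ O2, g x = ρ (D x) := fun x hx => by simp only [hg, if_pos hx]
  have hgout : ∀ x, x ∉ O2 → g x = g1 x := fun x hx => by simp only [hg, if_neg hx]
  have hgcl : ∀ x ∈ closure O2, g x = ρ (D x) := by
    intro x hx
    by_cases hx2 : x ∈ O2
    · exact hgin x hx2
    · have hxR : x ∈ closure O2 \ O1 := ⟨hx, fun h => hx2 (hO12 h)⟩
      rw [hgout x hx2, hg1R x hxR, hρR x hxR]
  have hg1' : ∀ x, x ∉ O1 → g x = g1 x := by
    intro x hx
    by_cases hx2 : x ∈ O2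
    · have hxR : x ∈ closure O2 \ O1 := ⟨subset_closure hx2, hx⟩
      rw [hgin x hx2, hg1R x hxR, hρR x hxR]
    · exact hgout x hx2
  have hgcont : Continuous g := by
    have hc1 : ContinuousOn g (closure O2) := by
      have : ContinuousOn (fun x => ρ (D x)) (closure O2) := by
        refine hρc.comp hD.continuousOn ?_
        intro x hx
        exact ⟨hC x, hbd x hx⟩
      exact this.congr fun x hx => hgcl x hx
    have hc2 : ContinuousOn g O2ᶜ := hg1.continuousOn.congr fun x hx => hgout x hx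
    have hc3 := hc1.union_of_isClosed hc2 isClosed_closure hO2.isClosed_compl
    rw [← continuousOn_univ]
    refine hc3.mono fun x _ => ?_
    by_cases hx2 : x ∈ O2
    · exact Or.inl (subset_closure hx2)
    · exact Or.inr hx2
  have hgD : ∀ x, ‖g x - D x‖ < e1 := by
    intro x
    by_cases hx2 : x ∈ O2
    · rw [hgin x hx2]
      exact (hρ (D x) (hC x) (hbd x (subset_closure hx2))).2.1
    · rw [hgout x hx2]
      exact hg1D x
  refine ⟨N, l, g, hN, hl, ho, hgcont, fun x => (hgD x).trans he1a, ?_, ?_⟩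
  · intro x
    by_cases hx2 : x ∈ O2
    · right
      obtain ⟨U, hU, hinj, hz⟩ := hO2c (subset_closure hx2)
      refine ⟨U ∩ O2, inter_mem hU (hO2.mem_nhds hx2), ?_, ?_⟩
      · intro y hy z hz' hyz
        rw [hgin y hy.2, hgin z hz'.2] at hyz
        have := hρi ⟨hC y, hbd y (subset_closure hy.2)⟩ ⟨hC z, hbd z (subset_closure hz'.2)⟩ hyz
        exact hinj hy.1 hz'.1 this
      · intro y hy
        rw [hgin y hy.2]
        exact (hρ (D y) (hC y) (hbd y (subset_closure hy.2))).1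
    · left
      obtain ⟨U, hU, hinj, φ, δ, a, b, c, hφ, hδ, hind, ha, hb, hc, hz⟩ := hg1K x hx2
      have hxc : x ∈ (closure O1)ᶜ := fun h => hx2 (hO1c h)
      have hnh : (closure O1)ᶜ ∈ 𝓝 x := isClosed_closure.isOpen_compl.mem_nhds hxc
      have hgg : ∀ y ∈ (closure O1)ᶜ, g y = g1 y := fun y hy =>
        hg1' y fun h => hy (subset_closure h)
      refine ⟨U ∩ (closure O1)ᶜ, inter_mem hU hnh, ?_, φ, δ, a, b, c, hφ, hδ, hind, ha, hb, hc, ?_⟩
      · intro y hy z hz' hyz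
        rw [hgg y hy.2, hgg z hz'.2] at hyz
        exact hinj hy.1 hz'.1 hyz
      · intro y hy
        rw [hgg y hy.2]
        exact hz y hy.1
  · rintro x x' hxx ⟨φ₁, hφ₁, φ₂, hφ₂, φ₃, hφ₃, hind, hA, hB, hCC⟩
    have hshift : ∀ z φ, φ ∈ Φ → -l < ev φ (g z) → -(l + e1) < ev φ (D z) := by
      intro z φ hφ h
      have h5 := ev_sub_le φ (hP.unit φ hφ) (g z) (D z)
      have h6 := hgD z
      linarith
    have hmem : ∀ z, g z = g x → z ∈ O1 := by
      intro z hz
      by_contra hcon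
      rw [← hz] at hA hB
      have h5 := hshift z φ₁ hφ₁ hA
      have h6 := hshift z φ₂ hφ₂ hB
      exact indep_ne hind (hlamP z hcon φ₁ hφ₁ φ₂ hφ₂ (by linarith) (by linarith))
    have hx1 := hO12 (hmem x rfl)
    have hx2 := hO12 (hmem x' hxx.symm)
    have hDD : D x = D x' := by
      rw [hgin x hx1, hgin x' hx2] at hxx
      exact hρi ⟨hC x, hbd x (subset_closure hx1)⟩ ⟨hC x', hbd x' (subset_closure hx2)⟩ hxx
    obtain ⟨e, he, hde⟩ := hlNP (D x) (hC x) ⟨φ₁, hφ₁, φ₂, hφ₂, φ₃, hφ₃, hind,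
      by have := hshift x φ₁ hφ₁ hA; linarith, by have := hshift x φ₂ hφ₂ hB; linarith,
      by have := hshift x φ₃ hφ₃ hCC; linarith⟩
    exact hrP e he x x' hde (by rw [← hDD]; exact hde) hDD

end Pool.Agent.TSM
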