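import Pool.Agent.TSM.SStmts

/-!
# TSM, module GOODP: the smoothed map on the good part
-/

set_option autoImplicit false

namespace Pool.Agent.TSM

open Set Filter Topology Metric
open scoped Manifold ContDiff

namespace GOODP_

lemma fderiv_ev (d : Aff) (hd : d.1 ≠ 0) (x : E3) : fderiv ℝ (ev d) x ≠ 0 := by
  have h1 : HasFDerivAt (ev d) (innerSL ℝ d.1) x := by
    have h := ((innerSL ℝ d.1).hasFDerivAt (x := x)).sub_const d.2
    exact h
  rw [h1.fderiv]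
  intro h0
  have h2 : innerSL ℝ d.1 d.1 = 0 := by rw [h0]; rfl
  apply hd
  have h3 : inner ℝ d.1 d.1 = (0 : ℝ) := h2
  exact inner_self_eq_zero.1 h3

lemma contDiff_ev (d : Aff) : ContDiff ℝ 1 (ev d) := by
  have h : ContDiff ℝ 1 (fun x : E3 => innerSL ℝ d.1 x - d.2) :=
    (innerSL ℝ d.1).contDiff.sub contDiff_const
  exact h

/-- the planar case: near a planar point the smoothed function vanishes on the image -/
lemma planar (h2 : Stmt_F3P) (h3 : Stmt_Opim) (h4 : Stmt_Flat)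
    {M : Type} [TopologicalSpace M] [ChartedSpace E2 M] (D : M → E3) (hD : Continuous D)
    {φ : ℝ → ℝ} (hφ : IsPhi φ) (a b c : Aff) (e : E3) (hind : Indep a b c)
    (ua : ‖a.1‖ = 1) (ub : ‖b.1‖ = 1) (uc : ‖c.1‖ = 1)
    (ea : inner ℝ a.1 e = 1) (eb : inner ℝ b.1 e = 1) (ec : inner ℝ c.1 e = 1)
    (U : Set M) (hU : IsOpen U) (hinj : InjOn D U) (hz : ∀ x ∈ U, G3 a b c (D x) = 0)
    (x : M) (hx : x ∈ U) (d : Aff) (hd : d.1 ≠ 0) (hev : ∀ᶠ y in 𝓝 x, ev d (D y) = 0) :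
    ∀ᶠ z : ℝ × M in 𝓝 ((0 : ℝ), x), 0 < z.1 → F3 φ z.1 a b c (D z.2) = 0 := by
  have hW : U ∩ {y | ev d (D y) = 0} ∈ 𝓝 x := inter_mem (hU.mem_nhds hx) hev
  obtain ⟨o1, o2⟩ := h3 M (U ∩ {y | ev d (D y) = 0}) D x hW hD.continuousOn
    (hinj.mono inter_subset_left)
  have hmon := (h2 φ hφ a b c).2.1 e ea eb ec
  obtain ⟨s, hs, hs'⟩ := o1 (G3 a b c) e 1 one_pos
    (fun y _ t ht _ => by
      have := (hmon y t).1
      rw [this]
      linarith)
    (fun y hy => hz y hy.1)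
  obtain ⟨s2, hs2, hs2'⟩ := o2 (ev d) (contDiff_ev d) (fderiv_ev d hd _) (fun y hy => hy.2)
  obtain ⟨r, hr, ε₀, hε₀, hF⟩ := h4 φ hφ a b c hind ua ub uc d hd (D x) (hz x hx)
    ⟨min s s2, lt_min hs hs2, fun y hy => by
      constructor
      · intro h0
        obtain ⟨w, hw, hwy⟩ := hs' y (ball_subset_ball (min_le_left _ _) hy) h0
        rw [← hwy]
        exact hw.2
      · intro h0
        obtain ⟨w, hw, hwy⟩ := hs2' y (ball_subset_ball (min_le_right _ _) hy) h0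
        rw [← hwy]
        exact hz w hw.1⟩
  have e1 : ∀ᶠ y in 𝓝 x, D y ∈ ball (D x) r :=
    hD.continuousAt.eventually (ball_mem_nhds (D x) hr)
  have e2 : ∀ᶠ y in 𝓝 x, y ∈ U := hU.mem_nhds hx
  have e3 : ∀ᶠ t in 𝓝 (0 : ℝ), t < ε₀ := eventually_lt_nhds hε₀
  have e4 : ∀ᶠ z : ℝ × M in 𝓝 ((0 : ℝ), x), z.1 < ε₀ ∧ (D z.2 ∈ ball (D x) r ∧ z.2 ∈ U) := by
    rw [nhds_prod_eq]
    exact e3.prod_mk (e1.and e2)
  filter_upwards [e4] with z hz1 hz0
  exact hF (D z.2) hz1.2.1 (hz z.2 hz1.2.2) z.1 hz0 hz1.1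

lemma norm_bound (h2 : Stmt_F3P)
    {M : Type} [TopologicalSpace M] (D : M → E3) {K : Set M} {m : ℕ} {U : Fin m → Set M}
    {a b c : Fin m → Aff} {e : Fin m → E3} {χ : Fin m → M → ℝ} (hc : GCover D K m U a b c e χ)
    {φ : ℝ → ℝ} (hφ : IsPhi φ) (ε : ℝ) (hε : 0 < ε) (x : M) :
    ‖gsm D m a b c e χ φ ε x - D x‖ ≤ ε * ∑ j, 2 * ‖e j‖ := by
  have h0 : gsm D m a b c e χ φ ε x - D x =
      - ∑ j, (χ j x * F3 φ ε (a j) (b j) (c j) (D x)) • e j := by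
    unfold gsm
    abel
  rw [h0, norm_neg, Finset.mul_sum]
  refine (norm_sum_le _ _).trans (Finset.sum_le_sum fun j _ => ?_)
  rw [norm_smul]
  by_cases hχ : χ j x = 0
  · rw [hχ]
    simp only [zero_mul, norm_zero]
    positivity
  · have hxU : x ∈ U j := hc.supp j (subset_closure hχ)
    have hG := hc.zero j x hxU
    have hF := ((h2 φ hφ (a j) (b j) (c j)).1 ε hε).2.1 (D x)
    rw [hG, sub_zero] at hF
    have hχ1 : χ j x ≤ 1 := by
      have h5 := hc.le x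
      have h6 := Finset.single_le_sum (f := fun j => χ j x) (fun i _ => hc.nonneg i x)
        (Finset.mem_univ j)
      exact le_trans h6 h5
    have h7 : ‖χ j x * F3 φ ε (a j) (b j) (c j) (D x)‖ ≤ 1 * (2 * ε) := by
      rw [norm_mul]
      apply mul_le_mul _ _ (norm_nonneg _) zero_le_one
      · rw [Real.norm_of_nonneg (hc.nonneg j x)]
        exact hχ1
      · rw [Real.norm_eq_abs]
        exact hF
    calc ‖χ j x * F3 φ ε (a j) (b j) (c j) (D x)‖ * ‖e j‖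
        ≤ (1 * (2 * ε)) * ‖e j‖ := mul_le_mul_of_nonneg_right h7 (norm_nonneg _)
      _ = ε * (2 * ‖e j‖) := by ring

end GOODP_

open GOODP_ in
theorem goodp_proof (h1 : Stmt_Phi) (h2 : Stmt_F3P) (h3 : Stmt_Opim) (h4 : Stmt_Flat)
    (h5 : Stmt_Part) (h6 : Stmt_LocG) : Stmt_Goodp := by
  intro M _ _ _ _ D K K' R hD hK hK' hR hK'K hRK hgood hpl ε hε
  obtain ⟨φ, hφ⟩ := h1
  obtain ⟨m, U, a, b, c, e, χ, hc⟩ := h5 M D K hD hK hgood
  -- the good points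
  have A1 : ∀ᶠ t in 𝓝 (0 : ℝ), ∀ x ∈ K', 0 < t → ∃ V ∈ 𝓝 x, ∃ j : Fin m,
      InjOn (gsm D m a b c e χ φ t) V ∧
      ∀ y ∈ V, F3 φ t (a j) (b j) (c j) (gsm D m a b c e χ φ t y) = 0 := by
    refine IsCompact.eventually_forall_of_forall_eventually (x₀ := (0 : ℝ)) hK'.isCompact
      (P := fun t x => 0 < t → ∃ V ∈ 𝓝 x, ∃ j : Fin m,
        InjOn (gsm D m a b c e χ φ t) V ∧
        ∀ y ∈ V, F3 φ t (a j) (b j) (c j) (gsm D m a b c e χ φ t y) = 0) ?_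
    intro x hx
    obtain ⟨V, hV, ε₀, hε₀, j, hj⟩ := h6 M D K m U a b c e χ hD hc φ hφ x (hK'K hx)
    have e1 : ∀ᶠ y in 𝓝 x, V ∈ 𝓝 y := eventually_mem_nhds_iff.2 hV
    have e2 : ∀ᶠ t in 𝓝 (0 : ℝ), t < ε₀ := eventually_lt_nhds hε₀
    have e3 : ∀ᶠ z : ℝ × M in 𝓝 ((0 : ℝ), x), z.1 < ε₀ ∧ V ∈ 𝓝 z.2 := by
      rw [nhds_prod_eq]
      exact e2.prod_mk e1
    filter_upwards [e3] with z hz hz0
    exact ⟨V, hz.2, j, hj z.1 hz0 hz.1⟩
  -- the planar points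
  have A2 : ∀ᶠ t in 𝓝 (0 : ℝ), ∀ x ∈ R, 0 < t → gsm D m a b c e χ φ t x = D x := by
    refine IsCompact.eventually_forall_of_forall_eventually (x₀ := (0 : ℝ)) hR.isCompact
      (P := fun t x => 0 < t → gsm D m a b c e χ φ t x = D x) ?_
    intro x hx
    obtain ⟨d, hd, hev⟩ := hpl x hx
    have B : ∀ j : Fin m, ∀ᶠ z : ℝ × M in 𝓝 ((0 : ℝ), x), 0 < z.1 →
        χ j z.2 * F3 φ z.1 (a j) (b j) (c j) (D z.2) = 0 := by
      intro j
      by_cases hxj : x ∈ closure (Function.support (χ j))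
      · have h7 := planar h2 h3 h4 D hD hφ (a j) (b j) (c j) (e j) (hc.ind j) (hc.ua j)
          (hc.ub j) (hc.uc j) (hc.ea j) (hc.eb j) (hc.ec j) (U j) (hc.opn j) (hc.inj j)
          (hc.zero j) x (hc.supp j hxj) d hd hev
        filter_upwards [h7] with z hz hz0
        rw [hz hz0, mul_zero]
      · have e1 : ∀ᶠ y in 𝓝 x, y ∉ closure (Function.support (χ j)) :=
          isClosed_closure.isOpen_compl.mem_nhds hxj
        have e2 : ∀ᶠ t in 𝓝 (0 : ℝ), True := Eventually.of_forall fun _ => trivial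
        have e3 : ∀ᶠ z : ℝ × M in 𝓝 ((0 : ℝ), x), True ∧
            z.2 ∉ closure (Function.support (χ j)) := by
          rw [nhds_prod_eq]
          exact e2.prod_mk e1
        filter_upwards [e3] with z hz _
        have h8 : χ j z.2 = 0 := by
          by_contra h9
          exact hz.2 (subset_closure h9)
        rw [h8, zero_mul]
    have B' := eventually_all.2 B
    filter_upwards [B'] with z hz hz0
    unfold gsm
    have h9 : ∑ j, (χ j z.2 * F3 φ z.1 (a j) (b j) (c j) (D z.2)) • e j = 0 := by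
      apply Finset.sum_eq_zero
      intro j _
      rw [hz j hz0, zero_smul]
    rw [h9, sub_zero]
  -- the norm
  have A3 : ∀ᶠ t in 𝓝 (0 : ℝ), t * ∑ j, 2 * ‖e j‖ < ε := by
    have h7 : Tendsto (fun t : ℝ => t * ∑ j, 2 * ‖e j‖) (𝓝 0) (𝓝 (0 * ∑ j, 2 * ‖e j‖)) :=
      tendsto_id.mul_const _
    rw [zero_mul] at h7
    exact h7.eventually (eventually_lt_nhds hε)
  have A4 : ∀ᶠ t in 𝓝[>] (0 : ℝ), 0 < t := self_mem_nhdsWithin
  have A5 := ((A1.and (A2.and A3)).filter_mono (nhdsWithin_le_nhds (s := Ioi (0 : ℝ)))).and A4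
  obtain ⟨t, ⟨ht1, ht2, ht3⟩, ht0⟩ := A5.exists
  refine ⟨(Set.range fun j => (a j).1) ∪ (Set.range fun j => (b j).1) ∪
    (Set.range fun j => (c j).1), gsm D m a b c e χ φ t, ?_, ?_, ?_, ?_, ?_⟩
  · exact ((Set.finite_range _).union (Set.finite_range _)).union (Set.finite_range _)
  · unfold gsm
    refine hD.sub (continuous_finsetSum _ fun j _ => ?_)
    refine ((hc.cont j).mul ?_).smul continuous_const
    exact ((h2 φ hφ (a j) (b j) (c j)).1 t ht0).1.continuous.comp hD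
  · intro x
    exact lt_of_le_of_lt (norm_bound h2 D hc hφ t ht0 x) ht3
  · intro x hx
    exact ht2 x hx ht0
  · intro x hx
    obtain ⟨V, hV, j, hj1, hj2⟩ := ht1 x hx ht0
    exact ⟨V, hV, hj1, φ, t, a j, b j, c j, hφ, ht0, hc.ind j,
      Or.inl (Or.inl ⟨j, rfl⟩), Or.inl (Or.inr ⟨j, rfl⟩), Or.inr ⟨j, rfl⟩, hj2⟩

end Pool.Agent.TSM
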