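import Pool.Agent.TSM.SStmts

/-!
# HHD: the smooth convex body
-/

set_option autoImplicit false

namespace Pool.Agent.TSM

open Set Filter Topology Metric
open scoped Manifold ContDiff

namespace HHD_

theorem ev_contDiff (φ : Aff) : ContDiff ℝ ∞ (fun x : E3 => ev φ x) := by
  unfold ev
  exact (contDiff_const.inner ℝ contDiff_id).sub contDiff_const

theorem ev_hasFDerivAt (φ : Aff) (y : E3) :
    HasFDerivAt (fun x : E3 => ev φ x) (innerSL ℝ φ.1) y := by
  unfold ev
  exact ((innerSL ℝ φ.1).hasFDerivAt).sub_const _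

end HHD_

theorem hhd_proof (h1 : Stmt_Theta) : Stmt_HHd := by
  intro Φ l o _ hl ho
  obtain ⟨t1, t2, -, t4, -, t6, -, -, -, t10, -⟩ := h1 l hl
  refine ⟨?_, ?_⟩
  · unfold HH
    refine ContDiff.sub (ContDiff.sum fun φ _ => ?_) contDiff_const
    exact t1.comp (HHD_.ev_contDiff φ)
  · intro y hy
    have hsum : ∑ φ ∈ Φ, theta l (ev φ y) = 1 := by
      unfold HH at hy
      linarith
    have hle : ∀ φ ∈ Φ, ev φ y ≤ 0 := by
      intro φ hφ
      by_contra hcon
      have h2 := t4 _ (not_le.1 hcon)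
      have h3 := Finset.single_le_sum (f := fun φ => theta l (ev φ y)) (fun ψ _ => t6 _) hφ
      have h4 : theta l (ev φ y) ≤ ∑ ψ ∈ Φ, theta l (ev ψ y) := h3
      linarith
    refine ⟨?_, hle⟩
    have hdiff : Differentiable ℝ (theta l) := t1.differentiable (by simp)
    have hder : HasFDerivAt (HH Φ l)
        (∑ φ ∈ Φ, (deriv (theta l) (ev φ y)) • innerSL ℝ φ.1) y := by
      unfold HH
      refine HasFDerivAt.sub_const _ ?_
      refine HasFDerivAt.fun_sum fun φ _ => ?_
      exact ((hdiff (ev φ y)).hasDerivAt).comp_hasFDerivAt y (HHD_.ev_hasFDerivAt φ y)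
    rw [hder.fderiv]
    intro h0
    have h2 : (∑ φ ∈ Φ, (deriv (theta l) (ev φ y)) • innerSL ℝ φ.1) (o - y) = 0 := by
      rw [h0]
      rfl
    rw [ContinuousLinearMap.sum_apply] at h2
    have h3 : ∀ φ ∈ Φ, ((deriv (theta l) (ev φ y)) • innerSL ℝ φ.1) (o - y) +
        theta l (ev φ y) ≤ 0 := by
      intro φ hφ
      have h4 : ((deriv (theta l) (ev φ y)) • innerSL ℝ φ.1) (o - y) =
          deriv (theta l) (ev φ y) * (ev φ o - ev φ y) := by
        rw [ContinuousLinearMap.smul_apply, smul_eq_mul, innerSL_apply_apply, inner_sub_right]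
        unfold ev
        ring
      have h5 := t10 (ev φ o) (ev φ y) (by linarith [ho φ hφ]) (hle φ hφ)
      rw [t2 _ (ho φ hφ)] at h5
      rw [h4]
      linarith
    have h6 := Finset.sum_le_sum h3
    rw [Finset.sum_add_distrib, h2, hsum, Finset.sum_const_zero] at h6
    linarith

end Pool.Agent.TSM
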