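import Pool.Agent.TSM.SStmts
import Pool.Agent.SD.LBC

/-!
# TSM, module INVD: invariance of domain in the plane (Kulpa's proof from Brouwer)
-/

set_option autoImplicit false

namespace Pool.Agent.TSM

open Set Filter Topology Metric MeasureTheory

namespace INVD_

/-- radial clamp onto the closed ball of radius `r` -/
noncomputable def clamp (r : ℝ) (x : E2) : E2 := (r / max r ‖x‖) • x

theorem clamp_cont {r : ℝ} (hr : 0 < r) : Continuous (clamp r) := by
  have h : Continuous fun x : E2 => r / max r ‖x‖ := by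
    refine continuous_const.div (continuous_const.max continuous_norm) ?_
    intro x
    exact (lt_of_lt_of_le hr (le_max_left _ _)).ne'
  exact h.smul continuous_id

theorem clamp_norm {r : ℝ} (hr : 0 < r) (x : E2) : ‖clamp r x‖ ≤ r := by
  unfold clamp
  have h0 : 0 < max r ‖x‖ := lt_of_lt_of_le hr (le_max_left _ _)
  rw [norm_smul, Real.norm_of_nonneg (by positivity), div_mul_eq_mul_div, div_le_iff₀ h0]
  exact mul_le_mul_of_nonneg_left (le_max_right _ _) hr.le

theorem clamp_eq {r : ℝ} (hr : 0 < r) {x : E2} (hx : ‖x‖ ≤ r) : clamp r x = x := by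
  unfold clamp
  rw [max_eq_left hx, div_self hr.ne', one_smul]

/-- stability of the zero -/
theorem stab {f G G' : E2 → E2} {x₀ : E2} {r : ℝ} (hr : 0 < r)
    (hf : ContinuousOn f (closedBall x₀ r)) (hG : Continuous G)
    (hGf : ∀ x ∈ closedBall x₀ r, G (f x) = x - x₀)
    (hG' : ContinuousOn G' (f '' closedBall x₀ r))
    (hd : ∀ y ∈ f '' closedBall x₀ r, ‖G y - G' y‖ ≤ r) :
    ∃ y ∈ f '' closedBall x₀ r, G' y = 0 := by
  have hmem : ∀ x : E2, x₀ + clamp r x ∈ closedBall x₀ r := by
    intro x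
    rw [mem_closedBall, dist_eq_norm, add_sub_cancel_left]
    exact clamp_norm hr x
  have hc1 : Continuous fun x : E2 => f (x₀ + clamp r x) :=
    hf.comp_continuous (continuous_const.add (clamp_cont hr)) hmem
  have hc2 : Continuous fun x : E2 => G' (f (x₀ + clamp r x)) :=
    hG'.comp_continuous hc1 (fun x => mem_image_of_mem f (hmem x))
  have hc3 : Continuous fun x : E2 =>
      x - (G (f (x₀ + clamp r x)) - G' (f (x₀ + clamp r x))) :=
    continuous_id.sub ((hG.comp hc1).sub hc2)
  obtain ⟨x, hx⟩ := Pool.Agent.SD.LBC.exists_zero _ hc3 r (by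
    intro x
    have h1 : x - (G (f (x₀ + clamp r x)) - G' (f (x₀ + clamp r x))) - x =
        -(G (f (x₀ + clamp r x)) - G' (f (x₀ + clamp r x))) := by abel
    rw [h1, norm_neg]
    exact hd _ (mem_image_of_mem f (hmem x)))
  have hx1 : x = G (f (x₀ + clamp r x)) - G' (f (x₀ + clamp r x)) := sub_eq_zero.1 hx
  have hx2 : ‖x‖ ≤ r := by
    rw [hx1]
    exact hd _ (mem_image_of_mem f (hmem x))
  have hx3 : clamp r x = x := clamp_eq hr hx2
  have hx4 : x₀ + x ∈ closedBall x₀ r := by
    have := hmem x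
    rwa [hx3] at this
  refine ⟨f (x₀ + x), mem_image_of_mem f hx4, ?_⟩
  rw [hx3, hGf _ hx4, add_sub_cancel_left] at hx1
  have : G' (f (x₀ + x)) = x - (x - G' (f (x₀ + x))) := by abel
  rw [this, ← hx1, sub_self]

/-- continuous left inverse defined everywhere -/
theorem exists_inv {f : E2 → E2} {x₀ : E2} {r : ℝ}
    (hf : ContinuousOn f (closedBall x₀ r)) (hinj : InjOn f (closedBall x₀ r)) :
    ∃ G : E2 → E2, Continuous G ∧ ∀ x ∈ closedBall x₀ r, G (f x) = x - x₀ := by
  have : CompactSpace (closedBall x₀ r) := isCompact_iff_compactSpace.1 (isCompact_closedBall _ _)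
  have he : IsClosedEmbedding (fun x : closedBall x₀ r => f x.1) := by
    refine (continuousOn_iff_continuous_domRestrict.1 hf).isClosedEmbedding ?_
    intro x y hxy
    exact Subtype.ext (hinj x.2 y.2 hxy)
  set L : E2 ≃L[ℝ] (Fin 2 → ℝ) := EuclideanSpace.equiv (Fin 2) ℝ
  obtain ⟨g, hg⟩ := ContinuousMap.exists_extension' he
    (⟨fun x : closedBall x₀ r => L (x.1 - x₀), by fun_prop⟩ : C(closedBall x₀ r, Fin 2 → ℝ))
  refine ⟨fun y => L.symm (g y), L.symm.continuous.comp g.continuous, ?_⟩
  intro x hx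
  have h1 := congrFun hg ⟨x, hx⟩
  have h2 : g (f x) = L (x - x₀) := h1
  simp only [h2, ContinuousLinearEquiv.symm_apply_apply]

theorem main {f : E2 → E2} {x₀ : E2} {r : ℝ} (hr : 0 < r)
    (hf : ContinuousOn f (closedBall x₀ r)) (hinj : InjOn f (closedBall x₀ r)) :
    f x₀ ∈ interior (f '' closedBall x₀ r) := by
  by_contra hnot
  obtain ⟨G, hG, hGf⟩ := exists_inv hf hinj
  set K := f '' closedBall x₀ r with hK
  have hKc : IsCompact K := (isCompact_closedBall _ _).image_of_continuousOn hf
  have hx₀ : x₀ ∈ closedBall x₀ r := mem_closedBall_self hr.le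
  set p := f x₀ with hp
  have hGp : G p = 0 := by rw [hp, hGf _ hx₀, sub_self]
  -- small radius
  obtain ⟨ε, hε, hεG⟩ : ∃ ε > 0, ∀ y, dist y p < 2 * ε → ‖G y‖ ≤ r / 10 := by
    obtain ⟨δ, hδ, h⟩ := Metric.continuous_iff.1 hG p (r / 10) (by positivity)
    refine ⟨δ / 2, by positivity, fun y hy => ?_⟩
    have := h y (by linarith)
    rw [hGp, dist_zero_right] at this
    exact this.le
  -- a point outside `K`
  obtain ⟨c, hcK, hcp⟩ : ∃ c, c ∉ K ∧ dist c p < ε := by
    by_contra hcon
    push Not at hcon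
    apply hnot
    rw [mem_interior_iff_mem_nhds]
    refine Metric.mem_nhds_iff.2 ⟨ε, hε, fun c hc => ?_⟩
    by_contra h
    exact absurd (mem_ball.1 hc) (not_lt.2 (hcon c h))
  -- lower bound on Σ1
  obtain ⟨δ, hδ, hδ1⟩ : ∃ δ > 0, ∀ y ∈ K, ε ≤ dist y c → δ ≤ ‖G y‖ := by
    have hS : IsCompact (K ∩ {y | ε ≤ dist y c}) :=
      hKc.inter_right (isClosed_le continuous_const (continuous_id.dist continuous_const))
    rcases (K ∩ {y | ε ≤ dist y c}).eq_empty_or_nonempty with he | hne
    · refine ⟨1, one_pos, fun y hy hyc => ?_⟩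
      have : y ∈ K ∩ {y | ε ≤ dist y c} := ⟨hy, hyc⟩
      rw [he] at this
      exact absurd this (notMem_empty _)
    · obtain ⟨y₀, hy₀, hmin⟩ := hS.exists_isMinOn hne hG.norm.continuousOn
      refine ⟨‖G y₀‖, ?_, fun y hy hyc => hmin ⟨hy, hyc⟩⟩
      rw [gt_iff_lt, norm_pos_iff]
      intro h0
      obtain ⟨⟨x, hx, hxy⟩, hyc⟩ := hy₀
      have h1 : x - x₀ = 0 := by
        rw [← hGf x hx, hxy, h0]
      have h2 : x = x₀ := sub_eq_zero.1 h1
      have h3 : y₀ = p := by rw [← hxy, h2]
      have h4 : ε ≤ dist y₀ c := hyc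
      rw [h3, dist_comm] at h4
      linarith
  set η := min δ (r / 10) / 2 with hη
  have hη0 : 0 < η := by
    have : 0 < min δ (r / 10) := lt_min hδ (by positivity)
    positivity
  have hη1 : 2 * η ≤ δ := by
    have := min_le_left δ (r / 10)
    rw [hη]; linarith
  have hη2 : 2 * η ≤ r / 10 := by
    have := min_le_right δ (r / 10)
    rw [hη]; linarith
  -- smooth approximation
  obtain ⟨P, hPd, hPG, -⟩ := hG.exists_contDiff_approx (F := E2) 1 (ε := fun _ => η)
    continuous_const (fun _ => hη0)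
  -- small generic vector
  obtain ⟨v, hvn, hvP⟩ : ∃ v : E2, ‖v‖ < η ∧ v ∉ P '' sphere c ε := by
    have h0 : (volume : Measure E2) (P '' sphere c ε) = 0 := by
      refine addHaar_image_eq_zero_of_differentiableOn_of_addHaar_eq_zero volume ?_
        (Measure.addHaar_sphere volume c ε)
      exact (hPd.differentiable (by simp)).differentiableOn
    by_contra hcon
    push Not at hcon
    have h1 : ball (0 : E2) η ⊆ P '' sphere c ε := fun v hv =>
      hcon v (by simpa using hv)
    have h2 := measure_mono_null h1 h0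
    exact (measure_ball_pos volume (0 : E2) hη0).ne' h2
  -- the modified map
  set Φ : E2 → E2 := fun y => c + (max (ε / ‖y - c‖) 1) • (y - c) with hΦ
  have hyc0 : ∀ y ∈ K, ‖y - c‖ ≠ 0 := by
    intro y hy h
    rw [norm_eq_zero, sub_eq_zero] at h
    exact hcK (h ▸ hy)
  have hΦc : ContinuousOn Φ K := by
    have h1 : ContinuousOn (fun y : E2 => y - c) K := by fun_prop
    have h2 : ContinuousOn (fun y : E2 => ε / ‖y - c‖) K :=
      continuousOn_const.div h1.norm hyc0
    have h3 : ContinuousOn (fun y : E2 => max (ε / ‖y - c‖) 1) K := h2.sup continuousOn_const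
    exact continuousOn_const.add (h3.smul h1)
  have hΦ1 : ∀ y ∈ K, ε ≤ dist y c → Φ y = y := by
    intro y hy h
    have h1 : 0 < ‖y - c‖ := lt_of_le_of_ne (norm_nonneg _) (hyc0 y hy).symm
    have h2 : max (ε / ‖y - c‖) 1 = 1 := by
      apply max_eq_right
      rw [div_le_one h1, ← dist_eq_norm]
      exact h
    simp only [hΦ, h2, one_smul]
    abel
  have hΦ2 : ∀ y ∈ K, dist y c < ε → Φ y ∈ sphere c ε := by
    intro y hy h
    have h1 : 0 < ‖y - c‖ := lt_of_le_of_ne (norm_nonneg _) (hyc0 y hy).symm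
    have h2 : max (ε / ‖y - c‖) 1 = ε / ‖y - c‖ := by
      apply max_eq_left
      rw [one_le_div h1, ← dist_eq_norm]
      exact h.le
    rw [mem_sphere, dist_eq_norm]
    simp only [hΦ, h2, add_sub_cancel_left]
    rw [norm_smul, Real.norm_of_nonneg (by positivity), div_mul_cancel₀ _ h1.ne']
  have hclose : ∀ y, ‖G y - (P y - v)‖ < 2 * η := by
    intro y
    have h1 : G y - (P y - v) = (G y - P y) + v := by abel
    have h2 : ‖G y - P y‖ < η := by
      have := hPG y
      rwa [dist_comm, dist_eq_norm] at this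
    rw [h1]
    calc ‖(G y - P y) + v‖ ≤ ‖G y - P y‖ + ‖v‖ := norm_add_le _ _
      _ < 2 * η := by linarith
  have hcont : ContinuousOn (fun y => P (Φ y) - v) K :=
    (hPd.continuous.comp_continuousOn hΦc).sub continuousOn_const
  obtain ⟨y, hy, hy0⟩ := stab hr hf hG hGf hcont (by
    intro y hy
    rcases le_or_gt ε (dist y c) with h | h
    · rw [hΦ1 y hy h]
      exact ((hclose y).le.trans hη2).trans (by linarith)
    · have h1 : Φ y ∈ sphere c ε := hΦ2 y hy h
      have h2 : dist (Φ y) p < 2 * ε := by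
        have := dist_triangle (Φ y) c p
        rw [mem_sphere.1 h1] at this
        linarith
      have h3 : dist y p < 2 * ε := by
        have := dist_triangle y c p
        linarith
      have h4 : G y - (P (Φ y) - v) = (G y - G (Φ y)) + (G (Φ y) - (P (Φ y) - v)) := by abel
      rw [h4]
      calc ‖(G y - G (Φ y)) + (G (Φ y) - (P (Φ y) - v))‖
          ≤ ‖G y - G (Φ y)‖ + ‖G (Φ y) - (P (Φ y) - v)‖ := norm_add_le _ _
        _ ≤ (‖G y‖ + ‖G (Φ y)‖) + 2 * η := add_le_add (norm_sub_le _ _) (hclose _).le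
        _ ≤ r := by
          have := hεG _ h2
          have := hεG _ h3
          linarith)
  rcases le_or_gt ε (dist y c) with h | h
  · have h1 : P y - v = 0 := by
      have := hy0
      simp only [hΦ1 y hy h] at this
      exact this
    have h2 := hclose y
    rw [h1, sub_zero] at h2
    have := hδ1 y hy h
    linarith
  · apply hvP
    refine ⟨Φ y, hΦ2 y hy h, ?_⟩
    exact sub_eq_zero.1 hy0

end INVD_

theorem invd_proof : Stmt_InvD := by
  intro U f hU hf hinj
  rw [isOpen_iff_mem_nhds]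
  rintro _ ⟨x, hx, rfl⟩
  obtain ⟨r, hr, hsub⟩ := Metric.nhds_basis_closedBall.mem_iff.1 (hU.mem_nhds hx)
  have h := INVD_.main hr (hf.mono hsub) (hinj.mono hsub)
  exact mem_of_superset (mem_interior_iff_mem_nhds.1 h) (image_mono hsub)

end Pool.Agent.TSM
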