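import Pool.Agent.TSM.SStmts

/-!
# TSM, module INVM: invariance of domain for topological surfaces
-/

set_option autoImplicit false

namespace Pool.Agent.TSM

open Set Filter Topology Metric
open scoped Manifold ContDiff

theorem invm_proof (hInvD : Stmt_InvD) : Stmt_InvM := by
  intro M _ _ U f hU hf hinj
  rw [isOpen_iff_mem_nhds]
  rintro y ⟨x, hx, rfl⟩
  let e := chartAt E2 x
  have hxe : x ∈ e.source := mem_chart_source E2 x
  have hW : IsOpen (e.target ∩ e.symm ⁻¹' U) := e.isOpen_inter_preimage_symm hU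
  have hmaps : MapsTo e.symm (e.target ∩ e.symm ⁻¹' U) U := fun z hz => hz.2
  have hc : ContinuousOn (f ∘ e.symm) (e.target ∩ e.symm ⁻¹' U) :=
    hf.comp (e.continuousOn_symm.mono inter_subset_left) hmaps
  have hi : InjOn (f ∘ e.symm) (e.target ∩ e.symm ⁻¹' U) :=
    hinj.comp (e.symm.injOn.mono inter_subset_left) hmaps
  have hopen := hInvD _ _ hW hc hi
  have hsub : (f ∘ e.symm) '' (e.target ∩ e.symm ⁻¹' U) ⊆ f '' U := by
    rintro _ ⟨z, hz, rfl⟩
    exact ⟨e.symm z, hz.2, rfl⟩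
  have hmem : f x ∈ (f ∘ e.symm) '' (e.target ∩ e.symm ⁻¹' U) := by
    refine ⟨e x, ⟨e.map_source hxe, ?_⟩, ?_⟩
    · show e.symm (e x) ∈ U
      rw [e.left_inv hxe]
      exact hx
    · show f (e.symm (e x)) = f x
      rw [e.left_inv hxe]
  exact mem_of_superset (hopen.mem_nhds hmem) hsub

end Pool.Agent.TSM
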