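import Pool.Agent.TSM.SStmts

/-!
# TSM, module LIMV: the two-piece property follows from a dense set of directions
-/

set_option autoImplicit false

namespace Pool.Agent.TSM

open Set Filter Topology Metric

theorem limv_proof : Stmt_Limv := by
  intro M _ _ _ g S hg hS hpc ν c
  rw [isPreconnected_closed_iff]
  intro t t' ht ht' hsub hne hne'
  by_contra hcon
  rw [Set.not_nonempty_iff_eq_empty] at hcon
  have hcont : Continuous fun x => (inner ℝ ν (g x) : ℝ) := continuous_const.inner hg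
  have hKc : IsClosed {x : M | c ≤ (inner ℝ ν (g x) : ℝ)} := isClosed_le continuous_const hcont
  set K : Set M := {x : M | c ≤ (inner ℝ ν (g x) : ℝ)} with hK
  have hA : IsClosed (K ∩ t) := hKc.inter ht
  have hB : IsClosed (K ∩ t') := hKc.inter ht'
  have hdis : Disjoint (K ∩ t) (K ∩ t') := by
    rw [Set.disjoint_iff_inter_eq_empty]
    rw [← hcon]
    ext x
    simp only [Set.mem_inter_iff]
    tauto
  obtain ⟨U, V, hU, hV, hAU, hBV, hUV⟩ := normal_separation hA hB hdis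
  have hCc : IsCompact (U ∪ V)ᶜ := (hU.union hV).isClosed_compl.isCompact
  have hlt : ∀ x ∈ (U ∪ V)ᶜ, (inner ℝ ν (g x) : ℝ) < c := by
    intro x hx
    by_contra hge
    push Not at hge
    have hxK : x ∈ K := hge
    rcases hsub hxK with h | h
    · exact hx (Or.inl (hAU ⟨hxK, h⟩))
    · exact hx (Or.inr (hBV ⟨hxK, h⟩))
  have hδ : ∃ δ : ℝ, 0 < δ ∧ ∀ x ∈ (U ∪ V)ᶜ, (inner ℝ ν (g x) : ℝ) ≤ c - 3 * δ := by
    rcases ((U ∪ V)ᶜ : Set M).eq_empty_or_nonempty with h | h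
    · refine ⟨1, one_pos, ?_⟩
      intro x hx
      rw [h] at hx
      exact absurd hx (Set.notMem_empty x)
    · obtain ⟨x0, hx0, hmax⟩ := hCc.exists_isMaxOn h hcont.continuousOn
      have h0 := hlt x0 hx0
      refine ⟨(c - inner ℝ ν (g x0)) / 3, by linarith, ?_⟩
      intro x hx
      have := hmax hx
      simp only [Set.mem_setOf_eq] at this
      linarith
  obtain ⟨δ, hδ0, hδ⟩ := hδ
  obtain ⟨R, hR⟩ : ∃ R : ℝ, ∀ x : M, ‖g x‖ ≤ R := by
    obtain ⟨R, hR⟩ := (isCompact_univ (X := M)).exists_bound_of_continuousOn hg.continuousOn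
    exact ⟨R, fun x => hR x (Set.mem_univ x)⟩
  have hR1 : 0 < |R| + 1 := by positivity
  obtain ⟨ν', hν'S, hν'⟩ := hS.exists_dist_lt ν (ε := δ / (|R| + 1)) (by positivity)
  have hclose : ∀ x : M, |(inner ℝ ν' (g x) : ℝ) - inner ℝ ν (g x)| < δ := by
    intro x
    rw [← inner_sub_left]
    calc |(inner ℝ (ν' - ν) (g x) : ℝ)| ≤ ‖ν' - ν‖ * ‖g x‖ := abs_real_inner_le_norm _ _
      _ ≤ ‖ν' - ν‖ * (|R| + 1) := by
          apply mul_le_mul_of_nonneg_left _ (norm_nonneg _)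
          have := hR x
          have := le_abs_self R
          linarith
      _ < δ := by
          rw [dist_comm, dist_eq_norm] at hν'
          rwa [lt_div_iff₀ hR1] at hν'
  have hpc' := hpc ν' hν'S (c - δ)
  have hsub' : {x : M | c - δ ≤ (inner ℝ ν' (g x) : ℝ)} ⊆ U ∪ V := by
    intro x hx
    by_contra hx'
    have h1 := hδ x hx'
    have h2 := (abs_lt.1 (hclose x)).2
    have h3 : c - δ ≤ (inner ℝ ν' (g x) : ℝ) := hx
    linarith
  obtain ⟨a, haK, hat⟩ := hne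
  obtain ⟨b, hbK, hbt⟩ := hne'
  have ha' : a ∈ {x : M | c - δ ≤ (inner ℝ ν' (g x) : ℝ)} := by
    have h1 : c ≤ (inner ℝ ν (g a) : ℝ) := haK
    have h2 := (abs_lt.1 (hclose a)).1
    simp only [Set.mem_setOf_eq]
    linarith
  have hb' : b ∈ {x : M | c - δ ≤ (inner ℝ ν' (g x) : ℝ)} := by
    have h1 : c ≤ (inner ℝ ν (g b) : ℝ) := hbK
    have h2 := (abs_lt.1 (hclose b)).1
    simp only [Set.mem_setOf_eq]
    linarith
  obtain ⟨z, -, hz⟩ := hpc' U V hU hV hsub' ⟨a, ha', hAU ⟨haK, hat⟩⟩ ⟨b, hb', hBV ⟨hbK, hbt⟩⟩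
  exact (Set.disjoint_left.1 hUV) hz.1 hz.2

end Pool.Agent.TSM
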