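import Pool.Agent.TSM.SStmts

/-!
# TSM, module LMAX: local maxima on the smooth convex surface
-/

set_option autoImplicit false

namespace Pool.Agent.TSM

open Set Filter Topology Metric
open scoped Manifold ContDiff

namespace LMAX_

lemma ev_sub (φ : Aff) (z y : E3) : ev φ z - ev φ y = inner ℝ φ.1 (z - y) := by
  unfold ev
  rw [inner_sub_right]
  ring

lemma hasFDerivAt_ev (φ : Aff) (y : E3) : HasFDerivAt (ev φ) (innerSL ℝ φ.1) y := by
  have h : HasFDerivAt (fun x : E3 => (innerSL ℝ φ.1) x) (innerSL ℝ φ.1) y :=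
    (innerSL ℝ φ.1).hasFDerivAt
  have h2 := h.sub_const φ.2
  exact h2

lemma hasFDerivAt_HH (Φ : Finset Aff) (l : ℝ) (hd : Differentiable ℝ (theta l)) (y : E3) :
    HasFDerivAt (HH Φ l) (∑ φ ∈ Φ, deriv (theta l) (ev φ y) • innerSL ℝ φ.1) y := by
  have h : HasFDerivAt (fun x : E3 => ∑ φ ∈ Φ, theta l (ev φ x))
      (∑ φ ∈ Φ, deriv (theta l) (ev φ y) • innerSL ℝ φ.1) y := by
    apply HasFDerivAt.fun_sum
    intro φ _
    exact ((hd (ev φ y)).hasDerivAt).comp_hasFDerivAt y (hasFDerivAt_ev φ y)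
  exact h.sub_const 1

/-- three independent vectors separate points -/
lemma eq_zero_of_indep {a b c : Aff} (h : Indep a b c) {w : E3}
    (ha : inner ℝ a.1 w = 0) (hb : inner ℝ b.1 w = 0) (hc : inner ℝ c.1 w = 0) : w = 0 := by
  have hspan : Submodule.span ℝ (Set.range ![a.1, b.1, c.1]) = ⊤ := by
    apply LinearIndependent.span_eq_top_of_card_eq_finrank' h
    simp
  have hw : ∀ v ∈ Submodule.span ℝ (Set.range ![a.1, b.1, c.1]), inner ℝ v w = 0 := by
    intro v hv
    induction hv using Submodule.span_induction with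
    | mem x hx =>
      obtain ⟨i, rfl⟩ := hx
      fin_cases i
      · exact ha
      · exact hb
      · exact hc
    | zero => simp
    | add x y _ _ hx hy => rw [inner_add_left, hx, hy, add_zero]
    | smul r x _ hx => rw [inner_smul_left, hx, mul_zero]
  have := hw w (by rw [hspan]; trivial)
  exact inner_self_eq_zero.mp this

/-- three independent vectors in a set spanning a vector which is not in the span of two -/
lemma exists_three {s : Set E3} {ν : E3} (hs : s.Nonempty)
    (hν : ν ∈ Submodule.span ℝ s) (hno : ∀ x ∈ s, ∀ y ∈ s, ν ∉ Submodule.span ℝ {x, y}) :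
    ∃ x ∈ s, ∃ y ∈ s, ∃ z ∈ s, LinearIndependent ℝ ![x, y, z] := by
  obtain ⟨b, hbs, hbsp, hbi⟩ := exists_linearIndependent ℝ s
  rw [← hbsp] at hν
  have hstep : ∀ x ∈ s, ∀ y ∈ s, ∃ z ∈ b, z ≠ x ∧ z ≠ y := by
    intro x hx y hy
    by_contra hcon
    push Not at hcon
    apply hno x hx y hy
    apply Submodule.span_mono (s := b) _ hν
    intro z hz
    by_cases h : z = x
    · left; exact h
    · right; exact hcon z hz h
  obtain ⟨p, hp⟩ := hs
  obtain ⟨x, hx, -, -⟩ := hstep p hp p hp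
  obtain ⟨y, hy, hyx, -⟩ := hstep x (hbs hx) x (hbs hx)
  obtain ⟨z, hz, hzx, hzy⟩ := hstep x (hbs hx) y (hbs hy)
  refine ⟨x, hbs hx, y, hbs hy, z, hbs hz, ?_⟩
  have hinj : Function.Injective (![⟨x, hx⟩, ⟨y, hy⟩, ⟨z, hz⟩] : Fin 3 → b) := by
    intro i j hij
    fin_cases i <;> fin_cases j <;> simp_all [Subtype.ext_iff]
  have h := hbi.comp _ hinj
  have he : ((fun v : b => (v : E3)) ∘ (![⟨x, hx⟩, ⟨y, hy⟩, ⟨z, hz⟩] : Fin 3 → b))
      = ![x, y, z] := by
    funext i
    fin_cases i <;> rfl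
  rw [← he]
  exact h

/-- a nonzero vector in the kernel of a functional -/
lemma exists_ker (f : E3 →L[ℝ] ℝ) : ∃ w : E3, w ≠ 0 ∧ f w = 0 := by
  have h : (LinearMap.ker (f : E3 →ₗ[ℝ] ℝ)) ≠ ⊥ := by
    apply LinearMap.ker_ne_bot_of_finrank_lt
    simp
  obtain ⟨w, hw, hw0⟩ := (Submodule.ne_bot_iff _).mp h
  exact ⟨w, hw0, by simpa using hw⟩

end LMAX_

open LMAX_

theorem lmax_proof (h1 : Stmt_Theta) (h2 : Stmt_HHd) : Stmt_Lmax := by
  intro Φ l o hP hl ho ν hν y hy hloc
  obtain ⟨hcd, hz⟩ := h2 Φ l o hP hl ho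
  obtain ⟨hf, hyh⟩ := hz y hy
  obtain ⟨tsm, t0, tone, tpos, tmono, tnn, dnn, dpos, dzero, tan, tans⟩ := h1 l hl
  have hdt : Differentiable ℝ (theta l) := tsm.differentiable (by simp)
  have hder := hasFDerivAt_HH Φ l hdt y
  have hfd : fderiv ℝ (HH Φ l) y = ∑ φ ∈ Φ, deriv (theta l) (ev φ y) • innerSL ℝ φ.1 :=
    hder.fderiv
  have happ : ∀ w : E3, fderiv ℝ (HH Φ l) y w
      = ∑ φ ∈ Φ, deriv (theta l) (ev φ y) * inner ℝ φ.1 w := by
    intro w
    rw [hfd]
    simp
  -- Φ is nonempty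
  have hΦ : Φ.Nonempty := by
    rw [Finset.nonempty_iff_ne_empty]
    rintro rfl
    simp [HH] at hy
  obtain ⟨φ₀, hφ₀⟩ := hΦ
  have hν0 : ν ≠ 0 := by
    intro h
    apply hν φ₀ hφ₀ φ₀ hφ₀
    rw [h]
    exact Submodule.zero_mem _
  -- Lagrange
  have hstrict : HasStrictFDerivAt (HH Φ l) (fderiv ℝ (HH Φ l) y) y :=
    hcd.contDiffAt.hasStrictFDerivAt (by simp)
  have hstrict2 : HasStrictFDerivAt (fun x : E3 => (innerSL ℝ ν) x) (innerSL ℝ ν) y :=
    (innerSL ℝ ν).hasStrictFDerivAt
  obtain ⟨r, hr, hmax⟩ := hloc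
  have hext : IsLocalExtrOn (fun x : E3 => (innerSL ℝ ν) x) {x | HH Φ l x = HH Φ l y} y := by
    right
    have hb : ∀ᶠ z in 𝓝[{x | HH Φ l x = HH Φ l y}] y, z ∈ ball y r :=
      mem_nhdsWithin_of_mem_nhds (ball_mem_nhds y hr)
    have hs : ∀ᶠ z in 𝓝[{x | HH Φ l x = HH Φ l y}] y, z ∈ {x | HH Φ l x = HH Φ l y} :=
      self_mem_nhdsWithin
    filter_upwards [hb, hs] with z hz1 hz2
    have : HH Φ l z = 0 := by rw [← hy]; exact hz2
    exact hmax z hz1 this
  obtain ⟨a, b, hab, hsum⟩ :=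
    IsLocalExtrOn.exists_multipliers_of_hasStrictFDerivAt_1d hext hstrict hstrict2
  have hb0 : b ≠ 0 := by
    intro hb
    have ha : a ≠ 0 := by
      intro ha
      exact hab (by rw [ha, hb]; rfl)
    rw [hb, zero_smul, add_zero] at hsum
    exact hf ((smul_eq_zero.mp hsum).resolve_left ha)
  have ha0 : a ≠ 0 := by
    intro ha
    rw [ha, zero_smul, zero_add] at hsum
    have h3 : innerSL ℝ ν = 0 := (smul_eq_zero.mp hsum).resolve_left hb0
    apply hν0
    have h4 : (innerSL ℝ ν) ν = 0 := by rw [h3]; rfl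
    exact inner_self_eq_zero.mp h4
  -- derivative is kappa times nu
  obtain ⟨κ, hκ0, hκ⟩ : ∃ κ : ℝ, κ ≠ 0 ∧ ∀ w, fderiv ℝ (HH Φ l) y w = κ * inner ℝ ν w := by
    refine ⟨-(b / a), ?_, ?_⟩
    · exact neg_ne_zero.mpr (div_ne_zero hb0 ha0)
    · intro w
      have h5 : a * fderiv ℝ (HH Φ l) y w + b * inner ℝ ν w = 0 := by
        have := congrArg (fun g : E3 →L[ℝ] ℝ => g w) hsum
        simpa using this
      field_simp
      linarith
  -- three active independent normals
  have hact : ∃ φ₁ ∈ Φ, ∃ φ₂ ∈ Φ, ∃ φ₃ ∈ Φ, Indep φ₁ φ₂ φ₃ ∧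
      -l < ev φ₁ y ∧ -l < ev φ₂ y ∧ -l < ev φ₃ y := by
    set s : Set E3 := {n | ∃ φ ∈ Φ, -l < ev φ y ∧ φ.1 = n} with hs
    have hνs : ν ∈ Submodule.span ℝ s := by
      have h6 : ν = κ⁻¹ • ∑ φ ∈ Φ, deriv (theta l) (ev φ y) • φ.1 := by
        rw [eq_inv_smul_iff₀ hκ0]
        apply ext_inner_right ℝ
        intro w
        rw [inner_smul_left, sum_inner, RCLike.conj_to_real, ← hκ w, happ w]
        apply Finset.sum_congr rfl
        intro φ _
        rw [inner_smul_left]
        rfl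
      rw [h6]
      apply Submodule.smul_mem
      apply Submodule.sum_mem
      intro φ hφ
      by_cases hφa : -l < ev φ y
      · apply Submodule.smul_mem
        exact Submodule.subset_span ⟨φ, hφ, hφa, rfl⟩
      · rw [dzero _ (not_lt.mp hφa), zero_smul]
        exact Submodule.zero_mem _
    have hsne : s.Nonempty := by
      by_contra hne
      rw [Set.not_nonempty_iff_eq_empty] at hne
      rw [hne, Submodule.span_empty, Submodule.mem_bot] at hνs
      exact hν0 hνs
    obtain ⟨x1, ⟨φ₁, h11, h12, rfl⟩, x2, ⟨φ₂, h21, h22, rfl⟩, x3, ⟨φ₃, h31, h32, rfl⟩, hli⟩ :=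
      exists_three hsne hνs (by
        rintro x ⟨φ, hφ, -, rfl⟩ x' ⟨ψ, hψ, -, rfl⟩
        exact hν φ hφ ψ hψ)
    exact ⟨φ₁, h11, φ₂, h21, φ₃, h31, hli, h12, h22, h32⟩
  obtain ⟨φ₁, h11, φ₂, h21, φ₃, h31, hli, h12, h22, h32⟩ := hact
  -- sublevel set is in the hull
  have hsub : ∀ z, HH Φ l z ≤ 0 → z ∈ hull Φ := by
    intro z hz1 φ hφ
    by_contra hcon
    push Not at hcon
    have h7 := tpos _ hcon
    have h8 : theta l (ev φ z) ≤ ∑ φ ∈ Φ, theta l (ev φ z) :=
      Finset.single_le_sum (f := fun φ => theta l (ev φ z)) (fun ψ _ => tnn _) hφ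
    unfold HH at hz1
    linarith
  -- strict tangent inequality
  have htan : ∀ z, z ∈ hull Φ → z ≠ y → fderiv ℝ (HH Φ l) y (z - y) < HH Φ l z := by
    intro z hz1 hzy
    rw [happ]
    have h9 : ∑ φ ∈ Φ, (theta l (ev φ y) + deriv (theta l) (ev φ y) * (ev φ z - ev φ y))
        < ∑ φ ∈ Φ, theta l (ev φ z) := by
      apply Finset.sum_lt_sum
      · intro φ hφ
        exact tan _ _ (hz1 φ hφ) (hyh φ hφ)
      · have h10 : ∃ φ ∈ Φ, -l < ev φ y ∧ ev φ z ≠ ev φ y := by
          by_contra hcon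
          push Not at hcon
          apply hzy
          have e1 := hcon φ₁ h11 h12
          have e2 := hcon φ₂ h21 h22
          have e3 := hcon φ₃ h31 h32
          have := eq_zero_of_indep hli (w := z - y) (by rw [← ev_sub, e1, sub_self])
            (by rw [← ev_sub, e2, sub_self]) (by rw [← ev_sub, e3, sub_self])
          exact sub_eq_zero.mp this
        obtain ⟨φ, hφ, ha1, ha2⟩ := h10
        exact ⟨φ, hφ, tans _ _ (hz1 φ hφ) (hyh φ hφ) ha1 ha2⟩
    rw [Finset.sum_add_distrib] at h9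
    have h11' : ∑ φ ∈ Φ, deriv (theta l) (ev φ y) * (ev φ z - ev φ y)
        = ∑ φ ∈ Φ, deriv (theta l) (ev φ y) * inner ℝ φ.1 (z - y) := by
      apply Finset.sum_congr rfl
      intro φ _
      rw [ev_sub]
    unfold HH at hy ⊢
    rw [h11'] at h9
    linarith
  refine ⟨?_, φ₁, h11, φ₂, h21, φ₃, h31, hli, h12, h22, h32⟩
  rcases lt_or_gt_of_ne hκ0 with hneg | hpos
  · exfalso
    have hHo : HH Φ l o = -1 := by
      unfold HH
      rw [Finset.sum_eq_zero]
      · ring
      · intro φ hφ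
        exact t0 _ (ho φ hφ)
    have hoy : o ≠ y := by
      rintro rfl
      rw [hHo] at hy
      norm_num at hy
    have hoh : o ∈ hull Φ := hsub o (by rw [hHo]; norm_num)
    have hfo : fderiv ℝ (HH Φ l) y (o - y) < 0 := by
      have := htan o hoh hoy
      rw [hHo] at this
      linarith
    obtain ⟨w, hw0, hfw⟩ := exists_ker (fderiv ℝ (HH Φ l) y)
    -- a point P with H P < 0 near y
    obtain ⟨τ, hτ0, hτP, hτr⟩ : ∃ τ : ℝ, 0 < τ ∧ HH Φ l (y + τ • (o - y)) < 0 ∧
        y + τ • (o - y) ∈ ball y r := by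
      have hline : HasDerivAt (fun t : ℝ => HH Φ l (y + t • (o - y)))
          (fderiv ℝ (HH Φ l) y (o - y)) 0 := by
        have hl1 : HasDerivAt (fun t : ℝ => y + t • (o - y)) (o - y) 0 := by
          have := (hasDerivAt_id (0 : ℝ)).smul_const (o - y)
          simpa using this.const_add y
        have hH : HasFDerivAt (HH Φ l) (fderiv ℝ (HH Φ l) y) (y + (0 : ℝ) • (o - y)) := by
          rw [zero_smul, add_zero]
          exact hstrict.hasFDerivAt
        exact hH.comp_hasDerivAt (0 : ℝ) hl1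
      have hev1 : ∀ᶠ t in 𝓝[>] (0 : ℝ), HH Φ l (y + t • (o - y)) < 0 := by
        have hsl := hline.hasDerivWithinAt (s := Ioi (0 : ℝ))
        rw [hasDerivWithinAt_iff_tendsto_slope' (by simp)] at hsl
        have hev := hsl.eventually (gt_mem_nhds hfo)
        filter_upwards [hev, self_mem_nhdsWithin] with t ht1 ht2
        rw [slope_def_field] at ht1
        have ht2' : (0 : ℝ) < t := ht2
        simp only [zero_smul, add_zero, hy, sub_zero] at ht1
        by_contra hcon
        push Not at hcon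
        have : 0 ≤ HH Φ l (y + t • (o - y)) / t := div_nonneg hcon ht2'.le
        linarith
      have hcont : Tendsto (fun t : ℝ => y + t • (o - y)) (𝓝[>] 0) (𝓝 y) := by
        have hc : Continuous (fun t : ℝ => y + t • (o - y)) := by fun_prop
        have := (hc.tendsto 0).mono_left (nhdsWithin_le_nhds (s := Ioi (0 : ℝ)))
        simpa using this
      have hev2 := hcont.eventually (ball_mem_nhds y hr)
      obtain ⟨t, ⟨ht1, ht2⟩, ht3⟩ := ((hev1.and hev2).and self_mem_nhdsWithin).exists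
      exact ⟨t, ht3, ht1, ht2⟩
    -- a point Q with H Q > 0 near y
    obtain ⟨σ, hσ0, hσr⟩ : ∃ σ : ℝ, σ ≠ 0 ∧ y + σ • w ∈ ball y r := by
      have hcont : Tendsto (fun t : ℝ => y + t • w) (𝓝[>] 0) (𝓝 y) := by
        have hc : Continuous (fun t : ℝ => y + t • w) := by fun_prop
        have := (hc.tendsto 0).mono_left (nhdsWithin_le_nhds (s := Ioi (0 : ℝ)))
        simpa using this
      have hev2 := hcont.eventually (ball_mem_nhds y hr)
      obtain ⟨t, ht2, ht3⟩ := (hev2.and self_mem_nhdsWithin).exists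
      exact ⟨t, ne_of_gt ht3, ht2⟩
    have hQ : 0 < HH Φ l (y + σ • w) := by
      by_contra hcon
      push Not at hcon
      have hne : y + σ • w ≠ y := by
        intro h
        have : σ • w = 0 := by simpa using h
        rcases smul_eq_zero.mp this with h | h
        · exact hσ0 h
        · exact hw0 h
      have := htan _ (hsub _ hcon) hne
      rw [add_sub_cancel_left, map_smul, hfw, smul_zero] at this
      linarith
    -- zero on the segment
    set P := y + τ • (o - y) with hPdef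
    set Q := y + σ • w with hQdef
    have hcontH : Continuous (HH Φ l) := hcd.continuous
    have hseg : ContinuousOn (fun t : ℝ => HH Φ l (P + t • (Q - P))) (Icc 0 1) := by
      apply Continuous.continuousOn
      fun_prop
    have hivt := intermediate_value_Icc (zero_le_one' ℝ) hseg
    have hmem : (0 : ℝ) ∈ Icc (HH Φ l (P + (0 : ℝ) • (Q - P))) (HH Φ l (P + (1 : ℝ) • (Q - P))) := by
      constructor
      · simpa using hτP.le
      · simpa using hQ.le
    obtain ⟨t, ht, htz⟩ := hivt hmem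
    set z := P + t • (Q - P) with hzdef
    have hzball : z ∈ ball y r := by
      have hcv : Convex ℝ (ball y r) := convex_ball y r
      have := hcv.add_smul_sub_mem hτr hσr ht
      exact this
    have hHz : HH Φ l z = 0 := htz
    have hzy : z ≠ y := by
      intro h
      have h12 : (1 - t) • (τ • (o - y)) + t • (σ • w) = 0 := by
        have : z - y = (1 - t) • (τ • (o - y)) + t • (σ • w) := by
          rw [hzdef, hPdef, hQdef]
          module
        rw [← this, h, sub_self]
      have h13 := congrArg (fun v => fderiv ℝ (HH Φ l) y v) h12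
      simp only [map_add, map_smul, hfw, map_zero, smul_eq_mul, mul_zero, add_zero] at h13
      have ht1 : t = 1 := by
        rcases mul_eq_zero.mp h13 with h | h
        · linarith
        · rcases mul_eq_zero.mp h with h | h
          · exact absurd h hτ0.ne'
          · exact absurd h hfo.ne
      rw [ht1, sub_self, zero_smul, zero_add, one_smul] at h12
      rcases smul_eq_zero.mp h12 with h | h
      · exact hσ0 h
      · exact hw0 h
    have h14 := htan z (hsub z hHz.le) hzy
    rw [hκ, hHz, inner_sub_right] at h14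
    have h15 := hmax z hzball hHz
    nlinarith
  · intro z hz1 hzy
    have h14 := htan z (hsub z hz1) hzy
    rw [hκ, inner_sub_right] at h14
    have h15 : κ * (inner ℝ ν z - inner ℝ ν y) < 0 := by linarith
    have h16 := (mul_neg_iff.mp h15)
    rcases h16 with h | h
    · linarith [h.2]
    · linarith [h.1]

end Pool.Agent.TSM
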