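import Pool.Agent.TSM.SStmts

/-!
# TSM, module LOCG: local structure of the smoothed map
-/

set_option autoImplicit false

namespace Pool.Agent.TSM

open Set Filter Topology Metric
open scoped Manifold ContDiff

namespace LOCG_

theorem zero_sub (hO : Stmt_Opim) (hF : Stmt_F3P) {M : Type} [TopologicalSpace M]
    [ChartedSpace E2 M] {D : M → E3} {K : Set M} {m : ℕ}
    {U : Fin m → Set M} {a b c : Fin m → Aff} {e : Fin m → E3} {χ : Fin m → M → ℝ}
    (hD : Continuous D) (hG : GCover D K m U a b c e χ) {φ : ℝ → ℝ} (hφ : IsPhi φ) {x : M}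
    (j k : Fin m) (hj : x ∈ U j) (hk : x ∈ U k) :
    ∃ r > 0, ∀ y ∈ ball (D x) r, G3 (a j) (b j) (c j) y = 0 → G3 (a k) (b k) (c k) y = 0 := by
  have hW : U j ∩ U k ∈ 𝓝 x := ((hG.opn j).inter (hG.opn k)).mem_nhds ⟨hj, hk⟩
  obtain ⟨s, hs, h⟩ := (hO M (U j ∩ U k) D x hW hD.continuousOn
    ((hG.inj j).mono inter_subset_left)).1 (G3 (a j) (b j) (c j)) (e j) 1 one_pos
    (by
      intro y _ t ht _
      have := ((hF φ hφ (a j) (b j) (c j)).2.1 (e j) (hG.ea j) (hG.eb j) (hG.ec j) y t).1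
      rw [this]; linarith)
    (fun y hy => hG.zero j y hy.1)
  refine ⟨s, hs, fun y hy h0 => ?_⟩
  obtain ⟨z, hz, rfl⟩ := h y hy h0
  exact hG.zero k z hz.2

theorem loc_k (hO : Stmt_Opim) (hF : Stmt_F3P) (hQ : Stmt_Uniq) {M : Type} [TopologicalSpace M]
    [ChartedSpace E2 M] {D : M → E3} {K : Set M} {m : ℕ}
    {U : Fin m → Set M} {a b c : Fin m → Aff} {e : Fin m → E3} {χ : Fin m → M → ℝ}
    (hD : Continuous D) (hG : GCover D K m U a b c e χ) {φ : ℝ → ℝ} (hφ : IsPhi φ) {x : M}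
    (j : Fin m) (hj : x ∈ U j) (k : Fin m) :
    ∃ (s : ℝ) (V : Set M) (ε₁ : ℝ), |s| ≤ 1 ∧ V ∈ 𝓝 x ∧ 0 < ε₁ ∧
      (∀ y ∈ V, ∀ ε : ℝ, 0 < ε → ε < ε₁ → χ k y * F3 φ ε (a k) (b k) (c k) (D y) =
        χ k y * (s * F3 φ ε (a j) (b j) (c j) (D y))) ∧
      (∀ n ∈ Nrm (a j) (b j) (c j) (D x), ∀ y ∈ V, χ k y * (s * inner ℝ n (e k)) = χ k y) := by
  by_cases hx : x ∈ closure (Function.support (χ k))
  · have hk : x ∈ U k := hG.supp k hx
    obtain ⟨r1, hr1, h1⟩ := zero_sub hO hF hD hG hφ j k hj hk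
    obtain ⟨r2, hr2, h2⟩ := zero_sub hO hF hD hG hφ k j hk hj
    obtain ⟨s, hs, hn, r, hr, ε₁, hε₁, hF3⟩ := hQ φ hφ (a j) (b j) (c j) (a k) (b k) (c k)
      (hG.ind j) (hG.ind k) (hG.ua j) (hG.ub j) (hG.uc j) (hG.ua k) (hG.ub k) (hG.uc k)
      (D x) (hG.zero j x hj)
      ⟨min r1 r2, lt_min hr1 hr2, fun y hy =>
        ⟨h1 y (ball_subset_ball (min_le_left _ _) hy), h2 y (ball_subset_ball (min_le_right _ _) hy)⟩⟩
    refine ⟨s, D ⁻¹' (ball (D x) r), ε₁, ?_, hD.continuousAt (ball_mem_nhds _ hr), hε₁, ?_, ?_⟩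
    · rcases hs with h | h <;> rw [h] <;> simp
    · intro y hy ε h0 h1'
      rw [(hF3 (D y) hy).2 ε h0 h1']
    · intro n hn' y _
      have h3 := hn n hn'
      have h4 : inner ℝ (s • n) (e k) = (1 : ℝ) := by
        rcases h3 with ⟨h, _⟩ | ⟨h, _⟩ | ⟨h, _⟩
        · rw [h]; exact hG.ec k
        · rw [h]; exact hG.ea k
        · rw [h]; exact hG.eb k
      rw [real_inner_smul_left] at h4
      rw [h4, mul_one]
  · refine ⟨0, {y | χ k y = 0}, 1, by simp, ?_, one_pos, ?_, ?_⟩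
    · have h1 : (closure (Function.support (χ k)))ᶜ ∈ 𝓝 x :=
        isClosed_closure.isOpen_compl.mem_nhds hx
      filter_upwards [h1] with y hy
      by_contra h
      exact hy (subset_closure h)
    · intro y hy ε _ _
      have : χ k y = 0 := hy
      rw [this, zero_mul, zero_mul]
    · intro n _ y hy
      have : χ k y = 0 := hy
      rw [this, zero_mul]

end LOCG_

open LOCG_ in
theorem locg_proof (h1 : Stmt_Opim) (h2 : Stmt_F3P) (h3 : Stmt_Uniq) : Stmt_LocG := by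
  intro M _ _ D K m U a b c e χ hD hG φ hφ x hx
  -- choose j
  obtain ⟨j, hj⟩ : ∃ j, x ∈ U j := by
    by_contra hcon
    push Not at hcon
    have h0 : ∀ j, χ j x = 0 := by
      intro j
      by_contra h
      exact hcon j (hG.supp j (subset_closure h))
    have h := hG.sum x (interior_subset hx)
    rw [Finset.sum_eq_zero (fun j _ => h0 j)] at h
    exact zero_ne_one h
  choose s V ε₁ hs hV hε₁ hFk hNk using loc_k h1 h2 h3 hD hG hφ j hj
  have hlip : ∀ k, ∃ W ∈ 𝓝 x, ∃ L : ℝ, ∀ y ∈ W, ∀ z ∈ W, |χ k y - χ k z| ≤ L * ‖D y - D z‖ :=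
    fun k => hG.lip k x
  choose W hW L hL using hlip
  have hG0 : G3 (a j) (b j) (c j) (D x) = 0 := hG.zero j x hj
  set B : ℝ := ∑ k, ‖e k‖ with hB
  obtain ⟨r, hr, ε₂, hε₂, hP⟩ := (h2 φ hφ (a j) (b j) (c j)).2.2 (D x) hG0 B
  -- the field
  let bs : M → E3 := fun y => ∑ k, (χ k y * s k) • e k
  set L' : ℝ := ∑ k, |L k| * ‖e k‖ with hL'
  have hL'0 : 0 ≤ L' := Finset.sum_nonneg fun k _ => mul_nonneg (abs_nonneg _) (norm_nonneg _)
  -- the neighbourhood
  let V0 : Set M := (⋂ k, V k) ∩ (⋂ k, W k) ∩ (U j ∩ interior K ∩ D ⁻¹' (ball (D x) r))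
  have hV0 : V0 ∈ 𝓝 x := by
    refine inter_mem (inter_mem ?_ ?_) (inter_mem (inter_mem ?_ ?_) ?_)
    · exact (Filter.iInter_mem).2 hV
    · exact (Filter.iInter_mem).2 hW
    · exact (hG.opn j).mem_nhds hj
    · exact isOpen_interior.mem_nhds hx
    · exact hD.continuousAt (ball_mem_nhds _ hr)
  have hχ1 : ∀ k y, χ k y ≤ 1 := fun k y =>
    (Finset.single_le_sum (f := fun k => χ k y) (fun i _ => hG.nonneg i y)
      (Finset.mem_univ k)).trans (hG.le y)
  -- choose ε₀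
  obtain ⟨ε₃, hε₃, hε₃'⟩ : ∃ ε₃ : ℝ, 0 < ε₃ ∧ ∀ k, ε₃ ≤ ε₁ k := by
    refine ⟨Finset.univ.inf' ⟨j, Finset.mem_univ j⟩ ε₁, ?_, ?_⟩
    · rw [Finset.lt_inf'_iff]; exact fun k _ => hε₁ k
    · exact fun k => Finset.inf'_le _ (Finset.mem_univ k)
  refine ⟨V0, hV0, min (min ε₃ ε₂) (min (r / 2) (1 / (2 * (L' + 1)))),
    lt_min (lt_min hε₃ hε₂) (lt_min (by linarith) (by positivity)), j, ?_⟩
  intro ε hε hεlt
  have hεa : ε < ε₃ := hεlt.trans_le ((min_le_left _ _).trans (min_le_left _ _))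
  have hεb : ε < ε₂ := hεlt.trans_le ((min_le_left _ _).trans (min_le_right _ _))
  have hεc : ε < r / 2 := hεlt.trans_le ((min_le_right _ _).trans (min_le_left _ _))
  have hεd : ε < 1 / (2 * (L' + 1)) := hεlt.trans_le ((min_le_right _ _).trans (min_le_right _ _))
  set f : E3 → ℝ := F3 φ ε (a j) (b j) (c j) with hf
  -- formula for gsm on V0
  have hgsm : ∀ y ∈ V0, gsm D m a b c e χ φ ε y = D y - f (D y) • bs y := by
    intro y hy
    have hyV : ∀ k, y ∈ V k := mem_iInter.1 hy.1.1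
    unfold gsm
    congr 1
    rw [Finset.smul_sum]
    refine Finset.sum_congr rfl fun k _ => ?_
    rw [hFk k y (hyV k) ε hε (hεa.trans_le (hε₃' k)), smul_smul]
    congr 1
    ring
  have hbsB : ∀ y, ‖bs y‖ ≤ B := by
    intro y
    refine (norm_sum_le _ _).trans (Finset.sum_le_sum fun k _ => ?_)
    rw [norm_smul, Real.norm_eq_abs, abs_mul, abs_of_nonneg (hG.nonneg k y)]
    calc χ k y * |s k| * ‖e k‖ ≤ 1 * 1 * ‖e k‖ := by
          refine mul_le_mul_of_nonneg_right ?_ (norm_nonneg _)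
          exact mul_le_mul (hχ1 k y) (hs k) (abs_nonneg _) zero_le_one
      _ = ‖e k‖ := by ring
  have hbsn : ∀ y ∈ V0, ∀ n ∈ Nrm (a j) (b j) (c j) (D x), inner ℝ n (bs y) = (1 : ℝ) := by
    intro y hy n hn
    have hyV : ∀ k, y ∈ V k := mem_iInter.1 hy.1.1
    have h : inner ℝ n (bs y) = ∑ k, χ k y := by
      rw [inner_sum]
      refine Finset.sum_congr rfl fun k _ => ?_
      rw [real_inner_smul_right, mul_assoc]
      exact hNk k n hn y (hyV k)
    rw [h]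
    exact hG.sum y (interior_subset hy.2.1.2)
  have habs : ∀ y ∈ V0, |f (D y)| ≤ 2 * ε := by
    intro y hy
    have h := ((h2 φ hφ (a j) (b j) (c j)).1 ε hε).2.1 (D y)
    rw [hG.zero j y hy.2.1.1, sub_zero] at h
    exact h
  have hmain : ∀ y ∈ V0, G3 (a j) (b j) (c j) (gsm D m a b c e χ φ ε y) = -f (D y) ∧
      f (gsm D m a b c e χ φ ε y) = 0 := by
    intro y hy
    have ht : |f (D y)| < r := (habs y hy).trans_lt (by linarith)
    have h := hP (bs y) (hbsB y) (hbsn y hy) (D y) hy.2.2 (f (D y)) ht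
    rw [hgsm y hy]
    refine ⟨?_, ?_⟩
    · rw [h.1, hG.zero j y hy.2.1.1]; ring
    · rw [hf, h.2 ε hε hεb]; ring
  refine ⟨?_, fun y hy => (hmain y hy).2⟩
  intro y hy z hz hyz
  have hyz' : gsm D m a b c e χ φ ε y = gsm D m a b c e χ φ ε z := hyz
  have ht : f (D y) = f (D z) := by
    have h4 := (hmain y hy).1
    have h5 := (hmain z hz).1
    rw [hyz'] at h4
    linarith
  have hdiff : D y - D z = f (D y) • (bs y - bs z) := by
    have h4 := hgsm y hy
    have h5 := hgsm z hz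
    rw [← hyz', h4, ← ht] at h5
    rw [smul_sub]
    have h6 : D y = D z - f (D y) • bs z + f (D y) • bs y := by rw [← h5]; abel
    calc D y - D z = (D z - f (D y) • bs z + f (D y) • bs y) - D z := by rw [← h6]
      _ = f (D y) • bs y - f (D y) • bs z := by abel
  have hbl : ‖bs y - bs z‖ ≤ L' * ‖D y - D z‖ := by
    have h6 : bs y - bs z = ∑ k, ((χ k y - χ k z) * s k) • e k := by
      show (∑ k, (χ k y * s k) • e k) - (∑ k, (χ k z * s k) • e k) = _
      rw [← Finset.sum_sub_distrib]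
      refine Finset.sum_congr rfl fun k _ => ?_
      rw [← sub_smul, sub_mul]
    rw [h6, hL', Finset.sum_mul]
    refine (norm_sum_le _ _).trans (Finset.sum_le_sum fun k _ => ?_)
    rw [norm_smul, Real.norm_eq_abs, abs_mul]
    have hyW : y ∈ W k := mem_iInter.1 hy.1.2 k
    have hzW : z ∈ W k := mem_iInter.1 hz.1.2 k
    calc |χ k y - χ k z| * |s k| * ‖e k‖ ≤ |χ k y - χ k z| * 1 * ‖e k‖ := by
          refine mul_le_mul_of_nonneg_right ?_ (norm_nonneg _)
          exact mul_le_mul_of_nonneg_left (hs k) (abs_nonneg _)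
      _ ≤ (|L k| * ‖D y - D z‖) * 1 * ‖e k‖ := by
          refine mul_le_mul_of_nonneg_right ?_ (norm_nonneg _)
          refine mul_le_mul_of_nonneg_right ?_ zero_le_one
          exact (hL k y hyW z hzW).trans
            (mul_le_mul_of_nonneg_right (le_abs_self _) (norm_nonneg _))
      _ = |L k| * ‖e k‖ * ‖D y - D z‖ := by ring
  have hfin : ‖D y - D z‖ ≤ 2 * ε * (L' * ‖D y - D z‖) := by
    calc ‖D y - D z‖ = |f (D y)| * ‖bs y - bs z‖ := by rw [hdiff, norm_smul, Real.norm_eq_abs]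
      _ ≤ 2 * ε * (L' * ‖D y - D z‖) :=
          mul_le_mul (habs y hy) hbl (norm_nonneg _) (by linarith)
  have hlt : 2 * ε * L' < 1 := by
    have h7 : ε * (2 * (L' + 1)) < 1 := by
      rwa [lt_div_iff₀ (by positivity)] at hεd
    nlinarith
  have hzero : ‖D y - D z‖ = 0 := by
    by_contra hne
    have hpos : 0 < ‖D y - D z‖ := lt_of_le_of_ne (norm_nonneg _) (Ne.symm hne)
    have : 2 * ε * (L' * ‖D y - D z‖) < ‖D y - D z‖ := by
      calc 2 * ε * (L' * ‖D y - D z‖) = (2 * ε * L') * ‖D y - D z‖ := by ring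
        _ < 1 * ‖D y - D z‖ := mul_lt_mul_of_pos_right hlt hpos
        _ = ‖D y - D z‖ := one_mul _
    linarith
  exact hG.inj j hy.2.1.1 hz.2.1.1 (sub_eq_zero.1 (norm_eq_zero.1 hzero))

end Pool.Agent.TSM
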