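import Pool.Agent.TSM.SStmts

set_option autoImplicit false

namespace Pool.Agent.TSM

open Set Filter Topology

namespace NEAR_

lemma ev_cont (φ : Aff) : Continuous (fun x : E3 => ev φ x) := by
  unfold ev
  fun_prop

lemma ev_comb (φ : Aff) (x y : E3) (a b : ℝ) (h : a + b = 1) :
    ev φ (a • x + b • y) = a * ev φ x + b * ev φ y := by
  unfold ev
  rw [inner_add_right, inner_smul_right, inner_smul_right]
  linear_combination φ.2 * h

lemma hull_closed (Φ : Finset Aff) : IsClosed (hull Φ) := by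
  have : hull Φ = ⋂ φ ∈ Φ, {x : E3 | ev φ x ≤ 0} := by
    ext x
    simp [hull]
  rw [this]
  exact isClosed_biInter (fun φ _ => isClosed_le (ev_cont φ) continuous_const)

lemma eq_zero_of_orth (a b c : Aff) (h : Indep a b c) (w : E3)
    (ha : inner ℝ a.1 w = 0) (hb : inner ℝ b.1 w = 0) (hc : inner ℝ c.1 w = 0) : w = 0 := by
  have hspan : Submodule.span ℝ (Set.range ![a.1, b.1, c.1]) = ⊤ := by
    apply LinearIndependent.span_eq_top_of_card_eq_finrank h
    simp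
  have hall : ∀ v ∈ Submodule.span ℝ (Set.range ![a.1, b.1, c.1]), inner ℝ v w = (0 : ℝ) := by
    intro v hv
    induction hv using Submodule.span_induction with
    | mem x hx =>
      obtain ⟨i, rfl⟩ := hx
      fin_cases i
      · exact ha
      · exact hb
      · exact hc
    | zero => exact inner_zero_left _
    | add x y _ _ hx hy => rw [inner_add_left, hx, hy, add_zero]
    | smul t x _ hx => rw [inner_smul_left, hx]; simp
  have := hall w (by rw [hspan]; trivial)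
  exact inner_self_eq_zero.1 this

lemma extreme (Φ : Finset Aff) (y : E3) (hy : y ∈ hull Φ) (a b c : Aff) (ha : a ∈ Φ) (hb : b ∈ Φ) (hc : c ∈ Φ)
    (h : Indep a b c) (ea : ev a y = 0) (eb : ev b y = 0) (ec : ev c y = 0) :
    y ∈ extremePoints ℝ (hull Φ) := by
  rw [mem_extremePoints]
  refine ⟨hy, ?_⟩
  intro x₁ h₁ x₂ h₂ hseg
  obtain ⟨s, t, hs, ht, hst, rfl⟩ := hseg
  have key : ∀ φ ∈ Φ, ev φ (s • x₁ + t • x₂) = 0 → ev φ x₁ = 0 ∧ ev φ x₂ = 0 := by
    intro φ hφ h0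
    rw [ev_comb φ x₁ x₂ s t hst] at h0
    have e1 := h₁ φ hφ
    have e2 := h₂ φ hφ
    have f1 : s * ev φ x₁ ≤ 0 := mul_nonpos_of_nonneg_of_nonpos hs.le e1
    have f2 : t * ev φ x₂ ≤ 0 := mul_nonpos_of_nonneg_of_nonpos ht.le e2
    have g1 : s * ev φ x₁ = 0 := by linarith
    have g2 : t * ev φ x₂ = 0 := by linarith
    exact ⟨(mul_eq_zero.1 g1).resolve_left hs.ne', (mul_eq_zero.1 g2).resolve_left ht.ne'⟩
  have orth : ∀ φ : Aff, ∀ u v : E3, ev φ u = 0 → ev φ v = 0 → inner ℝ φ.1 (u - v) = (0 : ℝ) := by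
    intro φ u v hu hv
    unfold ev at hu hv
    rw [inner_sub_right]
    linarith
  have h1 : x₁ - (s • x₁ + t • x₂) = 0 := eq_zero_of_orth a b c h _
    (orth a _ _ (key a ha ea).1 ea) (orth b _ _ (key b hb eb).1 eb) (orth c _ _ (key c hc ec).1 ec)
  have h2 : x₂ - (s • x₁ + t • x₂) = 0 := eq_zero_of_orth a b c h _
    (orth a _ _ (key a ha ea).2 ea) (orth b _ _ (key b hb eb).2 eb) (orth c _ _ (key c hc ec).2 ec)
  exact ⟨sub_eq_zero.1 h1, sub_eq_zero.1 h2⟩

end NEAR_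

open NEAR_ in
theorem near_proof : Stmt_Near := by
  intro Φ hP r hr
  set S : Set E3 := {y | y ∈ hull Φ ∧ ∀ e ∈ extremePoints ℝ (hull Φ), r ≤ ‖y - e‖} with hS
  have hSclosed : IsClosed S := by
    have : S = hull Φ ∩ ⋂ e ∈ extremePoints ℝ (hull Φ), {y : E3 | r ≤ ‖y - e‖} := by
      ext y
      simp [hS]
    rw [this]
    refine (hull_closed Φ).inter (isClosed_biInter (fun e _ => ?_))
    exact isClosed_le continuous_const (by fun_prop)
  have hSc : IsCompact S := by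
    refine Metric.isCompact_of_isClosed_isBounded hSclosed (hP.bdd.subset ?_)
    intro y hy
    exact hy.1
  -- one triple
  have one : ∀ t ∈ Φ ×ˢ (Φ ×ˢ Φ), ∀ᶠ l in 𝓝[>] (0 : ℝ), Indep t.1 t.2.1 t.2.2 →
      ∀ y ∈ S, ¬ (-l < ev t.1 y ∧ -l < ev t.2.1 y ∧ -l < ev t.2.2 y) := by
    intro t ht
    obtain ⟨h1, h23⟩ := Finset.mem_product.1 ht
    obtain ⟨h2, h3⟩ := Finset.mem_product.1 h23
    by_cases hi : Indep t.1 t.2.1 t.2.2
    · by_cases hne : S.Nonempty
      · have hc : ContinuousOn (fun y : E3 => min (ev t.1 y) (min (ev t.2.1 y) (ev t.2.2 y))) S :=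
          ((ev_cont _).min ((ev_cont _).min (ev_cont _))).continuousOn
        obtain ⟨y0, hy0, hmax⟩ := hSc.exists_isMaxOn hne hc
        have hneg : min (ev t.1 y0) (min (ev t.2.1 y0) (ev t.2.2 y0)) < 0 := by
          by_contra hcon
          push Not at hcon
          have e1 : 0 ≤ ev t.1 y0 := hcon.trans (min_le_left _ _)
          have e2 : 0 ≤ ev t.2.1 y0 := hcon.trans ((min_le_right _ _).trans (min_le_left _ _))
          have e3 : 0 ≤ ev t.2.2 y0 := hcon.trans ((min_le_right _ _).trans (min_le_right _ _))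
          have hx := extreme Φ y0 hy0.1 t.1 t.2.1 t.2.2 h1 h2 h3 hi
            (le_antisymm (hy0.1 _ h1) e1) (le_antisymm (hy0.1 _ h2) e2) (le_antisymm (hy0.1 _ h3) e3)
          have := hy0.2 y0 hx
          rw [sub_self, norm_zero] at this
          linarith
        set m := min (ev t.1 y0) (min (ev t.2.1 y0) (ev t.2.2 y0)) with hm
        have hev : Set.Ioc (0 : ℝ) (-m) ∈ 𝓝[>] (0 : ℝ) := Ioc_mem_nhdsGT (by linarith)
        filter_upwards [hev] with l hl _ y hy hcon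
        have := hmax hy
        simp only [Set.mem_ofPred_eq] at this
        have h4 : -l < min (ev t.1 y) (min (ev t.2.1 y) (ev t.2.2 y)) :=
          lt_min hcon.1 (lt_min hcon.2.1 hcon.2.2)
        have h5 : l ≤ -m := hl.2
        linarith
      · refine Filter.Eventually.of_forall (fun l _ y hy => ?_)
        exact absurd ⟨y, hy⟩ hne
    · exact Filter.Eventually.of_forall (fun l h => absurd h hi)
  have all : ∀ᶠ l in 𝓝[>] (0 : ℝ), ∀ t ∈ Φ ×ˢ (Φ ×ˢ Φ), Indep t.1 t.2.1 t.2.2 →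
      ∀ y ∈ S, ¬ (-l < ev t.1 y ∧ -l < ev t.2.1 y ∧ -l < ev t.2.2 y) := by
    rw [Filter.eventually_all_finset]
    exact one
  obtain ⟨l, hl, hl0⟩ := (all.and (self_mem_nhdsWithin : Set.Ioi (0 : ℝ) ∈ 𝓝[>] (0 : ℝ))).exists
  refine ⟨l, hl0, ?_⟩
  rintro y hy ⟨φ₁, h1, φ₂, h2, φ₃, h3, hi, e1, e2, e3⟩
  by_contra hcon
  push Not at hcon
  exact hl (φ₁, (φ₂, φ₃)) (Finset.mem_product.2 ⟨h1, Finset.mem_product.2 ⟨h2, h3⟩⟩) hi y ⟨hy, hcon⟩
    ⟨e1, e2, e3⟩

end Pool.Agent.TSM
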