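import Pool.Agent.TSM.SStmts

/-!
# TSM, module OPIM: an injective map into a surface `{F = 0}` is locally onto
-/

set_option autoImplicit false

namespace Pool.Agent.TSM

open Set Filter Topology Metric
open scoped Manifold ContDiff

namespace OPIM_

/-- a projection to the plane with kernel spanned by `e` -/
theorem exists_pi (e : E3) (he : e ≠ 0) : ∃ π : E3 →L[ℝ] E2, π e = 0 ∧
    ∀ v, π v = 0 → ∃ t : ℝ, v = t • e := by
  haveI : Fact (Module.finrank ℝ E3 = 2 + 1) := ⟨by simp [E3]⟩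
  let b := OrthonormalBasis.fromOrthogonalSpanSingleton (𝕜 := ℝ) 2 he
  let P : E3 →L[ℝ] (Submodule.span ℝ {e})ᗮ := (Submodule.span ℝ {e})ᗮ.orthogonalProjection
  let ι : (Submodule.span ℝ {e})ᗮ →L[ℝ] E2 :=
    (b.repr.toContinuousLinearEquiv : (Submodule.span ℝ {e})ᗮ →L[ℝ] E2)
  have hker : ∀ v : E3, P v = 0 ↔ v ∈ Submodule.span ℝ {e} := by
    intro v
    have h1 : P v = 0 ↔ v ∈ (Submodule.span ℝ {e})ᗮᗮ := by
      rw [Submodule.orthogonalProjection_eq_zero_iff]
    rw [h1, Submodule.orthogonal_orthogonal]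
  refine ⟨ι.comp P, ?_, ?_⟩
  · have h : P e = 0 := (hker e).2 (Submodule.mem_span_singleton_self e)
    simp only [ContinuousLinearMap.comp_apply, h, map_zero]
  · intro v hv
    have h0 : b.repr (P v) = 0 := hv
    have h1 : P v = 0 := by
      have := congrArg b.repr.symm h0
      simpa using this
    obtain ⟨t, ht⟩ := Submodule.mem_span_singleton.1 ((hker v).1 h1)
    exact ⟨t, ht.symm⟩

theorem partA (hI : Stmt_InvM) (M : Type) [TopologicalSpace M] [ChartedSpace E2 M] (U : Set M)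
    (D : M → E3) (x : M) (hU : U ∈ 𝓝 x) (hc : ContinuousOn D U) (hi : InjOn D U)
    (F : E3 → ℝ) (e : E3) (r : ℝ) (hr : 0 < r)
    (hm : ∀ y ∈ ball (D x) r, ∀ t : ℝ, 0 < t → y - t • e ∈ ball (D x) r → F (y - t • e) < F y)
    (h0 : ∀ y ∈ U, F (D y) = 0) : ∃ s > 0, ∀ y ∈ ball (D x) s, F y = 0 → y ∈ D '' U := by
  have he : e ≠ 0 := by
    rintro rfl
    have := hm (D x) (mem_ball_self hr) 1 one_pos (by simpa using hr)
    simp at this
  obtain ⟨π, hπe, hπ⟩ := exists_pi e he
  -- the open set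
  let U' : Set M := interior U ∩ D ⁻¹' (ball (D x) r)
  have hU'o : IsOpen U' :=
    (hc.mono interior_subset).isOpen_inter_preimage isOpen_interior isOpen_ball
  have hxU' : x ∈ U' := ⟨mem_interior_iff_mem_nhds.2 hU, mem_ball_self hr⟩
  have hsub : U' ⊆ U := fun y hy => interior_subset hy.1
  have key : ∀ p ∈ ball (D x) r, ∀ q ∈ ball (D x) r, F p = 0 → F q = 0 → π p = π q → p = q := by
    intro p hp q hq hFp hFq hpq
    obtain ⟨t, ht⟩ := hπ (p - q) (by rw [map_sub, hpq, sub_self])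
    rcases lt_trichotomy t 0 with h | h | h
    · exfalso
      have hq' : p = q - (-t) • e := by rw [neg_smul, sub_neg_eq_add, ← ht]; abel
      have := hm q hq (-t) (by linarith) (by rw [← hq']; exact hp)
      rw [← hq', hFp, hFq] at this
      exact lt_irrefl _ this
    · rw [h, zero_smul] at ht
      exact sub_eq_zero.1 ht
    · exfalso
      have hq' : q = p - t • e := by rw [← ht]; abel
      have := hm p hp t h (by rw [← hq']; exact hq)
      rw [← hq', hFp, hFq] at this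
      exact lt_irrefl _ this
  have hinj : InjOn (fun y => π (D y)) U' := by
    intro y hy z hz hyz
    exact hi (hsub hy) (hsub hz)
      (key (D y) hy.2 (D z) hz.2 (h0 y (hsub hy)) (h0 z (hsub hz)) hyz)
  have hopen : IsOpen ((fun y => π (D y)) '' U') :=
    hI M U' (fun y => π (D y)) hU'o (π.continuous.comp_continuousOn (hc.mono hsub)) hinj
  have hmem : π (D x) ∈ (fun y => π (D y)) '' U' := ⟨x, hxU', rfl⟩
  have hnhd : π ⁻¹' ((fun y => π (D y)) '' U') ∈ 𝓝 (D x) :=
    π.continuous.continuousAt (hopen.mem_nhds hmem)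
  obtain ⟨s, hs, hsb⟩ := Metric.mem_nhds_iff.1 hnhd
  refine ⟨min s r, lt_min hs hr, fun y hy hFy => ?_⟩
  have hys : y ∈ ball (D x) s := ball_subset_ball (min_le_left _ _) hy
  have hyr : y ∈ ball (D x) r := ball_subset_ball (min_le_right _ _) hy
  obtain ⟨z, hz, hzy⟩ := hsb hys
  exact ⟨z, hsub hz, key (D z) hz.2 y hyr (h0 z (hsub hz)) hFy hzy⟩

theorem partB (hI : Stmt_InvM) (M : Type) [TopologicalSpace M] [ChartedSpace E2 M] (U : Set M)
    (D : M → E3) (x : M) (hU : U ∈ 𝓝 x) (hc : ContinuousOn D U) (hi : InjOn D U)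
    (F : E3 → ℝ) (hF : ContDiff ℝ 1 F) (hd : fderiv ℝ F (D x) ≠ 0)
    (h0 : ∀ y ∈ U, F (D y) = 0) : ∃ s > 0, ∀ y ∈ ball (D x) s, F y = 0 → y ∈ D '' U := by
  obtain ⟨e, he⟩ : ∃ e : E3, 0 < fderiv ℝ F (D x) e := by
    obtain ⟨e, he⟩ : ∃ e : E3, fderiv ℝ F (D x) e ≠ 0 := by
      by_contra hcon
      push_neg at hcon
      exact hd (ContinuousLinearMap.ext hcon)
    rcases lt_or_gt_of_ne he with h | h
    · exact ⟨-e, by rw [map_neg]; linarith⟩
    · exact ⟨e, h⟩
  have hcont : Continuous (fun y => fderiv ℝ F y e) :=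
    (hF.continuous_fderiv (by norm_num)).clm_apply continuous_const
  have hnh : {y | 0 < fderiv ℝ F y e} ∈ 𝓝 (D x) :=
    (isOpen_lt continuous_const hcont).mem_nhds he
  obtain ⟨r, hr, hrb⟩ := Metric.mem_nhds_iff.1 hnh
  refine partA hI M U D x hU hc hi F e r hr ?_ h0
  intro y hy t ht hyt
  have hdiff : Differentiable ℝ F := hF.differentiable (by norm_num)
  have hder : ∀ s : ℝ, HasDerivAt (fun s : ℝ => F (y - s • e)) (-(fderiv ℝ F (y - s • e) e)) s := by
    intro s
    have h1 : HasDerivAt (fun s : ℝ => y - s • e) (-e) s := by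
      have h2 : HasDerivAt (fun s : ℝ => s • e) ((1 : ℝ) • e) s :=
        (hasDerivAt_id s).smul_const e
      have h3 := h2.const_sub y
      rwa [one_smul] at h3
    have h2 := (hdiff (y - s • e)).hasFDerivAt.comp_hasDerivAt s h1
    rwa [map_neg] at h2
  have hseg : ∀ s ∈ Icc (0 : ℝ) t, y - s • e ∈ ball (D x) r := by
    intro s hs
    have hconv : Convex ℝ (ball (D x) r) := convex_ball _ _
    have hst : s / t ∈ Icc (0 : ℝ) 1 :=
      ⟨div_nonneg hs.1 ht.le, (div_le_one ht).2 hs.2⟩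
    have h1 := hconv hy hyt (sub_nonneg.2 hst.2) hst.1 (by ring)
    have h2 : (1 - s / t) • y + (s / t) • (y - t • e) = y - s • e := by
      rw [smul_sub, smul_smul, sub_smul, one_smul, div_mul_cancel₀ _ ht.ne']
      abel
    rwa [h2] at h1
  have hanti : StrictAntiOn (fun s : ℝ => F (y - s • e)) (Icc 0 t) := by
    refine strictAntiOn_of_deriv_neg (convex_Icc _ _)
      (fun s _ => (hder s).continuousAt.continuousWithinAt) ?_
    intro s hs
    rw [interior_Icc] at hs
    rw [(hder s).deriv]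
    have := hrb (hseg s ⟨hs.1.le, hs.2.le⟩)
    have h2 : 0 < fderiv ℝ F (y - s • e) e := this
    linarith
  have := hanti ⟨le_rfl, ht.le⟩ ⟨ht.le, le_rfl⟩ ht
  simpa using this

end OPIM_

theorem opim_proof (h1 : Stmt_InvM) : Stmt_Opim := by
  intro M _ _ U D x hU hc hi
  exact ⟨fun F e r hr hm h0 => OPIM_.partA h1 M U D x hU hc hi F e r hr hm h0,
    fun F hF hd h0 => OPIM_.partB h1 M U D x hU hc hi F hF hd h0⟩

end Pool.Agent.TSM
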