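import Pool.Agent.TSM.SStmts

/-!
# PART: finite good covers with Lipschitz partition of unity
-/

set_option autoImplicit false

namespace Pool.Agent.TSM

open Set Filter Topology

namespace PART_

variable {M : Type} [TopologicalSpace M]

/-- locally Lipschitz with respect to `D` implies continuous -/
lemma cont_of_lip {D : M → E3} {β : M → ℝ} (hD : Continuous D)
    (h : ∀ x, ∃ V ∈ 𝓝 x, ∃ L : ℝ, ∀ y ∈ V, ∀ z ∈ V, |β y - β z| ≤ L * ‖D y - D z‖) :
    Continuous β := by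
  rw [continuous_iff_continuousAt]
  intro x
  obtain ⟨V, hV, L, hL⟩ := h x
  have hxV : x ∈ V := mem_of_mem_nhds hV
  have h1 : Tendsto (fun y => L * ‖D y - D x‖) (𝓝 x) (𝓝 0) := by
    have h2 : Continuous (fun y => L * ‖D y - D x‖) := by fun_prop
    have h3 := h2.tendsto x
    simpa using h3
  refine tendsto_iff_dist_tendsto_zero.2 ?_
  refine squeeze_zero' (Eventually.of_forall fun y => dist_nonneg) ?_ h1
  filter_upwards [hV] with y hy
  rw [Real.dist_eq]
  exact hL y hy x hxV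

/-- bump functions -/
lemma bump [CompactSpace M] [T2Space M] {D : M → E3} (hD : Continuous D) {U : Set M}
    (hU : IsOpen U) (hinj : InjOn D U) {x : M} (hx : x ∈ U) :
    ∃ β : M → ℝ, (∀ z, 0 ≤ β z) ∧ 0 < β x ∧ closure (Function.support β) ⊆ U ∧
      ∀ y, ∃ V ∈ 𝓝 y, ∀ z ∈ V, ∀ w ∈ V, |β z - β w| ≤ ‖D z - D w‖ := by
  classical
  obtain ⟨t, ht1, ht2, ht3⟩ := exists_mem_nhds_isClosed_subset (hU.mem_nhds hx)
  obtain ⟨V, hV⟩ : ∃ V : Set M, V = interior t := ⟨_, rfl⟩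
  have hVo : IsOpen V := by rw [hV]; exact isOpen_interior
  have hxV : x ∈ V := by rw [hV]; exact mem_interior_iff_mem_nhds.2 ht1
  have hcl : closure V ⊆ U := by
    rw [hV]
    exact (closure_minimal interior_subset ht2).trans ht3
  have hfr : IsCompact (frontier V) := isClosed_frontier.isCompact
  have him : IsClosed (D '' frontier V) := (hfr.image hD).isClosed
  have hxf : D x ∉ D '' frontier V := by
    rintro ⟨z, hz, hzx⟩
    have hzU : z ∈ U := hcl (frontier_subset_closure hz)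
    have := hinj hzU hx hzx
    rw [this] at hz
    rw [hVo.frontier_eq] at hz
    exact hz.2 hxV
  obtain ⟨r, hr, hball⟩ := Metric.isOpen_iff.1 him.isOpen_compl (D x) hxf
  have hfar : ∀ z ∈ frontier V, r ≤ ‖D z - D x‖ := by
    intro z hz
    by_contra hc
    push Not at hc
    have h1 : D z ∈ Metric.ball (D x) r := by
      rw [Metric.mem_ball, dist_eq_norm]
      exact hc
    exact hball h1 ⟨z, hz, rfl⟩
  have key : ∀ z w, |max 0 (r / 2 - ‖D z - D x‖) - max 0 (r / 2 - ‖D w - D x‖)| ≤ ‖D z - D w‖ := by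
    intro z w
    have h1 : |max 0 (r / 2 - ‖D z - D x‖) - max 0 (r / 2 - ‖D w - D x‖)| ≤
        |(r / 2 - ‖D z - D x‖) - (r / 2 - ‖D w - D x‖)| := by
      rw [max_comm 0 _, max_comm 0 _]
      exact abs_max_sub_max_le_abs _ _ _
    refine h1.trans ?_
    have h2 : (r / 2 - ‖D z - D x‖) - (r / 2 - ‖D w - D x‖) = ‖D w - D x‖ - ‖D z - D x‖ := by ring
    rw [h2]
    refine (abs_norm_sub_norm_le _ _).trans (le_of_eq ?_)
    rw [sub_sub_sub_cancel_right, norm_sub_rev]
  refine ⟨fun z => if z ∈ V then max 0 (r / 2 - ‖D z - D x‖) else 0, ?_, ?_, ?_, ?_⟩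
  · intro z
    dsimp only
    split_ifs
    · exact le_max_left _ _
    · exact le_rfl
  · dsimp only
    rw [if_pos hxV]
    apply lt_max_of_lt_right
    simpa using hr
  · refine (closure_mono ?_).trans hcl
    intro z hz
    rw [Function.mem_support] at hz
    by_contra hc
    exact hz (if_neg hc)
  · intro y
    by_cases hy : y ∈ V
    · refine ⟨V, hVo.mem_nhds hy, fun z hz w hw => ?_⟩
      dsimp only
      rw [if_pos hz, if_pos hw]
      exact key z w
    · by_cases hy2 : y ∈ closure V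
      · have hyf : y ∈ frontier V := by
          rw [hVo.frontier_eq]
          exact ⟨hy2, hy⟩
        have h1 : ∀ᶠ z in 𝓝 y, r / 2 < ‖D z - D x‖ := by
          have hc : Continuous (fun z => ‖D z - D x‖) := by fun_prop
          exact (hc.tendsto y).eventually (lt_mem_nhds (by linarith [hfar y hyf]))
        refine ⟨_, h1, fun z hz w hw => ?_⟩
        have e : ∀ z, r / 2 < ‖D z - D x‖ →
            (if z ∈ V then max 0 (r / 2 - ‖D z - D x‖) else 0) = 0 := by
          intro z hz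
          split_ifs
          · exact max_eq_left (by linarith)
          · rfl
        dsimp only
        rw [e z hz, e w hw, sub_zero, abs_zero]
        exact norm_nonneg _
      · refine ⟨(closure V)ᶜ, isClosed_closure.isOpen_compl.mem_nhds hy2, fun z hz w hw => ?_⟩
        dsimp only
        rw [if_neg (fun h => hz (subset_closure h)), if_neg (fun h => hw (subset_closure h)),
          sub_zero, abs_zero]
        exact norm_nonneg _

/-- normalised affine function -/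
noncomputable def nrm (a : Aff) : Aff := (‖a.1‖⁻¹ • a.1, ‖a.1‖⁻¹ * a.2)

lemma ev_nrm (a : Aff) (x : E3) : ev (nrm a) x = ‖a.1‖⁻¹ * ev a x := by
  unfold ev nrm
  rw [real_inner_smul_left]
  ring

lemma norm_nrm {a : Aff} (h : a.1 ≠ 0) : ‖(nrm a).1‖ = 1 := by
  unfold nrm
  rw [norm_smul, norm_inv, norm_norm]
  exact inv_mul_cancel₀ (norm_ne_zero_iff.2 h)

lemma sign_min {A B α β : ℝ} (hα : 0 < α) (hβ : 0 < β) (h : min A B ≤ 0) :
    min (α * A) (β * B) ≤ 0 := by
  rcases min_le_iff.1 h with h1 | h1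
  · exact (min_le_left _ _).trans (mul_nonpos_of_nonneg_of_nonpos hα.le h1)
  · exact (min_le_right _ _).trans (mul_nonpos_of_nonneg_of_nonpos hβ.le h1)

lemma sign_min' {A B α β : ℝ} (hα : 0 < α) (hβ : 0 < β) (h : 0 ≤ min A B) :
    0 ≤ min (α * A) (β * B) := by
  rw [le_min_iff] at h ⊢
  exact ⟨mul_nonneg hα.le h.1, mul_nonneg hβ.le h.2⟩

lemma sign_G {A B C α β γ : ℝ} (hα : 0 < α) (hβ : 0 < β) (hγ : 0 < γ)
    (h : max (min A B) C = 0) : max (min (α * A) (β * B)) (γ * C) = 0 := by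
  have h1 : min A B ≤ 0 := h ▸ le_max_left _ _
  have h2 : C ≤ 0 := h ▸ le_max_right _ _
  apply le_antisymm
  · exact max_le (sign_min hα hβ h1) (mul_nonpos_of_nonneg_of_nonpos hγ.le h2)
  · rcases le_max_iff.1 h.ge with h3 | h3
    · exact le_max_of_le_left (sign_min' hα hβ h3)
    · exact le_max_of_le_right (mul_nonneg hγ.le h3)

lemma G3_nrm {a b c : Aff} (ha : a.1 ≠ 0) (hb : b.1 ≠ 0) (hc : c.1 ≠ 0) {x : E3}
    (h : G3 a b c x = 0) : G3 (nrm a) (nrm b) (nrm c) x = 0 := by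
  unfold G3 at *
  rw [ev_nrm, ev_nrm, ev_nrm]
  exact sign_G (inv_pos.2 (norm_pos_iff.2 ha)) (inv_pos.2 (norm_pos_iff.2 hb))
    (inv_pos.2 (norm_pos_iff.2 hc)) h

lemma indep_ne {a b c : Aff} (h : Indep a b c) : a.1 ≠ 0 ∧ b.1 ≠ 0 ∧ c.1 ≠ 0 := by
  unfold Indep at h
  exact ⟨by simpa using h.ne_zero 0, by simpa using h.ne_zero 1, by simpa using h.ne_zero 2⟩

lemma indep_nrm {a b c : Aff} (h : Indep a b c) : Indep (nrm a) (nrm b) (nrm c) := by
  obtain ⟨ha, hb, hc⟩ := indep_ne h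
  unfold Indep at *
  have ha' : ‖a.1‖⁻¹ ≠ 0 := inv_ne_zero (norm_ne_zero_iff.2 ha)
  have hb' : ‖b.1‖⁻¹ ≠ 0 := inv_ne_zero (norm_ne_zero_iff.2 hb)
  have hc' : ‖c.1‖⁻¹ ≠ 0 := inv_ne_zero (norm_ne_zero_iff.2 hc)
  have := h.units_smul ![Units.mk0 _ ha', Units.mk0 _ hb', Units.mk0 _ hc']
  have e : (![Units.mk0 _ ha', Units.mk0 _ hb', Units.mk0 _ hc'] • ![a.1, b.1, c.1]) =
      ![(nrm a).1, (nrm b).1, (nrm c).1] := by
    funext i
    fin_cases i <;> rfl
  rw [← e]
  exact this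

/-- a vector with inner product one with three independent normals -/
lemma ex_e {a b c : Aff} (h : Indep a b c) :
    ∃ e : E3, inner ℝ a.1 e = 1 ∧ inner ℝ b.1 e = 1 ∧ inner ℝ c.1 e = 1 := by
  unfold Indep at h
  have hcard : Fintype.card (Fin 3) = Module.finrank ℝ E3 := by simp
  obtain ⟨B, hB⟩ : ∃ B : Module.Basis (Fin 3) ℝ E3, ⇑B = ![a.1, b.1, c.1] :=
    ⟨basisOfLinearIndependentOfCardEqFinrank h hcard,
      coe_basisOfLinearIndependentOfCardEqFinrank h hcard⟩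
  obtain ⟨f, hf⟩ : ∃ f : E3 →ₗ[ℝ] ℝ, f = B.constr ℝ (fun _ => (1 : ℝ)) := ⟨_, rfl⟩
  have hfi : ∀ i, f (B i) = 1 := by
    intro i
    rw [hf]
    exact B.constr_basis ℝ _ i
  refine ⟨(InnerProductSpace.toDual ℝ E3).symm (LinearMap.toContinuousLinearMap f), ?_, ?_, ?_⟩
  · have := hfi 0
    rw [hB] at this
    rw [real_inner_comm, InnerProductSpace.toDual_symm_apply]
    exact this
  · have := hfi 1
    rw [hB] at this
    rw [real_inner_comm, InnerProductSpace.toDual_symm_apply]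
    exact this
  · have := hfi 2
    rw [hB] at this
    rw [real_inner_comm, InnerProductSpace.toDual_symm_apply]
    exact this

/-- one chart -/
structure Chart (D : M → E3) where
  /-- the open set -/
  U : Set M
  /-- normals -/
  a : Aff
  /-- normals -/
  b : Aff
  /-- normals -/
  c : Aff
  /-- the vector -/
  e : E3
  /-- the bump -/
  β : M → ℝ
  opn : IsOpen U
  inj : InjOn D U
  ind : Indep a b c
  ua : ‖a.1‖ = 1
  ub : ‖b.1‖ = 1
  uc : ‖c.1‖ = 1
  zero : ∀ x ∈ U, G3 a b c (D x) = 0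
  ea : inner ℝ a.1 e = 1
  eb : inner ℝ b.1 e = 1
  ec : inner ℝ c.1 e = 1
  nonneg : ∀ x, 0 ≤ β x
  supp : closure (Function.support β) ⊆ U
  lip : ∀ y, ∃ V ∈ 𝓝 y, ∀ z ∈ V, ∀ w ∈ V, |β z - β w| ≤ ‖D z - D w‖

lemma ex_chart [CompactSpace M] [T2Space M] {D : M → E3} (hD : Continuous D) {x : M}
    (h : Good D x) : ∃ C : Chart D, 0 < C.β x := by
  obtain ⟨U, hU, hinj, a, b, c, hind, hz⟩ := h
  have hxU : x ∈ interior U := mem_interior_iff_mem_nhds.2 hU
  obtain ⟨β, h1, h2, h3, h4⟩ := bump hD isOpen_interior (hinj.mono interior_subset) hxU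
  obtain ⟨ha, hb, hc⟩ := indep_ne hind
  obtain ⟨e, e1, e2, e3⟩ := ex_e (indep_nrm hind)
  exact ⟨⟨interior U, nrm a, nrm b, nrm c, e, β, isOpen_interior, hinj.mono interior_subset,
    indep_nrm hind, norm_nrm ha, norm_nrm hb, norm_nrm hc,
    fun y hy => G3_nrm ha hb hc (hz y (interior_subset hy)), e1, e2, e3, h1, h3, h4⟩, h2⟩

lemma Chart.cont {D : M → E3} (hD : Continuous D) (C : Chart D) : Continuous C.β :=
  cont_of_lip hD fun x => by
    obtain ⟨V, hV, h⟩ := C.lip x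
    exact ⟨V, hV, 1, fun y hy z hz => by rw [one_mul]; exact h y hy z hz⟩

/-- Lipschitz estimate of a quotient -/
lemma quot_est {b b' q q' c d L : ℝ} (hc : 0 < c) (hq : c ≤ q) (hq' : c ≤ q') (hb' : 0 ≤ b')
    (hbq : b' ≤ q') (hd : 0 ≤ d) (h1 : |b - b'| ≤ d) (h2 : |q - q'| ≤ L * d) :
    |b / q - b' / q'| ≤ (1 + L) / c * d := by
  have hq0 : 0 < q := by linarith
  have hq0' : 0 < q' := by linarith
  have e : b / q - b' / q' = (b - b') / q - b' / q' * ((q - q') / q) := by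
    field_simp
    ring
  rw [e]
  have h3 : |(b - b') / q| ≤ d / c := by
    rw [abs_div, abs_of_pos hq0]
    exact div_le_div₀ hd h1 hc hq
  have h4 : |(q - q') / q| ≤ L * d / c := by
    rw [abs_div, abs_of_pos hq0]
    exact div_le_div₀ ((abs_nonneg _).trans h2) h2 hc hq
  have h5 : |b' / q' * ((q - q') / q)| ≤ L * d / c := by
    rw [abs_mul, abs_of_nonneg (div_nonneg hb' hq0'.le)]
    have h6 : b' / q' ≤ 1 := (div_le_one hq0').2 hbq
    calc b' / q' * |(q - q') / q| ≤ 1 * |(q - q') / q| :=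
          mul_le_mul_of_nonneg_right h6 (abs_nonneg _)
      _ ≤ L * d / c := by rw [one_mul]; exact h4
  calc |(b - b') / q - b' / q' * ((q - q') / q)|
      ≤ |(b - b') / q| + |b' / q' * ((q - q') / q)| := abs_sub _ _
    _ ≤ d / c + L * d / c := add_le_add h3 h5
    _ = (1 + L) / c * d := by ring

end PART_

open PART_

theorem part_proof : Stmt_Part := by
  intro M _ _ _ D K hD hK hgood
  classical
  have hKc : IsCompact K := hK.isCompact
  have hch : ∀ x : M, ∀ hx : x ∈ K, ∃ C : Chart D, 0 < C.β x :=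
    fun x hx => ex_chart hD (hgood x hx)
  choose C hC using hch
  obtain ⟨t, ht⟩ := hKc.elim_nhds_subcover' (fun x hx => {y | 0 < (C x hx).β y})
    (fun x hx => ((isOpen_lt continuous_const ((C x hx).cont hD)).mem_nhds (hC x hx)))
  obtain ⟨m, hm⟩ : ∃ m, m = t.card := ⟨_, rfl⟩
  obtain ⟨f⟩ : Nonempty (Fin m ≃ t) := ⟨(Fintype.equivFinOfCardEq (by simp [hm])).symm⟩
  obtain ⟨Ch, hCh⟩ : ∃ Ch : Fin m → Chart D, Ch = fun j => C (f j).1.1 (f j).1.2 := ⟨_, rfl⟩
  obtain ⟨s, hs⟩ : ∃ s : M → ℝ, s = fun x => ∑ j, (Ch j).β x := ⟨_, rfl⟩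
  have hscont : Continuous s := by
    rw [hs]
    exact continuous_finsetSum _ fun j _ => (Ch j).cont hD
  have hs0 : ∀ x, 0 ≤ s x := by
    intro x
    rw [hs]
    exact Finset.sum_nonneg fun j _ => (Ch j).nonneg x
  have hsK : ∀ x ∈ K, 0 < s x := by
    intro x hx
    obtain ⟨y, hy, hxy⟩ := Set.mem_iUnion₂.1 (ht hx)
    rw [hs]
    refine Finset.sum_pos' (fun j _ => (Ch j).nonneg x) ⟨f.symm ⟨y, hy⟩, Finset.mem_univ _, ?_⟩
    rw [hCh]
    simpa using hxy
  obtain ⟨c₀, hc₀, hc₀K⟩ : ∃ c₀ : ℝ, 0 < c₀ ∧ ∀ x ∈ K, c₀ ≤ s x := by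
    rcases K.eq_empty_or_nonempty with h | h
    · exact ⟨1, one_pos, by simp [h]⟩
    · obtain ⟨x, hx, hmin⟩ := hKc.exists_isMinOn h hscont.continuousOn
      exact ⟨s x, hsK x hx, fun y hy => hmin hy⟩
  have hq : ∀ x, 0 < max (s x) c₀ := fun x => lt_max_of_lt_right hc₀
  have hbs : ∀ j x, (Ch j).β x ≤ s x := by
    intro j x
    rw [hs]
    exact Finset.single_le_sum (fun i _ => (Ch i).nonneg x) (Finset.mem_univ j)
  have hlip : ∀ j x, ∃ V ∈ 𝓝 x, ∃ L : ℝ, ∀ y ∈ V, ∀ z ∈ V,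
      |(Ch j).β y / max (s y) c₀ - (Ch j).β z / max (s z) c₀| ≤ L * ‖D y - D z‖ := by
    intro j x
    have h1 : ∀ i, ∃ V ∈ 𝓝 x, ∀ z ∈ V, ∀ w ∈ V, |(Ch i).β z - (Ch i).β w| ≤ ‖D z - D w‖ :=
      fun i => (Ch i).lip x
    choose V hV hVl using h1
    refine ⟨⋂ i, V i, Filter.iInter_mem.2 hV, (1 + m) / c₀, fun y hy z hz => ?_⟩
    rw [Set.mem_iInter] at hy hz
    refine quot_est hc₀ (le_max_right _ _) (le_max_right _ _) ((Ch j).nonneg z)
      ((hbs j z).trans (le_max_left _ _)) (norm_nonneg _) (hVl j y (hy j) z (hz j)) ?_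
    refine (abs_max_sub_max_le_abs _ _ _).trans ?_
    rw [hs]
    dsimp only
    rw [← Finset.sum_sub_distrib]
    refine (Finset.abs_sum_le_sum_abs _ _).trans ?_
    calc ∑ i : Fin m, |(Ch i).β y - (Ch i).β z| ≤ ∑ _i : Fin m, ‖D y - D z‖ :=
          Finset.sum_le_sum fun i _ => hVl i y (hy i) z (hz i)
      _ = m * ‖D y - D z‖ := by simp
  refine ⟨m, fun j => (Ch j).U, fun j => (Ch j).a, fun j => (Ch j).b, fun j => (Ch j).c,
    fun j => (Ch j).e, fun j x => (Ch j).β x / max (s x) c₀, ?_⟩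
  refine ⟨fun j => (Ch j).opn, fun j => (Ch j).inj, fun j => (Ch j).ind, fun j => (Ch j).ua,
    fun j => (Ch j).ub, fun j => (Ch j).uc, fun j => (Ch j).zero, fun j => (Ch j).ea,
    fun j => (Ch j).eb, fun j => (Ch j).ec, fun j => cont_of_lip hD (hlip j), ?_, ?_, ?_, ?_, hlip⟩
  · intro j x
    exact div_nonneg ((Ch j).nonneg x) (hq x).le
  · intro x
    rw [← Finset.sum_div]
    have : ∑ j, (Ch j).β x = s x := by rw [hs]
    rw [this]
    exact (div_le_one (hq x)).2 (le_max_left _ _)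
  · intro j
    refine (closure_mono ?_).trans (Ch j).supp
    intro x hx
    rw [Function.mem_support] at hx ⊢
    intro h
    exact hx (by rw [h, zero_div])
  · intro x hx
    rw [← Finset.sum_div]
    have : ∑ j, (Ch j).β x = s x := by rw [hs]
    rw [this, max_eq_left (hc₀K x hx)]
    exact div_self (hsK x hx).ne'

end Pool.Agent.TSM
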