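import Pool.Agent.TSM.SStmts

/-!
# TSM, module PHI: the smooth max profile
-/

set_option autoImplicit false

namespace Pool.Agent.TSM

open Set Filter Topology Metric MeasureTheory
open scoped Manifold ContDiff

namespace PHI_

/-- the bump -/
noncomputable def bmp : ContDiffBump (0 : ℝ) := ⟨1 / 2, 1, by norm_num, by norm_num⟩

/-- normalised even bump -/
noncomputable def rho (t : ℝ) : ℝ := bmp.normed volume t

theorem rho_smooth : ContDiff ℝ ∞ rho := bmp.contDiff_normed

theorem rho_nonneg (t : ℝ) : 0 ≤ rho t := bmp.nonneg_normed t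

theorem rho_supp : Function.support rho = ball 0 1 := by
  have h := bmp.support_normed_eq (μ := volume)
  exact h

theorem rho_pos {t : ℝ} (h1 : -1 < t) (h2 : t < 1) : 0 < rho t := by
  have h : t ∈ Function.support rho := by
    rw [rho_supp, mem_ball, dist_zero_right, Real.norm_eq_abs, abs_lt]
    exact ⟨h1, h2⟩
  exact lt_of_le_of_ne (rho_nonneg t) (Ne.symm h)

theorem rho_zero_left {t : ℝ} (h1 : t ≤ -1) : rho t = 0 := by
  by_contra h
  have h' : t ∈ Function.support rho := h
  rw [rho_supp, mem_ball, dist_zero_right, Real.norm_eq_abs, abs_lt] at h'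
  linarith [h'.1]

theorem rho_even (t : ℝ) : rho (-t) = rho t := bmp.normed_neg t

theorem rho_cont : Continuous rho := rho_smooth.continuous

theorem rho_int (a b : ℝ) : IntervalIntegrable rho volume a b := rho_cont.intervalIntegrable a b

/-- first primitive -/
noncomputable def psi (s : ℝ) : ℝ := ∫ t in (-1)..s, rho t

theorem psi_hasDeriv (s : ℝ) : HasDerivAt psi (rho s) s :=
  intervalIntegral.integral_hasDerivAt_right (rho_int _ _)
    rho_cont.aestronglyMeasurable.stronglyMeasurableAtFilter rho_cont.continuousAt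

theorem psi_deriv : deriv psi = rho := funext fun s => (psi_hasDeriv s).deriv

theorem psi_smooth : ContDiff ℝ ∞ psi := by
  rw [contDiff_infty_iff_deriv]
  refine ⟨fun s => (psi_hasDeriv s).differentiableAt, ?_⟩
  rw [psi_deriv]
  exact rho_smooth

theorem psi_cont : Continuous psi := psi_smooth.continuous

theorem psi_mono : Monotone psi := by
  apply monotone_of_deriv_nonneg (fun s => (psi_hasDeriv s).differentiableAt)
  intro s
  rw [psi_deriv]
  exact rho_nonneg s

theorem psi_neg_one : psi (-1) = 0 := by simp [psi]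

theorem psi_zero {s : ℝ} (h : s ≤ -1) : psi s = 0 := by
  unfold psi
  rw [intervalIntegral.integral_symm]
  rw [intervalIntegral.integral_congr (g := fun _ => (0 : ℝ))]
  · simp
  · intro t ht
    rw [uIcc_of_le h] at ht
    exact rho_zero_left ht.2

theorem psi_nonneg (s : ℝ) : 0 ≤ psi s := by
  by_cases h : s ≤ -1
  · rw [psi_zero h]
  · rw [← psi_neg_one]
    exact psi_mono (by linarith [not_le.mp h])

theorem psi_one : psi 1 = 1 := by
  unfold psi
  have h1 : Function.support rho ⊆ Ioc (-1) 1 := by
    rw [rho_supp]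
    intro t ht
    rw [mem_ball, dist_zero_right, Real.norm_eq_abs, abs_lt] at ht
    exact ⟨ht.1, ht.2.le⟩
  rw [intervalIntegral.integral_eq_integral_of_support_subset h1]
  exact bmp.integral_normed

theorem psi_sym (s : ℝ) : psi s + psi (-s) = 1 := by
  have h1 : psi (-s) = ∫ t in s..1, rho t := by
    unfold psi
    have h2 : (∫ t in s..1, rho (-t)) = ∫ t in (-1)..(-s), rho t := by
      rw [intervalIntegral.integral_comp_neg]
    rw [← h2]
    apply intervalIntegral.integral_congr
    intro t _
    exact rho_even t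
  rw [h1]
  unfold psi
  rw [intervalIntegral.integral_add_adjacent_intervals (rho_int _ _) (rho_int _ _)]
  exact psi_one

theorem psi_le (s : ℝ) : psi s ≤ 1 := by linarith [psi_sym s, psi_nonneg (-s)]

theorem psi_pos {s : ℝ} (h : -1 < s) : 0 < psi s := by
  have h1 : (-1 : ℝ) < min s 1 := lt_min h (by norm_num)
  have h2 : 0 < psi (min s 1) := by
    unfold psi
    apply intervalIntegral.intervalIntegral_pos_of_pos_on (rho_int _ _) _ h1
    intro t ht
    exact rho_pos ht.1 (lt_of_lt_of_le ht.2 (min_le_right _ _))
  exact lt_of_lt_of_le h2 (psi_mono (min_le_left _ _))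

theorem psi_lt {s : ℝ} (h : s < 1) : psi s < 1 := by
  have := psi_pos (s := -s) (by linarith)
  linarith [psi_sym s]

theorem psi_int (a b : ℝ) : IntervalIntegrable psi volume a b := psi_cont.intervalIntegrable a b

/-- the profile -/
noncomputable def phi (s : ℝ) : ℝ := ∫ t in (-1)..s, psi t

theorem phi_hasDeriv (s : ℝ) : HasDerivAt phi (psi s) s :=
  intervalIntegral.integral_hasDerivAt_right (psi_int _ _)
    psi_cont.aestronglyMeasurable.stronglyMeasurableAtFilter psi_cont.continuousAt

theorem phi_deriv : deriv phi = psi := funext fun s => (phi_hasDeriv s).deriv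

theorem phi_smooth : ContDiff ℝ ∞ phi := by
  rw [contDiff_infty_iff_deriv]
  refine ⟨fun s => (phi_hasDeriv s).differentiableAt, ?_⟩
  rw [phi_deriv]
  exact psi_smooth

theorem phi_mono : Monotone phi := by
  apply monotone_of_deriv_nonneg (fun s => (phi_hasDeriv s).differentiableAt)
  intro s
  rw [phi_deriv]
  exact psi_nonneg s

theorem phi_neg_one : phi (-1) = 0 := by simp [phi]

theorem phi_zero {s : ℝ} (h : s ≤ -1) : phi s = 0 := by
  unfold phi
  rw [intervalIntegral.integral_symm]
  rw [intervalIntegral.integral_congr (g := fun _ => (0 : ℝ))]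
  · simp
  · intro t ht
    rw [uIcc_of_le h] at ht
    exact psi_zero ht.2

theorem phi_nonneg (s : ℝ) : 0 ≤ phi s := by
  by_cases h : s ≤ -1
  · rw [phi_zero h]
  · rw [← phi_neg_one]
    exact phi_mono (by linarith [not_le.mp h])

theorem phi_sym (s : ℝ) : phi s - phi (-s) = s := by
  have hd : ∀ x : ℝ, HasDerivAt (fun s : ℝ => phi s - phi (-s) - s) 0 x := by
    intro x
    have h1 := phi_hasDeriv x
    have h2 : HasDerivAt (fun s : ℝ => phi (-s)) (psi (-x) * (-1)) x :=
      (phi_hasDeriv (-x)).comp x (hasDerivAt_neg x)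
    have h3 := (h1.sub h2).sub (hasDerivAt_id x)
    have h4 : psi x - psi (-x) * (-1) - 1 = 0 := by linarith [psi_sym x]
    rw [h4] at h3
    exact h3
  have hc := is_const_of_deriv_eq_zero (f := fun s : ℝ => phi s - phi (-s) - s)
    (fun x => (hd x).differentiableAt) (fun x => (hd x).deriv) s 0
  simp only [neg_zero, sub_self] at hc
  linarith

theorem phi_le_of_nonpos {s : ℝ} (hs : s ≤ 0) : phi s ≤ 1 := by
  have h0 : phi s ≤ phi 0 := phi_mono hs
  have h1 : phi 0 ≤ 1 := by
    unfold phi
    have h2 : (∫ t in (-1 : ℝ)..0, psi t) ≤ ∫ _t in (-1 : ℝ)..0, (1 : ℝ) :=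
      intervalIntegral.integral_mono_on (by norm_num) (psi_int _ _)
        (continuous_const.intervalIntegrable _ _) (fun t _ => psi_le t)
    simpa using h2
  linarith

end PHI_

open PHI_ in
/-- PHI. -/
theorem phi_proof : Stmt_Phi := by
  refine ⟨PHI_.phi, ?_⟩
  refine
    { smooth := phi_smooth
      zero := fun s hs => phi_zero hs
      one := ?_
      even := phi_sym
      ge := ?_
      le := ?_
      d_nonneg := ?_
      d_le := ?_
      d_pos := ?_
      d_lt := ?_
      dd_nonneg := ?_
      dd_pos := ?_ }
  · intro s hs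
    have := phi_sym s
    rw [phi_zero (s := -s) (by linarith)] at this
    linarith
  · intro s
    apply max_le
    · linarith [phi_sym s, phi_nonneg (-s)]
    · exact phi_nonneg s
  · intro s
    rcases le_total s 0 with h | h
    · rw [max_eq_right h]
      linarith [phi_le_of_nonpos h]
    · rw [max_eq_left h]
      linarith [phi_sym s, phi_le_of_nonpos (s := -s) (by linarith)]
  · intro s
    rw [phi_deriv]
    exact psi_nonneg s
  · intro s
    rw [phi_deriv]
    exact psi_le s
  · intro s hs
    rw [phi_deriv]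
    exact psi_pos hs
  · intro s hs
    rw [phi_deriv]
    exact psi_lt hs
  · intro s
    rw [phi_deriv, psi_deriv]
    exact rho_nonneg s
  · intro s h1 h2
    rw [phi_deriv, psi_deriv]
    exact rho_pos h1 h2

end Pool.Agent.TSM
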