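import Pool.Agent.TSM.SStmts

/-!
# TSM, Part S, module PREX: uniqueness of preimages near the vertices of the polytope
-/

set_option autoImplicit false

namespace Pool.Agent.TSM

open Set Filter Topology Metric

namespace PREX_

theorem ev_lin (φ : Aff) (x y : E3) (t : ℝ) :
    ev φ (x + t • (x - y)) = ev φ x + t * (ev φ x - ev φ y) := by
  unfold ev
  rw [inner_add_right, inner_smul_right, inner_sub_right]
  ring

/-- a small step from `x` away from `y` stays in the hull if the active sets coincide -/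
theorem step (Φ : Finset Aff) (x y : E3) (hx : x ∈ hull Φ)
    (h : ∀ φ ∈ Φ, ev φ x = 0 → ev φ y = 0) :
    ∀ᶠ t in 𝓝 (0 : ℝ), x + t • (x - y) ∈ hull Φ := by
  have h1 : ∀ φ ∈ Φ, ∀ᶠ t in 𝓝 (0 : ℝ), ev φ (x + t • (x - y)) ≤ 0 := by
    intro φ hφ
    rcases (hx φ hφ).lt_or_eq with hlt | heq
    · have hc : ContinuousAt (fun t : ℝ => ev φ x + t * (ev φ x - ev φ y)) 0 := by
        fun_prop
      have h2 : ev φ x + (0 : ℝ) * (ev φ x - ev φ y) < 0 := by simpa using hlt
      have h3 := hc.eventually (Iio_mem_nhds h2)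
      filter_upwards [h3] with t ht
      rw [ev_lin]
      exact le_of_lt ht
    · refine Eventually.of_forall (fun t => ?_)
      rw [ev_lin, heq, h φ hφ heq]
      simp
  have h2 := (Filter.eventually_all_finset Φ).2 h1
  filter_upwards [h2] with t ht
  exact ht

theorem active_inj (Φ : Finset Aff) (x y : E3) (hx : x ∈ extremePoints ℝ (hull Φ))
    (h : ∀ φ ∈ Φ, ev φ x = 0 → ev φ y = 0) : x = y := by
  have hx1 : x ∈ hull Φ := hx.1
  have e1 := step Φ x y hx1 h
  have e2 : ∀ᶠ t in 𝓝 (0 : ℝ), x + (-t) • (x - y) ∈ hull Φ := by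
    have : Tendsto (fun t : ℝ => -t) (𝓝 0) (𝓝 0) := by
      have := (continuous_neg (G := ℝ)).tendsto 0
      simpa using this
    exact this.eventually e1
  have e3 : ∀ᶠ t in 𝓝[>] (0 : ℝ), (x + t • (x - y) ∈ hull Φ ∧ x + (-t) • (x - y) ∈ hull Φ) ∧
      0 < t := by
    refine Eventually.and ?_ self_mem_nhdsWithin
    exact nhdsWithin_le_nhds (e1.and e2)
  obtain ⟨t, ⟨ht1, ht2⟩, ht0⟩ := e3.exists
  by_contra hne
  have hmem : x ∈ openSegment ℝ (x + t • (x - y)) (x + (-t) • (x - y)) := by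
    refine ⟨1 / 2, 1 / 2, by norm_num, by norm_num, by norm_num, ?_⟩
    module
  have h4 := hx.2 ht1 ht2 hmem
  have h5 : t • (x - y) = 0 := by
    simpa using h4
  rcases smul_eq_zero.mp h5 with h6 | h6
  · exact ht0.ne' h6
  · exact hne (sub_eq_zero.mp h6)

theorem ext_finite (Φ : Finset Aff) : (extremePoints ℝ (hull Φ)).Finite := by
  classical
  have hinj : Set.InjOn (fun x : E3 => Φ.filter (fun φ => ev φ x = 0))
      (extremePoints ℝ (hull Φ)) := by
    intro x hx y _ hxy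
    apply active_inj Φ x y hx
    intro φ hφ h0
    have h1 : φ ∈ Φ.filter (fun φ => ev φ x = 0) := Finset.mem_filter.2 ⟨hφ, h0⟩
    have h2 : φ ∈ Φ.filter (fun φ => ev φ y = 0) := by
      have hxy' : Φ.filter (fun φ => ev φ x = 0) = Φ.filter (fun φ => ev φ y = 0) := hxy
      rw [← hxy']
      exact h1
    exact (Finset.mem_filter.1 h2).2
  have himg : ((fun x : E3 => Φ.filter (fun φ => ev φ x = 0)) ''
      (extremePoints ℝ (hull Φ))).Finite := by
    refine (Φ.powerset.finite_toSet).subset ?_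
    rintro _ ⟨x, _, rfl⟩
    simp only [Finset.coe_powerset, Set.mem_preimage, Set.mem_powerset_iff]
    intro φ hφ
    exact (Finset.mem_filter.1 hφ).1
  exact Set.Finite.of_finite_image himg hinj

theorem loc_inj {M : Type} [TopologicalSpace M] (Φ : Finset Aff) (D : M → E3)
    (h : PreSmooth Φ D) (x : M) : ∃ U ∈ 𝓝 x, InjOn D U := by
  by_cases hx : ∀ φ ∈ Φ, ∀ ψ ∈ Φ, ev φ (D x) = 0 → ev ψ (D x) = 0 → φ = ψ
  · obtain ⟨U, hU, hi, -⟩ := h.good x hx
    exact ⟨U, hU, hi⟩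
  · have hx' : ∃ φ ∈ Φ, ∃ ψ ∈ Φ, φ ≠ ψ ∧ ev φ (D x) = 0 ∧ ev ψ (D x) = 0 := by
      by_contra hcon
      apply hx
      intro φ hφ ψ hψ h1 h2
      by_contra hne
      exact hcon ⟨φ, hφ, ψ, hψ, hne, h1, h2⟩
    obtain ⟨U, hU, hi, -⟩ := h.out x hx'
    exact ⟨U, hU, hi⟩

theorem one_point {M : Type} [TopologicalSpace M] [CompactSpace M] (Φ : Finset Aff) (D : M → E3)
    (h : PreSmooth Φ D) (e : E3) (he : e ∈ extremePoints ℝ (hull Φ)) :
    ∃ δ > 0, ∀ x y : M, ‖D x - e‖ < δ → ‖D y - e‖ < δ → D x = D y → x = y := by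
  -- an open set `W` on which `D` is injective and which contains the preimage of `e`
  obtain ⟨W, hWo, hWi, hW⟩ : ∃ W : Set M, IsOpen W ∧ InjOn D W ∧ ∀ x, D x = e → x ∈ W := by
    by_cases hex : ∃ x0, D x0 = e
    · obtain ⟨x0, hx0⟩ := hex
      obtain ⟨U, hU, hi⟩ := loc_inj Φ D h x0
      refine ⟨interior U, isOpen_interior, hi.mono interior_subset, ?_⟩
      intro x hx
      have hxx : x = x0 := h.ext x x0 (hx.trans hx0.symm) (by rw [hx]; exact he)
      rw [hxx]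
      exact mem_interior_iff_mem_nhds.2 hU
    · refine ⟨∅, isOpen_empty, by simp, ?_⟩
      intro x hx
      exact absurd ⟨x, hx⟩ hex
  have hK : IsCompact Wᶜ := hWo.isClosed_compl.isCompact
  have hc : ContinuousOn (fun x => ‖D x - e‖) Wᶜ :=
    ((h.cont.sub continuous_const).norm).continuousOn
  have hpos : ∀ x ∈ Wᶜ, (0 : ℝ) < ‖D x - e‖ := by
    intro x hx
    rw [norm_pos_iff]
    intro h0
    exact hx (hW x (sub_eq_zero.mp h0))
  obtain ⟨δ, hδ, hle⟩ := hK.exists_forall_le' hc hpos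
  refine ⟨δ, hδ, ?_⟩
  intro x y hx hy hxy
  have mx : x ∈ W := by
    by_contra hcon
    exact absurd hx (not_lt.2 (hle x hcon))
  have my : y ∈ W := by
    by_contra hcon
    exact absurd hy (not_lt.2 (hle y hcon))
  exact hWi mx my hxy

end PREX_

open PREX_ in
theorem prex_proof : Stmt_Prex := by
  intro M _ _ _ Φ D h
  have h1 : ∀ e ∈ extremePoints ℝ (hull Φ), ∀ᶠ r in 𝓝[>] (0 : ℝ), ∀ x y : M,
      ‖D x - e‖ < r → ‖D y - e‖ < r → D x = D y → x = y := by
    intro e he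
    obtain ⟨δ, hδ, hh⟩ := one_point Φ D h e he
    have h2 : ∀ᶠ r in 𝓝[>] (0 : ℝ), r < δ := nhdsWithin_le_nhds (Iio_mem_nhds hδ)
    filter_upwards [h2] with r hr x y hx hy hxy
    exact hh x y (hx.trans hr) (hy.trans hr) hxy
  have h2 := (Filter.eventually_all_finite (ext_finite Φ)).2 h1
  have h3 : ∀ᶠ r in 𝓝[>] (0 : ℝ), (∀ e ∈ extremePoints ℝ (hull Φ), ∀ x y : M,
      ‖D x - e‖ < r → ‖D y - e‖ < r → D x = D y → x = y) ∧ 0 < r :=
    h2.and self_mem_nhdsWithin
  obtain ⟨r, hr, hr0⟩ := h3.exists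
  exact ⟨r, hr0, hr⟩

end Pool.Agent.TSM
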