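import Pool.Agent.TSM.SStmts

/-!
# TSM, module SADL: a smoothed saddle has no local maximum of a generic linear function
-/

set_option autoImplicit false

namespace Pool.Agent.TSM

open Set Filter Topology Metric
open scoped ContDiff

namespace SADL_

lemma hasD {φ : ℝ → ℝ} (h : IsPhi φ) (s : ℝ) : HasDerivAt φ (deriv φ s) s :=
  ((h.smooth.differentiable (by simp)) s).hasDerivAt

lemma d_one {φ : ℝ → ℝ} (h : IsPhi φ) {s : ℝ} (hs : 1 ≤ s) : deriv φ s = 1 := by
  have h1 : HasDerivWithinAt φ (deriv φ s) (Ici s) s := (hasD h s).hasDerivWithinAt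
  have h2 : HasDerivWithinAt φ 1 (Ici s) s := by
    refine (hasDerivWithinAt_id s (Ici s)).congr ?_ ?_
    · intro x hx
      exact h.one x (le_trans hs hx)
    · exact h.one s hs
  exact (uniqueDiffWithinAt_Ici s).eq_deriv _ h1 h2

lemma d_zero {φ : ℝ → ℝ} (h : IsPhi φ) {s : ℝ} (hs : s ≤ -1) : deriv φ s = 0 := by
  have h1 : HasDerivWithinAt φ (deriv φ s) (Iic s) s := (hasD h s).hasDerivWithinAt
  have h2 : HasDerivWithinAt φ 0 (Iic s) s := by
    refine (hasDerivWithinAt_const s (Iic s) (0 : ℝ)).congr ?_ ?_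
    · intro x hx
      exact h.zero x (le_trans hx hs)
    · exact h.zero s hs
  exact (uniqueDiffWithinAt_Iic s).eq_deriv _ h1 h2

lemma d_smono {φ : ℝ → ℝ} (h : IsPhi φ) : StrictMonoOn (deriv φ) (Ioo (-1) 1) := by
  have hc : Continuous (deriv φ) := h.smooth.continuous_deriv (by simp)
  refine strictMonoOn_of_deriv_pos (convex_Ioo (-1) 1) hc.continuousOn ?_
  intro x hx
  rw [interior_Ioo] at hx
  exact h.dd_pos x hx.1 hx.2

lemma tangent {φ : ℝ → ℝ} (h : IsPhi φ) {p s : ℝ} (hp : p ∈ Ioo (-1 : ℝ) 1)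
    (hps : p + s ∈ Ioo (-1 : ℝ) 1) (hs : s ≠ 0) :
    φ p + deriv φ p * s < φ (p + s) := by
  have hm := d_smono h
  have hcont : Continuous φ := h.smooth.continuous
  rcases lt_or_gt_of_ne hs with hs | hs
  · obtain ⟨x, hx, hx2⟩ := exists_deriv_eq_slope φ (show p + s < p by linarith)
      hcont.continuousOn (fun z _ => ((h.smooth.differentiable (by simp)) z).differentiableWithinAt)
    have hlt : deriv φ x < deriv φ p :=
      hm ⟨lt_trans hps.1 hx.1, lt_trans hx.2 hp.2⟩ hp hx.2
    rw [hx2] at hlt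
    have hneg : (0 : ℝ) < p - (p + s) := by linarith
    rw [div_lt_iff₀ hneg] at hlt
    nlinarith
  · obtain ⟨x, hx, hx2⟩ := exists_deriv_eq_slope φ (show p < p + s by linarith)
      hcont.continuousOn (fun z _ => ((h.smooth.differentiable (by simp)) z).differentiableWithinAt)
    have hlt : deriv φ p < deriv φ x :=
      hm hp ⟨lt_trans hp.1 hx.1, lt_trans hx.2 hps.2⟩ hx.1
    rw [hx2] at hlt
    have hpos : (0 : ℝ) < p + s - p := by linarith
    rw [lt_div_iff₀ hpos] at hlt
    nlinarith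

/-- the saddle function of three values -/
noncomputable def G (φ : ℝ → ℝ) (ε α β γ : ℝ) : ℝ :=
  smax φ ε (-(smax φ ε (-α) (-β))) γ

lemma F3_eq (φ : ℝ → ℝ) (ε : ℝ) (a b c : Aff) (x : E3) :
    F3 φ ε a b c x = G φ ε (ev a x) (ev b x) (ev c x) := rfl

lemma G_form (φ : ℝ → ℝ) (ε α β γ : ℝ) :
    G φ ε α β γ = γ + ε * φ ((β - ε * φ ((β - α) / ε) - γ) / ε) := by
  unfold G smax
  have h1 : (-α - -β) / ε = (β - α) / ε := by ring
  rw [h1]
  have h2 : -(-β + ε * φ ((β - α) / ε)) - γ = β - ε * φ ((β - α) / ε) - γ := by ring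
  rw [h2]

lemma G_shift (φ : ℝ → ℝ) (ε α β γ t : ℝ) :
    G φ ε (α - t) (β - t) (γ - t) = G φ ε α β γ - t := by
  rw [G_form, G_form]
  have h1 : β - t - (α - t) = β - α := by ring
  rw [h1]
  have h2 : β - t - ε * φ ((β - α) / ε) - (γ - t) = β - ε * φ ((β - α) / ε) - γ := by ring
  rw [h2]
  ring

lemma G_hasD {φ : ℝ → ℝ} (h : IsPhi φ) {ε : ℝ} (hε : 0 < ε) (A B C p q : ℝ) :
    HasDerivAt (fun t : ℝ => G φ ε (A + p * t) (B + q * t) C)
      (deriv φ ((B - ε * φ ((B - A) / ε) - C) / ε) *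
        (q - deriv φ ((B - A) / ε) * (q - p))) 0 := by
  have hε' : ε ≠ 0 := hε.ne'
  have e1 : (fun t : ℝ => G φ ε (A + p * t) (B + q * t) C) =
      fun t : ℝ => C + ε * φ (((B + q * t) - ε * φ (((B + q * t) - (A + p * t)) / ε) - C) / ε) := by
    funext t
    exact G_form φ ε _ _ _
  rw [e1]
  have l1 : HasDerivAt (fun t : ℝ => ((B + q * t) - (A + p * t)) / ε) ((q - p) / ε) 0 := by
    have h1 : HasDerivAt (fun t : ℝ => B + q * t) q 0 := by
      simpa using ((hasDerivAt_id (0 : ℝ)).const_mul q).const_add B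
    have h2 : HasDerivAt (fun t : ℝ => A + p * t) p 0 := by
      simpa using ((hasDerivAt_id (0 : ℝ)).const_mul p).const_add A
    exact (h1.sub h2).div_const ε
  have l2 : HasDerivAt (fun t : ℝ => φ (((B + q * t) - (A + p * t)) / ε))
      (deriv φ ((B - A) / ε) * ((q - p) / ε)) 0 := by
    have h3 := hasD h (((B + q * 0) - (A + p * 0)) / ε)
    have h4 := HasDerivAt.comp (0 : ℝ) (h₂ := φ) h3 l1
    have e2 : ((B + q * 0) - (A + p * 0)) / ε = (B - A) / ε := by simp
    rw [e2] at h4
    exact h4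
  have l3 : HasDerivAt (fun t : ℝ =>
      ((B + q * t) - ε * φ (((B + q * t) - (A + p * t)) / ε) - C) / ε)
      ((q - ε * (deriv φ ((B - A) / ε) * ((q - p) / ε))) / ε) 0 := by
    have h1 : HasDerivAt (fun t : ℝ => B + q * t) q 0 := by
      simpa using ((hasDerivAt_id (0 : ℝ)).const_mul q).const_add B
    exact ((h1.sub (l2.const_mul ε)).sub_const C).div_const ε
  have l4 : HasDerivAt (fun t : ℝ =>
      φ (((B + q * t) - ε * φ (((B + q * t) - (A + p * t)) / ε) - C) / ε))
      (deriv φ ((B - ε * φ ((B - A) / ε) - C) / ε) *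
        ((q - ε * (deriv φ ((B - A) / ε) * ((q - p) / ε))) / ε)) 0 := by
    have h3 := hasD h (((B + q * 0) - ε * φ (((B + q * 0) - (A + p * 0)) / ε) - C) / ε)
    have h4 := HasDerivAt.comp (0 : ℝ) (h₂ := φ) h3 l3
    have e2 : ((B + q * 0) - ε * φ (((B + q * 0) - (A + p * 0)) / ε) - C) / ε
        = (B - ε * φ ((B - A) / ε) - C) / ε := by simp
    rw [e2] at h4
    exact h4
  have l5 := (l4.const_mul ε).const_add C
  have e3 : ε * (deriv φ ((B - ε * φ ((B - A) / ε) - C) / ε) *
        ((q - ε * (deriv φ ((B - A) / ε) * ((q - p) / ε))) / ε)) =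
      deriv φ ((B - ε * φ ((B - A) / ε) - C) / ε) * (q - deriv φ ((B - A) / ε) * (q - p)) := by
    field_simp
  rw [e3] at l5
  exact l5

/-- dual vectors -/
lemma dual {a b c : E3} (h : LinearIndependent ℝ ![a, b, c]) (ν : E3) :
    ∃ (e1 e2 e3 : E3) (n1 n2 n3 : ℝ),
      (inner ℝ a e1 : ℝ) = 1 ∧ (inner ℝ b e1 : ℝ) = 0 ∧ (inner ℝ c e1 : ℝ) = 0 ∧
      (inner ℝ a e2 : ℝ) = 0 ∧ (inner ℝ b e2 : ℝ) = 1 ∧ (inner ℝ c e2 : ℝ) = 0 ∧
      (inner ℝ a e3 : ℝ) = 0 ∧ (inner ℝ b e3 : ℝ) = 0 ∧ (inner ℝ c e3 : ℝ) = 1 ∧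
      ν = n1 • a + n2 • b + n3 • c := by
  have hcard : Fintype.card (Fin 3) = Module.finrank ℝ E3 := by simp
  let Bs := basisOfLinearIndependentOfCardEqFinrank h hcard
  have hB : ∀ i, Bs i = ![a, b, c] i := fun i => by
    simp [Bs]
  let e : Fin 3 → E3 := fun i =>
    (InnerProductSpace.toDual ℝ E3).symm (LinearMap.toContinuousLinearMap (Bs.coord i))
  have he : ∀ i x, (inner ℝ (e i) x : ℝ) = Bs.coord i x := by
    intro i x
    simp only [e]
    rw [InnerProductSpace.toDual_symm_apply]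
    rfl
  have hd : ∀ i j, (inner ℝ (![a, b, c] j) (e i) : ℝ) = if j = i then 1 else 0 := by
    intro i j
    rw [real_inner_comm, he, ← hB j]
    rw [Module.Basis.coord_apply, Module.Basis.repr_self]
    rw [Finsupp.single_apply]
  refine ⟨e 0, e 1, e 2, Bs.repr ν 0, Bs.repr ν 1, Bs.repr ν 2, ?_, ?_, ?_, ?_, ?_, ?_, ?_, ?_, ?_, ?_⟩
  · simpa using hd 0 0
  · simpa using hd 0 1
  · simpa using hd 0 2
  · simpa using hd 1 0
  · simpa using hd 1 1
  · simpa using hd 1 2
  · simpa using hd 2 0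
  · simpa using hd 2 1
  · simpa using hd 2 2
  · have h1 := Bs.sum_repr ν
    rw [Fin.sum_univ_three, hB, hB, hB] at h1
    exact h1.symm

lemma ev_add (a : Aff) (y v : E3) : ev a (y + v) = ev a y + inner ℝ a.1 v := by
  unfold ev
  rw [inner_add_right]
  ring

end SADL_

open SADL_ in
theorem sadl_proof : Stmt_Sadl := by
  intro φ h ε hε a b c hind ν hab hac hbc y hy r hr
  by_contra hcon
  push Not at hcon
  obtain ⟨e1, e2, e3, n1, n2, n3, a1, b1, c1, a2, b2, c2, a3, b3, c3, hν⟩ := dual hind ν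
  have hn3 : n3 ≠ 0 := by
    intro h0
    apply hab
    rw [hν, h0]
    refine Submodule.mem_span_pair.2 ⟨n1, n2, ?_⟩
    simp
  have hn2 : n2 ≠ 0 := by
    intro h0
    apply hac
    rw [hν, h0]
    refine Submodule.mem_span_pair.2 ⟨n1, n3, ?_⟩
    simp
  have hn1 : n1 ≠ 0 := by
    intro h0
    apply hbc
    rw [hν, h0]
    refine Submodule.mem_span_pair.2 ⟨n2, n3, ?_⟩
    simp
  have ν1 : (inner ℝ ν e1 : ℝ) = n1 := by
    rw [hν, inner_add_left, inner_add_left, inner_smul_left, inner_smul_left, inner_smul_left,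
      a1, b1, c1]
    simp
  have ν2 : (inner ℝ ν e2 : ℝ) = n2 := by
    rw [hν, inner_add_left, inner_add_left, inner_smul_left, inner_smul_left, inner_smul_left,
      a2, b2, c2]
    simp
  have ν3 : (inner ℝ ν e3 : ℝ) = n3 := by
    rw [hν, inner_add_left, inner_add_left, inner_smul_left, inner_smul_left, inner_smul_left,
      a3, b3, c3]
    simp
  set A := ev a y with hA
  set B := ev b y with hB
  set C := ev c y with hC
  set N := n1 + n2 + n3 with hN
  have hG0 : G φ ε A B C = 0 := hy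
  have hcontG : ∀ p q : ℝ, ContinuousAt (fun t : ℝ => G φ ε (A + p * t) (B + q * t) C) 0 :=
    fun p q => (G_hasD h hε A B C p q).continuousAt
  -- the key one parameter inequality
  have key : ∀ p q : ℝ, ∀ᶠ t in 𝓝 (0 : ℝ),
      (n1 * p + n2 * q) * t - N * G φ ε (A + p * t) (B + q * t) C ≤ 0 := by
    intro p q
    have hZ : ContinuousAt (fun t : ℝ => y + ((p * t) • e1 + (q * t) • e2 -
        (G φ ε (A + p * t) (B + q * t) C) • (e1 + e2 + e3))) 0 := by
      have hc1 : ContinuousAt (fun t : ℝ => (p * t) • e1 + (q * t) • e2) 0 := by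
        exact ((continuous_const.mul continuous_id).smul continuous_const |>.add
          ((continuous_const.mul continuous_id).smul continuous_const)).continuousAt
      exact continuousAt_const.add (hc1.sub ((hcontG p q).smul continuousAt_const))
    have hball : ∀ᶠ t in 𝓝 (0 : ℝ), y + ((p * t) • e1 + (q * t) • e2 -
        (G φ ε (A + p * t) (B + q * t) C) • (e1 + e2 + e3)) ∈ ball y r := by
      apply hZ
      apply isOpen_ball.mem_nhds
      simp [hG0, hr]
    filter_upwards [hball] with t ht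
    set k := G φ ε (A + p * t) (B + q * t) C with hk
    set v := (p * t) • e1 + (q * t) • e2 - k • (e1 + e2 + e3) with hv
    have ea : ev a (y + v) = A + p * t - k := by
      rw [ev_add, hv, inner_sub_right, inner_add_right, inner_smul_right, inner_smul_right,
        inner_smul_right, inner_add_right, inner_add_right, a1, a2, a3]
      ring
    have eb : ev b (y + v) = B + q * t - k := by
      rw [ev_add, hv, inner_sub_right, inner_add_right, inner_smul_right, inner_smul_right,
        inner_smul_right, inner_add_right, inner_add_right, b1, b2, b3]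
      ring
    have ec : ev c (y + v) = C - k := by
      rw [ev_add, hv, inner_sub_right, inner_add_right, inner_smul_right, inner_smul_right,
        inner_smul_right, inner_add_right, inner_add_right, c1, c2, c3]
      ring
    have hF : F3 φ ε a b c (y + v) = 0 := by
      rw [F3_eq, ea, eb, ec, G_shift, ← hk]
      ring
    have h1 := hcon (y + v) ht hF
    rw [inner_add_right] at h1
    have h2 : (inner ℝ ν v : ℝ) = (n1 * p + n2 * q) * t - N * k := by
      rw [hv, inner_sub_right, inner_add_right, inner_smul_right, inner_smul_right,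
        inner_smul_right, inner_add_right, inner_add_right, ν1, ν2, ν3, hN]
      ring
    linarith
  set μ := deriv φ ((B - ε * φ ((B - A) / ε) - C) / ε) with hμ
  set lam := deriv φ ((B - A) / ε) with hlam
  -- derivative of the one parameter function vanishes
  have dz : ∀ p q : ℝ, (n1 * p + n2 * q) - N * (μ * (q - lam * (q - p))) = 0 := by
    intro p q
    have hder : HasDerivAt (fun t : ℝ => (n1 * p + n2 * q) * t -
        N * G φ ε (A + p * t) (B + q * t) C)
        ((n1 * p + n2 * q) - N * (μ * (q - lam * (q - p)))) 0 := by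
      have h1 : HasDerivAt (fun t : ℝ => (n1 * p + n2 * q) * t) (n1 * p + n2 * q) 0 := by
        simpa using (hasDerivAt_id (0 : ℝ)).const_mul (n1 * p + n2 * q)
      exact h1.sub ((G_hasD h hε A B C p q).const_mul N)
    have hmax : IsLocalMax (fun t : ℝ => (n1 * p + n2 * q) * t -
        N * G φ ε (A + p * t) (B + q * t) C) 0 := by
      filter_upwards [key p q] with t ht
      have h0 : (n1 * p + n2 * q) * (0 : ℝ) - N * G φ ε (A + p * 0) (B + q * 0) C = 0 := by
        simp [hG0]
      rw [h0]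
      exact ht
    exact hmax.hasDerivAt_eq_zero hder
  have q1 : n1 = N * (μ * lam) := by
    have := dz 1 0
    linarith
  have q2 : n2 = N * (μ * (1 - lam)) := by
    have := dz 0 1
    linarith
  have q3 : n3 = N * (1 - μ) := by
    have h1 : n3 = N - n1 - n2 := by rw [hN]; ring
    rw [h1]
    have h2 : N - n1 - n2 = N - N * (μ * lam) - N * (μ * (1 - lam)) := by rw [← q1, ← q2]
    rw [h2]
    ring
  have hN0 : N ≠ 0 := by
    intro h0
    rw [h0] at q1
    apply hn1
    rw [q1]
    ring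
  have hμ0 : μ ≠ 0 := by
    intro h0
    apply hn1
    rw [q1, h0]
    ring
  have hμ1 : μ ≠ 1 := by
    intro h0
    apply hn3
    rw [q3, h0]
    ring
  have hl0 : lam ≠ 0 := by
    intro h0
    apply hn1
    rw [q1, h0]
    ring
  have hl1 : lam ≠ 1 := by
    intro h0
    apply hn2
    rw [q2, h0]
    ring
  set P := (B - ε * φ ((B - A) / ε) - C) / ε with hP
  set Q := (B - A) / ε with hQ
  have hP1 : P ∈ Ioo (-1 : ℝ) 1 := by
    constructor
    · by_contra hc
      exact hμ0 (d_zero h (not_lt.1 hc))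
    · by_contra hc
      exact hμ1 (d_one h (not_lt.1 hc))
  have hQ1 : Q ∈ Ioo (-1 : ℝ) 1 := by
    constructor
    · by_contra hc
      exact hl0 (d_zero h (not_lt.1 hc))
    · by_contra hc
      exact hl1 (d_one h (not_lt.1 hc))
  have hG0' : C + ε * φ P = 0 := by
    rw [← hG0, G_form]
  rcases lt_or_gt_of_ne hN0 with hneg | hpos
  · -- direction (1,1)
    have hnear : ∀ᶠ t in 𝓝 (0 : ℝ), P + t / ε ∈ Ioo (-1 : ℝ) 1 := by
      have hc : ContinuousAt (fun t : ℝ => P + t / ε) 0 :=
        (continuous_const.add (continuous_id.div_const ε)).continuousAt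
      apply hc
      apply isOpen_Ioo.mem_nhds
      simpa using hP1
    have hev := (key 1 1).and hnear
    have hfreq : ∃ᶠ t in 𝓝 (0 : ℝ), t ≠ 0 := by
      have h1 : ∃ᶠ t in 𝓝[≠] (0 : ℝ), t ≠ 0 :=
        (eventually_mem_nhdsWithin (a := (0 : ℝ)) (s := {0}ᶜ)).frequently
      exact h1.filter_mono nhdsWithin_le_nhds
    obtain ⟨t, ht0, ht1, ht2⟩ := (hfreq.and_eventually hev).exists
    have hte : t / ε ≠ 0 := div_ne_zero ht0 hε.ne'
    have htan := tangent h hP1 ht2 hte
    have hG1 : G φ ε (A + 1 * t) (B + 1 * t) C = C + ε * φ (P + t / ε) := by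
      rw [G_form]
      have e1 : (B + 1 * t - (A + 1 * t)) / ε = Q := by rw [hQ]; ring
      rw [e1]
      have e2 : (B + 1 * t - ε * φ Q - C) / ε = P + t / ε := by rw [hP]; ring
      rw [e2]
    rw [hG1] at ht1
    have h3 : (n1 * 1 + n2 * 1) = N * μ := by
      rw [q1, q2]
      generalize N = N'
      ring
    rw [h3] at ht1
    have h4 : C = - (ε * φ P) := by linarith
    rw [h4] at ht1
    have h5 : N * μ * t - N * (-(ε * φ P) + ε * φ (P + t / ε)) =
        (-N) * ε * (φ (P + t / ε) - (φ P + μ * (t / ε))) := by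
      field_simp
      ring
    rw [h5] at ht1
    have h6 : 0 < (-N) * ε * (φ (P + t / ε) - (φ P + μ * (t / ε))) := by
      apply mul_pos (mul_pos (by linarith) hε)
      linarith
    linarith
  · -- direction (1 - lam, -lam)
    have hnear : ∀ᶠ t in 𝓝 (0 : ℝ), Q + (-t) / ε ∈ Ioo (-1 : ℝ) 1 := by
      have hc : ContinuousAt (fun t : ℝ => Q + (-t) / ε) 0 :=
        (continuous_const.add ((continuous_neg).div_const ε)).continuousAt
      apply hc
      apply isOpen_Ioo.mem_nhds
      simpa using hQ1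
    have hnear2 : ∀ᶠ t in 𝓝 (0 : ℝ), (B - lam * t - ε * φ (Q + (-t) / ε) - C) / ε ∈
        Ioo (-1 : ℝ) 1 := by
      have hφc : Continuous φ := h.smooth.continuous
      have hc : ContinuousAt (fun t : ℝ => (B - lam * t - ε * φ (Q + (-t) / ε) - C) / ε) 0 := by
        apply Continuous.continuousAt
        fun_prop
      apply hc
      apply isOpen_Ioo.mem_nhds
      simpa [hP] using hP1
    have hev := (key (1 - lam) (-lam)).and (hnear.and hnear2)
    have hfreq : ∃ᶠ t in 𝓝 (0 : ℝ), t ≠ 0 := by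
      have h1 : ∃ᶠ t in 𝓝[≠] (0 : ℝ), t ≠ 0 :=
        (eventually_mem_nhdsWithin (a := (0 : ℝ)) (s := {0}ᶜ)).frequently
      exact h1.filter_mono nhdsWithin_le_nhds
    obtain ⟨t, ht0, ht1, ht2, ht3⟩ := (hfreq.and_eventually hev).exists
    have hte : (-t) / ε ≠ 0 := div_ne_zero (neg_ne_zero.2 ht0) hε.ne'
    have htan := tangent h hQ1 ht2 hte
    have hG1 : G φ ε (A + (1 - lam) * t) (B + (-lam) * t) C =
        C + ε * φ ((B - lam * t - ε * φ (Q + (-t) / ε) - C) / ε) := by
      rw [G_form]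
      have e1 : (B + (-lam) * t - (A + (1 - lam) * t)) / ε = Q + (-t) / ε := by
        rw [hQ]; ring
      rw [e1]
      have e2 : (B + (-lam) * t - ε * φ (Q + (-t) / ε) - C) / ε =
          (B - lam * t - ε * φ (Q + (-t) / ε) - C) / ε := by ring
      rw [e2]
    rw [hG1] at ht1
    have h3 : (n1 * (1 - lam) + n2 * (-lam)) = 0 := by
      rw [q1, q2]
      generalize N = N'
      ring
    rw [h3] at ht1
    have hu : (B - lam * t - ε * φ (Q + (-t) / ε) - C) / ε < P := by
      rw [hP]
      apply div_lt_div_of_pos_right _ hε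
      have h7 : ε * (φ Q + lam * ((-t) / ε)) < ε * φ (Q + (-t) / ε) :=
        mul_lt_mul_of_pos_left htan hε
      have h8 : ε * (φ Q + lam * ((-t) / ε)) = ε * φ Q - lam * t := by
        field_simp
        ring
      rw [h8] at h7
      linarith
    have hmono : StrictMonoOn φ (Ioo (-1 : ℝ) 1) := by
      refine strictMonoOn_of_deriv_pos (convex_Ioo (-1) 1) h.smooth.continuous.continuousOn ?_
      intro x hx
      rw [interior_Ioo] at hx
      exact h.d_pos x hx.1
    have h9 := hmono ht3 hP1 hu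
    have h10 : C + ε * φ ((B - lam * t - ε * φ (Q + (-t) / ε) - C) / ε) < 0 := by
      rw [← hG0']
      have := mul_lt_mul_of_pos_left h9 hε
      linarith
    have h11 : 0 < N * -(C + ε * φ ((B - lam * t - ε * φ (Q + (-t) / ε) - C) / ε)) :=
      mul_pos hpos (by linarith)
    nlinarith
end Pool.Agent.TSM
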