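import Pool.Agent.TSM.SStmts

/-! Module THETA: calculus of the profile `theta`. -/

set_option autoImplicit false

namespace Pool.Agent.TSM

open Set Filter Topology
open scoped Manifold ContDiff

namespace THETA_

/-- the derivative of `expNegInvGlue` -/
noncomputable def e1 (x : ℝ) : ℝ := x⁻¹ ^ 2 * expNegInvGlue x

theorem hd (x : ℝ) : HasDerivAt expNegInvGlue (e1 x) x := by
  have h := expNegInvGlue.hasDerivAt_polynomial_eval_inv_mul 1 x
  simp only [Polynomial.eval_one, one_mul, Polynomial.derivative_one, sub_zero, mul_one,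
    Polynomial.eval_pow, Polynomial.eval_X] at h
  exact h

theorem hd1 (x : ℝ) : HasDerivAt e1 (x⁻¹ ^ 2 * (x⁻¹ ^ 2 - 2 * x⁻¹) * expNegInvGlue x) x := by
  have h := expNegInvGlue.hasDerivAt_polynomial_eval_inv_mul (Polynomial.X ^ 2) x
  simp only [Polynomial.eval_pow, Polynomial.eval_X, Polynomial.eval_mul, Polynomial.eval_sub,
    Polynomial.derivative_X_pow, Polynomial.eval_C, Nat.cast_ofNat, Nat.add_one_sub_one,
    pow_one, Nat.reduceSub] at h
  exact h

theorem e1_zero {x : ℝ} (hx : x ≤ 0) : e1 x = 0 := by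
  unfold e1
  rw [expNegInvGlue.zero_of_nonpos hx, mul_zero]

theorem e1_pos {x : ℝ} (hx : 0 < x) : 0 < e1 x :=
  mul_pos (by positivity) (expNegInvGlue.pos_of_pos hx)

theorem e1_nonneg (x : ℝ) : 0 ≤ e1 x := by
  rcases le_or_gt x 0 with h | h
  · rw [e1_zero h]
  · exact (e1_pos h).le

/-- strict monotonicity of the derivative -/
theorem e1_strict : StrictMonoOn e1 (Icc 0 (1 / 4)) := by
  apply strictMonoOn_of_deriv_pos (convex_Icc 0 (1 / 4))
  · exact fun x _ => (hd1 x).continuousAt.continuousWithinAt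
  · intro x hx
    rw [interior_Icc] at hx
    obtain ⟨h0, h1⟩ := hx
    rw [(hd1 x).deriv]
    have hi : 0 < x⁻¹ := inv_pos.mpr h0
    have h2 : 4 < x⁻¹ := by
      have := one_div_lt_one_div_of_lt h0 h1
      rw [one_div_one_div, one_div] at this
      exact this
    have h3 : 0 < x⁻¹ ^ 2 - 2 * x⁻¹ := by nlinarith
    exact mul_pos (mul_pos (by positivity) h3) (expNegInvGlue.pos_of_pos h0)

theorem e1_lt {x y : ℝ} (hxy : x < y) (hy : 0 < y) (hy4 : y ≤ 1 / 4) : e1 x < e1 y := by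
  rcases le_or_gt x 0 with h | h
  · rw [e1_zero h]
    exact e1_pos hy
  · exact e1_strict ⟨h.le, (hxy.trans_le hy4).le⟩ ⟨hy.le, hy4⟩ hxy

theorem e1_le {x y : ℝ} (hxy : x ≤ y) (hy4 : y ≤ 1 / 4) : e1 x ≤ e1 y := by
  rcases hxy.eq_or_lt with rfl | h
  · exact le_rfl
  rcases le_or_gt y 0 with h0 | h0
  · rw [e1_zero h0, e1_zero (h.le.trans h0)]
  · exact (e1_lt h h0 hy4).le

/-- the mean value theorem for `expNegInvGlue` -/
theorem mvt {u v : ℝ} (h : u < v) : ∃ x ∈ Ioo u v, e1 x * (v - u) = expNegInvGlue v - expNegInvGlue u := by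
  obtain ⟨x, hx, he⟩ := exists_hasDerivAt_eq_slope expNegInvGlue e1 h
    (fun x _ => (hd x).continuousAt.continuousWithinAt) (fun x _ => hd x)
  refine ⟨x, hx, ?_⟩
  rw [he, div_mul_cancel₀ _ (sub_pos.mpr h).ne']

theorem tangent {u v : ℝ} (hu : u ≤ 1 / 4) (hv : v ≤ 1 / 4) :
    expNegInvGlue v + e1 v * (u - v) ≤ expNegInvGlue u := by
  rcases lt_trichotomy u v with h | rfl | h
  · obtain ⟨x, hx, he⟩ := mvt h
    have h1 : e1 x ≤ e1 v := e1_le hx.2.le hv
    nlinarith [mul_le_mul_of_nonneg_right h1 (sub_pos.mpr h).le]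
  · simp
  · obtain ⟨x, hx, he⟩ := mvt h
    have h1 : e1 v ≤ e1 x := e1_le hx.1.le (hx.2.le.trans hu)
    nlinarith [mul_le_mul_of_nonneg_right h1 (sub_pos.mpr h).le]

theorem tangent_lt {u v : ℝ} (hu : u ≤ 1 / 4) (hv : v ≤ 1 / 4) (hv0 : 0 < v) (huv : u ≠ v) :
    expNegInvGlue v + e1 v * (u - v) < expNegInvGlue u := by
  rcases lt_or_gt_of_ne huv with h | h
  · obtain ⟨x, hx, he⟩ := mvt h
    have h1 : e1 x < e1 v := e1_lt hx.2 hv0 hv
    nlinarith [mul_lt_mul_of_pos_right h1 (sub_pos.mpr h)]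
  · obtain ⟨x, hx, he⟩ := mvt h
    have h1 : e1 v < e1 x := e1_lt hx.1 (hv0.trans hx.1) (hx.2.le.trans hu)
    nlinarith [mul_lt_mul_of_pos_right h1 (sub_pos.mpr h)]

theorem glue_strict {u v : ℝ} (hu : 0 < u) (huv : u < v) : expNegInvGlue u < expNegInvGlue v := by
  obtain ⟨x, hx, he⟩ := mvt huv
  have h1 : 0 < e1 x := e1_pos (hu.trans hx.1)
  nlinarith [mul_pos h1 (sub_pos.mpr huv)]

end THETA_

open THETA_

theorem theta_proof : Stmt_Theta := by
  intro l hl
  set A : ℝ := expNegInvGlue (1 / 4) with hA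
  have hApos : 0 < A := expNegInvGlue.pos_of_pos (by norm_num)
  have h4l : 0 < 4 * l := by linarith
  have hth : ∀ s, theta l s = expNegInvGlue ((s + l) / (4 * l)) / A := fun s => rfl
  have hder : ∀ s, HasDerivAt (theta l) (e1 ((s + l) / (4 * l)) * (1 / (4 * l)) / A) s := by
    intro s
    have h1 : HasDerivAt (fun s : ℝ => (s + l) / (4 * l)) (1 / (4 * l)) s :=
      ((hasDerivAt_id s).add_const l).div_const (4 * l)
    have h2 := (hd ((s + l) / (4 * l))).comp s h1
    exact h2.div_const A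
  have hdr : ∀ s, deriv (theta l) s = e1 ((s + l) / (4 * l)) * (1 / (4 * l)) / A := fun s =>
    (hder s).deriv
  have harg : ∀ s, s ≤ -l → (s + l) / (4 * l) ≤ 0 := fun s hs =>
    div_nonpos_of_nonpos_of_nonneg (by linarith) h4l.le
  have hargp : ∀ s, -l < s → 0 < (s + l) / (4 * l) := fun s hs =>
    div_pos (by linarith) h4l
  have harg4 : ∀ s, s ≤ 0 → (s + l) / (4 * l) ≤ 1 / 4 := fun s hs => by
    rw [div_le_div_iff₀ h4l (by norm_num)]
    linarith
  have key : ∀ s t : ℝ, expNegInvGlue ((t + l) / (4 * l)) / A +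
      e1 ((t + l) / (4 * l)) * (1 / (4 * l)) / A * (s - t) =
      (expNegInvGlue ((t + l) / (4 * l)) +
        e1 ((t + l) / (4 * l)) * ((s + l) / (4 * l) - (t + l) / (4 * l))) / A := by
    intro s t
    field_simp
    ring
  refine ⟨?_, ?_, ?_, ?_, ?_, ?_, ?_, ?_, ?_, ?_, ?_⟩
  · have h1 : ContDiff ℝ ∞ (fun s : ℝ => (s + l) / (4 * l)) :=
      (contDiff_id.add contDiff_const).div_const _
    exact (expNegInvGlue.contDiff.comp h1).div_const A
  · intro s hs
    rw [hth, expNegInvGlue.zero_of_nonpos (harg s hs), zero_div]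
  · rw [hth, zero_add]
    have : l / (4 * l) = 1 / 4 := by
      field_simp
    rw [this, ← hA, div_self hApos.ne']
  · intro s hs
    rw [hth, lt_div_iff₀ hApos, one_mul]
    refine glue_strict (by norm_num) ?_
    rw [div_lt_div_iff₀ (by norm_num) h4l]
    linarith
  · intro s t hst
    rw [hth, hth]
    refine div_le_div_of_nonneg_right (expNegInvGlue.monotone ?_) hApos.le
    exact div_le_div_of_nonneg_right (by linarith) h4l.le
  · intro s
    rw [hth]
    exact div_nonneg (expNegInvGlue.nonneg _) hApos.le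
  · intro s
    rw [hdr]
    exact div_nonneg (mul_nonneg (e1_nonneg _) (by positivity)) hApos.le
  · intro s hs
    rw [hdr]
    exact div_pos (mul_pos (e1_pos (hargp s hs)) (by positivity)) hApos
  · intro s hs
    rw [hdr, e1_zero (harg s hs), zero_mul, zero_div]
  · intro s t hs ht
    rw [hdr, hth, hth, key]
    exact div_le_div_of_nonneg_right (tangent (harg4 s hs) (harg4 t ht)) hApos.le
  · intro s t hs ht hlt hst
    rw [hdr, hth, hth, key]
    refine div_lt_div_of_pos_right (tangent_lt (harg4 s hs) (harg4 t ht) (hargp t hlt) ?_) hApos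
    intro he
    apply hst
    have := (div_left_inj' h4l.ne').mp he
    linarith

end Pool.Agent.TSM
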