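import Pool.Agent.TSM.SStmts

/-!
# TSM, module TPPG: two-piece property of the smooth map
-/

set_option autoImplicit false

namespace Pool.Agent.TSM

open Set Filter Topology Metric
open scoped Manifold ContDiff

namespace TPPG_

lemma span_pair_ne_top (n n' : E3) : Submodule.span ℝ {n, n'} ≠ (⊤ : Submodule ℝ E3) := by
  classical
  intro h
  have h1 := finrank_span_finset_le_card (R := ℝ) ({n, n'} : Finset E3)
  have h2 : ((({n, n'} : Finset E3) : Set E3)) = {n, n'} := by simp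
  rw [h2] at h1
  unfold Set.finrank at h1
  rw [h, finrank_top] at h1
  have h3 : Module.finrank ℝ E3 = 3 := by simp [E3]
  have h4 : ({n, n'} : Finset E3).card ≤ 2 := Finset.card_le_two
  omega

lemma dense_compl (n n' : E3) :
    Dense ((Submodule.span ℝ {n, n'} : Submodule ℝ E3) : Set E3)ᶜ := by
  rw [← interior_eq_empty_iff_dense_compl]
  by_contra h
  have h1 : (interior ((Submodule.span ℝ {n, n'} : Submodule ℝ E3) : Set E3)).Nonempty :=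
    Set.nonempty_iff_ne_empty.2 h
  exact span_pair_ne_top n n' (Submodule.eq_top_of_nonempty_interior' _ h1)

lemma open_compl (n n' : E3) :
    IsOpen ((Submodule.span ℝ {n, n'} : Submodule ℝ E3) : Set E3)ᶜ :=
  (Submodule.closed_of_finiteDimensional _).isOpen_compl

lemma dense_gen {N : Set E3} (hN : N.Finite) :
    Dense {ν : E3 | ∀ n ∈ N, ∀ n' ∈ N, ν ∉ Submodule.span ℝ {n, n'}} := by
  have h1 : {ν : E3 | ∀ n ∈ N, ∀ n' ∈ N, ν ∉ Submodule.span ℝ {n, n'}} =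
      ⋂ q ∈ N ×ˢ N, ((Submodule.span ℝ {q.1, q.2} : Submodule ℝ E3) : Set E3)ᶜ := by
    ext ν
    simp only [Set.mem_ofPred_eq, Set.mem_iInter, Set.mem_prod, Set.mem_compl_iff,
      SetLike.mem_coe]
    constructor
    · rintro h ⟨n, n'⟩ ⟨hn, hn'⟩
      exact h n hn n' hn'
    · intro h n hn n' hn'
      exact h (n, n') ⟨hn, hn'⟩
  rw [h1]
  exact dense_biInter_of_isOpen (fun q _ => open_compl q.1 q.2) (hN.prod hN).countable
    (fun q _ => dense_compl q.1 q.2)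

end TPPG_

open TPPG_ in
theorem tppg_proof (h1 : Stmt_Opim) (h2 : Stmt_F3P) (h3 : Stmt_Sadl) (h4 : Stmt_HHd)
    (h5 : Stmt_Lmax) (h6 : Stmt_Clop) (h7 : Stmt_Limv) : Stmt_Tppg := by
  intro M _ _ _ _ Φ N l g hΦ hN hl ho hg hx huniq
  obtain ⟨o, ho⟩ := ho
  have hNf : (N ∪ (Prod.fst '' (Φ : Set Aff))).Finite :=
    hN.union (Φ.finite_toSet.image _)
  refine h7 M g _ hg (dense_gen hNf) fun ν hν c => ?_
  have hνN : ∀ n ∈ N, ∀ n' ∈ N, ν ∉ Submodule.span ℝ {n, n'} := fun n hn n' hn' =>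
    hν n (Or.inl hn) n' (Or.inl hn')
  have hνΦ : ∀ φ ∈ Φ, ∀ ψ ∈ Φ, ν ∉ Submodule.span ℝ {φ.1, ψ.1} := fun φ hφ ψ hψ =>
    hν φ.1 (Or.inr ⟨φ, hφ, rfl⟩) ψ.1 (Or.inr ⟨ψ, hψ, rfl⟩)
  obtain ⟨hH1, hH2⟩ := h4 Φ l o hΦ hl ho
  -- local maxima lie on the smooth convex surface
  have key : ∀ x, IsLocalMax (fun x => (inner ℝ ν (g x) : ℝ)) x →
      HH Φ l (g x) = 0 ∧ ∃ r > 0, ∀ z ∈ ball (g x) r, HH Φ l z = 0 →
        (inner ℝ ν z : ℝ) ≤ inner ℝ ν (g x) := by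
    intro x hmax
    rcases hx x with ⟨U, hU, hinj, φ, ε, a, b, c', hφ, hε, hind, ha, hb, hc, hz⟩ |
      ⟨U, hU, hinj, hz⟩
    · exfalso
      have hU' : U ∩ {y | (inner ℝ ν (g y) : ℝ) ≤ inner ℝ ν (g x)} ∈ 𝓝 x :=
        Filter.inter_mem hU hmax
      obtain ⟨k1, -⟩ := h2 φ hφ a b c'
      obtain ⟨k2, -, k3⟩ := k1 ε hε
      obtain ⟨s, hs, hs2⟩ := (h1 M (U ∩ {y | (inner ℝ ν (g y) : ℝ) ≤ inner ℝ ν (g x)}) g x hU'
        hg.continuousOn (hinj.mono inter_subset_left)).2 (F3 φ ε a b c')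
        (k2.of_le (by exact_mod_cast le_top)) (k3 hind _) (fun y hy => hz y hy.1)
      have hzx : F3 φ ε a b c' (g x) = 0 := hz x (mem_of_mem_nhds hU)
      obtain ⟨z, hz1, hz2, hz3⟩ := h3 φ hφ ε hε a b c' hind ν (hνN _ ha _ hb) (hνN _ ha _ hc)
        (hνN _ hb _ hc) (g x) hzx s hs
      obtain ⟨u, hu, rfl⟩ := hs2 z hz1 hz2
      exact absurd hu.2 (not_le.2 hz3)
    · have hU' : U ∩ {y | (inner ℝ ν (g y) : ℝ) ≤ inner ℝ ν (g x)} ∈ 𝓝 x :=
        Filter.inter_mem hU hmax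
      have hzx : HH Φ l (g x) = 0 := hz x (mem_of_mem_nhds hU)
      obtain ⟨s, hs, hs2⟩ := (h1 M (U ∩ {y | (inner ℝ ν (g y) : ℝ) ≤ inner ℝ ν (g x)}) g x hU'
        hg.continuousOn (hinj.mono inter_subset_left)).2 (HH Φ l)
        (hH1.of_le (by exact_mod_cast le_top)) (hH2 _ hzx).1 (fun y hy => hz y hy.1)
      refine ⟨hzx, s, hs, fun z hz1 hz2 => ?_⟩
      obtain ⟨u, hu, rfl⟩ := hs2 z hz1 hz2
      exact hu.2
  refine h6 M (fun x => (inner ℝ ν (g x) : ℝ))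
    (continuous_const.inner hg) (fun x x' hm hm' => ?_) c
  obtain ⟨e1, e2⟩ := key x hm
  obtain ⟨e1', e2'⟩ := key x' hm'
  obtain ⟨f1, f2⟩ := h5 Φ l o hΦ hl ho ν hνΦ (g x) e1 e2
  obtain ⟨f1', _⟩ := h5 Φ l o hΦ hl ho ν hνΦ (g x') e1' e2'
  have hgg : g x = g x' := by
    by_contra hne
    have k1 := f1 (g x') e1'.le (Ne.symm hne)
    have k2 := f1' (g x) e1.le hne
    linarith
  exact huniq x x' hgg f2

end Pool.Agent.TSM
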