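import Pool.Agent.TSM.SStmts

/-!
# TSM module UNIQ: the zero set of a 3-valent saddle determines its germ
-/

set_option autoImplicit false

open scoped RealInnerProductSpace

namespace Pool.Agent.TSM

open Set Filter Topology Metric

namespace UNIQ_

/-! ### smax -/

lemma smax_comm {φ : ℝ → ℝ} (h : IsPhi φ) {ε : ℝ} (hε : 0 < ε) (u v : ℝ) :
    smax φ ε u v = smax φ ε v u := by
  unfold smax
  have e := h.even ((u - v) / ε)
  have e2 : -((u - v) / ε) = (v - u) / ε := by ring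
  rw [e2] at e
  have e3 : ε * ((u - v) / ε) = u - v := by field_simp
  have : ε * φ ((u - v) / ε) - ε * φ ((v - u) / ε) = u - v := by
    rw [← mul_sub, e, e3]
  linarith

lemma smax_right {φ : ℝ → ℝ} (h : IsPhi φ) {ε : ℝ} (hε : 0 < ε) {u v : ℝ} (huv : u ≤ v - ε) :
    smax φ ε u v = v := by
  unfold smax
  have : (u - v) / ε ≤ -1 := by
    rw [div_le_iff₀ hε]; linarith
  rw [h.zero _ this]; ring

lemma smax_left {φ : ℝ → ℝ} (h : IsPhi φ) {ε : ℝ} (hε : 0 < ε) {u v : ℝ} (huv : v ≤ u - ε) :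
    smax φ ε u v = u := by
  rw [smax_comm h hε, smax_right h hε huv]

lemma smax_ge {φ : ℝ → ℝ} (h : IsPhi φ) {ε : ℝ} (hε : 0 < ε) (u v : ℝ) :
    max u v ≤ smax φ ε u v := by
  have key : ∀ u v : ℝ, v ≤ smax φ ε u v := by
    intro u v
    unfold smax
    have := h.ge ((u - v) / ε)
    have h0 : 0 ≤ φ ((u - v) / ε) := le_trans (le_max_right _ _) this
    nlinarith
  refine max_le ?_ (key u v)
  rw [smax_comm h hε]; exact key v u

lemma smax_le {φ : ℝ → ℝ} (h : IsPhi φ) {ε : ℝ} (hε : 0 < ε) (u v : ℝ) :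
    smax φ ε u v ≤ max u v + ε := by
  unfold smax
  have h1 := h.le ((u - v) / ε)
  have h2 : ε * φ ((u - v) / ε) ≤ ε * (max ((u - v) / ε) 0 + 1) :=
    mul_le_mul_of_nonneg_left h1 hε.le
  have h3 : ε * max ((u - v) / ε) 0 = max (u - v) 0 := by
    rw [mul_max_of_nonneg _ _ hε.le, mul_zero]
    congr 1
    field_simp
  have h4 : max (u - v) 0 + v = max u v := by
    rcases le_total u v with huv | huv
    · rw [max_eq_right (by linarith), max_eq_right huv]; ring
    · rw [max_eq_left (by linarith), max_eq_left huv]; ring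
  nlinarith

/-! ### the values near a point -/

lemma ev_split (a : Aff) (x y : E3) : ev a x = ev a y + ⟪a.1, x - y⟫ := by
  unfold ev
  rw [inner_sub_right]; ring

lemma inner_bd {n : E3} (hn : ‖n‖ = 1) (v : E3) : |⟪n, v⟫| ≤ ‖v‖ := by
  have := abs_real_inner_le_norm n v
  rwa [hn, one_mul] at this

lemma G3_c {a b c : Aff} {x : E3} (h : min (ev a x) (ev b x) ≤ ev c x) :
    G3 a b c x = ev c x := by
  unfold G3; exact max_eq_right h

lemma F3_c {φ : ℝ → ℝ} (hφ : IsPhi φ) {ε : ℝ} (hε : 0 < ε) {a b c : Aff} {x : E3}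
    (h : min (ev a x) (ev b x) ≤ ev c x - ε) : F3 φ ε a b c x = ev c x := by
  unfold F3
  apply smax_right hφ hε
  have := smax_ge hφ hε (-(ev a x)) (-(ev b x))
  rw [max_neg_neg] at this
  linarith

lemma G3_ab {a b c : Aff} {x : E3} (h : ev c x ≤ min (ev a x) (ev b x)) :
    G3 a b c x = min (ev a x) (ev b x) := by
  unfold G3; exact max_eq_left h

lemma F3_ab {φ : ℝ → ℝ} (hφ : IsPhi φ) {ε : ℝ} (hε : 0 < ε) {a b c : Aff} {x : E3}
    (h : ev c x + 2 * ε ≤ min (ev a x) (ev b x)) :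
    F3 φ ε a b c x = -(smax φ ε (-(ev a x)) (-(ev b x))) := by
  unfold F3
  apply smax_left hφ hε
  have := smax_le hφ hε (-(ev a x)) (-(ev b x))
  rw [max_neg_neg] at this
  linarith

lemma smin_left {φ : ℝ → ℝ} (hφ : IsPhi φ) {ε : ℝ} (hε : 0 < ε) {u v : ℝ} (h : u ≤ v - ε) :
    -(smax φ ε (-u) (-v)) = u := by
  rw [smax_left hφ hε (by linarith), neg_neg]

lemma smin_right {φ : ℝ → ℝ} (hφ : IsPhi φ) {ε : ℝ} (hε : 0 < ε) {u v : ℝ} (h : v ≤ u - ε) :
    -(smax φ ε (-u) (-v)) = v := by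
  rw [smax_right hφ hε (by linarith), neg_neg]

/-! ### germs -/

/-- `(g, F, N)` is the germ of the saddle `(a, b, c)` at `y`. -/
structure Loc (φ : ℝ → ℝ) (a b c : Aff) (y : E3) (g : E3 → ℝ) (F : ℝ → E3 → ℝ)
    (N : Set E3) : Prop where
  loc : ∃ r > 0, ∃ ε₀ > 0, ∀ x ∈ ball y r, G3 a b c x = g (x - y) ∧
    ∀ ε : ℝ, 0 < ε → ε < ε₀ → F3 φ ε a b c x = F ε (x - y)
  nrm : Nrm a b c y = N

noncomputable def g1 (n v : E3) : ℝ := ⟪n, v⟫
noncomputable def g2 (σ : ℝ) (P Q v : E3) : ℝ := σ * min ⟪P, v⟫ ⟪Q, v⟫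
noncomputable def g3 (a b c v : E3) : ℝ := max (min ⟪a, v⟫ ⟪b, v⟫) ⟪c, v⟫
noncomputable def f2 (φ : ℝ → ℝ) (σ : ℝ) (P Q : E3) (ε : ℝ) (v : E3) : ℝ :=
  σ * (-(smax φ ε (-⟪P, v⟫) (-⟪Q, v⟫)))
noncomputable def f3 (φ : ℝ → ℝ) (a b c : E3) (ε : ℝ) (v : E3) : ℝ :=
  smax φ ε (-(smax φ ε (-⟪a, v⟫) (-⟪b, v⟫))) ⟪c, v⟫

/-- the two functionals are jointly onto -/
def Surj2 (P Q : E3) : Prop := ∀ α β : ℝ, ∃ v : E3, ⟪P, v⟫ = α ∧ ⟪Q, v⟫ = β

lemma indep_inj {a b c : E3} (h : LinearIndependent ℝ ![a, b, c]) (w : E3)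
    (h1 : ⟪a, w⟫ = 0) (h2 : ⟪b, w⟫ = 0) (h3 : ⟪c, w⟫ = 0) : w = 0 := by
  have hs : Submodule.span ℝ (Set.range ![a, b, c]) = ⊤ := by
    apply h.span_eq_top_of_card_eq_finrank'
    simp
  have hw : ∀ u ∈ Submodule.span ℝ (Set.range ![a, b, c]), ⟪u, w⟫ = 0 := by
    intro u hu
    induction hu using Submodule.span_induction with
    | mem x hx =>
      obtain ⟨i, rfl⟩ := hx
      fin_cases i
      · exact h1
      · exact h2
      · exact h3
    | zero => exact inner_zero_left _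
    | add x z _ _ hx hz => rw [inner_add_left, hx, hz, add_zero]
    | smul t x _ hx => rw [real_inner_smul_left, hx, mul_zero]
  have := hw w (by rw [hs]; trivial)
  exact inner_self_eq_zero.mp this

lemma indep_surj {a b c : E3} (h : LinearIndependent ℝ ![a, b, c]) (α β γ : ℝ) :
    ∃ v : E3, ⟪a, v⟫ = α ∧ ⟪b, v⟫ = β ∧ ⟪c, v⟫ = γ := by
  let L : E3 →ₗ[ℝ] (Fin 3 → ℝ) :=
    LinearMap.pi ![(innerSL ℝ a).toLinearMap, (innerSL ℝ b).toLinearMap,
      (innerSL ℝ c).toLinearMap]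
  have hinj : Function.Injective L := by
    rw [← LinearMap.ker_eq_bot, LinearMap.ker_eq_bot']
    intro w hw
    have h0 := congrFun hw 0
    have h1 := congrFun hw 1
    have h2 := congrFun hw 2
    exact indep_inj h w h0 h1 h2
  have hsurj : Function.Surjective L := by
    rw [← LinearMap.injective_iff_surjective_of_finrank_eq_finrank]
    · exact hinj
    · simp
  obtain ⟨v, hv⟩ := hsurj ![α, β, γ]
  refine ⟨v, ?_, ?_, ?_⟩
  · exact congrFun hv 0
  · exact congrFun hv 1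
  · exact congrFun hv 2

lemma unit_pos {n n' : E3} (hn : ‖n‖ = 1) (hn' : ‖n'‖ = 1) {t : ℝ} (ht : 0 ≤ t)
    (h : n' = t • n) : n' = n := by
  have : ‖n'‖ = t := by rw [h, norm_smul, hn, mul_one, Real.norm_of_nonneg ht]
  rw [hn'] at this
  rw [h, ← this, one_smul]

/-- Classification of the germs. -/
lemma classify {φ : ℝ → ℝ} (hφ : IsPhi φ) {a b c : Aff} (hI : Indep a b c)
    (ha : ‖a.1‖ = 1) (hb : ‖b.1‖ = 1) (hc : ‖c.1‖ = 1) {y : E3} (hy : G3 a b c y = 0) :
    (∃ n : E3, ‖n‖ = 1 ∧ Loc φ a b c y (g1 n) (fun _ => g1 n) {n}) ∨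
    (∃ (σ : ℝ) (P Q : E3), (σ = 1 ∨ σ = -1) ∧ ‖P‖ = 1 ∧ ‖Q‖ = 1 ∧ Surj2 P Q ∧
      Loc φ a b c y (g2 σ P Q) (f2 φ σ P Q) {σ • P, σ • Q}) ∨
    (Loc φ a b c y (g3 a.1 b.1 c.1) (f3 φ a.1 b.1 c.1) {a.1, b.1, c.1}) := by
  have eA := fun x => ev_split a x y
  have eB := fun x => ev_split b x y
  have eC := fun x => ev_split c x y
  have bA := inner_bd ha
  have bB := inner_bd hb
  have bC := inner_bd hc
  unfold G3 at hy
  set A := ev a y with hA
  set B := ev b y with hB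
  set C := ev c y with hC
  have hCle : C ≤ 0 := by rw [← hy]; exact le_max_right _ _
  have hMle : min A B ≤ 0 := by rw [← hy]; exact le_max_left _ _
  have hsurj := indep_surj hI
  rcases lt_or_eq_of_le hMle with hM | hM
  · -- only `c`
    have hC0 : C = 0 := by
      rcases lt_or_eq_of_le hCle with h | h
      · exact absurd hy (ne_of_lt (max_lt hM h))
      · exact h
    left
    refine ⟨c.1, hc, ⟨-(min A B) / 4, by linarith, -(min A B) / 4, by linarith, ?_⟩, ?_⟩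
    · intro x hx
      rw [mem_ball, dist_eq_norm] at hx
      have k1 := abs_le.mp (bA (x - y))
      have k2 := abs_le.mp (bB (x - y))
      have k3 := abs_le.mp (bC (x - y))
      have m1 : min (ev a x) (ev b x) ≤ min A B + (-(min A B) / 4) := by
        rcases le_total A B with h | h
        · rw [min_eq_left h] at hx ⊢
          refine le_trans (min_le_left _ _) ?_
          rw [eA x]; linarith
        · rw [min_eq_right h] at hx ⊢
          refine le_trans (min_le_right _ _) ?_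
          rw [eB x]; linarith
      have m2 : min A B / 4 ≤ ev c x := by rw [eC x, hC0]; linarith
      refine ⟨?_, ?_⟩
      · rw [G3_c (by linarith), eC x, hC0, zero_add]; rfl
      · intro ε h0 h1
        rw [F3_c hφ h0 (by linarith), eC x, hC0, zero_add]; rfl
    · ext n
      simp only [Nrm, Set.mem_ofPred_eq, mem_singleton_iff, ← hA, ← hB, ← hC]
      constructor
      · rintro (h | ⟨-, h1, h2⟩ | ⟨-, h1, h2⟩)
        · exact h.1
        · rw [h1, min_eq_left h2] at hM; exact absurd hM (lt_irrefl _)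
        · rw [h1, min_eq_right h2] at hM; exact absurd hM (lt_irrefl _)
      · intro h; exact Or.inl ⟨h, hC0⟩
  rcases lt_or_eq_of_le hCle with hC1 | hC0
  · -- `c` irrelevant
    have hA0 : 0 ≤ A := by rw [← hM]; exact min_le_left _ _
    have hB0 : 0 ≤ B := by rw [← hM]; exact min_le_right _ _
    rcases lt_or_eq_of_le hB0 with hB1 | hB1
    · -- `a` only
      have hA1 : A = 0 := by
        rcases lt_or_eq_of_le hA0 with h | h
        · exact absurd hM (ne_of_gt (lt_min h hB1))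
        · exact h.symm
      left
      refine ⟨a.1, ha, ⟨min (-C / 8) (B / 8), lt_min (by linarith) (by linarith),
        min (-C / 8) (B / 8), lt_min (by linarith) (by linarith), ?_⟩, ?_⟩
      · intro x hx
        rw [mem_ball, dist_eq_norm, lt_min_iff] at hx
        have k1 := abs_le.mp (bA (x - y))
        have k2 := abs_le.mp (bB (x - y))
        have k3 := abs_le.mp (bC (x - y))
        have m1 : ev a x ≤ ev b x - B / 4 := by rw [eA x, eB x, hA1]; linarith
        have m2 : min (ev a x) (ev b x) = ev a x := min_eq_left (by linarith)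
        have m3 : ev c x - C / 2 ≤ ev a x := by rw [eA x, eC x, hA1]; linarith
        refine ⟨?_, ?_⟩
        · rw [G3_ab (by rw [m2]; linarith), m2, eA x, hA1, zero_add]; rfl
        · intro ε h0 h1
          rw [lt_min_iff] at h1
          rw [F3_ab hφ h0 (by rw [m2]; linarith), smin_left hφ h0 (by linarith), eA x,
            hA1, zero_add]; rfl
      · ext n
        simp only [Nrm, Set.mem_ofPred_eq, mem_singleton_iff, ← hA, ← hB, ← hC]
        constructor
        · rintro (h | ⟨h, h1, h2⟩ | ⟨-, h1, h2⟩)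
          · exact absurd h.2 (ne_of_lt hC1)
          · exact h
          · exact absurd h1 (ne_of_gt hB1)
        · intro h; exact Or.inr (Or.inl ⟨h, hA1, hB0⟩)
    rcases lt_or_eq_of_le hA0 with hA1 | hA1
    · -- `b` only
      left
      refine ⟨b.1, hb, ⟨min (-C / 8) (A / 8), lt_min (by linarith) (by linarith),
        min (-C / 8) (A / 8), lt_min (by linarith) (by linarith), ?_⟩, ?_⟩
      · intro x hx
        rw [mem_ball, dist_eq_norm, lt_min_iff] at hx
        have k1 := abs_le.mp (bA (x - y))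
        have k2 := abs_le.mp (bB (x - y))
        have k3 := abs_le.mp (bC (x - y))
        have m1 : ev b x ≤ ev a x - A / 4 := by rw [eA x, eB x, ← hB1]; linarith
        have m2 : min (ev a x) (ev b x) = ev b x := min_eq_right (by linarith)
        have m3 : ev c x - C / 2 ≤ ev b x := by rw [eB x, eC x, ← hB1]; linarith
        refine ⟨?_, ?_⟩
        · rw [G3_ab (by rw [m2]; linarith), m2, eB x, ← hB1, zero_add]; rfl
        · intro ε h0 h1
          rw [lt_min_iff] at h1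
          rw [F3_ab hφ h0 (by rw [m2]; linarith), smin_right hφ h0 (by linarith), eB x,
            ← hB1, zero_add]; rfl
      · ext n
        simp only [Nrm, Set.mem_ofPred_eq, mem_singleton_iff, ← hA, ← hB, ← hC]
        constructor
        · rintro (h | ⟨-, h1, h2⟩ | ⟨h, h1, h2⟩)
          · exact absurd h.2 (ne_of_lt hC1)
          · exact absurd h1 (ne_of_gt hA1)
          · exact h
        · intro h; exact Or.inr (Or.inr ⟨h, hB1.symm, hA0⟩)
    · -- `a` and `b`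
      right; left
      refine ⟨1, a.1, b.1, Or.inl rfl, ha, hb, ?_, ⟨-C / 8, by linarith, -C / 8, by linarith,
        ?_⟩, ?_⟩
      · intro α β
        obtain ⟨v, h1, h2, -⟩ := hsurj α β 0
        exact ⟨v, h1, h2⟩
      · intro x hx
        rw [mem_ball, dist_eq_norm] at hx
        have k1 := abs_le.mp (bA (x - y))
        have k2 := abs_le.mp (bB (x - y))
        have k3 := abs_le.mp (bC (x - y))
        have e1 : ev a x = ⟪a.1, x - y⟫ := by rw [eA x, ← hA1, zero_add]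
        have e2 : ev b x = ⟪b.1, x - y⟫ := by rw [eB x, ← hB1, zero_add]
        have m3 : ev c x - C / 2 ≤ min (ev a x) (ev b x) := by
          rw [e1, e2, eC x]
          exact le_min (by linarith) (by linarith)
        refine ⟨?_, ?_⟩
        · rw [G3_ab (by linarith), e1, e2]; unfold g2; rw [one_mul]
        · intro ε h0 h1
          rw [F3_ab hφ h0 (by linarith), e1, e2]; unfold f2; rw [one_mul]
      · ext n
        simp only [Nrm, Set.mem_ofPred_eq, mem_singleton_iff, mem_insert_iff, one_smul, ← hA, ← hB,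
          ← hC]
        constructor
        · rintro (h | ⟨h, h1, h2⟩ | ⟨h, h1, h2⟩)
          · exact absurd h.2 (ne_of_lt hC1)
          · exact Or.inl h
          · exact Or.inr h
        · rintro (h | h)
          · exact Or.inr (Or.inl ⟨h, hA1.symm, hB0⟩)
          · exact Or.inr (Or.inr ⟨h, hB1.symm, hA0⟩)
  · -- `c` relevant
    have hA0 : 0 ≤ A := by rw [← hM]; exact min_le_left _ _
    have hB0 : 0 ≤ B := by rw [← hM]; exact min_le_right _ _
    rcases lt_or_eq_of_le hB0 with hB1 | hB1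
    · -- `a` and `c`
      have hA1 : A = 0 := by
        rcases lt_or_eq_of_le hA0 with h | h
        · exact absurd hM (ne_of_gt (lt_min h hB1))
        · exact h.symm
      right; left
      refine ⟨-1, -a.1, -c.1, Or.inr rfl, by rw [norm_neg]; exact ha, by rw [norm_neg]; exact hc,
        ?_, ⟨B / 8, by linarith, B / 8, by linarith, ?_⟩, ?_⟩
      · intro α β
        obtain ⟨v, h1, -, h3⟩ := hsurj (-α) 0 (-β)
        exact ⟨v, by rw [inner_neg_left, h1, neg_neg], by rw [inner_neg_left, h3, neg_neg]⟩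
      · intro x hx
        rw [mem_ball, dist_eq_norm] at hx
        have k1 := abs_le.mp (bA (x - y))
        have k2 := abs_le.mp (bB (x - y))
        have k3 := abs_le.mp (bC (x - y))
        have e1 : ev a x = ⟪a.1, x - y⟫ := by rw [eA x, hA1, zero_add]
        have e3 : ev c x = ⟪c.1, x - y⟫ := by rw [eC x, hC0, zero_add]
        have m1 : ev a x ≤ ev b x - B / 4 := by rw [eA x, eB x, hA1]; linarith
        have m2 : min (ev a x) (ev b x) = ev a x := min_eq_left (by linarith)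
        refine ⟨?_, ?_⟩
        · unfold G3 g2
          rw [m2, e1, e3, inner_neg_left, inner_neg_left, min_neg_neg]; ring
        · intro ε h0 h1
          unfold F3 f2
          rw [smin_left hφ h0 (by linarith), e1, e3, inner_neg_left, inner_neg_left]
          simp only [neg_neg]; ring
      · ext n
        simp only [Nrm, Set.mem_ofPred_eq, mem_singleton_iff, mem_insert_iff, neg_smul, one_smul,
          neg_neg, ← hA, ← hB, ← hC]
        constructor
        · rintro (h | ⟨h, h1, h2⟩ | ⟨h, h1, h2⟩)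
          · exact Or.inr h.1
          · exact Or.inl h
          · exact absurd h1 (ne_of_gt hB1)
        · rintro (h | h)
          · exact Or.inr (Or.inl ⟨h, hA1, hB0⟩)
          · exact Or.inl ⟨h, hC0⟩
    rcases lt_or_eq_of_le hA0 with hA1 | hA1
    · -- `b` and `c`
      right; left
      refine ⟨-1, -b.1, -c.1, Or.inr rfl, by rw [norm_neg]; exact hb, by rw [norm_neg]; exact hc,
        ?_, ⟨A / 8, by linarith, A / 8, by linarith, ?_⟩, ?_⟩
      · intro α β
        obtain ⟨v, -, h2, h3⟩ := hsurj 0 (-α) (-β)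
        exact ⟨v, by rw [inner_neg_left, h2, neg_neg], by rw [inner_neg_left, h3, neg_neg]⟩
      · intro x hx
        rw [mem_ball, dist_eq_norm] at hx
        have k1 := abs_le.mp (bA (x - y))
        have k2 := abs_le.mp (bB (x - y))
        have k3 := abs_le.mp (bC (x - y))
        have e2 : ev b x = ⟪b.1, x - y⟫ := by rw [eB x, ← hB1, zero_add]
        have e3 : ev c x = ⟪c.1, x - y⟫ := by rw [eC x, hC0, zero_add]
        have m1 : ev b x ≤ ev a x - A / 4 := by rw [eA x, eB x, ← hB1]; linarith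
        have m2 : min (ev a x) (ev b x) = ev b x := min_eq_right (by linarith)
        refine ⟨?_, ?_⟩
        · unfold G3 g2
          rw [m2, e2, e3, inner_neg_left, inner_neg_left, min_neg_neg]; ring
        · intro ε h0 h1
          unfold F3 f2
          rw [smin_right hφ h0 (by linarith), e2, e3, inner_neg_left, inner_neg_left]
          simp only [neg_neg]; ring
      · ext n
        simp only [Nrm, Set.mem_ofPred_eq, mem_singleton_iff, mem_insert_iff, neg_smul, one_smul,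
          neg_neg, ← hA, ← hB, ← hC]
        constructor
        · rintro (h | ⟨h, h1, h2⟩ | ⟨h, h1, h2⟩)
          · exact Or.inr h.1
          · exact absurd h1 (ne_of_gt hA1)
          · exact Or.inl h
        · rintro (h | h)
          · exact Or.inr (Or.inr ⟨h, hB1.symm, hA0⟩)
          · exact Or.inl ⟨h, hC0⟩
    · -- all three
      right; right
      refine ⟨⟨1, one_pos, 1, one_pos, ?_⟩, ?_⟩
      · intro x _
        have e1 : ev a x = ⟪a.1, x - y⟫ := by rw [eA x, ← hA1, zero_add]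
        have e2 : ev b x = ⟪b.1, x - y⟫ := by rw [eB x, ← hB1, zero_add]
        have e3 : ev c x = ⟪c.1, x - y⟫ := by rw [eC x, hC0, zero_add]
        refine ⟨?_, ?_⟩
        · unfold G3 g3; rw [e1, e2, e3]
        · intro ε _ _
          unfold F3 f3; rw [e1, e2, e3]
      · ext n
        simp only [Nrm, Set.mem_ofPred_eq, mem_singleton_iff, mem_insert_iff, ← hA, ← hB, ← hC]
        constructor
        · rintro (h | ⟨h, h1, h2⟩ | ⟨h, h1, h2⟩)
          · exact Or.inr (Or.inr h.1)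
          · exact Or.inl h
          · exact Or.inr (Or.inl h)
        · rintro (h | h | h)
          · exact Or.inr (Or.inl ⟨h, hA1.symm, hB0⟩)
          · exact Or.inr (Or.inr ⟨h, hB1.symm, hA0⟩)
          · exact Or.inl ⟨h, hC0⟩

/-! ### homogeneity -/

lemma g1_hom (n : E3) {t : ℝ} (_ : 0 < t) (v : E3) : g1 n (t • v) = t * g1 n v := by
  unfold g1; rw [real_inner_smul_right]

lemma g2_hom (σ : ℝ) (P Q : E3) {t : ℝ} (ht : 0 < t) (v : E3) :
    g2 σ P Q (t • v) = t * g2 σ P Q v := by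
  unfold g2
  rw [real_inner_smul_right, real_inner_smul_right, ← mul_min_of_nonneg _ _ ht.le]; ring

lemma g3_hom (a b c : E3) {t : ℝ} (ht : 0 < t) (v : E3) :
    g3 a b c (t • v) = t * g3 a b c v := by
  unfold g3
  rw [real_inner_smul_right, real_inner_smul_right, real_inner_smul_right,
    ← mul_min_of_nonneg _ _ ht.le, ← mul_max_of_nonneg _ _ ht.le]

/-- equality of the zero sets near `y` gives equality of the zero sets of the germs -/
lemma zeros_eq {φ : ℝ → ℝ} {a b c a' b' c' : Aff} {y : E3} {g g' : E3 → ℝ}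
    {F F' : ℝ → E3 → ℝ} {N N' : Set E3} (h : Loc φ a b c y g F N)
    (h' : Loc φ a' b' c' y g' F' N')
    (hg : ∀ t : ℝ, 0 < t → ∀ v, g (t • v) = t * g v)
    (hg' : ∀ t : ℝ, 0 < t → ∀ v, g' (t • v) = t * g' v)
    (hz : ∃ r > 0, ∀ x ∈ ball y r, (G3 a b c x = 0 ↔ G3 a' b' c' x = 0)) (v : E3) :
    g v = 0 ↔ g' v = 0 := by
  obtain ⟨r1, hr1, e1, -, h1⟩ := h.loc
  obtain ⟨r2, hr2, e2, -, h2⟩ := h'.loc
  obtain ⟨r3, hr3, h3⟩ := hz
  set r := min r1 (min r2 r3) with hr
  have hr0 : 0 < r := lt_min hr1 (lt_min hr2 hr3)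
  set t := r / (2 * (‖v‖ + 1)) with ht
  have hv : 0 < ‖v‖ + 1 := by positivity
  have ht0 : 0 < t := by positivity
  have hx : ‖t • v‖ < r := by
    rw [norm_smul, Real.norm_of_nonneg ht0.le, ht, div_mul_eq_mul_div, div_lt_iff₀ (by positivity)]
    nlinarith [norm_nonneg v]
  have hxy : ∀ s, r ≤ s → y + t • v ∈ ball y s := by
    intro s hs
    rw [mem_ball, dist_eq_norm, add_sub_cancel_left]; linarith
  have q1 := (h1 (y + t • v) (hxy _ (min_le_left _ _))).1
  have q2 := (h2 (y + t • v) (hxy _ ((min_le_right _ _).trans (min_le_left _ _)))).1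
  have q3 := h3 (y + t • v) (hxy _ ((min_le_right _ _).trans (min_le_right _ _)))
  rw [add_sub_cancel_left, hg t ht0] at q1
  rw [add_sub_cancel_left, hg' t ht0] at q2
  rw [q1, q2] at q3
  rw [mul_eq_zero, mul_eq_zero] at q3
  simpa [ht0.ne'] using q3

/-- assembling -/
lemma wrap {φ : ℝ → ℝ} {a b c a' b' c' : Aff} {y : E3} {g g' : E3 → ℝ}
    {F F' : ℝ → E3 → ℝ} {N N' : Set E3} (h : Loc φ a b c y g F N)
    (h' : Loc φ a' b' c' y g' F' N') (s : ℝ) (hs : s = 1 ∨ s = -1)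
    (hN : ∀ n ∈ N, s • n ∈ N') (hG : ∀ v, g' v = s * g v)
    (hF : ∀ ε : ℝ, 0 < ε → ∀ v, F' ε v = s * F ε v) :
    ∃ s : ℝ, (s = 1 ∨ s = -1) ∧ (∀ n ∈ Nrm a b c y, s • n ∈ Nrm a' b' c' y) ∧
      ∃ r > 0, ∃ ε₀ > 0, ∀ x ∈ ball y r, G3 a' b' c' x = s * G3 a b c x ∧
        ∀ ε : ℝ, 0 < ε → ε < ε₀ → F3 φ ε a' b' c' x = s * F3 φ ε a b c x := by
  obtain ⟨r1, hr1, e1, he1, h1⟩ := h.loc
  obtain ⟨r2, hr2, e2, he2, h2⟩ := h'.loc
  refine ⟨s, hs, ?_, min r1 r2, lt_min hr1 hr2, min e1 e2, lt_min he1 he2, ?_⟩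
  · rw [h.nrm, h'.nrm]; exact hN
  · intro x hx
    have hx1 : x ∈ ball y r1 := ball_subset_ball (min_le_left _ _) hx
    have hx2 : x ∈ ball y r2 := ball_subset_ball (min_le_right _ _) hx
    refine ⟨?_, ?_⟩
    · rw [(h1 x hx1).1, (h2 x hx2).1, hG]
    · intro ε h0 hε
      rw [lt_min_iff] at hε
      rw [(h1 x hx1).2 ε h0 hε.1, (h2 x hx2).2 ε h0 hε.2, hF ε h0]

/-! ### comparing the types -/

lemma g2_zero {σ : ℝ} (hσ : σ = 1 ∨ σ = -1) (P Q v : E3) :
    g2 σ P Q v = 0 ↔ min ⟪P, v⟫ ⟪Q, v⟫ = 0 := by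
  unfold g2
  rcases hσ with h | h <;> rw [h] <;> simp

/-- types 1 and 2 -/
lemma no12 {n P Q : E3} {σ : ℝ} (hσ : σ = 1 ∨ σ = -1) (hs : Surj2 P Q)
    (h : ∀ v, g1 n v = 0 ↔ g2 σ P Q v = 0) : False := by
  obtain ⟨v1, a1, b1⟩ := hs 0 1
  obtain ⟨v2, a2, b2⟩ := hs 1 0
  have h1 : ⟪n, v1⟫ = 0 := (h v1).mpr ((g2_zero hσ _ _ _).mpr (by rw [a1, b1]; simp))
  have h2 : ⟪n, v2⟫ = 0 := (h v2).mpr ((g2_zero hσ _ _ _).mpr (by rw [a2, b2]; simp))
  have h3 := (g2_zero hσ _ _ _).mp ((h (v1 + v2)).mp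
    (by unfold g1; rw [inner_add_right, h1, h2, add_zero]))
  rw [inner_add_right, inner_add_right, a1, a2, b1, b2] at h3
  norm_num at h3

/-- types 1 and 3 -/
lemma no13 {n a b c : E3} (hs : ∀ α β γ : ℝ, ∃ v : E3, ⟪a, v⟫ = α ∧ ⟪b, v⟫ = β ∧ ⟪c, v⟫ = γ)
    (h : ∀ v, g1 n v = 0 ↔ g3 a b c v = 0) : False := by
  obtain ⟨v1, a1, b1, c1⟩ := hs 0 1 (-1)
  obtain ⟨v2, a2, b2, c2⟩ := hs 1 0 (-1)
  have h1 : ⟪n, v1⟫ = 0 := (h v1).mpr (by unfold g3; rw [a1, b1, c1]; norm_num)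
  have h2 : ⟪n, v2⟫ = 0 := (h v2).mpr (by unfold g3; rw [a2, b2, c2]; norm_num)
  have h3 := (h (v1 + v2)).mp (by unfold g1; rw [inner_add_right, h1, h2, add_zero])
  unfold g3 at h3
  rw [inner_add_right, inner_add_right, inner_add_right, a1, a2, b1, b2, c1, c2] at h3
  norm_num at h3

/-- a functional which is nonpositive or nonnegative ... representation in coordinates -/
lemma repr3 {a b c : E3} (hi : ∀ w : E3, ⟪a, w⟫ = 0 → ⟪b, w⟫ = 0 → ⟪c, w⟫ = 0 → w = 0)
    {va vb vc : E3} (ha : ⟪a, va⟫ = 1 ∧ ⟪b, va⟫ = 0 ∧ ⟪c, va⟫ = 0)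
    (hb : ⟪a, vb⟫ = 0 ∧ ⟪b, vb⟫ = 1 ∧ ⟪c, vb⟫ = 0)
    (hc : ⟪a, vc⟫ = 0 ∧ ⟪b, vc⟫ = 0 ∧ ⟪c, vc⟫ = 1) (n v : E3) :
    ⟪n, v⟫ = ⟪n, va⟫ * ⟪a, v⟫ + ⟪n, vb⟫ * ⟪b, v⟫ + ⟪n, vc⟫ * ⟪c, v⟫ := by
  have hw : v - (⟪a, v⟫ • va + ⟪b, v⟫ • vb + ⟪c, v⟫ • vc) = 0 := by
    apply hi
    · simp only [inner_sub_right, inner_add_right, real_inner_smul_right, ha.1, hb.1, hc.1]; ring
    · simp only [inner_sub_right, inner_add_right, real_inner_smul_right, ha.2.1, hb.2.1,
        hc.2.1]; ring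
    · simp only [inner_sub_right, inner_add_right, real_inner_smul_right, ha.2.2, hb.2.2,
        hc.2.2]; ring
  have h2 : ⟪n, v - (⟪a, v⟫ • va + ⟪b, v⟫ • vb + ⟪c, v⟫ • vc)⟫ = 0 := by
    rw [hw, inner_zero_right]
  simp only [inner_sub_right, inner_add_right, real_inner_smul_right] at h2
  linarith

/-- types 2 and 3 -/
lemma no23 {P Q a b c : E3} {σ : ℝ} (hσ : σ = 1 ∨ σ = -1) (hS : Surj2 P Q)
    (hs : ∀ α β γ : ℝ, ∃ v : E3, ⟪a, v⟫ = α ∧ ⟪b, v⟫ = β ∧ ⟪c, v⟫ = γ)
    (hi : ∀ w : E3, ⟪a, w⟫ = 0 → ⟪b, w⟫ = 0 → ⟪c, w⟫ = 0 → w = 0)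
    (h : ∀ v, g2 σ P Q v = 0 ↔ g3 a b c v = 0) : False := by
  obtain ⟨va, ha⟩ := hs 1 0 0
  obtain ⟨vb, hb⟩ := hs 0 1 0
  obtain ⟨vc, hc⟩ := hs 0 0 1
  have key : ∀ v : E3, g3 a b c v = 0 → 0 ≤ ⟪P, v⟫ ∧ 0 ≤ ⟪Q, v⟫ := by
    intro v hv
    have := (g2_zero hσ _ _ _).mp ((h v).mpr hv)
    exact ⟨by rw [← this]; exact min_le_left _ _, by rw [← this]; exact min_le_right _ _⟩
  have k1 := key va (by unfold g3; rw [ha.1, ha.2.1, ha.2.2]; norm_num)
  have k2 := key (-va) (by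
    unfold g3; rw [inner_neg_right, inner_neg_right, inner_neg_right, ha.1, ha.2.1, ha.2.2]
    norm_num)
  have k3 := key vb (by unfold g3; rw [hb.1, hb.2.1, hb.2.2]; norm_num)
  have k4 := key (-vb) (by
    unfold g3; rw [inner_neg_right, inner_neg_right, inner_neg_right, hb.1, hb.2.1, hb.2.2]
    norm_num)
  rw [inner_neg_right, inner_neg_right] at k2 k4
  have p1 : ⟪P, va⟫ = 0 := le_antisymm (by linarith [k2.1]) k1.1
  have q1 : ⟪Q, va⟫ = 0 := le_antisymm (by linarith [k2.2]) k1.2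
  have p2 : ⟪P, vb⟫ = 0 := le_antisymm (by linarith [k4.1]) k3.1
  have q2 : ⟪Q, vb⟫ = 0 := le_antisymm (by linarith [k4.2]) k3.2
  have rP := repr3 hi ha hb hc P
  have rQ := repr3 hi ha hb hc Q
  obtain ⟨v, hv1, hv2⟩ := hS 1 0
  obtain ⟨w, hw1, hw2⟩ := hS 0 1
  rw [rP v, p1, p2] at hv1
  rw [rQ v, q1, q2] at hv2
  rw [rP w, p1, p2] at hw1
  rw [rQ w, q1, q2] at hw2
  simp only [zero_mul, zero_add] at hv1 hv2 hw1 hw2
  rcases mul_eq_zero.mp hv2 with hq | hq
  · rw [hq, zero_mul] at hw2; exact zero_ne_one hw2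
  · rw [hq, mul_zero] at hv1; exact zero_ne_one hv1

/-- types 1 and 1 -/
lemma same11 {n n' : E3} (hn : ‖n‖ = 1) (hn' : ‖n'‖ = 1)
    (h : ∀ v, g1 n v = 0 ↔ g1 n' v = 0) : ∃ s : ℝ, (s = 1 ∨ s = -1) ∧ n' = s • n := by
  have hnn : ⟪n, n⟫ = 1 := by rw [real_inner_self_eq_norm_sq, hn]; norm_num
  set t := ⟪n, n'⟫ with ht
  have h1 : ⟪n, n' - t • n⟫ = 0 := by
    rw [inner_sub_right, real_inner_smul_right, hnn, ← ht]; ring
  have h2 : ⟪n', n' - t • n⟫ = 0 := (h _).mp h1
  have h3 : ⟪n' - t • n, n' - t • n⟫ = 0 := by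
    rw [inner_sub_left, h2, real_inner_smul_left, h1]; ring
  have h4 : n' = t • n := by
    have := inner_self_eq_zero.mp h3
    exact sub_eq_zero.mp this
  refine ⟨t, ?_, h4⟩
  have h5 : |t| = 1 := by
    have := congrArg norm h4
    rw [norm_smul, hn, hn', mul_one, Real.norm_eq_abs] at this
    exact this.symm
  rcases abs_eq (zero_le_one) |>.mp h5 with h6 | h6
  · exact Or.inl h6
  · exact Or.inr h6

/-- the two dimensional comparison -/
lemma two_dim {p q r s : ℝ} (h1 : min q s = 0) (h2 : min p r = 0)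
    (hP : ¬ (p = 0 ∧ q = 0)) (hQ : ¬ (r = 0 ∧ s = 0)) :
    (0 ≤ p ∧ q = 0 ∧ r = 0 ∧ 0 ≤ s) ∨ (p = 0 ∧ 0 ≤ q ∧ 0 ≤ r ∧ s = 0) := by
  rcases le_total q s with h | h
  · rw [min_eq_left h] at h1
    rcases le_total p r with h' | h'
    · rw [min_eq_left h'] at h2
      exact absurd ⟨h2, h1⟩ hP
    · rw [min_eq_right h'] at h2
      exact Or.inl ⟨by linarith, h1, h2, by linarith⟩
  · rw [min_eq_right h] at h1
    rcases le_total p r with h' | h'
    · rw [min_eq_left h'] at h2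
      exact Or.inr ⟨h2, by linarith, by linarith, h1⟩
    · rw [min_eq_right h'] at h2
      exact absurd ⟨h2, h1⟩ hQ

/-- types 2 and 2 -/
lemma same22 {P Q P' Q' : E3} (hS : Surj2 P Q) (hP : ‖P‖ = 1) (hQ : ‖Q‖ = 1) (hP' : ‖P'‖ = 1)
    (hQ' : ‖Q'‖ = 1)
    (h : ∀ v, min ⟪P, v⟫ ⟪Q, v⟫ = 0 ↔ min ⟪P', v⟫ ⟪Q', v⟫ = 0) :
    (P' = P ∧ Q' = Q) ∨ (P' = Q ∧ Q' = P) := by
  obtain ⟨v1, a1, b1⟩ := hS 0 1
  obtain ⟨v2, a2, b2⟩ := hS 1 0
  have key : ∀ v : E3, min ⟪P, v⟫ ⟪Q, v⟫ = 0 → 0 ≤ ⟪P', v⟫ ∧ 0 ≤ ⟪Q', v⟫ := by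
    intro v hv
    have := (h v).mp hv
    exact ⟨by rw [← this]; exact min_le_left _ _, by rw [← this]; exact min_le_right _ _⟩
  have ker : ∀ w : E3, ⟪P, w⟫ = 0 → ⟪Q, w⟫ = 0 → ⟪P', w⟫ = 0 ∧ ⟪Q', w⟫ = 0 := by
    intro w hw1 hw2
    have k : ∀ t : ℝ, 0 ≤ ⟪P', v1⟫ + t * ⟪P', w⟫ ∧ 0 ≤ ⟪Q', v1⟫ + t * ⟪Q', w⟫ := by
      intro t
      have := key (v1 + t • w) (by
        simp only [inner_add_right, real_inner_smul_right, hw1, hw2, a1, b1]; norm_num)
      simpa only [inner_add_right, real_inner_smul_right] using this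
    have lin : ∀ x z : ℝ, (∀ t : ℝ, 0 ≤ x + t * z) → z = 0 := by
      intro x z hx
      by_contra hz
      have h1 := hx (-(x + 1) / z)
      rw [div_mul_cancel₀ _ hz] at h1
      linarith
    exact ⟨lin _ _ fun t => (k t).1, lin _ _ fun t => (k t).2⟩
  have rep : ∀ v : E3, ⟪P', v⟫ = ⟪P', v2⟫ * ⟪P, v⟫ + ⟪P', v1⟫ * ⟪Q, v⟫ ∧
      ⟪Q', v⟫ = ⟪Q', v2⟫ * ⟪P, v⟫ + ⟪Q', v1⟫ * ⟪Q, v⟫ := by
    intro v
    have := ker (v - (⟪P, v⟫ • v2 + ⟪Q, v⟫ • v1))
      (by simp only [inner_sub_right, inner_add_right, real_inner_smul_right, a1, a2]; ring)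
      (by simp only [inner_sub_right, inner_add_right, real_inner_smul_right, b1, b2]; ring)
    simp only [inner_sub_right, inner_add_right, real_inner_smul_right] at this
    exact ⟨by linarith [this.1], by linarith [this.2]⟩
  have m1 : min ⟪P', v1⟫ ⟪Q', v1⟫ = 0 := (h v1).mp (by rw [a1, b1]; norm_num)
  have m2 : min ⟪P', v2⟫ ⟪Q', v2⟫ = 0 := (h v2).mp (by rw [a2, b2]; norm_num)
  have nz : ∀ n : E3, ‖n‖ = 1 → ¬ (∀ v : E3, ⟪n, v⟫ = 0) := by
    intro n hn hv
    have := hv n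
    rw [real_inner_self_eq_norm_sq, hn] at this
    norm_num at this
  rcases two_dim m1 m2
    (fun hh => nz P' hP' fun v => by rw [(rep v).1, hh.1, hh.2]; ring)
    (fun hh => nz Q' hQ' fun v => by rw [(rep v).2, hh.1, hh.2]; ring) with hh | hh
  · obtain ⟨e1, e2, e3, e4⟩ := hh
    left
    refine ⟨unit_pos hP hP' e1 ?_, unit_pos hQ hQ' e4 ?_⟩
    · apply ext_inner_right ℝ
      intro v
      rw [(rep v).1, e2, real_inner_smul_left]; ring
    · apply ext_inner_right ℝ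
      intro v
      rw [(rep v).2, e3, real_inner_smul_left]; ring
  · obtain ⟨e1, e2, e3, e4⟩ := hh
    right
    refine ⟨unit_pos hQ hP' e2 ?_, unit_pos hP hQ' e3 ?_⟩
    · apply ext_inner_right ℝ
      intro v
      rw [(rep v).1, e1, real_inner_smul_left]; ring
    · apply ext_inner_right ℝ
      intro v
      rw [(rep v).2, e4, real_inner_smul_left]; ring

/-- types 3 and 3 -/
lemma same33 {a b c a' b' c' : E3}
    (hs : ∀ α β γ : ℝ, ∃ v : E3, ⟪a, v⟫ = α ∧ ⟪b, v⟫ = β ∧ ⟪c, v⟫ = γ)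
    (hi : ∀ w : E3, ⟪a, w⟫ = 0 → ⟪b, w⟫ = 0 → ⟪c, w⟫ = 0 → w = 0)
    (ha : ‖a‖ = 1) (hb : ‖b‖ = 1) (hc : ‖c‖ = 1) (ha' : ‖a'‖ = 1) (hb' : ‖b'‖ = 1)
    (hc' : ‖c'‖ = 1) (h : ∀ v, g3 a b c v = 0 ↔ g3 a' b' c' v = 0) :
    c' = c ∧ ((a' = a ∧ b' = b) ∨ (a' = b ∧ b' = a)) := by
  obtain ⟨va, wa⟩ := hs 1 0 0
  obtain ⟨vb, wb⟩ := hs 0 1 0
  obtain ⟨vc, wc⟩ := hs 0 0 1
  have rep := repr3 hi wa wb wc
  have nz : ∀ n : E3, ‖n‖ = 1 → ¬ (∀ v : E3, ⟪n, v⟫ = 0) := by
    intro n hn hv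
    have := hv n
    rw [real_inner_self_eq_norm_sq, hn] at this
    norm_num at this
  have key : ∀ v : E3, g3 a b c v = 0 → ⟪c', v⟫ ≤ 0 := by
    intro v hv
    have h1 := (h v).mp hv
    rw [← h1]; exact le_max_right _ _
  have hcc : c' = c := by
    have k1 := key va (by unfold g3; rw [wa.1, wa.2.1, wa.2.2]; norm_num)
    have k2 := key (-va) (by
      unfold g3; rw [inner_neg_right, inner_neg_right, inner_neg_right, wa.1, wa.2.1, wa.2.2]
      norm_num)
    have k3 := key vb (by unfold g3; rw [wb.1, wb.2.1, wb.2.2]; norm_num)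
    have k4 := key (-vb) (by
      unfold g3; rw [inner_neg_right, inner_neg_right, inner_neg_right, wb.1, wb.2.1, wb.2.2]
      norm_num)
    have k5 := key (-vc) (by
      unfold g3; rw [inner_neg_right, inner_neg_right, inner_neg_right, wc.1, wc.2.1, wc.2.2]
      norm_num)
    rw [inner_neg_right] at k2 k4 k5
    have p1 : ⟪c', va⟫ = 0 := le_antisymm k1 (by linarith)
    have p2 : ⟪c', vb⟫ = 0 := le_antisymm k3 (by linarith)
    apply unit_pos hc hc' (t := ⟪c', vc⟫) (by linarith)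
    apply ext_inner_right ℝ
    intro v
    rw [rep c' v, p1, p2, real_inner_smul_left]; ring
  refine ⟨hcc, ?_⟩
  subst hcc
  have red : ∀ (x z v : E3), ⟪c', v⟫ < 0 → (g3 x z c' v = 0 ↔ min ⟪x, v⟫ ⟪z, v⟫ = 0) := by
    intro x z v hv
    unfold g3
    constructor
    · intro h0
      rcases le_total (min ⟪x, v⟫ ⟪z, v⟫) ⟪c', v⟫ with hh | hh
      · rw [max_eq_right hh] at h0; exact absurd h0 (ne_of_lt hv)
      · rw [max_eq_left hh] at h0; exact h0
    · intro h0
      rw [h0, max_eq_left hv.le]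
  have key2 : ∀ v : E3, ⟪c', v⟫ < 0 →
      (min ⟪a, v⟫ ⟪b, v⟫ = 0 ↔ min ⟪a', v⟫ ⟪b', v⟫ = 0) := by
    intro v hv
    rw [← red a b v hv, ← red a' b' v hv]; exact h v
  -- values on `t va - vc` and `t vb - vc`
  have ea : ∀ t : ℝ, 0 ≤ t → min (t * ⟪a', va⟫ - ⟪a', vc⟫) (t * ⟪b', va⟫ - ⟪b', vc⟫) = 0 := by
    intro t ht
    have := (key2 (t • va - vc) (by
      simp only [inner_sub_right, real_inner_smul_right, wa.2.2, wc.2.2]; norm_num)).mp (by
      simp only [inner_sub_right, real_inner_smul_right, wa.1, wa.2.1, wc.1, wc.2.1]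
      simp [ht])
    simpa only [inner_sub_right, real_inner_smul_right] using this
  have eb : ∀ t : ℝ, 0 ≤ t → min (t * ⟪a', vb⟫ - ⟪a', vc⟫) (t * ⟪b', vb⟫ - ⟪b', vc⟫) = 0 := by
    intro t ht
    have := (key2 (t • vb - vc) (by
      simp only [inner_sub_right, real_inner_smul_right, wb.2.2, wc.2.2]; norm_num)).mp (by
      simp only [inner_sub_right, real_inner_smul_right, wb.1, wb.2.1, wc.1, wc.2.1]
      simp [ht])
    simpa only [inner_sub_right, real_inner_smul_right] using this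
  have aux : ∀ x z R : ℝ, R < 0 → (∀ t : ℝ, 0 ≤ t → min (t * x - R) (t * z) = 0) → z = 0 := by
    intro x z R hR hh
    have hx : 0 < 2 * (|x| + 1) := by positivity
    have ht : 0 < -R / (2 * (|x| + 1)) := div_pos (by linarith) hx
    have h1 := hh _ ht.le
    have h2 : 0 < -R / (2 * (|x| + 1)) * x - R := by
      have h3 : -R / (2 * (|x| + 1)) * |x| < -R := by
        rw [div_mul_eq_mul_div, div_lt_iff₀ hx]
        nlinarith [abs_nonneg x]
      have h4 : -|x| ≤ x := neg_abs_le x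
      nlinarith
    rcases le_total (-R / (2 * (|x| + 1)) * x - R) (-R / (2 * (|x| + 1)) * z) with h3 | h3
    · rw [min_eq_left h3] at h1; linarith
    · rw [min_eq_right h3] at h1
      rcases mul_eq_zero.mp h1 with h4 | h4
      · exact absurd h4 ht.ne'
      · exact h4
  have e0 := ea 0 le_rfl
  rw [zero_mul, zero_mul, zero_sub, zero_sub] at e0
  have ra : ⟪a', vc⟫ ≤ 0 := by
    have : 0 ≤ -⟪a', vc⟫ := by rw [← e0]; exact min_le_left _ _
    linarith
  have rb : ⟪b', vc⟫ ≤ 0 := by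
    have : 0 ≤ -⟪b', vc⟫ := by rw [← e0]; exact min_le_right _ _
    linarith
  have ra0 : ⟪a', vc⟫ = 0 := by
    rcases lt_or_eq_of_le ra with hlt | h0
    · exfalso
      have rb0 : ⟪b', vc⟫ = 0 := by
        rcases lt_or_eq_of_le rb with h2 | h2
        · exact absurd e0 (ne_of_gt (lt_min (by linarith) (by linarith)))
        · exact h2
      have z1 := aux _ _ _ hlt (fun t ht => by have := ea t ht; rwa [rb0, sub_zero] at this)
      have z2 := aux _ _ _ hlt (fun t ht => by have := eb t ht; rwa [rb0, sub_zero] at this)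
      exact nz b' hb' fun v => by rw [rep b' v, z1, z2, rb0]; ring
    · exact h0
  have rb0 : ⟪b', vc⟫ = 0 := by
    rcases lt_or_eq_of_le rb with hlt | h0
    · exfalso
      have z1 := aux _ _ _ hlt (fun t ht => by
        have := ea t ht; rw [ra0, sub_zero, min_comm] at this; exact this)
      have z2 := aux _ _ _ hlt (fun t ht => by
        have := eb t ht; rw [ra0, sub_zero, min_comm] at this; exact this)
      exact nz a' ha' fun v => by rw [rep a' v, z1, z2, ra0]; ring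
    · exact h0
  have m1 := eb 1 zero_le_one
  have m2 := ea 1 zero_le_one
  rw [ra0, rb0, sub_zero, sub_zero, one_mul, one_mul] at m1 m2
  rcases two_dim m1 m2
    (fun hh => nz a' ha' fun v => by rw [rep a' v, hh.1, hh.2, ra0]; ring)
    (fun hh => nz b' hb' fun v => by rw [rep b' v, hh.1, hh.2, rb0]; ring) with hh | hh
  · obtain ⟨e1, e2, e3, e4⟩ := hh
    left
    refine ⟨unit_pos ha ha' e1 ?_, unit_pos hb hb' e4 ?_⟩
    · apply ext_inner_right ℝ
      intro v
      rw [rep a' v, e2, ra0, real_inner_smul_left]; ring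
    · apply ext_inner_right ℝ
      intro v
      rw [rep b' v, e3, rb0, real_inner_smul_left]; ring
  · obtain ⟨e1, e2, e3, e4⟩ := hh
    right
    refine ⟨unit_pos hb ha' e2 ?_, unit_pos ha hb' e3 ?_⟩
    · apply ext_inner_right ℝ
      intro v
      rw [rep a' v, e1, ra0, real_inner_smul_left]; ring
    · apply ext_inner_right ℝ
      intro v
      rw [rep b' v, e4, rb0, real_inner_smul_left]; ring

end UNIQ_

open UNIQ_ in
/-- UNIQ. -/
theorem uniq_proof : Stmt_Uniq := by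
  intro φ hφ a b c a' b' c' hI hI' ha hb hc ha' hb' hc' y hy hz
  have hy' : G3 a' b' c' y = 0 := by
    obtain ⟨r, hr, hh⟩ := hz
    exact (hh y (mem_ball_self hr)).mp hy
  have hz' : ∃ r > 0, ∀ x ∈ ball y r, (G3 a' b' c' x = 0 ↔ G3 a b c x = 0) := by
    obtain ⟨r, hr, hh⟩ := hz
    exact ⟨r, hr, fun x hx => (hh x hx).symm⟩
  have hs := indep_surj hI
  have hi := indep_inj hI
  have hs' := indep_surj hI'
  have hi' := indep_inj hI'
  rcases classify hφ hI ha hb hc hy with ⟨n, hn, L⟩ | ⟨σ, P, Q, hσ, hP, hQ, hS, L⟩ | L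
  · rcases classify hφ hI' ha' hb' hc' hy' with ⟨n', hn', L'⟩ | ⟨σ', P', Q', hσ', hP', hQ', hS', L'⟩ | L'
    · have E := zeros_eq L L' (fun t ht v => g1_hom n ht v) (fun t ht v => g1_hom n' ht v) hz
      obtain ⟨s, hs, rfl⟩ := same11 hn hn' E
      refine wrap L L' s hs ?_ ?_ ?_
      · intro m hm
        rw [mem_singleton_iff] at hm ⊢
        rw [hm]
      · intro v; unfold g1; rw [real_inner_smul_left]
      · intro ε _ v
        show g1 (s • n) v = s * g1 n v
        unfold g1; rw [real_inner_smul_left]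
    · exact (no12 hσ' hS' (zeros_eq L L' (fun t ht v => g1_hom n ht v)
        (fun t ht v => g2_hom σ' P' Q' ht v) hz)).elim
    · exact (no13 hs' (zeros_eq L L' (fun t ht v => g1_hom n ht v)
        (fun t ht v => g3_hom _ _ _ ht v) hz)).elim
  · rcases classify hφ hI' ha' hb' hc' hy' with ⟨n', hn', L'⟩ | ⟨σ', P', Q', hσ', hP', hQ', hS', L'⟩ | L'
    · exact (no12 hσ hS (zeros_eq L' L (fun t ht v => g1_hom n' ht v)
        (fun t ht v => g2_hom σ P Q ht v) hz')).elim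
    · have E := zeros_eq L L' (fun t ht v => g2_hom σ P Q ht v)
        (fun t ht v => g2_hom σ' P' Q' ht v) hz
      have hσ2 : σ * σ = 1 := by rcases hσ with h | h <;> rw [h] <;> norm_num
      have hss : σ' * σ = 1 ∨ σ' * σ = -1 := by
        rcases hσ with h | h <;> rcases hσ' with h' | h' <;> rw [h, h'] <;> norm_num
      have hmul : ∀ x : ℝ, σ' * x = σ' * σ * (σ * x) := by
        intro x
        calc σ' * x = σ' * (σ * σ) * x := by rw [hσ2, mul_one]
          _ = σ' * σ * (σ * x) := by ring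
      have hsm : ∀ x : E3, (σ' * σ) • σ • x = σ' • x := by
        intro x
        rw [smul_smul, mul_assoc, hσ2, mul_one]
      rcases same22 hS hP hQ hP' hQ' (fun v => by
        rw [← g2_zero hσ, ← g2_zero hσ']; exact E v) with ⟨rfl, rfl⟩ | ⟨rfl, rfl⟩
      · refine wrap L L' (σ' * σ) hss ?_ ?_ ?_
        · rintro m (rfl | rfl)
          · rw [hsm]; exact Or.inl rfl
          · rw [hsm]; exact Or.inr rfl
        · intro v; unfold g2; exact hmul _
        · intro ε _ v; unfold f2; exact hmul _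
      · refine wrap L L' (σ' * σ) hss ?_ ?_ ?_
        · rintro m (rfl | rfl)
          · rw [hsm]; exact Or.inr rfl
          · rw [hsm]; exact Or.inl rfl
        · intro v; unfold g2; rw [min_comm]; exact hmul _
        · intro ε hε v; unfold f2; rw [smax_comm hφ hε]; exact hmul _
    · exact (no23 hσ hS hs' hi' (zeros_eq L L' (fun t ht v => g2_hom σ P Q ht v)
        (fun t ht v => g3_hom _ _ _ ht v) hz)).elim
  · rcases classify hφ hI' ha' hb' hc' hy' with ⟨n', hn', L'⟩ | ⟨σ', P', Q', hσ', hP', hQ', hS', L'⟩ | L'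
    · exact (no13 hs (zeros_eq L' L (fun t ht v => g1_hom n' ht v)
        (fun t ht v => g3_hom _ _ _ ht v) hz')).elim
    · exact (no23 hσ' hS' hs hi (zeros_eq L' L (fun t ht v => g2_hom σ' P' Q' ht v)
        (fun t ht v => g3_hom _ _ _ ht v) hz')).elim
    · have E := zeros_eq L L' (fun t ht v => g3_hom _ _ _ ht v)
        (fun t ht v => g3_hom _ _ _ ht v) hz
      obtain ⟨e1, e2⟩ := same33 hs hi ha hb hc ha' hb' hc' E
      rcases e2 with ⟨e2, e3⟩ | ⟨e2, e3⟩
      · refine wrap L L' 1 (Or.inl rfl) ?_ ?_ ?_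
        · intro m hm; rw [one_smul, e1, e2, e3]; exact hm
        · intro v; rw [one_mul, e1, e2, e3]
        · intro ε _ v; rw [one_mul, e1, e2, e3]
      · refine wrap L L' 1 (Or.inl rfl) ?_ ?_ ?_
        · intro m hm
          rw [one_smul, e1, e2, e3]
          rcases hm with hm | hm | hm
          · exact Or.inr (Or.inl hm)
          · exact Or.inl hm
          · exact Or.inr (Or.inr hm)
        · intro v; rw [one_mul, e1, e2, e3]; unfold g3; rw [min_comm]
        · intro ε hε v; rw [one_mul, e1, e2, e3]; unfold f3; rw [smax_comm hφ hε (-⟪b.1, v⟫)]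

end Pool.Agent.TSM
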