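import Pool.Agent.TSM.ATL
import Pool.Agent.TSM.CLOP
import Pool.Agent.TSM.F3P
import Pool.Agent.TSM.FLAT
import Pool.Agent.TSM.GLUE
import Pool.Agent.TSM.GOODP
import Pool.Agent.TSM.HHD
import Pool.Agent.TSM.INVD
import Pool.Agent.TSM.INVM
import Pool.Agent.TSM.LIMV
import Pool.Agent.TSM.LMAX
import Pool.Agent.TSM.LOCG
import Pool.Agent.TSM.NEAR
import Pool.Agent.TSM.OPIM
import Pool.Agent.TSM.PART
import Pool.Agent.TSM.PHI
import Pool.Agent.TSM.PREX
import Pool.Agent.TSM.RHO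
import Pool.Agent.TSM.SADL
import Pool.Agent.TSM.THETA
import Pool.Agent.TSM.TPPG
import Pool.Agent.TSM.UNIQ

/-!
# TSM: assembly of Part S (the smoothing theorem)
-/

set_option autoImplicit false

namespace Pool.Agent.TSM

open Set Filter Topology
open scoped Manifold ContDiff

namespace SA

theorem invm : Stmt_InvM := invm_proof invd_proof
theorem atl : Stmt_Atl := atl_proof invm
theorem opim : Stmt_Opim := opim_proof invm
theorem flat : Stmt_Flat := flat_proof uniq_proof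
theorem hhd : Stmt_HHd := hhd_proof theta_proof
theorem locg : Stmt_LocG := locg_proof opim f3p_proof uniq_proof
theorem goodp : Stmt_Goodp :=
  goodp_proof phi_proof f3p_proof opim flat part_proof locg
theorem rho : Stmt_Rho := rho_proof theta_proof hhd
theorem lmax : Stmt_Lmax := lmax_proof theta_proof hhd
theorem glue : Stmt_Glue := glue_proof goodp rho near_proof prex_proof
theorem tppg : Stmt_Tppg :=
  tppg_proof opim f3p_proof sadl_proof hhd lmax clop_proof limv_proof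

end SA

/-- THE SMOOTHING THEOREM (Part S). -/
theorem smooth_proof : Stmt_Smooth := by
  intro M _ _ _ _ Φ D hD ε hε
  obtain ⟨N, l, g, hN, hl, ho, hc, hclose, hgood, hpre⟩ := SA.glue M Φ D hD ε hε
  refine ⟨g, SA.atl M g hc ?_, SA.tppg M Φ N l g hD.poly hN hl ho hc hgood hpre, hclose⟩
  intro x
  rcases hgood x with ⟨U, hU, hinj, φ, δ, a, b, c, hφ, hδ, hind, -, -, -, hz⟩ | ⟨U, hU, hinj, hz⟩
  · obtain ⟨h1, -, h3⟩ := (f3p_proof φ hφ a b c).1 δ hδ
    exact ⟨U, hU, hinj, F3 φ δ a b c, h1, h3 hind _, hz⟩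
  · obtain ⟨o, ho'⟩ := ho
    obtain ⟨h1, h2⟩ := SA.hhd Φ l o hD.poly hl ho'
    exact ⟨U, hU, hinj, HH Φ l, h1, (h2 (g x) (hz x (mem_of_mem_nhds hU))).1, hz⟩

end Pool.Agent.TSM
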