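import Pool.Agent.TSR.RAsm
import Pool.Agent.TSR.POC
import Pool.Agent.TSQ.PFinal
import Pool.Agent.TSM.SAsm
import Pool.Agent.TSM.Reduce

/-!
# TSM: the final theorem
-/

set_option autoImplicit false

namespace Pool.Agent.TSM

theorem stmt_R : Stmt_R := Pool.Agent.TSR.stmtR_of_poc Pool.Agent.TSR.poc_proof

/-- every tight polyhedral immersion of a closed surface admits a tight smoothing -/
theorem final : Stmt_Final := final_of Pool.Agent.TSQ.stmt_P stmt_R smooth_proof

end Pool.Agent.TSM
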