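import Pool.Agent.TSM.Final

/-!
# TSM: homeomorphisms between bodies

`relabel`: renaming vertices by an injection; `replaceDisc`: replacing a family `T` of triangles
by a family `T'` realising the same region of a vector space.
-/

set_option autoImplicit false

open scoped RealInnerProductSpace Topology

namespace Pool.Agent.TSM

/-- The body of a finite family of finite sets. -/
def bodyOf {U : Type} [Fintype U] [DecidableEq U] (S : Finset (Finset U)) : Set (U → ℝ) :=
  {w | (∀ v, 0 ≤ w v) ∧ ∑ v, w v = 1 ∧ ∃ t ∈ S, ∀ v, v ∉ t → w v = 0}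

lemma body_eq {V : Type} [Fintype V] [DecidableEq V] (K : Surf V) : K.body = bodyOf K.tri := rfl

section
variable {U : Type} [Fintype U] [DecidableEq U]

lemma bodyOf_union (S T : Finset (Finset U)) : bodyOf (S ∪ T) = bodyOf S ∪ bodyOf T := by
  ext w
  constructor
  · rintro ⟨h0, h1, t, ht, h2⟩
    rcases Finset.mem_union.1 ht with h | h
    · exact Or.inl ⟨h0, h1, t, h, h2⟩
    · exact Or.inr ⟨h0, h1, t, h, h2⟩
  · rintro (⟨h0, h1, t, ht, h2⟩ | ⟨h0, h1, t, ht, h2⟩)
    · exact ⟨h0, h1, t, Finset.mem_union_left _ ht, h2⟩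
    · exact ⟨h0, h1, t, Finset.mem_union_right _ ht, h2⟩

lemma isCompact_bodyOf (S : Finset (Finset U)) : IsCompact (bodyOf S) := by
  have h1 : bodyOf S = ⋃ t ∈ S, {w : U → ℝ | (∀ v, 0 ≤ w v) ∧ ∑ v, w v = 1 ∧
      ∀ v, v ∉ t → w v = 0} := by
    ext w
    simp only [bodyOf, Set.mem_ofPred_eq, Set.mem_iUnion]
    constructor
    · rintro ⟨h0, h1, t, ht, h2⟩
      exact ⟨t, ht, h0, h1, h2⟩
    · rintro ⟨t, ht, h0, h1, h2⟩
      exact ⟨h0, h1, t, ht, h2⟩
  rw [h1]
  refine Set.Finite.isCompact_biUnion S.finite_toSet fun t _ => ?_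
  refine (isCompact_stdSimplex ℝ U).of_isClosed_subset ?_ ?_
  · refine IsClosed.inter (s₁ := {w : U → ℝ | ∀ v, 0 ≤ w v}) ?_
      (IsClosed.inter (s₁ := {w : U → ℝ | ∑ v, w v = 1})
        (s₂ := {w : U → ℝ | ∀ v, v ∉ t → w v = 0}) ?_ ?_)
    · have : {w : U → ℝ | ∀ v, 0 ≤ w v} = ⋂ v, {w : U → ℝ | 0 ≤ w v} := by
        ext w; simp
      rw [this]
      exact isClosed_iInter fun v => isClosed_le continuous_const (continuous_apply v)
    · exact isClosed_eq (continuous_finsetSum _ fun v _ => continuous_apply v) continuous_const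
    · have : {w : U → ℝ | ∀ v, v ∉ t → w v = 0} = ⋂ v, ⋂ (_ : v ∉ t), {w : U → ℝ | w v = 0} := by
        ext w; simp
      rw [this]
      exact isClosed_iInter fun v => isClosed_iInter fun _ =>
        isClosed_eq (continuous_apply v) continuous_const
  · rintro w ⟨h0, h1, _⟩
    exact ⟨h0, h1⟩

lemma compactSpace_bodyOf (S : Finset (Finset U)) : CompactSpace (bodyOf S) :=
  isCompact_iff_compactSpace.1 (isCompact_bodyOf S)

/-- The intersection of two bodies is determined by the pairwise intersections. -/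
lemma body_inter_sub {C T C' T' : Finset (Finset U)}
    (h : ∀ s ∈ C, ∀ t ∈ T, ∃ s' ∈ C', ∃ t' ∈ T', s ∩ t ⊆ s' ∩ t') :
    bodyOf C ∩ bodyOf T ⊆ bodyOf C' ∩ bodyOf T' := by
  rintro w ⟨⟨h0, h1, s, hs, h2⟩, ⟨_, _, t, ht, h3⟩⟩
  obtain ⟨s', hs', t', ht', hsub⟩ := h s hs t ht
  have h4 : ∀ v, v ∉ s' ∩ t' → w v = 0 := by
    intro v hv
    by_contra hne
    apply hv
    apply hsub
    rw [Finset.mem_inter]
    refine ⟨?_, ?_⟩
    · by_contra hc
      exact hne (h2 v hc)
    · by_contra hc
      exact hne (h3 v hc)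
  refine ⟨⟨h0, h1, s', hs', fun v hv => h4 v fun hc => hv (Finset.mem_inter.1 hc).1⟩,
    ⟨h0, h1, t', ht', fun v hv => h4 v fun hc => hv (Finset.mem_inter.1 hc).2⟩⟩

/-- The combination `∑ w v • q v` in a vector space. -/
noncomputable def comb {P : Type} [AddCommGroup P] [Module ℝ P] (q : U → P) (w : U → ℝ) : P :=
  ∑ v, w v • q v

lemma continuous_comb {P : Type} [NormedAddCommGroup P] [NormedSpace ℝ P] (q : U → P) :
    Continuous (comb q) := by
  unfold comb
  exact continuous_finsetSum _ fun v _ => (continuous_apply v).smul continuous_const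

/-- REPLACING A DISC: `T` and `T'` realise the same region of `P` (by `q`), and meet the common
part `C` in the same faces.  Then the bodies of `C ∪ T` and `C ∪ T'` are homeomorphic by a map
which is the identity on `C` and compatible with `q` on `T`. -/
theorem replaceDisc {P : Type} [NormedAddCommGroup P] [NormedSpace ℝ P]
    (C T T' : Finset (Finset U)) (q : U → P)
    (h1 : Set.InjOn (comb q) (bodyOf T)) (h2 : Set.InjOn (comb q) (bodyOf T'))
    (h3 : comb q '' bodyOf T = comb q '' bodyOf T')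
    (h4 : bodyOf C ∩ bodyOf T = bodyOf C ∩ bodyOf T') :
    ∃ h : bodyOf (C ∪ T) ≃ₜ bodyOf (C ∪ T'),
      (∀ x, x.1 ∈ bodyOf C → (h x).1 = x.1) ∧
      (∀ x, x.1 ∈ bodyOf T → (h x).1 ∈ bodyOf T' ∧ comb q (h x).1 = comb q x.1) := by
  classical
  have e1 : ∀ x ∈ bodyOf T, ∃ y ∈ bodyOf T', comb q y = comb q x := by
    intro x hx
    have : comb q x ∈ comb q '' bodyOf T' := by rw [← h3]; exact ⟨x, hx, rfl⟩
    exact this
  have e2 : ∀ y ∈ bodyOf T', ∃ x ∈ bodyOf T, comb q x = comb q y := by
    intro x hx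
    have : comb q x ∈ comb q '' bodyOf T := by rw [h3]; exact ⟨x, hx, rfl⟩
    exact this
  choose! F hF1 hF2 using e1
  choose! G hG1 hG2 using e2
  -- compatibility on `C`
  have hFC : ∀ x ∈ bodyOf C, x ∈ bodyOf T → F x = x := by
    intro x hxC hxT
    have hx' : x ∈ bodyOf T' := by
      have : x ∈ bodyOf C ∩ bodyOf T := ⟨hxC, hxT⟩
      rw [h4] at this
      exact this.2
    exact h2 (hF1 x hxT) hx' (hF2 x hxT)
  have hGC : ∀ x ∈ bodyOf C, x ∈ bodyOf T' → G x = x := by
    intro x hxC hxT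
    have hx' : x ∈ bodyOf T := by
      have : x ∈ bodyOf C ∩ bodyOf T' := ⟨hxC, hxT⟩
      rw [← h4] at this
      exact this.2
    exact h1 (hG1 x hxT) hx' (hG2 x hxT)
  have hGF : ∀ x ∈ bodyOf T, G (F x) = x := fun x hx =>
    h1 (hG1 _ (hF1 x hx)) hx (by rw [hG2 _ (hF1 x hx), hF2 x hx])
  have hFG : ∀ y ∈ bodyOf T', F (G y) = y := fun y hy =>
    h2 (hF1 _ (hG1 y hy)) hy (by rw [hF2 _ (hG1 y hy), hG2 y hy])
  let f0 : (U → ℝ) → (U → ℝ) := fun x => if x ∈ bodyOf C then x else F x
  let g0 : (U → ℝ) → (U → ℝ) := fun x => if x ∈ bodyOf C then x else G x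
  have hf0C : ∀ x ∈ bodyOf C, f0 x = x := fun x hx => if_pos hx
  have hf0T : ∀ x ∈ bodyOf T, f0 x = F x := fun x hx => by
    by_cases hc : x ∈ bodyOf C
    · rw [hf0C x hc, hFC x hc hx]
    · exact if_neg hc
  have hg0C : ∀ x ∈ bodyOf C, g0 x = x := fun x hx => if_pos hx
  have hg0T : ∀ x ∈ bodyOf T', g0 x = G x := fun x hx => by
    by_cases hc : x ∈ bodyOf C
    · rw [hg0C x hc, hGC x hc hx]
    · exact if_neg hc
  have hmaps : ∀ x ∈ bodyOf (C ∪ T), f0 x ∈ bodyOf (C ∪ T') := by
    intro x hx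
    rw [bodyOf_union] at hx ⊢
    rcases hx with hx | hx
    · rw [hf0C x hx]; exact Or.inl hx
    · rw [hf0T x hx]; exact Or.inr (hF1 x hx)
  have hmaps' : ∀ x ∈ bodyOf (C ∪ T'), g0 x ∈ bodyOf (C ∪ T) := by
    intro x hx
    rw [bodyOf_union] at hx ⊢
    rcases hx with hx | hx
    · rw [hg0C x hx]; exact Or.inl hx
    · rw [hg0T x hx]; exact Or.inr (hG1 x hx)
  have hleft : ∀ x ∈ bodyOf (C ∪ T), g0 (f0 x) = x := by
    intro x hx
    rw [bodyOf_union] at hx
    rcases hx with hx | hx
    · rw [hf0C x hx, hg0C x hx]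
    · rw [hf0T x hx, hg0T _ (hF1 x hx), hGF x hx]
  have hright : ∀ x ∈ bodyOf (C ∪ T'), f0 (g0 x) = x := by
    intro x hx
    rw [bodyOf_union] at hx
    rcases hx with hx | hx
    · rw [hg0C x hx, hf0C x hx]
    · rw [hg0T x hx, hf0T _ (hG1 x hx), hFG x hx]
  let E : bodyOf (C ∪ T) ≃ bodyOf (C ∪ T') :=
    { toFun := fun x => ⟨f0 x.1, hmaps x.1 x.2⟩
      invFun := fun x => ⟨g0 x.1, hmaps' x.1 x.2⟩
      left_inv := fun x => Subtype.ext (hleft x.1 x.2)
      right_inv := fun x => Subtype.ext (hright x.1 x.2) }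
  -- continuity of `F` on the body of `T`
  have hFcont : ContinuousOn F (bodyOf T) := by
    have c1 : CompactSpace (bodyOf T') := compactSpace_bodyOf T'
    have k1 : Continuous (fun y : bodyOf T' => comb q y.1) :=
      (continuous_comb q).comp continuous_subtype_val
    have k2 : Function.Injective (fun y : bodyOf T' => comb q y.1) := fun a b hab =>
      Subtype.ext (h2 a.2 b.2 hab)
    have k3 : Topology.IsClosedEmbedding (fun y : bodyOf T' => comb q y.1) :=
      k1.isClosedEmbedding k2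
    rw [continuousOn_iff_continuous_domRestrict]
    have k4 : Continuous (fun x : bodyOf T => (⟨F x.1, hF1 x.1 x.2⟩ : bodyOf T')) := by
      rw [k3.isInducing.continuous_iff]
      have : ((fun y : bodyOf T' => comb q y.1) ∘
          fun x : bodyOf T => (⟨F x.1, hF1 x.1 x.2⟩ : bodyOf T')) = fun x : bodyOf T =>
          comb q x.1 := by
        funext x
        exact hF2 x.1 x.2
      rw [this]
      exact (continuous_comb q).comp continuous_subtype_val
    exact continuous_subtype_val.comp k4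
  have hcont0 : ContinuousOn f0 (bodyOf (C ∪ T)) := by
    rw [bodyOf_union]
    refine ContinuousOn.union_of_isClosed ?_ ?_ (isCompact_bodyOf C).isClosed
      (isCompact_bodyOf T).isClosed
    · exact continuousOn_id.congr fun x hx => hf0C x hx
    · exact hFcont.congr fun x hx => hf0T x hx
  have hcont : Continuous E := by
    refine Continuous.subtype_mk ?_ _
    exact continuousOn_iff_continuous_domRestrict.1 hcont0
  have c2 : CompactSpace (bodyOf (C ∪ T)) := compactSpace_bodyOf _
  refine ⟨hcont.homeoOfEquivCompactToT2, ?_, ?_⟩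
  · intro x hx
    exact hf0C x.1 hx
  · intro x hx
    have h5 : ((hcont.homeoOfEquivCompactToT2) x).1 = F x.1 := hf0T x.1 hx
    rw [h5]
    exact ⟨hF1 _ hx, hF2 _ hx⟩

end

/-- RENAMING VERTICES by an injection. -/
theorem relabel {V U : Type} [Fintype V] [DecidableEq V] [Fintype U] [DecidableEq U] (i : V → U)
    (hi : Function.Injective i) (S : Finset (Finset V)) :
    ∃ h : bodyOf S ≃ₜ bodyOf (S.image (Finset.image i)),
      (∀ x v, (h x).1 (i v) = x.1 v) ∧ (∀ x u, u ∉ Set.range i → (h x).1 u = 0) ∧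
      ∀ (P : Type) [AddCommGroup P] [Module ℝ P] (q : U → P) (x : bodyOf S),
        comb q (h x).1 = comb (fun v => q (i v)) x.1 := by
  classical
  let f0 : (V → ℝ) → (U → ℝ) := fun w u => if h : ∃ v, i v = u then w h.choose else 0
  have hf1 : ∀ w v, f0 w (i v) = w v := by
    intro w v
    have hex : ∃ v', i v' = i v := ⟨v, rfl⟩
    have h1 : f0 w (i v) = w hex.choose := by simp only [f0]; rw [dif_pos hex]
    rw [h1, hi hex.choose_spec]
  have hf2 : ∀ w u, u ∉ Set.range i → f0 w u = 0 := by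
    intro w u hu
    have hex : ¬ ∃ v, i v = u := hu
    simp only [f0]
    rw [dif_neg hex]
  have hsum : ∀ (P : Type) [AddCommGroup P] [Module ℝ P] (q : U → P) (w : V → ℝ),
      ∑ u, f0 w u • q u = ∑ v, w v • q (i v) := by
    intro P _ _ q w
    rw [← Finset.sum_subset (Finset.subset_univ (Finset.univ.image i))]
    · rw [Finset.sum_image (fun a _ b _ hab => hi hab)]
      exact Finset.sum_congr rfl fun v _ => by rw [hf1]
    · intro u _ hu
      rw [hf2 w u, zero_smul]
      rintro ⟨v, rfl⟩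
      exact hu (Finset.mem_image_of_mem i (Finset.mem_univ v))
  have hmem : ∀ w ∈ bodyOf S, f0 w ∈ bodyOf (S.image (Finset.image i)) := by
    rintro w ⟨h0, h1, t, ht, h2⟩
    refine ⟨?_, ?_, t.image i, Finset.mem_image_of_mem _ ht, ?_⟩
    · intro u
      by_cases hu : u ∈ Set.range i
      · obtain ⟨v, rfl⟩ := hu
        rw [hf1]; exact h0 v
      · rw [hf2 w u hu]
    · have := hsum ℝ (fun _ => (1 : ℝ)) w
      simpa [h1] using this
    · intro u hu
      by_cases hu' : u ∈ Set.range i
      · obtain ⟨v, rfl⟩ := hu'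
        rw [hf1]
        exact h2 v fun hv => hu (Finset.mem_image_of_mem i hv)
      · exact hf2 w u hu'
  have hmem' : ∀ w ∈ bodyOf (S.image (Finset.image i)), (fun v => w (i v)) ∈ bodyOf S := by
    rintro w ⟨h0, h1, t, ht, h2⟩
    obtain ⟨s, hs, rfl⟩ := Finset.mem_image.1 ht
    refine ⟨fun v => h0 _, ?_, s, hs, ?_⟩
    · rw [← h1, ← Finset.sum_subset (Finset.subset_univ (Finset.univ.image i))]
      · rw [Finset.sum_image (fun a _ b _ hab => hi hab)]
      · intro u _ hu
        refine h2 u fun hc => hu ?_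
        obtain ⟨v, _, rfl⟩ := Finset.mem_image.1 hc
        exact Finset.mem_image_of_mem i (Finset.mem_univ v)
    · intro v hv
      refine h2 _ fun hc => hv ?_
      obtain ⟨v', hv', he⟩ := Finset.mem_image.1 hc
      rwa [← hi he]
  let E : bodyOf S ≃ bodyOf (S.image (Finset.image i)) :=
    { toFun := fun x => ⟨f0 x.1, hmem x.1 x.2⟩
      invFun := fun x => ⟨fun v => x.1 (i v), hmem' x.1 x.2⟩
      left_inv := fun x => Subtype.ext (by funext v; exact hf1 x.1 v)
      right_inv := fun x => by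
        apply Subtype.ext
        funext u
        by_cases hu : u ∈ Set.range i
        · obtain ⟨v, rfl⟩ := hu
          exact hf1 _ v
        · have h1 : f0 (fun v => (x : U → ℝ) (i v)) u = 0 :=
            hf2 (fun v => (x : U → ℝ) (i v)) u hu
          change f0 (fun v => x.1 (i v)) u = x.1 u
          rw [h1]
          obtain ⟨_, _, t, ht, h2⟩ := x.2
          obtain ⟨s, hs, rfl⟩ := Finset.mem_image.1 ht
          refine (h2 u fun hc => hu ?_).symm
          obtain ⟨v, _, rfl⟩ := Finset.mem_image.1 hc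
          exact ⟨v, rfl⟩ }
  have hcont : Continuous E := by
    refine Continuous.subtype_mk ?_ _
    refine continuous_pi fun u => ?_
    by_cases hu : u ∈ Set.range i
    · obtain ⟨v, rfl⟩ := hu
      have : (fun x : bodyOf S => f0 x.1 (i v)) = fun x : bodyOf S => x.1 v := by
        funext x; exact hf1 x.1 v
      rw [this]
      exact (continuous_apply v).comp continuous_subtype_val
    · have : (fun x : bodyOf S => f0 x.1 u) = fun x : bodyOf S => (0 : ℝ) := by
        funext x; exact hf2 x.1 u hu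
      rw [this]
      exact continuous_const
  have c2 : CompactSpace (bodyOf S) := compactSpace_bodyOf _
  refine ⟨hcont.homeoOfEquivCompactToT2, ?_, ?_, ?_⟩
  · intro x v
    exact hf1 x.1 v
  · intro x u hu
    exact hf2 x.1 u hu
  · intro P _ _ q x
    exact hsum P q x.1

end Pool.Agent.TSM
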