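import Pool.Agent.TSM.VStmts

/-!
# TSM, module FINJ: small displacements along a tame field are locally injective
-/

set_option autoImplicit false

namespace Pool.Agent.TSM

open Set Filter Topology Metric

namespace FINJ_

variable {V : Type} [DecidableEq V]

theorem inner3 (a b : E3) : (inner ℝ a b : ℝ) = a 0 * b 0 + a 1 * b 1 + a 2 * b 2 := by
  simp [PiLp.inner_apply, Fin.sum_univ_three, mul_comm]

theorem inner_crs (a b c : E3) : (inner ℝ (crs a b) c : ℝ) = det3 a b c := by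
  have h0 : crs a b 0 = a 1 * b 2 - a 2 * b 1 := rfl
  have h1 : crs a b 1 = a 2 * b 0 - a 0 * b 2 := rfl
  have h2 : crs a b 2 = a 0 * b 1 - a 1 * b 0 := rfl
  rw [inner3, h0, h1, h2, det3]
  ring

theorem det_last (p q r : E3) (a b : ℝ) : det3 p q (a • q + b • r) = b * det3 p q r := by
  simp only [PiLp.add_apply, PiLp.smul_apply, smul_eq_mul, det3]
  ring

theorem det_last' (p q r : E3) (a b : ℝ) : det3 q r (a • p + b • q) = a * det3 p q r := by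
  simp only [PiLp.add_apply, PiLp.smul_apply, smul_eq_mul, det3]
  ring

theorem det_self (p q : E3) (a b : ℝ) : det3 p q (a • p + b • q) = 0 := by
  simp only [PiLp.add_apply, PiLp.smul_apply, smul_eq_mul, det3]
  ring

theorem succ_ne {L : Pg V} (hL : L.Ok) {i : V} (hi : i ∈ L.S) : L.s i ≠ i := by
  intro h
  have h1 : ∀ m : ℕ, L.s^[m] i = i := by
    intro m
    induction m with
    | zero => rfl
    | succ m ih => rw [Function.iterate_succ_apply, h, ih]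
  have h2 : L.S ⊆ {i} := by
    intro j hj
    obtain ⟨m, hm⟩ := hL.trans i hi j hj
    rw [h1] at hm
    rw [Finset.mem_singleton]
    exact hm.symm
  have h3 := Finset.card_le_card h2
  rw [Finset.card_singleton] at h3
  have h4 := hL.card
  omega

theorem exists_third {L : Pg V} (hL : L.Ok) {i : V} (hi : i ∈ L.S) :
    ∃ k ∈ L.S, i ≠ k ∧ L.s i ≠ k ∧ ¬ L.Flat i (L.s i) k := by
  have hc : 1 < ((L.S.erase i).erase (L.s i)).card := by
    have h1 := Finset.card_erase_of_mem hi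
    have h2 : (L.S.erase i).card - 1 ≤ ((L.S.erase i).erase (L.s i)).card :=
      Finset.pred_card_le_card_erase
    have h4 := hL.card
    omega
  obtain ⟨k1, hk1, k2, hk2, hne⟩ := Finset.one_lt_card.1 hc
  rw [Finset.mem_erase, Finset.mem_erase] at hk1 hk2
  by_contra hcon
  push Not at hcon
  have f1 := hcon k1 hk1.2.2 hk1.2.1.symm hk1.1.symm
  have f2 := hcon k2 hk2.2.2 hk2.2.1.symm hk2.1.symm
  obtain ⟨m, q, hm, hq, hs, he⟩ := f1
  obtain ⟨m', q', hm', hq', hs', he'⟩ := f2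
  have e1 : m = m' := by
    rw [hm] at hm'
    exact Option.some_injective _ hm'
  subst e1
  have e2 : q = q' := hL.inj q hq q' hq' (hs.trans hs'.symm)
  subst e2
  have e3 : k1 ∈ ({i, L.s i, k2} : Finset V) := by
    rw [he', ← he]
    simp
  simp only [Finset.mem_insert, Finset.mem_singleton] at e3
  rcases e3 with h | h | h
  · exact hk1.2.1 h
  · exact hk1.1 h
  · exact hne h

theorem indep {L : Pg V} (hL : L.Ok) {i : V} (hi : i ∈ L.S) (a b : ℝ)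
    (h : a • L.p i + b • L.p (L.s i) = 0) : a = 0 ∧ b = 0 := by
  obtain ⟨k, hk, h1, h2, h3⟩ := exists_third hL hi
  have hd := hL.gen i hi (L.s i) (hL.maps i hi) k hk (succ_ne hL hi).symm h1 h2 h3
  have ea : det3 (a • L.p i + b • L.p (L.s i)) (L.p (L.s i)) (L.p k) =
      a * det3 (L.p i) (L.p (L.s i)) (L.p k) := by
    simp only [PiLp.add_apply, PiLp.smul_apply, smul_eq_mul, det3]
    ring
  have eb : det3 (L.p i) (a • L.p i + b • L.p (L.s i)) (L.p k) =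
      b * det3 (L.p i) (L.p (L.s i)) (L.p k) := by
    simp only [PiLp.add_apply, PiLp.smul_apply, smul_eq_mul, det3]
    ring
  have z1 : ∀ y z : E3, det3 0 y z = 0 := by
    intro y z
    simp [det3]
  have z2 : ∀ y z : E3, det3 y 0 z = 0 := by
    intro y z
    simp [det3]
  rw [h, z1] at ea
  rw [h, z2] at eb
  exact ⟨(mul_eq_zero.1 ea.symm).resolve_right hd, (mul_eq_zero.1 eb.symm).resolve_right hd⟩

theorem face_closed {L : Pg V} (hL : L.Ok) {i : V} (hi : i ∈ L.S) : IsClosed (L.face i) := by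
  let f : (ℝ × ℝ) →ₗ[ℝ] E3 := (LinearMap.fst ℝ ℝ ℝ).smulRight (L.p i) +
    (LinearMap.snd ℝ ℝ ℝ).smulRight (L.p (L.s i))
  have hf : ∀ q : ℝ × ℝ, f q = q.1 • L.p i + q.2 • L.p (L.s i) := fun q => rfl
  have hker : LinearMap.ker f = ⊥ := by
    rw [LinearMap.ker_eq_bot']
    intro q hq
    rw [hf] at hq
    have h1 := indep hL hi _ _ hq
    exact Prod.ext h1.1 h1.2
  have hcl : IsClosed {q : ℝ × ℝ | 0 ≤ q.1 ∧ 0 ≤ q.2} :=
    (isClosed_le continuous_const continuous_fst).inter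
      (isClosed_le continuous_const continuous_snd)
  have h1 := (LinearMap.isClosedEmbedding_of_injective hker).isClosedMap _ hcl
  have h2 : f '' {q : ℝ × ℝ | 0 ≤ q.1 ∧ 0 ≤ q.2} = L.face i := by
    ext x
    constructor
    · rintro ⟨q, hq, rfl⟩
      exact ⟨q.1, q.2, hq.1, hq.2, hf q⟩
    · rintro ⟨a, b, ha, hb, rfl⟩
      exact ⟨(a, b), ⟨ha, hb⟩, hf (a, b)⟩
  rw [← h2]
  exact h1

theorem abs_inner_le {u w : E3} {M : ℝ} (hu : ‖u‖ ≤ M) : |(inner ℝ u w : ℝ)| ≤ M * ‖w‖ :=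
  (abs_real_inner_le_norm u w).trans (mul_le_mul_of_nonneg_right hu (norm_nonneg w))

theorem key {u v w b d : E3} {τ t c' M : ℝ} (hw : w = τ • b + t • d)
    (hu0 : (inner ℝ u w : ℝ) ≤ 0) (hv0 : 0 ≤ (inner ℝ v w : ℝ)) (hub : c' ≤ inner ℝ u b)
    (hvb : c' ≤ inner ℝ v b) (hu : ‖u‖ ≤ M) (hv : ‖v‖ ≤ M) :
    c' * |τ| ≤ M * (|t| * ‖d‖) := by
  have e : ∀ n : E3, (inner ℝ n w : ℝ) = τ * inner ℝ n b + t * inner ℝ n d := by
    intro n
    rw [hw, inner_add_right, inner_smul_right, inner_smul_right]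
  have h1 : ∀ n : E3, ‖n‖ ≤ M → |t * (inner ℝ n d : ℝ)| ≤ M * (|t| * ‖d‖) := by
    intro n hn
    rw [abs_mul]
    calc |t| * |(inner ℝ n d : ℝ)| ≤ |t| * (M * ‖d‖) :=
          mul_le_mul_of_nonneg_left (abs_inner_le hn) (abs_nonneg t)
      _ = M * (|t| * ‖d‖) := by ring
  rcases le_total 0 τ with hτ | hτ
  · rw [abs_of_nonneg hτ]
    have h2 := mul_le_mul_of_nonneg_left hub hτ
    have h3 := (abs_le.1 (h1 u hu)).1
    rw [e u] at hu0
    linarith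
  · rw [abs_of_nonpos hτ]
    have h2 := mul_le_mul_of_nonpos_left hvb hτ
    have h3 := (abs_le.1 (h1 v hv)).2
    rw [e v] at hv0
    linarith

theorem fin {w b d : E3} {τ t c M Λ δ X Y : ℝ} (hc : 0 < c) (hM : 0 ≤ M) (hΛ : 0 < Λ)
    (hδ : δ = 1 / (4 * Λ * (M * (2 / c) * Λ + 1))) (hw : w = τ • b + t • d)
    (hk : c / 2 * |τ| ≤ M * (|t| * ‖d‖)) (hb : ‖b‖ ≤ Λ) (ht : |t| ≤ δ * X) (hXY : X ≤ 2 * Y)
    (hd : Y * ‖d‖ ≤ Λ * ‖w‖) : w = 0 := by
  have hG : 0 < M * (2 / c) * Λ + 1 := by positivity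
  have hδ0 : 0 < δ := by rw [hδ]; positivity
  have h1 : |τ| ≤ M * (2 / c) * (|t| * ‖d‖) := by
    have : |τ| = (2 / c) * (c / 2 * |τ|) := by field_simp
    rw [this]
    calc (2 / c) * (c / 2 * |τ|) ≤ (2 / c) * (M * (|t| * ‖d‖)) := by gcongr
      _ = M * (2 / c) * (|t| * ‖d‖) := by ring
  have h2 : ‖w‖ ≤ |τ| * ‖b‖ + |t| * ‖d‖ := by
    rw [hw]
    refine (norm_add_le _ _).trans ?_
    rw [norm_smul, norm_smul, Real.norm_eq_abs, Real.norm_eq_abs]
  have h3 : |t| * ‖d‖ ≤ 2 * δ * Λ * ‖w‖ := by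
    calc |t| * ‖d‖ ≤ δ * X * ‖d‖ := mul_le_mul_of_nonneg_right ht (norm_nonneg d)
      _ ≤ δ * (2 * Y) * ‖d‖ := by gcongr
      _ = 2 * δ * (Y * ‖d‖) := by ring
      _ ≤ 2 * δ * (Λ * ‖w‖) := by gcongr
      _ = 2 * δ * Λ * ‖w‖ := by ring
  have h4 : ‖w‖ ≤ (M * (2 / c) * Λ + 1) * (|t| * ‖d‖) := by
    calc ‖w‖ ≤ |τ| * ‖b‖ + |t| * ‖d‖ := h2
      _ ≤ M * (2 / c) * (|t| * ‖d‖) * Λ + |t| * ‖d‖ := by gcongr
      _ = (M * (2 / c) * Λ + 1) * (|t| * ‖d‖) := by ring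
  have h5 : ‖w‖ ≤ 1 / 2 * ‖w‖ := by
    calc ‖w‖ ≤ (M * (2 / c) * Λ + 1) * (|t| * ‖d‖) := h4
      _ ≤ (M * (2 / c) * Λ + 1) * (2 * δ * Λ * ‖w‖) := by gcongr
      _ = 1 / 2 * ‖w‖ := by
        rw [hδ]
        field_simp
        ring
  have h6 : ‖w‖ = 0 := le_antisymm (by linarith) (norm_nonneg w)
  exact norm_eq_zero.1 h6

end FINJ_

open FINJ_ in
theorem finj_proof : Stmt_FInj := by
  intro V _ L hL Λ c hc
  obtain ⟨M, hM⟩ : ∃ M, M = 1 + ∑ i ∈ L.S, ‖L.nor i‖ := ⟨_, rfl⟩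
  have hM0 : 0 < M := by
    rw [hM]
    have : 0 ≤ ∑ i ∈ L.S, ‖L.nor i‖ := Finset.sum_nonneg fun i _ => norm_nonneg _
    linarith
  have hMi : ∀ i ∈ L.S, ‖L.nor i‖ ≤ M := by
    intro i hi
    have h1 := Finset.single_le_sum (f := fun i => ‖L.nor i‖) (fun i _ => norm_nonneg _) hi
    rw [hM]
    have h2 : ‖L.nor i‖ ≤ ∑ i ∈ L.S, ‖L.nor i‖ := h1
    linarith
  obtain ⟨Λ', hΛ'⟩ : ∃ Λ', Λ' = |Λ| + 1 := ⟨_, rfl⟩
  have hΛ0 : 0 < Λ' := by rw [hΛ']; positivity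
  have hΛΛ : Λ ≤ Λ' := by
    rw [hΛ']
    linarith [le_abs_self Λ]
  obtain ⟨δ, hδ⟩ : ∃ δ, δ = 1 / (4 * Λ' * (M * (2 / c) * Λ' + 1)) := ⟨_, rfl⟩
  have hδ0 : 0 < δ := by rw [hδ]; positivity
  refine ⟨δ, hδ0, fun β hβ x hx hx0 => ?_⟩
  obtain ⟨_, hb1, hb2, hb3⟩ := hβ
  have hxn : 0 < ‖x‖ := norm_pos_iff.2 hx0
  -- neighbourhoods
  have hU1 : ∀ᶠ y in 𝓝[L.cone] x, y ∈ L.cone := self_mem_nhdsWithin
  have hU2 : ∀ᶠ y in 𝓝[L.cone] x, ‖x‖ / 2 < ‖y‖ := by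
    have h1 : ∀ᶠ y in 𝓝 x, ‖x‖ / 2 < ‖y‖ :=
      (continuous_norm.tendsto x).eventually (lt_mem_nhds (by linarith))
    exact h1.filter_mono nhdsWithin_le_nhds
  have hU3 : ∀ᶠ y in 𝓝[L.cone] x, ∀ i ∈ L.S, y ∈ L.face i → x ∈ L.face i := by
    have h1 : ∀ᶠ y in 𝓝 x, ∀ i ∈ L.S, y ∈ L.face i → x ∈ L.face i := by
      rw [Finset.eventually_all]
      intro i hi
      by_cases hxi : x ∈ L.face i
      · exact Filter.Eventually.of_forall fun y _ => hxi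
      · filter_upwards [(face_closed hL hi).isOpen_compl.mem_nhds hxi] with y hy hyi
        exact absurd hyi hy
    exact h1.filter_mono nhdsWithin_le_nhds
  have hU4 : ∀ᶠ y in 𝓝[L.cone] x, ∀ i ∈ L.S, x ∈ L.face i → c / 2 ≤ inner ℝ (L.nor i) (β y) := by
    have hr : 0 < c * ‖x‖ / (2 * M * Λ') := by positivity
    have h1 : ∀ᶠ y in 𝓝[L.cone] x, y ∈ ball x (c * ‖x‖ / (2 * M * Λ')) :=
      (ball_mem_nhds x hr |> fun h => nhdsWithin_le_nhds h)
    filter_upwards [h1, hU1, hU2] with y hy1 hy2 hy3 i hi hxi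
    have hy0 : y ≠ 0 := by
      rintro rfl
      rw [norm_zero] at hy3
      linarith
    have h2 := hb3 i hi x hxi hx0
    have h3 := hb2 x hx y hy2 hx0 hy0
    rw [mem_ball, dist_comm, dist_eq_norm] at hy1
    have h4 : ‖x‖ * ‖β x - β y‖ ≤ Λ' * (c * ‖x‖ / (2 * M * Λ')) := by
      calc ‖x‖ * ‖β x - β y‖ ≤ Λ * ‖x - y‖ := h3
        _ ≤ Λ' * ‖x - y‖ := by gcongr
        _ ≤ Λ' * (c * ‖x‖ / (2 * M * Λ')) := by gcongr
    have h5 : ‖β x - β y‖ ≤ c / (2 * M) := by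
      have e : Λ' * (c * ‖x‖ / (2 * M * Λ')) = ‖x‖ * (c / (2 * M)) := by
        field_simp
      rw [e] at h4
      exact le_of_mul_le_mul_left h4 hxn
    have h6 : |(inner ℝ (L.nor i) (β x - β y) : ℝ)| ≤ c / 2 := by
      calc |(inner ℝ (L.nor i) (β x - β y) : ℝ)| ≤ M * ‖β x - β y‖ := abs_inner_le (hMi i hi)
        _ ≤ M * (c / (2 * M)) := by gcongr
        _ = c / 2 := by field_simp
    have h7 := (abs_le.1 h6).2
    rw [inner_sub_right] at h7
    linarith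
  refine ⟨{y | y ∈ L.cone ∧ ‖x‖ / 2 < ‖y‖ ∧ (∀ i ∈ L.S, y ∈ L.face i → x ∈ L.face i) ∧
    ∀ i ∈ L.S, x ∈ L.face i → c / 2 ≤ inner ℝ (L.nor i) (β y)}, ?_, ?_⟩
  · filter_upwards [hU1, hU2, hU3, hU4] with y h1 h2 h3 h4
    exact ⟨h1, h2, h3, h4⟩
  · -- the final estimate
    have hfin : ∀ y z : E3, y ∈ L.cone → z ∈ L.cone → ‖x‖ / 2 < ‖y‖ → ‖x‖ / 2 < ‖z‖ →
        ∀ t t' : ℝ, |t'| ≤ δ * ‖x‖ → y - t • β y = z - t' • β z → ∀ u v : E3,
        (inner ℝ u (y - z) : ℝ) ≤ 0 → 0 ≤ (inner ℝ v (y - z) : ℝ) → c / 2 ≤ inner ℝ u (β y) →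
        c / 2 ≤ inner ℝ v (β y) → ‖u‖ ≤ M → ‖v‖ ≤ M → y = z := by
      intro y z hy hz hyn hzn t t' ht' he u v hu0 hv0 hub hvb hu hv
      have hy0 : y ≠ 0 := by
        rintro rfl
        rw [norm_zero] at hyn
        linarith
      have hz0 : z ≠ 0 := by
        rintro rfl
        rw [norm_zero] at hzn
        linarith
      have hw : y - z = (t - t') • β y + t' • (β y - β z) := by
        have h1 : y = z - t' • β z + t • β y := by rw [← he]; abel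
        rw [sub_smul, smul_sub]
        nth_rewrite 1 [h1]
        abel
      have hk := key hw hu0 hv0 hub hvb hu hv
      have hb := (hb1 y hy hy0).trans hΛΛ
      have hd : ‖y‖ * ‖β y - β z‖ ≤ Λ' * ‖y - z‖ :=
        (hb2 y hy z hz hy0 hz0).trans (mul_le_mul_of_nonneg_right hΛΛ (norm_nonneg _))
      exact sub_eq_zero.1 (fin hc hM0.le hΛ0 hδ hw hk hb ht' (by linarith) hd)
    -- two neighbouring faces
    have hpair : ∀ y z : E3, y ∈ L.cone → z ∈ L.cone → ‖x‖ / 2 < ‖y‖ → ‖x‖ / 2 < ‖z‖ →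
        (∀ i ∈ L.S, x ∈ L.face i → c / 2 ≤ inner ℝ (L.nor i) (β y)) → ∀ i ∈ L.S,
        y ∈ L.face i → z ∈ L.face (L.s i) → x ∈ L.face i → x ∈ L.face (L.s i) →
        ∀ t t' : ℝ, |t'| ≤ δ * ‖x‖ → y - t • β y = z - t' • β z → y = z := by
      intro y z hy hz hyn hzn hyb i hi hyi hzi hxi hxi' t t' ht' he
      have hi' := hL.maps i hi
      have n1 : (inner ℝ (L.nor i) y : ℝ) = 0 := by
        obtain ⟨a, b, _, _, rfl⟩ := hyi
        unfold Pg.nor
        rw [inner_crs, det_self]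
      have n2 : (inner ℝ (L.nor (L.s i)) z : ℝ) = 0 := by
        obtain ⟨a, b, _, _, rfl⟩ := hzi
        unfold Pg.nor
        rw [inner_crs, det_self]
      have n3 : ∃ a : ℝ, 0 ≤ a ∧ (inner ℝ (L.nor (L.s i)) y : ℝ) = a * L.turn i := by
        obtain ⟨a, b, ha, _, rfl⟩ := hyi
        refine ⟨a, ha, ?_⟩
        unfold Pg.nor Pg.turn
        rw [inner_crs, det_last']
      have n4 : ∃ b : ℝ, 0 ≤ b ∧ (inner ℝ (L.nor i) z : ℝ) = b * L.turn i := by
        obtain ⟨a, b, _, hb, rfl⟩ := hzi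
        refine ⟨b, hb, ?_⟩
        unfold Pg.nor Pg.turn
        rw [inner_crs, det_last]
      obtain ⟨a, ha, n3⟩ := n3
      obtain ⟨b, hb, n4⟩ := n4
      rcases le_total 0 (L.turn i) with ht | ht
      · refine hfin y z hy hz hyn hzn t t' ht' he (L.nor i) (L.nor (L.s i)) ?_ ?_
          (hyb i hi hxi) (hyb _ hi' hxi') (hMi i hi) (hMi _ hi')
        · rw [inner_sub_right, n1, n4]
          have := mul_nonneg hb ht
          linarith
        · rw [inner_sub_right, n2, n3]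
          have := mul_nonneg ha ht
          linarith
      · refine hfin y z hy hz hyn hzn t t' ht' he (L.nor (L.s i)) (L.nor i) ?_ ?_
          (hyb _ hi' hxi') (hyb i hi hxi) (hMi _ hi') (hMi i hi)
        · rw [inner_sub_right, n2, n3]
          have := mul_nonpos_of_nonneg_of_nonpos ha ht
          linarith
        · rw [inner_sub_right, n1, n4]
          have := mul_nonpos_of_nonneg_of_nonpos hb ht
          linarith
    rintro y ⟨hy1, hy2, hy3, hy4⟩ z ⟨hz1, hz2, hz3, hz4⟩ t t' ht ht' he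
    obtain ⟨i, hi, hyi⟩ := id hy1
    obtain ⟨j, hj, hzj⟩ := id hz1
    have hxi := hy3 i hi hyi
    have hxj := hz3 j hj hzj
    by_cases hij : i = j
    · subst hij
      have n1 : (inner ℝ (L.nor i) y : ℝ) = 0 := by
        obtain ⟨a, b, _, _, rfl⟩ := hyi
        unfold Pg.nor
        rw [inner_crs, det_self]
      have n2 : (inner ℝ (L.nor i) z : ℝ) = 0 := by
        obtain ⟨a, b, _, _, rfl⟩ := hzj
        unfold Pg.nor
        rw [inner_crs, det_self]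
      refine hfin y z hy1 hz1 hy2 hz2 t t' ht' he (L.nor i) (L.nor i) ?_ ?_
        (hy4 i hi hxi) (hy4 i hi hxi) (hMi i hi) (hMi i hi)
      · rw [inner_sub_right, n1, n2, sub_zero]
      · rw [inner_sub_right, n1, n2, sub_zero]
    · rcases hL.simple i hi j hj hij x hxi hxj with ⟨h1, _⟩ | ⟨h1, _⟩ | h1
      · subst h1
        exact hpair y z hy1 hz1 hy2 hz2 hy4 i hi hyi hzj hxi hxj t t' ht' he
      · subst h1
        exact (hpair z y hz1 hy1 hz2 hy2 hz4 j hj hzj hyi hxj hxi t' t ht he.symm).symm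
      · exact absurd h1 hx0

end Pool.Agent.TSM
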