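import Pool.Agent.TSM.FINJ

/-!
# TSM, module CHG: chord conditions imply the general conditions
-/

set_option autoImplicit false

namespace Pool.Agent.TSM

open Set Filter Topology Metric

namespace CHG_

theorem minpos {ι : Type} [DecidableEq ι] (F : Finset ι) (f : ι → ℝ) :
    ∃ δ : ℝ, 0 < δ ∧ ∀ x ∈ F, f x ≠ 0 → δ ≤ |f x| := by
  induction F using Finset.induction_on with
  | empty => exact ⟨1, one_pos, fun x hx => absurd hx (Finset.notMem_empty x)⟩
  | insert a s ha ih =>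
    obtain ⟨δ, hδ, h⟩ := ih
    by_cases h0 : f a = 0
    · refine ⟨δ, hδ, fun x hx hx0 => ?_⟩
      rcases Finset.mem_insert.1 hx with rfl | hx
      · exact absurd h0 hx0
      · exact h x hx hx0
    · refine ⟨min δ |f a|, lt_min hδ (abs_pos.2 h0), fun x hx hx0 => ?_⟩
      rcases Finset.mem_insert.1 hx with rfl | hx
      · exact min_le_right _ _
      · exact (min_le_left _ _).trans (h x hx hx0)

theorem crs0 (a b : E3) : crs a b 0 = a 1 * b 2 - a 2 * b 1 := rfl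
theorem crs1 (a b : E3) : crs a b 1 = a 2 * b 0 - a 0 * b 2 := rfl
theorem crs2 (a b : E3) : crs a b 2 = a 0 * b 1 - a 1 * b 0 := rfl

/-- expansion in the dual basis -/
theorem dual_expand (p q r n : E3) : det3 p q r • n =
    (inner ℝ n p : ℝ) • crs q r + (inner ℝ n q : ℝ) • crs r p + (inner ℝ n r : ℝ) • crs p q := by
  ext i
  fin_cases i
  · simp only [PiLp.add_apply, PiLp.smul_apply, smul_eq_mul, Fin.zero_eta, crs0,
      FINJ_.inner3, det3]
    ring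
  · simp only [PiLp.add_apply, PiLp.smul_apply, smul_eq_mul, Fin.mk_one, crs1,
      FINJ_.inner3, det3]
    ring
  · simp only [PiLp.add_apply, PiLp.smul_apply, smul_eq_mul, Fin.reduceFinMk, crs2,
      FINJ_.inner3, det3]
    ring

end CHG_

open CHG_ in
theorem chg_proof : Stmt_Chg := by
  classical
  intro V _ L hL
  obtain ⟨δ, hδ, hδb⟩ := minpos (L.S ×ˢ L.S)
    (fun q : V × V => det3 (L.p (L.s q.1)) (L.p q.2) (L.p q.1))
  obtain ⟨t₀, ht₀, htb⟩ := minpos L.S L.turn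
  obtain ⟨P, hP0, hPi⟩ : ∃ P : ℝ, 0 ≤ P ∧ ∀ i ∈ L.S, ‖L.p i‖ ≤ P :=
    ⟨∑ i ∈ L.S, ‖L.p i‖, Finset.sum_nonneg fun i _ => norm_nonneg _, fun i hi =>
      Finset.single_le_sum (f := fun i => ‖L.p i‖) (fun j _ => norm_nonneg _) hi⟩
  obtain ⟨R, hR0, hRi⟩ : ∃ R : ℝ, 0 ≤ R ∧ ∀ i ∈ L.S, ∀ m ∈ L.S, ‖crs (L.p i) (L.p m)‖ ≤ R := by
    refine ⟨∑ i ∈ L.S, ∑ m ∈ L.S, ‖crs (L.p i) (L.p m)‖,
      Finset.sum_nonneg fun i _ => Finset.sum_nonneg fun _ _ => norm_nonneg _,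
      fun i hi m hm => ?_⟩
    have h1 : ‖crs (L.p i) (L.p m)‖ ≤ ∑ m ∈ L.S, ‖crs (L.p i) (L.p m)‖ :=
      Finset.single_le_sum (f := fun m => ‖crs (L.p i) (L.p m)‖) (fun j _ => norm_nonneg _) hm
    exact h1.trans (Finset.single_le_sum (f := fun i => ∑ m ∈ L.S, ‖crs (L.p i) (L.p m)‖)
      (fun j _ => Finset.sum_nonneg fun _ _ => norm_nonneg _) hi)
  obtain ⟨T, hT0, hTi⟩ : ∃ T : ℝ, 0 < T ∧ ∀ i ∈ L.S, |L.turn i| ≤ T := by
    have h0 : 0 ≤ ∑ i ∈ L.S, |L.turn i| := Finset.sum_nonneg fun i _ => abs_nonneg _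
    refine ⟨∑ i ∈ L.S, |L.turn i| + 1, by linarith, fun i hi => ?_⟩
    have := Finset.single_le_sum (f := fun i => |L.turn i|) (fun j _ => abs_nonneg _) hi
    linarith
  have hRP : 0 ≤ (R + 1) * P / t₀ := div_nonneg (mul_nonneg (by linarith) hP0) ht₀.le
  have hPR : 0 ≤ P * R / t₀ := div_nonneg (mul_nonneg hP0 hR0) ht₀.le
  have hTδ : 0 < 2 * T / δ := div_pos (by linarith) hδ
  obtain ⟨Q, hQ0, hQ1, hQ2, hQ3⟩ : ∃ Q : ℝ, 0 < Q ∧ 2 * ((R + 1) * P / t₀) ≤ Q ∧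
      P * R / t₀ ≤ Q ∧ 2 * T / δ ≤ Q :=
    ⟨2 * ((R + 1) * P / t₀) + P * R / t₀ + 2 * T / δ, by linarith, by linarith, by linarith,
      by linarith⟩
  have hP1 : 0 < 2 * (P + 1) := by linarith
  refine ⟨1 / Q, min 1 (δ / (2 * (P + 1))), one_div_pos.2 hQ0, lt_min one_pos (div_pos hδ hP1),
    fun ε hε hεε Ch N hC => ?_⟩
  have hε1 : ε < 1 := hεε.trans_le (min_le_left _ _)
  have hε2 : ε * P ≤ δ / 2 := by
    have h1 : ε ≤ δ / (2 * (P + 1)) := (hεε.trans_le (min_le_right _ _)).le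
    rw [le_div_iff₀ hP1] at h1
    linarith
  intro i hi
  obtain ⟨c1, c2, c3⟩ := hC i hi
  have hsi := hL.maps i hi
  have hssi := hL.maps _ hsi
  refine ⟨c1, fun n hn => ?_, c3⟩
  obtain ⟨m, hm, -, mi, ms, mss, hdet, g1, g2, g3, σ, hσ, hN⟩ := c2 n hn
  refine ⟨g1, g2, g3, ?_⟩
  have hturn : L.turn i ≠ 0 := by
    intro h0
    rw [c1 h0] at hn
    exact absurd hn (Finset.notMem_empty n)
  have htp : 0 < |L.turn i| := abs_pos.2 hturn
  have ht0i := htb i hi hturn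
  -- signs
  rw [inner_add_right, real_inner_smul_right] at g2 g3
  have hpos : 0 < (inner ℝ (N n) (L.p i) : ℝ) / L.turn i ∧
      0 < (inner ℝ (N n) (L.p (L.s (L.s i))) : ℝ) / L.turn i := by
    rcases lt_or_gt_of_ne hturn with h | h
    · rw [Real.sign_of_neg h] at g1 g2 g3
      have h1 : (inner ℝ (N n) (L.p i) : ℝ) < 0 := by
        by_contra hcon
        push Not at hcon
        nlinarith
      have h2 : (inner ℝ (N n) (L.p (L.s (L.s i))) : ℝ) < 0 := by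
        by_contra hcon
        push Not at hcon
        nlinarith
      exact ⟨div_pos_of_neg_of_neg h1 h, div_pos_of_neg_of_neg h2 h⟩
    · rw [Real.sign_of_pos h] at g1 g2 g3
      have h1 : 0 < (inner ℝ (N n) (L.p i) : ℝ) := by
        by_contra hcon
        push Not at hcon
        nlinarith
      have h2 : 0 < (inner ℝ (N n) (L.p (L.s (L.s i))) : ℝ) := by
        by_contra hcon
        push Not at hcon
        nlinarith
      exact ⟨div_pos h1 h, div_pos h2 h⟩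
  have hσn : |σ| = 1 := by
    rcases hσ with rfl | rfl
    · exact abs_one
    · rw [abs_neg, abs_one]
  -- inner products with `N n`
  have hsub : ∀ j ∈ L.S, |(inner ℝ (N n) (L.p j) : ℝ) -
      σ * det3 (L.p (L.s i)) (L.p m) (L.p j)| ≤ ε * P := by
    intro j hj
    have e : (inner ℝ (N n) (L.p j) : ℝ) - σ * det3 (L.p (L.s i)) (L.p m) (L.p j) =
        inner ℝ (N n - σ • crs (L.p (L.s i)) (L.p m)) (L.p j) := by
      rw [inner_sub_left, real_inner_smul_left, FINJ_.inner_crs]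
    rw [e]
    exact (abs_real_inner_le_norm _ _).trans (mul_le_mul hN (hPi j hj) (norm_nonneg _) hε.le)
  have hNn : ‖N n‖ ≤ R + 1 := by
    have h1 : ‖N n‖ ≤ ‖N n - σ • crs (L.p (L.s i)) (L.p m)‖ +
        ‖σ • crs (L.p (L.s i)) (L.p m)‖ := by
      have := norm_add_le (N n - σ • crs (L.p (L.s i)) (L.p m)) (σ • crs (L.p (L.s i)) (L.p m))
      rwa [sub_add_cancel] at this
    rw [norm_smul, Real.norm_eq_abs, hσn, one_mul] at h1
    have := hRi _ hsi m hm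
    linarith
  have habs : ∀ j ∈ L.S, |(inner ℝ (N n) (L.p j) : ℝ)| ≤ (R + 1) * P := fun j hj =>
    (abs_real_inner_le_norm _ _).trans (mul_le_mul hNn (hPi j hj) (norm_nonneg _) (by linarith))
  have hmid : |(inner ℝ (N n) (L.p (L.s i)) : ℝ)| ≤ ε * P := by
    have h1 := hsub (L.s i) hsi
    have h2 : det3 (L.p (L.s i)) (L.p m) (L.p (L.s i)) = 0 := by
      simp only [det3]
      ring
    rwa [h2, mul_zero, sub_zero] at h1
  have hlow : δ / 2 ≤ |(inner ℝ (N n) (L.p i) : ℝ)| := by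
    have h1 := hsub i hi
    have h2 : δ ≤ |det3 (L.p (L.s i)) (L.p m) (L.p i)| := by
      refine hδb (i, m) (Finset.mem_product.2 ⟨hi, hm⟩) ?_
      exact hdet i hi (FINJ_.succ_ne hL hi).symm mi.symm
    have h3 : |σ * det3 (L.p (L.s i)) (L.p m) (L.p i)| =
        |det3 (L.p (L.s i)) (L.p m) (L.p i)| := by
      rw [abs_mul, hσn, one_mul]
    have h4 : |σ * det3 (L.p (L.s i)) (L.p m) (L.p i)| ≤
        |(inner ℝ (N n) (L.p i) : ℝ)| + |(inner ℝ (N n) (L.p i) : ℝ) -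
          σ * det3 (L.p (L.s i)) (L.p m) (L.p i)| := by
      have := abs_sub_abs_le_abs_sub (σ * det3 (L.p (L.s i)) (L.p m) (L.p i))
        (inner ℝ (N n) (L.p i) : ℝ)
      rw [abs_sub_comm (σ * _)] at this
      linarith
    linarith
  obtain ⟨X, hX⟩ : ∃ X : ℝ, X = (inner ℝ (N n) (L.p (L.s (L.s i))) : ℝ) / L.turn i := ⟨_, rfl⟩
  obtain ⟨Y, hY⟩ : ∃ Y : ℝ, Y = (inner ℝ (N n) (L.p i) : ℝ) / L.turn i := ⟨_, rfl⟩
  rw [← hX, ← hY] at hpos
  have hXabs : X = |(inner ℝ (N n) (L.p (L.s (L.s i))) : ℝ)| / |L.turn i| := by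
    rw [← abs_div, ← hX, abs_of_pos hpos.2]
  have hYabs : Y = |(inner ℝ (N n) (L.p i) : ℝ)| / |L.turn i| := by
    rw [← abs_div, ← hY, abs_of_pos hpos.1]
  have hup : ∀ j ∈ L.S, |(inner ℝ (N n) (L.p j) : ℝ)| / |L.turn i| ≤ (R + 1) * P / t₀ :=
    fun j hj => div_le_div₀ (mul_nonneg (by linarith) hP0) (habs j hj) ht₀ ht0i
  have hX1 : X ≤ (R + 1) * P / t₀ := by
    rw [hXabs]
    exact hup _ hssi
  have hY1 : Y ≤ (R + 1) * P / t₀ := by
    rw [hYabs]
    exact hup _ hi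
  refine ⟨X, Y, hpos.2.le, hpos.1.le, ?_, ?_, ?_⟩
  · have h1 : δ / 2 / T ≤ Y := by
      rw [hYabs]
      exact div_le_div₀ (abs_nonneg _) hlow htp (hTi i hi)
    have h2 : 1 / Q ≤ δ / 2 / T := by
      rw [div_le_iff₀ hQ0]
      have h3 : δ / 2 / T * (2 * T / δ) = 1 := by field_simp
      have h4 : δ / 2 / T * (2 * T / δ) ≤ δ / 2 / T * Q :=
        mul_le_mul_of_nonneg_left hQ3 (div_nonneg (by linarith) hT0.le)
      linarith
    have h5 := hpos.2
    linarith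
  · rw [one_div_one_div]
    linarith
  · -- the distance
    have e1 : N n - (X • L.nor i + Y • L.nor (L.s i)) =
        ((inner ℝ (N n) (L.p (L.s i)) : ℝ) / L.turn i) • crs (L.p (L.s (L.s i))) (L.p i) := by
      have h1 := dual_expand (L.p i) (L.p (L.s i)) (L.p (L.s (L.s i))) (N n)
      have h2 : N n = (L.turn i)⁻¹ • (det3 (L.p i) (L.p (L.s i)) (L.p (L.s (L.s i))) • N n) := by
        rw [smul_smul]
        have : (L.turn i)⁻¹ * det3 (L.p i) (L.p (L.s i)) (L.p (L.s (L.s i))) = 1 :=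
          inv_mul_cancel₀ hturn
        rw [this, one_smul]
      rw [h1, smul_add, smul_add, smul_smul, smul_smul, smul_smul] at h2
      have h3 : L.nor i = crs (L.p i) (L.p (L.s i)) := rfl
      have h4 : L.nor (L.s i) = crs (L.p (L.s i)) (L.p (L.s (L.s i))) := rfl
      rw [hX, hY, h3, h4, div_eq_inv_mul, div_eq_inv_mul, div_eq_inv_mul]
      rw [sub_eq_iff_eq_add]
      refine h2.trans ?_
      abel
    rw [e1, norm_smul, Real.norm_eq_abs, abs_div, div_div_eq_mul_div, div_one]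
    have h5 : |(inner ℝ (N n) (L.p (L.s i)) : ℝ)| / |L.turn i| ≤ ε * P / t₀ :=
      div_le_div₀ (mul_nonneg hε.le hP0) hmid ht₀ ht0i
    have h6 := hRi _ hssi i hi
    calc _ ≤ (ε * P / t₀) * R := mul_le_mul h5 h6 (norm_nonneg _)
          (div_nonneg (mul_nonneg hε.le hP0) ht₀.le)
      _ = ε * (P * R / t₀) := by ring
      _ ≤ ε * Q := mul_le_mul_of_nonneg_left hQ2 hε.le

end Pool.Agent.TSM
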