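import Pool.Agent.TSM.VStmts

/-!
# TSM, module FTAU: the far map exists, is unique and continuous
-/

set_option autoImplicit false

namespace Pool.Agent.TSM

open Set Filter Topology Metric

namespace FTAU_

variable {V : Type} [DecidableEq V] {κ : Type}

/-! ### vectors -/

theorem inner_crs (a b c : E3) : (inner ℝ (crs a b) c : ℝ) = det3 a b c := by
  simp [crs, det3, PiLp.inner_apply, Fin.sum_univ_three]
  ring

theorem det3_comb (a b c d : E3) (x y : ℝ) :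
    det3 a b (x • c + y • d) = x * det3 a b c + y * det3 a b d := by
  simp [det3]; ring

theorem det3_comb' (a b c d : E3) (x y : ℝ) :
    det3 (x • a + y • b) c d = x * det3 a c d + y * det3 b c d := by
  simp [det3]; ring

theorem det3_cyc (a b c : E3) : det3 a b c = det3 b c a := by simp [det3]; ring

theorem det3_left (a b : E3) : det3 a b a = 0 := by simp [det3]; ring

theorem det3_right (a b : E3) : det3 a b b = 0 := by simp [det3]; ring

theorem det3_same (a b : E3) : det3 a a b = 0 := by simp [det3]; ring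

theorem ev_sub (Z : Aff) (x b : E3) (t : ℝ) :
    ev Z (x - t • b) = ev Z x - t * inner ℝ Z.1 b := by
  simp only [ev, inner_sub_right, inner_smul_right]; ring

/-! ### the arm solution -/

noncomputable def armT (T : Finset Aff) (hT : T.Nonempty) (σ : ℝ) (x b : E3) : ℝ :=
  σ * T.inf' hT (fun Z => σ * (ev Z x / inner ℝ Z.1 b))

theorem armT_iff (T : Finset Aff) (hT : T.Nonempty) (σ : ℝ) (hσ : σ = 1 ∨ σ = -1) (x b : E3)
    (hb : ∀ Z ∈ T, 0 < (inner ℝ Z.1 b : ℝ)) (t : ℝ) :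
    ((∀ Z ∈ T, 0 ≤ σ * ev Z (x - t • b)) ∧ ∃ Z ∈ T, ev Z (x - t • b) = 0) ↔
      t = armT T hT σ x b := by
  have hσ2 : σ * σ = 1 := by rcases hσ with h | h <;> rw [h] <;> norm_num
  have hσ0 : σ ≠ 0 := by rcases hσ with h | h <;> rw [h] <;> norm_num
  have key : ∀ Z ∈ T, ev Z (x - t • b) = inner ℝ Z.1 b * (ev Z x / inner ℝ Z.1 b - t) := by
    intro Z hZ
    have := (hb Z hZ).ne'
    rw [ev_sub]; field_simp
  constructor
  · rintro ⟨h1, Z, hZ, h2⟩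
    have e1 : σ * t ≤ T.inf' hT (fun Z => σ * (ev Z x / inner ℝ Z.1 b)) := by
      apply Finset.le_inf'
      intro W hW
      have h3 := h1 W hW
      rw [key W hW] at h3
      have h4 : 0 ≤ inner ℝ W.1 b * (σ * (ev W x / inner ℝ W.1 b) - σ * t) := by
        have : inner ℝ W.1 b * (σ * (ev W x / inner ℝ W.1 b) - σ * t) =
          σ * (inner ℝ W.1 b * (ev W x / inner ℝ W.1 b - t)) := by ring
        rw [this]; exact h3
      have h5 := nonneg_of_mul_nonneg_right h4 (hb W hW)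
      linarith
    have e2 : T.inf' hT (fun Z => σ * (ev Z x / inner ℝ Z.1 b)) ≤ σ * t := by
      have h3 : T.inf' hT (fun Z => σ * (ev Z x / inner ℝ Z.1 b)) ≤
          σ * (ev Z x / inner ℝ Z.1 b) := Finset.inf'_le _ hZ
      rw [key Z hZ] at h2
      rcases mul_eq_zero.1 h2 with h4 | h4
      · exact absurd h4 (hb Z hZ).ne'
      · have : ev Z x / inner ℝ Z.1 b = t := by linarith
        rw [this] at h3; exact h3
    have e3 := le_antisymm e1 e2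
    unfold armT
    rw [← e3, ← mul_assoc, hσ2, one_mul]
  · intro ht
    have e0 : σ * t = T.inf' hT (fun Z => σ * (ev Z x / inner ℝ Z.1 b)) := by
      rw [ht]; unfold armT; rw [← mul_assoc, hσ2, one_mul]
    constructor
    · intro Z hZ
      have h3 : T.inf' hT (fun Z => σ * (ev Z x / inner ℝ Z.1 b)) ≤
          σ * (ev Z x / inner ℝ Z.1 b) := Finset.inf'_le _ hZ
      rw [← e0] at h3
      rw [key Z hZ]
      have : σ * (inner ℝ Z.1 b * (ev Z x / inner ℝ Z.1 b - t)) =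
        inner ℝ Z.1 b * (σ * (ev Z x / inner ℝ Z.1 b) - σ * t) := by ring
      rw [this]
      exact mul_nonneg (hb Z hZ).le (by linarith)
    · obtain ⟨Z, hZ, h3⟩ := Finset.exists_mem_eq_inf' hT
        (fun Z => σ * (ev Z x / inner ℝ Z.1 b))
      refine ⟨Z, hZ, ?_⟩
      rw [key Z hZ]
      rw [← e0] at h3
      have : t = ev Z x / inner ℝ Z.1 b := mul_left_cancel₀ hσ0 h3
      rw [← this]; ring

theorem ev_continuous (Z : Aff) : Continuous (ev Z) := by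
  unfold ev; fun_prop

theorem armT_cont (T : Finset Aff) (hT : T.Nonempty) (σ : ℝ) (β : E3 → E3) (W : Set E3)
    (hβ : ContinuousOn β W) (hb : ∀ x ∈ W, ∀ Z ∈ T, 0 < (inner ℝ Z.1 (β x) : ℝ)) :
    ContinuousOn (fun x => armT T hT σ x (β x)) W := by
  unfold armT
  apply ContinuousOn.mul continuousOn_const
  apply ContinuousOn.finset_inf'_apply
  intro Z hZ
  apply ContinuousOn.mul continuousOn_const
  apply ContinuousOn.div
  · exact (ev_continuous Z).continuousOn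
  · exact ContinuousOn.inner continuousOn_const hβ
  · intro x hx
    exact (hb x hx Z hZ).ne'

/-! ### combinatorics of the polygon -/

variable {L : Pg V}

theorem iter_mem (h : L.Ok) {i : V} (hi : i ∈ L.S) (m : ℕ) : L.s^[m] i ∈ L.S := by
  induction m with
  | zero => exact hi
  | succ n ih => rw [Function.iterate_succ_apply']; exact h.maps _ ih

theorem exists_pred (h : L.Ok) {i : V} (hi : i ∈ L.S) : ∃ j ∈ L.S, L.s j = i := by
  obtain ⟨m, hm⟩ := h.trans (L.s i) (h.maps i hi) i hi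
  refine ⟨L.s^[m] i, iter_mem h hi m, ?_⟩
  have e : L.s (L.s^[m] i) = L.s^[m] (L.s i) := by
    rw [← Function.iterate_succ_apply' L.s m i, Function.iterate_succ_apply]
  rw [e]; exact hm

theorem card_le_of_closed (h : L.Ok) {i : V} (hi : i ∈ L.S) (T : Finset V) (hiT : i ∈ T)
    (hT : ∀ j ∈ T, L.s j ∈ T) : L.S.card ≤ T.card := by
  apply Finset.card_le_card
  intro j hj
  obtain ⟨m, hm⟩ := h.trans i hi j hj
  rw [← hm]
  clear hm
  induction m with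
  | zero => exact hiT
  | succ n ih => rw [Function.iterate_succ_apply']; exact hT _ ih

theorem s_ne (h : L.Ok) {i : V} (hi : i ∈ L.S) : L.s i ≠ i := by
  intro e
  have := card_le_of_closed h hi {i} (by simp) (by
    intro j hj; rw [Finset.mem_singleton] at hj; rw [hj, e]; simp)
  have h4 := h.card
  simp at this; omega

theorem ss_ne (h : L.Ok) {i : V} (hi : i ∈ L.S) : L.s (L.s i) ≠ i := by
  intro e
  have := card_le_of_closed h hi {i, L.s i} (by simp) (by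
    intro j hj
    simp only [Finset.mem_insert, Finset.mem_singleton] at hj
    rcases hj with rfl | rfl
    · simp
    · rw [e]; simp)
  have h4 := h.card
  have h5 : ({i, L.s i} : Finset V).card ≤ 2 := Finset.card_le_two
  omega

theorem sss_ne (h : L.Ok) {i : V} (hi : i ∈ L.S) : L.s (L.s (L.s i)) ≠ i := by
  intro e
  have := card_le_of_closed h hi {i, L.s i, L.s (L.s i)} (by simp) (by
    intro j hj
    simp only [Finset.mem_insert, Finset.mem_singleton] at hj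
    rcases hj with rfl | rfl | rfl
    · simp
    · simp
    · rw [e]; simp)
  have h4 := h.card
  have h5 : ({i, L.s i, L.s (L.s i)} : Finset V).card ≤ 3 := Finset.card_le_three
  omega

theorem exists_det (h : L.Ok) {i j : V} (hi : i ∈ L.S) (hj : j ∈ L.S) (hij : i ≠ j) :
    ∃ k ∈ L.S, det3 (L.p i) (L.p j) (L.p k) ≠ 0 := by
  by_contra hcon
  push Not at hcon
  have h4 := h.card
  have c1 : 2 ≤ ((L.S.erase i).erase j).card := by
    have e1 := Finset.card_erase_of_mem hi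
    have e2 := Finset.card_erase_of_mem (Finset.mem_erase.2 ⟨hij.symm, hj⟩)
    omega
  obtain ⟨k, hk, k', hk', hkk⟩ := Finset.one_lt_card.1 (by omega : 1 < ((L.S.erase i).erase j).card)
  simp only [Finset.mem_erase] at hk hk'
  have f1 : L.Flat i j k := by
    by_contra hf
    exact h.gen i hi j hj k hk.2.2 hij hk.2.1.symm hk.1.symm hf (hcon k hk.2.2)
  have f2 : L.Flat i j k' := by
    by_contra hf
    exact h.gen i hi j hj k' hk'.2.2 hij hk'.2.1.symm hk'.1.symm hf (hcon k' hk'.2.2)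
  obtain ⟨m, q, x1, q1, s1, t1⟩ := f1
  obtain ⟨m', q', x2, q2, s2, t2⟩ := f2
  have hm : m = m' := by
    have := x1.symm.trans x2
    exact Option.some.inj this
  subst hm
  have hq : q = q' := h.inj q q1 q' q2 (s1.trans s2.symm)
  subst hq
  have hset : ({i, j, k} : Finset V) = {i, j, k'} := t1.trans t2.symm
  have : k ∈ ({i, j, k'} : Finset V) := by rw [← hset]; simp
  simp only [Finset.mem_insert, Finset.mem_singleton] at this
  rcases this with e | e | e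
  · exact hk.2.1 e
  · exact hk.1 e
  · exact hkk e

theorem coord (h : L.Ok) {i : V} (hi : i ∈ L.S) {a b a' b' : ℝ}
    (e : a • L.p i + b • L.p (L.s i) = a' • L.p i + b' • L.p (L.s i)) : a = a' ∧ b = b' := by
  obtain ⟨k, hk, hd⟩ := exists_det h hi (h.maps i hi) (s_ne h hi).symm
  constructor
  · have e1 := det3_comb' (L.p i) (L.p (L.s i)) (L.p (L.s i)) (L.p k) a b
    have e2 := det3_comb' (L.p i) (L.p (L.s i)) (L.p (L.s i)) (L.p k) a' b'
    rw [e, e2, det3_same, mul_zero, mul_zero, add_zero, add_zero] at e1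
    exact (mul_right_cancel₀ hd e1).symm
  · have e1 := det3_comb' (L.p i) (L.p (L.s i)) (L.p k) (L.p i) a b
    have e2 := det3_comb' (L.p i) (L.p (L.s i)) (L.p k) (L.p i) a' b'
    have e3 : det3 (L.p (L.s i)) (L.p k) (L.p i) = det3 (L.p i) (L.p (L.s i)) (L.p k) :=
      (det3_cyc _ _ _).symm
    rw [e, e2, det3_left, mul_zero, mul_zero, zero_add, zero_add, e3] at e1
    exact (mul_right_cancel₀ hd e1).symm

theorem turn_zero (h : L.Ok) {i : V} (hi : i ∈ L.S) (ht : L.turn i = 0) :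
    L.X = some (L.s i) := by
  have h1 := s_ne h hi
  have h2 := ss_ne h hi
  have h3 := sss_ne h hi
  have hsi := h.maps i hi
  have hssi := h.maps _ hsi
  have h4 := s_ne h hsi
  have h5 := ss_ne h hsi
  have h6 := s_ne h hssi
  have f : L.Flat i (L.s i) (L.s (L.s i)) := by
    by_contra hf
    exact h.gen i hi _ hsi _ hssi h1.symm h2.symm h4.symm hf ht
  obtain ⟨m, q, x1, q1, s1, t1⟩ := f
  have hq : q ∈ ({i, L.s i, L.s (L.s i)} : Finset V) := by rw [t1]; simp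
  have hm : m ∈ ({i, L.s i, L.s (L.s i)} : Finset V) := by rw [t1]; simp
  have hsm : L.s m ∈ ({i, L.s i, L.s (L.s i)} : Finset V) := by rw [t1]; simp
  simp only [Finset.mem_insert, Finset.mem_singleton] at hq hm hsm
  rcases hq with e | e | e
  · rw [x1, ← s1, e]
  · exfalso
    subst e
    rw [← s1] at hsm
    rcases hsm with e | e | e
    · exact h3 e
    · exact h5 e
    · exact h6 e
  · exfalso
    subst e
    rw [← s1] at hm
    rcases hm with e | e | e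
    · exact h3 e
    · exact h5 e
    · exact h6 e

/-! ### zones -/

theorem arm_forms {ε : ℝ} {i : V} {x : E3} (hx : x ∈ L.armZone ε i) :
    ∃ a b : ℝ, 0 ≤ a ∧ 0 ≤ b ∧ a ≤ 2 * ε * b ∧
    (x = a • L.p i + b • L.p (L.s i) ∨ x = b • L.p (L.s i) + a • L.p (L.s (L.s i))) := by
  obtain ⟨a, b, ha, hb, hab, e | e⟩ := hx
  · exact ⟨a, b, ha, hb, hab, Or.inl e⟩
  · exact ⟨a, b, ha, hb, hab, Or.inr (by rw [e, add_comm])⟩

theorem arm_mem_cone (h : L.Ok) {ε : ℝ} {i : V} (hi : i ∈ L.S) {x : E3}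
    (hx : x ∈ L.armZone ε i) : x ∈ L.cone := by
  obtain ⟨a, b, ha, hb, hab, e | e⟩ := arm_forms hx
  · exact ⟨i, hi, a, b, ha, hb, e⟩
  · exact ⟨L.s i, h.maps i hi, b, a, hb, ha, e⟩

theorem face_mem {ε : ℝ} {i : V} {x : E3} (hx : x ∈ L.faceZone ε i) : x ∈ L.face i := by
  obtain ⟨a, b, ha, hb, _, _, e⟩ := hx
  exact ⟨a, b, ha, hb, e⟩

theorem cover (h : L.Ok) {ε : ℝ} (hε : 0 < ε) {x : E3} (hx : x ∈ L.cone) :
    (∃ i ∈ L.S, x ∈ L.faceZone ε i) ∨ ∃ i ∈ L.S, x ∈ L.armZone ε i := by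
  obtain ⟨i, hi, a, b, ha, hb, e⟩ := hx
  by_cases h1 : ε * b ≤ a
  · by_cases h2 : ε * a ≤ b
    · exact Or.inl ⟨i, hi, a, b, ha, hb, h1, h2, e⟩
    · right
      obtain ⟨j, hj, rfl⟩ := exists_pred h hi
      refine ⟨j, hj, b, a, hb, ha, ?_, Or.inr (by rw [e, add_comm])⟩
      push Not at h2
      nlinarith [mul_nonneg hε.le ha]
  · right
    refine ⟨i, hi, a, b, ha, hb, ?_, Or.inl e⟩
    push Not at h1
    nlinarith [mul_nonneg hε.le hb]

theorem face_face (h : L.Ok) {ε : ℝ} (hε : 0 < ε) {i j : V} (hi : i ∈ L.S) (hj : j ∈ L.S)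
    {x : E3} (hx : x ≠ 0) (h1 : x ∈ L.faceZone ε i) (h2 : x ∈ L.faceZone ε j) : i = j := by
  have aux : ∀ i ∈ L.S, x ∈ L.faceZone ε i → ∀ a : ℝ, 0 ≤ a → x = a • L.p (L.s i) → False := by
    intro i hi hxi a ha e
    obtain ⟨a', b', ha', hb', h3, h4, e'⟩ := hxi
    have e2 : a' • L.p i + b' • L.p (L.s i) = (0 : ℝ) • L.p i + a • L.p (L.s i) := by
      rw [← e', e, zero_smul, zero_add]
    obtain ⟨e3, e4⟩ := coord h hi e2
    rw [e3] at h3
    have : b' = 0 := by nlinarith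
    apply hx
    rw [e', e3, this, zero_smul, zero_smul, add_zero]
  by_contra hij
  rcases h.simple i hi j hj hij x (face_mem h1) (face_mem h2) with ⟨e, a, ha, e'⟩ | ⟨e, a, ha, e'⟩ | e
  · rw [e] at e'
    exact aux i hi h1 a ha e'
  · rw [e] at e'
    exact aux j hj h2 a ha e'
  · exact hx e

/-- a point of the first half of an arm zone is not on the arm `i` -/
theorem arm_aux₁ (h : L.Ok) {ε : ℝ} {i : V} (hi : i ∈ L.S) {x : E3} (hx : x ≠ 0)
    {a b : ℝ} (hb : 0 ≤ b) (ha : 0 ≤ a) (hab : a ≤ 2 * ε * b) (e : x = a • L.p i + b • L.p (L.s i))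
    {c : ℝ} (e' : x = c • L.p i) : False := by
  have e2 : a • L.p i + b • L.p (L.s i) = c • L.p i + (0 : ℝ) • L.p (L.s i) := by
    rw [← e, e', zero_smul, add_zero]
  obtain ⟨e3, e4⟩ := coord h hi e2
  rw [e4, mul_zero] at hab
  have : a = 0 := le_antisymm hab ha
  apply hx
  rw [e, this, e4, zero_smul, zero_smul, add_zero]

theorem arm_aux₂ (h : L.Ok) {ε : ℝ} {i : V} (hi : i ∈ L.S) {x : E3} (hx : x ≠ 0)
    {a b : ℝ} (hb : 0 ≤ b) (ha : 0 ≤ a) (hab : a ≤ 2 * ε * b)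
    (e : x = b • L.p (L.s i) + a • L.p (L.s (L.s i)))
    {c : ℝ} (e' : x = c • L.p (L.s (L.s i))) : False := by
  have e2 : b • L.p (L.s i) + a • L.p (L.s (L.s i)) =
      (0 : ℝ) • L.p (L.s i) + c • L.p (L.s (L.s i)) := by
    rw [← e, e', zero_smul, zero_add]
  obtain ⟨e3, e4⟩ := coord h (h.maps i hi) e2
  rw [e3, mul_zero] at hab
  have : a = 0 := le_antisymm hab ha
  apply hx
  rw [e, this, e3, zero_smul, zero_smul, add_zero]

theorem arm_face (h : L.Ok) {ε : ℝ} {i j : V} (hi : i ∈ L.S) (hj : j ∈ L.S)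
    {x : E3} (hx : x ≠ 0) (h1 : x ∈ L.armZone ε i) (h2 : x ∈ L.face j) : j = i ∨ j = L.s i := by
  obtain ⟨a, b, ha, hb, hab, e | e⟩ := arm_forms h1
  · by_contra hcon
    push Not at hcon
    rcases h.simple i hi j hj hcon.1.symm x ⟨a, b, ha, hb, e⟩ h2 with
      ⟨e1, _⟩ | ⟨_, c, hc, e'⟩ | e'
    · exact hcon.2 e1
    · exact arm_aux₁ h hi hx hb ha hab e e'
    · exact hx e'
  · by_contra hcon
    push Not at hcon
    rcases h.simple (L.s i) (h.maps i hi) j hj hcon.2.symm x ⟨b, a, hb, ha, e⟩ h2 with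
      ⟨e1, c, hc, e'⟩ | ⟨e1, c, hc, e'⟩ | e'
    · rw [e1] at e'
      exact arm_aux₂ h hi hx hb ha hab e e'
    · exact hcon.1 (h.inj j hj i hi e1.symm)
    · exact hx e'

theorem arm_arm (h : L.Ok) {ε : ℝ} (hε : 0 < ε) (hε' : ε < 1 / 4) {i j : V} (hi : i ∈ L.S)
    (hj : j ∈ L.S) {x : E3} (hx : x ≠ 0) (h1 : x ∈ L.armZone ε i) (h2 : x ∈ L.armZone ε j) :
    i = j := by
  by_contra hij
  -- `x` is on one of the faces of the second arm
  have key : ∀ i ∈ L.S, ∀ j ∈ L.S, i ≠ j → x ∈ L.armZone ε i → x ∈ L.armZone ε j →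
      j = L.s i → False := by
    intro i hi j hj hij h1 h2 hji
    subst hji
    obtain ⟨a, b, ha, hb, hab, e⟩ := arm_forms h1
    obtain ⟨a', b', ha', hb', hab', e'⟩ := arm_forms h2
    have hsi := h.maps i hi
    have hssi := h.maps _ hsi
    -- x on face `s i`
    have hf : ∃ u v : ℝ, 0 ≤ u ∧ 0 ≤ v ∧ v ≤ 2 * ε * u ∧
        x = u • L.p (L.s i) + v • L.p (L.s (L.s i)) := by
      rcases e with e | e
      · -- x on face i, so a = 0
        have hx2 : x ∈ L.face i := ⟨a, b, ha, hb, e⟩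
        rcases arm_face h hsi hi hx h2 hx2 with e1 | e1
        · exact absurd e1 (s_ne h hi).symm
        · exact absurd e1 (ss_ne h hi).symm
      · exact ⟨b, a, hb, ha, hab, e⟩
    obtain ⟨u, v, hu, hv, huv, e1⟩ := hf
    rcases e' with e' | e'
    · obtain ⟨e2, e3⟩ := coord h hsi (e1.symm.trans e')
      subst e2 e3
      have : u = 0 := by nlinarith
      have h0 : v = 0 := by rw [this] at huv; linarith
      apply hx
      rw [e1, this, h0, zero_smul, zero_smul, add_zero]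
    · have hx2 : x ∈ L.face (L.s (L.s i)) := ⟨b', a', hb', ha', e'⟩
      rcases arm_face h hi hssi hx h1 hx2 with e2 | e2
      · exact ss_ne h hi e2
      · exact s_ne h hsi e2
  obtain ⟨a, b, ha, hb, hab, e | e⟩ := arm_forms h1
  · have hx1 : x ∈ L.face i := ⟨a, b, ha, hb, e⟩
    rcases arm_face h hj hi hx h2 hx1 with e1 | e1
    · exact hij e1
    · exact key j hj i hi (Ne.symm hij) h2 h1 e1
  · have hx1 : x ∈ L.face (L.s i) := ⟨b, a, hb, ha, e⟩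
    rcases arm_face h hj (h.maps i hi) hx h2 hx1 with e1 | e1
    · exact key i hi j hj hij h1 h2 e1.symm
    · exact hij (h.inj i hi j hj e1)

/-! ### the zones are closed -/

theorem closed_img (u v : E3) (hinj : ∀ a b : ℝ, a • u + b • v = 0 → a = 0 ∧ b = 0)
    (T : Set (ℝ × ℝ)) (hT : IsClosed T) :
    IsClosed {x : E3 | ∃ a b : ℝ, (a, b) ∈ T ∧ x = a • u + b • v} := by
  let f : ℝ × ℝ →ₗ[ℝ] E3 :=
    (LinearMap.fst ℝ ℝ ℝ).smulRight u + (LinearMap.snd ℝ ℝ ℝ).smulRight v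
  have hf : ∀ q : ℝ × ℝ, f q = q.1 • u + q.2 • v := fun q => by simp [f]
  have hker : LinearMap.ker f = ⊥ := by
    rw [LinearMap.ker_eq_bot']
    intro q hq
    rw [hf] at hq
    obtain ⟨h1, h2⟩ := hinj _ _ hq
    exact Prod.ext h1 h2
  have hce : IsClosedEmbedding f := LinearMap.isClosedEmbedding_of_injective hker
  have : {x : E3 | ∃ a b : ℝ, (a, b) ∈ T ∧ x = a • u + b • v} = f '' T := by
    ext x
    constructor
    · rintro ⟨a, b, h1, h2⟩
      exact ⟨(a, b), h1, by rw [hf]; exact h2.symm⟩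
    · rintro ⟨⟨a, b⟩, h1, h2⟩
      refine ⟨a, b, h1, ?_⟩
      rw [← h2, hf]
  rw [this]
  exact hce.isClosedMap _ hT

theorem indep0 (h : L.Ok) {i : V} (hi : i ∈ L.S) (a b : ℝ)
    (e : a • L.p i + b • L.p (L.s i) = 0) : a = 0 ∧ b = 0 := by
  apply coord h hi
  rw [e, zero_smul, zero_smul, add_zero]

theorem faceZone_closed (h : L.Ok) {i : V} (hi : i ∈ L.S) (ε : ℝ) :
    IsClosed (L.faceZone ε i) := by
  have := closed_img (L.p i) (L.p (L.s i)) (indep0 h hi)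
    {q : ℝ × ℝ | 0 ≤ q.1 ∧ 0 ≤ q.2 ∧ ε * q.2 ≤ q.1 ∧ ε * q.1 ≤ q.2} (by
      apply IsClosed.and (isClosed_le (by fun_prop) (by fun_prop))
      apply IsClosed.and (isClosed_le (by fun_prop) (by fun_prop))
      apply IsClosed.and (isClosed_le (by fun_prop) (by fun_prop))
      exact isClosed_le (by fun_prop) (by fun_prop))
  have e : L.faceZone ε i = {x : E3 | ∃ a b : ℝ, (a, b) ∈
      {q : ℝ × ℝ | 0 ≤ q.1 ∧ 0 ≤ q.2 ∧ ε * q.2 ≤ q.1 ∧ ε * q.1 ≤ q.2} ∧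
      x = a • L.p i + b • L.p (L.s i)} := by
    ext x
    constructor
    · rintro ⟨a, b, h1, h2, h3, h4, h5⟩
      exact ⟨a, b, ⟨h1, h2, h3, h4⟩, h5⟩
    · rintro ⟨a, b, ⟨h1, h2, h3, h4⟩, h5⟩
      exact ⟨a, b, h1, h2, h3, h4, h5⟩
  rw [e]; exact this

theorem armZone_closed (h : L.Ok) {i : V} (hi : i ∈ L.S) (ε : ℝ) :
    IsClosed (L.armZone ε i) := by
  have c1 := closed_img (L.p i) (L.p (L.s i)) (indep0 h hi)
    {q : ℝ × ℝ | 0 ≤ q.1 ∧ 0 ≤ q.2 ∧ q.1 ≤ 2 * ε * q.2} (by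
      apply IsClosed.and (isClosed_le (by fun_prop) (by fun_prop))
      apply IsClosed.and (isClosed_le (by fun_prop) (by fun_prop))
      exact isClosed_le (by fun_prop) (by fun_prop))
  have c2 := closed_img (L.p (L.s i)) (L.p (L.s (L.s i))) (indep0 h (h.maps i hi))
    {q : ℝ × ℝ | 0 ≤ q.2 ∧ 0 ≤ q.1 ∧ q.2 ≤ 2 * ε * q.1} (by
      apply IsClosed.and (isClosed_le (by fun_prop) (by fun_prop))
      apply IsClosed.and (isClosed_le (by fun_prop) (by fun_prop))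
      exact isClosed_le (by fun_prop) (by fun_prop))
  have c3 := c1.union c2
  have e : L.armZone ε i = {x : E3 | ∃ a b : ℝ, (a, b) ∈
      {q : ℝ × ℝ | 0 ≤ q.1 ∧ 0 ≤ q.2 ∧ q.1 ≤ 2 * ε * q.2} ∧
      x = a • L.p i + b • L.p (L.s i)} ∪ {x : E3 | ∃ a b : ℝ, (a, b) ∈
      {q : ℝ × ℝ | 0 ≤ q.2 ∧ 0 ≤ q.1 ∧ q.2 ≤ 2 * ε * q.1} ∧
      x = a • L.p (L.s i) + b • L.p (L.s (L.s i))} := by
    ext x
    constructor
    · intro hx
      obtain ⟨a, b, h1, h2, h3, h4 | h4⟩ := arm_forms hx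
      · exact Or.inl ⟨a, b, ⟨h1, h2, h3⟩, h4⟩
      · exact Or.inr ⟨b, a, ⟨h1, h2, h3⟩, h4⟩
    · rintro (⟨a, b, ⟨h1, h2, h3⟩, h4⟩ | ⟨a, b, ⟨h1, h2, h3⟩, h4⟩)
      · exact ⟨a, b, h1, h2, h3, Or.inl h4⟩
      · exact ⟨b, a, h1, h2, h3, Or.inr (by rw [h4, add_comm])⟩
  rw [e]; exact c3

/-! ### corner polygons and constants -/

theorem crs_rel (P Q M : E3) (a b : ℝ) (ha : 0 < a) (e : a • P + b • Q + M = 0) :
    crs P M = (b / a) • crs M Q := by
  have hM : M = -(a • P) - b • Q := by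
    have := eq_neg_of_add_eq_zero_right e
    rw [this, neg_add']
  subst hM
  ext i
  fin_cases i <;> simp [crs] <;> field_simp <;> ring

theorem corner (h : L.Ok) {m : V} (hm : L.X = some m) : ∃ (q : V) (σ l : ℝ),
    q ∈ L.S ∧ L.s q = m ∧ m ∈ L.S ∧ (σ = 1 ∨ σ = -1) ∧ 0 < l ∧ L.nor q = l • L.nor m ∧
    (∀ j ∈ L.S, j ≠ q → j ≠ m → j ≠ L.s m → σ * (inner ℝ (L.nor m) (L.p j) : ℝ) < 0) ∧
    (inner ℝ (L.nor m) (L.p q) : ℝ) = 0 ∧ (inner ℝ (L.nor m) (L.p m) : ℝ) = 0 ∧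
    (inner ℝ (L.nor m) (L.p (L.s m)) : ℝ) = 0 := by
  rcases h.kind with ⟨h1, _⟩ | ⟨m', h1, h2⟩
  · rw [h1] at hm; exact absurd hm (by simp)
  · have : m' = m := Option.some.inj (h1.symm.trans hm)
    subst this
    obtain ⟨hmS, q, hq, hqm, ⟨a, b, ha, hb, e⟩, σ, hσ, hneg⟩ := h2
    have hrel : L.nor q = (b / a) • L.nor m' := by
      unfold Pg.nor
      rw [hqm]
      exact crs_rel _ _ _ a b ha e
    refine ⟨q, σ, b / a, hq, hqm, hmS, hσ, div_pos hb ha, hrel, hneg, ?_, ?_, ?_⟩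
    · have e1 : (inner ℝ (L.nor q) (L.p q) : ℝ) = 0 := by
        unfold Pg.nor; rw [inner_crs]; exact det3_left _ _
      rw [hrel, real_inner_smul_left] at e1
      rcases mul_eq_zero.1 e1 with h3 | h3
      · exact absurd h3 (div_pos hb ha).ne'
      · exact h3
    · unfold Pg.nor; rw [inner_crs]; exact det3_left _ _
    · unfold Pg.nor; rw [inner_crs]; exact det3_right _ _

theorem finite_low (S : Finset V) (Q : V → Prop) (f : V → ℝ) (hf : ∀ j ∈ S, Q j → 0 < f j) :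
    ∃ g : ℝ, 0 < g ∧ ∀ j ∈ S, Q j → g ≤ f j := by
  classical
  induction S using Finset.induction_on with
  | empty => exact ⟨1, one_pos, by simp⟩
  | insert a S _ ih =>
    obtain ⟨g, hg, h1⟩ := ih (fun j hj hq => hf j (Finset.mem_insert_of_mem hj) hq)
    by_cases ha : Q a
    · refine ⟨min g (f a), lt_min hg (hf a (Finset.mem_insert_self _ _) ha), ?_⟩
      intro j hj hq
      rcases Finset.mem_insert.1 hj with rfl | hj
      · exact min_le_right _ _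
      · exact (min_le_left _ _).trans (h1 j hj hq)
    · refine ⟨g, hg, ?_⟩
      intro j hj hq
      rcases Finset.mem_insert.1 hj with rfl | hj
      · exact absurd hq ha
      · exact h1 j hj hq

theorem finite_up (S : Finset V) (f : V → ℝ) (hf : ∀ j ∈ S, 0 ≤ f j) :
    ∀ j ∈ S, f j ≤ ∑ k ∈ S, f k := fun j hj => Finset.single_le_sum hf hj

theorem consts (h : L.Ok) : ∃ g P : ℝ, 0 < g ∧ 1 ≤ P ∧ (∀ j ∈ L.S, ‖L.p j‖ ≤ P) ∧
    (∀ j ∈ L.S, ‖L.nor j‖ ≤ P) ∧ ∀ m, L.X = some m → ∃ (q : V) (σ l : ℝ),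
    q ∈ L.S ∧ L.s q = m ∧ m ∈ L.S ∧ (σ = 1 ∨ σ = -1) ∧ 0 < l ∧ L.nor q = l • L.nor m ∧
    (∀ j ∈ L.S, j ≠ q → j ≠ m → j ≠ L.s m → σ * (inner ℝ (L.nor m) (L.p j) : ℝ) ≤ -g) ∧
    (∀ j ∈ L.S, σ * (inner ℝ (L.nor m) (L.p j) : ℝ) ≤ 0) := by
  have hP1 := finite_up L.S (fun j => ‖L.p j‖) (fun j _ => norm_nonneg _)
  have hP2 := finite_up L.S (fun j => ‖L.nor j‖) (fun j _ => norm_nonneg _)
  have s1 : 0 ≤ ∑ k ∈ L.S, ‖L.p k‖ := Finset.sum_nonneg (fun j _ => norm_nonneg _)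
  have s2 : 0 ≤ ∑ k ∈ L.S, ‖L.nor k‖ := Finset.sum_nonneg (fun j _ => norm_nonneg _)
  have hb1 : ∀ j ∈ L.S, ‖L.p j‖ ≤ 1 + (∑ k ∈ L.S, ‖L.p k‖) + ∑ k ∈ L.S, ‖L.nor k‖ := by
    intro j hj; have := hP1 j hj; linarith
  have hb2 : ∀ j ∈ L.S, ‖L.nor j‖ ≤ 1 + (∑ k ∈ L.S, ‖L.p k‖) + ∑ k ∈ L.S, ‖L.nor k‖ := by
    intro j hj; have := hP2 j hj; linarith
  cases hX : L.X with
  | none =>
    exact ⟨1, _, one_pos, by linarith, hb1, hb2, fun m hm => absurd hm (by simp)⟩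
  | some m =>
    obtain ⟨q, σ, l, hq, hqm, hm, hσ, hl, hnor, hneg, z1, z2, z3⟩ := corner h hX
    obtain ⟨g, hg, hlow⟩ := finite_low L.S (fun j => j ≠ q ∧ j ≠ m ∧ j ≠ L.s m)
      (fun j => -(σ * (inner ℝ (L.nor m) (L.p j) : ℝ)))
      (fun j hj hq => by have := hneg j hj hq.1 hq.2.1 hq.2.2; linarith)
    refine ⟨g, _, hg, ?_, hb1, hb2, ?_⟩
    · linarith
    · intro m' hm'
      have : m = m' := Option.some.inj hm'
      subst this
      refine ⟨q, σ, l, hq, hqm, hm, hσ, hl, hnor, ?_, ?_⟩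
      · intro j hj h1 h2 h3
        have := hlow j hj ⟨h1, h2, h3⟩
        linarith
      · intro j hj
        by_cases h1 : j = q
        · rw [h1, z1, mul_zero]
        · by_cases h2 : j = m
          · rw [h2, z2, mul_zero]
          · by_cases h3 : j = L.s m
            · rw [h3, z3, mul_zero]
            · exact (hneg j hj h1 h2 h3).le

/-- it is enough to know the half space condition for one sign -/
theorem half_of (h : L.Ok) {m q : V} {σ g : ℝ} (hg : 0 < g) (hq : L.s q = m)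
    (hm : m ∈ L.S) (hσ : σ = 1 ∨ σ = -1)
    (hneg : ∀ j ∈ L.S, j ≠ q → j ≠ m → j ≠ L.s m → σ * (inner ℝ (L.nor m) (L.p j) : ℝ) ≤ -g)
    {σ' : ℝ} (hσ' : ∀ i ∈ L.S, σ' * (inner ℝ (L.nor m) (L.p i) : ℝ) ≤ 0) {y : E3}
    (hy : σ * (inner ℝ (L.nor m) y : ℝ) ≤ 0) : σ' * (inner ℝ (L.nor m) y : ℝ) ≤ 0 := by
  have hsm := h.maps m hm
  have hssm := h.maps _ hsm
  have n1 : L.s (L.s m) ≠ q := by
    intro e
    have := sss_ne h hm
    rw [e, hq] at this
    exact this rfl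
  have e1 := hneg _ hssm n1 (ss_ne h hm) (s_ne h hsm)
  have e2 := hσ' _ hssm
  have hσ2 : σ * σ = 1 := by rcases hσ with h | h <;> rw [h] <;> norm_num
  have hpos : 0 ≤ σ * σ' := by
    by_contra hcon
    push Not at hcon
    have : σ' * (inner ℝ (L.nor m) (L.p (L.s (L.s m))) : ℝ) =
        (σ * σ') * (σ * (inner ℝ (L.nor m) (L.p (L.s (L.s m))) : ℝ)) := by
      linear_combination (-(σ' * (inner ℝ (L.nor m) (L.p (L.s (L.s m))) : ℝ))) * hσ2
    rw [this] at e2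
    nlinarith
  have : σ' * (inner ℝ (L.nor m) y : ℝ) = (σ * σ') * (σ * (inner ℝ (L.nor m) y : ℝ)) := by
    linear_combination (-(σ' * (inner ℝ (L.nor m) y : ℝ))) * hσ2
  rw [this]
  exact mul_nonpos_of_nonneg_of_nonpos hpos hy

/-! ### numerical estimates -/

theorem ev_near {Z : Aff} {Z0 x : E3} {η K : ℝ} (h1 : ‖Z.1 - Z0‖ < η) (h2 : |Z.2| ≤ K)
    (hK : K ≤ η * ‖x‖) : |ev Z x - inner ℝ Z0 x| ≤ 2 * η * ‖x‖ := by
  have e : ev Z x - inner ℝ Z0 x = inner ℝ (Z.1 - Z0) x - Z.2 := by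
    simp only [ev, inner_sub_left]; ring
  rw [e]
  have h3 := abs_real_inner_le_norm (Z.1 - Z0) x
  have h4 := abs_sub (inner ℝ (Z.1 - Z0) x) Z.2
  have h5 : ‖Z.1 - Z0‖ * ‖x‖ ≤ η * ‖x‖ := mul_le_mul_of_nonneg_right h1.le (norm_nonneg x)
  linarith

theorem inner_near {Z : Aff} {Z0 b : E3} {η M : ℝ} (h1 : ‖Z.1 - Z0‖ < η) (hb : ‖b‖ ≤ M) :
    (inner ℝ Z0 b : ℝ) - η * M ≤ inner ℝ Z.1 b := by
  have e : (inner ℝ Z.1 b : ℝ) = inner ℝ Z0 b + inner ℝ (Z.1 - Z0) b := by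
    rw [inner_sub_left]; ring
  have h3 := abs_real_inner_le_norm (Z.1 - Z0) b
  have h4 := neg_abs_le (inner ℝ (Z.1 - Z0) b : ℝ)
  have h5 : ‖Z.1 - Z0‖ * ‖b‖ ≤ η * M :=
    mul_le_mul h1.le hb (norm_nonneg _) ((norm_nonneg _).trans h1.le)
  rw [e]; linarith

theorem abs_t_inner {ν b : E3} {t θ P M X : ℝ} (hν : ‖ν‖ ≤ P) (hb : ‖b‖ ≤ M)
    (ht : |t| ≤ θ * X) : |t * inner ℝ ν b| ≤ θ * P * M * X := by
  rw [abs_mul]
  have h1 := abs_real_inner_le_norm ν b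
  have h2 : ‖ν‖ * ‖b‖ ≤ P * M := mul_le_mul hν hb (norm_nonneg _) ((norm_nonneg _).trans hν)
  have h3 : |t| * |(inner ℝ ν b : ℝ)| ≤ θ * X * (P * M) :=
    mul_le_mul ht (h1.trans h2) (abs_nonneg _) ((abs_nonneg _).trans ht)
  linarith

theorem margin {Z : Aff} {Z0 x b : E3} {σ t η K mm M P' c₁ : ℝ} (hσ : |σ| ≤ 1)
    (h1 : ‖Z.1 - Z0‖ < η) (h2 : |Z.2| ≤ K) (hK : K ≤ η * ‖x‖) (hZ : ‖Z.1‖ ≤ P') (hb : ‖b‖ ≤ M)
    (ht : |t| ≤ (2 * η / c₁) * ‖x‖) (hm : mm * ‖x‖ ≤ σ * inner ℝ Z0 x)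
    (hW : η * (2 + (2 / c₁) * P' * M) ≤ mm) : 0 ≤ σ * ev Z (x - t • b) := by
  have e : σ * ev Z (x - t • b) =
      σ * inner ℝ Z0 x + σ * (ev Z x - inner ℝ Z0 x) - σ * (t * inner ℝ Z.1 b) := by
    rw [ev_sub]; ring
  have a1 := ev_near (x := x) h1 h2 hK
  have a2 := abs_t_inner hZ hb ht
  have b1 : |σ * (ev Z x - inner ℝ Z0 x)| ≤ 2 * η * ‖x‖ := by
    rw [abs_mul]
    calc |σ| * |ev Z x - inner ℝ Z0 x| ≤ 1 * (2 * η * ‖x‖) :=
          mul_le_mul hσ a1 (abs_nonneg _) zero_le_one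
      _ = _ := one_mul _
  have b2 : |σ * (t * inner ℝ Z.1 b)| ≤ 2 * η / c₁ * P' * M * ‖x‖ := by
    rw [abs_mul]
    calc |σ| * |t * inner ℝ Z.1 b| ≤ 1 * (2 * η / c₁ * P' * M * ‖x‖) :=
          mul_le_mul hσ a2 (abs_nonneg _) zero_le_one
      _ = _ := one_mul _
  have b3 := neg_abs_le (σ * (ev Z x - inner ℝ Z0 x))
  have b4 := le_abs_self (σ * (t * inner ℝ Z.1 b))
  have b5 : η * (2 + (2 / c₁) * P' * M) * ‖x‖ ≤ mm * ‖x‖ :=
    mul_le_mul_of_nonneg_right hW (norm_nonneg x)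
  have b6 : η * (2 + (2 / c₁) * P' * M) * ‖x‖ = 2 * η * ‖x‖ + 2 * η / c₁ * P' * M * ‖x‖ := by
    ring
  rw [e]; linarith

theorem half_margin {ν x b : E3} {σ t m' θ P M : ℝ} (hσ : |σ| ≤ 1) (hν : ‖ν‖ ≤ P)
    (hb : ‖b‖ ≤ M) (ht : |t| ≤ θ * ‖x‖) (hm : σ * inner ℝ ν x ≤ -(m' * ‖x‖))
    (hθ : θ * P * M ≤ m') : σ * inner ℝ ν (x - t • b) ≤ 0 := by
  have e : σ * inner ℝ ν (x - t • b) = σ * inner ℝ ν x - σ * (t * inner ℝ ν b) := by
    rw [inner_sub_right, inner_smul_right]; ring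
  have a2 := abs_t_inner hν hb ht
  have b2 : |σ * (t * inner ℝ ν b)| ≤ θ * P * M * ‖x‖ := by
    rw [abs_mul]
    calc |σ| * |t * inner ℝ ν b| ≤ 1 * (θ * P * M * ‖x‖) :=
          mul_le_mul hσ a2 (abs_nonneg _) zero_le_one
      _ = _ := one_mul _
  have b3 := neg_abs_le (σ * (t * inner ℝ ν b))
  have b5 : θ * P * M * ‖x‖ ≤ m' * ‖x‖ := mul_le_mul_of_nonneg_right hθ (norm_nonneg x)
  rw [e]; linarith

theorem abs_sign (r : ℝ) : |Real.sign r| ≤ 1 := by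
  rcases lt_trichotomy r 0 with h | h | h
  · rw [Real.sign_of_neg h]; norm_num
  · rw [h, Real.sign_zero]; norm_num
  · rw [Real.sign_of_pos h]; norm_num

theorem face_norm {P a b : ℝ} {u v : E3} (hu : ‖u‖ ≤ P) (hv : ‖v‖ ≤ P) (ha : 0 ≤ a)
    (hb : 0 ≤ b) : ‖a • u + b • v‖ ≤ P * (a + b) := by
  have h1 := norm_add_le (a • u) (b • v)
  rw [norm_smul, norm_smul, Real.norm_of_nonneg ha, Real.norm_of_nonneg hb] at h1
  nlinarith [mul_le_mul_of_nonneg_left hu ha, mul_le_mul_of_nonneg_left hv hb]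

theorem half_face_low (h : L.Ok) {m q : V} {σ g P ε : ℝ} (hg : 0 < g) (hP : 1 ≤ P)
    (hp : ∀ j ∈ L.S, ‖L.p j‖ ≤ P) (hq : L.s q = m) (hm : m ∈ L.S)
    (hneg : ∀ j ∈ L.S, j ≠ q → j ≠ m → j ≠ L.s m → σ * (inner ℝ (L.nor m) (L.p j) : ℝ) ≤ -g)
    (hle : ∀ j ∈ L.S, σ * (inner ℝ (L.nor m) (L.p j) : ℝ) ≤ 0) (hε : 0 < ε) (hε' : ε < 1 / 4)
    {i : V} (hi : i ∈ L.S) (h1 : i ≠ q) (h2 : i ≠ m) {x : E3} (hx : x ∈ L.faceZone ε i) :
    σ * inner ℝ (L.nor m) x ≤ -(g * ε / (2 * P) * ‖x‖) := by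
  obtain ⟨a, b, ha, hb, hab, hba, e⟩ := hx
  have hsi := h.maps i hi
  have e1 : σ * inner ℝ (L.nor m) x = a * (σ * inner ℝ (L.nor m) (L.p i)) +
      b * (σ * inner ℝ (L.nor m) (L.p (L.s i))) := by
    rw [e, inner_add_right, inner_smul_right, inner_smul_right]; ring
  have e2 : ‖x‖ ≤ P * (a + b) := by rw [e]; exact face_norm (hp i hi) (hp _ hsi) ha hb
  have e3 : g * ε / (2 * P) * ‖x‖ ≤ g * ε / 2 * (a + b) := by
    have hpos : 0 ≤ g * ε / (2 * P) := by positivity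
    calc g * ε / (2 * P) * ‖x‖ ≤ g * ε / (2 * P) * (P * (a + b)) :=
          mul_le_mul_of_nonneg_left e2 hpos
      _ = g * ε / 2 * (a + b) := by field_simp
  have l1 := hle i hi
  have l2 := hle _ hsi
  by_cases h3 : i = L.s m
  · have n1 : L.s i ≠ q := by
      intro e4
      have := sss_ne h hm
      rw [← h3, e4, hq] at this
      exact this rfl
    have n2 : L.s i ≠ m := by rw [h3]; exact ss_ne h hm
    have n3 : L.s i ≠ L.s m := by
      intro e4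
      rw [h3] at e4
      exact s_ne h (h.maps m hm) e4
    have l3 := hneg _ hsi n1 n2 n3
    have k1 : a * (σ * inner ℝ (L.nor m) (L.p i)) ≤ 0 := mul_nonpos_of_nonneg_of_nonpos ha l1
    have k2 : b * (σ * inner ℝ (L.nor m) (L.p (L.s i))) ≤ b * (-g) :=
      mul_le_mul_of_nonneg_left l3 hb
    have k3 : ε * (a + b) ≤ 2 * b := by nlinarith
    have k4 : g * (ε * (a + b)) ≤ g * (2 * b) := mul_le_mul_of_nonneg_left k3 hg.le
    rw [e1]; linarith
  · have l3 := hneg i hi h1 h2 h3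
    have k1 : a * (σ * inner ℝ (L.nor m) (L.p i)) ≤ a * (-g) := mul_le_mul_of_nonneg_left l3 ha
    have k2 : b * (σ * inner ℝ (L.nor m) (L.p (L.s i))) ≤ 0 :=
      mul_nonpos_of_nonneg_of_nonpos hb l2
    have k3 : ε * (a + b) ≤ 2 * a := by nlinarith
    have k4 : g * (ε * (a + b)) ≤ g * (2 * a) := mul_le_mul_of_nonneg_left k3 hg.le
    rw [e1]; linarith

theorem half_arm_low (h : L.Ok) {m q : V} {σ g P ε : ℝ} (hg : 0 < g) (hP : 1 ≤ P)
    (hp : ∀ j ∈ L.S, ‖L.p j‖ ≤ P) (hqS : q ∈ L.S) (hq : L.s q = m) (hm : m ∈ L.S)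
    (hneg : ∀ j ∈ L.S, j ≠ q → j ≠ m → j ≠ L.s m → σ * (inner ℝ (L.nor m) (L.p j) : ℝ) ≤ -g)
    (hle : ∀ j ∈ L.S, σ * (inner ℝ (L.nor m) (L.p j) : ℝ) ≤ 0) (hε : 0 < ε) (hε' : ε < 1 / 4)
    {i : V} (hi : i ∈ L.S) (h1 : i ≠ q) (h2 : i ≠ m) (h3 : L.s i ≠ q) {x : E3}
    (hx : x ∈ L.armZone ε i) :
    σ * inner ℝ (L.nor m) x ≤ -(g / (2 * P) * ‖x‖) := by
  have hsi := h.maps i hi
  have hssi := h.maps _ hsi
  have n2 : L.s i ≠ m := fun e => h1 (h.inj i hi q hqS (e.trans hq.symm))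
  have n3 : L.s i ≠ L.s m := fun e => h2 (h.inj i hi m hm e)
  have l3 := hneg _ hsi h3 n2 n3
  obtain ⟨a, b, ha, hb, hab, e⟩ := hx
  obtain ⟨k, hk, e⟩ : ∃ k ∈ L.S, x = a • L.p k + b • L.p (L.s i) := by
    rcases e with e | e
    · exact ⟨i, hi, e⟩
    · exact ⟨_, hssi, e⟩
  have l1 := hle k hk
  have e1 : σ * inner ℝ (L.nor m) x = a * (σ * inner ℝ (L.nor m) (L.p k)) +
      b * (σ * inner ℝ (L.nor m) (L.p (L.s i))) := by
    rw [e, inner_add_right, inner_smul_right, inner_smul_right]; ring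
  have e2 : ‖x‖ ≤ P * (a + b) := by rw [e]; exact face_norm (hp k hk) (hp _ hsi) ha hb
  have e3 : g / (2 * P) * ‖x‖ ≤ g / 2 * (a + b) := by
    have hpos : 0 ≤ g / (2 * P) := by positivity
    calc g / (2 * P) * ‖x‖ ≤ g / (2 * P) * (P * (a + b)) :=
          mul_le_mul_of_nonneg_left e2 hpos
      _ = g / 2 * (a + b) := by field_simp
  have k1 : a * (σ * inner ℝ (L.nor m) (L.p k)) ≤ 0 := mul_nonpos_of_nonneg_of_nonpos ha l1
  have k2 : b * (σ * inner ℝ (L.nor m) (L.p (L.s i))) ≤ b * (-g) :=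
    mul_le_mul_of_nonneg_left l3 hb
  have k3 : a + b ≤ 2 * b := by nlinarith
  have k4 : g * (a + b) ≤ g * (2 * b) := mul_le_mul_of_nonneg_left k3 hg.le
  rw [e1]; linarith

/-! ### the list of planes as a finite set -/

open Classical in
noncomputable def lstF (L : Pg V) (Ch : V → Finset κ) (A : V → Aff) (B : κ → Aff) (i : V) :
    Finset Aff :=
  insert (A i) (insert (A (L.s i)) ((Ch (L.s i)).image B))

theorem mem_lstF {Ch : V → Finset κ} {A : V → Aff} {B : κ → Aff} {i : V} {Z : Aff} :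
    Z ∈ lstF L Ch A B i ↔ Z ∈ L.lst Ch A B i := by
  simp [lstF, Pg.lst, eq_comm]

theorem lstF_ne (Ch : V → Finset κ) (A : V → Aff) (B : κ → Aff) (i : V) :
    (lstF L Ch A B i).Nonempty := ⟨A i, mem_lstF.2 (Or.inl rfl)⟩

noncomputable def armS (L : Pg V) (Ch : V → Finset κ) (A : V → Aff) (B : κ → Aff) (i : V)
    (x b : E3) : ℝ :=
  if L.turn i = 0 then 0 else armT (lstF L Ch A B i) (lstF_ne Ch A B i) (Real.sign (L.turn i)) x b

theorem arm_iff {Ch : V → Finset κ} {A : V → Aff} {B : κ → Aff} {i : V} {x b : E3}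
    (hpos : ∀ Z ∈ L.lst Ch A B i, 0 < (inner ℝ Z.1 b : ℝ))
    (h0 : L.turn i = 0 → Ch (L.s i) = ∅ ∧ ev (A i) x = 0 ∧ ev (A (L.s i)) x = 0) (t : ℝ) :
    L.ArmEq Ch A B i (x - t • b) ↔ t = armS L Ch A B i x b := by
  unfold armS
  split_ifs with ht
  · obtain ⟨e1, e2, e3⟩ := h0 ht
    have p1 := hpos (A i) (Or.inl rfl)
    have p2 := hpos (A (L.s i)) (Or.inr (Or.inl rfl))
    constructor
    · rintro ⟨_, Z, hZ, hz⟩
      rw [ev_sub] at hz
      rcases hZ with rfl | rfl | ⟨n, hn, rfl⟩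
      · rw [e2, zero_sub, neg_eq_zero] at hz
        exact (mul_eq_zero.1 hz).resolve_right p1.ne'
      · rw [e3, zero_sub, neg_eq_zero] at hz
        exact (mul_eq_zero.1 hz).resolve_right p2.ne'
      · rw [e1] at hn; exact absurd hn (Finset.notMem_empty _)
    · rintro rfl
      refine ⟨?_, A i, Or.inl rfl, ?_⟩
      · intro Z _
        rw [ht, Real.sign_zero, zero_mul]
      · rw [zero_smul, sub_zero]; exact e2
  · have hσ : Real.sign (L.turn i) = 1 ∨ Real.sign (L.turn i) = -1 :=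
      (Real.sign_apply_eq_of_ne_zero _ ht).symm
    rw [← armT_iff (lstF L Ch A B i) (lstF_ne Ch A B i) (Real.sign (L.turn i)) hσ x b
      (fun Z hZ => hpos Z (mem_lstF.1 hZ)) t]
    unfold Pg.ArmEq
    simp only [mem_lstF]

theorem armS_cont {Ch : V → Finset κ} {A : V → Aff} {B : κ → Aff} {i : V} {β : E3 → E3}
    {W : Set E3} (hβ : ContinuousOn β W)
    (hpos : ∀ x ∈ W, ∀ Z ∈ L.lst Ch A B i, 0 < (inner ℝ Z.1 (β x) : ℝ)) :
    ContinuousOn (fun x => armS L Ch A B i x (β x)) W := by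
  unfold armS
  split_ifs with ht
  · exact continuousOn_const
  · exact armT_cont _ _ _ _ _ hβ (fun x hx Z hZ => hpos x hx Z (mem_lstF.1 hZ))

theorem lst_near {Ch : V → Finset κ} {N : κ → E3} {K η : ℝ} {A : V → Aff} {B : κ → Aff}
    (hN : L.NearK Ch N K η A B) {i : V} (hi : i ∈ L.S) (hsi : L.s i ∈ L.S) {Z : Aff}
    (hZ : Z ∈ L.lst Ch A B i) : ∃ Z0 : E3, ‖Z.1 - Z0‖ < η ∧ |Z.2| ≤ K ∧
      ((Z = A i ∧ Z0 = L.nor i) ∨ (Z = A (L.s i) ∧ Z0 = L.nor (L.s i)) ∨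
        ∃ n ∈ Ch (L.s i), Z = B n ∧ Z0 = N n) := by
  rcases hZ with rfl | rfl | ⟨n, hn, rfl⟩
  · exact ⟨L.nor i, (hN.1 i hi).1, (hN.1 i hi).2, Or.inl ⟨rfl, rfl⟩⟩
  · exact ⟨L.nor (L.s i), (hN.1 _ hsi).1, (hN.1 _ hsi).2, Or.inr (Or.inl ⟨rfl, rfl⟩)⟩
  · exact ⟨N n, (hN.2.1 _ hsi n hn).1, (hN.2.1 _ hsi n hn).2, Or.inr (Or.inr ⟨n, hn, rfl, rfl⟩)⟩

/-! ### the main argument -/

theorem core (h : L.Ok) {Λ ε C₁ g P mm η K R c₁ M : ℝ} {Ch : V → Finset κ} {N : κ → E3}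
    {A : V → Aff} {B : κ → Aff} {β : E3 → E3}
    (hε : 0 < ε) (hε' : ε < 1 / 4) (hc₁ : 0 < c₁) (hM : 0 < M)
    (hMb : ∀ x ∈ L.cone, x ≠ 0 → ‖β x‖ ≤ M)
    (hlip : ∀ x ∈ L.cone, ∀ y ∈ L.cone, x ≠ 0 → y ≠ 0 → ‖x‖ * ‖β x - β y‖ ≤ Λ * ‖x - y‖)
    (hC₁ : 0 < C₁)
    (HP : ∀ i ∈ L.S, ∀ x ∈ L.armZone ε i, x ≠ 0 →
      2 * c₁ ≤ inner ℝ (L.nor i) (β x) ∧ 2 * c₁ ≤ inner ℝ (L.nor (L.s i)) (β x) ∧
      ∀ n ∈ Ch (L.s i), 2 * c₁ ≤ inner ℝ (N n) (β x))
    (HF : ∀ i ∈ L.S, ∀ x ∈ L.face i, x ≠ 0 → 2 * c₁ ≤ inner ℝ (L.nor i) (β x))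
    (HM : ∀ i ∈ L.S, L.turn i ≠ 0 → ∀ a b : ℝ, 0 ≤ a → 0 ≤ b → ε * b ≤ a →
      (∀ x : E3, x = a • L.p i + b • L.p (L.s i) →
        mm * ‖x‖ ≤ Real.sign (L.turn i) * inner ℝ (L.nor (L.s i)) x ∧
        ∀ n ∈ Ch (L.s i), mm * ‖x‖ ≤ Real.sign (L.turn i) * inner ℝ (N n) x) ∧
      (∀ x : E3, x = a • L.p (L.s (L.s i)) + b • L.p (L.s i) →
        mm * ‖x‖ ≤ Real.sign (L.turn i) * inner ℝ (L.nor i) x ∧
        ∀ n ∈ Ch (L.s i), mm * ‖x‖ ≤ Real.sign (L.turn i) * inner ℝ (N n) x))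
    (HD : ∀ i ∈ L.S, ∀ x ∈ L.armZone ε i,
      |(inner ℝ (L.nor i) x : ℝ)| ≤ C₁ * ε * ‖x‖ ∧
      |(inner ℝ (L.nor (L.s i)) x : ℝ)| ≤ C₁ * ε * ‖x‖ ∧
      ∀ n ∈ Ch (L.s i), |(inner ℝ (N n) x : ℝ)| ≤ C₁ * ε * ‖x‖ ∧ ‖N n‖ ≤ C₁)
    (hflat : ∀ i ∈ L.S, L.turn i = 0 → Ch (L.s i) = ∅)
    (hN : L.NearK Ch N K η A B)
    (hg : 0 < g) (hP : 1 ≤ P) (hp : ∀ j ∈ L.S, ‖L.p j‖ ≤ P) (hnor : ∀ j ∈ L.S, ‖L.nor j‖ ≤ P)
    (hcor : ∀ m, L.X = some m → ∃ (q : V) (σ l : ℝ),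
      q ∈ L.S ∧ L.s q = m ∧ m ∈ L.S ∧ (σ = 1 ∨ σ = -1) ∧ 0 < l ∧ L.nor q = l • L.nor m ∧
      (∀ j ∈ L.S, j ≠ q → j ≠ m → j ≠ L.s m → σ * (inner ℝ (L.nor m) (L.p j) : ℝ) ≤ -g) ∧
      (∀ j ∈ L.S, σ * (inner ℝ (L.nor m) (L.p j) : ℝ) ≤ 0))
    (hη : 0 < η) (hηε : η ≤ ε) (hη1 : η * M ≤ c₁)
    (hη2 : η * (2 + (2 / c₁) * (P + C₁ + 1) * M) ≤ mm)
    (hη3 : (2 * η / c₁) * P * M ≤ g * ε / (2 * P))
    (hε3 : ((C₁ + 2) / c₁ * ε) * P * M ≤ g / (2 * P))
    (hR : 0 < R) (hKR : K ≤ η * R) :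
    ∃ τ : E3 → ℝ, L.FarOK Ch A B ε ((C₁ + 2) / c₁) R β τ := by
  have hx0 : ∀ x : E3, R ≤ ‖x‖ → x ≠ 0 := by
    intro x hx e
    rw [e, norm_zero] at hx
    linarith
  have hKx : ∀ x : E3, R ≤ ‖x‖ → K ≤ η * ‖x‖ := fun x hx =>
    hKR.trans (mul_le_mul_of_nonneg_left hx hη.le)
  have armpos : ∀ i ∈ L.S, ∀ x ∈ L.armZone ε i, x ≠ 0 → ∀ Z ∈ L.lst Ch A B i,
      c₁ ≤ inner ℝ Z.1 (β x) := by
    intro i hi x hx hx0 Z hZ
    obtain ⟨Z0, z1, z2, z3⟩ := lst_near hN hi (h.maps i hi) hZ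
    have hb := hMb x (arm_mem_cone h hi hx) hx0
    have e1 := inner_near z1 hb
    obtain ⟨p1, p2, p3⟩ := HP i hi x hx hx0
    have e2 : 2 * c₁ ≤ inner ℝ Z0 (β x) := by
      rcases z3 with ⟨_, rfl⟩ | ⟨_, rfl⟩ | ⟨n, hn, _, rfl⟩
      · exact p1
      · exact p2
      · exact p3 n hn
    linarith
  have facepos : ∀ i ∈ L.S, ∀ x ∈ L.face i, x ≠ 0 → c₁ ≤ inner ℝ (A i).1 (β x) := by
    intro i hi x hx hx0
    have e1 := inner_near (hN.1 i hi).1 (hMb x ⟨i, hi, hx⟩ hx0)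
    have e2 := HF i hi x hx hx0
    linarith
  have armdep : ∀ i ∈ L.S, ∀ x ∈ L.armZone ε i, R ≤ ‖x‖ → ∀ Z ∈ L.lst Ch A B i,
      |ev Z x| ≤ (C₁ + 2) * ε * ‖x‖ := by
    intro i hi x hx hxR Z hZ
    obtain ⟨Z0, z1, z2, z3⟩ := lst_near hN hi (h.maps i hi) hZ
    have e1 := ev_near z1 z2 (hKx x hxR)
    obtain ⟨p1, p2, p3⟩ := HD i hi x hx
    have e2 : |(inner ℝ Z0 x : ℝ)| ≤ C₁ * ε * ‖x‖ := by
      rcases z3 with ⟨_, rfl⟩ | ⟨_, rfl⟩ | ⟨n, hn, _, rfl⟩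
      · exact p1
      · exact p2
      · exact (p3 n hn).1
    have e3 : |ev Z x| ≤ |ev Z x - inner ℝ Z0 x| + |(inner ℝ Z0 x : ℝ)| := by
      have := abs_add_le (ev Z x - inner ℝ Z0 x) (inner ℝ Z0 x)
      rwa [sub_add_cancel] at this
    have e4 : η * ‖x‖ ≤ ε * ‖x‖ := mul_le_mul_of_nonneg_right hηε (norm_nonneg x)
    linarith
  have facedep : ∀ i ∈ L.S, ∀ x ∈ L.face i, R ≤ ‖x‖ → |ev (A i) x| ≤ 2 * η * ‖x‖ := by
    intro i hi x hx hxR
    have e1 := ev_near (hN.1 i hi).1 (hN.1 i hi).2 (hKx x hxR)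
    obtain ⟨a, b, ha, hb, e⟩ := hx
    have e2 : (inner ℝ (L.nor i) x : ℝ) = 0 := by
      unfold Pg.nor
      rw [inner_crs, e, det3_comb, det3_left, det3_right]; ring
    rwa [e2, sub_zero] at e1
  have exact0 : ∀ i ∈ L.S, ∀ x ∈ L.armZone ε i, L.turn i = 0 →
      Ch (L.s i) = ∅ ∧ ev (A i) x = 0 ∧ ev (A (L.s i)) x = 0 := by
    intro i hi x hx ht
    have hX := turn_zero h hi ht
    obtain ⟨e1, e2⟩ := hN.2.2 _ hX
    have e3 := e2 i hi rfl
    have t1 : det3 (L.p i) (L.p (L.s i)) (L.p (L.s (L.s i))) = 0 := ht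
    have t2 : det3 (L.p (L.s i)) (L.p (L.s (L.s i))) (L.p i) = 0 := by
      rw [← det3_cyc]; exact ht
    have i1 : (inner ℝ (L.nor i) x : ℝ) = 0 := by
      unfold Pg.nor
      obtain ⟨a, b, ha, hb, hab, e | e⟩ := hx
      · rw [inner_crs, e, det3_comb, det3_left, det3_right]; ring
      · rw [inner_crs, e, det3_comb, t1, det3_right]; ring
    have i2 : (inner ℝ (L.nor (L.s i)) x : ℝ) = 0 := by
      unfold Pg.nor
      obtain ⟨a, b, ha, hb, hab, e | e⟩ := hx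
      · rw [inner_crs, e, det3_comb, t2, det3_left]; ring
      · rw [inner_crs, e, det3_comb, det3_left, det3_right]; ring
    refine ⟨hflat i hi ht, ?_, ?_⟩
    · rw [e3]; simp only [ev, i1, sub_zero]
    · rw [e1]; simp only [ev, i2, sub_zero]
  have armiff : ∀ i ∈ L.S, ∀ x ∈ L.armZone ε i, R ≤ ‖x‖ → ∀ t : ℝ,
      L.ArmEq Ch A B i (x - t • β x) ↔ t = armS L Ch A B i x (β x) := by
    intro i hi x hx hxR t
    exact arm_iff (fun Z hZ => hc₁.trans_le (armpos i hi x hx (hx0 x hxR) Z hZ))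
      (exact0 i hi x hx) t
  have faceiff : ∀ i ∈ L.S, ∀ x ∈ L.face i, R ≤ ‖x‖ → ∀ t : ℝ,
      ev (A i) (x - t • β x) = 0 ↔ t = ev (A i) x / inner ℝ (A i).1 (β x) := by
    intro i hi x hx hxR t
    have hp := (hc₁.trans_le (facepos i hi x hx (hx0 x hxR))).ne'
    rw [ev_sub, sub_eq_zero, eq_div_iff hp]
    exact eq_comm
  have armbd : ∀ i ∈ L.S, ∀ x ∈ L.armZone ε i, R ≤ ‖x‖ → ∀ t : ℝ,
      L.ArmEq Ch A B i (x - t • β x) → |t| ≤ (C₁ + 2) / c₁ * ε * ‖x‖ := by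
    intro i hi x hx hxR t ⟨_, Z, hZ, hz⟩
    have p1 := armpos i hi x hx (hx0 x hxR) Z hZ
    have d1 := armdep i hi x hx hxR Z hZ
    rw [ev_sub, sub_eq_zero] at hz
    rw [hz, abs_mul, abs_of_pos (hc₁.trans_le p1)] at d1
    have e1 : |t| * c₁ ≤ (C₁ + 2) * ε * ‖x‖ :=
      (mul_le_mul_of_nonneg_left p1 (abs_nonneg t)).trans d1
    have e2 : (C₁ + 2) / c₁ * ε * ‖x‖ = ((C₁ + 2) * ε * ‖x‖) / c₁ := by ring
    rw [e2, le_div_iff₀ hc₁]; exact e1
  have facebd : ∀ i ∈ L.S, ∀ x ∈ L.face i, R ≤ ‖x‖ → ∀ t : ℝ,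
      ev (A i) (x - t • β x) = 0 → |t| ≤ 2 * η / c₁ * ‖x‖ := by
    intro i hi x hx hxR t hz
    have p1 := facepos i hi x hx (hx0 x hxR)
    have d1 := facedep i hi x hx hxR
    rw [ev_sub, sub_eq_zero] at hz
    rw [hz, abs_mul, abs_of_pos (hc₁.trans_le p1)] at d1
    have e1 : |t| * c₁ ≤ 2 * η * ‖x‖ :=
      (mul_le_mul_of_nonneg_left p1 (abs_nonneg t)).trans d1
    have e2 : 2 * η / c₁ * ‖x‖ = (2 * η * ‖x‖) / c₁ := by ring
    rw [e2, le_div_iff₀ hc₁]; exact e1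
  have lstnorm : ∀ i ∈ L.S, ∀ Z ∈ L.lst Ch A B i, ‖Z.1‖ ≤ P + C₁ + 1 := by
    intro i hi Z hZ
    have hsi := h.maps i hi
    obtain ⟨Z0, z1, z2, z3⟩ := lst_near hN hi hsi hZ
    have e1 : ‖Z.1‖ ≤ ‖Z.1 - Z0‖ + ‖Z0‖ := by
      have := norm_add_le (Z.1 - Z0) Z0
      rwa [sub_add_cancel] at this
    have hpz : L.p (L.s i) ∈ L.armZone ε i :=
      ⟨0, 1, le_rfl, zero_le_one, by linarith, Or.inl (by rw [zero_smul, one_smul, zero_add])⟩
    have e2 : ‖Z0‖ ≤ P + C₁ := by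
      rcases z3 with ⟨_, rfl⟩ | ⟨_, rfl⟩ | ⟨n, hn, _, rfl⟩
      · have := hnor i hi; linarith
      · have := hnor _ hsi; linarith
      · have := ((HD i hi _ hpz).2.2 n hn).2; linarith
    linarith
  have far5 : ∀ i ∈ L.S, L.turn i ≠ 0 → ∀ x ∈ L.faceZone ε i, R ≤ ‖x‖ → ∀ t : ℝ,
      ev (A i) (x - t • β x) = 0 → L.ArmEq Ch A B i (x - t • β x) := by
    intro i hi ht x hx hxR t hz
    refine ⟨?_, A i, Or.inl rfl, hz⟩
    intro Z hZ
    obtain ⟨Z0, z1, z2, z3⟩ := lst_near hN hi (h.maps i hi) hZ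
    have hb := hMb x ⟨i, hi, face_mem hx⟩ (hx0 x hxR)
    have hbd := facebd i hi x (face_mem hx) hxR t hz
    have hnZ := lstnorm i hi Z hZ
    obtain ⟨a, b, ha, hb', hab, hba, e⟩ := hx
    obtain ⟨m1, m2⟩ := (HM i hi ht a b ha hb' hab).1 x e
    rcases z3 with ⟨rfl, _⟩ | ⟨_, rfl⟩ | ⟨n, hn, _, rfl⟩
    · rw [hz, mul_zero]
    · exact margin (abs_sign _) z1 z2 (hKx x hxR) hnZ hb hbd m1 hη2
    · exact margin (abs_sign _) z1 z2 (hKx x hxR) hnZ hb hbd (m2 n hn) hη2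
  have far6 : ∀ i ∈ L.S, L.turn i ≠ 0 → ∀ x ∈ L.faceZone ε (L.s i), R ≤ ‖x‖ → ∀ t : ℝ,
      ev (A (L.s i)) (x - t • β x) = 0 → L.ArmEq Ch A B i (x - t • β x) := by
    intro i hi ht x hx hxR t hz
    refine ⟨?_, A (L.s i), Or.inr (Or.inl rfl), hz⟩
    intro Z hZ
    have hsi := h.maps i hi
    obtain ⟨Z0, z1, z2, z3⟩ := lst_near hN hi hsi hZ
    have hb := hMb x ⟨_, hsi, face_mem hx⟩ (hx0 x hxR)
    have hbd := facebd _ hsi x (face_mem hx) hxR t hz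
    have hnZ := lstnorm i hi Z hZ
    obtain ⟨a, b, ha, hb', hab, hba, e⟩ := hx
    obtain ⟨m1, m2⟩ := (HM i hi ht b a hb' ha hba).2 x (by rw [e, add_comm])
    rcases z3 with ⟨_, rfl⟩ | ⟨rfl, _⟩ | ⟨n, hn, _, rfl⟩
    · exact margin (abs_sign _) z1 z2 (hKx x hxR) hnZ hb hbd m1 hη2
    · rw [hz, mul_zero]
    · exact margin (abs_sign _) z1 z2 (hKx x hxR) hnZ hb hbd (m2 n hn) hη2
  have hσ1 : ∀ σ : ℝ, (σ = 1 ∨ σ = -1) → |σ| ≤ 1 := by
    intro σ hσ
    rcases hσ with rfl | rfl <;> norm_num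
  have halfF : ∀ i ∈ L.S, ∀ x ∈ L.faceZone ε i, R ≤ ‖x‖ → ∀ t : ℝ,
      ev (A i) (x - t • β x) = 0 → L.Half (x - t • β x) := by
    intro i hi x hx hxR t hz m hX σ' hσ'
    obtain ⟨q, σ, l, hq, hqm, hm, hσ, hl, hrel, hneg, hle⟩ := hcor m hX
    obtain ⟨x1, x2⟩ := hN.2.2 m hX
    apply half_of h hg hqm hm hσ hneg hσ'
    by_cases c1 : i = m
    · rw [c1, x1] at hz
      simp only [ev, sub_zero] at hz
      rw [hz, mul_zero]
    · by_cases c2 : i = q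
      · rw [c2, x2 q hq hqm] at hz
        simp only [ev, sub_zero] at hz
        rw [hrel, real_inner_smul_left] at hz
        rw [(mul_eq_zero.1 hz).resolve_left hl.ne', mul_zero]
      · have hlow := half_face_low h hg hP hp hqm hm hneg hle hε hε' hi c2 c1 hx
        exact half_margin (hσ1 σ hσ) (hnor m hm) (hMb x ⟨i, hi, face_mem hx⟩ (hx0 x hxR))
          (facebd i hi x (face_mem hx) hxR t hz) hlow hη3
  have halfA : ∀ i ∈ L.S, ∀ x ∈ L.armZone ε i, R ≤ ‖x‖ → ∀ t : ℝ,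
      L.ArmEq Ch A B i (x - t • β x) → L.Half (x - t • β x) := by
    intro i hi x hx hxR t hz m hX σ' hσ'
    obtain ⟨q, σ, l, hq, hqm, hm, hσ, hl, hrel, hneg, hle⟩ := hcor m hX
    obtain ⟨x1, x2⟩ := hN.2.2 m hX
    have x3 := x2 q hq hqm
    have hσ2 : σ * σ = 1 := by rcases hσ with h | h <;> rw [h] <;> norm_num
    -- sign of a nonzero number with a known half space
    have sgn : ∀ r : ℝ, σ * r ≤ -g → Real.sign r = -σ := by
      intro r hr
      rcases hσ with e | e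
      · rw [e] at hr ⊢
        rw [Real.sign_of_neg (by linarith)]
      · rw [e] at hr ⊢
        rw [Real.sign_of_pos (by linarith)]; norm_num
    have hsm := h.maps m hm
    have hssm := h.maps _ hsm
    apply half_of h hg hqm hm hσ hneg hσ'
    by_cases c1 : i = q
    · -- flat arm
      subst c1
      have tq : L.turn i = 0 := by
        have e1 : L.turn i = inner ℝ (L.nor i) (L.p (L.s (L.s i))) := by
          unfold Pg.nor Pg.turn; rw [inner_crs]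
        rw [e1, hrel, real_inner_smul_left, hqm]
        unfold Pg.nor
        rw [inner_crs, det3_right, mul_zero]
      obtain ⟨_, Z, hZ, hz0⟩ := hz
      rcases hZ with rfl | rfl | ⟨n, hn, rfl⟩
      · rw [x3] at hz0
        simp only [ev, sub_zero] at hz0
        rw [hrel, real_inner_smul_left] at hz0
        rw [(mul_eq_zero.1 hz0).resolve_left hl.ne', mul_zero]
      · rw [hqm, x1] at hz0
        simp only [ev, sub_zero] at hz0
        rw [hz0, mul_zero]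
      · rw [hflat i hi tq] at hn
        exact absurd hn (Finset.notMem_empty _)
    · by_cases c2 : i = m
      · subst c2
        have n1 : L.s (L.s i) ≠ q := by
          intro e
          have := sss_ne h hm
          rw [e, hqm] at this
          exact this rfl
        have e1 : L.turn i = inner ℝ (L.nor i) (L.p (L.s (L.s i))) := by
          unfold Pg.nor Pg.turn; rw [inner_crs]
        have e2 := hneg _ hssm n1 (ss_ne h hm) (s_ne h hsm)
        rw [← e1] at e2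
        have e3 := hz.1 (A i) (Or.inl rfl)
        rw [sgn _ e2, x1] at e3
        simp only [ev, sub_zero] at e3
        linarith
      · by_cases c3 : L.s i = q
        · have n3 : i ≠ L.s m := by
            intro e
            have := sss_ne h hm
            rw [← e, c3, hqm] at this
            exact this rfl
          have e1 : L.turn i = inner ℝ (L.nor q) (L.p i) := by
            unfold Pg.nor Pg.turn; rw [inner_crs, c3, hqm, det3_cyc]
          rw [hrel, real_inner_smul_left] at e1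
          have e2 := hneg i hi c1 c2 n3
          have e3 := hz.1 (A (L.s i)) (Or.inr (Or.inl rfl))
          have e4 : Real.sign (L.turn i) = -σ := by
            rw [e1]
            rcases hσ with e | e
            · rw [e] at e2 ⊢
              rw [Real.sign_of_neg (mul_neg_of_pos_of_neg hl (by linarith))]
            · rw [e] at e2 ⊢
              rw [Real.sign_of_pos (mul_pos hl (by linarith))]; norm_num
          rw [e4, c3, x3] at e3
          simp only [ev, sub_zero] at e3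
          rw [hrel, real_inner_smul_left] at e3
          have e5 : 0 ≤ l * (-(σ * inner ℝ (L.nor m) (x - t • β x))) := by
            have : l * (-(σ * inner ℝ (L.nor m) (x - t • β x))) =
              -σ * (l * inner ℝ (L.nor m) (x - t • β x)) := by ring
            rw [this]; exact e3
          have e6 := nonneg_of_mul_nonneg_right e5 hl
          linarith
        · have hlow := half_arm_low h hg hP hp hq hqm hm hneg hle hε hε' hi c1 c2 c3 hx
          exact half_margin (hσ1 σ hσ) (hnor m hm) (hMb x (arm_mem_cone h hi hx) (hx0 x hxR))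
            (armbd i hi x hx hxR t hz) hlow hε3
  have point : ∀ x ∈ L.cone, R ≤ ‖x‖ → ∃ t : ℝ,
      L.ZoneEq Ch A B ε x (x - t • β x) ∧ |t| ≤ (C₁ + 2) / c₁ * ε * ‖x‖ ∧
      L.Half (x - t • β x) ∧
      (∀ t' : ℝ, L.ZoneEq Ch A B ε x (x - t' • β x) → t' = t) ∧
      (∀ i ∈ L.S, x ∈ L.faceZone ε i → L.turn i ≠ 0 → L.ArmEq Ch A B i (x - t • β x)) ∧
      (∀ i ∈ L.S, x ∈ L.faceZone ε (L.s i) → L.turn i ≠ 0 →
        L.ArmEq Ch A B i (x - t • β x)) := by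
    intro x hx hxR
    have hxne := hx0 x hxR
    by_cases hF : ∃ i ∈ L.S, x ∈ L.faceZone ε i
    · obtain ⟨i, hi, hxi⟩ := hF
      have hfi := face_mem hxi
      set t := ev (A i) x / inner ℝ (A i).1 (β x) with ht
      have hz : ev (A i) (x - t • β x) = 0 := (faceiff i hi x hfi hxR t).2 ht
      have arm5 : ∀ j ∈ L.S, j = i → L.turn j ≠ 0 → L.ArmEq Ch A B j (x - t • β x) := by
        intro j hj e htj
        subst e
        exact far5 j hj htj x hxi hxR t hz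
      have arm6 : ∀ j ∈ L.S, L.s j = i → L.turn j ≠ 0 → L.ArmEq Ch A B j (x - t • β x) := by
        intro j hj e htj
        subst e
        exact far6 j hj htj x hxi hxR t hz
      have hbd := facebd i hi x hfi hxR t hz
      refine ⟨t, ⟨?_, ?_⟩, ?_, halfF i hi x hxi hxR t hz, ?_, ?_, ?_⟩
      · intro j hj hxj
        have hcase := arm_face h hj hi hxne hxj hfi
        by_cases htj : L.turn j = 0
        · refine ⟨fun Z _ => by rw [htj, Real.sign_zero, zero_mul], A i, ?_, hz⟩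
          rcases hcase with e | e
          · exact Or.inl (by rw [e])
          · exact Or.inr (Or.inl (by rw [e]))
        · rcases hcase with e | e
          · exact arm5 j hj e.symm htj
          · exact arm6 j hj e.symm htj
      · intro j hj hxj
        rw [← face_face h hε hi hj hxne hxi hxj]; exact hz
      · refine hbd.trans ?_
        apply mul_le_mul_of_nonneg_right _ (norm_nonneg x)
        have e1 : (C₁ + 2) / c₁ * ε = ((C₁ + 2) * ε) / c₁ := by ring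
        rw [e1]
        apply div_le_div_of_nonneg_right _ hc₁.le
        nlinarith
      · intro t' ht'
        exact (faceiff i hi x hfi hxR t').1 (ht'.2 i hi hxi)
      · intro j hj hxj htj
        exact arm5 j hj (face_face h hε hj hi hxne hxj hxi) htj
      · intro j hj hxj htj
        exact arm6 j hj (face_face h hε (h.maps j hj) hi hxne hxj hxi) htj
    · obtain ⟨i, hi, hxi⟩ : ∃ i ∈ L.S, x ∈ L.armZone ε i := (cover h hε hx).resolve_left hF
      have hz := (armiff i hi x hxi hxR _).2 rfl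
      refine ⟨armS L Ch A B i x (β x), ⟨?_, ?_⟩, armbd i hi x hxi hxR _ hz,
        halfA i hi x hxi hxR _ hz, ?_, ?_, ?_⟩
      · intro j hj hxj
        rw [arm_arm h hε hε' hj hi hxne hxj hxi]; exact hz
      · intro j hj hxj
        exact absurd ⟨j, hj, hxj⟩ hF
      · intro t' ht'
        exact (armiff i hi x hxi hxR t').1 (ht'.1 i hi hxi)
      · intro j hj hxj
        exact absurd ⟨j, hj, hxj⟩ hF
      · intro j hj hxj
        exact absurd ⟨L.s j, h.maps j hj, hxj⟩ hF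
  classical
  let τ : E3 → ℝ := fun x =>
    if hx : x ∈ L.cone ∧ R ≤ ‖x‖ then (point x hx.1 hx.2).choose else 0
  have hτ : ∀ x ∈ L.cone, R ≤ ‖x‖ →
      L.ZoneEq Ch A B ε x (x - τ x • β x) ∧ |τ x| ≤ (C₁ + 2) / c₁ * ε * ‖x‖ ∧
      L.Half (x - τ x • β x) ∧
      (∀ t' : ℝ, L.ZoneEq Ch A B ε x (x - t' • β x) → t' = τ x) ∧
      (∀ i ∈ L.S, x ∈ L.faceZone ε i → L.turn i ≠ 0 → L.ArmEq Ch A B i (x - τ x • β x)) ∧
      (∀ i ∈ L.S, x ∈ L.faceZone ε (L.s i) → L.turn i ≠ 0 →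
        L.ArmEq Ch A B i (x - τ x • β x)) := by
    intro x hx hxR
    have e : τ x = (point x hx hxR).choose := by
      simp only [τ]
      rw [dif_pos ⟨hx, hxR⟩]
    rw [e]
    exact (point x hx hxR).choose_spec
  refine ⟨τ, ?_, hτ⟩
  -- continuity
  have hβ : ContinuousOn β {x | x ∈ L.cone ∧ R ≤ ‖x‖} := by
    have : LipschitzOnWith (Real.toNNReal (|Λ| / R)) β {x | x ∈ L.cone ∧ R ≤ ‖x‖} := by
      apply LipschitzOnWith.of_dist_le'
      intro x hx y hy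
      rw [dist_eq_norm, dist_eq_norm]
      have e1 := hlip x hx.1 y hy.1 (hx0 x hx.2) (hx0 y hy.2)
      have e2 : R * ‖β x - β y‖ ≤ |Λ| * ‖x - y‖ := by
        calc R * ‖β x - β y‖ ≤ ‖x‖ * ‖β x - β y‖ :=
              mul_le_mul_of_nonneg_right hx.2 (norm_nonneg _)
          _ ≤ Λ * ‖x - y‖ := e1
          _ ≤ |Λ| * ‖x - y‖ := mul_le_mul_of_nonneg_right (le_abs_self _) (norm_nonneg _)
      have e3 : |Λ| / R * ‖x - y‖ = (|Λ| * ‖x - y‖) / R := by ring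
      rw [e3, le_div_iff₀ hR]
      linarith
    exact this.continuousOn
  suffices hc : ContinuousOn τ {x | x ∈ L.cone ∧ R ≤ ‖x‖} from
    continuousOn_id.sub (hc.smul hβ)
  let Zn : (↥L.S) ⊕ (↥L.S) → Set E3 := fun z => match z with
    | Sum.inl i => L.armZone ε i ∩ {x | R ≤ ‖x‖}
    | Sum.inr i => L.faceZone ε i ∩ {x | R ≤ ‖x‖}
  have hRc : IsClosed {x : E3 | R ≤ ‖x‖} := isClosed_le continuous_const continuous_norm
  have hU : ContinuousOn τ (⋃ z, Zn z) := by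
    apply LocallyFinite.continuousOn_iUnion (locallyFinite_of_finite _)
    · rintro (i | i)
      · exact (armZone_closed h i.2 ε).inter hRc
      · exact (faceZone_closed h i.2 ε).inter hRc
    · rintro (i | i)
      · have hsub : Zn (Sum.inl i) ⊆ {x | x ∈ L.cone ∧ R ≤ ‖x‖} := fun x hx =>
          ⟨arm_mem_cone h i.2 hx.1, hx.2⟩
        have hco : ContinuousOn (fun x => armS L Ch A B i x (β x)) (Zn (Sum.inl i)) :=
          armS_cont (hβ.mono hsub) (fun x hx Z hZ =>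
            hc₁.trans_le (armpos i i.2 x hx.1 (hx0 x hx.2) Z hZ))
        apply hco.congr
        intro x hx
        exact (armiff i i.2 x hx.1 hx.2 _).1 ((hτ x (hsub hx).1 hx.2).1.1 i i.2 hx.1)
      · have hsub : Zn (Sum.inr i) ⊆ {x | x ∈ L.cone ∧ R ≤ ‖x‖} := fun x hx =>
          ⟨⟨i, i.2, face_mem hx.1⟩, hx.2⟩
        have hco : ContinuousOn (fun x => ev (A i) x / inner ℝ (A i).1 (β x))
            (Zn (Sum.inr i)) := by
          apply ContinuousOn.div (ev_continuous _).continuousOn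
            (ContinuousOn.inner continuousOn_const (hβ.mono hsub))
          intro x hx
          exact (hc₁.trans_le (facepos i i.2 x (face_mem hx.1) (hx0 x hx.2))).ne'
        apply hco.congr
        intro x hx
        exact (faceiff i i.2 x (face_mem hx.1) hx.2 _).1
          ((hτ x (hsub hx).1 hx.2).1.2 i i.2 hx.1)
  apply hU.mono
  intro x hx
  rcases cover h hε hx.1 with ⟨i, hi, hxi⟩ | ⟨i, hi, hxi⟩
  · exact mem_iUnion.2 ⟨Sum.inr ⟨i, hi⟩, hxi, hx.2⟩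
  · exact mem_iUnion.2 ⟨Sum.inl ⟨i, hi⟩, hxi, hx.2⟩

theorem pick (w b : ℝ) (hb : 0 < b) : ∃ d : ℝ, 0 < d ∧ ∀ e : ℝ, 0 ≤ e → e ≤ d → e * w ≤ b := by
  refine ⟨b / (|w| + 1), div_pos hb (by positivity), ?_⟩
  intro e he hd
  have h1 : 0 < |w| + 1 := by positivity
  rw [le_div_iff₀ h1] at hd
  nlinarith [le_abs_self w]

end FTAU_

theorem ftau_proof (h1 : Stmt_FPos) (h2 : Stmt_FMar) (h3 : Stmt_FDep) : Stmt_FTau := by
  intro V _ L h Λ c μ hc hμ
  obtain ⟨ε₁, c', hε₁, hc', HP⟩ := h1 V L h Λ c μ hc hμ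
  obtain ⟨C₁, hC₁, HD⟩ := h3 V L h μ hμ
  obtain ⟨g, P, hg, hP, hp, hnor, hcor⟩ := FTAU_.consts h
  have hP0 : 0 < P := by linarith
  set M : ℝ := |Λ| + 1 with hMdef
  have hM : 0 < M := by positivity
  set c₁ : ℝ := min c c' / 2 with hc₁def
  have hc₁ : 0 < c₁ := half_pos (lt_min hc hc')
  have hcc : 2 * c₁ ≤ c := by
    have := min_le_left c c'
    rw [hc₁def]; linarith
  have hcc' : 2 * c₁ ≤ c' := by
    have := min_le_right c c'
    rw [hc₁def]; linarith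
  obtain ⟨d, hd, hd'⟩ := FTAU_.pick ((C₁ + 2) / c₁ * P * M) (g / (2 * P)) (by positivity)
  refine ⟨min ε₁ (min (1 / 4) d), (C₁ + 2) / c₁, lt_min hε₁ (lt_min (by norm_num) hd),
    by positivity, ?_⟩
  intro ε hε hεlt κ Ch N hG
  have hε1 : ε < ε₁ := hεlt.trans_le (min_le_left _ _)
  have hε2 : ε < 1 / 4 := hεlt.trans_le ((min_le_right _ _).trans (min_le_left _ _))
  have hε3 : ε ≤ d := hεlt.le.trans ((min_le_right _ _).trans (min_le_right _ _))
  obtain ⟨mm, hmm, HM⟩ := h2 V L h μ ε hμ hε hε2 κ Ch N hG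
  obtain ⟨d1, hd1, hd1'⟩ := FTAU_.pick M c₁ hc₁
  obtain ⟨d2, hd2, hd2'⟩ := FTAU_.pick (2 + (2 / c₁) * (P + C₁ + 1) * M) mm hmm
  obtain ⟨d3, hd3, hd3'⟩ := FTAU_.pick ((2 / c₁) * P * M) (g * ε / (2 * P)) (by positivity)
  set η : ℝ := min (min ε d1) (min d2 d3) with hηdef
  have hη : 0 < η := lt_min (lt_min hε hd1) (lt_min hd2 hd3)
  have hη0 : η ≤ ε := (min_le_left _ _).trans (min_le_left _ _)
  have hη1 : η ≤ d1 := (min_le_left _ _).trans (min_le_right _ _)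
  have hη2 : η ≤ d2 := (min_le_right _ _).trans (min_le_left _ _)
  have hη3 : η ≤ d3 := (min_le_right _ _).trans (min_le_right _ _)
  refine ⟨η, hη, ?_⟩
  intro K
  refine ⟨|K| / η + 1, by positivity, ?_⟩
  intro A B hN β hβ
  refine FTAU_.core h hε hε2 hc₁ hM ?_ hβ.2.2.1 hC₁ ?_ ?_ (HM) (HD ε hε hε2 κ Ch N hG) ?_ hN hg hP
    hp hnor hcor hη hη0 (hd1' η hη.le hη1) (hd2' η hη.le hη2) ?_ ?_ (by positivity) ?_
  · intro x hx hx0
    have := hβ.2.1 x hx hx0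
    have := le_abs_self Λ
    rw [hMdef]; linarith
  · intro i hi x hx hx0
    obtain ⟨p1, p2, p3⟩ := HP ε hε hε1 κ Ch N hG β hβ i hi x hx hx0
    exact ⟨hcc'.trans p1, hcc'.trans p2, fun n hn => hcc'.trans (p3 n hn)⟩
  · intro i hi x hx hx0
    exact hcc.trans (hβ.2.2.2 i hi x hx hx0)
  · intro i hi ht
    exact (hG i hi).1 ht
  · have := hd3' η hη.le hη3
    have e : 2 * η / c₁ * P * M = η * ((2 / c₁) * P * M) := by ring
    rw [e]; exact this
  · have := hd' ε hε.le hε3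
    have e : (C₁ + 2) / c₁ * ε * P * M = ε * ((C₁ + 2) / c₁ * P * M) := by ring
    rw [e]; exact this
  · have : η * (|K| / η + 1) = |K| + η := by field_simp
    rw [this]
    have := le_abs_self K
    linarith

end Pool.Agent.TSM
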