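import Pool.Agent.TSM.VStmts
import Pool.Agent.TSM.FTAU

/-!
# FAR: the far map is good
-/

set_option autoImplicit false

namespace Pool.Agent.TSM

open Set Filter Topology Metric

namespace FAR_

open FTAU_

variable {V : Type} [DecidableEq V] {κ : Type} {L : Pg V}

theorem nearK_mono {Ch : V → Finset κ} {N : κ → E3} {K η η' : ℝ} {A : V → Aff} {B : κ → Aff}
    (h : L.NearK Ch N K η A B) (hη : η ≤ η') : L.NearK Ch N K η' A B :=
  ⟨fun i hi => ⟨lt_of_lt_of_le (h.1 i hi).1 hη, (h.1 i hi).2⟩,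
    fun j hj n hn => ⟨lt_of_lt_of_le (h.2.1 j hj n hn).1 hη, (h.2.1 j hj n hn).2⟩, h.2.2⟩

theorem nor_ne (h : L.Ok) {i : V} (hi : i ∈ L.S) : L.nor i ≠ 0 := by
  intro h0
  obtain ⟨k, hk, hd⟩ := exists_det h hi (h.maps i hi) (s_ne h hi).symm
  apply hd
  rw [← inner_crs]
  have : crs (L.p i) (L.p (L.s i)) = 0 := h0
  rw [this, inner_zero_left]

/-- near `x` only the zones containing `x` matter -/
theorem zones_near (h : L.Ok) (ε : ℝ) (x : E3) : ∀ᶠ y in 𝓝 x,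
    (∀ i ∈ L.S, y ∈ L.armZone ε i → x ∈ L.armZone ε i) ∧
      ∀ i ∈ L.S, y ∈ L.faceZone ε i → x ∈ L.faceZone ε i := by
  rw [eventually_and]
  constructor
  · rw [Filter.eventually_all_finset]
    intro i hi
    by_cases hx : x ∈ L.armZone ε i
    · exact Eventually.of_forall fun _ _ => hx
    · filter_upwards [(armZone_closed h hi ε).isOpen_compl.mem_nhds hx] with y hy hy'
      exact absurd hy' hy
  · rw [Filter.eventually_all_finset]
    intro i hi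
    by_cases hx : x ∈ L.faceZone ε i
    · exact Eventually.of_forall fun _ _ => hx
    · filter_upwards [(faceZone_closed h hi ε).isOpen_compl.mem_nhds hx] with y hy hy'
      exact absurd hy' hy

/-- the local equation of the far surface -/
theorem local_eq (h : L.Ok) {ε C R μ K η : ℝ} (hε : 0 < ε) (hε' : ε < 1 / 4)
    {Ch : V → Finset κ} {N : κ → E3} (hG : L.CondG μ ε Ch N) {A : V → Aff} {B : κ → Aff}
    (hN : L.NearK Ch N K η A B) (hη : ∀ i ∈ L.S, η ≤ ‖L.nor i‖) {β : E3 → E3} {τ : E3 → ℝ}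
    (hF : L.FarOK Ch A B ε C R β τ) (hR : 0 < R) {x : E3} (hx : x ∈ L.cone) (hxR : R < ‖x‖) :
    (∃ i ∈ L.S, ∀ᶠ y in 𝓝[L.cone] x, L.ArmEq Ch A B i (y - τ y • β y)) ∨
      ∃ i ∈ L.S, (A i).1 ≠ 0 ∧ ∀ᶠ y in 𝓝[L.cone] x, ev (A i) (y - τ y • β y) = 0 := by
  have hx0 : x ≠ 0 := by
    intro h0
    rw [h0, norm_zero] at hxR
    exact absurd hxR (not_lt.2 hR.le)
  have hAne : ∀ i ∈ L.S, (A i).1 ≠ 0 := by
    intro i hi h0
    have h1 := (hN.1 i hi).1
    rw [h0, zero_sub, norm_neg] at h1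
    exact absurd h1 (not_lt.2 (hη i hi))
  have hz : ∀ᶠ y in 𝓝[L.cone] x, y ∈ L.cone ∧ R ≤ ‖y‖ ∧
      (∀ i ∈ L.S, y ∈ L.armZone ε i → x ∈ L.armZone ε i) ∧
      ∀ i ∈ L.S, y ∈ L.faceZone ε i → x ∈ L.faceZone ε i := by
    have h1 : ∀ᶠ y in 𝓝 x, R < ‖y‖ := continuous_norm.continuousAt.eventually_const_lt hxR
    filter_upwards [self_mem_nhdsWithin, nhdsWithin_le_nhds h1,
      nhdsWithin_le_nhds (zones_near h ε x)] with y hy1 hy2 hy3
    exact ⟨hy1, le_of_lt hy2, hy3⟩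
  by_cases harm : ∃ i ∈ L.S, x ∈ L.armZone ε i
  · obtain ⟨i, hi, hxi⟩ := harm
    by_cases ht : L.turn i = 0
    · right
      have hX := turn_zero h hi ht
      obtain ⟨q, σ, l, hq, hqm, hmS, hσ, hl, hrel, -, -, -, -⟩ := corner h hX
      have hqi : q = i := h.inj q hq i hi hqm
      subst hqi
      obtain ⟨hA1, hA2⟩ := hN.2.2 _ hX
      have hA3 := hA2 q hi rfl
      have hiff : ∀ z, ev (A (L.s q)) z = 0 → ev (A q) z = 0 := by
        intro z hz0
        rw [hA1] at hz0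
        rw [hA3]
        unfold ev at hz0 ⊢
        simp only [sub_zero] at hz0 ⊢
        rw [hrel, real_inner_smul_left, hz0, mul_zero]
      refine ⟨q, hi, hAne q hi, ?_⟩
      filter_upwards [hz] with y hy
      obtain ⟨hyc, hyR, hya, hyf⟩ := hy
      obtain ⟨⟨hz1, hz2⟩, -⟩ := hF.2 y hyc hyR
      rcases cover h hε hyc with ⟨j, hj, hyj⟩ | ⟨j, hj, hyj⟩
      · rcases arm_face h hi hj hx0 hxi (face_mem (hyf j hj hyj)) with e | e
        · rw [← e]
          exact hz2 j hj hyj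
        · apply hiff
          rw [← e]
          exact hz2 j hj hyj
      · have hji : q = j := arm_arm h hε hε' hi hj hx0 hxi (hya j hj hyj)
        subst hji
        obtain ⟨-, Z, hZ, hZ0⟩ := hz1 q hj hyj
        rcases hZ with e | e | ⟨n, hn, -⟩
        · rw [← e]
          exact hZ0
        · apply hiff
          rw [← e]
          exact hZ0
        · rw [(hG q hi).1 ht] at hn
          exact absurd hn (Finset.notMem_empty n)
    · left
      refine ⟨i, hi, ?_⟩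
      filter_upwards [hz] with y hy
      obtain ⟨hyc, hyR, hya, hyf⟩ := hy
      obtain ⟨⟨hz1, hz2⟩, -, -, -, hz5, hz6⟩ := hF.2 y hyc hyR
      rcases cover h hε hyc with ⟨j, hj, hyj⟩ | ⟨j, hj, hyj⟩
      · rcases arm_face h hi hj hx0 hxi (face_mem (hyf j hj hyj)) with e | e
        · subst e
          exact hz5 j hj hyj ht
        · subst e
          exact hz6 i hi hyj ht
      · have hji : i = j := arm_arm h hε hε' hi hj hx0 hxi (hya j hj hyj)
        subst hji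
        exact hz1 i hj hyj
  · right
    push Not at harm
    obtain ⟨i, hi, hxi⟩ : ∃ i ∈ L.S, x ∈ L.faceZone ε i := by
      rcases cover h hε hx with h1 | ⟨j, hj, hxj⟩
      · exact h1
      · exact absurd hxj (harm j hj)
    refine ⟨i, hi, hAne i hi, ?_⟩
    filter_upwards [hz] with y hy
    obtain ⟨hyc, hyR, hya, hyf⟩ := hy
    obtain ⟨⟨hz1, hz2⟩, -⟩ := hF.2 y hyc hyR
    rcases cover h hε hyc with ⟨j, hj, hyj⟩ | ⟨j, hj, hyj⟩
    · have hji : i = j := face_face h hε hi hj hx0 hxi (hyf j hj hyj)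
      subst hji
      exact hz2 i hj hyj
    · exact absurd (hya j hj hyj) (harm j hj)

end FAR_

open FAR_ in
theorem far_proof (h1 : Stmt_FTau) (h2 : Stmt_FInj) (h3 : Stmt_FGer) : Stmt_Far := by
  intro V _ L h Λ c μ hc hμ
  obtain ⟨ε₁, C, hε₁, hC, H1⟩ := h1 V L h Λ c μ hc hμ
  obtain ⟨δ, hδ, H2⟩ := h2 V L h Λ c hc
  obtain ⟨H3, H4⟩ := h3
  have hΛ : 0 < |Λ| + 1 := by positivity
  obtain ⟨g, hg, hgl⟩ := FTAU_.finite_low L.S (fun _ => True) (fun i => ‖L.nor i‖)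
    (fun i hi _ => norm_pos_iff.2 (nor_ne h hi))
  refine ⟨min (min ε₁ (1 / 4)) (min (δ / (2 * C)) (1 / (2 * C * (|Λ| + 1)))), C, ?_, hC, ?_⟩
  · refine lt_min (lt_min hε₁ (by norm_num)) (lt_min (by positivity) (by positivity))
  intro ε hε hεlt κ Ch N hG
  have e1 : ε < ε₁ := lt_of_lt_of_le hεlt ((min_le_left _ _).trans (min_le_left _ _))
  have e2 : ε < 1 / 4 := lt_of_lt_of_le hεlt ((min_le_left _ _).trans (min_le_right _ _))
  have e3 : ε < δ / (2 * C) := lt_of_lt_of_le hεlt ((min_le_right _ _).trans (min_le_left _ _))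
  have e4 : ε < 1 / (2 * C * (|Λ| + 1)) :=
    lt_of_lt_of_le hεlt ((min_le_right _ _).trans (min_le_right _ _))
  rw [lt_div_iff₀ (by positivity)] at e3 e4
  obtain ⟨η₁, hη₁, H1'⟩ := H1 ε hε e1 κ Ch N hG
  obtain ⟨η₂, hη₂, H3'⟩ := H3 V L h μ ε hμ hε e2 κ Ch N hG
  refine ⟨min (min η₁ η₂) g, lt_min (lt_min hη₁ hη₂) hg, ?_⟩
  intro K
  obtain ⟨R₁, hR₁, H1''⟩ := H1' K
  obtain ⟨R₂, hR₂, H3''⟩ := H3' K
  refine ⟨max R₁ (2 * R₂), lt_max_of_lt_left hR₁, ?_⟩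
  intro A B hN β hβ
  have hN1 : L.NearK Ch N K η₁ A B := nearK_mono hN ((min_le_left _ _).trans (min_le_left _ _))
  have hN2 : L.NearK Ch N K η₂ A B := nearK_mono hN ((min_le_left _ _).trans (min_le_right _ _))
  obtain ⟨τ, hF⟩ := H1'' A B hN1 β hβ
  have hF' : L.FarOK Ch A B ε C (max R₁ (2 * R₂)) β τ := by
    refine ⟨hF.1.mono ?_, ?_⟩
    · rintro x ⟨hx1, hx2⟩
      exact ⟨hx1, (le_max_left _ _).trans hx2⟩
    · intro x hx hxR
      exact hF.2 x hx ((le_max_left _ _).trans hxR)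
  refine ⟨τ, hF', ?_⟩
  intro x hx hxR
  have hR : 0 < max R₁ (2 * R₂) := lt_max_of_lt_left hR₁
  have hx0 : x ≠ 0 := by
    intro h0
    rw [h0, norm_zero] at hxR
    exact absurd hxR (not_lt.2 hR.le)
  have hxpos : 0 < ‖x‖ := norm_pos_iff.2 hx0
  -- size of the displacement
  have hτ : |τ x| ≤ C * ε * ‖x‖ := (hF'.2 x hx hxR.le).2.1
  have hβx : ‖β x‖ ≤ |Λ| + 1 := by
    have := hβ.2.1 x hx hx0
    linarith [le_abs_self Λ]
  have hDx : R₂ ≤ ‖x - τ x • β x‖ := by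
    have h5 : ‖τ x • β x‖ ≤ ‖x‖ / 2 := by
      rw [norm_smul, Real.norm_eq_abs]
      calc |τ x| * ‖β x‖ ≤ (C * ε * ‖x‖) * (|Λ| + 1) :=
            mul_le_mul hτ hβx (norm_nonneg _) (by positivity)
        _ = (ε * (2 * C * (|Λ| + 1))) * ‖x‖ / 2 := by ring
        _ ≤ 1 * ‖x‖ / 2 := by
            have := mul_le_mul_of_nonneg_right e4.le hxpos.le
            linarith
        _ = ‖x‖ / 2 := by ring
    have h6 : ‖x‖ - ‖τ x • β x‖ ≤ ‖x - τ x • β x‖ := norm_sub_norm_le _ _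
    have h7 : 2 * R₂ < ‖x‖ := lt_of_le_of_lt (le_max_right _ _) hxR
    linarith
  -- continuity
  have hcont : ContinuousWithinAt (fun y => y - τ y • β y) L.cone x := by
    have hc1 := hF'.1 x ⟨hx, hxR.le⟩
    have hset : {y | y ∈ L.cone ∧ max R₁ (2 * R₂) ≤ ‖y‖} =
        L.cone ∩ {y | max R₁ (2 * R₂) ≤ ‖y‖} := rfl
    rw [hset] at hc1
    refine (continuousWithinAt_inter ?_).1 hc1
    filter_upwards [continuous_norm.continuousAt.eventually_const_lt hxR] with y hy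
    exact le_of_lt hy
  -- injectivity
  obtain ⟨U₁, hU₁, hinj⟩ := H2 β hβ x hx hx0
  have hinjOn : ∀ᶠ y in 𝓝[L.cone] x, y ∈ U₁ ∧ |τ y| ≤ δ * ‖x‖ := by
    have h8 : ∀ᶠ y in 𝓝 x, max R₁ (2 * R₂) < ‖y‖ :=
      continuous_norm.continuousAt.eventually_const_lt hxR
    have h9 : ∀ᶠ y in 𝓝 x, ‖y‖ < 2 * ‖x‖ :=
      continuous_norm.continuousAt.eventually_lt_const (by linarith)
    filter_upwards [hU₁, self_mem_nhdsWithin, nhdsWithin_le_nhds h8, nhdsWithin_le_nhds h9]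
      with y hy1 hy2 hy3 hy4
    refine ⟨hy1, ?_⟩
    have h10 : |τ y| ≤ C * ε * ‖y‖ := (hF'.2 y hy2 (le_of_lt hy3)).2.1
    calc |τ y| ≤ C * ε * ‖y‖ := h10
      _ ≤ C * ε * (2 * ‖x‖) := mul_le_mul_of_nonneg_left (le_of_lt hy4) (by positivity)
      _ = (ε * (2 * C)) * ‖x‖ := by ring
      _ ≤ δ * ‖x‖ := mul_le_mul_of_nonneg_right e3.le hxpos.le
  -- assembly from a germ
  have hfin : ∀ (P : E3 → Prop) (a b d : Aff) (r : ℝ), 0 < r → Indep a b d →
      (∀ z ∈ ball (x - τ x • β x) r, P z → G3 a b d z = 0) →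
      (∀ᶠ y in 𝓝[L.cone] x, P (y - τ y • β y)) →
      GoodOn L.cone (fun y => y - τ y • β y) x := by
    intro P a b d r hr hI hball hP
    have hb : ∀ᶠ y in 𝓝[L.cone] x, (y - τ y • β y) ∈ ball (x - τ x • β x) r :=
      hcont (ball_mem_nhds _ hr)
    refine ⟨_, (hinjOn.and (hb.and hP)), ?_, a, b, d, hI, ?_⟩
    · rintro y ⟨⟨hy1, hy2⟩, -⟩ z ⟨⟨hz1, hz2⟩, -⟩ hyz
      exact hinj y hy1 z hz1 (τ y) (τ z) hy2 hz2 hyz
    · rintro y ⟨-, hy3, hy4⟩
      exact hball _ hy3 hy4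
  have hgη : ∀ i ∈ L.S, min (min η₁ η₂) g ≤ ‖L.nor i‖ := fun i hi =>
    (min_le_right _ _).trans (hgl i hi trivial)
  rcases local_eq h hε e2 hG hN hgη hF' hR hx hxR with ⟨i, hi, hev⟩ | ⟨i, hi, hne, hev⟩
  · have hAx : L.ArmEq Ch A B i (x - τ x • β x) := hev.self_of_nhdsWithin hx
    obtain ⟨a, b, d, hI, r, hr, hball⟩ := H3'' A B hN2 i hi _ hDx hAx
    exact hfin (fun z => L.ArmEq Ch A B i z) a b d r hr hI hball hev
  · have hAx : ev (A i) (x - τ x • β x) = 0 := hev.self_of_nhdsWithin hx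
    obtain ⟨a, b, d, hI, r, hr, hball⟩ := H4 (A i) _ hne hAx
    exact hfin (fun z => ev (A i) z = 0) a b d r hr hI hball hev

end Pool.Agent.TSM
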