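import Pool.Agent.TSM.FINJ

/-!
# TSM, module FDEP: depth of the chamfers
-/

set_option autoImplicit false

namespace Pool.Agent.TSM

open Set Filter Topology Metric

namespace FDEP_

variable {V : Type} [DecidableEq V]

/-- the coefficients are controlled by the norm -/
theorem coef_bound {L : Pg V} (hL : L.Ok) {i : V} (hi : i ∈ L.S) :
    ∃ D : ℝ, 0 ≤ D ∧ ∀ a b : ℝ, |a| ≤ D * ‖a • L.p i + b • L.p (L.s i)‖ ∧
      |b| ≤ D * ‖a • L.p i + b • L.p (L.s i)‖ := by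
  obtain ⟨k, hk, h1, h2, h3⟩ := FINJ_.exists_third hL hi
  have hd := hL.gen i hi (L.s i) (hL.maps i hi) k hk (FINJ_.succ_ne hL hi).symm h1 h2 h3
  have hdp : 0 < |det3 (L.p i) (L.p (L.s i)) (L.p k)| := abs_pos.2 hd
  refine ⟨(‖crs (L.p (L.s i)) (L.p k)‖ + ‖crs (L.p k) (L.p i)‖) /
    |det3 (L.p i) (L.p (L.s i)) (L.p k)|, by positivity, fun a b => ?_⟩
  have ea : inner ℝ (crs (L.p (L.s i)) (L.p k)) (a • L.p i + b • L.p (L.s i)) =
      a * det3 (L.p i) (L.p (L.s i)) (L.p k) := by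
    rw [FINJ_.inner_crs]
    simp only [PiLp.add_apply, PiLp.smul_apply, smul_eq_mul, det3]
    ring
  have eb : inner ℝ (crs (L.p k) (L.p i)) (a • L.p i + b • L.p (L.s i)) =
      b * det3 (L.p i) (L.p (L.s i)) (L.p k) := by
    rw [FINJ_.inner_crs]
    simp only [PiLp.add_apply, PiLp.smul_apply, smul_eq_mul, det3]
    ring
  have ha := abs_real_inner_le_norm (crs (L.p (L.s i)) (L.p k)) (a • L.p i + b • L.p (L.s i))
  have hb := abs_real_inner_le_norm (crs (L.p k) (L.p i)) (a • L.p i + b • L.p (L.s i))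
  rw [ea, abs_mul] at ha
  rw [eb, abs_mul] at hb
  have hn := norm_nonneg (a • L.p i + b • L.p (L.s i))
  have n1 := norm_nonneg (crs (L.p (L.s i)) (L.p k))
  have n2 := norm_nonneg (crs (L.p k) (L.p i))
  constructor
  · rw [div_mul_eq_mul_div, le_div_iff₀ hdp]
    nlinarith
  · rw [div_mul_eq_mul_div, le_div_iff₀ hdp]
    nlinarith

end FDEP_

open FDEP_ in
theorem fdep_proof : Stmt_FDep := by
  classical
  intro V _ L hL μ hμ
  have hD0 : ∀ i : V, ∃ D : ℝ, 0 ≤ D ∧ (i ∈ L.S → ∀ a b : ℝ,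
      |a| ≤ D * ‖a • L.p i + b • L.p (L.s i)‖ ∧
      |b| ≤ D * ‖a • L.p i + b • L.p (L.s i)‖) := by
    intro i
    by_cases hi : i ∈ L.S
    · obtain ⟨D, h1, h2⟩ := coef_bound hL hi
      exact ⟨D, h1, fun _ => h2⟩
    · exact ⟨0, le_rfl, fun h => absurd h hi⟩
  choose D hDn hDb using hD0
  obtain ⟨DD, hDD0, hDDi⟩ : ∃ DD : ℝ, 0 ≤ DD ∧ ∀ i ∈ L.S, D i ≤ DD :=
    ⟨∑ i ∈ L.S, D i, Finset.sum_nonneg fun i _ => hDn i, fun i hi =>
      Finset.single_le_sum (f := D) (fun j _ => hDn j) hi⟩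
  obtain ⟨P, hP0, hPi⟩ : ∃ P : ℝ, 0 ≤ P ∧ ∀ i ∈ L.S, ‖L.p i‖ ≤ P :=
    ⟨∑ i ∈ L.S, ‖L.p i‖, Finset.sum_nonneg fun i _ => norm_nonneg _, fun i hi =>
      Finset.single_le_sum (f := fun i => ‖L.p i‖) (fun j _ => norm_nonneg _) hi⟩
  obtain ⟨M, hM0, hMi⟩ : ∃ M : ℝ, 0 ≤ M ∧ ∀ i ∈ L.S, ‖L.nor i‖ ≤ M :=
    ⟨∑ i ∈ L.S, ‖L.nor i‖, Finset.sum_nonneg fun i _ => norm_nonneg _, fun i hi =>
      Finset.single_le_sum (f := fun i => ‖L.nor i‖) (fun j _ => norm_nonneg _) hi⟩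
  obtain ⟨T, hT0, hTi⟩ : ∃ T : ℝ, 0 ≤ T ∧ ∀ i ∈ L.S, |L.turn i| ≤ T :=
    ⟨∑ i ∈ L.S, |L.turn i|, Finset.sum_nonneg fun i _ => abs_nonneg _, fun i hi =>
      Finset.single_le_sum (f := fun i => |L.turn i|) (fun j _ => abs_nonneg _) hi⟩
  obtain ⟨NB, hNB⟩ : ∃ NB : ℝ, NB = (1 / μ) * (M + M + 1) := ⟨_, rfl⟩
  have hμ1 : 0 < 1 / μ := one_div_pos.2 hμ
  have hNB0 : 0 ≤ NB := by
    rw [hNB]
    exact mul_nonneg hμ1.le (by linarith)
  have hTD : 0 ≤ 2 * T * DD := mul_nonneg (by linarith) hDD0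
  have hDNP : 0 ≤ 3 * DD * NB * P := mul_nonneg (mul_nonneg (by linarith) hNB0) hP0
  refine ⟨2 * T * DD + 3 * DD * NB * P + NB + 1, by linarith, ?_⟩
  intro ε hε hε4 κ Ch N hG i hi x hx
  have hsi := hL.maps i hi
  have hssi := hL.maps _ hsi
  -- the arm coefficient
  have key : ∃ a b : ℝ, 0 ≤ a ∧ 0 ≤ b ∧ a ≤ 2 * ε * b ∧ b ≤ DD * ‖x‖ ∧
      |(inner ℝ (L.nor i) x : ℝ)| ≤ a * |L.turn i| ∧
      |(inner ℝ (L.nor (L.s i)) x : ℝ)| ≤ a * |L.turn i| ∧
      ∀ n ∈ Ch (L.s i), |(inner ℝ (N n) x : ℝ)| ≤ a * (‖N n‖ * P) + b * (ε * (‖N n‖ * P)) := by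
    have hNn : ∀ n ∈ Ch (L.s i), |(inner ℝ (N n) (L.p (L.s i)) : ℝ)| ≤ ε * (‖N n‖ * P) := by
      intro n hn
      obtain ⟨g1, g2, g3, -⟩ := (hG i hi).2.1 n hn
      have hle : (inner ℝ (N n) (L.p i) : ℝ) ≤ ‖N n‖ * P ∧
          -(inner ℝ (N n) (L.p i) : ℝ) ≤ ‖N n‖ * P := by
        have h1 := abs_real_inner_le_norm (N n) (L.p i)
        have h2 : ‖N n‖ * ‖L.p i‖ ≤ ‖N n‖ * P :=
          mul_le_mul_of_nonneg_left (hPi i hi) (norm_nonneg _)
        exact ⟨(le_abs_self _).trans (h1.trans h2), (neg_le_abs _).trans (h1.trans h2)⟩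
      rw [inner_add_right, real_inner_smul_right] at g2
      rcases Real.sign_apply_eq (L.turn i) with hs | hs | hs
      · rw [hs] at g1 g2
        rw [abs_of_pos (by linarith)]
        nlinarith [hle.2]
      · rw [hs, zero_mul] at g1
        exact absurd g1 (lt_irrefl _)
      · rw [hs] at g1 g2
        rw [abs_of_neg (by linarith)]
        nlinarith [hle.1]
    have hNp : ∀ n ∈ Ch (L.s i), ∀ j ∈ L.S, |(inner ℝ (N n) (L.p j) : ℝ)| ≤ ‖N n‖ * P := by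
      intro n _ j hj
      exact (abs_real_inner_le_norm (N n) (L.p j)).trans
        (mul_le_mul_of_nonneg_left (hPi j hj) (norm_nonneg _))
    have hlin : ∀ (n : κ) (a b : ℝ) (j : V), n ∈ Ch (L.s i) → j ∈ L.S → 0 ≤ a → 0 ≤ b →
        |(inner ℝ (N n) (a • L.p j + b • L.p (L.s i)) : ℝ)| ≤
          a * (‖N n‖ * P) + b * (ε * (‖N n‖ * P)) := by
      intro n a b j hn hj ha hb
      rw [inner_add_right, real_inner_smul_right, real_inner_smul_right]
      refine (abs_add_le _ _).trans ?_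
      rw [abs_mul, abs_mul, abs_of_nonneg ha, abs_of_nonneg hb]
      exact add_le_add (mul_le_mul_of_nonneg_left (hNp n hn j hj) ha)
        (mul_le_mul_of_nonneg_left (hNn n hn) hb)
    obtain ⟨a, b, ha, hb, hab, hx | hx⟩ := hx
    · refine ⟨a, b, ha, hb, hab, ?_, ?_, ?_, ?_⟩
      · have h1 := (hDb i hi a b).2
        rw [← hx, abs_of_nonneg hb] at h1
        exact h1.trans (mul_le_mul_of_nonneg_right (hDDi i hi) (norm_nonneg _))
      · have : (inner ℝ (L.nor i) x : ℝ) = 0 := by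
          rw [hx]
          unfold Pg.nor
          rw [FINJ_.inner_crs, FINJ_.det_self]
        rw [this, abs_zero]
        exact mul_nonneg ha (abs_nonneg _)
      · have : (inner ℝ (L.nor (L.s i)) x : ℝ) = a * L.turn i := by
          rw [hx]
          unfold Pg.nor Pg.turn
          rw [FINJ_.inner_crs, FINJ_.det_last']
        rw [this, abs_mul, abs_of_nonneg ha]
      · intro n hn
        rw [hx]
        exact hlin n a b i hn hi ha hb
    · refine ⟨a, b, ha, hb, hab, ?_, ?_, ?_, ?_⟩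
      · have h1 := (hDb (L.s i) hsi b a).1
        have h2 : b • L.p (L.s i) + a • L.p (L.s (L.s i)) = x := by rw [hx, add_comm]
        rw [h2, abs_of_nonneg hb] at h1
        exact h1.trans (mul_le_mul_of_nonneg_right (hDDi _ hsi) (norm_nonneg _))
      · have : (inner ℝ (L.nor i) x : ℝ) = a * L.turn i := by
          rw [hx]
          unfold Pg.nor Pg.turn
          rw [FINJ_.inner_crs, add_comm, FINJ_.det_last]
        rw [this, abs_mul, abs_of_nonneg ha]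
      · have : (inner ℝ (L.nor (L.s i)) x : ℝ) = 0 := by
          rw [hx, add_comm]
          unfold Pg.nor
          rw [FINJ_.inner_crs, FINJ_.det_self]
        rw [this, abs_zero]
        exact mul_nonneg ha (abs_nonneg _)
      · intro n hn
        rw [hx]
        exact hlin n a b _ hn hssi ha hb
  obtain ⟨a, b, ha, hb, hab, hbx, k1, k2, k3⟩ := key
  have hx0 := norm_nonneg x
  have hDx : 0 ≤ DD * ‖x‖ := mul_nonneg hDD0 hx0
  have ha2 : a ≤ 2 * ε * (DD * ‖x‖) := hab.trans (mul_le_mul_of_nonneg_left hbx (by linarith))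
  have hεx : 0 ≤ ε * ‖x‖ := mul_nonneg hε.le hx0
  have hturn : a * |L.turn i| ≤ (2 * T * DD + 3 * DD * NB * P + NB + 1) * ε * ‖x‖ := by
    have h1 : a * |L.turn i| ≤ 2 * ε * (DD * ‖x‖) * T :=
      mul_le_mul ha2 (hTi i hi) (abs_nonneg _) (mul_nonneg (by linarith) hDx)
    have h2 : 0 ≤ (3 * DD * NB * P + NB + 1) * (ε * ‖x‖) := mul_nonneg (by linarith) hεx
    have h3 : (2 * T * DD + 3 * DD * NB * P + NB + 1) * ε * ‖x‖ =
        2 * ε * (DD * ‖x‖) * T + (3 * DD * NB * P + NB + 1) * (ε * ‖x‖) := by ring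
    linarith
  refine ⟨k1.trans hturn, k2.trans hturn, fun n hn => ?_⟩
  have hNnorm : ‖N n‖ ≤ NB := by
    obtain ⟨-, -, -, x', y', hx', hy', -, hxy, hnn⟩ := (hG i hi).2.1 n hn
    have h1 : ‖N n‖ ≤ ‖N n - (x' • L.nor i + y' • L.nor (L.s i))‖ +
        ‖x' • L.nor i + y' • L.nor (L.s i)‖ := by
      have := norm_add_le (N n - (x' • L.nor i + y' • L.nor (L.s i)))
        (x' • L.nor i + y' • L.nor (L.s i))
      rwa [sub_add_cancel] at this
    have h2 : ‖x' • L.nor i + y' • L.nor (L.s i)‖ ≤ (1 / μ) * (M + M) := by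
      refine (norm_add_le _ _).trans ?_
      rw [norm_smul, norm_smul, Real.norm_of_nonneg hx', Real.norm_of_nonneg hy', mul_add]
      have e1 : x' ≤ 1 / μ := by linarith
      have e2 : y' ≤ 1 / μ := by linarith
      exact add_le_add (mul_le_mul e1 (hMi i hi) (norm_nonneg _) hμ1.le)
        (mul_le_mul e2 (hMi _ hsi) (norm_nonneg _) hμ1.le)
    have h3 : ε / μ ≤ 1 / μ := div_le_div_of_nonneg_right (by linarith) hμ.le
    calc ‖N n‖ ≤ ε / μ + (1 / μ) * (M + M) := h1.trans (add_le_add hnn h2)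
      _ ≤ 1 / μ + (1 / μ) * (M + M) := by linarith
      _ = NB := by rw [hNB]; ring
  refine ⟨(k3 n hn).trans ?_, by linarith⟩
  have h1 : ‖N n‖ * P ≤ NB * P := mul_le_mul_of_nonneg_right hNnorm hP0
  have h2 : 0 ≤ NB * P := mul_nonneg hNB0 hP0
  have h3 : 0 ≤ ‖N n‖ * P := mul_nonneg (norm_nonneg _) hP0
  have e1 : a * (‖N n‖ * P) ≤ 2 * ε * (DD * ‖x‖) * (NB * P) :=
    mul_le_mul ha2 h1 h3 (mul_nonneg (by linarith) hDx)
  have e2 : b * (ε * (‖N n‖ * P)) ≤ (DD * ‖x‖) * (ε * (NB * P)) :=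
    mul_le_mul hbx (mul_le_mul_of_nonneg_left h1 hε.le) (mul_nonneg hε.le h3) hDx
  have e3 : 0 ≤ (2 * T * DD + NB + 1) * (ε * ‖x‖) := mul_nonneg (by linarith) hεx
  have e4 : (2 * T * DD + 3 * DD * NB * P + NB + 1) * ε * ‖x‖ =
      2 * ε * (DD * ‖x‖) * (NB * P) + (DD * ‖x‖) * (ε * (NB * P)) +
        (2 * T * DD + NB + 1) * (ε * ‖x‖) := by ring
  linarith

end Pool.Agent.TSM
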