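import Pool.Agent.TSM.VStmts

/-!
# TSM, FGER: germs of the arm equation far out, plane germs
-/

set_option autoImplicit false

namespace Pool.Agent.TSM

open Set Filter Topology Metric

namespace FGER_

/-! ## vector algebra -/

theorem ext3 {a b : E3} (h0 : a 0 = b 0) (h1 : a 1 = b 1) (h2 : a 2 = b 2) : a = b := by
  ext i
  fin_cases i
  · exact h0
  · exact h1
  · exact h2

theorem inner3 (a b : E3) : (inner ℝ a b : ℝ) = a 0 * b 0 + a 1 * b 1 + a 2 * b 2 := by
  simp [PiLp.inner_apply, Fin.sum_univ_three, mul_comm]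

theorem crs_zero (a b : E3) : crs a b 0 = a 1 * b 2 - a 2 * b 1 := rfl
theorem crs_one (a b : E3) : crs a b 1 = a 2 * b 0 - a 0 * b 2 := rfl
theorem crs_two (a b : E3) : crs a b 2 = a 0 * b 1 - a 1 * b 0 := rfl

theorem inner_crs (a b c : E3) : (inner ℝ (crs a b) c : ℝ) = det3 a b c := by
  rw [inner3, crs_zero, crs_one, crs_two, det3]; ring

theorem det3_zero1 (a b : E3) : det3 0 a b = 0 := by simp only [det3, PiLp.zero_apply]; ring
theorem det3_zero2 (a b : E3) : det3 a 0 b = 0 := by simp only [det3, PiLp.zero_apply]; ring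
theorem det3_zero3 (a b : E3) : det3 a b 0 = 0 := by simp only [det3, PiLp.zero_apply]; ring

theorem indep3 (a b c : E3) (h : det3 a b c ≠ 0) {l m k : ℝ}
    (he : l • a + m • b + k • c = 0) : l = 0 ∧ m = 0 ∧ k = 0 := by
  refine ⟨?_, ?_, ?_⟩
  · have h1 : det3 (l • a + m • b + k • c) b c = l * det3 a b c := by
      simp only [det3, PiLp.add_apply, PiLp.smul_apply, smul_eq_mul]; ring
    rw [he, det3_zero1] at h1
    rcases mul_eq_zero.1 h1.symm with h2 | h2
    · exact h2
    · exact absurd h2 h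
  · have h1 : det3 a (l • a + m • b + k • c) c = m * det3 a b c := by
      simp only [det3, PiLp.add_apply, PiLp.smul_apply, smul_eq_mul]; ring
    rw [he, det3_zero2] at h1
    rcases mul_eq_zero.1 h1.symm with h2 | h2
    · exact h2
    · exact absurd h2 h
  · have h1 : det3 a b (l • a + m • b + k • c) = k * det3 a b c := by
      simp only [det3, PiLp.add_apply, PiLp.smul_apply, smul_eq_mul]; ring
    rw [he, det3_zero3] at h1
    rcases mul_eq_zero.1 h1.symm with h2 | h2
    · exact h2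
    · exact absurd h2 h

theorem linInd (a b c : E3) (h : det3 a b c ≠ 0) : LinearIndependent ℝ ![a, b, c] := by
  rw [Fintype.linearIndependent_iff]
  intro g hg
  have h3 : g 0 • a + g 1 • b + g 2 • c = 0 := by
    have h4 := hg
    rw [Fin.sum_univ_three] at h4
    exact h4
  obtain ⟨h0, h1, h2⟩ := indep3 a b c h h3
  intro i
  fin_cases i
  · exact h0
  · exact h1
  · exact h2

/-- dual basis identity -/
theorem dual (u v w y : E3) : det3 u v w • y = (inner ℝ u y : ℝ) • crs v w +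
    (inner ℝ v y : ℝ) • crs w u + (inner ℝ w y : ℝ) • crs u v := by
  apply ext3 <;>
    simp only [PiLp.add_apply, PiLp.smul_apply, smul_eq_mul, inner3, crs_zero, crs_one, crs_two,
      det3] <;> ring

/-- double cross product at a common edge -/
theorem crs_crs (a b c : E3) : crs (crs a b) (crs b c) = det3 a b c • b := by
  apply ext3 <;>
    simp only [PiLp.smul_apply, smul_eq_mul, crs_zero, crs_one, crs_two, det3] <;> ring

theorem det3_crs (a b : E3) : det3 a b (crs a b) = ‖crs a b‖ ^ 2 := by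
  rw [← inner_crs, real_inner_self_eq_norm_sq]

theorem det3_swap23 (a b c : E3) : det3 a c b = -det3 a b c := by simp only [det3]; ring
theorem det3_swap12 (a b c : E3) : det3 b a c = -det3 a b c := by simp only [det3]; ring

theorem cont_det : Continuous fun v : E3 × E3 × E3 => det3 v.1 v.2.1 v.2.2 := by
  unfold det3
  fun_prop

theorem cont_crs : Continuous fun v : E3 × E3 => crs v.1 v.2 := by
  unfold crs
  fun_prop

theorem cont_ev (φ : Aff) : Continuous fun x => ev φ x := by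
  unfold ev
  fun_prop

/-! ## perturbation -/

/-- near the three normals, bounded values imply bounded points -/
def Tr (η : ℝ) (u v w : E3) : Prop :=
  ∀ K : ℝ, ∃ R : ℝ, ∀ u' v' w' : E3, ‖u' - u‖ < η → ‖v' - v‖ < η → ‖w' - w‖ < η →
    ∀ y : E3, |(inner ℝ u' y : ℝ)| ≤ K → |(inner ℝ v' y : ℝ)| ≤ K → |(inner ℝ w' y : ℝ)| ≤ K →
      ‖y‖ < R

/-- near the two normals, the cross product is not zero -/
def Pr (η : ℝ) (u v : E3) : Prop :=
  ∀ u' v' : E3, ‖u' - u‖ < η → ‖v' - v‖ < η → crs u' v' ≠ 0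

theorem tr_ev (u v w : E3) (h : det3 u v w ≠ 0) : ∀ᶠ η in 𝓝[>] (0 : ℝ), Tr η u v w := by
  have c1 : ContinuousAt (fun x : E3 × E3 × E3 =>
      (‖crs x.2.1 x.2.2‖ + ‖crs x.2.2 x.1‖ + ‖crs x.1 x.2.1‖) / |det3 x.1 x.2.1 x.2.2|)
      (u, v, w) := by
    apply ContinuousAt.div
    · apply Continuous.continuousAt
      have k1 : Continuous fun x : E3 × E3 × E3 => crs x.2.1 x.2.2 :=
        cont_crs.comp (by fun_prop : Continuous fun x : E3 × E3 × E3 => (x.2.1, x.2.2))
      have k2 : Continuous fun x : E3 × E3 × E3 => crs x.2.2 x.1 :=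
        cont_crs.comp (by fun_prop : Continuous fun x : E3 × E3 × E3 => (x.2.2, x.1))
      have k3 : Continuous fun x : E3 × E3 × E3 => crs x.1 x.2.1 :=
        cont_crs.comp (by fun_prop : Continuous fun x : E3 × E3 × E3 => (x.1, x.2.1))
      exact (k1.norm.add k2.norm).add k3.norm
    · exact cont_det.abs.continuousAt
    · exact abs_ne_zero.2 h
  have e1 := c1.eventually_lt_const (lt_add_one _)
  have e2 : ∀ᶠ x : E3 × E3 × E3 in 𝓝 (u, v, w), det3 x.1 x.2.1 x.2.2 ≠ 0 :=
    cont_det.continuousAt.eventually_ne h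
  obtain ⟨η, hη, H⟩ := Metric.eventually_nhds_iff.1 (e1.and e2)
  set M := (‖crs v w‖ + ‖crs w u‖ + ‖crs u v‖) / |det3 u v w| + 1 with hM
  have hη2 : ∀ᶠ η' in 𝓝[>] (0 : ℝ), η' < η :=
    eventually_nhdsWithin_of_eventually_nhds (eventually_lt_nhds hη)
  filter_upwards [hη2] with η' hη'
  intro K
  refine ⟨|K| * M + 1, ?_⟩
  intro u' v' w' hu hv hw y hy1 hy2 hy3
  have hd : dist (u', v', w') (u, v, w) < η := by
    rw [Prod.dist_eq, Prod.dist_eq]
    simp only [dist_eq_norm]
    exact max_lt (hu.trans hη') (max_lt (hv.trans hη') (hw.trans hη'))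
  obtain ⟨H1, H2⟩ := H hd
  simp only at H1 H2
  have hpos : 0 < |det3 u' v' w'| := abs_pos.2 H2
  rw [div_lt_iff₀ hpos] at H1
  have h4 : |det3 u' v' w'| * ‖y‖ = ‖det3 u' v' w' • y‖ := by
    rw [norm_smul, Real.norm_eq_abs]
  have hK : K ≤ |K| := le_abs_self K
  have h5 : ‖det3 u' v' w' • y‖ ≤ |K| * (‖crs v' w'‖ + ‖crs w' u'‖ + ‖crs u' v'‖) := by
    rw [dual]
    refine (norm_add₃_le).trans ?_
    rw [norm_smul, norm_smul, norm_smul, Real.norm_eq_abs, Real.norm_eq_abs, Real.norm_eq_abs]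
    have a1 := mul_le_mul_of_nonneg_right (hy1.trans hK) (norm_nonneg (crs v' w'))
    have a2 := mul_le_mul_of_nonneg_right (hy2.trans hK) (norm_nonneg (crs w' u'))
    have a3 := mul_le_mul_of_nonneg_right (hy3.trans hK) (norm_nonneg (crs u' v'))
    linarith
  have h6 : |K| * (‖crs v' w'‖ + ‖crs w' u'‖ + ‖crs u' v'‖) ≤ |K| * (M * |det3 u' v' w'|) :=
    mul_le_mul_of_nonneg_left H1.le (abs_nonneg K)
  have h7 : |det3 u' v' w'| * ‖y‖ ≤ |det3 u' v' w'| * (|K| * M) := by
    rw [h4]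
    refine (h5.trans h6).trans (le_of_eq ?_)
    ring
  have h8 := le_of_mul_le_mul_left h7 hpos
  linarith

theorem pr_ev (u v : E3) (h : crs u v ≠ 0) : ∀ᶠ η in 𝓝[>] (0 : ℝ), Pr η u v := by
  have e2 : ∀ᶠ x : E3 × E3 in 𝓝 (u, v), crs x.1 x.2 ≠ 0 :=
    cont_crs.continuousAt.eventually_ne h
  obtain ⟨η, hη, H⟩ := Metric.eventually_nhds_iff.1 e2
  have hη2 : ∀ᶠ η' in 𝓝[>] (0 : ℝ), η' < η :=
    eventually_nhdsWithin_of_eventually_nhds (eventually_lt_nhds hη)
  filter_upwards [hη2] with η' hη'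
  intro u' v' hu hv
  have hd : dist (u', v') (u, v) < η := by
    rw [Prod.dist_eq]
    simp only [dist_eq_norm]
    exact max_lt (hu.trans hη') (hv.trans hη')
  exact H hd

/-! ## germs -/

/-- the germ of the minimum or maximum of finitely many planes at a point where at most two of
them vanish -/
theorem core {ι : Type} (F : Finset ι) (hF : 2 ≤ F.card) (P : ι → Aff) (σ : ℝ)
    (hσ : σ = 1 ∨ σ = -1) (y : E3)
    (hp : ∀ l ∈ F, ∀ m ∈ F, l ≠ m → crs (P l).1 (P m).1 ≠ 0)
    (ht : ∀ l ∈ F, ∀ m ∈ F, ∀ n ∈ F, l ≠ m → l ≠ n → m ≠ n →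
      ev (P l) y = 0 → ev (P m) y = 0 → ev (P n) y = 0 → False) :
    ∃ a b c : Aff, Indep a b c ∧ ∃ r > 0, ∀ z ∈ ball y r,
      ((∀ l ∈ F, 0 ≤ σ * ev (P l) z) ∧ ∃ l ∈ F, ev (P l) z = 0) → G3 a b c z = 0 := by
  classical
  set T := F.filter (fun l => ev (P l) y = 0) with hT
  have hTc : T.card ≤ 2 := by
    by_contra hc
    have hc2 : 2 < T.card := not_le.1 hc
    obtain ⟨l, m, n, hl, hm, hn, h1, h2, h3⟩ := Finset.two_lt_card_iff.1 hc2
    rw [hT, Finset.mem_filter] at hl hm hn
    exact ht l hl.1 m hm.1 n hn.1 h1 h2 h3 hl.2 hm.2 hn.2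
  obtain ⟨U, hU1, hU2, hU3⟩ := Finset.exists_subsuperset_card_eq
    (Finset.filter_subset (fun l => ev (P l) y = 0) F) hTc hF
  obtain ⟨l1, l2, h12, rfl⟩ := Finset.card_eq_two.1 hU3
  have hl1 : l1 ∈ F := hU2 (by simp)
  have hl2 : l2 ∈ F := hU2 (by simp)
  have hne : ∀ l ∈ F, l ≠ l1 → l ≠ l2 → ev (P l) y ≠ 0 := by
    intro l hl h1 h2 h0
    have := hU1 (Finset.mem_filter.2 ⟨hl, h0⟩)
    rw [Finset.mem_insert, Finset.mem_singleton] at this
    rcases this with h | h
    · exact h1 h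
    · exact h2 h
  have hev : ∀ᶠ z in 𝓝 y, ∀ l ∈ F, l ≠ l1 → l ≠ l2 → ev (P l) z ≠ 0 := by
    rw [Filter.eventually_all_finset]
    intro l hl
    by_cases h1 : l = l1
    · exact Eventually.of_forall fun z h => absurd h1 h
    by_cases h2 : l = l2
    · exact Eventually.of_forall fun z _ h => absurd h2 h
    exact ((cont_ev (P l)).continuousAt.eventually_ne (hne l hl h1 h2)).mono fun z hz _ _ => hz
  set w : E3 := crs (P l1).1 (P l2).1 with hw
  have hw0 : w ≠ 0 := hp l1 hl1 l2 hl2 h12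
  have hdet : det3 (P l1).1 (P l2).1 w ≠ 0 := by
    rw [hw, det3_crs]
    exact pow_ne_zero 2 (norm_ne_zero_iff.2 hw0)
  rcases hσ with rfl | rfl
  · -- minimum
    set c : Aff := (w, (inner ℝ w y : ℝ) + 1) with hc
    have hcy : ev c y < 0 := by
      have : ev c y = -1 := by simp only [ev, hc]; ring
      rw [this]; norm_num
    have e3 := (cont_ev c).continuousAt.eventually_lt_const hcy
    obtain ⟨r, hr, H⟩ := Metric.eventually_nhds_iff_ball.1 (hev.and e3)
    refine ⟨P l1, P l2, c, linInd _ _ _ hdet, r, hr, ?_⟩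
    rintro z hz ⟨hz1, l, hl, hz2⟩
    obtain ⟨H1, H2⟩ := H z hz
    have a1 := hz1 l1 hl1
    have a2 := hz1 l2 hl2
    rw [one_mul] at a1 a2
    have hmin : min (ev (P l1) z) (ev (P l2) z) = 0 := by
      by_cases h1 : l = l1
      · rw [h1] at hz2
        rw [hz2]; exact min_eq_left a2
      by_cases h2 : l = l2
      · rw [h2] at hz2
        rw [hz2]; exact min_eq_right a1
      exact absurd hz2 (H1 l hl h1 h2)
    unfold G3
    rw [hmin]
    exact max_eq_left (le_of_lt H2)
  · -- maximum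
    set b : Aff := (w, (inner ℝ w y : ℝ) - 1) with hb
    have hby : 0 < ev b y := by
      have : ev b y = 1 := by simp only [ev, hb]; ring
      rw [this]; norm_num
    have e3 := (cont_ev b).continuousAt.eventually_const_lt hby
    obtain ⟨r, hr, H⟩ := Metric.eventually_nhds_iff_ball.1 (hev.and e3)
    refine ⟨P l1, b, P l2, linInd _ _ _ ?_, r, hr, ?_⟩
    · rw [det3_swap23]
      exact neg_ne_zero.2 hdet
    rintro z hz ⟨hz1, l, hl, hz2⟩
    obtain ⟨H1, H2⟩ := H z hz
    have a1 := hz1 l1 hl1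
    have a2 := hz1 l2 hl2
    have a1' : ev (P l1) z ≤ 0 := by linarith
    have a2' : ev (P l2) z ≤ 0 := by linarith
    unfold G3
    rw [min_eq_left (a1'.trans H2.le)]
    by_cases h1 : l = l1
    · rw [h1] at hz2
      rw [hz2]; exact max_eq_left a2'
    by_cases h2 : l = l2
    · rw [h2] at hz2
      rw [hz2]; exact max_eq_right a1'
    exact absurd hz2 (H1 l hl h1 h2)

theorem exists_two (u : E3) (h : u ≠ 0) : ∃ v w : E3, det3 v w u ≠ 0 := by
  by_contra hc
  push Not at hc
  apply h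
  have h0 := hc !₂[0, 1, 0] !₂[0, 0, 1]
  have h1 := hc !₂[0, 0, 1] !₂[1, 0, 0]
  have h2 := hc !₂[1, 0, 0] !₂[0, 1, 0]
  simp [det3] at h0 h1 h2
  exact ext3 h0 h1 h2

theorem plane (a : Aff) (y : E3) (h : a.1 ≠ 0) : ∃ a' b' c' : Aff, Indep a' b' c' ∧
    ∃ r > 0, ∀ z ∈ ball y r, ev a z = 0 → G3 a' b' c' z = 0 := by
  obtain ⟨v, w, hvw⟩ := exists_two a.1 h
  set a' : Aff := (v, (inner ℝ v y : ℝ) + 1) with ha'
  set b' : Aff := (w, (inner ℝ w y : ℝ) + 1) with hb'
  have hay : ev a' y < 0 := by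
    have : ev a' y = -1 := by simp only [ev, ha']; ring
    rw [this]; norm_num
  have e3 := (cont_ev a').continuousAt.eventually_lt_const hay
  obtain ⟨r, hr, H⟩ := Metric.eventually_nhds_iff_ball.1 e3
  refine ⟨a', b', a, linInd _ _ _ hvw, r, hr, ?_⟩
  intro z hz hz0
  unfold G3
  rw [hz0]
  exact max_eq_right ((min_le_left _ _).trans (le_of_lt (H z hz)))

/-! ## labels -/

section
variable {V : Type} [DecidableEq V] {κ : Type}

/-- labels of the planes at an arm -/
def lab (L : Pg V) (Ch : V → Finset κ) (i : V) : Finset (Bool ⊕ κ) :=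
  (Finset.univ : Finset Bool).disjSum (Ch (L.s i))

/-- unperturbed normals -/
noncomputable def NL (L : Pg V) (N : κ → E3) (i : V) : Bool ⊕ κ → E3
  | Sum.inl false => L.nor i
  | Sum.inl true => L.nor (L.s i)
  | Sum.inr n => N n

/-- the planes -/
def PL (L : Pg V) (A : V → Aff) (B : κ → Aff) (i : V) : Bool ⊕ κ → Aff
  | Sum.inl false => A i
  | Sum.inl true => A (L.s i)
  | Sum.inr n => B n

theorem mem_lab_inr {L : Pg V} {Ch : V → Finset κ} {i : V} {n : κ}
    (h : (Sum.inr n : Bool ⊕ κ) ∈ lab L Ch i) : n ∈ Ch (L.s i) := by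
  unfold lab at h
  exact Finset.inr_mem_disjSum.1 h

theorem card_lab (L : Pg V) (Ch : V → Finset κ) (i : V) : 2 ≤ (lab L Ch i).card := by
  unfold lab
  rw [Finset.card_disjSum]
  have : (Finset.univ : Finset Bool).card = 2 := by decide
  omega

theorem armEq_iff (L : Pg V) (Ch : V → Finset κ) (A : V → Aff) (B : κ → Aff) (i : V) (z : E3) :
    L.ArmEq Ch A B i z ↔ ((∀ l ∈ lab L Ch i, 0 ≤ Real.sign (L.turn i) * ev (PL L A B i l) z) ∧
      ∃ l ∈ lab L Ch i, ev (PL L A B i l) z = 0) := by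
  have key : ∀ Z : Aff, Z ∈ L.lst Ch A B i ↔ ∃ l ∈ lab L Ch i, PL L A B i l = Z := by
    intro Z
    constructor
    · rintro (h | h | ⟨n, hn, h⟩)
      · exact ⟨Sum.inl false, Finset.inl_mem_disjSum.2 (Finset.mem_univ _), h.symm⟩
      · exact ⟨Sum.inl true, Finset.inl_mem_disjSum.2 (Finset.mem_univ _), h.symm⟩
      · exact ⟨Sum.inr n, Finset.inr_mem_disjSum.2 hn, h.symm⟩
    · rintro ⟨l, hl, rfl⟩
      rcases l with (_ | _) | n
      · exact Or.inl rfl
      · exact Or.inr (Or.inl rfl)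
      · exact Or.inr (Or.inr ⟨n, mem_lab_inr hl, rfl⟩)
  constructor
  · rintro ⟨h1, Z, hZ, h2⟩
    refine ⟨fun l hl => h1 _ ((key _).2 ⟨l, hl, rfl⟩), ?_⟩
    obtain ⟨l, hl, rfl⟩ := (key Z).1 hZ
    exact ⟨l, hl, h2⟩
  · rintro ⟨h1, l, hl, h2⟩
    refine ⟨?_, PL L A B i l, (key _).2 ⟨l, hl, rfl⟩, h2⟩
    intro Z hZ
    obtain ⟨l', hl', rfl⟩ := (key Z).1 hZ
    exact h1 l' hl'

theorem perms {a b c : E3} (h : det3 a b c ≠ 0) : det3 a c b ≠ 0 ∧ det3 b a c ≠ 0 ∧
    det3 b c a ≠ 0 ∧ det3 c a b ≠ 0 ∧ det3 c b a ≠ 0 := by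
  have e1 : det3 a c b = -det3 a b c := by simp only [det3]; ring
  have e2 : det3 b a c = -det3 a b c := by simp only [det3]; ring
  have e3 : det3 b c a = det3 a b c := by simp only [det3]; ring
  have e4 : det3 c a b = det3 a b c := by simp only [det3]; ring
  have e5 : det3 c b a = -det3 a b c := by simp only [det3]; ring
  rw [e1, e2, e3, e4, e5]
  exact ⟨neg_ne_zero.2 h, neg_ne_zero.2 h, h, h, neg_ne_zero.2 h⟩

theorem det_lab {L : Pg V} {μ ε : ℝ} {Ch : V → Finset κ} {N : κ → E3}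
    (hC : L.CondG μ ε Ch N) {i : V} (hi : i ∈ L.S) (ht : L.turn i ≠ 0)
    {l m n : Bool ⊕ κ} (hl : l ∈ lab L Ch i) (hm : m ∈ lab L Ch i) (hn : n ∈ lab L Ch i)
    (h1 : l ≠ m) (h2 : l ≠ n) (h3 : m ≠ n) :
    det3 (NL L N i l) (NL L N i m) (NL L N i n) ≠ 0 := by
  obtain ⟨-, c2, c3⟩ := hC i hi
  have d1 : ∀ a ∈ Ch (L.s i), det3 (L.nor i) (L.nor (L.s i)) (N a) ≠ 0 := by
    intro a ha
    have e1 : det3 (L.nor i) (L.nor (L.s i)) (N a) =
        L.turn i * (inner ℝ (N a) (L.p (L.s i)) : ℝ) := by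
      rw [← inner_crs]
      unfold Pg.nor Pg.turn
      rw [crs_crs, real_inner_smul_left, real_inner_comm]
    rw [e1]
    refine mul_ne_zero ht ?_
    intro h0
    have := (c2 a ha).1
    rw [h0, mul_zero] at this
    exact lt_irrefl _ this
  rcases l with (_ | _) | l <;> rcases m with (_ | _) | m <;> rcases n with (_ | _) | n <;>
    first
    | exact absurd rfl h1
    | exact absurd rfl h2
    | exact absurd rfl h3
    | skip
  · exact d1 n (mem_lab_inr hn)
  · exact (perms (d1 m (mem_lab_inr hm))).1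
  · exact (c3 m (mem_lab_inr hm) n (mem_lab_inr hn) (fun h => h3 (by rw [h]))).1
  · exact (perms (d1 n (mem_lab_inr hn))).2.1
  · exact (perms (d1 m (mem_lab_inr hm))).2.2.1
  · exact (c3 m (mem_lab_inr hm) n (mem_lab_inr hn) (fun h => h3 (by rw [h]))).2.1
  · exact (perms (d1 l (mem_lab_inr hl))).2.2.2.1
  · exact (perms (c3 l (mem_lab_inr hl) n (mem_lab_inr hn) (fun h => h2 (by rw [h]))).1).2.1
  · exact (perms (d1 l (mem_lab_inr hl))).2.2.2.2
  · exact (perms (c3 l (mem_lab_inr hl) n (mem_lab_inr hn) (fun h => h2 (by rw [h]))).2.1).2.1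
  · exact (perms (c3 l (mem_lab_inr hl) m (mem_lab_inr hm) (fun h => h1 (by rw [h]))).1).2.2.1
  · exact (perms (c3 l (mem_lab_inr hl) m (mem_lab_inr hm) (fun h => h1 (by rw [h]))).2.1).2.2.1
  · exact (c3 l (mem_lab_inr hl) m (mem_lab_inr hm) (fun h => h1 (by rw [h]))).2.2 n
      (mem_lab_inr hn) (fun h => h2 (by rw [h])) (fun h => h3 (by rw [h]))

theorem crs_lab {L : Pg V} {μ ε : ℝ} {Ch : V → Finset κ} {N : κ → E3}
    (hC : L.CondG μ ε Ch N) {i : V} (hi : i ∈ L.S) (ht : L.turn i ≠ 0)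
    {l m : Bool ⊕ κ} (hl : l ∈ lab L Ch i) (hm : m ∈ lab L Ch i) (h1 : l ≠ m) :
    crs (NL L N i l) (NL L N i m) ≠ 0 := by
  classical
  -- a third label or the direct computation
  have mem : ∀ b : Bool, (Sum.inl b : Bool ⊕ κ) ∈ lab L Ch i := fun b =>
    Finset.inl_mem_disjSum.2 (Finset.mem_univ _)
  have third : ∀ n : Bool ⊕ κ, n ∈ lab L Ch i → l ≠ n → m ≠ n →
      crs (NL L N i l) (NL L N i m) ≠ 0 := by
    intro n hn h2 h3 h0
    apply det_lab hC hi ht hl hm hn h1 h2 h3
    rw [← inner_crs, h0, inner_zero_left]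
  have base : crs (L.nor i) (L.nor (L.s i)) ≠ 0 := by
    have e1 : crs (L.nor i) (L.nor (L.s i)) = L.turn i • L.p (L.s i) := by
      unfold Pg.nor Pg.turn
      rw [crs_crs]
    rw [e1]
    refine smul_ne_zero ht ?_
    intro h0
    apply ht
    unfold Pg.turn
    rw [h0, det3_zero2]
  by_cases hf1 : l = Sum.inl false
  · by_cases hm1 : m = Sum.inl true
    · rw [hf1, hm1]; exact base
    · refine third (Sum.inl true) (mem _) ?_ hm1
      rw [hf1]
      intro h
      exact Bool.noConfusion (Sum.inl.inj h)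
  · by_cases hm0 : m = Sum.inl false
    · by_cases hf2 : l = Sum.inl true
      · rw [hf2, hm0]
        intro h
        apply base
        have : crs (L.nor i) (L.nor (L.s i)) = -crs (L.nor (L.s i)) (L.nor i) := by
          apply ext3 <;>
            simp only [PiLp.neg_apply, crs_zero, crs_one, crs_two] <;> ring
        rw [this]
        have h' : crs (L.nor (L.s i)) (L.nor i) = 0 := h
        rw [h', neg_zero]
      · refine third (Sum.inl true) (mem _) hf2 ?_
        rw [hm0]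
        intro h
        exact Bool.noConfusion (Sum.inl.inj h)
    · exact third (Sum.inl false) (mem _) hf1 hm0

/-! ## the flat arm -/

theorem no_short_period {L : Pg V} (hO : L.Ok) {i : V} (hi : i ∈ L.S) {n : ℕ} (hn : 0 < n)
    (hn4 : n < 4) : L.s^[n] i ≠ i := by
  intro h
  have hsub : L.S ⊆ (Finset.range n).image (fun k => L.s^[k] i) := by
    intro j hj
    obtain ⟨m, hm⟩ := hO.trans i hi j hj
    rw [Finset.mem_image]
    refine ⟨m % n, Finset.mem_range.2 (Nat.mod_lt _ hn), ?_⟩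
    have hper : Function.IsPeriodicPt L.s n i := h
    rw [hper.iterate_mod_apply]
    exact hm
  have h1 := Finset.card_le_card hsub
  have h2 := Finset.card_image_le (s := Finset.range n) (f := fun k => L.s^[k] i)
  rw [Finset.card_range] at h2
  have h3 := hO.card
  omega

theorem flat_arm {L : Pg V} (hO : L.Ok) {i : V} (hi : i ∈ L.S) (ht : L.turn i = 0) :
    L.X = some (L.s i) ∧ L.nor (L.s i) ≠ 0 ∧ ∃ r : ℝ, r ≠ 0 ∧ L.nor i = r • L.nor (L.s i) := by
  have hsi := hO.maps i hi
  have hssi := hO.maps _ hsi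
  have hsssi := hO.maps _ hssi
  have p1 : ∀ j ∈ L.S, L.s j ≠ j := fun j hj => no_short_period hO hj (n := 1) (by norm_num)
    (by norm_num)
  have p2 : ∀ j ∈ L.S, L.s (L.s j) ≠ j := fun j hj =>
    no_short_period hO hj (n := 2) (by norm_num) (by norm_num)
  have p3 : ∀ j ∈ L.S, L.s (L.s (L.s j)) ≠ j := fun j hj =>
    no_short_period hO hj (n := 3) (by norm_num) (by norm_num)
  have hflat : L.Flat i (L.s i) (L.s (L.s i)) := by
    by_contra hc
    exact hO.gen i hi _ hsi _ hssi (p1 i hi).symm (p2 i hi).symm (p1 _ hsi).symm hc ht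
  obtain ⟨m, q, hX, hq, hqm, hset⟩ := hflat
  have hm : m ∈ L.S := by rw [← hqm]; exact hO.maps q hq
  have hiq : i = q := by
    have hi3 : i ∈ ({q, m, L.s m} : Finset V) := by rw [← hset]; simp
    have hss : L.s (L.s i) ∈ ({q, m, L.s m} : Finset V) := by rw [← hset]; simp
    rw [Finset.mem_insert, Finset.mem_insert, Finset.mem_singleton] at hi3 hss
    rcases hi3 with h | h | h
    · exact h
    · exfalso
      rw [← h] at hss
      rcases hss with h' | h' | h'
      · apply p3 i hi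
        rw [h', hqm, h]
      · exact p2 i hi h'
      · exact p1 _ hsi h'
    · exfalso
      rcases hss with h' | h' | h'
      · -- s (s (s m)) = q
        rw [h] at h'
        have hs1 : L.s i ∈ ({q, m, L.s m} : Finset V) := by rw [← hset]; simp
        rw [Finset.mem_insert, Finset.mem_insert, Finset.mem_singleton] at hs1
        rcases hs1 with h'' | h'' | h''
        · rw [h] at h''
          rw [h''] at h'
          exact p1 q hq h'
        · rw [h] at h''
          exact p2 m hm h''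
        · rw [← h] at h''
          exact p1 i hi h''
      · rw [h] at h'
        exact p3 m hm h'
      · rw [h] at h'
        exact p2 _ (hO.maps m hm) h'
  subst hiq
  have hmi : m = L.s i := hqm.symm
  subst hmi
  refine ⟨hX, ?_⟩
  rcases hO.kind with ⟨hn, -⟩ | ⟨m', hX', hm', q', hq', hqm', ⟨a, b, ha, hb, hrel⟩, σ, hσ, hne⟩
  · rw [hX] at hn
    exact absurd hn (by simp)
  have hmm : m' = L.s i := by
    rw [hX] at hX'
    exact (Option.some.inj hX').symm
  subst hmm
  have hqi : q' = i := hO.inj q' hq' i hi hqm'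
  subst hqi
  constructor
  · -- a fourth label
    obtain ⟨x, hx, hx2⟩ : ∃ x ∈ L.S, x ∉ ({q', L.s q', L.s (L.s q')} : Finset V) := by
      by_contra hc
      push Not at hc
      have h1 : L.S ⊆ ({q', L.s q', L.s (L.s q')} : Finset V) := hc
      have h2 := Finset.card_le_card h1
      have h3 := Finset.card_le_three (a := q') (b := L.s q') (c := L.s (L.s q'))
      have h4 := hO.card
      omega
    simp only [Finset.mem_insert, Finset.mem_singleton, not_or] at hx2
    have h5 := hne x hx hx2.1 hx2.2.1 hx2.2.2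
    intro h0
    rw [h0, inner_zero_left, mul_zero] at h5
    exact lt_irrefl _ h5
  · refine ⟨b / a, (div_pos hb ha).ne', ?_⟩
    have e1 : a • L.p q' = -(b • L.p (L.s (L.s q')) + L.p (L.s q')) := by
      rw [eq_neg_iff_add_eq_zero, ← add_assoc]
      exact hrel
    have c0 := congrArg (fun v : E3 => v 0) e1
    have c1 := congrArg (fun v : E3 => v 1) e1
    have c2 := congrArg (fun v : E3 => v 2) e1
    simp only [PiLp.add_apply, PiLp.smul_apply, PiLp.neg_apply, smul_eq_mul] at c0 c1 c2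
    have ha' : a ≠ 0 := ha.ne'
    unfold Pg.nor
    apply ext3
    · rw [PiLp.smul_apply, smul_eq_mul, crs_zero, crs_zero, div_mul_eq_mul_div, eq_div_iff ha']
      linear_combination (L.p (L.s q') 2) * c1 - (L.p (L.s q') 1) * c2
    · rw [PiLp.smul_apply, smul_eq_mul, crs_one, crs_one, div_mul_eq_mul_div, eq_div_iff ha']
      linear_combination (L.p (L.s q') 0) * c2 - (L.p (L.s q') 2) * c0
    · rw [PiLp.smul_apply, smul_eq_mul, crs_two, crs_two, div_mul_eq_mul_div, eq_div_iff ha']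
      linear_combination (L.p (L.s q') 1) * c0 - (L.p (L.s q') 0) * c1

end

end FGER_

open FGER_ in
theorem fger_proof : Stmt_FGer := by
  refine ⟨?_, fun a y ha _ => plane a y ha⟩
  intro V _ L hO μ ε hμ hε hε4 κ Ch N hC
  classical
  -- choice of η
  have e1 : ∀ᶠ η in 𝓝[>] (0 : ℝ), ∀ i ∈ L.S, L.turn i ≠ 0 → ∀ l ∈ lab L Ch i,
      ∀ m ∈ lab L Ch i, ∀ n ∈ lab L Ch i, l ≠ m → l ≠ n → m ≠ n →
      Tr η (NL L N i l) (NL L N i m) (NL L N i n) := by
    rw [Filter.eventually_all_finset]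
    intro i hi
    by_cases ht : L.turn i = 0
    · exact Eventually.of_forall fun η h => absurd ht h
    refine Eventually.mono ?_ (fun η h _ => h)
    rw [Filter.eventually_all_finset]
    intro l hl
    rw [Filter.eventually_all_finset]
    intro m hm
    rw [Filter.eventually_all_finset]
    intro n hn
    by_cases h1 : l = m
    · exact Eventually.of_forall fun η h => absurd h1 h
    by_cases h2 : l = n
    · exact Eventually.of_forall fun η _ h => absurd h2 h
    by_cases h3 : m = n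
    · exact Eventually.of_forall fun η _ _ h => absurd h3 h
    exact (tr_ev _ _ _ (det_lab hC hi ht hl hm hn h1 h2 h3)).mono fun η h _ _ _ => h
  have e2 : ∀ᶠ η in 𝓝[>] (0 : ℝ), ∀ i ∈ L.S, L.turn i ≠ 0 → ∀ l ∈ lab L Ch i,
      ∀ m ∈ lab L Ch i, l ≠ m → Pr η (NL L N i l) (NL L N i m) := by
    rw [Filter.eventually_all_finset]
    intro i hi
    by_cases ht : L.turn i = 0
    · exact Eventually.of_forall fun η h => absurd ht h
    refine Eventually.mono ?_ (fun η h _ => h)
    rw [Filter.eventually_all_finset]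
    intro l hl
    rw [Filter.eventually_all_finset]
    intro m hm
    by_cases h1 : l = m
    · exact Eventually.of_forall fun η h => absurd h1 h
    exact (pr_ev _ _ (crs_lab hC hi ht hl hm h1)).mono fun η h _ => h
  have e3 : ∀ᶠ η in 𝓝[>] (0 : ℝ), 0 < η := eventually_mem_nhdsWithin
  obtain ⟨η, ⟨hT, hP⟩, hη⟩ := ((e1.and e2).and e3).exists
  refine ⟨η, hη, ?_⟩
  intro K
  -- choice of R
  have e4 : ∀ᶠ R in atTop, ∀ i ∈ L.S, L.turn i ≠ 0 → ∀ l ∈ lab L Ch i,
      ∀ m ∈ lab L Ch i, ∀ n ∈ lab L Ch i, l ≠ m → l ≠ n → m ≠ n →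
      ∀ u' v' w' : E3, ‖u' - NL L N i l‖ < η → ‖v' - NL L N i m‖ < η → ‖w' - NL L N i n‖ < η →
      ∀ y : E3, |(inner ℝ u' y : ℝ)| ≤ K → |(inner ℝ v' y : ℝ)| ≤ K →
        |(inner ℝ w' y : ℝ)| ≤ K → ‖y‖ < R := by
    rw [Filter.eventually_all_finset]
    intro i hi
    by_cases ht : L.turn i = 0
    · exact Eventually.of_forall fun η h => absurd ht h
    refine Eventually.mono ?_ (fun η h _ => h)
    rw [Filter.eventually_all_finset]
    intro l hl
    rw [Filter.eventually_all_finset]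
    intro m hm
    rw [Filter.eventually_all_finset]
    intro n hn
    by_cases h1 : l = m
    · exact Eventually.of_forall fun η h => absurd h1 h
    by_cases h2 : l = n
    · exact Eventually.of_forall fun η _ h => absurd h2 h
    by_cases h3 : m = n
    · exact Eventually.of_forall fun η _ _ h => absurd h3 h
    obtain ⟨R₀, hR₀⟩ := hT i hi ht l hl m hm n hn h1 h2 h3 K
    filter_upwards [eventually_ge_atTop R₀] with R hR _ _ _ u' v' w' hu hv hw y a1 a2 a3
    exact (hR₀ u' v' w' hu hv hw y a1 a2 a3).trans_le hR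
  obtain ⟨R, hR, hR0⟩ := (e4.and (eventually_gt_atTop (0 : ℝ))).exists
  refine ⟨R, hR0, ?_⟩
  intro A B hN i hi y hy hA
  obtain ⟨n1, n2, n3⟩ := hN
  by_cases ht : L.turn i = 0
  · -- the flat arm
    obtain ⟨hX, hnor, r, hr0, hr⟩ := flat_arm hO hi ht
    obtain ⟨f1, f2⟩ := n3 _ hX
    have f3 := f2 i hi rfl
    have hCh : Ch (L.s i) = ∅ := (hC i hi).1 ht
    have key : ∀ z : E3, L.ArmEq Ch A B i z → ev (A (L.s i)) z = 0 := by
      rintro z ⟨-, Z, hZ, hz⟩
      rcases hZ with h | h | ⟨n, hn, -⟩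
      · rw [h, f3] at hz
        rw [f1]
        unfold ev at hz ⊢
        simp only [sub_zero] at hz ⊢
        rw [hr, real_inner_smul_left] at hz
        rcases mul_eq_zero.1 hz with h0 | h0
        · exact absurd h0 hr0
        · exact h0
      · rw [h] at hz; exact hz
      · rw [hCh] at hn
        exact absurd hn (Finset.notMem_empty n)
    have hne : (A (L.s i)).1 ≠ 0 := by rw [f1]; exact hnor
    obtain ⟨a, b, c, hI, r1, hr1, H⟩ := plane (A (L.s i)) y hne
    exact ⟨a, b, c, hI, r1, hr1, fun z hz hz2 => H z hz (key z hz2)⟩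
  · -- the general arm
    have hclose : ∀ l ∈ lab L Ch i, ‖(PL L A B i l).1 - NL L N i l‖ < η ∧
        |(PL L A B i l).2| ≤ K := by
      intro l hl
      rcases l with (_ | _) | n
      · exact n1 i hi
      · exact n1 _ (hO.maps i hi)
      · exact n2 _ (hO.maps i hi) n (mem_lab_inr hl)
    have hσ : Real.sign (L.turn i) = 1 ∨ Real.sign (L.turn i) = -1 := by
      rcases lt_or_gt_of_ne ht with h | h
      · right; exact Real.sign_of_neg h
      · left; exact Real.sign_of_pos h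
    obtain ⟨a, b, c, hI, r, hr, H⟩ := core (lab L Ch i) (card_lab L Ch i) (PL L A B i)
      (Real.sign (L.turn i)) hσ y
      (fun l hl m hm h1 => hP i hi ht l hl m hm h1 _ _ (hclose l hl).1 (hclose m hm).1)
      (by
        intro l hl m hm n hn h1 h2 h3 z1 z2 z3
        have bd : ∀ k ∈ lab L Ch i, ev (PL L A B i k) y = 0 →
            |(inner ℝ (PL L A B i k).1 y : ℝ)| ≤ K := by
          intro k hk h0
          unfold ev at h0
          rw [sub_eq_zero.1 h0]
          exact (hclose k hk).2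
        have := hR i hi ht l hl m hm n hn h1 h2 h3 _ _ _ (hclose l hl).1 (hclose m hm).1
          (hclose n hn).1 y (bd l hl z1) (bd m hm z2) (bd n hn z3)
        exact absurd this (not_lt.2 hy))
    exact ⟨a, b, c, hI, r, hr, fun z hz hz2 => H z hz ((armEq_iff L Ch A B i z).1 hz2)⟩

end Pool.Agent.TSM
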