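import Pool.Agent.TSM.VStmts

/-!
# TSM, Part VM: module FMAR
-/

set_option autoImplicit false

namespace Pool.Agent.TSM

open Set Filter Topology Metric

namespace FMAR_

theorem inner_crs (a b c : E3) : inner ℝ (crs a b) c = det3 a b c := by
  unfold crs det3
  rw [EuclideanSpace.inner_eq_star_dotProduct]
  simp only [dotProduct, Fin.sum_univ_three, star_trivial, Matrix.cons_val_zero,
    Matrix.cons_val_one, Matrix.cons_val]
  ring

theorem core (p q ν : E3) (σ ε : ℝ) (hε : 0 < ε) (h0 : σ * inner ℝ ν q ≤ 0)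
    (h1 : 0 < σ * inner ℝ ν (q + ε • p)) :
    ∃ m : ℝ, 0 < m ∧ ∀ a b : ℝ, 0 ≤ a → 0 ≤ b → ε * b ≤ a → ∀ x : E3, x = a • p + b • q →
      m * ‖x‖ ≤ σ * inner ℝ ν x := by
  set δ : ℝ := σ * inner ℝ ν (q + ε • p) with hδ
  set K : ℝ := ‖p‖ + ‖q‖ / ε + 1 with hK
  have hKpos : 0 < K := by
    have h1 := norm_nonneg p
    have h2 : 0 ≤ ‖q‖ / ε := div_nonneg (norm_nonneg q) hε.le
    linarith
  refine ⟨δ / ε / K, by positivity, fun a b ha hb hab x hx => ?_⟩
  have hxa : ‖x‖ ≤ a * K := by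
    have h2 : ‖x‖ ≤ a * ‖p‖ + b * ‖q‖ := by
      rw [hx]
      refine le_trans (norm_add_le _ _) ?_
      rw [norm_smul, norm_smul, Real.norm_of_nonneg ha, Real.norm_of_nonneg hb]
    have h3 : b * ‖q‖ ≤ a * (‖q‖ / ε) := by
      have hb' : b ≤ a / ε := by
        rw [le_div_iff₀ hε]
        linarith
      calc b * ‖q‖ ≤ a / ε * ‖q‖ := mul_le_mul_of_nonneg_right hb' (norm_nonneg q)
        _ = a * (‖q‖ / ε) := by ring
    rw [hK]
    nlinarith
  have hval : σ * inner ℝ ν x = a * (σ * inner ℝ ν p) + b * (σ * inner ℝ ν q) := by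
    rw [hx, inner_add_right, inner_smul_right, inner_smul_right]
    ring
  have hδ' : δ = σ * inner ℝ ν q + ε * (σ * inner ℝ ν p) := by
    rw [hδ, inner_add_right, inner_smul_right]
    ring
  have h4 : a * (δ / ε) ≤ σ * inner ℝ ν x := by
    rw [hval]
    have h5 : a / ε * (σ * inner ℝ ν q) ≤ b * (σ * inner ℝ ν q) := by
      have hb' : b ≤ a / ε := by
        rw [le_div_iff₀ hε]
        linarith
      exact mul_le_mul_of_nonpos_right hb' h0
    have h6 : a * (δ / ε) = a * (σ * inner ℝ ν p) + a / ε * (σ * inner ℝ ν q) := by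
      rw [hδ']
      field_simp
      ring
    rw [h6]
    linarith
  refine le_trans ?_ h4
  have h7 : 0 ≤ δ / ε := (div_pos h1 hε).le
  calc δ / ε / K * ‖x‖ ≤ δ / ε / K * (a * K) :=
        mul_le_mul_of_nonneg_left hxa (div_nonneg h7 hKpos.le)
    _ = a * (δ / ε) := by
        field_simp

theorem fin_min {ι : Type*} (S : Finset ι) (P : ι → ℝ → Prop)
    (hanti : ∀ i m m', m' ≤ m → P i m → P i m') (h : ∀ i ∈ S, ∃ m : ℝ, 0 < m ∧ P i m) :
    ∃ m : ℝ, 0 < m ∧ ∀ i ∈ S, P i m := by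
  classical
  induction S using Finset.induction_on with
  | empty => exact ⟨1, one_pos, by simp⟩
  | insert a s ha ih =>
    obtain ⟨m1, hm1, hP1⟩ := h a (Finset.mem_insert_self a s)
    obtain ⟨m2, hm2, hP2⟩ := ih fun i hi => h i (Finset.mem_insert_of_mem hi)
    refine ⟨min m1 m2, lt_min hm1 hm2, fun i hi => ?_⟩
    rcases Finset.mem_insert.mp hi with rfl | hi
    · exact hanti _ _ _ (min_le_left _ _) hP1
    · exact hanti _ _ _ (min_le_right _ _) (hP2 i hi)

end FMAR_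

open FMAR_ in
theorem fmar_proof : Stmt_FMar := by
  intro V _ L hL μ ε hμ hε hε4 κ Ch N hG
  refine fin_min L.S (fun i m => L.turn i ≠ 0 → ∀ a b : ℝ, 0 ≤ a → 0 ≤ b → ε * b ≤ a →
      (∀ x : E3, x = a • L.p i + b • L.p (L.s i) →
        m * ‖x‖ ≤ Real.sign (L.turn i) * inner ℝ (L.nor (L.s i)) x ∧
        ∀ n ∈ Ch (L.s i), m * ‖x‖ ≤ Real.sign (L.turn i) * inner ℝ (N n) x) ∧
      (∀ x : E3, x = a • L.p (L.s (L.s i)) + b • L.p (L.s i) →
        m * ‖x‖ ≤ Real.sign (L.turn i) * inner ℝ (L.nor i) x ∧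
        ∀ n ∈ Ch (L.s i), m * ‖x‖ ≤ Real.sign (L.turn i) * inner ℝ (N n) x)) ?_ ?_
  · intro i m m' hm h ht a b ha hb hab
    obtain ⟨h1, h2⟩ := h ht a b ha hb hab
    have hmn : ∀ x : E3, m' * ‖x‖ ≤ m * ‖x‖ := fun x =>
      mul_le_mul_of_nonneg_right hm (norm_nonneg x)
    refine ⟨fun x hx => ⟨(hmn x).trans (h1 x hx).1, fun n hn => (hmn x).trans ((h1 x hx).2 n hn)⟩,
      fun x hx => ⟨(hmn x).trans (h2 x hx).1, fun n hn => (hmn x).trans ((h2 x hx).2 n hn)⟩⟩
  · intro i hi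
    by_cases ht : L.turn i = 0
    · exact ⟨1, one_pos, fun h => absurd ht h⟩
    obtain ⟨-, hc, -⟩ := hG i hi
    have hsg : Real.sign (L.turn i) * L.turn i = |L.turn i| := by
      rcases lt_or_gt_of_ne ht with h | h
      · rw [Real.sign_of_neg h, abs_of_neg h]; ring
      · rw [Real.sign_of_pos h, abs_of_pos h]; ring
    have habs : 0 < |L.turn i| := abs_pos.mpr ht
    -- the four families
    have e1 : (inner ℝ (L.nor (L.s i)) (L.p (L.s i)) : ℝ) = 0 := by
      unfold Pg.nor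
      rw [inner_crs]
      unfold det3
      ring
    have e2 : (inner ℝ (L.nor (L.s i)) (L.p i) : ℝ) = L.turn i := by
      unfold Pg.nor Pg.turn
      rw [inner_crs]
      unfold det3
      ring
    have e3 : (inner ℝ (L.nor i) (L.p (L.s i)) : ℝ) = 0 := by
      unfold Pg.nor
      rw [inner_crs]
      unfold det3
      ring
    have e4 : (inner ℝ (L.nor i) (L.p (L.s (L.s i))) : ℝ) = L.turn i := by
      unfold Pg.nor Pg.turn
      rw [inner_crs]
    obtain ⟨m1, hm1, H1⟩ := core (L.p i) (L.p (L.s i)) (L.nor (L.s i)) (Real.sign (L.turn i)) ε hε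
      (by rw [e1, mul_zero]) (by
        rw [inner_add_right, inner_smul_right, e1, e2, zero_add]
        have : Real.sign (L.turn i) * (ε * L.turn i) = ε * |L.turn i| := by rw [← hsg]; ring
        rw [this]
        positivity)
    obtain ⟨m2, hm2, H2⟩ := core (L.p (L.s (L.s i))) (L.p (L.s i)) (L.nor i)
      (Real.sign (L.turn i)) ε hε (by rw [e3, mul_zero]) (by
        rw [inner_add_right, inner_smul_right, e3, e4, zero_add]
        have : Real.sign (L.turn i) * (ε * L.turn i) = ε * |L.turn i| := by rw [← hsg]; ring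
        rw [this]
        positivity)
    obtain ⟨m3, hm3, H3⟩ := fin_min (Ch (L.s i)) (fun n m => ∀ a b : ℝ, 0 ≤ a → 0 ≤ b →
      ε * b ≤ a → (∀ x : E3, x = a • L.p i + b • L.p (L.s i) →
        m * ‖x‖ ≤ Real.sign (L.turn i) * inner ℝ (N n) x) ∧
        (∀ x : E3, x = a • L.p (L.s (L.s i)) + b • L.p (L.s i) →
        m * ‖x‖ ≤ Real.sign (L.turn i) * inner ℝ (N n) x)) (by
        intro n m m' hm h a b ha hb hab
        obtain ⟨h1, h2⟩ := h a b ha hb hab
        have hmn : ∀ x : E3, m' * ‖x‖ ≤ m * ‖x‖ := fun x =>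
          mul_le_mul_of_nonneg_right hm (norm_nonneg x)
        exact ⟨fun x hx => (hmn x).trans (h1 x hx), fun x hx => (hmn x).trans (h2 x hx)⟩) (by
        intro n hn
        obtain ⟨c1, c2, c3, -⟩ := hc n hn
        obtain ⟨k1, hk1, K1⟩ := core (L.p i) (L.p (L.s i)) (N n) (Real.sign (L.turn i)) ε hε
          c1.le c2
        obtain ⟨k2, hk2, K2⟩ := core (L.p (L.s (L.s i))) (L.p (L.s i)) (N n)
          (Real.sign (L.turn i)) ε hε c1.le c3
        refine ⟨min k1 k2, lt_min hk1 hk2, fun a b ha hb hab => ⟨fun x hx => ?_, fun x hx => ?_⟩⟩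
        · exact (mul_le_mul_of_nonneg_right (min_le_left _ _) (norm_nonneg x)).trans
            (K1 a b ha hb hab x hx)
        · exact (mul_le_mul_of_nonneg_right (min_le_right _ _) (norm_nonneg x)).trans
            (K2 a b ha hb hab x hx))
    refine ⟨min m1 (min m2 m3), lt_min hm1 (lt_min hm2 hm3), fun _ a b ha hb hab => ?_⟩
    have l1 : ∀ x : E3, min m1 (min m2 m3) * ‖x‖ ≤ m1 * ‖x‖ := fun x =>
      mul_le_mul_of_nonneg_right (min_le_left _ _) (norm_nonneg x)
    have l2 : ∀ x : E3, min m1 (min m2 m3) * ‖x‖ ≤ m2 * ‖x‖ := fun x =>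
      mul_le_mul_of_nonneg_right ((min_le_right _ _).trans (min_le_left _ _)) (norm_nonneg x)
    have l3 : ∀ x : E3, min m1 (min m2 m3) * ‖x‖ ≤ m3 * ‖x‖ := fun x =>
      mul_le_mul_of_nonneg_right ((min_le_right _ _).trans (min_le_right _ _)) (norm_nonneg x)
    refine ⟨fun x hx => ⟨(l1 x).trans (H1 a b ha hb hab x hx), fun n hn =>
      (l3 x).trans ((H3 n hn a b ha hb hab).1 x hx)⟩, fun x hx =>
      ⟨(l2 x).trans (H2 a b ha hb hab x hx), fun n hn =>
      (l3 x).trans ((H3 n hn a b ha hb hab).2 x hx)⟩⟩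

end Pool.Agent.TSM
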