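import Pool.Agent.TSM.VStmts

/-!
# TSM, module TRANS: change of the direction field
-/

set_option autoImplicit false

namespace Pool.Agent.TSM

open Set Filter Topology Metric

namespace TRANS_

/-- the cut-off function -/
noncomputable def th (s : ℝ) : ℝ := max 0 (min 1 (s - 2))

theorem th_nonneg (s : ℝ) : 0 ≤ th s := le_max_left _ _

theorem th_le_one (s : ℝ) : th s ≤ 1 := max_le zero_le_one (min_le_left _ _)

theorem th_zero {s : ℝ} (h : s ≤ 2) : th s = 0 := by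
  unfold th
  exact max_eq_left ((min_le_right _ _).trans (by linarith))

theorem th_one {s : ℝ} (h : 3 ≤ s) : th s = 1 := by
  unfold th
  rw [min_eq_left (by linarith)]
  exact max_eq_right zero_le_one

theorem th_lip (s t : ℝ) : |th s - th t| ≤ |s - t| := by
  unfold th
  rw [max_comm 0, max_comm 0]
  refine (abs_max_sub_max_le_abs _ _ _).trans ?_
  rw [min_comm 1, min_comm 1]
  refine (abs_min_sub_min_le_max _ _ _ _).trans ?_
  have e : s - 2 - (t - 2) = s - t := by ring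
  rw [e, sub_self, abs_zero]
  exact max_le le_rfl (abs_nonneg _)

theorem th_norm {R : ℝ} (hR : 0 < R) (x y : E3) :
    ‖x‖ * |th (‖x‖ / R) - th (‖y‖ / R)| ≤ 6 * ‖x - y‖ := by
  have hxy : |‖x‖ - ‖y‖| ≤ ‖x - y‖ := abs_norm_sub_norm_le x y
  by_cases h1 : ‖x‖ ≤ 6 * R
  · have h2 := th_lip (‖x‖ / R) (‖y‖ / R)
    have h3 : |‖x‖ / R - ‖y‖ / R| = |‖x‖ - ‖y‖| / R := by
      rw [← sub_div, abs_div, abs_of_pos hR]
    rw [h3] at h2
    have h4 : |‖x‖ - ‖y‖| / R ≤ ‖x - y‖ / R := div_le_div_of_nonneg_right hxy hR.le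
    calc ‖x‖ * |th (‖x‖ / R) - th (‖y‖ / R)| ≤ (6 * R) * (‖x - y‖ / R) :=
          mul_le_mul h1 (h2.trans h4) (abs_nonneg _) (by positivity)
      _ = 6 * ‖x - y‖ := by field_simp
  · push Not at h1
    have hx : 3 ≤ ‖x‖ / R := by
      rw [le_div_iff₀ hR]
      linarith
    by_cases h2 : 3 * R ≤ ‖y‖
    · have hy : 3 ≤ ‖y‖ / R := by
        rw [le_div_iff₀ hR]
        linarith
      rw [th_one hx, th_one hy, sub_self, abs_zero, mul_zero]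
      positivity
    · push Not at h2
      have h3 : ‖x‖ ≤ 2 * ‖x - y‖ := by
        have h4 : ‖x‖ - ‖y‖ ≤ ‖x - y‖ := norm_sub_norm_le x y
        linarith
      have h5 : |th (‖x‖ / R) - th (‖y‖ / R)| ≤ 1 := by
        rw [abs_le]
        have := th_nonneg (‖x‖ / R)
        have := th_le_one (‖x‖ / R)
        have := th_nonneg (‖y‖ / R)
        have := th_le_one (‖y‖ / R)
        constructor <;> linarith
      have h6 : ‖x‖ * |th (‖x‖ / R) - th (‖y‖ / R)| ≤ ‖x‖ * 1 :=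
        mul_le_mul_of_nonneg_left h5 (norm_nonneg _)
      have := norm_nonneg (x - y)
      linarith

/-- the interpolated field -/
noncomputable def bet (R : ℝ) (b₁ b₂ : E3 → E3) (x : E3) : E3 :=
  (1 - th (‖x‖ / R)) • b₁ x + th (‖x‖ / R) • b₂ x

theorem bet_near {R : ℝ} (hR : 0 < R) (b₁ b₂ : E3 → E3) {x : E3} (h : ‖x‖ ≤ 2 * R) :
    bet R b₁ b₂ x = b₁ x := by
  unfold bet
  rw [th_zero (by rw [div_le_iff₀ hR]; exact h), sub_zero, one_smul, zero_smul, add_zero]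

theorem bet_far {R : ℝ} (hR : 0 < R) (b₁ b₂ : E3 → E3) {x : E3} (h : 3 * R ≤ ‖x‖) :
    bet R b₁ b₂ x = b₂ x := by
  unfold bet
  rw [th_one (by rw [le_div_iff₀ hR]; exact h), sub_self, one_smul, zero_smul, zero_add]

theorem tame_bet {V : Type} [DecidableEq V] {L : Pg V} {Λ₁ Λ₂ c₁ c₂ R : ℝ} (hR : 0 < R)
    {b₁ b₂ : E3 → E3} (h₁ : L.Tame Λ₁ c₁ b₁) (h₂ : L.Tame Λ₂ c₂ b₂) :
    L.Tame (7 * (|Λ₁| + |Λ₂|)) (min c₁ c₂) (bet R b₁ b₂) := by
  obtain ⟨p₁, q₁, r₁, s₁⟩ := h₁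
  obtain ⟨p₂, q₂, r₂, s₂⟩ := h₂
  have hL1 := le_abs_self Λ₁
  have hL2 := le_abs_self Λ₂
  have hn1 := abs_nonneg Λ₁
  have hn2 := abs_nonneg Λ₂
  refine ⟨lt_min p₁ p₂, fun x hx hx0 => ?_, fun x hx y hy hx0 hy0 => ?_,
    fun i hi x hx hx0 => ?_⟩
  · have t0 := th_nonneg (‖x‖ / R)
    have t1 := th_le_one (‖x‖ / R)
    unfold bet
    refine (norm_add_le _ _).trans ?_
    rw [norm_smul, norm_smul, Real.norm_of_nonneg (by linarith), Real.norm_of_nonneg t0]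
    have e1 : (1 - th (‖x‖ / R)) * ‖b₁ x‖ ≤ 1 * |Λ₁| :=
      mul_le_mul (by linarith) ((q₁ x hx hx0).trans hL1) (norm_nonneg _) zero_le_one
    have e2 : th (‖x‖ / R) * ‖b₂ x‖ ≤ 1 * |Λ₂| :=
      mul_le_mul t1 ((q₂ x hx hx0).trans hL2) (norm_nonneg _) zero_le_one
    linarith
  · have t0 := th_nonneg (‖x‖ / R)
    have t1 := th_le_one (‖x‖ / R)
    have e0 : bet R b₁ b₂ x - bet R b₁ b₂ y = (1 - th (‖x‖ / R)) • (b₁ x - b₁ y) +
        th (‖x‖ / R) • (b₂ x - b₂ y) +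
        (th (‖x‖ / R) - th (‖y‖ / R)) • (b₂ y - b₁ y) := by
      unfold bet
      module
    have e1 := r₁ x hx y hy hx0 hy0
    have e2 := r₂ x hx y hy hx0 hy0
    have e3 := th_norm hR x y
    have e4 : ‖b₂ y - b₁ y‖ ≤ |Λ₁| + |Λ₂| := by
      refine (norm_sub_le _ _).trans ?_
      have := q₁ y hy hy0
      have := q₂ y hy hy0
      linarith
    have hxy := norm_nonneg (x - y)
    rw [e0]
    have e5 : ‖x‖ * ‖(1 - th (‖x‖ / R)) • (b₁ x - b₁ y) + th (‖x‖ / R) • (b₂ x - b₂ y) +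
        (th (‖x‖ / R) - th (‖y‖ / R)) • (b₂ y - b₁ y)‖ ≤
        (1 - th (‖x‖ / R)) * (‖x‖ * ‖b₁ x - b₁ y‖) + th (‖x‖ / R) * (‖x‖ * ‖b₂ x - b₂ y‖) +
        (‖x‖ * |th (‖x‖ / R) - th (‖y‖ / R)|) * ‖b₂ y - b₁ y‖ := by
      have e6 : ‖(1 - th (‖x‖ / R)) • (b₁ x - b₁ y) + th (‖x‖ / R) • (b₂ x - b₂ y) +
          (th (‖x‖ / R) - th (‖y‖ / R)) • (b₂ y - b₁ y)‖ ≤
          (1 - th (‖x‖ / R)) * ‖b₁ x - b₁ y‖ + th (‖x‖ / R) * ‖b₂ x - b₂ y‖ +
          |th (‖x‖ / R) - th (‖y‖ / R)| * ‖b₂ y - b₁ y‖ := by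
        refine (norm_add₃_le).trans ?_
        rw [norm_smul, norm_smul, norm_smul, Real.norm_of_nonneg (by linarith),
          Real.norm_of_nonneg t0, Real.norm_eq_abs]
      calc _ ≤ ‖x‖ * ((1 - th (‖x‖ / R)) * ‖b₁ x - b₁ y‖ + th (‖x‖ / R) * ‖b₂ x - b₂ y‖ +
          |th (‖x‖ / R) - th (‖y‖ / R)| * ‖b₂ y - b₁ y‖) :=
            mul_le_mul_of_nonneg_left e6 (norm_nonneg _)
        _ = _ := by ring
    refine e5.trans ?_
    have f1 : (1 - th (‖x‖ / R)) * (‖x‖ * ‖b₁ x - b₁ y‖) ≤ 1 * (|Λ₁| * ‖x - y‖) := by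
      refine mul_le_mul (by linarith) (e1.trans ?_) (by positivity) zero_le_one
      exact mul_le_mul_of_nonneg_right hL1 hxy
    have f2 : th (‖x‖ / R) * (‖x‖ * ‖b₂ x - b₂ y‖) ≤ 1 * (|Λ₂| * ‖x - y‖) := by
      refine mul_le_mul t1 (e2.trans ?_) (by positivity) zero_le_one
      exact mul_le_mul_of_nonneg_right hL2 hxy
    have f3 : (‖x‖ * |th (‖x‖ / R) - th (‖y‖ / R)|) * ‖b₂ y - b₁ y‖ ≤
        (6 * ‖x - y‖) * (|Λ₁| + |Λ₂|) :=
      mul_le_mul e3 e4 (norm_nonneg _) (by positivity)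
    calc _ ≤ 1 * (|Λ₁| * ‖x - y‖) + 1 * (|Λ₂| * ‖x - y‖) +
          (6 * ‖x - y‖) * (|Λ₁| + |Λ₂|) := add_le_add (add_le_add f1 f2) f3
      _ = 7 * (|Λ₁| + |Λ₂|) * ‖x - y‖ := by ring
  · have t0 := th_nonneg (‖x‖ / R)
    have t1 := th_le_one (‖x‖ / R)
    unfold bet
    rw [inner_add_right, real_inner_smul_right, real_inner_smul_right]
    have e1 := s₁ i hi x hx hx0
    have e2 := s₂ i hi x hx hx0
    have m1 := min_le_left c₁ c₂
    have m2 := min_le_right c₁ c₂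
    have f1 : (1 - th (‖x‖ / R)) * min c₁ c₂ ≤ (1 - th (‖x‖ / R)) * inner ℝ (L.nor i) (b₁ x) :=
      mul_le_mul_of_nonneg_left (m1.trans e1) (by linarith)
    have f2 : th (‖x‖ / R) * min c₁ c₂ ≤ th (‖x‖ / R) * inner ℝ (L.nor i) (b₂ x) :=
      mul_le_mul_of_nonneg_left (m2.trans e2) t0
    linarith

theorem goodOn_congr {C V : Set E3} {D D' : E3 → E3} {x : E3} (hV : V ∈ 𝓝[C] x)
    (h : ∀ y ∈ V, D' y = D y) (hD : GoodOn C D x) : GoodOn C D' x := by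
  obtain ⟨U, hU, hinj, a, b, c, habc, hG⟩ := hD
  refine ⟨U ∩ V, inter_mem hU hV, ?_, a, b, c, habc, ?_⟩
  · intro y hy z hz hyz
    rw [h y hy.2, h z hz.2] at hyz
    exact hinj hy.1 hz.1 hyz
  · intro y hy
    rw [h y hy.2]
    exact hG y hy.1

end TRANS_

open TRANS_ in
theorem trans_proof (h1 : Stmt_Far) : Stmt_Trans := by
  classical
  intro V _ L hL b₁ b₂ ⟨Λ₁, c₁, hb₁⟩ ⟨Λ₂, c₂, hb₂⟩ μ hμ
  obtain ⟨ε₀, C, hε₀, hC, hfar⟩ := h1 V L hL (7 * (|Λ₁| + |Λ₂|)) (min c₁ c₂) μ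
    (lt_min hb₁.1 hb₂.1) hμ
  refine ⟨ε₀, hε₀, fun ε hε hεε κ Ch N hG hRes => ?_⟩
  obtain ⟨η₂, hη₂, hK⟩ := hfar ε hε hεε κ Ch N hG
  obtain ⟨o, oN, η₁, R₁, M₁, hη₁, hR₁, ho, hD⟩ := hRes
  set K : ℝ := ∑ i ∈ L.S, |o i| + ∑ j ∈ L.S, ∑ n ∈ Ch j, |oN n| + η₁ with hKdef
  obtain ⟨R₂, hR₂, hfar2⟩ := hK K
  set R' : ℝ := max R₁ R₂ with hR'def
  have hR' : 0 < R' := lt_max_of_lt_left hR₁
  have hR1' : R₁ ≤ R' := le_max_left _ _
  have hR2' : R₂ ≤ R' := le_max_right _ _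
  refine ⟨o, oN, min η₁ η₂, 3 * R', |M₁| + C * ε * (7 * (|Λ₁| + |Λ₂|)), lt_min hη₁ hη₂,
    by positivity, ho, fun A B hN => ?_⟩
  have hs0 : 0 ≤ ∑ i ∈ L.S, |o i| := Finset.sum_nonneg fun i _ => abs_nonneg _
  have hs1 : 0 ≤ ∑ j ∈ L.S, ∑ n ∈ Ch j, |oN n| :=
    Finset.sum_nonneg fun j _ => Finset.sum_nonneg fun n _ => abs_nonneg _
  have hN1 : L.Near Ch N o oN η₁ A B := by
    refine ⟨fun i hi => ?_, fun j hj n hn => ?_, hN.2.2⟩
    · have := hN.1 i hi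
      exact ⟨this.1.trans_le (min_le_left _ _), this.2.trans_le (min_le_left _ _)⟩
    · have := hN.2.1 j hj n hn
      exact ⟨this.1.trans_le (min_le_left _ _), this.2.trans_le (min_le_left _ _)⟩
  have hNK : L.NearK Ch N K η₂ A B := by
    refine ⟨fun i hi => ?_, fun j hj n hn => ?_, hN.2.2⟩
    · have h2 := hN.1 i hi
      refine ⟨h2.1.trans_le (min_le_right _ _), ?_⟩
      have h3 := h2.2.trans_le (min_le_left η₁ η₂)
      have h4 : |o i| ≤ ∑ i ∈ L.S, |o i| :=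
        Finset.single_le_sum (f := fun i => |o i|) (fun _ _ => abs_nonneg _) hi
      have h5 : |(A i).2| ≤ |(A i).2 - o i| + |o i| := by
        have := abs_add_le ((A i).2 - o i) (o i)
        rwa [sub_add_cancel] at this
      rw [hKdef]
      linarith
    · have h2 := hN.2.1 j hj n hn
      refine ⟨h2.1.trans_le (min_le_right _ _), ?_⟩
      have h3 := h2.2.trans_le (min_le_left η₁ η₂)
      have h4 : |oN n| ≤ ∑ n ∈ Ch j, |oN n| :=
        Finset.single_le_sum (f := fun n => |oN n|) (fun _ _ => abs_nonneg _) hn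
      have h6 : ∑ n ∈ Ch j, |oN n| ≤ ∑ j ∈ L.S, ∑ n ∈ Ch j, |oN n| :=
        Finset.single_le_sum (f := fun j => ∑ n ∈ Ch j, |oN n|)
          (fun _ _ => Finset.sum_nonneg fun _ _ => abs_nonneg _) hj
      have h5 : |(B n).2| ≤ |(B n).2 - oN n| + |oN n| := by
        have := abs_add_le ((B n).2 - oN n) (oN n)
        rwa [sub_add_cancel] at this
      rw [hKdef]
      linarith
  obtain ⟨D₁, hD₁c, hD₁g, hD₁M, hD₁f⟩ := hD A B hN1
  have htame := tame_bet hR' hb₁ hb₂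
  obtain ⟨τ, ⟨hτc, hτ⟩, hτg⟩ := hfar2 A B hNK (bet R' b₁ b₂) htame
  -- agreement
  have hagree : ∀ x ∈ L.cone, R' ≤ ‖x‖ → ‖x‖ ≤ 2 * R' → D₁ x = x - τ x • bet R' b₁ b₂ x := by
    intro x hx h2 h3
    obtain ⟨⟨t, ht⟩, hz⟩ := hD₁f x hx (hR1'.trans h2)
    obtain ⟨-, -, -, hu, -⟩ := hτ x hx (hR2'.trans h2)
    have hb : bet R' b₁ b₂ x = b₁ x := bet_near hR' b₁ b₂ h3
    have ht' : t = τ x := by
      refine hu t ?_
      rw [hb, ← ht]
      exact hz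
    rw [hb, ← ht']
    exact ht
  set D₂ : E3 → E3 := fun x => if ‖x‖ ≤ 2 * R' then D₁ x else x - τ x • bet R' b₁ b₂ x with hD₂
  have hD2a : ∀ x, ‖x‖ ≤ 2 * R' → D₂ x = D₁ x := fun x hx => by
    rw [hD₂]
    exact if_pos hx
  have hD2b : ∀ x ∈ L.cone, R' ≤ ‖x‖ → D₂ x = x - τ x • bet R' b₁ b₂ x := by
    intro x hx h2
    by_cases h3 : ‖x‖ ≤ 2 * R'
    · rw [hD2a x h3, hagree x hx h2 h3]
    · rw [hD₂]
      exact if_neg h3
  have hopen1 : ∀ x : E3, ‖x‖ < 2 * R' → {y : E3 | ‖y‖ ≤ 2 * R'} ∈ 𝓝[L.cone] x := by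
    intro x hx
    refine mem_nhdsWithin_of_mem_nhds ?_
    have : {y : E3 | ‖y‖ < 2 * R'} ∈ 𝓝 x :=
      (isOpen_lt continuous_norm continuous_const).mem_nhds hx
    filter_upwards [this] with y hy
    exact le_of_lt hy
  have hopen2 : ∀ x : E3, R' < ‖x‖ → {y : E3 | y ∈ L.cone ∧ R' ≤ ‖y‖} ∈ 𝓝[L.cone] x := by
    intro x hx
    have : {y : E3 | R' < ‖y‖} ∈ 𝓝[L.cone] x :=
      mem_nhdsWithin_of_mem_nhds ((isOpen_lt continuous_const continuous_norm).mem_nhds hx)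
    filter_upwards [this, self_mem_nhdsWithin] with y hy hy'
    exact ⟨hy', le_of_lt hy⟩
  refine ⟨D₂, ?_, fun x hx => ⟨?_, ?_⟩, fun x hx => ?_, fun x hx h3 => ?_⟩
  · intro x hx
    by_cases h2 : ‖x‖ < 2 * R'
    · refine (hD₁c x hx).congr_of_eventuallyEq ?_ (hD2a x h2.le)
      filter_upwards [hopen1 x h2] with y hy
      exact hD2a y hy
    · push Not at h2
      have h4 : R' < ‖x‖ := by linarith
      have h5 : ContinuousWithinAt (fun x => x - τ x • bet R' b₁ b₂ x) L.cone x := by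
        have h6 := hτc x ⟨hx, hR2'.trans h4.le⟩
        refine h6.mono_of_mem_nhdsWithin ?_
        exact mem_of_superset (hopen2 x h4) fun y hy => ⟨hy.1, hR2'.trans hy.2⟩
      refine h5.congr_of_eventuallyEq ?_ (hD2b x hx h4.le)
      filter_upwards [hopen2 x h4] with y hy
      exact hD2b y hy.1 hy.2
  · by_cases h2 : ‖x‖ < 2 * R'
    · exact goodOn_congr (hopen1 x h2) (fun y hy => hD2a y hy) (hD₁g x hx).1
    · push Not at h2
      have h4 : R' < ‖x‖ := by linarith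
      exact goodOn_congr (hopen2 x h4) (fun y hy => hD2b y hy.1 hy.2)
        (hτg x hx (lt_of_le_of_lt hR2' h4))
  · by_cases h2 : ‖x‖ ≤ 2 * R'
    · rw [hD2a x h2]
      exact (hD₁g x hx).2
    · push Not at h2
      have h4 : R' ≤ ‖x‖ := by linarith
      rw [hD2b x hx h4]
      exact (hτ x hx (hR2'.trans h4)).2.2.1
  · have hL0 : 0 ≤ 7 * (|Λ₁| + |Λ₂|) := by positivity
    have hCe : 0 ≤ C * ε * (7 * (|Λ₁| + |Λ₂|)) := mul_nonneg (mul_nonneg hC.le hε.le) hL0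
    have hn := norm_nonneg x
    by_cases h2 : ‖x‖ ≤ 2 * R'
    · rw [hD2a x h2]
      refine (hD₁M x hx).trans ?_
      have h5 : M₁ * (1 + ‖x‖) ≤ |M₁| * (1 + ‖x‖) :=
        mul_le_mul_of_nonneg_right (le_abs_self _) (by linarith)
      have h6 : 0 ≤ C * ε * (7 * (|Λ₁| + |Λ₂|)) * (1 + ‖x‖) := mul_nonneg hCe (by linarith)
      linarith
    · push Not at h2
      have h4 : R' ≤ ‖x‖ := by linarith
      have hx0 : x ≠ 0 := by
        rintro rfl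
        rw [norm_zero] at h4
        linarith
      rw [hD2b x hx h4]
      have e1 : x - τ x • bet R' b₁ b₂ x - x = -(τ x • bet R' b₁ b₂ x) := by abel
      rw [e1, norm_neg, norm_smul, Real.norm_eq_abs]
      have e2 := (hτ x hx (hR2'.trans h4)).2.1
      have e3 := htame.2.1 x hx hx0
      have e4 : |τ x| * ‖bet R' b₁ b₂ x‖ ≤ (C * ε * ‖x‖) * (7 * (|Λ₁| + |Λ₂|)) :=
        mul_le_mul e2 e3 (norm_nonneg _) (mul_nonneg (mul_nonneg hC.le hε.le) hn)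
      have e5 : (C * ε * ‖x‖) * (7 * (|Λ₁| + |Λ₂|)) =
          C * ε * (7 * (|Λ₁| + |Λ₂|)) * ‖x‖ := by ring
      have e6 : 0 ≤ |M₁| * (1 + ‖x‖) := mul_nonneg (abs_nonneg _) (by linarith)
      have e7 : (|M₁| + C * ε * (7 * (|Λ₁| + |Λ₂|))) * (1 + ‖x‖) = |M₁| * (1 + ‖x‖) +
          C * ε * (7 * (|Λ₁| + |Λ₂|)) + C * ε * (7 * (|Λ₁| + |Λ₂|)) * ‖x‖ := by ring
      linarith
  · have h4 : R' ≤ ‖x‖ := by linarith
    rw [hD2b x hx h4]
    refine ⟨⟨τ x, ?_⟩, (hτ x hx (hR2'.trans h4)).1⟩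
    rw [bet_far hR' b₁ b₂ h3]

end Pool.Agent.TSM
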