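import Pool.Agent.TSM.SStmts

/-!
# TSM, module ATL: smooth charts from local equations
-/

set_option autoImplicit false

namespace Pool.Agent.TSM

open Set Filter Topology
open scoped Manifold ContDiff

namespace ATL_

/-- a projection to the plane whose kernel is a line transverse to the kernel of `ℓ` -/
lemma exists_proj (ℓ : E3 →L[ℝ] ℝ) (h : ℓ ≠ 0) :
    ∃ (e0 : E3) (π : E3 →L[ℝ] E2), ℓ e0 ≠ 0 ∧ ∀ v, π v = 0 → ∃ t : ℝ, v = t • e0 := by
  obtain ⟨e0, he0⟩ : ∃ e0, ℓ e0 ≠ 0 := by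
    by_contra hc
    push Not at hc
    exact h (ContinuousLinearMap.ext (fun v => by simpa using hc v))
  set K : Submodule ℝ E3 := LinearMap.ker ℓ.toLinearMap with hK
  have hfr : Module.finrank ℝ K = Module.finrank ℝ E2 := by
    have h1 := LinearMap.finrank_range_add_finrank_ker ℓ.toLinearMap
    have h2 : LinearMap.range ℓ.toLinearMap = ⊤ := by
      rw [LinearMap.range_eq_top]
      intro r
      refine ⟨(r / ℓ e0) • e0, ?_⟩
      have : ℓ ((r / ℓ e0) • e0) = r := by
        rw [map_smul, smul_eq_mul]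
        field_simp
      simpa using this
    have h3 : Module.finrank ℝ E2 = 2 := by simp
    have h4 : Module.finrank ℝ (⊤ : Submodule ℝ ℝ) = 1 := by simp
    have h5 : Module.finrank ℝ E3 = 3 := by simp
    rw [h2, h4, h5, ← hK] at h1
    rw [h3]
    omega
  let φ : K ≃ₗ[ℝ] E2 := LinearEquiv.ofFinrankEq _ _ hfr
  let P : E3 →ₗ[ℝ] K :=
    LinearMap.codRestrict K (LinearMap.id - (ℓ.toLinearMap.smulRight ((ℓ e0)⁻¹ • e0))) (by
      intro v
      rw [hK, LinearMap.mem_ker]
      simp only [LinearMap.sub_apply, LinearMap.id_apply, LinearMap.smulRight_apply, map_sub,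
        map_smul, smul_eq_mul, ContinuousLinearMap.coe_coe]
      field_simp
      ring)
  let π : E3 →L[ℝ] E2 := LinearMap.toContinuousLinearMap (φ.toLinearMap.comp P)
  refine ⟨e0, π, he0, fun v hv => ?_⟩
  have h1 : φ (P v) = 0 := by
    simpa [π] using hv
  have h2 : P v = 0 := by
    simpa using h1
  have h3 : ((P v : K) : E3) = 0 := by rw [h2]; rfl
  have h4 : ((P v : K) : E3) = v - ℓ v • ((ℓ e0)⁻¹ • e0) := by
    simp [P]
  rw [h4] at h3
  refine ⟨ℓ v * (ℓ e0)⁻¹, ?_⟩
  rw [sub_eq_zero] at h3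
  rw [mul_smul]
  exact h3

lemma exists_equiv (e0 : E3) (π : E3 →L[ℝ] E2) (hπ : ∀ v, π v = 0 → ∃ t : ℝ, v = t • e0)
    (ℓ : E3 →L[ℝ] ℝ) (h : ℓ e0 ≠ 0) :
    ∃ L : E3 ≃L[ℝ] E2 × ℝ, (L : E3 →L[ℝ] E2 × ℝ) = π.prod ℓ := by
  have hinj : Function.Injective (π.prod ℓ) := by
    rw [injective_iff_map_eq_zero]
    intro v hv
    have h1 : π v = 0 := congrArg Prod.fst hv
    have h2 : ℓ v = 0 := congrArg Prod.snd hv
    obtain ⟨t, rfl⟩ := hπ v h1
    rw [map_smul, smul_eq_mul] at h2
    rcases mul_eq_zero.1 h2 with h3 | h3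
    · rw [h3, zero_smul]
    · exact absurd h3 h
  have hfr : Module.finrank ℝ E3 = Module.finrank ℝ (E2 × ℝ) := by simp
  let L0 : E3 ≃ₗ[ℝ] E2 × ℝ := LinearEquiv.ofInjectiveOfFinrankEq (π.prod ℓ).toLinearMap hinj hfr
  refine ⟨L0.toContinuousLinearEquiv, ?_⟩
  refine ContinuousLinearMap.ext (fun v => ?_)
  rfl

lemma exists_inv (e0 : E3) (π : E3 →L[ℝ] E2) (hπ : ∀ v, π v = 0 → ∃ t : ℝ, v = t • e0)
    (F : E3 → ℝ) (hF : ContDiff ℝ ∞ F) (z0 : E3) (h : fderiv ℝ F z0 e0 ≠ 0) :
    ∃ q : E2 × ℝ → E3, ContDiffAt ℝ ∞ q (π z0, F z0) ∧ ∀ᶠ z in 𝓝 z0, q (π z, F z) = z := by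
  obtain ⟨L, hL⟩ := exists_equiv e0 π hπ (fderiv ℝ F z0) h
  have hcd : ContDiffAt ℝ ∞ (fun z => (π z, F z)) z0 :=
    (π.contDiff.contDiffAt).prodMk hF.contDiffAt
  have hfd : HasFDerivAt (fun z => (π z, F z)) (L : E3 →L[ℝ] E2 × ℝ) z0 := by
    rw [hL]
    exact π.hasFDerivAt.prodMk (hF.contDiffAt.differentiableAt (by simp)).hasFDerivAt
  have hn : (∞ : ℕ∞ω) ≠ 0 := by simp
  refine ⟨hcd.localInverse hfd hn, hcd.to_localInverse hfd hn, ?_⟩
  exact (hcd.hasStrictFDerivAt' hfd hn).eventually_left_inverse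

end ATL_

open ATL_ in
theorem atl_proof (h1 : Stmt_InvM) : Stmt_Atl := by
  intro M _ _ g hg hloc x
  obtain ⟨U, hU, hinjU, F, hF, hdF, hFU⟩ := hloc x
  obtain ⟨e0, π, he0, hπ⟩ := exists_proj (fderiv ℝ F (g x)) hdF
  obtain ⟨q, hq1, hq2⟩ := exists_inv e0 π hπ F hF (g x) he0
  -- the open set of points near `g x`
  have hcont : Continuous (fun z => fderiv ℝ F z e0) :=
    (hF.continuous_fderiv (by simp)).clm_apply continuous_const
  have hev : ∀ᶠ z in 𝓝 (g x), q (π z, F z) = z ∧ fderiv ℝ F z e0 ≠ 0 :=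
    hq2.and (hcont.continuousAt.eventually_ne he0)
  obtain ⟨O, hO1, hO2, hO3⟩ := eventually_nhds_iff.1 hev
  set W : Set M := interior U ∩ g ⁻¹' O with hW
  have hWo : IsOpen W := isOpen_interior.inter (hO2.preimage hg)
  have hxW : x ∈ W := ⟨mem_interior_iff_mem_nhds.2 hU, hO3⟩
  set κ : M → E2 := fun y => π (g y) with hκ
  have hκc : Continuous κ := π.continuous.comp hg
  have hFW : ∀ y ∈ W, F (g y) = 0 := fun y hy => hFU y (interior_subset hy.1)
  have hκinj : InjOn κ W := by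
    intro y hy z hz hyz
    have e1 := (hO1 _ hy.2).1
    have e2 := (hO1 _ hz.2).1
    rw [hFW y hy] at e1
    rw [hFW z hz] at e2
    have e3 : g y = g z := by
      rw [← e1, ← e2]
      have : π (g y) = π (g z) := hyz
      rw [this]
    exact hinjU (interior_subset hy.1) (interior_subset hz.1) e3
  have : Nonempty M := ⟨x⟩
  let e' : PartialEquiv M E2 := hκinj.toPartialEquiv κ W
  have hsrc : e'.source = W := rfl
  have hopen : IsOpenMap (e'.source.domRestrict e') := by
    intro V hV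
    obtain ⟨V', hV', rfl⟩ := isOpen_induced_iff.1 hV
    have h2 : (e'.source.domRestrict e') '' (Subtype.val ⁻¹' V') = κ '' (W ∩ V') := by
      ext u
      constructor
      · rintro ⟨⟨y, hy⟩, hyV, rfl⟩
        exact ⟨y, ⟨hy, hyV⟩, rfl⟩
      · rintro ⟨y, ⟨hy, hyV⟩, rfl⟩
        exact ⟨⟨y, hy⟩, hyV, rfl⟩
    rw [h2]
    exact h1 M (W ∩ V') κ (hWo.inter hV') hκc.continuousOn (hκinj.mono inter_subset_left)
  let e : OpenPartialHomeomorph M E2 :=
    OpenPartialHomeomorph.ofContinuousOpenRestrict e' hκc.continuousOn hopen hWo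
  have hes : e.source = W := rfl
  have hee : ∀ y, e y = κ y := fun y => rfl
  refine ⟨e, hxW, ?_, ?_⟩
  · intro u hu
    have hy : e.symm u ∈ W := e.map_target hu
    have hu2 : π (g (e.symm u)) = u := by
      have := e.right_inv hu
      rw [hee] at this
      exact this
    obtain ⟨s, hs1, hs2⟩ := exists_inv e0 π hπ F hF (g (e.symm u)) (hO1 _ hy.2).2
    have hcu : ContinuousAt e.symm u := e.symm.continuousAt (by simpa using hu)
    have hgc : ContinuousAt (fun w => g (e.symm w)) u := hg.continuousAt.comp hcu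
    have h3 : (g ∘ e.symm) =ᶠ[𝓝 u] (fun w => s (w, 0)) := by
      filter_upwards [hgc.eventually hs2, e.open_target.mem_nhds hu] with w hw1 hw2
      have hw3 : e.symm w ∈ W := e.map_target hw2
      have hw4 : π (g (e.symm w)) = w := by
        have := e.right_inv hw2
        rw [hee] at this
        exact this
      rw [hFW _ hw3, hw4] at hw1
      exact hw1.symm
    rw [hu2, hFW _ hy] at hs1
    have h4 : ContDiffAt ℝ ∞ (fun w : E2 => s (w, 0)) u :=
      ContDiffAt.comp (g := s) (f := fun w : E2 => (w, (0 : ℝ))) u hs1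
        (contDiffAt_id.prodMk contDiffAt_const)
    exact (h4.congr_of_eventuallyEq h3).contDiffWithinAt
  · intro u hu
    have hy : e.symm u ∈ W := e.map_target hu
    have hu2 : π (g (e.symm u)) = u := by
      have := e.right_inv hu
      rw [hee] at this
      exact this
    obtain ⟨s, hs1, hs2⟩ := exists_inv e0 π hπ F hF (g (e.symm u)) (hO1 _ hy.2).2
    have hcu : ContinuousAt e.symm u := e.symm.continuousAt (by simpa using hu)
    have hgc : ContinuousAt (fun w => g (e.symm w)) u := hg.continuousAt.comp hcu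
    have h3 : (g ∘ e.symm) =ᶠ[𝓝 u] (fun w => s (w, 0)) := by
      filter_upwards [hgc.eventually hs2, e.open_target.mem_nhds hu] with w hw1 hw2
      have hw3 : e.symm w ∈ W := e.map_target hw2
      have hw4 : π (g (e.symm w)) = w := by
        have := e.right_inv hw2
        rw [hee] at this
        exact this
      rw [hFW _ hw3, hw4] at hw1
      exact hw1.symm
    rw [hu2, hFW _ hy] at hs1
    have h4 : ContDiffAt ℝ ∞ (fun w : E2 => s (w, 0)) u :=
      ContDiffAt.comp (g := s) (f := fun w : E2 => (w, (0 : ℝ))) u hs1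
        (contDiffAt_id.prodMk contDiffAt_const)
    have h5 : DifferentiableAt ℝ (g ∘ e.symm) u :=
      (h4.congr_of_eventuallyEq h3).differentiableAt (by simp)
    have h6 : HasFDerivAt (fun w => π ((g ∘ e.symm) w))
        (π.comp (fderiv ℝ (g ∘ e.symm) u)) u := π.hasFDerivAt.comp u h5.hasFDerivAt
    have h7 : (fun w => π ((g ∘ e.symm) w)) =ᶠ[𝓝 u] (fun w => w) := by
      filter_upwards [e.open_target.mem_nhds hu] with w hw2
      have := e.right_inv hw2
      rw [hee] at this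
      exact this
    have h8 : HasFDerivAt (fun w : E2 => w) (π.comp (fderiv ℝ (g ∘ e.symm) u)) u :=
      h6.congr_of_eventuallyEq h7.symm
    have h9 : π.comp (fderiv ℝ (g ∘ e.symm) u) = ContinuousLinearMap.id ℝ E2 :=
      h8.unique (hasFDerivAt_id u)
    intro a b hab
    have ha : π (fderiv ℝ (g ∘ e.symm) u a) = a := by
      have := congrArg (fun T : E2 →L[ℝ] E2 => T a) h9
      simpa using this
    have hb : π (fderiv ℝ (g ∘ e.symm) u b) = b := by
      have := congrArg (fun T : E2 →L[ℝ] E2 => T b) h9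
      simpa using this
    rw [← ha, ← hb, hab]

end Pool.Agent.TSM
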