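import Pool.Agent.TSM.VStmts

/-!
# TSM, module BAS: polygons with four vertices
-/

set_option autoImplicit false

namespace Pool.Agent.TSM

open Set Filter Topology Metric

namespace BAS_

variable {V : Type} [DecidableEq V]

theorem condG_empty (L : Pg V) (κ : Type) (μ ε : ℝ) (N : κ → E3) :
    L.CondG μ ε (fun _ => (∅ : Finset κ)) N := by
  intro i _
  refine ⟨fun _ => rfl, ?_, ?_⟩
  · intro n hn
    exact absurd hn (Finset.notMem_empty n)
  · intro n hn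
    exact absurd hn (Finset.notMem_empty n)

theorem cond_empty (L : Pg V) (ε : ℝ) (N : Sym2 V → E3) :
    L.Cond ε (fun _ => (∅ : Finset (Sym2 V))) N := by
  intro i _
  refine ⟨fun _ => rfl, ?_, ?_⟩
  · intro n hn
    exact absurd hn (Finset.notMem_empty n)
  · intro n hn
    exact absurd hn (Finset.notMem_empty n)

theorem adm_const (L : Pg V) (e : E3) (he : ∀ i ∈ L.S, 0 < (inner ℝ (L.nor i) e : ℝ)) :
    L.Adm (fun _ => e) := by
  classical
  obtain ⟨c, hc, hcm⟩ : ∃ c : ℝ, 0 < c ∧ ∀ i ∈ L.S, c ≤ (inner ℝ (L.nor i) e : ℝ) := by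
    by_cases hS : L.S.Nonempty
    · obtain ⟨i, hi, hmin⟩ := L.S.exists_min_image (fun i => (inner ℝ (L.nor i) e : ℝ)) hS
      exact ⟨_, he i hi, hmin⟩
    · rw [Finset.not_nonempty_iff_eq_empty] at hS
      refine ⟨1, one_pos, ?_⟩
      intro i hi
      rw [hS] at hi
      exact absurd hi (Finset.notMem_empty i)
  refine ⟨‖e‖, c, hc, ?_, ?_, ?_⟩
  · intro x _ _
    exact le_refl _
  · intro x _ y _ _ _
    simp only [sub_self, norm_zero, mul_zero]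
    positivity
  · intro i hi x _ _
    exact hcm i hi

end BAS_

theorem bas_proof (h1 : Stmt_Basc) (h2 : Stmt_Bask) (h3 : Stmt_Trans) : Stmt_Bas := by
  intro V _ L hL h4 b hb
  obtain ⟨e, he, ε₀, hε₀, hres⟩ : ∃ e : E3, (∀ i ∈ L.S, 0 < (inner ℝ (L.nor i) e : ℝ)) ∧
      ∃ ε₀ : ℝ, 0 < ε₀ ∧ ∀ ε : ℝ, 0 < ε → ε < ε₀ →
        L.Res (fun _ => (∅ : Finset (Sym2 V))) (fun _ => 0) ε (fun _ => e) := by
    rcases hL.kind with ⟨hX, _⟩ | ⟨m, hX, _⟩
    · exact h1 V L hL hX h4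
    · exact h2 V L m hL hX h4
  obtain ⟨ε₁, hε₁, htr⟩ := h3 V L hL (fun _ => e) b (BAS_.adm_const L e he) hb 1 one_pos
  refine ⟨min ε₀ ε₁, lt_min hε₀ hε₁, ?_⟩
  intro ε h0 hlt
  refine ⟨fun _ => ∅, fun _ => 0, BAS_.cond_empty L ε _, ?_⟩
  exact htr ε h0 (lt_of_lt_of_le hlt (min_le_right _ _)) (Sym2 V) _ _
    (BAS_.condG_empty L (Sym2 V) 1 ε _)
    (hres ε h0 (lt_of_lt_of_le hlt (min_le_left _ _)))

end Pool.Agent.TSM
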