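import Pool.Agent.TSM.VStmts

/-!
# TSM: BASC, the base case of closed type
-/

set_option autoImplicit false

open Set Filter Topology Metric

namespace Pool.Agent.TSM

namespace BASC_

/-! ### Algebra of cross products -/

theorem inner3 (a b : E3) : (inner ℝ a b : ℝ) = a 0 * b 0 + a 1 * b 1 + a 2 * b 2 := by
  rw [PiLp.inner_apply, Fin.sum_univ_three]
  simp only [RCLike.inner_apply, conj_trivial]
  ring

theorem ext3 {x y : E3} (h0 : x 0 = y 0) (h1 : x 1 = y 1) (h2 : x 2 = y 2) : x = y := by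
  ext i
  fin_cases i
  · exact h0
  · exact h1
  · exact h2

theorem crs_zero (a b : E3) : crs a b 0 = a 1 * b 2 - a 2 * b 1 := rfl
theorem crs_one (a b : E3) : crs a b 1 = a 2 * b 0 - a 0 * b 2 := rfl
theorem crs_two (a b : E3) : crs a b 2 = a 0 * b 1 - a 1 * b 0 := rfl

theorem inner_crs (a b c : E3) : (inner ℝ (crs a b) c : ℝ) = det3 a b c := by
  rw [inner3, crs_zero, crs_one, crs_two, det3]; ring

theorem det3_cyc (a b c : E3) : det3 b c a = det3 a b c := by simp only [det3]; ring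
theorem det3_aab (a b : E3) : det3 a a b = 0 := by simp only [det3]; ring
theorem det3_aba (a b : E3) : det3 a b a = 0 := by simp only [det3]; ring
theorem det3_baa (a b : E3) : det3 b a a = 0 := by simp only [det3]; ring

/-- The determinant of three consecutive normals. -/
theorem det3_nor (P Q R S : E3) :
    det3 (crs P Q) (crs Q R) (crs R S) = det3 P Q R * det3 Q R S := by
  simp only [det3, crs_zero, crs_one, crs_two]; ring

theorem indep_of_det (a b c : Aff) (h : det3 a.1 b.1 c.1 ≠ 0) : Indep a b c := by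
  unfold Indep
  rw [Fintype.linearIndependent_iff]
  intro g hg
  rw [Fin.sum_univ_three] at hg
  simp only [Matrix.cons_val_zero, Matrix.cons_val_one, Matrix.cons_val_two, Matrix.head_cons,
    Matrix.tail_cons] at hg
  have hc : ∀ k : Fin 3, g 0 * a.1 k + g 1 * b.1 k + g 2 * c.1 k = 0 := by
    intro k
    have := congrArg (fun v : E3 => v k) hg
    simpa using this
  have h0 := hc 0
  have h1 := hc 1
  have h2 := hc 2
  have e0 : g 0 * det3 a.1 b.1 c.1 = 0 := by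
    have : g 0 * det3 a.1 b.1 c.1 =
        (g 0 * a.1 0 + g 1 * b.1 0 + g 2 * c.1 0) * (b.1 1 * c.1 2 - b.1 2 * c.1 1)
        - (g 0 * a.1 1 + g 1 * b.1 1 + g 2 * c.1 1) * (b.1 0 * c.1 2 - b.1 2 * c.1 0)
        + (g 0 * a.1 2 + g 1 * b.1 2 + g 2 * c.1 2) * (b.1 0 * c.1 1 - b.1 1 * c.1 0) := by
      simp only [det3]; ring
    rw [this, h0, h1, h2]; ring
  have e1 : g 1 * det3 a.1 b.1 c.1 = 0 := by
    have : g 1 * det3 a.1 b.1 c.1 =
        -((g 0 * a.1 0 + g 1 * b.1 0 + g 2 * c.1 0) * (a.1 1 * c.1 2 - a.1 2 * c.1 1)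
        - (g 0 * a.1 1 + g 1 * b.1 1 + g 2 * c.1 1) * (a.1 0 * c.1 2 - a.1 2 * c.1 0)
        + (g 0 * a.1 2 + g 1 * b.1 2 + g 2 * c.1 2) * (a.1 0 * c.1 1 - a.1 1 * c.1 0)) := by
      simp only [det3]; ring
    rw [this, h0, h1, h2]; ring
  have e2 : g 2 * det3 a.1 b.1 c.1 = 0 := by
    have : g 2 * det3 a.1 b.1 c.1 =
        (g 0 * a.1 0 + g 1 * b.1 0 + g 2 * c.1 0) * (a.1 1 * b.1 2 - a.1 2 * b.1 1)
        - (g 0 * a.1 1 + g 1 * b.1 1 + g 2 * c.1 1) * (a.1 0 * b.1 2 - a.1 2 * b.1 0)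
        + (g 0 * a.1 2 + g 1 * b.1 2 + g 2 * c.1 2) * (a.1 0 * b.1 1 - a.1 1 * b.1 0) := by
      simp only [det3]; ring
    rw [this, h0, h1, h2]; ring
  intro i
  fin_cases i
  · exact (mul_eq_zero.1 e0).resolve_right h
  · exact (mul_eq_zero.1 e1).resolve_right h
  · exact (mul_eq_zero.1 e2).resolve_right h

/-- The determinant which vanishes if four planes have a common point. -/
def dd (A B C D : Aff) : ℝ :=
  A.2 * det3 B.1 C.1 D.1 - B.2 * det3 A.1 C.1 D.1 + C.2 * det3 A.1 B.1 D.1 -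
    D.2 * det3 A.1 B.1 C.1

theorem dd_zero (A B C D : Aff) (y : E3) (hA : ev A y = 0) (hB : ev B y = 0) (hC : ev C y = 0)
    (hD : ev D y = 0) : dd A B C D = 0 := by
  unfold ev at hA hB hC hD
  rw [inner3] at hA hB hC hD
  have hA' := (sub_eq_zero.1 hA).symm
  have hB' := (sub_eq_zero.1 hB).symm
  have hC' := (sub_eq_zero.1 hC).symm
  have hD' := (sub_eq_zero.1 hD).symm
  unfold dd
  rw [hA', hB', hC', hD']
  simp only [det3]
  ring

/-! ### The max-min function -/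

/-- The combination of the four planes. -/
noncomputable def FF (u : Fin 4 → ℝ) : ℝ := max (min (u 3) (u 0)) (min (u 1) (u 2))

theorem FF_le_zero (u : Fin 4 → ℝ) :
    FF u ≤ 0 ↔ (u 3 ≤ 0 ∨ u 0 ≤ 0) ∧ (u 1 ≤ 0 ∨ u 2 ≤ 0) := by
  unfold FF
  rw [max_le_iff, min_le_iff, min_le_iff]

theorem zero_le_FF (u : Fin 4 → ℝ) :
    0 ≤ FF u ↔ (0 ≤ u 3 ∧ 0 ≤ u 0) ∨ (0 ≤ u 1 ∧ 0 ≤ u 2) := by
  unfold FF
  rw [le_max_iff, le_min_iff, le_min_iff]

theorem FF_eq_zero (u : Fin 4 → ℝ) :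
    FF u = 0 ↔ ((u 3 ≤ 0 ∨ u 0 ≤ 0) ∧ (u 1 ≤ 0 ∨ u 2 ≤ 0)) ∧
      ((0 ≤ u 3 ∧ 0 ≤ u 0) ∨ (0 ≤ u 1 ∧ 0 ≤ u 2)) := by
  rw [← FF_le_zero, ← zero_le_FF]
  exact ⟨fun h => ⟨h.le, h.ge⟩, fun h => le_antisymm h.1 h.2⟩

theorem FF_lt {u v : Fin 4 → ℝ} (h : ∀ j, u j < v j) : FF u < FF v :=
  max_lt_max (min_lt_min (h 3) (h 0)) (min_lt_min (h 1) (h 2))

theorem FF_mul {v w : Fin 4 → ℝ} (hv : ∀ j, 0 < v j) (h : FF w = 0) :
    FF (fun j => v j * w j) = 0 := by
  rw [FF_eq_zero] at h ⊢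
  have h1 : ∀ j, v j * w j ≤ 0 ↔ w j ≤ 0 := fun j => by
    constructor
    · intro h2
      by_contra h3
      have := mul_pos (hv j) (not_le.1 h3)
      linarith
    · intro h2
      exact mul_nonpos_of_nonneg_of_nonpos (hv j).le h2
  have h2 : ∀ j, 0 ≤ v j * w j ↔ 0 ≤ w j := fun j => by
    constructor
    · intro h2
      by_contra h3
      have := mul_neg_of_pos_of_neg (hv j) (not_le.1 h3)
      linarith
    · intro h2
      exact mul_nonneg (hv j).le h2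
  simp only [h1, h2]
  exact h

theorem FF_sub (u : Fin 4 → ℝ) (t : ℝ) : FF (fun j => u j - t) = FF u - t := by
  unfold FF
  rw [min_sub_sub_right, min_sub_sub_right, max_sub_sub_right]

/-- The displacement. -/
theorem FF_shift {u v : Fin 4 → ℝ} (hv : ∀ j, 0 < v j) :
    FF (fun j => u j - FF (fun j => u j / v j) * v j) = 0 := by
  have h1 : FF (fun j => u j / v j - FF (fun j => u j / v j)) = 0 := by
    rw [FF_sub (fun j => u j / v j)]
    ring
  have h2 := FF_mul hv h1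
  have h3 : (fun j => v j * (u j / v j - FF (fun j => u j / v j))) =
      fun j => u j - FF (fun j => u j / v j) * v j := by
    funext j
    have := (hv j).ne'
    field_simp
  rw [h3] at h2
  exact h2

theorem FF_bound {u v : Fin 4 → ℝ} (hv : ∀ j, 0 < v j) {t s : ℝ}
    (h0 : FF (fun j => u j - t * v j) = 0) (h1 : FF (fun j => u j - s * v j) ≤ 0) : t ≤ s := by
  by_contra h
  rw [not_le] at h
  have : FF (fun j => u j - t * v j) < FF (fun j => u j - s * v j) := FF_lt fun j => by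
    have := mul_lt_mul_of_pos_right h (hv j)
    linarith
  linarith

theorem FF_bound' {u v : Fin 4 → ℝ} (hv : ∀ j, 0 < v j) {t s : ℝ}
    (h0 : FF (fun j => u j - t * v j) = 0) (h1 : 0 ≤ FF (fun j => u j - s * v j)) : s ≤ t := by
  by_contra h
  rw [not_le] at h
  have : FF (fun j => u j - s * v j) < FF (fun j => u j - t * v j) := FF_lt fun j => by
    have := mul_lt_mul_of_pos_right h (hv j)
    linarith
  linarith

theorem FF_mono {u v : Fin 4 → ℝ} (h : ∀ j, u j ≤ v j) : FF u ≤ FF v :=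
  max_le_max (min_le_min (h 3) (h 0)) (min_le_min (h 1) (h 2))

/-! ### Germs -/

theorem germ3 (B1 B2 B3 B4 : Aff) (hI : Indep B1 B2 B3) (z0 : E3) (h4 : ev B4 z0 ≠ 0) :
    ∃ a b c : Aff, Indep a b c ∧ ∀ᶠ z in 𝓝 z0,
      max (min (ev B1 z) (ev B2 z)) (min (ev B3 z) (ev B4 z)) = 0 → G3 a b c z = 0 := by
  have hcont : ∀ B : Aff, Continuous (ev B) := by
    intro B
    unfold ev
    fun_prop
  rcases lt_or_gt_of_ne h4 with h | h
  · -- negative
    refine ⟨B1, B2, (B3.1, inner ℝ B3.1 z0 + 1), hI, ?_⟩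
    have h1 : ∀ᶠ z in 𝓝 z0, ev B4 z < 0 := (hcont B4).continuousAt.eventually_lt_const h
    have h2 : ∀ᶠ z in 𝓝 z0, ev (B3.1, inner ℝ B3.1 z0 + 1) z < 0 := by
      apply (hcont _).continuousAt.eventually_lt_const
      simp [ev]
    filter_upwards [h1, h2] with z hz1 hz2 hz
    have h3 : min (ev B3 z) (ev B4 z) < 0 := min_lt_of_right_lt hz1
    have h5 : min (ev B1 z) (ev B2 z) = 0 := by
      rcases le_total (min (ev B1 z) (ev B2 z)) (min (ev B3 z) (ev B4 z)) with h6 | h6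
      · rw [max_eq_right h6] at hz
        linarith
      · rw [max_eq_left h6] at hz
        exact hz
    unfold G3
    rw [h5]
    exact max_eq_left hz2.le
  · refine ⟨B1, B2, B3, hI, ?_⟩
    have h1 : ∀ᶠ z in 𝓝 z0, 0 < ev B4 z := (hcont B4).continuousAt.eventually_const_lt h
    filter_upwards [h1] with z hz1 hz
    have h2 : min (ev B3 z) (ev B4 z) ≤ 0 := by
      rw [← hz]
      exact le_max_right _ _
    have h3 : ev B3 z ≤ 0 := by
      rcases min_le_iff.1 h2 with h3 | h3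
      · exact h3
      · linarith
    have h4 : min (ev B3 z) (ev B4 z) = ev B3 z := min_eq_left (by linarith)
    unfold G3
    rw [← h4]
    exact hz


theorem germ4 (A : Fin 4 → Aff) (h012 : det3 (A 0).1 (A 1).1 (A 2).1 ≠ 0)
    (h123 : det3 (A 1).1 (A 2).1 (A 3).1 ≠ 0) (h230 : det3 (A 2).1 (A 3).1 (A 0).1 ≠ 0)
    (h301 : det3 (A 3).1 (A 0).1 (A 1).1 ≠ 0) (z0 : E3) (hz : ∃ j, ev (A j) z0 ≠ 0) :
    ∃ a b c : Aff, Indep a b c ∧ ∀ᶠ z in 𝓝 z0,
      FF (fun j => ev (A j) z) = 0 → G3 a b c z = 0 := by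
  obtain ⟨j, hj⟩ := hz
  fin_cases j
  · obtain ⟨a, b, c, hI, h⟩ := germ3 (A 1) (A 2) (A 3) (A 0) (indep_of_det _ _ _ h123) z0 hj
    refine ⟨a, b, c, hI, ?_⟩
    filter_upwards [h] with z hz h0
    apply hz
    rw [max_comm]
    exact h0
  · have h : det3 (A 3).1 (A 0).1 (A 2).1 ≠ 0 := by rwa [det3_cyc]
    obtain ⟨a, b, c, hI, h⟩ := germ3 (A 3) (A 0) (A 2) (A 1) (indep_of_det _ _ _ h) z0 hj
    refine ⟨a, b, c, hI, ?_⟩
    filter_upwards [h] with z hz h0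
    apply hz
    rw [min_comm (ev (A 2) z)]
    exact h0
  · obtain ⟨a, b, c, hI, h⟩ := germ3 (A 3) (A 0) (A 1) (A 2) (indep_of_det _ _ _ h301) z0 hj
    refine ⟨a, b, c, hI, ?_⟩
    filter_upwards [h] with z hz h0
    exact hz h0
  · have h : det3 (A 1).1 (A 2).1 (A 0).1 ≠ 0 := by rwa [det3_cyc]
    obtain ⟨a, b, c, hI, h⟩ := germ3 (A 1) (A 2) (A 0) (A 3) (indep_of_det _ _ _ h) z0 hj
    refine ⟨a, b, c, hI, ?_⟩
    filter_upwards [h] with z hz h0
    apply hz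
    rw [max_comm, min_comm (ev (A 0) z)]
    exact h0

/-! ### The displacement -/

theorem disp (n : Fin 4 → E3) (e : E3) (he : ∀ j, 0 < (inner ℝ (n j) e : ℝ)) (o : Fin 4 → ℝ)
    (ho : ∀ j, |o j| ≤ 1) (δ : ℝ) (hδ : 0 < δ) : ∃ η R K : ℝ, 0 < η ∧ 0 < R ∧
    ∀ A : Fin 4 → Aff, (∀ j, ‖(A j).1 - n j‖ < η ∧ |(A j).2 - o j| < η) →
    (∀ j, 0 < (inner ℝ (A j).1 e : ℝ)) ∧
    ∀ x : E3, FF (fun j => inner ℝ (n j) x) = 0 → ∀ t : ℝ,
      FF (fun j => ev (A j) x - t * inner ℝ (A j).1 e) = 0 →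
      |t| ≤ K * (1 + ‖x‖) ∧
      (R ≤ ‖x‖ → ∀ j, |ev (A j) (x - t • e) - inner ℝ (n j) x| ≤ δ * ‖x‖) := by
  obtain ⟨j0, hj0⟩ := Finite.exists_min (fun j => (inner ℝ (n j) e : ℝ))
  obtain ⟨j1, hj1⟩ := Finite.exists_max (fun j => ‖n j‖)
  set v : ℝ := inner ℝ (n j0) e with hv
  set N : ℝ := ‖n j1‖ with hN
  have hv0 : 0 < v := he j0
  have hN0 : 0 ≤ N := norm_nonneg _
  set M : ℝ := 1 + 2 / v * ((N + 1) * ‖e‖) with hM
  have hM1 : 1 ≤ M := by
    have : 0 ≤ 2 / v * ((N + 1) * ‖e‖) := by positivity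
    linarith
  have hM0 : 0 < M := by linarith
  have he1 : 0 < ‖e‖ + 1 := by positivity
  refine ⟨min (min 1 (v / (2 * (‖e‖ + 1)))) (δ / (2 * M)), 4 * M / δ, 4 / v, by positivity,
    by positivity, ?_⟩
  intro A hA
  set η := min (min 1 (v / (2 * (‖e‖ + 1)))) (δ / (2 * M)) with hη
  have hη1 : η ≤ 1 := le_trans (min_le_left _ _) (min_le_left _ _)
  have hη2 : η ≤ v / (2 * (‖e‖ + 1)) := le_trans (min_le_left _ _) (min_le_right _ _)
  have hη3 : η ≤ δ / (2 * M) := min_le_right _ _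
  have hη0 : 0 ≤ η := by positivity
  have hspeed : ∀ j, v / 2 ≤ (inner ℝ (A j).1 e : ℝ) := by
    intro j
    have h1 : (inner ℝ (A j).1 e : ℝ) = inner ℝ (n j) e + inner ℝ ((A j).1 - n j) e := by
      rw [inner_sub_left]; ring
    have h2 : |(inner ℝ ((A j).1 - n j) e : ℝ)| ≤ ‖(A j).1 - n j‖ * ‖e‖ :=
      abs_real_inner_le_norm _ _
    have h3 : ‖(A j).1 - n j‖ * ‖e‖ ≤ v / 2 := by
      calc ‖(A j).1 - n j‖ * ‖e‖ ≤ v / (2 * (‖e‖ + 1)) * (‖e‖ + 1) := by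
            apply mul_le_mul (le_trans (hA j).1.le hη2) (by linarith) (norm_nonneg _)
            positivity
        _ = v / 2 := by field_simp
    have h4 := hj0 j
    have h5 := abs_le.1 h2
    rw [h1]
    linarith
  have hpos : ∀ j, 0 < (inner ℝ (A j).1 e : ℝ) := fun j => lt_of_lt_of_le (by linarith) (hspeed j)
  refine ⟨hpos, ?_⟩
  intro x hx t ht
  have hx0 : 0 ≤ ‖x‖ := norm_nonneg x
  set E : ℝ := η * ‖x‖ + 2 with hE
  have hE0 : 0 ≤ E := by positivity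
  have hu : ∀ j, |ev (A j) x - inner ℝ (n j) x| ≤ E := by
    intro j
    have h1 : ev (A j) x - inner ℝ (n j) x = inner ℝ ((A j).1 - n j) x - (A j).2 := by
      unfold ev
      rw [inner_sub_left]; ring
    have h2 : |(inner ℝ ((A j).1 - n j) x : ℝ)| ≤ ‖(A j).1 - n j‖ * ‖x‖ :=
      abs_real_inner_le_norm _ _
    have h3 : ‖(A j).1 - n j‖ * ‖x‖ ≤ η * ‖x‖ :=
      mul_le_mul_of_nonneg_right (hA j).1.le hx0
    have h4 : |(A j).2| ≤ 2 := by
      have h5 : |(A j).2| ≤ |(A j).2 - o j| + |o j| := by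
        calc |(A j).2| = |((A j).2 - o j) + o j| := by ring_nf
          _ ≤ _ := abs_add_le _ _
      have := ho j
      have := (hA j).2
      linarith
    rw [h1]
    calc |(inner ℝ ((A j).1 - n j) x : ℝ) - (A j).2|
        ≤ |(inner ℝ ((A j).1 - n j) x : ℝ)| + |(A j).2| := abs_sub _ _
      _ ≤ E := by rw [hE]; linarith
  have ht1 : t ≤ 2 * E / v := by
    apply FF_bound hpos ht
    rw [← hx]
    apply FF_mono
    intro j
    have h1 := (abs_le.1 (hu j)).2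
    have h2 : E ≤ 2 * E / v * inner ℝ (A j).1 e := by
      calc E = 2 * E / v * (v / 2) := by field_simp
        _ ≤ _ := mul_le_mul_of_nonneg_left (hspeed j) (by positivity)
    linarith
  have ht2 : -(2 * E / v) ≤ t := by
    apply FF_bound' hpos ht
    rw [← hx]
    apply FF_mono
    intro j
    have h1 := (abs_le.1 (hu j)).1
    have h2 : E ≤ 2 * E / v * inner ℝ (A j).1 e := by
      calc E = 2 * E / v * (v / 2) := by field_simp
        _ ≤ _ := mul_le_mul_of_nonneg_left (hspeed j) (by positivity)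
    linarith
  have ht3 : |t| ≤ 2 * E / v := abs_le.2 ⟨ht2, ht1⟩
  constructor
  · refine le_trans ht3 ?_
    have h1 : E ≤ 2 * (1 + ‖x‖) := by
      rw [hE]
      have := mul_le_mul_of_nonneg_right hη1 hx0
      linarith
    calc 2 * E / v ≤ 2 * (2 * (1 + ‖x‖)) / v := by gcongr
      _ = 4 / v * (1 + ‖x‖) := by ring
  intro hR j
  have h1 : ev (A j) (x - t • e) - inner ℝ (n j) x =
      (ev (A j) x - inner ℝ (n j) x) - t * inner ℝ (A j).1 e := by
    unfold ev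
    rw [inner_sub_right, real_inner_smul_right]; ring
  have h2 : ‖(A j).1‖ ≤ N + 1 := by
    have h3 : ‖(A j).1‖ ≤ ‖(A j).1 - n j‖ + ‖n j‖ := by
      calc ‖(A j).1‖ = ‖((A j).1 - n j) + n j‖ := by rw [sub_add_cancel]
        _ ≤ _ := norm_add_le _ _
    have h4 := hj1 j
    have := (hA j).1
    linarith
  have h3 : |t * (inner ℝ (A j).1 e : ℝ)| ≤ 2 * E / v * ((N + 1) * ‖e‖) := by
    rw [abs_mul]
    apply mul_le_mul ht3 _ (abs_nonneg _) (by positivity)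
    refine le_trans (abs_real_inner_le_norm _ _) ?_
    exact mul_le_mul_of_nonneg_right h2 (norm_nonneg _)
  rw [h1]
  calc |(ev (A j) x - inner ℝ (n j) x) - t * inner ℝ (A j).1 e|
      ≤ |ev (A j) x - inner ℝ (n j) x| + |t * (inner ℝ (A j).1 e : ℝ)| := abs_sub _ _
    _ ≤ E + 2 * E / v * ((N + 1) * ‖e‖) := add_le_add (hu j) h3
    _ = E * M := by rw [hM]; ring
    _ = η * M * ‖x‖ + 2 * M := by rw [hE]; ring
    _ ≤ δ / 2 * ‖x‖ + δ / 2 * ‖x‖ := by
        apply add_le_add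
        · apply mul_le_mul_of_nonneg_right _ hx0
          calc η * M ≤ δ / (2 * M) * M := mul_le_mul_of_nonneg_right hη3 hM0.le
            _ = δ / 2 := by field_simp
        · calc 2 * M = δ / 2 * (4 * M / δ) := by field_simp; ring
            _ ≤ _ := mul_le_mul_of_nonneg_left hR (by positivity)
    _ = δ * ‖x‖ := by ring

/-! ### Open conditions -/

theorem open4 (n : Fin 4 → E3) (o : Fin 4 → ℝ) (h012 : det3 (n 0) (n 1) (n 2) ≠ 0)
    (h123 : det3 (n 1) (n 2) (n 3) ≠ 0) (h230 : det3 (n 2) (n 3) (n 0) ≠ 0)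
    (h301 : det3 (n 3) (n 0) (n 1) ≠ 0)
    (hdd : dd (n 0, o 0) (n 1, o 1) (n 2, o 2) (n 3, o 3) ≠ 0) :
    ∃ η : ℝ, 0 < η ∧ ∀ A : Fin 4 → Aff, (∀ j, ‖(A j).1 - n j‖ < η ∧ |(A j).2 - o j| < η) →
      det3 (A 0).1 (A 1).1 (A 2).1 ≠ 0 ∧ det3 (A 1).1 (A 2).1 (A 3).1 ≠ 0 ∧
      det3 (A 2).1 (A 3).1 (A 0).1 ≠ 0 ∧ det3 (A 3).1 (A 0).1 (A 1).1 ≠ 0 ∧
      dd (A 0) (A 1) (A 2) (A 3) ≠ 0 := by
  have hcoord : ∀ (j : Fin 4) (k : Fin 3), Continuous fun A : Fin 4 → Aff => (A j).1 k := by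
    intro j k
    fun_prop
  have hoff : ∀ (j : Fin 4), Continuous fun A : Fin 4 → Aff => (A j).2 := by
    intro j
    fun_prop
  have hdet : ∀ i j k : Fin 4, Continuous fun A : Fin 4 → Aff =>
      det3 (A i).1 (A j).1 (A k).1 := by
    intro i j k
    unfold det3
    fun_prop
  have hddc : Continuous fun A : Fin 4 → Aff => dd (A 0) (A 1) (A 2) (A 3) := by
    unfold dd
    have := hdet 1 2 3
    have := hdet 0 2 3
    have := hdet 0 1 3
    have := hdet 0 1 2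
    fun_prop
  let A0 : Fin 4 → Aff := fun j => (n j, o j)
  have hev : ∀ᶠ A in 𝓝 A0, det3 (A 0).1 (A 1).1 (A 2).1 ≠ 0 ∧ det3 (A 1).1 (A 2).1 (A 3).1 ≠ 0 ∧
      det3 (A 2).1 (A 3).1 (A 0).1 ≠ 0 ∧ det3 (A 3).1 (A 0).1 (A 1).1 ≠ 0 ∧
      dd (A 0) (A 1) (A 2) (A 3) ≠ 0 := by
    have e1 := (hdet 0 1 2).continuousAt.eventually_ne (x := A0) (y := 0) h012
    have e2 := (hdet 1 2 3).continuousAt.eventually_ne (x := A0) (y := 0) h123
    have e3 := (hdet 2 3 0).continuousAt.eventually_ne (x := A0) (y := 0) h230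
    have e4 := (hdet 3 0 1).continuousAt.eventually_ne (x := A0) (y := 0) h301
    have e5 := hddc.continuousAt.eventually_ne (x := A0) (y := 0) hdd
    filter_upwards [e1, e2, e3, e4, e5] with A a1 a2 a3 a4 a5
    exact ⟨a1, a2, a3, a4, a5⟩
  obtain ⟨η, hη, h⟩ := Metric.eventually_nhds_iff.1 hev
  refine ⟨η, hη, fun A hA => h ?_⟩
  rw [dist_pi_lt_iff hη]
  intro j
  rw [Prod.dist_eq, max_lt_iff, dist_eq_norm, Real.dist_eq]
  exact hA j


/-! ### Margins -/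

theorem arm_margin (n P Q x : E3) (a b ε dm dM M : ℝ) (ha : 0 ≤ a) (hb : 0 ≤ b)
    (hab : a ≤ 2 * ε * b) (h1 : 4 * ε * dM ≤ dm) (h2 : 2 * ε ≤ 1) (hdM : 0 ≤ dM) (hM : 0 < M)
    (hdm : 0 ≤ dm) (hx : x = a • P + b • Q) (hQ : (inner ℝ n Q : ℝ) ≤ -dm)
    (hP : (inner ℝ n P : ℝ) ≤ dM) (hPM : ‖P‖ ≤ M) (hQM : ‖Q‖ ≤ M) :
    (inner ℝ n x : ℝ) ≤ -(2 * (ε * dm / (8 * M)) * ‖x‖) := by
  have h3 : ‖x‖ ≤ 2 * b * M := by
    rw [hx]
    calc ‖a • P + b • Q‖ ≤ ‖a • P‖ + ‖b • Q‖ := norm_add_le _ _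
      _ = a * ‖P‖ + b * ‖Q‖ := by
          rw [norm_smul, norm_smul, Real.norm_of_nonneg ha, Real.norm_of_nonneg hb]
      _ ≤ a * M + b * M :=
          add_le_add (mul_le_mul_of_nonneg_left hPM ha) (mul_le_mul_of_nonneg_left hQM hb)
      _ ≤ 2 * ε * b * M + b * M := by
          have := mul_le_mul_of_nonneg_right hab hM.le
          linarith
      _ ≤ 1 * (b * M) + b * M := by
          have h4 : 0 ≤ b * M := by positivity
          have := mul_le_mul_of_nonneg_right h2 h4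
          linarith
      _ = 2 * b * M := by ring
  have h4 : (inner ℝ n x : ℝ) ≤ -(b * dm / 2) := by
    rw [hx, inner_add_right, real_inner_smul_right, real_inner_smul_right]
    have h5 : a * (inner ℝ n P : ℝ) ≤ a * dM := mul_le_mul_of_nonneg_left hP ha
    have h6 : a * dM ≤ 2 * ε * b * dM := mul_le_mul_of_nonneg_right hab hdM
    have h7 : b * (inner ℝ n Q : ℝ) ≤ b * -dm := mul_le_mul_of_nonneg_left hQ hb
    have h8 : b * (4 * ε * dM) ≤ b * dm := mul_le_mul_of_nonneg_left h1 hb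
    linarith
  refine le_trans h4 (neg_le_neg ?_)
  have h5 : ε * dm / (8 * M) ≤ dm / (16 * M) := by
    rw [div_le_div_iff₀ (by positivity) (by positivity)]
    have : 0 ≤ dm * (8 * M) := by positivity
    nlinarith [mul_le_mul_of_nonneg_right h2 this]
  calc 2 * (ε * dm / (8 * M)) * ‖x‖ ≤ 2 * (dm / (16 * M)) * (2 * b * M) := by
        apply mul_le_mul _ h3 (norm_nonneg _) (by positivity)
        linarith
    _ = b * dm / 4 := by field_simp; ring
    _ ≤ b * dm / 2 := by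
        have : 0 ≤ b * dm := by positivity
        linarith

theorem face_margin (n P Q x : E3) (a b ε dm M : ℝ) (ha : 0 ≤ a) (hb : 0 ≤ b)
    (hε : 0 ≤ ε) (hε1 : 2 * ε ≤ 1) (hab : ε * b ≤ a) (hM : 0 < M) (hdm : 0 ≤ dm)
    (hx : x = a • P + b • Q) (hQ : (inner ℝ n Q : ℝ) = 0)
    (hP : (inner ℝ n P : ℝ) ≤ -dm) (hPM : ‖P‖ ≤ M) (hQM : ‖Q‖ ≤ M) :
    (inner ℝ n x : ℝ) ≤ -(2 * (ε * dm / (8 * M)) * ‖x‖) := by
  have h3 : ε * ‖x‖ ≤ 2 * a * M := by
    have h4 : ‖x‖ ≤ a * M + b * M := by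
      rw [hx]
      calc ‖a • P + b • Q‖ ≤ ‖a • P‖ + ‖b • Q‖ := norm_add_le _ _
        _ = a * ‖P‖ + b * ‖Q‖ := by
            rw [norm_smul, norm_smul, Real.norm_of_nonneg ha, Real.norm_of_nonneg hb]
        _ ≤ a * M + b * M :=
            add_le_add (mul_le_mul_of_nonneg_left hPM ha) (mul_le_mul_of_nonneg_left hQM hb)
    calc ε * ‖x‖ ≤ ε * (a * M + b * M) := mul_le_mul_of_nonneg_left h4 hε
      _ = ε * (a * M) + ε * b * M := by ring
      _ ≤ 1 * (a * M) + a * M := by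
          apply add_le_add
          · exact mul_le_mul_of_nonneg_right (by linarith) (by positivity)
          · exact mul_le_mul_of_nonneg_right hab hM.le
      _ = 2 * a * M := by ring
  have h4 : (inner ℝ n x : ℝ) ≤ -(a * dm) := by
    rw [hx, inner_add_right, real_inner_smul_right, real_inner_smul_right, hQ]
    have h7 : a * (inner ℝ n P : ℝ) ≤ a * -dm := mul_le_mul_of_nonneg_left hP ha
    linarith
  refine le_trans h4 (neg_le_neg ?_)
  calc 2 * (ε * dm / (8 * M)) * ‖x‖ = dm / (4 * M) * (ε * ‖x‖) := by field_simp; ring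
    _ ≤ dm / (4 * M) * (2 * a * M) := mul_le_mul_of_nonneg_left h3 (by positivity)
    _ = a * dm / 2 := by field_simp; ring
    _ ≤ a * dm := by
        have : 0 ≤ a * dm := by positivity
        linarith

theorem w_neg {m w δ X : ℝ} (hδ : 0 < δ) (hX : 0 < X) (h : m ≤ -(2 * δ * X))
    (hw : |w - m| ≤ δ * X) : w < 0 := by
  have h1 := (abs_le.1 hw).2
  have h2 : 0 < δ * X := by positivity
  linarith

theorem w_pos {m w δ X : ℝ} (hδ : 0 < δ) (hX : 0 < X) (h : -m ≤ -(2 * δ * X))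
    (hw : |w - m| ≤ δ * X) : 0 < w := by
  have h1 := (abs_le.1 hw).1
  have h2 : 0 < δ * X := by positivity
  linarith

/-! ### The core -/

/-- The normals of a polygon with four vertices. -/
noncomputable def nn (P : Fin 4 → E3) (j : Fin 4) : E3 := crs (P j) (P (j + 1))

section table

variable (P : Fin 4 → E3)

theorem nn00 : (inner ℝ (nn P 0) (P 0) : ℝ) = 0 := by
  unfold nn; rw [inner_crs]; exact det3_aba _ _
theorem nn01 : (inner ℝ (nn P 0) (P 1) : ℝ) = 0 := by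
  unfold nn; rw [inner_crs]; exact det3_baa _ _
theorem nn02 : (inner ℝ (nn P 0) (P 2) : ℝ) = det3 (P 0) (P 1) (P 2) := by
  unfold nn; rw [inner_crs]; rfl
theorem nn03 : (inner ℝ (nn P 0) (P 3) : ℝ) = det3 (P 3) (P 0) (P 1) := by
  unfold nn; rw [inner_crs]; exact det3_cyc _ _ _
theorem nn10 : (inner ℝ (nn P 1) (P 0) : ℝ) = det3 (P 0) (P 1) (P 2) := by
  unfold nn; rw [inner_crs]; exact det3_cyc _ _ _
theorem nn11 : (inner ℝ (nn P 1) (P 1) : ℝ) = 0 := by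
  unfold nn; rw [inner_crs]; exact det3_aba _ _
theorem nn12 : (inner ℝ (nn P 1) (P 2) : ℝ) = 0 := by
  unfold nn; rw [inner_crs]; exact det3_baa _ _
theorem nn13 : (inner ℝ (nn P 1) (P 3) : ℝ) = det3 (P 1) (P 2) (P 3) := by
  unfold nn; rw [inner_crs]; rfl
theorem nn20 : (inner ℝ (nn P 2) (P 0) : ℝ) = det3 (P 2) (P 3) (P 0) := by
  unfold nn; rw [inner_crs]; rfl
theorem nn21 : (inner ℝ (nn P 2) (P 1) : ℝ) = det3 (P 1) (P 2) (P 3) := by
  unfold nn; rw [inner_crs]; exact det3_cyc _ _ _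
theorem nn22 : (inner ℝ (nn P 2) (P 2) : ℝ) = 0 := by
  unfold nn; rw [inner_crs]; exact det3_aba _ _
theorem nn23 : (inner ℝ (nn P 2) (P 3) : ℝ) = 0 := by
  unfold nn; rw [inner_crs]; exact det3_baa _ _
theorem nn30 : (inner ℝ (nn P 3) (P 0) : ℝ) = 0 := by
  unfold nn; rw [inner_crs]; exact det3_baa _ _
theorem nn31 : (inner ℝ (nn P 3) (P 1) : ℝ) = det3 (P 3) (P 0) (P 1) := by
  unfold nn; rw [inner_crs]; rfl
theorem nn32 : (inner ℝ (nn P 3) (P 2) : ℝ) = det3 (P 2) (P 3) (P 0) := by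
  unfold nn; rw [inner_crs]; exact det3_cyc _ _ _
theorem nn33 : (inner ℝ (nn P 3) (P 3) : ℝ) = 0 := by
  unfold nn; rw [inner_crs]; exact det3_aba _ _

end table

/-- The cone over the polygon. -/
def Cn (P : Fin 4 → E3) : Set E3 :=
  {x | ∃ j : Fin 4, ∃ a b : ℝ, 0 ≤ a ∧ 0 ≤ b ∧ x = a • P j + b • P (j + 1)}

theorem FF_cone (P : Fin 4 → E3) (h0 : det3 (P 0) (P 1) (P 2) < 0)
    (h1 : 0 < det3 (P 1) (P 2) (P 3)) (h2 : det3 (P 2) (P 3) (P 0) < 0)
    (h3 : 0 < det3 (P 3) (P 0) (P 1)) {x : E3} (hx : x ∈ Cn P) :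
    FF (fun j => inner ℝ (nn P j) x) = 0 := by
  obtain ⟨j, a, b, ha, hb, rfl⟩ := hx
  rw [FF_eq_zero]
  simp only [inner_add_right, real_inner_smul_right]
  have e0 : 0 ≤ -(a * det3 (P 0) (P 1) (P 2)) := by nlinarith
  have e0' : 0 ≤ -(b * det3 (P 0) (P 1) (P 2)) := by nlinarith
  have e1 : 0 ≤ a * det3 (P 1) (P 2) (P 3) := by positivity
  have e1' : 0 ≤ b * det3 (P 1) (P 2) (P 3) := by positivity
  have e2 : 0 ≤ -(a * det3 (P 2) (P 3) (P 0)) := by nlinarith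
  have e2' : 0 ≤ -(b * det3 (P 2) (P 3) (P 0)) := by nlinarith
  have e3 : 0 ≤ a * det3 (P 3) (P 0) (P 1) := by positivity
  have e3' : 0 ≤ b * det3 (P 3) (P 0) (P 1) := by positivity
  fin_cases j
  · change (((a * inner ℝ (nn P 3) (P 0) + b * inner ℝ (nn P 3) (P 1) ≤ 0) ∨
      (a * inner ℝ (nn P 0) (P 0) + b * inner ℝ (nn P 0) (P 1) ≤ 0)) ∧
      ((a * inner ℝ (nn P 1) (P 0) + b * inner ℝ (nn P 1) (P 1) ≤ 0) ∨
      (a * inner ℝ (nn P 2) (P 0) + b * inner ℝ (nn P 2) (P 1) ≤ 0))) ∧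
      (((0 ≤ a * inner ℝ (nn P 3) (P 0) + b * inner ℝ (nn P 3) (P 1)) ∧
      (0 ≤ a * inner ℝ (nn P 0) (P 0) + b * inner ℝ (nn P 0) (P 1))) ∨
      ((0 ≤ a * inner ℝ (nn P 1) (P 0) + b * inner ℝ (nn P 1) (P 1)) ∧
      (0 ≤ a * inner ℝ (nn P 2) (P 0) + b * inner ℝ (nn P 2) (P 1))))
    rw [nn00, nn01, nn10, nn11, nn20, nn21, nn30, nn31]
    refine ⟨⟨Or.inr (by linarith), Or.inl (by linarith)⟩, Or.inl ⟨by linarith, by linarith⟩⟩
  · change (((a * inner ℝ (nn P 3) (P 1) + b * inner ℝ (nn P 3) (P 2) ≤ 0) ∨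
      (a * inner ℝ (nn P 0) (P 1) + b * inner ℝ (nn P 0) (P 2) ≤ 0)) ∧
      ((a * inner ℝ (nn P 1) (P 1) + b * inner ℝ (nn P 1) (P 2) ≤ 0) ∨
      (a * inner ℝ (nn P 2) (P 1) + b * inner ℝ (nn P 2) (P 2) ≤ 0))) ∧
      (((0 ≤ a * inner ℝ (nn P 3) (P 1) + b * inner ℝ (nn P 3) (P 2)) ∧
      (0 ≤ a * inner ℝ (nn P 0) (P 1) + b * inner ℝ (nn P 0) (P 2))) ∨
      ((0 ≤ a * inner ℝ (nn P 1) (P 1) + b * inner ℝ (nn P 1) (P 2)) ∧
      (0 ≤ a * inner ℝ (nn P 2) (P 1) + b * inner ℝ (nn P 2) (P 2))))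
    rw [nn01, nn02, nn11, nn12, nn21, nn22, nn31, nn32]
    refine ⟨⟨Or.inr (by linarith), Or.inl (by linarith)⟩, Or.inr ⟨by linarith, by linarith⟩⟩
  · change (((a * inner ℝ (nn P 3) (P 2) + b * inner ℝ (nn P 3) (P 3) ≤ 0) ∨
      (a * inner ℝ (nn P 0) (P 2) + b * inner ℝ (nn P 0) (P 3) ≤ 0)) ∧
      ((a * inner ℝ (nn P 1) (P 2) + b * inner ℝ (nn P 1) (P 3) ≤ 0) ∨
      (a * inner ℝ (nn P 2) (P 2) + b * inner ℝ (nn P 2) (P 3) ≤ 0))) ∧
      (((0 ≤ a * inner ℝ (nn P 3) (P 2) + b * inner ℝ (nn P 3) (P 3)) ∧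
      (0 ≤ a * inner ℝ (nn P 0) (P 2) + b * inner ℝ (nn P 0) (P 3))) ∨
      ((0 ≤ a * inner ℝ (nn P 1) (P 2) + b * inner ℝ (nn P 1) (P 3)) ∧
      (0 ≤ a * inner ℝ (nn P 2) (P 2) + b * inner ℝ (nn P 2) (P 3))))
    rw [nn02, nn03, nn12, nn13, nn22, nn23, nn32, nn33]
    refine ⟨⟨Or.inl (by linarith), Or.inr (by linarith)⟩, Or.inr ⟨by linarith, by linarith⟩⟩
  · change (((a * inner ℝ (nn P 3) (P 3) + b * inner ℝ (nn P 3) (P 0) ≤ 0) ∨
      (a * inner ℝ (nn P 0) (P 3) + b * inner ℝ (nn P 0) (P 0) ≤ 0)) ∧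
      ((a * inner ℝ (nn P 1) (P 3) + b * inner ℝ (nn P 1) (P 0) ≤ 0) ∨
      (a * inner ℝ (nn P 2) (P 3) + b * inner ℝ (nn P 2) (P 0) ≤ 0))) ∧
      (((0 ≤ a * inner ℝ (nn P 3) (P 3) + b * inner ℝ (nn P 3) (P 0)) ∧
      (0 ≤ a * inner ℝ (nn P 0) (P 3) + b * inner ℝ (nn P 0) (P 0))) ∨
      ((0 ≤ a * inner ℝ (nn P 1) (P 3) + b * inner ℝ (nn P 1) (P 0)) ∧
      (0 ≤ a * inner ℝ (nn P 2) (P 3) + b * inner ℝ (nn P 2) (P 0))))
    rw [nn03, nn00, nn13, nn10, nn23, nn20, nn33, nn30]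
    refine ⟨⟨Or.inl (by linarith), Or.inr (by linarith)⟩, Or.inl ⟨by linarith, by linarith⟩⟩


/-- The offsets. -/
def oo (j : Fin 4) : ℝ := if j = 0 then 1 else 0

/-- The equations at the arm `j + 1`. -/
def ArmC (P : Fin 4 → E3) (A : Fin 4 → Aff) (j : Fin 4) (y : E3) : Prop :=
  0 ≤ Real.sign (det3 (P j) (P (j + 1)) (P (j + 1 + 1))) * ev (A j) y ∧
  0 ≤ Real.sign (det3 (P j) (P (j + 1)) (P (j + 1 + 1))) * ev (A (j + 1)) y ∧
  (ev (A j) y = 0 ∨ ev (A (j + 1)) y = 0)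

/-- The conclusions in the far zones. -/
def ZoneC (P : Fin 4 → E3) (A : Fin 4 → Aff) (ε : ℝ) (x y : E3) : Prop :=
  (∀ j : Fin 4, ∀ a b : ℝ, 0 ≤ a → 0 ≤ b → a ≤ 2 * ε * b →
    (x = a • P j + b • P (j + 1) ∨ x = a • P (j + 1 + 1) + b • P (j + 1)) → ArmC P A j y) ∧
  ∀ j : Fin 4, ∀ a b : ℝ, 0 ≤ a → 0 ≤ b → ε * b ≤ a → ε * a ≤ b →
    x = a • P j + b • P (j + 1) → ev (A j) y = 0

theorem zone (P : Fin 4 → E3) (h0 : det3 (P 0) (P 1) (P 2) < 0)
    (h1 : 0 < det3 (P 1) (P 2) (P 3)) (h2 : det3 (P 2) (P 3) (P 0) < 0)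
    (h3 : 0 < det3 (P 3) (P 0) (P 1)) (dm dM M ε : ℝ) (hdm : 0 < dm) (hdM : 0 < dM)
    (hM : 0 < M) (hε : 0 < ε)
    (b0 : det3 (P 0) (P 1) (P 2) ≤ -dm) (b1 : dm ≤ det3 (P 1) (P 2) (P 3))
    (b2 : det3 (P 2) (P 3) (P 0) ≤ -dm) (b3 : dm ≤ det3 (P 3) (P 0) (P 1))
    (c0 : -dM ≤ det3 (P 0) (P 1) (P 2)) (c1 : det3 (P 1) (P 2) (P 3) ≤ dM)
    (c2 : -dM ≤ det3 (P 2) (P 3) (P 0)) (c3 : det3 (P 3) (P 0) (P 1) ≤ dM)
    (hPM : ∀ j, ‖P j‖ ≤ M) (he1 : 4 * ε * dM ≤ dm) (he2 : 2 * ε ≤ 1)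
    (A : Fin 4 → Aff) (x y : E3) (hx : 0 < ‖x‖) (hF : FF (fun j => ev (A j) y) = 0)
    (hw : ∀ j, |ev (A j) y - inner ℝ (nn P j) x| ≤ ε * dm / (8 * M) * ‖x‖) :
    ZoneC P A ε x y := by
  have hδ : 0 < ε * dm / (8 * M) := by positivity
  have hall : ∀ j k, |(inner ℝ (nn P j) (P k) : ℝ)| ≤ dM := by
    intro j k
    rw [abs_le]
    fin_cases j <;> fin_cases k
    · change -dM ≤ (inner ℝ (nn P 0) (P 0) : ℝ) ∧ (inner ℝ (nn P 0) (P 0) : ℝ) ≤ dM
      rw [nn00]; constructor <;> linarith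
    · change -dM ≤ (inner ℝ (nn P 0) (P 1) : ℝ) ∧ (inner ℝ (nn P 0) (P 1) : ℝ) ≤ dM
      rw [nn01]; constructor <;> linarith
    · change -dM ≤ (inner ℝ (nn P 0) (P 2) : ℝ) ∧ (inner ℝ (nn P 0) (P 2) : ℝ) ≤ dM
      rw [nn02]; constructor <;> linarith
    · change -dM ≤ (inner ℝ (nn P 0) (P 3) : ℝ) ∧ (inner ℝ (nn P 0) (P 3) : ℝ) ≤ dM
      rw [nn03]; constructor <;> linarith
    · change -dM ≤ (inner ℝ (nn P 1) (P 0) : ℝ) ∧ (inner ℝ (nn P 1) (P 0) : ℝ) ≤ dM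
      rw [nn10]; constructor <;> linarith
    · change -dM ≤ (inner ℝ (nn P 1) (P 1) : ℝ) ∧ (inner ℝ (nn P 1) (P 1) : ℝ) ≤ dM
      rw [nn11]; constructor <;> linarith
    · change -dM ≤ (inner ℝ (nn P 1) (P 2) : ℝ) ∧ (inner ℝ (nn P 1) (P 2) : ℝ) ≤ dM
      rw [nn12]; constructor <;> linarith
    · change -dM ≤ (inner ℝ (nn P 1) (P 3) : ℝ) ∧ (inner ℝ (nn P 1) (P 3) : ℝ) ≤ dM
      rw [nn13]; constructor <;> linarith
    · change -dM ≤ (inner ℝ (nn P 2) (P 0) : ℝ) ∧ (inner ℝ (nn P 2) (P 0) : ℝ) ≤ dM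
      rw [nn20]; constructor <;> linarith
    · change -dM ≤ (inner ℝ (nn P 2) (P 1) : ℝ) ∧ (inner ℝ (nn P 2) (P 1) : ℝ) ≤ dM
      rw [nn21]; constructor <;> linarith
    · change -dM ≤ (inner ℝ (nn P 2) (P 2) : ℝ) ∧ (inner ℝ (nn P 2) (P 2) : ℝ) ≤ dM
      rw [nn22]; constructor <;> linarith
    · change -dM ≤ (inner ℝ (nn P 2) (P 3) : ℝ) ∧ (inner ℝ (nn P 2) (P 3) : ℝ) ≤ dM
      rw [nn23]; constructor <;> linarith
    · change -dM ≤ (inner ℝ (nn P 3) (P 0) : ℝ) ∧ (inner ℝ (nn P 3) (P 0) : ℝ) ≤ dM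
      rw [nn30]; constructor <;> linarith
    · change -dM ≤ (inner ℝ (nn P 3) (P 1) : ℝ) ∧ (inner ℝ (nn P 3) (P 1) : ℝ) ≤ dM
      rw [nn31]; constructor <;> linarith
    · change -dM ≤ (inner ℝ (nn P 3) (P 2) : ℝ) ∧ (inner ℝ (nn P 3) (P 2) : ℝ) ≤ dM
      rw [nn32]; constructor <;> linarith
    · change -dM ≤ (inner ℝ (nn P 3) (P 3) : ℝ) ∧ (inner ℝ (nn P 3) (P 3) : ℝ) ≤ dM
      rw [nn33]; constructor <;> linarith
  have armN : ∀ (i k l : Fin 4) (a b : ℝ), (inner ℝ (nn P i) (P l) : ℝ) ≤ -dm → 0 ≤ a → 0 ≤ b →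
      a ≤ 2 * ε * b → x = a • P k + b • P l → ev (A i) y < 0 := by
    intro i k l a b hl ha hb hab hx'
    refine w_neg hδ hx ?_ (hw i)
    exact arm_margin (nn P i) (P k) (P l) x a b ε dm dM M ha hb hab he1 he2 hdM.le hM
      hdm.le hx' hl (abs_le.1 (hall i k)).2 (hPM k) (hPM l)
  have armP : ∀ (i k l : Fin 4) (a b : ℝ), dm ≤ (inner ℝ (nn P i) (P l) : ℝ) → 0 ≤ a → 0 ≤ b →
      a ≤ 2 * ε * b → x = a • P k + b • P l → 0 < ev (A i) y := by
    intro i k l a b hl ha hb hab hx'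
    refine w_pos hδ hx ?_ (hw i)
    rw [← inner_neg_left]
    refine arm_margin (-nn P i) (P k) (P l) x a b ε dm dM M ha hb hab he1 he2 hdM.le hM
      hdm.le hx' ?_ ?_ (hPM k) (hPM l)
    · rw [inner_neg_left]; linarith
    · rw [inner_neg_left]
      have := (abs_le.1 (hall i k)).1
      linarith
  have faceN : ∀ (i k l : Fin 4) (a b : ℝ), (inner ℝ (nn P i) (P k) : ℝ) ≤ -dm →
      (inner ℝ (nn P i) (P l) : ℝ) = 0 → 0 ≤ a → 0 ≤ b →
      ε * b ≤ a → x = a • P k + b • P l → ev (A i) y < 0 := by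
    intro i k l a b hk hl ha hb hab hx'
    refine w_neg hδ hx ?_ (hw i)
    exact face_margin (nn P i) (P k) (P l) x a b ε dm M ha hb hε.le he2 hab hM hdm.le hx' hl hk
      (hPM k) (hPM l)
  have faceP : ∀ (i k l : Fin 4) (a b : ℝ), dm ≤ (inner ℝ (nn P i) (P k) : ℝ) →
      (inner ℝ (nn P i) (P l) : ℝ) = 0 → 0 ≤ a → 0 ≤ b →
      ε * b ≤ a → x = a • P k + b • P l → 0 < ev (A i) y := by
    intro i k l a b hk hl ha hb hab hx'
    refine w_pos hδ hx ?_ (hw i)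
    rw [← inner_neg_left]
    refine face_margin (-nn P i) (P k) (P l) x a b ε dm M ha hb hε.le he2 hab hM hdm.le hx'
      ?_ ?_ (hPM k) (hPM l)
    · rw [inner_neg_left, hl, neg_zero]
    · rw [inner_neg_left]; linarith
  rw [FF_eq_zero] at hF
  obtain ⟨⟨f1, f2⟩, f3⟩ := hF
  have n02 : (inner ℝ (nn P 0) (P 2) : ℝ) ≤ -dm := by rw [nn02]; exact b0
  have n03 : dm ≤ (inner ℝ (nn P 0) (P 3) : ℝ) := by rw [nn03]; exact b3
  have n10 : (inner ℝ (nn P 1) (P 0) : ℝ) ≤ -dm := by rw [nn10]; exact b0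
  have n13 : dm ≤ (inner ℝ (nn P 1) (P 3) : ℝ) := by rw [nn13]; exact b1
  have n20 : (inner ℝ (nn P 2) (P 0) : ℝ) ≤ -dm := by rw [nn20]; exact b2
  have n21 : dm ≤ (inner ℝ (nn P 2) (P 1) : ℝ) := by rw [nn21]; exact b1
  have n31 : dm ≤ (inner ℝ (nn P 3) (P 1) : ℝ) := by rw [nn31]; exact b3
  have n32 : (inner ℝ (nn P 3) (P 2) : ℝ) ≤ -dm := by rw [nn32]; exact b2
  constructor
  · intro j a b ha hb hab hx'
    obtain ⟨k, hk⟩ : ∃ k, x = a • P k + b • P (j + 1) := by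
      rcases hx' with h | h
      · exact ⟨_, h⟩
      · exact ⟨_, h⟩
    unfold ArmC
    fin_cases j
    · change x = a • P k + b • P 1 at hk
      change 0 ≤ Real.sign (det3 (P 0) (P 1) (P 2)) * ev (A 0) y ∧
        0 ≤ Real.sign (det3 (P 0) (P 1) (P 2)) * ev (A 1) y ∧ (ev (A 0) y = 0 ∨ ev (A 1) y = 0)
      rw [Real.sign_of_neg h0]
      have w3 := armP 3 k 1 a b n31 ha hb hab hk
      have w2 := armP 2 k 1 a b n21 ha hb hab hk
      have g0 : ev (A 0) y ≤ 0 := f1.resolve_left (by linarith)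
      have g1 : ev (A 1) y ≤ 0 := f2.resolve_right (by linarith)
      refine ⟨by linarith, by linarith, ?_⟩
      rcases f3 with f | f
      · exact Or.inl (le_antisymm g0 f.2)
      · exact Or.inr (le_antisymm g1 f.1)
    · change x = a • P k + b • P 2 at hk
      change 0 ≤ Real.sign (det3 (P 1) (P 2) (P 3)) * ev (A 1) y ∧
        0 ≤ Real.sign (det3 (P 1) (P 2) (P 3)) * ev (A 2) y ∧ (ev (A 1) y = 0 ∨ ev (A 2) y = 0)
      rw [Real.sign_of_pos h1]
      have w3 := armN 3 k 2 a b n32 ha hb hab hk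
      have g : 0 ≤ ev (A 1) y ∧ 0 ≤ ev (A 2) y := f3.resolve_left (fun h => by linarith [h.1])
      refine ⟨by linarith [g.1], by linarith [g.2], ?_⟩
      rcases f2 with f | f
      · exact Or.inl (le_antisymm f g.1)
      · exact Or.inr (le_antisymm f g.2)
    · change x = a • P k + b • P 3 at hk
      change 0 ≤ Real.sign (det3 (P 2) (P 3) (P 0)) * ev (A 2) y ∧
        0 ≤ Real.sign (det3 (P 2) (P 3) (P 0)) * ev (A 3) y ∧ (ev (A 2) y = 0 ∨ ev (A 3) y = 0)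
      rw [Real.sign_of_neg h2]
      have w0 := armP 0 k 3 a b n03 ha hb hab hk
      have w1 := armP 1 k 3 a b n13 ha hb hab hk
      have g3 : ev (A 3) y ≤ 0 := f1.resolve_right (by linarith)
      have g2 : ev (A 2) y ≤ 0 := f2.resolve_left (by linarith)
      refine ⟨by linarith, by linarith, ?_⟩
      rcases f3 with f | f
      · exact Or.inr (le_antisymm g3 f.1)
      · exact Or.inl (le_antisymm g2 f.2)
    · change x = a • P k + b • P 0 at hk
      change 0 ≤ Real.sign (det3 (P 3) (P 0) (P 1)) * ev (A 3) y ∧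
        0 ≤ Real.sign (det3 (P 3) (P 0) (P 1)) * ev (A 0) y ∧ (ev (A 3) y = 0 ∨ ev (A 0) y = 0)
      rw [Real.sign_of_pos h3]
      have w1 := armN 1 k 0 a b n10 ha hb hab hk
      have g : 0 ≤ ev (A 3) y ∧ 0 ≤ ev (A 0) y := f3.resolve_right (fun h => by linarith [h.1])
      refine ⟨by linarith [g.1], by linarith [g.2], ?_⟩
      rcases f1 with f | f
      · exact Or.inl (le_antisymm f g.1)
      · exact Or.inr (le_antisymm f g.2)
  · intro j a b ha hb hab hba hx'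
    fin_cases j
    · change x = a • P 0 + b • P 1 at hx'
      change ev (A 0) y = 0
      have hx2 : x = b • P 1 + a • P 0 := by rw [hx', add_comm]
      have w1 := faceN 1 0 1 a b n10 (nn11 P) ha hb hab hx'
      have w3 := faceP 3 1 0 b a n31 (nn30 P) hb ha hba hx2
      have g0 : ev (A 0) y ≤ 0 := f1.resolve_left (by linarith)
      have g : 0 ≤ ev (A 3) y ∧ 0 ≤ ev (A 0) y := f3.resolve_right (fun h => by linarith [h.1])
      exact le_antisymm g0 g.2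
    · change x = a • P 1 + b • P 2 at hx'
      change ev (A 1) y = 0
      have hx2 : x = b • P 2 + a • P 1 := by rw [hx', add_comm]
      have w0 := faceN 0 2 1 b a n02 (nn01 P) hb ha hba hx2
      have w2 := faceP 2 1 2 a b n21 (nn22 P) ha hb hab hx'
      have g1 : ev (A 1) y ≤ 0 := f2.resolve_right (by linarith)
      have g : 0 ≤ ev (A 1) y ∧ 0 ≤ ev (A 2) y := f3.resolve_left (fun h => by linarith [h.2])
      exact le_antisymm g1 g.1
    · change x = a • P 2 + b • P 3 at hx'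
      change ev (A 2) y = 0
      have hx2 : x = b • P 3 + a • P 2 := by rw [hx', add_comm]
      have w3 := faceN 3 2 3 a b n32 (nn33 P) ha hb hab hx'
      have w1 := faceP 1 3 2 b a n13 (nn12 P) hb ha hba hx2
      have g2 : ev (A 2) y ≤ 0 := f2.resolve_left (by linarith)
      have g : 0 ≤ ev (A 1) y ∧ 0 ≤ ev (A 2) y := f3.resolve_left (fun h => by linarith [h.1])
      exact le_antisymm g2 g.2
    · change x = a • P 3 + b • P 0 at hx'
      change ev (A 3) y = 0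
      have hx2 : x = b • P 0 + a • P 3 := by rw [hx', add_comm]
      have w2 := faceN 2 0 3 b a n20 (nn23 P) hb ha hba hx2
      have w0 := faceP 0 3 0 a b n03 (nn00 P) ha hb hab hx'
      have g3 : ev (A 3) y ≤ 0 := f1.resolve_right (by linarith)
      have g : 0 ≤ ev (A 3) y ∧ 0 ≤ ev (A 0) y := f3.resolve_right (fun h => by linarith [h.2])
      exact le_antisymm g3 g.1


theorem core (P : Fin 4 → E3) (h0 : det3 (P 0) (P 1) (P 2) < 0)
    (h1 : 0 < det3 (P 1) (P 2) (P 3)) (h2 : det3 (P 2) (P 3) (P 0) < 0)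
    (h3 : 0 < det3 (P 3) (P 0) (P 1)) :
    ∃ e : E3, (∀ j, 0 < (inner ℝ (nn P j) e : ℝ)) ∧ ∃ ε₀ : ℝ, 0 < ε₀ ∧
    ∀ ε : ℝ, 0 < ε → ε < ε₀ → ∃ η R K : ℝ, 0 < η ∧ 0 < R ∧
    ∀ A : Fin 4 → Aff, (∀ j, ‖(A j).1 - nn P j‖ < η ∧ |(A j).2 - oo j| < η) →
    ∃ D : E3 → E3, Continuous D ∧ InjOn D (Cn P) ∧
      (∀ x, ∃ a b c : Aff, Indep a b c ∧ ∀ᶠ y in 𝓝 x, G3 a b c (D y) = 0) ∧
      (∀ x ∈ Cn P, ‖D x - x‖ ≤ K * (1 + ‖x‖)) ∧
      ∀ x ∈ Cn P, R ≤ ‖x‖ → (∃ t : ℝ, D x = x - t • e) ∧ ZoneC P A ε x (D x) := by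
  -- constants
  obtain ⟨dm, hdm, b0, b1, b2, b3⟩ : ∃ dm : ℝ, 0 < dm ∧ det3 (P 0) (P 1) (P 2) ≤ -dm ∧
      dm ≤ det3 (P 1) (P 2) (P 3) ∧ det3 (P 2) (P 3) (P 0) ≤ -dm ∧
      dm ≤ det3 (P 3) (P 0) (P 1) := by
    refine ⟨min (min (-det3 (P 0) (P 1) (P 2)) (det3 (P 1) (P 2) (P 3)))
      (min (-det3 (P 2) (P 3) (P 0)) (det3 (P 3) (P 0) (P 1))), ?_, ?_, ?_, ?_, ?_⟩
    · refine lt_min (lt_min ?_ h1) (lt_min ?_ h3) <;> linarith
    · have := min_le_left (min (-det3 (P 0) (P 1) (P 2)) (det3 (P 1) (P 2) (P 3)))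
        (min (-det3 (P 2) (P 3) (P 0)) (det3 (P 3) (P 0) (P 1)))
      have := min_le_left (-det3 (P 0) (P 1) (P 2)) (det3 (P 1) (P 2) (P 3))
      linarith
    · have := min_le_left (min (-det3 (P 0) (P 1) (P 2)) (det3 (P 1) (P 2) (P 3)))
        (min (-det3 (P 2) (P 3) (P 0)) (det3 (P 3) (P 0) (P 1)))
      have := min_le_right (-det3 (P 0) (P 1) (P 2)) (det3 (P 1) (P 2) (P 3))
      linarith
    · have := min_le_right (min (-det3 (P 0) (P 1) (P 2)) (det3 (P 1) (P 2) (P 3)))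
        (min (-det3 (P 2) (P 3) (P 0)) (det3 (P 3) (P 0) (P 1)))
      have := min_le_left (-det3 (P 2) (P 3) (P 0)) (det3 (P 3) (P 0) (P 1))
      linarith
    · have := min_le_right (min (-det3 (P 0) (P 1) (P 2)) (det3 (P 1) (P 2) (P 3)))
        (min (-det3 (P 2) (P 3) (P 0)) (det3 (P 3) (P 0) (P 1)))
      have := min_le_right (-det3 (P 2) (P 3) (P 0)) (det3 (P 3) (P 0) (P 1))
      linarith
  obtain ⟨dM, hdM, c0, c1, c2, c3⟩ : ∃ dM : ℝ, 0 < dM ∧ -dM ≤ det3 (P 0) (P 1) (P 2) ∧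
      det3 (P 1) (P 2) (P 3) ≤ dM ∧ -dM ≤ det3 (P 2) (P 3) (P 0) ∧
      det3 (P 3) (P 0) (P 1) ≤ dM := by
    refine ⟨-det3 (P 0) (P 1) (P 2) + det3 (P 1) (P 2) (P 3) - det3 (P 2) (P 3) (P 0) +
      det3 (P 3) (P 0) (P 1), ?_, ?_, ?_, ?_, ?_⟩ <;> linarith
  obtain ⟨jM, hjM⟩ := Finite.exists_max (fun j => ‖P j‖)
  have hM : 0 < ‖P jM‖ + 1 := by positivity
  have hPM : ∀ j, ‖P j‖ ≤ ‖P jM‖ + 1 := fun j => le_trans (hjM j) (by linarith)
  set M : ℝ := ‖P jM‖ + 1 with hMdef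
  -- the direction
  set e : E3 := -(det3 (P 1) (P 2) (P 3) • P 0 + det3 (P 3) (P 0) (P 1) • P 2) with he
  have hne : ∀ j, (inner ℝ (nn P j) e : ℝ) = -(det3 (P 1) (P 2) (P 3) * inner ℝ (nn P j) (P 0) +
      det3 (P 3) (P 0) (P 1) * inner ℝ (nn P j) (P 2)) := by
    intro j
    rw [he, inner_neg_right, inner_add_right, real_inner_smul_right, real_inner_smul_right]
  have hpos : ∀ j, 0 < (inner ℝ (nn P j) e : ℝ) := by
    intro j
    rw [hne]
    fin_cases j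
    · change 0 < -(det3 (P 1) (P 2) (P 3) * inner ℝ (nn P 0) (P 0) +
        det3 (P 3) (P 0) (P 1) * inner ℝ (nn P 0) (P 2))
      rw [nn00, nn02]
      have := mul_neg_of_pos_of_neg h3 h0
      linarith
    · change 0 < -(det3 (P 1) (P 2) (P 3) * inner ℝ (nn P 1) (P 0) +
        det3 (P 3) (P 0) (P 1) * inner ℝ (nn P 1) (P 2))
      rw [nn10, nn12]
      have := mul_neg_of_pos_of_neg h1 h0
      linarith
    · change 0 < -(det3 (P 1) (P 2) (P 3) * inner ℝ (nn P 2) (P 0) +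
        det3 (P 3) (P 0) (P 1) * inner ℝ (nn P 2) (P 2))
      rw [nn20, nn22]
      have := mul_neg_of_pos_of_neg h1 h2
      linarith
    · change 0 < -(det3 (P 1) (P 2) (P 3) * inner ℝ (nn P 3) (P 0) +
        det3 (P 3) (P 0) (P 1) * inner ℝ (nn P 3) (P 2))
      rw [nn30, nn32]
      have := mul_neg_of_pos_of_neg h3 h2
      linarith
  refine ⟨e, hpos, min (1 / 2) (dm / (4 * dM)), by positivity, ?_⟩
  intro ε hε hε0
  have he2 : 2 * ε ≤ 1 := by
    have := lt_of_lt_of_le hε0 (min_le_left _ _)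
    linarith
  have he1 : 4 * ε * dM ≤ dm := by
    have h := (lt_of_lt_of_le hε0 (min_le_right _ _)).le
    rw [le_div_iff₀ (by positivity)] at h
    linarith
  have hδ : 0 < ε * dm / (8 * M) := by positivity
  have hoo : ∀ j, |oo j| ≤ 1 := by
    intro j
    unfold oo
    split_ifs <;> simp
  obtain ⟨η1, R, K, hη1, hR, hdisp⟩ := disp (nn P) e hpos oo hoo _ hδ
  have hd012 : det3 (nn P 0) (nn P 1) (nn P 2) ≠ 0 := by
    change det3 (crs (P 0) (P 1)) (crs (P 1) (P 2)) (crs (P 2) (P 3)) ≠ 0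
    rw [det3_nor]
    exact mul_ne_zero h0.ne h1.ne'
  have hd123 : det3 (nn P 1) (nn P 2) (nn P 3) ≠ 0 := by
    change det3 (crs (P 1) (P 2)) (crs (P 2) (P 3)) (crs (P 3) (P 0)) ≠ 0
    rw [det3_nor]
    exact mul_ne_zero h1.ne' h2.ne
  have hd230 : det3 (nn P 2) (nn P 3) (nn P 0) ≠ 0 := by
    change det3 (crs (P 2) (P 3)) (crs (P 3) (P 0)) (crs (P 0) (P 1)) ≠ 0
    rw [det3_nor]
    exact mul_ne_zero h2.ne h3.ne'
  have hd301 : det3 (nn P 3) (nn P 0) (nn P 1) ≠ 0 := by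
    change det3 (crs (P 3) (P 0)) (crs (P 0) (P 1)) (crs (P 1) (P 2)) ≠ 0
    rw [det3_nor]
    exact mul_ne_zero h3.ne' h0.ne
  have hdd : dd (nn P 0, oo 0) (nn P 1, oo 1) (nn P 2, oo 2) (nn P 3, oo 3) ≠ 0 := by
    unfold dd oo
    simp only [Fin.isValue, ↓reduceIte, one_ne_zero, zero_mul, sub_zero, one_mul]
    have e2 : (2 : Fin 4) ≠ 0 := by decide
    have e3 : (3 : Fin 4) ≠ 0 := by decide
    rw [if_neg e2, if_neg e3, zero_mul, zero_mul, add_zero, sub_zero]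
    exact hd123
  obtain ⟨η2, hη2, hopen⟩ := open4 (nn P) oo hd012 hd123 hd230 hd301 hdd
  refine ⟨min η1 η2, R, K * ‖e‖, lt_min hη1 hη2, hR, ?_⟩
  intro A hA
  obtain ⟨hspeed, hdispA⟩ := hdisp A fun j =>
    ⟨lt_of_lt_of_le (hA j).1 (min_le_left _ _), lt_of_lt_of_le (hA j).2 (min_le_left _ _)⟩
  obtain ⟨g012, g123, g230, g301, gdd⟩ := hopen A fun j =>
    ⟨lt_of_lt_of_le (hA j).1 (min_le_right _ _), lt_of_lt_of_le (hA j).2 (min_le_right _ _)⟩
  let T : E3 → ℝ := fun x => FF (fun j => ev (A j) x / inner ℝ (A j).1 e)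
  have hT : Continuous T := by
    have hc : ∀ j, Continuous fun x : E3 => ev (A j) x / (inner ℝ (A j).1 e : ℝ) := by
      intro j
      unfold ev
      fun_prop
    exact ((hc 3).min (hc 0)).max ((hc 1).min (hc 2))
  have hD : Continuous fun x : E3 => x - T x • e := by fun_prop
  have hshift : ∀ x, FF (fun j => ev (A j) x - T x * inner ℝ (A j).1 e) = 0 :=
    fun x => FF_shift hspeed
  have hevD : ∀ x (t : ℝ) j, ev (A j) (x - t • e) = ev (A j) x - t * inner ℝ (A j).1 e := by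
    intro x t j
    unfold ev
    rw [inner_sub_right, real_inner_smul_right]; ring
  have hFD : ∀ x, FF (fun j => ev (A j) (x - T x • e)) = 0 := by
    intro x
    simp only [hevD]
    exact hshift x
  refine ⟨fun x => x - T x • e, hD, ?_, ?_, ?_, ?_⟩
  · -- injectivity
    intro x hx y hy hxy
    have hx0 := FF_cone P h0 h1 h2 h3 hx
    have hy0 := FF_cone P h0 h1 h2 h3 hy
    have hxy' : x - T x • e = y - T y • e := hxy
    have hxy2 : x = y + (T x - T y) • e := by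
      rw [sub_smul]
      calc x = (x - T x • e) + T x • e := by abel
        _ = (y - T y • e) + T x • e := by rw [hxy']
        _ = _ := by abel
    have hin : ∀ j, (inner ℝ (nn P j) x : ℝ) =
        inner ℝ (nn P j) y + (T x - T y) * inner ℝ (nn P j) e := by
      intro j
      conv_lhs => rw [hxy2]
      rw [inner_add_right, real_inner_smul_right]
    rcases lt_trichotomy (T x - T y) 0 with hc | hc | hc
    · have : FF (fun j => inner ℝ (nn P j) x) < FF (fun j => inner ℝ (nn P j) y) :=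
        FF_lt fun j => by
          rw [hin]
          have := mul_neg_of_neg_of_pos hc (hpos j)
          linarith
      linarith
    · rw [hxy2, hc, zero_smul, add_zero]
    · have : FF (fun j => inner ℝ (nn P j) y) < FF (fun j => inner ℝ (nn P j) x) :=
        FF_lt fun j => by
          rw [hin j]
          have := mul_pos hc (hpos j)
          linarith
      linarith
  · -- germs
    intro x
    have hz : ∃ j, ev (A j) (x - T x • e) ≠ 0 := by
      by_contra hcon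
      push Not at hcon
      exact gdd (dd_zero _ _ _ _ _ (hcon 0) (hcon 1) (hcon 2) (hcon 3))
    obtain ⟨a, b, c, hI, hev⟩ := germ4 A g012 g123 g230 g301 _ hz
    refine ⟨a, b, c, hI, ?_⟩
    have h5 := (hD.continuousAt (x := x)).eventually hev
    filter_upwards [h5] with y hy
    exact hy (hFD y)
  · intro x hx
    have hx0 := FF_cone P h0 h1 h2 h3 hx
    have h5 := (hdispA x hx0 (T x) (hshift x)).1
    have h6 : x - T x • e - x = -(T x • e) := by abel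
    change ‖x - T x • e - x‖ ≤ K * ‖e‖ * (1 + ‖x‖)
    rw [h6, norm_neg, norm_smul, Real.norm_eq_abs]
    calc |T x| * ‖e‖ ≤ K * (1 + ‖x‖) * ‖e‖ := mul_le_mul_of_nonneg_right h5 (norm_nonneg _)
      _ = K * ‖e‖ * (1 + ‖x‖) := by ring
  · intro x hx hxR
    refine ⟨⟨T x, rfl⟩, ?_⟩
    have hx0 := FF_cone P h0 h1 h2 h3 hx
    refine zone P h0 h1 h2 h3 dm dM M ε hdm hdM hM hε b0 b1 b2 b3 c0 c1 c2 c3 hPM he1 he2 A x _
      (lt_of_lt_of_le hR hxR) (hFD x) ?_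
    intro j
    exact (hdispA x hx0 (T x) (hshift x)).2 hxR j

/-! ### The polygon -/

section poly

variable {V : Type} [DecidableEq V] {L : Pg V}

theorem orbit_card (hL : L.Ok) {i : V} (hi : i ∈ L.S) {k : ℕ} (hk : 1 ≤ k)
    (h : L.s^[k] i = i) : L.S.card ≤ k := by
  have h1 : L.S ⊆ (Finset.range k).image (fun m => L.s^[m] i) := by
    intro j hj
    obtain ⟨m, hm⟩ := hL.trans i hi j hj
    rw [Finset.mem_image]
    refine ⟨m % k, Finset.mem_range.2 (Nat.mod_lt _ (by omega)), ?_⟩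
    rw [← hm]
    exact Function.IsPeriodicPt.iterate_mod_apply h m
  calc L.S.card ≤ ((Finset.range k).image (fun m => L.s^[m] i)).card := Finset.card_le_card h1
    _ ≤ (Finset.range k).card := Finset.card_image_le
    _ = k := Finset.card_range k

/-- The labels are `i, s i, s s i, s s s i`. -/
theorem labels (hL : L.Ok) (hc : L.S.card = 4) {i : V} (hi : i ∈ L.S) :
    L.S = {i, L.s i, L.s (L.s i), L.s (L.s (L.s i))} ∧ L.s (L.s (L.s (L.s i))) = i ∧
      i ≠ L.s i ∧ i ≠ L.s (L.s i) ∧ i ≠ L.s (L.s (L.s i)) ∧ L.s i ≠ L.s (L.s i) ∧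
      L.s i ≠ L.s (L.s (L.s i)) ∧ L.s (L.s i) ≠ L.s (L.s (L.s i)) := by
  have m1 := hL.maps i hi
  have m2 := hL.maps _ m1
  have m3 := hL.maps _ m2
  have m4 := hL.maps _ m3
  have a1 : i ≠ L.s i := fun h => by
    have := orbit_card hL hi (k := 1) (by norm_num) h.symm
    omega
  have a2 : i ≠ L.s (L.s i) := fun h => by
    have := orbit_card hL hi (k := 2) (by norm_num) h.symm
    omega
  have a3 : i ≠ L.s (L.s (L.s i)) := fun h => by
    have := orbit_card hL hi (k := 3) (by norm_num) h.symm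
    omega
  have a4 : L.s i ≠ L.s (L.s i) := fun h => a1 (hL.inj _ hi _ m1 h)
  have a5 : L.s i ≠ L.s (L.s (L.s i)) := fun h => a2 (hL.inj _ hi _ m2 h)
  have a6 : L.s (L.s i) ≠ L.s (L.s (L.s i)) := fun h => a4 (hL.inj _ m1 _ m2 h)
  have hS : {i, L.s i, L.s (L.s i), L.s (L.s (L.s i))} = L.S := by
    apply Finset.eq_of_subset_of_card_le
    · intro j hj
      simp only [Finset.mem_insert, Finset.mem_singleton] at hj
      rcases hj with rfl | rfl | rfl | rfl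
      · exact hi
      · exact m1
      · exact m2
      · exact m3
    · rw [hc]
      rw [Finset.card_insert_of_notMem, Finset.card_insert_of_notMem,
        Finset.card_insert_of_notMem, Finset.card_singleton]
      · simpa using a6
      · simp only [Finset.mem_insert, Finset.mem_singleton, not_or]
        exact ⟨a4, a5⟩
      · simp only [Finset.mem_insert, Finset.mem_singleton, not_or]
        exact ⟨a1, a2, a3⟩
  refine ⟨hS.symm, ?_, a1, a2, a3, a4, a5, a6⟩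
  have h := m4
  rw [← hS] at h
  simp only [Finset.mem_insert, Finset.mem_singleton] at h
  rcases h with h | h | h | h
  · exact h
  · exact absurd (hL.inj _ m3 _ hi h).symm a3
  · exact absurd (hL.inj _ m3 _ m1 h).symm a5
  · exact absurd (hL.inj _ m3 _ m2 h).symm a6

theorem turn_ne (hL : L.Ok) (hX : L.X = none) (hc : L.S.card = 4) {i : V} (hi : i ∈ L.S) :
    L.turn i ≠ 0 := by
  obtain ⟨-, -, a1, a2, -, a4, -, -⟩ := labels hL hc hi
  refine hL.gen i hi _ (hL.maps _ hi) _ (hL.maps _ (hL.maps _ hi)) a1 a2 a4 ?_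
  rintro ⟨m, q, hm, -⟩
  rw [hX] at hm
  exact absurd hm (by simp)

theorem turn_mul (hL : L.Ok) (hX : L.X = none) (hc : L.S.card = 4) {i : V} (hi : i ∈ L.S) :
    L.turn i * L.turn (L.s (L.s (L.s i))) < 0 := by
  obtain ⟨hS, h4, -⟩ := labels hL hc hi
  have m3 := hL.maps _ (hL.maps _ (hL.maps i hi))
  have t1 := turn_ne hL hX hc hi
  have t2 := turn_ne hL hX hc m3
  have hkind : ∀ ν : E3, ν ≠ 0 → ∃ i ∈ L.S, 0 < (inner ℝ ν (L.p i) : ℝ) := by
    rcases hL.kind with h | ⟨m, hm, -⟩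
    · exact h.2
    · rw [hX] at hm
      exact absurd hm (by simp)
  have e2 : (inner ℝ (L.nor i) (L.p (L.s (L.s i))) : ℝ) = L.turn i := by
    unfold Pg.nor Pg.turn
    exact inner_crs _ _ _
  have e3 : (inner ℝ (L.nor i) (L.p (L.s (L.s (L.s i)))) : ℝ) = L.turn (L.s (L.s (L.s i))) := by
    unfold Pg.nor Pg.turn
    rw [inner_crs, h4]
    exact det3_cyc _ _ _
  have e0 : (inner ℝ (L.nor i) (L.p i) : ℝ) = 0 := by
    unfold Pg.nor
    rw [inner_crs]
    exact det3_aba _ _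
  have e1 : (inner ℝ (L.nor i) (L.p (L.s i)) : ℝ) = 0 := by
    unfold Pg.nor
    rw [inner_crs]
    exact det3_baa _ _
  have hn : L.nor i ≠ 0 := by
    intro h
    rw [h, inner_zero_left] at e2
    exact t1 e2.symm
  have hor1 : 0 < L.turn i ∨ 0 < L.turn (L.s (L.s (L.s i))) := by
    obtain ⟨j, hj, hpj⟩ := hkind _ hn
    rw [hS] at hj
    simp only [Finset.mem_insert, Finset.mem_singleton] at hj
    rcases hj with rfl | rfl | rfl | rfl
    · rw [e0] at hpj; exact absurd hpj (lt_irrefl _)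
    · rw [e1] at hpj; exact absurd hpj (lt_irrefl _)
    · rw [e2] at hpj; exact Or.inl hpj
    · rw [e3] at hpj; exact Or.inr hpj
  have hor2 : L.turn i < 0 ∨ L.turn (L.s (L.s (L.s i))) < 0 := by
    obtain ⟨j, hj, hpj⟩ := hkind _ (neg_ne_zero.2 hn)
    rw [inner_neg_left] at hpj
    rw [hS] at hj
    simp only [Finset.mem_insert, Finset.mem_singleton] at hj
    rcases hj with rfl | rfl | rfl | rfl
    · rw [e0] at hpj; simp at hpj
    · rw [e1] at hpj; simp at hpj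
    · rw [e2] at hpj; exact Or.inl (by linarith)
    · rw [e3] at hpj; exact Or.inr (by linarith)
  rcases hor1 with h | h
  · rcases hor2 with h' | h'
    · linarith
    · exact mul_neg_of_pos_of_neg h h'
  · rcases hor2 with h' | h'
    · exact mul_neg_of_neg_of_pos h' h
    · linarith

end poly

end BASC_

open BASC_ in
theorem basc_proof : Stmt_Basc := by
  intro V _ L hL hX hc
  -- the first label
  obtain ⟨i, hi, hti⟩ : ∃ i ∈ L.S, L.turn i < 0 := by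
    obtain ⟨i, hi⟩ : L.S.Nonempty := by
      rw [← Finset.card_pos, hc]
      norm_num
    rcases lt_or_gt_of_ne (turn_ne hL hX hc hi) with h | h
    · exact ⟨i, hi, h⟩
    · have h2 := turn_mul hL hX hc hi
      refine ⟨_, hL.maps _ (hL.maps _ (hL.maps i hi)), ?_⟩
      by_contra h3
      have := mul_nonneg h.le (not_lt.1 h3)
      linarith
  obtain ⟨hS, h4, a1, a2, a3, -, -, -⟩ := labels hL hc hi
  let l : Fin 4 → V := fun j => L.s^[(j : ℕ)] i
  have hs : ∀ j, L.s (l j) = l (j + 1) := by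
    intro j
    fin_cases j
    · rfl
    · rfl
    · rfl
    · exact h4
  have hl0 : l 0 = i := rfl
  have hmem : ∀ j, l j ∈ L.S := by
    intro j
    fin_cases j
    · exact hi
    · exact hL.maps _ hi
    · exact hL.maps _ (hL.maps _ hi)
    · exact hL.maps _ (hL.maps _ (hL.maps _ hi))
  have hex : ∀ v ∈ L.S, ∃ j, v = l j := by
    intro v hv
    rw [hS] at hv
    simp only [Finset.mem_insert, Finset.mem_singleton] at hv
    rcases hv with h | h | h | h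
    · exact ⟨0, h⟩
    · exact ⟨1, h⟩
    · exact ⟨2, h⟩
    · exact ⟨3, h⟩
  let P : Fin 4 → E3 := fun j => L.p (l j)
  have hnor : ∀ j, L.nor (l j) = nn P j := by
    intro j
    unfold Pg.nor nn
    rw [hs]
  have hturn : ∀ j, L.turn (l j) = det3 (P j) (P (j + 1)) (P (j + 1 + 1)) := by
    intro j
    unfold Pg.turn
    rw [hs, hs]
  have hmul : ∀ j, L.turn (l j) * L.turn (l (j + 1 + 1 + 1)) < 0 := by
    intro j
    have h := turn_mul hL hX hc (hmem j)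
    rw [hs, hs, hs] at h
    exact h
  have t0 : L.turn (l 0) < 0 := hti
  have t3 : 0 < L.turn (l 3) := by
    have h : L.turn (l 0) * L.turn (l 3) < 0 := hmul 0
    by_contra h2
    have := mul_nonneg_of_nonpos_of_nonpos t0.le (not_lt.1 h2)
    linarith
  have t2 : L.turn (l 2) < 0 := by
    have h : L.turn (l 3) * L.turn (l 2) < 0 := hmul 3
    by_contra h2
    have := mul_nonneg t3.le (not_lt.1 h2)
    linarith
  have t1 : 0 < L.turn (l 1) := by
    have h : L.turn (l 2) * L.turn (l 1) < 0 := hmul 2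
    by_contra h2
    have := mul_nonneg_of_nonpos_of_nonpos t2.le (not_lt.1 h2)
    linarith
  rw [hturn] at t0 t1 t2 t3
  obtain ⟨e, hpos, ε₀, hε₀, hcore⟩ := core P t0 t1 t2 t3
  refine ⟨e, ?_, ε₀, hε₀, ?_⟩
  · intro v hv
    obtain ⟨j, rfl⟩ := hex v hv
    rw [hnor]
    exact hpos j
  intro ε hε hε2
  obtain ⟨η, R, K, hη, hR, hres⟩ := hcore ε hε hε2
  have hoo : ∀ j, (if l j = i then (1 : ℝ) else 0) = oo j := by
    intro j
    unfold oo
    fin_cases j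
    · change (if i = i then (1 : ℝ) else 0) = if (0 : Fin 4) = 0 then 1 else 0
      simp
    · change (if L.s i = i then (1 : ℝ) else 0) = if (1 : Fin 4) = 0 then 1 else 0
      rw [if_neg a1.symm, if_neg (by decide)]
    · change (if L.s (L.s i) = i then (1 : ℝ) else 0) = if (2 : Fin 4) = 0 then 1 else 0
      rw [if_neg a2.symm, if_neg (by decide)]
    · change (if L.s (L.s (L.s i)) = i then (1 : ℝ) else 0) = if (3 : Fin 4) = 0 then 1 else 0
      rw [if_neg a3.symm, if_neg (by decide)]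
  refine ⟨fun v => if v = i then 1 else 0, fun _ => 0, η, R, K, hη, hR, ?_, ?_⟩
  · intro m hm
    rw [hX] at hm
    exact absurd hm (by simp)
  intro A B hnear
  have hA : ∀ j, ‖(A (l j)).1 - nn P j‖ < η ∧ |(A (l j)).2 - oo j| < η := by
    intro j
    have h := hnear.1 (l j) (hmem j)
    rw [hnor] at h
    rw [← hoo j]
    exact h
  obtain ⟨D, hD, hinj, hgerm, hbd, hfar⟩ := hres (fun j => A (l j)) hA
  have hcone : L.cone ⊆ Cn P := by
    rintro x ⟨v, hv, a, b, ha, hb, hx⟩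
    obtain ⟨j, rfl⟩ := hex v hv
    rw [hs] at hx
    exact ⟨j, a, b, ha, hb, hx⟩
  refine ⟨D, hD.continuousOn, ?_, fun x hx => hbd x (hcone hx), ?_⟩
  · intro x hx
    constructor
    · obtain ⟨a, b, c, hI, hev⟩ := hgerm x
      refine ⟨L.cone ∩ {y | G3 a b c (D y) = 0}, ?_, ?_, a, b, c, hI, fun y hy => hy.2⟩
      · exact inter_mem self_mem_nhdsWithin (mem_nhdsWithin_of_mem_nhds hev)
      · exact hinj.mono (fun y hy => hcone hy.1)
    · intro m hm
      rw [hX] at hm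
      exact absurd hm (by simp)
  · intro x hx hxR
    obtain ⟨ht, hz1, hz2⟩ := hfar x (hcone hx) hxR
    refine ⟨ht, ?_, ?_⟩
    · rintro v hv ⟨a, b, ha, hb, hab, hx'⟩
      obtain ⟨j, rfl⟩ := hex v hv
      rw [hs, hs] at hx'
      obtain ⟨g1, g2, g3⟩ := hz1 j a b ha hb hab hx'
      unfold Pg.ArmEq
      rw [hturn]
      constructor
      · intro Z hZ
        unfold Pg.lst at hZ
        rw [hs] at hZ
        rcases hZ with h | h | ⟨n, hn, -⟩
        · rw [h]; exact g1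
        · rw [h]; exact g2
        · exact absurd hn (Finset.notMem_empty n)
      · rcases g3 with h | h
        · exact ⟨A (l j), Or.inl rfl, h⟩
        · refine ⟨A (l (j + 1)), Or.inr (Or.inl ?_), h⟩
          rw [hs]
    · rintro v hv ⟨a, b, ha, hb, hab, hba, hx'⟩
      obtain ⟨j, rfl⟩ := hex v hv
      rw [hs] at hx'
      exact hz2 j a b ha hb hab hba hx'

end Pool.Agent.TSM
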