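import Pool.Agent.TSM.VStmts

/-!
# TSM, Part VM, module BASK: the base case of corner type (four vertices)
-/

set_option autoImplicit false

namespace Pool.Agent.TSM

open Set Filter Topology Metric

namespace BASK_

theorem inner_crs (a b c : E3) : (inner ℝ (crs a b) c : ℝ) = det3 a b c := by
  simp [crs, det3, PiLp.inner_apply, Fin.sum_univ_three]
  ring

/-! ### the root of a `max min` of decreasing affine functions -/

theorem root (α₁ α₂ α₃ β₁ β₂ β₃ t : ℝ) (h1 : 0 < β₁) (h2 : 0 < β₂) (h3 : 0 < β₃)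
    (ht : t = max (min (α₁ / β₁) (α₂ / β₂)) (α₃ / β₃)) :
    max (min (α₁ - t * β₁) (α₂ - t * β₂)) (α₃ - t * β₃) = 0 := by
  have e1 : ∀ α β : ℝ, 0 < β → (t ≤ α / β ↔ 0 ≤ α - t * β) := fun α β h => by
    rw [le_div_iff₀ h, sub_nonneg]
  have e2 : ∀ α β : ℝ, 0 < β → (α / β ≤ t ↔ α - t * β ≤ 0) := fun α β h => by
    rw [div_le_iff₀ h, sub_nonpos]
  apply le_antisymm
  · apply max_le
    · have h : min (α₁ / β₁) (α₂ / β₂) ≤ t := by rw [ht]; exact le_max_left _ _
      rcases min_le_iff.mp h with h | h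
      · exact (min_le_left _ _).trans ((e2 _ _ h1).mp h)
      · exact (min_le_right _ _).trans ((e2 _ _ h2).mp h)
    · exact (e2 _ _ h3).mp (by rw [ht]; exact le_max_right _ _)
  · rcases max_choice (min (α₁ / β₁) (α₂ / β₂)) (α₃ / β₃) with h | h
    · have h' : t ≤ min (α₁ / β₁) (α₂ / β₂) := by rw [ht, h]
      exact le_max_of_le_left (le_min ((e1 _ _ h1).mp (h'.trans (min_le_left _ _)))
        ((e1 _ _ h2).mp (h'.trans (min_le_right _ _))))
    · exact le_max_of_le_right ((e1 _ _ h3).mp (by rw [ht, h]))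

theorem mm_zero {γ₁ γ₂ γ₃ : ℝ} (h : max (min γ₁ γ₂) γ₃ = 0) :
    γ₃ ≤ 0 ∧ (γ₁ ≤ 0 ∨ γ₂ ≤ 0) ∧ ((0 ≤ γ₁ ∧ 0 ≤ γ₂) ∨ 0 ≤ γ₃) := by
  refine ⟨by rw [← h]; exact le_max_right _ _, min_le_iff.mp (by rw [← h]; exact le_max_left _ _),
    ?_⟩
  rcases le_max_iff.mp h.symm.le with h' | h'
  · exact Or.inl ⟨h'.trans (min_le_left _ _), h'.trans (min_le_right _ _)⟩
  · exact Or.inr h'

theorem root_bd (α₁ α₂ α₃ β₁ β₂ β₃ t c δ γ₁ γ₂ γ₃ : ℝ) (hc : 0 < c) (h1 : c ≤ β₁)
    (h2 : c ≤ β₂) (h3 : c ≤ β₃) (hδ : 0 ≤ δ)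
    (ht : t = max (min (α₁ / β₁) (α₂ / β₂)) (α₃ / β₃))
    (g1 : |α₁ - γ₁| ≤ δ) (g2 : |α₂ - γ₂| ≤ δ) (g3 : |α₃ - γ₃| ≤ δ)
    (hγ : max (min γ₁ γ₂) γ₃ = 0) : |t| ≤ δ / c := by
  have q1 : ∀ α β : ℝ, c ≤ β → α ≤ δ → α / β ≤ δ / c := fun α β hβ hα => by
    have hβ' : 0 < β := hc.trans_le hβ
    exact (div_le_div_of_nonneg_right hα hβ'.le).trans (div_le_div_of_nonneg_left hδ hc hβ)
  have q2 : ∀ α β : ℝ, c ≤ β → -δ ≤ α → -(δ / c) ≤ α / β := fun α β hβ hα => by
    have h := q1 (-α) β hβ (by linarith)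
    rw [neg_div] at h
    linarith
  rw [abs_le] at g1 g2 g3
  obtain ⟨k1, k2, k3⟩ := mm_zero hγ
  rw [abs_le, ht]
  constructor
  · rcases k3 with ⟨k, k'⟩ | k
    · exact le_max_of_le_left (le_min (q2 _ _ h1 (by linarith [g1.1]))
        (q2 _ _ h2 (by linarith [g2.1])))
    · exact le_max_of_le_right (q2 _ _ h3 (by linarith [g3.1]))
  · refine max_le ?_ (q1 _ _ h3 (by linarith [g3.2]))
    rcases k2 with k | k
    · exact (min_le_left _ _).trans (q1 _ _ h1 (by linarith [g1.2]))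
    · exact (min_le_right _ _).trans (q1 _ _ h2 (by linarith [g2.2]))

theorem ev_sub (a : Aff) (x e : E3) (t : ℝ) : ev a (x - t • e) = ev a x - t * inner ℝ a.1 e := by
  unfold ev
  rw [inner_sub_right, inner_smul_right]
  ring

theorem ev_cont (a : Aff) : Continuous (ev a) := by
  unfold ev
  fun_prop

/-- The linear version vanishes at most once on each line parallel to `e`. -/
theorem uniq (n₁ n₂ n₃ e : E3) (h1 : 0 < (inner ℝ n₁ e : ℝ)) (h2 : 0 < (inner ℝ n₂ e : ℝ))
    (h3 : 0 < (inner ℝ n₃ e : ℝ)) (x : E3) (t : ℝ) (hx : G3 (n₁, 0) (n₂, 0) (n₃, 0) x = 0)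
    (hy : G3 (n₁, 0) (n₂, 0) (n₃, 0) (x - t • e) = 0) : t = 0 := by
  unfold G3 at hx hy
  rw [ev_sub, ev_sub, ev_sub] at hy
  simp only at hy
  obtain ⟨a1, a2, a3⟩ := mm_zero hx
  obtain ⟨b1, b2, b3⟩ := mm_zero hy
  by_contra hne
  rcases lt_or_gt_of_ne hne with ht | ht
  · have m1 := mul_pos_of_neg_of_neg ht (neg_neg_of_pos h1)
    have m2 := mul_pos_of_neg_of_neg ht (neg_neg_of_pos h2)
    have m3 := mul_pos_of_neg_of_neg ht (neg_neg_of_pos h3)
    rcases a3 with ⟨k, k'⟩ | k
    · rcases b2 with l | l <;> linarith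
    · linarith
  · have m1 := mul_pos ht h1
    have m2 := mul_pos ht h2
    have m3 := mul_pos ht h3
    rcases b3 with ⟨k, k'⟩ | k
    · rcases a2 with l | l <;> linarith
    · linarith

theorem core (n₁ n₂ n₃ e : E3) (h1 : 0 < (inner ℝ n₁ e : ℝ)) (h2 : 0 < (inner ℝ n₂ e : ℝ))
    (h3 : 0 < (inner ℝ n₃ e : ℝ)) (hli : LinearIndependent ℝ ![n₁, n₂, n₃]) :
    ∃ C η₀ M : ℝ, 0 < C ∧ 0 < η₀ ∧ ∀ η : ℝ, 0 < η → η ≤ η₀ → ∀ a b c : Aff,
      ‖a.1 - n₁‖ < η → |a.2| < η → ‖b.1 - n₂‖ < η → |b.2| < η → ‖c.1 - n₃‖ < η → |c.2| < η →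
      Indep a b c ∧ ∃ D : E3 → E3, Continuous D ∧ (∀ x, G3 a b c (D x) = 0) ∧
        (∀ x, ∃ t : ℝ, D x = x - t • e) ∧
        (∀ x, G3 (n₁, 0) (n₂, 0) (n₃, 0) x = 0 → ‖D x - x‖ ≤ M * (1 + ‖x‖)) ∧
        ∀ x, G3 (n₁, 0) (n₂, 0) (n₃, 0) x = 0 →
          |ev a (D x) - inner ℝ n₁ x| ≤ C * η * (‖x‖ + 1) ∧
          |ev b (D x) - inner ℝ n₂ x| ≤ C * η * (‖x‖ + 1) ∧
          |ev c (D x) - inner ℝ n₃ x| ≤ C * η * (‖x‖ + 1) := by
  have hop := isOpen_setOf_linearIndependent (𝕜 := ℝ) (E := E3) (ι := Fin 3)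
  obtain ⟨r, hr, hball⟩ := Metric.isOpen_iff.mp hop ![n₁, n₂, n₃] hli
  set c₀ : ℝ := min (min (inner ℝ n₁ e) (inner ℝ n₂ e)) (inner ℝ n₃ e) / 2 with hc₀
  have hc : 0 < c₀ := by rw [hc₀]; exact half_pos (lt_min (lt_min h1 h2) h3)
  have hc1 : 2 * c₀ ≤ inner ℝ n₁ e := by
    rw [hc₀]; linarith [(min_le_left (min (inner ℝ n₁ e) (inner ℝ n₂ e)) (inner ℝ n₃ e : ℝ)).trans
      (min_le_left (inner ℝ n₁ e) (inner ℝ n₂ e : ℝ))]
  have hc2 : 2 * c₀ ≤ inner ℝ n₂ e := by
    rw [hc₀]; linarith [(min_le_left (min (inner ℝ n₁ e) (inner ℝ n₂ e)) (inner ℝ n₃ e : ℝ)).trans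
      (min_le_right (inner ℝ n₁ e) (inner ℝ n₂ e : ℝ))]
  have hc3 : 2 * c₀ ≤ inner ℝ n₃ e := by
    rw [hc₀]; linarith [min_le_right (min (inner ℝ n₁ e) (inner ℝ n₂ e)) (inner ℝ n₃ e : ℝ)]
  set B : ℝ := (‖n₁‖ + ‖n₂‖ + ‖n₃‖ + 1) * ‖e‖ with hB
  have hB0 : 0 ≤ B := by positivity
  refine ⟨1 + B / c₀, min (min r 1) (c₀ / (‖e‖ + 1)), 1 / c₀ * ‖e‖, by positivity,
    lt_min (lt_min hr one_pos) (by positivity), ?_⟩
  intro η hη hη₀ a b c ha ha' hb hb' hc' hc''
  have hηr : η ≤ r := hη₀.trans ((min_le_left _ _).trans (min_le_left _ _))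
  have hη1 : η ≤ 1 := hη₀.trans ((min_le_left _ _).trans (min_le_right _ _))
  have hηc : η * ‖e‖ ≤ c₀ := by
    have h := hη₀.trans (min_le_right _ _)
    rw [le_div_iff₀ (by positivity)] at h
    nlinarith [norm_nonneg e]
  have hind : Indep a b c := by
    unfold Indep
    apply hball
    rw [Metric.mem_ball, dist_pi_lt_iff hr]
    intro i
    fin_cases i
    · simpa [dist_eq_norm] using ha.trans_le hηr
    · simpa [dist_eq_norm] using hb.trans_le hηr
    · simpa [dist_eq_norm] using hc'.trans_le hηr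
  have key : ∀ (n : E3) (Z : Aff), 2 * c₀ ≤ inner ℝ n e → ‖n‖ ≤ ‖n₁‖ + ‖n₂‖ + ‖n₃‖ →
      ‖Z.1 - n‖ < η → c₀ ≤ inner ℝ Z.1 e ∧ |(inner ℝ Z.1 e : ℝ)| ≤ B := by
    intro n Z hn hnn hZ
    have e1 : (inner ℝ Z.1 e : ℝ) = inner ℝ n e + inner ℝ (Z.1 - n) e := by
      rw [← inner_add_left]; congr 1; abel
    have e2 : |(inner ℝ (Z.1 - n) e : ℝ)| ≤ η * ‖e‖ :=
      (abs_real_inner_le_norm _ _).trans (mul_le_mul_of_nonneg_right hZ.le (norm_nonneg e))
    have e3 := abs_le.mp e2
    constructor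
    · rw [e1]; linarith [e3.1]
    · rw [e1]
      have e4 : |(inner ℝ n e : ℝ)| ≤ ‖n‖ * ‖e‖ := abs_real_inner_le_norm _ _
      have e5 : η * ‖e‖ ≤ 1 * ‖e‖ := mul_le_mul_of_nonneg_right hη1 (norm_nonneg e)
      have e6 : ‖n‖ * ‖e‖ ≤ (‖n₁‖ + ‖n₂‖ + ‖n₃‖) * ‖e‖ :=
        mul_le_mul_of_nonneg_right hnn (norm_nonneg e)
      have e7 := abs_add_le (inner ℝ n e : ℝ) (inner ℝ (Z.1 - n) e)
      rw [hB]; linarith
  have nn1 := norm_nonneg n₁
  have nn2 := norm_nonneg n₂
  have nn3 := norm_nonneg n₃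
  obtain ⟨a1, a2⟩ := key n₁ a hc1 (by linarith) ha
  obtain ⟨b1, b2⟩ := key n₂ b hc2 (by linarith) hb
  obtain ⟨c1, c2⟩ := key n₃ c hc3 (by linarith) hc'
  set t : E3 → ℝ := fun x => max (min (ev a x / inner ℝ a.1 e) (ev b x / inner ℝ b.1 e))
    (ev c x / inner ℝ c.1 e) with ht
  have htc : Continuous t := by
    rw [ht]
    exact (((ev_cont a).div_const _).min ((ev_cont b).div_const _)).max ((ev_cont c).div_const _)
  have main : ∀ x, G3 (n₁, 0) (n₂, 0) (n₃, 0) x = 0 → True ∧
      (|ev a (x - t x • e) - inner ℝ n₁ x| ≤ (1 + B / c₀) * η * (‖x‖ + 1) ∧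
        |ev b (x - t x • e) - inner ℝ n₂ x| ≤ (1 + B / c₀) * η * (‖x‖ + 1) ∧
        |ev c (x - t x • e) - inner ℝ n₃ x| ≤ (1 + B / c₀) * η * (‖x‖ + 1)) ∧
      |t x| ≤ η * (‖x‖ + 1) / c₀ := by
    intro x hx
    have hδ0
 : 0 ≤ η * (‖x‖ + 1) := by positivity
    have kd : ∀ (n : E3) (Z : Aff), ‖Z.1 - n‖ < η → |Z.2| < η →
        |ev Z x - inner ℝ n x| ≤ η * (‖x‖ + 1) := by
      intro n Z hZ hZ'
      have e1 : ev Z x - inner ℝ n x = inner ℝ (Z.1 - n) x - Z.2 := by
        unfold ev; rw [inner_sub_left]; ring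
      have e2 : |(inner ℝ (Z.1 - n) x : ℝ)| ≤ η * ‖x‖ :=
        (abs_real_inner_le_norm _ _).trans (mul_le_mul_of_nonneg_right hZ.le (norm_nonneg x))
      rw [e1]
      have e3 := abs_sub (inner ℝ (Z.1 - n) x : ℝ) Z.2
      linarith
    have ka := kd n₁ a ha ha'
    have kb := kd n₂ b hb hb'
    have kc := kd n₃ c hc' hc''
    have hx' : max (min (inner ℝ n₁ x : ℝ) (inner ℝ n₂ x)) (inner ℝ n₃ x) = 0 := by
      unfold G3 ev at hx
      simpa using hx
    have htb : |t x| ≤ η * (‖x‖ + 1) / c₀ :=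
      root_bd _ _ _ _ _ _ _ c₀ _ _ _ _ hc a1 b1 c1 hδ0 rfl ka kb kc hx'
    have fin : ∀ (n : E3) (Z : Aff), |ev Z x - inner ℝ n x| ≤ η * (‖x‖ + 1) →
        |(inner ℝ Z.1 e : ℝ)| ≤ B →
        |ev Z (x - t x • e) - inner ℝ n x| ≤ (1 + B / c₀) * η * (‖x‖ + 1) := by
      intro n Z hZ hZB
      rw [ev_sub]
      have e1 : ev Z x - t x * inner ℝ Z.1 e - inner ℝ n x =
          (ev Z x - inner ℝ n x) - t x * inner ℝ Z.1 e := by ring
      rw [e1]
      have e2 : |t x * inner ℝ Z.1 e| ≤ η * (‖x‖ + 1) / c₀ * B := by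
        rw [abs_mul]
        exact mul_le_mul htb hZB (abs_nonneg _) (by positivity)
      calc |(ev Z x - inner ℝ n x) - t x * inner ℝ Z.1 e|
          ≤ |ev Z x - inner ℝ n x| + |t x * inner ℝ Z.1 e| := abs_sub _ _
        _ ≤ η * (‖x‖ + 1) + η * (‖x‖ + 1) / c₀ * B := add_le_add hZ e2
        _ = (1 + B / c₀) * η * (‖x‖ + 1) := by field_simp
    exact ⟨trivial, ⟨fin n₁ a ka a2, fin n₂ b kb b2, fin n₃ c kc c2⟩, htb⟩
  refine ⟨hind, fun x => x - t x • e, continuous_id.sub (htc.smul continuous_const), ?_,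
    fun x => ⟨t x, rfl⟩, ?_, ?_⟩
  · intro x
    unfold G3
    simp only [ev_sub]
    exact root _ _ _ _ _ _ _ (hc.trans_le a1) (hc.trans_le b1) (hc.trans_le c1) rfl
  · intro x hx
    obtain ⟨_, _, htb⟩ := main x hx
    have h1 : x - t x • e - x = -(t x • e) := by abel
    rw [h1, norm_neg, norm_smul, Real.norm_eq_abs]
    have h2 : η * (‖x‖ + 1) / c₀ ≤ 1 / c₀ * (1 + ‖x‖) := by
      have h3 : η * (‖x‖ + 1) ≤ 1 * (‖x‖ + 1) :=
        mul_le_mul_of_nonneg_right hη1 (by positivity)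
      calc η * (‖x‖ + 1) / c₀ ≤ 1 * (‖x‖ + 1) / c₀ := div_le_div_of_nonneg_right h3 hc.le
        _ = 1 / c₀ * (1 + ‖x‖) := by ring
    calc |t x| * ‖e‖ ≤ (1 / c₀ * (1 + ‖x‖)) * ‖e‖ :=
          mul_le_mul_of_nonneg_right (htb.trans h2) (norm_nonneg e)
      _ = 1 / c₀ * ‖e‖ * (1 + ‖x‖) := by ring
  · intro x hx
    exact (main x hx).2.1
/-! ### the cyclic order of four labels -/

theorem cyc {V : Type} [DecidableEq V] (L : Pg V) (hL : L.Ok) (hc : L.S.card = 4) (m : V)
    (hm : m ∈ L.S) :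
    L.s (L.s (L.s (L.s m))) = m ∧ m ≠ L.s m ∧ m ≠ L.s (L.s m) ∧ m ≠ L.s (L.s (L.s m)) ∧
      L.s m ≠ L.s (L.s m) ∧ L.s m ≠ L.s (L.s (L.s m)) ∧ L.s (L.s m) ≠ L.s (L.s (L.s m)) ∧
      L.S = {m, L.s m, L.s (L.s m), L.s (L.s (L.s m))} := by
  have hper : ∀ k : ℕ, 0 < k → L.s^[k] m = m → 4 ≤ k := by
    intro k hk hkm
    have hp : Function.IsPeriodicPt L.s k m := hkm
    have hsub : L.S ⊆ (Finset.range k).image (fun i => L.s^[i] m) := by
      intro j hj
      obtain ⟨n, hn⟩ := hL.trans m hm j hj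
      refine Finset.mem_image.mpr ⟨n % k, Finset.mem_range.mpr (Nat.mod_lt _ hk), ?_⟩
      rw [hp.iterate_mod_apply, hn]
    calc 4 = L.S.card := hc.symm
      _ ≤ ((Finset.range k).image (fun i => L.s^[i] m)).card := Finset.card_le_card hsub
      _ ≤ (Finset.range k).card := Finset.card_image_le
      _ = k := Finset.card_range k
  have h1 := hL.maps m hm
  have h2 := hL.maps _ h1
  have h3 := hL.maps _ h2
  have h4 := hL.maps _ h3
  have d1 : L.s m ≠ m := fun h => by have := hper 1 one_pos h; omega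
  have d2 : L.s (L.s m) ≠ m := fun h => by have := hper 2 two_pos h; omega
  have d3 : L.s (L.s (L.s m)) ≠ m := fun h => by have := hper 3 three_pos h; omega
  have e1 : L.s m ≠ L.s (L.s m) := fun h => d1 (hL.inj m hm _ h1 h).symm
  have e2 : L.s m ≠ L.s (L.s (L.s m)) := fun h => d2 (hL.inj m hm _ h2 h).symm
  have e3 : L.s (L.s m) ≠ L.s (L.s (L.s m)) := fun h => e1 (hL.inj _ h1 _ h2 h)
  have hS : L.S = {m, L.s m, L.s (L.s m), L.s (L.s (L.s m))} := by
    symm
    apply Finset.eq_of_subset_of_card_le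
    · intro j hj
      simp only [Finset.mem_insert, Finset.mem_singleton] at hj
      rcases hj with rfl | rfl | rfl | rfl
      · exact hm
      · exact h1
      · exact h2
      · exact h3
    · rw [hc, Finset.card_insert_of_notMem, Finset.card_insert_of_notMem,
        Finset.card_insert_of_notMem, Finset.card_singleton]
      · simpa using e3
      · simpa using ⟨e1, e2⟩
      · simpa using ⟨d1.symm, d2.symm, d3.symm⟩
  refine ⟨?_, d1.symm, d2.symm, d3.symm, e1, e2, e3, hS⟩
  have hmem := h4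
  rw [hS] at hmem
  simp only [Finset.mem_insert, Finset.mem_singleton] at hmem
  rcases hmem with h | h | h | h
  · exact h
  · exact absurd (hL.inj _ h3 _ hm h) d3
  · exact absurd (hL.inj _ h3 _ h1 h).symm e2
  · exact absurd (hL.inj _ h3 _ h2 h).symm e3

theorem det3_lin (A B C D : E3) (α β : ℝ) :
    det3 A B (α • C + β • D) = α * det3 A B C + β * det3 A B D := by
  simp [det3]
  ring

theorem armEq_of {V : Type} [DecidableEq V] {κ : Type} (L : Pg V) (A : V → Aff) (B : κ → Aff)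
    (i : V) (z : E3) (h1 : 0 ≤ Real.sign (L.turn i) * ev (A i) z)
    (h2 : 0 ≤ Real.sign (L.turn i) * ev (A (L.s i)) z)
    (h3 : ev (A i) z = 0 ∨ ev (A (L.s i)) z = 0) :
    L.ArmEq (fun _ => (∅ : Finset κ)) A B i z := by
  constructor
  · intro Z hZ
    rcases hZ with rfl | rfl | ⟨n, hn, rfl⟩
    · exact h1
    · exact h2
    · simp at hn
  · rcases h3 with h | h
    · exact ⟨A i, Or.inl rfl, h⟩
    · exact ⟨A (L.s i), Or.inr (Or.inl rfl), h⟩

end BASK_

open BASK_ in
theorem bask_proof : Stmt_Bask := by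
  intro V _ L m hL hX hc4
  have hcorner : L.CornerAt m := by
    rcases hL.kind with ⟨h, _⟩ | ⟨m', h, hm'⟩
    · rw [hX] at h; cases h
    · rw [hX] at h
      obtain rfl := Option.some.inj h
      exact hm'
  obtain ⟨hm, q, hq, hqm, ⟨a, b, ha, hb, hrel⟩, _⟩ := hcorner
  obtain ⟨k4, d1, d2, d3, e1, e2, e3, hS⟩ := cyc L hL hc4 m hm
  have hq' : q = L.s (L.s (L.s m)) :=
    hL.inj q hq _ (hL.maps _ (hL.maps _ (hL.maps _ hm))) (by rw [hqm, k4])
  obtain ⟨u, hu⟩ : ∃ u, L.s m = u := ⟨_, rfl⟩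
  rw [hu] at hq' k4 d1 d2 d3 e1 e2 e3 hS hrel
  obtain ⟨x, hx⟩ : ∃ x, L.s u = x := ⟨_, rfl⟩
  rw [hx] at hq' k4 d2 d3 e1 e2 e3 hS
  have hxq : L.s x = q := hq'.symm
  rw [hxq] at k4 d3 e2 e3 hS
  have hu_mem : u ∈ L.S := hu ▸ hL.maps _ hm
  have hx_mem : x ∈ L.S := hx ▸ hL.maps _ hu_mem
  have hpm : L.p m = -(a • L.p q + b • L.p u) := eq_neg_of_add_eq_zero_right hrel
  obtain ⟨d, hd⟩ : ∃ d, det3 (L.p q) (L.p u) (L.p x) = d := ⟨_, rfl⟩
  have hd0 : d ≠ 0 := by
    rw [← hd]
    refine hL.gen q hq u hu_mem x hx_mem e2.symm e3.symm e1 ?_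
    rintro ⟨m', q', hX', hq'S, hs, hset⟩
    rw [hX] at hX'
    obtain rfl := Option.some.inj hX'
    have hmem : m ∈ ({q, u, x} : Finset V) := by rw [hset]; simp
    simp only [Finset.mem_insert, Finset.mem_singleton] at hmem
    rcases hmem with h | h | h
    · exact d3 h
    · exact d1 h
    · exact d2 h
  -- values of the determinants
  have PQP : det3 (L.p q) (L.p u) (L.p q) = 0 := by unfold det3; ring
  have PQQ : det3 (L.p q) (L.p u) (L.p u) = 0 := by unfold det3; ring
  have PQm : det3 (L.p q) (L.p u) (L.p m) = 0 := by rw [hpm]; simp [det3]; ring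
  have QXP : det3 (L.p u) (L.p x) (L.p q) = d := by rw [← hd]; unfold det3; ring
  have QXQ : det3 (L.p u) (L.p x) (L.p u) = 0 := by unfold det3; ring
  have QXX : det3 (L.p u) (L.p x) (L.p x) = 0 := by unfold det3; ring
  have QXm : det3 (L.p u) (L.p x) (L.p m) = -(a * d) := by rw [hpm, ← hd]; simp [det3]; ring
  have XPP : det3 (L.p x) (L.p q) (L.p q) = 0 := by unfold det3; ring
  have XPQ : det3 (L.p x) (L.p q) (L.p u) = d := by rw [← hd]; unfold det3; ring
  have XPX : det3 (L.p x) (L.p q) (L.p x) = 0 := by unfold det3; ring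
  have XPm : det3 (L.p x) (L.p q) (L.p m) = -(b * d) := by rw [hpm, ← hd]; simp [det3]; ring
  -- normals
  have iq : ∀ y, (inner ℝ (L.nor q) y : ℝ) = -b * det3 (L.p q) (L.p u) y := by
    intro y
    unfold Pg.nor
    rw [hqm, inner_crs, hpm]
    simp [det3]
    ring
  have im : ∀ y, (inner ℝ (L.nor m) y : ℝ) = -a * det3 (L.p q) (L.p u) y := by
    intro y
    unfold Pg.nor
    rw [hu, inner_crs, hpm]
    simp [det3]
    ring
  have iu : ∀ y, (inner ℝ (L.nor u) y : ℝ) = det3 (L.p u) (L.p x) y := by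
    intro y
    unfold Pg.nor
    rw [hx, inner_crs]
  have ix : ∀ y, (inner ℝ (L.nor x) y : ℝ) = det3 (L.p x) (L.p q) y := by
    intro y
    unfold Pg.nor
    rw [hxq, inner_crs]
  -- turns
  have tq : L.turn q = 0 := by
    unfold Pg.turn
    rw [hqm, hu, hpm]
    simp [det3]
    ring
  have tm : L.turn m = -(a * d) := by
    unfold Pg.turn
    rw [hu, hx, ← hd, hpm]
    simp [det3]
    ring
  have tu : L.turn u = d := by
    unfold Pg.turn
    rw [hx, hxq, QXP]
  have tx : L.turn x = -(b * d) := by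
    unfold Pg.turn
    rw [hxq, hqm, XPm]
  -- the sign
  obtain ⟨s, hss, hsd, sm, su, sx⟩ : ∃ s : ℝ, s * s = 1 ∧ 0 < s * d ∧
      Real.sign (L.turn m) = -s ∧ Real.sign (L.turn u) = s ∧ Real.sign (L.turn x) = -s := by
    rw [tm, tu, tx]
    rcases lt_or_gt_of_ne hd0 with h | h
    · refine ⟨-1, by norm_num, by linarith, ?_, Real.sign_of_neg h, ?_⟩
      · rw [Real.sign_of_pos (by nlinarith)]; norm_num
      · rw [Real.sign_of_pos (by nlinarith)]; norm_num
    · refine ⟨1, by norm_num, by linarith, ?_, Real.sign_of_pos h, ?_⟩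
      · rw [Real.sign_of_neg (by nlinarith)]
      · rw [Real.sign_of_neg (by nlinarith)]
  have hs0 : s ≠ 0 := by rintro rfl; norm_num at hss
  have habs : |s| = 1 := by
    have h := abs_mul_abs_self s
    rw [hss] at h
    nlinarith [abs_nonneg s]
  -- the direction
  set e : E3 := d • L.p q + (d • L.p u + (-d) • L.p x) with he
  have de : ∀ A B : E3, det3 A B e =
      d * det3 A B (L.p q) + d * det3 A B (L.p u) - d * det3 A B (L.p x) := by
    intro A B
    rw [he]
    simp [det3]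
    ring
  have hd2 : 0 < d * d := mul_self_pos.mpr hd0
  have eq1 : (inner ℝ (L.nor q) e : ℝ) = b * (d * d) := by
    rw [iq, de, PQP, PQQ, hd]; ring
  have em1 : (inner ℝ (L.nor m) e : ℝ) = a * (d * d) := by
    rw [im, de, PQP, PQQ, hd]; ring
  have eu1 : (inner ℝ (L.nor u) e : ℝ) = d * d := by
    rw [iu, de, QXP, QXQ, QXX]; ring
  have ex1 : (inner ℝ (L.nor x) e : ℝ) = d * d := by
    rw [ix, de, XPP, XPQ, XPX]; ring
  have hee : ∀ n : E3, (inner ℝ (s • n) (s • e) : ℝ) = inner ℝ n e := by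
    intro n
    rw [inner_smul_left, inner_smul_right, ← mul_assoc]
    simp only [RCLike.conj_to_real]
    rw [hss, one_mul]
  have hli : LinearIndependent ℝ ![s • L.nor x, s • L.nor u, s • L.nor m] := by
    rw [Fintype.linearIndependent_iff]
    intro g hg
    rw [Fin.sum_univ_three] at hg
    simp only [Matrix.cons_val_zero, Matrix.cons_val_one, Matrix.cons_val] at hg
    have hp : ∀ y : E3, g 0 * (s * inner ℝ (L.nor x) y) + g 1 * (s * inner ℝ (L.nor u) y) +
        g 2 * (s * inner ℝ (L.nor m) y) = 0 := by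
      intro y
      have h := congrArg (fun v => (inner ℝ v y : ℝ)) hg
      simpa [inner_add_left, inner_smul_left] using h
    have hQ := hp (L.p u)
    have hP := hp (L.p q)
    have hXX := hp (L.p x)
    rw [ix, iu, im] at hQ hP hXX
    rw [XPQ, QXQ, PQQ] at hQ
    rw [XPP, QXP, PQP] at hP
    rw [XPX, QXX, hd] at hXX
    have hsd' : s * d ≠ 0 := hsd.ne'
    have g0 : g 0 = 0 := by
      have h : g 0 * (s * d) = 0 := by linarith
      exact (mul_eq_zero.mp h).resolve_right hsd'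
    have g1 : g 1 = 0 := by
      have h : g 1 * (s * d) = 0 := by linarith
      exact (mul_eq_zero.mp h).resolve_right hsd'
    have g2 : g 2 = 0 := by
      have h : g 2 * a * (s * d) = 0 := by linarith
      have h' := (mul_eq_zero.mp h).resolve_right hsd'
      exact (mul_eq_zero.mp h').resolve_right ha.ne'
    intro i
    fin_cases i
    · exact g0
    · exact g1
    · exact g2
  refine ⟨e, ?_, min (1 / 4) (min (1 / (4 * a)) (1 / (4 * b))), by positivity, ?_⟩
  · intro i hi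
    rw [hS] at hi
    simp only [Finset.mem_insert, Finset.mem_singleton] at hi
    rcases hi with rfl | rfl | rfl | rfl
    · rw [em1]; positivity
    · rw [eu1]; exact hd2
    · rw [ex1]; exact hd2
    · rw [eq1]; positivity
  intro ε hε hεε
  have hε4 : ε < 1 / 4 := hεε.trans_le (min_le_left _ _)
  have hεa : ε * a < 1 / 4 := by
    have h := hεε.trans_le ((min_le_right _ _).trans (min_le_left _ _))
    rw [lt_div_iff₀ (by positivity)] at h
    linarith
  have hεb : ε * b < 1 / 4 := by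
    have h := hεε.trans_le ((min_le_right _ _).trans (min_le_right _ _))
    rw [lt_div_iff₀ (by positivity)] at h
    linarith
  obtain ⟨C, η₀, M, hC, hη₀, hcore⟩ := core (s • L.nor x) (s • L.nor u) (s • L.nor m) (s • e)
    (by rw [hee, ex1]; exact hd2) (by rw [hee, eu1]; exact hd2)
    (by rw [hee, em1]; positivity) hli
  set μ : ℝ := min 1 (min a b) with hμ
  have hμ0 : 0 < μ := by rw [hμ]; positivity
  have hμ1 : μ ≤ 1 := min_le_left _ _
  have hμa : μ ≤ a := (min_le_right _ _).trans (min_le_left _ _)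
  have hμb : μ ≤ b := (min_le_right _ _).trans (min_le_right _ _)
  set κ : ℝ := s * d * μ * ε / 4 with hκ
  have hκ0 : 0 < κ := by rw [hκ]; positivity
  set K : ℝ := ∑ i ∈ L.S, ‖L.p i‖ + 1 with hK
  have hK0 : 0 < K := by
    rw [hK]
    have : 0 ≤ ∑ i ∈ L.S, ‖L.p i‖ := Finset.sum_nonneg fun i _ => norm_nonneg _
    linarith
  have hKp : ∀ i ∈ L.S, ‖L.p i‖ ≤ K := by
    intro i hi
    rw [hK]
    have := Finset.single_le_sum (f := fun i => ‖L.p i‖) (fun i _ => norm_nonneg _) hi
    linarith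
  set η : ℝ := min η₀ (κ / (4 * C * K)) with hη
  have hη0 : 0 < η := by rw [hη]; positivity
  have hηκ : 2 * C * η * K < κ := by
    have h : η ≤ κ / (4 * C * K) := min_le_right _ _
    rw [le_div_iff₀ (by positivity)] at h
    nlinarith
  refine ⟨fun _ => 0, fun _ => 0, η, 1, M, hη0, one_pos, fun _ _ => ⟨rfl, fun _ _ _ => rfl⟩, ?_⟩
  intro A B hnear
  obtain ⟨hn1, _, hn3⟩ := hnear
  obtain ⟨hAm, hAq'⟩ := hn3 m hX
  have hAq := hAq' q hq hqm
  have hpl : ∀ i ∈ L.S, ‖(s • (A i).1 : E3) - s • L.nor i‖ < η ∧ |s * (A i).2| < η := by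
    intro i hi
    obtain ⟨h1, h2⟩ := hn1 i hi
    rw [← smul_sub, norm_smul, Real.norm_eq_abs, abs_mul, habs, one_mul, one_mul]
    exact ⟨h1, by simpa using h2⟩
  obtain ⟨hind, D, hDc, hDG, hDt, hDM, hDb⟩ := hcore η hη0 (min_le_left _ _)
    (s • (A x).1, s * (A x).2) (s • (A u).1, s * (A u).2) (s • (A m).1, s * (A m).2)
    (hpl x hx_mem).1 (hpl x hx_mem).2 (hpl u hu_mem).1 (hpl u hu_mem).2 (hpl m hm).1 (hpl m hm).2
  have hev : ∀ (i : V) (z : E3), ev (s • (A i).1, s * (A i).2) z = s * ev (A i) z := by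
    intro i z
    unfold ev
    simp only [inner_smul_left, RCLike.conj_to_real]
    ring
  have hev0 : ∀ (n z : E3), ev (s • n, (0 : ℝ)) z = s * inner ℝ n z := by
    intro n z
    unfold ev
    simp only [inner_smul_left, RCLike.conj_to_real]
    ring
  have hG0 : ∀ y, G3 (s • L.nor x, 0) (s • L.nor u, 0) (s • L.nor m, 0) y =
      max (min (s * det3 (L.p x) (L.p q) y) (s * det3 (L.p u) (L.p x) y))
        (s * (-a * det3 (L.p q) (L.p u) y)) := by
    intro y
    unfold G3
    rw [hev0, hev0, hev0, ix, iu, im]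
  have hcone : ∀ y ∈ L.cone, G3 (s • L.nor x, 0) (s • L.nor u, 0) (s • L.nor m, 0) y = 0 := by
    rintro y ⟨i, hi, α, β, hα, hβ, rfl⟩
    rw [hG0]
    rw [hS] at hi
    simp only [Finset.mem_insert, Finset.mem_singleton] at hi
    have nα := mul_nonneg hα hsd.le
    have nβ := mul_nonneg hβ hsd.le
    rcases hi with rfl | rfl | rfl | rfl
    · rw [hu, det3_lin, det3_lin, det3_lin, XPm, XPQ, QXm, QXQ, PQm, PQQ]
      have h1 : s * (-a * (α * 0 + β * 0)) = 0 := by ring
      rw [h1]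
      refine max_eq_right ((min_le_right _ _).trans ?_)
      have := mul_nonneg ha.le nα
      linarith
    · rw [hx, det3_lin, det3_lin, det3_lin, XPQ, XPX, QXQ, QXX, PQQ, hd]
      have h1 : s * (α * 0 + β * 0) = 0 := by ring
      rw [h1, min_eq_right (by linarith)]
      refine max_eq_left ?_
      have := mul_nonneg ha.le nβ
      linarith
    · rw [hxq, det3_lin, det3_lin, det3_lin, XPX, XPP, QXX, QXP, hd, PQP]
      have h1 : s * (α * 0 + β * 0) = 0 := by ring
      rw [h1, min_eq_left (by linarith)]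
      refine max_eq_left ?_
      have := mul_nonneg ha.le nα
      linarith
    · rw [hqm, det3_lin, det3_lin, det3_lin, XPP, XPm, QXP, QXm, PQP, PQm]
      have h1 : s * (-a * (α * 0 + β * 0)) = 0 := by ring
      rw [h1]
      refine max_eq_right ((min_le_left _ _).trans ?_)
      have := mul_nonneg hb.le nβ
      linarith
  have hDG' : ∀ y, max (min (s * ev (A x) (D y)) (s * ev (A u) (D y))) (s * ev (A m) (D y)) = 0 := by
    intro y
    have h := hDG y
    unfold G3 at h
    rwa [hev, hev, hev] at h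
  have hAmz : ∀ z, ev (A m) z = -a * det3 (L.p q) (L.p u) z := by
    intro z
    unfold ev
    rw [hAm]
    simp only [sub_zero]
    exact im z
  have hAqz : ∀ z, ev (A q) z = -b * det3 (L.p q) (L.p u) z := by
    intro z
    unfold ev
    rw [hAq]
    simp only [sub_zero]
    exact iq z
  refine ⟨D, hDc.continuousOn, ?_, fun y hy => hDM y (hcone y hy), ?_⟩
  · intro y hy
    refine ⟨⟨L.cone, self_mem_nhdsWithin, ?_, _, _, _, hind, fun z _ => hDG z⟩, ?_⟩
    · intro y₁ h₁ y₂ h₂ h12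
      obtain ⟨t₁, ht₁⟩ := hDt y₁
      obtain ⟨t₂, ht₂⟩ := hDt y₂
      rw [ht₁, ht₂] at h12
      have h3 : y₁ - (t₁ - t₂) • (s • e) = y₂ := by
        rw [sub_smul]
        have : y₁ - (t₁ • s • e - t₂ • s • e) = (y₁ - t₁ • s • e) + t₂ • s • e := by abel
        rw [this, h12]
        abel
      have h4 := uniq (s • L.nor x) (s • L.nor u) (s • L.nor m) (s • e)
        (by rw [hee, ex1]; exact hd2) (by rw [hee, eu1]; exact hd2)
        (by rw [hee, em1]; positivity) y₁ (t₁ - t₂) (hcone y₁ h₁) (by rw [h3]; exact hcone y₂ h₂)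
      rw [h4, zero_smul, sub_zero] at h3
      exact h3
    · intro m' hm' σ hσ
      rw [hX] at hm'
      obtain rfl := Option.some.inj hm'
      have h1 := hσ x hx_mem
      rw [im, hd] at h1
      have h2 := (mm_zero (hDG' y)).1
      rw [hAmz, ← im] at h2
      have h3 : 0 ≤ σ * d := by
        by_contra hneg
        push_neg at hneg
        have := mul_pos_of_neg_of_neg hneg (neg_neg_of_pos ha)
        linarith
      have h4 : 0 ≤ σ * s := by
        by_contra hneg
        push_neg at hneg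
        have h5 : (σ * s) * (d * d) = (σ * d) * (s * d) := by ring
        have h6 := mul_nonneg h3 hsd.le
        have h7 := mul_neg_of_neg_of_pos hneg hd2
        linarith
      have h5 : σ * inner ℝ (L.nor m) (D y) = (σ * s) * (s * inner ℝ (L.nor m) (D y)) := by
        have : (σ * s) * (s * inner ℝ (L.nor m) (D y)) =
          σ * (s * s) * inner ℝ (L.nor m) (D y) := by ring
        rw [this, hss, mul_one]
      rw [h5]
      exact mul_nonpos_of_nonneg_of_nonpos h4 h2
  · intro y hy hy1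
    refine ⟨?_, ?_⟩
    · obtain ⟨t, ht⟩ := hDt y
      exact ⟨t * s, by rw [ht, smul_smul]⟩
    have hmm := hDG' y
    obtain ⟨b1, b2, b3⟩ := hDb y (hcone y hy)
    rw [hev, inner_smul_left, ix] at b1
    rw [hev, inner_smul_left, iu] at b2
    rw [hev, inner_smul_left, im] at b3
    simp only [RCLike.conj_to_real] at b1 b2 b3
    obtain ⟨v', hv'⟩ : ∃ v', s * ev (A x) (D y) = v' := ⟨_, rfl⟩
    obtain ⟨u', hu'⟩ : ∃ u', s * ev (A u) (D y) = u' := ⟨_, rfl⟩
    obtain ⟨w', hw'⟩ : ∃ w', s * ev (A m) (D y) = w' := ⟨_, rfl⟩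
    rw [hv', hu', hw'] at hmm
    rw [hv'] at b1
    rw [hu'] at b2
    rw [hw'] at b3
    obtain ⟨m1, m2, m3⟩ := mm_zero hmm
    have zero_of : ∀ (i : V) (c : ℝ), s * ev (A i) (D y) = c → c = 0 → ev (A i) (D y) = 0 := by
      intro i c h1 h2
      rw [h2] at h1
      exact (mul_eq_zero.mp h1).resolve_left hs0
    have wq : w' = 0 → ev (A q) (D y) = 0 := by
      intro h
      have h1 := zero_of m w' hw' h
      rw [hAmz] at h1
      rw [hAqz]
      have h2 : det3 (L.p q) (L.p u) (D y) = 0 :=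
        (mul_eq_zero.mp h1).resolve_left (neg_ne_zero.mpr ha.ne')
      rw [h2, mul_zero]
    have wq' : 0 ≤ -s * ev (A q) (D y) := by
      rw [hAqz]
      rw [hAmz] at hw'
      have h1 : 0 ≤ s * det3 (L.p q) (L.p u) (D y) := by
        by_contra hneg
        push_neg at hneg
        have := mul_pos_of_neg_of_neg hneg (neg_neg_of_pos ha)
        linarith
      have := mul_nonneg hb.le h1
      linarith
    have hsig : ∀ i ∈ L.S, ∀ j ∈ L.S, ∀ α β : ℝ, 0 ≤ α → 0 ≤ β → y = α • L.p i + β • L.p j →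
        ∀ v f : ℝ, |v - f| ≤ C * η * (‖y‖ + 1) → (κ * (α + β) ≤ f → 0 < v) ∧
          (f ≤ -(κ * (α + β)) → v < 0) := by
      intro i hi j hj α β hα hβ hyy v f hvf
      have hyn : ‖y‖ ≤ K * (α + β) := by
        rw [hyy]
        calc ‖α • L.p i + β • L.p j‖ ≤ ‖α • L.p i‖ + ‖β • L.p j‖ := norm_add_le _ _
          _ = α * ‖L.p i‖ + β * ‖L.p j‖ := by
              rw [norm_smul, norm_smul, Real.norm_of_nonneg hα, Real.norm_of_nonneg hβ]
          _ ≤ α * K + β * K := add_le_add (mul_le_mul_of_nonneg_left (hKp i hi) hα)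
              (mul_le_mul_of_nonneg_left (hKp j hj) hβ)
          _ = K * (α + β) := by ring
      have hpos : 0 < α + β := by
        by_contra hneg
        have h0 : α + β ≤ 0 := not_lt.mp hneg
        have := mul_nonpos_of_nonneg_of_nonpos hK0.le h0
        linarith
      have h1 : C * η * (‖y‖ + 1) < κ * (α + β) := by
        have hCη : 0 < C * η := mul_pos hC hη0
        calc C * η * (‖y‖ + 1) ≤ C * η * (2 * (K * (α + β))) :=
              mul_le_mul_of_nonneg_left (by linarith) hCη.le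
          _ = (2 * C * η * K) * (α + β) := by ring
          _ < κ * (α + β) := mul_lt_mul_of_pos_right hηκ hpos
      have h2 := abs_le.mp hvf
      exact ⟨fun h => by linarith [h2.1], fun h => by linarith [h2.2]⟩
    have hka : ∀ α β : ℝ, 0 ≤ α → 0 ≤ β → α ≤ 2 * ε * β → κ * (α + β) ≤ s * d * μ * β / 8 := by
      intro α β hα hβ h
      have h1 : α ≤ β := by
        have := mul_le_mul_of_nonneg_right hε4.le hβ
        linarith
      have h2 : ε * (α + β) ≤ β / 2 := by
        have h3 := mul_le_mul hε4.le (by linarith : α + β ≤ 2 * β) (by linarith) (by norm_num)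
        linarith
      have h3 := mul_le_mul_of_nonneg_left h2 (mul_pos hsd hμ0).le
      rw [hκ]
      linarith
    have hkf : ∀ α β : ℝ, 0 ≤ α → 0 ≤ β → ε * β ≤ α → ε * α ≤ β →
        κ * (α + β) ≤ s * d * μ * α ∧ κ * (α + β) ≤ s * d * μ * β := by
      intro α β hα hβ h h'
      have g1 : ε * α ≤ 1 / 4 * α := mul_le_mul_of_nonneg_right hε4.le hα
      have g2 : ε * β ≤ 1 / 4 * β := mul_le_mul_of_nonneg_right hε4.le hβ
      have h2 : ε * (α + β) ≤ 4 * α := by linarith
      have h2' : ε * (α + β) ≤ 4 * β := by linarith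
      have h3 := mul_le_mul_of_nonneg_left h2 (mul_pos hsd hμ0).le
      have h3' := mul_le_mul_of_nonneg_left h2' (mul_pos hsd hμ0).le
      rw [hκ]
      exact ⟨by linarith, by linarith⟩
    have cmp : ∀ c β : ℝ, μ ≤ c → 0 ≤ β → s * d * μ * β ≤ c * (β * (s * d)) := by
      intro c β hc hβ
      have := mul_le_mul_of_nonneg_right hc (mul_nonneg hβ hsd.le)
      linarith
    have npos : ∀ c β : ℝ, 0 < c → 0 ≤ β → 0 ≤ c * (β * (s * d)) := fun c β hc hβ =>
      mul_nonneg hc.le (mul_nonneg hβ hsd.le)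
    have half : ∀ c α β : ℝ, 0 < c → ε * c < 1 / 4 → 0 ≤ β → α ≤ 2 * ε * β →
        c * (α * (s * d)) ≤ β * (s * d) / 2 := by
      intro c α β hc hεc hβ h
      have h1 : c * α ≤ β / 2 := by
        have h2 := mul_le_mul_of_nonneg_left h hc.le
        have h3 := mul_le_mul_of_nonneg_right hεc.le hβ
        linarith
      have := mul_le_mul_of_nonneg_right h1 hsd.le
      linarith
    constructor
    · -- arm zones
      rintro i hi ⟨α, β, hα, hβ, hαβ, hyy⟩
      have hk := hka α β hα hβ hαβ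
      have c1 := cmp 1 β hμ1 hβ
      have ca := cmp a β hμa hβ
      have cb := cmp b β hμb hβ
      have na := npos a β ha hβ
      have nb := npos b β hb hβ
      have n1 := npos 1 β one_pos hβ
      have nα := mul_nonneg hα hsd.le
      rw [hS] at hi
      simp only [Finset.mem_insert, Finset.mem_singleton] at hi
      rcases hi with rfl | rfl | rfl | rfl
      · -- the arm u
        rw [hu, hx] at hyy
        have hv : 0 < v' := by
          rcases hyy with hyy | hyy
          · refine (hsig i hm u hu_mem α β hα hβ hyy _ _ b1).1 ?_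
            rw [hyy, det3_lin, XPm, XPQ]
            have := half b α β hb hεb hβ hαβ
            linarith
          · refine (hsig x hx_mem u hu_mem α β hα hβ hyy _ _ b1).1 ?_
            rw [hyy, det3_lin, XPX, XPQ]
            linarith
        have hu1 : u' ≤ 0 := by
          rcases m2 with h | h
          · exact absurd hv (not_lt.mpr h)
          · exact h
        refine armEq_of L A B i (D y) ?_ ?_ ?_
        · rw [sm]; linarith
        · rw [sm, hu]; linarith
        · rw [hu]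
          rcases m3 with ⟨_, h⟩ | h
          · exact Or.inr (zero_of u u' hu' (le_antisymm hu1 h))
          · exact Or.inl (zero_of i w' hw' (le_antisymm m1 h))
      · -- the arm x
        rw [hx, hxq] at hyy
        have hw : w' < 0 := by
          rcases hyy with hyy | hyy
          · refine (hsig i hu_mem x hx_mem α β hα hβ hyy _ _ b3).2 ?_
            rw [hyy, det3_lin, PQQ, hd]
            linarith
          · refine (hsig q hq x hx_mem α β hα hβ hyy _ _ b3).2 ?_
            rw [hyy, det3_lin, PQP, hd]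
            linarith
        obtain ⟨h1, h2⟩ : 0 ≤ v' ∧ 0 ≤ u' := by
          rcases m3 with h | h
          · exact h
          · exact absurd hw (not_lt.mpr h)
        refine armEq_of L A B i (D y) ?_ ?_ ?_
        · rw [su, hu']; exact h2
        · rw [su, hx, hv']; exact h1
        · rw [hx]
          rcases m2 with h | h
          · exact Or.inr (zero_of x v' hv' (le_antisymm h h1))
          · exact Or.inl (zero_of i u' hu' (le_antisymm h h2))
      · -- the arm q
        rw [hxq, hqm] at hyy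
        have huu : 0 < u' := by
          rcases hyy with hyy | hyy
          · refine (hsig i hx_mem q hq α β hα hβ hyy _ _ b2).1 ?_
            rw [hyy, det3_lin, QXX, QXP]
            linarith
          · refine (hsig m hm q hq α β hα hβ hyy _ _ b2).1 ?_
            rw [hyy, det3_lin, QXm, QXP]
            have := half a α β ha hεa hβ hαβ
            linarith
        have hv1 : v' ≤ 0 := by
          rcases m2 with h | h
          · exact h
          · exact absurd huu (not_lt.mpr h)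
        refine armEq_of L A B i (D y) ?_ ?_ ?_
        · rw [sx]; linarith
        · rw [sx, hxq]; exact wq'
        · rw [hxq]
          rcases m3 with ⟨h, _⟩ | h
          · exact Or.inl (zero_of i v' hv' (le_antisymm hv1 h))
          · exact Or.inr (wq (le_antisymm m1 h))
      · -- the arm m
        rw [hqm, hu] at hyy
        have hw : w' = 0 := by
          have hor : v' < 0 ∨ u' < 0 := by
            rcases hyy with hyy | hyy
            · left
              refine (hsig i hq m hm α β hα hβ hyy _ _ b1).2 ?_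
              rw [hyy, det3_lin, XPP, XPm]
              linarith
            · right
              refine (hsig u hu_mem m hm α β hα hβ hyy _ _ b2).2 ?_
              rw [hyy, det3_lin, QXQ, QXm]
              linarith
          rcases m3 with ⟨h, h'⟩ | h
          · rcases hor with h1 | h1 <;> linarith
          · exact le_antisymm m1 h
        refine armEq_of L A B i (D y) ?_ ?_ ?_
        · rw [tq, Real.sign_zero, zero_mul]
        · rw [tq, Real.sign_zero, zero_mul]
        · rw [hqm]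
          exact Or.inr (zero_of m w' hw' hw)
    · -- face zones
      rintro i hi ⟨α, β, hα, hβ, hαβ, hβα, hyy⟩
      obtain ⟨hk, hk'⟩ := hkf α β hα hβ hαβ hβα
      have c1 := cmp 1 β hμ1 hβ
      have ca := cmp a β hμa hβ
      have cb := cmp b β hμb hβ
      have c1' := cmp 1 α hμ1 hα
      have ca' := cmp a α hμa hα
      have cb' := cmp b α hμb hα
      rw [hS] at hi
      simp only [Finset.mem_insert, Finset.mem_singleton] at hi
      rcases hi with rfl | rfl | rfl | rfl
      · rw [hu] at hyy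
        have huu : u' < 0 := by
          refine (hsig i hm u hu_mem α β hα hβ hyy _ _ b2).2 ?_
          rw [hyy, det3_lin, QXm, QXQ]
          linarith
        refine zero_of i w' hw' ?_
        rcases m3 with ⟨h, h'⟩ | h
        · linarith
        · exact le_antisymm m1 h
      · rw [hx] at hyy
        have hv : 0 < v' := by
          refine (hsig i hu_mem x hx_mem α β hα hβ hyy _ _ b1).1 ?_
          rw [hyy, det3_lin, XPQ, XPX]
          linarith
        have hw : w' < 0 := by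
          refine (hsig i hu_mem x hx_mem α β hα hβ hyy _ _ b3).2 ?_
          rw [hyy, det3_lin, PQQ, hd]
          linarith
        refine zero_of i u' hu' ?_
        rcases m3 with ⟨h, h'⟩ | h
        · rcases m2 with h2 | h2
          · linarith
          · exact le_antisymm h2 h'
        · linarith
      · rw [hxq] at hyy
        have huu : 0 < u' := by
          refine (hsig i hx_mem q hq α β hα hβ hyy _ _ b2).1 ?_
          rw [hyy, det3_lin, QXX, QXP]
          linarith
        have hw : w' < 0 := by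
          refine (hsig i hx_mem q hq α β hα hβ hyy _ _ b3).2 ?_
          rw [hyy, det3_lin, hd, PQP]
          linarith
        refine zero_of i v' hv' ?_
        rcases m3 with ⟨h, h'⟩ | h
        · rcases m2 with h2 | h2
          · exact le_antisymm h2 h
          · linarith
        · linarith
      · rw [hqm] at hyy
        have hv : v' < 0 := by
          refine (hsig i hq m hm α β hα hβ hyy _ _ b1).2 ?_
          rw [hyy, det3_lin, XPP, XPm]
          linarith
        refine wq ?_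
        rcases m3 with ⟨h, h'⟩ | h
        · linarith
        · exact le_antisymm m1 h

end Pool.Agent.TSM
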