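import Pool.Agent.TSM.VBase2

/-!
# TSM, module CNDN: the new chamfers satisfy the chord conditions
-/

set_option autoImplicit false

namespace Pool.Agent.TSM

open Set Filter Topology Metric

namespace CNDN_

variable {V : Type} [DecidableEq V]

theorem crs_swap (a b : E3) : crs a b = -crs b a := by
  ext i
  fin_cases i <;> simp [crs] <;> ring

theorem crs_add_left (a b : E3) (r : ℝ) : crs (a + r • b) b = crs a b := by
  ext i
  fin_cases i <;> simp [crs] <;> ring

theorem crs_add_right (a b : E3) (r : ℝ) : crs b (a + r • b) = crs b a := by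
  ext i
  fin_cases i <;> simp [crs] <;> ring

theorem crs_diff (a b x y : E3) : crs (a + x) (b + y) - crs a b = crs x (b + y) + crs a y := by
  ext i
  fin_cases i <;> simp [crs] <;> ring

theorem det3_tilt (a b d : E3) (c c' : ℝ) : det3 (a + c • b) b (d + c' • b) = det3 a b d := by
  unfold det3
  simp only [PiLp.add_apply, PiLp.smul_apply, smul_eq_mul]
  ring

theorem det3_smul (a b d : E3) (c : ℝ) : det3 (c • a) b d = c * det3 a b d := by
  unfold det3
  simp only [PiLp.smul_apply, smul_eq_mul]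
  ring

theorem crs_norm (a b : E3) : ‖crs a b‖ ≤ ‖a‖ * ‖b‖ := by
  have h : ‖crs a b‖ ^ 2 ≤ (‖a‖ * ‖b‖) ^ 2 := by
    rw [mul_pow, EuclideanSpace.real_norm_sq_eq, EuclideanSpace.real_norm_sq_eq,
      EuclideanSpace.real_norm_sq_eq]
    simp only [Fin.sum_univ_three, crs]
    simp
    nlinarith [sq_nonneg (a 0 * b 0 + a 1 * b 1 + a 2 * b 2)]
  exact (sq_le_sq₀ (norm_nonneg _) (by positivity)).1 h

theorem det3_rel {P Q M : E3} {a b : ℝ} (e : a • P + b • Q + M = 0) : det3 P M Q = 0 := by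
  have hM : M = -(a • P) - b • Q := by
    have := eq_neg_of_add_eq_zero_right e
    rw [this, neg_add']
  subst hM
  simp [det3]; ring

theorem flat_det {L : Pg V} (h : L.Ok) {i j l : V} (hij : i ≠ j) (hil : i ≠ l) (hjl : j ≠ l)
    (hf : L.Flat i j l) : det3 (L.p i) (L.p j) (L.p l) = 0 := by
  obtain ⟨m, q, hX, hq, hqm, hset⟩ := hf
  rcases h.kind with ⟨h1, _⟩ | ⟨m', h1, h2⟩
  · rw [h1] at hX; exact absurd hX (by simp)
  · have : m' = m := Option.some.inj (h1.symm.trans hX)
    subst this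
    obtain ⟨_, q', hq', hqm', ⟨a, b, ha, hb, e⟩, _⟩ := h2
    have : q' = q := h.inj q' hq' q hq (hqm'.trans hqm.symm)
    subst this
    have key := det3_rel e
    have e1 : i ∈ ({q', m', L.s m'} : Finset V) := by rw [← hset]; simp
    have e2 : j ∈ ({q', m', L.s m'} : Finset V) := by rw [← hset]; simp
    have e3 : l ∈ ({q', m', L.s m'} : Finset V) := by rw [← hset]; simp
    simp only [Finset.mem_insert, Finset.mem_singleton] at e1 e2 e3
    rcases e1 with rfl | rfl | rfl <;> rcases e2 with e2 | e2 | e2 <;>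
      rcases e3 with e3 | e3 | e3 <;> first
      | exact absurd e2.symm hij
      | exact absurd e3.symm hil
      | exact absurd (e2.trans e3.symm) hjl
      | (rw [e2, e3]; unfold det3 at key ⊢; linarith)

theorem ne_all {L : Pg V} {t u k w z : V} (h : L.Ear t u k w z) :
    t ≠ u ∧ t ≠ k ∧ t ≠ w ∧ t ≠ z ∧ u ≠ k ∧ u ≠ w ∧ u ≠ z ∧ k ≠ w ∧ k ≠ z ∧ w ≠ z := by
  have := h.nodup
  simp only [List.nodup_cons, List.mem_cons, List.not_mem_nil, or_false, not_or,
    List.nodup_nil, and_true] at this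
  tauto

/-! ### genericity of the chords -/

theorem mid {L : Pg V} {t u k w z : V} (h : L.Ear t u k w z) {m : V} (hX : L.X = some m) :
    m ≠ u ∧ m ≠ k ∧ m ≠ w := by
  refine ⟨fun e => h.Xu (e ▸ hX), fun e => h.Xk (e ▸ hX), fun e => h.Xw (e ▸ hX)⟩

theorem gen_L {L : Pg V} {t u k w z : V} (h : L.Ear t u k w z) {a a' : ℝ}
    (hH : (L.hat t u k w z a a').Ok) {j m : V} (hj : j ∈ L.S.erase k) (hm : m ∈ L.S.erase k)
    (hjm : m ≠ j)
    (hg : ∀ x ∈ (L.hat t u k w z a a').S, x ≠ j → x ≠ m →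
      det3 ((L.hat t u k w z a a').p j) ((L.hat t u k w z a a').p m)
        ((L.hat t u k w z a a').p x) ≠ 0) :
    ∀ x ∈ L.S, x ≠ j → x ≠ m → det3 (L.p j) (L.p m) (L.p x) ≠ 0 := by
  intro x hx hxj hxm
  refine h.ok.gen j (Finset.mem_of_mem_erase hj) m (Finset.mem_of_mem_erase hm) x hx hjm.symm
    hxj.symm hxm.symm ?_
  rintro ⟨m0, q, hX, hq, hqm, hset⟩
  obtain ⟨htu, htk, htw, htz, huk, huw, huz, hkw, hkz, hwz⟩ := ne_all h
  obtain ⟨hmu, hmk, hmw⟩ := mid h hX
  have hm0 : m0 ∈ L.S := by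
    rw [← hqm]
    exact h.ok.maps q hq
  have hqk : q ≠ k := by
    rintro rfl
    exact hmw (hqm.symm.trans h.sk)
  have hqu : L.s q ≠ k := by
    rw [hqm]
    exact hmk
  have hsq : (L.hat t u k w z a a').s q = m0 := by
    show (if L.s q = k then L.s k else L.s q) = m0
    rw [if_neg hqu, hqm]
  have hsmk : L.s m0 ≠ k := by
    intro e
    exact hmu (h.ok.inj m0 hm0 u h.memu (e.trans h.su.symm))
  have hsm : (L.hat t u k w z a a').s m0 = L.s m0 := by
    show (if L.s m0 = k then L.s k else L.s m0) = L.s m0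
    rw [if_neg hsmk]
  have hxk : x ∈ (L.hat t u k w z a a').S := by
    show x ∈ L.S.erase k
    refine Finset.mem_erase.2 ⟨?_, hx⟩
    have e3 : x ∈ ({q, m0, L.s m0} : Finset V) := by rw [← hset]; simp
    simp only [Finset.mem_insert, Finset.mem_singleton] at e3
    rcases e3 with rfl | rfl | rfl
    · exact hqk
    · exact hmk
    · exact hsmk
  refine hg x hxk hxj hxm (flat_det hH hjm.symm hxj.symm hxm.symm ?_)
  refine ⟨m0, q, hX, Finset.mem_erase.2 ⟨hqk, hq⟩, hsq, ?_⟩
  rw [hset, hsm]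

theorem gen_uw {L : Pg V} {t u k w z : V} (h : L.Ear t u k w z) :
    ∀ x ∈ L.S, x ≠ u → x ≠ w → det3 (L.p u) (L.p w) (L.p x) ≠ 0 := by
  intro x hx hxu hxw
  obtain ⟨htu, htk, htw, htz, huk, huw, huz, hkw, hkz, hwz⟩ := ne_all h
  refine h.ok.gen u h.memu w h.memw x hx huw hxu.symm hxw.symm ?_
  rintro ⟨m0, q, hX, hq, hqm, hset⟩
  obtain ⟨hmu, hmk, hmw⟩ := mid h hX
  have hm0 : m0 ∈ L.S := by
    rw [← hqm]
    exact h.ok.maps q hq
  have e1 : u ∈ ({q, m0, L.s m0} : Finset V) := by rw [← hset]; simp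
  have e2 : w ∈ ({q, m0, L.s m0} : Finset V) := by rw [← hset]; simp
  simp only [Finset.mem_insert, Finset.mem_singleton] at e1 e2
  rcases e1 with e1 | e1 | e1
  · apply hmk
    rw [← hqm, ← e1, h.su]
  · exact hmu e1.symm
  · rcases e2 with e2 | e2 | e2
    · have e3 : m0 = z := by rw [← hqm, ← e2, h.sw]
      apply htz
      refine h.ok.inj t h.memt z h.memz ?_
      rw [h.st, e1, e3]
    · exact hmw e2.symm
    · exact huw (e1.trans e2.symm)

/-! ### the arms with the numerical conditions -/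

/-- the index of a chamfer -/
def gi {κ : Type} [DecidableEq κ] (c n : κ) : Option (Option κ) :=
  if n = c then some none else some (some n)

theorem arm {κ : Type} [DecidableEq κ] (s : ℝ) (pt pu pk pw hu hw e : E3) (Ns : Finset κ)
    (N M : κ → E3) (c : κ) (ε δ : ℝ) (hN : (mkE s pt pu pk pw hu hw e Ns N).Num ε δ)
    (hτ : s * det3 pt pu pw < 0) (hMc : M c = s • crs hu hw)
    (hMN : ∀ n ∈ Ns, n ≠ c → M n = N n) :
    (∀ n ∈ insert c Ns, 0 < (inner ℝ (M n) pu : ℝ) ∧
      ε * inner ℝ (M n) pt + inner ℝ (M n) pu < 0 ∧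
      ε * inner ℝ (M n) pk + inner ℝ (M n) pu < 0) ∧
    ∀ n ∈ insert c Ns, ∀ n' ∈ insert c Ns, n ≠ n' →
      det3 (s • crs pt pu) (M n) (M n') ≠ 0 ∧ det3 (s • crs pu pk) (M n) (M n') ≠ 0 ∧
      ∀ n'' ∈ insert c Ns, n'' ≠ n → n'' ≠ n' → det3 (M n) (M n') (M n'') ≠ 0 := by
  have hJ : ∀ n ∈ insert c Ns, gi c n ∈ (mkE s pt pu pk pw hu hw e Ns N).J := by
    intro n hn
    show gi c n ∈ insert none (insert (some none) (Ns.image fun n => some (some n)))
    unfold gi
    by_cases h : n = c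
    · rw [if_pos h]
      simp
    · rw [if_neg h]
      have : n ∈ Ns := (Finset.mem_insert.1 hn).resolve_left h
      simp [this]
  have hG : ∀ n ∈ insert c Ns, (mkE s pt pu pk pw hu hw e Ns N).G (gi c n) = M n := by
    intro n hn
    unfold gi
    by_cases h : n = c
    · rw [if_pos h, h, hMc]
      rfl
    · rw [if_neg h, hMN n ((Finset.mem_insert.1 hn).resolve_left h) h]
      rfl
  have hne : ∀ n, gi c n ≠ (none : Option (Option κ)) := by
    intro n
    unfold gi
    by_cases h : n = c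
    · rw [if_pos h]
      simp
    · rw [if_neg h]
      simp
  have hinj : ∀ n n', n ≠ n' → gi c n ≠ gi c n' := by
    intro n n' h e
    unfold gi at e
    by_cases h1 : n = c
    · by_cases h2 : n' = c
      · exact h (h1.trans h2.symm)
      · rw [if_pos h1, if_neg h2] at e
        simp at e
    · by_cases h2 : n' = c
      · rw [if_neg h1, if_pos h2] at e
        simp at e
      · rw [if_neg h1, if_neg h2] at e
        simp only [Option.some.injEq] at e
        exact h e
  have hP : (none : Option (Option κ)) ∈ (mkE s pt pu pk pw hu hw e Ns N).J := hN.memP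
  refine ⟨fun n hn => ?_, fun n hn n' hn' hnn => ⟨?_, ?_, fun n'' hn'' h1 h2 => ?_⟩⟩
  · obtain ⟨h1, _, h3, h4⟩ := hN.t1 hτ (gi c n) (hJ n hn) (hne n)
    rw [hG n hn] at h1 h3 h4
    exact ⟨h1, h3, h4⟩
  · have := hN.ind3 none hP (gi c n) (hJ n hn) (gi c n') (hJ n' hn') (hne n).symm (hne n').symm
      (hinj n n' hnn)
    rw [hG n hn, hG n' hn'] at this
    exact this
  · have := hN.indB (gi c n) (hJ n hn) (gi c n') (hJ n' hn') (hinj n n' hnn)
    rw [hG n hn, hG n' hn'] at this
    exact this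
  · have := hN.ind3 (gi c n) (hJ n hn) (gi c n') (hJ n' hn') (gi c n'') (hJ n'' hn'')
      (hinj n n' hnn) (hinj n n'' h1.symm) (hinj n' n'' h2.symm)
    rw [hG n hn, hG n' hn', hG n'' hn''] at this
    exact this

/-- the sign condition after undoing a tilt -/
theorem untilt {ε ε' c sg : ℝ} {N pj pq : E3} (hε : 0 < ε) (hε' : 0 < ε') (he : ε' < ε / 4)
    (hc : ε * |c| ≤ 1) (h1 : sg * inner ℝ N pj < 0)
    (h2 : 0 < sg * inner ℝ N (pj + ε' • (pq + c • pj))) :
    0 < sg * inner ℝ N (pj + ε • pq) := by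
  rw [inner_add_right, inner_smul_right, inner_add_right, inner_smul_right] at h2
  rw [inner_add_right, inner_smul_right]
  set A : ℝ := inner ℝ N pj
  set B : ℝ := inner ℝ N pq
  have hc1 : -1 ≤ ε * c ∧ ε * c ≤ 1 := by
    have := abs_le.1 (show |ε * c| ≤ 1 by rw [abs_mul, abs_of_pos hε]; exact hc)
    exact this
  have h3 : 0 < sg * (A + ε' * B + ε' * c * A) := by
    have : sg * (A + ε' * (B + c * A)) = sg * (A + ε' * B + ε' * c * A) := by ring
    rw [← this]
    exact h2
  -- multiply by ε / ε'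
  have h4 : 0 < ε * (sg * (A + ε' * B + ε' * c * A)) := mul_pos hε h3
  have h5 : ε * (sg * (A + ε' * B + ε' * c * A)) =
      ε' * (sg * (A + ε * B)) + (sg * A) * (ε - ε' + ε' * (ε * c)) := by ring
  have h6 : 0 ≤ ε - ε' + ε' * (ε * c) := by nlinarith [hc1.1, hc1.2]
  have h7 : (sg * A) * (ε - ε' + ε' * (ε * c)) ≤ 0 :=
    mul_nonpos_of_nonpos_of_nonneg h1.le h6
  have h8 : 0 < ε' * (sg * (A + ε * B)) := by linarith
  exact (pos_iff_pos_of_mul_pos h8).1 hε'

/-! ### closeness -/

theorem hatp_u (L : Pg V) (t u k w z : V) (a a' : ℝ) :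
    (L.hat t u k w z a a').p u = L.p u + a • L.p t := if_pos rfl

theorem hatp_w (L : Pg V) (t u k w z : V) (a a' : ℝ) (h : w ≠ u) :
    (L.hat t u k w z a a').p w = L.p w + a' • L.p z := by
  show (if w = u then L.p u + a • L.p t else if w = w then L.p w + a' • L.p z else L.p w) = _
  rw [if_neg h, if_pos rfl]

theorem hatp_i (L : Pg V) (t u k w z : V) (a a' : ℝ) {i : V} (h : i ≠ u) (h' : i ≠ w) :
    (L.hat t u k w z a a').p i = L.p i := by
  show (if i = u then L.p u + a • L.p t else if i = w then L.p w + a' • L.p z else L.p i) = _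
  rw [if_neg h, if_neg h']

theorem hatp_close {L : Pg V} {t u k w z : V} (h : L.Ear t u k w z) {R a₀ a a' : ℝ}
    (hR : ∀ i ∈ L.S, ‖L.p i‖ ≤ R) (hR1 : 1 ≤ R) (ha : |a| < a₀) (ha' : |a'| < a₀) (ha1 : a₀ ≤ 1)
    {i j : V} (hi : i ∈ L.S) (hj : j ∈ L.S) :
    ‖crs ((L.hat t u k w z a a').p i) ((L.hat t u k w z a a').p j) - crs (L.p i) (L.p j)‖ ≤
      3 * a₀ * (R * R) := by
  have hd : ∀ i ∈ L.S, ∃ d : E3, (L.hat t u k w z a a').p i = L.p i + d ∧ ‖d‖ ≤ a₀ * R := by
    intro i hi
    have ha0 : 0 ≤ a₀ := (abs_nonneg a).trans ha.le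
    by_cases h1 : i = u
    · refine ⟨a • L.p t, ?_, ?_⟩
      · rw [h1, hatp_u]
      · rw [norm_smul, Real.norm_eq_abs]
        exact mul_le_mul ha.le (hR t h.memt) (norm_nonneg _) ha0
    · by_cases h2 : i = w
      · refine ⟨a' • L.p z, ?_, ?_⟩
        · rw [h2, hatp_w]
          rw [← h2]
          exact h1
        · rw [norm_smul, Real.norm_eq_abs]
          exact mul_le_mul ha'.le (hR z h.memz) (norm_nonneg _) ha0
      · refine ⟨0, ?_, ?_⟩
        · rw [hatp_i L t u k w z a a' h1 h2, add_zero]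
        · rw [norm_zero]
          exact mul_nonneg ha0 (by linarith)
  obtain ⟨x, hx, hxn⟩ := hd i hi
  obtain ⟨y, hy, hyn⟩ := hd j hj
  have ha0 : 0 ≤ a₀ := (abs_nonneg a).trans ha.le
  rw [hx, hy, crs_diff]
  have h1 : ‖L.p j + y‖ ≤ R + a₀ * R := (norm_add_le _ _).trans (add_le_add (hR j hj) hyn)
  calc ‖crs x (L.p j + y) + crs (L.p i) y‖ ≤ ‖crs x (L.p j + y)‖ + ‖crs (L.p i) y‖ :=
        norm_add_le _ _
    _ ≤ ‖x‖ * ‖L.p j + y‖ + ‖L.p i‖ * ‖y‖ := add_le_add (crs_norm _ _) (crs_norm _ _)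
    _ ≤ (a₀ * R) * (R + a₀ * R) + R * (a₀ * R) :=
        add_le_add (mul_le_mul hxn h1 (norm_nonneg _) (by positivity))
          (mul_le_mul (hR i hi) hyn (norm_nonneg _) (by linarith))
    _ ≤ 3 * a₀ * (R * R) := by
        have h2 : 0 ≤ a₀ * (R * R) := by positivity
        nlinarith

end CNDN_

open CNDN_ in
/-- CNDN: the new chamfers satisfy the chord conditions. -/
theorem cndn_proof : Stmt_Cndn := by
  intro V _ L t u k w z x₀ y₀ h hE ε δ hε
  obtain ⟨htu, htk, htw, htz, huk, huw, huz, hkw, hkz, hwz⟩ := ne_all h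
  obtain ⟨R, hR1, hR⟩ : ∃ R : ℝ, 1 ≤ R ∧ ∀ i ∈ L.S, ‖L.p i‖ ≤ R := by
    refine ⟨1 + ∑ i ∈ L.S, ‖L.p i‖, ?_, fun i hi => ?_⟩
    · have : 0 ≤ ∑ i ∈ L.S, ‖L.p i‖ := Finset.sum_nonneg (fun i _ => norm_nonneg _)
      linarith
    · have := Finset.single_le_sum (f := fun i => ‖L.p i‖) (fun i _ => norm_nonneg _) hi
      linarith
  have hRR : 0 < R * R := by nlinarith
  obtain ⟨a₀, ha0, ha1, ha2, ha3⟩ : ∃ a₀ : ℝ, 0 < a₀ ∧ a₀ ≤ 1 ∧ ε * a₀ ≤ 1 ∧
      3 * a₀ * (R * R) ≤ ε / 2 := by
    refine ⟨min 1 (min (1 / ε) (ε / (6 * (R * R)))), ?_, min_le_left _ _, ?_, ?_⟩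
    · positivity
    · have h1 : min 1 (min (1 / ε) (ε / (6 * (R * R)))) ≤ 1 / ε :=
        (min_le_right _ _).trans (min_le_left _ _)
      calc ε * min 1 (min (1 / ε) (ε / (6 * (R * R)))) ≤ ε * (1 / ε) :=
            mul_le_mul_of_nonneg_left h1 hε.le
        _ = 1 := by field_simp
    · have h1 : min 1 (min (1 / ε) (ε / (6 * (R * R)))) ≤ ε / (6 * (R * R)) :=
        (min_le_right _ _).trans (min_le_right _ _)
      calc 3 * min 1 (min (1 / ε) (ε / (6 * (R * R)))) * (R * R)
          ≤ 3 * (ε / (6 * (R * R))) * (R * R) := by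
            refine mul_le_mul_of_nonneg_right ?_ hRR.le
            linarith
        _ = ε / 2 := by field_simp; ring
  refine ⟨a₀, ha0, fun a a' hT hH => ⟨ε / 4, by positivity, ?_⟩⟩
  intro ε' hε' hεε Ch N hC hU hW
  obtain ⟨hT1, hT2, hT3, hT4⟩ := hT
  have hcl : ∀ i ∈ L.S, ∀ j ∈ L.S,
      ‖crs ((L.hat t u k w z a a').p i) ((L.hat t u k w z a a').p j) - crs (L.p i) (L.p j)‖ ≤
        ε / 2 := fun i hi j hj => (hatp_close h hR hR1 hT2 hT4 ha1 hi hj).trans ha3
  -- closeness of a chamfer normal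
  have hclN : ∀ (n : Sym2 V) (i j : V), i ∈ L.S → j ∈ L.S →
      (∃ σ : ℝ, (σ = 1 ∨ σ = -1) ∧ ‖N n - σ • crs ((L.hat t u k w z a a').p i)
        ((L.hat t u k w z a a').p j)‖ ≤ ε') →
      ∃ σ : ℝ, (σ = 1 ∨ σ = -1) ∧ ‖N n - σ • crs (L.p i) (L.p j)‖ ≤ ε := by
    rintro n i j hi hj ⟨σ, hσ, hn⟩
    refine ⟨σ, hσ, ?_⟩
    have h1 : N n - σ • crs (L.p i) (L.p j) =
        (N n - σ • crs ((L.hat t u k w z a a').p i) ((L.hat t u k w z a a').p j)) +
        σ • (crs ((L.hat t u k w z a a').p i) ((L.hat t u k w z a a').p j) -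
          crs (L.p i) (L.p j)) := by
      rw [smul_sub]
      abel
    have h2 : ‖σ • (crs ((L.hat t u k w z a a').p i) ((L.hat t u k w z a a').p j) -
          crs (L.p i) (L.p j))‖ ≤ ε / 2 := by
      rw [norm_smul, Real.norm_eq_abs]
      have : |σ| = 1 := by
        rcases hσ with rfl | rfl
        · exact abs_one
        · rw [abs_neg, abs_one]
      rw [this, one_mul]
      exact hcl i hi j hj
    rw [h1]
    refine (norm_add_le _ _).trans ?_
    linarith
  have hst : (L.hat t u k w z a a').s t = u := by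
    show (if L.s t = k then L.s k else L.s t) = u
    rw [h.st, if_neg huk]
  have hsu : (L.hat t u k w z a a').s u = w := by
    show (if L.s u = k then L.s k else L.s u) = w
    rw [h.su, if_pos rfl, h.sk]
  have hsw : (L.hat t u k w z a a').s w = z := by
    show (if L.s w = k then L.s k else L.s w) = z
    rw [h.sw, if_neg hkz.symm]
  have htS : t ∈ (L.hat t u k w z a a').S := Finset.mem_erase.2 ⟨htk, h.memt⟩
  have huS : u ∈ (L.hat t u k w z a a').S := Finset.mem_erase.2 ⟨huk, h.memu⟩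
  have hwS : w ∈ (L.hat t u k w z a a').S := Finset.mem_erase.2 ⟨hkw.symm, h.memw⟩
  have hturnt : L.turn t = det3 (L.p t) (L.p u) (L.p k) := by
    unfold Pg.turn
    rw [h.st, h.su]
  have hturnk : L.turn k = det3 (L.p k) (L.p w) (L.p z) := by
    unfold Pg.turn
    rw [h.sk, h.sw]
  intro i hi
  by_cases hit : i = t
  · -- the arm `u`
    subst hit
    rw [h.st, h.su]
    have hch : L.chN i u k w z Ch u =
        if det3 (L.p i) (L.p u) (L.p w) < 0 then insert s(u, w) (Ch u) else ∅ := by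
      show (if u = k then _ else if u = u then _ else _) = _
      rw [if_neg huk, if_pos rfl]
    refine ⟨fun hz => absurd (hturnt ▸ hz) h.θu, ?_⟩
    rw [hch]
    by_cases hτ : det3 (L.p i) (L.p u) (L.p w) < 0
    swap
    · rw [if_neg hτ]
      exact ⟨fun n hn => absurd hn (Finset.notMem_empty n),
        fun n hn => absurd hn (Finset.notMem_empty n)⟩
    rw [if_pos hτ]
    have hθ := h.cu hτ
    have hsg : Real.sign (L.turn i) = -1 := by
      rw [hturnt]
      exact Real.sign_of_neg hθ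
    have hCt := hC i htS
    rw [hst, hsu] at hCt
    obtain ⟨_, hC2, _⟩ := hCt
    have hnw : ∀ n ∈ Ch u, n ≠ s(u, w) := by
      intro n hn e
      obtain ⟨m, hm, hnm, hmi, hmu, hmw, _⟩ := hC2 n hn
      rw [hnm] at e
      apply hmw
      have := Sym2.eq_iff.1 e
      rcases this with ⟨_, e2⟩ | ⟨e2, e3⟩
      · exact e2
      · exact e3.trans e2
    obtain ⟨harm1, harm2⟩ := arm (κ := Sym2 V) 1 (L.p i) (L.p u) (L.p k) (L.p w)
      (L.p u + a • L.p i) (L.p w + a' • L.p z) (L.ee u k w x₀ y₀) (Ch u) N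
      (L.nN i u k w z a a' N) s(u, w) ε δ hU (by rw [one_mul]; exact hτ)
      (by unfold Pg.nN; rw [if_pos rfl, one_smul])
      (fun n _ hne => by unfold Pg.nN; rw [if_neg hne])
    refine ⟨fun n hn => ?_, fun n hn n' hn' hnn => ?_⟩
    · obtain ⟨h1, h2, h3⟩ := harm1 n hn
      have hs1 : Real.sign (L.turn i) * inner ℝ (L.nN i u k w z a a' N n) (L.p u) < 0 := by
        rw [hsg]
        linarith
      have hs2 : 0 < Real.sign (L.turn i) *
          inner ℝ (L.nN i u k w z a a' N n) (L.p u + ε • L.p i) := by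
        rw [hsg, inner_add_right, inner_smul_right]
        linarith
      have hs3 : 0 < Real.sign (L.turn i) *
          inner ℝ (L.nN i u k w z a a' N n) (L.p u + ε • L.p k) := by
        rw [hsg, inner_add_right, inner_smul_right]
        linarith
      by_cases hnc : n = s(u, w)
      · refine ⟨w, h.memw, hnc, htw.symm, huw.symm, hkw.symm, gen_uw h, hs1, hs2, hs3, 1,
          Or.inl rfl, ?_⟩
        have : L.nN i u k w z a a' N n =
            crs ((L.hat i u k w z a a').p u) ((L.hat i u k w z a a').p w) := by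
          rw [hatp_u, hatp_w L i u k w z a a' huw.symm]
          unfold Pg.nN
          rw [if_pos hnc]
        rw [this, one_smul]
        linarith [hcl u h.memu w h.memw]
      · have hnCh : n ∈ Ch u := (Finset.mem_insert.1 hn).resolve_left hnc
        obtain ⟨m, hm, hnm, hmi, hmu, hmw, hg, _, _, _, hcn⟩ := hC2 n hnCh
        have hmS : m ∈ L.S := Finset.mem_of_mem_erase hm
        have hmk : m ≠ k := Finset.ne_of_mem_erase hm
        have hnN : L.nN i u k w z a a' N n = N n := by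
          unfold Pg.nN
          rw [if_neg hnc]
        refine ⟨m, hmS, hnm, hmi, hmu, hmk,
          gen_L h hH huS hm hmu hg, hs1, hs2, hs3, ?_⟩
        rw [hnN]
        exact hclN n u m h.memu hmS hcn
    · obtain ⟨h1, h2, h3⟩ := harm2 n hn n' hn' hnn
      rw [one_smul] at h1 h2
      have hnort : L.nor i = crs (L.p i) (L.p u) := by
        unfold Pg.nor
        rw [h.st]
      have hnoru : L.nor u = crs (L.p u) (L.p k) := by
        unfold Pg.nor
        rw [h.su]
      rw [hnort, hnoru]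
      exact ⟨h1, h2, h3⟩
  by_cases hik : i = k
  · -- the arm `w`
    subst hik
    rw [h.sk, h.sw]
    have hch : L.chN t u i w z Ch w =
        if det3 (L.p u) (L.p w) (L.p z) < 0 then insert s(u, w) (Ch w) else ∅ := by
      show (if w = i then _ else if w = u then _ else if w = w then _ else _) = _
      rw [if_neg hkw.symm, if_neg huw.symm, if_pos rfl]
    refine ⟨fun hz => absurd (hturnk ▸ hz) h.θw, ?_⟩
    rw [hch]
    by_cases hτ : det3 (L.p u) (L.p w) (L.p z) < 0
    swap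
    · rw [if_neg hτ]
      exact ⟨fun n hn => absurd hn (Finset.notMem_empty n),
        fun n hn => absurd hn (Finset.notMem_empty n)⟩
    rw [if_pos hτ]
    have hθ := h.cw hτ
    have hsg : Real.sign (L.turn i) = -1 := by
      rw [hturnk]
      exact Real.sign_of_neg hθ
    have hCt := hC u huS
    rw [hsu, hsw] at hCt
    obtain ⟨_, hC2, _⟩ := hCt
    have hnw : ∀ n ∈ Ch w, n ≠ s(u, w) := by
      intro n hn e
      obtain ⟨m, hm, hnm, hmi, hmu, hmw, _⟩ := hC2 n hn
      rw [hnm] at e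
      apply hmi
      have := Sym2.eq_iff.1 e
      rcases this with ⟨e1, e2⟩ | ⟨_, e3⟩
      · exact e2.trans e1
      · exact e3
    obtain ⟨harm1, harm2⟩ := arm (κ := Sym2 V) (-1) (L.p z) (L.p w) (L.p i) (L.p u)
      (L.p w + a' • L.p z) (L.p u + a • L.p t) (L.ee u i w x₀ y₀) (Ch w) N
      (L.nN t u i w z a a' N) s(u, w) ε δ hW
      (by
        have : -1 * det3 (L.p z) (L.p w) (L.p u) = det3 (L.p u) (L.p w) (L.p z) := by
          unfold det3; ring
        rw [this]; exact hτ)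
      (by
        unfold Pg.nN
        rw [if_pos rfl, crs_swap (L.p w + a' • L.p z), smul_neg, neg_smul, one_smul, neg_neg])
      (fun n _ hne => by unfold Pg.nN; rw [if_neg hne])
    refine ⟨fun n hn => ?_, fun n hn n' hn' hnn => ?_⟩
    · obtain ⟨h1, h2, h3⟩ := harm1 n hn
      have hs1 : Real.sign (L.turn i) * inner ℝ (L.nN t u i w z a a' N n) (L.p w) < 0 := by
        rw [hsg]
        linarith
      have hs2 : 0 < Real.sign (L.turn i) *
          inner ℝ (L.nN t u i w z a a' N n) (L.p w + ε • L.p i) := by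
        rw [hsg, inner_add_right, inner_smul_right]
        linarith
      have hs3 : 0 < Real.sign (L.turn i) *
          inner ℝ (L.nN t u i w z a a' N n) (L.p w + ε • L.p z) := by
        rw [hsg, inner_add_right, inner_smul_right]
        linarith
      by_cases hnc : n = s(u, w)
      · refine ⟨u, h.memu, ?_, huk, huw, huz, ?_, hs1, hs2, hs3, -1,
          Or.inr rfl, ?_⟩
        · rw [hnc]
          exact Sym2.eq_swap
        · intro x hx hxw hxu e
          refine gen_uw h x hx hxu hxw ?_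
          rw [det3_swap, e, neg_zero]
        · have : L.nN t u i w z a a' N n =
              crs ((L.hat t u i w z a a').p u) ((L.hat t u i w z a a').p w) := by
            rw [hatp_u, hatp_w L t u i w z a a' huw.symm]
            unfold Pg.nN
            rw [if_pos hnc]
          rw [this, crs_swap (L.p w) (L.p u), smul_neg, neg_smul, one_smul, neg_neg]
          linarith [hcl u h.memu w h.memw]
      · have hnCh : n ∈ Ch w := (Finset.mem_insert.1 hn).resolve_left hnc
        obtain ⟨m, hm, hnm, hmi, hmu, hmw, hg, _, _, _, hcn⟩ := hC2 n hnCh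
        have hmS : m ∈ L.S := Finset.mem_of_mem_erase hm
        have hmk : m ≠ i := Finset.ne_of_mem_erase hm
        have hnN : L.nN t u i w z a a' N n = N n := by
          unfold Pg.nN
          rw [if_neg hnc]
        refine ⟨m, hmS, hnm, hmk, hmu, hmw,
          gen_L h hH hwS hm hmu hg, hs1, hs2, hs3, ?_⟩
        rw [hnN]
        exact hclN n w m h.memw hmS hcn
    · obtain ⟨h1, h2, h3⟩ := harm2 n hn n' hn' hnn
      have hnork : L.nor i = (-1 : ℝ) • crs (L.p w) (L.p i) := by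
        unfold Pg.nor
        rw [h.sk, crs_swap (L.p i), neg_smul, one_smul]
      have hnorw : L.nor w = (-1 : ℝ) • crs (L.p z) (L.p w) := by
        unfold Pg.nor
        rw [h.sw, crs_swap (L.p w), neg_smul, one_smul]
      rw [hnork, hnorw]
      exact ⟨h2, h1, h3⟩
  by_cases hiu : i = u
  · -- the arm `k`
    subst hiu
    rw [h.su]
    have hch : L.chN t i k w z Ch k = ∅ := by
      show (if k = k then _ else _) = _
      rw [if_pos rfl]
    rw [hch]
    exact ⟨fun _ => rfl, fun n hn => absurd hn (Finset.notMem_empty n),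
      fun n hn => absurd hn (Finset.notMem_empty n)⟩
  -- the other arms
  have hjS : L.s i ∈ L.S := h.ok.maps i hi
  have hju : L.s i ≠ u := fun e => hit (h.ok.inj i hi t h.memt (e.trans h.st.symm))
  have hjk : L.s i ≠ k := fun e => hiu (h.ok.inj i hi u h.memu (e.trans h.su.symm))
  have hjw : L.s i ≠ w := fun e => hik (h.ok.inj i hi k h.memk (e.trans h.sk.symm))
  have hjj : L.s (L.s i) ≠ k := fun e => hju (h.ok.inj _ hjS u h.memu (e.trans h.su.symm))
  have hjjw : L.s (L.s i) ≠ w := fun e => hjk (h.ok.inj _ hjS k h.memk (e.trans h.sk.symm))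
  have hjjS : L.s (L.s i) ∈ L.S := h.ok.maps _ hjS
  have hiS : i ∈ (L.hat t u k w z a a').S := Finset.mem_erase.2 ⟨hik, hi⟩
  have hsi : (L.hat t u k w z a a').s i = L.s i := by
    show (if L.s i = k then L.s k else L.s i) = L.s i
    rw [if_neg hjk]
  have hsj : (L.hat t u k w z a a').s (L.s i) = L.s (L.s i) := by
    show (if L.s (L.s i) = k then L.s k else L.s (L.s i)) = L.s (L.s i)
    rw [if_neg hjj]
  have hpj : (L.hat t u k w z a a').p (L.s i) = L.p (L.s i) :=
    hatp_i L t u k w z a a' hju hjw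
  obtain ⟨c, hc, hpi⟩ : ∃ c : ℝ, ε * |c| ≤ 1 ∧
      (L.hat t u k w z a a').p i = L.p i + c • L.p (L.s i) := by
    by_cases hiw : i = w
    · refine ⟨a', ?_, ?_⟩
      · exact (mul_le_mul_of_nonneg_left hT4.le hε.le).trans ha2
      · rw [hiw, h.sw, hatp_w L t u k w z a a' huw.symm]
    · refine ⟨0, ?_, ?_⟩
      · rw [abs_zero, mul_zero]
        exact zero_le_one
      · rw [hatp_i L t u k w z a a' hiu hiw, zero_smul, add_zero]
  obtain ⟨c', hc', hpjj⟩ : ∃ c : ℝ, ε * |c| ≤ 1 ∧
      (L.hat t u k w z a a').p (L.s (L.s i)) = L.p (L.s (L.s i)) + c • L.p (L.s i) := by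
    by_cases hiw : L.s (L.s i) = u
    · have hjt : L.s i = t := h.ok.inj _ hjS t h.memt (hiw.trans h.st.symm)
      refine ⟨a, ?_, ?_⟩
      · exact (mul_le_mul_of_nonneg_left hT2.le hε.le).trans ha2
      · rw [hiw, hjt, hatp_u]
    · refine ⟨0, ?_, ?_⟩
      · rw [abs_zero, mul_zero]
        exact zero_le_one
      · rw [hatp_i L t u k w z a a' hiw hjjw, zero_smul, add_zero]
  have hturn : (L.hat t u k w z a a').turn i = L.turn i := by
    unfold Pg.turn
    rw [hsi, hsj, hpi, hpj, hpjj, det3_tilt]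
  have hnori : (L.hat t u k w z a a').nor i = L.nor i := by
    unfold Pg.nor
    rw [hsi, hpi, hpj, crs_add_left]
  have hnorj : (L.hat t u k w z a a').nor (L.s i) = L.nor (L.s i) := by
    unfold Pg.nor
    rw [hsj, hpj, hpjj, crs_add_right]
  have hCi := hC i hiS
  rw [hsi, hsj, hturn, hnori, hnorj, hpj, hpi, hpjj] at hCi
  obtain ⟨hC1, hC2, hC3⟩ := hCi
  have hch : L.chN t u k w z Ch (L.s i) = Ch (L.s i) := by
    show (if L.s i = k then _ else if L.s i = u then _ else if L.s i = w then _ else _) = _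
    rw [if_neg hjk, if_neg hju, if_neg hjw]
  have hnN : ∀ n ∈ Ch (L.s i), L.nN t u k w z a a' N n = N n := by
    intro n hn
    obtain ⟨m, hm, hnm, _⟩ := hC2 n hn
    unfold Pg.nN
    rw [if_neg]
    intro e
    rw [hnm] at e
    rcases Sym2.eq_iff.1 e with ⟨e1, _⟩ | ⟨e1, _⟩
    · exact hju e1
    · exact hjw e1
  rw [hch]
  refine ⟨hC1, fun n hn => ?_, fun n hn n' hn' hnn => ?_⟩
  · obtain ⟨m, hm, hnm, hmi, hmj, hmjj, hg, h1, h2, h3, hcn⟩ := hC2 n hn
    have hmS : m ∈ L.S := Finset.mem_of_mem_erase hm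
    rw [hnN n hn]
    refine ⟨m, hmS, hnm, hmi, hmj, hmjj, ?_, h1, untilt hε hε' hεε hc h1 h2,
      untilt hε hε' hεε hc' h1 h3, ?_⟩
    · refine gen_L h hH (Finset.mem_erase.2 ⟨hjk, hjS⟩) hm hmj ?_
      rw [hpj]
      exact hg
    · refine hclN n (L.s i) m hjS hmS ?_
      rw [hpj]
      exact hcn
  · obtain ⟨h1, h2, h3⟩ := hC3 n hn n' hn' hnn
    rw [hnN n hn, hnN n' hn']
    refine ⟨h1, h2, fun n'' hn'' h4 h5 => ?_⟩
    rw [hnN n'' hn'']
    exact h3 n'' hn'' h4 h5

end Pool.Agent.TSM
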