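import Pool.Agent.TSM.Glue

/-!
# TSM: the body of a combinatorial surface is a surface

The open star of a vertex is homeomorphic to the interior of the polygon with the vertices
`(k, k²)`, `0 ≤ k < n`.
-/

set_option autoImplicit false

open scoped RealInnerProductSpace Topology

namespace Pool.Agent.TSM

namespace Chart_

/-- the centre -/
noncomputable def oo : E2 := !₂[1, 3/2]

/-- the vertices of the polygon -/
noncomputable def PP {n : ℕ} (k : ZMod n) : E2 := !₂[(k.val : ℝ), (k.val : ℝ) ^ 2]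

/-- linear functional -/
noncomputable def lf (α β : ℝ) : E2 →ₗ[ℝ] ℝ :=
  α • (EuclideanSpace.proj (𝕜 := ℝ) (0 : Fin 2)).toLinearMap +
    β • (EuclideanSpace.proj (𝕜 := ℝ) (1 : Fin 2)).toLinearMap

lemma lf_apply (α β : ℝ) (x : E2) : lf α β x = α * x 0 + β * x 1 := by
  simp [lf]

/-- linear part of the side functionals -/
noncomputable def Llin {n : ℕ} (j : ZMod n) : E2 →ₗ[ℝ] ℝ :=
  if j.val + 1 < n then lf (-(2 * (j.val : ℝ) + 1)) 1 else lf ((n : ℝ) - 1) (-1)

/-- constant part of the side functionals -/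
noncomputable def Lcst {n : ℕ} (j : ZMod n) : ℝ :=
  if j.val + 1 < n then (j.val : ℝ) * (j.val + 1) else 0

/-- side functionals: positive inside -/
noncomputable def LL {n : ℕ} (j : ZMod n) (x : E2) : ℝ := Llin j x + Lcst j

lemma continuous_LL {n : ℕ} (j : ZMod n) : Continuous (LL j) :=
  ((Llin j).continuous_of_finiteDimensional).add continuous_const

lemma LL_comb {n : ℕ} [NeZero n] (j : ZMod n) (a : ℝ) (b : ZMod n → ℝ)
    (h : a + ∑ k, b k = 1) :
    LL j (a • oo + ∑ k, b k • PP k) = a * LL j oo + ∑ k, b k * LL j (PP k) := by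
  unfold LL
  rw [map_add, map_smul, map_sum]
  simp only [map_smul, smul_eq_mul, mul_add, Finset.sum_add_distrib, ← Finset.sum_mul]
  have : Lcst j = (a + ∑ k, b k) * Lcst j := by rw [h, one_mul]
  linarith [this]

variable {n : ℕ}

lemma val_succ (hn : 3 ≤ n) (j : ZMod n) :
    (j + 1).val = if j.val + 1 < n then j.val + 1 else 0 := by
  have : NeZero n := ⟨by omega⟩
  have : Fact (1 < n) := ⟨by omega⟩
  rw [ZMod.val_add, ZMod.val_one]
  have hj := j.val_lt
  split_ifs with h
  · exact Nat.mod_eq_of_lt h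
  · have : j.val + 1 = n := by omega
    rw [this, Nat.mod_self]

lemma LL_oo_pos (hn : 3 ≤ n) (j : ZMod n) : 0 < LL j oo := by
  unfold LL Llin Lcst
  split_ifs with h
  · rw [lf_apply]
    simp only [oo, PiLp.toLp_apply, Matrix.cons_val_zero, Matrix.cons_val_one]
    nlinarith [sq_nonneg ((j.val : ℝ) - 1 / 2)]
  · rw [lf_apply]
    simp only [oo, PiLp.toLp_apply, Matrix.cons_val_zero, Matrix.cons_val_one]
    have : (3 : ℝ) ≤ n := by exact_mod_cast hn
    linarith

lemma LL_PP_eq (j k : ZMod n) : LL j (PP k) =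
    if j.val + 1 < n then ((k.val : ℝ) - j.val) * (k.val - j.val - 1)
    else (k.val : ℝ) * (n - 1 - k.val) := by
  unfold LL Llin Lcst
  split_ifs with h
  · rw [lf_apply]
    simp only [PP, PiLp.toLp_apply, Matrix.cons_val_zero, Matrix.cons_val_one]
    ring
  · rw [lf_apply]
    simp only [PP, PiLp.toLp_apply, Matrix.cons_val_zero, Matrix.cons_val_one]
    ring

lemma LL_PP_nonneg (hn : 3 ≤ n) (j k : ZMod n) : 0 ≤ LL j (PP k) := by
  have : NeZero n := ⟨by omega⟩
  rw [LL_PP_eq]
  have hk := k.val_lt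
  have hj := j.val_lt
  split_ifs with h
  · rcases Nat.lt_or_ge j.val k.val with h1 | h1
    · have h2 : (j.val : ℝ) + 1 ≤ k.val := by exact_mod_cast h1
      exact mul_nonneg (by linarith) (by linarith)
    · have h2 : (k.val : ℝ) ≤ j.val := by exact_mod_cast h1
      exact mul_nonneg_of_nonpos_of_nonpos (by linarith) (by linarith)
  · have h2 : (k.val : ℝ) + 1 ≤ n := by exact_mod_cast hk
    exact mul_nonneg (Nat.cast_nonneg _) (by linarith)

lemma LL_PP_zero (hn : 3 ≤ n) (j k : ZMod n) : LL j (PP k) = 0 ↔ k = j ∨ k = j + 1 := by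
  have : NeZero n := ⟨by omega⟩
  rw [LL_PP_eq]
  have hk := k.val_lt
  have hj := j.val_lt
  have hs := val_succ hn j
  have e1 : k = j ↔ k.val = j.val := ⟨fun h => by rw [h], fun h => ZMod.val_injective n h⟩
  have e2 : k = j + 1 ↔ k.val = (j + 1).val :=
    ⟨fun h => by rw [h], fun h => ZMod.val_injective n h⟩
  rw [e1, e2, hs]
  split_ifs with h
  · rw [mul_eq_zero]
    constructor
    · rintro (h1 | h1)
      · left
        have : (k.val : ℝ) = j.val := by linarith
        exact_mod_cast this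
      · right
        have : (k.val : ℝ) = ((j.val + 1 : ℕ) : ℝ) := by push_cast; linarith
        exact_mod_cast this
    · rintro (h1 | h1)
      · left; rw [h1]; ring
      · right; rw [h1]; push_cast; ring
  · have hjn : j.val + 1 = n := by omega
    have hjn' : (j.val : ℝ) + 1 = n := by exact_mod_cast hjn
    rw [mul_eq_zero]
    constructor
    · rintro (h1 | h1)
      · right; exact_mod_cast h1
      · left
        have : (k.val : ℝ) = j.val := by linarith
        exact_mod_cast this
    · rintro (h1 | h1)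
      · right; rw [h1]; linarith
      · left; rw [h1]; simp

/-- the centre and two consecutive polygon points are affinely independent -/
lemma indep (hn : 3 ≤ n) (i : ZMod n) (a b c a' b' c' : ℝ) (h1 : a + b + c = a' + b' + c')
    (h2 : a • oo + (b • PP i + c • PP (i + 1)) = a' • oo + (b' • PP i + c' • PP (i + 1))) :
    a = a' ∧ b = b' ∧ c = c' := by
  have : NeZero n := ⟨by omega⟩
  have hx := congrArg (fun x : E2 => x 0) h2
  have hy := congrArg (fun x : E2 => x 1) h2
  simp only [oo, PP, PiLp.add_apply, PiLp.smul_apply, PiLp.toLp_apply, Matrix.cons_val_zero,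
    Matrix.cons_val_one, smul_eq_mul, val_succ hn] at hx hy
  have hi := i.val_lt
  have hn' : (3 : ℝ) ≤ n := by exact_mod_cast hn
  split_ifs at hx hy with h
  · push_cast at hx hy
    set t : ℝ := (i.val : ℝ)
    -- unknown differences
    have k1 : (a - a') * (t ^ 2 - t + 1 / 2) = 0 := by
      linear_combination (t * (t + 1)) * h1 - (2 * t + 1) * hx + hy
    have k2 : a = a' := by
      rcases mul_eq_zero.1 k1 with h3 | h3
      · linarith
      · nlinarith [sq_nonneg (t - 1 / 2)]
    subst k2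
    refine ⟨rfl, ?_, ?_⟩
    · linear_combination (t + 1) * h1 - hx
    · linear_combination hx - t * h1
  · have hin : i.val + 1 = n := by omega
    have hin' : (i.val : ℝ) = n - 1 := by
      have : (i.val : ℝ) + 1 = n := by exact_mod_cast hin
      linarith
    simp only [Nat.cast_zero, mul_zero, add_zero, ne_eq, OfNat.ofNat_ne_zero, not_false_eq_true,
      zero_pow, hin'] at hx hy
    have k1 : (a - a') * ((n : ℝ) - 1 - 3 / 2) = 0 := by
      linear_combination ((n : ℝ) - 1) * hx - hy
    have k2 : a = a' := by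
      rcases mul_eq_zero.1 k1 with h3 | h3
      · linarith
      · linarith
    subst k2
    have k3 : b = b' := by
      have : (b - b') * ((n : ℝ) - 1) = 0 := by linear_combination hx
      rcases mul_eq_zero.1 this with h3 | h3
      · linarith
      · linarith
    subst k3
    exact ⟨rfl, rfl, by linarith⟩

lemma exists_coords (hn : 3 ≤ n) (i : ZMod n) (x : E2) :
    ∃ a b c : ℝ, a + b + c = 1 ∧ x = a • oo + (b • PP i + c • PP (i + 1)) := by
  have : NeZero n := ⟨by omega⟩
  have hn' : (3 : ℝ) ≤ n := by exact_mod_cast hn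
  have hi := i.val_lt
  have hext : ∀ y : E2, y 0 = x 0 → y 1 = x 1 → x = y := by
    intro y h0 h1
    ext k
    fin_cases k
    · exact h0.symm
    · exact h1.symm
  by_cases h : i.val + 1 < n
  · set t : ℝ := (i.val : ℝ) with ht
    have hq : 0 < t ^ 2 - t + 1 / 2 := by nlinarith [sq_nonneg (t - 1 / 2)]
    obtain ⟨a, ha⟩ : ∃ a : ℝ, a * (t ^ 2 - t + 1 / 2) = x 1 - (2 * t + 1) * x 0 + t * (t + 1) :=
      ⟨(x 1 - (2 * t + 1) * x 0 + t * (t + 1)) / (t ^ 2 - t + 1 / 2), div_mul_cancel₀ _ hq.ne'⟩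
    refine ⟨a, 1 - a - (x 0 - a - t * (1 - a)), x 0 - a - t * (1 - a), by ring, ?_⟩
    apply hext
    · simp only [oo, PP, PiLp.add_apply, PiLp.smul_apply, Matrix.cons_val_zero, smul_eq_mul,
        val_succ hn, if_pos h]
      push_cast
      rw [← ht]
      ring
    · simp only [oo, PP, PiLp.add_apply, PiLp.smul_apply, Matrix.cons_val_one, smul_eq_mul,
        Matrix.cons_val_zero, val_succ hn, if_pos h]
      push_cast
      rw [← ht]
      linear_combination ha
  · have hin : i.val + 1 = n := by omega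
    have hin' : (i.val : ℝ) = n - 1 := by
      have : (i.val : ℝ) + 1 = n := by exact_mod_cast hin
      linarith
    have hq : 0 < (n : ℝ) - 1 - 3 / 2 := by linarith
    obtain ⟨a, ha⟩ : ∃ a : ℝ, a * ((n : ℝ) - 1 - 3 / 2) = (n - 1) * x 0 - x 1 :=
      ⟨((n - 1) * x 0 - x 1) / ((n : ℝ) - 1 - 3 / 2), div_mul_cancel₀ _ hq.ne'⟩
    obtain ⟨b, hb⟩ : ∃ b : ℝ, b * ((n : ℝ) - 1) = x 0 - a :=
      ⟨(x 0 - a) / ((n : ℝ) - 1), div_mul_cancel₀ _ (by linarith)⟩
    refine ⟨a, b, 1 - a - b, by ring, ?_⟩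
    apply hext
    · simp only [oo, PP, PiLp.add_apply, PiLp.smul_apply, Matrix.cons_val_zero, smul_eq_mul,
        val_succ hn, if_neg h, hin']
      push_cast
      linear_combination hb
    · simp only [oo, PP, PiLp.add_apply, PiLp.smul_apply, Matrix.cons_val_one, smul_eq_mul,
        Matrix.cons_val_zero, val_succ hn, if_neg h, hin']
      push_cast
      linear_combination ((n : ℝ) - 1) * hb - ha

/-- the chart map of the star of `v` -/
noncomputable def FF {V : Type} {n : ℕ} [NeZero n] (v : V) (c : ZMod n → V) (w : V → ℝ) : E2 :=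
  w v • oo + ∑ k, w (c k) • PP k

lemma continuous_FF {V : Type} [NeZero n] (v : V) (c : ZMod n → V) : Continuous (FF v c) := by
  unfold FF
  exact ((continuous_apply v).smul continuous_const).add
    (continuous_finsetSum _ fun k _ => (continuous_apply (c k)).smul continuous_const)

section
variable {V : Type} [Fintype V] [DecidableEq V]

lemma star_eq (K : Surf V) (v : V) : K.star v = bodyOf (K.tri.filter fun t => v ∈ t) := by
  ext w
  constructor
  · rintro ⟨h0, h1, t, ht, hv, h2⟩
    exact ⟨h0, h1, t, Finset.mem_filter.2 ⟨ht, hv⟩, h2⟩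
  · rintro ⟨h0, h1, t, ht, h2⟩
    obtain ⟨ht, hv⟩ := Finset.mem_filter.1 ht
    exact ⟨h0, h1, t, ht, hv, h2⟩

lemma star_sub (K : Surf V) (v : V) : K.star v ⊆ K.body := by
  rintro w ⟨h0, h1, t, ht, -, h2⟩
  exact ⟨h0, h1, t, ht, h2⟩

lemma mem_star_of_pos (K : Surf V) (v : V) {w : V → ℝ} (hw : w ∈ K.body) (h : 0 < w v) :
    w ∈ K.star v := by
  obtain ⟨h0, h1, t, ht, h2⟩ := hw
  refine ⟨h0, h1, t, ht, ?_, h2⟩
  by_contra hv
  rw [h2 v hv] at h
  exact lt_irrefl _ h

variable [NeZero n] {K : Surf V} {v : V} {c : ZMod n → V}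

lemma mem_star_iff (hc : IsLinkCycle K.tri v n c) (w : V → ℝ) : w ∈ K.star v ↔
    (∀ u, 0 ≤ w u) ∧ ∑ u, w u = 1 ∧ ∃ i, ∀ u, u ≠ v → u ≠ c i → u ≠ c (i + 1) → w u = 0 := by
  constructor
  · rintro ⟨h0, h1, t, ht, hv, h2⟩
    obtain ⟨i, hi⟩ := (hc.2.2.2 t).1 ⟨ht, hv⟩
    refine ⟨h0, h1, i, fun u e1 e2 e3 => h2 u ?_⟩
    rw [hi]
    simp [e1, e2, e3]
  · rintro ⟨h0, h1, i, h2⟩
    have h3 := (hc.2.2.2 {v, c i, c (i + 1)}).2 ⟨i, rfl⟩
    refine ⟨h0, h1, _, h3.1, h3.2, fun u hu => ?_⟩
    simp only [Finset.mem_insert, Finset.mem_singleton, not_or] at hu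
    exact h2 u hu.1 hu.2.1 hu.2.2

lemma succ_ne (hn : 3 ≤ n) (i : ZMod n) : i ≠ i + 1 := by
  intro h
  have h1 := val_succ hn i
  rw [← h] at h1
  have := i.val_lt
  split_ifs at h1 <;> omega

lemma succ_succ_ne (hn : 3 ≤ n) (i : ZMod n) : i ≠ i + 1 + 1 := by
  intro h
  have h1 := val_succ hn i
  have h2 := val_succ hn (i + 1)
  rw [← h] at h2
  have := i.val_lt
  split_ifs at h1 h2 <;> omega

/-- total sum -/
lemma sum_star (hc : IsLinkCycle K.tri v n c) {w : V → ℝ} (h1 : ∑ u, w u = 1) {i : ZMod n}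
    (h2 : ∀ u, u ≠ v → u ≠ c i → u ≠ c (i + 1) → w u = 0) : w v + ∑ k, w (c k) = 1 := by
  classical
  have e1 : ∑ k, w (c k) = ∑ u ∈ Finset.univ.image c, w u := by
    rw [Finset.sum_image (fun a _ b _ hab => hc.2.1 hab)]
  have e2 : v ∉ Finset.univ.image c := by
    intro h
    obtain ⟨k, _, hk⟩ := Finset.mem_image.1 h
    exact hc.2.2.1 k hk
  rw [e1, ← Finset.sum_insert e2, ← h1]
  refine Finset.sum_subset (Finset.subset_univ _) fun u _ hu => ?_
  rw [Finset.mem_insert, not_or] at hu
  refine h2 u hu.1 ?_ ?_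
  · rintro rfl; exact hu.2 (Finset.mem_image_of_mem _ (Finset.mem_univ _))
  · rintro rfl; exact hu.2 (Finset.mem_image_of_mem _ (Finset.mem_univ _))

lemma sum_two {P : Type} [AddCommGroup P] [Module ℝ P] (hc : IsLinkCycle K.tri v n c)
    {w : V → ℝ} {i : ZMod n} (h2 : ∀ u, u ≠ v → u ≠ c i → u ≠ c (i + 1) → w u = 0)
    (f : ZMod n → P) :
    ∑ k, w (c k) • f k = w (c i) • f i + w (c (i + 1)) • f (i + 1) := by
  classical
  rw [← Finset.sum_pair (succ_ne hc.1 i) (f := fun k => w (c k) • f k)]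
  refine (Finset.sum_subset (Finset.subset_univ _) fun k _ hk => ?_).symm
  simp only [Finset.mem_insert, Finset.mem_singleton, not_or] at hk
  rw [h2 (c k) (hc.2.2.1 k) (fun h => hk.1 (hc.2.1 h)) (fun h => hk.2 (hc.2.1 h)), zero_smul]

lemma LL_FF_ge (hc : IsLinkCycle K.tri v n c) {w : V → ℝ} (hw : w ∈ K.star v) (j : ZMod n) :
    LL j (FF v c w) = w v * LL j oo + ∑ k, w (c k) * LL j (PP k) ∧
      w v * LL j oo ≤ LL j (FF v c w) := by
  obtain ⟨h0, h1, i, h2⟩ := (mem_star_iff hc w).1 hw
  have e1 := LL_comb j (w v) (fun k => w (c k)) (sum_star hc h1 h2)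
  refine ⟨e1, ?_⟩
  have e2 : 0 ≤ ∑ k, w (c k) * LL j (PP k) :=
    Finset.sum_nonneg fun k _ => mul_nonneg (h0 _) (LL_PP_nonneg hc.1 j k)
  unfold FF
  rw [e1]
  linarith

lemma LL_FF_eq (hc : IsLinkCycle K.tri v n c) {w : V → ℝ} (h1 : ∑ u, w u = 1) {i : ZMod n}
    (h2 : ∀ u, u ≠ v → u ≠ c i → u ≠ c (i + 1) → w u = 0) :
    LL i (FF v c w) = w v * LL i oo := by
  have e1 := LL_comb i (w v) (fun k => w (c k)) (sum_star hc h1 h2)
  have e2 : ∑ k, w (c k) * LL i (PP k) = 0 := by
    refine Finset.sum_eq_zero fun k _ => ?_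
    by_cases hk : k = i ∨ k = i + 1
    · rw [(LL_PP_zero hc.1 i k).2 hk, mul_zero]
    · rw [not_or] at hk
      rw [h2 (c k) (hc.2.2.1 k) (fun h => hk.1 (hc.2.1 h)) (fun h => hk.2 (hc.2.1 h)), zero_mul]
  unfold FF
  rw [e1, e2, add_zero]

lemma FF_injOn (hc : IsLinkCycle K.tri v n c) : Set.InjOn (FF v c) (K.star v) := by
  intro w hw w' hw' heq
  obtain ⟨h0, h1, i, h2⟩ := (mem_star_iff hc w).1 hw
  obtain ⟨h0', h1', j, h2'⟩ := (mem_star_iff hc w').1 hw'
  have a1 := LL_FF_eq hc h1 h2
  have a2 := LL_FF_eq hc h1' h2'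
  have b1 := (LL_FF_ge hc hw j).2
  have b2 := LL_FF_ge hc hw' i
  rw [← heq] at b2 a2
  have o1 := LL_oo_pos hc.1 i
  have o2 := LL_oo_pos hc.1 j
  have c1 : w' v ≤ w v := by
    have := b2.2
    rw [a1] at this
    exact le_of_mul_le_mul_right this o1
  have c2 : w v ≤ w' v := by
    rw [a2] at b1
    exact le_of_mul_le_mul_right b1 o2
  have hv : w v = w' v := le_antisymm c2 c1
  have hz : ∑ k, w' (c k) * LL i (PP k) = 0 := by
    have := b2.1
    rw [a1, hv] at this
    linarith
  have hz' := (Finset.sum_eq_zero_iff_of_nonneg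
    (fun k _ => mul_nonneg (h0' _) (LL_PP_nonneg hc.1 i k))).1 hz
  have h3' : ∀ k, k ≠ i → k ≠ i + 1 → w' (c k) = 0 := by
    intro k k1 k2
    rcases mul_eq_zero.1 (hz' k (Finset.mem_univ _)) with h | h
    · exact h
    · exact absurd ((LL_PP_zero hc.1 i k).1 h) (by simp [k1, k2])
  have h2'' : ∀ u, u ≠ v → u ≠ c i → u ≠ c (i + 1) → w' u = 0 := by
    intro u u1 u2 u3
    by_cases hu : ∃ k, u = c k
    · obtain ⟨k, rfl⟩ := hu
      exact h3' k (fun h => u2 (by rw [h])) (fun h => u3 (by rw [h]))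
    · push Not at hu
      exact h2' u u1 (hu j) (hu (j + 1))
  have s1 := sum_star hc h1 h2
  have s2 := sum_star hc h1' h2''
  have t1 := sum_two hc h2 (fun _ => (1 : ℝ))
  have t2 := sum_two hc h2'' (fun _ => (1 : ℝ))
  simp only [smul_eq_mul, mul_one] at t1 t2
  have u1 := sum_two hc h2 (fun k => PP k)
  have u2 := sum_two hc h2'' (fun k => PP k)
  have key : w v • oo + (w (c i) • PP i + w (c (i + 1)) • PP (i + 1)) =
      w' v • oo + (w' (c i) • PP i + w' (c (i + 1)) • PP (i + 1)) := by
    rw [← u1, ← u2]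
    exact heq
  obtain ⟨_, r2, r3⟩ := indep hc.1 i _ _ _ _ _ _ (by linarith) key
  funext u
  by_cases e1 : u = v
  · rw [e1, hv]
  by_cases e2 : u = c i
  · rw [e2, r2]
  by_cases e3 : u = c (i + 1)
  · rw [e3, r3]
  rw [h2 u e1 e2 e3, h2'' u e1 e2 e3]

lemma FF_surj (hc : IsLinkCycle K.tri v n c) (x : E2) (hx : ∀ j : ZMod n, 0 < LL j x) :
    ∃ w ∈ K.star v, FF v c w = x ∧ 0 < w v := by
  classical
  obtain ⟨k, -, hk⟩ := Finset.exists_min_image (Finset.univ : Finset (ZMod n))
    (fun j => LL j x / LL j oo) ⟨0, Finset.mem_univ _⟩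
  obtain ⟨a, b, b', hs, hxe⟩ := exists_coords hc.1 k x
  -- the functionals on `x`
  have hLL : ∀ j : ZMod n, LL j x = a * LL j oo + (b * LL j (PP k) + b' * LL j (PP (k + 1))) := by
    intro j
    rw [hxe]
    unfold LL
    simp only [map_add, map_smul, smul_eq_mul]
    linear_combination (-Lcst j) * hs
  have z1 : LL k (PP k) = 0 := (LL_PP_zero hc.1 k k).2 (Or.inl rfl)
  have z2 : LL k (PP (k + 1)) = 0 := (LL_PP_zero hc.1 k (k + 1)).2 (Or.inr rfl)
  have z3 : LL (k + 1) (PP (k + 1)) = 0 := (LL_PP_zero hc.1 (k + 1) (k + 1)).2 (Or.inl rfl)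
  have z4 : LL (k - 1) (PP k) = 0 := (LL_PP_zero hc.1 (k - 1) k).2 (Or.inr (by ring))
  have p1 : 0 < LL (k + 1) (PP k) := lt_of_le_of_ne (LL_PP_nonneg hc.1 _ _) fun h => by
    rcases (LL_PP_zero hc.1 (k + 1) k).1 h.symm with h1 | h1
    · exact succ_ne hc.1 k h1
    · exact succ_succ_ne hc.1 k h1
  have p2 : 0 < LL (k - 1) (PP (k + 1)) := lt_of_le_of_ne (LL_PP_nonneg hc.1 _ _) fun h => by
    rcases (LL_PP_zero hc.1 (k - 1) (k + 1)).1 h.symm with h1 | h1
    · apply succ_succ_ne hc.1 (k - 1)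
      have : k - 1 + 1 = k := by ring
      rw [this]
      exact h1.symm
    · have : k - 1 + 1 = k := by ring
      rw [this] at h1
      exact succ_ne hc.1 k h1.symm
  have o0 := LL_oo_pos hc.1 k
  have e0 := hLL k
  rw [z1, z2, mul_zero, mul_zero, add_zero, add_zero] at e0
  have ha : 0 < a := by
    have := hx k
    rw [e0] at this
    exact pos_of_mul_pos_left this o0.le
  have hak : LL k x / LL k oo = a := by rw [e0]; field_simp
  have hb : 0 ≤ b := by
    have o1 := LL_oo_pos hc.1 (k + 1)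
    have h1 := hk (k + 1) (Finset.mem_univ _)
    rw [hak, le_div_iff₀ o1, hLL (k + 1), z3] at h1
    have h2 : 0 ≤ b * LL (k + 1) (PP k) := by linarith
    exact nonneg_of_mul_nonneg_left h2 p1
  have hb' : 0 ≤ b' := by
    have o1 := LL_oo_pos hc.1 (k - 1)
    have h1 := hk (k - 1) (Finset.mem_univ _)
    rw [hak, le_div_iff₀ o1, hLL (k - 1), z4] at h1
    have h2 : 0 ≤ b' * LL (k - 1) (PP (k + 1)) := by linarith
    exact nonneg_of_mul_nonneg_left h2 p2
  have n1 : v ≠ c k := (hc.2.2.1 k).symm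
  have n2 : v ≠ c (k + 1) := (hc.2.2.1 (k + 1)).symm
  have n3 : c k ≠ c (k + 1) := fun h => succ_ne hc.1 k (hc.2.1 h)
  let w : V → ℝ := fun u => Pi.single (M := fun _ => ℝ) v a u + Pi.single (M := fun _ => ℝ) (c k) b u +
    Pi.single (M := fun _ => ℝ) (c (k + 1)) b' u
  have w1 : w v = a := by simp [w, n1, n2]
  have w2 : w (c k) = b := by simp [w, n1.symm, n3]
  have w3 : w (c (k + 1)) = b' := by simp [w, n2.symm, n3.symm]
  have w4 : ∀ u, u ≠ v → u ≠ c k → u ≠ c (k + 1) → w u = 0 := by
    intro u u1 u2 u3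
    simp [w, u1, u2, u3]
  have hw : w ∈ K.star v := by
    rw [mem_star_iff hc]
    refine ⟨fun u => ?_, ?_, k, w4⟩
    · by_cases u1 : u = v
      · rw [u1, w1]; exact ha.le
      by_cases u2 : u = c k
      · rw [u2, w2]; exact hb
      by_cases u3 : u = c (k + 1)
      · rw [u3, w3]; exact hb'
      rw [w4 u u1 u2 u3]
    · simp only [w, Finset.sum_add_distrib, Finset.sum_pi_single', Finset.mem_univ, if_true]
      exact hs
  refine ⟨w, hw, ?_, by rw [w1]; exact ha⟩
  unfold FF
  rw [sum_two hc w4 (fun k => PP k), w1, w2, w3]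
  exact hxe.symm

lemma isOpen_target (n : ℕ) [NeZero n] : IsOpen {x : E2 | ∀ j : ZMod n, 0 < LL j x} := by
  have : {x : E2 | ∀ j : ZMod n, 0 < LL j x} = ⋂ j : ZMod n, {x : E2 | 0 < LL j x} := by
    ext x; simp
  rw [this]
  exact isOpen_iInter_of_finite fun j => isOpen_lt continuous_const (continuous_LL j)

end

end Chart_

section
variable {V : Type} [Fintype V] [DecidableEq V]

open Chart_ in
/-- The open star of a vertex is homeomorphic to an open subset of the plane. -/
theorem exists_chart (K : Surf V) (v : V) :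
    ∃ e : OpenPartialHomeomorph K.body E2, e.source = {w | 0 < w.1 v} := by
  classical
  obtain ⟨n, c, hc⟩ := K.link v
  have : NeZero n := ⟨by have := hc.1; omega⟩
  have hT := isOpen_target n
  have hG : ∀ x : E2, (∀ j : ZMod n, 0 < LL j x) → ∃ w ∈ K.star v, FF v c w = x ∧ 0 < w v :=
    fun x hx => FF_surj hc x hx
  choose! G hG1 hG2 hG3 using hG
  have hv0 : (Pi.single (M := fun _ => ℝ) v 1) ∈ K.body := by
    apply star_sub K v
    rw [mem_star_iff hc]
    refine ⟨fun u => ?_, ?_, 0, fun u hu _ _ => by simp [hu]⟩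
    · by_cases h : u = v
      · subst h; simp
      · simp [h]
    · rw [Finset.sum_pi_single']; simp
  let e : OpenPartialHomeomorph K.body E2 :=
    { toFun := fun w => FF v c w.1
      invFun := fun x => if h : ∀ j : ZMod n, 0 < LL j x then ⟨G x, star_sub K v (hG1 x h)⟩
        else ⟨_, hv0⟩
      source := {w | 0 < w.1 v}
      target := {x | ∀ j : ZMod n, 0 < LL j x}
      map_source' := by
        intro w hw j
        have h1 := (LL_FF_ge hc (mem_star_of_pos K v w.2 hw) j).2
        have h2 := mul_pos hw (LL_oo_pos hc.1 j)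
        exact lt_of_lt_of_le h2 h1
      map_target' := by
        intro x hx
        have hx' : ∀ j : ZMod n, 0 < LL j x := hx
        simp only [dif_pos hx']
        exact hG3 x hx
      left_inv' := by
        intro w hw
        have h0 : ∀ j : ZMod n, 0 < LL j (FF v c w.1) := by
          intro j
          have h1 := (LL_FF_ge hc (mem_star_of_pos K v w.2 hw) j).2
          have h2 := mul_pos hw (LL_oo_pos hc.1 j)
          exact lt_of_lt_of_le h2 h1
        simp only [dif_pos h0]
        apply Subtype.ext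
        exact FF_injOn hc (hG1 _ h0) (mem_star_of_pos K v w.2 hw) (hG2 _ h0)
      right_inv' := by
        intro x hx
        have hx' : ∀ j : ZMod n, 0 < LL j x := hx
        simp only [dif_pos hx']
        exact hG2 x hx
      open_source := isOpen_lt continuous_const ((continuous_apply v).comp continuous_subtype_val)
      open_target := hT
      continuousOn_toFun := ((continuous_FF v c).comp continuous_subtype_val).continuousOn
      continuousOn_invFun := by
        have c1 : CompactSpace (K.star v) := by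
          rw [star_eq]; exact compactSpace_bodyOf _
        have k1 : Continuous (fun y : K.star v => FF v c y.1) :=
          (continuous_FF v c).comp continuous_subtype_val
        have k2 : Function.Injective (fun y : K.star v => FF v c y.1) := fun a b hab =>
          Subtype.ext (FF_injOn hc a.2 b.2 hab)
        have k3 : Topology.IsClosedEmbedding (fun y : K.star v => FF v c y.1) :=
          k1.isClosedEmbedding k2
        rw [continuousOn_iff_continuous_domRestrict]
        have k4 : Continuous (fun x : {x : E2 | ∀ j : ZMod n, 0 < LL j x} =>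
            (⟨G x.1, hG1 x.1 x.2⟩ : K.star v)) := by
          rw [k3.isInducing.continuous_iff]
          have : ((fun y : K.star v => FF v c y.1) ∘
              fun x : {x : E2 | ∀ j : ZMod n, 0 < LL j x} => (⟨G x.1, hG1 x.1 x.2⟩ : K.star v)) =
              fun x => x.1 := by
            funext x
            exact hG2 x.1 x.2
          rw [this]
          exact continuous_subtype_val
        have k5 : Continuous (fun x : {x : E2 | ∀ j : ZMod n, 0 < LL j x} =>
            (⟨G x.1, star_sub K v (hG1 x.1 x.2)⟩ : K.body)) :=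
          Continuous.subtype_mk (continuous_subtype_val.comp k4) _
        refine k5.congr fun x => ?_
        have hx' : ∀ j : ZMod n, 0 < LL j x.1 := x.2
        simp only [Set.domRestrict_apply, dif_pos hx'] }
  exact ⟨e, rfl⟩

/-- The body of a closed combinatorial surface is a topological surface. -/
theorem chartedSpace_body (K : Surf V) : Nonempty (ChartedSpace E2 K.body) := by
  classical
  choose e he using exists_chart K
  have hpos : ∀ w : K.body, ∃ v, 0 < w.1 v := by
    intro w
    by_contra hcon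
    push Not at hcon
    have h1 : ∀ v, w.1 v = 0 := fun v => le_antisymm (hcon v) (w.2.1 v)
    have h2 := w.2.2.1
    rw [Finset.sum_congr rfl (fun v _ => h1 v)] at h2
    simp at h2
  choose vv hvv using hpos
  exact ⟨{ atlas := Set.range e
           chartAt := fun w => e (vv w)
           mem_chart_source := fun w => by rw [he]; exact hvv w
           chart_mem_atlas := fun w => ⟨_, rfl⟩ }⟩

lemma compactSpace_body (K : Surf V) : CompactSpace K.body := compactSpace_bodyOf K.tri

end

end Pool.Agent.TSM
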