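import Pool.Agent.TSM.VStmts3

/-!
# TSM, Part VM: module DNEW (assembly of the new resolution for given planes)
-/

set_option autoImplicit false

namespace Pool.Agent.TSM

open Set Filter Topology Metric

theorem dnew_proof (h1 : Stmt_Gluc) (h2 : Stmt_Glug) (h3 : Stmt_Glus) (h4 : Stmt_Half)
    (h5 : Stmt_Zeqo) (h6 : Stmt_Zequ) (h7 : Stmt_Zeqw) : Stmt_Dnew := by
  intro V _ L t u k w z x₀ y₀ ε δ ε' a a' C κ₁ R₁ R₂ R₃ M R' M' Ψ b₁ D' Ch N A B S
  have G := h3 V L t u k w z x₀ y₀ ε δ ε' a a' C κ₁ R₁ R₂ R₃ M R' M' Ψ b₁ D' Ch N A B S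
  have H := h4 V L t u k w z x₀ y₀ ε δ ε' a a' C κ₁ R₁ R₂ R₃ M R' M' Ψ b₁ D' Ch N A B S
  refine ⟨L.dNew t u k w z x₀ y₀ δ a a' R₁ R₂ Ψ D' Ch N A B, ?_, ?_, ?_, ?_⟩
  · exact h1 V L t u k w z _ ε δ R₁ R₂ _ _ _ _ G
  · intro x hx
    exact ⟨h2 V L t u k w z _ ε δ R₁ R₂ _ _ _ _ G x hx, (H x hx).1⟩
  · intro x hx
    exact (H x hx).2
  · intro x hx hxR
    have hR2 : R₂ ≤ ‖x‖ := le_trans (le_max_left _ _) hxR
    have hR3 : R₃ ≤ ‖x‖ := le_trans (le_max_right _ _) hxR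
    have hR1 : R₁ ≤ ‖x‖ := le_trans S.hR12.le hR2
    have hRm : (R₁ + R₂) / 2 ≤ ‖x‖ := by
      have := S.hR12
      linarith
    have hx0 : x ≠ 0 := by
      rintro rfl
      have := S.hR1
      rw [norm_zero] at hR1
      linarith
    by_cases hU : x ∈ L.zU t u δ
    · have hD : L.dNew t u k w z x₀ y₀ δ a a' R₁ R₂ Ψ D' Ch N A B x = x +
          (L.endU t u k w z x₀ y₀ a a' (Ch u) N).tN (zf (A t) (B s(u, w)) B) (A k) (A u) x •
            L.ee u k w x₀ y₀ := by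
        simp only [Pg.dNew, dN]
        rw [if_pos ⟨hRm, hU⟩]
      rw [hD]
      refine ⟨⟨-(L.endU t u k w z x₀ y₀ a a' (Ch u) N).tN (zf (A t) (B s(u, w)) B) (A k) (A u) x,
        ?_⟩, ?_⟩
      · rw [S.b1z x (Or.inl hU), neg_smul, sub_neg_eq_add]
      · exact h6 V L t u k w z x₀ y₀ ε δ a a' κ₁ R₁ R₂ R₃ M S.ear S.eps S.eps4 S.del S.del2
          Ch N A B S.tU x hU hx0 hR1 hR3
    · by_cases hW : x ∈ L.zW k w z δ
      · have hD : L.dNew t u k w z x₀ y₀ δ a a' R₁ R₂ Ψ D' Ch N A B x = x +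
            (L.endW t u k w z x₀ y₀ a a' (Ch w) N).tN (zf (A w) (B s(u, w)) B) (A u) (A k) x •
              L.ee u k w x₀ y₀ := by
          simp only [Pg.dNew, dN]
          rw [if_neg (fun h => hU h.2), if_pos ⟨hRm, hW⟩]
        rw [hD]
        refine ⟨⟨-(L.endW t u k w z x₀ y₀ a a' (Ch w) N).tN (zf (A w) (B s(u, w)) B) (A u)
          (A k) x, ?_⟩, ?_⟩
        · rw [S.b1z x (Or.inr hW), neg_smul, sub_neg_eq_add]
        · exact h7 V L t u k w z x₀ y₀ ε δ a a' κ₁ R₁ R₂ R₃ M S.ear S.eps S.eps4 S.del S.del2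
            Ch N A B S.tW x hW hx0 hR1 hR3
      · have hΨ : Ψ x = x := S.psi.out x hx hU hW
        have hD : L.dNew t u k w z x₀ y₀ δ a a' R₁ R₂ Ψ D' Ch N A B x = D' x := by
          simp only [Pg.dNew, dN]
          rw [if_neg (fun h => hU h.2), if_neg (fun h => hW h.2), hΨ]
        rw [hD]
        have hm : x ∈ (L.hat t u k w z a a').cone := by
          have := S.psi.maps hx
          rwa [hΨ] at this
        have hR' : R' ≤ ‖x‖ := by
          have e1 : R' ≤ C * R' := by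
            have := S.psi.C1
            have := S.hRp
            nlinarith
          exact le_trans e1 (le_trans S.hRC hR1)
        obtain ⟨f1, f2⟩ := S.dfar x hm hR'
        exact ⟨f1, h5 V L t u k w z ε δ ε' a a' S.ear S.eps S.eps4 S.del S.del2 S.eps' S.epse
          S.ha S.ha' S.hatok Ch A B x (D' x) hx hU hW f2⟩

end Pool.Agent.TSM
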