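import Pool.Agent.TSM.VStmts3

/-!
# TSM, module DOU : the old resolution on the zone at `u`
-/

set_option autoImplicit false

namespace Pool.Agent.TSM

open Set Filter Topology Metric

namespace DOU_

theorem key {ι : Type} [DecidableEq ι] (E : EndD ι) (Z : ι → Aff) (x : E3) (s : ℝ) (S : Set Aff)
    (hS : ∀ i ∈ E.J, Z i ∈ S) (hS' : ∀ P ∈ S, ∃ i ∈ E.J, P = Z i) (hQ : E.iQ ∈ E.J)
    (hpos : ∀ i ∈ E.J, 0 < (inner ℝ (Z i).1 E.e : ℝ)) (hτ : E.τ ≠ 0)
    (hle : ∀ P ∈ S, 0 ≤ Real.sign E.τ * ev P (x + s • E.e))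
    (hex : ∃ P ∈ S, ev P (x + s • E.e) = 0) : s = E.tO Z x := by
  obtain ⟨P, hP, hP0⟩ := hex
  obtain ⟨i, hi, rfl⟩ := hS' P hP
  have hsi : s = tz E.e (Z i) x := by
    rw [ev_line (hpos i hi).ne'] at hP0
    rcases mul_eq_zero.1 hP0 with h | h
    · exact absurd h (hpos i hi).ne'
    · linarith
  unfold EndD.tO
  rcases lt_or_gt_of_ne hτ with h | h
  · rw [if_pos h]
    have hall : ∀ j ∈ E.J, s ≤ tz E.e (Z j) x := by
      intro j hj
      have h1 := hle _ (hS j hj)
      rw [Real.sign_of_neg h, ev_line (hpos j hj).ne'] at h1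
      have h2 := hpos j hj
      by_contra h3
      push Not at h3
      nlinarith [mul_pos h2 (sub_pos.2 h3)]
    apply le_antisymm
    · rw [E.le_mn_iff]
      exact ⟨hall _ hQ, hall⟩
    · rw [E.mn_le_iff]
      exact Or.inr ⟨i, hi, hsi.ge⟩
  · rw [if_neg (not_lt.2 h.le)]
    have hall : ∀ j ∈ E.J, tz E.e (Z j) x ≤ s := by
      intro j hj
      have h1 := hle _ (hS j hj)
      rw [Real.sign_of_pos h, ev_line (hpos j hj).ne', one_mul] at h1
      have h2 := hpos j hj
      by_contra h3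
      push Not at h3
      nlinarith [mul_pos h2 (sub_pos.2 h3)]
    apply le_antisymm
    · rw [E.le_mx_iff]
      exact Or.inr ⟨i, hi, hsi.le⟩
    · rw [E.mx_le_iff]
      exact ⟨hall _ hQ, hall⟩

end DOU_

open DOU_

theorem dou_proof : Stmt_Dou := by
  intro V _ L t u k w z x₀ y₀ ε δ ε' a a' C κ₁ R₁ R₂ R₃ M R' M' Ψ b₁ D' Ch N A B h x hx hR
  have he := h.ear
  have hnd := he.nodup
  simp only [List.nodup_cons, List.mem_cons, List.not_mem_nil, or_false, not_or] at hnd
  obtain ⟨⟨htu, htk, htw, htz⟩, ⟨huk, huw, huz⟩, ⟨hkw, hkz⟩, hwz, _⟩ := hnd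
  set H := L.hat t u k w z a a' with hH
  have hHs : ∀ i, H.s i = if L.s i = k then L.s k else L.s i := fun i => rfl
  have hst : H.s t = u := by rw [hHs, he.st, if_neg huk]
  have hsu : H.s u = w := by rw [hHs, he.su, if_pos rfl, he.sk]
  have hHp : ∀ i, H.p i = if i = u then L.p u + a • L.p t else
      if i = w then L.p w + a' • L.p z else L.p i := fun i => rfl
  have hpt : H.p t = L.p t := by rw [hHp, if_neg htu, if_neg htw]
  have hpu : H.p u = L.p u + a • L.p t := by rw [hHp, if_pos rfl]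
  have hpw : H.p w = L.p w + a' • L.p z := by rw [hHp, if_neg (Ne.symm huw), if_pos rfl]
  have htS : t ∈ H.S := Finset.mem_erase.2 ⟨htk, he.memt⟩
  have huS : u ∈ H.S := Finset.mem_erase.2 ⟨huk, he.memu⟩
  have hxc : x ∈ L.cone := by
    rcases hx with ⟨α, β, hα, hβ, _, hxe⟩ | hx
    · exact ⟨t, he.memt, α, β, hα, hβ, by rw [he.st]; exact hxe⟩
    · exact ⟨u, he.memu, hx⟩
  have hC1 := h.psi.C1
  have hnorm := (h.psi.norm x hxc).1
  have hCp : 0 < C := by linarith
  have hRy : R' ≤ ‖Ψ x‖ := by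
    have h1 : C * R' ≤ C * ‖Ψ x‖ := by linarith [h.hRC]
    exact le_of_mul_le_mul_left h1 hCp
  have hyc : Ψ x ∈ H.cone := h.psi.maps hxc
  obtain ⟨r₀, hr₀⟩ := h.psi.vert x (Or.inl hx)
  obtain ⟨⟨r₁, hr₁⟩, hZ⟩ := h.dfar (Ψ x) hyc hRy
  have hb : b₁ (Ψ x) = L.ee u k w x₀ y₀ := by
    rcases h.psi.locU x hx with h1 | ⟨α, β, hα, hβ, _, hy⟩
    · exact h.b1t _ h1
    · refine h.b1u _ ⟨β, α, hβ, hα, ?_⟩
      change Ψ x = β • H.p u + α • H.p (H.s u)
      rw [hsu, hpu, hpw, hy, add_comm]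
  have hturn : H.turn t ≠ 0 := by
    intro h0
    have h1 := h.sgu
    have h2 : Real.sign (H.turn t) = 0 := by rw [h0, Real.sign_zero]
    rw [h2] at h1
    rcases lt_or_gt_of_ne he.τu with h3 | h3
    · rw [Real.sign_of_neg h3] at h1
      norm_num at h1
    · rw [Real.sign_of_pos h3] at h1
      norm_num at h1
  have harm : H.ArmEq Ch (Pg.hA u w A B) B t (D' (Ψ x)) := by
    rcases h.psi.locU x hx with ⟨α, β, hα, hβ, hαβ, hy⟩ | ⟨α, β, hα, hβ, hαβ, hy⟩
    · by_cases hc : α ≤ 2 * ε' * β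
      · apply hZ.1.1 t htS
        refine ⟨α, β, hα, hβ, hc, Or.inl ?_⟩
        rw [hst, hpt, hpu]
        exact hy
      · apply hZ.2 t htS hturn
        left
        push Not at hc
        have h1 := h.eps'
        have h2 := h.epse
        have h3 := h.eps4
        have h4 := h.del2
        refine ⟨α, β, hα, hβ, by nlinarith, ?_, ?_⟩
        · have h5 : ε' ≤ 1 / 16 := by linarith
          have h6 : α ≤ β := by nlinarith
          nlinarith
        · rw [hst, hpt, hpu]
          exact hy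
    · by_cases hc : α ≤ 2 * ε' * β
      · apply hZ.1.1 t htS
        refine ⟨α, β, hα, hβ, hc, Or.inr ?_⟩
        rw [hst, hsu, hpu, hpw]
        exact hy
      · apply hZ.2 t htS hturn
        right
        push Not at hc
        have h1 := h.eps'
        rw [hst]
        refine ⟨β, α, hβ, hα, ?_, by nlinarith, ?_⟩
        · have h5 := h.epsC
          have h6 : ε' * α ≤ ε' * (C * β) := mul_le_mul_of_nonneg_left hαβ h1.le
          nlinarith
        · rw [hsu, hpu, hpw, hy, add_comm]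
  have hD : D' (Ψ x) = x + (r₀ - r₁) • L.ee u k w x₀ y₀ := by
    rw [hr₁, hb, hr₀, sub_smul]
    abel
  rw [hD]
  rw [hD] at harm
  have hfin := key (L.endU t u k w z x₀ y₀ a a' (Ch u) N) (zf (A t) (B s(u, w)) B) x (r₀ - r₁)
    (H.lst Ch (Pg.hA u w A B) B t) ?_ ?_ ?_ h.tU.pos.1 ?_ ?_ ?_
  · rw [← hfin]
  · intro i hi
    have hi' : i ∈ (insert none (insert (some none)
      ((Ch u).image fun n => some (some n))) : Finset (Option (Option (Sym2 V)))) := hi
    rw [Finset.mem_insert, Finset.mem_insert, Finset.mem_image] at hi'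
    rcases hi' with rfl | rfl | ⟨n, hn, rfl⟩
    · left
      change A t = Pg.hA u w A B t
      unfold Pg.hA
      rw [if_neg htu]
    · right; left
      change B s(u, w) = Pg.hA u w A B (H.s t)
      rw [hst]
      unfold Pg.hA
      rw [if_pos rfl]
    · right; right
      exact ⟨n, by rw [hst]; exact hn, rfl⟩
  · intro P hP
    rcases hP with rfl | rfl | ⟨n, hn, rfl⟩
    · refine ⟨none, Finset.mem_insert_self _ _, ?_⟩
      change Pg.hA u w A B t = A t
      unfold Pg.hA
      rw [if_neg htu]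
    · refine ⟨some none, Finset.mem_insert_of_mem (Finset.mem_insert_self _ _), ?_⟩
      change Pg.hA u w A B (H.s t) = B s(u, w)
      rw [hst]
      unfold Pg.hA
      rw [if_pos rfl]
    · rw [hst] at hn
      refine ⟨some (some n), Finset.mem_insert_of_mem (Finset.mem_insert_of_mem
        (Finset.mem_image.2 ⟨n, hn, rfl⟩)), rfl⟩
  · exact Finset.mem_insert_of_mem (Finset.mem_insert_self _ _)
  · change 1 * det3 (L.p t) (L.p u) (L.p w) ≠ 0
    rw [one_mul]
    exact he.τu
  · intro P hP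
    have h1 := harm.1 P hP
    have h2 : Real.sign (L.endU t u k w z x₀ y₀ a a' (Ch u) N).τ = Real.sign (H.turn t) := by
      change Real.sign (1 * det3 (L.p t) (L.p u) (L.p w)) = _
      rw [one_mul]
      exact h.sgu.symm
    rw [h2]
    exact h1
  · exact harm.2

end Pool.Agent.TSM
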