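import Pool.Agent.TSM.VStmts3

/-!
# TSM, Part VM: the old resolution on the zone at `w` (module DOW)
-/

set_option autoImplicit false

namespace Pool.Agent.TSM

open Set Filter Topology Metric

namespace DOW_

theorem time_eq {ι : Type} [DecidableEq ι] (E : EndD ι) (Z : ι → Aff) (x : E3) (s : ℝ)
    (hQ : E.iQ ∈ E.J) (hτ : E.τ ≠ 0)
    (hpos : ∀ i ∈ E.J, 0 < (inner ℝ (Z i).1 E.e : ℝ))
    (h1 : ∀ i ∈ E.J, 0 ≤ Real.sign E.τ * ev (Z i) (x + s • E.e))
    (h2 : ∃ i ∈ E.J, ev (Z i) (x + s • E.e) = 0) : s = E.tO Z x := by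
  obtain ⟨i, hi, h2⟩ := h2
  have h3 : s = tz E.e (Z i) x := by
    rw [ev_line (hpos i hi).ne'] at h2
    rcases mul_eq_zero.1 h2 with h | h
    · exact absurd h (hpos i hi).ne'
    · linarith
  unfold EndD.tO
  by_cases hn : E.τ < 0
  · rw [if_pos hn]
    have h4 : ∀ j ∈ E.J, s ≤ tz E.e (Z j) x := by
      intro j hj
      have h5 := h1 j hj
      rw [Real.sign_of_neg hn, ev_line (hpos j hj).ne'] at h5
      have h6 := hpos j hj
      by_contra h7
      push Not at h7
      have h8 := mul_pos h6 (sub_pos.2 h7)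
      linarith
    apply le_antisymm
    · rw [EndD.le_mn_iff]
      exact ⟨h4 _ hQ, h4⟩
    · rw [h3]
      exact E.mn_le_tz Z _ x i hi
  · rw [if_neg hn]
    have hp : 0 < E.τ := lt_of_le_of_ne (not_lt.1 hn) (Ne.symm hτ)
    have h4 : ∀ j ∈ E.J, tz E.e (Z j) x ≤ s := by
      intro j hj
      have h5 := h1 j hj
      rw [Real.sign_of_pos hp, ev_line (hpos j hj).ne'] at h5
      have h6 := hpos j hj
      by_contra h7
      push Not at h7
      have h8 := mul_pos h6 (sub_pos.2 h7)
      linarith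
    apply le_antisymm
    · rw [h3]
      exact E.tz_le_mx Z _ x i hi
    · rw [EndD.mx_le_iff]
      exact ⟨h4 _ hQ, h4⟩

end DOW_

theorem dow_proof : Stmt_Dow := by
  intro V _ L t u k w z x₀ y₀ ε δ ε' a a' C κ₁ R₁ R₂ R₃ M R' M' Ψ b₁ D' Ch N A B hS x hx hR
  have hnd := hS.ear.nodup
  simp only [List.nodup_cons, List.mem_cons, List.not_mem_nil, or_false, not_or,
    not_false_eq_true, and_true, List.nodup_nil] at hnd
  obtain ⟨⟨-, -, -, -⟩, ⟨huk, huw, huz⟩, ⟨hkw, hkz⟩, hwz⟩ := hnd
  set e := L.ee u k w x₀ y₀ with he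
  have hsu : (L.hat t u k w z a a').s u = w := by
    show (if L.s u = k then L.s k else L.s u) = w
    rw [if_pos hS.ear.su, hS.ear.sk]
  have hsw : (L.hat t u k w z a a').s w = z := by
    show (if L.s w = k then L.s k else L.s w) = z
    rw [hS.ear.sw, if_neg (Ne.symm hkz)]
  have hpu : (L.hat t u k w z a a').p u = L.p u + a • L.p t := if_pos rfl
  have hpw : (L.hat t u k w z a a').p w = L.p w + a' • L.p z := by
    show (if w = u then _ else if w = w then _ else _) = _
    rw [if_neg (Ne.symm huw), if_pos rfl]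
  have hpz : (L.hat t u k w z a a').p z = L.p z := by
    show (if z = u then _ else if z = w then _ else _) = _
    rw [if_neg (Ne.symm huz), if_neg (Ne.symm hwz)]
  have huS : u ∈ (L.hat t u k w z a a').S := Finset.mem_erase.2 ⟨huk, hS.ear.memu⟩
  have hwS : w ∈ (L.hat t u k w z a a').S := Finset.mem_erase.2 ⟨Ne.symm hkw, hS.ear.memw⟩
  have hxL : x ∈ L.cone := by
    rcases hx with hx | ⟨p, q, hp, hq, -, hx⟩
    · exact ⟨k, hS.ear.memk, hx⟩
    · refine ⟨w, hS.ear.memw, q, p, hq, hp, ?_⟩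
      rw [hS.ear.sw, hx, add_comm]
  have hxZ : x ∈ L.zU t u δ ∪ L.zW k w z δ := Or.inr hx
  obtain ⟨r, hr⟩ := hS.psi.vert x hxZ
  have hC := hS.psi.C1
  have hyR : R' ≤ ‖Ψ x‖ := by
    have h1 := (hS.psi.norm x hxL).1
    have h2 := hS.hRC
    have h3 : C * R' ≤ C * ‖Ψ x‖ := by linarith
    exact le_of_mul_le_mul_left h3 (by linarith)
  have hyc := hS.psi.maps hxL
  obtain ⟨⟨r', hr'⟩, hZ⟩ := hS.dfar (Ψ x) hyc hyR
  have hturn : (L.hat t u k w z a a').turn u ≠ 0 := by
    intro h0
    have h1 := hS.sgw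
    rw [h0, Real.sign_zero] at h1
    exact hS.ear.τw (Real.sign_eq_zero_iff.1 h1.symm)
  have heps1 : ε' ≤ 1 := by
    have h1 := hS.epse
    have h2 := hS.eps4
    linarith
  have hmain : b₁ (Ψ x) = e ∧
      (L.hat t u k w z a a').ArmEq Ch (Pg.hA u w A B) B u (D' (Ψ x)) := by
    rcases hS.psi.locW x hx with h | h
    · refine ⟨hS.b1w _ h, ?_⟩
      obtain ⟨p, q, hp, hq, hpq, hy⟩ := h
      by_cases hc : p ≤ 2 * ε' * q
      · refine hZ.1.1 u huS ⟨p, q, hp, hq, hc, Or.inr ?_⟩
        rw [hsu, hsw, hpw, hpz]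
        exact hy
      · refine hZ.2 u huS hturn (Or.inr ?_)
        rw [hsu]
        refine ⟨q, p, hq, hp, ?_, ?_, ?_⟩
        · have h1 : p ≤ q := by
            have h2 : 2 * δ * q ≤ 1 * q := by
              apply mul_le_mul_of_nonneg_right _ hq
              have := hS.del2
              linarith
            linarith
          have h2 : ε' * p ≤ 1 * p := mul_le_mul_of_nonneg_right heps1 hp
          linarith
        · push Not at hc
          have h2 : 0 ≤ ε' * q := mul_nonneg hS.eps'.le hq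
          linarith
        · rw [hsw, hpw, hpz, hy, add_comm]
    · have hfu : Ψ x ∈ (L.hat t u k w z a a').face u := by
        obtain ⟨p, q, hp, hq, hpq, hy⟩ := h
        refine ⟨p, q, hp, hq, ?_⟩
        rw [hsu, hpu, hpw]
        exact hy
      refine ⟨hS.b1u _ hfu, ?_⟩
      obtain ⟨p, q, hp, hq, hpq, hy⟩ := h
      by_cases hc : p ≤ 2 * ε' * q
      · refine hZ.1.1 u huS ⟨p, q, hp, hq, hc, Or.inl ?_⟩
        rw [hsu, hpw, hpu]
        exact hy
      · refine hZ.2 u huS hturn (Or.inl ⟨p, q, hp, hq, ?_, ?_, ?_⟩)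
        · push Not at hc
          have h2 : 0 ≤ ε' * q := mul_nonneg hS.eps'.le hq
          linarith
        · have h1 : ε' * p ≤ ε' * (C * q) := mul_le_mul_of_nonneg_left hpq hS.eps'.le
          have h2 : ε' * C * q ≤ 1 * q := mul_le_mul_of_nonneg_right hS.epsC hq
          have h3 : ε' * (C * q) = ε' * C * q := by ring
          linarith
        · rw [hsu, hpw, hpu]
          exact hy
  obtain ⟨hb, harm⟩ := hmain
  have hD : D' (Ψ x) = x + (r - r') • e := by
    rw [hr', hb, hr]
    module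
  rw [hD] at harm ⊢
  have hlst : ∀ i ∈ (L.endW t u k w z x₀ y₀ a a' (Ch w) N).J,
      zf (A w) (B s(u, w)) B i ∈ (L.hat t u k w z a a').lst Ch (Pg.hA u w A B) B u := by
    intro i hi
    have hi' : i ∈ insert none (insert (some none) ((Ch w).image fun n => some (some n))) := hi
    rw [Finset.mem_insert, Finset.mem_insert, Finset.mem_image] at hi'
    rcases hi' with rfl | rfl | ⟨n, hn, rfl⟩
    · right; left
      show A w = Pg.hA u w A B ((L.hat t u k w z a a').s u)
      rw [hsu]
      exact (if_neg (Ne.symm huw)).symm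
    · left
      exact (if_pos rfl).symm
    · right; right
      rw [hsu]
      exact ⟨n, hn, rfl⟩
  have hτ : (L.endW t u k w z x₀ y₀ a a' (Ch w) N).τ = det3 (L.p u) (L.p w) (L.p z) := by
    show -1 * det3 (L.p z) (L.p w) (L.p u) = _
    unfold det3
    ring
  have key : r - r' = (L.endW t u k w z x₀ y₀ a a' (Ch w) N).tO (zf (A w) (B s(u, w)) B) x := by
    refine DOW_.time_eq _ _ x (r - r') ?_ ?_ hS.tW.pos.1 ?_ ?_
    · exact Finset.mem_insert_of_mem (Finset.mem_insert_self _ _)
    · rw [hτ]; exact hS.ear.τw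
    · intro i hi
      rw [hτ, ← hS.sgw]
      exact harm.1 _ (hlst i hi)
    · obtain ⟨Z, hZm, hZ0⟩ := harm.2
      rcases hZm with h | h | ⟨n, hn, h⟩
      · refine ⟨some none, Finset.mem_insert_of_mem (Finset.mem_insert_self _ _), ?_⟩
        rw [h] at hZ0
        have : Pg.hA u w A B u = B s(u, w) := if_pos rfl
        rw [this] at hZ0
        exact hZ0
      · refine ⟨none, Finset.mem_insert_self _ _, ?_⟩
        rw [h, hsu] at hZ0
        have : Pg.hA u w A B w = A w := if_neg (Ne.symm huw)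
        rw [this] at hZ0
        exact hZ0
      · rw [hsu] at hn
        refine ⟨some (some n), Finset.mem_insert_of_mem (Finset.mem_insert_of_mem
          (Finset.mem_image_of_mem _ hn)), ?_⟩
        rw [h] at hZ0
        exact hZ0
  rw [key]

end Pool.Agent.TSM
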