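import Mathlib

/-!
# TSM: common definitions (MP_89ee87_gt, tight smoothing)

Closed combinatorial surfaces, their bodies, simplexwise linear maps, the two-piece property,
and the interface `Framed` between the preprocessing (Part P) and the local resolution (Part R).
-/

set_option autoImplicit false

open scoped RealInnerProductSpace

namespace Pool.Agent.TSM

/-- Euclidean 3-space. -/
abbrev E3 := EuclideanSpace ℝ (Fin 3)

/-- `c` lists the link of `v` in the family of triangles `tri` as a cycle of length `n`. -/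
def IsLinkCycle {V : Type} [DecidableEq V] (tri : Finset (Finset V)) (v : V) (n : ℕ)
    (c : ZMod n → V) : Prop :=
  3 ≤ n ∧ Function.Injective c ∧ (∀ i, c i ≠ v) ∧
    ∀ t : Finset V, (t ∈ tri ∧ v ∈ t) ↔ ∃ i, t = {v, c i, c (i + 1)}

/-- A closed combinatorial surface with vertex set `V`: a finite set of triangles such that the
link of every vertex is a cycle. -/
structure Surf (V : Type) [Fintype V] [DecidableEq V] where
  /-- the triangles -/
  tri : Finset (Finset V)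
  /-- triangles have three vertices -/
  card3 : ∀ t ∈ tri, t.card = 3
  /-- links are cycles -/
  link : ∀ v : V, ∃ (n : ℕ) (c : ZMod n → V), IsLinkCycle tri v n c

variable {V : Type} [Fintype V] [DecidableEq V]

/-- The body (geometric realisation) of a surface, in barycentric coordinates. -/
def Surf.body (K : Surf V) : Set (V → ℝ) :=
  {w | (∀ v, 0 ≤ w v) ∧ ∑ v, w v = 1 ∧ ∃ t ∈ K.tri, ∀ v, v ∉ t → w v = 0}

/-- The closed star of the vertex `v`. -/
def Surf.star (K : Surf V) (v : V) : Set (V → ℝ) :=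
  {w | (∀ u, 0 ≤ w u) ∧ ∑ u, w u = 1 ∧ ∃ t ∈ K.tri, v ∈ t ∧ ∀ u, u ∉ t → w u = 0}

/-- `v` and `w` are joined by an edge. -/
def Surf.Adj (K : Surf V) (v w : V) : Prop := v ≠ w ∧ ∃ t ∈ K.tri, v ∈ t ∧ w ∈ t

/-- The simplexwise linear map with vertex values `p`. -/
noncomputable def lin (p : V → E3) (w : V → ℝ) : E3 := ∑ v, w v • p v

/-- The simplexwise linear map on the body. -/
noncomputable def Surf.map (K : Surf V) (p : V → E3) : K.body → E3 := fun w => lin p w.1

/-- The image of the (closed) star of every vertex is embedded. -/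
def Surf.EmbStars (K : Surf V) (p : V → E3) : Prop := ∀ v, Set.InjOn (lin p) (K.star v)

/-- The two-piece property: preimages of closed half-spaces are connected (or empty). -/
def TPP {X : Type} [TopologicalSpace X] (f : X → E3) : Prop :=
  ∀ (ν : E3) (c : ℝ), IsPreconnected {x : X | c ≤ ⟪ν, f x⟫}

/-- The affine function `x ↦ ⟪n, x⟫ - c` coded by `(n, c)`. -/
noncomputable def ev (φ : E3 × ℝ) (x : E3) : ℝ := ⟪φ.1, x⟫ - φ.2

/-- The convex body `{φ ≤ 0 for all φ ∈ Φ}`. -/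
def hull (Φ : Finset (E3 × ℝ)) : Set E3 := {x | ∀ φ ∈ Φ, ev φ x ≤ 0}

/-- The determinant of three vectors of `E3`. -/
def det3 (a b c : E3) : ℝ :=
  a 0 * (b 1 * c 2 - b 2 * c 1) - a 1 * (b 0 * c 2 - b 2 * c 0) + a 2 * (b 0 * c 1 - b 1 * c 0)

/-- `v` is an outer vertex: all its triangles lie in facet planes. -/
def Surf.Outer (K : Surf V) (p : V → E3) (Φ : Finset (E3 × ℝ)) (v : V) : Prop :=
  ∀ t ∈ K.tri, v ∈ t → ∃ φ ∈ Φ, ∀ w ∈ t, ev φ (p w) = 0

/-- `v` is an inner vertex: in the interior of the hull, link balanced and generic. -/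
def Surf.Inner (K : Surf V) (p : V → E3) (Φ : Finset (E3 × ℝ)) (v : V) : Prop :=
  (∀ φ ∈ Φ, ev φ (p v) < 0) ∧
  (∀ ν : E3, ν ≠ 0 → ∃ w, K.Adj v w ∧ 0 < ⟪ν, p w - p v⟫) ∧
  (∀ a b c, K.Adj v a → K.Adj v b → K.Adj v c → a ≠ b → a ≠ c → b ≠ c →
    det3 (p a - p v) (p b - p v) (p c - p v) ≠ 0)

/-- `v` is a corner vertex: it lies in the relative interior of the facet `φ`; its link consists
of one flat fan `c 0, …, c m` of angle `> π` and of one inner path `c m, c (m+1), …, c n = c 0`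
whose inner vertices are strictly below the facet. -/
def Surf.Corner (K : Surf V) (p : V → E3) (Φ : Finset (E3 × ℝ)) (v : V) : Prop :=
  ∃ φ ∈ Φ, ev φ (p v) = 0 ∧ (∀ ψ ∈ Φ, ψ ≠ φ → ev ψ (p v) < 0) ∧
    ∃ (n : ℕ) (c : ZMod n → V) (m : ℕ), IsLinkCycle K.tri v n c ∧ 2 ≤ m ∧ m + 2 ≤ n ∧
      (∀ i : ℕ, i ≤ m → ev φ (p (c i)) = 0) ∧
      (∀ i : ℕ, m < i → i < n → ev φ (p (c i)) < 0) ∧
      (∀ a b : ℝ, a • (p (c 0) - p v) + b • (p (c m) - p v) = 0 → a = 0 ∧ b = 0) ∧
      (∃ (a b s t : ℝ) (i : ℕ), 0 < a ∧ 0 < b ∧ 0 ≤ s ∧ 0 ≤ t ∧ i < m ∧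
        -(a • (p (c 0) - p v) + b • (p (c m) - p v)) =
          s • (p (c i) - p v) + t • (p (c (i + 1 : ℕ)) - p v))

/-- The output of the preprocessing. -/
structure Surf.Framed (K : Surf V) (p : V → E3) (Φ : Finset (E3 × ℝ)) : Prop where
  emb : K.EmbStars p
  unit : ∀ φ ∈ Φ, ‖φ.1‖ = 1
  normals : ∀ φ ∈ Φ, ∀ ψ ∈ Φ, φ.1 = ψ.1 → φ = ψ
  bdd : Bornology.IsBounded (hull Φ)
  int : (interior (hull Φ)).Nonempty
  /-- every plane of `Φ` contains three non-collinear vertices of the surface -/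
  facet : ∀ φ ∈ Φ, ∃ a b c : V, ev φ (p a) = 0 ∧ ev φ (p b) = 0 ∧ ev φ (p c) = 0 ∧
    AffineIndependent ℝ ![p a, p b, p c]
  mem : ∀ v, p v ∈ hull Φ
  ext : ∀ e ∈ Set.extremePoints ℝ (hull Φ), ∃! v, p v = e
  kinds : ∀ v, K.Outer p Φ v ∨ K.Inner p Φ v ∨ K.Corner p Φ v
  /-- three different non-outer vertices are never collinear -/
  gen3 : ∀ a b c, ¬ K.Outer p Φ a → ¬ K.Outer p Φ b → ¬ K.Outer p Φ c → a ≠ b → a ≠ c → b ≠ c →
    AffineIndependent ℝ ![p a, p b, p c]
  /-- four different non-outer vertices which are not all on one facet plane are never coplanar -/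
  gen4 : ∀ a b c d, ¬ K.Outer p Φ a → ¬ K.Outer p Φ b → ¬ K.Outer p Φ c → ¬ K.Outer p Φ d →
    a ≠ b → a ≠ c → a ≠ d → b ≠ c → b ≠ d → c ≠ d →
    (¬ ∃ φ ∈ Φ, ev φ (p a) = 0 ∧ ev φ (p b) = 0 ∧ ev φ (p c) = 0 ∧ ev φ (p d) = 0) →
    AffineIndependent ℝ ![p a, p b, p c, p d]

/-- `(K, p)` and `(K', p')` are `ε`-close: there is a homeomorphism of the bodies moving the
maps by less than `ε`. -/
def CloseTo (ε : ℝ) {V' : Type} [Fintype V'] [DecidableEq V'] (K : Surf V) (p : V → E3)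
    (K' : Surf V') (p' : V' → E3) : Prop :=
  ∃ h : K.body ≃ₜ K'.body, ∀ x, ‖K'.map p' (h x) - K.map p x‖ < ε

/-- PART P (preprocessing): every simplexwise linear map of a closed surface with embedded stars
and the two-piece property is arbitrarily close to a framed one. -/
def Stmt_P : Prop :=
  ∀ (V : Type) [Fintype V] [DecidableEq V] [Nonempty V] (K : Surf V) (p : V → E3),
    K.EmbStars p → TPP (K.map p) → ∀ ε : ℝ, 0 < ε →
    ∃ (V' : Type) (_ : Fintype V') (_ : DecidableEq V') (K' : Surf V') (p' : V' → E3)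
      (Φ : Finset (E3 × ℝ)), K'.Framed p' Φ ∧ CloseTo ε K p K' p'

end Pool.Agent.TSM
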