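import Pool.Agent.TSM.VBase2

/-!
# TSM, Part VM: module END (all conclusions at one end)
-/

set_option autoImplicit false

namespace Pool.Agent.TSM

open Set Filter Topology Metric

namespace END_

variable {ι : Type} [DecidableEq ι]

omit [DecidableEq ι] in
theorem close_mono {E : EndD ι} {K c₀ η η' : ℝ} (h : η' ≤ η) {Z : ι → Aff} {A B : Aff}
    (hc : E.Close K c₀ η' Z A B) : E.Close K c₀ η Z A B := by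
  obtain ⟨h1, h2, h3, h4, h5⟩ := hc
  exact ⟨fun i hi => ⟨lt_of_lt_of_le (h1 i hi).1 h, (h1 i hi).2⟩, lt_of_lt_of_le h2 h,
    lt_of_lt_of_le h3 h, lt_of_lt_of_le h4 h, lt_of_lt_of_le h5 h⟩

theorem spec_mono {E : EndD ι} {ε δ κ₁ R₁ R₂ R₃ M R₁' R₃' M' : ℝ} {Z : ι → Aff} {A B : Aff}
    (h : E.TSpec ε δ κ₁ R₁ R₂ R₃ M Z A B) (h1 : R₁ ≤ R₁') (h3 : R₃ ≤ R₃') (hM : M ≤ M') :
    E.TSpec ε δ κ₁ R₁' R₂ R₃' M' Z A B where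
  pos := h.pos
  diag := fun c d hc hcd x hx hR => h.diag c d hc hcd x hx (h1.trans hR)
  outer := fun a c hc h₁ h₂ x hx hR => h.outer a c hc h₁ h₂ x hx (h1.trans hR)
  near := fun x hx hR hR' => h.near x hx (h1.trans hR) hR'
  arm1 := fun hτ x hx hR => h.arm1 hτ x hx (h3.trans hR)
  arm2 := fun hτ hθ x hx hR => h.arm2 hτ hθ x hx (h3.trans hR)
  arm3 := fun hθ x hx hR => h.arm3 hθ x hx (h3.trans hR)
  ear := fun c d hc hd hcd x hx hR => h.ear c d hc hd hcd x hx (h3.trans hR)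
  le := fun x hx hR => h.le x hx (h1.trans hR)
  bound := fun x => (h.bound x).trans
    (mul_le_mul_of_nonneg_right hM (by have := norm_nonneg x; linarith))

theorem ger_mono {E : EndD ι} {δ R₁ R₁' : ℝ} {Z : ι → Aff} {A B : Aff}
    (h : E.Ger δ R₁ Z A B) (h1 : R₁ ≤ R₁') : E.Ger δ R₁' Z A B :=
  fun x hx hR => h x hx (h1.trans hR)

/-- the assembly for one type -/
theorem asm (hM : Stmt_Engm) (E : EndD ι) (ε δ : ℝ) (hN : E.Num ε δ) (κ₁ : ℝ) (K : ℝ)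
    (hT : ∃ R₁ : ℝ, 0 < R₁ ∧ ∀ R₂ : ℝ, ∃ cm : ℝ, ∀ c₀ : ℝ, cm ≤ c₀ →
      ∃ η R₃ M : ℝ, 0 < η ∧ ∀ (Z : ι → Aff) (A B : Aff), E.Close K c₀ η Z A B →
        E.TSpec ε δ κ₁ R₁ R₂ R₃ M Z A B)
    (hG : ∃ R₁ : ℝ, 0 < R₁ ∧ ∃ cm : ℝ, ∀ c₀ : ℝ, cm ≤ c₀ →
      ∃ η : ℝ, 0 < η ∧ ∀ (Z : ι → Aff) (A B : Aff), E.Close K c₀ η Z A B →
        E.Ger δ R₁ Z A B) :
    ∃ R₁ : ℝ, 0 < R₁ ∧ ∀ R₁' : ℝ, R₁ ≤ R₁' → ∀ R₂ : ℝ,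
    ∃ cm : ℝ, ∀ c₀ : ℝ, cm ≤ c₀ → ∃ η R₃ M : ℝ, 0 < η ∧
    ∀ η' R₃' M' : ℝ, η' ≤ η → R₃ ≤ R₃' → M ≤ M' →
    ∀ (Z : ι → Aff) (A B : Aff), E.Close K c₀ η' Z A B →
      E.TSpec ε δ κ₁ R₁' R₂ R₃' M' Z A B ∧ E.Ger δ R₁' Z A B ∧
      ∃ a b c : Aff, Indep a b c ∧ ∀ y : E3, G3 a b c (y + E.tM Z A B y • E.e) = 0 := by
  obtain ⟨RT, hRT, hT⟩ := hT
  obtain ⟨RG, hRG, cG, hG⟩ := hG
  refine ⟨max RT RG, lt_max_of_lt_left hRT, fun R₁' hR₁' R₂ => ?_⟩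
  obtain ⟨cT, hT⟩ := hT R₂
  refine ⟨max cT cG, fun c₀ hc₀ => ?_⟩
  obtain ⟨ηT, R₃, M, hηT, hT⟩ := hT c₀ ((le_max_left _ _).trans hc₀)
  obtain ⟨ηG, hηG, hG⟩ := hG c₀ ((le_max_right _ _).trans hc₀)
  obtain ⟨ηM, hηM, hM⟩ := hM ι E ε δ hN K c₀
  refine ⟨min ηT (min ηG ηM), R₃, M, lt_min hηT (lt_min hηG hηM), ?_⟩
  intro η' R₃' M' hη' hR₃' hM' Z A B hC
  have c1 : E.Close K c₀ ηT Z A B := close_mono (hη'.trans (min_le_left _ _)) hC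
  have c2 : E.Close K c₀ ηG Z A B :=
    close_mono (hη'.trans ((min_le_right _ _).trans (min_le_left _ _))) hC
  have c3 : E.Close K c₀ ηM Z A B :=
    close_mono (hη'.trans ((min_le_right _ _).trans (min_le_right _ _))) hC
  exact ⟨spec_mono (hT Z A B c1) ((le_max_left _ _).trans hR₁') hR₃' hM',
    ger_mono (hG Z A B c2) ((le_max_right _ _).trans hR₁'), hM Z A B c3⟩

end END_

open END_ in
theorem end_proof (h1 : Stmt_Ent1) (h2 : Stmt_Ent2) (h3 : Stmt_Ent3) (h4 : Stmt_Eng1)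
    (h5 : Stmt_Eng2) (h6 : Stmt_Eng3) (h7 : Stmt_Engm) : Stmt_End := by
  intro ι _ E ε δ hN κ₁ hκ₁ K
  rcases lt_or_gt_of_ne hN.τne with hτ | hτ
  · exact asm h7 E ε δ hN κ₁ K (h1 ι E ε δ hN hτ κ₁ hκ₁ K) (h4 ι E ε δ hN hτ K)
  · rcases lt_or_gt_of_ne hN.θne with hθ | hθ
    · exact asm h7 E ε δ hN κ₁ K (h2 ι E ε δ hN hτ hθ κ₁ hκ₁ K) (h5 ι E ε δ hN hτ hθ K)
    · exact asm h7 E ε δ hN κ₁ K (h3 ι E ε δ hN hθ κ₁ hκ₁ K) (h6 ι E ε δ hN hθ K)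

end Pool.Agent.TSM
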