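import Pool.Agent.TSM.VBase2
import Pool.Agent.TSM.FGER

/-!
# TSM, ENG2: germs at an end of type II
-/

set_option autoImplicit false

namespace Pool.Agent.TSM

open Set Filter Topology Metric

namespace ENG2_

theorem shift_bound {n e x : E3} (hx : (inner ℝ n x : ℝ) = 0) (he : 0 < (inner ℝ n e : ℝ))
    (t : ℝ) : ‖x‖ ≤ (1 + ‖n‖ * ‖e‖ / inner ℝ n e) * ‖x + t • e‖ := by
  have h1 : |t| * inner ℝ n e ≤ ‖n‖ * ‖x + t • e‖ := by
    have h0 : (inner ℝ n (x + t • e) : ℝ) = t * inner ℝ n e := by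
      rw [inner_add_right, inner_smul_right, hx, zero_add]
    have h2 := abs_real_inner_le_norm n (x + t • e)
    rw [h0, abs_mul, abs_of_pos he] at h2
    exact h2
  have h2 : |t| ≤ ‖n‖ * ‖x + t • e‖ / inner ℝ n e := by
    rw [le_div_iff₀ he]; exact h1
  have h3 : ‖x‖ ≤ ‖x + t • e‖ + |t| * ‖e‖ := by
    calc ‖x‖ = ‖(x + t • e) - t • e‖ := by rw [add_sub_cancel_right]
      _ ≤ ‖x + t • e‖ + ‖t • e‖ := norm_sub_le _ _
      _ = _ := by rw [norm_smul, Real.norm_eq_abs]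
  calc ‖x‖ ≤ ‖x + t • e‖ + |t| * ‖e‖ := h3
    _ ≤ ‖x + t • e‖ + (‖n‖ * ‖x + t • e‖ / inner ℝ n e) * ‖e‖ := by
        have := mul_le_mul_of_nonneg_right h2 (norm_nonneg e)
        linarith
    _ = _ := by ring

theorem th_add (e n : E3) (a b : ℝ) (x y : E3) :
    th e n (a • x + b • y) = a * th e n x + b * th e n y := by
  unfold th
  rw [inner_add_right, inner_smul_right, inner_smul_right]
  ring

theorem pert {n e : E3} (he : 0 < (inner ℝ n e : ℝ)) (c₀ : ℝ) {κ : ℝ} (hκ : 0 < κ) :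
    ∃ η : ℝ, 0 < η ∧ ∀ Z : Aff, ‖Z.1 - n‖ < η → |Z.2 - c₀ * inner ℝ n e| < η →
      0 < (inner ℝ Z.1 e : ℝ) ∧ ∀ x : E3, 1 ≤ ‖x‖ → |tz e Z x - c₀ - th e n x| ≤ κ * ‖x‖ := by
  set g : ℝ := inner ℝ n e with hg
  set C : ℝ := 2 + ‖n‖ * ‖e‖ / g + |c₀| * ‖e‖ with hC
  have hC0 : 0 < C := by
    have h1 : 0 ≤ ‖n‖ * ‖e‖ / g := by positivity
    have h2 : 0 ≤ |c₀| * ‖e‖ := by positivity
    linarith
  have hen : 0 < ‖e‖ + 1 := by positivity
  refine ⟨min (g / (2 * (‖e‖ + 1))) (κ * g / (2 * C)), by positivity, ?_⟩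
  intro Z h1 h2
  set η : ℝ := min (g / (2 * (‖e‖ + 1))) (κ * g / (2 * C)) with hη
  have hη1 : η * (2 * (‖e‖ + 1)) ≤ g := by
    have := min_le_left (g / (2 * (‖e‖ + 1))) (κ * g / (2 * C))
    rwa [← hη, le_div_iff₀ (by positivity)] at this
  have hη2 : η * (2 * C) ≤ κ * g := by
    have := min_le_right (g / (2 * (‖e‖ + 1))) (κ * g / (2 * C))
    rwa [← hη, le_div_iff₀ (by positivity)] at this
  have hη0 : 0 < η := by positivity
  have hdiff : |(inner ℝ Z.1 e : ℝ) - g| ≤ η * ‖e‖ := by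
    have h3 : (inner ℝ Z.1 e : ℝ) - g = inner ℝ (Z.1 - n) e := by
      rw [inner_sub_left]
    rw [h3]
    exact (abs_real_inner_le_norm _ _).trans (mul_le_mul_of_nonneg_right h1.le (norm_nonneg e))
  have hg' : g / 2 < inner ℝ Z.1 e := by
    have h3 := (abs_le.1 hdiff).1
    nlinarith
  have hg'0 : 0 < (inner ℝ Z.1 e : ℝ) := by linarith
  refine ⟨hg'0, ?_⟩
  intro x hx
  have key : tz e Z x - c₀ - th e n x =
      (-(inner ℝ (Z.1 - n) x : ℝ) + (Z.2 - c₀ * g) + c₀ * (g - inner ℝ Z.1 e) +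
        inner ℝ n x * (inner ℝ Z.1 e - g) / g) / inner ℝ Z.1 e := by
    unfold tz th ev
    rw [inner_sub_left, ← hg]
    field_simp
    ring
  rw [key, abs_div, abs_of_pos hg'0, div_le_iff₀ hg'0]
  have b1 : |(inner ℝ (Z.1 - n) x : ℝ)| ≤ η * ‖x‖ :=
    (abs_real_inner_le_norm _ _).trans (mul_le_mul_of_nonneg_right h1.le (norm_nonneg x))
  have b2 : |c₀ * (g - inner ℝ Z.1 e)| ≤ |c₀| * (η * ‖e‖) := by
    rw [abs_mul, abs_sub_comm]
    exact mul_le_mul_of_nonneg_left hdiff (abs_nonneg _)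
  have b3 : |inner ℝ n x * (inner ℝ Z.1 e - g) / g| ≤ (‖n‖ * ‖x‖) * (η * ‖e‖) / g := by
    rw [abs_div, abs_of_pos he, abs_mul]
    apply div_le_div_of_nonneg_right _ he.le
    exact mul_le_mul (abs_real_inner_le_norm _ _) hdiff (abs_nonneg _) (by positivity)
  have b4 : |(-(inner ℝ (Z.1 - n) x : ℝ) + (Z.2 - c₀ * g) + c₀ * (g - inner ℝ Z.1 e) +
        inner ℝ n x * (inner ℝ Z.1 e - g) / g)| ≤
      η * ‖x‖ + η + |c₀| * (η * ‖e‖) + (‖n‖ * ‖x‖) * (η * ‖e‖) / g := by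
    refine (abs_add_le _ _).trans (add_le_add ?_ b3)
    refine (abs_add_le _ _).trans (add_le_add ?_ b2)
    refine (abs_add_le _ _).trans (add_le_add ?_ h2.le)
    rw [abs_neg]; exact b1
  refine b4.trans ?_
  have b5 : η * ‖x‖ + η + |c₀| * (η * ‖e‖) + (‖n‖ * ‖x‖) * (η * ‖e‖) / g ≤ η * C * ‖x‖ := by
    have e1 : (‖n‖ * ‖x‖) * (η * ‖e‖) / g = η * (‖n‖ * ‖e‖ / g) * ‖x‖ := by ring
    have e2 : |c₀| * (η * ‖e‖) ≤ η * (|c₀| * ‖e‖) * ‖x‖ := by
      have : 0 ≤ η * (|c₀| * ‖e‖) := by positivity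
      nlinarith
    have e3 : η ≤ η * ‖x‖ := by nlinarith
    rw [e1, hC]
    have e4 : η * (2 + ‖n‖ * ‖e‖ / g + |c₀| * ‖e‖) * ‖x‖ =
      2 * (η * ‖x‖) + η * (‖n‖ * ‖e‖ / g) * ‖x‖ + η * (|c₀| * ‖e‖) * ‖x‖ := by ring
    rw [e4]
    linarith
  refine b5.trans ?_
  have b6 : η * C * ‖x‖ ≤ κ * (g / 2) * ‖x‖ := by
    apply mul_le_mul_of_nonneg_right _ (norm_nonneg x)
    linarith
  have b7 : κ * (g / 2) * ‖x‖ ≤ κ * ‖x‖ * inner ℝ Z.1 e := by
    have : 0 ≤ κ * ‖x‖ := by positivity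
    nlinarith
  linarith

variable {ι : Type} [DecidableEq ι]

omit [DecidableEq ι] in
theorem margin (E : EndD ι) {ε δ : ℝ} (hN : E.Num ε δ) :
    ∃ m : ℝ, 0 < m ∧ ∀ x ∈ E.Old δ ∪ E.New 2,
      m * ‖x‖ ≤ th E.e E.nB x - th E.e E.nA x := by
  have hδ : 0 < δ := by linarith [hN.eps, hN.del]
  set L1 : ℝ := th E.e E.nB (E.pu + δ • E.pt) - th E.e E.nA (E.pu + δ • E.pt) with hL1
  set L2 : ℝ := th E.e E.nB E.pu - th E.e E.nA E.pu with hL2
  have h1 : 0 < L1 := by rw [hL1]; linarith [hN.AB]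
  have h2 : 0 < L2 := by
    rw [hL2]
    unfold th
    rw [hN.Bu, neg_zero, zero_div, zero_sub, neg_div, neg_neg]
    exact div_pos hN.Au hN.posA
  have hk : th E.e E.nB E.pk = 0 ∧ th E.e E.nA E.pk = 0 := by
    unfold th
    rw [hN.Bk, hN.Ak]
    simp
  set W : ℝ := δ * ‖E.pt‖ + ‖E.pu‖ + 2 * ‖E.pk‖ + 1 with hW
  have hW0 : 0 < W := by positivity
  refine ⟨min L1 L2 / W, by positivity, ?_⟩
  have hstep : ∀ (x : E3) (c : ℝ), 0 ≤ c → ‖x‖ ≤ c * W → min L1 L2 * c ≤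
      th E.e E.nB x - th E.e E.nA x → min L1 L2 / W * ‖x‖ ≤ th E.e E.nB x - th E.e E.nA x := by
    intro x c hc hx h3
    refine le_trans ?_ h3
    have h4 : 0 < min L1 L2 := lt_min h1 h2
    rw [div_mul_eq_mul_div, div_le_iff₀ hW0, mul_assoc]
    exact mul_le_mul_of_nonneg_left hx h4.le
  rintro x (⟨a, c, ha, hc, hac, rfl⟩ | ⟨c, d, hc, hd, hdc, rfl⟩)
  · apply hstep _ c hc
    · calc ‖a • E.pt + c • E.pu‖ ≤ ‖a • E.pt‖ + ‖c • E.pu‖ := norm_add_le _ _
        _ = a * ‖E.pt‖ + c * ‖E.pu‖ := by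
            rw [norm_smul, norm_smul, Real.norm_of_nonneg ha, Real.norm_of_nonneg hc]
        _ ≤ (δ * c) * ‖E.pt‖ + c * ‖E.pu‖ := by gcongr
        _ ≤ c * W := by
            rw [hW]
            have : 0 ≤ c * (2 * ‖E.pk‖ + 1) := by positivity
            linarith [this]
    · have e1 : a • E.pt + c • E.pu = (a / δ) • (E.pu + δ • E.pt) + (c - a / δ) • E.pu := by
        have : a / δ * δ = a := by field_simp
        rw [smul_add, smul_smul, this]
        module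
      rw [e1, th_add, th_add]
      have e2 : 0 ≤ a / δ := by positivity
      have e3 : 0 ≤ c - a / δ := by
        rw [sub_nonneg, div_le_iff₀ hδ]; linarith
      have e4 : a / δ * th E.e E.nB (E.pu + δ • E.pt) + (c - a / δ) * th E.e E.nB E.pu -
          (a / δ * th E.e E.nA (E.pu + δ • E.pt) + (c - a / δ) * th E.e E.nA E.pu) =
          a / δ * L1 + (c - a / δ) * L2 := by rw [hL1, hL2]; ring
      rw [e4]
      have e5 : min L1 L2 * (a / δ) ≤ a / δ * L1 := by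
        rw [mul_comm]; exact mul_le_mul_of_nonneg_left (min_le_left _ _) e2
      have e6 : min L1 L2 * (c - a / δ) ≤ (c - a / δ) * L2 := by
        rw [mul_comm]; exact mul_le_mul_of_nonneg_left (min_le_right _ _) e3
      have e7 : min L1 L2 * c = min L1 L2 * (a / δ) + min L1 L2 * (c - a / δ) := by ring
      rw [e7]; exact add_le_add e5 e6
  · apply hstep _ c hc
    · calc ‖c • E.pu + d • E.pk‖ ≤ ‖c • E.pu‖ + ‖d • E.pk‖ := norm_add_le _ _
        _ = c * ‖E.pu‖ + d * ‖E.pk‖ := by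
            rw [norm_smul, norm_smul, Real.norm_of_nonneg hd, Real.norm_of_nonneg hc]
        _ ≤ c * ‖E.pu‖ + (2 * c) * ‖E.pk‖ := by gcongr
        _ ≤ c * W := by
            rw [hW]
            have : 0 ≤ c * (δ * ‖E.pt‖ + 1) := by positivity
            linarith [this]
    · rw [th_add, th_add, hk.1, hk.2]
      have e4 : c * th E.e E.nB E.pu + d * 0 - (c * th E.e E.nA E.pu + d * 0) = c * L2 := by
        rw [hL2]; ring
      rw [e4, mul_comm]
      exact mul_le_mul_of_nonneg_left (min_le_right _ _) hc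

/-- the shape of the new surface near a point -/
theorem g3_form {a b c : Aff} {e : E3} (ha : 0 < (inner ℝ a.1 e : ℝ))
    (hb : 0 < (inner ℝ b.1 e : ℝ)) (hc : 0 < (inner ℝ c.1 e : ℝ)) (y : E3) :
    G3 a b c (y + min (max (tz e a y) (tz e b y)) (tz e c y) • e) = 0 := by
  unfold G3
  rw [ev_line ha.ne', ev_line hb.ne', ev_line hc.ne']
  set t : ℝ := min (max (tz e a y) (tz e b y)) (tz e c y) with ht
  rcases le_total (max (tz e a y) (tz e b y)) (tz e c y) with h | h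
  · have h1 : t = max (tz e a y) (tz e b y) := by rw [ht, min_eq_left h]
    have h2 : inner ℝ c.1 e * (t - tz e c y) ≤ 0 :=
      mul_nonpos_of_nonneg_of_nonpos hc.le (by linarith)
    have h3 : min (inner ℝ a.1 e * (t - tz e a y)) (inner ℝ b.1 e * (t - tz e b y)) = 0 := by
      rcases le_total (tz e a y) (tz e b y) with h4 | h4
      · rw [max_eq_right h4] at h1
        rw [h1, sub_self, mul_zero]
        exact min_eq_right (mul_nonneg ha.le (by linarith))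
      · rw [max_eq_left h4] at h1
        rw [h1, sub_self, mul_zero]
        exact min_eq_left (mul_nonneg hb.le (by linarith))
    rw [h3]
    exact max_eq_left h2
  · have h1 : t = tz e c y := by rw [ht, min_eq_right h]
    rw [h1, sub_self, mul_zero]
    apply max_eq_right
    rcases le_total (tz e a y) (tz e b y) with h4 | h4
    · rw [max_eq_right h4] at h
      exact (min_le_right _ _).trans (mul_nonpos_of_nonneg_of_nonpos hb.le (by linarith))
    · rw [max_eq_left h4] at h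
      exact (min_le_left _ _).trans (mul_nonpos_of_nonneg_of_nonpos ha.le (by linarith))

theorem det_pert {u v w : E3} (h : det3 u v w ≠ 0) : ∃ η : ℝ, 0 < η ∧ ∀ u' v' w' : E3,
    ‖u' - u‖ < η → ‖v' - v‖ < η → ‖w' - w‖ < η → det3 u' v' w' ≠ 0 := by
  have e2 : ∀ᶠ x : E3 × E3 × E3 in 𝓝 (u, v, w), det3 x.1 x.2.1 x.2.2 ≠ 0 :=
    FGER_.cont_det.continuousAt.eventually_ne h
  obtain ⟨η, hη, H⟩ := Metric.eventually_nhds_iff.1 e2
  refine ⟨η, hη, ?_⟩
  intro u' v' w' hu hv hw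
  have hd : dist (u', v', w') (u, v, w) < η := by
    rw [Prod.dist_eq, Prod.dist_eq]
    simp only [dist_eq_norm]
    exact max_lt hu (max_lt hv hw)
  exact H hd

theorem pos_pert {n e : E3} (he : 0 < (inner ℝ n e : ℝ)) : ∃ η : ℝ, 0 < η ∧ ∀ n' : E3,
    ‖n' - n‖ < η → 0 < (inner ℝ n' e : ℝ) := by
  have h1 : ∀ᶠ n' in 𝓝 n, 0 < (inner ℝ n' e : ℝ) :=
    (by fun_prop : Continuous fun n' : E3 => (inner ℝ n' e : ℝ)).continuousAt.eventually_const_lt he
  obtain ⟨η, hη, H⟩ := Metric.eventually_nhds_iff.1 h1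
  exact ⟨η, hη, fun n' h => H (by rw [dist_eq_norm]; exact h)⟩

/-- a common constant for finitely many conditions -/
theorem common {α : Type} (s : Finset α) (Q : α → ℝ → Prop)
    (hmono : ∀ i ∈ s, ∀ a b : ℝ, b ≤ a → Q i a → Q i b)
    (h : ∀ i ∈ s, ∃ η : ℝ, 0 < η ∧ Q i η) : ∃ η : ℝ, 0 < η ∧ ∀ i ∈ s, Q i η := by
  classical
  induction s using Finset.induction_on with
  | empty => exact ⟨1, one_pos, by simp⟩
  | insert a s ha ih =>
    obtain ⟨η1, h1, h2⟩ := ih (fun i hi => hmono i (Finset.mem_insert_of_mem hi))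
      (fun i hi => h i (Finset.mem_insert_of_mem hi))
    obtain ⟨η2, h3, h4⟩ := h a (Finset.mem_insert_self _ _)
    refine ⟨min η1 η2, lt_min h1 h3, ?_⟩
    intro i hi
    rcases Finset.mem_insert.1 hi with rfl | hi'
    · exact hmono i (Finset.mem_insert_self _ _) _ _ (min_le_right _ _) h4
    · exact hmono i (Finset.mem_insert_of_mem hi') _ _ (min_le_left _ _) (h2 i hi')

/-- a common upper bound for finitely many conditions -/
theorem common' {α : Type} (s : Finset α) (Q : α → ℝ → Prop)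
    (hmono : ∀ i ∈ s, ∀ a b : ℝ, a ≤ b → Q i a → Q i b)
    (h : ∀ i ∈ s, ∃ R : ℝ, Q i R) : ∃ R : ℝ, 0 < R ∧ ∀ i ∈ s, Q i R := by
  classical
  induction s using Finset.induction_on with
  | empty => exact ⟨1, one_pos, by simp⟩
  | insert a s ha ih =>
    obtain ⟨η1, h1, h2⟩ := ih (fun i hi => hmono i (Finset.mem_insert_of_mem hi))
      (fun i hi => h i (Finset.mem_insert_of_mem hi))
    obtain ⟨η2, h4⟩ := h a (Finset.mem_insert_self _ _)
    refine ⟨max η1 η2, lt_max_of_lt_left h1, ?_⟩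
    intro i hi
    rcases Finset.mem_insert.1 hi with rfl | hi'
    · exact hmono i (Finset.mem_insert_self _ _) _ _ (le_max_right _ _) h4
    · exact hmono i (Finset.mem_insert_of_mem hi') _ _ (le_max_left _ _) (h2 i hi')

/-- three different planes do not meet on the vertical line through a far point -/
theorem three (E : EndD ι) {ε δ : ℝ} (hN : E.Num ε δ) (K : ℝ) :
    ∃ R η : ℝ, 0 < R ∧ 0 < η ∧ ∀ Z : ι → Aff, (∀ i ∈ E.J, ‖(Z i).1 - E.G i‖ < η ∧ |(Z i).2| ≤ K) →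
      ∀ i ∈ E.J, ∀ j ∈ E.J, ∀ l ∈ E.J, i ≠ j → i ≠ l → j ≠ l → ∀ p : E3, ev (Z i) p = 0 →
        ev (Z j) p = 0 → ev (Z l) p = 0 → ‖p‖ < R := by
  obtain ⟨η, hη, hη2⟩ := common (E.J ×ˢ E.J ×ˢ E.J)
    (fun q η => q.1 ≠ q.2.1 → q.1 ≠ q.2.2 → q.2.1 ≠ q.2.2 →
      FGER_.Tr η (E.G q.1) (E.G q.2.1) (E.G q.2.2))
    (by
      intro q _ a b hba h h1 h2 h3 K
      obtain ⟨R, hR⟩ := h h1 h2 h3 K
      exact ⟨R, fun u v w hu hv hw => hR u v w (hu.trans_le hba) (hv.trans_le hba)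
        (hw.trans_le hba)⟩)
    (by
      intro q hq
      rw [Finset.mem_product, Finset.mem_product] at hq
      by_cases h1 : q.1 ≠ q.2.1 ∧ q.1 ≠ q.2.2 ∧ q.2.1 ≠ q.2.2
      · have h2 := FGER_.tr_ev _ _ _
          (hN.ind3 q.1 hq.1 q.2.1 hq.2.1 q.2.2 hq.2.2 h1.1 h1.2.1 h1.2.2)
        obtain ⟨η, h3, h4⟩ := (h2.and self_mem_nhdsWithin).exists
        exact ⟨η, h4, fun _ _ _ => h3⟩
      · exact ⟨1, one_pos, fun a b c => absurd ⟨a, b, c⟩ h1⟩)
  obtain ⟨R, hR, hR2⟩ := common' (E.J ×ˢ E.J ×ˢ E.J)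
    (fun q R => q.1 ≠ q.2.1 → q.1 ≠ q.2.2 → q.2.1 ≠ q.2.2 →
      ∀ u' v' w' : E3, ‖u' - E.G q.1‖ < η → ‖v' - E.G q.2.1‖ < η → ‖w' - E.G q.2.2‖ < η →
      ∀ y : E3, |(inner ℝ u' y : ℝ)| ≤ K → |(inner ℝ v' y : ℝ)| ≤ K → |(inner ℝ w' y : ℝ)| ≤ K →
      ‖y‖ < R)
    (by
      intro q _ a b hab h h1 h2 h3 u v w hu hv hw y hy1 hy2 hy3
      exact (h h1 h2 h3 u v w hu hv hw y hy1 hy2 hy3).trans_le hab)
    (by
      intro q hq
      by_cases h1 : q.1 ≠ q.2.1 ∧ q.1 ≠ q.2.2 ∧ q.2.1 ≠ q.2.2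
      · obtain ⟨R, hR⟩ := hη2 q hq h1.1 h1.2.1 h1.2.2 K
        exact ⟨R, fun _ _ _ => hR⟩
      · exact ⟨0, fun a b c => absurd ⟨a, b, c⟩ h1⟩)
  refine ⟨R, η, hR, hη, ?_⟩
  intro Z hZ i hi j hj l hl hij hil hjl p h1 h2 h3
  have hq : (i, j, l) ∈ E.J ×ˢ E.J ×ˢ E.J := by
    rw [Finset.mem_product, Finset.mem_product]; exact ⟨hi, hj, hl⟩
  have hev : ∀ i ∈ E.J, ev (Z i) p = 0 → |(inner ℝ (Z i).1 p : ℝ)| ≤ K := by
    intro i hi h
    have h4 : (inner ℝ (Z i).1 p : ℝ) = (Z i).2 := by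
      unfold ev at h; linarith
    rw [h4]; exact (hZ i hi).2
  exact hR2 (i, j, l) hq hij hil hjl _ _ _ (hZ i hi).1 (hZ j hj).1 (hZ l hl).1 p
    (hev i hi h1) (hev j hj h2) (hev l hl h3)

end ENG2_

open ENG2_ in
theorem eng2_proof : Stmt_Eng2 := by
  intro ι _ E ε δ hN hτ hθ K
  obtain ⟨m, hm, hmar⟩ := margin E hN
  obtain ⟨R, η1, hR, hη1, hthree⟩ := three E hN K
  set FP : ℝ := 1 + ‖E.G E.iP‖ * ‖E.e‖ / inner ℝ (E.G E.iP) E.e with hFP
  set FB : ℝ := 1 + ‖E.nB‖ * ‖E.e‖ / inner ℝ E.nB E.e with hFB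
  have hposP := hN.posG E.iP hN.memP
  have hposB := hN.posB
  have hFP0 : 0 < FP := by
    rw [hFP]
    have : 0 ≤ ‖E.G E.iP‖ * ‖E.e‖ / inner ℝ (E.G E.iP) E.e := by positivity
    linarith
  have hFB0 : 0 < FB := by
    rw [hFB]
    have : 0 ≤ ‖E.nB‖ * ‖E.e‖ / inner ℝ E.nB E.e := by positivity
    linarith
  refine ⟨1 + (FP + FB) * R, by positivity, 0, ?_⟩
  intro c₀ _
  obtain ⟨ηA, hηA, hA⟩ := pert hN.posA c₀ (κ := m / 3) (by positivity)
  obtain ⟨ηB, hηB, hB⟩ := pert hN.posB c₀ (κ := m / 3) (by positivity)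
  obtain ⟨η2, hη2, hpos⟩ := common E.J
    (fun i η => ∀ n' : E3, ‖n' - E.G i‖ < η → 0 < (inner ℝ n' E.e : ℝ))
    (fun i _ a b hab h n' hn => h n' (hn.trans_le hab))
    (fun i hi => pos_pert (hN.posG i hi))
  obtain ⟨η3, hη3, hdet⟩ := common (E.J ×ˢ E.J)
    (fun q η => q.1 ≠ q.2 → ∀ u' v' w' : E3, ‖u' - E.nB‖ < η → ‖v' - E.G q.1‖ < η →
      ‖w' - E.G q.2‖ < η → det3 u' v' w' ≠ 0)
    (fun q _ a b hab h h1 u v w hu hv hw => h h1 u v w (hu.trans_le hab) (hv.trans_le hab)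
      (hw.trans_le hab))
    (by
      intro q hq
      rw [Finset.mem_product] at hq
      by_cases h1 : q.1 ≠ q.2
      · obtain ⟨η, h2, h3⟩ := det_pert (hN.indB q.1 hq.1 q.2 hq.2 h1)
        exact ⟨η, h2, fun _ => h3⟩
      · exact ⟨1, one_pos, fun h => absurd h h1⟩)
  set η : ℝ := min η1 (min ηA (min ηB (min η2 η3))) with hη
  have l1 : η ≤ η1 := min_le_left _ _
  have l2 : η ≤ ηA := (min_le_right _ _).trans (min_le_left _ _)
  have l3 : η ≤ ηB := (min_le_right _ _).trans ((min_le_right _ _).trans (min_le_left _ _))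
  have l4 : η ≤ η2 := (min_le_right _ _).trans ((min_le_right _ _).trans
    ((min_le_right _ _).trans (min_le_left _ _)))
  have l5 : η ≤ η3 := (min_le_right _ _).trans ((min_le_right _ _).trans
    ((min_le_right _ _).trans (min_le_right _ _)))
  refine ⟨η, by positivity, ?_⟩
  rintro Z A B ⟨hZ, hA1, hA2, hB1, hB2⟩ x hx hxR
  have hRpos : 0 ≤ (FP + FB) * R := by positivity
  have hx1 : 1 ≤ ‖x‖ := by linarith
  obtain ⟨pA, dA⟩ := hA A (hA1.trans_le l2) (hA2.trans_le l2)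
  obtain ⟨pB, dB⟩ := hB B (hB1.trans_le l3) (hB2.trans_le l3)
  have hABx : tz E.e A x < tz E.e B x := by
    have h1 := (abs_le.1 (dA x hx1)).2
    have h2 := (abs_le.1 (dB x hx1)).1
    have h3 := hmar x hx
    have h4 : 0 < m / 3 * ‖x‖ := by positivity
    have h5 : m * ‖x‖ = 3 * (m / 3 * ‖x‖) := by ring
    linarith
  have hpZ : ∀ i ∈ E.J, 0 < (inner ℝ (Z i).1 E.e : ℝ) := fun i hi =>
    hpos i hi _ ((hZ i hi).1.trans_le l4)
  have hfar : ∀ t : ℝ, R ≤ ‖x + t • E.e‖ := by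
    intro t
    have h1 : ‖x‖ ≤ (FP + FB) * ‖x + t • E.e‖ := by
      rcases hx with ⟨a, c, ha, hc, hac, rfl⟩ | ⟨c, d, hc, hd, hdc, rfl⟩
      · have h2 := shift_bound (n := E.G E.iP) (e := E.e) (x := a • E.pt + c • E.pu)
          (by rw [inner_add_right, inner_smul_right, inner_smul_right, hN.Pt, hN.Pu]; ring)
          hposP t
        rw [← hFP] at h2
        have h3 : 0 ≤ FB * ‖a • E.pt + c • E.pu + t • E.e‖ := by positivity
        rw [add_mul]; linarith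
      · have h2 := shift_bound (n := E.nB) (e := E.e) (x := c • E.pu + d • E.pk)
          (by rw [inner_add_right, inner_smul_right, inner_smul_right, hN.Bu, hN.Bk]; ring)
          hposB t
        rw [← hFB] at h2
        have h3 : 0 ≤ FP * ‖c • E.pu + d • E.pk + t • E.e‖ := by positivity
        rw [add_mul]; linarith
    have h2 : (FP + FB) * R ≤ (FP + FB) * ‖x + t • E.e‖ := by linarith
    exact le_of_mul_le_mul_left h2 (by positivity)
  have hno : ∀ i ∈ E.J, ∀ j ∈ E.J, ∀ l ∈ E.J, i ≠ j → i ≠ l → j ≠ l →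
      tz E.e (Z j) x = tz E.e (Z i) x → tz E.e (Z l) x ≠ tz E.e (Z i) x := by
    intro i hi j hj l hl hij hil hjl h1 h2
    have hz : ∀ a ∈ E.J, tz E.e (Z a) x = tz E.e (Z i) x →
        ev (Z a) (x + tz E.e (Z i) x • E.e) = 0 := by
      intro a ha h3
      rw [ev_line (hpZ a ha).ne', h3, sub_self, mul_zero]
    have h3 := hthree Z (fun i hi => ⟨(hZ i hi).1.trans_le l1, (hZ i hi).2⟩) i hi j hj l hl
      hij hil hjl _ (hz i hi rfl) (hz j hj h1) (hz l hl h2)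
    exact absurd (hfar (tz E.e (Z i) x)) (not_le.2 h3)
  obtain ⟨i, hi, hmx⟩ := E.exists_mx Z E.J x hN.memQ
  have hle : ∀ l ∈ E.J, tz E.e (Z l) x ≤ tz E.e (Z i) x := by
    intro l hl
    rw [← hmx]; exact E.tz_le_mx Z _ x l hl
  obtain ⟨j, hj, hji, hlt⟩ : ∃ j ∈ E.J, j ≠ i ∧ ∀ l ∈ E.J, l ≠ i → l ≠ j →
      tz E.e (Z l) x < tz E.e (Z i) x := by
    by_cases h : ∃ j ∈ E.J, j ≠ i ∧ tz E.e (Z j) x = tz E.e (Z i) x
    · obtain ⟨j, hj, hji, hjt⟩ := h
      refine ⟨j, hj, hji, ?_⟩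
      intro l hl hli hlj
      exact lt_of_le_of_ne (hle l hl) (hno i hi j hj l hl hji.symm hli.symm hlj.symm hjt)
    · have h' : ∀ l ∈ E.J, l ≠ i → tz E.e (Z l) x < tz E.e (Z i) x := by
        intro l hl hli
        exact lt_of_le_of_ne (hle l hl) (fun h2 => h ⟨l, hl, hli, h2⟩)
      by_cases hip : i = E.iP
      · refine ⟨E.iQ, hN.memQ, ?_, fun l hl hli _ => h' l hl hli⟩
        rw [hip]; exact hN.PQ.symm
      · exact ⟨E.iP, hN.memP, fun h2 => hip h2.symm, fun l hl hli _ => h' l hl hli⟩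
  refine ⟨Z i, Z j, B, ?_, ?_⟩
  · apply FGER_.linInd
    rw [det3_cyc, det3_cyc]
    exact hdet (i, j) (by rw [Finset.mem_product]; exact ⟨hi, hj⟩) hji.symm _ _ _
      (hB1.trans_le l5) ((hZ i hi).1.trans_le l5) ((hZ j hj).1.trans_le l5)
  · have ev1 : ∀ᶠ y in 𝓝 x, tz E.e A y < tz E.e B y :=
      (tz_cont _ _).continuousAt.eventually_lt (tz_cont _ _).continuousAt hABx
    have ev2 : ∀ᶠ y in 𝓝 x, ∀ l ∈ E.J, l ≠ i → l ≠ j → tz E.e (Z l) y < tz E.e (Z i) y := by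
      rw [eventually_all_finset]
      intro l hl
      by_cases h : l ≠ i ∧ l ≠ j
      · filter_upwards [(tz_cont E.e (Z l)).continuousAt.eventually_lt
          (tz_cont E.e (Z i)).continuousAt (hlt l hl h.1 h.2)] with y hy _ _
        exact hy
      · exact Eventually.of_forall fun y h1 h2 => absurd ⟨h1, h2⟩ h
    filter_upwards [ev1, ev2] with y hy1 hy2
    have hmxy : E.mx Z E.J y = max (tz E.e (Z i) y) (tz E.e (Z j) y) := by
      apply le_antisymm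
      · rw [E.mx_le_iff]
        have hall : ∀ l ∈ E.J, tz E.e (Z l) y ≤ max (tz E.e (Z i) y) (tz E.e (Z j) y) := by
          intro l hl
          by_cases h1 : l = i
          · rw [h1]; exact le_max_left _ _
          · by_cases h2 : l = j
            · rw [h2]; exact le_max_right _ _
            · exact (hy2 l hl h1 h2).le.trans (le_max_left _ _)
        exact ⟨hall _ hN.memQ, hall⟩
      · exact max_le (E.tz_le_mx Z _ y i hi) (E.tz_le_mx Z _ y j hj)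
    have htN : E.tN Z A B y = min (max (tz E.e (Z i) y) (tz E.e (Z j) y)) (tz E.e B y) := by
      unfold EndD.tN
      rw [if_neg (not_lt.2 hτ.le), if_pos hθ, hmxy]
      unfold EndD.ab
      rw [max_eq_right hy1.le]
    rw [htN]
    exact g3_form (hpZ i hi) (hpZ j hj) pB y

end Pool.Agent.TSM
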