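import Pool.Agent.TSM.VBase2

/-!
# TSM, Part VM, ENT1: times at an end of type I
-/

set_option autoImplicit false

namespace Pool.Agent.TSM

open Set Filter Topology Metric

namespace ENT1_

theorem th_lin (e n v w : E3) (a b : ℝ) :
    th e n (a • v + b • w) = a * th e n v + b * th e n w := by
  unfold th
  rw [inner_add_right, inner_smul_right, inner_smul_right]
  ring

theorem abs_th_le (e n x : E3) (h : 0 < (inner ℝ n e : ℝ)) :
    |th e n x| ≤ ‖n‖ / inner ℝ n e * ‖x‖ := by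
  unfold th
  rw [abs_div, abs_neg, abs_of_pos h, div_mul_eq_mul_div]
  exact div_le_div_of_nonneg_right (abs_real_inner_le_norm n x) h.le

theorem fin_min {ι : Type} (J : Finset ι) (P : ι → ℝ → Prop)
    (mono : ∀ i η η', η' ≤ η → P i η → P i η') (h : ∀ i ∈ J, ∃ η, 0 < η ∧ P i η) :
    ∃ η, 0 < η ∧ ∀ i ∈ J, P i η := by
  classical
  induction J using Finset.induction_on with
  | empty => exact ⟨1, one_pos, by simp⟩
  | insert a s ha ih =>
    obtain ⟨η1, h1, h2⟩ := ih fun i hi => h i (Finset.mem_insert_of_mem hi)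
    obtain ⟨η2, h3, h4⟩ := h a (Finset.mem_insert_self a s)
    refine ⟨min η1 η2, lt_min h1 h3, fun i hi => ?_⟩
    rcases Finset.mem_insert.1 hi with rfl | hi
    · exact mono _ _ _ (min_le_right _ _) h4
    · exact mono _ _ _ (min_le_left _ _) (h2 i hi)

/-- linear lower bound on a cone with two generators -/
theorem marg (v w : E3) {p q : ℝ} (hp : 0 < p) (hq : 0 < q) :
    ∃ m : ℝ, 0 < m ∧ ∀ a b : ℝ, 0 ≤ a → 0 ≤ b → m * ‖a • v + b • w‖ ≤ a * p + b * q := by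
  have hN : 0 < ‖v‖ + ‖w‖ + 1 := by positivity
  refine ⟨min p q / (‖v‖ + ‖w‖ + 1), div_pos (lt_min hp hq) hN, fun a b ha hb => ?_⟩
  have h1 : ‖a • v + b • w‖ ≤ (a + b) * (‖v‖ + ‖w‖ + 1) := by
    calc ‖a • v + b • w‖ ≤ ‖a • v‖ + ‖b • w‖ := norm_add_le _ _
      _ = a * ‖v‖ + b * ‖w‖ := by
        rw [norm_smul, norm_smul, Real.norm_of_nonneg ha, Real.norm_of_nonneg hb]
      _ ≤ (a + b) * (‖v‖ + ‖w‖ + 1) := by
        have hv := norm_nonneg v
        have hw := norm_nonneg w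
        nlinarith [mul_nonneg ha hw, mul_nonneg hb hv]
  have h2 : min p q / (‖v‖ + ‖w‖ + 1) * ‖a • v + b • w‖ ≤
      min p q / (‖v‖ + ‖w‖ + 1) * ((a + b) * (‖v‖ + ‖w‖ + 1)) :=
    mul_le_mul_of_nonneg_left h1 (div_pos (lt_min hp hq) hN).le
  have h3 : min p q / (‖v‖ + ‖w‖ + 1) * ((a + b) * (‖v‖ + ‖w‖ + 1)) = a * min p q + b * min p q := by
    field_simp
  have h4 : a * min p q ≤ a * p := mul_le_mul_of_nonneg_left (min_le_left _ _) ha
  have h5 : b * min p q ≤ b * q := mul_le_mul_of_nonneg_left (min_le_right _ _) hb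
  linarith

/-- the error estimate for one plane -/
theorem err (e G : E3) (hg : 0 < (inner ℝ G e : ℝ)) (c₀ κ : ℝ) (hκ : 0 < κ) :
    ∃ η₀ : ℝ, 0 < η₀ ∧ ∀ Z : Aff, ‖Z.1 - G‖ < η₀ → 0 < (inner ℝ Z.1 e : ℝ) ∧
      ∀ K' : ℝ, |Z.2 - c₀ * inner ℝ G e| ≤ K' → ∀ x : E3,
        |tz e Z x - c₀ - th e G x| ≤ 2 * K' / inner ℝ G e + κ * (1 + ‖x‖) := by
  set g : ℝ := inner ℝ G e with hgdef
  set C : ℝ := 2 * |c₀| * ‖e‖ / g + 4 * ‖G‖ * ‖e‖ / g ^ 2 with hC
  have hC0 : 0 ≤ C := by positivity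
  have he1 : 0 < ‖e‖ + 1 := by positivity
  refine ⟨min (g / (2 * (‖e‖ + 1))) (κ / (C + 1)), lt_min (by positivity) (by positivity), ?_⟩
  intro Z hZ
  have hZ1 : ‖Z.1 - G‖ < g / (2 * (‖e‖ + 1)) := lt_of_lt_of_le hZ (min_le_left _ _)
  have hZ2 : ‖Z.1 - G‖ < κ / (C + 1) := lt_of_lt_of_le hZ (min_le_right _ _)
  set η : ℝ := ‖Z.1 - G‖ with hη
  have hη0 : 0 ≤ η := norm_nonneg _
  set z : ℝ := inner ℝ Z.1 e with hz
  set u : ℝ := inner ℝ (Z.1 - G) e with hu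
  have hzu : z = g + u := by
    rw [hz, hgdef, hu, ← inner_add_left]
    congr 1
    abel
  have hub : |u| ≤ η * ‖e‖ := abs_real_inner_le_norm _ _
  have hub2 : η * ‖e‖ ≤ g / 2 := by
    have h1 : η * (‖e‖ + 1) ≤ g / 2 := by
      rw [lt_div_iff₀ (by positivity)] at hZ1
      linarith
    nlinarith [norm_nonneg e]
  have hz2 : g / 2 ≤ z := by
    have := (abs_le.1 (hub.trans hub2)).1
    linarith
  have hz0 : 0 < z := by linarith
  refine ⟨hz0, fun K' hK' x => ?_⟩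
  have hηκ : η * (C + 1) ≤ κ := by
    rw [lt_div_iff₀ (by positivity)] at hZ2
    exact hZ2.le
  set s : ℝ := inner ℝ (Z.1 - G) x with hs
  have hsx : (inner ℝ Z.1 x : ℝ) = inner ℝ G x + s := by
    rw [hs, ← inner_add_left]
    congr 1
    abel
  have hsb : |s| ≤ η * ‖x‖ := abs_real_inner_le_norm _ _
  have hGx : |(inner ℝ G x : ℝ)| ≤ ‖G‖ * ‖x‖ := abs_real_inner_le_norm _ _
  have hgle : g ≤ ‖G‖ * ‖e‖ := real_inner_le_norm _ _
  have key : tz e Z x - c₀ - th e G x =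
      ((Z.2 - c₀ * g) - c₀ * u) / z + ((inner ℝ G x : ℝ) * u - s * g) / (z * g) := by
    unfold tz th ev
    rw [hsx, ← hz, ← hgdef, hzu]
    have h1 : g + u ≠ 0 := by rw [← hzu]; exact hz0.ne'
    field_simp
    ring
  rw [key]
  have hK0 : 0 ≤ K' := (abs_nonneg _).trans hK'
  have t1 : |((Z.2 - c₀ * g) - c₀ * u) / z| ≤ (K' + |c₀| * (η * ‖e‖)) / (g / 2) := by
    rw [abs_div, abs_of_pos hz0]
    apply div_le_div₀ (by positivity) _ (by positivity) hz2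
    calc |(Z.2 - c₀ * g) - c₀ * u| ≤ |Z.2 - c₀ * g| + |c₀ * u| := abs_sub _ _
      _ ≤ K' + |c₀| * (η * ‖e‖) := by
        rw [abs_mul]
        exact add_le_add hK' (mul_le_mul_of_nonneg_left hub (abs_nonneg _))
  have t2 : |((inner ℝ G x : ℝ) * u - s * g) / (z * g)| ≤
      (2 * (‖G‖ * ‖x‖ * (η * ‖e‖))) / (g / 2 * g) := by
    rw [abs_div, abs_of_pos (mul_pos hz0 hg)]
    apply div_le_div₀ (by positivity) _ (by positivity)
      (mul_le_mul_of_nonneg_right hz2 hg.le)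
    calc |(inner ℝ G x : ℝ) * u - s * g| ≤ |(inner ℝ G x : ℝ) * u| + |s * g| := abs_sub _ _
      _ = |(inner ℝ G x : ℝ)| * |u| + |s| * g := by rw [abs_mul, abs_mul, abs_of_pos hg]
      _ ≤ (‖G‖ * ‖x‖) * (η * ‖e‖) + (η * ‖x‖) * (‖G‖ * ‖e‖) := by
        apply add_le_add
        · exact mul_le_mul hGx hub (abs_nonneg _) (by positivity)
        · exact mul_le_mul hsb hgle hg.le (by positivity)
      _ = 2 * (‖G‖ * ‖x‖ * (η * ‖e‖)) := by ring
  have t3 : (K' + |c₀| * (η * ‖e‖)) / (g / 2) + (2 * (‖G‖ * ‖x‖ * (η * ‖e‖))) / (g / 2 * g) =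
      2 * K' / g + η * (2 * |c₀| * ‖e‖ / g + 4 * ‖G‖ * ‖e‖ / g ^ 2 * ‖x‖) := by
    field_simp
    ring
  have t4 : η * (2 * |c₀| * ‖e‖ / g + 4 * ‖G‖ * ‖e‖ / g ^ 2 * ‖x‖) ≤ κ * (1 + ‖x‖) := by
    have h1 : 2 * |c₀| * ‖e‖ / g + 4 * ‖G‖ * ‖e‖ / g ^ 2 * ‖x‖ ≤ (C + 1) * (1 + ‖x‖) := by
      have hx := norm_nonneg x
      have h2 : 0 ≤ 2 * |c₀| * ‖e‖ / g := by positivity
      have h3 : 0 ≤ 4 * ‖G‖ * ‖e‖ / g ^ 2 := by positivity
      rw [hC]
      nlinarith [mul_nonneg h2 hx]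
    calc η * (2 * |c₀| * ‖e‖ / g + 4 * ‖G‖ * ‖e‖ / g ^ 2 * ‖x‖)
        ≤ η * ((C + 1) * (1 + ‖x‖)) := mul_le_mul_of_nonneg_left h1 hη0
      _ = (η * (C + 1)) * (1 + ‖x‖) := by ring
      _ ≤ κ * (1 + ‖x‖) := mul_le_mul_of_nonneg_right hηκ (by positivity)
  calc |((Z.2 - c₀ * g) - c₀ * u) / z + ((inner ℝ G x : ℝ) * u - s * g) / (z * g)|
      ≤ |((Z.2 - c₀ * g) - c₀ * u) / z| + |((inner ℝ G x : ℝ) * u - s * g) / (z * g)| :=
        abs_add_le _ _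
    _ ≤ (K' + |c₀| * (η * ‖e‖)) / (g / 2) + (2 * (‖G‖ * ‖x‖ * (η * ‖e‖))) / (g / 2 * g) :=
        add_le_add t1 t2
    _ ≤ 2 * K' / g + κ * (1 + ‖x‖) := by rw [t3]; linarith

variable {ι : Type} [DecidableEq ι]

/-- the error estimate for all planes of an end -/
theorem raw (E : EndD ι) (posG : ∀ i ∈ E.J, 0 < (inner ℝ (E.G i) E.e : ℝ))
    (posA : 0 < (inner ℝ E.nA E.e : ℝ)) (posB : 0 < (inner ℝ E.nB E.e : ℝ))
    (κ : ℝ) (hκ : 0 < κ) (K : ℝ) :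
    ∃ D : ℝ, 0 ≤ D ∧ ∀ c₀ : ℝ, ∃ η : ℝ, 0 < η ∧ ∀ (Z : ι → Aff) (A B : Aff),
      E.Close K c₀ η Z A B →
      ((∀ i ∈ E.J, 0 < (inner ℝ (Z i).1 E.e : ℝ)) ∧ 0 < (inner ℝ A.1 E.e : ℝ) ∧
        0 < (inner ℝ B.1 E.e : ℝ)) ∧
      ∀ x : E3, (∀ i ∈ E.J, |tz E.e (Z i) x - th E.e (E.G i) x| ≤ D + κ * ‖x‖) ∧
        |tz E.e A x - c₀ - th E.e E.nA x| ≤ D + κ * ‖x‖ ∧
        |tz E.e B x - c₀ - th E.e E.nB x| ≤ D + κ * ‖x‖ := by
  classical
  have hsum0 : ∀ i ∈ E.J, 0 ≤ 2 * |K| / inner ℝ (E.G i) E.e := by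
    intro i hi
    have := posG i hi
    positivity
  have hS : 0 ≤ ∑ i ∈ E.J, 2 * |K| / inner ℝ (E.G i) E.e := Finset.sum_nonneg hsum0
  refine ⟨(∑ i ∈ E.J, 2 * |K| / inner ℝ (E.G i) E.e) + κ + 1, by linarith, fun c₀ => ?_⟩
  obtain ⟨η1, h1, h1'⟩ := fin_min E.J (fun i η => ∀ Z : Aff, ‖Z.1 - E.G i‖ < η →
      0 < (inner ℝ Z.1 E.e : ℝ) ∧ ∀ K' : ℝ, |Z.2 - 0 * inner ℝ (E.G i) E.e| ≤ K' → ∀ x : E3,
        |tz E.e Z x - 0 - th E.e (E.G i) x| ≤ 2 * K' / inner ℝ (E.G i) E.e + κ * (1 + ‖x‖))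
    (fun i η η' hle h Z hZ => h Z (lt_of_lt_of_le hZ hle))
    (fun i hi => err E.e (E.G i) (posG i hi) 0 κ hκ)
  obtain ⟨η2, h2, h2'⟩ := err E.e E.nA posA c₀ κ hκ
  obtain ⟨η3, h3, h3'⟩ := err E.e E.nB posB c₀ κ hκ
  refine ⟨min (min η1 (min η2 η3)) (min (inner ℝ E.nA E.e / 2) (inner ℝ E.nB E.e / 2)),
    lt_min (lt_min h1 (lt_min h2 h3)) (lt_min (by linarith) (by linarith)), ?_⟩
  intro Z A B hZ
  obtain ⟨hJ, hA1, hA2, hB1, hB2⟩ := hZ
  have l1 : min (min η1 (min η2 η3)) (min ((inner ℝ E.nA E.e : ℝ) / 2) (inner ℝ E.nB E.e / 2)) ≤ η1 :=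
    (min_le_left _ _).trans (min_le_left _ _)
  have l2 : min (min η1 (min η2 η3)) (min ((inner ℝ E.nA E.e : ℝ) / 2) (inner ℝ E.nB E.e / 2)) ≤ η2 :=
    (min_le_left _ _).trans ((min_le_right _ _).trans (min_le_left _ _))
  have l3 : min (min η1 (min η2 η3)) (min ((inner ℝ E.nA E.e : ℝ) / 2) (inner ℝ E.nB E.e / 2)) ≤ η3 :=
    (min_le_left _ _).trans ((min_le_right _ _).trans (min_le_right _ _))
  have l4 : min (min η1 (min η2 η3)) (min ((inner ℝ E.nA E.e : ℝ) / 2) (inner ℝ E.nB E.e / 2)) ≤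
      (inner ℝ E.nA E.e : ℝ) / 2 := (min_le_right _ _).trans (min_le_left _ _)
  have l5 : min (min η1 (min η2 η3)) (min ((inner ℝ E.nA E.e : ℝ) / 2) (inner ℝ E.nB E.e / 2)) ≤
      (inner ℝ E.nB E.e : ℝ) / 2 := (min_le_right _ _).trans (min_le_right _ _)
  refine ⟨⟨fun i hi => (h1' i hi (Z i) (lt_of_lt_of_le (hJ i hi).1 l1)).1,
    (h2' A (lt_of_lt_of_le hA1 l2)).1, (h3' B (lt_of_lt_of_le hB1 l3)).1⟩, fun x => ⟨?_, ?_, ?_⟩⟩
  · intro i hi
    have h4 := (h1' i hi (Z i) (lt_of_lt_of_le (hJ i hi).1 l1)).2 |K| (by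
      rw [zero_mul, sub_zero]
      exact (hJ i hi).2.trans (le_abs_self K)) x
    rw [sub_zero] at h4
    have h5 : 2 * |K| / inner ℝ (E.G i) E.e ≤ ∑ i ∈ E.J, 2 * |K| / inner ℝ (E.G i) E.e :=
      Finset.single_le_sum hsum0 hi
    refine h4.trans ?_
    nlinarith
  · have h4 := (h2' A (lt_of_lt_of_le hA1 l2)).2 _ (hA2.le.trans l4) x
    have h5 : 2 * ((inner ℝ E.nA E.e : ℝ) / 2) / inner ℝ E.nA E.e = 1 := by
      field_simp
    rw [h5] at h4
    refine h4.trans ?_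
    nlinarith
  · have h4 := (h3' B (lt_of_lt_of_le hB1 l3)).2 _ (hB2.le.trans l5) x
    have h5 : 2 * ((inner ℝ E.nB E.e : ℝ) / 2) / inner ℝ E.nB E.e = 1 := by
      field_simp
    rw [h5] at h4
    refine h4.trans ?_
    nlinarith

/-- the margins at an end of type I -/
structure Mg (E : EndD ι) (ε δ m : ℝ) : Prop where
  new : ∀ i ∈ E.J, i ≠ E.iQ → ∀ c d : ℝ, 0 ≤ c → 0 ≤ d →
    m * ‖c • E.pu + d • E.pk‖ ≤
      th E.e (E.G i) (c • E.pu + d • E.pk) - th E.e (E.G E.iQ) (c • E.pu + d • E.pk)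
  out : ∀ i ∈ E.J, i ≠ E.iP → ∀ a c : ℝ, 0 ≤ c → ε * c ≤ a →
    m * ‖a • E.pt + c • E.pu‖ ≤ th E.e (E.G i) (a • E.pt + c • E.pu)
  outB : ∀ a c : ℝ, 0 ≤ c → ε * c ≤ a →
    m * ‖a • E.pt + c • E.pu‖ ≤ th E.e E.nB (a • E.pt + c • E.pu)
  oldAB : ∀ a c : ℝ, 0 ≤ a → 0 ≤ c → a ≤ δ * c →
    m * ‖a • E.pt + c • E.pu‖ ≤
      th E.e E.nB (a • E.pt + c • E.pu) - th E.e E.nA (a • E.pt + c • E.pu)
  newAB : ∀ c d : ℝ, 0 ≤ c → 0 ≤ d → (d ≤ 2 * ε * c ∨ ε * d ≤ c) →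
    m * ‖c • E.pu + d • E.pk‖ ≤
      th E.e E.nB (c • E.pu + d • E.pk) - th E.e E.nA (c • E.pu + d • E.pk)
  earQ : ∀ c d : ℝ, 0 ≤ c → ε * c ≤ d →
    m * ‖c • E.pu + d • E.pk‖ ≤ th E.e (E.G E.iQ) (c • E.pu + d • E.pk)

theorem neg_div_pos' {a b : ℝ} (ha : a < 0) (hb : 0 < b) : 0 < -a / b := div_pos (by linarith) hb

theorem exists_mg (E : EndD ι) {ε δ : ℝ} (h : E.Num ε δ) (hτ : E.τ < 0) :
    ∃ m : ℝ, 0 < m ∧ Mg E ε δ m := by
  classical
  have hθ : E.θ < 0 := h.θτ hτ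
  have hδ : 0 < δ := by have := h.eps; have := h.del; linarith
  have hε := h.eps
  -- new
  obtain ⟨m1, hm1, H1⟩ : ∃ m : ℝ, 0 < m ∧ ∀ i ∈ E.J, i ≠ E.iQ → ∀ c d : ℝ, 0 ≤ c → 0 ≤ d →
      m * ‖c • E.pu + d • E.pk‖ ≤
      th E.e (E.G i) (c • E.pu + d • E.pk) - th E.e (E.G E.iQ) (c • E.pu + d • E.pk) := by
    refine fin_min E.J (fun i m => i ≠ E.iQ → ∀ c d : ℝ, 0 ≤ c → 0 ≤ d →
      m * ‖c • E.pu + d • E.pk‖ ≤
      th E.e (E.G i) (c • E.pu + d • E.pk) - th E.e (E.G E.iQ) (c • E.pu + d • E.pk)) ?_ ?_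
    · intro i m m' hle hm hi c d hc hd
      exact (mul_le_mul_of_nonneg_right hle (norm_nonneg _)).trans (hm hi c d hc hd)
    · intro i hi
      by_cases hq : i = E.iQ
      · exact ⟨1, one_pos, fun hne => absurd hq hne⟩
      · obtain ⟨h2, h3⟩ := (h.t1' hτ).2 i hi hq
        obtain ⟨m, hm, hmm⟩ := marg E.pu E.pk (sub_pos.2 h2) (sub_pos.2 h3)
        refine ⟨m, hm, fun _ c d hc hd => (hmm c d hc hd).trans (le_of_eq ?_)⟩
        rw [th_lin, th_lin]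
        ring
  -- out
  obtain ⟨m2, hm2, H2⟩ : ∃ m : ℝ, 0 < m ∧ ∀ i ∈ E.J, i ≠ E.iP → ∀ a c : ℝ, 0 ≤ c → ε * c ≤ a →
      m * ‖a • E.pt + c • E.pu‖ ≤ th E.e (E.G i) (a • E.pt + c • E.pu) := by
    refine fin_min E.J (fun i m => i ≠ E.iP → ∀ a c : ℝ, 0 ≤ c → ε * c ≤ a →
      m * ‖a • E.pt + c • E.pu‖ ≤ th E.e (E.G i) (a • E.pt + c • E.pu)) ?_ ?_
    · intro i m m' hle hm hi c d hc hd
      exact (mul_le_mul_of_nonneg_right hle (norm_nonneg _)).trans (hm hi c d hc hd)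
    · intro i hi
      by_cases hq : i = E.iP
      · exact ⟨1, one_pos, fun hne => absurd hq hne⟩
      · obtain ⟨-, h2, h3, -⟩ := h.t1 hτ i hi hq
        have hg := h.posG i hi
        have e1 : 0 < th E.e (E.G i) E.pt := by
          unfold th; exact neg_div_pos' h2 hg
        have e2 : 0 < th E.e (E.G i) (ε • E.pt + (1 : ℝ) • E.pu) := by
          unfold th
          rw [inner_add_right, inner_smul_right, inner_smul_right, one_mul]
          exact neg_div_pos' h3 hg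
        obtain ⟨m, hm, hmm⟩ := marg E.pt (ε • E.pt + (1 : ℝ) • E.pu) e1 e2
        refine ⟨m, hm, fun _ a c hc ha => ?_⟩
        have h4 := hmm (a - ε * c) c (by linarith) hc
        have h5 : (a - ε * c) • E.pt + c • (ε • E.pt + (1 : ℝ) • E.pu) = a • E.pt + c • E.pu := by
          module
        rw [h5] at h4
        refine h4.trans (le_of_eq ?_)
        rw [th_lin, th_lin]
        ring
  -- outB
  obtain ⟨m3, hm3, H3⟩ : ∃ m : ℝ, 0 < m ∧ ∀ a c : ℝ, 0 ≤ c → ε * c ≤ a →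
      m * ‖a • E.pt + c • E.pu‖ ≤ th E.e E.nB (a • E.pt + c • E.pu) := by
    have e1 : 0 < th E.e E.nB E.pt := by
      unfold th; rw [h.Bt]; exact neg_div_pos' hθ h.posB
    have e2 : 0 < th E.e E.nB (ε • E.pt + (1 : ℝ) • E.pu) := by
      unfold th
      rw [inner_add_right, inner_smul_right, inner_smul_right, one_mul, h.Bt, h.Bu, add_zero]
      exact neg_div_pos' (mul_neg_of_pos_of_neg hε hθ) h.posB
    obtain ⟨m, hm, hmm⟩ := marg E.pt (ε • E.pt + (1 : ℝ) • E.pu) e1 e2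
    refine ⟨m, hm, fun a c hc ha => ?_⟩
    have h4 := hmm (a - ε * c) c (by linarith) hc
    have h5 : (a - ε * c) • E.pt + c • (ε • E.pt + (1 : ℝ) • E.pu) = a • E.pt + c • E.pu := by
      module
    rw [h5] at h4
    refine h4.trans (le_of_eq ?_)
    rw [th_lin, th_lin]
    ring
  -- at pu
  have hpu : 0 < th E.e E.nB E.pu - th E.e E.nA E.pu := by
    unfold th
    rw [h.Bu, neg_zero, zero_div, zero_sub, neg_div, neg_neg]
    exact div_pos h.Au h.posA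
  -- oldAB
  obtain ⟨m4, hm4, H4⟩ : ∃ m : ℝ, 0 < m ∧ ∀ a c : ℝ, 0 ≤ a → 0 ≤ c → a ≤ δ * c →
      m * ‖a • E.pt + c • E.pu‖ ≤
      th E.e E.nB (a • E.pt + c • E.pu) - th E.e E.nA (a • E.pt + c • E.pu) := by
    obtain ⟨m, hm, hmm⟩ := marg (E.pu + δ • E.pt) E.pu (sub_pos.2 h.AB) hpu
    refine ⟨m, hm, fun a c ha hc hac => ?_⟩
    have h4 := hmm (a / δ) (c - a / δ) (by positivity) (by
      rw [sub_nonneg, div_le_iff₀ hδ]; linarith)
    have h6 : a / δ * δ = a := by field_simp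
    have h5 : (a / δ) • (E.pu + δ • E.pt) + (c - a / δ) • E.pu = a • E.pt + c • E.pu := by
      rw [smul_add, smul_smul, h6]
      module
    rw [h5] at h4
    refine h4.trans (le_of_eq ?_)
    have h7 : E.pu + δ • E.pt = δ • E.pt + (1 : ℝ) • E.pu := by module
    rw [h7, th_lin, th_lin, th_lin, th_lin]
    linear_combination (th E.e E.nB E.pt - th E.e E.nA E.pt) * h6
  -- newAB
  obtain ⟨m5, hm5, H5⟩ : ∃ m : ℝ, 0 < m ∧ ∀ c d : ℝ, 0 ≤ c → 0 ≤ d →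
      (d ≤ 2 * ε * c ∨ ε * d ≤ c) → m * ‖c • E.pu + d • E.pk‖ ≤
      th E.e E.nB (c • E.pu + d • E.pk) - th E.e E.nA (c • E.pu + d • E.pk) := by
    set L : ℝ := 2 * ε + 1 / ε with hL
    have hL0 : 0 < L := by positivity
    have e2 : 0 < th E.e E.nB (L • E.pk + (1 : ℝ) • E.pu) -
        th E.e E.nA (L • E.pk + (1 : ℝ) • E.pu) := by
      rw [th_lin, th_lin]
      have e3 : th E.e E.nB E.pk = 0 := by unfold th; rw [h.Bk]; simp
      have e4 : th E.e E.nA E.pk = 0 := by unfold th; rw [h.Ak]; simp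
      rw [e3, e4]
      linarith
    obtain ⟨m, hm, hmm⟩ := marg (L • E.pk + (1 : ℝ) • E.pu) E.pu e2 hpu
    refine ⟨m, hm, fun c d hc hd hcd => ?_⟩
    have hdL : d ≤ L * c := by
      rcases hcd with h1 | h1
      · have : 0 ≤ 1 / ε * c := by positivity
        rw [hL, add_mul]; linarith
      · have h2 : d ≤ 1 / ε * c := by
          rw [one_div, ← div_eq_inv_mul, le_div_iff₀ hε]; linarith
        have : 0 ≤ 2 * ε * c := by positivity
        rw [hL, add_mul]; linarith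
    have h4 := hmm (d / L) (c - d / L) (by positivity) (by
      rw [sub_nonneg, div_le_iff₀ hL0]; linarith)
    have h6 : d / L * L = d := by field_simp
    have h5 : (d / L) • (L • E.pk + (1 : ℝ) • E.pu) + (c - d / L) • E.pu =
        c • E.pu + d • E.pk := by
      rw [smul_add, smul_smul, h6]
      module
    rw [h5] at h4
    refine h4.trans (le_of_eq ?_)
    rw [th_lin, th_lin, th_lin, th_lin]
    linear_combination (th E.e E.nB E.pk - th E.e E.nA E.pk) * h6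
  -- earQ
  obtain ⟨m6, hm6, H6⟩ : ∃ m : ℝ, 0 < m ∧ ∀ c d : ℝ, 0 ≤ c → ε * c ≤ d →
      m * ‖c • E.pu + d • E.pk‖ ≤ th E.e (E.G E.iQ) (c • E.pu + d • E.pk) := by
    obtain ⟨-, -, -, h3⟩ := h.t1 hτ E.iQ h.memQ h.PQ.symm
    have hg := h.posG E.iQ h.memQ
    have e1 : 0 < th E.e (E.G E.iQ) E.pk := by
      unfold th; exact neg_div_pos' h.Qk hg
    have e2 : 0 < th E.e (E.G E.iQ) (ε • E.pk + (1 : ℝ) • E.pu) := by
      unfold th
      rw [inner_add_right, inner_smul_right, inner_smul_right, one_mul]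
      exact neg_div_pos' h3 hg
    obtain ⟨m, hm, hmm⟩ := marg E.pk (ε • E.pk + (1 : ℝ) • E.pu) e1 e2
    refine ⟨m, hm, fun c d hc hd => ?_⟩
    have h4 := hmm (d - ε * c) c (by linarith) hc
    have h5 : (d - ε * c) • E.pk + c • (ε • E.pk + (1 : ℝ) • E.pu) = c • E.pu + d • E.pk := by
      module
    rw [h5] at h4
    refine h4.trans (le_of_eq ?_)
    rw [th_lin, th_lin]
    ring
  refine ⟨min (min m1 (min m2 m3)) (min m4 (min m5 m6)),
    lt_min (lt_min hm1 (lt_min hm2 hm3)) (lt_min hm4 (lt_min hm5 hm6)), ?_⟩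
  have l1 : min (min m1 (min m2 m3)) (min m4 (min m5 m6)) ≤ m1 :=
    (min_le_left _ _).trans (min_le_left _ _)
  have l2 : min (min m1 (min m2 m3)) (min m4 (min m5 m6)) ≤ m2 :=
    (min_le_left _ _).trans ((min_le_right _ _).trans (min_le_left _ _))
  have l3 : min (min m1 (min m2 m3)) (min m4 (min m5 m6)) ≤ m3 :=
    (min_le_left _ _).trans ((min_le_right _ _).trans (min_le_right _ _))
  have l4 : min (min m1 (min m2 m3)) (min m4 (min m5 m6)) ≤ m4 :=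
    (min_le_right _ _).trans (min_le_left _ _)
  have l5 : min (min m1 (min m2 m3)) (min m4 (min m5 m6)) ≤ m5 :=
    (min_le_right _ _).trans ((min_le_right _ _).trans (min_le_left _ _))
  have l6 : min (min m1 (min m2 m3)) (min m4 (min m5 m6)) ≤ m6 :=
    (min_le_right _ _).trans ((min_le_right _ _).trans (min_le_right _ _))
  refine ⟨?_, ?_, ?_, ?_, ?_, ?_⟩
  · intro i hi hq c d hc hd
    exact (mul_le_mul_of_nonneg_right l1 (norm_nonneg _)).trans (H1 i hi hq c d hc hd)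
  · intro i hi hq a c hc ha
    exact (mul_le_mul_of_nonneg_right l2 (norm_nonneg _)).trans (H2 i hi hq a c hc ha)
  · intro a c hc ha
    exact (mul_le_mul_of_nonneg_right l3 (norm_nonneg _)).trans (H3 a c hc ha)
  · intro a c ha hc hac
    exact (mul_le_mul_of_nonneg_right l4 (norm_nonneg _)).trans (H4 a c ha hc hac)
  · intro c d hc hd hcd
    exact (mul_le_mul_of_nonneg_right l5 (norm_nonneg _)).trans (H5 c d hc hd hcd)
  · intro c d hc hd
    exact (mul_le_mul_of_nonneg_right l6 (norm_nonneg _)).trans (H6 c d hc hd)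

theorem thP_old (E : EndD ι) {ε δ : ℝ} (h : E.Num ε δ) (a c : ℝ) :
    th E.e (E.G E.iP) (a • E.pt + c • E.pu) = 0 := by
  rw [th_lin]
  unfold th
  rw [h.Pt, h.Pu]
  simp

theorem thB_new (E : EndD ι) {ε δ : ℝ} (h : E.Num ε δ) (c d : ℝ) :
    th E.e E.nB (c • E.pu + d • E.pk) = 0 := by
  rw [th_lin]
  unfold th
  rw [h.Bk, h.Bu]
  simp

theorem thB_old (E : EndD ι) {ε δ : ℝ} (h : E.Num ε δ) (hθ : E.θ < 0) (a c : ℝ) (ha : 0 ≤ a) :
    0 ≤ th E.e E.nB (a • E.pt + c • E.pu) := by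
  rw [th_lin]
  unfold th
  rw [h.Bt, h.Bu, neg_zero, zero_div, mul_zero, add_zero]
  exact mul_nonneg ha (div_nonneg (by linarith) h.posB.le)

theorem thA_new (E : EndD ι) {ε δ : ℝ} (h : E.Num ε δ) (c d : ℝ) (hc : 0 ≤ c) :
    th E.e E.nA (c • E.pu + d • E.pk) ≤ 0 := by
  rw [th_lin]
  unfold th
  rw [h.Ak, neg_zero, zero_div, mul_zero, add_zero]
  have h1 : -(inner ℝ E.nA E.pu : ℝ) / inner ℝ E.nA E.e ≤ 0 :=
    div_nonpos_of_nonpos_of_nonneg (by have := h.Au; linarith) h.posA.le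
  exact mul_nonpos_of_nonneg_of_nonpos hc h1

theorem main (E : EndD ι) (ε δ : ℝ) (h : E.Num ε δ) (hτ : E.τ < 0) (κ₁ : ℝ) (hκ₁ : 0 < κ₁)
    (K : ℝ) : ∃ R₁ : ℝ, 0 < R₁ ∧ ∀ R₂ : ℝ, ∃ cm : ℝ, ∀ c₀ : ℝ, cm ≤ c₀ →
    ∃ η R₃ M : ℝ, 0 < η ∧ ∀ (Z : ι → Aff) (A B : Aff), E.Close K c₀ η Z A B →
    E.TSpec ε δ κ₁ R₁ R₂ R₃ M Z A B := by
  classical
  have hθ : E.θ < 0 := h.θτ hτ
  have hε := h.eps
  have hδ2 := h.del
  obtain ⟨m, hm, Hm⟩ := exists_mg E h hτ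
  set κ : ℝ := min κ₁ (m / 4) / 2 with hκdef
  have hκ : 0 < κ := by
    have : 0 < min κ₁ (m / 4) := lt_min hκ₁ (by linarith)
    positivity
  have hκ1 : 2 * κ ≤ κ₁ := by
    have := min_le_left κ₁ (m / 4)
    rw [hκdef]; linarith
  have hκm : 2 * κ ≤ m / 4 := by
    have := min_le_right κ₁ (m / 4)
    rw [hκdef]; linarith
  obtain ⟨D, hD, HD⟩ := raw E h.posG h.posA h.posB κ hκ K
  refine ⟨D / κ + 1, by positivity, fun R₂ => ?_⟩
  have gP := h.posG E.iP h.memP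
  set CP : ℝ := ‖E.G E.iP‖ / inner ℝ (E.G E.iP) E.e with hCP
  have hCP0 : 0 ≤ CP := by positivity
  refine ⟨(CP + 4 * κ) * |R₂|, fun c₀ hc₀ => ?_⟩
  have hc0 : 0 ≤ c₀ := le_trans (by positivity) hc₀
  obtain ⟨η, hη, Hη⟩ := HD c₀
  -- the bound on the exact linear functions
  obtain ⟨C, hC0, hC⟩ : ∃ C : ℝ, 0 < C ∧ ∀ i ∈ E.J, ∀ x : E3, |th E.e (E.G i) x| ≤ C * ‖x‖ := by
    have h1 : ∃ η : ℝ, 0 < η ∧ ∀ i ∈ E.J, ∀ x : E3, η * |th E.e (E.G i) x| ≤ ‖x‖ := by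
      refine fin_min E.J (fun i η => ∀ x : E3, η * |th E.e (E.G i) x| ≤ ‖x‖) ?_ ?_
      · intro i η η' hle hh x
        exact (mul_le_mul_of_nonneg_right hle (abs_nonneg _)).trans (hh x)
      · intro i hi
        have g1 := h.posG i hi
        have h3 : 0 < ‖E.G i‖ / inner ℝ (E.G i) E.e + 1 := by positivity
        refine ⟨1 / (‖E.G i‖ / inner ℝ (E.G i) E.e + 1), by positivity, fun x => ?_⟩
        rw [one_div, ← div_eq_inv_mul, div_le_iff₀ h3]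
        have := abs_th_le E.e (E.G i) x g1
        nlinarith [norm_nonneg x]
    obtain ⟨s, hs, hs'⟩ := h1
    refine ⟨1 / s, by positivity, fun i hi x => ?_⟩
    rw [one_div, ← div_eq_inv_mul, le_div_iff₀ hs, mul_comm]
    exact hs' i hi x
  set CA : ℝ := ‖E.nA‖ / inner ℝ E.nA E.e with hCA
  set CB : ℝ := ‖E.nB‖ / inner ℝ E.nB E.e with hCB
  have hCA0 : 0 ≤ CA := div_nonneg (norm_nonneg _) h.posA.le
  have hCB0 : 0 ≤ CB := div_nonneg (norm_nonneg _) h.posB.le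
  refine ⟨η, max (D / κ + 1) (2 * c₀ / m), c₀ + D + κ + C + CA + CB, hη, fun Z A B hZ => ?_⟩
  obtain ⟨hpos, hx⟩ := Hη Z A B hZ
  -- the error estimate for large x
  have herr : ∀ x : E3, D / κ + 1 ≤ ‖x‖ → D + κ * ‖x‖ ≤ 2 * κ * ‖x‖ := by
    intro x hR
    have h1 : D ≤ κ * ‖x‖ := by
      have h2 : D / κ ≤ ‖x‖ := by linarith
      rw [div_le_iff₀ hκ] at h2
      linarith
    linarith
  have eG : ∀ x : E3, D / κ + 1 ≤ ‖x‖ → ∀ i ∈ E.J,
      |tz E.e (Z i) x - th E.e (E.G i) x| ≤ 2 * κ * ‖x‖ :=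
    fun x hR i hi => ((hx x).1 i hi).trans (herr x hR)
  have eA : ∀ x : E3, D / κ + 1 ≤ ‖x‖ →
      |tz E.e A x - c₀ - th E.e E.nA x| ≤ 2 * κ * ‖x‖ :=
    fun x hR => (hx x).2.1.trans (herr x hR)
  have eB : ∀ x : E3, D / κ + 1 ≤ ‖x‖ →
      |tz E.e B x - c₀ - th E.e E.nB x| ≤ 2 * κ * ‖x‖ :=
    fun x hR => (hx x).2.2.trans (herr x hR)
  have hkm : ∀ x : E3, 2 * κ * ‖x‖ ≤ m / 4 * ‖x‖ :=
    fun x => mul_le_mul_of_nonneg_right hκm (norm_nonneg _)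
  have hmx : ∀ x : E3, 0 ≤ m * ‖x‖ := fun x => mul_nonneg hm.le (norm_nonneg _)
  have tN_eq : ∀ x, E.tN Z A B x = min (E.mn Z E.J x) (E.ab A B x) := by
    intro x; unfold EndD.tN; rw [if_pos hτ]
  have tO_eq : ∀ x, E.tO Z x = E.mn Z E.J x := by
    intro x; unfold EndD.tO; rw [if_pos hτ]
  have hBab : ∀ x, tz E.e B x ≤ E.ab A B x := fun x => le_max_right _ _
  -- T_Q is the least time on the ear face
  have hQ : ∀ c d : ℝ, 0 ≤ c → 0 ≤ d → ∀ x : E3, x = c • E.pu + d • E.pk → D / κ + 1 ≤ ‖x‖ →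
      E.mn Z E.J x = tz E.e (Z E.iQ) x := by
    intro c d hc hd x hxe hR
    apply le_antisymm (E.mn_le_tz Z _ x _ h.memQ)
    rw [E.le_mn_iff]
    refine ⟨le_rfl, fun i hi => ?_⟩
    by_cases hq : i = E.iQ
    · rw [hq]
    · have h1 := Hm.new i hi hq c d hc hd
      rw [← hxe] at h1
      have h2 := abs_le.1 (eG x hR i hi)
      have h3 := abs_le.1 (eG x hR E.iQ h.memQ)
      have h4 := hkm x
      have h5 := hmx x
      linarith [h2.1, h2.2, h3.1, h3.2]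
  -- the time of B on both faces
  have hBlow : ∀ x ∈ E.Old δ ∪ E.NewF, D / κ + 1 ≤ ‖x‖ → c₀ - 2 * κ * ‖x‖ ≤ tz E.e B x := by
    intro x hx' hR
    have h2 := abs_le.1 (eB x hR)
    rcases hx' with ⟨a, c, ha, hc, hac, hxe⟩ | ⟨c, d, hc, hd, hxe⟩
    · have h1 := thB_old E h hθ a c ha
      rw [← hxe] at h1
      linarith [h2.1]
    · have h1 := thB_new E h c d
      rw [← hxe] at h1
      linarith [h2.1]
  refine ⟨hpos, ?_, ?_, ?_, ?_, ?_, ?_, ?_, ?_, ?_⟩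
  · -- diag
    intro c d hc hcd x hxe hR
    rw [tN_eq, hQ c d hc (hc.trans hcd) x hxe hR]
    rfl
  · -- outer
    intro a c hc hca hac x hxe hR
    have h4 := hkm x
    have h5 := hmx x
    have h0 := thP_old E h a c
    rw [← hxe] at h0
    have hPe := abs_le.1 (eG x hR E.iP h.memP)
    have hmn : E.mn Z E.J x = tz E.e (Z E.iP) x := by
      apply le_antisymm (E.mn_le_tz Z _ x _ h.memP)
      have hall : ∀ i ∈ E.J, tz E.e (Z E.iP) x ≤ tz E.e (Z i) x := by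
        intro i hi
        by_cases hp : i = E.iP
        · rw [hp]
        · have h1 := Hm.out i hi hp a c hc hca
          rw [← hxe] at h1
          have h2 := abs_le.1 (eG x hR i hi)
          linarith [h2.1, h2.2, hPe.1, hPe.2]
      rw [E.le_mn_iff]
      exact ⟨hall E.iQ h.memQ, hall⟩
    refine ⟨?_, ?_⟩
    · rw [tN_eq, hmn]
      apply min_eq_left
      refine le_trans ?_ (hBab x)
      have h1 := Hm.outB a c hc hca
      rw [← hxe] at h1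
      have h2 := abs_le.1 (eB x hR)
      linarith [h2.1, h2.2, hPe.1, hPe.2]
    · rw [tO_eq, hmn]
  · -- near
    intro x hx' hR hR2
    rw [tN_eq, tO_eq]
    apply min_eq_left
    refine (E.mn_le_tz Z _ x _ h.memP).trans (le_trans ?_ (hBab x))
    have h1 := hBlow x hx' hR
    have h2 := abs_le.1 (eG x hR E.iP h.memP)
    have h3 := abs_le.1 (abs_th_le E.e (E.G E.iP) x gP)
    have h4 : ‖x‖ ≤ |R₂| := hR2.trans (le_abs_self _)
    have h5 : (CP + 4 * κ) * ‖x‖ ≤ (CP + 4 * κ) * |R₂| :=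
      mul_le_mul_of_nonneg_left h4 (by positivity)
    rw [← hCP] at h3
    linarith [h2.2, h3.2]
  · -- arm1
    intro _ x hx' hR
    have hR1 : D / κ + 1 ≤ ‖x‖ := (le_max_left _ _).trans hR
    rw [tN_eq]
    congr 1
    apply max_eq_right
    have h4 := hkm x
    have h5 := hmx x
    have hA := abs_le.1 (eA x hR1)
    have hB := abs_le.1 (eB x hR1)
    rcases hx' with ⟨a, c, ha, hc, hac, hxe⟩ | ⟨c, d, hc, hd, hdc, hxe⟩
    · have h1 := Hm.oldAB a c ha hc (hac.trans (mul_le_mul_of_nonneg_right hδ2 hc))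
      rw [← hxe] at h1
      linarith [hA.1, hA.2, hB.1, hB.2]
    · have h1 := Hm.newAB c d hc hd (Or.inl hdc)
      rw [← hxe] at h1
      linarith [hA.1, hA.2, hB.1, hB.2]
  · -- arm2
    intro h0 _
    exact absurd h0 (not_lt.2 hτ.le)
  · -- arm3
    intro h0
    exact absurd h0 (not_lt.2 hθ.le)
  · -- ear
    intro c d hc hd hcd x hxe hR
    have hR1 : D / κ + 1 ≤ ‖x‖ := (le_max_left _ _).trans hR
    have hR3 : 2 * c₀ / m ≤ ‖x‖ := (le_max_right _ _).trans hR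
    have h6 : 2 * c₀ ≤ m * ‖x‖ := by
      rw [div_le_iff₀ hm] at hR3; linarith
    have h4 := hkm x
    have h5 := hmx x
    have hA := abs_le.1 (eA x hR1)
    have hB := abs_le.1 (eB x hR1)
    have hQe := abs_le.1 (eG x hR1 E.iQ h.memQ)
    have h1 := Hm.earQ c d hc hcd
    rw [← hxe] at h1
    have hA0 := thA_new E h c d hc
    have hB0 := thB_new E h c d
    rw [← hxe] at hA0 hB0
    have hab : E.tN Z A B x = E.ab A B x := by
      rw [tN_eq, hQ c d hc hd x hxe hR1]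
      apply min_eq_right
      apply max_le
      · linarith [hA.1, hA.2, hQe.1, hQe.2]
      · linarith [hB.1, hB.2, hQe.1, hQe.2]
    refine ⟨hab, fun hdc => ?_⟩
    rw [hab]
    apply max_eq_right
    have h7 := Hm.newAB c d hc hd (Or.inr hdc)
    rw [← hxe] at h7
    linarith [hA.1, hA.2, hB.1, hB.2]
  · -- le
    intro x hx' hR
    have h1 : E.tN Z A B x ≤ E.mn Z E.J x := by rw [tN_eq]; exact min_le_left _ _
    refine ⟨by rw [tO_eq]; exact h1, ?_, fun _ => h1.trans (E.mn_le_tz Z _ x _ h.memP),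
      fun h0 => absurd h0 (not_lt.2 hθ.le)⟩
    rcases le_total (E.mn Z E.J x) (E.ab A B x) with h2 | h2
    · left
      rw [tN_eq, tO_eq, min_eq_left h2]
    · right
      rw [tN_eq, min_eq_right h2]
      refine le_trans ?_ (hBab x)
      have h3 := hBlow x hx' hR
      have h4 : 2 * κ * ‖x‖ ≤ κ₁ * ‖x‖ := mul_le_mul_of_nonneg_right hκ1 (norm_nonneg _)
      linarith
  · -- bound
    intro x
    have hx0 := norm_nonneg x
    have b1 : ∀ i ∈ E.J, |tz E.e (Z i) x| ≤ (c₀ + D + κ + C + CA + CB) * (1 + ‖x‖) := by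
      intro i hi
      have h1 := (hx x).1 i hi
      have h2 := hC i hi x
      have h3 : |tz E.e (Z i) x| ≤ |tz E.e (Z i) x - th E.e (E.G i) x| + |th E.e (E.G i) x| := by
        have := abs_add_le (tz E.e (Z i) x - th E.e (E.G i) x) (th E.e (E.G i) x)
        rwa [sub_add_cancel] at this
      nlinarith [mul_nonneg hc0 hx0, mul_nonneg hD hx0, mul_nonneg hCA0 hx0,
        mul_nonneg hCB0 hx0]
    have bA : |tz E.e A x| ≤ (c₀ + D + κ + C + CA + CB) * (1 + ‖x‖) := by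
      have h1 := (hx x).2.1
      have h2 := abs_th_le E.e E.nA x h.posA
      rw [← hCA] at h2
      have h3 : |tz E.e A x| ≤ |tz E.e A x - c₀ - th E.e E.nA x| + (|th E.e E.nA x| + c₀) := by
        have := abs_add_le (tz E.e A x - c₀ - th E.e E.nA x) (th E.e E.nA x + c₀)
        have h4 : |th E.e E.nA x + c₀| ≤ |th E.e E.nA x| + c₀ := by
          have := abs_add_le (th E.e E.nA x) c₀
          rwa [abs_of_nonneg hc0] at this
        have h5 : tz E.e A x - c₀ - th E.e E.nA x + (th E.e E.nA x + c₀) = tz E.e A x := by ring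
        rw [h5] at this
        linarith
      nlinarith [mul_nonneg hc0 hx0, mul_nonneg hD hx0, mul_nonneg hC0.le hx0,
        mul_nonneg hCB0 hx0]
    have bB : |tz E.e B x| ≤ (c₀ + D + κ + C + CA + CB) * (1 + ‖x‖) := by
      have h1 := (hx x).2.2
      have h2 := abs_th_le E.e E.nB x h.posB
      rw [← hCB] at h2
      have h3 : |tz E.e B x| ≤ |tz E.e B x - c₀ - th E.e E.nB x| + (|th E.e E.nB x| + c₀) := by
        have := abs_add_le (tz E.e B x - c₀ - th E.e E.nB x) (th E.e E.nB x + c₀)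
        have h4 : |th E.e E.nB x + c₀| ≤ |th E.e E.nB x| + c₀ := by
          have := abs_add_le (th E.e E.nB x) c₀
          rwa [abs_of_nonneg hc0] at this
        have h5 : tz E.e B x - c₀ - th E.e E.nB x + (th E.e E.nB x + c₀) = tz E.e B x := by ring
        rw [h5] at this
        linarith
      nlinarith [mul_nonneg hc0 hx0, mul_nonneg hD hx0, mul_nonneg hC0.le hx0,
        mul_nonneg hCA0 hx0]
    obtain ⟨i, hi, hmn⟩ := E.exists_mn Z E.J x h.memQ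
    rw [tN_eq, hmn]
    have c1 := abs_le.1 (b1 i hi)
    have c2 := abs_le.1 bA
    have c3 := abs_le.1 bB
    rw [abs_le]
    constructor
    · apply le_min c1.1
      exact c3.1.trans (hBab x)
    · exact (min_le_left _ _).trans c1.2

end ENT1_

theorem ent1_proof : Stmt_Ent1 := by
  intro ι _ E ε δ h hτ κ₁ hκ₁ K
  exact ENT1_.main E ε δ h hτ κ₁ hκ₁ K

end Pool.Agent.TSM
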