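import Pool.Agent.TSM.VBase2
import Pool.Agent.TSM.FGER
import Pool.Agent.TSM.ENG2
import Pool.Agent.TSM.ENT1

/-!
# TSM, ENG1: germs at an end of type I
-/

set_option autoImplicit false

namespace Pool.Agent.TSM

open Set Filter Topology Metric

namespace ENG1_

/-- the shape of the surface near a point where at most two planes are active (minimum of times) -/
theorem g3_min {a b c : Aff} {e : E3} (ha : 0 < (inner ℝ a.1 e : ℝ))
    (hc : 0 < (inner ℝ c.1 e : ℝ)) (y : E3)
    (hb : 0 ≤ ev b (y + min (tz e a y) (tz e c y) • e)) :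
    G3 a b c (y + min (tz e a y) (tz e c y) • e) = 0 := by
  unfold G3
  have h1 : ev a (y + min (tz e a y) (tz e c y) • e) ≤ 0 := by
    rw [ev_line ha.ne']
    exact mul_nonpos_of_nonneg_of_nonpos ha.le (by linarith [min_le_left (tz e a y) (tz e c y)])
  have h2 : ev c (y + min (tz e a y) (tz e c y) • e) ≤ 0 := by
    rw [ev_line hc.ne']
    exact mul_nonpos_of_nonneg_of_nonpos hc.le (by linarith [min_le_right (tz e a y) (tz e c y)])
  rw [min_eq_left (h1.trans hb)]
  rcases le_total (tz e a y) (tz e c y) with h | h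
  · have h3 : ev a (y + min (tz e a y) (tz e c y) • e) = 0 := by
      rw [ev_line ha.ne', min_eq_left h, sub_self, mul_zero]
    rw [h3]
    exact max_eq_left h2
  · have h3 : ev c (y + min (tz e a y) (tz e c y) • e) = 0 := by
      rw [ev_line hc.ne', min_eq_right h, sub_self, mul_zero]
    rw [h3]
    exact max_eq_right h1

end ENG1_

open ENG1_ ENG2_ in
theorem eng1_proof : Stmt_Eng1 := by
  intro ι _ E ε δ hN hτ K
  have hθ : E.θ < 0 := hN.θτ hτ
  have hposP := hN.posG E.iP hN.memP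
  have hposQ := hN.posG E.iQ hN.memQ
  have hposB := hN.posB
  obtain ⟨m1, hm1, hmg⟩ := ENT1_.exists_mg E hN hτ
  have hp : 0 < th E.e E.nB E.pt - th E.e (E.G E.iQ) E.pt := by
    linarith [(hN.t1' hτ).1]
  have hq : 0 < th E.e E.nB E.pu - th E.e (E.G E.iQ) E.pu := by
    unfold th
    rw [hN.Bu, neg_zero, zero_div, zero_sub, neg_div, neg_neg]
    exact div_pos (hN.t1 hτ E.iQ hN.memQ hN.PQ.symm).1 hposQ
  obtain ⟨m2, hm2, hold⟩ := ENT1_.marg E.pt E.pu hp hq
  obtain ⟨R, η1, hR, hη1, hthree⟩ := three E hN K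
  set m : ℝ := min m1 m2 with hm
  have hm0 : 0 < m := lt_min hm1 hm2
  obtain ⟨D, hD, hraw⟩ := ENT1_.raw E hN.posG hN.posA hN.posB (m / 4) (by positivity) K
  set FP : ℝ := 1 + ‖E.G E.iP‖ * ‖E.e‖ / inner ℝ (E.G E.iP) E.e with hFP
  have hFP0 : 0 < FP := by
    rw [hFP]
    have : 0 ≤ ‖E.G E.iP‖ * ‖E.e‖ / inner ℝ (E.G E.iP) E.e := by positivity
    linarith
  refine ⟨1 + FP * R + 4 * D / m, by positivity, 0, ?_⟩
  intro c₀ hc₀
  obtain ⟨ηr, hηr, hr⟩ := hraw c₀
  obtain ⟨η3, hη3, hdet⟩ := common (E.J ×ˢ E.J)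
    (fun q η => q.1 ≠ q.2 → ∀ u' v' w' : E3, ‖u' - E.nB‖ < η → ‖v' - E.G q.1‖ < η →
      ‖w' - E.G q.2‖ < η → det3 u' v' w' ≠ 0)
    (fun q _ a b hab h h1 u v w hu hv hw => h h1 u v w (hu.trans_le hab) (hv.trans_le hab)
      (hw.trans_le hab))
    (by
      intro q hq
      rw [Finset.mem_product] at hq
      by_cases h1 : q.1 ≠ q.2
      · obtain ⟨η, h2, h3⟩ := det_pert (hN.indB q.1 hq.1 q.2 hq.2 h1)
        exact ⟨η, h2, fun _ => h3⟩
      · exact ⟨1, one_pos, fun h => absurd h h1⟩)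
  obtain ⟨η4, hη4, hdetM⟩ := det_pert hN.indM
  set η : ℝ := min η1 (min ηr (min η3 η4)) with hη
  have l1 : η ≤ η1 := min_le_left _ _
  have l2 : η ≤ ηr := (min_le_right _ _).trans (min_le_left _ _)
  have l3 : η ≤ η3 := (min_le_right _ _).trans ((min_le_right _ _).trans (min_le_left _ _))
  have l4 : η ≤ η4 := (min_le_right _ _).trans ((min_le_right _ _).trans (min_le_right _ _))
  refine ⟨η, by positivity, ?_⟩
  intro Z A B hC x hx hxR
  have hC' : E.Close K c₀ ηr Z A B := by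
    obtain ⟨hZ, hA1, hA2, hB1, hB2⟩ := hC
    exact ⟨fun i hi => ⟨(hZ i hi).1.trans_le l2, (hZ i hi).2⟩, hA1.trans_le l2, hA2.trans_le l2,
      hB1.trans_le l2, hB2.trans_le l2⟩
  obtain ⟨⟨hpZ, pA, pB⟩, herr⟩ := hr Z A B hC'
  obtain ⟨hZ, hA1, hA2, hB1, hB2⟩ := hC
  have hFR : 0 ≤ FP * R := by positivity
  have hDm : 0 ≤ 4 * D / m := by positivity
  have hxD : 2 * (D + m / 4 * ‖x‖) < m * ‖x‖ := by
    have h1 : 4 * D / m < ‖x‖ := by linarith
    rw [div_lt_iff₀ hm0] at h1
    nlinarith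
  obtain ⟨eZ, -, eB⟩ := herr x
  have hxT : (∃ a c : ℝ, 0 ≤ a ∧ 0 ≤ c ∧ a ≤ δ * c ∧ x = a • E.pt + c • E.pu) ∨
      ∃ c d : ℝ, 0 ≤ c ∧ 0 ≤ d ∧ d ≤ 2 * c ∧ x = c • E.pu + d • E.pk := hx
  rcases hxT with ⟨a, c, ha, hc, hac, rfl⟩ | ⟨c, d, hc, hd, hdc, rfl⟩
  · -- the old face: the minimum of the old planes
    set x : E3 := a • E.pt + c • E.pu with hxdef
    have hfar : ∀ t : ℝ, R ≤ ‖x + t • E.e‖ := by
      intro t
      have h2 := shift_bound (n := E.G E.iP) (e := E.e) (x := x)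
        (by rw [hxdef, inner_add_right, inner_smul_right, inner_smul_right, hN.Pt, hN.Pu]; ring)
        hposP t
      rw [← hFP] at h2
      have h3 : FP * R ≤ FP * ‖x + t • E.e‖ := by linarith
      exact le_of_mul_le_mul_left h3 hFP0
    have hno : ∀ i ∈ E.J, ∀ j ∈ E.J, ∀ l ∈ E.J, i ≠ j → i ≠ l → j ≠ l →
        tz E.e (Z j) x = tz E.e (Z i) x → tz E.e (Z l) x ≠ tz E.e (Z i) x := by
      intro i hi j hj l hl hij hil hjl h1 h2
      have hz : ∀ a ∈ E.J, tz E.e (Z a) x = tz E.e (Z i) x →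
          ev (Z a) (x + tz E.e (Z i) x • E.e) = 0 := by
        intro a ha h3
        rw [ev_line (hpZ a ha).ne', h3, sub_self, mul_zero]
      have h3 := hthree Z (fun i hi => ⟨(hZ i hi).1.trans_le l1, (hZ i hi).2⟩) i hi j hj l hl
        hij hil hjl _ (hz i hi rfl) (hz j hj h1) (hz l hl h2)
      exact absurd (hfar (tz E.e (Z i) x)) (not_le.2 h3)
    have hQB : tz E.e (Z E.iQ) x < tz E.e B x := by
      have h1 := (abs_le.1 (eZ E.iQ hN.memQ)).2
      have h2 := (abs_le.1 eB).1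
      have h3 := hold a c ha hc
      have h4 : m * ‖x‖ ≤ m2 * ‖x‖ := mul_le_mul_of_nonneg_right (min_le_right _ _) (norm_nonneg _)
      have h5 : th E.e E.nB x - th E.e (E.G E.iQ) x =
          a * (th E.e E.nB E.pt - th E.e (E.G E.iQ) E.pt) +
          c * (th E.e E.nB E.pu - th E.e (E.G E.iQ) E.pu) := by
        rw [hxdef, ENT1_.th_lin, ENT1_.th_lin]; ring
      have h3' : m2 * ‖x‖ ≤ a * (th E.e E.nB E.pt - th E.e (E.G E.iQ) E.pt) +
          c * (th E.e E.nB E.pu - th E.e (E.G E.iQ) E.pu) := h3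
      linarith
    obtain ⟨i, hi, hmn⟩ := E.exists_mn Z E.J x hN.memQ
    have hle : ∀ l ∈ E.J, tz E.e (Z i) x ≤ tz E.e (Z l) x := by
      intro l hl
      rw [← hmn]; exact E.mn_le_tz Z _ x l hl
    obtain ⟨j, hj, hji, hlt⟩ : ∃ j ∈ E.J, j ≠ i ∧ ∀ l ∈ E.J, l ≠ i → l ≠ j →
        tz E.e (Z i) x < tz E.e (Z l) x := by
      by_cases h : ∃ j ∈ E.J, j ≠ i ∧ tz E.e (Z j) x = tz E.e (Z i) x
      · obtain ⟨j, hj, hji, hjt⟩ := h
        refine ⟨j, hj, hji, ?_⟩
        intro l hl hli hlj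
        exact lt_of_le_of_ne (hle l hl)
          (fun h2 => hno i hi j hj l hl hji.symm hli.symm hlj.symm hjt h2.symm)
      · have h' : ∀ l ∈ E.J, l ≠ i → tz E.e (Z i) x < tz E.e (Z l) x := by
          intro l hl hli
          exact lt_of_le_of_ne (hle l hl) (fun h2 => h ⟨l, hl, hli, h2.symm⟩)
        by_cases hip : i = E.iP
        · refine ⟨E.iQ, hN.memQ, ?_, fun l hl hli _ => h' l hl hli⟩
          rw [hip]; exact hN.PQ.symm
        · exact ⟨E.iP, hN.memP, fun h2 => hip h2.symm, fun l hl hli _ => h' l hl hli⟩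
    set b : Aff := (B.1, inner ℝ B.1 (x + tz E.e (Z i) x • E.e) - 1) with hb
    refine ⟨Z j, b, Z i, ?_, ?_⟩
    · apply FGER_.linInd
      rw [det3_cyc]
      exact hdet (i, j) (by rw [Finset.mem_product]; exact ⟨hi, hj⟩) hji.symm _ _ _
        (hB1.trans_le l3) ((hZ i hi).1.trans_le l3) ((hZ j hj).1.trans_le l3)
    · have ev1 : ∀ᶠ y in 𝓝 x, tz E.e (Z E.iQ) y < tz E.e B y :=
        (tz_cont _ _).continuousAt.eventually_lt (tz_cont _ _).continuousAt hQB
      have ev2 : ∀ᶠ y in 𝓝 x, ∀ l ∈ E.J, l ≠ i → l ≠ j → tz E.e (Z i) y < tz E.e (Z l) y := by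
        rw [eventually_all_finset]
        intro l hl
        by_cases h : l ≠ i ∧ l ≠ j
        · filter_upwards [(tz_cont E.e (Z i)).continuousAt.eventually_lt
            (tz_cont E.e (Z l)).continuousAt (hlt l hl h.1 h.2)] with y hy _ _
          exact hy
        · exact Eventually.of_forall fun y h1 h2 => absurd ⟨h1, h2⟩ h
      have hcont : Continuous fun y : E3 =>
          ev b (y + min (tz E.e (Z j) y) (tz E.e (Z i) y) • E.e) := by
        have c1 : Continuous fun y : E3 => min (tz E.e (Z j) y) (tz E.e (Z i) y) :=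
          (tz_cont _ _).min (tz_cont _ _)
        unfold ev
        fun_prop
      have hbx : 0 < ev b (x + min (tz E.e (Z j) x) (tz E.e (Z i) x) • E.e) := by
        rw [min_eq_right (hle j hj)]
        unfold ev
        rw [hb]
        simp
      have ev3 : ∀ᶠ y in 𝓝 x, 0 < ev b (y + min (tz E.e (Z j) y) (tz E.e (Z i) y) • E.e) :=
        hcont.continuousAt.eventually_const_lt hbx
      filter_upwards [ev1, ev2, ev3] with y hy1 hy2 hy3
      have hmny : E.mn Z E.J y = min (tz E.e (Z j) y) (tz E.e (Z i) y) := by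
        apply le_antisymm
        · exact le_min (E.mn_le_tz Z _ y j hj) (E.mn_le_tz Z _ y i hi)
        · rw [E.le_mn_iff]
          have hall : ∀ l ∈ E.J, min (tz E.e (Z j) y) (tz E.e (Z i) y) ≤ tz E.e (Z l) y := by
            intro l hl
            by_cases h1 : l = i
            · rw [h1]; exact min_le_right _ _
            · by_cases h2 : l = j
              · rw [h2]; exact min_le_left _ _
              · exact (min_le_right _ _).trans (hy2 l hl h1 h2).le
          exact ⟨hall _ hN.memQ, hall⟩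
      have htN : E.tN Z A B y = min (tz E.e (Z j) y) (tz E.e (Z i) y) := by
        unfold EndD.tN
        rw [if_pos hτ, ← hmny]
        apply min_eq_left
        have h1 : E.mn Z E.J y ≤ tz E.e (Z E.iQ) y := E.mn_le_tz Z _ y _ hN.memQ
        unfold EndD.ab
        exact (h1.trans hy1.le).trans (le_max_right _ _)
      rw [htN]
      exact g3_min (hpZ j hj) (hpZ i hi) y hy3.le
  · -- the ear face: the chord plane is the lowest one
    set x : E3 := c • E.pu + d • E.pk with hxdef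
    have hQlt : ∀ i ∈ E.J, i ≠ E.iQ → tz E.e (Z E.iQ) x < tz E.e (Z i) x := by
      intro i hi hne
      have h1 := (abs_le.1 (eZ E.iQ hN.memQ)).2
      have h2 := (abs_le.1 (eZ i hi)).1
      have h3 := hmg.new i hi hne c d hc hd
      have h4 : m * ‖x‖ ≤ m1 * ‖x‖ := mul_le_mul_of_nonneg_right (min_le_left _ _) (norm_nonneg _)
      have h3' : m1 * ‖x‖ ≤ th E.e (E.G i) x - th E.e (E.G E.iQ) x := h3
      linarith
    refine ⟨A, B, Z E.iQ, ?_, ?_⟩
    · apply FGER_.linInd
      exact hdetM _ _ _ (hA1.trans_le l4) (hB1.trans_le l4) ((hZ _ hN.memQ).1.trans_le l4)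
    · have ev2 : ∀ᶠ y in 𝓝 x, ∀ l ∈ E.J, l ≠ E.iQ → tz E.e (Z E.iQ) y < tz E.e (Z l) y := by
        rw [eventually_all_finset]
        intro l hl
        by_cases h : l ≠ E.iQ
        · filter_upwards [(tz_cont E.e (Z E.iQ)).continuousAt.eventually_lt
            (tz_cont E.e (Z l)).continuousAt (hQlt l hl h)] with y hy _
          exact hy
        · exact Eventually.of_forall fun y h1 => absurd h1 h
      filter_upwards [ev2] with y hy2
      have hmny : E.mn Z E.J y = tz E.e (Z E.iQ) y := by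
        apply le_antisymm (E.mn_le_tz Z _ y _ hN.memQ)
        rw [E.le_mn_iff]
        refine ⟨le_rfl, ?_⟩
        intro l hl
        by_cases h1 : l = E.iQ
        · rw [h1]
        · exact (hy2 l hl h1).le
      have htN : E.tN Z A B y = min (max (tz E.e A y) (tz E.e B y)) (tz E.e (Z E.iQ) y) := by
        unfold EndD.tN
        rw [if_pos hτ, hmny, min_comm]
        rfl
      rw [htN]
      exact g3_form pA pB (hpZ _ hN.memQ) y

end Pool.Agent.TSM
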