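import Pool.Agent.TSM.VBase2
import Pool.Agent.TSM.FGER

/-!
# TSM, ENG3: germs at an end of type III
-/

set_option autoImplicit false

namespace Pool.Agent.TSM

open Set Filter Topology Metric

namespace ENG3_

/-! ## germs -/

/-- `T` is the time of a good germ near `x` -/
def GermAt (e x : E3) (T : E3 → ℝ) : Prop :=
  ∃ a b c : Aff, Indep a b c ∧ ∀ᶠ y in 𝓝 x, G3 a b c (y + T y • e) = 0

theorem ger3 {e x : E3} {T : E3 → ℝ} {z1 z2 z3 : Aff} (h1 : 0 < (inner ℝ z1.1 e : ℝ))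
    (h2 : 0 < (inner ℝ z2.1 e : ℝ)) (h3 : 0 < (inner ℝ z3.1 e : ℝ))
    (hd : det3 z1.1 z2.1 z3.1 ≠ 0)
    (hT : ∀ᶠ y in 𝓝 x, T y = min (max (tz e z1 y) (tz e z2 y)) (tz e z3 y)) :
    GermAt e x T := by
  refine ⟨z1, z2, z3, FGER_.linInd _ _ _ hd, ?_⟩
  filter_upwards [hT] with y hy
  unfold G3
  rw [ev_line h1.ne', ev_line h2.ne', ev_line h3.ne', hy]
  rcases le_total (max (tz e z1 y) (tz e z2 y)) (tz e z3 y) with h | h
  · rw [min_eq_left h]
    have a3 : inner ℝ z3.1 e * (max (tz e z1 y) (tz e z2 y) - tz e z3 y) ≤ 0 :=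
      mul_nonpos_of_nonneg_of_nonpos h3.le (by linarith)
    rcases le_total (tz e z1 y) (tz e z2 y) with h' | h'
    · rw [max_eq_right h'] at a3 ⊢
      have a1 : 0 ≤ inner ℝ z1.1 e * (tz e z2 y - tz e z1 y) :=
        mul_nonneg h1.le (by linarith)
      rw [sub_self, mul_zero, min_eq_right a1, max_eq_left a3]
    · rw [max_eq_left h'] at a3 ⊢
      have a1 : 0 ≤ inner ℝ z2.1 e * (tz e z1 y - tz e z2 y) :=
        mul_nonneg h2.le (by linarith)
      rw [sub_self, mul_zero, min_eq_left a1, max_eq_left a3]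
  · rw [min_eq_right h, sub_self, mul_zero]
    refine max_eq_right ?_
    rcases le_max_iff.1 (le_refl (max (tz e z1 y) (tz e z2 y))) with h' | h'
    · exact (min_le_left _ _).trans
        (mul_nonpos_of_nonneg_of_nonpos h1.le (by linarith))
    · exact (min_le_right _ _).trans
        (mul_nonpos_of_nonneg_of_nonpos h2.le (by linarith))

theorem ev_neg (z : Aff) (y : E3) : ev (-z) y = - ev z y := by
  unfold ev
  rw [Prod.fst_neg, Prod.snd_neg, inner_neg_left]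
  ring

theorem ger3' {e x : E3} {T : E3 → ℝ} {z1 z2 z3 : Aff} (h1 : 0 < (inner ℝ z1.1 e : ℝ))
    (h2 : 0 < (inner ℝ z2.1 e : ℝ)) (h3 : 0 < (inner ℝ z3.1 e : ℝ))
    (hd : det3 z1.1 z2.1 z3.1 ≠ 0)
    (hT : ∀ᶠ y in 𝓝 x, T y = max (min (tz e z1 y) (tz e z2 y)) (tz e z3 y)) :
    GermAt e x T := by
  refine ⟨-z1, -z2, -z3, FGER_.linInd _ _ _ ?_, ?_⟩
  · have : det3 (-z1).1 (-z2).1 (-z3).1 = - det3 z1.1 z2.1 z3.1 := by
      rw [Prod.fst_neg, Prod.fst_neg, Prod.fst_neg]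
      simp only [det3, PiLp.neg_apply]
      ring
    rw [this]
    exact neg_ne_zero.2 hd
  filter_upwards [hT] with y hy
  unfold G3
  rw [ev_neg, ev_neg, ev_neg, ev_line h1.ne', ev_line h2.ne', ev_line h3.ne', hy]
  rcases le_total (tz e z3 y) (min (tz e z1 y) (tz e z2 y)) with h | h
  · rw [max_eq_left h]
    have a3 : -(inner ℝ z3.1 e * (min (tz e z1 y) (tz e z2 y) - tz e z3 y)) ≤ 0 :=
      neg_nonpos.2 (mul_nonneg h3.le (by linarith))
    rcases le_total (tz e z1 y) (tz e z2 y) with h' | h'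
    · rw [min_eq_left h'] at a3 ⊢
      have a1 : 0 ≤ -(inner ℝ z2.1 e * (tz e z1 y - tz e z2 y)) :=
        neg_nonneg.2 (mul_nonpos_of_nonneg_of_nonpos h2.le (by linarith))
      rw [sub_self, mul_zero, neg_zero, min_eq_left a1, max_eq_left a3]
    · rw [min_eq_right h'] at a3 ⊢
      have a1 : 0 ≤ -(inner ℝ z1.1 e * (tz e z2 y - tz e z1 y)) :=
        neg_nonneg.2 (mul_nonpos_of_nonneg_of_nonpos h1.le (by linarith))
      rw [sub_self, mul_zero, neg_zero, min_eq_right a1, max_eq_left a3]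
  · rw [max_eq_right h, sub_self, mul_zero, neg_zero]
    refine max_eq_right ?_
    rcases min_le_iff.1 (le_refl (min (tz e z1 y) (tz e z2 y))) with h' | h'
    · exact (min_le_left _ _).trans
        (neg_nonpos.2 (mul_nonneg h1.le (by linarith)))
    · exact (min_le_right _ _).trans
        (neg_nonpos.2 (mul_nonneg h2.le (by linarith)))

/-- auxiliary plane with prescribed time at `x` -/
noncomputable def aux (e x n : E3) (s : ℝ) : Aff :=
  (n, (inner ℝ n x : ℝ) + s * inner ℝ n e)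

theorem tz_aux {e x n : E3} (hn : 0 < (inner ℝ n e : ℝ)) (s : ℝ) :
    tz e (aux e x n s) x = s := by
  unfold tz ev aux
  simp only
  rw [div_eq_iff hn.ne']
  ring

theorem ger2max {e x : E3} {T : E3 → ℝ} {z1 z2 : Aff} {n : E3} (h1 : 0 < (inner ℝ z1.1 e : ℝ))
    (h2 : 0 < (inner ℝ z2.1 e : ℝ)) (h3 : 0 < (inner ℝ n e : ℝ))
    (hd : det3 z1.1 z2.1 n ≠ 0)
    (hT : ∀ᶠ y in 𝓝 x, T y = max (tz e z1 y) (tz e z2 y)) :
    GermAt e x T := by
  set z3 : Aff := aux e x n (max (tz e z1 x) (tz e z2 x) + 1) with hz3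
  refine ger3 (z3 := z3) h1 h2 h3 hd ?_
  have hlt : max (tz e z1 x) (tz e z2 x) < tz e z3 x := by
    rw [hz3, tz_aux h3]; linarith
  have hev : ∀ᶠ y in 𝓝 x, max (tz e z1 y) (tz e z2 y) < tz e z3 y :=
    (((tz_cont e z1).max (tz_cont e z2)).continuousAt).eventually_lt
      (tz_cont e z3).continuousAt hlt
  filter_upwards [hT, hev] with y hy hl
  rw [hy, min_eq_left hl.le]

theorem ger1 {e x : E3} {T : E3 → ℝ} {z1 : Aff} {n2 n3 : E3} (h1 : 0 < (inner ℝ z1.1 e : ℝ))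
    (h2 : 0 < (inner ℝ n2 e : ℝ)) (h3 : 0 < (inner ℝ n3 e : ℝ))
    (hd : det3 z1.1 n2 n3 ≠ 0)
    (hT : ∀ᶠ y in 𝓝 x, T y = tz e z1 y) :
    GermAt e x T := by
  set z2 : Aff := aux e x n2 (tz e z1 x - 1) with hz2
  refine ger2max (z1 := z1) (z2 := z2) (n := n3) h1 h2 h3 hd ?_
  have hlt : tz e z2 x < tz e z1 x := by
    rw [hz2, tz_aux h2]; linarith
  have hev : ∀ᶠ y in 𝓝 x, tz e z2 y < tz e z1 y :=
    ((tz_cont e z2).continuousAt).eventually_lt (tz_cont e z1).continuousAt hlt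
  filter_upwards [hT, hev] with y hy hl
  rw [hy, max_eq_left hl.le]

/-! ## perturbation -/

theorem det_ev (u v w : E3) (h : det3 u v w ≠ 0) : ∀ᶠ η in 𝓝[>] (0 : ℝ),
    ∀ u' v' w' : E3, ‖u' - u‖ < η → ‖v' - v‖ < η → ‖w' - w‖ < η → det3 u' v' w' ≠ 0 := by
  have e2 : ∀ᶠ x : E3 × E3 × E3 in 𝓝 (u, v, w), det3 x.1 x.2.1 x.2.2 ≠ 0 :=
    FGER_.cont_det.continuousAt.eventually_ne h
  obtain ⟨η, hη, H⟩ := Metric.eventually_nhds_iff.1 e2
  have hη2 : ∀ᶠ η' in 𝓝[>] (0 : ℝ), η' < η :=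
    eventually_nhdsWithin_of_eventually_nhds (eventually_lt_nhds hη)
  filter_upwards [hη2] with η' hη' u' v' w' hu hv hw
  have hd : dist (u', v', w') (u, v, w) < η := by
    rw [Prod.dist_eq, Prod.dist_eq]
    simp only [dist_eq_norm]
    exact max_lt (hu.trans hη') (max_lt (hv.trans hη') (hw.trans hη'))
  exact H hd

theorem pos_ev (u e : E3) (h : 0 < (inner ℝ u e : ℝ)) : ∀ᶠ η in 𝓝[>] (0 : ℝ),
    ∀ u' : E3, ‖u' - u‖ < η → (inner ℝ u e : ℝ) / 2 < inner ℝ u' e := by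
  have c : Continuous fun x : E3 => (inner ℝ x e : ℝ) := by fun_prop
  have e2 : ∀ᶠ x : E3 in 𝓝 u, (inner ℝ u e : ℝ) / 2 < inner ℝ x e :=
    c.continuousAt.eventually_const_lt (by linarith)
  obtain ⟨η, hη, H⟩ := Metric.eventually_nhds_iff.1 e2
  have hη2 : ∀ᶠ η' in 𝓝[>] (0 : ℝ), η' < η :=
    eventually_nhdsWithin_of_eventually_nhds (eventually_lt_nhds hη)
  filter_upwards [hη2] with η' hη' u' hu
  exact H (by rw [dist_eq_norm]; exact hu.trans hη')

/-- times of a shifted plane -/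
theorem pert (e n : E3) (hn : 0 < (inner ℝ n e : ℝ)) (c₀ κ : ℝ) (hκ : 0 < κ) :
    ∀ᶠ η in 𝓝[>] (0 : ℝ), ∀ A : Aff, ‖A.1 - n‖ < η → |A.2 - c₀ * inner ℝ n e| < η →
      ∀ x : E3, 1 ≤ ‖x‖ → |tz e A x - (c₀ + th e n x)| ≤ κ * ‖x‖ := by
  set p : ℝ := inner ℝ n e with hp
  set C : ℝ := 1 + 1 + (|c₀| + ‖n‖ / p) * ‖e‖ with hC
  have hC0 : 0 < C := by positivity
  have hs : ∀ᶠ η in 𝓝[>] (0 : ℝ), η < κ * (p / 2) / C :=
    eventually_nhdsWithin_of_eventually_nhds (eventually_lt_nhds (by positivity))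
  have hpos : ∀ᶠ η in 𝓝[>] (0 : ℝ), 0 < η := eventually_mem_nhdsWithin
  filter_upwards [pos_ev n e hn, hs, hpos] with η h1 h2 h3 A hA1 hA2 x hx
  have hq : p / 2 < inner ℝ A.1 e := h1 _ hA1
  have hq0 : 0 < (inner ℝ A.1 e : ℝ) := lt_trans (by positivity) hq
  set q : ℝ := inner ℝ A.1 e with hqdef
  set s : ℝ := c₀ + th e n x with hs
  have hsabs : |s| ≤ (|c₀| + ‖n‖ / p) * ‖x‖ := by
    have a1 : |th e n x| ≤ ‖n‖ / p * ‖x‖ := by
      unfold th
      rw [abs_div, abs_neg, ← hp, abs_of_pos hn, div_mul_eq_mul_div]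
      exact div_le_div_of_nonneg_right (abs_real_inner_le_norm n x) hn.le
    calc |s| ≤ |c₀| + |th e n x| := abs_add_le _ _
      _ ≤ |c₀| * ‖x‖ + ‖n‖ / p * ‖x‖ := by
          have : |c₀| ≤ |c₀| * ‖x‖ := le_mul_of_one_le_right (abs_nonneg _) hx
          linarith
      _ = _ := by ring
  have key : tz e A x - s = ((A.2 - c₀ * p) - inner ℝ (A.1 - n) x - s * inner ℝ (A.1 - n) e) / q := by
    have hsp : s * p = c₀ * p - inner ℝ n x := by
      rw [hs]; unfold th; rw [← hp]; field_simp; ring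
    unfold tz ev
    rw [← hqdef, eq_div_iff hq0.ne', sub_mul, div_mul_cancel₀ _ hq0.ne', inner_sub_left,
      inner_sub_left, ← hqdef, ← hp]
    linarith
  rw [key, abs_div, abs_of_pos hq0, div_le_iff₀ hq0]
  have b1 : |(inner ℝ (A.1 - n) x : ℝ)| ≤ η * ‖x‖ :=
    (abs_real_inner_le_norm _ _).trans (mul_le_mul_of_nonneg_right hA1.le (norm_nonneg _))
  have b2 : |(inner ℝ (A.1 - n) e : ℝ)| ≤ η * ‖e‖ :=
    (abs_real_inner_le_norm _ _).trans (mul_le_mul_of_nonneg_right hA1.le (norm_nonneg _))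
  have b3 : |s * inner ℝ (A.1 - n) e| ≤ (|c₀| + ‖n‖ / p) * ‖x‖ * (η * ‖e‖) := by
    rw [abs_mul]
    exact mul_le_mul hsabs b2 (abs_nonneg _) (by positivity)
  have b4 : η ≤ η * ‖x‖ := le_mul_of_one_le_right h3.le hx
  have b5 : |(A.2 - c₀ * p) - inner ℝ (A.1 - n) x - s * inner ℝ (A.1 - n) e| ≤ η * C * ‖x‖ := by
    calc _ ≤ |(A.2 - c₀ * p) - inner ℝ (A.1 - n) x| + |s * inner ℝ (A.1 - n) e| := abs_sub _ _
      _ ≤ |A.2 - c₀ * p| + |(inner ℝ (A.1 - n) x : ℝ)| + |s * inner ℝ (A.1 - n) e| := by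
          have := abs_sub (A.2 - c₀ * p) (inner ℝ (A.1 - n) x)
          linarith
      _ ≤ η * ‖x‖ + η * ‖x‖ + (|c₀| + ‖n‖ / p) * ‖x‖ * (η * ‖e‖) := by
          have := hA2.le
          linarith
      _ = _ := by rw [hC]; ring
  refine b5.trans ?_
  have b6 : η * C ≤ κ * (p / 2) := by
    rw [lt_div_iff₀ hC0] at h2
    exact h2.le
  calc η * C * ‖x‖ ≤ κ * (p / 2) * ‖x‖ := mul_le_mul_of_nonneg_right b6 (norm_nonneg _)
    _ ≤ κ * q * ‖x‖ := by
        apply mul_le_mul_of_nonneg_right _ (norm_nonneg _)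
        exact mul_le_mul_of_nonneg_left hq.le hκ.le
    _ = κ * ‖x‖ * q := by ring

variable {ι : Type} [DecidableEq ι]

/-- local form of the maximum -/
theorem mx_local (E : EndD ι) (Z : ι → Aff) (s : Finset ι) (x : E3) (hQ : E.iQ ∈ s)
    (h3 : ∀ i ∈ s, ∀ j ∈ s, ∀ l ∈ s, i ≠ j → i ≠ l → j ≠ l →
      tz E.e (Z i) x = tz E.e (Z j) x → tz E.e (Z i) x = tz E.e (Z l) x → False) :
    ∃ i ∈ s, ∃ j ∈ s, tz E.e (Z i) x = E.mx Z s x ∧ tz E.e (Z j) x = E.mx Z s x ∧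
      ∀ᶠ y in 𝓝 x, E.mx Z s y = max (tz E.e (Z i) y) (tz E.e (Z j) y) := by
  classical
  set F := s.filter (fun l => tz E.e (Z l) x = E.mx Z s x) with hF
  have hFc : F.card ≤ 2 := by
    by_contra hc
    obtain ⟨l, m, n, hl, hm, hn, h1, h2, h4⟩ := Finset.two_lt_card_iff.1 (not_le.1 hc)
    rw [hF, Finset.mem_filter] at hl hm hn
    exact h3 l hl.1 m hm.1 n hn.1 h1 h2 h4 (hl.2.trans hm.2.symm) (hl.2.trans hn.2.symm)
  obtain ⟨i, hi, hix⟩ := E.exists_mx Z s x hQ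
  have hiF : i ∈ F := Finset.mem_filter.2 ⟨hi, hix.symm⟩
  have hcov : ∃ j ∈ F, ∀ l ∈ F, l = i ∨ l = j := by
    by_cases h : ∃ j ∈ F, j ≠ i
    · obtain ⟨j, hj, hji⟩ := h
      refine ⟨j, hj, fun l hl => ?_⟩
      by_contra hc
      push Not at hc
      have : 2 < F.card := Finset.two_lt_card_iff.2 ⟨i, j, l, hiF, hj, hl, hji.symm,
        hc.1.symm, hc.2.symm⟩
      omega
    · push Not at h
      exact ⟨i, hiF, fun l hl => Or.inl (h l hl)⟩
  obtain ⟨j, hj, hall⟩ := hcov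
  have hj' := Finset.mem_filter.1 hj
  refine ⟨i, hi, j, hj'.1, hix.symm, hj'.2, ?_⟩
  have hev : ∀ᶠ y in 𝓝 x, ∀ l ∈ s, l ∉ F → tz E.e (Z l) y < tz E.e (Z i) y := by
    rw [Filter.eventually_all_finset]
    intro l hl
    by_cases hlF : l ∈ F
    · exact Eventually.of_forall fun y h => absurd hlF h
    · have hlt : tz E.e (Z l) x < tz E.e (Z i) x := by
        rw [← hix]
        refine lt_of_le_of_ne (E.tz_le_mx Z s x l hl) fun h => hlF ?_
        exact Finset.mem_filter.2 ⟨hl, h⟩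
      exact (((tz_cont _ _).continuousAt).eventually_lt (tz_cont _ _).continuousAt hlt).mono
        fun y hy _ => hy
  filter_upwards [hev] with y hy
  apply le_antisymm
  · rw [E.mx_le_iff]
    have hl : ∀ l ∈ s, tz E.e (Z l) y ≤ max (tz E.e (Z i) y) (tz E.e (Z j) y) := by
      intro l hl
      by_cases hlF : l ∈ F
      · rcases hall l hlF with rfl | rfl
        · exact le_max_left _ _
        · exact le_max_right _ _
      · exact (hy l hl hlF).le.trans (le_max_left _ _)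
    exact ⟨hl _ hQ, hl⟩
  · exact max_le (E.tz_le_mx Z s y i hi) (E.tz_le_mx Z s y j hj'.1)

/-- points on a vertical line over the two faces are far away -/
theorem far (e n x : E3) (hn : 0 < (inner ℝ n e : ℝ)) (hx : (inner ℝ n x : ℝ) = 0) (t : ℝ) :
    ‖x‖ ≤ (1 + ‖n‖ * ‖e‖ / inner ℝ n e) * ‖x + t • e‖ := by
  have h1 : (inner ℝ n (x + t • e) : ℝ) = t * inner ℝ n e := by
    rw [inner_add_right, inner_smul_right, hx, zero_add]
  have h2 : |t| * inner ℝ n e ≤ ‖n‖ * ‖x + t • e‖ := by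
    have := abs_real_inner_le_norm n (x + t • e)
    rwa [h1, abs_mul, abs_of_pos hn] at this
  have h3 : |t| ≤ ‖n‖ * ‖x + t • e‖ / inner ℝ n e := by
    rw [le_div_iff₀ hn]; exact h2
  have h4 : ‖x‖ ≤ ‖x + t • e‖ + |t| * ‖e‖ := by
    calc ‖x‖ = ‖(x + t • e) - t • e‖ := by rw [add_sub_cancel_right]
      _ ≤ ‖x + t • e‖ + ‖t • e‖ := norm_sub_le _ _
      _ = _ := by rw [norm_smul, Real.norm_eq_abs]
  calc ‖x‖ ≤ ‖x + t • e‖ + |t| * ‖e‖ := h4
    _ ≤ ‖x + t • e‖ + ‖n‖ * ‖x + t • e‖ / inner ℝ n e * ‖e‖ := by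
        have := mul_le_mul_of_nonneg_right h3 (norm_nonneg e)
        linarith
    _ = _ := by ring

theorem th_add (e n x y : E3) (a b : ℝ) :
    th e n (a • x + b • y) = a * th e n x + b * th e n y := by
  unfold th
  rw [inner_add_right, inner_smul_right, inner_smul_right]
  ring

/-- linear margin between the two planes of the ear near the arm -/
theorem margin (E : EndD ι) (ε δ : ℝ) (hN : E.Num ε δ) : ∃ m : ℝ, 0 < m ∧
    ∀ x ∈ E.Old δ ∪ E.New 2, th E.e E.nA x + m * ‖x‖ ≤ th E.e E.nB x := by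
  have hδ : 0 < δ := by have := hN.eps; have := hN.del; linarith
  have hB0 : th E.e E.nB E.pu = 0 := by unfold th; rw [hN.Bu]; simp
  have hBk : th E.e E.nB E.pk = 0 := by unfold th; rw [hN.Bk]; simp
  have hAk : th E.e E.nA E.pk = 0 := by unfold th; rw [hN.Ak]; simp
  have hA0 : th E.e E.nA E.pu < 0 := by
    unfold th
    exact div_neg_of_neg_of_pos (neg_neg_of_pos hN.Au) hN.posA
  set g : ℝ := - th E.e E.nA E.pu with hg
  have hg0 : 0 < g := by rw [hg]; linarith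
  set h : ℝ := th E.e E.nB (E.pu + δ • E.pt) - th E.e E.nA (E.pu + δ • E.pt) with hh
  have hh0 : 0 < h := by rw [hh]; linarith [hN.AB]
  set mu : ℝ := min g h with hmu
  have hmu0 : 0 < mu := lt_min hg0 hh0
  set D : ℝ := ‖E.pu‖ + δ * ‖E.pt‖ + 2 * ‖E.pk‖ + 1 with hD
  have hD0 : 0 < D := by positivity
  refine ⟨mu / D, div_pos hmu0 hD0, ?_⟩
  rintro x (⟨a, c, ha, hc, hac, rfl⟩ | ⟨c, d, hc, hd, hdc, rfl⟩)
  · -- x = (a/δ)(pu + δ pt) + (c - a/δ) pu
    have hb : a / δ ≤ c := by rw [div_le_iff₀ hδ]; linarith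
    have hb0 : 0 ≤ a / δ := div_nonneg ha hδ.le
    have e1 : a • E.pt + c • E.pu = (a / δ) • (E.pu + δ • E.pt) + (c - a / δ) • E.pu := by
      have : a / δ * δ = a := div_mul_cancel₀ _ hδ.ne'
      rw [smul_add, smul_smul, this, sub_smul]
      abel
    have n1 : ‖a • E.pt + c • E.pu‖ ≤ c * D := by
      calc ‖a • E.pt + c • E.pu‖ ≤ ‖a • E.pt‖ + ‖c • E.pu‖ := norm_add_le _ _
        _ = a * ‖E.pt‖ + c * ‖E.pu‖ := by
            rw [norm_smul, norm_smul, Real.norm_eq_abs, Real.norm_eq_abs, abs_of_nonneg ha,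
              abs_of_nonneg hc]
        _ ≤ (δ * c) * ‖E.pt‖ + c * ‖E.pu‖ := by
            have := mul_le_mul_of_nonneg_right hac (norm_nonneg E.pt)
            linarith
        _ ≤ c * D := by
            rw [hD]
            have := mul_nonneg hc (norm_nonneg E.pk)
            nlinarith
    have e2 : th E.e E.nB (a • E.pt + c • E.pu) - th E.e E.nA (a • E.pt + c • E.pu) =
        (a / δ) * h + (c - a / δ) * g := by
      rw [e1, th_add, th_add, hB0, hh, hg]
      ring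
    have e3 : c * mu ≤ (a / δ) * h + (c - a / δ) * g := by
      have i1 := mul_le_mul_of_nonneg_left (min_le_right g h) hb0
      have i2 := mul_le_mul_of_nonneg_left (min_le_left g h) (sub_nonneg.2 hb)
      rw [← hmu] at i1 i2
      linarith
    have e4 : mu / D * ‖a • E.pt + c • E.pu‖ ≤ c * mu := by
      calc mu / D * ‖a • E.pt + c • E.pu‖ ≤ mu / D * (c * D) :=
            mul_le_mul_of_nonneg_left n1 (div_nonneg hmu0.le hD0.le)
        _ = c * mu := by field_simp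
    linarith
  · have n1 : ‖c • E.pu + d • E.pk‖ ≤ c * D := by
      calc ‖c • E.pu + d • E.pk‖ ≤ ‖c • E.pu‖ + ‖d • E.pk‖ := norm_add_le _ _
        _ = c * ‖E.pu‖ + d * ‖E.pk‖ := by
            rw [norm_smul, norm_smul, Real.norm_eq_abs, Real.norm_eq_abs, abs_of_nonneg hd,
              abs_of_nonneg hc]
        _ ≤ c * ‖E.pu‖ + (2 * c) * ‖E.pk‖ := by
            have := mul_le_mul_of_nonneg_right hdc (norm_nonneg E.pk)
            linarith
        _ ≤ c * D := by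
            rw [hD]
            have := mul_nonneg hc (mul_nonneg hδ.le (norm_nonneg E.pt))
            nlinarith
    have e2 : th E.e E.nB (c • E.pu + d • E.pk) - th E.e E.nA (c • E.pu + d • E.pk) = c * g := by
      rw [th_add, th_add, hB0, hBk, hAk, hg]
      ring
    have e3 : c * mu ≤ c * g := mul_le_mul_of_nonneg_left (min_le_left _ _) hc
    have e4 : mu / D * ‖c • E.pu + d • E.pk‖ ≤ c * mu := by
      calc mu / D * ‖c • E.pu + d • E.pk‖ ≤ mu / D * (c * D) :=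
            mul_le_mul_of_nonneg_left n1 (div_nonneg hmu0.le hD0.le)
        _ = c * mu := by field_simp
    linarith

end ENG3_

open ENG3_ in
theorem eng3_proof : Stmt_Eng3 := by
  intro ι _ E ε δ hN hθ K
  have hτ : ¬ E.τ < 0 := fun h => absurd (hN.θτ h) (not_lt.2 hθ.le)
  have hθ' : ¬ E.θ < 0 := not_lt.2 hθ.le
  -- triples of planes: bounded common zeros
  have hTr : ∀ᶠ η in 𝓝[>] (0 : ℝ), ∀ i ∈ E.J, ∀ j ∈ E.J, ∀ l ∈ E.J, i ≠ j → i ≠ l → j ≠ l →
      FGER_.Tr η (E.G i) (E.G j) (E.G l) := by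
    rw [Filter.eventually_all_finset]; intro i hi
    rw [Filter.eventually_all_finset]; intro j hj
    rw [Filter.eventually_all_finset]; intro l hl
    by_cases h1 : i = j
    · exact Eventually.of_forall fun η h => absurd h1 h
    by_cases h2 : i = l
    · exact Eventually.of_forall fun η _ h => absurd h2 h
    by_cases h3 : j = l
    · exact Eventually.of_forall fun η _ _ h => absurd h3 h
    exact (FGER_.tr_ev _ _ _ (hN.ind3 i hi j hj l hl h1 h2 h3)).mono fun η h _ _ _ => h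
  have hpos0 : ∀ᶠ η in 𝓝[>] (0 : ℝ), 0 < η := eventually_mem_nhdsWithin
  obtain ⟨η₁, hη₁T, hη₁⟩ := (hTr.and hpos0).exists
  have hR : ∀ᶠ R in (atTop : Filter ℝ), ∀ i ∈ E.J, ∀ j ∈ E.J, ∀ l ∈ E.J, i ≠ j → i ≠ l → j ≠ l →
      ∀ u' v' w' : E3, ‖u' - E.G i‖ < η₁ → ‖v' - E.G j‖ < η₁ → ‖w' - E.G l‖ < η₁ →
      ∀ y : E3, |(inner ℝ u' y : ℝ)| ≤ K → |(inner ℝ v' y : ℝ)| ≤ K →
        |(inner ℝ w' y : ℝ)| ≤ K → ‖y‖ < R := by
    rw [Filter.eventually_all_finset]; intro i hi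
    rw [Filter.eventually_all_finset]; intro j hj
    rw [Filter.eventually_all_finset]; intro l hl
    by_cases h1 : i = j
    · exact Eventually.of_forall fun η h => absurd h1 h
    by_cases h2 : i = l
    · exact Eventually.of_forall fun η _ h => absurd h2 h
    by_cases h3 : j = l
    · exact Eventually.of_forall fun η _ _ h => absurd h3 h
    obtain ⟨R, hR⟩ := hη₁T i hi j hj l hl h1 h2 h3 K
    filter_upwards [eventually_ge_atTop R] with R' hR' _ _ _ u' v' w' a1 a2 a3 y b1 b2 b3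
    exact (hR u' v' w' a1 a2 a3 y b1 b2 b3).trans_le hR'
  obtain ⟨R, hRall, hR0⟩ := (hR.and (eventually_gt_atTop 0)).exists
  have hposP := hN.posG _ hN.memP
  set CP : ℝ := 1 + ‖E.G E.iP‖ * ‖E.e‖ / inner ℝ (E.G E.iP) E.e with hCP
  set CB : ℝ := 1 + ‖E.nB‖ * ‖E.e‖ / inner ℝ E.nB E.e with hCB
  have hCP0 : 0 ≤ CP := by
    have : 0 ≤ ‖E.G E.iP‖ * ‖E.e‖ / inner ℝ (E.G E.iP) E.e := by positivity
    linarith
  have hCB0 : 0 ≤ CB := by
    have h := hN.posB
    have : 0 ≤ ‖E.nB‖ * ‖E.e‖ / inner ℝ E.nB E.e := by positivity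
    linarith
  obtain ⟨m, hm0, hm⟩ := margin E ε δ hN
  refine ⟨(CP + CB) * R + 1, by positivity, 0, ?_⟩
  intro c₀ _
  -- choice of eta
  have hI : ∀ᶠ η in 𝓝[>] (0 : ℝ), ∀ i ∈ E.J, ∀ j ∈ E.J, i ≠ j →
      ∀ u' v' w' : E3, ‖u' - E.nB‖ < η → ‖v' - E.G i‖ < η → ‖w' - E.G j‖ < η →
        det3 u' v' w' ≠ 0 := by
    rw [Filter.eventually_all_finset]; intro i hi
    rw [Filter.eventually_all_finset]; intro j hj
    by_cases h1 : i = j
    · exact Eventually.of_forall fun η h => absurd h1 h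
    exact (det_ev _ _ _ (hN.indB i hi j hj h1)).mono fun η h _ => h
  have hG : ∀ᶠ η in 𝓝[>] (0 : ℝ), ∀ i ∈ E.J, ∀ u' : E3, ‖u' - E.G i‖ < η →
      (inner ℝ (E.G i) E.e : ℝ) / 2 < inner ℝ u' E.e := by
    rw [Filter.eventually_all_finset]; intro i hi
    exact pos_ev _ _ (hN.posG i hi)
  have hB := pos_ev E.nB E.e hN.posB
  have hpA := pert E.e E.nA hN.posA c₀ (m / 4) (by positivity)
  have hpB := pert E.e E.nB hN.posB c₀ (m / 4) (by positivity)
  have hle : ∀ᶠ η in 𝓝[>] (0 : ℝ), η < η₁ :=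
    eventually_nhdsWithin_of_eventually_nhds (eventually_lt_nhds hη₁)
  obtain ⟨η, h1, h2, h3, h4, h5, h6, h7⟩ :=
    (hI.and (hG.and (hB.and (hpA.and (hpB.and (hle.and hpos0)))))).exists
  refine ⟨η, h7, ?_⟩
  intro Z A B hC x hx hxR
  obtain ⟨hZ, hA1, hA2, hB1, hB2⟩ := hC
  have hxR1 : (CP + CB) * R + 1 ≤ ‖x‖ := hxR
  have hx1 : 1 ≤ ‖x‖ := by
    have : 0 ≤ (CP + CB) * R := by positivity
    linarith
  -- positivity of the planes
  have pZ : ∀ i ∈ E.J, 0 < (inner ℝ (Z i).1 E.e : ℝ) := fun i hi =>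
    lt_trans (by have := hN.posG i hi; positivity) (h2 i hi _ (hZ i hi).1)
  have pB : 0 < (inner ℝ B.1 E.e : ℝ) :=
    lt_trans (by have := hN.posB; positivity) (h3 _ hB1)
  have dB : ∀ i ∈ E.J, ∀ j ∈ E.J, i ≠ j → det3 B.1 (Z i).1 (Z j).1 ≠ 0 := fun i hi j hj hij =>
    h1 i hi j hj hij _ _ _ hB1 (hZ i hi).1 (hZ j hj).1
  have dB2 : ∀ i ∈ E.J, ∀ j ∈ E.J, i ≠ j → det3 (Z i).1 (Z j).1 B.1 ≠ 0 := by
    intro i hi j hj hij
    rw [← det3_cyc]
    exact dB i hi j hj hij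
  have dB3 : ∀ i ∈ E.J, ∀ j ∈ E.J, i ≠ j → det3 (Z i).1 B.1 (Z j).1 ≠ 0 := by
    intro i hi j hj hij
    rw [det3_swap]
    exact neg_ne_zero.2 (dB i hi j hj hij)
  -- A is below B near x
  have hAB : tz E.e A x < tz E.e B x := by
    have a1 := h4 A hA1 hA2 x hx1
    have a2 := h5 B hB1 hB2 x hx1
    have a3 := hm x hx
    have a4 : 0 < m * ‖x‖ := mul_pos hm0 (lt_of_lt_of_le one_pos hx1)
    rw [abs_le] at a1 a2
    nlinarith [a1.1, a1.2, a2.1, a2.2]
  have hABev : ∀ᶠ y in 𝓝 x, tz E.e A y < tz E.e B y :=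
    ((tz_cont _ _).continuousAt).eventually_lt (tz_cont _ _).continuousAt hAB
  -- no three planes at the same time
  have hno : ∀ i ∈ E.J, ∀ j ∈ E.J, ∀ l ∈ E.J, i ≠ j → i ≠ l → j ≠ l →
      tz E.e (Z i) x = tz E.e (Z j) x → tz E.e (Z i) x = tz E.e (Z l) x → False := by
    intro i hi j hj l hl hij hil hjl e1 e2
    set t := tz E.e (Z i) x with ht
    have z0 : ∀ q ∈ E.J, tz E.e (Z q) x = t → |(inner ℝ (Z q).1 (x + t • E.e) : ℝ)| ≤ K := by
      intro q hq hqt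
      have := ev_line (Z := Z q) (pZ q hq).ne' x t
      rw [hqt, sub_self, mul_zero] at this
      unfold ev at this
      have e : (inner ℝ (Z q).1 (x + t • E.e) : ℝ) = (Z q).2 := by linarith
      rw [e]
      exact (hZ q hq).2
    have hy := hRall i hi j hj l hl hij hil hjl (Z i).1 (Z j).1 (Z l).1
      ((hZ i hi).1.trans h6) ((hZ j hj).1.trans h6) ((hZ l hl).1.trans h6) (x + t • E.e)
      (z0 i hi rfl) (z0 j hj e1.symm) (z0 l hl e2.symm)
    have hbig : ‖x‖ ≤ (CP + CB) * ‖x + t • E.e‖ := by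
      rcases hx with ⟨a, c, _, _, _, rfl⟩ | ⟨c, d, _, _, _, rfl⟩
      · have hz : (inner ℝ (E.G E.iP) (a • E.pt + c • E.pu) : ℝ) = 0 := by
          rw [inner_add_right, inner_smul_right, inner_smul_right, hN.Pt, hN.Pu]; ring
        have := far E.e (E.G E.iP) _ hposP hz t
        rw [← hCP] at this
        have h0 : 0 ≤ CB * ‖a • E.pt + c • E.pu + t • E.e‖ := by positivity
        linarith
      · have hz : (inner ℝ E.nB (c • E.pu + d • E.pk) : ℝ) = 0 := by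
          rw [inner_add_right, inner_smul_right, inner_smul_right, hN.Bu, hN.Bk]; ring
        have := far E.e E.nB _ hN.posB hz t
        rw [← hCB] at this
        have h0 : 0 ≤ CP * ‖c • E.pu + d • E.pk + t • E.e‖ := by positivity
        linarith
    have : (CP + CB) * ‖x + t • E.e‖ ≤ (CP + CB) * R :=
      mul_le_mul_of_nonneg_left hy.le (by linarith)
    linarith
  -- local form of tN
  have hQ' : E.iQ ∈ E.J.erase E.iP := Finset.mem_erase.2 ⟨hN.PQ.symm, hN.memQ⟩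
  obtain ⟨i, hi, j, hj, hix, hjx, hmx⟩ := mx_local E Z (E.J.erase E.iP) x hQ'
    (fun i hi j hj l hl => hno i (Finset.mem_of_mem_erase hi) j (Finset.mem_of_mem_erase hj) l
      (Finset.mem_of_mem_erase hl))
  have hiJ := Finset.mem_of_mem_erase hi
  have hjJ := Finset.mem_of_mem_erase hj
  have hiP := Finset.ne_of_mem_erase hi
  have hjP := Finset.ne_of_mem_erase hj
  have htN : ∀ᶠ y in 𝓝 x, E.tN Z A B y = max (tz E.e (Z E.iP) y)
      (min (max (tz E.e (Z i) y) (tz E.e (Z j) y)) (tz E.e B y)) := by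
    filter_upwards [hABev, hmx] with y hy1 hy2
    unfold EndD.tN EndD.ab
    rw [if_neg hτ, if_neg hθ', hy2, max_eq_right hy1.le]
  show GermAt E.e x (E.tN Z A B)
  by_cases hij : i = j
  · subst hij
    refine ger3' (z1 := Z i) (z2 := B) (z3 := Z E.iP) (pZ i hiJ) pB (pZ _ hN.memP)
      (dB3 i hiJ _ hN.memP hiP) ?_
    filter_upwards [htN] with y hy
    rw [hy, max_self, max_comm]
  · have hPm : tz E.e (Z E.iP) x ≠ tz E.e (Z i) x := fun h =>
      hno _ hN.memP i hiJ j hjJ hiP.symm hjP.symm hij h (h.trans (hix.trans hjx.symm))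
    have hij' : tz E.e (Z i) x = tz E.e (Z j) x := hix.trans hjx.symm
    by_cases hlt : tz E.e (Z E.iP) x < min (tz E.e (Z i) x) (tz E.e B x)
    · -- the plane P does not matter
      refine ger3 (z1 := Z i) (z2 := Z j) (z3 := B) (pZ i hiJ) (pZ j hjJ) pB
        (dB2 i hiJ j hjJ hij) ?_
      have hlt' : tz E.e (Z E.iP) x <
          min (max (tz E.e (Z i) x) (tz E.e (Z j) x)) (tz E.e B x) := by
        rw [← hij', max_self]; exact hlt
      have hev : ∀ᶠ y in 𝓝 x, tz E.e (Z E.iP) y <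
          min (max (tz E.e (Z i) y) (tz E.e (Z j) y)) (tz E.e B y) :=
        ((tz_cont _ _).continuousAt).eventually_lt
          ((((tz_cont _ _).max (tz_cont _ _)).min (tz_cont _ _)).continuousAt) hlt'
      filter_upwards [htN, hev] with y hy hy2
      rw [hy, max_eq_right hy2.le]
    · rcases lt_or_ge (tz E.e B x) (tz E.e (Z i) x) with hBi | hBi
      · -- max (P, B)
        refine ger2max (z1 := Z E.iP) (z2 := B) (n := (Z E.iQ).1) (pZ _ hN.memP) pB
          (pZ _ hN.memQ) (dB3 _ hN.memP _ hN.memQ hN.PQ) ?_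
        have hev : ∀ᶠ y in 𝓝 x, tz E.e B y < tz E.e (Z i) y :=
          ((tz_cont _ _).continuousAt).eventually_lt ((tz_cont _ _).continuousAt) hBi
        filter_upwards [htN, hev] with y hy hy2
        rw [hy, min_eq_right (hy2.le.trans (le_max_left _ _))]
      · -- only P
        rw [min_eq_left hBi] at hlt
        have hlt2 : tz E.e (Z i) x < tz E.e (Z E.iP) x :=
          lt_of_le_of_ne (not_lt.1 hlt) hPm.symm
        have hlt3 : max (tz E.e (Z i) x) (tz E.e (Z j) x) < tz E.e (Z E.iP) x := by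
          rw [← hij', max_self]; exact hlt2
        refine ger1 (z1 := Z E.iP) (n2 := (Z E.iQ).1) (n3 := B.1) (pZ _ hN.memP) (pZ _ hN.memQ)
          pB (dB2 _ hN.memP _ hN.memQ hN.PQ) ?_
        have hev : ∀ᶠ y in 𝓝 x, max (tz E.e (Z i) y) (tz E.e (Z j) y) < tz E.e (Z E.iP) y :=
          (((tz_cont _ _).max (tz_cont _ _)).continuousAt).eventually_lt
            ((tz_cont _ _).continuousAt) hlt3
        filter_upwards [htN, hev] with y hy hy2
        rw [hy, max_eq_left ((min_le_left _ _).trans hy2.le)]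

end Pool.Agent.TSM
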