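import Pool.Agent.TSM.VBase2

/-!
# TSM, ENGM: germ of the ear
-/

set_option autoImplicit false

namespace Pool.Agent.TSM

open Set Filter Topology Metric

namespace ENGM_

theorem det3_zero1 (a b : E3) : det3 0 a b = 0 := by simp only [det3, PiLp.zero_apply]; ring
theorem det3_zero2 (a b : E3) : det3 a 0 b = 0 := by simp only [det3, PiLp.zero_apply]; ring
theorem det3_zero3 (a b : E3) : det3 a b 0 = 0 := by simp only [det3, PiLp.zero_apply]; ring

theorem indep3 (a b c : E3) (h : det3 a b c ≠ 0) {l m k : ℝ}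
    (he : l • a + m • b + k • c = 0) : l = 0 ∧ m = 0 ∧ k = 0 := by
  refine ⟨?_, ?_, ?_⟩
  · have h1 : det3 (l • a + m • b + k • c) b c = l * det3 a b c := by
      simp only [det3, PiLp.add_apply, PiLp.smul_apply, smul_eq_mul]; ring
    rw [he, det3_zero1] at h1
    rcases mul_eq_zero.1 h1.symm with h2 | h2
    · exact h2
    · exact absurd h2 h
  · have h1 : det3 a (l • a + m • b + k • c) c = m * det3 a b c := by
      simp only [det3, PiLp.add_apply, PiLp.smul_apply, smul_eq_mul]; ring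
    rw [he, det3_zero2] at h1
    rcases mul_eq_zero.1 h1.symm with h2 | h2
    · exact h2
    · exact absurd h2 h
  · have h1 : det3 a b (l • a + m • b + k • c) = k * det3 a b c := by
      simp only [det3, PiLp.add_apply, PiLp.smul_apply, smul_eq_mul]; ring
    rw [he, det3_zero3] at h1
    rcases mul_eq_zero.1 h1.symm with h2 | h2
    · exact h2
    · exact absurd h2 h

theorem linInd (a b c : E3) (h : det3 a b c ≠ 0) : LinearIndependent ℝ ![a, b, c] := by
  rw [Fintype.linearIndependent_iff]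
  intro g hg
  have h3 : g 0 • a + g 1 • b + g 2 • c = 0 := by
    have h4 := hg
    rw [Fin.sum_univ_three] at h4
    exact h4
  obtain ⟨h0, h1, h2⟩ := indep3 a b c h h3
  intro i
  fin_cases i
  · exact h0
  · exact h1
  · exact h2

theorem cont_det : Continuous fun v : E3 × E3 × E3 => det3 v.1 v.2.1 v.2.2 := by
  unfold det3
  fun_prop

end ENGM_

open ENGM_ in
theorem engm_proof : Stmt_Engm := by
  intro ι _ E ε δ hN K c₀
  have e1 : ∀ᶠ v : E3 × E3 × E3 in 𝓝 (E.nA, E.nB, E.G E.iQ), det3 v.1 v.2.1 v.2.2 ≠ 0 :=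
    cont_det.continuousAt.eventually_ne hN.indM
  have c2 : Continuous fun v : E3 × E3 × E3 => (inner ℝ v.1 E.e : ℝ) := by fun_prop
  have c3 : Continuous fun v : E3 × E3 × E3 => (inner ℝ v.2.1 E.e : ℝ) := by fun_prop
  have c4 : Continuous fun v : E3 × E3 × E3 => (inner ℝ v.2.2 E.e : ℝ) := by fun_prop
  have e2 := c2.continuousAt.eventually_const_lt
    (show 0 < (inner ℝ (E.nA, E.nB, E.G E.iQ).1 E.e : ℝ) from hN.posA)
  have e3 := c3.continuousAt.eventually_const_lt
    (show 0 < (inner ℝ (E.nA, E.nB, E.G E.iQ).2.1 E.e : ℝ) from hN.posB)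
  have e4 := c4.continuousAt.eventually_const_lt
    (show 0 < (inner ℝ (E.nA, E.nB, E.G E.iQ).2.2 E.e : ℝ) from hN.posG _ hN.memQ)
  obtain ⟨η, hη, H⟩ := Metric.eventually_nhds_iff.1 (((e1.and e2).and e3).and e4)
  refine ⟨η, hη, ?_⟩
  intro Z A B hC
  obtain ⟨h1, h2, -, h3, -⟩ := hC
  have hd : dist (A.1, B.1, (Z E.iQ).1) (E.nA, E.nB, E.G E.iQ) < η := by
    rw [Prod.dist_eq, Prod.dist_eq]
    simp only [dist_eq_norm]
    exact max_lt h2 (max_lt h3 (h1 _ hN.memQ).1)
  obtain ⟨⟨⟨H1, H2⟩, H3⟩, H4⟩ := H hd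
  simp only at H1 H2 H3 H4
  refine ⟨A, B, Z E.iQ, linInd _ _ _ H1, ?_⟩
  intro y
  unfold G3
  rw [ev_line H2.ne', ev_line H3.ne', ev_line H4.ne']
  unfold EndD.tM EndD.ab
  set a := tz E.e A y
  set b := tz E.e B y
  set q := tz E.e (Z E.iQ) y
  rcases le_total q (max a b) with h | h
  · rw [min_eq_left h, sub_self, mul_zero]
    apply max_eq_right
    rcases le_max_iff.1 h with h' | h'
    · exact (min_le_left _ _).trans (mul_nonpos_of_nonneg_of_nonpos H2.le (by linarith))
    · exact (min_le_right _ _).trans (mul_nonpos_of_nonneg_of_nonpos H3.le (by linarith))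
  · rw [min_eq_right h]
    have k1 : (inner ℝ (Z E.iQ).1 E.e : ℝ) * (max a b - q) ≤ 0 :=
      mul_nonpos_of_nonneg_of_nonpos H4.le (by linarith)
    have k2 : min ((inner ℝ A.1 E.e : ℝ) * (max a b - a)) ((inner ℝ B.1 E.e : ℝ) *
        (max a b - b)) = 0 := by
      have m1 : 0 ≤ (inner ℝ A.1 E.e : ℝ) * (max a b - a) :=
        mul_nonneg H2.le (by linarith [le_max_left a b])
      have m2 : 0 ≤ (inner ℝ B.1 E.e : ℝ) * (max a b - b) :=
        mul_nonneg H3.le (by linarith [le_max_right a b])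
      rcases le_total a b with h' | h'
      · rw [max_eq_right h', sub_self, mul_zero] at *
        exact min_eq_right m1
      · rw [max_eq_left h', sub_self, mul_zero] at *
        exact min_eq_left m2
    rw [k2]
    exact max_eq_left k1

end Pool.Agent.TSM
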