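import Pool.Agent.TSM.VBase2

/-!
# TSM, Part VM, module ENT2: times at an end of type II
-/

set_option autoImplicit false

namespace Pool.Agent.TSM

open Set Filter Topology Metric

namespace ENT2_

/-- the estimate for the time of one plane -/
theorem tz_est (e n : E3) (hg : 0 < (inner ℝ n e : ℝ)) :
    ∀ᶠ C : ℝ in atTop, ∀ η : ℝ, 0 < η → C * η ≤ 1 → ∀ Z : Aff, ‖Z.1 - n‖ < η →
      0 < (inner ℝ Z.1 e : ℝ) ∧ ∀ s K' : ℝ, |Z.2 - s| ≤ K' → ∀ x : E3,
        |tz e Z x - (th e n x + s / inner ℝ n e)| ≤ C * (K' + η * ‖x‖ + η * |s|) := by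
  set g : ℝ := inner ℝ n e with hgd
  set C0 : ℝ := 2 / g + 2 * ‖n‖ * ‖e‖ / g ^ 2 + 2 * ‖e‖ / g ^ 2 + 2 * ‖e‖ / g with hC0
  have h1 : 0 ≤ 2 / g := by positivity
  have h2 : 0 ≤ 2 * ‖n‖ * ‖e‖ / g ^ 2 := by positivity
  have h3 : 0 ≤ 2 * ‖e‖ / g ^ 2 := by positivity
  have h4 : 0 ≤ 2 * ‖e‖ / g := by positivity
  filter_upwards [eventually_ge_atTop C0] with C hC η hη hCη Z hZ
  have hCa : 2 / g ≤ C := by linarith
  have hCb : 2 / g + 2 * ‖n‖ * ‖e‖ / g ^ 2 ≤ C := by linarith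
  have hCc : 2 * ‖e‖ / g ^ 2 ≤ C := by linarith
  have hCd : 2 * ‖e‖ / g ≤ C := by linarith
  have h5 : |(inner ℝ Z.1 e : ℝ) - g| ≤ η * ‖e‖ := by
    have h6 : (inner ℝ Z.1 e : ℝ) - g = inner ℝ (Z.1 - n) e := by rw [inner_sub_left]
    rw [h6]
    exact (abs_real_inner_le_norm _ _).trans (mul_le_mul_of_nonneg_right hZ.le (norm_nonneg _))
  have h7 : η * ‖e‖ ≤ g / 2 := by
    have h8 : 2 * ‖e‖ / g * η ≤ 1 := (mul_le_mul_of_nonneg_right hCd hη.le).trans hCη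
    have h9 : 2 * ‖e‖ / g * η = 2 * (η * ‖e‖) / g := by ring
    rw [h9, div_le_one hg] at h8
    linarith
  have h10 : g / 2 ≤ (inner ℝ Z.1 e : ℝ) := by
    have := (abs_le.1 h5).1
    linarith
  have hq : 0 < (inner ℝ Z.1 e : ℝ) := by linarith
  refine ⟨hq, ?_⟩
  intro s K' hs x
  have hK' : 0 ≤ K' := (abs_nonneg _).trans hs
  have h11 : |(inner ℝ Z.1 x : ℝ) - inner ℝ n x| ≤ η * ‖x‖ := by
    rw [← inner_sub_left]
    exact (abs_real_inner_le_norm _ _).trans (mul_le_mul_of_nonneg_right hZ.le (norm_nonneg _))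
  have h12 : |(inner ℝ n x : ℝ)| ≤ ‖n‖ * ‖x‖ := abs_real_inner_le_norm _ _
  set q : ℝ := inner ℝ Z.1 e with hqd
  set p : ℝ := Z.2 - inner ℝ Z.1 x with hp
  set p' : ℝ := s - inner ℝ n x with hp'
  have h13 : tz e Z x = p / q := by
    unfold tz ev
    rw [hp]
    ring
  have h14 : th e n x + s / g = p' / g := by
    unfold th
    rw [hp']
    ring
  have h15 : |p - p'| ≤ K' + η * ‖x‖ := by
    have h16 : p - p' = (Z.2 - s) - (inner ℝ Z.1 x - inner ℝ n x) := by rw [hp, hp']; ring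
    rw [h16]
    exact (abs_sub _ _).trans (add_le_add hs h11)
  have h17 : |p'| ≤ |s| + ‖n‖ * ‖x‖ := (abs_sub _ _).trans (by linarith)
  have h18 : p / q - p' / g = (p - p') / q + p' * (g - q) / (q * g) := by
    field_simp
    ring
  rw [h13, h14, h18]
  have h19 : |(p - p') / q| ≤ 2 / g * (K' + η * ‖x‖) := by
    rw [abs_div, abs_of_pos hq, div_le_iff₀ hq]
    have h20 : 0 ≤ 2 / g * (K' + η * ‖x‖) := by positivity
    calc |p - p'| ≤ K' + η * ‖x‖ := h15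
      _ = 2 / g * (K' + η * ‖x‖) * (g / 2) := by field_simp
      _ ≤ 2 / g * (K' + η * ‖x‖) * q := mul_le_mul_of_nonneg_left h10 h20
  have h21 : |p' * (g - q) / (q * g)| ≤ 2 / g ^ 2 * ((|s| + ‖n‖ * ‖x‖) * (η * ‖e‖)) := by
    rw [abs_div, abs_mul, abs_of_pos (mul_pos hq hg), div_le_iff₀ (mul_pos hq hg)]
    have h22 : |g - q| ≤ η * ‖e‖ := by rw [abs_sub_comm]; exact h5
    have h23 : |p'| * |g - q| ≤ (|s| + ‖n‖ * ‖x‖) * (η * ‖e‖) :=
      mul_le_mul h17 h22 (abs_nonneg _) (by positivity)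
    have h24 : 0 ≤ 2 / g ^ 2 * ((|s| + ‖n‖ * ‖x‖) * (η * ‖e‖)) := by positivity
    calc |p'| * |g - q| ≤ (|s| + ‖n‖ * ‖x‖) * (η * ‖e‖) := h23
      _ = 2 / g ^ 2 * ((|s| + ‖n‖ * ‖x‖) * (η * ‖e‖)) * (g / 2 * g) := by field_simp
      _ ≤ 2 / g ^ 2 * ((|s| + ‖n‖ * ‖x‖) * (η * ‖e‖)) * (q * g) :=
        mul_le_mul_of_nonneg_left (mul_le_mul_of_nonneg_right h10 hg.le) h24
  have h25 : 2 / g * (K' + η * ‖x‖) + 2 / g ^ 2 * ((|s| + ‖n‖ * ‖x‖) * (η * ‖e‖))
      = 2 / g * K' + (2 / g + 2 * ‖n‖ * ‖e‖ / g ^ 2) * (η * ‖x‖)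
        + 2 * ‖e‖ / g ^ 2 * (η * |s|) := by ring
  have h26 : 2 / g * K' ≤ C * K' := mul_le_mul_of_nonneg_right hCa hK'
  have h27 : (2 / g + 2 * ‖n‖ * ‖e‖ / g ^ 2) * (η * ‖x‖) ≤ C * (η * ‖x‖) :=
    mul_le_mul_of_nonneg_right hCb (by positivity)
  have h28 : 2 * ‖e‖ / g ^ 2 * (η * |s|) ≤ C * (η * |s|) :=
    mul_le_mul_of_nonneg_right hCc (by positivity)
  calc |(p - p') / q + p' * (g - q) / (q * g)| ≤ |(p - p') / q| + |p' * (g - q) / (q * g)| :=
        abs_add_le _ _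
    _ ≤ 2 / g * (K' + η * ‖x‖) + 2 / g ^ 2 * ((|s| + ‖n‖ * ‖x‖) * (η * ‖e‖)) :=
        add_le_add h19 h21
    _ ≤ C * K' + C * (η * ‖x‖) + C * (η * |s|) := by rw [h25]; linarith
    _ = C * (K' + η * ‖x‖ + η * |s|) := by ring

theorem th_bd (e n : E3) (hg : 0 < (inner ℝ n e : ℝ)) :
    ∀ᶠ C : ℝ in atTop, ∀ x : E3, |th e n x| ≤ C * ‖x‖ := by
  filter_upwards [eventually_ge_atTop (‖n‖ / inner ℝ n e)] with C hC x
  unfold th
  rw [abs_div, abs_neg, abs_of_pos hg, div_le_iff₀ hg]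
  have h1 : |(inner ℝ n x : ℝ)| ≤ ‖n‖ * ‖x‖ := abs_real_inner_le_norm _ _
  have h2 : ‖n‖ ≤ C * inner ℝ n e := by rwa [div_le_iff₀ hg] at hC
  calc |(inner ℝ n x : ℝ)| ≤ ‖n‖ * ‖x‖ := h1
    _ ≤ C * inner ℝ n e * ‖x‖ := mul_le_mul_of_nonneg_right h2 (norm_nonneg _)
    _ = C * ‖x‖ * inner ℝ n e := by ring

theorem th_add (e n x y : E3) : th e n (x + y) = th e n x + th e n y := by
  unfold th
  rw [inner_add_right]
  ring

theorem th_smul (e n x : E3) (a : ℝ) : th e n (a • x) = a * th e n x := by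
  unfold th
  rw [inner_smul_right]
  ring

/-- margins on a two dimensional cone -/
theorem marg (v1 v2 : E3) (D1 D2 : ℝ) (h1 : 0 < D1) (h2 : 0 < D2) :
    ∀ᶠ m : ℝ in 𝓝[>] 0, ∀ α β : ℝ, 0 ≤ α → 0 ≤ β →
      m * ‖α • v1 + β • v2‖ ≤ α * D1 + β * D2 := by
  set L : ℝ := ‖v1‖ + ‖v2‖ + 1 with hL
  have hLpos : 0 < L := by positivity
  have hm0 : 0 < min D1 D2 / L := div_pos (lt_min h1 h2) hLpos
  have hIoo : Ioo (0 : ℝ) (min D1 D2 / L) ∈ 𝓝[>] (0 : ℝ) := Ioo_mem_nhdsGT hm0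
  filter_upwards [hIoo] with m hm α β hα hβ
  have h3 : ‖α • v1 + β • v2‖ ≤ (α + β) * L := by
    have h4 : ‖α • v1 + β • v2‖ ≤ α * ‖v1‖ + β * ‖v2‖ := by
      refine (norm_add_le _ _).trans ?_
      rw [norm_smul, norm_smul, Real.norm_of_nonneg hα, Real.norm_of_nonneg hβ]
    have h5 : α * ‖v1‖ ≤ α * L := mul_le_mul_of_nonneg_left (by
      have := norm_nonneg v2
      linarith) hα
    have h6 : β * ‖v2‖ ≤ β * L := mul_le_mul_of_nonneg_left (by
      have := norm_nonneg v1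
      linarith) hβ
    linarith
  have h7 : m * L ≤ min D1 D2 := by
    have := hm.2.le
    rwa [le_div_iff₀ hLpos] at this
  have h8 : min D1 D2 ≤ D1 := min_le_left _ _
  have h9 : min D1 D2 ≤ D2 := min_le_right _ _
  calc m * ‖α • v1 + β • v2‖ ≤ m * ((α + β) * L) := mul_le_mul_of_nonneg_left h3 hm.1.le
    _ = (α + β) * (m * L) := by ring
    _ ≤ (α + β) * min D1 D2 := mul_le_mul_of_nonneg_left h7 (by linarith)
    _ = α * min D1 D2 + β * min D1 D2 := by ring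
    _ ≤ α * D1 + β * D2 :=
      add_le_add (mul_le_mul_of_nonneg_left h8 hα) (mul_le_mul_of_nonneg_left h9 hβ)

variable {ι : Type} [DecidableEq ι]

theorem tN_eq (E : EndD ι) (hτ : 0 < E.τ) (hθ : E.θ < 0) (Z : ι → Aff) (A B : Aff) (x : E3) :
    E.tN Z A B x = min (E.mx Z E.J x) (E.ab A B x) := by
  unfold EndD.tN
  rw [if_neg (not_lt.2 hτ.le), if_pos hθ]

omit [DecidableEq ι] in
theorem tO_eq (E : EndD ι) (hτ : 0 < E.τ) (Z : ι → Aff) (x : E3) :
    E.tO Z x = E.mx Z E.J x := by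
  unfold EndD.tO
  rw [if_neg (not_lt.2 hτ.le)]

theorem mx_eq (E : EndD ι) (Z : ι → Aff) (x : E3) (j : ι) (hj : j ∈ E.J) (hQ : E.iQ ∈ E.J)
    (h : ∀ i ∈ E.J, i ≠ j → tz E.e (Z i) x ≤ tz E.e (Z j) x) :
    E.mx Z E.J x = tz E.e (Z j) x := by
  have h' : ∀ i ∈ E.J, tz E.e (Z i) x ≤ tz E.e (Z j) x := by
    intro i hi
    by_cases hij : i = j
    · rw [hij]
    · exact h i hi hij
  apply le_antisymm
  · rw [E.mx_le_iff]
    exact ⟨h' _ hQ, h'⟩
  · exact E.tz_le_mx Z _ x j hj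

/-- all margins at once -/
theorem margins (E : EndD ι) (ε δ : ℝ) (hN : E.Num ε δ) (hτ : 0 < E.τ) (hθ : E.θ < 0) :
    ∃ m κ₂ : ℝ, 0 < m ∧ 0 < κ₂ ∧
      (∀ i ∈ E.J, i ≠ E.iQ → ∀ c d : ℝ, 0 ≤ c → c ≤ d →
        th E.e (E.G i) (c • E.pu + d • E.pk) + m * ‖c • E.pu + d • E.pk‖ ≤
          th E.e (E.G E.iQ) (c • E.pu + d • E.pk)) ∧
      (∀ i ∈ E.J, i ≠ E.iP → ∀ a c : ℝ, 0 ≤ a → 0 ≤ c →
        th E.e (E.G i) (a • E.pt + c • E.pu) + m * ‖a • E.pt + c • E.pu‖ ≤ 0) ∧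
      (∀ a c : ℝ, 0 ≤ c → ε * c ≤ a →
        m * ‖a • E.pt + c • E.pu‖ ≤ th E.e E.nB (a • E.pt + c • E.pu)) ∧
      (∀ a c : ℝ, 0 ≤ a → 0 ≤ c → a ≤ δ * c →
        th E.e E.nA (a • E.pt + c • E.pu) + m * ‖a • E.pt + c • E.pu‖ ≤
          th E.e E.nB (a • E.pt + c • E.pu)) ∧
      (∀ c d : ℝ, 0 ≤ c → 0 ≤ d → (ε * d ≤ c ∨ d ≤ 2 * ε * c) →
        th E.e E.nA (c • E.pu + d • E.pk) + m * ‖c • E.pu + d • E.pk‖ ≤
          th E.e E.nB (c • E.pu + d • E.pk)) ∧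
      (∀ i ∈ E.J, i ≠ E.iP → ∀ c d : ℝ, 0 ≤ c → 0 ≤ d → d ≤ κ₂ * c →
        th E.e (E.G i) (c • E.pu + d • E.pk) + m * ‖c • E.pu + d • E.pk‖ ≤ 0) ∧
      (∀ c d : ℝ, 0 ≤ c → 0 ≤ d → (κ₂ * c ≤ d ∨ ε * c ≤ d) →
        m * ‖c • E.pu + d • E.pk‖ ≤ th E.e (E.G E.iP) (c • E.pu + d • E.pk)) := by
  have hε := hN.eps
  have hδ : 0 < δ := by have := hN.del; linarith
  have hgP := hN.posG _ hN.memP
  have hgA := hN.posA
  have hgB := hN.posB
  -- the choice of κ₂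
  have hk : ∀ᶠ κ : ℝ in 𝓝[>] 0, ∀ i ∈ E.J, i ≠ E.iP →
      0 < (inner ℝ (E.G i) E.pu : ℝ) + κ * inner ℝ (E.G i) E.pk := by
    rw [Filter.eventually_all_finset]
    intro i hi
    by_cases hiP : i = E.iP
    · exact Eventually.of_forall fun κ h => absurd hiP h
    · have h1 := (hN.t2 hτ hθ i hi hiP).1
      have h2 : Tendsto (fun κ : ℝ => (inner ℝ (E.G i) E.pu : ℝ) + κ * inner ℝ (E.G i) E.pk)
          (𝓝[>] 0) (𝓝 ((inner ℝ (E.G i) E.pu : ℝ) + 0 * inner ℝ (E.G i) E.pk)) := by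
        apply Tendsto.mono_left _ nhdsWithin_le_nhds
        exact Continuous.tendsto (by fun_prop) 0
      have h3 := h2.eventually (eventually_gt_nhds (by simpa using h1) :
        ∀ᶠ y in 𝓝 ((inner ℝ (E.G i) E.pu : ℝ) + 0 * inner ℝ (E.G i) E.pk), (0 : ℝ) < y)
      filter_upwards [h3] with κ hκ _
      exact hκ
  obtain ⟨κ₂, hκ₂, hκpos⟩ := (hk.and self_mem_nhdsWithin).exists
  have hκpos : 0 < κ₂ := hκpos
  -- single margins
  have e1 : ∀ᶠ m : ℝ in 𝓝[>] 0, ∀ i ∈ E.J, i ≠ E.iQ → ∀ c d : ℝ, 0 ≤ c → c ≤ d →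
        th E.e (E.G i) (c • E.pu + d • E.pk) + m * ‖c • E.pu + d • E.pk‖ ≤
          th E.e (E.G E.iQ) (c • E.pu + d • E.pk) := by
    rw [Filter.eventually_all_finset]
    intro i hi
    by_cases hiQ : i = E.iQ
    · exact Eventually.of_forall fun m h => absurd hiQ h
    · obtain ⟨h1, h2⟩ := hN.t23 hτ i hi hiQ
      filter_upwards [marg (E.pu + E.pk) E.pk _ _ (sub_pos.2 h1) (sub_pos.2 h2)] with m hm _ c d
        hc hcd
      have h3 := hm c (d - c) hc (by linarith)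
      have h4 : c • (E.pu + E.pk) + (d - c) • E.pk = c • E.pu + d • E.pk := by module
      rw [h4] at h3
      have h5 : ∀ n : E3, th E.e n (c • E.pu + d • E.pk) =
          c * th E.e n (E.pu + E.pk) + (d - c) * th E.e n E.pk := by
        intro n
        rw [← h4, th_add, th_smul, th_smul]
      rw [h5, h5]
      linarith
  have e2 : ∀ᶠ m : ℝ in 𝓝[>] 0, ∀ i ∈ E.J, i ≠ E.iP → ∀ a c : ℝ, 0 ≤ a → 0 ≤ c →
        th E.e (E.G i) (a • E.pt + c • E.pu) + m * ‖a • E.pt + c • E.pu‖ ≤ 0 := by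
    rw [Filter.eventually_all_finset]
    intro i hi
    by_cases hiP : i = E.iP
    · exact Eventually.of_forall fun m h => absurd hiP h
    · obtain ⟨h1, h2⟩ := hN.t2 hτ hθ i hi hiP
      have hg := hN.posG i hi
      have h3 : 0 < -th E.e (E.G i) E.pt := by
        unfold th
        rw [neg_div, neg_neg]
        positivity
      have h4 : 0 < -th E.e (E.G i) E.pu := by
        unfold th
        rw [neg_div, neg_neg]
        positivity
      filter_upwards [marg E.pt E.pu _ _ h3 h4] with m hm _ a c ha hc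
      have h5 := hm a c ha hc
      rw [th_add, th_smul, th_smul]
      linarith
  have hBt : th E.e E.nB E.pt = -E.θ / inner ℝ E.nB E.e := by
    unfold th
    rw [hN.Bt]
  have hBu : th E.e E.nB E.pu = 0 := by
    unfold th
    rw [hN.Bu]
    simp
  have hBk : th E.e E.nB E.pk = 0 := by
    unfold th
    rw [hN.Bk]
    simp
  have hAk : th E.e E.nA E.pk = 0 := by
    unfold th
    rw [hN.Ak]
    simp
  have hAu : 0 < -th E.e E.nA E.pu := by
    unfold th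
    rw [neg_div, neg_neg]
    exact div_pos hN.Au hgA
  have hBt' : 0 < th E.e E.nB E.pt := by
    rw [hBt]
    exact div_pos (by linarith) hgB
  have hPu : th E.e (E.G E.iP) E.pu = 0 := by
    unfold th
    rw [hN.Pu]
    simp
  have hPk : 0 < th E.e (E.G E.iP) E.pk := by
    unfold th
    rw [hN.Pk]
    exact div_pos (by linarith) hgP
  have e3 : ∀ᶠ m : ℝ in 𝓝[>] 0, ∀ a c : ℝ, 0 ≤ c → ε * c ≤ a →
        m * ‖a • E.pt + c • E.pu‖ ≤ th E.e E.nB (a • E.pt + c • E.pu) := by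
    have h1 : 0 < th E.e E.nB (ε • E.pt + E.pu) := by
      rw [th_add, th_smul, hBu, add_zero]
      exact mul_pos hε hBt'
    filter_upwards [marg E.pt (ε • E.pt + E.pu) _ _ hBt' h1] with m hm a c hc hca
    have h2 := hm (a - ε * c) c (by linarith) hc
    have h3 : (a - ε * c) • E.pt + c • (ε • E.pt + E.pu) = a • E.pt + c • E.pu := by module
    rw [h3] at h2
    have h5 : th E.e E.nB (a • E.pt + c • E.pu) =
          (a - ε * c) * th E.e E.nB E.pt + c * th E.e E.nB (ε • E.pt + E.pu) := by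
      rw [← h3, th_add, th_smul, th_smul]
    rw [h5]
    exact h2
  have e4 : ∀ᶠ m : ℝ in 𝓝[>] 0, ∀ a c : ℝ, 0 ≤ a → 0 ≤ c → a ≤ δ * c →
        th E.e E.nA (a • E.pt + c • E.pu) + m * ‖a • E.pt + c • E.pu‖ ≤
          th E.e E.nB (a • E.pt + c • E.pu) := by
    have h1 := sub_pos.2 hN.AB
    have h2 : 0 < th E.e E.nB E.pu - th E.e E.nA E.pu := by rw [hBu]; linarith
    filter_upwards [marg (E.pu + δ • E.pt) E.pu _ _ h1 h2] with m hm a c ha hc hac
    have h6 : a / δ ≤ c := by rw [div_le_iff₀ hδ]; linarith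
    have h3 := hm (a / δ) (c - a / δ) (by positivity) (by linarith)
    have h4 : (a / δ) • (E.pu + δ • E.pt) + (c - a / δ) • E.pu = a • E.pt + c • E.pu := by
      have h7 : (a / δ) • (E.pu + δ • E.pt) + (c - a / δ) • E.pu
          = (a / δ * δ) • E.pt + c • E.pu := by module
      rw [h7, div_mul_cancel₀ a hδ.ne']
    rw [h4] at h3
    have h5 : ∀ n : E3, th E.e n (a • E.pt + c • E.pu) =
          (a / δ) * th E.e n (E.pu + δ • E.pt) + (c - a / δ) * th E.e n E.pu := by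
      intro n
      rw [← h4, th_add, th_smul, th_smul]
    rw [h5, h5]
    linarith
  have e5 : ∀ ρ : ℝ, 0 < ρ → ∀ᶠ m : ℝ in 𝓝[>] 0, ∀ c d : ℝ, 0 ≤ c → 0 ≤ d → ρ * d ≤ c →
        th E.e E.nA (c • E.pu + d • E.pk) + m * ‖c • E.pu + d • E.pk‖ ≤
          th E.e E.nB (c • E.pu + d • E.pk) := by
    intro ρ hρ
    have h1 : 0 < -(ρ * th E.e E.nA E.pu) := by
      have := mul_pos hρ hAu
      linarith
    filter_upwards [marg (ρ • E.pu + E.pk) E.pu _ _ h1 hAu] with m hm c d hc hd hcd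
    have h3 := hm d (c - ρ * d) hd (by linarith)
    have h4 : d • (ρ • E.pu + E.pk) + (c - ρ * d) • E.pu = c • E.pu + d • E.pk := by module
    rw [h4] at h3
    rw [th_add, th_smul, th_smul, th_add, th_smul, th_smul, hBu, hBk, hAk]
    linarith
  have e6 : ∀ᶠ m : ℝ in 𝓝[>] 0, ∀ i ∈ E.J, i ≠ E.iP → ∀ c d : ℝ, 0 ≤ c → 0 ≤ d →
      d ≤ κ₂ * c →
        th E.e (E.G i) (c • E.pu + d • E.pk) + m * ‖c • E.pu + d • E.pk‖ ≤ 0 := by
    rw [Filter.eventually_all_finset]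
    intro i hi
    by_cases hiP : i = E.iP
    · exact Eventually.of_forall fun m h => absurd hiP h
    · have h1 := (hN.t2 hτ hθ i hi hiP).1
      have hg := hN.posG i hi
      have h2 := hκ₂ i hi hiP
      have h3 : 0 < -th E.e (E.G i) E.pu := by
        unfold th
        rw [neg_div, neg_neg]
        positivity
      have h4 : 0 < -th E.e (E.G i) (E.pu + κ₂ • E.pk) := by
        unfold th
        rw [neg_div, neg_neg, inner_add_right, inner_smul_right]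
        positivity
      filter_upwards [marg (E.pu + κ₂ • E.pk) E.pu _ _ h4 h3] with m hm _ c d hc hd hcd
      have h6 : d / κ₂ ≤ c := by rw [div_le_iff₀ hκpos]; linarith
      have h7 := hm (d / κ₂) (c - d / κ₂) (by positivity) (by linarith)
      have h8 : (d / κ₂) • (E.pu + κ₂ • E.pk) + (c - d / κ₂) • E.pu = c • E.pu + d • E.pk := by
        have h9 : (d / κ₂) • (E.pu + κ₂ • E.pk) + (c - d / κ₂) • E.pu
            = c • E.pu + (d / κ₂ * κ₂) • E.pk := by module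
        rw [h9, div_mul_cancel₀ d hκpos.ne']
      rw [h8] at h7
      have h10 : th E.e (E.G i) (c • E.pu + d • E.pk) =
          (d / κ₂) * th E.e (E.G i) (E.pu + κ₂ • E.pk) + (c - d / κ₂) * th E.e (E.G i) E.pu := by
        rw [← h8, th_add, th_smul, th_smul]
      rw [h10]
      linarith
  have e7 : ∀ ρ : ℝ, 0 < ρ → ∀ᶠ m : ℝ in 𝓝[>] 0, ∀ c d : ℝ, 0 ≤ c → 0 ≤ d → ρ * c ≤ d →
        m * ‖c • E.pu + d • E.pk‖ ≤ th E.e (E.G E.iP) (c • E.pu + d • E.pk) := by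
    intro ρ hρ
    have h1 : 0 < ρ * th E.e (E.G E.iP) E.pk := mul_pos hρ hPk
    filter_upwards [marg (E.pu + ρ • E.pk) E.pk _ _ h1 hPk] with m hm c d hc hd hcd
    have h3 := hm c (d - ρ * c) hc (by linarith)
    have h4 : c • (E.pu + ρ • E.pk) + (d - ρ * c) • E.pk = c • E.pu + d • E.pk := by module
    rw [h4] at h3
    rw [th_add, th_smul, th_smul, hPu]
    linarith
  have hρ : 0 < 1 / (2 * ε) := by positivity
  obtain ⟨m, ⟨h1, h2, h3, h4, h5, h5', h6, h7, h7'⟩, hm⟩ :=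
    ((e1.and (e2.and (e3.and (e4.and ((e5 ε hε).and ((e5 _ hρ).and (e6.and
      ((e7 κ₂ hκpos).and (e7 ε hε))))))))).and
      (self_mem_nhdsWithin : Ioi (0 : ℝ) ∈ 𝓝[>] (0 : ℝ))).exists
  refine ⟨m, κ₂, hm, hκpos, h1, h2, h3, h4, ?_, h6, ?_⟩
  · intro c d hc hd h
    rcases h with h | h
    · exact h5 c d hc hd h
    · apply h5' c d hc hd
      rw [one_div, inv_mul_le_iff₀ (by positivity)]
      exact h
  · intro c d hc hd h
    rcases h with h | h
    · exact h7 c d hc hd h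
    · exact h7' c d hc hd h

end ENT2_

open ENT2_ in
theorem ent2_proof : Stmt_Ent2 := by
  intro ι _ E ε δ hN hτ hθ κ₁ hκ₁ K
  obtain ⟨m, κ₂, hm, hκ₂, m1, m2, m3, m4, m5, m6, m7⟩ := margins E ε δ hN hτ hθ
  have hε := hN.eps
  have hgA := hN.posA
  have hgB := hN.posB
  -- the constant C
  have hC1 : ∀ᶠ C : ℝ in atTop, ∀ i ∈ E.J, (∀ η : ℝ, 0 < η → C * η ≤ 1 → ∀ Z : Aff,
      ‖Z.1 - E.G i‖ < η →
      0 < (inner ℝ Z.1 E.e : ℝ) ∧ ∀ s K' : ℝ, |Z.2 - s| ≤ K' → ∀ x : E3,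
        |tz E.e Z x - (th E.e (E.G i) x + s / inner ℝ (E.G i) E.e)| ≤
          C * (K' + η * ‖x‖ + η * |s|)) ∧ ∀ x : E3, |th E.e (E.G i) x| ≤ C * ‖x‖ := by
    rw [Filter.eventually_all_finset]
    intro i hi
    exact (tz_est E.e (E.G i) (hN.posG i hi)).and (th_bd E.e (E.G i) (hN.posG i hi))
  obtain ⟨C, hCG, hCA, hCB, hCA', hCB', hCpos⟩ :=
    (hC1.and ((tz_est E.e E.nA hgA).and ((tz_est E.e E.nB hgB).and ((th_bd E.e E.nA hgA).and
      ((th_bd E.e E.nB hgB).and (eventually_gt_atTop (0 : ℝ))))))).exists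
  set κ : ℝ := min (m / 4) κ₁ with hκd
  have hκ : 0 < κ := lt_min (by positivity) hκ₁
  have hκm : κ ≤ m / 4 := min_le_left _ _
  have hκκ : κ ≤ κ₁ := min_le_right _ _
  set R₁ : ℝ := 2 * C * (|K| + 1) / κ with hR₁
  have hR₁pos : 0 < R₁ := by positivity
  refine ⟨R₁, hR₁pos, ?_⟩
  intro R₂
  refine ⟨2 * (C + κ) * |R₂| + 1, ?_⟩
  intro c₀ hc₀
  have hc₀pos : 0 < c₀ := by
    have : 0 ≤ 2 * (C + κ) * |R₂| := by positivity
    linarith
  set gA : ℝ := inner ℝ E.nA E.e with hgAd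
  set gB : ℝ := inner ℝ E.nB E.e with hgBd
  set D : ℝ := 1 + c₀ * gA + c₀ * gB with hD
  have hD1 : 1 + c₀ * gA ≤ D := by
    have : 0 < c₀ * gB := by positivity
    linarith
  have hD2 : 1 + c₀ * gB ≤ D := by
    have : 0 < c₀ * gA := by positivity
    linarith
  have hD0 : 1 ≤ D := by
    have : 0 < c₀ * gA := by positivity
    linarith
  set μ : ℝ := min (min 1 (κ / 2)) (κ * R₁ / 2) with hμ
  have hμpos : 0 < μ := by
    apply lt_min
    · exact lt_min one_pos (by positivity)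
    · positivity
  have hμ1 : μ ≤ 1 := (min_le_left _ _).trans (min_le_left _ _)
  have hμ2 : μ ≤ κ / 2 := (min_le_left _ _).trans (min_le_right _ _)
  have hμ3 : μ ≤ κ * R₁ / 2 := min_le_right _ _
  set η : ℝ := μ / (C * D) with hη
  have hηpos : 0 < η := by positivity
  have hCηD : C * η * D = μ := by
    rw [hη]
    field_simp
  have hCη : C * η ≤ μ := by
    rw [← hCηD]
    exact le_mul_of_one_le_right (by positivity) hD0
  have hCη1 : C * η ≤ 1 := hCη.trans hμ1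
  refine ⟨η, R₁ + 2 * (c₀ + 1) / m, C + 1 + C * |K| + (c₀ + 1 + c₀ * gA + c₀ * gB), hηpos, ?_⟩
  intro Z A B hcl
  obtain ⟨hZ, hA1, hA2, hB1, hB2⟩ := hcl
  -- estimates
  have bG : ∀ i ∈ E.J, ∀ x : E3, |tz E.e (Z i) x - th E.e (E.G i) x| ≤
      C * |K| + C * η * ‖x‖ := by
    intro i hi x
    have h1 := ((hCG i hi).1 η hηpos hCη1 (Z i) (hZ i hi).1).2 0 |K|
      (by rw [sub_zero]; exact (hZ i hi).2.trans (le_abs_self K)) x
    simp only [zero_div, add_zero, abs_zero, mul_zero] at h1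
    calc _ ≤ C * (|K| + η * ‖x‖) := h1
      _ = _ := by ring
  have bA : ∀ x : E3, |tz E.e A x - (th E.e E.nA x + c₀)| ≤ μ + C * η * ‖x‖ := by
    intro x
    have h1 := (hCA η hηpos hCη1 A hA1).2 (c₀ * gA) η hA2.le x
    rw [mul_div_assoc, div_self hgA.ne', mul_one,
      abs_of_pos (show 0 < c₀ * gA by positivity)] at h1
    have h2 : C * (η + η * ‖x‖ + η * (c₀ * gA)) = C * η * (1 + c₀ * gA) + C * η * ‖x‖ := by ring
    rw [h2] at h1
    have h3 : C * η * (1 + c₀ * gA) ≤ C * η * D := mul_le_mul_of_nonneg_left hD1 (by positivity)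
    linarith
  have bB : ∀ x : E3, |tz E.e B x - (th E.e E.nB x + c₀)| ≤ μ + C * η * ‖x‖ := by
    intro x
    have h1 := (hCB η hηpos hCη1 B hB1).2 (c₀ * gB) η hB2.le x
    rw [mul_div_assoc, div_self hgB.ne', mul_one,
      abs_of_pos (show 0 < c₀ * gB by positivity)] at h1
    have h2 : C * (η + η * ‖x‖ + η * (c₀ * gB)) = C * η * (1 + c₀ * gB) + C * η * ‖x‖ := by ring
    rw [h2] at h1
    have h3 : C * η * (1 + c₀ * gB) ≤ C * η * D := mul_le_mul_of_nonneg_left hD2 (by positivity)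
    linarith
  have hCηx : ∀ x : E3, C * η * ‖x‖ ≤ κ / 2 * ‖x‖ := fun x =>
    mul_le_mul_of_nonneg_right (hCη.trans hμ2) (norm_nonneg _)
  have fG : ∀ i ∈ E.J, ∀ x : E3, R₁ ≤ ‖x‖ → |tz E.e (Z i) x - th E.e (E.G i) x| ≤ κ * ‖x‖ := by
    intro i hi x hx
    have h1 : C * |K| ≤ κ / 2 * ‖x‖ := by
      have h2 : κ / 2 * R₁ ≤ κ / 2 * ‖x‖ := mul_le_mul_of_nonneg_left hx (by positivity)
      have h3 : κ / 2 * R₁ = C * (|K| + 1) := by
        rw [hR₁]
        field_simp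
      have h4 : C * |K| ≤ C * (|K| + 1) := mul_le_mul_of_nonneg_left (by linarith) hCpos.le
      linarith
    have := bG i hi x
    have := hCηx x
    linarith
  have hμx : ∀ x : E3, R₁ ≤ ‖x‖ → μ ≤ κ / 2 * ‖x‖ := by
    intro x hx
    have h2 : κ / 2 * R₁ ≤ κ / 2 * ‖x‖ := mul_le_mul_of_nonneg_left hx (by positivity)
    linarith
  have fA : ∀ x : E3, R₁ ≤ ‖x‖ → |tz E.e A x - (th E.e E.nA x + c₀)| ≤ κ * ‖x‖ := by
    intro x hx
    have h1 := bA x
    have h2 := hCηx x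
    have h3 := hμx x hx
    linarith
  have fB : ∀ x : E3, R₁ ≤ ‖x‖ → |tz E.e B x - (th E.e E.nB x + c₀)| ≤ κ * ‖x‖ := by
    intro x hx
    have h1 := bB x
    have h2 := hCηx x
    have h3 := hμx x hx
    linarith
  have hmκ : ∀ x : E3, κ * ‖x‖ ≤ m / 4 * ‖x‖ := fun x =>
    mul_le_mul_of_nonneg_right hκm (norm_nonneg _)
  have hmx : ∀ x : E3, R₁ ≤ ‖x‖ → 0 < m * ‖x‖ := fun x hx =>
    mul_pos hm (hR₁pos.trans_le hx)
  have hBu : th E.e E.nB E.pu = 0 := by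
    unfold th
    rw [hN.Bu]
    simp
  have hBk : th E.e E.nB E.pk = 0 := by
    unfold th
    rw [hN.Bk]
    simp
  have hBt : 0 < th E.e E.nB E.pt := by
    unfold th
    rw [hN.Bt]
    exact div_pos (by linarith) hgB
  have hAk : th E.e E.nA E.pk = 0 := by
    unfold th
    rw [hN.Ak]
    simp
  have hAu : th E.e E.nA E.pu < 0 := by
    unfold th
    rw [neg_div]
    exact neg_lt_zero.2 (div_pos hN.Au hgA)
  have hPu : th E.e (E.G E.iP) E.pu = 0 := by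
    unfold th
    rw [hN.Pu]
    simp
  have hPt : th E.e (E.G E.iP) E.pt = 0 := by
    unfold th
    rw [hN.Pt]
    simp
  have hPk : 0 < th E.e (E.G E.iP) E.pk := by
    unfold th
    rw [hN.Pk]
    exact div_pos (by linarith) (hN.posG _ hN.memP)
  -- `mx = T_P` on the old face
  have oldP : ∀ a c : ℝ, 0 ≤ a → 0 ≤ c → ∀ x : E3, x = a • E.pt + c • E.pu → R₁ ≤ ‖x‖ →
      E.mx Z E.J x = tz E.e (Z E.iP) x := by
    intro a c ha hc x hx hR
    apply mx_eq E Z x E.iP hN.memP hN.memQ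
    intro i hi hiP
    have h1 := m2 i hi hiP a c ha hc
    rw [← hx] at h1
    have h2 := (abs_le.1 (fG i hi x hR)).2
    have h3 := (abs_le.1 (fG _ hN.memP x hR)).1
    have h4 : th E.e (E.G E.iP) x = 0 := by
      rw [hx, th_add, th_smul, th_smul, hPt, hPu]
      ring
    have h5 := hmκ x
    have h6 := hmx x hR
    linarith
  have thBold : ∀ a c : ℝ, 0 ≤ a → ∀ x : E3, x = a • E.pt + c • E.pu → 0 ≤ th E.e E.nB x := by
    intro a c ha x hx
    rw [hx, th_add, th_smul, th_smul, hBu]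
    have := mul_nonneg ha hBt.le
    linarith
  have thBnew : ∀ c d : ℝ, ∀ x : E3, x = c • E.pu + d • E.pk → th E.e E.nB x = 0 := by
    intro c d x hx
    rw [hx, th_add, th_smul, th_smul, hBu, hBk]
    ring
  have thB : ∀ x ∈ E.Old δ ∪ E.NewF, 0 ≤ th E.e E.nB x := by
    rintro x (⟨a, c, ha, hc, _, hx⟩ | ⟨c, d, hc, hd, hx⟩)
    · exact thBold a c ha x hx
    · exact (thBnew c d x hx).ge
  have abOld : ∀ a c : ℝ, 0 ≤ a → 0 ≤ c → a ≤ δ * c → ∀ x : E3, x = a • E.pt + c • E.pu →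
      R₁ ≤ ‖x‖ → E.ab A B x = tz E.e B x := by
    intro a c ha hc hac x hx hR
    have h1 := m4 a c ha hc hac
    rw [← hx] at h1
    have h2 := (abs_le.1 (fA x hR)).2
    have h3 := (abs_le.1 (fB x hR)).1
    have h5 := hmκ x
    have h6 := hmx x hR
    exact max_eq_right (by linarith)
  have abNew : ∀ c d : ℝ, 0 ≤ c → 0 ≤ d → (ε * d ≤ c ∨ d ≤ 2 * ε * c) → ∀ x : E3,
      x = c • E.pu + d • E.pk → R₁ ≤ ‖x‖ → E.ab A B x = tz E.e B x := by
    intro c d hc hd hcd x hx hR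
    have h1 := m5 c d hc hd hcd
    rw [← hx] at h1
    have h2 := (abs_le.1 (fA x hR)).2
    have h3 := (abs_le.1 (fB x hR)).1
    have h5 := hmκ x
    have h6 := hmx x hR
    exact max_eq_right (by linarith)
  have abNewle : ∀ c d : ℝ, 0 ≤ c → ∀ x : E3,
      x = c • E.pu + d • E.pk → R₁ ≤ ‖x‖ → E.ab A B x ≤ c₀ + κ * ‖x‖ := by
    intro c d hc x hx hR
    have h2 := (abs_le.1 (fA x hR)).2
    have h3 := (abs_le.1 (fB x hR)).2
    have h4 : th E.e E.nA x ≤ 0 := by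
      rw [hx, th_add, th_smul, th_smul, hAk]
      have := mul_nonneg hc (neg_pos.2 hAu).le
      linarith
    have h5 := thBnew c d x hx
    exact max_le (by linarith) (by linarith)
  have bigP : ∀ c d : ℝ, 0 ≤ c → 0 ≤ d → (κ₂ * c ≤ d ∨ ε * c ≤ d) → ∀ x : E3,
      x = c • E.pu + d • E.pk → R₁ + 2 * (c₀ + 1) / m ≤ ‖x‖ →
      E.ab A B x < tz E.e (Z E.iP) x := by
    intro c d hc hd hcd x hx hR
    have h0 : 0 < 2 * (c₀ + 1) / m := by positivity
    have hR' : R₁ ≤ ‖x‖ := by linarith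
    have h1 := m7 c d hc hd hcd
    rw [← hx] at h1
    have h2 := (abs_le.1 (fG _ hN.memP x hR')).1
    have h3 := abNewle c d hc x hx hR'
    have h5 := hmκ x
    have h6 : m / 2 * (2 * (c₀ + 1) / m) ≤ m / 2 * ‖x‖ :=
      mul_le_mul_of_nonneg_left (by linarith) (by positivity)
    have h7 : m / 2 * (2 * (c₀ + 1) / m) = c₀ + 1 := by
      field_simp
    linarith
  constructor
  · -- pos
    refine ⟨fun i hi => ((hCG i hi).1 η hηpos hCη1 (Z i) (hZ i hi).1).1,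
      (hCA η hηpos hCη1 A hA1).1, (hCB η hηpos hCη1 B hB1).1⟩
  · -- diag
    intro c d hc hcd x hx hR
    rw [tN_eq E hτ hθ]
    unfold EndD.tM
    rw [mx_eq E Z x E.iQ hN.memQ hN.memQ]
    intro i hi hiQ
    have h1 := m1 i hi hiQ c d hc hcd
    rw [← hx] at h1
    have h2 := (abs_le.1 (fG i hi x hR)).2
    have h3 := (abs_le.1 (fG _ hN.memQ x hR)).1
    have h5 := hmκ x
    have h6 := hmx x hR
    linarith
  · -- outer
    intro a c hc hca hac x hx hR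
    have ha : 0 ≤ a := (mul_nonneg hε.le hc).trans hca
    rw [tN_eq E hτ hθ, tO_eq E hτ, oldP a c ha hc x hx hR]
    refine ⟨min_eq_left ?_, rfl⟩
    rw [abOld a c ha hc hac x hx hR]
    have h1 := m3 a c hc hca
    rw [← hx] at h1
    have h2 := (abs_le.1 (fG _ hN.memP x hR)).2
    have h3 := (abs_le.1 (fB x hR)).1
    have h4 : th E.e (E.G E.iP) x = 0 := by
      rw [hx, th_add, th_smul, th_smul, hPt, hPu]
      ring
    have h5 := hmκ x
    have h6 := hmx x hR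
    linarith
  · -- near
    intro x hx hR hR2
    rw [tN_eq E hτ hθ, tO_eq E hτ]
    apply min_eq_left
    rw [E.mx_le_iff]
    have h0 : ‖x‖ ≤ |R₂| := hR2.trans (le_abs_self _)
    have h1 : ∀ i ∈ E.J, tz E.e (Z i) x ≤ E.ab A B x := by
      intro i hi
      have h2 := (abs_le.1 (fG i hi x hR)).2
      have h3 := (abs_le.1 (fB x hR)).1
      have h4 := (abs_le.1 ((hCG i hi).2 x)).2
      have h5 := thB x hx
      have h6 : tz E.e B x ≤ E.ab A B x := le_max_right _ _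
      have h7 : (C + κ) * ‖x‖ ≤ (C + κ) * |R₂| := mul_le_mul_of_nonneg_left h0 (by positivity)
      have h8 : κ * ‖x‖ ≤ (C + κ) * ‖x‖ :=
        mul_le_mul_of_nonneg_right (by linarith) (norm_nonneg _)
      have h9 : (C + κ) * ‖x‖ = C * ‖x‖ + κ * ‖x‖ := by ring
      linarith
    exact ⟨h1 _ hN.memQ, h1⟩
  · intro h
    exact absurd h (not_lt.2 hτ.le)
  · -- arm2
    intro _ _ x hx hR
    have h0 : 0 < 2 * (c₀ + 1) / m := by positivity
    have hR' : R₁ ≤ ‖x‖ := by linarith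
    rw [tN_eq E hτ hθ]
    rcases hx with ⟨a, c, ha, hc, hac, hx⟩ | ⟨c, d, hc, hd, hcd, hx⟩
    · have hac' : a ≤ δ * c := hac.trans (mul_le_mul_of_nonneg_right hN.del hc)
      rw [oldP a c ha hc x hx hR', abOld a c ha hc hac' x hx hR']
    · have hab := abNew c d hc hd (Or.inr hcd) x hx hR'
      by_cases hk : d ≤ κ₂ * c
      · rw [hab, mx_eq E Z x E.iP hN.memP hN.memQ]
        intro i hi hiP
        have h1 := m6 i hi hiP c d hc hd hk
        rw [← hx] at h1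
        have h2 := (abs_le.1 (fG i hi x hR')).2
        have h3 := (abs_le.1 (fG _ hN.memP x hR')).1
        have h4 : 0 ≤ th E.e (E.G E.iP) x := by
          rw [hx, th_add, th_smul, th_smul, hPu]
          have := mul_nonneg hd hPk.le
          linarith
        have h5 := hmκ x
        have h6 := hmx x hR'
        linarith
      · have h1 := bigP c d hc hd (Or.inl (not_le.1 hk).le) x hx hR
        rw [hab] at h1
        rw [hab, min_eq_right h1.le, min_eq_right]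
        exact h1.le.trans (E.tz_le_mx Z _ x _ hN.memP)
  · intro h
    exact absurd h (not_lt.2 hθ.le)
  · -- ear
    intro c d hc hd hcd x hx hR
    have h0 : 0 < 2 * (c₀ + 1) / m := by positivity
    have hR' : R₁ ≤ ‖x‖ := by linarith
    have h1 := bigP c d hc hd (Or.inr hcd) x hx hR
    rw [tN_eq E hτ hθ]
    have h2 : min (E.mx Z E.J x) (E.ab A B x) = E.ab A B x :=
      min_eq_right (h1.le.trans (E.tz_le_mx Z _ x _ hN.memP))
    refine ⟨h2, fun h => ?_⟩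
    rw [h2]
    exact abNew c d hc hd (Or.inl h) x hx hR'
  · -- le
    intro x hx hR
    rw [tN_eq E hτ hθ, tO_eq E hτ]
    refine ⟨min_le_left _ _, ?_, fun h => absurd h (not_lt.2 hτ.le),
      fun h => absurd h (not_lt.2 hθ.le)⟩
    rcases le_total (E.mx Z E.J x) (E.ab A B x) with h | h
    · left
      exact min_eq_left h
    · right
      rw [min_eq_right h]
      have h3 := (abs_le.1 (fB x hR)).1
      have h5 := thB x hx
      have h6 : tz E.e B x ≤ E.ab A B x := le_max_right _ _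
      have h7 : κ * ‖x‖ ≤ κ₁ * ‖x‖ := mul_le_mul_of_nonneg_right hκκ (norm_nonneg _)
      linarith
  · -- bound
    intro x
    rw [tN_eq E hτ hθ]
    set M : ℝ := C + 1 + C * |K| + (c₀ + 1 + c₀ * gA + c₀ * gB) with hM
    have hx0 := norm_nonneg x
    have hK0 := abs_nonneg K
    have hcg : 0 < c₀ * gA := by positivity
    have hcg' : 0 < c₀ * gB := by positivity
    have hCK : 0 ≤ C * |K| := by positivity
    have hM' : M * (1 + ‖x‖) = M + M * ‖x‖ := by ring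
    have hMx : (C + 1) * ‖x‖ ≤ M * ‖x‖ := mul_le_mul_of_nonneg_right (by linarith) hx0
    have hCx : C * η * ‖x‖ ≤ 1 * ‖x‖ := mul_le_mul_of_nonneg_right hCη1 hx0
    have b1 : ∀ i ∈ E.J, |tz E.e (Z i) x| ≤ M * (1 + ‖x‖) := by
      intro i hi
      have h1 := abs_le.1 (bG i hi x)
      have h2 := abs_le.1 ((hCG i hi).2 x)
      rw [abs_le]
      constructor <;> linarith
    have b2 : |tz E.e A x| ≤ M * (1 + ‖x‖) := by
      have h1 := abs_le.1 (bA x)
      have h2 := abs_le.1 (hCA' x)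
      rw [abs_le]
      constructor <;> linarith
    have b3 : |tz E.e B x| ≤ M * (1 + ‖x‖) := by
      have h1 := abs_le.1 (bB x)
      have h2 := abs_le.1 (hCB' x)
      rw [abs_le]
      constructor <;> linarith
    obtain ⟨i, hi, h⟩ := E.exists_mx Z E.J x hN.memQ
    rw [h]
    refine (abs_min_le_max_abs_abs).trans (max_le (b1 i hi) ?_)
    exact (abs_max_le_max_abs_abs).trans (max_le b2 b3)

end Pool.Agent.TSM
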