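import Pool.Agent.TSM.VBase2

/-!
# TSM, Part VM: times at an end of type III
-/

set_option autoImplicit false

namespace Pool.Agent.TSM

open Set Filter Topology Metric

namespace ENT3_

theorem th_lin (e n : E3) (a b : ℝ) (x y : E3) :
    th e n (a • x + b • y) = a * th e n x + b * th e n y := by
  unfold th
  rw [inner_add_right, inner_smul_right, inner_smul_right]
  ring

theorem abs_th (e n : E3) (h : 0 < (inner ℝ n e : ℝ)) (x : E3) :
    |th e n x| ≤ ‖n‖ / inner ℝ n e * ‖x‖ := by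
  unfold th
  rw [abs_div, abs_neg, abs_of_pos h, div_mul_eq_mul_div]
  exact div_le_div_of_nonneg_right (abs_real_inner_le_norm n x) h.le

theorem margin (f : E3 → ℝ)
    (hf : ∀ (a b : ℝ) (x y : E3), f (a • x + b • y) = a * f x + b * f y) (v w : E3)
    (hv : 0 < f v) (hw : 0 < f w) :
    ∃ m : ℝ, 0 < m ∧ ∀ s t : ℝ, 0 ≤ s → 0 ≤ t → m * ‖s • v + t • w‖ ≤ f (s • v + t • w) := by
  have hC : 0 < ‖v‖ + ‖w‖ + 1 := by positivity
  refine ⟨min (f v) (f w) / (‖v‖ + ‖w‖ + 1), div_pos (lt_min hv hw) hC, ?_⟩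
  intro s t hs ht
  rw [hf]
  have h1 : ‖s • v + t • w‖ ≤ (s + t) * (‖v‖ + ‖w‖ + 1) := by
    calc ‖s • v + t • w‖ ≤ ‖s • v‖ + ‖t • w‖ := norm_add_le _ _
      _ = s * ‖v‖ + t * ‖w‖ := by
        rw [norm_smul, norm_smul, Real.norm_of_nonneg hs, Real.norm_of_nonneg ht]
      _ ≤ (s + t) * (‖v‖ + ‖w‖ + 1) := by
        have h2 := norm_nonneg v
        have h3 := norm_nonneg w
        nlinarith [mul_nonneg hs h3, mul_nonneg ht h2]
  have h0 : 0 ≤ min (f v) (f w) / (‖v‖ + ‖w‖ + 1) := (div_pos (lt_min hv hw) hC).le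
  calc min (f v) (f w) / (‖v‖ + ‖w‖ + 1) * ‖s • v + t • w‖
      ≤ min (f v) (f w) / (‖v‖ + ‖w‖ + 1) * ((s + t) * (‖v‖ + ‖w‖ + 1)) :=
        mul_le_mul_of_nonneg_left h1 h0
    _ = min (f v) (f w) * (s + t) := by field_simp
    _ ≤ s * f v + t * f w := by
      nlinarith [mul_le_mul_of_nonneg_left (min_le_left (f v) (f w)) hs,
        mul_le_mul_of_nonneg_left (min_le_right (f v) (f w)) ht]

theorem fin_min {ι : Type} [DecidableEq ι] (J : Finset ι) (P : ι → ℝ → Prop)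
    (hP : ∀ i m m', m' ≤ m → P i m → P i m') (h : ∀ i ∈ J, ∃ m : ℝ, 0 < m ∧ P i m) :
    ∃ m : ℝ, 0 < m ∧ ∀ i ∈ J, P i m := by
  induction J using Finset.induction_on with
  | empty => exact ⟨1, one_pos, fun i hi => absurd hi (Finset.notMem_empty i)⟩
  | insert a s ha ih =>
    obtain ⟨m, hm, hs⟩ := ih fun i hi => h i (Finset.mem_insert_of_mem hi)
    obtain ⟨m', hm', hs'⟩ := h a (Finset.mem_insert_self a s)
    refine ⟨min m m', lt_min hm hm', fun i hi => ?_⟩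
    rcases Finset.mem_insert.1 hi with h1 | h1
    · subst h1; exact hP _ _ _ (min_le_right _ _) hs'
    · exact hP _ _ _ (min_le_left _ _) (hs i h1)

theorem fin_max {ι : Type} [DecidableEq ι] (J : Finset ι) (P : ι → ℝ → Prop)
    (hP : ∀ i m m', m ≤ m' → P i m → P i m') (h : ∀ i ∈ J, ∃ m : ℝ, 0 < m ∧ P i m) :
    ∃ m : ℝ, 0 < m ∧ ∀ i ∈ J, P i m := by
  induction J using Finset.induction_on with
  | empty => exact ⟨1, one_pos, fun i hi => absurd hi (Finset.notMem_empty i)⟩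
  | insert a s ha ih =>
    obtain ⟨m, hm, hs⟩ := ih fun i hi => h i (Finset.mem_insert_of_mem hi)
    obtain ⟨m', hm', hs'⟩ := h a (Finset.mem_insert_self a s)
    refine ⟨max m m', lt_max_of_lt_left hm, fun i hi => ?_⟩
    rcases Finset.mem_insert.1 hi with h1 | h1
    · subst h1; exact hP _ _ _ (le_max_right _ _) hs'
    · exact hP _ _ _ (le_max_left _ _) (hs i h1)

/-- the basic approximation -/
theorem apx (e n : E3) (h : 0 < (inner ℝ n e : ℝ)) (κ : ℝ) (hκ : 0 < κ) :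
    ∃ η : ℝ, 0 < η ∧ ∀ Z : Aff, ‖Z.1 - n‖ < η → 0 < (inner ℝ Z.1 e : ℝ) ∧
      ∀ x, |tz e Z x - th e n x - Z.2 / inner ℝ n e| ≤ κ * (‖x‖ + |Z.2|) := by
  set g : ℝ := inner ℝ n e with hg
  have hD : 0 < g + ‖n‖ * ‖e‖ + ‖e‖ := by positivity
  refine ⟨min (g / (2 * (‖e‖ + 1))) (κ * g ^ 2 / (2 * (g + ‖n‖ * ‖e‖ + ‖e‖))),
    lt_min (by positivity) (by positivity), ?_⟩
  intro Z hZ
  set r := ‖Z.1 - n‖ with hr
  have hr0 : 0 ≤ r := norm_nonneg _
  have hZ1 : r < g / (2 * (‖e‖ + 1)) := lt_of_lt_of_le hZ (min_le_left _ _)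
  have hZ2 : r < κ * g ^ 2 / (2 * (g + ‖n‖ * ‖e‖ + ‖e‖)) := lt_of_lt_of_le hZ (min_le_right _ _)
  rw [lt_div_iff₀ (by positivity)] at hZ1 hZ2
  have hge : |(inner ℝ Z.1 e : ℝ) - g| ≤ r * ‖e‖ := by
    rw [hg, ← inner_sub_left]
    exact abs_real_inner_le_norm _ _
  have he0 := norm_nonneg e
  have hn0 := norm_nonneg n
  set g' : ℝ := inner ℝ Z.1 e with hg'
  have hgg := abs_le.1 hge
  have hg2 : g / 2 ≤ g' := by nlinarith
  have hgpos : 0 < g' := by linarith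
  refine ⟨hgpos, fun x => ?_⟩
  have hx0 := norm_nonneg x
  have hform : tz e Z x - th e n x - Z.2 / g =
      (-(inner ℝ (Z.1 - n) x : ℝ) * g - inner ℝ n x * (g - g') + Z.2 * (g - g')) / (g * g') := by
    unfold tz th ev
    rw [← hg, ← hg', inner_sub_left]
    field_simp
    ring
  rw [hform, abs_div, abs_of_pos (mul_pos h hgpos), div_le_iff₀ (mul_pos h hgpos)]
  have h1 : |(inner ℝ (Z.1 - n) x : ℝ)| ≤ r * ‖x‖ := abs_real_inner_le_norm _ _
  have h2 : |(inner ℝ n x : ℝ)| ≤ ‖n‖ * ‖x‖ := abs_real_inner_le_norm _ _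
  have h3 : |g - g'| ≤ r * ‖e‖ := by rw [abs_sub_comm]; exact hge
  have hZ0 := abs_nonneg Z.2
  have h4 : |-(inner ℝ (Z.1 - n) x : ℝ) * g - inner ℝ n x * (g - g') + Z.2 * (g - g')| ≤
      r * ‖x‖ * g + ‖n‖ * ‖x‖ * (r * ‖e‖) + |Z.2| * (r * ‖e‖) := by
    have h5 : |-(inner ℝ (Z.1 - n) x : ℝ) * g| ≤ r * ‖x‖ * g := by
      rw [abs_mul, abs_neg, abs_of_pos h]
      exact mul_le_mul_of_nonneg_right h1 h.le
    have h6 : |(inner ℝ n x : ℝ) * (g - g')| ≤ ‖n‖ * ‖x‖ * (r * ‖e‖) := by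
      rw [abs_mul]
      exact mul_le_mul h2 h3 (abs_nonneg _) (by positivity)
    have h7 : |Z.2 * (g - g')| ≤ |Z.2| * (r * ‖e‖) := by
      rw [abs_mul]
      exact mul_le_mul_of_nonneg_left h3 hZ0
    have h8 := abs_le.1 h5
    have h9 := abs_le.1 h6
    have h10 := abs_le.1 h7
    rw [abs_le]
    constructor <;> linarith [h8.1, h8.2, h9.1, h9.2, h10.1, h10.2]
  refine h4.trans ?_
  have h11 : r * ‖x‖ * g + ‖n‖ * ‖x‖ * (r * ‖e‖) + |Z.2| * (r * ‖e‖) ≤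
      r * (g + ‖n‖ * ‖e‖ + ‖e‖) * (‖x‖ + |Z.2|) := by
    have h12 : 0 ≤ r * ‖e‖ * ‖x‖ := by positivity
    have h13 : 0 ≤ r * g * |Z.2| := by positivity
    have h14 : 0 ≤ r * (‖n‖ * ‖e‖) * |Z.2| := by positivity
    nlinarith
  refine h11.trans ?_
  have h15 : r * (g + ‖n‖ * ‖e‖ + ‖e‖) ≤ κ * (g * g') := by
    have h16 : κ * g ^ 2 / 2 ≤ κ * (g * g') := by
      have h17 : 0 ≤ κ * g := by positivity
      nlinarith [mul_le_mul_of_nonneg_left hg2 h17]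
    nlinarith
  calc r * (g + ‖n‖ * ‖e‖ + ‖e‖) * (‖x‖ + |Z.2|) ≤ κ * (g * g') * (‖x‖ + |Z.2|) :=
        mul_le_mul_of_nonneg_right h15 (by positivity)
    _ = κ * (‖x‖ + |Z.2|) * (g * g') := by ring

/-- the property of the planes `Z i` -/
def PZ (e n : E3) (κ K R M η : ℝ) : Prop := ∀ Z : Aff, ‖Z.1 - n‖ < η → |Z.2| ≤ K →
  0 < (inner ℝ Z.1 e : ℝ) ∧ (∀ x, R ≤ ‖x‖ → |tz e Z x - th e n x| ≤ κ * ‖x‖) ∧
    ∀ x, |tz e Z x| ≤ M * (1 + ‖x‖)

theorem apxZ (e n : E3) (h : 0 < (inner ℝ n e : ℝ)) (κ K : ℝ) (hκ : 0 < κ) :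
    ∃ R M η : ℝ, 0 < R ∧ 0 < M ∧ 0 < η ∧ PZ e n κ K R M η := by
  obtain ⟨η, hη, hZ⟩ := apx e n h (κ / 2) (by positivity)
  set g : ℝ := inner ℝ n e with hg
  have hK : 0 ≤ |K| := abs_nonneg K
  refine ⟨2 * ((κ / 2 + 1 / g) * |K|) / κ + 1, ‖n‖ / g + (κ / 2 + 1 / g) * |K| + κ / 2 + 1, η,
    by positivity, by positivity, hη, ?_⟩
  intro Z hn hK2
  obtain ⟨h1, h2⟩ := hZ Z hn
  have hb : ∀ x, |tz e Z x - th e n x| ≤ κ / 2 * ‖x‖ + (κ / 2 + 1 / g) * |K| := by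
    intro x
    have h3 := h2 x
    have h4 : |Z.2 / g| ≤ 1 / g * |K| := by
      rw [abs_div, abs_of_pos h, div_eq_mul_one_div, mul_comm]
      exact mul_le_mul_of_nonneg_left (hK2.trans (le_abs_self K)) (by positivity)
    have h5 : κ / 2 * (‖x‖ + |Z.2|) ≤ κ / 2 * ‖x‖ + κ / 2 * |K| := by
      rw [mul_add]
      have h6 := mul_le_mul_of_nonneg_left (hK2.trans (le_abs_self K)) (show 0 ≤ κ / 2 by positivity)
      linarith
    have h7 := abs_le.1 h3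
    have h8 := abs_le.1 h4
    rw [abs_le]
    constructor <;> nlinarith [h7.1, h7.2, h8.1, h8.2]
  refine ⟨h1, fun x hx => ?_, fun x => ?_⟩
  · have h3 := hb x
    have h4 : 2 * ((κ / 2 + 1 / g) * |K|) / κ ≤ ‖x‖ := by linarith
    rw [div_le_iff₀ hκ] at h4
    linarith
  · have h3 := abs_le.1 (hb x)
    have h4 := abs_le.1 (abs_th e n h x)
    have hx := norm_nonneg x
    have h5 : 0 ≤ (κ / 2 + 1 / g) * |K| := by positivity
    have h6 : 0 ≤ ‖n‖ / g := by positivity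
    rw [← hg] at h4
    rw [abs_le]
    constructor <;> nlinarith [h3.1, h3.2, h4.1, h4.2, mul_nonneg h5 hx]

/-- the property of the planes `A`, `B` -/
def PS (e n : E3) (κ c₀ M η : ℝ) : Prop := ∀ Z : Aff, ‖Z.1 - n‖ < η →
  |Z.2 - c₀ * inner ℝ n e| < η →
  0 < (inner ℝ Z.1 e : ℝ) ∧ (∀ x, 1 ≤ ‖x‖ → |tz e Z x - c₀ - th e n x| ≤ κ * ‖x‖) ∧
    ∀ x, |tz e Z x| ≤ M * (1 + ‖x‖)

theorem apxS (e n : E3) (h : 0 < (inner ℝ n e : ℝ)) (κ c₀ : ℝ) (hκ : 0 < κ) :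
    ∃ M η : ℝ, 0 < M ∧ 0 < η ∧ PS e n κ c₀ M η := by
  set g : ℝ := inner ℝ n e with hg
  have hc : 0 ≤ |c₀| := abs_nonneg c₀
  have hD : 0 < |c₀| * g + 2 := by positivity
  obtain ⟨η, hη, hZ⟩ := apx e n h (κ / (2 * (|c₀| * g + 2))) (by positivity)
  refine ⟨‖n‖ / g + |c₀| + κ + 1, min η (min 1 (κ * g / 2)), by positivity,
    lt_min hη (lt_min one_pos (by positivity)), ?_⟩
  intro Z hn hs
  obtain ⟨h1, h2⟩ := hZ Z (lt_of_lt_of_le hn (min_le_left _ _))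
  have hs1 : |Z.2 - c₀ * g| < 1 :=
    lt_of_lt_of_le hs ((min_le_right _ _).trans (min_le_left _ _))
  have hs2 : |Z.2 - c₀ * g| < κ * g / 2 :=
    lt_of_lt_of_le hs ((min_le_right _ _).trans (min_le_right _ _))
  have hZ2 : |Z.2| ≤ |c₀| * g + 1 := by
    have h3 : Z.2 = (Z.2 - c₀ * g) + c₀ * g := by ring
    rw [h3]
    refine (abs_add_le _ _).trans ?_
    rw [abs_mul, abs_of_pos h]
    linarith
  have hq : |Z.2 / g - c₀| ≤ κ / 2 := by
    have h3 : Z.2 / g - c₀ = (Z.2 - c₀ * g) / g := by field_simp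
    rw [h3, abs_div, abs_of_pos h, div_le_iff₀ h]
    linarith
  have hb : ∀ x, |tz e Z x - c₀ - th e n x| ≤
      κ / 2 + κ / (2 * (|c₀| * g + 2)) * (‖x‖ + (|c₀| * g + 1)) := by
    intro x
    have h3 := abs_le.1 (h2 x)
    have h4 := abs_le.1 hq
    have h5 : κ / (2 * (|c₀| * g + 2)) * (‖x‖ + |Z.2|) ≤
        κ / (2 * (|c₀| * g + 2)) * (‖x‖ + (|c₀| * g + 1)) :=
      mul_le_mul_of_nonneg_left (by linarith) (by positivity)
    rw [abs_le]
    constructor <;> linarith [h3.1, h3.2, h4.1, h4.2]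
  have hb2 : ∀ x : E3, κ / (2 * (|c₀| * g + 2)) * (‖x‖ + (|c₀| * g + 1)) ≤ κ / 2 * (1 + ‖x‖) := by
    intro x
    have hx := norm_nonneg x
    rw [div_mul_eq_mul_div, div_le_iff₀ (by positivity)]
    have h6 : 0 ≤ |c₀| * g := by positivity
    nlinarith [mul_nonneg h6 hx, mul_nonneg hκ.le (mul_nonneg h6 hx), mul_nonneg hκ.le hx,
      mul_nonneg hκ.le h6]
  have hb3 : ∀ x : E3, 1 ≤ ‖x‖ → κ / (2 * (|c₀| * g + 2)) * (‖x‖ + (|c₀| * g + 1)) ≤
      κ / 2 * ‖x‖ := by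
    intro x hx
    rw [div_mul_eq_mul_div, div_le_iff₀ (by positivity)]
    have h6 : 0 ≤ |c₀| * g := by positivity
    have h7 : ‖x‖ + (|c₀| * g + 1) ≤ (|c₀| * g + 2) * ‖x‖ := by nlinarith
    nlinarith [mul_le_mul_of_nonneg_left h7 hκ.le]
  refine ⟨h1, fun x hx => ?_, fun x => ?_⟩
  · refine (hb x).trans ?_
    have h7 := hb3 x hx
    nlinarith
  · have h3 := abs_le.1 (hb x)
    have h4 := abs_le.1 (abs_th e n h x)
    have h5 := hb2 x
    have hx := norm_nonneg x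
    have h6 : 0 ≤ ‖n‖ / g := by positivity
    have h7 := le_abs_self c₀
    have h8 := neg_abs_le c₀
    rw [← hg] at h4
    rw [abs_le]
    constructor <;> nlinarith [h3.1, h3.2, h4.1, h4.2, mul_nonneg hc hx]

/-- linear functions -/
def Ln (f : E3 → ℝ) : Prop := ∀ (a b : ℝ) (x y : E3), f (a • x + b • y) = a * f x + b * f y

theorem ln_th (e n : E3) : Ln (th e n) := fun a b x y => th_lin e n a b x y

theorem ln_neg {f : E3 → ℝ} (hf : Ln f) : Ln (fun x => -f x) := by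
  intro a b x y
  show -f (a • x + b • y) = a * -f x + b * -f y
  rw [hf]; ring

theorem ln_sub {f g : E3 → ℝ} (hf : Ln f) (hg : Ln g) : Ln (fun x => f x - g x) := by
  intro a b x y
  show f (a • x + b • y) - g (a • x + b • y) = a * (f x - g x) + b * (f y - g y)
  rw [hf, hg]; ring

theorem coneLow {f : E3 → ℝ} (hf : Ln f) (v w : E3) (ρ : ℝ) (h1 : 0 < ρ * f v + f w)
    (h2 : 0 < f v) :
    ∃ m : ℝ, 0 < m ∧ ∀ a c : ℝ, 0 ≤ c → ρ * c ≤ a → m * ‖a • v + c • w‖ ≤ f (a • v + c • w) := by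
  have h3 : f (ρ • v + (1 : ℝ) • w) = ρ * f v + f w := by rw [hf]; ring
  obtain ⟨m, hm, h⟩ := margin f hf v (ρ • v + (1 : ℝ) • w) h2 (by rw [h3]; exact h1)
  refine ⟨m, hm, fun a c hc hac => ?_⟩
  have h4 := h (a - ρ * c) c (by linarith) hc
  have h5 : (a - ρ * c) • v + c • (ρ • v + (1 : ℝ) • w) = a • v + c • w := by module
  rwa [h5] at h4

theorem coneUp {f : E3 → ℝ} (hf : Ln f) (v w : E3) (ρ : ℝ) (hρ : 0 < ρ)
    (h1 : 0 < ρ * f v + f w) (h2 : 0 < f w) :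
    ∃ m : ℝ, 0 < m ∧ ∀ a c : ℝ, 0 ≤ a → a ≤ ρ * c → m * ‖a • v + c • w‖ ≤ f (a • v + c • w) := by
  have h3 : f (ρ • v + (1 : ℝ) • w) = ρ * f v + f w := by rw [hf]; ring
  obtain ⟨m, hm, h⟩ := margin f hf w (ρ • v + (1 : ℝ) • w) h2 (by rw [h3]; exact h1)
  refine ⟨m, hm, fun a c ha hac => ?_⟩
  have h6 : a / ρ ≤ c := by rw [div_le_iff₀ hρ]; linarith
  have h4 := h (c - a / ρ) (a / ρ) (by linarith) (by positivity)
  have h7 : a / ρ * ρ = a := by field_simp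
  have h5 : (c - a / ρ) • w + (a / ρ) • (ρ • v + (1 : ℝ) • w) = a • v + c • w := by
    have h8 : (c - a / ρ) • w + (a / ρ) • (ρ • v + (1 : ℝ) • w) =
        (a / ρ * ρ) • v + c • w := by module
    rw [h8, h7]
  rwa [h5] at h4

/-- all margins -/
structure Mg {ι : Type} [DecidableEq ι] (E : EndD ι) (ε δ κ κ₂ : ℝ) : Prop where
  m1 : ∀ i ∈ E.J, i ≠ E.iQ → ∀ c d : ℝ, 0 ≤ c → c ≤ d →
    8 * κ * ‖c • E.pu + d • E.pk‖ ≤ th E.e (E.G E.iQ) (c • E.pu + d • E.pk) -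
      th E.e (E.G i) (c • E.pu + d • E.pk)
  m2 : ∀ c d : ℝ, 0 ≤ c → ε * c ≤ d →
    8 * κ * ‖c • E.pu + d • E.pk‖ ≤ -th E.e (E.G E.iP) (c • E.pu + d • E.pk)
  m2' : ∀ c d : ℝ, 0 ≤ c → c ≤ d →
    8 * κ * ‖c • E.pu + d • E.pk‖ ≤ -th E.e (E.G E.iP) (c • E.pu + d • E.pk)
  m3 : ∀ i ∈ E.J, i ≠ E.iP → ∀ a c : ℝ, 0 ≤ c → ε * c ≤ a →
    8 * κ * ‖a • E.pt + c • E.pu‖ ≤ -th E.e (E.G i) (a • E.pt + c • E.pu)
  m4 : ∀ a c : ℝ, 0 ≤ a → a ≤ δ * c →
    8 * κ * ‖a • E.pt + c • E.pu‖ ≤ th E.e E.nB (a • E.pt + c • E.pu) -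
      th E.e E.nA (a • E.pt + c • E.pu)
  m5 : ∀ c d : ℝ, 0 ≤ d → ε * d ≤ c →
    8 * κ * ‖c • E.pu + d • E.pk‖ ≤ -th E.e E.nA (c • E.pu + d • E.pk)
  m5' : ∀ c d : ℝ, 0 ≤ d → d ≤ 2 * ε * c →
    8 * κ * ‖c • E.pu + d • E.pk‖ ≤ -th E.e E.nA (c • E.pu + d • E.pk)
  m6 : ∀ c d : ℝ, 0 ≤ c → 0 ≤ d →
    8 * κ * ‖c • E.pu + d • E.pk‖ ≤ th E.e (E.G E.iQ) (c • E.pu + d • E.pk)
  m7 : ∀ a c : ℝ, 0 ≤ a → a ≤ κ₂ * c →
    8 * κ * ‖a • E.pt + c • E.pu‖ ≤ th E.e (E.G E.iQ) (a • E.pt + c • E.pu)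
  m7' : ∀ a c : ℝ, 0 ≤ c → κ₂ * c ≤ a →
    8 * κ * ‖a • E.pt + c • E.pu‖ ≤ -th E.e E.nB (a • E.pt + c • E.pu)

theorem scale {κ m r y : ℝ} (h : m * r ≤ y) (hr : 0 ≤ r) (hκ : 8 * κ ≤ m) : 8 * κ * r ≤ y :=
  (mul_le_mul_of_nonneg_right hκ hr).trans h

theorem exists_mg {ι : Type} [DecidableEq ι] (E : EndD ι) (ε δ : ℝ) (hN : E.Num ε δ)
    (hθ : 0 < E.θ) (κ₁ : ℝ) (hκ₁ : 0 < κ₁) :
    ∃ κ κ₂ : ℝ, 0 < κ ∧ κ ≤ κ₁ ∧ 0 < κ₂ ∧ Mg E ε δ κ κ₂ := by
  have hε := hN.eps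
  have hδ : 0 < δ := by have := hN.del; linarith
  have hτ : 0 < E.τ := by
    rcases lt_or_gt_of_ne hN.τne with h | h
    · exact absurd (hN.θτ h) (not_lt.2 hθ.le)
    · exact h
  have gP := hN.posG _ hN.memP
  have gQ := hN.posG _ hN.memQ
  have gA := hN.posA
  have gB := hN.posB
  have vPu : th E.e (E.G E.iP) E.pu = 0 := by unfold th; rw [hN.Pu]; simp
  have vPk : 0 < -th E.e (E.G E.iP) E.pk := by
    unfold th; rw [hN.Pk, neg_div, neg_neg]; positivity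
  have vBt : 0 < -th E.e E.nB E.pt := by
    unfold th; rw [hN.Bt, neg_div, neg_neg]; positivity
  have vBu : th E.e E.nB E.pu = 0 := by unfold th; rw [hN.Bu]; simp
  have vAu : 0 < -th E.e E.nA E.pu := by
    unfold th; rw [neg_div, neg_neg]; exact div_pos hN.Au gA
  have vAk : th E.e E.nA E.pk = 0 := by unfold th; rw [hN.Ak]; simp
  have vQu : 0 < th E.e (E.G E.iQ) E.pu := by
    unfold th
    exact div_pos (neg_pos.2 (hN.t3 hθ _ hN.memQ (Ne.symm hN.PQ)).1) gQ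
  have vQk : 0 < th E.e (E.G E.iQ) E.pk := by
    unfold th
    exact div_pos (neg_pos.2 hN.Qk) gQ
  have thadd : ∀ (n x y : E3) (r : ℝ), th E.e n (x + r • y) = th E.e n x + r * th E.e n y := by
    intro n x y r
    have := th_lin E.e n 1 r x y
    rw [one_smul, one_mul] at this
    exact this
  have thadd' : ∀ (n x y : E3), th E.e n (x + y) = th E.e n x + th E.e n y := by
    intro n x y
    have := thadd n x y 1
    rwa [one_smul, one_mul] at this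
  -- m1
  obtain ⟨a1, ha1, h1⟩ := fin_min E.J (fun i m => i ≠ E.iQ → ∀ d c : ℝ, 0 ≤ c → 1 * c ≤ d →
      m * ‖d • E.pk + c • E.pu‖ ≤ th E.e (E.G E.iQ) (d • E.pk + c • E.pu) -
      th E.e (E.G i) (d • E.pk + c • E.pu))
    (fun i m m' hm h hi d c hc hd =>
      (mul_le_mul_of_nonneg_right hm (norm_nonneg _)).trans (h hi d c hc hd))
    (fun i hi => by
      by_cases hq : i = E.iQ
      · exact ⟨1, one_pos, fun h => absurd hq h⟩
      · obtain ⟨t1, t2⟩ := hN.t23 hτ i hi hq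
        rw [thadd', thadd'] at t1
        obtain ⟨m, hm, h⟩ := coneLow (ln_sub (ln_th E.e (E.G E.iQ)) (ln_th E.e (E.G i)))
          E.pk E.pu 1 (by linarith) (by linarith)
        exact ⟨m, hm, fun _ => h⟩)
  -- m2
  obtain ⟨a2, ha2, h2⟩ := coneLow (ln_neg (ln_th E.e (E.G E.iP))) E.pk E.pu ε
    (by rw [vPu]; nlinarith [mul_pos hε vPk]) vPk
  obtain ⟨a2', ha2', h2'⟩ := coneLow (ln_neg (ln_th E.e (E.G E.iP))) E.pk E.pu 1
    (by rw [vPu]; linarith) vPk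
  -- m3
  obtain ⟨a3, ha3, h3⟩ := fin_min E.J (fun i m => i ≠ E.iP → ∀ a c : ℝ, 0 ≤ c → ε * c ≤ a →
      m * ‖a • E.pt + c • E.pu‖ ≤ -th E.e (E.G i) (a • E.pt + c • E.pu))
    (fun i m m' hm h hi d c hc hd =>
      (mul_le_mul_of_nonneg_right hm (norm_nonneg _)).trans (h hi d c hc hd))
    (fun i hi => by
      by_cases hq : i = E.iP
      · exact ⟨1, one_pos, fun h => absurd hq h⟩
      · obtain ⟨t1, t2, t3⟩ := hN.t3 hθ i hi hq
        have gi := hN.posG i hi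
        obtain ⟨m, hm, h⟩ := coneLow (ln_neg (ln_th E.e (E.G i))) E.pt E.pu ε
          (by
            show 0 < ε * -th E.e (E.G i) E.pt + -th E.e (E.G i) E.pu
            have h5 : ε * -th E.e (E.G i) E.pt + -th E.e (E.G i) E.pu =
              (ε * inner ℝ (E.G i) E.pt + inner ℝ (E.G i) E.pu) / inner ℝ (E.G i) E.e := by
              unfold th; ring
            rw [h5]
            exact div_pos t3 gi)
          (by
            show 0 < -th E.e (E.G i) E.pt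
            unfold th; rw [neg_div, neg_neg]; exact div_pos t2 gi)
        exact ⟨m, hm, fun _ => h⟩)
  -- m4
  obtain ⟨a4, ha4, h4⟩ := coneUp (ln_sub (ln_th E.e E.nB) (ln_th E.e E.nA)) E.pt E.pu δ hδ
    (by
      have h5 := hN.AB
      rw [thadd, thadd] at h5
      linarith)
    (by rw [vBu]; linarith)
  -- m5
  obtain ⟨a5, ha5, h5⟩ := coneLow (ln_neg (ln_th E.e E.nA)) E.pu E.pk ε
    (by rw [vAk]; nlinarith [mul_pos hε vAu]) vAu
  obtain ⟨a5', ha5', h5'⟩ := coneUp (ln_neg (ln_th E.e E.nA)) E.pk E.pu (2 * ε) (by positivity)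
    (by rw [vAk]; linarith) vAu
  -- m6
  obtain ⟨a6, ha6, h6⟩ := margin _ (ln_th E.e (E.G E.iQ)) E.pu E.pk vQu vQk
  -- m7
  obtain ⟨κ₂, hκ₂, hκ₃⟩ : ∃ κ₂ : ℝ, 0 < κ₂ ∧
      0 < κ₂ * th E.e (E.G E.iQ) E.pt + th E.e (E.G E.iQ) E.pu := by
    refine ⟨th E.e (E.G E.iQ) E.pu / (2 * (|th E.e (E.G E.iQ) E.pt| + 1)), by positivity, ?_⟩
    have h7 : th E.e (E.G E.iQ) E.pu / (2 * (|th E.e (E.G E.iQ) E.pt| + 1)) *
        |th E.e (E.G E.iQ) E.pt| ≤ th E.e (E.G E.iQ) E.pu / 2 := by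
      rw [div_mul_eq_mul_div, div_le_iff₀ (by positivity)]
      nlinarith [abs_nonneg (th E.e (E.G E.iQ) E.pt)]
    have h8 : -|th E.e (E.G E.iQ) E.pt| ≤ th E.e (E.G E.iQ) E.pt := neg_abs_le _
    have h9 : 0 < th E.e (E.G E.iQ) E.pu / (2 * (|th E.e (E.G E.iQ) E.pt| + 1)) := by positivity
    nlinarith [mul_le_mul_of_nonneg_left h8 h9.le]
  obtain ⟨a7, ha7, h7⟩ := coneUp (ln_th E.e (E.G E.iQ)) E.pt E.pu κ₂ hκ₂ hκ₃ vQu
  obtain ⟨a7', ha7', h7'⟩ := coneLow (ln_neg (ln_th E.e E.nB)) E.pt E.pu κ₂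
    (by rw [vBu]; nlinarith [mul_pos hκ₂ vBt]) vBt
  -- the minimum
  obtain ⟨κ, hκ, k0, k1, k2, k2', k3, k4, k5, k5', k6, k7, k7'⟩ : ∃ κ : ℝ, 0 < κ ∧ κ ≤ κ₁ ∧
      8 * κ ≤ a1 ∧ 8 * κ ≤ a2 ∧ 8 * κ ≤ a2' ∧ 8 * κ ≤ a3 ∧ 8 * κ ≤ a4 ∧ 8 * κ ≤ a5 ∧
      8 * κ ≤ a5' ∧ 8 * κ ≤ a6 ∧ 8 * κ ≤ a7 ∧ 8 * κ ≤ a7' := by
    have aux : ∀ l : List ℝ, (∀ x ∈ l, 0 < x) → ∃ κ : ℝ, 0 < κ ∧ ∀ x ∈ l, 8 * κ ≤ x := by
      intro l
      induction l with
      | nil => intro _; exact ⟨1, one_pos, fun x hx => absurd hx List.not_mem_nil⟩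
      | cons a l ih =>
        intro h
        obtain ⟨κ, hκ, hl⟩ := ih fun x hx => h x (List.mem_cons_of_mem a hx)
        have ha := h a List.mem_cons_self
        refine ⟨min κ (a / 8), lt_min hκ (by positivity), fun x hx => ?_⟩
        rcases List.mem_cons.1 hx with h1 | h1
        · subst h1
          have := min_le_right κ (x / 8)
          linarith
        · have := min_le_left κ (a / 8)
          linarith [hl x h1]
    obtain ⟨κ, hκ, h⟩ := aux [κ₁, a1, a2, a2', a3, a4, a5, a5', a6, a7, a7'] (by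
      simp only [List.mem_cons, List.not_mem_nil, or_false]
      rintro x (rfl | rfl | rfl | rfl | rfl | rfl | rfl | rfl | rfl | rfl | rfl) <;> assumption)
    refine ⟨κ, hκ, ?_, h _ ?_, h _ ?_, h _ ?_, h _ ?_, h _ ?_, h _ ?_, h _ ?_, h _ ?_, h _ ?_,
      h _ ?_⟩
    · have := h κ₁ (by simp)
      linarith
    all_goals simp
  refine ⟨κ, κ₂, hκ, k0, hκ₂, ?_⟩
  constructor
  · intro i hi hq c d hc hd
    rw [add_comm (c • E.pu)]
    exact scale (h1 i hi hq d c hc (by linarith)) (norm_nonneg _) k1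
  · intro c d hc hd
    rw [add_comm (c • E.pu)]
    exact scale (h2 d c hc hd) (norm_nonneg _) k2
  · intro c d hc hd
    rw [add_comm (c • E.pu)]
    exact scale (h2' d c hc (by linarith)) (norm_nonneg _) k2'
  · intro i hi hq a c hc ha
    exact scale (h3 i hi hq a c hc ha) (norm_nonneg _) k3
  · intro a c ha hc
    exact scale (h4 a c ha hc) (norm_nonneg _) k4
  · intro c d hd hc
    exact scale (h5 c d hd hc) (norm_nonneg _) k5
  · intro c d hd hc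
    rw [add_comm (c • E.pu)]
    exact scale (h5' d c hd hc) (norm_nonneg _) k5'
  · intro c d hc hd
    exact scale (h6 c d hc hd) (norm_nonneg _) k6
  · intro a c ha hc
    exact scale (h7 a c ha hc) (norm_nonneg _) k7
  · intro a c hc ha
    exact scale (h7' a c hc ha) (norm_nonneg _) k7'

end ENT3_

open ENT3_ in
theorem ent3_proof : Stmt_Ent3 := by
  intro ι _ E ε δ hN hθ κ₁ hκ₁ K
  have hε := hN.eps
  have hτ : 0 < E.τ := by
    rcases lt_or_gt_of_ne hN.τne with h | h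
    · exact absurd (hN.θτ h) (not_lt.2 hθ.le)
    · exact h
  obtain ⟨κ, κ₂, hκ, hκκ₁, hκ₂, hM⟩ := exists_mg E ε δ hN hθ κ₁ hκ₁
  have vBu : th E.e E.nB E.pu = 0 := by unfold th; rw [hN.Bu]; simp
  have vBk : th E.e E.nB E.pk = 0 := by unfold th; rw [hN.Bk]; simp
  have vBt : th E.e E.nB E.pt < 0 := by
    unfold th; rw [hN.Bt, neg_div]
    exact neg_neg_of_pos (div_pos hθ hN.posB)
  have vAk : th E.e E.nA E.pk = 0 := by unfold th; rw [hN.Ak]; simp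
  have vPt : th E.e (E.G E.iP) E.pt = 0 := by unfold th; rw [hN.Pt]; simp
  have vPu : th E.e (E.G E.iP) E.pu = 0 := by unfold th; rw [hN.Pu]; simp
  have hJ : ∀ i, ∃ R M η : ℝ, 0 < R ∧ 0 < M ∧ 0 < η ∧ (i ∈ E.J → PZ E.e (E.G i) κ K R M η) := by
    intro i
    by_cases hi : i ∈ E.J
    · obtain ⟨R, M, η, h1, h2, h3, h4⟩ := apxZ E.e (E.G i) (hN.posG i hi) κ K hκ
      exact ⟨R, M, η, h1, h2, h3, fun _ => h4⟩
    · exact ⟨1, 1, 1, one_pos, one_pos, one_pos, fun h => absurd h hi⟩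
  choose R M η hR hMp hη hPZ using hJ
  obtain ⟨RJ, hRJ, hRJ'⟩ := fin_max E.J (fun i m => R i ≤ m) (fun i m m' h h' => h'.trans h)
    (fun i _ => ⟨R i, hR i, le_rfl⟩)
  obtain ⟨MJ, hMJ, hMJ'⟩ := fin_max E.J (fun i m => M i ≤ m) (fun i m m' h h' => h'.trans h)
    (fun i _ => ⟨M i, hMp i, le_rfl⟩)
  obtain ⟨ηJ, hηJ, hηJ'⟩ := fin_min E.J (fun i m => m ≤ η i) (fun i m m' h h' => h.trans h')
    (fun i _ => ⟨η i, hη i, le_rfl⟩)
  obtain ⟨C, hC, hC'⟩ := fin_max E.J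
    (fun i m => ‖E.G i‖ / inner ℝ (E.G i) E.e ≤ m) (fun i m m' h h' => h'.trans h)
    (fun i hi => ⟨‖E.G i‖ / inner ℝ (E.G i) E.e + 1,
      by have := hN.posG i hi; positivity, by linarith⟩)
  set CB : ℝ := ‖E.nB‖ / inner ℝ E.nB E.e with hCB
  have hCB0 : 0 ≤ CB := div_nonneg (norm_nonneg _) hN.posB.le
  refine ⟨max RJ 1, lt_max_of_lt_right one_pos, fun R₂ => ⟨(C + CB + 2 * κ) * |R₂|, ?_⟩⟩
  intro c₀ hc₀
  have hcpos : 0 ≤ c₀ := le_trans (by positivity) hc₀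
  obtain ⟨MA, ηA, hMA, hηA, hPA⟩ := apxS E.e E.nA hN.posA κ c₀ hκ
  obtain ⟨MB, ηB, hMB, hηB, hPB⟩ := apxS E.e E.nB hN.posB κ c₀ hκ
  refine ⟨min ηJ (min ηA ηB), max (max RJ 1) ((c₀ + 1) / κ), max MJ (max MA MB),
    lt_min hηJ (lt_min hηA hηB), ?_⟩
  intro Z A B hcl
  obtain ⟨hZ, hA1, hA2, hB1, hB2⟩ := hcl
  have eJ : min ηJ (min ηA ηB) ≤ ηJ := min_le_left _ _
  have eA : min ηJ (min ηA ηB) ≤ ηA := (min_le_right _ _).trans (min_le_left _ _)
  have eB : min ηJ (min ηA ηB) ≤ ηB := (min_le_right _ _).trans (min_le_right _ _)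
  obtain ⟨pA, tA, bA⟩ := hPA A (lt_of_lt_of_le hA1 eA) (lt_of_lt_of_le hA2 eA)
  obtain ⟨pB, tB, bB⟩ := hPB B (lt_of_lt_of_le hB1 eB) (lt_of_lt_of_le hB2 eB)
  have hZi : ∀ i ∈ E.J, 0 < (inner ℝ (Z i).1 E.e : ℝ) ∧
      (∀ x, max RJ 1 ≤ ‖x‖ → |tz E.e (Z i) x - th E.e (E.G i) x| ≤ κ * ‖x‖) ∧
      ∀ x, |tz E.e (Z i) x| ≤ MJ * (1 + ‖x‖) := by
    intro i hi
    obtain ⟨h1, h2, h3⟩ := hPZ i hi (Z i)
      (lt_of_lt_of_le (hZ i hi).1 (eJ.trans (hηJ' i hi))) (hZ i hi).2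
    refine ⟨h1, fun x hx => h2 x ((hRJ' i hi).trans ((le_max_left _ _).trans hx)), fun x => ?_⟩
    exact (h3 x).trans (mul_le_mul_of_nonneg_right (hMJ' i hi) (by positivity))
  have tP := (hZi _ hN.memP).2.1
  have tQ := (hZi _ hN.memQ).2.1
  have hQe : E.iQ ∈ E.J.erase E.iP := Finset.mem_erase.2 ⟨Ne.symm hN.PQ, hN.memQ⟩
  -- shape of the surfaces
  have sN : ∀ x, E.tN Z A B x =
      max (tz E.e (Z E.iP) x) (min (E.mx Z (E.J.erase E.iP) x) (E.ab A B x)) := by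
    intro x
    unfold EndD.tN
    rw [if_neg (not_lt.2 hτ.le), if_neg (not_lt.2 hθ.le)]
  have sO : ∀ x, E.tO Z x = max (tz E.e (Z E.iP) x) (E.mx Z (E.J.erase E.iP) x) := by
    intro x
    unfold EndD.tO
    rw [if_neg (not_lt.2 hτ.le), E.mx_split Z x hN.memP]
  have sab : ∀ x, E.ab A B x = max (tz E.e A x) (tz E.e B x) := fun x => rfl
  have Qle : ∀ x, tz E.e (Z E.iQ) x ≤ E.mx Z (E.J.erase E.iP) x :=
    fun x => E.tz_le_mx Z _ x _ hQe
  have one_le : ∀ x : E3, max RJ 1 ≤ ‖x‖ → 1 ≤ ‖x‖ := fun x hx => (le_max_right _ _).trans hx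
  have R3le : ∀ x : E3, max (max RJ 1) ((c₀ + 1) / κ) ≤ ‖x‖ →
      max RJ 1 ≤ ‖x‖ ∧ c₀ < κ * ‖x‖ := by
    intro x hx
    refine ⟨(le_max_left _ _).trans hx, ?_⟩
    have h1 : (c₀ + 1) / κ ≤ ‖x‖ := (le_max_right _ _).trans hx
    rw [div_le_iff₀ hκ] at h1
    linarith
  have hPf : ∀ a c : ℝ, th E.e (E.G E.iP) (a • E.pt + c • E.pu) = 0 := by
    intro a c; rw [th_lin, vPt, vPu]; ring
  have hBf : ∀ c d : ℝ, th E.e E.nB (c • E.pu + d • E.pk) = 0 := by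
    intro c d; rw [th_lin, vBu, vBk]; ring
  have hBo : ∀ a c : ℝ, 0 ≤ a → th E.e E.nB (a • E.pt + c • E.pu) ≤ 0 := by
    intro a c ha; rw [th_lin, vBu]; nlinarith
  constructor
  · exact ⟨fun i hi => (hZi i hi).1, pA, pB⟩
  · -- diag
    intro c d hc hcd x hx hR1
    have hx1 := one_le x hR1
    have q1 := abs_le.1 (tQ x hR1)
    have q2 := abs_le.1 (tP x hR1)
    have q3 := abs_le.1 (tB x hx1)
    have m2 := hM.m2' c d hc hcd
    have b0 := hBf c d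
    rw [← hx] at m2 b0
    have hpos : 0 < κ * ‖x‖ := by positivity
    have m6 := hM.m6 c d hc (hc.trans hcd)
    rw [← hx] at m6
    have e1 : E.mx Z (E.J.erase E.iP) x = tz E.e (Z E.iQ) x := by
      apply le_antisymm _ (Qle x)
      rw [E.mx_le_iff]
      refine ⟨le_rfl, fun i hi => ?_⟩
      have hiJ := Finset.mem_of_mem_erase hi
      by_cases hq : i = E.iQ
      · rw [hq]
      · have m1 := hM.m1 i hiJ hq c d hc hcd
        rw [← hx] at m1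
        have q4 := abs_le.1 ((hZi i hiJ).2.1 x hR1)
        linarith [q1.1, q4.2]
    rw [sN, e1]
    show _ = min (tz E.e (Z E.iQ) x) (E.ab A B x)
    apply max_eq_right
    apply le_min
    · linarith [q1.1, q2.2]
    · rw [sab]
      apply le_max_of_le_right
      linarith [q2.2, q3.1]
  · -- outer
    intro a c hc hac had x hx hR1
    have hx1 := one_le x hR1
    have q2 := abs_le.1 (tP x hR1)
    have p0 := hPf a c
    rw [← hx] at p0
    have hpos : 0 < κ * ‖x‖ := by positivity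
    have e1 : E.mx Z (E.J.erase E.iP) x ≤ tz E.e (Z E.iP) x := by
      rw [E.mx_le_iff]
      have aux : ∀ i ∈ E.J, i ≠ E.iP → tz E.e (Z i) x ≤ tz E.e (Z E.iP) x := by
        intro i hi hq
        have m3 := hM.m3 i hi hq a c hc hac
        rw [← hx] at m3
        have q4 := abs_le.1 ((hZi i hi).2.1 x hR1)
        linarith [q2.1, q4.2]
      exact ⟨aux _ hN.memQ (Ne.symm hN.PQ),
        fun i hi => aux i (Finset.mem_of_mem_erase hi) (Finset.ne_of_mem_erase hi)⟩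
    rw [sN, sO]
    exact ⟨max_eq_left ((min_le_left _ _).trans e1), max_eq_left e1⟩
  · -- near
    intro x _ hR1 hR2
    have hx1 := one_le x hR1
    rw [sN, sO]
    have e1 : E.mx Z (E.J.erase E.iP) x ≤ E.ab A B x := by
      rw [E.mx_le_iff]
      have aux : ∀ i ∈ E.J, tz E.e (Z i) x ≤ E.ab A B x := by
        intro i hi
        rw [sab]
        apply le_max_of_le_right
        have q3 := abs_le.1 (tB x hx1)
        have q4 := abs_le.1 ((hZi i hi).2.1 x hR1)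
        have u1 := abs_le.1 (abs_th E.e (E.G i) (hN.posG i hi) x)
        have u2 := abs_le.1 (abs_th E.e E.nB hN.posB x)
        have u3 : ‖E.G i‖ / inner ℝ (E.G i) E.e * ‖x‖ ≤ C * ‖x‖ :=
          mul_le_mul_of_nonneg_right (hC' i hi) (norm_nonneg _)
        rw [← hCB] at u2
        have u4 : (C + CB + 2 * κ) * ‖x‖ ≤ (C + CB + 2 * κ) * |R₂| :=
          mul_le_mul_of_nonneg_left (hR2.trans (le_abs_self _)) (by positivity)
        nlinarith [q3.1, q4.2, u1.2, u2.1]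
      exact ⟨aux _ hN.memQ, fun i hi => aux i (Finset.mem_of_mem_erase hi)⟩
    rw [min_eq_left e1]
  · -- arm1
    intro h; exact absurd h (not_lt.2 hτ.le)
  · -- arm2
    intro _ h; exact absurd h (not_lt.2 hθ.le)
  · -- arm3
    intro _ x hx hR3
    obtain ⟨hR1, hc⟩ := R3le x hR3
    have hx1 := one_le x hR1
    have hpos : 0 < κ * ‖x‖ := by positivity
    have q1 := abs_le.1 (tQ x hR1)
    have q2 := abs_le.1 (tP x hR1)
    have q3 := abs_le.1 (tB x hx1)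
    have q4 := abs_le.1 (tA x hx1)
    rw [sN]
    rcases hx with ⟨a, c, ha, hc', hac, hx⟩ | ⟨c, d, hc', hd, hcd, hx⟩
    · have m4 := hM.m4 a c ha (hac.trans (mul_le_mul_of_nonneg_right hN.del hc'))
      rw [← hx] at m4
      have eab : E.ab A B x = tz E.e B x := by
        rw [sab]; apply max_eq_right; linarith [q3.1, q4.2]
      rw [eab]
      rcases le_total a (κ₂ * c) with h1 | h1
      · have m7 := hM.m7 a c ha h1
        have b0 := hBo a c ha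
        rw [← hx] at m7 b0
        have e1 : tz E.e B x ≤ E.mx Z (E.J.erase E.iP) x :=
          le_trans (by linarith [q1.1, q3.2]) (Qle x)
        rw [min_eq_right e1]
      · have m7 := hM.m7' a c hc' h1
        have p0 := hPf a c
        rw [← hx] at m7 p0
        have e1 : tz E.e B x ≤ tz E.e (Z E.iP) x := by linarith [q2.1, q3.2]
        rw [max_eq_left e1, max_eq_left ((min_le_right _ _).trans e1)]
    · have m5 := hM.m5' c d hd hcd
      have m6 := hM.m6 c d hc' hd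
      have b0 := hBf c d
      rw [← hx] at m5 m6 b0
      have eab : E.ab A B x = tz E.e B x := by
        rw [sab]; apply max_eq_right; linarith [q3.1, q4.2]
      rw [eab]
      have e1 : tz E.e B x ≤ E.mx Z (E.J.erase E.iP) x :=
        le_trans (by linarith [q1.1, q3.2]) (Qle x)
      rw [min_eq_right e1]
  · -- ear
    intro c d hc' hd hcd x hx hR3
    obtain ⟨hR1, hc⟩ := R3le x hR3
    have hx1 := one_le x hR1
    have hpos : 0 < κ * ‖x‖ := by positivity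
    have q1 := abs_le.1 (tQ x hR1)
    have q2 := abs_le.1 (tP x hR1)
    have q3 := abs_le.1 (tB x hx1)
    have q4 := abs_le.1 (tA x hx1)
    have m6 := hM.m6 c d hc' hd
    have m2 := hM.m2 c d hc' hcd
    have b0 := hBf c d
    rw [← hx] at m6 m2 b0
    have a0 : th E.e E.nA x ≤ 0 := by
      have h5 : 0 < inner ℝ E.nA E.pu / (inner ℝ E.nA E.e : ℝ) := div_pos hN.Au hN.posA
      rw [hx, th_lin, vAk]
      have h6 : th E.e E.nA E.pu ≤ 0 := by
        unfold th; rw [neg_div]; linarith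
      nlinarith
    have e1 : E.ab A B x ≤ E.mx Z (E.J.erase E.iP) x := by
      refine le_trans ?_ (Qle x)
      rw [sab]
      apply max_le
      · linarith [q1.1, q4.2]
      · linarith [q1.1, q3.2]
    have e2 : tz E.e (Z E.iP) x ≤ E.ab A B x := by
      rw [sab]; apply le_max_of_le_right; linarith [q2.2, q3.1]
    rw [sN, min_eq_right e1, max_eq_right e2]
    refine ⟨rfl, fun h1 => ?_⟩
    have m5 := hM.m5 c d hd h1
    rw [← hx] at m5
    rw [sab]; apply max_eq_right; linarith [q3.1, q4.2]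
  · -- le
    intro x hx hR1
    have hx1 := one_le x hR1
    have hpos : 0 < κ * ‖x‖ := by positivity
    have q2 := abs_le.1 (tP x hR1)
    have q3 := abs_le.1 (tB x hx1)
    have hk : κ * ‖x‖ ≤ κ₁ * ‖x‖ := mul_le_mul_of_nonneg_right hκκ₁ (norm_nonneg _)
    refine ⟨?_, ?_, fun h => absurd h (not_lt.2 hτ.le), fun _ => ?_⟩
    · rw [sN, sO]
      exact max_le_max le_rfl (min_le_left _ _)
    · rcases hx with ⟨a, c, ha, hc', hac, hx⟩ | ⟨c, d, hc', hd, hx⟩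
      · right
        have p0 := hPf a c
        rw [← hx] at p0
        rw [sN]
        apply le_max_of_le_left
        linarith [q2.1]
      · rcases le_total (E.mx Z (E.J.erase E.iP) x) (E.ab A B x) with h1 | h1
        · left; rw [sN, sO, min_eq_left h1]
        · right
          have b0 := hBf c d
          rw [← hx] at b0
          rw [sN, min_eq_right h1, sab]
          apply le_max_of_le_right
          apply le_max_of_le_right
          linarith [q3.1]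
    · rw [sN]; exact le_max_left _ _
  · -- bound
    intro x
    have hx0 : (0 : ℝ) ≤ 1 + ‖x‖ := by positivity
    have cJ : MJ * (1 + ‖x‖) ≤ max MJ (max MA MB) * (1 + ‖x‖) :=
      mul_le_mul_of_nonneg_right (le_max_left _ _) hx0
    have cA : MA * (1 + ‖x‖) ≤ max MJ (max MA MB) * (1 + ‖x‖) :=
      mul_le_mul_of_nonneg_right ((le_max_left _ _).trans (le_max_right _ _)) hx0
    have cB : MB * (1 + ‖x‖) ≤ max MJ (max MA MB) * (1 + ‖x‖) :=
      mul_le_mul_of_nonneg_right ((le_max_right _ _).trans (le_max_right _ _)) hx0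
    have bP := abs_le.1 ((hZi _ hN.memP).2.2 x)
    obtain ⟨i, hi, hmx⟩ := E.exists_mx Z (E.J.erase E.iP) x hQe
    have bi := abs_le.1 ((hZi _ (Finset.mem_of_mem_erase hi)).2.2 x)
    have bA' := abs_le.1 (bA x)
    have bB' := abs_le.1 (bB x)
    rw [sN, hmx, sab, abs_le]
    constructor
    · apply le_max_of_le_left
      linarith [bP.1]
    · apply max_le
      · linarith [bP.2]
      · apply min_le_of_left_le
        linarith [bi.2]

end Pool.Agent.TSM
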