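import Pool.Agent.TSM.VStmts3

/-!
# TSM, module EXT: the far equations can be extended
-/

set_option autoImplicit false

namespace Pool.Agent.TSM

open Set Filter Topology Metric

namespace EXT_

variable {V : Type} [DecidableEq V] {κ : Type}

/-- bound for the offsets -/
noncomputable def bd (L : Pg V) (Ch : V → Finset κ) (o : V → ℝ) (oN : κ → ℝ) : ℝ :=
  1 + ∑ i ∈ L.S, |o i| + ∑ j ∈ L.S, ∑ n ∈ Ch j, |oN n|

theorem bd_o (L : Pg V) (Ch : V → Finset κ) (o : V → ℝ) (oN : κ → ℝ) {i : V} (hi : i ∈ L.S) :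
    |o i| + 1 ≤ bd L Ch o oN := by
  have h1 : |o i| ≤ ∑ i ∈ L.S, |o i| :=
    Finset.single_le_sum (f := fun i => |o i|) (fun j _ => abs_nonneg (o j)) hi
  have h2 : 0 ≤ ∑ j ∈ L.S, ∑ n ∈ Ch j, |oN n| :=
    Finset.sum_nonneg (fun j _ => Finset.sum_nonneg (fun n _ => abs_nonneg (oN n)))
  unfold bd
  linarith

theorem bd_N (L : Pg V) (Ch : V → Finset κ) (o : V → ℝ) (oN : κ → ℝ) {j : V} (hj : j ∈ L.S)
    {n : κ} (hn : n ∈ Ch j) : |oN n| + 1 ≤ bd L Ch o oN := by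
  have h1 : 0 ≤ ∑ i ∈ L.S, |o i| := Finset.sum_nonneg (fun j _ => abs_nonneg (o j))
  have h2 : |oN n| ≤ ∑ n ∈ Ch j, |oN n| :=
    Finset.single_le_sum (f := fun n => |oN n|) (fun m _ => abs_nonneg (oN m)) hn
  have h3 : ∑ n ∈ Ch j, |oN n| ≤ ∑ j ∈ L.S, ∑ n ∈ Ch j, |oN n| :=
    Finset.single_le_sum (f := fun j => ∑ n ∈ Ch j, |oN n|)
      (fun m _ => Finset.sum_nonneg (fun n _ => abs_nonneg (oN n))) hj
  unfold bd
  linarith

end EXT_

open EXT_ in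
theorem ext_proof (h1 : Stmt_FTau) : Stmt_Ext := by
  intro V _ L hL b hb μ hμ
  obtain ⟨Λ, c, hT⟩ := hb
  obtain ⟨ε₀, C, hε₀, hC, hF⟩ := h1 V L hL Λ c μ hT.1 hμ
  refine ⟨ε₀, hε₀, ?_⟩
  intro ε hε hεε κ Ch N hG hRes
  obtain ⟨o, oN, η, R, M, hη, hR, hX, hD⟩ := hRes
  obtain ⟨ηF, hηF, hK⟩ := hF ε hε hεε κ Ch N hG
  obtain ⟨RF, hRF, hA⟩ := hK (bd L Ch o oN)
  set η' := min (min η ηF) 1 with hη'
  have hη'1 : η' ≤ η := (min_le_left _ _).trans (min_le_left _ _)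
  have hη'2 : η' ≤ ηF := (min_le_left _ _).trans (min_le_right _ _)
  have hη'3 : η' ≤ 1 := min_le_right _ _
  refine ⟨o, oN, η', max R RF, M, ?_, ?_, hX, ?_⟩
  · exact lt_min (lt_min hη hηF) one_pos
  · exact lt_max_of_lt_left hR
  intro A B hN
  obtain ⟨n1, n2, n3⟩ := hN
  have hN1 : L.Near Ch N o oN η A B := by
    refine ⟨?_, ?_, n3⟩
    · intro i hi
      exact ⟨(n1 i hi).1.trans_le hη'1, (n1 i hi).2.trans_le hη'1⟩
    · intro j hj n hn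
      exact ⟨(n2 j hj n hn).1.trans_le hη'1, (n2 j hj n hn).2.trans_le hη'1⟩
  have hN2 : L.NearK Ch N (bd L Ch o oN) ηF A B := by
    refine ⟨?_, ?_, n3⟩
    · intro i hi
      refine ⟨(n1 i hi).1.trans_le hη'2, ?_⟩
      have a1 := (n1 i hi).2
      have a2 := bd_o L Ch o oN hi
      have a3 := abs_sub_abs_le_abs_sub (A i).2 (o i)
      linarith
    · intro j hj n hn
      refine ⟨(n2 j hj n hn).1.trans_le hη'2, ?_⟩
      have a1 := (n2 j hj n hn).2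
      have a2 := bd_N L Ch o oN hj hn
      have a3 := abs_sub_abs_le_abs_sub (B n).2 (oN n)
      linarith
  obtain ⟨D, d1, d2, d3, d4⟩ := hD A B hN1
  obtain ⟨τ, t1, t2⟩ := hA A B hN2 b hT
  refine ⟨D, d1, d2, d3, ?_⟩
  intro x hx hRx
  obtain ⟨⟨t, ht⟩, hz⟩ := d4 x hx ((le_max_left _ _).trans hRx)
  obtain ⟨_, _, _, u4, u5, u6⟩ := t2 x hx ((le_max_right _ _).trans hRx)
  have hz' := hz
  rw [ht] at hz'
  have htt : t = τ x := u4 t hz'
  refine ⟨⟨t, ht⟩, hz, ?_⟩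
  intro i hi hti hfz
  rw [ht, htt]
  rcases hfz with h | h
  · exact u5 i hi h hti
  · exact u6 i hi h hti

end Pool.Agent.TSM
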