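import Pool.Agent.TSM.VStmts3
import Pool.Agent.TSM.FINJ

/-!
# TSM, Part VM: module FLD (the direction field which is vertical on the zone)
-/

set_option autoImplicit false

namespace Pool.Agent.TSM

open Set Filter Topology Metric

namespace FLD_

/-- sector spanned by two vectors -/
def Sec (p q : E3) : Set E3 := {x | ∃ a b : ℝ, 0 ≤ a ∧ 0 ≤ b ∧ x = a • p + b • q}

/-- linear independence of two vectors -/
def Ind (p q : E3) : Prop := ∀ a b : ℝ, a • p + b • q = 0 → a = 0 ∧ b = 0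

theorem ind_of_det {p q r : E3} (h : det3 p q r ≠ 0) : Ind p q := by
  intro a b hab
  have ea : det3 (a • p + b • q) q r = a * det3 p q r := by
    simp only [PiLp.add_apply, PiLp.smul_apply, smul_eq_mul, det3]
    ring
  have eb : det3 p (a • p + b • q) r = b * det3 p q r := by
    simp only [PiLp.add_apply, PiLp.smul_apply, smul_eq_mul, det3]
    ring
  have z1 : ∀ y z : E3, det3 0 y z = 0 := by
    intro y z
    simp [det3]
  have z2 : ∀ y z : E3, det3 y 0 z = 0 := by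
    intro y z
    simp [det3]
  rw [hab, z1] at ea
  rw [hab, z2] at eb
  exact ⟨(mul_eq_zero.1 ea.symm).resolve_right h, (mul_eq_zero.1 eb.symm).resolve_right h⟩

theorem ind_symm {p q : E3} (h : Ind p q) : Ind q p := by
  intro a b hab
  have := h b a (by rw [add_comm]; exact hab)
  exact ⟨this.2, this.1⟩

theorem lin_ex {p q : E3} (h : Ind p q) : ∃ f : (ℝ × ℝ) →ₗ[ℝ] E3,
    (∀ v : ℝ × ℝ, f v = v.1 • p + v.2 • q) ∧ LinearMap.ker f = ⊥ := by
  refine ⟨(LinearMap.fst ℝ ℝ ℝ).smulRight p + (LinearMap.snd ℝ ℝ ℝ).smulRight q, fun v => rfl, ?_⟩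
  rw [LinearMap.ker_eq_bot']
  intro v hv
  have h1 := h v.1 v.2 hv
  exact Prod.ext h1.1 h1.2

theorem coer {p q : E3} (h : Ind p q) : ∃ K : ℝ, 0 < K ∧ ∀ a b : ℝ,
    |a| ≤ K * ‖a • p + b • q‖ ∧ |b| ≤ K * ‖a • p + b • q‖ := by
  obtain ⟨f, hf, hker⟩ := lin_ex h
  obtain ⟨K, hK, hanti⟩ := f.exists_antilipschitzWith hker
  refine ⟨K, by exact_mod_cast hK, fun a b => ?_⟩
  have h1 := hanti.le_mul_dist (a, b) 0
  rw [dist_zero_right, map_zero, dist_zero_right, hf] at h1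
  exact ⟨(norm_fst_le (a, b)).trans h1, (norm_snd_le (a, b)).trans h1⟩

theorem im_closed {p q : E3} (h : Ind p q) {S : Set (ℝ × ℝ)} (hS : IsClosed S) :
    IsClosed ((fun v : ℝ × ℝ => v.1 • p + v.2 • q) '' S) := by
  obtain ⟨f, hf, hker⟩ := lin_ex h
  have h1 := (LinearMap.isClosedEmbedding_of_injective hker).isClosedMap _ hS
  have h2 : (fun v : ℝ × ℝ => v.1 • p + v.2 • q) = f := by
    funext v
    exact (hf v).symm
  rw [h2]
  exact h1

theorem sec_closed {p q : E3} (h : Ind p q) : IsClosed (Sec p q) := by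
  have hcl : IsClosed {v : ℝ × ℝ | 0 ≤ v.1 ∧ 0 ≤ v.2} :=
    (isClosed_le continuous_const continuous_fst).inter
      (isClosed_le continuous_const continuous_snd)
  have h1 := im_closed h hcl
  have h2 : (fun v : ℝ × ℝ => v.1 • p + v.2 • q) '' {v : ℝ × ℝ | 0 ≤ v.1 ∧ 0 ≤ v.2} =
      Sec p q := by
    ext x
    constructor
    · rintro ⟨v, hv, rfl⟩
      exact ⟨v.1, v.2, hv.1, hv.2, rfl⟩
    · rintro ⟨a, b, ha, hb, rfl⟩
      exact ⟨(a, b), ⟨ha, hb⟩, rfl⟩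
  rw [← h2]
  exact h1

theorem zP_closed {p q : E3} (h : Ind p q) (δ : ℝ) : IsClosed (zP p q δ) := by
  have hcl : IsClosed {v : ℝ × ℝ | 0 ≤ v.1 ∧ 0 ≤ v.2 ∧ v.1 ≤ δ * v.2} :=
    (isClosed_le continuous_const continuous_fst).inter
      ((isClosed_le continuous_const continuous_snd).inter
        (isClosed_le continuous_fst (continuous_const.mul continuous_snd)))
  have h1 := im_closed h hcl
  have h2 : (fun v : ℝ × ℝ => v.1 • p + v.2 • q) ''
      {v : ℝ × ℝ | 0 ≤ v.1 ∧ 0 ≤ v.2 ∧ v.1 ≤ δ * v.2} = zP p q δ := by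
    ext x
    constructor
    · rintro ⟨v, hv, rfl⟩
      exact ⟨v.1, v.2, hv.1, hv.2.1, hv.2.2, rfl⟩
    · rintro ⟨a, b, ha, hb, hab, rfl⟩
      exact ⟨(a, b), ⟨ha, hb, hab⟩, rfl⟩
  rw [← h2]
  exact h1

/-- invariant under positive dilations -/
def Cn (F : Set E3) : Prop := ∀ x ∈ F, ∀ s : ℝ, 0 < s → s • x ∈ F

theorem cn_sec (p q : E3) : Cn (Sec p q) := by
  rintro x ⟨a, b, ha, hb, rfl⟩ s hs
  exact ⟨s * a, s * b, mul_nonneg hs.le ha, mul_nonneg hs.le hb, by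
    rw [smul_add, smul_smul, smul_smul]⟩

theorem cn_zP (p q : E3) (δ : ℝ) : Cn (zP p q δ) := by
  rintro x ⟨a, b, ha, hb, hab, rfl⟩ s hs
  refine ⟨s * a, s * b, mul_nonneg hs.le ha, mul_nonneg hs.le hb, ?_, by
    rw [smul_add, smul_smul, smul_smul]⟩
  have := mul_le_mul_of_nonneg_left hab hs.le
  linarith

theorem cn_union {F G : Set E3} (hF : Cn F) (hG : Cn G) : Cn (F ∪ G) := by
  rintro x (hx | hx) s hs
  · exact Or.inl (hF x hx s hs)
  · exact Or.inr (hG x hx s hs)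

theorem sep {F Z : Set E3} (hF : IsClosed F) (hZ : IsClosed Z) (cF : Cn F) (cZ : Cn Z)
    (h0 : (0 : E3) ∈ Z) (h : ∀ x ∈ F, x ∈ Z → x = 0) :
    ∃ r : ℝ, 0 < r ∧ ∀ x ∈ F, r * ‖x‖ ≤ infDist x Z := by
  have hne : Z.Nonempty := ⟨0, h0⟩
  have hcomp : IsCompact (F ∩ sphere (0 : E3) 1) := (isCompact_sphere 0 1).inter_left hF
  obtain ⟨r, hr, hrr⟩ : ∃ r : ℝ, 0 < r ∧ ∀ x ∈ F ∩ sphere (0 : E3) 1, r ≤ infDist x Z := by
    rcases (F ∩ sphere (0 : E3) 1).eq_empty_or_nonempty with he | hn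
    · refine ⟨1, one_pos, fun x hx => ?_⟩
      rw [he] at hx
      exact absurd hx (Set.notMem_empty x)
    · obtain ⟨y, hy, hmin⟩ := hcomp.exists_isMinOn hn (continuous_infDist_pt Z).continuousOn
      refine ⟨infDist y Z, ?_, fun x hx => hmin hx⟩
      refine (hZ.notMem_iff_infDist_pos hne).1 fun hyZ => ?_
      have := h y hy.1 hyZ
      have h1 := hy.2
      rw [mem_sphere_zero_iff_norm, this, norm_zero] at h1
      exact zero_ne_one h1
  refine ⟨r, hr, fun x hx => ?_⟩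
  by_cases hx0 : x = 0
  · rw [hx0, norm_zero, mul_zero]
    exact infDist_nonneg
  have hnx : 0 < ‖x‖ := norm_pos_iff.2 hx0
  have h1 := hrr (‖x‖⁻¹ • x) ⟨cF x hx _ (inv_pos.2 hnx), by
    rw [mem_sphere_zero_iff_norm, norm_smul, norm_inv, norm_norm, inv_mul_cancel₀ hnx.ne']⟩
  refine (le_infDist hne).2 fun z hz => ?_
  have h2 := (le_infDist hne).1 h1 (cZ z hz _ (inv_pos.2 hnx))
  rw [dist_eq_norm, ← smul_sub, norm_smul, norm_inv, norm_norm, inv_mul_eq_div,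
    le_div_iff₀ hnx] at h2
  rw [dist_eq_norm]
  exact h2

/-- the cut-off function -/
noncomputable def chi (Z : Set E3) (r : ℝ) (x : E3) : ℝ :=
  max 0 (min 1 (2 - infDist x Z / (r * ‖x‖)))

theorem chi_nonneg (Z : Set E3) (r : ℝ) (x : E3) : 0 ≤ chi Z r x := le_max_left _ _

theorem chi_le (Z : Set E3) (r : ℝ) (x : E3) : chi Z r x ≤ 1 :=
  max_le zero_le_one (min_le_left _ _)

theorem chi_one {Z : Set E3} {r : ℝ} (hr : 0 < r) {x : E3} (h : infDist x Z ≤ r * ‖x‖) :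
    chi Z r x = 1 := by
  have h1 : infDist x Z / (r * ‖x‖) ≤ 1 :=
    div_le_one_of_le₀ h (mul_nonneg hr.le (norm_nonneg x))
  unfold chi
  rw [min_eq_left (by linarith), max_eq_right zero_le_one]

theorem chi_zero {Z : Set E3} {r : ℝ} (hr : 0 < r) {x : E3} (hx : x ≠ 0)
    (h : 2 * r * ‖x‖ ≤ infDist x Z) : chi Z r x = 0 := by
  have hnx : 0 < ‖x‖ := norm_pos_iff.2 hx
  have h1 : 2 ≤ infDist x Z / (r * ‖x‖) := by
    rw [le_div_iff₀ (mul_pos hr hnx)]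
    linarith
  unfold chi
  exact max_eq_left ((min_le_right _ _).trans (by linarith))

theorem clamp_lip (s t : ℝ) : |max 0 (min 1 s) - max 0 (min 1 t)| ≤ |s - t| := by
  have h1 := abs_max_sub_max_le_abs (min 1 s) (min 1 t) 0
  have h2 := abs_min_sub_min_le_max 1 s 1 t
  rw [sub_self, abs_zero, max_eq_right (abs_nonneg _)] at h2
  rw [max_comm 0, max_comm 0]
  exact h1.trans h2

theorem chi_lip {Z : Set E3} (h0 : (0 : E3) ∈ Z) {r : ℝ} (hr : 0 < r) {x y : E3} (hx : x ≠ 0)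
    (hy : y ≠ 0) : ‖x‖ * |chi Z r x - chi Z r y| ≤ 2 / r * ‖x - y‖ := by
  have hnx : 0 < ‖x‖ := norm_pos_iff.2 hx
  have hny : 0 < ‖y‖ := norm_pos_iff.2 hy
  have h1 : |chi Z r x - chi Z r y| ≤ |infDist x Z / (r * ‖x‖) - infDist y Z / (r * ‖y‖)| := by
    unfold chi
    refine (clamp_lip _ _).trans (le_of_eq ?_)
    rw [sub_sub_sub_cancel_left, abs_sub_comm]
  have hdy : infDist y Z ≤ ‖y‖ := by
    have := infDist_le_dist_of_mem (x := y) h0
    rwa [dist_zero_right] at this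
  have hdy0 : 0 ≤ infDist y Z := infDist_nonneg
  have hxy : |infDist x Z - infDist y Z| ≤ ‖x - y‖ := by
    have := (lipschitz_infDist_pt Z).dist_le_mul x y
    rw [NNReal.coe_one, one_mul, Real.dist_eq, dist_eq_norm] at this
    exact this
  have hn : |‖y‖ - ‖x‖| ≤ ‖x - y‖ := by
    rw [abs_sub_comm]
    exact abs_norm_sub_norm_le x y
  have e1 : ‖x‖ * (infDist x Z / (r * ‖x‖) - infDist y Z / (r * ‖y‖)) =
      ((infDist x Z - infDist y Z) + infDist y Z / ‖y‖ * (‖y‖ - ‖x‖)) / r := by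
    field_simp
    ring
  calc ‖x‖ * |chi Z r x - chi Z r y| ≤
        ‖x‖ * |infDist x Z / (r * ‖x‖) - infDist y Z / (r * ‖y‖)| :=
        mul_le_mul_of_nonneg_left h1 hnx.le
    _ = |‖x‖ * (infDist x Z / (r * ‖x‖) - infDist y Z / (r * ‖y‖))| := by
        rw [abs_mul, abs_of_pos hnx]
    _ = |(infDist x Z - infDist y Z) + infDist y Z / ‖y‖ * (‖y‖ - ‖x‖)| / r := by
        rw [e1, abs_div, abs_of_pos hr]
    _ ≤ (‖x - y‖ + 1 * ‖x - y‖) / r := by
        refine div_le_div_of_nonneg_right ?_ hr.le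
        refine (abs_add_le _ _).trans (add_le_add hxy ?_)
        rw [abs_mul]
        refine mul_le_mul ?_ hn (abs_nonneg _) zero_le_one
        rw [abs_of_nonneg (div_nonneg hdy0 hny.le)]
        exact (div_le_one hny).2 hdy
    _ = 2 / r * ‖x - y‖ := by ring

/-- the new field -/
noncomputable def bb (Z : Set E3) (r : ℝ) (e : E3) (b : E3 → E3) (x : E3) : E3 :=
  (1 - chi Z r x) • b x + chi Z r x • e

theorem bb_one {Z : Set E3} {r : ℝ} {e : E3} {b : E3 → E3} {x : E3} (h : chi Z r x = 1) :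
    bb Z r e b x = e := by
  unfold bb
  rw [h, sub_self, zero_smul, one_smul, zero_add]

theorem bb_bound {Z : Set E3} {r : ℝ} {e : E3} {b : E3 → E3} {x : E3} {Λ : ℝ} (hΛ : 0 ≤ Λ)
    (h : ‖b x‖ ≤ Λ ∨ chi Z r x = 1) : ‖bb Z r e b x‖ ≤ Λ + ‖e‖ := by
  have h0 := chi_nonneg Z r x
  have h1 := chi_le Z r x
  rcases h with h | h
  · unfold bb
    refine (norm_add_le _ _).trans ?_
    rw [norm_smul, norm_smul, Real.norm_of_nonneg h0, Real.norm_of_nonneg (by linarith)]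
    have e1 : (1 - chi Z r x) * ‖b x‖ ≤ 1 * Λ :=
      mul_le_mul (by linarith) h (norm_nonneg _) zero_le_one
    have e2 : chi Z r x * ‖e‖ ≤ 1 * ‖e‖ := mul_le_mul_of_nonneg_right h1 (norm_nonneg _)
    linarith
  · rw [bb_one h]
    linarith

theorem bb_lip {Z : Set E3} (hZ : (0 : E3) ∈ Z) {r : ℝ} (hr : 0 < r) {e : E3} {b : E3 → E3}
    {Λ : ℝ} (hΛ : 0 ≤ Λ) {C : Set E3} (hb : ∀ x ∈ C, x ≠ 0 → ‖b x‖ ≤ Λ)
    (hl : ∀ x ∈ C, ∀ y ∈ C, x ≠ 0 → y ≠ 0 → ‖x‖ * ‖b x - b y‖ ≤ Λ * ‖x - y‖)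
    {x y : E3} (hx : x ≠ 0) (hy : y ≠ 0) (hxC : x ∈ C ∨ chi Z r x = 1)
    (hyC : y ∈ C ∨ chi Z r y = 1) :
    ‖x‖ * ‖bb Z r e b x - bb Z r e b y‖ ≤ (Λ + 2 / r * (‖e‖ + Λ)) * ‖x - y‖ := by
  have hnx : 0 < ‖x‖ := norm_pos_iff.2 hx
  have hlip := chi_lip hZ hr hx hy
  have hxy := norm_nonneg (x - y)
  have he := norm_nonneg e
  have h0x := chi_nonneg Z r x
  have h1x := chi_le Z r x
  have key : ∀ v w : E3, ‖v‖ ≤ ‖e‖ + Λ → bb Z r e b x - bb Z r e b y =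
      w + (chi Z r x - chi Z r y) • v → ‖x‖ * ‖w‖ ≤ Λ * ‖x - y‖ →
      ‖x‖ * ‖bb Z r e b x - bb Z r e b y‖ ≤ (Λ + 2 / r * (‖e‖ + Λ)) * ‖x - y‖ := by
    intro v w hv hvw hw
    rw [hvw]
    have e1 : ‖w + (chi Z r x - chi Z r y) • v‖ ≤ ‖w‖ + |chi Z r x - chi Z r y| * ‖v‖ := by
      refine (norm_add_le _ _).trans ?_
      rw [norm_smul, Real.norm_eq_abs]
    have e2 := mul_le_mul_of_nonneg_left e1 hnx.le
    have e3 : ‖x‖ * |chi Z r x - chi Z r y| * ‖v‖ ≤ 2 / r * ‖x - y‖ * (‖e‖ + Λ) :=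
      mul_le_mul hlip hv (norm_nonneg _) (by positivity)
    linarith
  have hz : ‖x‖ * ‖(0 : E3)‖ ≤ Λ * ‖x - y‖ := by
    rw [norm_zero, mul_zero]
    exact mul_nonneg hΛ hxy
  rcases hyC with hyC | hyC
  · have hby := hb y hyC hy
    have hv : ‖e - b y‖ ≤ ‖e‖ + Λ := (norm_sub_le _ _).trans (by linarith)
    rcases hxC with hxC | hxC
    · refine key (e - b y) ((1 - chi Z r x) • (b x - b y)) hv ?_ ?_
      · unfold bb
        module
      · rw [norm_smul, Real.norm_of_nonneg (by linarith)]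
        have := hl x hxC y hyC hx hy
        have e1 : (1 - chi Z r x) * ‖b x - b y‖ ≤ 1 * ‖b x - b y‖ :=
          mul_le_mul_of_nonneg_right (by linarith) (norm_nonneg _)
        have e2 := mul_le_mul_of_nonneg_left e1 hnx.le
        linarith
    · refine key (e - b y) 0 hv ?_ hz
      rw [bb_one hxC, hxC]
      unfold bb
      module
  · rcases hxC with hxC | hxC
    · have hbx := hb x hxC hx
      have hv : ‖e - b x‖ ≤ ‖e‖ + Λ := (norm_sub_le _ _).trans (by linarith)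
      refine key (e - b x) 0 hv ?_ hz
      rw [bb_one hyC, hyC]
      unfold bb
      module
    · refine key 0 0 ?_ ?_ hz
      · rw [norm_zero]
        linarith
      · rw [bb_one hxC, bb_one hyC, hxC, hyC]
        simp

section
variable {V : Type} [DecidableEq V]

/-- the closed cone on which the field is vertical -/
def ZZ (L : Pg V) (t u k w z : V) (δ : ℝ) : Set E3 :=
  ((zP (L.p t) (L.p u) (3 * δ) ∪ zP (L.p z) (L.p w) (3 * δ)) ∪
    (Sec (L.p u) (L.p k) ∪ Sec (L.p k) (L.p w))) ∪ Sec (L.p u) (L.p w)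

theorem inner_ee (L : Pg V) (u k w : V) (x₀ y₀ : ℝ) (p q : E3) :
    (inner ℝ (crs p q) (L.ee u k w x₀ y₀) : ℝ) =
      x₀ * det3 p q (L.p u) + y₀ * det3 p q (L.p w) - det3 p q (L.p k) := by
  rw [crs_eq_inner]
  unfold Pg.ee det3
  simp only [PiLp.add_apply, PiLp.smul_apply, PiLp.sub_apply, smul_eq_mul]
  ring

theorem d1 (p q : E3) : det3 p q p = 0 := by
  unfold det3
  ring

theorem d2 (p q : E3) : det3 p q q = 0 := by
  unfold det3
  ring

theorem ear_ne {L : Pg V} {t u k w z : V} (hE : L.Ear t u k w z) :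
    t ≠ u ∧ t ≠ k ∧ t ≠ w ∧ t ≠ z ∧ u ≠ k ∧ u ≠ w ∧ u ≠ z ∧ k ≠ w ∧ k ≠ z ∧ w ≠ z := by
  have h := hE.nodup
  simp only [List.nodup_cons, List.mem_cons, List.not_mem_nil, or_false, not_or, not_false_iff,
    List.nodup_nil, and_true] at h
  obtain ⟨⟨h1, h2, h3, h4⟩, ⟨h5, h6, h7⟩, ⟨h8, h9⟩, h10⟩ := h
  exact ⟨h1, h2, h3, h4, h5, h6, h7, h8, h9, h10⟩

theorem inds {L : Pg V} {t u k w z : V} (hE : L.Ear t u k w z) :
    Ind (L.p t) (L.p u) ∧ Ind (L.p z) (L.p w) ∧ Ind (L.p u) (L.p k) ∧ Ind (L.p k) (L.p w) ∧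
      Ind (L.p u) (L.p w) := by
  refine ⟨ind_of_det hE.θu, ?_, ind_of_det hE.pos.ne', ?_, ?_⟩
  · refine ind_symm (ind_of_det (r := L.p k) ?_)
    rw [← det3_cyc]
    exact hE.θw
  · exact ind_of_det hE.θw
  · exact ind_of_det hE.τw

theorem z_closed {L : Pg V} {t u k w z : V} (hE : L.Ear t u k w z) (δ : ℝ) :
    IsClosed (ZZ L t u k w z δ) := by
  obtain ⟨h1, h2, h3, h4, h5⟩ := inds hE
  exact (((zP_closed h1 _).union (zP_closed h2 _)).union
    ((sec_closed h3).union (sec_closed h4))).union (sec_closed h5)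

theorem z_cn (L : Pg V) (t u k w z : V) (δ : ℝ) : Cn (ZZ L t u k w z δ) :=
  cn_union (cn_union (cn_union (cn_zP _ _ _) (cn_zP _ _ _)) (cn_union (cn_sec _ _) (cn_sec _ _)))
    (cn_sec _ _)

theorem z_zero (L : Pg V) (t u k w z : V) (δ : ℝ) : (0 : E3) ∈ ZZ L t u k w z δ :=
  Or.inr ⟨0, 0, le_rfl, le_rfl, by simp⟩

theorem disj {L : Pg V} {t u k w z : V} (hE : L.Ear t u k w z) (δ : ℝ) {i : V} (hi : i ∈ L.S)
    (it : i ≠ t) (iu : i ≠ u) (ik : i ≠ k) (iw : i ≠ w) {x : E3} (hx : x ∈ L.face i)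
    (hxZ : x ∈ ZZ L t u k w z δ) : x = 0 := by
  obtain ⟨tu, tk, tw, tz', uk, uw, uz, kw, kz, wz⟩ := ear_ne hE
  obtain ⟨h1, h2, h3, h4, h5⟩ := inds hE
  rcases hxZ with ((hZ | hZ) | (hZ | hZ)) | hZ
  · obtain ⟨a, c, ha, hc, hac, hxe⟩ := hZ
    have hxt : x ∈ L.face t := ⟨a, c, ha, hc, by rw [hE.st]; exact hxe⟩
    rcases hE.ok.simple i hi t hE.memt it x hx hxt with ⟨-, α, hα, hxα⟩ | ⟨h, -⟩ | h
    · have e1 : (a - α) • L.p t + c • L.p u = 0 := by
        rw [sub_smul]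
        rw [hxe] at hxα
        have : a • L.p t + c • L.p u - α • L.p t = 0 := sub_eq_zero.2 hxα
        rw [← this]
        abel
      have e2 := (h1 _ _ e1).2
      rw [e2, mul_zero] at hac
      rw [hxe, e2, le_antisymm hac ha]
      simp
    · rw [hE.st] at h
      exact absurd h iu
    · exact h
  · obtain ⟨a, c, ha, hc, hac, hxe⟩ := hZ
    have hxw : x ∈ L.face w := ⟨c, a, hc, ha, by rw [hE.sw, add_comm]; exact hxe⟩
    rcases hE.ok.simple i hi w hE.memw iw x hx hxw with ⟨h, -⟩ | ⟨h, α, hα, hxα⟩ | h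
    · exact absurd (hE.ok.inj i hi k hE.memk (by rw [← h, hE.sk])) ik
    · rw [hE.sw] at h
      rw [h] at hxα
      have e1 : (a - α) • L.p z + c • L.p w = 0 := by
        rw [sub_smul]
        rw [hxe] at hxα
        have : a • L.p z + c • L.p w - α • L.p z = 0 := sub_eq_zero.2 hxα
        rw [← this]
        abel
      have e2 := (h2 _ _ e1).2
      rw [e2, mul_zero] at hac
      rw [hxe, e2, le_antisymm hac ha]
      simp
    · exact h
  · have hxu : x ∈ L.face u := by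
      obtain ⟨a, c, ha, hc, hxe⟩ := hZ
      exact ⟨a, c, ha, hc, by rw [hE.su]; exact hxe⟩
    rcases hE.ok.simple i hi u hE.memu iu x hx hxu with ⟨h, -⟩ | ⟨h, -⟩ | h
    · exact absurd (hE.ok.inj i hi t hE.memt (by rw [← h, hE.st])) it
    · rw [hE.su] at h
      exact absurd h ik
    · exact h
  · have hxk : x ∈ L.face k := by
      obtain ⟨a, c, ha, hc, hxe⟩ := hZ
      exact ⟨a, c, ha, hc, by rw [hE.sk]; exact hxe⟩
    rcases hE.ok.simple i hi k hE.memk ik x hx hxk with ⟨h, -⟩ | ⟨h, -⟩ | h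
    · exact absurd (hE.ok.inj i hi u hE.memu (by rw [← h, hE.su])) iu
    · rw [hE.sk] at h
      exact absurd h iw
    · exact h
  · have hsu : (L.erase k).s u = w := by
      change (if L.s u = k then L.s k else L.s u) = w
      rw [if_pos hE.su, hE.sk]
    have hsik : L.s i ≠ k := fun h => iu (hE.ok.inj i hi u hE.memu (by rw [h, hE.su]))
    have hsi : (L.erase k).s i = L.s i := by
      change (if L.s i = k then L.s k else L.s i) = L.s i
      rw [if_neg hsik]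
    have hxu : x ∈ (L.erase k).face u := by
      obtain ⟨a, c, ha, hc, hxe⟩ := hZ
      exact ⟨a, c, ha, hc, by rw [hsu]; exact hxe⟩
    have hxi : x ∈ (L.erase k).face i := by
      obtain ⟨a, c, ha, hc, hxe⟩ := hx
      exact ⟨a, c, ha, hc, by rw [hsi]; exact hxe⟩
    have hiS : i ∈ (L.erase k).S := Finset.mem_erase.2 ⟨ik, hi⟩
    have huS : u ∈ (L.erase k).S := Finset.mem_erase.2 ⟨uk, hE.memu⟩
    rcases hE.ok'.simple i hiS u huS iu x hxi hxu with ⟨h, -⟩ | ⟨h, -⟩ | h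
    · rw [hsi] at h
      exact absurd (hE.ok.inj i hi t hE.memt (by rw [← h, hE.st])) it
    · rw [hsu] at h
      exact absurd h iw
    · exact h

theorem far_faces {L : Pg V} {t u k w z : V} (hE : L.Ear t u k w z) (δ : ℝ) :
    ∃ r : ℝ, 0 < r ∧ ∀ i ∈ L.S, i ≠ t → i ≠ u → i ≠ k → i ≠ w → ∀ x ∈ L.face i,
      r * ‖x‖ ≤ infDist x (ZZ L t u k w z δ) := by
  obtain ⟨T, hT⟩ : ∃ T : Finset V, ∀ i, i ∈ T ↔ i ∈ L.S ∧ i ≠ t ∧ i ≠ u ∧ i ≠ k ∧ i ≠ w :=
    ⟨L.S.filter (fun i => i ≠ t ∧ i ≠ u ∧ i ≠ k ∧ i ≠ w), fun i => Finset.mem_filter⟩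
  have hcl : IsClosed (⋃ i ∈ T, L.face i) :=
    isClosed_biUnion_finset fun i hi => FINJ_.face_closed hE.ok ((hT i).1 hi).1
  have hcn : Cn (⋃ i ∈ T, L.face i) := by
    intro x hx s hs
    simp only [Set.mem_iUnion] at hx ⊢
    obtain ⟨i, hi, hx⟩ := hx
    exact ⟨i, hi, cn_sec _ _ x hx s hs⟩
  obtain ⟨r, hr, hrr⟩ := sep hcl (z_closed hE δ) hcn (z_cn L t u k w z δ)
    (z_zero L t u k w z δ) (by
      intro x hx hxZ
      simp only [Set.mem_iUnion] at hx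
      obtain ⟨i, hi, hx⟩ := hx
      obtain ⟨h1, h2, h3, h4, h5⟩ := (hT i).1 hi
      exact disj hE δ h1 h2 h3 h4 h5 hx hxZ)
  refine ⟨r, hr, fun i hi it iu ik iw x hx => hrr x ?_⟩
  simp only [Set.mem_iUnion]
  exact ⟨i, (hT i).2 ⟨hi, it, iu, ik, iw⟩, hx⟩

/-- positivity on the faces of `L` -/
theorem posL {L : Pg V} {t u k w z : V} {x₀ y₀ : ℝ} (hE : L.Ear t u k w z)
    (hE' : L.EarE t u k w z x₀ y₀) {b : E3 → E3} {c : ℝ} (hc : 0 < c)
    (hb : ∀ i ∈ L.S, ∀ x ∈ L.face i, x ≠ 0 → c ≤ inner ℝ (L.nor i) (b x)) :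
    ∃ c₁ : ℝ, 0 < c₁ ∧ c₁ ≤ inner ℝ (L.nor t) (L.ee u k w x₀ y₀) ∧
      c₁ ≤ inner ℝ (L.nor w) (L.ee u k w x₀ y₀) ∧
      ∀ (Z : Set E3) (r : ℝ), 0 < r → (∀ i ∈ L.S, i ≠ t → i ≠ u → i ≠ k → i ≠ w →
        ∀ x ∈ L.face i, 2 * r * ‖x‖ ≤ infDist x Z) →
      ∀ i ∈ L.S, ∀ x ∈ L.face i, x ≠ 0 →
        c₁ ≤ inner ℝ (L.nor i) (bb Z r (L.ee u k w x₀ y₀) b x) := by
  have nt : 0 < (inner ℝ (L.nor t) (L.ee u k w x₀ y₀) : ℝ) := by
    unfold Pg.nor
    rw [hE.st, inner_ee, d2]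
    have := hE'.eu
    linarith
  have nu : 0 < (inner ℝ (L.nor u) (L.ee u k w x₀ y₀) : ℝ) := by
    unfold Pg.nor
    rw [hE.su, inner_ee, d2, d1]
    have := mul_pos hE'.y0 hE.pos
    linarith
  have nk : 0 < (inner ℝ (L.nor k) (L.ee u k w x₀ y₀) : ℝ) := by
    unfold Pg.nor
    rw [hE.sk, inner_ee, d2, d1, ← det3_cyc]
    have := mul_pos hE'.x0 hE.pos
    linarith
  have nw : 0 < (inner ℝ (L.nor w) (L.ee u k w x₀ y₀) : ℝ) := by
    unfold Pg.nor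
    rw [hE.sw, inner_ee, d1, ← det3_cyc (L.p u), ← det3_cyc (L.p k)]
    have := hE'.ew
    linarith
  obtain ⟨c₁, hc₁, k0, k1, k2, k3, k4⟩ : ∃ c₁ : ℝ, 0 < c₁ ∧ c₁ ≤ c ∧
      c₁ ≤ inner ℝ (L.nor t) (L.ee u k w x₀ y₀) ∧ c₁ ≤ inner ℝ (L.nor u) (L.ee u k w x₀ y₀) ∧
      c₁ ≤ inner ℝ (L.nor k) (L.ee u k w x₀ y₀) ∧
      c₁ ≤ inner ℝ (L.nor w) (L.ee u k w x₀ y₀) := by
    refine ⟨min c (min (inner ℝ (L.nor t) (L.ee u k w x₀ y₀))
      (min (inner ℝ (L.nor u) (L.ee u k w x₀ y₀)) (min (inner ℝ (L.nor k) (L.ee u k w x₀ y₀))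
        (inner ℝ (L.nor w) (L.ee u k w x₀ y₀))))), lt_min hc (lt_min nt (lt_min nu (lt_min nk nw))),
      min_le_left _ _, ?_, ?_, ?_, ?_⟩
    · exact (min_le_right _ _).trans (min_le_left _ _)
    · exact (min_le_right _ _).trans ((min_le_right _ _).trans (min_le_left _ _))
    · exact (min_le_right _ _).trans ((min_le_right _ _).trans ((min_le_right _ _).trans
        (min_le_left _ _)))
    · exact (min_le_right _ _).trans ((min_le_right _ _).trans ((min_le_right _ _).trans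
        (min_le_right _ _)))
  refine ⟨c₁, hc₁, k1, k4, fun Z r hr hZ i hi x hx hx0 => ?_⟩
  have hbi := hb i hi x hx hx0
  have h0 := chi_nonneg Z r x
  have h1 := chi_le Z r x
  unfold bb
  rw [inner_add_right, real_inner_smul_right, real_inner_smul_right]
  have conv : c₁ ≤ inner ℝ (L.nor i) (L.ee u k w x₀ y₀) → c₁ ≤
      (1 - chi Z r x) * inner ℝ (L.nor i) (b x) +
        chi Z r x * inner ℝ (L.nor i) (L.ee u k w x₀ y₀) := by
    intro hle
    have e1 : (1 - chi Z r x) * c₁ ≤ (1 - chi Z r x) * inner ℝ (L.nor i) (b x) :=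
      mul_le_mul_of_nonneg_left (k0.trans hbi) (by linarith)
    have e2 : chi Z r x * c₁ ≤ chi Z r x * inner ℝ (L.nor i) (L.ee u k w x₀ y₀) :=
      mul_le_mul_of_nonneg_left hle h0
    linarith
  by_cases it : i = t
  · exact conv (by rw [it]; exact k1)
  by_cases iu : i = u
  · exact conv (by rw [iu]; exact k2)
  by_cases ik : i = k
  · exact conv (by rw [ik]; exact k3)
  by_cases iw : i = w
  · exact conv (by rw [iw]; exact k4)
  rw [chi_zero hr hx0 (hZ i hi it iu ik iw x hx)]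
  rw [sub_zero, one_mul, zero_mul, add_zero]
  exact k0.trans hbi

/-! ### the tilted polygon -/

theorem hat_su {L : Pg V} {t u k w z : V} (hE : L.Ear t u k w z) (a a' : ℝ) :
    (L.hat t u k w z a a').s u = w := by
  change (if L.s u = k then L.s k else L.s u) = w
  rw [if_pos hE.su, hE.sk]

theorem hat_s {L : Pg V} {t u k w z : V} (hE : L.Ear t u k w z) (a a' : ℝ) {i : V}
    (hi : i ∈ L.S) (iu : i ≠ u) : (L.hat t u k w z a a').s i = L.s i := by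
  have hsik : L.s i ≠ k := fun h => iu (hE.ok.inj i hi u hE.memu (by rw [h, hE.su]))
  change (if L.s i = k then L.s k else L.s i) = L.s i
  rw [if_neg hsik]

theorem hat_pu (L : Pg V) (t u k w z : V) (a a' : ℝ) :
    (L.hat t u k w z a a').p u = L.p u + a • L.p t := by
  change (if u = u then L.p u + a • L.p t else _) = _
  rw [if_pos rfl]

theorem hat_pw {L : Pg V} {t u k w z : V} (hE : L.Ear t u k w z) (a a' : ℝ) :
    (L.hat t u k w z a a').p w = L.p w + a' • L.p z := by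
  obtain ⟨-, -, -, -, -, uw, -⟩ := ear_ne hE
  change (if w = u then L.p u + a • L.p t else if w = w then L.p w + a' • L.p z else L.p w) = _
  rw [if_neg uw.symm, if_pos rfl]

theorem hat_p (L : Pg V) (t u k w z : V) (a a' : ℝ) {i : V} (iu : i ≠ u) (iw : i ≠ w) :
    (L.hat t u k w z a a').p i = L.p i := by
  change (if i = u then L.p u + a • L.p t else if i = w then L.p w + a' • L.p z else L.p i) = _
  rw [if_neg iu, if_neg iw]

theorem hat_other {L : Pg V} {t u k w z : V} (hE : L.Ear t u k w z) (a a' : ℝ) {i : V}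
    (hi : i ∈ L.S) (it : i ≠ t) (iu : i ≠ u) (ik : i ≠ k) (iw : i ≠ w) :
    (L.hat t u k w z a a').face i = L.face i ∧ (L.hat t u k w z a a').nor i = L.nor i := by
  have s1 : L.s i ≠ u := fun h => it (hE.ok.inj i hi t hE.memt (by rw [h, hE.st]))
  have s2 : L.s i ≠ w := fun h => ik (hE.ok.inj i hi k hE.memk (by rw [h, hE.sk]))
  constructor
  · unfold Pg.face
    rw [hat_s hE a a' hi iu, hat_p L t u k w z a a' iu iw, hat_p L t u k w z a a' s1 s2]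
  · unfold Pg.nor
    rw [hat_s hE a a' hi iu, hat_p L t u k w z a a' iu iw, hat_p L t u k w z a a' s1 s2]

/-- the estimate for the tilted arms -/
theorem tiltA {p q : E3} {K r : ℝ} (hK : ∀ a b : ℝ, |b| ≤ K * ‖a • p + b • q‖)
    {a : ℝ} (ha : |a| * K * ‖p‖ ≤ r) {Z : Set E3} {α β : ℝ} (hα : 0 ≤ α) (hβ : 0 ≤ β)
    (hneg : α + β * a < 0) (hZ : β • q ∈ Z) {x : E3} (hx : x = α • p + β • (q + a • p)) :
    infDist x Z ≤ r * ‖x‖ := by
  have hx' : x = (α + β * a) • p + β • q := by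
    rw [hx]
    module
  refine (infDist_le_dist_of_mem hZ).trans ?_
  have h1 : dist x (β • q) = |α + β * a| * ‖p‖ := by
    rw [dist_eq_norm, hx', add_sub_cancel_right, norm_smul, Real.norm_eq_abs]
  have h2 : |α + β * a| ≤ β * |a| := by
    rw [abs_of_neg hneg]
    have := mul_le_mul_of_nonneg_left (neg_abs_le a) hβ
    linarith
  have h3 : β ≤ K * ‖x‖ := by
    have := hK (α + β * a) β
    rw [← hx', abs_of_nonneg hβ] at this
    exact this
  rw [h1]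
  calc |α + β * a| * ‖p‖ ≤ (β * |a|) * ‖p‖ := mul_le_mul_of_nonneg_right h2 (norm_nonneg _)
    _ ≤ ((K * ‖x‖) * |a|) * ‖p‖ := mul_le_mul_of_nonneg_right
        (mul_le_mul_of_nonneg_right h3 (abs_nonneg _)) (norm_nonneg _)
    _ = (|a| * K * ‖p‖) * ‖x‖ := by ring
    _ ≤ r * ‖x‖ := mul_le_mul_of_nonneg_right ha (norm_nonneg _)

/-- the estimate for the tilted chord face -/
theorem tiltB {p q p' q' : E3} {K r s : ℝ} (hK0 : 0 < K)
    (hK : ∀ a b : ℝ, |a| ≤ K * ‖a • p + b • q‖ ∧ |b| ≤ K * ‖a • p + b • q‖)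
    {a a' : ℝ} (hs : |a| * ‖p'‖ + |a'| * ‖q'‖ ≤ s) (hs1 : s * K ≤ 1 / 2) (hs2 : 2 * (s * K) ≤ r)
    {Z : Set E3} {α β : ℝ} (hα : 0 ≤ α) (hβ : 0 ≤ β)
    (hZ : α • p + β • q ∈ Z) {x : E3} (hx : x = α • (p + a • p') + β • (q + a' • q')) :
    infDist x Z ≤ r * ‖x‖ := by
  obtain ⟨y, hy⟩ : ∃ y : E3, y = α • p + β • q := ⟨_, rfl⟩
  obtain ⟨v, hv⟩ : ∃ v : E3, v = (α * a) • p' + (β * a') • q' := ⟨_, rfl⟩
  have hxy : x = y + v := by
    rw [hx, hy, hv]
    module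
  have h1 : α ≤ K * ‖y‖ := by
    have := (hK α β).1
    rw [← hy, abs_of_nonneg hα] at this
    exact this
  have h2 : β ≤ K * ‖y‖ := by
    have := (hK α β).2
    rw [← hy, abs_of_nonneg hβ] at this
    exact this
  have hy0 := norm_nonneg y
  have hp' := norm_nonneg p'
  have hq' := norm_nonneg q'
  have h3 : ‖v‖ ≤ s * K * ‖y‖ := by
    rw [hv]
    refine (norm_add_le _ _).trans ?_
    rw [norm_smul, norm_smul, Real.norm_eq_abs, Real.norm_eq_abs, abs_mul, abs_mul,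
      abs_of_nonneg hα, abs_of_nonneg hβ]
    have e1 : α * |a| * ‖p'‖ ≤ (K * ‖y‖) * |a| * ‖p'‖ :=
      mul_le_mul_of_nonneg_right (mul_le_mul_of_nonneg_right h1 (abs_nonneg _)) hp'
    have e2 : β * |a'| * ‖q'‖ ≤ (K * ‖y‖) * |a'| * ‖q'‖ :=
      mul_le_mul_of_nonneg_right (mul_le_mul_of_nonneg_right h2 (abs_nonneg _)) hq'
    have e3 : (K * ‖y‖) * (|a| * ‖p'‖ + |a'| * ‖q'‖) ≤ (K * ‖y‖) * s :=
      mul_le_mul_of_nonneg_left hs (mul_nonneg hK0.le hy0)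
    linarith
  have h4 : ‖y‖ ≤ 2 * ‖x‖ := by
    have e1 : ‖y‖ ≤ ‖x‖ + ‖v‖ := by
      have : y = x - v := by rw [hxy]; abel
      rw [this]
      exact norm_sub_le _ _
    have e2 : s * K * ‖y‖ ≤ 1 / 2 * ‖y‖ := mul_le_mul_of_nonneg_right hs1 hy0
    linarith
  have hsK : 0 ≤ s * K := by
    have : 0 ≤ s := (add_nonneg (mul_nonneg (abs_nonneg _) hp')
      (mul_nonneg (abs_nonneg _) hq')).trans hs
    exact mul_nonneg this hK0.le
  refine (infDist_le_dist_of_mem hZ).trans ?_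
  rw [← hy, dist_eq_norm, hxy, add_sub_cancel_left, ← hxy]
  calc ‖v‖ ≤ s * K * ‖y‖ := h3
    _ ≤ s * K * (2 * ‖x‖) := mul_le_mul_of_nonneg_left h4 hsK
    _ = 2 * (s * K) * ‖x‖ := by ring
    _ ≤ r * ‖x‖ := mul_le_mul_of_nonneg_right hs2 (norm_nonneg _)

/-- the determinant of the tilted chord face -/
theorem det_tilt (p q p' q' e : E3) {a a' m : ℝ} (ha : |a| ≤ m) (ha' : |a'| ≤ m) (hm : m ≤ 1) :
    det3 p q e - m * (|det3 p' q e| + |det3 p q' e| + |det3 p' q' e|) ≤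
      det3 (p + a • p') (q + a' • q') e := by
  have e1 : det3 (p + a • p') (q + a' • q') e =
      det3 p q e + a * det3 p' q e + a' * det3 p q' e + a * a' * det3 p' q' e := by
    unfold det3
    simp only [PiLp.add_apply, PiLp.smul_apply, smul_eq_mul]
    ring
  have hm0 : 0 ≤ m := (abs_nonneg a).trans ha
  have b1 : |a * det3 p' q e| ≤ m * |det3 p' q e| := by
    rw [abs_mul]
    exact mul_le_mul_of_nonneg_right ha (abs_nonneg _)
  have b2 : |a' * det3 p q' e| ≤ m * |det3 p q' e| := by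
    rw [abs_mul]
    exact mul_le_mul_of_nonneg_right ha' (abs_nonneg _)
  have b3 : |a * a' * det3 p' q' e| ≤ m * |det3 p' q' e| := by
    rw [abs_mul, abs_mul]
    have : |a| * |a'| ≤ m * 1 := mul_le_mul ha (ha'.trans hm) (abs_nonneg _) hm0
    rw [mul_one] at this
    exact mul_le_mul_of_nonneg_right this (abs_nonneg _)
  rw [e1]
  have c1 := (abs_le.1 b1).1
  have c2 := (abs_le.1 b2).1
  have c3 := (abs_le.1 b3).1
  linarith

end

end FLD_

open FLD_ in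
theorem fld_proof : Stmt_Fld := by
  intro V _ L t u k w z x₀ y₀ hE hE' b hb
  refine ⟨1, one_pos, fun δ hδ _ => ?_⟩
  obtain ⟨tu, tk, tw, tz', uk, uw, uz, kw, kz, wz⟩ := ear_ne hE
  obtain ⟨Λ₀, c, hc, hb1, hb2, hb3⟩ := hb
  obtain ⟨Λ, hΛ0, hΛ⟩ : ∃ Λ : ℝ, 0 ≤ Λ ∧ Λ₀ ≤ Λ :=
    ⟨max Λ₀ 0, le_max_right _ _, le_max_left _ _⟩
  have hB : ∀ x ∈ L.cone, x ≠ 0 → ‖b x‖ ≤ Λ := fun x hx h0 => (hb1 x hx h0).trans hΛ
  have hLp : ∀ x ∈ L.cone, ∀ y ∈ L.cone, x ≠ 0 → y ≠ 0 →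
      ‖x‖ * ‖b x - b y‖ ≤ Λ * ‖x - y‖ := fun x hx y hy h0 h0' =>
    (hb2 x hx y hy h0 h0').trans (mul_le_mul_of_nonneg_right hΛ (norm_nonneg _))
  obtain ⟨r₀, hr₀, hfar⟩ := far_faces hE δ
  obtain ⟨r, hr, hrr⟩ : ∃ r : ℝ, 0 < r ∧ 2 * r ≤ r₀ := ⟨r₀ / 2, by linarith, by linarith⟩
  obtain ⟨c₁, hc₁, ct, cw, hpos⟩ := posL hE hE' hc hb3
  have hlam : (inner ℝ (crs (L.p u) (L.p w)) (L.ee u k w x₀ y₀) : ℝ) =
      det3 (L.p u) (L.p k) (L.p w) := by
    rw [inner_ee, d1, d2]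
    unfold det3
    ring
  obtain ⟨e, he⟩ : ∃ e, e = L.ee u k w x₀ y₀ := ⟨_, rfl⟩
  rw [← he] at ct cw hpos hlam
  rw [← he]
  rw [crs_eq_inner] at hlam
  obtain ⟨Z, hZd⟩ : ∃ Z, Z = ZZ L t u k w z δ := ⟨_, rfl⟩
  rw [← hZd] at hfar
  have hZ0 : (0 : E3) ∈ Z := by
    rw [hZd]
    exact z_zero L t u k w z δ
  have hposL := hpos Z r hr (fun i hi it iu ik iw x hx =>
    (mul_le_mul_of_nonneg_right hrr (norm_nonneg x)).trans (hfar i hi it iu ik iw x hx))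
  have hin : ∀ x ∈ Z, chi Z r x = 1 := fun x hx => chi_one hr (by
    rw [infDist_zero_of_mem hx]
    exact mul_nonneg hr.le (norm_nonneg x))
  have he0 := norm_nonneg e
  obtain ⟨Λ', hΛ1, hΛ2⟩ : ∃ Λ' : ℝ, Λ + ‖e‖ ≤ Λ' ∧ Λ + 2 / r * (‖e‖ + Λ) ≤ Λ' := by
    refine ⟨Λ + ‖e‖ + 2 / r * (‖e‖ + Λ), ?_, ?_⟩
    · have : 0 ≤ 2 / r * (‖e‖ + Λ) := by positivity
      linarith
    · linarith
  have hbd : ∀ x, (x ∈ L.cone ∨ chi Z r x = 1) → x ≠ 0 → ‖bb Z r e b x‖ ≤ Λ' := by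
    intro x hx hx0
    refine (bb_bound hΛ0 ?_).trans hΛ1
    rcases hx with hx | hx
    · exact Or.inl (hB x hx hx0)
    · exact Or.inr hx
  have hlp : ∀ x y, (x ∈ L.cone ∨ chi Z r x = 1) → (y ∈ L.cone ∨ chi Z r y = 1) → x ≠ 0 →
      y ≠ 0 → ‖x‖ * ‖bb Z r e b x - bb Z r e b y‖ ≤ Λ' * ‖x - y‖ := by
    intro x y hx hy hx0 hy0
    exact (bb_lip hZ0 hr hΛ0 hB hLp hx0 hy0 hx hy).trans
      (mul_le_mul_of_nonneg_right hΛ2 (norm_nonneg _))
  refine ⟨bb Z r e b, ⟨Λ', c₁, hc₁, fun x hx hx0 => hbd x (Or.inl hx) hx0,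
    fun x hx y hy hx0 hy0 => hlp x y (Or.inl hx) (Or.inl hy) hx0 hy0, hposL⟩, ?_, ?_⟩
  · intro x hx
    refine bb_one (hin x ?_)
    rw [hZd]
    rcases hx with (hx | hx) | (hx | hx)
    · obtain ⟨a, c', ha, hc', hac, rfl⟩ := hx
      refine Or.inl (Or.inl (Or.inl ⟨a, c', ha, hc', ?_, rfl⟩))
      have := mul_nonneg hδ.le hc'
      linarith
    · obtain ⟨a, c', ha, hc', rfl⟩ := hx
      rw [hE.su]
      exact Or.inl (Or.inr (Or.inl ⟨a, c', ha, hc', rfl⟩))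
    · obtain ⟨a, c', ha, hc', rfl⟩ := hx
      rw [hE.sk]
      exact Or.inl (Or.inr (Or.inr ⟨a, c', ha, hc', rfl⟩))
    · obtain ⟨a, c', ha, hc', hac, rfl⟩ := hx
      refine Or.inl (Or.inl (Or.inr ⟨a, c', ha, hc', ?_, rfl⟩))
      have := mul_nonneg hδ.le hc'
      linarith
  -- the constants
  obtain ⟨i1, i2, -, -, i5⟩ := inds hE
  obtain ⟨K₁, hK₁, hK₁'⟩ := coer i1
  obtain ⟨K₂, hK₂, hK₂'⟩ := coer i2
  obtain ⟨K₃, hK₃, hK₃'⟩ := coer i5
  obtain ⟨D, hD⟩ : ∃ D : ℝ, D = |det3 (L.p t) (L.p w) e| + |det3 (L.p u) (L.p z) e| +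
    |det3 (L.p t) (L.p z) e| := ⟨_, rfl⟩
  have hD0 : 0 ≤ D := by
    rw [hD]
    positivity
  have hpt := norm_nonneg (L.p t)
  have hpz := norm_nonneg (L.p z)
  obtain ⟨ρ, hρ0, hρ1, hρ2, hρ3, hρ4⟩ : ∃ ρ : ℝ, 0 < ρ ∧ ρ ≤ 1 / 2 ∧ ρ ≤ δ ∧ ρ ≤ r / 2 ∧
      ρ ≤ det3 (L.p u) (L.p k) (L.p w) / 2 := by
    refine ⟨min (1 / 2) (min δ (min (r / 2) (det3 (L.p u) (L.p k) (L.p w) / 2))), ?_,
      min_le_left _ _, (min_le_right _ _).trans (min_le_left _ _),
      (min_le_right _ _).trans ((min_le_right _ _).trans (min_le_left _ _)),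
      (min_le_right _ _).trans ((min_le_right _ _).trans (min_le_right _ _))⟩
    have := hE.pos
    exact lt_min (by norm_num) (lt_min hδ (lt_min (by linarith) (by linarith)))
  have q1 := mul_nonneg hK₁.le hpt
  have q2 := mul_nonneg hK₂.le hpz
  have q3 : 0 ≤ (‖L.p t‖ + ‖L.p z‖) * K₃ := mul_nonneg (by linarith) hK₃.le
  obtain ⟨C, hC⟩ : ∃ C : ℝ, C = 1 + K₁ * ‖L.p t‖ + K₂ * ‖L.p z‖ + (‖L.p t‖ + ‖L.p z‖) * K₃ + D :=
    ⟨_, rfl⟩
  have hC0 : 0 < C := by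
    rw [hC]
    linarith
  obtain ⟨m, hm⟩ : ∃ m : ℝ, m = ρ / C := ⟨_, rfl⟩
  have hm0 : 0 < m := by
    rw [hm]
    exact div_pos hρ0 hC0
  have hmX : ∀ X : ℝ, X ≤ C → m * X ≤ ρ := by
    intro X hX
    have h1 : m * X ≤ m * C := mul_le_mul_of_nonneg_left hX hm0.le
    have h2 : m * C = ρ := by
      rw [hm, div_mul_cancel₀ _ hC0.ne']
    linarith
  have m1 : m ≤ ρ := by
    have := hmX 1 (by rw [hC]; linarith)
    linarith
  have m2 := hmX (K₁ * ‖L.p t‖) (by rw [hC]; linarith)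
  have m3 := hmX (K₂ * ‖L.p z‖) (by rw [hC]; linarith)
  have m4 := hmX ((‖L.p t‖ + ‖L.p z‖) * K₃) (by rw [hC]; linarith)
  have m5 := hmX D (by rw [hC]; linarith)
  refine ⟨m, hm0, fun a a' ha ha' _ => ?_⟩
  have ha1 : |a| * K₁ * ‖L.p t‖ ≤ r := by
    have := mul_le_mul_of_nonneg_right ha.le q1
    linarith
  have ha2 : |a'| * K₂ * ‖L.p z‖ ≤ r := by
    have := mul_le_mul_of_nonneg_right ha'.le q2
    linarith
  have inU : ∀ β : ℝ, 0 ≤ β → β • L.p u ∈ Z := by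
    intro β hβ
    rw [hZd]
    exact Or.inr ⟨β, 0, hβ, le_rfl, by rw [zero_smul, add_zero]⟩
  have inW : ∀ β : ℝ, 0 ≤ β → β • L.p w ∈ Z := by
    intro β hβ
    rw [hZd]
    exact Or.inr ⟨0, β, le_rfl, hβ, by rw [zero_smul, zero_add]⟩
  have cA : ∀ α β : ℝ, 0 ≤ α → 0 ≤ β → ∀ x : E3, x = α • L.p t + β • (L.p u + a • L.p t) →
      α + β * a < 0 → chi Z r x = 1 := fun α β hα hβ x hx hneg =>
    chi_one hr (tiltA (fun a b => (hK₁' a b).2) ha1 hα hβ hneg (inU β hβ) hx)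
  have cA' : ∀ α β : ℝ, 0 ≤ α → 0 ≤ β → ∀ x : E3, x = α • L.p z + β • (L.p w + a' • L.p z) →
      α + β * a' < 0 → chi Z r x = 1 := fun α β hα hβ x hx hneg =>
    chi_one hr (tiltA (fun a b => (hK₂' a b).2) ha2 hα hβ hneg (inW β hβ) hx)
  have cB : ∀ α β : ℝ, 0 ≤ α → 0 ≤ β → ∀ x : E3,
      x = α • (L.p u + a • L.p t) + β • (L.p w + a' • L.p z) → chi Z r x = 1 := by
    intro α β hα hβ x hx
    refine chi_one hr (tiltB hK₃ hK₃' (s := m * (‖L.p t‖ + ‖L.p z‖)) ?_ ?_ ?_ hα hβ ?_ hx)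
    · have e1 := mul_le_mul_of_nonneg_right ha.le hpt
      have e2 := mul_le_mul_of_nonneg_right ha'.le hpz
      linarith
    · linarith
    · linarith
    · rw [hZd]
      exact Or.inr ⟨α, β, hα, hβ, rfl⟩
  have had : |a| ≤ δ := ha.le.trans (m1.trans hρ2)
  have had' : |a'| ≤ δ := ha'.le.trans (m1.trans hρ2)
  -- points of the tilted faces
  have fT : ∀ x ∈ (L.hat t u k w z a a').face t, x ∈ L.face t ∨ chi Z r x = 1 := by
    rintro x ⟨α, β, hα, hβ, hx⟩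
    rw [hat_s hE a a' hE.memt tu, hE.st, hat_pu, hat_p L t u k w z a a' tu tw] at hx
    rcases lt_or_ge (α + β * a) 0 with hneg | hnn
    · exact Or.inr (cA α β hα hβ x hx hneg)
    · refine Or.inl ⟨α + β * a, β, hnn, hβ, ?_⟩
      rw [hx, hE.st]
      module
  have fW : ∀ x ∈ (L.hat t u k w z a a').face w, x ∈ L.face w ∨ chi Z r x = 1 := by
    rintro x ⟨β, α, hβ, hα, hx⟩
    rw [hat_s hE a a' hE.memw uw.symm, hE.sw, hat_pw hE,
      hat_p L t u k w z a a' uz.symm wz.symm] at hx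
    rcases lt_or_ge (α + β * a') 0 with hneg | hnn
    · exact Or.inr (cA' α β hα hβ x (by rw [hx, add_comm]) hneg)
    · refine Or.inl ⟨β, α + β * a', hβ, hnn, ?_⟩
      rw [hx, hE.sw]
      module
  have fU : ∀ x ∈ (L.hat t u k w z a a').face u, chi Z r x = 1 := by
    rintro x ⟨α, β, hα, hβ, hx⟩
    rw [hat_su hE, hat_pu, hat_pw hE] at hx
    exact cB α β hα hβ x hx
  have hcone : ∀ x ∈ (L.hat t u k w z a a').cone, x ∈ L.cone ∨ chi Z r x = 1 := by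
    rintro x ⟨i, hi, hx⟩
    have hi' : i ≠ k ∧ i ∈ L.S := Finset.mem_erase.1 hi
    by_cases iu : i = u
    · rw [iu] at hx
      exact Or.inr (fU x hx)
    by_cases it : i = t
    · rw [it] at hx
      rcases fT x hx with h | h
      · exact Or.inl ⟨t, hE.memt, h⟩
      · exact Or.inr h
    by_cases iw : i = w
    · rw [iw] at hx
      rcases fW x hx with h | h
      · exact Or.inl ⟨w, hE.memw, h⟩
      · exact Or.inr h
    · rw [(hat_other hE a a' hi'.2 it iu hi'.1 iw).1] at hx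
      exact Or.inl ⟨i, hi'.2, hx⟩
  have hlam2 : det3 (L.p u) (L.p k) (L.p w) / 2 ≤
      det3 (L.p u + a • L.p t) (L.p w + a' • L.p z) e := by
    have h1 := det_tilt (L.p u) (L.p w) (L.p t) (L.p z) e ha.le ha'.le
      (m1.trans (hρ1.trans (by norm_num)))
    rw [← hD, hlam] at h1
    linarith
  obtain ⟨c₂, hc₂, h21, h22⟩ : ∃ c₂ : ℝ, 0 < c₂ ∧ c₂ ≤ c₁ ∧
      c₂ ≤ det3 (L.p u) (L.p k) (L.p w) / 2 :=
    ⟨min c₁ (det3 (L.p u) (L.p k) (L.p w) / 2), lt_min hc₁ (by have := hE.pos; linarith),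
      min_le_left _ _, min_le_right _ _⟩
  refine ⟨⟨Λ', c₂, hc₂, fun x hx hx0 => hbd x (hcone x hx) hx0,
    fun x hx y hy hx0 hy0 => hlp x y (hcone x hx) (hcone y hy) hx0 hy0, ?_⟩, ?_, ?_, ?_⟩
  · intro i hi x hx hx0
    have hi' : i ≠ k ∧ i ∈ L.S := Finset.mem_erase.1 hi
    by_cases iu : i = u
    · rw [iu] at hx ⊢
      rw [bb_one (fU x hx)]
      unfold Pg.nor
      rw [hat_su hE, hat_pu, hat_pw hE, crs_eq_inner]
      exact h22.trans hlam2
    by_cases it : i = t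
    · rw [it] at hx ⊢
      have hn : ∀ y : E3, (inner ℝ ((L.hat t u k w z a a').nor t) y : ℝ) =
          inner ℝ (L.nor t) y := by
        intro y
        unfold Pg.nor
        rw [hat_s hE a a' hE.memt tu, hE.st, hat_pu, hat_p L t u k w z a a' tu tw,
          crs_eq_inner, crs_eq_inner]
        unfold det3
        simp only [PiLp.add_apply, PiLp.smul_apply, smul_eq_mul]
        ring
      rw [hn]
      rcases fT x hx with h | h
      · exact h21.trans (hposL t hE.memt x h hx0)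
      · rw [bb_one h]
        exact h21.trans ct
    by_cases iw : i = w
    · rw [iw] at hx ⊢
      have hn : ∀ y : E3, (inner ℝ ((L.hat t u k w z a a').nor w) y : ℝ) =
          inner ℝ (L.nor w) y := by
        intro y
        unfold Pg.nor
        rw [hat_s hE a a' hE.memw uw.symm, hE.sw, hat_pw hE,
          hat_p L t u k w z a a' uz.symm wz.symm, crs_eq_inner, crs_eq_inner]
        unfold det3
        simp only [PiLp.add_apply, PiLp.smul_apply, smul_eq_mul]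
        ring
      rw [hn]
      rcases fW x hx with h | h
      · exact h21.trans (hposL w hE.memw x h hx0)
      · rw [bb_one h]
        exact h21.trans cw
    · have ho := hat_other hE a a' hi'.2 it iu hi'.1 iw
      rw [ho.1] at hx
      rw [ho.2]
      exact h21.trans (hposL i hi'.2 x hx hx0)
  · rintro x ⟨α, β, hα, hβ, hαβ, hx⟩
    refine bb_one ?_
    rcases lt_or_ge (α + β * a) 0 with hneg | hnn
    · exact cA α β hα hβ x hx hneg
    · refine hin x ?_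
      rw [hZd]
      refine Or.inl (Or.inl (Or.inl ⟨α + β * a, β, hnn, hβ, ?_, ?_⟩))
      · have := mul_le_mul_of_nonneg_left ((le_abs_self a).trans had) hβ
        linarith
      · rw [hx]
        module
  · rintro x ⟨α, β, hα, hβ, hαβ, hx⟩
    refine bb_one ?_
    rcases lt_or_ge (α + β * a') 0 with hneg | hnn
    · exact cA' α β hα hβ x hx hneg
    · refine hin x ?_
      rw [hZd]
      refine Or.inl (Or.inl (Or.inr ⟨α + β * a', β, hnn, hβ, ?_, ?_⟩))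
      · have := mul_le_mul_of_nonneg_left ((le_abs_self a').trans had') hβ
        linarith
      · rw [hx]
        module
  · intro x hx
    exact bb_one (fU x hx)

end Pool.Agent.TSM
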