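import Pool.Agent.TSM.VStmts

set_option autoImplicit false

/-!
# FPOS: all planes at an arm are positive on the direction field near the arm
-/

namespace Pool.Agent.TSM

open Set Filter Topology Metric

namespace FPOS_

variable {V : Type} [DecidableEq V]

theorem crs_zero_left (b : E3) : crs 0 b = 0 := by
  ext i
  fin_cases i <;> simp [crs]

theorem crs_zero_right (b : E3) : crs b 0 = 0 := by
  ext i
  fin_cases i <;> simp [crs]

theorem step (n b b0 : E3) (c P δ : ℝ) (hn : ‖n‖ ≤ P) (hb : ‖b0 - b‖ ≤ δ)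
    (h : c ≤ inner ℝ n b0) : c - P * δ ≤ inner ℝ n b := by
  have h1 : (inner ℝ n b0 : ℝ) - inner ℝ n b = inner ℝ n (b0 - b) := by rw [inner_sub_right]
  have h2 : (inner ℝ n (b0 - b) : ℝ) ≤ ‖n‖ * ‖b0 - b‖ := real_inner_le_norm _ _
  have h3 : ‖n‖ * ‖b0 - b‖ ≤ P * δ :=
    mul_le_mul hn hb (norm_nonneg _) (le_trans (norm_nonneg _) hn)
  linarith

theorem bounds (L : Pg V) : ∃ P : ℝ, 1 ≤ P ∧
    ∀ i ∈ L.S, ‖L.p i‖ ≤ P ∧ ‖L.nor i‖ ≤ P ∧ ‖L.p i‖⁻¹ ≤ P := by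
  refine ⟨1 + ∑ i ∈ L.S, (‖L.p i‖ + ‖L.nor i‖ + ‖L.p i‖⁻¹), ?_, ?_⟩
  · have : 0 ≤ ∑ i ∈ L.S, (‖L.p i‖ + ‖L.nor i‖ + ‖L.p i‖⁻¹) :=
      Finset.sum_nonneg (fun i _ => by positivity)
    linarith
  · intro i hi
    have h := Finset.single_le_sum (f := fun i => ‖L.p i‖ + ‖L.nor i‖ + ‖L.p i‖⁻¹)
      (fun i _ => by positivity) hi
    have h1 := norm_nonneg (L.p i)
    have h2 := norm_nonneg (L.nor i)
    have h3 : 0 ≤ ‖L.p i‖⁻¹ := by positivity
    refine ⟨by linarith, by linarith, by linarith⟩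

/-- the base point on the arm -/
theorem base (L : Pg V) (hL : L.Ok) (Λ c P ε : ℝ) (hc : 0 < c) (hε : 0 < ε) (hP : 1 ≤ P)
    (hPb : ∀ i ∈ L.S, ‖L.p i‖ ≤ P ∧ ‖L.nor i‖ ≤ P ∧ ‖L.p i‖⁻¹ ≤ P) (β : E3 → E3)
    (hβ : L.Tame Λ c β) (i : V) (hi : i ∈ L.S) (x : E3) (hx : x ∈ L.armZone ε i) (hx0 : x ≠ 0) :
    0 ≤ Λ ∧ ‖β x‖ ≤ Λ ∧ ∃ b0 : E3, c ≤ inner ℝ (L.nor i) b0 ∧ c ≤ inner ℝ (L.nor (L.s i)) b0 ∧
      ‖b0 - β x‖ ≤ 2 * Λ * ε * P ^ 2 := by
  obtain ⟨_, hβ1, hβ2, hβ3⟩ := hβ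
  have hsi := hL.maps i hi
  have hssi := hL.maps _ hsi
  obtain ⟨a, b, ha, hb, hab, hxx⟩ := hx
  have hb0 : 0 < b := by
    rcases hb.eq_or_lt with h | h
    · exfalso
      rw [← h, mul_zero] at hab
      have ha0 : a = 0 := le_antisymm hab ha
      apply hx0
      rcases hxx with h' | h' <;> rw [h', ← h, ha0] <;> simp
    · exact h
  -- the point x is on the cone and the arm direction is nonzero
  have hcone : x ∈ L.cone := by
    rcases hxx with h | h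
    · exact ⟨i, hi, a, b, ha, hb, h⟩
    · exact ⟨L.s i, hsi, b, a, hb, ha, by rw [h, add_comm]⟩
  have hp : L.p (L.s i) ≠ 0 := by
    intro h0
    rcases hxx with h | h
    · have h1 := hβ3 i hi x ⟨a, b, ha, hb, h⟩ hx0
      have h2 : L.nor i = 0 := by
        unfold Pg.nor
        rw [h0, crs_zero_right]
      rw [h2, inner_zero_left] at h1
      linarith
    · have h1 := hβ3 (L.s i) hsi x ⟨b, a, hb, ha, by rw [h, add_comm]⟩ hx0
      have h2 : L.nor (L.s i) = 0 := by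
        unfold Pg.nor
        rw [h0, crs_zero_left]
      rw [h2, inner_zero_left] at h1
      linarith
  have hx00 : b • L.p (L.s i) ≠ 0 := smul_ne_zero hb0.ne' hp
  have hf1 : b • L.p (L.s i) ∈ L.face i := ⟨0, b, le_rfl, hb, by simp⟩
  have hf2 : b • L.p (L.s i) ∈ L.face (L.s i) := ⟨b, 0, hb, le_rfl, by simp⟩
  have hΛ1 := hβ1 x hcone hx0
  have hΛ : 0 ≤ Λ := le_trans (norm_nonneg _) hΛ1
  refine ⟨hΛ, hΛ1, β (b • L.p (L.s i)), hβ3 i hi _ hf1 hx00, hβ3 _ hsi _ hf2 hx00, ?_⟩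
  have h1 := hβ2 _ ⟨i, hi, hf1⟩ x hcone hx00 hx0
  have h2 : ‖b • L.p (L.s i) - x‖ ≤ 2 * ε * b * P := by
    rcases hxx with h | h
    · have e : b • L.p (L.s i) - x = -(a • L.p i) := by
        rw [h]
        abel
      rw [e, norm_neg, norm_smul, Real.norm_eq_abs, abs_of_nonneg ha]
      exact mul_le_mul hab (hPb i hi).1 (norm_nonneg _) (by positivity)
    · have e : b • L.p (L.s i) - x = -(a • L.p (L.s (L.s i))) := by
        rw [h]
        abel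
      rw [e, norm_neg, norm_smul, Real.norm_eq_abs, abs_of_nonneg ha]
      exact mul_le_mul hab (hPb _ hssi).1 (norm_nonneg _) (by positivity)
  rw [norm_smul, Real.norm_eq_abs, abs_of_nonneg hb] at h1
  have hpn : 0 < ‖L.p (L.s i)‖ := norm_pos_iff.2 hp
  have h3 : b * ‖L.p (L.s i)‖ * ‖β (b • L.p (L.s i)) - β x‖ ≤ Λ * (2 * ε * b * P) :=
    h1.trans (mul_le_mul_of_nonneg_left h2 hΛ)
  have h4 : ‖β (b • L.p (L.s i)) - β x‖ ≤ 2 * Λ * ε * P * ‖L.p (L.s i)‖⁻¹ := by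
    rw [← div_eq_mul_inv, le_div_iff₀ hpn]
    have h5 : b * (‖β (b • L.p (L.s i)) - β x‖ * ‖L.p (L.s i)‖) ≤ b * (2 * Λ * ε * P) := by
      calc b * (‖β (b • L.p (L.s i)) - β x‖ * ‖L.p (L.s i)‖) =
          b * ‖L.p (L.s i)‖ * ‖β (b • L.p (L.s i)) - β x‖ := by ring
        _ ≤ Λ * (2 * ε * b * P) := h3
        _ = _ := by ring
    exact le_of_mul_le_mul_left h5 hb0
  refine h4.trans ?_
  calc 2 * Λ * ε * P * ‖L.p (L.s i)‖⁻¹ ≤ 2 * Λ * ε * P * P :=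
        mul_le_mul_of_nonneg_left (hPb _ hsi).2.2 (by positivity)
    _ = _ := by ring

end FPOS_

open FPOS_

theorem fpos_proof : Stmt_FPos := by
  intro V _ L hL Λ c μ hc hμ
  obtain ⟨P, hP, hPb⟩ := bounds L
  have hΛ' : 0 < |Λ| + 1 := by positivity
  have hP0 : 0 < P := by linarith
  refine ⟨min (c / (4 * (|Λ| + 1) * P ^ 3)) (μ ^ 2 * c / (4 * (|Λ| + 1))),
    min (c / 2) (μ * c / 4), lt_min (by positivity) (by positivity),
    lt_min (by positivity) (by positivity), ?_⟩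
  intro ε hε hε0 κ Ch N hG β hβ i hi x hx hx0
  obtain ⟨hΛ, hbx, b0, h1, h2, h3⟩ := base L hL Λ c P ε hc hε hP hPb β hβ i hi x hx hx0
  have hsi := hL.maps i hi
  have e1 : ε * (4 * (|Λ| + 1) * P ^ 3) ≤ c := by
    rw [← le_div_iff₀ (by positivity)]
    exact (hε0.trans_le (min_le_left _ _)).le
  have e2 : ε * (4 * (|Λ| + 1)) ≤ μ ^ 2 * c := by
    rw [← le_div_iff₀ (by positivity)]
    exact (hε0.trans_le (min_le_right _ _)).le
  rw [abs_of_nonneg hΛ] at e1 e2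
  have e3 : P * (2 * Λ * ε * P ^ 2) ≤ c / 2 := by
    have : 0 ≤ ε * (4 * P ^ 3) := by positivity
    have e4 : ε * (4 * (Λ + 1) * P ^ 3) = 2 * (P * (2 * Λ * ε * P ^ 2)) + ε * (4 * P ^ 3) := by ring
    linarith
  have g1 : c / 2 ≤ inner ℝ (L.nor i) (β x) := by
    have := step (L.nor i) (β x) b0 c P _ (hPb i hi).2.1 h3 h1
    linarith
  have g2 : c / 2 ≤ inner ℝ (L.nor (L.s i)) (β x) := by
    have := step (L.nor (L.s i)) (β x) b0 c P _ (hPb _ hsi).2.1 h3 h2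
    linarith
  refine ⟨(min_le_left _ _).trans g1, (min_le_left _ _).trans g2, fun n hn => ?_⟩
  obtain ⟨_, _, _, u, w, hu, hw, huw, _, hN⟩ := (hG i hi).2.1 n hn
  refine (min_le_right _ _).trans ?_
  have k1 : (inner ℝ (N n) (β x) : ℝ) = u * inner ℝ (L.nor i) (β x) +
      w * inner ℝ (L.nor (L.s i)) (β x) +
        inner ℝ (N n - (u • L.nor i + w • L.nor (L.s i))) (β x) := by
    rw [inner_sub_left, inner_add_left, real_inner_smul_left, real_inner_smul_left]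
    ring
  have k2 : |(inner ℝ (N n - (u • L.nor i + w • L.nor (L.s i))) (β x) : ℝ)| ≤ ε / μ * Λ :=
    (abs_real_inner_le_norm _ _).trans (mul_le_mul hN hbx (norm_nonneg _) (by positivity))
  have k3 := neg_abs_le (inner ℝ (N n - (u • L.nor i + w • L.nor (L.s i))) (β x) : ℝ)
  have k4 : u * (c / 2) ≤ u * inner ℝ (L.nor i) (β x) := mul_le_mul_of_nonneg_left g1 hu
  have k5 : w * (c / 2) ≤ w * inner ℝ (L.nor (L.s i)) (β x) := mul_le_mul_of_nonneg_left g2 hw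
  have k6 : μ * (c / 2) ≤ (u + w) * (c / 2) := mul_le_mul_of_nonneg_right huw (by positivity)
  have k7 : ε / μ * Λ ≤ μ * c / 4 := by
    rw [div_mul_eq_mul_div, div_le_iff₀ hμ]
    have : 0 ≤ ε := hε.le
    have k8 : μ * c / 4 * μ = μ ^ 2 * c / 4 := by ring
    have k9 : ε * (4 * (Λ + 1)) = 4 * (ε * Λ) + 4 * ε := by ring
    linarith
  have k8 : (u + w) * (c / 2) = u * (c / 2) + w * (c / 2) := by ring
  have k9 : μ * (c / 2) = μ * c / 4 + μ * c / 4 := by ring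
  linarith

end Pool.Agent.TSM
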