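import Pool.Agent.TSM.Imm

/-!
# TSM: the final statement and the reduction to the combinatorial statements

`ClosedSurface`, `PolyImm`, `Tight`, `AdmitsTightSmoothing` are the notions of the problem
MP_89ee87_gt; `final_of_main` reduces the final statement to the statement `Stmt_Main` about
simplexwise linear maps of combinatorial surfaces, and `main_of` reduces `Stmt_Main` to the
preprocessing `Stmt_P` and to the statement `Stmt_RS` about framed maps.
-/

set_option autoImplicit false

open scoped RealInnerProductSpace ContDiff Manifold Topology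

namespace Pool.Agent.TSM

/-- `M` is a closed surface: a compact connected Hausdorff space which is locally homeomorphic to
the plane. -/
def ClosedSurface (M : Type) [TopologicalSpace M] : Prop :=
  CompactSpace M ∧ ConnectedSpace M ∧ T2Space M ∧
    ∀ x : M, ∃ e : OpenPartialHomeomorph M E2, x ∈ e.source

/-- The two-piece property (tightness): the preimage of every closed half-space is connected. -/
def Tight {X : Type} [TopologicalSpace X] (f : X → E3) : Prop :=
  ∀ (ν : E3) (c : ℝ), ν ≠ 0 → IsPreconnected {x : X | c ≤ ⟪ν, f x⟫}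

/-- `f : M → ℝ³` is a polyhedral immersion: it is linear on the faces of some triangulation of
`M` (a closed combinatorial surface `K` with a homeomorphism `τ : |K| → M`), and the image of the
star of every vertex is embedded. -/
def PolyImm {M : Type} [TopologicalSpace M] (f : M → E3) : Prop :=
  ∃ (V : Type) (_ : Fintype V) (_ : DecidableEq V) (K : Surf V) (τ : K.body ≃ₜ M) (p : V → E3),
    (∀ w : K.body, f (τ w) = ∑ v, w.1 v • p v) ∧
      ∀ v, Set.InjOn f (τ '' {w | w.1 ∈ K.star v})

/-- `f` admits a tight smoothing: for every `ε > 0` there is a tight smooth immersion `g` of `M`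
into `ℝ³` with `|g - f| < ε`. -/
def AdmitsTightSmoothing {M : Type} [TopologicalSpace M] (f : M → E3) : Prop :=
  ∀ ε : ℝ, 0 < ε → ∃ g : M → E3, SmoothImm g ∧ Tight g ∧ ∀ x, ‖g x - f x‖ < ε

/-- THE FINAL STATEMENT: every tight polyhedral immersion of a closed surface admits a tight
smoothing. -/
def Stmt_Final : Prop :=
  ∀ (M : Type) [TopologicalSpace M], ClosedSurface M → ∀ f : M → E3, PolyImm f → Tight f →
    AdmitsTightSmoothing f

/-- The abstract main statement. -/
def Stmt_Main : Prop :=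
  ∀ (V : Type) [Fintype V] [DecidableEq V] (K : Surf V) (p : V → E3),
    K.EmbStars p → TPP (K.map p) → ∀ ε : ℝ, 0 < ε →
    ∃ g : K.body → E3, LocImm g ∧ TPP g ∧ ∀ x, ‖g x - K.map p x‖ < ε

/-- Resolution and smoothing of framed maps. -/
def Stmt_RS : Prop :=
  ∀ (V : Type) [Fintype V] [DecidableEq V] (K : Surf V) (p : V → E3) (Φ : Finset (E3 × ℝ)),
    K.Framed p Φ → ∀ ε : ℝ, 0 < ε →
    ∃ g : K.body → E3, LocImm g ∧ TPP g ∧ ∀ x, ‖g x - K.map p x‖ < ε

lemma LocImm.comp_homeo {X Y : Type} [TopologicalSpace X] [TopologicalSpace Y] {g : Y → E3}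
    (hg : LocImm g) (h : X ≃ₜ Y) : LocImm (fun x => g (h x)) := by
  intro x
  obtain ⟨e, hx, he1, he2⟩ := hg (h x)
  have hfun : ((fun x => g (h x)) ∘ (h.toOpenPartialHomeomorph.trans e).symm) = g ∘ e.symm := by
    funext y
    simp
  refine ⟨h.toOpenPartialHomeomorph.trans e, by simpa using hx, ?_, ?_⟩
  · rw [hfun]
    refine he1.mono ?_
    intro y hy
    have := hy.1
    simpa using this
  · intro y hy
    rw [hfun]
    exact he2 y (by simpa using hy.1)

lemma TPP.comp_homeo {X Y : Type} [TopologicalSpace X] [TopologicalSpace Y] {g : Y → E3}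
    (hg : TPP g) (h : X ≃ₜ Y) : TPP (fun x => g (h x)) := by
  intro ν c
  have h1 := (hg ν c).image h.symm h.symm.continuous.continuousOn
  have h2 : h.symm '' {x : Y | c ≤ ⟪ν, g x⟫} = {x : X | c ≤ ⟪ν, g (h x)⟫} := by
    ext x
    constructor
    · rintro ⟨y, hy, rfl⟩
      simpa using hy
    · intro hx
      exact ⟨h x, hx, by simp⟩
  rwa [h2] at h1

lemma TPP.tight {X : Type} [TopologicalSpace X] {f : X → E3} (h : TPP f) : Tight f :=
  fun ν c _ => h ν c

lemma Tight.tpp {X : Type} [TopologicalSpace X] [CompactSpace X] {f : X → E3} (h : Tight f)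
    (hf : Continuous f) : TPP f := by
  intro ν c
  by_cases hν : ν = 0
  · subst hν
    by_cases hc : c ≤ 0
    · have h1 : {x : X | c ≤ ⟪(0 : E3), f x⟫} = Set.univ := by
        ext x; simp [hc]
      rw [h1]
      obtain ⟨R, hR⟩ := (isCompact_range hf).isBounded.exists_norm_le
      obtain ⟨u, hu⟩ := exists_ne (0 : E3)
      have h2 := h u (-(‖u‖ * R)) hu
      have h3 : {x : X | -(‖u‖ * R) ≤ ⟪u, f x⟫} = Set.univ := by
        ext x
        simp only [Set.mem_ofPred_eq, Set.mem_univ, iff_true]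
        have h4 := abs_real_inner_le_norm u (f x)
        have h5 : ‖u‖ * ‖f x‖ ≤ ‖u‖ * R :=
          mul_le_mul_of_nonneg_left (hR _ ⟨x, rfl⟩) (norm_nonneg _)
        have h6 := neg_abs_le (⟪u, f x⟫ : ℝ)
        linarith
      rwa [h3] at h2
    · have h1 : {x : X | c ≤ ⟪(0 : E3), f x⟫} = ∅ := by
        ext x; simp [hc]
      rw [h1]
      exact isPreconnected_empty
  · exact h ν c hν

lemma continuous_map {V : Type} [Fintype V] [DecidableEq V] (K : Surf V) (p : V → E3) :
    Continuous (K.map p) := by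
  unfold Surf.map lin
  refine continuous_finsetSum _ fun v _ => ?_
  exact ((continuous_apply v).comp continuous_subtype_val).smul continuous_const

/-- Part P and Stmt_RS give the main statement. -/
theorem main_of (hP : Stmt_P) (hRS : Stmt_RS) : Stmt_Main := by
  intro V _ _ K p hemb htpp ε hε
  rcases isEmpty_or_nonempty V with hV | hV
  · have hE : IsEmpty K.body := ⟨fun x => by have := x.2.2.1; simp at this⟩
    refine ⟨fun x => 0, fun x => (hE.false x).elim, fun ν c => ?_, fun x => (hE.false x).elim⟩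
    have h0 : {x : K.body | c ≤ ⟪ν, (0 : E3)⟫} = ∅ := Set.eq_empty_of_isEmpty _
    rw [h0]; exact isPreconnected_empty
  obtain ⟨V', i1, i2, K', p', Φ, hfr, h, hh⟩ := hP V K p hemb htpp (ε / 2) (by linarith)
  obtain ⟨g, hg1, hg2, hg3⟩ := hRS V' K' p' Φ hfr (ε / 2) (by linarith)
  refine ⟨fun x => g (h x), hg1.comp_homeo h, hg2.comp_homeo h, fun x => ?_⟩
  have h1 := hg3 (h x)
  have h2 := hh x
  calc ‖g (h x) - K.map p x‖ = ‖(g (h x) - K'.map p' (h x)) + (K'.map p' (h x) - K.map p x)‖ := by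
        congr 1; abel
    _ ≤ ‖g (h x) - K'.map p' (h x)‖ + ‖K'.map p' (h x) - K.map p x‖ := norm_add_le _ _
    _ < ε := by linarith

/-- The main statement gives the final statement. -/
theorem final_of_main (hmain : Stmt_Main) : Stmt_Final := by
  intro M _ hM f hf ht ε hε
  obtain ⟨V, i1, i2, K, τ, p, hlin, hemb⟩ := hf
  have : CompactSpace M := hM.1
  have hmap : ∀ w : K.body, K.map p w = f (τ w) := fun w => by
    rw [hlin w]; rfl
  have hfc : Continuous f := by
    have h1 : f = fun x => K.map p (τ.symm x) := by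
      funext x
      rw [hmap]; simp
    rw [h1]
    exact (continuous_map K p).comp τ.symm.continuous
  have hE : K.EmbStars p := by
    intro v a ha b hb hab
    have hA : a ∈ K.body := by
      obtain ⟨h1, h2, t, ht1, _, ht2⟩ := ha
      exact ⟨h1, h2, t, ht1, ht2⟩
    have hB : b ∈ K.body := by
      obtain ⟨h1, h2, t, ht1, _, ht2⟩ := hb
      exact ⟨h1, h2, t, ht1, ht2⟩
    have hm1 : τ ⟨a, hA⟩ ∈ τ '' {w : K.body | w.1 ∈ K.star v} := ⟨⟨a, hA⟩, ha, rfl⟩
    have hm2 : τ ⟨b, hB⟩ ∈ τ '' {w : K.body | w.1 ∈ K.star v} := ⟨⟨b, hB⟩, hb, rfl⟩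
    have h1 := hemb v hm1 hm2 (by rw [← hmap, ← hmap]; exact hab)
    have h2 := τ.injective h1
    exact congrArg Subtype.val h2
  have hT : TPP (K.map p) := by
    have h1 := (ht.tpp hfc).comp_homeo τ
    have h2 : (fun x => f (τ x)) = K.map p := by
      funext x; rw [hmap]
    rwa [h2] at h1
  obtain ⟨g, hg1, hg2, hg3⟩ := hmain V K p hE hT ε hε
  refine ⟨fun x => g (τ.symm x), (hg1.comp_homeo τ.symm).smoothImm, (hg2.comp_homeo τ.symm).tight,
    fun x => ?_⟩
  have h1 := hg3 (τ.symm x)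
  rw [hmap] at h1
  simpa using h1

/-! ## Bookkeeping for `CloseTo` -/

lemma CloseTo.refl {ε : ℝ} (hε : 0 < ε) {V : Type} [Fintype V] [DecidableEq V] (K : Surf V)
    (p : V → E3) : CloseTo ε K p K p :=
  ⟨Homeomorph.refl _, fun x => by simpa using hε⟩

lemma CloseTo.trans {ε ε' : ℝ} {V V' V'' : Type} [Fintype V] [DecidableEq V] [Fintype V']
    [DecidableEq V'] [Fintype V''] [DecidableEq V''] {K : Surf V} {p : V → E3} {K' : Surf V'}
    {p' : V' → E3} {K'' : Surf V''} {p'' : V'' → E3} (h1 : CloseTo ε K p K' p')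
    (h2 : CloseTo ε' K' p' K'' p'') : CloseTo (ε + ε') K p K'' p'' := by
  obtain ⟨a, ha⟩ := h1
  obtain ⟨b, hb⟩ := h2
  refine ⟨a.trans b, fun x => ?_⟩
  have h3 := ha x
  have h4 := hb (a x)
  calc ‖K''.map p'' ((a.trans b) x) - K.map p x‖
      = ‖(K''.map p'' (b (a x)) - K'.map p' (a x)) + (K'.map p' (a x) - K.map p x)‖ := by
        congr 1
        simp
    _ ≤ ‖K''.map p'' (b (a x)) - K'.map p' (a x)‖ + ‖K'.map p' (a x) - K.map p x‖ :=
        norm_add_le _ _
    _ < ε + ε' := by linarith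

lemma CloseTo.symm {ε : ℝ} {V V' : Type} [Fintype V] [DecidableEq V] [Fintype V']
    [DecidableEq V'] {K : Surf V} {p : V → E3} {K' : Surf V'} {p' : V' → E3}
    (h : CloseTo ε K p K' p') : CloseTo ε K' p' K p := by
  obtain ⟨a, ha⟩ := h
  refine ⟨a.symm, fun x => ?_⟩
  have h1 := ha (a.symm x)
  rw [Homeomorph.apply_symm_apply, norm_sub_rev] at h1
  exact h1

/-- The vertex positions are moved by less than `ε`. -/
lemma CloseTo.of_move {ε : ℝ} {V : Type} [Fintype V] [DecidableEq V] (K : Surf V)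
    {p p' : V → E3} (h : ∀ v, ‖p' v - p v‖ < ε) : CloseTo ε K p K p' := by
  refine ⟨Homeomorph.refl _, fun x => ?_⟩
  obtain ⟨w, hw0, hw1, _⟩ := x
  have h1 : K.map p' (Homeomorph.refl _ ⟨w, hw0, hw1, ‹_›⟩) - K.map p ⟨w, hw0, hw1, ‹_›⟩ =
      ∑ v, w v • (p' v - p v) := by
    simp [Surf.map, lin, smul_sub]
  rw [h1]
  have h2 : ∃ v, w v ≠ 0 := by
    by_contra hcon
    push Not at hcon
    rw [Finset.sum_congr rfl (fun v _ => hcon v)] at hw1
    simp at hw1
  obtain ⟨v0, hv0⟩ := h2
  calc ‖∑ v, w v • (p' v - p v)‖ ≤ ∑ v, ‖w v • (p' v - p v)‖ := norm_sum_le _ _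
    _ = ∑ v, w v * ‖p' v - p v‖ := by
        refine Finset.sum_congr rfl fun v _ => ?_
        rw [norm_smul, Real.norm_eq_abs, abs_of_nonneg (hw0 v)]
    _ < ∑ v, w v * ε := by
        refine Finset.sum_lt_sum (fun v _ => mul_le_mul_of_nonneg_left (h v).le (hw0 v)) ?_
        exact ⟨v0, Finset.mem_univ _, mul_lt_mul_of_pos_left (h v0)
          (lt_of_le_of_ne (hw0 v0) (Ne.symm hv0))⟩
    _ = ε := by rw [← Finset.sum_mul, hw1, one_mul]

end Pool.Agent.TSM
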