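import Pool.Agent.TSM.VBase2

/-!
# TSM, Part VM, module GEOE: choice of the vertical direction
-/

set_option autoImplicit false

namespace Pool.Agent.TSM

open Set Filter Topology Metric

namespace GEOE_

/-- the choice of one coefficient of the vertical direction -/
theorem core {V : Type} (F : Finset V) (T W K : V → ℝ) (τ θ lam : ℝ) (hlam : 0 < lam)
    (hτ : τ ≠ 0) (hθ : τ < 0 → θ < 0) (hid : ∀ m ∈ F, τ * K m = θ * W m - lam * T m) :
    ∃ y : ℝ, 0 < y ∧ 0 < y * τ - θ ∧ ∀ m ∈ F, ∀ σ : ℝ, (σ = 1 ∨ σ = -1) →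
      0 < τ * (σ * T m) → 0 < τ * (σ * W m) → 0 < σ * (y * W m - K m) := by
  rcases lt_or_gt_of_ne hτ with hneg | hpos
  · have hθn := hθ hneg
    have h1 : ∀ᶠ y : ℝ in 𝓝[>] 0, 0 < y := eventually_mem_nhdsWithin
    have hlt : ∀ c : ℝ, 0 < c → ∀ᶠ y : ℝ in 𝓝[>] 0, y < c := fun c hc =>
      eventually_nhdsWithin_of_eventually_nhds (eventually_lt_nhds hc)
    have h2 : ∀ᶠ y : ℝ in 𝓝[>] 0, y < θ / τ := hlt _ (div_pos_of_neg_of_neg hθn hneg)
    have h3 : ∀ᶠ y : ℝ in 𝓝[>] 0, ∀ m ∈ F, K m ≠ 0 → y < |K m| / (|W m| + 1) := by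
      rw [Filter.eventually_all_finset]
      intro m _
      by_cases hK : K m = 0
      · exact Eventually.of_forall fun y h => absurd hK h
      · filter_upwards [hlt (|K m| / (|W m| + 1)) (by positivity)] with y hy _ using hy
    obtain ⟨y, hy1, hy2, hy3⟩ := (h1.and (h2.and h3)).exists
    refine ⟨y, hy1, ?_, ?_⟩
    · have := (lt_div_iff_of_neg hneg).1 hy2
      linarith
    · intro m hm σ hσ hT hW
      have hTn : σ * T m < 0 := by
        by_contra hcon
        push Not at hcon
        nlinarith [mul_nonneg (neg_nonneg.2 hneg.le) hcon]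
      have hWn : σ * W m < 0 := by
        by_contra hcon
        push Not at hcon
        nlinarith [mul_nonneg (neg_nonneg.2 hneg.le) hcon]
      have hKn : σ * K m < 0 := by
        have e : τ * (σ * K m) = θ * (σ * W m) - lam * (σ * T m) := by
          have := hid m hm
          linear_combination σ * this
        have : 0 < τ * (σ * K m) := by
          rw [e]
          nlinarith [mul_pos_of_neg_of_neg hθn hWn, mul_pos hlam (neg_pos.2 hTn)]
        by_contra hcon
        push Not at hcon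
        nlinarith [mul_nonneg (neg_nonneg.2 hneg.le) hcon]
      have hσa : |σ| = 1 := by
        rcases hσ with rfl | rfl <;> simp
      have hK0 : K m ≠ 0 := by
        intro h
        rw [h, mul_zero] at hKn
        exact lt_irrefl _ hKn
      have h4 := hy3 m hm hK0
      rw [lt_div_iff₀ (by positivity)] at h4
      have h5 : |K m| = -(σ * K m) := by
        rw [← abs_of_neg hKn, abs_mul, hσa, one_mul]
      have h6 : |W m| = -(σ * W m) := by
        rw [← abs_of_neg hWn, abs_mul, hσa, one_mul]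
      rw [h5, h6] at h4
      nlinarith
  · have h1 : ∀ᶠ y : ℝ in atTop, 0 < y := eventually_gt_atTop 0
    have h2 : ∀ᶠ y : ℝ in atTop, θ / τ < y := eventually_gt_atTop _
    have h3 : ∀ᶠ y : ℝ in atTop, ∀ m ∈ F, |K m| / |W m| < y := by
      rw [Filter.eventually_all_finset]
      intro m _
      exact eventually_gt_atTop _
    obtain ⟨y, hy1, hy2, hy3⟩ := (h1.and (h2.and h3)).exists
    refine ⟨y, hy1, ?_, ?_⟩
    · have := (div_lt_iff₀ hpos).1 hy2
      linarith
    · intro m hm σ hσ _ hW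
      have hWp : 0 < σ * W m := (mul_pos_iff_of_pos_left hpos).1 hW
      have hσa : |σ| = 1 := by
        rcases hσ with rfl | rfl <;> simp
      have h6 : |W m| = σ * W m := by
        rw [← abs_of_pos hWp, abs_mul, hσa, one_mul]
      have h4 := hy3 m hm
      rw [div_lt_iff₀ (by rw [h6]; exact hWp), h6] at h4
      have h5 : σ * K m ≤ |K m| := by
        calc σ * K m ≤ |σ * K m| := le_abs_self _
          _ = |K m| := by rw [abs_mul, hσa, one_mul]
      nlinarith

theorem cramer_u (t u k w q : E3) :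
    det3 t u w * det3 u q k = det3 t u k * det3 u q w - det3 u k w * det3 u q t := by
  simp only [det3]; ring

theorem cramer_w (u w z k q : E3) :
    det3 u w z * det3 w q k = det3 k w z * det3 w q u - det3 u k w * det3 w q z := by
  simp only [det3]; ring

theorem det_e_u (u w k q : E3) (x y : ℝ) :
    det3 u q (x • u + y • w - k) = y * det3 u q w - det3 u q k := by
  simp only [det3, PiLp.sub_apply, PiLp.add_apply, PiLp.smul_apply, smul_eq_mul]; ring

theorem det_e_w (u w k q : E3) (x y : ℝ) :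
    det3 w q (x • u + y • w - k) = x * det3 w q u - det3 w q k := by
  simp only [det3, PiLp.sub_apply, PiLp.add_apply, PiLp.smul_apply, smul_eq_mul]; ring

end GEOE_

open GEOE_ in
theorem geoe_proof : Stmt_Geoe := by
  intro V _ L t u k w z hE
  obtain ⟨y, hy, hyu, hyc⟩ := core L.S (fun m => det3 (L.p u) (L.p m) (L.p t))
    (fun m => det3 (L.p u) (L.p m) (L.p w)) (fun m => det3 (L.p u) (L.p m) (L.p k))
    (det3 (L.p t) (L.p u) (L.p w)) (det3 (L.p t) (L.p u) (L.p k))
    (det3 (L.p u) (L.p k) (L.p w)) hE.pos hE.τu hE.cu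
    (fun m _ => cramer_u _ _ _ _ _)
  obtain ⟨x, hx, hxw, hxc⟩ := core L.S (fun m => det3 (L.p w) (L.p m) (L.p z))
    (fun m => det3 (L.p w) (L.p m) (L.p u)) (fun m => det3 (L.p w) (L.p m) (L.p k))
    (det3 (L.p u) (L.p w) (L.p z)) (det3 (L.p k) (L.p w) (L.p z))
    (det3 (L.p u) (L.p k) (L.p w)) hE.pos hE.τw hE.cw
    (fun m _ => cramer_w _ _ _ _ _)
  refine ⟨x, y, ⟨hx, hy, hyu, hxw, ?_, ?_⟩⟩
  · intro m hm σ hσ _ h1 h2
    have h := hyc m hm σ hσ h1 h2
    unfold Pg.ee
    rw [det_e_u]
    exact h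
  · intro m hm σ hσ _ h1 h2
    have h := hxc m hm σ hσ h1 h2
    unfold Pg.ee
    rw [det_e_w]
    exact h

end Pool.Agent.TSM
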