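import Pool.Agent.TSM.VStmts3

/-!
# TSM, module GLUC: the glued map is continuous
-/

set_option autoImplicit false

namespace Pool.Agent.TSM

open Set Filter Topology Metric

namespace GLUC_

variable {V : Type} [DecidableEq V]

/-! ### vectors -/

theorem d3_comb (a b c d : E3) (x y : ℝ) :
    det3 (x • a + y • b) c d = x * det3 a c d + y * det3 b c d := by
  simp [det3]; ring

theorem d3_cyc (a b c : E3) : det3 a b c = det3 b c a := by simp [det3]; ring

theorem d3_left (a b : E3) : det3 a b a = 0 := by simp [det3]; ring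

theorem d3_same (a b : E3) : det3 a a b = 0 := by simp [det3]; ring

theorem closed_img (u v : E3) (hinj : ∀ a b : ℝ, a • u + b • v = 0 → a = 0 ∧ b = 0)
    (T : Set (ℝ × ℝ)) (hT : IsClosed T) :
    IsClosed {x : E3 | ∃ a b : ℝ, (a, b) ∈ T ∧ x = a • u + b • v} := by
  let f : ℝ × ℝ →ₗ[ℝ] E3 :=
    (LinearMap.fst ℝ ℝ ℝ).smulRight u + (LinearMap.snd ℝ ℝ ℝ).smulRight v
  have hf : ∀ q : ℝ × ℝ, f q = q.1 • u + q.2 • v := fun q => by simp [f]
  have hker : LinearMap.ker f = ⊥ := by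
    rw [LinearMap.ker_eq_bot']
    intro q hq
    rw [hf] at hq
    obtain ⟨h1, h2⟩ := hinj _ _ hq
    exact Prod.ext h1 h2
  have hce : IsClosedEmbedding f := LinearMap.isClosedEmbedding_of_injective hker
  have : {x : E3 | ∃ a b : ℝ, (a, b) ∈ T ∧ x = a • u + b • v} = f '' T := by
    ext x
    constructor
    · rintro ⟨a, b, h1, h2⟩
      exact ⟨(a, b), h1, by rw [hf]; exact h2.symm⟩
    · rintro ⟨⟨a, b⟩, h1, h2⟩
      refine ⟨a, b, h1, ?_⟩
      rw [← h2, hf]
  rw [this]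
  exact hce.isClosedMap _ hT

/-! ### combinatorics of the polygon -/

variable {L : Pg V}

theorem s_ne (h : L.Ok) {i : V} (hi : i ∈ L.S) : L.s i ≠ i := by
  intro e
  have hall : ∀ j ∈ L.S, j = i := by
    intro j hj
    obtain ⟨m, hm⟩ := h.trans i hi j hj
    have hfix : ∀ n : ℕ, L.s^[n] i = i := by
      intro n
      induction n with
      | zero => rfl
      | succ n ih => rw [Function.iterate_succ_apply', ih, e]
    rw [← hm, hfix m]
  have hle : L.S.card ≤ 1 := Finset.card_le_one.2 (fun a ha b hb => by rw [hall a ha, hall b hb])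
  have h4 := h.card
  omega

theorem exists_det (h : L.Ok) {i j : V} (hi : i ∈ L.S) (hj : j ∈ L.S) (hij : i ≠ j) :
    ∃ k ∈ L.S, det3 (L.p i) (L.p j) (L.p k) ≠ 0 := by
  by_contra hcon
  push Not at hcon
  have h4 := h.card
  have c1 : 2 ≤ ((L.S.erase i).erase j).card := by
    have e1 := Finset.card_erase_of_mem hi
    have e2 := Finset.card_erase_of_mem (Finset.mem_erase.2 ⟨hij.symm, hj⟩)
    omega
  obtain ⟨k, hk, k', hk', hkk⟩ := Finset.one_lt_card.1 (by omega : 1 < ((L.S.erase i).erase j).card)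
  simp only [Finset.mem_erase] at hk hk'
  have f1 : L.Flat i j k := by
    by_contra hf
    exact h.gen i hi j hj k hk.2.2 hij hk.2.1.symm hk.1.symm hf (hcon k hk.2.2)
  have f2 : L.Flat i j k' := by
    by_contra hf
    exact h.gen i hi j hj k' hk'.2.2 hij hk'.2.1.symm hk'.1.symm hf (hcon k' hk'.2.2)
  obtain ⟨m, q, x1, q1, s1, t1⟩ := f1
  obtain ⟨m', q', x2, q2, s2, t2⟩ := f2
  have hm : m = m' := by
    have := x1.symm.trans x2
    exact Option.some.inj this
  subst hm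
  have hq : q = q' := h.inj q q1 q' q2 (s1.trans s2.symm)
  subst hq
  have hset : ({i, j, k} : Finset V) = {i, j, k'} := t1.trans t2.symm
  have : k ∈ ({i, j, k'} : Finset V) := by rw [← hset]; simp
  simp only [Finset.mem_insert, Finset.mem_singleton] at this
  rcases this with e | e | e
  · exact hk.2.1 e
  · exact hk.1 e
  · exact hkk e

theorem coord (h : L.Ok) {i : V} (hi : i ∈ L.S) {a b a' b' : ℝ}
    (e : a • L.p i + b • L.p (L.s i) = a' • L.p i + b' • L.p (L.s i)) : a = a' ∧ b = b' := by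
  obtain ⟨k, hk, hd⟩ := exists_det h hi (h.maps i hi) (s_ne h hi).symm
  constructor
  · have e1 := d3_comb (L.p i) (L.p (L.s i)) (L.p (L.s i)) (L.p k) a b
    have e2 := d3_comb (L.p i) (L.p (L.s i)) (L.p (L.s i)) (L.p k) a' b'
    rw [e, e2, d3_same, mul_zero, mul_zero, add_zero, add_zero] at e1
    exact (mul_right_cancel₀ hd e1).symm
  · have e1 := d3_comb (L.p i) (L.p (L.s i)) (L.p k) (L.p i) a b
    have e2 := d3_comb (L.p i) (L.p (L.s i)) (L.p k) (L.p i) a' b'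
    have e3 : det3 (L.p (L.s i)) (L.p k) (L.p i) = det3 (L.p i) (L.p (L.s i)) (L.p k) :=
      (d3_cyc _ _ _).symm
    rw [e, e2, d3_left, mul_zero, mul_zero, zero_add, zero_add, e3] at e1
    exact (mul_right_cancel₀ hd e1).symm

theorem indep0 (h : L.Ok) {i : V} (hi : i ∈ L.S) (a b : ℝ)
    (e : a • L.p i + b • L.p (L.s i) = 0) : a = 0 ∧ b = 0 := by
  apply coord h hi
  rw [e, zero_smul, zero_smul, add_zero]

theorem face_closed (h : L.Ok) {i : V} (hi : i ∈ L.S) : IsClosed (L.face i) := by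
  have := closed_img (L.p i) (L.p (L.s i)) (indep0 h hi)
    {q : ℝ × ℝ | 0 ≤ q.1 ∧ 0 ≤ q.2} (by
      apply IsClosed.and (isClosed_le (by fun_prop) (by fun_prop))
      exact isClosed_le (by fun_prop) (by fun_prop))
  have e : L.face i = {x : E3 | ∃ a b : ℝ, (a, b) ∈
      {q : ℝ × ℝ | 0 ≤ q.1 ∧ 0 ≤ q.2} ∧ x = a • L.p i + b • L.p (L.s i)} := by
    ext x
    constructor
    · rintro ⟨a, b, h1, h2, h5⟩
      exact ⟨a, b, ⟨h1, h2⟩, h5⟩
    · rintro ⟨a, b, ⟨h1, h2⟩, h5⟩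
      exact ⟨a, b, h1, h2, h5⟩
  rw [e]; exact this

/-- complementary part of a plane sector -/
def rP (p q : E3) (δ : ℝ) : Set E3 :=
  {x | ∃ a c : ℝ, 0 ≤ a ∧ 0 ≤ c ∧ δ * c ≤ a ∧ x = a • p + c • q}

theorem zP_closed (p q : E3) (δ : ℝ) (hinj : ∀ a b : ℝ, a • p + b • q = 0 → a = 0 ∧ b = 0) :
    IsClosed (zP p q δ) := by
  have := closed_img p q hinj
    {q : ℝ × ℝ | 0 ≤ q.1 ∧ 0 ≤ q.2 ∧ q.1 ≤ δ * q.2} (by
      apply IsClosed.and (isClosed_le (by fun_prop) (by fun_prop))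
      apply IsClosed.and (isClosed_le (by fun_prop) (by fun_prop))
      exact isClosed_le (by fun_prop) (by fun_prop))
  have e : zP p q δ = {x : E3 | ∃ a b : ℝ, (a, b) ∈
      {q : ℝ × ℝ | 0 ≤ q.1 ∧ 0 ≤ q.2 ∧ q.1 ≤ δ * q.2} ∧ x = a • p + b • q} := by
    ext x
    constructor
    · rintro ⟨a, b, h1, h2, h3, h5⟩
      exact ⟨a, b, ⟨h1, h2, h3⟩, h5⟩
    · rintro ⟨a, b, ⟨h1, h2, h3⟩, h5⟩
      exact ⟨a, b, h1, h2, h3, h5⟩
  rw [e]; exact this

theorem rP_closed (p q : E3) (δ : ℝ) (hinj : ∀ a b : ℝ, a • p + b • q = 0 → a = 0 ∧ b = 0) :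
    IsClosed (rP p q δ) := by
  have := closed_img p q hinj
    {q : ℝ × ℝ | 0 ≤ q.1 ∧ 0 ≤ q.2 ∧ δ * q.2 ≤ q.1} (by
      apply IsClosed.and (isClosed_le (by fun_prop) (by fun_prop))
      apply IsClosed.and (isClosed_le (by fun_prop) (by fun_prop))
      exact isClosed_le (by fun_prop) (by fun_prop))
  have e : rP p q δ = {x : E3 | ∃ a b : ℝ, (a, b) ∈
      {q : ℝ × ℝ | 0 ≤ q.1 ∧ 0 ≤ q.2 ∧ δ * q.2 ≤ q.1} ∧ x = a • p + b • q} := by
    ext x
    constructor
    · rintro ⟨a, b, h1, h2, h3, h5⟩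
      exact ⟨a, b, ⟨h1, h2, h3⟩, h5⟩
    · rintro ⟨a, b, ⟨h1, h2, h3⟩, h5⟩
      exact ⟨a, b, h1, h2, h3, h5⟩
  rw [e]; exact this

/-- the rest of the cone -/
def Rest (L : Pg V) (t u k w z : V) (δ : ℝ) : Set E3 :=
  (⋃ i ∈ L.S.filter (fun i => i ≠ t ∧ i ≠ u ∧ i ≠ k ∧ i ≠ w), L.face i) ∪
    (rP (L.p t) (L.p u) δ ∪ rP (L.p z) (L.p w) δ)

section
variable {t u k w z : V} (hE : L.Ear t u k w z)
include hE

theorem nds : t ≠ u ∧ t ≠ k ∧ t ≠ w ∧ t ≠ z ∧ u ≠ k ∧ u ≠ w ∧ u ≠ z ∧ k ≠ w ∧ k ≠ z ∧ w ≠ z := by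
  have h := hE.nodup
  simp only [List.nodup_cons, List.mem_cons, List.not_mem_nil, or_false, not_or,
    not_false_eq_true, List.nodup_nil, and_true] at h
  tauto

theorem indT (a b : ℝ) (e : a • L.p t + b • L.p u = 0) : a = 0 ∧ b = 0 := by
  apply indep0 hE.ok hE.memt
  rw [hE.st]; exact e

theorem indW (a b : ℝ) (e : a • L.p z + b • L.p w = 0) : a = 0 ∧ b = 0 := by
  have := indep0 hE.ok hE.memw b a
  rw [hE.sw] at this
  exact (this (by rw [add_comm]; exact e)).symm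

theorem coordT {a b a' b' : ℝ} (e : a • L.p t + b • L.p u = a' • L.p t + b' • L.p u) :
    a = a' ∧ b = b' := by
  have := coord hE.ok hE.memt (a := a) (b := b) (a' := a') (b' := b')
  rw [hE.st] at this
  exact this e

theorem coordW {a b a' b' : ℝ} (e : a • L.p z + b • L.p w = a' • L.p z + b' • L.p w) :
    a = a' ∧ b = b' := by
  have := coord hE.ok hE.memw (a := b) (b := a) (a' := b') (b' := a')
  rw [hE.sw] at this
  exact (this (by rw [add_comm, e, add_comm])).symm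

theorem zT_face {δ : ℝ} {x : E3} (hx : x ∈ zP (L.p t) (L.p u) δ) : x ∈ L.face t := by
  obtain ⟨a, c, ha, hc, _, e⟩ := hx
  exact ⟨a, c, ha, hc, by rw [hE.st]; exact e⟩

theorem zW_face {δ : ℝ} {x : E3} (hx : x ∈ zP (L.p z) (L.p w) δ) : x ∈ L.face w := by
  obtain ⟨a, c, ha, hc, _, e⟩ := hx
  exact ⟨c, a, hc, ha, by rw [hE.sw, add_comm]; exact e⟩

theorem rT_face {δ : ℝ} {x : E3} (hx : x ∈ rP (L.p t) (L.p u) δ) : x ∈ L.face t := by
  obtain ⟨a, c, ha, hc, _, e⟩ := hx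
  exact ⟨a, c, ha, hc, by rw [hE.st]; exact e⟩

theorem rW_face {δ : ℝ} {x : E3} (hx : x ∈ rP (L.p z) (L.p w) δ) : x ∈ L.face w := by
  obtain ⟨a, c, ha, hc, _, e⟩ := hx
  exact ⟨c, a, hc, ha, by rw [hE.sw, add_comm]; exact e⟩

/-- faces which are not adjacent -/
theorem far {i j : V} (hi : i ∈ L.S) (hj : j ∈ L.S) (hij : i ≠ j) (h1 : j ≠ L.s i)
    (h2 : i ≠ L.s j) {x : E3} (hx : x ≠ 0) (hxi : x ∈ L.face i) (hxj : x ∈ L.face j) : False := by
  rcases hE.ok.simple i hi j hj hij x hxi hxj with ⟨e, _⟩ | ⟨e, _⟩ | e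
  · exact h1 e
  · exact h2 e
  · exact hx e

theorem tk {x : E3} (hx : x ≠ 0) (h1 : x ∈ L.face t) (h2 : x ∈ L.face k) : False := by
  obtain ⟨n1, n2, n3, n4, n5, n6, n7, n8, n9, n10⟩ := nds hE
  exact far hE hE.memt hE.memk n2 (by rw [hE.st]; exact n5.symm) (by rw [hE.sk]; exact n3) hx h1 h2

theorem tw {x : E3} (hx : x ≠ 0) (h1 : x ∈ L.face t) (h2 : x ∈ L.face w) : False := by
  obtain ⟨n1, n2, n3, n4, n5, n6, n7, n8, n9, n10⟩ := nds hE
  exact far hE hE.memt hE.memw n3 (by rw [hE.st]; exact n6.symm) (by rw [hE.sw]; exact n4) hx h1 h2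

theorem uw {x : E3} (hx : x ≠ 0) (h1 : x ∈ L.face u) (h2 : x ∈ L.face w) : False := by
  obtain ⟨n1, n2, n3, n4, n5, n6, n7, n8, n9, n10⟩ := nds hE
  exact far hE hE.memu hE.memw n6 (by rw [hE.su]; exact n8.symm) (by rw [hE.sw]; exact n7) hx h1 h2

theorem uk {x : E3} (hx : x ≠ 0) (h1 : x ∈ L.face u) (h2 : x ∈ L.face k) :
    ∃ a : ℝ, 0 ≤ a ∧ x = a • L.p k := by
  obtain ⟨n1, n2, n3, n4, n5, n6, n7, n8, n9, n10⟩ := nds hE
  rcases hE.ok.simple u hE.memu k hE.memk n5 x h1 h2 with ⟨e, h⟩ | ⟨e, _⟩ | e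
  · exact h
  · rw [hE.sk] at e
    exact absurd e n6
  · exact absurd e hx

theorem rest_closed (δ : ℝ) : IsClosed (Rest L t u k w z δ) := by
  unfold Rest
  apply IsClosed.union
  · apply isClosed_biUnion_finset
    intro i hi
    exact face_closed hE.ok (Finset.mem_filter.1 hi).1
  · exact (rP_closed _ _ _ (indT hE)).union (rP_closed _ _ _ (indW hE))

theorem zU_closed (δ : ℝ) : IsClosed (L.zU t u δ) :=
  (zP_closed _ _ _ (indT hE)).union (face_closed hE.ok hE.memu)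

theorem zW_closed (δ : ℝ) : IsClosed (L.zW k w z δ) :=
  (face_closed hE.ok hE.memk).union (zP_closed _ _ _ (indW hE))

theorem cover {δ : ℝ} {x : E3} (hx : x ∈ L.cone) :
    x ∈ L.zU t u δ ∨ x ∈ L.zW k w z δ ∨ x ∈ Rest L t u k w z δ := by
  obtain ⟨i, hi, hxi⟩ := hx
  by_cases h1 : i = u
  · subst h1
    exact Or.inl (Or.inr hxi)
  by_cases h2 : i = k
  · subst h2
    exact Or.inr (Or.inl (Or.inl hxi))
  by_cases h3 : i = t
  · subst h3
    obtain ⟨a, b, ha, hb, e⟩ := hxi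
    rw [hE.st] at e
    rcases le_total a (δ * b) with h | h
    · exact Or.inl (Or.inl ⟨a, b, ha, hb, h, e⟩)
    · exact Or.inr (Or.inr (Or.inr (Or.inl ⟨a, b, ha, hb, h, e⟩)))
  by_cases h4 : i = w
  · subst h4
    obtain ⟨a, b, ha, hb, e⟩ := hxi
    rw [hE.sw, add_comm] at e
    rcases le_total b (δ * a) with h | h
    · exact Or.inr (Or.inl (Or.inr ⟨b, a, hb, ha, h, e⟩))
    · exact Or.inr (Or.inr (Or.inr (Or.inr ⟨b, a, hb, ha, h, e⟩)))
  · right; right; left
    rw [Set.mem_iUnion₂]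
    exact ⟨i, Finset.mem_filter.2 ⟨hi, h3, h1, h2, h4⟩, hxi⟩

/-- a common point of the zone at `u` and of the rest -/
theorem zU_rest {δ : ℝ} (hδ : 0 < δ) {x : E3} (hx : x ≠ 0) (h1 : x ∈ L.zU t u δ)
    (h2 : x ∈ Rest L t u k w z δ) :
    ∃ a c : ℝ, 0 ≤ c ∧ a = δ * c ∧ x = a • L.p t + c • L.p u := by
  obtain ⟨n1, n2, n3, n4, n5, n6, n7, n8, n9, n10⟩ := nds hE
  rcases h1 with h1 | h1
  · obtain ⟨a, c, ha, hc, hac, e⟩ := id h1
    rcases h2 with h2 | h2 | h2
    · rw [Set.mem_iUnion₂] at h2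
      obtain ⟨i, hi, hxi⟩ := h2
      obtain ⟨hiS, i1, i2, i3, i4⟩ := Finset.mem_filter.1 hi
      rcases hE.ok.simple t hE.memt i hiS (Ne.symm i1) x (zT_face hE h1) hxi with
        ⟨e1, _⟩ | ⟨_, b, hb, e1⟩ | e1
      · rw [hE.st] at e1
        exact absurd e1 i2
      · exfalso
        have e2 : a • L.p t + c • L.p u = b • L.p t + (0 : ℝ) • L.p u := by
          rw [← e, e1, zero_smul, add_zero]
        obtain ⟨e3, e4⟩ := coordT hE e2
        rw [e4, mul_zero] at hac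
        have e5 : a = 0 := le_antisymm hac ha
        apply hx
        rw [e, e5, e4, zero_smul, zero_smul, add_zero]
      · exact absurd e1 hx
    · obtain ⟨a', c', ha', hc', hac', e'⟩ := h2
      obtain ⟨e3, e4⟩ := coordT hE (e.symm.trans e')
      subst e3 e4
      exact ⟨a, c, hc, le_antisymm hac hac', e⟩
    · exact (tw hE hx (zT_face hE h1) (rW_face hE h2)).elim
  · rcases h2 with h2 | h2 | h2
    · rw [Set.mem_iUnion₂] at h2
      obtain ⟨i, hi, hxi⟩ := h2
      obtain ⟨hiS, i1, i2, i3, i4⟩ := Finset.mem_filter.1 hi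
      exfalso
      refine far hE hE.memu hiS (Ne.symm i2) (by rw [hE.su]; exact i3) ?_ hx h1 hxi
      intro e1
      rw [← hE.st] at e1
      exact i1 (hE.ok.inj i hiS t hE.memt e1.symm)
    · exfalso
      obtain ⟨a', c', ha', hc', hac', e'⟩ := id h2
      rcases hE.ok.simple t hE.memt u hE.memu n1 x (rT_face hE h2) h1 with
        ⟨_, b, hb, e1⟩ | ⟨e1, _⟩ | e1
      · have e2 : a' • L.p t + c' • L.p u = (0 : ℝ) • L.p t + b • L.p u := by
          rw [← e', e1, zero_smul, zero_add]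
        obtain ⟨e3, e4⟩ := coordT hE e2
        rw [e3] at hac'
        have e5 : c' = 0 := by nlinarith
        apply hx
        rw [e', e3, e5, zero_smul, zero_smul, add_zero]
      · rw [hE.su] at e1
        exact n2 e1
      · exact hx e1
    · exact (uw hE hx h1 (rW_face hE h2)).elim

/-- a common point of the zone at `w` and of the rest -/
theorem zW_rest {δ : ℝ} (hδ : 0 < δ) {x : E3} (hx : x ≠ 0) (h1 : x ∈ L.zW k w z δ)
    (h2 : x ∈ Rest L t u k w z δ) :
    ∃ a c : ℝ, 0 ≤ c ∧ a = δ * c ∧ x = a • L.p z + c • L.p w := by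
  obtain ⟨n1, n2, n3, n4, n5, n6, n7, n8, n9, n10⟩ := nds hE
  rcases h1 with h1 | h1
  · rcases h2 with h2 | h2 | h2
    · rw [Set.mem_iUnion₂] at h2
      obtain ⟨i, hi, hxi⟩ := h2
      obtain ⟨hiS, i1, i2, i3, i4⟩ := Finset.mem_filter.1 hi
      exfalso
      refine far hE hE.memk hiS (Ne.symm i3) (by rw [hE.sk]; exact i4) ?_ hx h1 hxi
      intro e1
      rw [← hE.su] at e1
      exact i2 (hE.ok.inj i hiS u hE.memu e1.symm)
    · exact (tk hE hx (rT_face hE h2) h1).elim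
    · exfalso
      obtain ⟨a', c', ha', hc', hac', e'⟩ := id h2
      rcases hE.ok.simple k hE.memk w hE.memw n8 x h1 (rW_face hE h2) with
        ⟨_, b, hb, e1⟩ | ⟨e1, _⟩ | e1
      · have e2 : a' • L.p z + c' • L.p w = (0 : ℝ) • L.p z + b • L.p w := by
          rw [← e', e1, zero_smul, zero_add]
        obtain ⟨e3, e4⟩ := coordW hE e2
        rw [e3] at hac'
        have e5 : c' = 0 := by nlinarith
        apply hx
        rw [e', e3, e5, zero_smul, zero_smul, add_zero]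
      · rw [hE.sw] at e1
        exact n9 e1
      · exact hx e1
  · obtain ⟨a, c, ha, hc, hac, e⟩ := id h1
    rcases h2 with h2 | h2 | h2
    · rw [Set.mem_iUnion₂] at h2
      obtain ⟨i, hi, hxi⟩ := h2
      obtain ⟨hiS, i1, i2, i3, i4⟩ := Finset.mem_filter.1 hi
      rcases hE.ok.simple w hE.memw i hiS (Ne.symm i4) x (zW_face hE h1) hxi with
        ⟨e0, b, hb, e1⟩ | ⟨e1, _⟩ | e1
      · exfalso
        rw [e0, hE.sw] at e1
        have e2 : a • L.p z + c • L.p w = b • L.p z + (0 : ℝ) • L.p w := by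
          rw [← e, e1, zero_smul, add_zero]
        obtain ⟨e3, e4⟩ := coordW hE e2
        rw [e4, mul_zero] at hac
        have e5 : a = 0 := le_antisymm hac ha
        apply hx
        rw [e, e5, e4, zero_smul, zero_smul, add_zero]
      · exfalso
        rw [← hE.sk] at e1
        exact i3 (hE.ok.inj i hiS k hE.memk e1.symm)
      · exact absurd e1 hx
    · exact (tw hE hx (rT_face hE h2) (zW_face hE h1)).elim
    · obtain ⟨a', c', ha', hc', hac', e'⟩ := h2
      obtain ⟨e3, e4⟩ := coordW hE (e.symm.trans e')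
      subst e3 e4
      exact ⟨a, c, hc, le_antisymm hac hac', e⟩

theorem zU_zW {δ : ℝ} {x : E3} (hx : x ≠ 0) (h1 : x ∈ L.zU t u δ) (h2 : x ∈ L.zW k w z δ) :
    ∃ a : ℝ, 0 ≤ a ∧ x = a • L.p k := by
  rcases h1 with h1 | h1
  · rcases h2 with h2 | h2
    · exact (tk hE hx (zT_face hE h1) h2).elim
    · exact (tw hE hx (zT_face hE h1) (zW_face hE h2)).elim
  · rcases h2 with h2 | h2
    · exact uk hE hx h1 h2
    · exact (uw hE hx h1 (zW_face hE h2)).elim

end

end GLUC_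

open GLUC_ in
theorem gluc_proof : Stmt_Gluc := by
  intro V _ L t u k w z e ε δ R₁ R₂ F tU tW tM hG
  have hE := hG.ear
  have hR1 := hG.hR1
  have hR12 := hG.hR12
  have hε := hG.eps
  have hδ : 0 < δ := by linarith [hG.del]
  have hδε : ε ≤ δ := by linarith [hG.del]
  set R : ℝ := (R₁ + R₂) / 2 with hR
  have hR1R : R₁ ≤ R := by rw [hR]; linarith
  have hRR2 : R ≤ R₂ := by rw [hR]; linarith
  have hR0 : 0 < R := by linarith
  set D : E3 → E3 := dN (L.zU t u δ) (L.zW k w z δ) e R tU tW F with hD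
  have hne : ∀ x : E3, R ≤ ‖x‖ → x ≠ 0 := by
    intro x hx h0
    rw [h0, norm_zero] at hx
    linarith
  -- values
  have vU : ∀ x ∈ L.zU t u δ, R ≤ ‖x‖ → D x = x + tU x • e := by
    intro x hx hxR
    rw [hD]; unfold dN
    rw [if_pos ⟨hxR, hx⟩]
  have vW : ∀ x ∈ L.zW k w z δ, R ≤ ‖x‖ → D x = x + tW x • e := by
    intro x hx hxR
    by_cases hU : x ∈ L.zU t u δ
    · rw [vU x hU hxR]
      obtain ⟨a, ha, e1⟩ := zU_zW hE (hne x hxR) hU hx
      have e2 : tU x = tM x := hG.diagU 0 a le_rfl ha x (by rw [e1, zero_smul, zero_add])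
        (hR1R.trans hxR)
      have e3 : tW x = tM x := hG.diagW 0 a le_rfl ha x (by rw [e1, zero_smul, zero_add])
        (hR1R.trans hxR)
      rw [e2, e3]
    · rw [hD]; unfold dN
      rw [if_neg (fun h => hU h.2), if_pos ⟨hxR, hx⟩]
  have v0 : ∀ x : E3, ‖x‖ ≤ R → D x = F x := by
    intro x hxR
    rcases lt_or_eq_of_le hxR with h | h
    · rw [hD]; unfold dN
      rw [if_neg (fun h' => absurd h'.1 (not_le.2 h)), if_neg (fun h' => absurd h'.1 (not_le.2 h))]
    · by_cases hU : x ∈ L.zU t u δ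
      · rw [vU x hU h.ge, hG.nearU x hU (by rw [h]; exact hR1R) (by rw [h]; exact hRR2)]
      · by_cases hW : x ∈ L.zW k w z δ
        · rw [vW x hW h.ge, hG.nearW x hW (by rw [h]; exact hR1R) (by rw [h]; exact hRR2)]
        · rw [hD]; unfold dN
          rw [if_neg (fun h' => hU h'.2), if_neg (fun h' => hW h'.2)]
  have vR : ∀ x ∈ Rest L t u k w z δ, R ≤ ‖x‖ → D x = F x := by
    intro x hx hxR
    by_cases hU : x ∈ L.zU t u δ
    · rw [vU x hU hxR]
      obtain ⟨a, c, hc, hac, e1⟩ := zU_rest hE hδ (hne x hxR) hU hx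
      refine (hG.outU a c hc ?_ hac.le x e1 (hR1R.trans hxR)).symm
      rw [hac]
      exact mul_le_mul_of_nonneg_right hδε hc
    · by_cases hW : x ∈ L.zW k w z δ
      · rw [vW x hW hxR]
        obtain ⟨a, c, hc, hac, e1⟩ := zW_rest hE hδ (hne x hxR) hW hx
        refine (hG.outW a c hc ?_ hac.le x e1 (hR1R.trans hxR)).symm
        rw [hac]
        exact mul_le_mul_of_nonneg_right hδε hc
      · rw [hD]; unfold dN
        rw [if_neg (fun h' => hU h'.2), if_neg (fun h' => hW h'.2)]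
  -- the cone is closed
  have hcl : IsClosed L.cone := by
    have e1 : L.cone = ⋃ i ∈ L.S, L.face i := by
      ext x
      rw [Set.mem_iUnion₂]
      constructor
      · rintro ⟨i, hi, h⟩
        exact ⟨i, hi, h⟩
      · rintro ⟨i, hi, h⟩
        exact ⟨i, hi, h⟩
    rw [e1]
    exact isClosed_biUnion_finset (fun i hi => face_closed hE.ok hi)
  have hge : IsClosed {x : E3 | R ≤ ‖x‖} := isClosed_le continuous_const continuous_norm
  have hle : IsClosed {x : E3 | ‖x‖ ≤ R} := isClosed_le continuous_norm continuous_const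
  -- pieces
  have c0 : ContinuousOn D (L.cone ∩ {x | ‖x‖ ≤ R}) :=
    (hG.Fcont.mono inter_subset_left).congr (fun x hx => v0 x hx.2)
  have cU : ContinuousOn D ((L.cone ∩ L.zU t u δ) ∩ {x | R ≤ ‖x‖}) := by
    have h1 : Continuous (fun x : E3 => x + tU x • e) :=
      continuous_id.add (hG.cU.smul continuous_const)
    exact h1.continuousOn.congr (fun x hx => vU x hx.1.2 hx.2)
  have cW : ContinuousOn D ((L.cone ∩ L.zW k w z δ) ∩ {x | R ≤ ‖x‖}) := by
    have h1 : Continuous (fun x : E3 => x + tW x • e) :=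
      continuous_id.add (hG.cW.smul continuous_const)
    exact h1.continuousOn.congr (fun x hx => vW x hx.1.2 hx.2)
  have cR : ContinuousOn D ((L.cone ∩ Rest L t u k w z δ) ∩ {x | R ≤ ‖x‖}) :=
    (hG.Fcont.mono (inter_subset_left.trans inter_subset_left)).congr
      (fun x hx => vR x hx.1.2 hx.2)
  have clU := (hcl.inter (zU_closed hE δ)).inter hge
  have clW := (hcl.inter (zW_closed hE δ)).inter hge
  have clR := (hcl.inter (rest_closed hE δ)).inter hge
  have cc := c0.union_of_isClosed (cU.union_of_isClosed (cW.union_of_isClosed cR clW clR) clU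
    (clW.union clR)) (hcl.inter hle) (clU.union (clW.union clR))
  refine cc.mono ?_
  intro x hx
  rcases le_total ‖x‖ R with h | h
  · exact Or.inl ⟨hx, h⟩
  · right
    rcases cover hE (δ := δ) hx with h1 | h1 | h1
    · exact Or.inl ⟨⟨hx, h1⟩, h⟩
    · exact Or.inr (Or.inl ⟨⟨hx, h1⟩, h⟩)
    · exact Or.inr (Or.inr ⟨⟨hx, h1⟩, h⟩)

end Pool.Agent.TSM
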