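import Pool.Agent.TSM.VStmts3

/-!
# TSM, Part VM, module GLUG: the glued map is good
-/

set_option autoImplicit false

namespace Pool.Agent.TSM

open Set Filter Topology Metric

namespace GLUG_

/-- wedge -/
def wd (p q : E3) (S : Set (ℝ × ℝ)) : Set E3 := {x | ∃ a c : ℝ, (a, c) ∈ S ∧ x = a • p + c • q}

theorem cramer (p q r x : E3) :
    det3 p q r • x = det3 x q r • p + det3 p x r • q + det3 p q x • r := by
  ext i
  fin_cases i <;> simp [det3] <;> ring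

theorem det3_add_smul₁ (p q r : E3) (a c : ℝ) :
    det3 (a • p + c • q) q r = a * det3 p q r := by
  simp [det3]; ring

theorem det3_add_smul₂ (p q r : E3) (a c : ℝ) :
    det3 p (a • p + c • q) r = c * det3 p q r := by
  simp [det3]; ring

theorem det3_add_smul₃ (p q : E3) (a c : ℝ) :
    det3 p q (a • p + c • q) = 0 := by
  simp [det3]; ring

theorem cont₁ (q r : E3) : Continuous fun x : E3 => det3 x q r := by
  unfold det3; fun_prop

theorem cont₂ (p r : E3) : Continuous fun x : E3 => det3 p x r := by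
  unfold det3; fun_prop

theorem cont₃ (p q : E3) : Continuous fun x : E3 => det3 p q x := by
  unfold det3; fun_prop

theorem wd_closed {p q r : E3} (h : det3 p q r ≠ 0) {S : Set (ℝ × ℝ)} (hS : IsClosed S) :
    IsClosed (wd p q S) := by
  have key : wd p q S = {x | det3 p q x = 0} ∩
      {x | (det3 x q r / det3 p q r, det3 p x r / det3 p q r) ∈ S} := by
    ext x
    constructor
    · rintro ⟨a, c, hac, rfl⟩
      refine ⟨det3_add_smul₃ p q a c, ?_⟩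
      show (det3 (a • p + c • q) q r / det3 p q r, det3 p (a • p + c • q) r / det3 p q r) ∈ S
      rw [det3_add_smul₁, det3_add_smul₂, mul_div_cancel_right₀ _ h, mul_div_cancel_right₀ _ h]
      exact hac
    · rintro ⟨h0, h1⟩
      refine ⟨_, _, h1, ?_⟩
      have h2 := cramer p q r x
      rw [show det3 p q x = 0 from h0, zero_smul, add_zero] at h2
      calc x = (det3 p q r)⁻¹ • (det3 p q r • x) := by
            rw [smul_smul, inv_mul_cancel₀ h, one_smul]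
        _ = (det3 p q r)⁻¹ • (det3 x q r • p + det3 p x r • q) := by rw [h2]
        _ = (det3 x q r / det3 p q r) • p + (det3 p x r / det3 p q r) • q := by
            rw [smul_add, smul_smul, smul_smul, inv_mul_eq_div, inv_mul_eq_div]
  rw [key]
  apply IsClosed.inter
  · exact isClosed_eq (cont₃ p q) continuous_const
  · exact hS.preimage (((cont₁ q r).div_const _).prodMk ((cont₂ p r).div_const _))

theorem uniq {p q r : E3} (h : det3 p q r ≠ 0) {a c a' c' : ℝ}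
    (he : a • p + c • q = a' • p + c' • q) : a = a' ∧ c = c' := by
  constructor
  · have h1 := congrArg (fun x => det3 x q r) he
    simp only [det3_add_smul₁] at h1
    exact mul_right_cancel₀ h h1
  · have h1 := congrArg (fun x => det3 p x r) he
    simp only [det3_add_smul₂] at h1
    exact mul_right_cancel₀ h h1

theorem det3_swap' (a b c : E3) : det3 a b c = -det3 a c b := by
  unfold det3; ring

/-- the cone of `p`, `q` -/
def cn (p q : E3) : Set E3 := wd p q {s | 0 ≤ s.1 ∧ 0 ≤ s.2}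

/-- the far part of the cone of `p`, `q` -/
def fP (p q : E3) (δ : ℝ) : Set E3 := wd p q {s | 0 ≤ s.1 ∧ 0 ≤ s.2 ∧ δ * s.2 ≤ s.1}

theorem cn_comm (p q : E3) : cn p q = cn q p := by
  ext x
  constructor
  · rintro ⟨a, c, ⟨h1, h2⟩, rfl⟩
    exact ⟨c, a, ⟨h2, h1⟩, add_comm _ _⟩
  · rintro ⟨a, c, ⟨h1, h2⟩, rfl⟩
    exact ⟨c, a, ⟨h2, h1⟩, add_comm _ _⟩

theorem zP_eq (p q : E3) (δ : ℝ) :
    zP p q δ = wd p q {s | 0 ≤ s.1 ∧ 0 ≤ s.2 ∧ s.1 ≤ δ * s.2} := by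
  ext x
  constructor
  · rintro ⟨a, c, h1, h2, h3, rfl⟩
    exact ⟨a, c, ⟨h1, h2, h3⟩, rfl⟩
  · rintro ⟨a, c, ⟨h1, h2, h3⟩, rfl⟩
    exact ⟨a, c, h1, h2, h3, rfl⟩

theorem zP_sub (p q : E3) (δ : ℝ) : zP p q δ ⊆ cn p q := by
  rintro x ⟨a, c, h1, h2, h3, rfl⟩
  exact ⟨a, c, ⟨h1, h2⟩, rfl⟩

theorem fP_sub (p q : E3) (δ : ℝ) : fP p q δ ⊆ cn p q := by
  rintro x ⟨a, c, ⟨h1, h2, h3⟩, rfl⟩
  exact ⟨a, c, ⟨h1, h2⟩, rfl⟩

theorem cn_split {p q : E3} (δ : ℝ) {x : E3} (hx : x ∈ cn p q) : x ∈ zP p q δ ∨ x ∈ fP p q δ := by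
  obtain ⟨a, c, ⟨h1, h2⟩, rfl⟩ := hx
  rcases le_total a (δ * c) with h | h
  · exact Or.inl ⟨a, c, h1, h2, h, rfl⟩
  · exact Or.inr ⟨a, c, ⟨h1, h2, h⟩, rfl⟩

theorem cn_closed {p q r : E3} (h : det3 p q r ≠ 0) : IsClosed (cn p q) := by
  apply wd_closed h
  exact (isClosed_le continuous_const continuous_fst).inter
    (isClosed_le continuous_const continuous_snd)

theorem zP_closed {p q r : E3} (h : det3 p q r ≠ 0) (δ : ℝ) : IsClosed (zP p q δ) := by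
  rw [zP_eq]
  apply wd_closed h
  exact (isClosed_le continuous_const continuous_fst).inter
    ((isClosed_le continuous_const continuous_snd).inter
      (isClosed_le continuous_fst (continuous_const.mul continuous_snd)))

theorem fP_closed {p q r : E3} (h : det3 p q r ≠ 0) (δ : ℝ) : IsClosed (fP p q δ) := by
  apply wd_closed h
  exact (isClosed_le continuous_const continuous_fst).inter
    ((isClosed_le continuous_const continuous_snd).inter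
      (isClosed_le (continuous_const.mul continuous_snd) continuous_fst))

/-- configuration of the faces near an ear -/
structure Cfg (pt pu pk pw pz : E3) (Rs : Set E3) : Prop where
  dt : det3 pt pu pk ≠ 0
  dk : det3 pu pk pw ≠ 0
  dz : det3 pz pw pk ≠ 0
  cl : IsClosed Rs
  tu : ∀ x, x ∈ cn pt pu → x ∈ cn pk pu → ∃ α : ℝ, x = α • pu
  uk : ∀ x, x ∈ cn pk pu → x ∈ cn pk pw → ∃ α : ℝ, x = α • pk
  kw : ∀ x, x ∈ cn pz pw → x ∈ cn pk pw → ∃ α : ℝ, x = α • pw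
  tk : ∀ x, x ∈ cn pt pu → x ∈ cn pk pw → x = 0
  tw : ∀ x, x ∈ cn pt pu → x ∈ cn pz pw → x = 0
  uw : ∀ x, x ∈ cn pz pw → x ∈ cn pk pu → x = 0
  rt : ∀ x, x ∈ Rs → x ∈ cn pt pu → ∃ α : ℝ, x = α • pt
  ru : ∀ x, x ∈ Rs → x ∈ cn pk pu → x = 0
  rk : ∀ x, x ∈ Rs → x ∈ cn pk pw → x = 0
  rw : ∀ x, x ∈ Rs → x ∈ cn pz pw → ∃ α : ℝ, x = α • pz

theorem Cfg.symm {pt pu pk pw pz : E3} {Rs : Set E3} (h : Cfg pt pu pk pw pz Rs) :
    Cfg pz pw pk pu pt Rs where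
  dt := h.dz
  dk := by
    have h1 := h.dk
    have h2 : det3 pw pk pu = -det3 pu pk pw := by unfold det3; ring
    rw [h2]; exact neg_ne_zero.2 h1
  dz := h.dt
  cl := h.cl
  tu := h.kw
  uk := fun x h1 h2 => h.uk x h2 h1
  kw := h.tu
  tk := h.uw
  tw := fun x h1 h2 => h.tw x h2 h1
  uw := h.tk
  rt := h.rw
  ru := h.rk
  rk := h.ru
  rw := h.rt

theorem Cfg.dkt {pt pu pk pw pz : E3} {Rs : Set E3} (h : Cfg pt pu pk pw pz Rs) :
    det3 pk pu pt ≠ 0 := by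
  have h2 : det3 pk pu pt = -det3 pt pu pk := by unfold det3; ring
  rw [h2]; exact neg_ne_zero.2 h.dt

/-- the closed set away from the ear and the near parts of the neighbours -/
def rest (pt pu pw pz : E3) (Rs : Set E3) (δ : ℝ) : Set E3 := Rs ∪ fP pt pu δ ∪ fP pz pw δ

theorem rest_symm (pt pu pw pz : E3) (Rs : Set E3) (δ : ℝ) :
    rest pt pu pw pz Rs δ = rest pz pw pu pt Rs δ := by
  unfold rest
  rw [union_assoc, union_assoc, union_comm (fP pt pu δ)]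

theorem rest_closed {pt pu pk pw pz : E3} {Rs : Set E3} (h : Cfg pt pu pk pw pz Rs) (δ : ℝ) :
    IsClosed (rest pt pu pw pz Rs δ) :=
  (h.cl.union (fP_closed h.dt δ)).union (fP_closed h.dz δ)

/-- points near the arm `pu` -/
theorem exclU {pt pu pk pw pz : E3} {Rs : Set E3} (h : Cfg pt pu pk pw pz Rs) {ε δ : ℝ}
    (hε : 0 < ε) (hεδ : ε < δ) {x : E3} (hx0 : x ≠ 0)
    (hx : x ∈ zP pt pu ε ∨ x ∈ zP pk pu 2) :
    x ∉ rest pt pu pw pz Rs δ ∧ x ∉ zP pz pw δ ∧ x ∉ cn pk pw := by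
  rcases hx with hx | hx
  · have hc := zP_sub _ _ _ hx
    obtain ⟨a, c, ha, hc0, hac, hxe⟩ := hx
    have hcz : c = 0 → False := by
      intro h0
      apply hx0
      have : a = 0 := by subst h0; nlinarith
      rw [hxe, h0, this]; simp
    refine ⟨?_, fun h1 => hx0 (h.tw x hc (zP_sub _ _ _ h1)), fun h1 => hx0 (h.tk x hc h1)⟩
    rintro ((h1 | h1) | h1)
    · obtain ⟨α, hα⟩ := h.rt x h1 hc
      have h2 : a • pt + c • pu = α • pt + (0 : ℝ) • pu := by rw [← hxe, hα]; simp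
      exact hcz (uniq h.dt h2).2
    · obtain ⟨a', c', ⟨h2, h3, h4⟩, h5⟩ := h1
      have h6 := uniq h.dt (hxe.symm.trans h5)
      simp only at h4
      rw [← h6.1, ← h6.2] at h4
      apply hcz
      have : (δ - ε) * c ≤ 0 := by linarith
      nlinarith
    · exact hx0 (h.tw x hc (fP_sub _ _ _ h1))
  · have hc := zP_sub _ _ _ hx
    obtain ⟨a, c, ha, hc0, hac, hxe⟩ := hx
    have hcz : c = 0 → False := by
      intro h0
      apply hx0
      have : a = 0 := by subst h0; linarith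
      rw [hxe, h0, this]; simp
    refine ⟨?_, fun h1 => hx0 (h.uw x (zP_sub _ _ _ h1) hc), fun h1 => ?_⟩
    · rintro ((h1 | h1) | h1)
      · exact hx0 (h.ru x h1 hc)
      · obtain ⟨α, hα⟩ := h.tu x (fP_sub _ _ _ h1) hc
        obtain ⟨a', c', ⟨h2, h3, h4⟩, h5⟩ := h1
        have h6 : a' • pt + c' • pu = (0 : ℝ) • pt + α • pu := by rw [← h5, hα]; simp
        have h7 := (uniq h.dt h6).1
        simp only at h4
        have hδ : 0 < δ := hε.trans hεδ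
        have h8 : c' = 0 := by
          have : δ * c' ≤ 0 := by rw [h7] at h4; exact h4
          nlinarith
        apply hx0
        rw [h5, h7, h8]; simp
      · exact hx0 (h.uw x (fP_sub _ _ _ h1) hc)
    · obtain ⟨α, hα⟩ := h.uk x hc h1
      have h2 : a • pk + c • pu = α • pk + (0 : ℝ) • pu := by rw [← hxe, hα]; simp
      exact hcz (uniq h.dkt h2).2

/-- points near the arm `pk` -/
theorem exclM {pt pu pk pw pz : E3} {Rs : Set E3} (h : Cfg pt pu pk pw pz Rs) {δ : ℝ}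
    {x : E3} (hx0 : x ≠ 0)
    (hx : ∃ a c : ℝ, 0 ≤ c ∧ 2 * c ≤ a ∧ x = a • pk + c • pu) :
    x ∉ rest pt pu pw pz Rs δ ∧ x ∉ zP pt pu δ ∧ x ∉ zP pz pw δ ∧ x ∉ zP pk pu 1 ∧
      x ∉ zP pk pw 1 := by
  obtain ⟨a, c, hc0, hac, hxe⟩ := hx
  have ha : 0 ≤ a := by linarith
  have hc : x ∈ cn pk pu := ⟨a, c, ⟨ha, hc0⟩, hxe⟩
  have haz : a = 0 → False := by
    intro h0
    apply hx0
    have : c = 0 := by linarith
    rw [hxe, h0, this]; simp
  have hnt : x ∉ cn pt pu := by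
    intro h1
    obtain ⟨α, hα⟩ := h.tu x h1 hc
    have h2 : a • pk + c • pu = (0 : ℝ) • pk + α • pu := by rw [← hxe, hα]; simp
    exact haz (uniq h.dkt h2).1
  have hnw : x ∉ cn pz pw := fun h1 => hx0 (h.uw x h1 hc)
  refine ⟨?_, fun h1 => hnt (zP_sub _ _ _ h1), fun h1 => hnw (zP_sub _ _ _ h1), ?_, ?_⟩
  · rintro ((h1 | h1) | h1)
    · exact hx0 (h.ru x h1 hc)
    · exact hnt (fP_sub _ _ _ h1)
    · exact hnw (fP_sub _ _ _ h1)
  · rintro ⟨a', c', h1, h2, h3, h4⟩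
    have h5 := uniq h.dkt (hxe.symm.trans h4)
    apply haz
    linarith [h5.1, h5.2]
  · intro h1
    obtain ⟨α, hα⟩ := h.uk x hc (zP_sub _ _ _ h1)
    obtain ⟨a', c', h1, h2, h3, h4⟩ := h1
    have h5 : a' • pk + c' • pw = α • pk + (0 : ℝ) • pw := by rw [← h4, hα]; simp
    have h6 : det3 pk pw pu ≠ 0 := by rw [← det3_cyc]; exact h.dk
    have h7 := (uniq h6 h5).2
    apply hx0
    have h8 : a' = 0 := by linarith
    rw [h4, h7, h8]; simp

theorem good_of {C Z : Set E3} {G : E3 → E3} {x e : E3} {T : E3 → ℝ} {Bad : Set E3}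
    (hBad : IsClosed Bad) (hx : x ∉ Bad)
    (hG : ∀ y ∈ C, y ∉ Bad → G y = y + T y • e)
    (hZ : ∀ y ∈ C, y ∉ Bad → y ∈ Z)
    (vinj : ∀ x ∈ Z, ∀ y ∈ Z, ∀ r : ℝ, x = y + r • e → x = y)
    (ger : ∃ p q r : Aff, Indep p q r ∧ ∀ᶠ y in 𝓝 x, G3 p q r (y + T y • e) = 0) :
    GoodOn C G x := by
  obtain ⟨p, q, r, hi, hg⟩ := ger
  refine ⟨C ∩ Badᶜ ∩ {y | G3 p q r (y + T y • e) = 0}, ?_, ?_, p, q, r, hi, ?_⟩
  · apply Filter.inter_mem
    · exact Filter.inter_mem self_mem_nhdsWithin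
        (mem_nhdsWithin_of_mem_nhds (hBad.isOpen_compl.mem_nhds hx))
    · exact mem_nhdsWithin_of_mem_nhds hg
  · intro y hy y' hy' h
    have h1 := hG y hy.1.1 hy.1.2
    have h2 := hG y' hy'.1.1 hy'.1.2
    apply vinj y (hZ y hy.1.1 hy.1.2) y' (hZ y' hy'.1.1 hy'.1.2) (T y' - T y)
    rw [h1, h2] at h
    calc y = (y + T y • e) - T y • e := by simp
      _ = (y' + T y' • e) - T y • e := by rw [h]
      _ = y' + (T y' - T y) • e := by rw [sub_smul]; abel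
  · intro y hy
    rw [hG y hy.1.1 hy.1.2]; exact hy.2

/-- if two maps agree near `x` on `C`, goodness is inherited -/
theorem good_congr {C : Set E3} {F G : E3 → E3} {x : E3} {Bad : Set E3}
    (hBad : IsClosed Bad) (hx : x ∉ Bad) (hG : ∀ y, y ∉ Bad → G y = F y)
    (hF : GoodOn C F x) : GoodOn C G x := by
  obtain ⟨U, hU, hi, p, q, r, hI, hg⟩ := hF
  refine ⟨U ∩ Badᶜ, Filter.inter_mem hU
    (mem_nhdsWithin_of_mem_nhds (hBad.isOpen_compl.mem_nhds hx)), ?_, p, q, r, hI, ?_⟩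
  · intro y hy y' hy' h
    rw [hG y hy.2, hG y' hy'.2] at h
    exact hi hy.1 hy'.1 h
  · intro y hy
    rw [hG y hy.2]; exact hg y hy.1

/-- goodness near the arm `pu` -/
theorem sideU {pt pu pk pw pz : E3} {Rs : Set E3} (h : Cfg pt pu pk pw pz Rs) {ε δ R : ℝ}
    (hε : 0 < ε) (hεδ : ε < δ) (hR : 0 < R) {x : E3} (hxR : R < ‖x‖)
    (hx : x ∈ zP pt pu ε ∨ x ∈ zP pk pu 2) {C Z : Set E3} {G : E3 → E3} {T : E3 → ℝ} {e : E3}
    (hC : ∀ y ∈ C, y ∈ Rs ∨ y ∈ cn pt pu ∨ y ∈ cn pk pu ∨ y ∈ cn pk pw ∨ y ∈ cn pz pw)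
    (hG : ∀ y, R ≤ ‖y‖ → (y ∈ zP pt pu δ ∨ y ∈ cn pk pu) → y ∉ zP pz pw δ → y ∉ cn pk pw →
      G y = y + T y • e)
    (hZ : ∀ y, (y ∈ zP pt pu δ ∨ y ∈ cn pk pu) → y ∈ Z)
    (vinj : ∀ x ∈ Z, ∀ y ∈ Z, ∀ r : ℝ, x = y + r • e → x = y)
    (ger : ∃ p q r : Aff, Indep p q r ∧ ∀ᶠ y in 𝓝 x, G3 p q r (y + T y • e) = 0) :
    GoodOn C G x := by
  have hx0 : x ≠ 0 := by
    rintro rfl
    rw [norm_zero] at hxR
    linarith
  obtain ⟨e1, e2, e3⟩ := exclU h hε hεδ hx0 hx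
  have hcl : IsClosed (rest pt pu pw pz Rs δ ∪ zP pz pw δ ∪ cn pk pw ∪ {y | ‖y‖ ≤ R}) := by
    refine (((rest_closed h δ).union (zP_closed h.dz δ)).union ?_).union
      (isClosed_le continuous_norm continuous_const)
    have h6 : det3 pk pw pu ≠ 0 := by rw [← det3_cyc]; exact h.dk
    exact cn_closed h6
  have hmem : ∀ y ∈ C, y ∉ rest pt pu pw pz Rs δ ∪ zP pz pw δ ∪ cn pk pw ∪ {y | ‖y‖ ≤ R} →
      (y ∈ zP pt pu δ ∨ y ∈ cn pk pu) ∧ y ∉ zP pz pw δ ∧ y ∉ cn pk pw ∧ R ≤ ‖y‖ := by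
    intro y hy hyb
    simp only [mem_union, mem_ofPred_eq, not_or, not_le] at hyb
    obtain ⟨⟨⟨b1, b2⟩, b3⟩, b4⟩ := hyb
    refine ⟨?_, b2, b3, b4.le⟩
    simp only [rest, mem_union, not_or] at b1
    rcases hC y hy with h1 | h1 | h1 | h1 | h1
    · exact absurd h1 b1.1.1
    · rcases cn_split δ h1 with h2 | h2
      · exact Or.inl h2
      · exact absurd h2 b1.1.2
    · exact Or.inr h1
    · exact absurd h1 b3
    · rcases cn_split δ h1 with h2 | h2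
      · exact absurd h2 b2
      · exact absurd h2 b1.2
  refine good_of hcl ?_ ?_ ?_ vinj ger
  · simp only [mem_union, mem_ofPred_eq, not_or, not_le]
    exact ⟨⟨⟨e1, e2⟩, e3⟩, hxR⟩
  · intro y hy hyb
    obtain ⟨m1, m2, m3, m4⟩ := hmem y hy hyb
    exact hG y m4 m1 m2 m3
  · intro y hy hyb
    exact hZ y (hmem y hy hyb).1

/-- goodness near the arm `pk` -/
theorem sideM {pt pu pk pw pz : E3} {Rs : Set E3} (h : Cfg pt pu pk pw pz Rs) {δ R : ℝ}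
    (hR : 0 < R) {x : E3} (hxR : R < ‖x‖)
    (hx : ∃ a c : ℝ, 0 ≤ c ∧ 2 * c ≤ a ∧ x = a • pk + c • pu)
    {C Z : Set E3} {G : E3 → E3} {T : E3 → ℝ} {e : E3}
    (hC : ∀ y ∈ C, y ∈ Rs ∨ y ∈ cn pt pu ∨ y ∈ cn pk pu ∨ y ∈ cn pk pw ∨ y ∈ cn pz pw)
    (hG : ∀ y, R ≤ ‖y‖ → y ∉ zP pt pu δ → y ∉ zP pz pw δ →
      ((∃ a c : ℝ, 0 ≤ c ∧ c ≤ a ∧ y = a • pk + c • pu) ∨
        ∃ a c : ℝ, 0 ≤ c ∧ c ≤ a ∧ y = a • pk + c • pw) → G y = y + T y • e)
    (hZ : ∀ y, (y ∈ cn pk pu ∨ y ∈ cn pk pw) → y ∈ Z)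
    (vinj : ∀ x ∈ Z, ∀ y ∈ Z, ∀ r : ℝ, x = y + r • e → x = y)
    (ger : ∃ p q r : Aff, Indep p q r ∧ ∀ᶠ y in 𝓝 x, G3 p q r (y + T y • e) = 0) :
    GoodOn C G x := by
  have hx0 : x ≠ 0 := by
    rintro rfl
    rw [norm_zero] at hxR
    linarith
  obtain ⟨e1, e2, e3, e4, e5⟩ := exclM (δ := δ) h hx0 hx
  have h6 : det3 pk pw pu ≠ 0 := by rw [← det3_cyc]; exact h.dk
  have hcl : IsClosed (rest pt pu pw pz Rs δ ∪ zP pt pu δ ∪ zP pz pw δ ∪ zP pk pu 1 ∪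
      zP pk pw 1 ∪ {y | ‖y‖ ≤ R}) := by
    refine (((((rest_closed h δ).union (zP_closed h.dt δ)).union (zP_closed h.dz δ)).union
      (zP_closed h.dkt 1)).union (zP_closed h6 1)).union
      (isClosed_le continuous_norm continuous_const)
  have hmem : ∀ y ∈ C, y ∉ rest pt pu pw pz Rs δ ∪ zP pt pu δ ∪ zP pz pw δ ∪ zP pk pu 1 ∪
      zP pk pw 1 ∪ {y | ‖y‖ ≤ R} →
      ((∃ a c : ℝ, 0 ≤ c ∧ c ≤ a ∧ y = a • pk + c • pu) ∨
        ∃ a c : ℝ, 0 ≤ c ∧ c ≤ a ∧ y = a • pk + c • pw) ∧ y ∉ zP pt pu δ ∧ y ∉ zP pz pw δ ∧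
        R ≤ ‖y‖ := by
    intro y hy hyb
    simp only [mem_union, mem_ofPred_eq, not_or, not_le] at hyb
    obtain ⟨⟨⟨⟨⟨b1, b2⟩, b3⟩, b4⟩, b5⟩, b6⟩ := hyb
    refine ⟨?_, b2, b3, b6.le⟩
    simp only [rest, mem_union, not_or] at b1
    rcases hC y hy with h1 | h1 | h1 | h1 | h1
    · exact absurd h1 b1.1.1
    · rcases cn_split δ h1 with h2 | h2
      · exact absurd h2 b2
      · exact absurd h2 b1.1.2
    · rcases cn_split 1 h1 with h2 | ⟨a, c, ⟨h2, h3, h4⟩, h5⟩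
      · exact absurd h2 b4
      · exact Or.inl ⟨a, c, h3, by simpa using h4, h5⟩
    · rcases cn_split 1 h1 with h2 | ⟨a, c, ⟨h2, h3, h4⟩, h5⟩
      · exact absurd h2 b5
      · exact Or.inr ⟨a, c, h3, by simpa using h4, h5⟩
    · rcases cn_split δ h1 with h2 | h2
      · exact absurd h2 b3
      · exact absurd h2 b1.2
  refine good_of hcl ?_ ?_ ?_ vinj ger
  · simp only [mem_union, mem_ofPred_eq, not_or, not_le]
    exact ⟨⟨⟨⟨⟨e1, e2⟩, e3⟩, e4⟩, e5⟩, hxR⟩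
  · intro y hy hyb
    obtain ⟨m1, m2, m3, m4⟩ := hmem y hy hyb
    exact hG y m4 m2 m3 m1
  · intro y hy hyb
    rcases (hmem y hy hyb).1 with ⟨a, c, h1, h2, h3⟩ | ⟨a, c, h1, h2, h3⟩
    · exact hZ y (Or.inl ⟨a, c, ⟨h1.trans h2, h1⟩, h3⟩)
    · exact hZ y (Or.inr ⟨a, c, ⟨h1.trans h2, h1⟩, h3⟩)

/-! ### polygons -/

variable {V : Type} [DecidableEq V]

theorem face_eq (L : Pg V) (i : V) : L.face i = cn (L.p i) (L.p (L.s i)) := by
  ext x
  constructor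
  · rintro ⟨a, c, h1, h2, h3⟩
    exact ⟨a, c, ⟨h1, h2⟩, h3⟩
  · rintro ⟨a, c, ⟨h1, h2⟩, h3⟩
    exact ⟨a, c, h1, h2, h3⟩

theorem s_ne {L : Pg V} (h : L.Ok) {i : V} (hi : i ∈ L.S) : L.s i ≠ i := by
  intro h0
  have h1 : ∀ j ∈ L.S, j = i := by
    intro j hj
    obtain ⟨m, hm⟩ := h.trans i hi j hj
    rw [← hm]
    exact Function.iterate_fixed h0 m
  have h2 : L.S.card ≤ 1 := Finset.card_le_one.2 fun a ha b hb => (h1 a ha).trans (h1 b hb).symm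
  have := h.card
  omega

theorem exists_ind {L : Pg V} (h : L.Ok) {i : V} (hi : i ∈ L.S) :
    ∃ r : E3, det3 (L.p i) (L.p (L.s i)) r ≠ 0 := by
  have hne := s_ne h hi
  have hcard : 1 < (L.S \ {i, L.s i}).card := by
    have h1 := Finset.le_card_sdiff ({i, L.s i} : Finset V) L.S
    have h2 : ({i, L.s i} : Finset V).card ≤ 2 := Finset.card_le_two
    have h3 := h.card
    omega
  obtain ⟨j₁, hj₁, j₂, hj₂, hj⟩ := Finset.one_lt_card.1 hcard
  simp only [Finset.mem_sdiff, Finset.mem_insert, Finset.mem_singleton, not_or] at hj₁ hj₂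
  by_cases hf : L.Flat i (L.s i) j₁
  · refine ⟨L.p j₂, h.gen i hi _ (h.maps i hi) j₂ hj₂.1 hne.symm (Ne.symm hj₂.2.1)
      (Ne.symm hj₂.2.2) ?_⟩
    intro hf2
    obtain ⟨m, q, hm, hq, hqm, he⟩ := hf
    obtain ⟨m', q', hm', hq', hqm', he'⟩ := hf2
    have hmm : m = m' := by
      rw [hm] at hm'
      exact Option.some.inj hm'
    subst hmm
    have hqq : q = q' := h.inj q hq q' hq' (hqm.trans hqm'.symm)
    subst hqq
    have h1 : j₁ ∈ ({i, L.s i, j₂} : Finset V) := by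
      rw [he', ← he]; simp
    simp only [Finset.mem_insert, Finset.mem_singleton] at h1
    rcases h1 with h1 | h1 | h1
    · exact hj₁.2.1 h1
    · exact hj₁.2.2 h1
    · exact hj h1
  · exact ⟨L.p j₁, h.gen i hi _ (h.maps i hi) j₁ hj₁.1 hne.symm (Ne.symm hj₁.2.1)
      (Ne.symm hj₁.2.2) hf⟩

theorem face_closed {L : Pg V} (h : L.Ok) {i : V} (hi : i ∈ L.S) : IsClosed (L.face i) := by
  obtain ⟨r, hr⟩ := exists_ind h hi
  rw [face_eq]
  exact cn_closed hr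

/-- the other faces -/
def Rs (L : Pg V) (t u k w : V) : Set E3 :=
  ⋃ i ∈ (L.S \ {t, u, k, w} : Finset V), L.face i

theorem simp2 {L : Pg V} (h : L.Ok) {i j : V} (hi : i ∈ L.S) (hj : j ∈ L.S) (hij : i ≠ j)
    {x : E3} (h1 : x ∈ L.face i) (h2 : x ∈ L.face j) :
    (j = L.s i ∧ ∃ a : ℝ, x = a • L.p j) ∨ (i = L.s j ∧ ∃ a : ℝ, x = a • L.p i) ∨ x = 0 := by
  rcases h.simple i hi j hj hij x h1 h2 with ⟨h3, a, _, h4⟩ | ⟨h3, a, _, h4⟩ | h3
  · exact Or.inl ⟨h3, a, h4⟩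
  · exact Or.inr (Or.inl ⟨h3, a, h4⟩)
  · exact Or.inr (Or.inr h3)

theorem zero_ray (p : E3) {x : E3} (h : x = 0) : ∃ α : ℝ, x = α • p := ⟨0, by rw [h, zero_smul]⟩

theorem cfg {L : Pg V} {t u k w z : V} (h : L.Ear t u k w z) :
    Cfg (L.p t) (L.p u) (L.p k) (L.p w) (L.p z) (Rs L t u k w) := by
  have hnd := h.nodup
  simp only [List.nodup_cons, List.mem_cons, List.not_mem_nil, or_false, not_or,
    List.nodup_nil, and_true, not_false_eq_true] at hnd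
  obtain ⟨⟨ntu, ntk, ntw, ntz⟩, ⟨nuk, nuw, nuz⟩, ⟨nkw, nkz⟩, nwz⟩ := hnd
  have et : cn (L.p t) (L.p u) = L.face t := by rw [face_eq, h.st]
  have eu : cn (L.p k) (L.p u) = L.face u := by rw [face_eq, h.su, cn_comm]
  have ek : cn (L.p k) (L.p w) = L.face k := by rw [face_eq, h.sk]
  have ew : cn (L.p z) (L.p w) = L.face w := by rw [face_eq, h.sw, cn_comm]
  have hRs : ∀ x, x ∈ Rs L t u k w → ∃ i ∈ L.S, i ≠ t ∧ i ≠ u ∧ i ≠ k ∧ i ≠ w ∧ x ∈ L.face i := by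
    intro x hx
    simp only [Rs, mem_iUnion, Finset.mem_sdiff, Finset.mem_insert, Finset.mem_singleton,
      not_or] at hx
    obtain ⟨i, ⟨h1, h2, h3, h4, h5⟩, h6⟩ := hx
    exact ⟨i, h1, h2, h3, h4, h5, h6⟩
  refine ⟨h.θu, h.pos.ne', ?_, ?_, ?_, ?_, ?_, ?_, ?_, ?_, ?_, ?_, ?_, ?_⟩
  · have h2 : det3 (L.p z) (L.p w) (L.p k) = -det3 (L.p k) (L.p w) (L.p z) := by
      unfold det3; ring
    rw [h2]; exact neg_ne_zero.2 h.θw
  · apply Set.Finite.isClosed_biUnion (Finset.finite_toSet _)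
    intro i hi
    exact face_closed h.ok (Finset.mem_sdiff.1 (Finset.mem_coe.1 hi)).1
  · intro x h1 h2
    rw [et] at h1; rw [eu] at h2
    rcases simp2 h.ok h.memt h.memu ntu h1 h2 with ⟨_, h4⟩ | ⟨h3, _⟩ | h3
    · exact h4
    · exact absurd (h3.trans h.su) ntk
    · exact zero_ray _ h3
  · intro x h1 h2
    rw [eu] at h1; rw [ek] at h2
    rcases simp2 h.ok h.memu h.memk nuk h1 h2 with ⟨_, h4⟩ | ⟨h3, _⟩ | h3
    · exact h4
    · exact absurd (h3.trans h.sk) nuw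
    · exact zero_ray _ h3
  · intro x h1 h2
    rw [ew] at h1; rw [ek] at h2
    rcases simp2 h.ok h.memk h.memw nkw h2 h1 with ⟨_, h4⟩ | ⟨h3, _⟩ | h3
    · exact h4
    · exact absurd (h3.trans h.sw) nkz
    · exact zero_ray _ h3
  · intro x h1 h2
    rw [et] at h1; rw [ek] at h2
    rcases simp2 h.ok h.memt h.memk ntk h1 h2 with ⟨h3, _⟩ | ⟨h3, _⟩ | h3
    · exact absurd (h3.trans h.st) (Ne.symm nuk)
    · exact absurd (h3.trans h.sk) ntw
    · exact h3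
  · intro x h1 h2
    rw [et] at h1; rw [ew] at h2
    rcases simp2 h.ok h.memt h.memw ntw h1 h2 with ⟨h3, _⟩ | ⟨h3, _⟩ | h3
    · exact absurd (h3.trans h.st) (Ne.symm nuw)
    · exact absurd (h3.trans h.sw) ntz
    · exact h3
  · intro x h1 h2
    rw [ew] at h1; rw [eu] at h2
    rcases simp2 h.ok h.memu h.memw nuw h2 h1 with ⟨h3, _⟩ | ⟨h3, _⟩ | h3
    · exact absurd (h3.trans h.su) (Ne.symm nkw)
    · exact absurd (h3.trans h.sw) nuz
    · exact h3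
  · intro x h1 h2
    rw [et] at h2
    obtain ⟨i, hi, it, iu, ik, iw, h1⟩ := hRs x h1
    rcases simp2 h.ok hi h.memt it h1 h2 with ⟨_, h4⟩ | ⟨h3, _⟩ | h3
    · exact h4
    · exact absurd (h3.trans h.st) iu
    · exact zero_ray _ h3
  · intro x h1 h2
    rw [eu] at h2
    obtain ⟨i, hi, it, iu, ik, iw, h1⟩ := hRs x h1
    rcases simp2 h.ok hi h.memu iu h1 h2 with ⟨h3, _⟩ | ⟨h3, _⟩ | h3
    · exact absurd (h.ok.inj i hi t h.memt (h3.symm.trans h.st.symm)) it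
    · exact absurd (h3.trans h.su) ik
    · exact h3
  · intro x h1 h2
    rw [ek] at h2
    obtain ⟨i, hi, it, iu, ik, iw, h1⟩ := hRs x h1
    rcases simp2 h.ok hi h.memk ik h1 h2 with ⟨h3, _⟩ | ⟨h3, _⟩ | h3
    · exact absurd (h.ok.inj i hi u h.memu (h3.symm.trans h.su.symm)) iu
    · exact absurd (h3.trans h.sk) iw
    · exact h3
  · intro x h1 h2
    rw [ew] at h2
    obtain ⟨i, hi, it, iu, ik, iw, h1⟩ := hRs x h1
    rcases simp2 h.ok hi h.memw iw h1 h2 with ⟨h3, _⟩ | ⟨h3, h4⟩ | h3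
    · exact absurd (h.ok.inj i hi k h.memk (h3.symm.trans h.sk.symm)) ik
    · rw [h3, h.sw] at h4
      exact h4
    · exact zero_ray _ h3

theorem cone_cases {L : Pg V} {t u k w z : V} (h : L.Ear t u k w z) {y : E3} (hy : y ∈ L.cone) :
    y ∈ Rs L t u k w ∨ y ∈ cn (L.p t) (L.p u) ∨ y ∈ cn (L.p k) (L.p u) ∨
      y ∈ cn (L.p k) (L.p w) ∨ y ∈ cn (L.p z) (L.p w) := by
  have et : cn (L.p t) (L.p u) = L.face t := by rw [face_eq, h.st]
  have eu : cn (L.p k) (L.p u) = L.face u := by rw [face_eq, h.su, cn_comm]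
  have ek : cn (L.p k) (L.p w) = L.face k := by rw [face_eq, h.sk]
  have ew : cn (L.p z) (L.p w) = L.face w := by rw [face_eq, h.sw, cn_comm]
  rw [et, eu, ek, ew]
  obtain ⟨i, hi, hyi⟩ := hy
  by_cases h1 : i = t
  · subst h1; exact Or.inr (Or.inl hyi)
  by_cases h2 : i = u
  · subst h2; exact Or.inr (Or.inr (Or.inl hyi))
  by_cases h3 : i = k
  · subst h3; exact Or.inr (Or.inr (Or.inr (Or.inl hyi)))
  by_cases h4 : i = w
  · subst h4; exact Or.inr (Or.inr (Or.inr (Or.inr hyi)))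
  left
  simp only [Rs, mem_iUnion, Finset.mem_sdiff, Finset.mem_insert, Finset.mem_singleton, not_or]
  exact ⟨i, ⟨hi, h1, h2, h3, h4⟩, hyi⟩

end GLUG_

open GLUG_ in
theorem glug_proof : Stmt_Glug := by
  intro V _ L t u k w z e ε δ R₁ R₂ F tU tW tM H x hx
  have C := cfg H.ear
  have et : cn (L.p t) (L.p u) = L.face t := by rw [face_eq, H.ear.st]
  have eu : cn (L.p k) (L.p u) = L.face u := by rw [face_eq, H.ear.su, cn_comm]
  have ek : cn (L.p k) (L.p w) = L.face k := by rw [face_eq, H.ear.sk]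
  have ew : cn (L.p z) (L.p w) = L.face w := by rw [face_eq, H.ear.sw, cn_comm]
  have hεδ : ε < δ := by linarith [H.eps, H.del]
  have hR12 := H.hR12
  have hR1 := H.hR1
  set R : ℝ := (R₁ + R₂) / 2 with hRdef
  have hR : 0 < R := by rw [hRdef]; linarith
  have hR1R : R₁ ≤ R := by rw [hRdef]; linarith
  have hRR2 : R < R₂ := by rw [hRdef]; linarith
  have hzU : ∀ y, y ∈ L.zU t u δ ↔ y ∈ zP (L.p t) (L.p u) δ ∨ y ∈ cn (L.p k) (L.p u) := by
    intro y; rw [eu]; rfl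
  have hzW : ∀ y, y ∈ L.zW k w z δ ↔ y ∈ cn (L.p k) (L.p w) ∨ y ∈ zP (L.p z) (L.p w) δ := by
    intro y; rw [ek]; rfl
  have gU : ∀ y, R ≤ ‖y‖ → y ∈ L.zU t u δ →
      dN (L.zU t u δ) (L.zW k w z δ) e R tU tW F y = y + tU y • e := by
    intro y h1 h2
    unfold dN
    rw [if_pos ⟨h1, h2⟩]
  have gW : ∀ y, R ≤ ‖y‖ → y ∉ L.zU t u δ → y ∈ L.zW k w z δ →
      dN (L.zU t u δ) (L.zW k w z δ) e R tU tW F y = y + tW y • e := by
    intro y h1 h2 h3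
    unfold dN
    rw [if_neg (fun h => h2 h.2), if_pos ⟨h1, h3⟩]
  have hvinj := H.vinj
  unfold Pg.Vinj at hvinj
  rcases lt_or_ge ‖x‖ R₂ with hxR | hxR
  · -- near the origin the map is `F`
    have hcl : IsClosed {y : E3 | R₂ ≤ ‖y‖} := isClosed_le continuous_const continuous_norm
    refine good_congr hcl (by simpa using hxR) ?_ (H.Fgood x hx)
    intro y hy
    simp only [mem_ofPred_eq, not_le] at hy
    unfold dN
    split_ifs with h1 h2
    · exact (H.nearU y h1.2 (hR1R.trans h1.1) hy.le).symm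
    · exact (H.nearW y h2.2 (hR1R.trans h2.1) hy.le).symm
    · rfl
  have hxRlt : R < ‖x‖ := hRR2.trans_le hxR
  have hxR1 : R₁ ≤ ‖x‖ := hR1R.trans hxRlt.le
  have hgU : ∀ y, R ≤ ‖y‖ → (y ∈ zP (L.p t) (L.p u) δ ∨ y ∈ cn (L.p k) (L.p u)) →
      y ∉ zP (L.p z) (L.p w) δ → y ∉ cn (L.p k) (L.p w) →
      dN (L.zU t u δ) (L.zW k w z δ) e R tU tW F y = y + tU y • e := by
    intro y h1 h2 _ _
    exact gU y h1 ((hzU y).2 h2)
  have hgW : ∀ y, R ≤ ‖y‖ → (y ∈ zP (L.p z) (L.p w) δ ∨ y ∈ cn (L.p k) (L.p w)) →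
      y ∉ zP (L.p t) (L.p u) δ → y ∉ cn (L.p k) (L.p u) →
      dN (L.zU t u δ) (L.zW k w z δ) e R tU tW F y = y + tW y • e := by
    intro y h1 h2 h3 h4
    refine gW y h1 ?_ ((hzW y).2 h2.symm)
    rw [hzU]
    rintro (h | h)
    · exact h3 h
    · exact h4 h
  have hCs : ∀ y ∈ L.cone, y ∈ Rs L t u k w ∨ y ∈ cn (L.p z) (L.p w) ∨ y ∈ cn (L.p k) (L.p w) ∨
      y ∈ cn (L.p k) (L.p u) ∨ y ∈ cn (L.p t) (L.p u) := by
    intro y hy
    rcases cone_cases H.ear hy with h | h | h | h | h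
    · exact Or.inl h
    · exact Or.inr (Or.inr (Or.inr (Or.inr h)))
    · exact Or.inr (Or.inr (Or.inr (Or.inl h)))
    · exact Or.inr (Or.inr (Or.inl h))
    · exact Or.inr (Or.inl h)
  have hZU : ∀ y, (y ∈ zP (L.p t) (L.p u) δ ∨ y ∈ cn (L.p k) (L.p u)) →
      y ∈ L.zU t u δ ∪ L.zW k w z δ := fun y h => Or.inl ((hzU y).2 h)
  have hZW : ∀ y, (y ∈ zP (L.p z) (L.p w) δ ∨ y ∈ cn (L.p k) (L.p w)) →
      y ∈ L.zU t u δ ∪ L.zW k w z δ := fun y h => Or.inr ((hzW y).2 h.symm)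
  have hgM : ∀ y, R ≤ ‖y‖ → y ∉ zP (L.p t) (L.p u) δ → y ∉ zP (L.p z) (L.p w) δ →
      ((∃ a c : ℝ, 0 ≤ c ∧ c ≤ a ∧ y = a • L.p k + c • L.p u) ∨
        ∃ a c : ℝ, 0 ≤ c ∧ c ≤ a ∧ y = a • L.p k + c • L.p w) →
      dN (L.zU t u δ) (L.zW k w z δ) e R tU tW F y = y + tM y • e := by
    intro y h1 h2 h3 h4
    have hU : (∃ a c : ℝ, 0 ≤ c ∧ c ≤ a ∧ y = a • L.p k + c • L.p u) →
        dN (L.zU t u δ) (L.zW k w z δ) e R tU tW F y = y + tM y • e := by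
      rintro ⟨a, c, h5, h6, h7⟩
      have h8 : y ∈ cn (L.p k) (L.p u) := ⟨a, c, ⟨h5.trans h6, h5⟩, h7⟩
      rw [gU y h1 ((hzU y).2 (Or.inr h8)),
        H.diagU c a h5 h6 y (by rw [h7, add_comm]) (hR1R.trans h1)]
    rcases h4 with h4 | ⟨a, c, h5, h6, h7⟩
    · exact hU h4
    · have h8 : y ∈ cn (L.p k) (L.p w) := ⟨a, c, ⟨h5.trans h6, h5⟩, h7⟩
      by_cases h9 : y ∈ L.zU t u δ
      · have h10 : y ∈ cn (L.p k) (L.p u) := by
          rcases (hzU y).1 h9 with h | h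
          · exact absurd h h2
          · exact h
        obtain ⟨α, hα⟩ := C.uk y h10 h8
        have h11 : a • L.p k + c • L.p w = α • L.p k + (0 : ℝ) • L.p w := by
          rw [← h7, hα]; simp
        have h12 : det3 (L.p k) (L.p w) (L.p u) ≠ 0 := by rw [← det3_cyc]; exact C.dk
        have h13 := uniq h12 h11
        refine hU ⟨α, 0, le_rfl, ?_, by rw [hα]; simp⟩
        rw [← h13.1]; linarith
      · rw [gW y h1 h9 ((hzW y).2 (Or.inl h8)),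
          H.diagW c a h5 h6 y (by rw [h7, add_comm]) (hR1R.trans h1)]
  have hgerM : ∃ p q r : Aff, Indep p q r ∧ ∀ᶠ y in 𝓝 x, G3 p q r (y + tM y • e) = 0 := by
    obtain ⟨p, q, r, h1, h2⟩ := H.gerM
    exact ⟨p, q, r, h1, Filter.Eventually.of_forall h2⟩
  by_cases c1 : x ∈ zP (L.p t) (L.p u) ε ∨ x ∈ zP (L.p k) (L.p u) 2
  · refine sideU C H.eps hεδ hR hxRlt c1 (fun y hy => cone_cases H.ear hy) hgU hZU hvinj
      (H.gerU x ?_ hxR1)
    rcases c1 with ⟨a, c, h1, h2, h3, h4⟩ | h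
    · refine Or.inl ⟨a, c, h1, h2, ?_, h4⟩
      exact h3.trans (mul_le_mul_of_nonneg_right hεδ.le h2)
    · exact Or.inr h
  by_cases c2 : x ∈ zP (L.p z) (L.p w) ε ∨ x ∈ zP (L.p k) (L.p w) 2
  · refine sideU C.symm H.eps hεδ hR hxRlt c2 hCs hgW hZW hvinj (H.gerW x ?_ hxR1)
    rcases c2 with ⟨a, c, h1, h2, h3, h4⟩ | h
    · refine Or.inl ⟨a, c, h1, h2, ?_, h4⟩
      exact h3.trans (mul_le_mul_of_nonneg_right hεδ.le h2)
    · exact Or.inr h
  by_cases c3 : x ∈ cn (L.p k) (L.p u)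
  · have c3' : ∃ a c : ℝ, 0 ≤ c ∧ 2 * c ≤ a ∧ x = a • L.p k + c • L.p u := by
      obtain ⟨a, c, ⟨h1, h2⟩, h3⟩ := c3
      refine ⟨a, c, h2, ?_, h3⟩
      by_contra h4
      exact c1 (Or.inr ⟨a, c, h1, h2, (not_le.1 h4).le, h3⟩)
    refine sideM (δ := δ) C hR hxRlt c3' (fun y hy => cone_cases H.ear hy) hgM ?_ hvinj hgerM
    rintro y (h | h)
    · exact hZU y (Or.inr h)
    · exact hZW y (Or.inr h)
  by_cases c4 : x ∈ cn (L.p k) (L.p w)
  · have c4' : ∃ a c : ℝ, 0 ≤ c ∧ 2 * c ≤ a ∧ x = a • L.p k + c • L.p w := by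
      obtain ⟨a, c, ⟨h1, h2⟩, h3⟩ := c4
      refine ⟨a, c, h2, ?_, h3⟩
      by_contra h4
      exact c2 (Or.inr ⟨a, c, h1, h2, (not_le.1 h4).le, h3⟩)
    refine sideM (δ := δ) C.symm hR hxRlt c4' hCs
      (fun y h1 h2 h3 h4 => hgM y h1 h3 h2 h4.symm) ?_ hvinj hgerM
    rintro y (h | h)
    · exact hZW y (Or.inr h)
    · exact hZU y (Or.inr h)
  -- outside the core
  have hcore : IsClosed (zP (L.p t) (L.p u) ε ∪ zP (L.p z) (L.p w) ε ∪ cn (L.p k) (L.p u) ∪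
      cn (L.p k) (L.p w) ∪ {y : E3 | ‖y‖ ≤ R}) := by
    have h6 : det3 (L.p k) (L.p w) (L.p u) ≠ 0 := by rw [← det3_cyc]; exact C.dk
    exact ((((zP_closed C.dt ε).union (zP_closed C.dz ε)).union (cn_closed C.dkt)).union
      (cn_closed h6)).union (isClosed_le continuous_norm continuous_const)
  refine good_congr hcore ?_ ?_ (H.Fgood x hx)
  · simp only [mem_union, mem_ofPred_eq, not_or, not_le]
    exact ⟨⟨⟨⟨fun h => c1 (Or.inl h), fun h => c2 (Or.inl h)⟩, c3⟩, c4⟩, hxRlt⟩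
  · intro y hy
    simp only [mem_union, mem_ofPred_eq, not_or, not_le] at hy
    obtain ⟨⟨⟨⟨y1, y2⟩, y3⟩, y4⟩, y5⟩ := hy
    unfold dN
    split_ifs with h1 h2
    · rcases (hzU y).1 h1.2 with ⟨a, c, g1, g2, g3, g4⟩ | h
      · refine (H.outU a c g2 ?_ g3 y g4 (hR1R.trans h1.1)).symm
        by_contra g5
        exact y1 ⟨a, c, g1, g2, (not_le.1 g5).le, g4⟩
      · exact absurd h y3
    · rcases (hzW y).1 h2.2 with h | ⟨a, c, g1, g2, g3, g4⟩
      · exact absurd h y4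
      · refine (H.outW a c g2 ?_ g3 y g4 (hR1R.trans h2.1)).symm
        by_contra g5
        exact y2 ⟨a, c, g1, g2, (not_le.1 g5).le, g4⟩
    · rfl

end Pool.Agent.TSM
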