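import Pool.Agent.TSM.VStmts3

/-!
# TSM, Part VM: GLUS, the gluing data in the situation `Sit`
-/

set_option autoImplicit false

namespace Pool.Agent.TSM

open Set Filter Topology Metric

namespace GLUS_

variable {V : Type} [DecidableEq V]

/-- pull back of a good map along a continuous injective map -/
theorem good_pull {C C' : Set E3} {D Ψ : E3 → E3} (hc : ContinuousOn Ψ C) (hi : InjOn Ψ C)
    (hm : MapsTo Ψ C C') {x : E3} (hx : x ∈ C) (h : GoodOn C' D (Ψ x)) :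
    GoodOn C (fun y => D (Ψ y)) x := by
  obtain ⟨U, hU, hinj, a, b, c, hI, hG⟩ := h
  have ht : Tendsto Ψ (𝓝[C] x) (𝓝[C'] (Ψ x)) := (hc x hx).tendsto_nhdsWithin hm
  refine ⟨C ∩ Ψ ⁻¹' U, Filter.inter_mem self_mem_nhdsWithin (ht hU), ?_, a, b, c, hI, ?_⟩
  · intro y hy z hz hyz
    exact hi hy.1 hz.1 (hinj hy.2 hz.2 hyz)
  · intro y hy
    exact hG (Ψ y) hy.2

end GLUS_

/-- GLUS (uses DOU DOW): the gluing data in the situation `Sit`. -/
theorem glus_proof (h1 : Stmt_Dou) (h2 : Stmt_Dow) : Stmt_Glus := by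
  intro V _ L t u k w z x₀ y₀ ε δ ε' a a' C κ₁ R₁ R₂ R₃ M R' M' Ψ b₁ D' Ch N A B hS
  have hear := hS.ear
  have hDU := h1 V L t u k w z x₀ y₀ ε δ ε' a a' C κ₁ R₁ R₂ R₃ M R' M' Ψ b₁ D' Ch N A B hS
  have hDW := h2 V L t u k w z x₀ y₀ ε δ ε' a a' C κ₁ R₁ R₂ R₃ M R' M' Ψ b₁ D' Ch N A B hS
  have hsubU : ∀ x ∈ L.zU t u δ,
      x ∈ (L.endU t u k w z x₀ y₀ a a' (Ch u) N).Old δ ∪
        (L.endU t u k w z x₀ y₀ a a' (Ch u) N).NewF := by
    rintro x (hx | hx)
    · exact Or.inl hx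
    · right
      obtain ⟨c, d, hc, hd, hx⟩ := hx
      rw [hear.su] at hx
      exact ⟨c, d, hc, hd, hx⟩
  have hsubW : ∀ x ∈ L.zW k w z δ,
      x ∈ (L.endW t u k w z x₀ y₀ a a' (Ch w) N).Old δ ∪
        (L.endW t u k w z x₀ y₀ a a' (Ch w) N).NewF := by
    rintro x (hx | hx)
    · right
      obtain ⟨c, d, hc, hd, hx⟩ := hx
      rw [hear.sk] at hx
      exact ⟨d, c, hd, hc, by rw [hx, add_comm]; rfl⟩
    · exact Or.inl hx
  refine
    { ear := hear
      eps := hS.eps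
      del := hS.del
      del2 := hS.del2
      hR1 := hS.hR1
      hR12 := hS.hR12
      vinj := hS.vinj
      Fcont := hS.dcont.comp hS.psi.cont hS.psi.maps
      Fgood := fun x hx => GLUS_.good_pull hS.psi.cont hS.psi.inj hS.psi.maps hx
        (hS.dgood (Ψ x) (hS.psi.maps hx)).1
      cU := EndD.tN_cont _ _ _ _
      cW := EndD.tN_cont _ _ _ _
      nearU := ?_
      nearW := ?_
      outU := ?_
      outW := ?_
      diagU := ?_
      diagW := ?_
      gerU := ?_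
      gerW := ?_
      gerM := hS.gM }
  · intro x hx hR1 hR2
    have h := hDU x hx hR1
    rw [← hS.tU.near x (hsubU x hx) hR1 hR2] at h
    exact h
  · intro x hx hR1 hR2
    have h := hDW x hx hR1
    rw [← hS.tW.near x (hsubW x hx) hR1 hR2] at h
    exact h
  · intro a₁ c hc ha1 ha2 x hx hR
    have ha0 : 0 ≤ a₁ := le_trans (mul_nonneg hS.eps.le hc) ha1
    have hxU : x ∈ L.zU t u δ := Or.inl ⟨a₁, c, ha0, hc, ha2, hx⟩
    have h := hDU x hxU hR
    have ho := hS.tU.outer a₁ c hc ha1 ha2 x hx hR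
    rw [ho.2, ← ho.1] at h
    exact h
  · intro a₁ c hc ha1 ha2 x hx hR
    have ha0 : 0 ≤ a₁ := le_trans (mul_nonneg hS.eps.le hc) ha1
    have hxW : x ∈ L.zW k w z δ := Or.inr ⟨a₁, c, ha0, hc, ha2, hx⟩
    have h := hDW x hxW hR
    have ho := hS.tW.outer a₁ c hc ha1 ha2 x hx hR
    rw [ho.2, ← ho.1] at h
    exact h
  · intro c d hc hcd x hx hR
    exact hS.tU.diag c d hc hcd x hx hR
  · intro c d hc hcd x hx hR
    have h := hS.tW.diag c d hc hcd x hx hR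
    rw [h]
    unfold EndD.tM EndD.ab
    rw [max_comm]
    rfl
  · rintro x (hx | hx) hR
    · exact hS.gU x (Or.inl hx) hR
    · obtain ⟨a₁, c, ha, hc, hac, hx⟩ := hx
      exact hS.gU x (Or.inr ⟨c, a₁, hc, ha, hac, by rw [hx, add_comm]; rfl⟩) hR
  · rintro x (hx | hx) hR
    · exact hS.gW x (Or.inl hx) hR
    · obtain ⟨a₁, c, ha, hc, hac, hx⟩ := hx
      exact hS.gW x (Or.inr ⟨c, a₁, hc, ha, hac, by rw [hx, add_comm]; rfl⟩) hR

end Pool.Agent.TSM
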