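import Pool.Agent.TSM.VStmts3

/-!
# TSM, Part VM: the half space condition and the bound for the new resolution (HALF)
-/

set_option autoImplicit false

namespace Pool.Agent.TSM

open Set Filter Topology Metric

namespace HALF_

variable {V : Type} [DecidableEq V]

theorem crs_add_smul_left (a b : E3) (r : ℝ) : crs a (b + r • a) = crs a b := by
  ext i
  fin_cases i <;> simp [crs] <;> ring

/-- the flat vertex belongs to the polygon -/
theorem X_mem {L : Pg V} (h : L.Ok) {m : V} (hm : L.X = some m) : m ∈ L.S := by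
  rcases h.kind with ⟨h0, _⟩ | ⟨m', h1, h2⟩
  · rw [h0] at hm
    exact absurd hm (by simp)
  · rw [h1] at hm
    have : m' = m := Option.some.inj hm
    subst this
    exact h2.1

theorem hat_nor {L : Pg V} {t u k w z : V} (h : L.Ear t u k w z) (a a' : ℝ) {m : V}
    (hm : L.X = some m) : (L.hat t u k w z a a').nor m = L.nor m := by
  have hmS := X_mem h.ok hm
  have hmu : m ≠ u := fun e => h.Xu (by rw [hm, e])
  have hmk : m ≠ k := fun e => h.Xk (by rw [hm, e])
  have hmw : m ≠ w := fun e => h.Xw (by rw [hm, e])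
  have hsk : L.s m ≠ k := fun e => hmu (h.ok.inj m hmS u h.memu (by rw [e, h.su]))
  have hsw : L.s m ≠ w := fun e => hmk (h.ok.inj m hmS k h.memk (by rw [e, h.sk]))
  have e1 : (L.hat t u k w z a a').s m = L.s m := by
    show (if L.s m = k then L.s k else L.s m) = L.s m
    rw [if_neg hsk]
  have e2 : (L.hat t u k w z a a').p m = L.p m := by
    show (if m = u then L.p u + a • L.p t else if m = w then L.p w + a' • L.p z else L.p m) = L.p m
    rw [if_neg hmu, if_neg hmw]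
  unfold Pg.nor
  rw [e1, e2]
  by_cases hsu : L.s m = u
  · have hmt : m = t := h.ok.inj m hmS t h.memt (by rw [hsu, h.st])
    have e3 : (L.hat t u k w z a a').p (L.s m) = L.p u + a • L.p t := by
      show (if L.s m = u then L.p u + a • L.p t
        else if L.s m = w then L.p w + a' • L.p z else L.p (L.s m)) = _
      rw [if_pos hsu]
    rw [e3, hsu, hmt, crs_add_smul_left]
  · have e3 : (L.hat t u k w z a a').p (L.s m) = L.p (L.s m) := by
      show (if L.s m = u then L.p u + a • L.p t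
        else if L.s m = w then L.p w + a' • L.p z else L.p (L.s m)) = _
      rw [if_neg hsu, if_neg hsw]
    rw [e3]

/-- transfer of the half space condition from the tilted rest polygon -/
theorem half_of_hat {L : Pg V} {t u k w z : V} (h : L.Ear t u k w z) {a a' : ℝ}
    (hh : ∀ m, L.X = some m → ∀ σ : ℝ, (∀ i ∈ L.S, σ * inner ℝ (L.nor m) (L.p i) ≤ 0) →
      ∀ i ∈ (L.hat t u k w z a a').S,
        σ * inner ℝ ((L.hat t u k w z a a').nor m) ((L.hat t u k w z a a').p i) ≤ 0)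
    {y : E3} (hy : (L.hat t u k w z a a').Half y) : L.Half y := by
  intro m hm σ hσ
  have h1 := hy m hm σ (hh m hm σ hσ)
  rw [hat_nor h a a' hm] at h1
  exact h1

theorem zone_bound {M C M' t nx : ℝ} {e : E3} (hC : 1 ≤ C) (hnx : 0 ≤ nx)
    (h : |t| ≤ M * (1 + nx)) (x : E3) :
    ‖x + t • e - x‖ ≤ (|M| * ‖e‖ + |M'| * C + C + 1) * (1 + nx) := by
  rw [add_sub_cancel_left, norm_smul, Real.norm_eq_abs]
  have h1 : |t| ≤ |M| * (1 + nx) :=
    h.trans (mul_le_mul_of_nonneg_right (le_abs_self M) (by linarith))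
  have h2 : |t| * ‖e‖ ≤ |M| * (1 + nx) * ‖e‖ := mul_le_mul_of_nonneg_right h1 (norm_nonneg _)
  have h3 : 0 ≤ (|M'| * C + C + 1) * (1 + nx) := by
    have := abs_nonneg M'
    positivity
  nlinarith

theorem out_bound {M C M' : ℝ} {e x y v : E3} (hC : 1 ≤ C) (h1 : ‖v - y‖ ≤ M' * (1 + ‖y‖))
    (h2 : ‖y‖ ≤ C * ‖x‖) :
    ‖v - x‖ ≤ (|M| * ‖e‖ + |M'| * C + C + 1) * (1 + ‖x‖) := by
  have hx := norm_nonneg x
  have hy := norm_nonneg y
  have hM := abs_nonneg M
  have he := norm_nonneg e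
  have hM' := abs_nonneg M'
  have h3 : ‖v - x‖ ≤ ‖v - y‖ + ‖y‖ + ‖x‖ := by
    have e1 : v - x = (v - y) + y - x := by abel
    calc ‖v - x‖ = ‖(v - y) + y - x‖ := by rw [← e1]
      _ ≤ ‖(v - y) + y‖ + ‖x‖ := norm_sub_le _ _
      _ ≤ ‖v - y‖ + ‖y‖ + ‖x‖ := by linarith [norm_add_le (v - y) y]
  have h4 : M' * (1 + ‖y‖) ≤ |M'| * (1 + ‖y‖) :=
    mul_le_mul_of_nonneg_right (le_abs_self M') (by linarith)
  have h5 : |M'| * (1 + ‖y‖) ≤ |M'| * (C * (1 + ‖x‖)) := by
    apply mul_le_mul_of_nonneg_left _ hM'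
    nlinarith
  have h6 : 0 ≤ |M| * ‖e‖ * (1 + ‖x‖) := by positivity
  nlinarith

end HALF_

open HALF_ in
/-- HALF: the half space condition and the bound for the new resolution. -/
theorem half_proof (h1 : Stmt_Dou) (h2 : Stmt_Dow) : Stmt_Half := by
  intro V _ L t u k w z x₀ y₀ ε δ ε' a a' C κ₁ R₁ R₂ R₃ M R' M' Ψ b₁ D' Ch N A B hS x hx
  have hD := h1 V L t u k w z x₀ y₀ ε δ ε' a a' C κ₁ R₁ R₂ R₃ M R' M' Ψ b₁ D' Ch N A B hS
  have hW := h2 V L t u k w z x₀ y₀ ε δ ε' a a' C κ₁ R₁ R₂ R₃ M R' M' Ψ b₁ D' Ch N A B hS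
  have hE := hS.ear
  have hC := hS.psi.C1
  have hR : R₁ ≤ (R₁ + R₂) / 2 := by linarith [hS.hR12]
  have hhalf : L.Half (D' (Ψ x)) :=
    half_of_hat hE hS.half (hS.dgood _ (hS.psi.maps hx)).2
  unfold Pg.dNew dN
  by_cases c1 : (R₁ + R₂) / 2 ≤ ‖x‖ ∧ x ∈ L.zU t u δ
  · rw [if_pos c1]
    have hx1 : R₁ ≤ ‖x‖ := hR.trans c1.1
    have hmem : x ∈ (L.endU t u k w z x₀ y₀ a a' (Ch u) N).Old δ ∪
        (L.endU t u k w z x₀ y₀ a a' (Ch u) N).NewF := by
      rcases c1.2 with h | ⟨c, d, hc, hd, e⟩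
      · left
        exact h
      · right
        refine ⟨c, d, hc, hd, ?_⟩
        rw [hE.su] at e
        exact e
    obtain ⟨l1, l2, l3, l4⟩ := hS.tU.le x hmem hx1
    refine ⟨?_, zone_bound hC (norm_nonneg x) (hS.tU.bound x) x⟩
    have hd := hD x c1.2 hx1
    rw [hd] at hhalf
    refine hS.kapOK.1 x c1.2 (A t) _ _ (fun hX => (hS.exact t hX).1) l1 l2 (fun hτ => ?_)
      (fun hθ => ?_) hhalf
    · refine l3 ?_
      show 1 * det3 (L.p t) (L.p u) (L.p w) < 0
      linarith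
    · refine l4 ?_
      show 0 < 1 * det3 (L.p t) (L.p u) (L.p k)
      linarith
  · rw [if_neg c1]
    by_cases c2 : (R₁ + R₂) / 2 ≤ ‖x‖ ∧ x ∈ L.zW k w z δ
    · rw [if_pos c2]
      have hx1 : R₁ ≤ ‖x‖ := hR.trans c2.1
      have hmem : x ∈ (L.endW t u k w z x₀ y₀ a a' (Ch w) N).Old δ ∪
          (L.endW t u k w z x₀ y₀ a a' (Ch w) N).NewF := by
        rcases c2.2 with ⟨c, d, hc, hd, e⟩ | h
        · right
          refine ⟨d, c, hd, hc, ?_⟩
          rw [hE.sk, add_comm] at e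
          exact e
        · left
          exact h
      obtain ⟨l1, l2, l3, l4⟩ := hS.tW.le x hmem hx1
      refine ⟨?_, zone_bound hC (norm_nonneg x) (hS.tW.bound x) x⟩
      have hd := hW x c2.2 hx1
      rw [hd] at hhalf
      refine hS.kapOK.2 x c2.2 (A w) _ _ (fun hX => (hS.exact z hX).2 w hE.memw hE.sw) l1 l2
        (fun hτ => ?_) (fun hθ => ?_) hhalf
      · refine l3 ?_
        show (-1) * det3 (L.p z) (L.p w) (L.p u) < 0
        have e1 : det3 (L.p z) (L.p w) (L.p u) = -det3 (L.p u) (L.p w) (L.p z) := by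
          unfold det3; ring
        rw [e1]
        linarith
      · refine l4 ?_
        show 0 < (-1) * det3 (L.p z) (L.p w) (L.p k)
        have e1 : det3 (L.p z) (L.p w) (L.p k) = -det3 (L.p k) (L.p w) (L.p z) := by
          unfold det3; ring
        rw [e1]
        linarith
    · rw [if_neg c2]
      exact ⟨hhalf, out_bound hC (hS.dbound _ (hS.psi.maps hx)) (hS.psi.norm x hx).2⟩

end Pool.Agent.TSM
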