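import Pool.Agent.TSM.VStmts

/-!
# TSM, Part VM: module IND
-/

set_option autoImplicit false

namespace Pool.Agent.TSM

open Set Filter Topology

namespace IND_

variable {V : Type} [DecidableEq V]

theorem card_le_of_iter {L : Pg V} (h : L.Ok) {x : V} (hx : x ∈ L.S) {n : ℕ} (hn : 0 < n)
    (hc : L.s^[n] x = x) : L.S.card ≤ n := by
  have hsub : L.S ⊆ (Finset.range n).image (fun j => L.s^[j] x) := by
    intro y hy
    obtain ⟨j, hj⟩ := h.trans x hx y hy
    rw [Finset.mem_image]
    refine ⟨j % n, Finset.mem_range.mpr (Nat.mod_lt _ hn), ?_⟩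
    rw [← hj]
    exact Function.IsPeriodicPt.iterate_mod_apply (f := L.s) (x := x) (n := n) hc j
  calc L.S.card ≤ ((Finset.range n).image (fun j => L.s^[j] x)).card := Finset.card_le_card hsub
    _ ≤ (Finset.range n).card := Finset.card_image_le
    _ = n := Finset.card_range n

theorem ne1 {L : Pg V} (h : L.Ok) {x : V} (hx : x ∈ L.S) : L.s x ≠ x := by
  intro hc
  have h1 := card_le_of_iter h hx (n := 1) one_pos (by simpa using hc)
  have := h.card
  omega

theorem ne2 {L : Pg V} (h : L.Ok) {x : V} (hx : x ∈ L.S) : L.s (L.s x) ≠ x := by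
  intro hc
  have h1 := card_le_of_iter h hx (n := 2) two_pos hc
  have := h.card
  omega

theorem ne3 {L : Pg V} (h : L.Ok) {x : V} (hx : x ∈ L.S) : L.s (L.s (L.s x)) ≠ x := by
  intro hc
  have h1 := card_le_of_iter h hx (n := 3) three_pos hc
  have := h.card
  omega

theorem exists_pred {L : Pg V} (h : L.Ok) {k : V} (hk : k ∈ L.S) : ∃ u ∈ L.S, L.s u = k := by
  obtain ⟨u, hu, hku⟩ := Finset.surj_on_of_inj_on_of_card_le (s := L.S) (t := L.S)
    (fun a _ => L.s a) (fun a ha => h.maps a ha) (fun a b ha hb hab => h.inj a ha b hb hab)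
    le_rfl k hk
  exact ⟨u, hu, hku.symm⟩

theorem not_flat {L : Pg V} (h : L.Ok) {u k : V} (hu : u ∈ L.S) (hk : L.s u = k)
    (he : (L.erase k).Ok) : ¬ L.Flat u k (L.s k) := by
  rintro ⟨m, q, hX, hq, hqm, hset⟩
  have hkS : k ∈ L.S := hk ▸ h.maps u hu
  -- k = m is impossible
  have hkm : k ≠ m := by
    rcases he.kind with ⟨h0, _⟩ | ⟨m', hm', hc⟩
    · exfalso
      have h0' : L.X = none := h0
      rw [hX] at h0'
      exact Option.some_ne_none _ h0'
    · have hm'' : L.X = some m' := hm'
      rw [hX] at hm''
      have hmm : m = m' := Option.some_injective _ hm''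
      subst hmm
      have hmem : m ∈ L.S.erase k := hc.1
      exact (Finset.mem_erase.mp hmem).1.symm
  have hmem : ∀ x, x ∈ ({u, k, L.s k} : Finset V) ↔ x ∈ ({q, m, L.s m} : Finset V) := by
    intro x
    rw [hset]
  have hk' : k ∈ ({q, m, L.s m} : Finset V) := (hmem k).mp (by simp)
  rw [Finset.mem_insert, Finset.mem_insert, Finset.mem_singleton] at hk'
  have hskS : L.s k ∈ L.S := h.maps k hkS
  rcases hk' with hkq | hkm' | hks
  · -- k = q
    subst hkq
    have hu' : u ∈ ({k, m, L.s m} : Finset V) := (hmem u).mp (by simp)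
    rw [Finset.mem_insert, Finset.mem_insert, Finset.mem_singleton] at hu'
    rcases hu' with h1 | h1 | h1
    · subst h1
      exact ne1 h hu hk
    · rw [h1, ← hqm] at hk
      exact ne2 h hkS hk
    · rw [h1, ← hqm] at hk
      exact ne3 h hkS hk
  · exact hkm hkm'
  · -- k = s m
    have hmS : m ∈ L.S := hqm ▸ h.maps q hq
    have hum : u = m := h.inj u hu m hmS (by rw [hk, hks])
    subst hum
    have hq' : q ∈ ({u, k, L.s k} : Finset V) := (hmem q).mpr (by simp)
    rw [Finset.mem_insert, Finset.mem_insert, Finset.mem_singleton] at hq'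
    rcases hq' with h1 | h1 | h1
    · rw [h1] at hqm
      exact ne1 h hmS hqm
    · rw [h1, ← hk] at hqm
      exact ne2 h hmS hqm
    · rw [h1, ← hk] at hqm
      exact ne3 h hmS hqm

theorem turn_ne {L : Pg V} (h : L.Ok) {u k : V} (hu : u ∈ L.S) (hk : L.s u = k)
    (he : (L.erase k).Ok) : L.turn u ≠ 0 := by
  have hkS : k ∈ L.S := hk ▸ h.maps u hu
  unfold Pg.turn
  rw [hk]
  refine h.gen u hu k hkS (L.s k) (h.maps k hkS) ?_ ?_ ?_ (not_flat h hu hk he)
  · intro h1
    exact ne1 h hu (by rw [hk, h1])
  · intro h1
    refine ne2 h hu ?_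
    rw [hk, ← h1]
  · intro h1
    exact ne1 h hkS h1.symm

theorem det3_rev (a b c : E3) : det3 a b c = - det3 c b a := by
  unfold det3
  ring

end IND_

open IND_ in
theorem ind_proof : Stmt_Ind := by
  intro hEL hBas hRev hStep V _ L0 hL0
  have key : ∀ n : ℕ, ∀ L : Pg V, L.Ok → L.S.card = n → L.VMat := by
    intro n
    induction n using Nat.strong_induction_on with
    | _ n ih =>
      intro L hL hn
      by_cases h4 : L.S.card = 4
      · exact hBas V L hL h4
      have h5 : 5 ≤ L.S.card := by
        have := hL.card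
        omega
      obtain ⟨k, hkS, hek, hear⟩ := hEL V L hL h5
      obtain ⟨u, huS, huk⟩ := exists_pred hL hkS
      have hturn := turn_ne hL huS huk hek
      have hcard : (L.S.erase k).card < n := by
        rw [Finset.card_erase_of_mem hkS]
        omega
      rcases lt_or_gt_of_ne hturn with hneg | hpos
      · -- negative turn: reverse
        classical
        let s' : V → V := fun i => if h : ∃ j ∈ L.S, L.s j = i then h.choose else i
        have hs' : ∀ i ∈ L.S, s' (L.s i) = i := by
          intro i hi
          have hex : ∃ j ∈ L.S, L.s j = L.s i := ⟨i, hi, rfl⟩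
          have : s' (L.s i) = hex.choose := dif_pos hex
          rw [this]
          exact hL.inj _ hex.choose_spec.1 i hi hex.choose_spec.2
        obtain ⟨hOk', hVM', hturn'⟩ := hRev V L hL s' hs'
        apply hVM'
        have hskS : L.s k ∈ L.S := hL.maps k hkS
        have hs'k : s' k = u := by rw [← huk]; exact hs' u huS
        have hs'sk : s' (L.s k) = k := hs' k hkS
        -- the erased polygon
        have hne : ∀ i ∈ L.S.erase k, i ∈ L.S ∧ i ≠ k := by
          intro i hi
          exact ⟨(Finset.mem_erase.mp hi).2, (Finset.mem_erase.mp hi).1⟩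
        have hrev2 := hRev V (L.erase k) hek
          (fun i => if s' i = k then s' k else s' i) (by
            intro i hi
            obtain ⟨hiS, hik⟩ := hne i hi
            show (if s' (if L.s i = k then L.s k else L.s i) = k then s' k
              else s' (if L.s i = k then L.s k else L.s i)) = i
            by_cases hsi : L.s i = k
            · rw [if_pos hsi, if_pos hs'sk, hs'k]
              exact hL.inj u huS i hiS (by rw [huk, hsi])
            · rw [if_neg hsi, hs' i hiS, if_neg hik])
        refine hStep V ⟨L.S, s', L.p, L.X⟩ (L.s k) k hOk' h5 hskS hs'sk hrev2.1 ?_ ?_ ?_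
        · -- EarC
          intro t ht w hw hst hsw
          have hwk : w = L.s k := by
            have h1 : (L.s k) ∈ L.S := hskS
            exact hOk'.inj w hw (L.s k) h1 (by rw [hsw]; exact hs'sk.symm)
          subst hwk
          have htk : t = L.s (L.s k) := by
            refine hOk'.inj t ht (L.s (L.s k)) (hL.maps _ hskS) ?_
            show s' t = s' (L.s (L.s k))
            rw [hs' (L.s k) hskS]
            exact hst
          subst htk
          have hT : Pg.turn (⟨L.S, s', L.p, L.X⟩ : Pg V) (L.s k) = - L.turn u := by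
            have := hturn' u huS
            rw [huk] at this
            exact this
          obtain ⟨v, hvS, hvu⟩ := exists_pred hL huS
          have hs'u : s' u = v := by rw [← hvu]; exact hs' v hvS
          obtain ⟨e1, e2⟩ := hear v hvS u huS hvu huk
          refine ⟨?_, ?_⟩
          · show Pg.turn (⟨L.S, s', L.p, L.X⟩ : Pg V) (L.s k) *
              det3 (L.p (L.s (L.s k))) (L.p (L.s k)) (L.p (s' k)) < 0 →
              Pg.turn (⟨L.S, s', L.p, L.X⟩ : Pg V) (L.s k) *
              det3 (L.p (L.s (L.s k))) (L.p (L.s k)) (L.p k) < 0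
            rw [hT, hs'k, det3_rev (L.p (L.s (L.s k))) (L.p (L.s k)) (L.p u),
              det3_rev (L.p (L.s (L.s k))) (L.p (L.s k)) (L.p k), neg_mul_neg, neg_mul_neg]
            exact e2
          · show Pg.turn (⟨L.S, s', L.p, L.X⟩ : Pg V) (L.s k) *
              det3 (L.p (L.s k)) (L.p (s' k)) (L.p (s' (s' k))) < 0 →
              Pg.turn (⟨L.S, s', L.p, L.X⟩ : Pg V) (L.s k) *
              det3 (L.p k) (L.p (s' k)) (L.p (s' (s' k))) < 0
            rw [hT, hs'k, hs'u, det3_rev (L.p (L.s k)) (L.p u) (L.p v),
              det3_rev (L.p k) (L.p u) (L.p v), neg_mul_neg, neg_mul_neg]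
            exact e1
        · -- positive turn
          have := hturn' u huS
          rw [huk] at this
          rw [this]
          linarith
        · intro L' hL' hS'
          have hS'' : L'.S = L.S.erase k := hS'
          exact ih _ hcard L' hL' (by rw [hS''])
      · -- positive turn
        refine hStep V L u k hL h5 huS huk hek hear hpos ?_
        intro L' hL' hS'
        exact ih _ hcard L' hL' (by rw [hS'])
  exact key _ L0 hL0 rfl

end Pool.Agent.TSM
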