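import Pool.Agent.TSM.Defs

/-!
# TSM: smooth immersions of topological surfaces

A map `g : X → E3` which has, near every point, a chart of `X` in which it is a smooth immersion
of an open subset of the plane, is a smooth immersion for a smooth structure on `X`.
-/

set_option autoImplicit false

open scoped RealInnerProductSpace ContDiff Manifold Topology

namespace Pool.Agent.TSM

/-- The Euclidean plane. -/
abbrev E2 := EuclideanSpace ℝ (Fin 2)

/-- `e` is a chart of `X` in which `g` is a smooth immersion of a plane open set. -/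
def ImmChart {X : Type} [TopologicalSpace X] (g : X → E3) (e : OpenPartialHomeomorph X E2) : Prop :=
  ContDiffOn ℝ ∞ (g ∘ e.symm) e.target ∧
    ∀ y ∈ e.target, Function.Injective (fderiv ℝ (g ∘ e.symm) y)

/-- Local charts for `g` around every point. -/
def LocImm {X : Type} [TopologicalSpace X] (g : X → E3) : Prop :=
  ∀ x, ∃ e : OpenPartialHomeomorph X E2, x ∈ e.source ∧ ImmChart g e

/-- `g` is a smooth immersion for some smooth structure on the topological space `X`
(`X` becomes a smooth manifold modelled on the plane, `g` is `C^∞` and its derivative is injective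
at every point). -/
def SmoothImm {X : Type} [TopologicalSpace X] (g : X → E3) : Prop :=
  ∃ _ : ChartedSpace E2 X, IsManifold (𝓡 2) ∞ X ∧ ContMDiff (𝓡 2) 𝓘(ℝ, E3) ∞ g ∧
    ∀ x, Function.Injective (mfderiv (𝓡 2) 𝓘(ℝ, E3) g x)

/-- A smooth map with injective derivative has a smooth local left inverse. -/
lemma exists_left_inverse {h : E2 → E3} {y : E2} (hd : ContDiffAt ℝ ∞ h y)
    (hinj : Function.Injective (fderiv ℝ h y)) :
    ∃ q : E3 → E2, ContDiffAt ℝ ∞ q (h y) ∧ ∀ᶠ z in 𝓝 y, q (h z) = z := by
  obtain ⟨P0, hP0⟩ := LinearMap.exists_leftInverse_of_injective (fderiv ℝ h y).toLinearMap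
    (LinearMap.ker_eq_bot.2 hinj)
  let P : E3 →L[ℝ] E2 := LinearMap.toContinuousLinearMap P0
  have hP : ∀ v, P (fderiv ℝ h y v) = v := fun v => by
    have := LinearMap.congr_fun hP0 v
    simpa [P] using this
  have hcd : ContDiffAt ℝ ∞ (fun z => P (h z)) y := P.contDiff.contDiffAt.comp y hd
  have hfd : HasFDerivAt (fun z => P (h z)) ((ContinuousLinearEquiv.refl ℝ E2 : E2 ≃L[ℝ] E2) :
      E2 →L[ℝ] E2) y := by
    have h1 : HasFDerivAt h (fderiv ℝ h y) y := (hd.differentiableAt (by simp)).hasFDerivAt
    have h2 := P.hasFDerivAt.comp y h1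
    have h3 : P.comp (fderiv ℝ h y) = ((ContinuousLinearEquiv.refl ℝ E2 : E2 ≃L[ℝ] E2) :
        E2 →L[ℝ] E2) := by
      ext1 v
      simp [hP v]
    rw [← h3]
    exact h2
  have hn : (∞ : ℕ∞ω) ≠ 0 := by simp
  refine ⟨fun u => hcd.localInverse hfd hn (P u), ?_, ?_⟩
  · have h1 := hcd.to_localInverse hfd hn
    exact h1.comp (h y) P.contDiff.contDiffAt
  · have h1 := (hcd.hasStrictFDerivAt' hfd hn).eventually_left_inverse
    exact h1

/-- Two charts in which `g` is an immersion are smoothly compatible. -/
lemma ImmChart.trans {X : Type} [TopologicalSpace X] {g : X → E3}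
    {e e' : OpenPartialHomeomorph X E2} (he : ImmChart g e) (he' : ImmChart g e') :
    ContDiffOn ℝ ∞ (e' ∘ e.symm) (e.symm ≫ₕ e').source := by
  intro z hz
  have hz1 : z ∈ e.target := by
    have := hz.1
    simpa using this
  have hz2 : e.symm z ∈ e'.source := hz.2
  have hy : e' (e.symm z) ∈ e'.target := e'.map_source hz2
  have hcd' : ContDiffAt ℝ ∞ (g ∘ e'.symm) (e' (e.symm z)) :=
    he'.1.contDiffAt (e'.open_target.mem_nhds hy)
  obtain ⟨q, hq1, hq2⟩ := exists_left_inverse hcd' (he'.2 _ hy)
  have hcd : ContDiffAt ℝ ∞ (g ∘ e.symm) z := he.1.contDiffAt (e.open_target.mem_nhds hz1)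
  have heq : (g ∘ e'.symm) (e' (e.symm z)) = (g ∘ e.symm) z := by
    simp [e'.left_inv hz2]
  rw [heq] at hq1
  have hcomp : ContDiffAt ℝ ∞ (fun w => q ((g ∘ e.symm) w)) z := hq1.comp z hcd
  have hcont : ContinuousAt (fun w => e' (e.symm w)) z := by
    have h1 : ContinuousAt e.symm z := e.symm.continuousAt (by simpa using hz1)
    exact (e'.continuousAt hz2).comp h1
  have hev : (e' ∘ e.symm) =ᶠ[𝓝 z] (fun w => q ((g ∘ e.symm) w)) := by
    have h1 := hcont.eventually hq2
    have h2 : ∀ᶠ w in 𝓝 z, e.symm w ∈ e'.source := by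
      have h3 : ContinuousAt e.symm z := e.symm.continuousAt (by simpa using hz1)
      exact h3.eventually (e'.open_source.mem_nhds hz2)
    filter_upwards [h1, h2] with w hw1 hw2
    have h4 : (g ∘ e'.symm) (e' (e.symm w)) = (g ∘ e.symm) w := by
      simp [e'.left_inv hw2]
    rw [← h4, hw1]
    rfl
  exact (hcomp.congr_of_eventuallyEq hev).contDiffWithinAt

/-- A locally smooth immersion is a smooth immersion for a smooth structure on `X`. -/
theorem LocImm.smoothImm {X : Type} [TopologicalSpace X] {g : X → E3} (hg : LocImm g) :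
    SmoothImm g := by
  choose ch hch1 hch2 using hg
  let cs : ChartedSpace E2 X :=
    { atlas := {e | ImmChart g e}
      chartAt := ch
      mem_chart_source := hch1
      chart_mem_atlas := hch2 }
  refine ⟨cs, ?_, ?_, ?_⟩
  · apply isManifold_of_contDiffOn
    intro e e' he he'
    have h1 : ImmChart g e := he
    have h2 : ImmChart g e' := he'
    simpa using h1.trans h2
  · intro x
    rw [contMDiffAt_iff]
    have hx : (chartAt E2 x : OpenPartialHomeomorph X E2) = ch x := rfl
    have hyt : ch x x ∈ (ch x).target := (ch x).map_source (hch1 x)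
    have hcd : ContDiffAt ℝ ∞ (g ∘ (ch x).symm) (ch x x) :=
      (hch2 x).1.contDiffAt ((ch x).open_target.mem_nhds hyt)
    refine ⟨?_, ?_⟩
    · have h1 : ContinuousAt (fun z => (g ∘ (ch x).symm) (ch x z)) x := by
        exact ContinuousAt.comp (g := g ∘ (ch x).symm) (f := ch x) hcd.continuousAt
          ((ch x).continuousAt (hch1 x))
      refine h1.congr ?_
      filter_upwards [(ch x).open_source.mem_nhds (hch1 x)] with z hz
      simp [(ch x).left_inv hz]
    · simpa [mfld_simps, hx, Function.comp_def, contDiffWithinAt_univ] using hcd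
  · intro x
    have hyt : ch x x ∈ (ch x).target := (ch x).map_source (hch1 x)
    have hx : (chartAt E2 x : OpenPartialHomeomorph X E2) = ch x := rfl
    have key := (hch2 x).2 _ hyt
    by_cases hm : MDifferentiableAt (𝓡 2) 𝓘(ℝ, E3) g x
    · rw [hm.mfderiv]
      have h2 : fderivWithin ℝ (writtenInExtChartAt (𝓡 2) 𝓘(ℝ, E3) x g) (Set.range (𝓡 2))
          ((extChartAt (𝓡 2) x) x) = fderiv ℝ (g ∘ (ch x).symm) (ch x x) := by
        simp [mfld_simps, hx, Function.comp_def, writtenInExtChartAt, fderivWithin_univ]
      rw [h2]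
      exact key
    · exfalso
      apply hm
      rw [mdifferentiableAt_iff]
      have hcd : ContDiffAt ℝ ∞ (g ∘ (ch x).symm) (ch x x) :=
        (hch2 x).1.contDiffAt ((ch x).open_target.mem_nhds hyt)
      refine ⟨?_, ?_⟩
      · have h1 : ContinuousAt (fun z => (g ∘ (ch x).symm) (ch x z)) x := by
          exact ContinuousAt.comp (g := g ∘ (ch x).symm) (f := ch x) hcd.continuousAt
            ((ch x).continuousAt (hch1 x))
        refine h1.congr ?_
        filter_upwards [(ch x).open_source.mem_nhds (hch1 x)] with z hz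
        simp [(ch x).left_inv hz]
      · have := hcd.differentiableAt (by simp)
        simpa [mfld_simps, hx, Function.comp_def, writtenInExtChartAt,
          differentiableWithinAt_univ] using this

end Pool.Agent.TSM
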