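import Pool.Agent.TSM.VStmts3

/-!
# TSM, module KAP: the half space condition
-/

set_option autoImplicit false

namespace Pool.Agent.TSM

open Set Filter Topology Metric

namespace KAP_

theorem between (hx he σ tN tO r : ℝ) (hO : σ * (hx + tO * he) ≤ 0)
    (hl : σ * (hx + -r * he) ≤ 0) (h1 : -r ≤ tN) (h2 : tN ≤ tO) : σ * (hx + tN * he) ≤ 0 := by
  rcases le_total 0 (σ * he) with h | h
  · nlinarith [mul_nonneg h (sub_nonneg.2 h2)]
  · nlinarith [mul_nonneg (neg_nonneg.2 h) (sub_nonneg.2 h1)]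

theorem cbound (n p1 p2 p3 : E3) (s0 δ : ℝ) (hδ : 0 < δ) (h1 : s0 * inner ℝ n p1 ≤ 0)
    (h2 : s0 * inner ℝ n p2 < 0) (h3 : s0 * inner ℝ n p3 < 0) :
    ∃ c : ℝ, 0 < c ∧
      (∀ a b : ℝ, 0 ≤ a → 0 ≤ b → a ≤ δ * b →
        c * ‖a • p1 + b • p2‖ ≤ -(s0 * inner ℝ n (a • p1 + b • p2))) ∧
      (∀ a b : ℝ, 0 ≤ a → 0 ≤ b →
        c * ‖a • p2 + b • p3‖ ≤ -(s0 * inner ℝ n (a • p2 + b • p3))) := by
  have hg2 : 0 < -(s0 * inner ℝ n p2) := by linarith
  have hg3 : 0 < -(s0 * inner ℝ n p3) := by linarith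
  have hm : 0 < min (-(s0 * inner ℝ n p2)) (-(s0 * inner ℝ n p3)) := lt_min hg2 hg3
  have hD : 0 < δ * ‖p1‖ + ‖p2‖ + ‖p3‖ + 1 := by positivity
  have hm2 := min_le_left (-(s0 * inner ℝ n p2)) (-(s0 * inner ℝ n p3))
  have hm3 := min_le_right (-(s0 * inner ℝ n p2)) (-(s0 * inner ℝ n p3))
  obtain ⟨g, hg⟩ : ∃ g, g = min (-(s0 * inner ℝ n p2)) (-(s0 * inner ℝ n p3)) := ⟨_, rfl⟩
  rw [← hg] at hm hm2 hm3
  obtain ⟨D, hDD⟩ : ∃ D, D = δ * ‖p1‖ + ‖p2‖ + ‖p3‖ + 1 := ⟨_, rfl⟩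
  rw [← hDD] at hD
  refine ⟨g / D, div_pos hm hD, ?_, ?_⟩
  · intro a b ha hb hab
    have hn : ‖a • p1 + b • p2‖ ≤ b * D := by
      calc ‖a • p1 + b • p2‖ ≤ ‖a • p1‖ + ‖b • p2‖ := norm_add_le _ _
        _ = a * ‖p1‖ + b * ‖p2‖ := by
            rw [norm_smul, norm_smul, Real.norm_of_nonneg ha, Real.norm_of_nonneg hb]
        _ ≤ (δ * b) * ‖p1‖ + b * ‖p2‖ := by gcongr
        _ ≤ b * D := by
            rw [hDD]
            nlinarith [mul_nonneg hb (norm_nonneg p3)]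
    have hk : g / D * ‖a • p1 + b • p2‖ ≤ g * b := by
      calc g / D * ‖a • p1 + b • p2‖ ≤ g / D * (b * D) := by gcongr
        _ = g * b := by field_simp
    rw [inner_add_right, inner_smul_right, inner_smul_right]
    nlinarith [mul_nonneg ha (neg_nonneg.2 h1), mul_le_mul_of_nonneg_right hm2 hb]
  · intro a b ha hb
    have hn : ‖a • p2 + b • p3‖ ≤ (a + b) * D := by
      calc ‖a • p2 + b • p3‖ ≤ ‖a • p2‖ + ‖b • p3‖ := norm_add_le _ _
        _ = a * ‖p2‖ + b * ‖p3‖ := by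
            rw [norm_smul, norm_smul, Real.norm_of_nonneg ha, Real.norm_of_nonneg hb]
        _ ≤ (a + b) * D := by
            rw [hDD]
            have e1 := mul_nonneg ha (norm_nonneg p3)
            have e2 := mul_nonneg hb (norm_nonneg p2)
            have e3 := mul_nonneg (add_nonneg ha hb) (mul_nonneg hδ.le (norm_nonneg p1))
            nlinarith
    have hk : g / D * ‖a • p2 + b • p3‖ ≤ g * (a + b) := by
      calc g / D * ‖a • p2 + b • p3‖ ≤ g / D * ((a + b) * D) := by gcongr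
        _ = g * (a + b) := by field_simp
    rw [inner_add_right, inner_smul_right, inner_smul_right]
    nlinarith [mul_le_mul_of_nonneg_right hm2 ha, mul_le_mul_of_nonneg_right hm3 hb]

theorem half_far (n p1 p2 p3 e : E3) (s0 δ : ℝ) (hs : s0 = 1 ∨ s0 = -1) (hδ : 0 < δ)
    (h1 : s0 * inner ℝ n p1 ≤ 0) (h2 : s0 * inner ℝ n p2 < 0) (h3 : s0 * inner ℝ n p3 < 0) :
    ∃ κ : ℝ, 0 < κ ∧ ∀ x : E3,
      (x ∈ zP p1 p2 δ ∨ ∃ a b : ℝ, 0 ≤ a ∧ 0 ≤ b ∧ x = a • p2 + b • p3) →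
      ∀ σ tN tO : ℝ, σ * inner ℝ n p2 ≤ 0 → tN ≤ tO → -(κ * ‖x‖) ≤ tN →
        σ * inner ℝ n (x + tO • e) ≤ 0 → σ * inner ℝ n (x + tN • e) ≤ 0 := by
  obtain ⟨c, hc, hA, hB⟩ := cbound n p1 p2 p3 s0 δ hδ h1 h2 h3
  have hss : s0 * s0 = 1 := by rcases hs with rfl | rfl <;> norm_num
  have hsa : |s0| = 1 := by rcases hs with rfl | rfl <;> simp
  have hden : 0 < |(inner ℝ n e : ℝ)| + 1 := by positivity
  refine ⟨c / (|(inner ℝ n e : ℝ)| + 1), div_pos hc hden, ?_⟩
  intro x hx σ tN tO hσ hle hlow hO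
  have hcx : c * ‖x‖ ≤ -(s0 * inner ℝ n x) := by
    rcases hx with ⟨a, b, ha, hb, hab, rfl⟩ | ⟨a, b, ha, hb, rfl⟩
    · exact hA a b ha hb hab
    · exact hB a b ha hb
  rw [inner_add_right, inner_smul_right] at hO ⊢
  have hρ : 0 ≤ σ * s0 := by
    by_contra hneg
    push Not at hneg
    have hp2 : (inner ℝ n p2 : ℝ) ≠ 0 := by
      intro h0; rw [h0, mul_zero] at h2; exact lt_irrefl _ h2
    have hsq : 0 < (inner ℝ n p2 : ℝ) * inner ℝ n p2 := mul_self_pos.2 hp2
    have hprod : 0 ≤ (σ * inner ℝ n p2) * (s0 * inner ℝ n p2) :=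
      mul_nonneg_of_nonpos_of_nonpos hσ h2.le
    nlinarith [mul_pos (neg_pos.2 hneg) hsq]
  have hσs : σ = (σ * s0) * s0 := by rw [mul_assoc, hss, mul_one]
  refine between _ _ σ tN tO (c / (|(inner ℝ n e : ℝ)| + 1) * ‖x‖) hO ?_ hlow hle
  have hkey : s0 * ((inner ℝ n x : ℝ) +
      -(c / (|(inner ℝ n e : ℝ)| + 1) * ‖x‖) * inner ℝ n e) ≤ 0 := by
    have e1 : -(s0 * inner ℝ n e) ≤ |(inner ℝ n e : ℝ)| := by
      calc -(s0 * inner ℝ n e) ≤ |s0 * inner ℝ n e| := neg_le_abs _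
        _ = |(inner ℝ n e : ℝ)| := by rw [abs_mul, hsa, one_mul]
    have e2 : 0 ≤ c / (|(inner ℝ n e : ℝ)| + 1) * ‖x‖ := by positivity
    have e3 : c / (|(inner ℝ n e : ℝ)| + 1) * ‖x‖ * |(inner ℝ n e : ℝ)| ≤ c * ‖x‖ := by
      have : c / (|(inner ℝ n e : ℝ)| + 1) * |(inner ℝ n e : ℝ)| ≤ c := by
        rw [div_mul_eq_mul_div, div_le_iff₀ hden]
        nlinarith
      nlinarith [mul_le_mul_of_nonneg_right this (norm_nonneg x)]
    nlinarith [mul_le_mul_of_nonneg_left e1 e2]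
  rw [hσs, mul_assoc]
  exact mul_nonpos_of_nonneg_of_nonpos hρ hkey

theorem half_near (n e x : E3) (σ tN τ θ : ℝ) (P : Aff) (hP : P = (n, 0))
    (he : 0 < (inner ℝ n e : ℝ)) (hτ0 : τ ≠ 0) (hθ0 : θ ≠ 0) (hτ : σ * τ ≤ 0)
    (hθ : σ * θ ≤ 0) (hcu : τ < 0 → tN ≤ tz e P x) (hcu' : 0 < θ → tz e P x ≤ tN) :
    σ * inner ℝ n (x + tN • e) ≤ 0 := by
  subst hP
  have hl := ev_line (Z := ((n, 0) : Aff)) (e := e) he.ne' x tN
  have hev : ev ((n, 0) : Aff) (x + tN • e) = inner ℝ n (x + tN • e) := by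
    unfold ev; simp
  rw [hev] at hl
  rw [hl]
  simp only []
  rcases lt_or_gt_of_ne hτ0 with h | h
  · have hσ : 0 ≤ σ := by
      by_contra hn
      push Not at hn
      nlinarith [mul_pos_of_neg_of_neg hn h]
    have := hcu h
    apply mul_nonpos_of_nonneg_of_nonpos hσ
    apply mul_nonpos_of_nonneg_of_nonpos he.le
    linarith
  · have hσ : σ ≤ 0 := by
      by_contra hn
      push Not at hn
      nlinarith [mul_pos hn h]
    rcases lt_or_gt_of_ne hθ0 with h' | h'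
    · have hσ' : 0 ≤ σ := by
        by_contra hn
        push Not at hn
        nlinarith [mul_pos_of_neg_of_neg hn h']
      have : σ = 0 := le_antisymm hσ hσ'
      rw [this, zero_mul]
    · have := hcu' h'
      apply mul_nonpos_of_nonpos_of_nonneg hσ
      apply mul_nonneg he.le
      linarith

theorem inner_nor {V : Type} [DecidableEq V] (L : Pg V) (i : V) (x : E3) :
    (inner ℝ (L.nor i) x : ℝ) = det3 (L.p i) (L.p (L.s i)) x := crs_eq_inner _ _ _

/-- the values of the normal of the flat face -/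
theorem flat_vals {V : Type} [DecidableEq V] (L : Pg V) (h : L.Ok) (m : V)
    (hc : L.CornerAt m) : ∃ σ : ℝ, (σ = 1 ∨ σ = -1) ∧
      (∀ i ∈ L.S, σ * (inner ℝ (L.nor m) (L.p i) : ℝ) ≤ 0) ∧
      ∀ i ∈ L.S, i ≠ m → L.s i ≠ m → i ≠ L.s m →
        σ * (inner ℝ (L.nor m) (L.p i) : ℝ) < 0 := by
  obtain ⟨hm, q, hq, hqm, ⟨a, b, ha, hb, e⟩, σ, hσ, hlt⟩ := hc
  have h0 : (inner ℝ (L.nor m) (L.p m) : ℝ) = 0 := by
    rw [inner_nor]; unfold det3; ring
  have h1 : (inner ℝ (L.nor m) (L.p (L.s m)) : ℝ) = 0 := by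
    rw [inner_nor]; unfold det3; ring
  have h2 : (inner ℝ (L.nor m) (L.p q) : ℝ) = 0 := by
    have := congrArg (fun y : E3 => (inner ℝ (L.nor m) y : ℝ)) e
    simp only [inner_add_right, inner_smul_right, inner_zero_right, h0, h1] at this
    have h3 : a * (inner ℝ (L.nor m) (L.p q) : ℝ) = 0 := by linarith
    exact (mul_eq_zero.1 h3).resolve_left ha.ne'
  refine ⟨σ, hσ, ?_, ?_⟩
  · intro i hi
    by_cases e1 : i = q
    · rw [e1, h2, mul_zero]
    · by_cases e2 : i = m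
      · rw [e2, h0, mul_zero]
      · by_cases e3 : i = L.s m
        · rw [e3, h1, mul_zero]
        · exact (hlt i hi e1 e2 e3).le
  · intro i hi e2 e4 e3
    refine hlt i hi ?_ e2 e3
    rintro rfl
    exact e4 hqm

variable {V : Type} [DecidableEq V]

/-- the half space condition at `u` -/
theorem kapU (L : Pg V) (t u k w z : V) (x₀ y₀ : ℝ) (h : L.Ear t u k w z)
    (hE : L.EarE t u k w z x₀ y₀) (δ : ℝ) (hδ : 0 < δ) : ∃ κ₁ : ℝ, 0 < κ₁ ∧
    ∀ x ∈ L.zU t u δ, ∀ (P : Aff) (tN tO : ℝ), (L.X = some t → P = (L.nor t, 0)) →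
      tN ≤ tO → (tN = tO ∨ -(κ₁ * ‖x‖) ≤ tN) →
      (det3 (L.p t) (L.p u) (L.p w) < 0 → tN ≤ tz (L.ee u k w x₀ y₀) P x) →
      (0 < det3 (L.p t) (L.p u) (L.p k) → tz (L.ee u k w x₀ y₀) P x ≤ tN) →
      L.Half (x + tO • (L.ee u k w x₀ y₀)) → L.Half (x + tN • (L.ee u k w x₀ y₀)) := by
  rcases h.ok.kind with ⟨hX, _⟩ | ⟨m, hX, hc⟩
  · refine ⟨1, one_pos, ?_⟩
    intro x _ P tN tO _ _ _ _ _ _ m hm
    rw [hX] at hm
    exact absurd hm (by simp)
  · by_cases hmt : m = t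
    · subst hmt
      refine ⟨1, one_pos, ?_⟩
      intro x _ P tN tO hP _ _ hcu hcu' _ m' hm' σ hσ
      have hmm : m' = m := by
        rw [hX] at hm'; exact (Option.some.inj hm').symm
      subst hmm
      have hτ := hσ w h.memw
      have hθ := hσ k h.memk
      rw [inner_nor, h.st] at hτ hθ
      refine half_near (L.nor m') _ x σ tN _ _ P (hP hX) ?_ h.τu h.θu hτ hθ hcu hcu'
      rw [inner_nor, h.st]
      have := hE.eu
      unfold Pg.ee
      unfold det3 at this ⊢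
      simp only [PiLp.sub_apply, PiLp.add_apply, PiLp.smul_apply, smul_eq_mul]
      linarith
    · obtain ⟨s0, hs0, hle, hlt⟩ := flat_vals L h.ok m hc
      have hmS := hc.1
      have hmu : u ≠ m := by rintro rfl; exact h.Xu hX
      have hmk : k ≠ m := by rintro rfl; exact h.Xk hX
      have hmw : w ≠ m := by rintro rfl; exact h.Xw hX
      have husm : u ≠ L.s m := by
        intro e; exact hmt (h.ok.inj m hmS t h.memt (e.symm.trans h.st.symm))
      have hksm : k ≠ L.s m := by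
        intro e; exact hmu (h.ok.inj m hmS u h.memu (e.symm.trans h.su.symm)).symm
      have hgu := hlt u h.memu hmu (by rw [h.su]; exact hmk) husm
      have hgk := hlt k h.memk hmk (by rw [h.sk]; exact hmw) hksm
      have hgt := hle t h.memt
      obtain ⟨κ, hκ, hmain⟩ := half_far (L.nor m) (L.p t) (L.p u) (L.p k) (L.ee u k w x₀ y₀) s0 δ
        hs0 hδ hgt hgu hgk
      refine ⟨κ, hκ, ?_⟩
      intro x hx P tN tO _ hNO hcase _ _ hH m' hm' σ hσ
      have hmm : m' = m := by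
        rw [hX] at hm'; exact (Option.some.inj hm').symm
      subst hmm
      have hO := hH m' hX σ hσ
      rcases hcase with rfl | hlow
      · exact hO
      · refine hmain x ?_ σ tN tO (hσ u h.memu) hNO hlow hO
        rcases hx with hx | ⟨a, b, ha, hb, hx⟩
        · exact Or.inl hx
        · rw [h.su] at hx
          exact Or.inr ⟨a, b, ha, hb, hx⟩

/-- the half space condition at `w` -/
theorem kapW (L : Pg V) (t u k w z : V) (x₀ y₀ : ℝ) (h : L.Ear t u k w z)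
    (hE : L.EarE t u k w z x₀ y₀) (δ : ℝ) (hδ : 0 < δ) : ∃ κ₁ : ℝ, 0 < κ₁ ∧
    ∀ x ∈ L.zW k w z δ, ∀ (P : Aff) (tN tO : ℝ), (L.X = some z → P = (L.nor w, 0)) →
      tN ≤ tO → (tN = tO ∨ -(κ₁ * ‖x‖) ≤ tN) →
      (det3 (L.p u) (L.p w) (L.p z) < 0 → tN ≤ tz (L.ee u k w x₀ y₀) P x) →
      (0 < det3 (L.p k) (L.p w) (L.p z) → tz (L.ee u k w x₀ y₀) P x ≤ tN) →
      L.Half (x + tO • (L.ee u k w x₀ y₀)) → L.Half (x + tN • (L.ee u k w x₀ y₀)) := by
  rcases h.ok.kind with ⟨hX, _⟩ | ⟨m, hX, hc⟩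
  · refine ⟨1, one_pos, ?_⟩
    intro x _ P tN tO _ _ _ _ _ _ m hm
    rw [hX] at hm
    exact absurd hm (by simp)
  · by_cases hmz : m = z
    · subst hmz
      refine ⟨1, one_pos, ?_⟩
      obtain ⟨_, q, hq, hqm, ⟨a, b, ha, hb, e⟩, _⟩ := hc
      have hqw : q = w := h.ok.inj q hq w h.memw (hqm.trans h.sw.symm)
      subst hqw
      have hsz : L.p (L.s m) = -(b⁻¹ • (a • L.p q + L.p m)) := by
        have e1 : b • L.p (L.s m) = -(a • L.p q + L.p m) := by
          rw [eq_neg_iff_add_eq_zero, ← e]; abel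
        have e2 : b⁻¹ • (b • L.p (L.s m)) = L.p (L.s m) := by
          rw [smul_smul, inv_mul_cancel₀ hb.ne', one_smul]
        rw [← e2, e1, smul_neg]
      have hnor : ∀ y : E3, (inner ℝ (L.nor m) y : ℝ) = (a / b) * inner ℝ (L.nor q) y := by
        intro y
        rw [inner_nor, inner_nor, h.sw, hsz]
        unfold det3
        simp only [PiLp.neg_apply, PiLp.add_apply, PiLp.smul_apply, smul_eq_mul]
        field_simp
        ring
      have hab : 0 < a / b := div_pos ha hb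
      intro x _ P tN tO hP _ _ hcu hcu' _ m' hm' σ hσ
      have hmm : m' = m := by
        rw [hX] at hm'; exact (Option.some.inj hm').symm
      subst hmm
      have hτ := hσ u h.memu
      have hθ := hσ k h.memk
      rw [hnor, inner_nor, h.sw] at hτ hθ
      have hτ' : σ * det3 (L.p u) (L.p q) (L.p m') ≤ 0 := by
        rw [det3_cyc (L.p u)]
        by_contra hn
        push Not at hn
        nlinarith [mul_pos hab hn]
      have hθ' : σ * det3 (L.p k) (L.p q) (L.p m') ≤ 0 := by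
        rw [det3_cyc (L.p k)]
        by_contra hn
        push Not at hn
        nlinarith [mul_pos hab hn]
      rw [hnor]
      have hmain := half_near (L.nor q) (L.ee u k q x₀ y₀) x σ tN _ _ P (hP hX) (by
        rw [inner_nor, h.sw]
        have := hE.ew
        unfold Pg.ee
        unfold det3 at this ⊢
        simp only [PiLp.sub_apply, PiLp.add_apply, PiLp.smul_apply, smul_eq_mul]
        linarith) h.τw h.θw hτ' hθ' hcu hcu'
      have : σ * (a / b * inner ℝ (L.nor q) (x + tN • L.ee u k q x₀ y₀)) =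
          (a / b) * (σ * inner ℝ (L.nor q) (x + tN • L.ee u k q x₀ y₀)) := by ring
      rw [this]
      exact mul_nonpos_of_nonneg_of_nonpos hab.le hmain
    · obtain ⟨s0, hs0, hle, hlt⟩ := flat_vals L h.ok m hc
      have hmS := hc.1
      have hmu : u ≠ m := by rintro rfl; exact h.Xu hX
      have hmk : k ≠ m := by rintro rfl; exact h.Xk hX
      have hmw : w ≠ m := by rintro rfl; exact h.Xw hX
      have hwsm : w ≠ L.s m := by
        intro e; exact hmk (h.ok.inj m hmS k h.memk (e.symm.trans h.sk.symm)).symm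
      have hksm : k ≠ L.s m := by
        intro e; exact hmu (h.ok.inj m hmS u h.memu (e.symm.trans h.su.symm)).symm
      have hgw := hlt w h.memw hmw (by rw [h.sw]; exact fun e => hmz e.symm) hwsm
      have hgk := hlt k h.memk hmk (by rw [h.sk]; exact hmw) hksm
      have hgz := hle z h.memz
      obtain ⟨κ, hκ, hmain⟩ := half_far (L.nor m) (L.p z) (L.p w) (L.p k) (L.ee u k w x₀ y₀) s0 δ
        hs0 hδ hgz hgw hgk
      refine ⟨κ, hκ, ?_⟩
      intro x hx P tN tO _ hNO hcase _ _ hH m' hm' σ hσ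
      have hmm : m' = m := by
        rw [hX] at hm'; exact (Option.some.inj hm').symm
      subst hmm
      have hO := hH m' hX σ hσ
      rcases hcase with rfl | hlow
      · exact hO
      · refine hmain x ?_ σ tN tO (hσ w h.memw) hNO hlow hO
        rcases hx with ⟨a, b, ha, hb, hx⟩ | hx
        · rw [h.sk] at hx
          exact Or.inr ⟨b, a, hb, ha, by rw [hx, add_comm]⟩
        · exact Or.inl hx

end KAP_

theorem kap_proof : Stmt_Kap := by
  intro V _ L t u k w z x₀ y₀ h hE δ hδ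
  obtain ⟨κ, hκ, hU⟩ := KAP_.kapU L t u k w z x₀ y₀ h hE δ hδ
  obtain ⟨κ', hκ', hW⟩ := KAP_.kapW L t u k w z x₀ y₀ h hE δ hδ
  refine ⟨min κ κ', lt_min hκ hκ', ?_, ?_⟩
  · intro x hx P tN tO hP hle hcase
    refine hU x hx P tN tO hP hle ?_
    rcases hcase with h1 | h1
    · exact Or.inl h1
    · right
      have := mul_le_mul_of_nonneg_right (min_le_left κ κ') (norm_nonneg x)
      linarith
  · intro x hx P tN tO hP hle hcase
    refine hW x hx P tN tO hP hle ?_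
    rcases hcase with h1 | h1
    · exact Or.inl h1
    · right
      have := mul_le_mul_of_nonneg_right (min_le_right κ κ') (norm_nonneg x)
      linarith

end Pool.Agent.TSM
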