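import Pool.Agent.TSM.VBase2

/-!
# TSM, Part VM: LIN (linear algebra at one end)
-/

set_option autoImplicit false

namespace Pool.Agent.TSM

open Set Filter Topology Metric

namespace LIN_

/-! ### vectors -/

theorem inner_scrs (s : ℝ) (a b x : E3) : (inner ℝ (s • crs a b) x : ℝ) = s * det3 a b x := by
  rw [real_inner_smul_left, crs_eq_inner]

theorem det3_crs2 (a b c d n : E3) : det3 (crs a b) (crs c d) n =
    det3 a b d * inner ℝ c n - det3 a b c * inner ℝ d n := by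
  simp only [crs, det3, PiLp.inner_apply, Fin.sum_univ_three, RCLike.inner_apply, conj_trivial,
    PiLp.toLp_apply, Matrix.cons_val_zero, Matrix.cons_val_one, Matrix.cons_val]
  ring

theorem det3_crs2' (x c d f : E3) : det3 x (crs c d) (crs c f) =
    det3 c d f * inner ℝ x c := by
  simp only [crs, det3, PiLp.inner_apply, Fin.sum_univ_three, RCLike.inner_apply, conj_trivial,
    PiLp.toLp_apply, Matrix.cons_val_zero, Matrix.cons_val_one, Matrix.cons_val]
  ring

theorem det3_s12 (a b c : E3) : det3 b a c = -det3 a b c := by unfold det3; ring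
theorem det3_s23 (a b c : E3) : det3 a c b = -det3 a b c := by unfold det3; ring
theorem det3_s13 (a b c : E3) : det3 c b a = -det3 a b c := by unfold det3; ring

theorem det3_aab (a b : E3) : det3 a a b = 0 := by unfold det3; ring
theorem det3_aba (a b : E3) : det3 a b a = 0 := by unfold det3; ring
theorem det3_abb (a b : E3) : det3 a b b = 0 := by unfold det3; ring

theorem det3_lin1 (a b c x : E3) (r : ℝ) : det3 (x + r • a) b c = det3 x b c + r * det3 a b c := by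
  simp only [det3, PiLp.add_apply, PiLp.smul_apply, smul_eq_mul]; ring
theorem det3_lin2 (a b c x : E3) (r : ℝ) : det3 a (x + r • b) c = det3 a x c + r * det3 a b c := by
  simp only [det3, PiLp.add_apply, PiLp.smul_apply, smul_eq_mul]; ring
theorem det3_lin3 (a b c x : E3) (r : ℝ) : det3 a b (x + r • c) = det3 a b x + r * det3 a b c := by
  simp only [det3, PiLp.add_apply, PiLp.smul_apply, smul_eq_mul]; ring
theorem det3_sm1 (r : ℝ) (a b c : E3) : det3 (r • a) b c = r * det3 a b c := by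
  simp only [det3, PiLp.smul_apply, smul_eq_mul]; ring
theorem det3_sm2 (r : ℝ) (a b c : E3) : det3 a (r • b) c = r * det3 a b c := by
  simp only [det3, PiLp.smul_apply, smul_eq_mul]; ring
theorem det3_sm3 (r : ℝ) (a b c : E3) : det3 a b (r • c) = r * det3 a b c := by
  simp only [det3, PiLp.smul_apply, smul_eq_mul]; ring

theorem det3_e (pu pw pk a b : E3) (x₀ y₀ : ℝ) :
    det3 a b (x₀ • pu + y₀ • pw - pk) = x₀ * det3 a b pu + y₀ * det3 a b pw - det3 a b pk := by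
  simp only [det3, PiLp.add_apply, PiLp.smul_apply, PiLp.sub_apply, smul_eq_mul]; ring

theorem cont_coord {X : Type*} [TopologicalSpace X] {f : X → E3} (hf : Continuous f) (i : Fin 3) :
    Continuous fun x => f x i := by
  fun_prop

theorem det3_cont {X : Type*} [TopologicalSpace X] {f g h : X → E3} (hf : Continuous f)
    (hg : Continuous g) (hh : Continuous h) : Continuous fun x => det3 (f x) (g x) (h x) := by
  have h1 := cont_coord hf
  have h2 := cont_coord hg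
  have h3 := cont_coord hh
  unfold det3
  exact (((h1 0).mul (((h2 1).mul (h3 2)).sub ((h2 2).mul (h3 1)))).sub
    ((h1 1).mul (((h2 0).mul (h3 2)).sub ((h2 2).mul (h3 0))))).add
    ((h1 2).mul (((h2 0).mul (h3 1)).sub ((h2 1).mul (h3 0))))

/-- the identity of Cramer for `pk` -/
theorem cram (pt pu pk pw q : E3) :
    det3 pt pu pw * det3 pu q pk = -(det3 pu pk pw) * det3 pu q pt +
      det3 pt pu pk * det3 pu q pw := by
  unfold det3; ring

theorem th_lt {e n n' x : E3} (h : 0 < (inner ℝ n e : ℝ)) (h' : 0 < (inner ℝ n' e : ℝ))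
    (hl : (inner ℝ n' x : ℝ) * inner ℝ n e < inner ℝ n x * inner ℝ n' e) :
    th e n x < th e n' x := by
  unfold th
  rw [div_lt_div_iff₀ h h']
  linarith

theorem ev_lt {X : Type*} [TopologicalSpace X] {f g : X → ℝ} {x : X} (hf : Continuous f)
    (hg : Continuous g) (h : f x < g x) : ∀ᶠ y in 𝓝 x, f y < g y :=
  ContinuousAt.eventually_lt hf.continuousAt hg.continuousAt h

theorem evi {X : Type*} [TopologicalSpace X] {f g : X → ℝ} {x : X} (c : Prop)
    (hf : Continuous f) (hg : Continuous g) (h : c → f x < g x) :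
    ∀ᶠ y in 𝓝 x, c → f y < g y := by
  by_cases hc : c
  · exact (ev_lt hf hg (h hc)).mono fun y hy _ => hy
  · exact Eventually.of_forall fun y hy => absurd hy hc

/-- radius of a neighbourhood -/
theorem rad {P : E3 → Prop} {x : E3} (h : ∀ᶠ y in 𝓝 x, P y) :
    ∀ᶠ r in 𝓝[>] (0 : ℝ), ∀ y, ‖y - x‖ ≤ r → P y := by
  obtain ⟨r₀, h1, h2⟩ := Metric.eventually_nhds_iff.1 h
  filter_upwards [Ioo_mem_nhdsGT h1] with r hr y hy
  exact h2 (by rw [dist_eq_norm]; exact lt_of_le_of_lt hy hr.2)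

theorem rad2 {P : E3 × E3 → Prop} {x x' : E3} (h : ∀ᶠ y in 𝓝 (x, x'), P y) :
    ∀ᶠ r in 𝓝[>] (0 : ℝ), ∀ y y', ‖y - x‖ ≤ r → ‖y' - x'‖ ≤ r → P (y, y') := by
  obtain ⟨r₀, h1, h2⟩ := Metric.eventually_nhds_iff.1 h
  filter_upwards [Ioo_mem_nhdsGT h1] with r hr y y' hy hy'
  refine h2 ?_
  rw [Prod.dist_eq, dist_eq_norm, dist_eq_norm]
  exact max_lt (lt_of_le_of_lt hy hr.2) (lt_of_le_of_lt hy' hr.2)

/-! ### the conditions for small tilts -/

/-- conditions on the chord face of the ear -/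
structure GA (s : ℝ) (pt pu pk pw e hu hw : E3) (y₀ ε a : ℝ) : Prop where
  q1 : 0 < s * det3 hu hw e
  q2 : s * det3 hu hw pk < 0
  q3 : 0 < (s * det3 pt pu pw) * (s * det3 pt pu hw)
  q4 : s * det3 pt pu pw < 0 → ε * (s * det3 hu hw pk) + s * det3 hu hw pu < 0
  q5 : |a| < ε
  q6 : (s * det3 pt pu pk) * (s * det3 hu hw e) <
    (s * det3 pt pu hw) * (y₀ * (s * det3 pu pk pw))
  q7 : s * det3 pt pu pw < 0 → (s * det3 pt pu pk) * (s * det3 hu hw e) <
    (s * det3 hu hw pk) * (y₀ * (s * det3 pt pu pw) - s * det3 pt pu pk)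
  q8 : 0 < s * det3 pt pu pw → (s * det3 hu hw pk) * (y₀ * (s * det3 pt pu pw) -
    s * det3 pt pu pk) < (s * det3 pt pu pk) * (s * det3 hu hw e)
  q9 : 0 < s * det3 pt pu pw → (s * det3 hu hw pu + s * det3 hu hw pk) *
    (y₀ * (s * det3 pt pu pw) - s * det3 pt pu pk) < (s * det3 pt pu pk) * (s * det3 hu hw e)

/-- conditions on the chords -/
structure GC (s : ℝ) (pt pu pk pw e hu hw : E3) (ε a σ : ℝ) (q : E3) : Prop where
  a1 : 0 < σ * det3 hu q e
  a4 : s * det3 pt pu pw < 0 → ε * (σ * det3 hu q pk) - a * (σ * det3 pu q pt) < 0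
  a5 : s * det3 pt pu pw < 0 → (s * det3 pt pu hw) * (σ * det3 hu q e) <
    (σ * det3 pu q pt) * (s * det3 hu hw e)
  a7 : s * det3 pt pu pw < 0 → (σ * det3 hu q pk) * (s * det3 hu hw e) <
    (s * det3 hu hw pk) * (σ * det3 hu q e)
  a8 : 0 < s * det3 pt pu pw → (s * det3 hu hw pk) * (σ * det3 hu q e) <
    (σ * det3 hu q pk) * (s * det3 hu hw e)
  a9 : 0 < s * det3 pt pu pw → (s * det3 hu hw pu + s * det3 hu hw pk) * (σ * det3 hu q e) <
    (σ * det3 hu q pu + σ * det3 hu q pk) * (s * det3 hu hw e)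

theorem evGA (s : ℝ) (pt pu pk pw pz : E3) (x₀ y₀ : ℝ) (hy : 0 < y₀)
    (e : E3) (he : e = x₀ • pu + y₀ • pw - pk) (hlam : 0 < s * det3 pu pk pw)
    (hτ : s * det3 pt pu pw ≠ 0) (hyt : 0 < y₀ * (s * det3 pt pu pw) - s * det3 pt pu pk)
    (ε : ℝ) (hε : 0 < ε) :
    ∀ᶠ p in 𝓝 (0 : ℝ × ℝ), GA s pt pu pk pw e (pu + p.1 • pt) (pw + p.2 • pz) y₀ ε p.1 := by
  have cu : Continuous fun p : ℝ × ℝ => pu + p.1 • pt := by fun_prop
  have cw : Continuous fun p : ℝ × ℝ => pw + p.2 • pz := by fun_prop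
  have cE : ∀ x : E3, Continuous fun p : ℝ × ℝ =>
      s * det3 (pu + p.1 • pt) (pw + p.2 • pz) x := fun x =>
    continuous_const.mul (det3_cont cu cw continuous_const)
  have cT : Continuous fun p : ℝ × ℝ => s * det3 pt pu (pw + p.2 • pz) :=
    continuous_const.mul (det3_cont continuous_const continuous_const cw)
  have z1 : pu + (0 : ℝ × ℝ).1 • pt = pu := by simp
  have z2 : pw + (0 : ℝ × ℝ).2 • pz = pw := by simp
  have vE : s * det3 pu pw e = s * det3 pu pk pw := by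
    rw [he, det3_e, det3_aba, det3_abb, det3_s23 pu pk pw]; ring
  have vK : s * det3 pu pw pk = -(s * det3 pu pk pw) := by
    rw [det3_s23 pu pk pw]; ring
  have vU : s * det3 pu pw pu = 0 := by rw [det3_aba]; ring
  generalize hl : s * det3 pu pk pw = lam at hlam vE vK
  generalize hth : s * det3 pt pu pk = θ at hyt
  have hτ' := hτ
  generalize ht : s * det3 pt pu pw = τ at hyt hτ'
  have w1 : ∀ᶠ p in 𝓝 (0 : ℝ × ℝ), 0 < s * det3 (pu + p.1 • pt) (pw + p.2 • pz) e :=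
    ev_lt continuous_const (cE e) (by rw [z1, z2, vE]; exact hlam)
  have w2 : ∀ᶠ p in 𝓝 (0 : ℝ × ℝ), s * det3 (pu + p.1 • pt) (pw + p.2 • pz) pk < 0 :=
    ev_lt (cE pk) continuous_const (by rw [z1, z2, vK]; linarith)
  have w3 : ∀ᶠ p in 𝓝 (0 : ℝ × ℝ), 0 < τ * (s * det3 pt pu (pw + p.2 • pz)) :=
    ev_lt continuous_const (continuous_const.mul cT) (by
      rw [z2, ht]
      exact mul_self_pos.2 hτ')
  have w4 : ∀ᶠ p in 𝓝 (0 : ℝ × ℝ), ε * (s * det3 (pu + p.1 • pt) (pw + p.2 • pz) pk) +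
      s * det3 (pu + p.1 • pt) (pw + p.2 • pz) pu < 0 :=
    ev_lt ((continuous_const.mul (cE pk)).add (cE pu)) continuous_const (by
      rw [z1, z2, vK, vU]
      have := mul_pos hε hlam
      linarith)
  have w5 : ∀ᶠ p in 𝓝 (0 : ℝ × ℝ), |p.1| < ε :=
    ev_lt (by fun_prop) continuous_const (by simpa using hε)
  have w6 : ∀ᶠ p in 𝓝 (0 : ℝ × ℝ), θ * (s * det3 (pu + p.1 • pt) (pw + p.2 • pz) e) <
      (s * det3 pt pu (pw + p.2 • pz)) * (y₀ * lam) :=
    ev_lt (continuous_const.mul (cE e)) (cT.mul continuous_const) (by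
      rw [z1, z2, vE, ht]
      have := mul_pos hyt hlam
      linarith)
  have w7 : ∀ᶠ p in 𝓝 (0 : ℝ × ℝ), τ < 0 → θ * (s * det3 (pu + p.1 • pt) (pw + p.2 • pz) e) <
      (s * det3 (pu + p.1 • pt) (pw + p.2 • pz) pk) * (y₀ * τ - θ) :=
    evi _ (continuous_const.mul (cE e)) ((cE pk).mul continuous_const) (fun h => by
      rw [z1, z2, vE, vK]
      have := mul_pos hlam (mul_pos hy (neg_pos.2 h))
      linarith)
  have w8 : ∀ᶠ p in 𝓝 (0 : ℝ × ℝ), 0 < τ →
      (s * det3 (pu + p.1 • pt) (pw + p.2 • pz) pk) * (y₀ * τ - θ) <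
      θ * (s * det3 (pu + p.1 • pt) (pw + p.2 • pz) e) :=
    evi _ ((cE pk).mul continuous_const) (continuous_const.mul (cE e)) (fun h => by
      rw [z1, z2, vE, vK]
      have := mul_pos hlam (mul_pos hy h)
      linarith)
  have w9 : ∀ᶠ p in 𝓝 (0 : ℝ × ℝ), 0 < τ →
      (s * det3 (pu + p.1 • pt) (pw + p.2 • pz) pu +
        s * det3 (pu + p.1 • pt) (pw + p.2 • pz) pk) * (y₀ * τ - θ) <
      θ * (s * det3 (pu + p.1 • pt) (pw + p.2 • pz) e) :=
    evi _ (((cE pu).add (cE pk)).mul continuous_const) (continuous_const.mul (cE e)) (fun h => by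
      rw [z1, z2, vE, vK, vU]
      have := mul_pos hlam (mul_pos hy h)
      linarith)
  filter_upwards [w1, w2, w3, w4, w5, w6, w7, w8, w9] with p h1 h2 h3 h4 h5 h6 h7 h8 h9
  subst hl hth ht
  exact ⟨h1, h2, h3, fun _ => h4, h5, h6, h7, h8, h9⟩

theorem evGC (s : ℝ) (pt pu pk pw pz : E3) (x₀ y₀ : ℝ) (hy : 0 < y₀)
    (e : E3) (he : e = x₀ • pu + y₀ • pw - pk) (hlam : 0 < s * det3 pu pk pw)
    (hτθ : s * det3 pt pu pw < 0 → s * det3 pt pu pk < 0)
    (hyt : 0 < y₀ * (s * det3 pt pu pw) - s * det3 pt pu pk)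
    (ε : ℝ) (hε : 0 < ε) (σ : ℝ) (q : E3)
    (g1 : 0 < (s * det3 pt pu pw) * (σ * det3 pu q pt))
    (g2 : 0 < (s * det3 pt pu pw) * (σ * det3 pu q pw)) (g3 : 0 < σ * det3 pu q e) :
    ∀ᶠ p in 𝓝 (0 : ℝ × ℝ), GC s pt pu pk pw e (pu + p.1 • pt) (pw + p.2 • pz) ε p.1 σ q := by
  have cu : Continuous fun p : ℝ × ℝ => pu + p.1 • pt := by fun_prop
  have cw : Continuous fun p : ℝ × ℝ => pw + p.2 • pz := by fun_prop
  have cE : ∀ x : E3, Continuous fun p : ℝ × ℝ =>
      s * det3 (pu + p.1 • pt) (pw + p.2 • pz) x := fun x =>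
    continuous_const.mul (det3_cont cu cw continuous_const)
  have cQ : ∀ x : E3, Continuous fun p : ℝ × ℝ => σ * det3 (pu + p.1 • pt) q x := fun x =>
    continuous_const.mul (det3_cont cu continuous_const continuous_const)
  have cT : Continuous fun p : ℝ × ℝ => s * det3 pt pu (pw + p.2 • pz) :=
    continuous_const.mul (det3_cont continuous_const continuous_const cw)
  have z1 : pu + (0 : ℝ × ℝ).1 • pt = pu := by simp
  have z2 : pw + (0 : ℝ × ℝ).2 • pz = pw := by simp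
  have z3 : (0 : ℝ × ℝ).1 = 0 := rfl
  have vE : s * det3 pu pw e = s * det3 pu pk pw := by
    rw [he, det3_e, det3_aba, det3_abb, det3_s23 pu pk pw]; ring
  have vK : s * det3 pu pw pk = -(s * det3 pu pk pw) := by
    rw [det3_s23 pu pk pw]; ring
  have vU : s * det3 pu pw pu = 0 := by rw [det3_aba]; ring
  have vU' : σ * det3 pu q pu = 0 := by rw [det3_aba]; ring
  have vE' : σ * det3 pu q e = y₀ * (σ * det3 pu q pw) - σ * det3 pu q pk := by
    rw [he, det3_e, det3_aba]; ring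
  have hcr : (s * det3 pt pu pw) * (σ * det3 pu q pk) =
      -(s * det3 pu pk pw) * (σ * det3 pu q pt) + (s * det3 pt pu pk) * (σ * det3 pu q pw) := by
    have := cram pt pu pk pw q
    linear_combination (s * σ) * this
  have g3' := g3
  rw [vE'] at g3'
  generalize hl : s * det3 pu pk pw = lam at hlam vE vK hcr
  generalize hth : s * det3 pt pu pk = θ at hyt hcr hτθ
  generalize ht : s * det3 pt pu pw = τ at hyt hcr g1 g2 hτθ
  generalize hA : σ * det3 pu q pt = A at g1 hcr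
  generalize hB : σ * det3 pu q pw = B at g2 hcr vE' g3'
  generalize hD : σ * det3 pu q pk = D at hcr vE' g3'
  have hneg : τ < 0 → A < 0 ∧ B < 0 ∧ D < 0 := by
    intro h
    have hA0 : A < 0 := by
      by_contra hn
      have := mul_nonpos_of_nonpos_of_nonneg h.le (not_lt.1 hn)
      linarith
    have hB0 : B < 0 := by
      by_contra hn
      have := mul_nonpos_of_nonpos_of_nonneg h.le (not_lt.1 hn)
      linarith
    refine ⟨hA0, hB0, ?_⟩
    by_contra hn
    have h1 := mul_nonpos_of_nonpos_of_nonneg h.le (not_lt.1 hn)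
    have h2 := mul_pos hlam (neg_pos.2 hA0)
    have h3 := mul_pos_of_neg_of_neg (hτθ h) hB0
    linarith
  have hpos : 0 < τ → 0 < B := by
    intro h
    by_contra hn
    have := mul_nonpos_of_nonneg_of_nonpos h.le (not_lt.1 hn)
    linarith
  have w1 : ∀ᶠ p in 𝓝 (0 : ℝ × ℝ), 0 < σ * det3 (pu + p.1 • pt) q e :=
    ev_lt continuous_const (cQ e) (by rw [z1]; exact g3)
  have w4 : ∀ᶠ p in 𝓝 (0 : ℝ × ℝ), τ < 0 →
      ε * (σ * det3 (pu + p.1 • pt) q pk) - p.1 * A < 0 :=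
    evi _ ((continuous_const.mul (cQ pk)).sub (continuous_fst.mul continuous_const))
      continuous_const (fun h => by
        rw [z1, z3, hD]
        have := mul_pos hε (neg_pos.2 (hneg h).2.2)
        linarith)
  have w5 : ∀ᶠ p in 𝓝 (0 : ℝ × ℝ), τ < 0 → (s * det3 pt pu (pw + p.2 • pz)) *
      (σ * det3 (pu + p.1 • pt) q e) < A * (s * det3 (pu + p.1 • pt) (pw + p.2 • pz) e) :=
    evi _ (cT.mul (cQ e)) (continuous_const.mul (cE e)) (fun h => by
      rw [z1, z2, vE, vE', ht]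
      have := mul_pos hyt (neg_pos.2 (hneg h).2.1)
      linarith)
  have w7 : ∀ᶠ p in 𝓝 (0 : ℝ × ℝ), τ < 0 → (σ * det3 (pu + p.1 • pt) q pk) *
      (s * det3 (pu + p.1 • pt) (pw + p.2 • pz) e) <
      (s * det3 (pu + p.1 • pt) (pw + p.2 • pz) pk) * (σ * det3 (pu + p.1 • pt) q e) :=
    evi _ ((cQ pk).mul (cE e)) ((cE pk).mul (cQ e)) (fun h => by
      rw [z1, z2, vE, vE', vK, hD]
      have := mul_pos hlam (mul_pos hy (neg_pos.2 (hneg h).2.1))
      linarith)
  have w8 : ∀ᶠ p in 𝓝 (0 : ℝ × ℝ), 0 < τ →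
      (s * det3 (pu + p.1 • pt) (pw + p.2 • pz) pk) * (σ * det3 (pu + p.1 • pt) q e) <
      (σ * det3 (pu + p.1 • pt) q pk) * (s * det3 (pu + p.1 • pt) (pw + p.2 • pz) e) :=
    evi _ ((cE pk).mul (cQ e)) ((cQ pk).mul (cE e)) (fun h => by
      rw [z1, z2, vE, vE', vK, hD]
      have := mul_pos hlam (mul_pos hy (hpos h))
      linarith)
  have w9 : ∀ᶠ p in 𝓝 (0 : ℝ × ℝ), 0 < τ →
      (s * det3 (pu + p.1 • pt) (pw + p.2 • pz) pu +
        s * det3 (pu + p.1 • pt) (pw + p.2 • pz) pk) * (σ * det3 (pu + p.1 • pt) q e) <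
      (σ * det3 (pu + p.1 • pt) q pu + σ * det3 (pu + p.1 • pt) q pk) *
        (s * det3 (pu + p.1 • pt) (pw + p.2 • pz) e) :=
    evi _ (((cE pu).add (cE pk)).mul (cQ e)) (((cQ pu).add (cQ pk)).mul (cE e)) (fun h => by
      rw [z1, z2, vE, vE', vK, vU, vU', hD]
      have := mul_pos hlam (mul_pos hy (hpos h))
      linarith)
  filter_upwards [w1, w4, w5, w7, w8, w9] with p h1 h4 h5 h7 h8 h9
  subst hl hth ht hA hB hD
  exact ⟨h1, h4, h5, h7, h8, h9⟩

/-! ### the conditions for small errors of the normals -/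

/-- the open conditions on one normal -/
structure NC (s : ℝ) (pt pu pk pw e hu hw : E3) (ε a : ℝ) (N : E3) : Prop where
  n1 : 0 < (inner ℝ N e : ℝ)
  n2 : 0 < (s * det3 pt pu pw) * inner ℝ N pt
  n3 : 0 < -(a * inner ℝ N pt * inner ℝ N pu)
  n4 : 0 < (s * det3 pt pu pw) * (ε * inner ℝ N pt + inner ℝ N pu)
  n5 : s * det3 pt pu pw < 0 → ε * inner ℝ N pk + inner ℝ N pu < 0
  n6 : s * det3 pt pu pw < 0 → inner ℝ N pu * (s * det3 hu hw e) <
    (s * det3 hu hw pu) * inner ℝ N e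
  n7 : s * det3 pt pu pw < 0 → inner ℝ N pk * (s * det3 hu hw e) <
    (s * det3 hu hw pk) * inner ℝ N e
  n8 : 0 < s * det3 pt pu pw → (s * det3 hu hw pk) * inner ℝ N e <
    inner ℝ N pk * (s * det3 hu hw e)
  n9 : 0 < s * det3 pt pu pw → (s * det3 hu hw pu + s * det3 hu hw pk) * inner ℝ N e <
    (inner ℝ N pu + inner ℝ N pk) * (s * det3 hu hw e)
  n10 : det3 (crs pu pk) (crs hu hw) N ≠ 0

theorem hu_pt (pt pu q : E3) (a : ℝ) : det3 (pu + a • pt) q pt = det3 pu q pt := by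
  rw [det3_lin1, det3_aba]; ring

theorem hu_pu (pt pu q : E3) (a : ℝ) : det3 (pu + a • pt) q pu = -(a * det3 pu q pt) := by
  rw [det3_lin1, det3_aba, det3_s13 pu q pt]; ring

theorem hu_pu' (pt pu hw : E3) (a : ℝ) : det3 (pu + a • pt) hw pu = -(a * det3 pt pu hw) := by
  rw [det3_lin1, det3_aba, det3_s23 pt pu hw]; ring

theorem evNC (s : ℝ) (pt pu pk pw e hu hw : E3) (y₀ ε a : ℝ) (q : E3) (σ : ℝ)
    (hσ : σ ≠ 0) (hhu : hu = pu + a • pt)
    (hθ : s * det3 pt pu pk ≠ 0) (hτθ : s * det3 pt pu pw < 0 → s * det3 pt pu pk < 0)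
    (ha : 0 < (s * det3 pt pu pw) * (s * det3 pt pu pk) * a)
    (g1 : 0 < (s * det3 pt pu pw) * (σ * det3 pu q pt))
    (hA : GA s pt pu pk pw e hu hw y₀ ε a) (hC : GC s pt pu pk pw e hu hw ε a σ q)
    (hd : det3 hu hw q ≠ 0) :
    ∀ᶠ N in 𝓝 (σ • crs hu q), NC s pt pu pk pw e hu hw ε a N := by
  have cI : ∀ x : E3, Continuous fun N : E3 => (inner ℝ N x : ℝ) := fun x => by fun_prop
  have v : ∀ x : E3, (inner ℝ (σ • crs hu q) x : ℝ) = σ * det3 hu q x := fun x =>
    inner_scrs σ hu q x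
  have vt : σ * det3 hu q pt = σ * det3 pu q pt := by rw [hhu, hu_pt]
  have vu : σ * det3 hu q pu = -(a * (σ * det3 pu q pt)) := by rw [hhu, hu_pu]; ring
  have vU : s * det3 hu hw pu = -(a * (s * det3 pt pu hw)) := by rw [hhu, hu_pu']; ring
  have ha0 : a ≠ 0 := by
    rintro rfl
    simp at ha
  have hA0 : σ * det3 pu q pt ≠ 0 := by
    intro h0
    rw [h0, mul_zero] at g1
    exact lt_irrefl _ g1
  have hapos : s * det3 pt pu pw < 0 → 0 < a := by
    intro h
    by_contra hn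
    have h1 := mul_pos_of_neg_of_neg h (hτθ h)
    have h2 := mul_nonpos_of_nonneg_of_nonpos h1.le (not_lt.1 hn)
    linarith
  have w1 : ∀ᶠ N in 𝓝 (σ • crs hu q), 0 < (inner ℝ N e : ℝ) :=
    ev_lt continuous_const (cI e) (by rw [v]; exact hC.a1)
  have w2 : ∀ᶠ N in 𝓝 (σ • crs hu q), 0 < (s * det3 pt pu pw) * inner ℝ N pt :=
    ev_lt continuous_const (continuous_const.mul (cI pt)) (by rw [v, vt]; exact g1)
  have w3 : ∀ᶠ N in 𝓝 (σ • crs hu q), 0 < -(a * inner ℝ N pt * inner ℝ N pu) :=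
    ev_lt continuous_const ((continuous_const.mul (cI pt)).mul (cI pu)).neg (by
      rw [v, v, vt, vu]
      have h1 := mul_self_pos.2 ha0
      have h2 := mul_self_pos.2 hA0
      have h3 := mul_pos h1 h2
      linarith)
  have w4 : ∀ᶠ N in 𝓝 (σ • crs hu q),
      0 < (s * det3 pt pu pw) * (ε * inner ℝ N pt + inner ℝ N pu) :=
    ev_lt continuous_const (continuous_const.mul ((continuous_const.mul (cI pt)).add (cI pu))) (by
      rw [v, v, vt, vu]
      have h1 : 0 < ε - a := by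
        have := hA.q5
        have := le_abs_self a
        linarith
      have h2 := mul_pos h1 g1
      linarith)
  have w5 : ∀ᶠ N in 𝓝 (σ • crs hu q), s * det3 pt pu pw < 0 →
      ε * inner ℝ N pk + inner ℝ N pu < 0 :=
    evi _ ((continuous_const.mul (cI pk)).add (cI pu)) continuous_const (fun h => by
      rw [v, v, vu]
      have := hC.a4 h
      linarith)
  have w6 : ∀ᶠ N in 𝓝 (σ • crs hu q), s * det3 pt pu pw < 0 →
      inner ℝ N pu * (s * det3 hu hw e) < (s * det3 hu hw pu) * inner ℝ N e :=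
    evi _ ((cI pu).mul continuous_const) (continuous_const.mul (cI e)) (fun h => by
      rw [v, v, vu, vU]
      have h1 := mul_lt_mul_of_pos_left (hC.a5 h) (hapos h)
      linarith)
  have w7 : ∀ᶠ N in 𝓝 (σ • crs hu q), s * det3 pt pu pw < 0 →
      inner ℝ N pk * (s * det3 hu hw e) < (s * det3 hu hw pk) * inner ℝ N e :=
    evi _ ((cI pk).mul continuous_const) (continuous_const.mul (cI e)) (fun h => by
      rw [v, v]
      exact hC.a7 h)
  have w8 : ∀ᶠ N in 𝓝 (σ • crs hu q), 0 < s * det3 pt pu pw →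
      (s * det3 hu hw pk) * inner ℝ N e < inner ℝ N pk * (s * det3 hu hw e) :=
    evi _ (continuous_const.mul (cI e)) ((cI pk).mul continuous_const) (fun h => by
      rw [v, v]
      exact hC.a8 h)
  have w9 : ∀ᶠ N in 𝓝 (σ • crs hu q), 0 < s * det3 pt pu pw →
      (s * det3 hu hw pu + s * det3 hu hw pk) * inner ℝ N e <
        (inner ℝ N pu + inner ℝ N pk) * (s * det3 hu hw e) :=
    evi _ (continuous_const.mul (cI e)) (((cI pu).add (cI pk)).mul continuous_const) (fun h => by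
      rw [v, v, v]
      exact hC.a9 h)
  have w10 : ∀ᶠ N in 𝓝 (σ • crs hu q), det3 (crs pu pk) (crs hu hw) N ≠ 0 := by
    have hc : Continuous fun N : E3 => det3 (crs pu pk) (crs hu hw) N :=
      det3_cont continuous_const continuous_const continuous_id
    refine hc.continuousAt.eventually_ne ?_
    rw [det3_sm3, det3_crs2', crs_eq_inner]
    have h1 : det3 pu pk hu = a * det3 pt pu pk := by
      rw [hhu, det3_lin3, det3_aba, det3_cyc pt pu pk]; ring
    rw [h1]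
    have hθ' : det3 pt pu pk ≠ 0 := right_ne_zero_of_mul hθ
    exact mul_ne_zero hσ (mul_ne_zero hd (mul_ne_zero ha0 hθ'))
  filter_upwards [w1, w2, w3, w4, w5, w6, w7, w8, w9, w10] with N h1 h2 h3 h4 h5 h6 h7 h8 h9 h10
  exact ⟨h1, h2, h3, h4, h5, h6, h7, h8, h9, h10⟩

/-- the signs which decide whether a chord is good -/
theorem evSg (pt pu pw hu hw : E3) (a : ℝ) (q : E3) (σ : ℝ) (hσ : σ ≠ 0)
    (hhu : hu = pu + a • pt) (h1 : det3 pu q pt ≠ 0) (h2 : 0 < det3 pu q pw * det3 hu q hw) :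
    ∀ᶠ N in 𝓝 (σ • crs hu q), 0 < (σ * det3 pu q pt) * inner ℝ N pt ∧
      0 < (σ * det3 pu q pw) * inner ℝ N hw := by
  have cI : ∀ x : E3, Continuous fun N : E3 => (inner ℝ N x : ℝ) := fun x => by fun_prop
  have v : ∀ x : E3, (inner ℝ (σ • crs hu q) x : ℝ) = σ * det3 hu q x := fun x =>
    inner_scrs σ hu q x
  have vt : σ * det3 hu q pt = σ * det3 pu q pt := by rw [hhu, hu_pt]
  have w1 : ∀ᶠ N in 𝓝 (σ • crs hu q), 0 < (σ * det3 pu q pt) * (inner ℝ N pt : ℝ) :=
    ev_lt continuous_const (continuous_const.mul (cI pt)) (by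
      rw [v, vt]
      exact mul_self_pos.2 (mul_ne_zero hσ h1))
  have w2 : ∀ᶠ N in 𝓝 (σ • crs hu q), 0 < (σ * det3 pu q pw) * (inner ℝ N hw : ℝ) :=
    ev_lt continuous_const (continuous_const.mul (cI hw)) (by
      rw [v]
      have := mul_pos (mul_self_pos.2 hσ) h2
      linarith)
  exact w1.and w2

/-- pairs of chords -/
theorem evPr (pt pu pk hu : E3) (a : ℝ) (q q' : E3) (σ σ' : ℝ) (hσ : σ ≠ 0) (hσ' : σ' ≠ 0)
    (hhu : hu = pu + a • pt) (ha : a ≠ 0) (hθ : det3 pt pu pk ≠ 0) (h : det3 hu q q' ≠ 0) :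
    ∀ᶠ p in 𝓝 (σ • crs hu q, σ' • crs hu q'), det3 (crs pu pk) p.1 p.2 ≠ 0 := by
  have hc : Continuous fun p : E3 × E3 => det3 (crs pu pk) p.1 p.2 :=
    det3_cont continuous_const continuous_fst continuous_snd
  refine hc.continuousAt.eventually_ne ?_
  rw [det3_sm2, det3_sm3, det3_crs2', crs_eq_inner]
  have h1 : det3 pu pk hu = a * det3 pt pu pk := by
    rw [hhu, det3_lin3, det3_aba, det3_cyc pt pu pk]; ring
  rw [h1]
  exact mul_ne_zero hσ (mul_ne_zero hσ' (mul_ne_zero h (mul_ne_zero ha hθ)))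

/-! ### assembly -/

theorem perm_ne {a b c : E3} (h : det3 a b c ≠ 0) :
    det3 a c b ≠ 0 ∧ det3 b a c ≠ 0 ∧ det3 b c a ≠ 0 ∧ det3 c a b ≠ 0 ∧ det3 c b a ≠ 0 := by
  refine ⟨?_, ?_, ?_, ?_, ?_⟩
  · rw [det3_s23 a b c]; exact neg_ne_zero.2 h
  · rw [det3_s12 a b c]; exact neg_ne_zero.2 h
  · rw [← det3_cyc a b c]; exact h
  · rw [det3_cyc c a b]; exact h
  · rw [det3_s13 a b c]; exact neg_ne_zero.2 h

/-- the condition `AB` for small `δ` -/
theorem exAB (s : ℝ) (pt pu pk pw : E3) (x₀ y₀ : ℝ) (hx : 0 < x₀)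
    (hy : 0 < y₀) (e : E3) (he : e = x₀ • pu + y₀ • pw - pk) (hlam : 0 < s * det3 pu pk pw) :
    ∃ δ₀ : ℝ, 0 < δ₀ ∧ ∀ δ : ℝ, 0 < δ → δ ≤ δ₀ →
      th e (s • crs pk pw) (pu + δ • pt) < th e (s • crs pu pk) (pu + δ • pt) := by
  have vA : (inner ℝ (s • crs pk pw) e : ℝ) = x₀ * (s * det3 pu pk pw) := by
    rw [inner_scrs, he, det3_e, det3_abb, det3_aba, ← det3_cyc pu pk pw]; ring
  have vB : (inner ℝ (s • crs pu pk) e : ℝ) = y₀ * (s * det3 pu pk pw) := by
    rw [inner_scrs, he, det3_e, det3_aba, det3_abb]; ring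
  have pA : 0 < (inner ℝ (s • crs pk pw) e : ℝ) := by rw [vA]; exact mul_pos hx hlam
  have pB : 0 < (inner ℝ (s • crs pu pk) e : ℝ) := by rw [vB]; exact mul_pos hy hlam
  have hev : ∀ᶠ δ in 𝓝 (0 : ℝ), (inner ℝ (s • crs pu pk) (pu + δ • pt) : ℝ) *
      inner ℝ (s • crs pk pw) e < inner ℝ (s • crs pk pw) (pu + δ • pt) *
        inner ℝ (s • crs pu pk) e := by
    refine ev_lt (by fun_prop) (by fun_prop) ?_
    rw [zero_smul, add_zero, vA, vB, inner_scrs, inner_scrs, det3_aba, det3_cyc pk pw pu,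
      ← det3_cyc pk pw pu, ← det3_cyc pu pk pw]
    have := mul_pos hlam (mul_pos hy hlam)
    linarith
  obtain ⟨r, hr, hb⟩ := Metric.eventually_nhds_iff.1 hev
  refine ⟨r / 2, by linarith, fun δ h1 h2 => th_lt pA pB (hb ?_)⟩
  rw [Real.dist_eq, sub_zero, abs_of_pos h1]
  linarith

theorem asm (s : ℝ) (pt pu pk pw e hu hw : E3) (x₀ y₀ ε δ a : ℝ) (hs : s ≠ 0) (hx : 0 < x₀)
    (hy : 0 < y₀) (he : e = x₀ • pu + y₀ • pw - pk) (hlam : 0 < s * det3 pu pk pw)
    (hτ : s * det3 pt pu pw ≠ 0) (hθ : s * det3 pt pu pk ≠ 0)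
    (hτθ : s * det3 pt pu pw < 0 → s * det3 pt pu pk < 0)
    (hyt : 0 < y₀ * (s * det3 pt pu pw) - s * det3 pt pu pk)
    (hε : 0 < ε) (hδ : 2 * ε ≤ δ)
    (hAB : th e (s • crs pk pw) (pu + δ • pt) < th e (s • crs pu pk) (pu + δ • pt))
    (ha : 0 < (s * det3 pt pu pw) * (s * det3 pt pu pk) * a) (hhu : hu = pu + a • pt)
    (hA : GA s pt pu pk pw e hu hw y₀ ε a) (κ : Type) [DecidableEq κ] (Ns : Finset κ)
    (N : κ → E3)
    (hN : ∀ n ∈ Ns, NC s pt pu pk pw e hu hw ε a (N n) ∧ (inner ℝ (N n) hu : ℝ) ≠ 0)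
    (hB : ∀ n ∈ Ns, ∀ n' ∈ Ns, n ≠ n' → det3 (crs pu pk) (N n) (N n') ≠ 0)
    (hp : ∀ n ∈ Ns, ∀ n' ∈ Ns, n ≠ n' →
      det3 (crs pt pu) (N n) (N n') ≠ 0 ∧ det3 (crs hu hw) (N n) (N n') ≠ 0 ∧
      ∀ n'' ∈ Ns, n'' ≠ n → n'' ≠ n' → det3 (N n) (N n') (N n'') ≠ 0) :
    (mkE s pt pu pk pw hu hw e Ns N).Num ε δ := by
  have hJ : ∀ i, i ∈ (mkE s pt pu pk pw hu hw e Ns N).J ↔
      i = none ∨ i = some none ∨ ∃ n ∈ Ns, some (some n) = i := by
    intro i
    simp [mkE]
  have ha0 : a ≠ 0 := by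
    rintro rfl
    simp at ha
  have ss : 0 < s * s := mul_self_pos.2 hs
  -- values
  have vP : ∀ x : E3, (inner ℝ (s • crs pt pu) x : ℝ) = s * det3 pt pu x := inner_scrs s pt pu
  have vQ : ∀ x : E3, (inner ℝ (s • crs hu hw) x : ℝ) = s * det3 hu hw x := inner_scrs s hu hw
  have vA : ∀ x : E3, (inner ℝ (s • crs pk pw) x : ℝ) = s * det3 pk pw x := inner_scrs s pk pw
  have vB : ∀ x : E3, (inner ℝ (s • crs pu pk) x : ℝ) = s * det3 pu pk x := inner_scrs s pu pk
  have ePe : s * det3 pt pu e = y₀ * (s * det3 pt pu pw) - s * det3 pt pu pk := by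
    rw [he, det3_e, det3_abb]; ring
  have eAe : s * det3 pk pw e = x₀ * (s * det3 pu pk pw) := by
    rw [he, det3_e, det3_abb, det3_aba, ← det3_cyc pu pk pw]; ring
  have eBe : s * det3 pu pk e = y₀ * (s * det3 pu pk pw) := by
    rw [he, det3_e, det3_aba, det3_abb]; ring
  have eAu : s * det3 pk pw pu = s * det3 pu pk pw := by rw [← det3_cyc pu pk pw]
  have eBt : s * det3 pu pk pt = s * det3 pt pu pk := by rw [det3_cyc pt pu pk]
  have eQt : s * det3 hu hw pt = s * det3 pt pu hw := by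
    rw [hhu, hu_pt, ← det3_cyc pt pu hw]
  have eQu : s * det3 hu hw pu = -(a * (s * det3 pt pu hw)) := by rw [hhu, hu_pu']; ring
  have eT : det3 pt pu hu = 0 := by rw [hhu, det3_lin3, det3_abb, det3_aba]; ring
  have hT0 : s * det3 pt pu hw ≠ 0 := by
    intro h0
    have := hA.q3
    rw [h0, mul_zero] at this
    exact lt_irrefl _ this
  have hTneg : s * det3 pt pu pw < 0 → s * det3 pt pu hw < 0 := by
    intro h
    by_contra hn
    have := mul_nonpos_of_nonpos_of_nonneg h.le (not_lt.1 hn)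
    have := hA.q3
    linarith
  have hTpos : 0 < s * det3 pt pu pw → 0 < s * det3 pt pu hw := by
    intro h
    by_contra hn
    have := mul_nonpos_of_nonneg_of_nonpos h.le (not_lt.1 hn)
    have := hA.q3
    linarith
  have hapos : s * det3 pt pu pw < 0 → 0 < a := by
    intro h
    by_contra hn
    have h1 := mul_pos_of_neg_of_neg h (hτθ h)
    have h2 := mul_nonpos_of_nonneg_of_nonpos h1.le (not_lt.1 hn)
    linarith
  have hτpos : 0 < s * det3 pt pu pk → 0 < s * det3 pt pu pw := by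
    intro h
    rcases lt_or_gt_of_ne hτ with h1 | h1
    · have := hτθ h1
      linarith
    · exact h1
  have hεa : 0 < ε - a := by
    have := hA.q5
    have := le_abs_self a
    linarith
  have pP : 0 < (inner ℝ (s • crs pt pu) e : ℝ) := by rw [vP, ePe]; exact hyt
  have pQ : 0 < (inner ℝ (s • crs hu hw) e : ℝ) := by rw [vQ]; exact hA.q1
  have pB : 0 < (inner ℝ (s • crs pu pk) e : ℝ) := by rw [vB, eBe]; exact mul_pos hy hlam
  have pA : 0 < (inner ℝ (s • crs pk pw) e : ℝ) := by rw [vA, eAe]; exact mul_pos hx hlam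
  -- determinants
  have f1 : ∀ n ∈ Ns, det3 (s • crs pt pu) (s • crs hu hw) (N n) ≠ 0 := by
    intro n hn
    rw [det3_sm1, det3_sm2, det3_crs2, eT, zero_mul, sub_zero, real_inner_comm]
    exact mul_ne_zero hs (mul_ne_zero hs (mul_ne_zero (right_ne_zero_of_mul hT0) (hN n hn).2))
  have f2 : ∀ n ∈ Ns, ∀ n' ∈ Ns, n ≠ n' → det3 (s • crs pt pu) (N n) (N n') ≠ 0 := by
    intro n hn n' hn' hnn
    rw [det3_sm1]
    exact mul_ne_zero hs (hp n hn n' hn' hnn).1
  have f3 : ∀ n ∈ Ns, ∀ n' ∈ Ns, n ≠ n' → det3 (s • crs hu hw) (N n) (N n') ≠ 0 := by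
    intro n hn n' hn' hnn
    rw [det3_sm1]
    exact mul_ne_zero hs (hp n hn n' hn' hnn).2.1
  have g0 : ∀ x : E3, (inner ℝ x pu : ℝ) ≠ 0 → det3 (s • crs pu pk) (s • crs pt pu) x ≠ 0 := by
    intro x hx
    rw [det3_sm1, det3_sm2, det3_crs2, det3_aba, zero_mul, zero_sub, real_inner_comm]
    refine mul_ne_zero hs (mul_ne_zero hs (neg_ne_zero.2 (mul_ne_zero ?_ hx)))
    rw [← eBt] at hθ
    exact right_ne_zero_of_mul hθ
  have gQu : (inner ℝ (s • crs hu hw) pu : ℝ) ≠ 0 := by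
    rw [vQ, eQu]
    exact neg_ne_zero.2 (mul_ne_zero ha0 hT0)
  have gNu : ∀ n ∈ Ns, (inner ℝ (N n) pu : ℝ) ≠ 0 := by
    intro n hn h0
    have := (hN n hn).1.n3
    rw [h0, mul_zero, neg_zero] at this
    exact lt_irrefl _ this
  have g1 : det3 (s • crs pu pk) (s • crs pt pu) (s • crs hu hw) ≠ 0 := g0 _ gQu
  have g2 : ∀ n ∈ Ns, det3 (s • crs pu pk) (s • crs pt pu) (N n) ≠ 0 :=
    fun n hn => g0 _ (gNu n hn)
  have g3 : ∀ n ∈ Ns, det3 (s • crs pu pk) (s • crs hu hw) (N n) ≠ 0 := by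
    intro n hn
    rw [det3_sm1, det3_sm2]
    exact mul_ne_zero hs (mul_ne_zero hs (hN n hn).1.n10)
  have g4 : ∀ n ∈ Ns, ∀ n' ∈ Ns, n ≠ n' → det3 (s • crs pu pk) (N n) (N n') ≠ 0 := by
    intro n hn n' hn' hnn
    rw [det3_sm1]
    exact mul_ne_zero hs (hB n hn n' hn' hnn)
  have sw : ∀ a b c : E3, det3 a b c ≠ 0 → det3 a c b ≠ 0 := fun a b c h => (perm_ne h).1
  refine
    { eps := hε
      del := hδ
      memP := (hJ _).2 (Or.inl rfl)
      memQ := (hJ _).2 (Or.inr (Or.inl rfl))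
      PQ := (Option.some_ne_none none).symm
      posG := ?_
      posA := pA
      posB := pB
      Pt := ?_
      Pu := ?_
      Pk := ?_
      Bt := ?_
      Bu := ?_
      Bk := ?_
      Ak := ?_
      Au := ?_
      Qk := ?_
      dne := right_ne_zero_of_mul hθ
      θne := hθ
      τne := hτ
      θτ := hτθ
      AB := hAB
      ind3 := ?_
      indB := ?_
      indM := ?_
      t1 := ?_
      t1' := ?_
      t2 := ?_
      t3 := ?_
      t23 := ?_ }
  · intro i hi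
    rcases (hJ i).1 hi with rfl | rfl | ⟨n, hn, rfl⟩
    · exact pP
    · exact pQ
    · exact (hN n hn).1.n1
  · show (inner ℝ (s • crs pt pu) pt : ℝ) = 0
    rw [vP, det3_aba, mul_zero]
  · show (inner ℝ (s • crs pt pu) pu : ℝ) = 0
    rw [vP, det3_abb, mul_zero]
  · show (inner ℝ (s • crs pt pu) pk : ℝ) = s * det3 pt pu pk
    rw [vP]
  · show (inner ℝ (s • crs pu pk) pt : ℝ) = s * det3 pt pu pk
    rw [vB, eBt]
  · show (inner ℝ (s • crs pu pk) pu : ℝ) = 0
    rw [vB, det3_aba, mul_zero]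
  · show (inner ℝ (s • crs pu pk) pk : ℝ) = 0
    rw [vB, det3_abb, mul_zero]
  · show (inner ℝ (s • crs pk pw) pk : ℝ) = 0
    rw [vA, det3_aba, mul_zero]
  · show 0 < (inner ℝ (s • crs pk pw) pu : ℝ)
    rw [vA, eAu]
    exact hlam
  · show (inner ℝ (s • crs hu hw) pk : ℝ) < 0
    rw [vQ]
    exact hA.q2
  · -- ind3
    intro i hi j hj l hl hij hil hjl
    rcases (hJ i).1 hi with rfl | rfl | ⟨n, hn, rfl⟩ <;>
      rcases (hJ j).1 hj with rfl | rfl | ⟨n', hn', rfl⟩ <;>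
      rcases (hJ l).1 hl with rfl | rfl | ⟨n'', hn'', rfl⟩
    · exact absurd rfl hij
    · exact absurd rfl hij
    · exact absurd rfl hij
    · exact absurd rfl hil
    · exact absurd rfl hjl
    · exact f1 n'' hn''
    · exact absurd rfl hil
    · exact (perm_ne (f1 n' hn')).1
    · exact f2 n' hn' n'' hn'' (fun h => hjl (by rw [h]))
    · exact absurd rfl hjl
    · exact absurd rfl hil
    · exact (perm_ne (f1 n'' hn'')).2.1
    · exact absurd rfl hij
    · exact absurd rfl hij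
    · exact absurd rfl hij
    · exact (perm_ne (f1 n' hn')).2.2.1
    · exact absurd rfl hil
    · exact f3 n' hn' n'' hn'' (fun h => hjl (by rw [h]))
    · exact absurd rfl hjl
    · exact (perm_ne (f1 n hn)).2.2.2.1
    · exact (perm_ne (f2 n hn n'' hn'' (fun h => hil (by rw [h])))).2.1
    · exact (perm_ne (f1 n hn)).2.2.2.2
    · exact absurd rfl hjl
    · exact (perm_ne (f3 n hn n'' hn'' (fun h => hil (by rw [h])))).2.1
    · exact (perm_ne (f2 n hn n' hn' (fun h => hij (by rw [h])))).2.2.1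
    · exact (perm_ne (f3 n hn n' hn' (fun h => hij (by rw [h])))).2.2.1
    · exact (hp n hn n' hn' (fun h => hij (by rw [h]))).2.2 n'' hn''
        (fun h => hil (by rw [h])) (fun h => hjl (by rw [h]))
  · -- indB
    intro i hi j hj hij
    rcases (hJ i).1 hi with rfl | rfl | ⟨n, hn, rfl⟩ <;>
      rcases (hJ j).1 hj with rfl | rfl | ⟨n', hn', rfl⟩
    · exact absurd rfl hij
    · exact g1
    · exact g2 n' hn'
    · exact sw _ _ _ g1
    · exact absurd rfl hij
    · exact g3 n' hn'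
    · exact sw _ _ _ (g2 n hn)
    · exact sw _ _ _ (g3 n hn)
    · exact g4 n hn n' hn' (fun h => hij (by rw [h]))
  · -- indM
    show det3 (s • crs pk pw) (s • crs pu pk) (s • crs hu hw) ≠ 0
    rw [det3_sm1, det3_sm2, det3_crs2, det3_aba, zero_mul, zero_sub, real_inner_comm, vQ]
    refine mul_ne_zero hs (mul_ne_zero hs (neg_ne_zero.2 (mul_ne_zero ?_ hA.q2.ne)))
    rw [← eAu] at hlam
    exact right_ne_zero_of_mul hlam.ne'
  · -- t1
    intro hneg i hi hiP
    have hneg' : s * det3 pt pu pw < 0 := hneg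
    have hTn := hTneg hneg'
    have hap := hapos hneg'
    rcases (hJ i).1 hi with rfl | rfl | ⟨n, hn, rfl⟩
    · exact absurd rfl hiP
    · show 0 < (inner ℝ (s • crs hu hw) pu : ℝ) ∧ (inner ℝ (s • crs hu hw) pt : ℝ) < 0 ∧
        ε * (inner ℝ (s • crs hu hw) pt : ℝ) + inner ℝ (s • crs hu hw) pu < 0 ∧
        ε * (inner ℝ (s • crs hu hw) pk : ℝ) + inner ℝ (s • crs hu hw) pu < 0
      rw [vQ, vQ, vQ]
      have h4 := hA.q4 hneg'
      rw [eQu] at h4 ⊢
      rw [eQt]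
      have h5 := mul_pos hap (neg_pos.2 hTn)
      have h6 := mul_pos hεa (neg_pos.2 hTn)
      refine ⟨by linarith, hTn, by linarith, h4⟩
    · have hc := (hN n hn).1
      have h2 : (inner ℝ (N n) pt : ℝ) < 0 := by
        by_contra hcon
        have := mul_nonpos_of_nonpos_of_nonneg hneg'.le (not_lt.1 hcon)
        have := hc.n2
        linarith
      have h1 : 0 < (inner ℝ (N n) pu : ℝ) := by
        by_contra hcon
        have h5 := mul_neg_of_pos_of_neg hap h2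
        have h6 := mul_nonneg_of_nonpos_of_nonpos h5.le (not_lt.1 hcon)
        have := hc.n3
        linarith
      have h3 : ε * (inner ℝ (N n) pt : ℝ) + inner ℝ (N n) pu < 0 := by
        by_contra hcon
        have := mul_nonpos_of_nonpos_of_nonneg hneg'.le (not_lt.1 hcon)
        have := hc.n4
        linarith
      exact ⟨h1, h2, h3, hc.n5 hneg'⟩
  · -- t1'
    intro hneg
    have hneg' : s * det3 pt pu pw < 0 := hneg
    have hTn := hTneg hneg'
    have hap := hapos hneg'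
    refine ⟨?_, ?_⟩
    · show th e (s • crs hu hw) pt < th e (s • crs pu pk) pt
      refine th_lt pQ pB ?_
      rw [vB, vQ, vQ, vB, eBt, eQt, eBe]
      exact hA.q6
    · intro i hi hiQ
      rcases (hJ i).1 hi with rfl | rfl | ⟨n, hn, rfl⟩
      · refine ⟨?_, ?_⟩
        · show th e (s • crs hu hw) pu < th e (s • crs pt pu) pu
          refine th_lt pQ pP ?_
          rw [vP, vQ, vQ, vP, det3_abb, ePe, eQu]
          have h5 := mul_pos (mul_pos hap (neg_pos.2 hTn)) hyt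
          linarith
        · show th e (s • crs hu hw) pk < th e (s • crs pt pu) pk
          refine th_lt pQ pP ?_
          rw [vP, vQ, vQ, vP, ePe]
          exact hA.q7 hneg'
      · exact absurd rfl hiQ
      · have hc := (hN n hn).1
        refine ⟨?_, ?_⟩
        · show th e (s • crs hu hw) pu < th e (N n) pu
          refine th_lt pQ hc.n1 ?_
          rw [vQ, vQ]
          exact hc.n6 hneg'
        · show th e (s • crs hu hw) pk < th e (N n) pk
          refine th_lt pQ hc.n1 ?_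
          rw [vQ, vQ]
          exact hc.n7 hneg'
  · -- t2
    intro hpos hθn i hi hiP
    have hpos' : 0 < s * det3 pt pu pw := hpos
    have hθn' : s * det3 pt pu pk < 0 := hθn
    have hTp := hTpos hpos'
    have han : a < 0 := by
      by_contra hcon
      have h1 := mul_neg_of_pos_of_neg hpos' hθn'
      have h2 := mul_nonpos_of_nonpos_of_nonneg h1.le (not_lt.1 hcon)
      linarith
    rcases (hJ i).1 hi with rfl | rfl | ⟨n, hn, rfl⟩
    · exact absurd rfl hiP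
    · show 0 < (inner ℝ (s • crs hu hw) pu : ℝ) ∧ 0 < (inner ℝ (s • crs hu hw) pt : ℝ)
      rw [vQ, vQ, eQu, eQt]
      have h5 := mul_pos (neg_pos.2 han) hTp
      exact ⟨by linarith, hTp⟩
    · have hc := (hN n hn).1
      have h2 : 0 < (inner ℝ (N n) pt : ℝ) := by
        by_contra hcon
        have := mul_nonpos_of_nonneg_of_nonpos hpos'.le (not_lt.1 hcon)
        have := hc.n2
        linarith
      have h1 : 0 < (inner ℝ (N n) pu : ℝ) := by
        by_contra hcon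
        have h5 := mul_neg_of_neg_of_pos han h2
        have h6 := mul_nonneg_of_nonpos_of_nonpos h5.le (not_lt.1 hcon)
        have := hc.n3
        linarith
      exact ⟨h1, h2⟩
  · -- t3
    intro hθp i hi hiP
    have hθp' : 0 < s * det3 pt pu pk := hθp
    have hpos' : 0 < s * det3 pt pu pw := hτpos hθp'
    have hTp := hTpos hpos'
    have hap : 0 < a := by
      by_contra hcon
      have h1 := mul_pos hpos' hθp'
      have h2 := mul_nonpos_of_nonneg_of_nonpos h1.le (not_lt.1 hcon)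
      linarith
    rcases (hJ i).1 hi with rfl | rfl | ⟨n, hn, rfl⟩
    · exact absurd rfl hiP
    · show (inner ℝ (s • crs hu hw) pu : ℝ) < 0 ∧ 0 < (inner ℝ (s • crs hu hw) pt : ℝ) ∧
        0 < ε * (inner ℝ (s • crs hu hw) pt : ℝ) + inner ℝ (s • crs hu hw) pu
      rw [vQ, vQ, eQu, eQt]
      have h5 := mul_pos hap hTp
      have h6 := mul_pos hεa hTp
      exact ⟨by linarith, hTp, by linarith⟩
    · have hc := (hN n hn).1
      have h2 : 0 < (inner ℝ (N n) pt : ℝ) := by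
        by_contra hcon
        have := mul_nonpos_of_nonneg_of_nonpos hpos'.le (not_lt.1 hcon)
        have := hc.n2
        linarith
      have h1 : (inner ℝ (N n) pu : ℝ) < 0 := by
        by_contra hcon
        have h5 := mul_pos hap h2
        have h6 := mul_nonneg h5.le (not_lt.1 hcon)
        have := hc.n3
        linarith
      have h3 : 0 < ε * (inner ℝ (N n) pt : ℝ) + inner ℝ (N n) pu := by
        by_contra hcon
        have := mul_nonpos_of_nonneg_of_nonpos hpos'.le (not_lt.1 hcon)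
        have := hc.n4
        linarith
      exact ⟨h1, h2, h3⟩
  · -- t23
    intro hpos i hi hiQ
    have hpos' : 0 < s * det3 pt pu pw := hpos
    rcases (hJ i).1 hi with rfl | rfl | ⟨n, hn, rfl⟩
    · refine ⟨?_, ?_⟩
      · show th e (s • crs pt pu) (pu + pk) < th e (s • crs hu hw) (pu + pk)
        refine th_lt pP pQ ?_
        rw [inner_add_right, inner_add_right, vQ, vQ, vP, vP, vP, vQ, det3_abb, ePe]
        have := hA.q9 hpos'
        linarith
      · show th e (s • crs pt pu) pk < th e (s • crs hu hw) pk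
        refine th_lt pP pQ ?_
        rw [vQ, vP, vP, vQ, ePe]
        exact hA.q8 hpos'
    · exact absurd rfl hiQ
    · have hc := (hN n hn).1
      refine ⟨?_, ?_⟩
      · show th e (N n) (pu + pk) < th e (s • crs hu hw) (pu + pk)
        refine th_lt hc.n1 pQ ?_
        rw [inner_add_right, inner_add_right, vQ, vQ, vQ]
        exact hc.n9 hpos'
      · show th e (N n) pk < th e (s • crs hu hw) pk
        refine th_lt hc.n1 pQ ?_
        rw [vQ, vQ]
        exact hc.n8 hpos'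

theorem sgn {x y z : ℝ} (h1 : 0 < x * y) (h2 : 0 < z * y) : 0 < x * z := by
  have hy : y ≠ 0 := by
    rintro rfl
    simp at h1
  have hyy : 0 < y * y := mul_self_pos.2 hy
  have h3 : 0 < (x * z) * (y * y) := by
    have := mul_pos h1 h2
    linarith
  exact (mul_pos_iff_of_pos_right hyy).1 h3

end LIN_

open LIN_ in
theorem lin_proof : Stmt_Lin := by
  intro s pt pu pk pw pz x₀ y₀ hs hx hy e he hlam hτ hθ hτθ hyt
  obtain ⟨δ₀, hδ₀, hAB⟩ := exAB s pt pu pk pw x₀ y₀ hx hy e he hlam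
  have hs0 : s ≠ 0 := by rcases hs with rfl | rfl <;> norm_num
  refine ⟨δ₀, hδ₀, fun μ M q hM ε δ hε hδ hδδ => ?_⟩
  have cu : Continuous fun p : ℝ × ℝ => pu + p.1 • pt := by fun_prop
  have cw : Continuous fun p : ℝ × ℝ => pw + p.2 • pz := by fun_prop
  have z1 : pu + (0 : ℝ × ℝ).1 • pt = pu := by simp
  have z2 : pw + (0 : ℝ × ℝ).2 • pz = pw := by simp
  have e1 := evGA s pt pu pk pw pz x₀ y₀ hy e he hlam hτ hyt ε hε
  have e2 : ∀ᶠ p in 𝓝 (0 : ℝ × ℝ), ∀ m ∈ M,
      (∀ σ : ℝ, (σ = 1 ∨ σ = -1) → 0 < (s * det3 pt pu pw) * (σ * det3 pu (q m) pt) →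
        0 < (s * det3 pt pu pw) * (σ * det3 pu (q m) pw) →
        GC s pt pu pk pw e (pu + p.1 • pt) (pw + p.2 • pz) ε p.1 σ (q m)) ∧
      0 < det3 pu (q m) pw * det3 (pu + p.1 • pt) (q m) (pw + p.2 • pz) ∧
      det3 (pu + p.1 • pt) (pw + p.2 • pz) (q m) ≠ 0 ∧
      ∀ m' ∈ M, m ≠ m' → det3 (pu + p.1 • pt) (q m) (q m') ≠ 0 := by
    refine (Filter.eventually_all_finset M).2 (fun m hm => ?_)
    obtain ⟨m1, m2, m3, m4⟩ := hM m hm
    have k : ∀ σ : ℝ, (σ = 1 ∨ σ = -1) → ∀ᶠ p in 𝓝 (0 : ℝ × ℝ),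
        0 < (s * det3 pt pu pw) * (σ * det3 pu (q m) pt) →
        0 < (s * det3 pt pu pw) * (σ * det3 pu (q m) pw) →
        GC s pt pu pk pw e (pu + p.1 • pt) (pw + p.2 • pz) ε p.1 σ (q m) := by
      intro σ hσ
      by_cases h1 : 0 < (s * det3 pt pu pw) * (σ * det3 pu (q m) pt)
      · by_cases h2 : 0 < (s * det3 pt pu pw) * (σ * det3 pu (q m) pw)
        · exact (evGC s pt pu pk pw pz x₀ y₀ hy e he hlam hτθ hyt ε hε σ (q m) h1 h2
            (m4 σ hσ h1 h2)).mono fun p hp _ _ => hp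
        · exact Eventually.of_forall fun p _ hp => absurd hp h2
      · exact Eventually.of_forall fun p hp => absurd hp h1
    have k2 : ∀ᶠ p in 𝓝 (0 : ℝ × ℝ),
        0 < det3 pu (q m) pw * det3 (pu + p.1 • pt) (q m) (pw + p.2 • pz) :=
      ev_lt continuous_const (continuous_const.mul (det3_cont cu continuous_const cw)) (by
        rw [z1, z2]
        exact mul_self_pos.2 m2)
    have k3 : ∀ᶠ p in 𝓝 (0 : ℝ × ℝ), det3 (pu + p.1 • pt) (pw + p.2 • pz) (q m) ≠ 0 := by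
      refine (det3_cont cu cw continuous_const).continuousAt.eventually_ne ?_
      rw [z1, z2]
      exact (perm_ne m2).1
    have k4 : ∀ᶠ p in 𝓝 (0 : ℝ × ℝ), ∀ m' ∈ M, m ≠ m' →
        det3 (pu + p.1 • pt) (q m) (q m') ≠ 0 := by
      refine (Filter.eventually_all_finset M).2 (fun m' hm' => ?_)
      by_cases hmm : m = m'
      · exact Eventually.of_forall fun p hp => absurd hmm hp
      · have k5 : ∀ᶠ p in 𝓝 (0 : ℝ × ℝ), det3 (pu + p.1 • pt) (q m) (q m') ≠ 0 := by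
          refine (det3_cont cu continuous_const continuous_const).continuousAt.eventually_ne ?_
          rw [z1]
          exact m3 m' hm' hmm
        exact k5.mono fun p hp _ => hp
    filter_upwards [k 1 (Or.inl rfl), k (-1) (Or.inr rfl), k2, k3, k4] with p h1 h2 h3 h4 h5
    refine ⟨?_, h3, h4, h5⟩
    rintro σ (rfl | rfl)
    · exact h1
    · exact h2
  obtain ⟨r, hr, hb⟩ := Metric.eventually_nhds_iff.1 (e1.and e2)
  refine ⟨r, hr, fun a a' ha h1 h2 hu hw hhu hhw => ?_⟩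
  have hdist : dist ((a, a') : ℝ × ℝ) 0 < r := by
    rw [Prod.dist_eq]
    refine max_lt ?_ ?_
    · simpa [Real.dist_eq] using h1
    · simpa [Real.dist_eq] using h2
  have hb' := hb hdist
  have hA : GA s pt pu pk pw e hu hw y₀ ε a := by
    rw [hhu, hhw]; exact hb'.1
  have hC : ∀ m ∈ M,
      (∀ σ : ℝ, (σ = 1 ∨ σ = -1) → 0 < (s * det3 pt pu pw) * (σ * det3 pu (q m) pt) →
        0 < (s * det3 pt pu pw) * (σ * det3 pu (q m) pw) →
        GC s pt pu pk pw e hu hw ε a σ (q m)) ∧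
      0 < det3 pu (q m) pw * det3 hu (q m) hw ∧
      det3 hu hw (q m) ≠ 0 ∧
      ∀ m' ∈ M, m ≠ m' → det3 hu (q m) (q m') ≠ 0 := by
    rw [hhu, hhw]; exact hb'.2
  have ha0 : a ≠ 0 := by
    rintro rfl
    simp at ha
  have hσ0 : ∀ σ : ℝ, (σ = 1 ∨ σ = -1) → σ ≠ 0 := by
    rintro σ (rfl | rfl) <;> norm_num
  have e3 : ∀ᶠ r in 𝓝[>] (0 : ℝ), ∀ m ∈ M, ∀ σ : ℝ, (σ = 1 ∨ σ = -1) →
      ∀ N : E3, ‖N - σ • crs hu (q m)‖ ≤ r →
      (0 < (σ * det3 pu (q m) pt) * inner ℝ N pt ∧ 0 < (σ * det3 pu (q m) pw) * inner ℝ N hw) ∧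
      (0 < (s * det3 pt pu pw) * (σ * det3 pu (q m) pt) →
        0 < (s * det3 pt pu pw) * (σ * det3 pu (q m) pw) →
        NC s pt pu pk pw e hu hw ε a N) := by
    refine (Filter.eventually_all_finset M).2 (fun m hm => ?_)
    obtain ⟨m1, m2, m3, m4⟩ := hM m hm
    obtain ⟨c1, c2, c3, c4⟩ := hC m hm
    have k : ∀ σ : ℝ, (σ = 1 ∨ σ = -1) → ∀ᶠ r in 𝓝[>] (0 : ℝ),
        ∀ N : E3, ‖N - σ • crs hu (q m)‖ ≤ r →
        (0 < (σ * det3 pu (q m) pt) * inner ℝ N pt ∧
          0 < (σ * det3 pu (q m) pw) * inner ℝ N hw) ∧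
        (0 < (s * det3 pt pu pw) * (σ * det3 pu (q m) pt) →
          0 < (s * det3 pt pu pw) * (σ * det3 pu (q m) pw) →
          NC s pt pu pk pw e hu hw ε a N) := by
      intro σ hσ
      refine rad ?_
      refine (evSg pt pu pw hu hw a (q m) σ (hσ0 σ hσ) hhu m1 c2).and ?_
      by_cases g1 : 0 < (s * det3 pt pu pw) * (σ * det3 pu (q m) pt)
      · by_cases g2 : 0 < (s * det3 pt pu pw) * (σ * det3 pu (q m) pw)
        · exact (evNC s pt pu pk pw e hu hw y₀ ε a (q m) σ (hσ0 σ hσ) hhu hθ hτθ ha g1 hA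
            (c1 σ hσ g1 g2) c3).mono fun N hN _ _ => hN
        · exact Eventually.of_forall fun N _ hN => absurd hN g2
      · exact Eventually.of_forall fun N hN => absurd hN g1
    filter_upwards [k 1 (Or.inl rfl), k (-1) (Or.inr rfl)] with r h1 h2
    rintro σ (rfl | rfl)
    · exact h1
    · exact h2
  have e4 : ∀ᶠ r in 𝓝[>] (0 : ℝ), ∀ m ∈ M, ∀ m' ∈ M, m ≠ m' →
      ∀ σ : ℝ, (σ = 1 ∨ σ = -1) → ∀ σ' : ℝ, (σ' = 1 ∨ σ' = -1) →
      ∀ N N' : E3, ‖N - σ • crs hu (q m)‖ ≤ r → ‖N' - σ' • crs hu (q m')‖ ≤ r →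
      det3 (crs pu pk) N N' ≠ 0 := by
    refine (Filter.eventually_all_finset M).2 (fun m hm => ?_)
    refine (Filter.eventually_all_finset M).2 (fun m' hm' => ?_)
    by_cases hmm : m = m'
    · exact Eventually.of_forall fun r hr => absurd hmm hr
    · have k : ∀ σ σ' : ℝ, (σ = 1 ∨ σ = -1) → (σ' = 1 ∨ σ' = -1) → ∀ᶠ r in 𝓝[>] (0 : ℝ),
          ∀ N N' : E3, ‖N - σ • crs hu (q m)‖ ≤ r → ‖N' - σ' • crs hu (q m')‖ ≤ r →
          det3 (crs pu pk) N N' ≠ 0 := by
        intro σ σ' hσ hσ'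
        exact rad2 (P := fun p => det3 (crs pu pk) p.1 p.2 ≠ 0)
          (evPr pt pu pk hu a (q m) (q m') σ σ' (hσ0 σ hσ) (hσ0 σ' hσ') hhu ha0
            (right_ne_zero_of_mul hθ) ((hC m hm).2.2.2 m' hm' hmm))
      filter_upwards [k 1 1 (Or.inl rfl) (Or.inl rfl), k 1 (-1) (Or.inl rfl) (Or.inr rfl),
        k (-1) 1 (Or.inr rfl) (Or.inl rfl), k (-1) (-1) (Or.inr rfl) (Or.inr rfl)]
        with r h1 h2 h3 h4 _
      rintro σ (rfl | rfl) σ' (rfl | rfl)
      · exact h1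
      · exact h2
      · exact h3
      · exact h4
  obtain ⟨r₀, hr3, hr4, hr5⟩ := (e3.and (e4.and self_mem_nhdsWithin)).exists
  refine ⟨r₀, hr5, fun ε' hε' hlt κ _ Ns N f hN hp => ?_⟩
  refine asm s pt pu pk pw e hu hw x₀ y₀ ε δ a hs0 hx hy he hlam hτ hθ hτθ hyt hε hδ
    (hAB δ (by linarith) hδδ) ha hhu hA κ Ns N ?_ ?_ hp
  · intro n hn
    obtain ⟨hm, -, s1, s2, s3, σ, hσ, hcl⟩ := hN n hn
    obtain ⟨⟨k1, k2⟩, k3⟩ := hr3 (f n) hm σ hσ (N n) (hcl.trans hlt.le)
    rw [inner_add_right, inner_smul_right] at s2 s3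
    have t1 : 0 < (s * det3 pt pu pw) * inner ℝ (N n) pt := by
      have h5 : 0 < ε' * ((s * det3 pt pu pw) * inner ℝ (N n) pt) := by linarith
      exact (mul_pos_iff_of_pos_left hε').1 h5
    have t2 : 0 < (s * det3 pt pu pw) * inner ℝ (N n) hw := by
      have h5 : 0 < ε' * ((s * det3 pt pu pw) * inner ℝ (N n) hw) := by linarith
      exact (mul_pos_iff_of_pos_left hε').1 h5
    refine ⟨k3 (sgn t1 k1) (sgn t2 k2), fun h0 => ?_⟩
    rw [h0, mul_zero] at s1
    exact lt_irrefl _ s1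
  · intro n hn n' hn' hnn
    obtain ⟨hm, hinj, -, -, -, σ, hσ, hcl⟩ := hN n hn
    obtain ⟨hm', -, -, -, -, σ', hσ', hcl'⟩ := hN n' hn'
    exact hr4 (f n) hm (f n') hm' (hinj n' hn' hnn) σ hσ σ' hσ' (N n) (N n')
      (hcl.trans hlt.le) (hcl'.trans hlt.le)

end Pool.Agent.TSM
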