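import Pool.Agent.TSM.VBase2

/-!
# TSM, module NUMU: the numerical conditions at both ends of the ear
-/

set_option autoImplicit false

namespace Pool.Agent.TSM

open Set Filter Topology Metric

namespace NUMU_

variable {V : Type} [DecidableEq V]

theorem crs_swap (a b : E3) : crs a b = -crs b a := by
  ext i
  fin_cases i <;> simp [crs] <;> ring

theorem crs_add_left (a b : E3) (r : ℝ) : crs (a + r • b) b = crs a b := by
  ext i
  fin_cases i <;> simp [crs] <;> ring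

theorem crs_add_right (a b : E3) (r : ℝ) : crs b (a + r • b) = crs b a := by
  ext i
  fin_cases i <;> simp [crs] <;> ring

theorem det3_neg_left (a b c : E3) : det3 (-a) b c = -det3 a b c := by
  simp [det3]; ring

/-- a relation gives a vanishing determinant -/
theorem det3_rel {P Q M : E3} {a b : ℝ} (e : a • P + b • Q + M = 0) : det3 P M Q = 0 := by
  have hM : M = -(a • P) - b • Q := by
    have := eq_neg_of_add_eq_zero_right e
    rw [this, neg_add']
  subst hM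
  simp [det3]; ring

theorem flat_det {L : Pg V} (h : L.Ok) {i j l : V} (hij : i ≠ j) (hil : i ≠ l) (hjl : j ≠ l)
    (hf : L.Flat i j l) : det3 (L.p i) (L.p j) (L.p l) = 0 := by
  obtain ⟨m, q, hX, hq, hqm, hset⟩ := hf
  rcases h.kind with ⟨h1, _⟩ | ⟨m', h1, h2⟩
  · rw [h1] at hX; exact absurd hX (by simp)
  · have : m' = m := Option.some.inj (h1.symm.trans hX)
    subst this
    obtain ⟨_, q', hq', hqm', ⟨a, b, ha, hb, e⟩, _⟩ := h2
    have : q' = q := h.inj q' hq' q hq (hqm'.trans hqm.symm)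
    subst this
    have key := det3_rel e
    have e1 : i ∈ ({q', m', L.s m'} : Finset V) := by rw [← hset]; simp
    have e2 : j ∈ ({q', m', L.s m'} : Finset V) := by rw [← hset]; simp
    have e3 : l ∈ ({q', m', L.s m'} : Finset V) := by rw [← hset]; simp
    simp only [Finset.mem_insert, Finset.mem_singleton] at e1 e2 e3
    rcases e1 with rfl | rfl | rfl <;> rcases e2 with e2 | e2 | e2 <;>
      rcases e3 with e3 | e3 | e3 <;> first
      | exact absurd e2.symm hij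
      | exact absurd e3.symm hil
      | exact absurd (e2.trans e3.symm) hjl
      | (rw [e2, e3]; unfold det3 at key ⊢; linarith)

/-- `sign` to a factor -/
theorem sign_mul_neg {r s x : ℝ} (h : Real.sign s = Real.sign r) (hr : r ≠ 0)
    (hx : Real.sign s * x < 0) : r * x < 0 := by
  rw [h] at hx
  rcases lt_or_gt_of_ne hr with h1 | h1
  · rw [Real.sign_of_neg h1] at hx
    exact mul_neg_of_neg_of_pos h1 (by linarith)
  · rw [Real.sign_of_pos h1] at hx
    exact mul_neg_of_pos_of_neg h1 (by linarith)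

theorem sign_mul_pos {r s x : ℝ} (h : Real.sign s = Real.sign r) (hr : r ≠ 0)
    (hx : 0 < Real.sign s * x) : 0 < r * x := by
  rw [h] at hx
  rcases lt_or_gt_of_ne hr with h1 | h1
  · rw [Real.sign_of_neg h1] at hx
    exact mul_pos_of_neg_of_neg h1 (by linarith)
  · rw [Real.sign_of_pos h1] at hx
    exact mul_pos h1 (by linarith)

theorem sign_pert {r c a : ℝ} (hr : r ≠ 0) (h : |a| * |c| < |r|) :
    Real.sign (r + a * c) = Real.sign r := by
  have h1 : |a * c| < |r| := by rw [abs_mul]; exact h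
  rcases lt_or_gt_of_ne hr with h2 | h2
  · rw [abs_of_neg h2] at h1
    have := (abs_lt.1 h1).2
    rw [Real.sign_of_neg h2, Real.sign_of_neg (by linarith)]
  · rw [abs_of_pos h2] at h1
    have := (abs_lt.1 h1).1
    rw [Real.sign_of_pos h2, Real.sign_of_pos (by linarith)]

theorem small_pert (r c : ℝ) (hr : r ≠ 0) : ∃ a₀ : ℝ, 0 < a₀ ∧ ∀ a : ℝ, |a| < a₀ →
    |a| * |c| < |r| := by
  have hr' : 0 < |r| := abs_pos.2 hr
  refine ⟨|r| / (|c| + 1), div_pos hr' (by positivity), fun a ha => ?_⟩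
  have h1 : 0 < |c| + 1 := by positivity
  rw [lt_div_iff₀ h1] at ha
  nlinarith [abs_nonneg a, abs_nonneg c]

/-- generic chord labels -/
noncomputable def chM (L : Pg V) (k u : V) (t w : V) : Finset V :=
  open Classical in
  L.S.filter fun m => (m ≠ t ∧ m ≠ u ∧ m ≠ k ∧ m ≠ w) ∧
    ∀ x ∈ L.S.erase k, x ≠ u → x ≠ m → det3 (L.p u) (L.p m) (L.p x) ≠ 0

theorem mem_chM {L : Pg V} {k u t w m : V} : m ∈ chM L k u t w ↔
    m ∈ L.S ∧ (m ≠ t ∧ m ≠ u ∧ m ≠ k ∧ m ≠ w) ∧
      ∀ x ∈ L.S.erase k, x ≠ u → x ≠ m → det3 (L.p u) (L.p m) (L.p x) ≠ 0 := by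
  classical
  unfold chM
  rw [Finset.mem_filter]

section hat

variable {L : Pg V} {t u k w z : V} (h : L.Ear t u k w z) (a a' : ℝ)

include h

theorem nd : t ≠ u ∧ t ≠ k ∧ t ≠ w ∧ t ≠ z ∧ u ≠ k ∧ u ≠ w ∧ u ≠ z ∧ k ≠ w ∧ k ≠ z ∧ w ≠ z := by
  have := h.nodup
  simp only [List.nodup_cons, List.mem_cons, List.not_mem_nil, or_false, not_or,
    List.nodup_nil, and_true, not_false_eq_true] at this
  tauto

theorem hat_st : (L.hat t u k w z a a').s t = u := by
  obtain ⟨h1, h2, h3, h4, h5, h6, h7, h8, h9, h10⟩ := nd h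
  show (if L.s t = k then L.s k else L.s t) = u
  rw [h.st, if_neg h5]

theorem hat_su : (L.hat t u k w z a a').s u = w := by
  show (if L.s u = k then L.s k else L.s u) = w
  rw [h.su, if_pos rfl, h.sk]

theorem hat_sw : (L.hat t u k w z a a').s w = z := by
  obtain ⟨h1, h2, h3, h4, h5, h6, h7, h8, h9, h10⟩ := nd h
  show (if L.s w = k then L.s k else L.s w) = z
  rw [h.sw, if_neg (Ne.symm h9)]

omit h in
theorem hat_pu : (L.hat t u k w z a a').p u = L.p u + a • L.p t := by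
  show (if u = u then _ else _) = _
  rw [if_pos rfl]

theorem hat_pw : (L.hat t u k w z a a').p w = L.p w + a' • L.p z := by
  obtain ⟨h1, h2, h3, h4, h5, h6, h7, h8, h9, h10⟩ := nd h
  show (if w = u then _ else if w = w then _ else _) = _
  rw [if_neg (Ne.symm h6), if_pos rfl]

omit h in
theorem hat_pm {m : V} (hm : m ≠ u) (hm' : m ≠ w) : (L.hat t u k w z a a').p m = L.p m := by
  show (if m = u then _ else if m = w then _ else _) = _
  rw [if_neg hm, if_neg hm']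

/-- the chord label of a chamfer of the tilted polygon is generic in the rest polygon -/
theorem chord_gen (hok : (L.hat t u k w z a a').Ok) {i m : V} (hi : i ∈ L.S.erase k)
    (hm : m ∈ L.S.erase k) (him : m ≠ i)
    (hg : ∀ x ∈ (L.hat t u k w z a a').S, x ≠ i → x ≠ m →
      det3 ((L.hat t u k w z a a').p i) ((L.hat t u k w z a a').p m)
        ((L.hat t u k w z a a').p x) ≠ 0) :
    ∀ x ∈ L.S.erase k, x ≠ i → x ≠ m → det3 (L.p i) (L.p m) (L.p x) ≠ 0 := by
  intro x hx hxi hxm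
  apply h.ok'.gen i hi m hm x hx him.symm hxi.symm hxm.symm
  intro hf
  have hf' : (L.hat t u k w z a a').Flat i m x := by
    obtain ⟨m0, q, e1, e2, e3, e4⟩ := hf
    exact ⟨m0, q, e1, e2, e3, e4⟩
  exact hg x hx hxi hxm (flat_det hok him.symm hxi.symm hxm.symm hf')

end hat

end NUMU_

open NUMU_ in
theorem numu_proof (hlin : Stmt_Lin) : Stmt_Numu := by
  intro V _ L t u k w z x₀ y₀ h he
  obtain ⟨n1, n2, n3, n4, n5, n6, n7, n8, n9, n10⟩ := nd h
  have kt : t ∈ L.S.erase k := Finset.mem_erase.2 ⟨n2, h.memt⟩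
  have ku : u ∈ L.S.erase k := Finset.mem_erase.2 ⟨n5, h.memu⟩
  have kw : w ∈ L.S.erase k := Finset.mem_erase.2 ⟨Ne.symm n8, h.memw⟩
  have kz : z ∈ L.S.erase k := Finset.mem_erase.2 ⟨Ne.symm n9, h.memz⟩
  -- determinants at the second end
  have dw1 : (-1 : ℝ) * det3 (L.p w) (L.p k) (L.p u) = det3 (L.p u) (L.p k) (L.p w) := by
    unfold det3; ring
  have dw2 : (-1 : ℝ) * det3 (L.p z) (L.p w) (L.p u) = det3 (L.p u) (L.p w) (L.p z) := by
    unfold det3; ring
  have dw3 : (-1 : ℝ) * det3 (L.p z) (L.p w) (L.p k) = det3 (L.p k) (L.p w) (L.p z) := by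
    unfold det3; ring
  obtain ⟨δu, hδu, HU⟩ := hlin 1 (L.p t) (L.p u) (L.p k) (L.p w) (L.p z) x₀ y₀ (Or.inl rfl)
    he.x0 he.y0 (L.ee u k w x₀ y₀) rfl (by rw [one_mul]; exact h.pos)
    (by rw [one_mul]; exact h.τu) (by rw [one_mul]; exact h.θu)
    (by rw [one_mul, one_mul]; exact h.cu) (by rw [one_mul, one_mul]; exact he.eu)
  obtain ⟨δw, hδw, HW⟩ := hlin (-1) (L.p z) (L.p w) (L.p k) (L.p u) (L.p t) y₀ x₀ (Or.inr rfl)
    he.y0 he.x0 (L.ee u k w x₀ y₀) (by unfold Pg.ee; rw [add_comm (x₀ • L.p u)])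
    (by rw [dw1]; exact h.pos) (by rw [dw2]; exact h.τw) (by rw [dw3]; exact h.θw)
    (by rw [dw2, dw3]; exact h.cw) (by rw [dw2, dw3]; exact he.ew)
  refine ⟨min δu δw, lt_min hδu hδw, ?_⟩
  intro ε δ hε hεδ hδ
  have hMu : ∀ m ∈ chM L k u t w, det3 (L.p u) (L.p m) (L.p t) ≠ 0 ∧
      det3 (L.p u) (L.p m) (L.p w) ≠ 0 ∧
      (∀ m' ∈ chM L k u t w, m ≠ m' → det3 (L.p u) (L.p m) (L.p m') ≠ 0) ∧
      ∀ σ : ℝ, (σ = 1 ∨ σ = -1) →
        0 < (1 * det3 (L.p t) (L.p u) (L.p w)) * (σ * det3 (L.p u) (L.p m) (L.p t)) →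
        0 < (1 * det3 (L.p t) (L.p u) (L.p w)) * (σ * det3 (L.p u) (L.p m) (L.p w)) →
        0 < σ * det3 (L.p u) (L.p m) (L.ee u k w x₀ y₀) := by
    intro m hm
    obtain ⟨m1, ⟨m2, m3, m4, m5⟩, m6⟩ := mem_chM.1 hm
    refine ⟨m6 t kt n1 (Ne.symm m2), m6 w kw (Ne.symm n6) (Ne.symm m5), ?_, ?_⟩
    · intro m' hm' hne
      obtain ⟨m1', ⟨m2', m3', m4', m5'⟩, m6'⟩ := mem_chM.1 hm'
      exact m6 m' (Finset.mem_erase.2 ⟨m4', m1'⟩) m3' (Ne.symm hne)
    · intro σ hσ s1 s2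
      rw [one_mul] at s1 s2
      exact he.chu m m1 σ hσ m3 s1 s2
  have hMw : ∀ m ∈ chM L k w z u, det3 (L.p w) (L.p m) (L.p z) ≠ 0 ∧
      det3 (L.p w) (L.p m) (L.p u) ≠ 0 ∧
      (∀ m' ∈ chM L k w z u, m ≠ m' → det3 (L.p w) (L.p m) (L.p m') ≠ 0) ∧
      ∀ σ : ℝ, (σ = 1 ∨ σ = -1) →
        0 < (-1 * det3 (L.p z) (L.p w) (L.p u)) * (σ * det3 (L.p w) (L.p m) (L.p z)) →
        0 < (-1 * det3 (L.p z) (L.p w) (L.p u)) * (σ * det3 (L.p w) (L.p m) (L.p u)) →
        0 < σ * det3 (L.p w) (L.p m) (L.ee u k w x₀ y₀) := by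
    intro m hm
    obtain ⟨m1, ⟨m2, m3, m4, m5⟩, m6⟩ := mem_chM.1 hm
    refine ⟨m6 z kz (Ne.symm n10) (Ne.symm m2), m6 u ku n6 (Ne.symm m5), ?_, ?_⟩
    · intro m' hm' hne
      obtain ⟨m1', ⟨m2', m3', m4', m5'⟩, m6'⟩ := mem_chM.1 hm'
      exact m6 m' (Finset.mem_erase.2 ⟨m4', m1'⟩) m3' (Ne.symm hne)
    · intro σ hσ s1 s2
      rw [dw2] at s1 s2
      exact he.chw m m1 σ hσ m3 s1 s2
  obtain ⟨au, hau, HU⟩ := HU V (chM L k u t w) L.p hMu ε δ hε hεδ (hδ.trans (min_le_left _ _))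
  obtain ⟨aw, haw, HW⟩ := HW V (chM L k w z u) L.p hMw ε δ hε hεδ (hδ.trans (min_le_right _ _))
  obtain ⟨b1, hb1, hb1'⟩ := small_pert (det3 (L.p t) (L.p u) (L.p w))
    (det3 (L.p t) (L.p u) (L.p z)) h.τu
  obtain ⟨b2, hb2, hb2'⟩ := small_pert (det3 (L.p u) (L.p w) (L.p z))
    (det3 (L.p t) (L.p w) (L.p z)) h.τw
  refine ⟨min (min au aw) (min b1 b2), lt_min (lt_min hau haw) (lt_min hb1 hb2), ?_⟩
  intro a a' htilt hok
  obtain ⟨t1, t2, t3, t4⟩ := htilt
  have l1 : min (min au aw) (min b1 b2) ≤ au := (min_le_left _ _).trans (min_le_left _ _)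
  have l2 : min (min au aw) (min b1 b2) ≤ aw := (min_le_left _ _).trans (min_le_right _ _)
  have l3 : min (min au aw) (min b1 b2) ≤ b1 := (min_le_right _ _).trans (min_le_left _ _)
  have l4 : min (min au aw) (min b1 b2) ≤ b2 := (min_le_right _ _).trans (min_le_right _ _)
  obtain ⟨εu, hεu, HU⟩ := HU a a' (by rw [one_mul, one_mul]; exact t1) (t2.trans_le l1)
    (t4.trans_le l1) (L.p u + a • L.p t) (L.p w + a' • L.p z) rfl rfl
  obtain ⟨εw, hεw, HW⟩ := HW a' a (by rw [dw2, dw3]; exact t3) (t4.trans_le l2)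
    (t2.trans_le l2) (L.p w + a' • L.p z) (L.p u + a • L.p t) rfl rfl
  have hst := hat_st h a a'
  have hsu := hat_su h a a'
  have hsw := hat_sw h a a'
  have hpu := hat_pu (L := L) (t := t) (u := u) (k := k) (w := w) (z := z) a a'
  have hpw := hat_pw h a a'
  have hpt : (L.hat t u k w z a a').p t = L.p t := hat_pm a a' n1 n3
  have hpz : (L.hat t u k w z a a').p z = L.p z := hat_pm a a' (Ne.symm n7) (Ne.symm n10)
  have sgt : Real.sign ((L.hat t u k w z a a').turn t) =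
      Real.sign (det3 (L.p t) (L.p u) (L.p w)) := by
    have e : (L.hat t u k w z a a').turn t =
        det3 (L.p t) (L.p u) (L.p w) + a' * det3 (L.p t) (L.p u) (L.p z) := by
      unfold Pg.turn
      rw [hst, hsu, hpt, hpu, hpw]
      simp [det3]; ring
    rw [e]
    exact sign_pert h.τu (hb1' a' (t4.trans_le l3))
  have sgu : Real.sign ((L.hat t u k w z a a').turn u) =
      Real.sign (det3 (L.p u) (L.p w) (L.p z)) := by
    have e : (L.hat t u k w z a a').turn u =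
        det3 (L.p u) (L.p w) (L.p z) + a * det3 (L.p t) (L.p w) (L.p z) := by
      unfold Pg.turn
      rw [hsu, hsw, hpu, hpw, hpz]
      simp [det3]; ring
    rw [e]
    exact sign_pert h.τw (hb2' a (t2.trans_le l4))
  refine ⟨?_, ?_, min εu εw, lt_min hεu hεw, ?_⟩
  · refine HU (εu / 2) (half_pos hεu) (half_lt_self hεu) (Sym2 V) ∅ (fun _ => 0) (fun _ => t) ?_ ?_
    · intro n hn; exact absurd hn (Finset.notMem_empty _)
    · intro n hn; exact absurd hn (Finset.notMem_empty _)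
  · refine HW (εw / 2) (half_pos hεw) (half_lt_self hεw) (Sym2 V) ∅ (fun _ => 0) (fun _ => t) ?_ ?_
    · intro n hn; exact absurd hn (Finset.notMem_empty _)
    · intro n hn; exact absurd hn (Finset.notMem_empty _)
  · intro ε' hε' hεlt Ch N hC
    constructor
    · obtain ⟨_, c2, c3⟩ := hC t kt
      rw [hst] at c2 c3
      rw [hsu] at c2
      have c2' : ∀ n ∈ Ch u, ∃ m, n = s(u, m) ∧ m ∈ chM L k u t w ∧
          (1 * det3 (L.p t) (L.p u) (L.p w)) * inner ℝ (N n) (L.p u + a • L.p t) < 0 ∧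
          0 < (1 * det3 (L.p t) (L.p u) (L.p w)) *
            inner ℝ (N n) (L.p u + a • L.p t + ε' • L.p t) ∧
          0 < (1 * det3 (L.p t) (L.p u) (L.p w)) *
            inner ℝ (N n) (L.p u + a • L.p t + ε' • (L.p w + a' • L.p z)) ∧
          ∃ σ : ℝ, (σ = 1 ∨ σ = -1) ∧ ‖N n - σ • crs (L.p u + a • L.p t) (L.p m)‖ ≤ ε' := by
        intro n hn
        obtain ⟨m, d1, d2, d3, d4, d5, d6, d7, d8, d9, σ, d10, d11⟩ := c2 n hn
        have d1' : m ∈ L.S.erase k := d1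
        refine ⟨m, d2, mem_chM.2 ⟨Finset.mem_of_mem_erase d1',
          ⟨d3, d4, Finset.ne_of_mem_erase d1', d5⟩, chord_gen h a a' hok ku d1' d4 d6⟩,
          ?_, ?_, ?_, σ, d10, ?_⟩
        · rw [one_mul, ← hpu]; exact sign_mul_neg sgt h.τu d7
        · rw [one_mul, ← hpu]
          rw [hpt] at d8
          exact sign_mul_pos sgt h.τu d8
        · rw [one_mul, ← hpu, ← hpw]; exact sign_mul_pos sgt h.τu d9
        · rw [hpu, hat_pm a a' d4 d5] at d11; exact d11
      haveI : Nonempty V := ⟨t⟩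
      choose! f f1 f2 f3 f4 f5 f6 using c2'
      refine HU ε' hε' (hεlt.trans_le (min_le_left _ _)) (Sym2 V) (Ch u) N f ?_ ?_
      · intro n hn
        refine ⟨f2 n hn, ?_, f3 n hn, f4 n hn, f5 n hn, f6 n hn⟩
        intro n' hn' hne e
        apply hne
        rw [f1 n hn, f1 n' hn', e]
      · intro n hn n' hn' hne
        obtain ⟨g1, g2, g3⟩ := c3 n hn n' hn' hne
        have e1 : (L.hat t u k w z a a').nor t = crs (L.p t) (L.p u) := by
          unfold Pg.nor; rw [hst, hpt, hpu, crs_add_right]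
        have e2 : (L.hat t u k w z a a').nor u =
            crs (L.p u + a • L.p t) (L.p w + a' • L.p z) := by
          unfold Pg.nor; rw [hsu, hpu, hpw]
        rw [e1] at g1
        rw [e2] at g2
        exact ⟨g1, g2, g3⟩
    · obtain ⟨_, c2, c3⟩ := hC u ku
      rw [hsu] at c2 c3
      rw [hsw] at c2
      have c2' : ∀ n ∈ Ch w, ∃ m, n = s(w, m) ∧ m ∈ chM L k w z u ∧
          (-1 * det3 (L.p z) (L.p w) (L.p u)) * inner ℝ (N n) (L.p w + a' • L.p z) < 0 ∧
          0 < (-1 * det3 (L.p z) (L.p w) (L.p u)) *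
            inner ℝ (N n) (L.p w + a' • L.p z + ε' • L.p z) ∧
          0 < (-1 * det3 (L.p z) (L.p w) (L.p u)) *
            inner ℝ (N n) (L.p w + a' • L.p z + ε' • (L.p u + a • L.p t)) ∧
          ∃ σ : ℝ, (σ = 1 ∨ σ = -1) ∧ ‖N n - σ • crs (L.p w + a' • L.p z) (L.p m)‖ ≤ ε' := by
        intro n hn
        obtain ⟨m, d1, d2, d3, d4, d5, d6, d7, d8, d9, σ, d10, d11⟩ := c2 n hn
        have d1' : m ∈ L.S.erase k := d1
        refine ⟨m, d2, mem_chM.2 ⟨Finset.mem_of_mem_erase d1',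
          ⟨d5, d4, Finset.ne_of_mem_erase d1', d3⟩, chord_gen h a a' hok kw d1' d4 d6⟩,
          ?_, ?_, ?_, σ, d10, ?_⟩
        · rw [dw2, ← hpw]; exact sign_mul_neg sgu h.τw d7
        · rw [dw2, ← hpw]
          apply sign_mul_pos sgu h.τw
          rwa [hpz] at d9
        · rw [dw2, ← hpw, ← hpu]; exact sign_mul_pos sgu h.τw d8
        · rw [hpw, hat_pm a a' d3 d4] at d11; exact d11
      haveI : Nonempty V := ⟨t⟩
      choose! f f1 f2 f3 f4 f5 f6 using c2'
      refine HW ε' hε' (hεlt.trans_le (min_le_right _ _)) (Sym2 V) (Ch w) N f ?_ ?_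
      · intro n hn
        refine ⟨f2 n hn, ?_, f3 n hn, f4 n hn, f5 n hn, f6 n hn⟩
        intro n' hn' hne e
        apply hne
        rw [f1 n hn, f1 n' hn', e]
      · intro n hn n' hn' hne
        obtain ⟨g1, g2, g3⟩ := c3 n hn n' hn' hne
        have e1 : (L.hat t u k w z a a').nor w = -crs (L.p z) (L.p w) := by
          unfold Pg.nor; rw [hsw, hpw, hpz, crs_add_left, crs_swap]
        have e2 : (L.hat t u k w z a a').nor u =
            -crs (L.p w + a' • L.p z) (L.p u + a • L.p t) := by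
          unfold Pg.nor; rw [hsu, hpu, hpw, crs_swap]
        rw [e2, det3_neg_left] at g1
        rw [e1, det3_neg_left] at g2
        exact ⟨neg_ne_zero.1 g2, neg_ne_zero.1 g1, g3⟩

end Pool.Agent.TSM
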