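import Pool.Agent.TSM.VBase2

/-!
# TSM, Part VM, module PREP: ear data from the hypotheses of the ear step
-/

set_option autoImplicit false

namespace Pool.Agent.TSM

open Set Filter Topology Metric

namespace PREP_

variable {V : Type} [DecidableEq V]

theorem per (L : Pg V) (h : L.Ok) (hc : 5 ≤ L.S.card) (x : V) (hx : x ∈ L.S) (j : ℕ)
    (h0 : 0 < j) (h4 : j ≤ 4) : L.s^[j] x ≠ x := by
  intro he
  have hp : Function.IsPeriodicPt L.s j x := he
  have hsub : L.S ⊆ (Finset.range j).image (fun i => L.s^[i] x) := by
    intro y hy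
    obtain ⟨m, rfl⟩ := h.trans x hx y hy
    rw [Finset.mem_image]
    exact ⟨m % j, Finset.mem_range.2 (Nat.mod_lt _ h0), hp.iterate_mod_apply m⟩
  have h1 := Finset.card_le_card hsub
  have h2 : ((Finset.range j).image (fun i => L.s^[i] x)).card ≤ j := by
    simpa using Finset.card_image_le (s := Finset.range j) (f := fun i => L.s^[i] x)
  omega

theorem iter_mem (L : Pg V) (h : L.Ok) (x : V) (hx : x ∈ L.S) (j : ℕ) : L.s^[j] x ∈ L.S := by
  induction j with
  | zero => exact hx
  | succ n ih => rw [Function.iterate_succ_apply']; exact h.maps _ ih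

theorem surj (L : Pg V) (h : L.Ok) (x : V) (hx : x ∈ L.S) : ∃ y ∈ L.S, L.s y = x := by
  obtain ⟨m, hm⟩ := h.trans (L.s x) (h.maps x hx) x hx
  refine ⟨L.s^[m] x, iter_mem L h x hx m, ?_⟩
  exact (Function.iterate_succ_apply' L.s m x).symm.trans hm

theorem det_rel (x y z : E3) (a b : ℝ) (h : a • x + b • y + z = 0) : det3 x y z = 0 := by
  have hi : ∀ i, a * x i + b * y i + z i = 0 := by
    intro i
    have := congrFun (congrArg (fun v : E3 => (v : Fin 3 → ℝ)) h) i
    simpa using this
  have h0 : z 0 = -(a * x 0 + b * y 0) := by linarith [hi 0]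
  have h1 : z 1 = -(a * x 1 + b * y 1) := by linarith [hi 1]
  have h2 : z 2 = -(a * x 2 + b * y 2) := by linarith [hi 2]
  unfold det3
  rw [h0, h1, h2]
  ring

theorem det_rel' (x y z : E3) (a b : ℝ) (h : a • x + b • y + z = 0) : det3 x z y = 0 := by
  have hi : ∀ i, a * x i + b * y i + z i = 0 := by
    intro i
    have := congrFun (congrArg (fun v : E3 => (v : Fin 3 → ℝ)) h) i
    simpa using this
  have h0 : z 0 = -(a * x 0 + b * y 0) := by linarith [hi 0]
  have h1 : z 1 = -(a * x 1 + b * y 1) := by linarith [hi 1]
  have h2 : z 2 = -(a * x 2 + b * y 2) := by linarith [hi 2]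
  unfold det3
  rw [h0, h1, h2]
  ring

end PREP_

open PREP_

theorem prep_proof : Stmt_Prep := by
  intro V _ L u k hok hcard hu hsu hok' hear hturn
  obtain ⟨t, ht, hst⟩ := surj L hok u hu
  have hk : k ∈ L.S := hsu ▸ hok.maps u hu
  obtain ⟨w, hsk⟩ : ∃ w, L.s k = w := ⟨_, rfl⟩
  obtain ⟨z, hsw⟩ : ∃ z, L.s w = z := ⟨_, rfl⟩
  have hw : w ∈ L.S := hsk ▸ hok.maps k hk
  have hz : z ∈ L.S := hsw ▸ hok.maps w hw
  have P := per L hok hcard
  have it1 : ∀ x, L.s^[1] x = L.s x := fun x => rfl
  have it2 : ∀ x, L.s^[2] x = L.s (L.s x) := fun x => rfl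
  have it3 : ∀ x, L.s^[3] x = L.s (L.s (L.s x)) := fun x => rfl
  have it4 : ∀ x, L.s^[4] x = L.s (L.s (L.s (L.s x))) := fun x => rfl
  have tu : t ≠ u := by have := P t ht 1 (by norm_num) (by norm_num); rw [it1, hst] at this; exact this.symm
  have tk : t ≠ k := by
    have := P t ht 2 (by norm_num) (by norm_num); rw [it2, hst, hsu] at this; exact this.symm
  have tw : t ≠ w := by
    have := P t ht 3 (by norm_num) (by norm_num); rw [it3, hst, hsu, hsk] at this; exact this.symm
  have tzz : t ≠ z := by
    have := P t ht 4 (by norm_num) (by norm_num)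
    rw [it4, hst, hsu, hsk, hsw] at this; exact this.symm
  have uk : u ≠ k := by have := P u hu 1 (by norm_num) (by norm_num); rw [it1, hsu] at this; exact this.symm
  have uw : u ≠ w := by
    have := P u hu 2 (by norm_num) (by norm_num); rw [it2, hsu, hsk] at this; exact this.symm
  have uz : u ≠ z := by
    have := P u hu 3 (by norm_num) (by norm_num); rw [it3, hsu, hsk, hsw] at this; exact this.symm
  have kw : k ≠ w := by have := P k hk 1 (by norm_num) (by norm_num); rw [it1, hsk] at this; exact this.symm
  have kz : k ≠ z := by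
    have := P k hk 2 (by norm_num) (by norm_num); rw [it2, hsk, hsw] at this; exact this.symm
  have wz : w ≠ z := by have := P w hw 1 (by norm_num) (by norm_num); rw [it1, hsw] at this; exact this.symm
  have zz : L.s z ≠ z := by have := P z hz 1 (by norm_num) (by norm_num); rwa [it1] at this
  have es : ∀ i, (L.erase k).s i = if L.s i = k then L.s k else L.s i := fun i => rfl
  -- the flat vertex
  have Xk : L.X ≠ some k := by
    intro hX
    rcases hok'.kind with ⟨h, -⟩ | ⟨m, hm, hC⟩
    · have h' : L.X = none := h
      rw [hX] at h'; exact absurd h' (by simp)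
    · have hm' : L.X = some m := hm
      rw [hX] at hm'
      have hkm : k = m := Option.some.inj hm'
      have hmS : m ∈ L.S.erase k := hC.1
      rw [← hkm] at hmS
      exact absurd rfl (Finset.ne_of_mem_erase hmS)
  have Xu : L.X ≠ some u := by
    intro hX
    rcases hok'.kind with ⟨h, -⟩ | ⟨m, hm, hC⟩
    · have h' : L.X = none := h
      rw [hX] at h'; exact absurd h' (by simp)
    · have hm' : L.X = some m := hm
      rw [hX] at hm'
      obtain rfl : u = m := Option.some.inj hm'
      obtain ⟨-, q, hq, hsq, ⟨a, b, ha, hb, hab⟩, -⟩ := hC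
      have hqS : q ∈ L.S := Finset.mem_of_mem_erase hq
      have hsq' : L.s q = u := by
        rw [es] at hsq
        split_ifs at hsq with hc
        · rw [hsk] at hsq; exact absurd hsq.symm uw
        · exact hsq
      obtain rfl : q = t := hok.inj q hqS t ht (hsq'.trans hst.symm)
      have e : (L.erase k).s u = w := by rw [es, if_pos hsu, hsk]
      rw [e] at hab
      have hab' : a • L.p q + b • L.p w + L.p u = 0 := hab
      have hd := det_rel' _ _ _ _ _ hab'
      refine hok.gen q ht u hu w hw tu tw uw ?_ hd
      rintro ⟨m', q', hX', hq', hsq'', hset⟩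
      rw [hX] at hX'
      obtain rfl : u = m' := Option.some.inj hX'
      have : w ∈ ({q', u, L.s u} : Finset V) := by rw [← hset]; simp
      obtain rfl : q' = q := hok.inj q' hq' q ht (hsq''.trans hst.symm)
      rw [hsu] at this
      simp only [Finset.mem_insert, Finset.mem_singleton] at this
      rcases this with h | h | h
      · exact tw h.symm
      · exact uw h.symm
      · exact kw h.symm
  have Xw : L.X ≠ some w := by
    intro hX
    rcases hok'.kind with ⟨h, -⟩ | ⟨m, hm, hC⟩
    · have h' : L.X = none := h
      rw [hX] at h'; exact absurd h' (by simp)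
    · have hm' : L.X = some m := hm
      rw [hX] at hm'
      obtain rfl : w = m := Option.some.inj hm'
      obtain ⟨-, q, hq, hsq, ⟨a, b, ha, hb, hab⟩, -⟩ := hC
      have hqS : q ∈ L.S := Finset.mem_of_mem_erase hq
      have hqk : q ≠ k := Finset.ne_of_mem_erase hq
      have hqu : q = u := by
        rw [es] at hsq
        split_ifs at hsq with hc
        · exact hok.inj q hqS u hu (hc.trans hsu.symm)
        · exact absurd (hok.inj q hqS k hk (hsq.trans hsk.symm)) hqk
      subst hqu
      have e : (L.erase k).s w = z := by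
        rw [es, hsw, if_neg kz.symm]
      rw [e] at hab
      have hab' : a • L.p q + b • L.p z + L.p w = 0 := hab
      have hd := det_rel' _ _ _ _ _ hab'
      refine hok.gen q hu w hw z hz uw uz wz ?_ hd
      rintro ⟨m', q', hX', hq', hsq'', hset⟩
      rw [hX] at hX'
      obtain rfl : w = m' := Option.some.inj hX'
      have : q ∈ ({q', w, L.s w} : Finset V) := by rw [← hset]; simp
      obtain rfl : q' = k := hok.inj q' hq' k hk (hsq''.trans hsk.symm)
      rw [hsw] at this
      simp only [Finset.mem_insert, Finset.mem_singleton] at this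
      rcases this with h | h | h
      · exact uk h
      · exact uw h
      · exact uz h
  have hθu : det3 (L.p t) (L.p u) (L.p k) ≠ 0 := by
    refine hok.gen t ht u hu k hk tu tk uk ?_
    rintro ⟨m, q, hX, hq, hsq, hset⟩
    have hm : m ∈ ({t, u, k} : Finset V) := by rw [hset]; simp
    have hqm : q ∈ ({t, u, k} : Finset V) := by rw [hset]; simp
    simp only [Finset.mem_insert, Finset.mem_singleton] at hm hqm
    rcases hm with rfl | rfl | rfl
    · rcases hqm with rfl | rfl | rfl
      · exact tu (hsq.symm.trans hst)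
      · exact tk (hsq.symm.trans hsu)
      · exact tw (hsq.symm.trans hsk)
    · exact Xu hX
    · exact Xk hX
  have hτu : det3 (L.p t) (L.p u) (L.p w) ≠ 0 := by
    refine hok.gen t ht u hu w hw tu tw uw ?_
    rintro ⟨m, q, hX, hq, hsq, hset⟩
    have hm : m ∈ ({t, u, w} : Finset V) := by rw [hset]; simp
    have hqm : q ∈ ({t, u, w} : Finset V) := by rw [hset]; simp
    simp only [Finset.mem_insert, Finset.mem_singleton] at hm hqm
    rcases hm with rfl | rfl | rfl
    · rcases hqm with rfl | rfl | rfl
      · exact tu (hsq.symm.trans hst)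
      · exact tk (hsq.symm.trans hsu)
      · exact tzz (hsq.symm.trans hsw)
    · exact Xu hX
    · exact Xw hX
  have hθw : det3 (L.p k) (L.p w) (L.p z) ≠ 0 := by
    refine hok.gen k hk w hw z hz kw kz wz ?_
    rintro ⟨m, q, hX, hq, hsq, hset⟩
    have hm : m ∈ ({k, w, z} : Finset V) := by rw [hset]; simp
    have hsm : L.s m ∈ ({k, w, z} : Finset V) := by rw [hset]; simp
    simp only [Finset.mem_insert, Finset.mem_singleton] at hm hsm
    rcases hm with rfl | rfl | rfl
    · exact Xk hX
    · exact Xw hX
    · rcases hsm with h | h | h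
      · exact uz (hok.inj m hz u hu (h.trans hsu.symm)).symm
      · exact kz (hok.inj m hz k hk (h.trans hsk.symm)).symm
      · exact zz h
  have hτw : det3 (L.p u) (L.p w) (L.p z) ≠ 0 := by
    refine hok.gen u hu w hw z hz uw uz wz ?_
    rintro ⟨m, q, hX, hq, hsq, hset⟩
    have hm : m ∈ ({u, w, z} : Finset V) := by rw [hset]; simp
    have hsm : L.s m ∈ ({u, w, z} : Finset V) := by rw [hset]; simp
    simp only [Finset.mem_insert, Finset.mem_singleton] at hm hsm
    rcases hm with rfl | rfl | rfl
    · exact Xu hX
    · exact Xw hX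
    · rcases hsm with h | h | h
      · exact tzz (hok.inj m hz t ht (h.trans hst.symm)).symm
      · exact kz (hok.inj m hz k hk (h.trans hsk.symm)).symm
      · exact zz h
  have hpos : 0 < det3 (L.p u) (L.p k) (L.p w) := by
    have e : L.turn u = det3 (L.p u) (L.p k) (L.p w) := by
      unfold Pg.turn; rw [hsu, hsk]
    rw [← e]; exact hturn
  obtain ⟨hc1, hc2⟩ := hear t ht u hu hst hsu
  rw [hsk] at hc1
  rw [hsk, hsw] at hc2
  refine ⟨t, w, z, ?_⟩
  exact
    { ok := hok
      ok' := hok'
      card := hcard
      memt := ht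
      memu := hu
      memk := hk
      memw := hw
      memz := hz
      st := hst
      su := hsu
      sk := hsk
      sw := hsw
      nodup := by simp [tu, tk, tw, tzz, uk, uw, uz, kw, kz, wz]
      Xu := Xu
      Xk := Xk
      Xw := Xw
      pos := hpos
      θu := hθu
      τu := hτu
      θw := hθw
      τw := hτw
      cu := fun h => by
        have := hc1 (mul_neg_of_pos_of_neg hturn h)
        exact neg_of_mul_neg_right this hturn.le
      cw := fun h => by
        have := hc2 (mul_neg_of_pos_of_neg hturn h)
        exact neg_of_mul_neg_right this hturn.le }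

end Pool.Agent.TSM
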