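import Pool.Agent.TSM.VStmts3
import Pool.Agent.TSC.PSI
import Pool.Agent.TSC.PRE

/-!
# TSM, Part VM, module PSI: the vertical projection from the cone of `L` to the cone of the tilted
rest polygon
-/

set_option autoImplicit false

namespace Pool.Agent.TSM

open Set Filter Topology

namespace PSI_

/-! ### linear algebra -/

theorem cramer3 (a b c v : E3) :
    det3 a b c • v = det3 v b c • a + det3 a v c • b + det3 a b v • c := by
  apply TSC.e3ext <;> simp only [PiLp.add_apply, PiLp.smul_apply, smul_eq_mul, det3] <;> ring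

theorem th_eq {s : ℝ} (p q e v : E3) (hs : s ≠ 0) :
    th e (s • crs p q) v = -(det3 p q v / det3 p q e) := by
  unfold th
  rw [real_inner_smul_left, real_inner_smul_left, crs_eq_inner, crs_eq_inner, ← mul_neg,
    mul_div_mul_left _ _ hs, neg_div]

theorem th_cont (e n : E3) : Continuous (th e n) := by
  unfold th
  fun_prop

theorem th_bd (e n x : E3) : |th e n x| ≤ ‖n‖ / |(inner ℝ n e : ℝ)| * ‖x‖ := by
  unfold th
  rw [abs_div, abs_neg, div_mul_eq_mul_div]
  gcongr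
  exact abs_real_inner_le_norm n x

theorem th_smul (e n x : E3) (d : ℝ) : th e n (d • x) = d * th e n x := by
  unfold th
  rw [inner_smul_right]
  ring

/-- projection along `e` to the plane of `p`, `q` -/
theorem proj {s : ℝ} (p q e v : E3) (hs : s ≠ 0) (h : det3 p q e ≠ 0) :
    v + th e (s • crs p q) v • e =
      (det3 v q e / det3 p q e) • p + (det3 p v e / det3 p q e) • q := by
  have h1 := cramer3 p q e v
  have h2 : v = (det3 p q e)⁻¹ • (det3 p q e • v) := by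
    rw [smul_smul, inv_mul_cancel₀ h, one_smul]
  rw [th_eq p q e v hs]
  have h3 : v + -(det3 p q v / det3 p q e) • e =
      (det3 p q e)⁻¹ • (det3 p q e • v) - (det3 p q e)⁻¹ • (det3 p q v • e) := by
    rw [← h2, smul_smul, inv_mul_eq_div, neg_smul, sub_eq_add_neg]
  rw [h3, h1, ← smul_sub, add_sub_cancel_right, smul_add, smul_smul, smul_smul,
    inv_mul_eq_div, inv_mul_eq_div]

theorem det_e (pt pu pw pk : E3) (x₀ y₀ : ℝ) :
    det3 pt pu (x₀ • pu + y₀ • pw - pk) = y₀ * det3 pt pu pw - det3 pt pu pk := by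
  simp only [det3, PiLp.add_apply, PiLp.sub_apply, PiLp.smul_apply, smul_eq_mul]; ring

/-- the time function at one end -/
noncomputable def TT (s : ℝ) (pt pu pw hu hw e x : E3) : ℝ :=
  if s * det3 pt pu pw < 0 then min (th e (s • crs pt pu) x) (th e (s • crs hu hw) x)
  else max (th e (s • crs pt pu) x) (th e (s • crs hu hw) x)

theorem TT_cont (s : ℝ) (pt pu pw hu hw e : E3) : Continuous (TT s pt pu pw hu hw e) := by
  unfold TT
  split_ifs
  · exact (th_cont _ _).min (th_cont _ _)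
  · exact (th_cont _ _).max (th_cont _ _)

theorem TT_bd (s : ℝ) (pt pu pw hu hw e : E3) : ∃ C : ℝ, 0 ≤ C ∧ ∀ x : E3,
    |TT s pt pu pw hu hw e x| ≤ C * ‖x‖ := by
  refine ⟨‖s • crs pt pu‖ / |(inner ℝ (s • crs pt pu) e : ℝ)| +
    ‖s • crs hu hw‖ / |(inner ℝ (s • crs hu hw) e : ℝ)|, by positivity, fun x => ?_⟩
  have h1 := th_bd e (s • crs pt pu) x
  have h2 := th_bd e (s • crs hu hw) x
  have h3 : (0:ℝ) ≤ ‖s • crs pt pu‖ / |(inner ℝ (s • crs pt pu) e : ℝ)| * ‖x‖ := by positivity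
  have h4 : (0:ℝ) ≤ ‖s • crs hu hw‖ / |(inner ℝ (s • crs hu hw) e : ℝ)| * ‖x‖ := by positivity
  rw [add_mul]
  unfold TT
  split_ifs
  · rcases min_choice (th e (s • crs pt pu) x) (th e (s • crs hu hw) x) with h | h <;> rw [h] <;>
      linarith
  · rcases max_choice (th e (s • crs pt pu) x) (th e (s • crs hu hw) x) with h | h <;> rw [h] <;>
      linarith

/-- the conditions at one end -/
structure EC (s σ κ a δ : ℝ) (pt pu pk pw hu hw e : E3) : Prop where
  ss : s ≠ 0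
  sig : (σ = -1 ∧ s * det3 pt pu pw < 0) ∨ (σ = 1 ∧ 0 < s * det3 pt pu pw)
  eu : hu = pu + a • pt
  gP : 0 < s * det3 pt pu e
  gQ : 0 < s * det3 hu hw e
  Qt : 0 < σ * (s * det3 hu hw pt)
  Pw : 0 < σ * (s * det3 pt pu hw)
  Qk : 0 < σ * (th e (s • crs hu hw) pk - th e (s • crs pt pu) pk)
  del : 0 < δ
  c1 : |a| ≤ δ
  c3 : |a| * |det3 pt hw e / det3 hu hw e| < det3 pu hw e / det3 hu hw e
  c4 : 0 < det3 pk hw e / det3 hu hw e
  kap : 0 < κ
  Ak : det3 pk pu e / det3 pt pu e = -κ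
  c5 : |a| * |det3 pt pk e / det3 pt pu e| ≤ κ / 4

variable {s σ κ a δ : ℝ} {pt pu pk pw hu hw e : E3}

theorem EC.TT_P (h : EC s σ κ a δ pt pu pk pw hu hw e) {x : E3}
    (h1 : 0 ≤ σ * (th e (s • crs pt pu) x - th e (s • crs hu hw) x)) :
    TT s pt pu pw hu hw e x = th e (s • crs pt pu) x := by
  unfold TT
  rcases h.sig with ⟨h2, h3⟩ | ⟨h2, h3⟩
  · rw [if_pos h3]
    rw [h2] at h1
    exact min_eq_left (by linarith)
  · rw [if_neg (not_lt.2 h3.le)]
    rw [h2] at h1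
    exact max_eq_left (by linarith)

theorem EC.TT_Q (h : EC s σ κ a δ pt pu pk pw hu hw e) {x : E3}
    (h1 : 0 ≤ σ * (th e (s • crs hu hw) x - th e (s • crs pt pu) x)) :
    TT s pt pu pw hu hw e x = th e (s • crs hu hw) x := by
  unfold TT
  rcases h.sig with ⟨h2, h3⟩ | ⟨h2, h3⟩
  · rw [if_pos h3]
    rw [h2] at h1
    exact min_eq_right (by linarith)
  · rw [if_neg (not_lt.2 h3.le)]
    rw [h2] at h1
    exact max_eq_right (by linarith)

/-- values on the old face -/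
theorem EC.th_old (h : EC s σ κ a δ pt pu pk pw hu hw e) (a₁ c : ℝ) :
    th e (s • crs pt pu) (a₁ • pt + c • pu) = 0 ∧
    th e (s • crs hu hw) (a₁ • pt + c • pu) =
      -((a₁ - a * c) * (det3 hu hw pt / det3 hu hw e)) := by
  constructor
  · rw [th_eq _ _ _ _ h.ss, TSC.det3_add3, TSC.det3_smul3, TSC.det3_smul3, TSC.det3_self13,
      TSC.det3_self23]
    simp
  · rw [th_eq _ _ _ _ h.ss, TSC.det3_add3, TSC.det3_smul3, TSC.det3_smul3]
    have h1 : det3 hu hw pu = -(a * det3 hu hw pt) := by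
      have h2 : det3 hu hw hu = 0 := TSC.det3_self13 _ _
      have h3 : det3 hu hw (pu + a • pt) = 0 := by rw [← h.eu]; exact h2
      rw [TSC.det3_add3, TSC.det3_smul3] at h3
      linarith
    rw [h1]
    ring

/-- (A) -/
theorem EC.zero (h : EC s σ κ a δ pt pu pk pw hu hw e) {a₁ c : ℝ} (h1 : a * c ≤ a₁) :
    TT s pt pu pw hu hw e (a₁ • pt + c • pu) = 0 := by
  obtain ⟨h2, h3⟩ := h.th_old a₁ c
  rw [h.TT_P, h2]
  rw [h2, h3]
  have h4 : 0 < σ * (det3 hu hw pt / det3 hu hw e) := by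
    have h5 := div_pos h.Qt h.gQ
    rwa [mul_div_assoc, mul_div_mul_left _ _ h.ss] at h5
  have h6 : 0 ≤ (a₁ - a * c) * (σ * (det3 hu hw pt / det3 hu hw e)) :=
    mul_nonneg (by linarith) h4.le
  calc (0:ℝ) ≤ _ := h6
    _ = _ := by ring

/-- (B) -/
theorem EC.ray (h : EC s σ κ a δ pt pu pk pw hu hw e) {d : ℝ} (hd : 0 ≤ d) :
    TT s pt pu pw hu hw e (d • pk) = th e (s • crs hu hw) (d • pk) := by
  apply h.TT_Q
  rw [th_smul, th_smul]
  have := mul_nonneg hd h.Qk.le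
  calc (0:ℝ) ≤ _ := this
    _ = _ := by ring

/-- (C) -/
theorem EC.loc (h : EC s σ κ a δ pt pu pk pw hu hw e) : ∃ C : ℝ, ∀ a₁ c d : ℝ, 0 ≤ a₁ →
    0 ≤ c → 0 ≤ d → ((d = 0 ∧ a₁ ≤ δ * c) ∨ a₁ = 0) → ∀ x : E3,
    x = a₁ • pt + c • pu + d • pk →
    x + TT s pt pu pw hu hw e x • e ∈ zP pt hu (2 * δ) ∨
    x + TT s pt pu pw hu hw e x • e ∈ zP hw hu C := by
  have hP : det3 pt pu e ≠ 0 := fun h0 => by
    have := h.gP
    rw [h0, mul_zero] at this
    exact lt_irrefl _ this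
  have hQ : det3 hu hw e ≠ 0 := fun h0 => by
    have := h.gQ
    rw [h0, mul_zero] at this
    exact lt_irrefl _ this
  have hδ := h.del
  set α : E3 → ℝ := fun v => det3 v hw e / det3 hu hw e with hα
  set β : E3 → ℝ := fun v => det3 hu v e / det3 hu hw e with hβ
  have hm1 : 0 < α pu - |a| * |α pt| := by
    have := h.c3
    simp only [hα]
    linarith
  have hm2 : 0 < α pk := h.c4
  set m : ℝ := min (α pu - |a| * |α pt|) (α pk) with hm
  have hm0 : 0 < m := lt_min hm1 hm2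
  set M : ℝ := |a| * |β pt| + |β pu| + |β pk| with hM
  have hM0 : 0 ≤ M := by positivity
  refine ⟨M / m, fun a₁ c d ha₁ hc hd hcase x hx => ?_⟩
  -- the two branches
  by_cases hbr : 0 ≤ σ * (th e (s • crs pt pu) x - th e (s • crs hu hw) x)
  · -- the P branch
    left
    rw [h.TT_P hbr, proj pt pu e x h.ss hP]
    set A : ℝ := det3 x pu e / det3 pt pu e with hA
    set B : ℝ := det3 pt x e / det3 pt pu e with hB
    have eA : A = a₁ - κ * d := by
      rw [hA, hx, TSC.det3_add1, TSC.det3_add1, TSC.det3_smul1, TSC.det3_smul1, TSC.det3_smul1,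
        TSC.det3_self12, mul_zero, add_zero, add_div, mul_div_assoc, mul_div_assoc, div_self hP,
        h.Ak]
      ring
    have eB : B = c + d * (det3 pt pk e / det3 pt pu e) := by
      rw [hB, hx, TSC.det3_add2, TSC.det3_add2, TSC.det3_smul2, TSC.det3_smul2, TSC.det3_smul2,
        TSC.det3_self12, mul_zero, zero_add, add_div, mul_div_assoc, mul_div_assoc, div_self hP]
      ring
    have eQ : σ * (s * det3 hu hw pt) * (A - a * B) =
        (s * det3 hu hw e) * (σ * (th e (s • crs pt pu) x - th e (s • crs hu hw) x)) := by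
      have h1 : det3 hu hw (x + th e (s • crs pt pu) x • e) = det3 hu hw pt * (A - a * B) := by
        rw [proj pt pu e x h.ss hP, ← hA, ← hB]
        have h2 : A • pt + B • pu = (A - a * B) • pt + B • hu := by
          rw [h.eu]; module
        rw [h2, TSC.det3_add3, TSC.det3_smul3, TSC.det3_smul3, TSC.det3_self13]
        ring
      have h3 : det3 hu hw x = -(det3 hu hw e * th e (s • crs hu hw) x) := by
        rw [th_eq _ _ _ _ h.ss]
        field_simp
      rw [TSC.det3_add3, TSC.det3_smul3, h3] at h1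
      calc _ = σ * s * (det3 hu hw pt * (A - a * B)) := by ring
        _ = _ := by rw [← h1]; ring
    have hAB : 0 ≤ A - a * B := by
      by_contra hcon
      have h1 := mul_neg_of_pos_of_neg h.Qt (not_le.1 hcon)
      rw [eQ] at h1
      have h2 := mul_nonneg h.gQ.le hbr
      linarith
    -- bounds
    have hB0 : 0 ≤ B := by
      rcases hcase with ⟨h1, h2⟩ | h1
      · rw [eB, h1, zero_mul, add_zero]; exact hc
      · rw [h1] at eA
        have k1 : κ * d ≤ |a| * |B| := by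
          have h2 : κ * d ≤ -(a * B) := by linarith
          have h3 : -(a * B) ≤ |a * B| := neg_le_abs _
          rw [abs_mul] at h3
          linarith
        have k2 : |B| ≤ c + d * |det3 pt pk e / det3 pt pu e| := by
          rw [eB]
          refine (abs_add_le _ _).trans ?_
          rw [abs_mul, abs_of_nonneg hc, abs_of_nonneg hd]
        have k3 : |a| * |B| ≤ |a| * c + d * (κ / 4) := by
          have h2 := mul_le_mul_of_nonneg_left k2 (abs_nonneg a)
          have h3 := mul_le_mul_of_nonneg_left h.c5 hd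
          calc _ ≤ _ := h2
            _ = |a| * c + d * (|a| * |det3 pt pk e / det3 pt pu e|) := by ring
            _ ≤ _ := by linarith
        have k4 : κ * d ≤ (4 / 3) * (|a| * c) := by linarith
        have k5 : κ * (d * |det3 pt pk e / det3 pt pu e|) ≤ κ * (c / 3) := by
          calc κ * (d * |det3 pt pk e / det3 pt pu e|) =
              (κ * d) * |det3 pt pk e / det3 pt pu e| := by ring
            _ ≤ ((4 / 3) * (|a| * c)) * |det3 pt pk e / det3 pt pu e| :=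
              mul_le_mul_of_nonneg_right k4 (abs_nonneg _)
            _ = (4 / 3) * c * (|a| * |det3 pt pk e / det3 pt pu e|) := by ring
            _ ≤ (4 / 3) * c * (κ / 4) := mul_le_mul_of_nonneg_left h.c5 (by positivity)
            _ = _ := by ring
        have k6 := le_of_mul_le_mul_left k5 h.kap
        have k7 : -(d * |det3 pt pk e / det3 pt pu e|) ≤ d * (det3 pt pk e / det3 pt pu e) := by
          have := mul_le_mul_of_nonneg_left (neg_abs_le (det3 pt pk e / det3 pt pu e)) hd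
          linarith
        rw [eB]
        linarith
    have hABu : A - a * B ≤ 2 * δ * B := by
      have h3 : -(a * B) ≤ |a| * B := by
        have := mul_le_mul_of_nonneg_right (neg_le_abs a) hB0
        linarith
      have h4 : |a| * B ≤ δ * B := mul_le_mul_of_nonneg_right h.c1 hB0
      rcases hcase with ⟨h1, h2⟩ | h1
      · rw [h1] at eA eB
        have h5 : A ≤ δ * B := by
          rw [eA, eB]; linarith
        linarith
      · rw [h1] at eA
        have h5 : A ≤ 0 := by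
          rw [eA]; have := mul_nonneg h.kap.le hd; linarith
        have h6 : 0 ≤ δ * B := mul_nonneg hδ.le hB0
        linarith
    refine ⟨A - a * B, B, hAB, hB0, hABu, ?_⟩
    rw [h.eu]; module
  · -- the Q branch
    right
    have hbr' : 0 ≤ σ * (th e (s • crs hu hw) x - th e (s • crs pt pu) x) := by
      have := (not_le.1 hbr).le
      linarith
    rw [h.TT_Q hbr', proj hu hw e x h.ss hQ]
    have eα : det3 x hw e / det3 hu hw e = a₁ * α pt + c * α pu + d * α pk := by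
      simp only [hα]
      rw [hx, TSC.det3_add1, TSC.det3_add1, TSC.det3_smul1, TSC.det3_smul1, TSC.det3_smul1]
      ring
    have eβ : det3 hu x e / det3 hu hw e = a₁ * β pt + c * β pu + d * β pk := by
      simp only [hβ]
      rw [hx, TSC.det3_add2, TSC.det3_add2, TSC.det3_smul2, TSC.det3_smul2, TSC.det3_smul2]
      ring
    -- on the old face the Q branch means `a₁ ≤ |a| c`
    have ha1 : a₁ ≤ |a| * c := by
      rcases hcase with ⟨h1, h2⟩ | h1
      · by_contra hcon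
        have h3 : a * c ≤ a₁ := by
          have := mul_le_mul_of_nonneg_right (le_abs_self a) hc
          linarith
        rw [h1, zero_smul, add_zero] at hx
        apply hbr
        obtain ⟨h4, h5⟩ := h.th_old a₁ c
        rw [hx, h4, h5]
        have h6 : 0 < σ * (det3 hu hw pt / det3 hu hw e) := by
          have h5 := div_pos h.Qt h.gQ
          rwa [mul_div_assoc, mul_div_mul_left _ _ h.ss] at h5
        have h7 : 0 ≤ (a₁ - a * c) * (σ * (det3 hu hw pt / det3 hu hw e)) :=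
          mul_nonneg (by linarith) h6.le
        calc (0:ℝ) ≤ _ := h7
          _ = _ := by ring
      · rw [h1]; positivity
    have hβ0 : 0 ≤ det3 hu x e / det3 hu hw e := by
      set b : ℝ := det3 hu x e / det3 hu hw e with hb
      have eP : σ * (s * det3 pt pu hw) * b =
          (s * det3 pt pu e) * (σ * (th e (s • crs hu hw) x - th e (s • crs pt pu) x)) := by
        have h1 : det3 pt pu (x + th e (s • crs hu hw) x • e) = b * det3 pt pu hw := by
          rw [proj hu hw e x h.ss hQ, ← hb, TSC.det3_add3, TSC.det3_smul3, TSC.det3_smul3, h.eu,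
            TSC.det3_add3, TSC.det3_smul3, TSC.det3_self13, TSC.det3_self23]
          ring
        have h3 : det3 pt pu x = -(det3 pt pu e * th e (s • crs pt pu) x) := by
          rw [th_eq _ _ _ _ h.ss]
          field_simp
        rw [TSC.det3_add3, TSC.det3_smul3, h3] at h1
        calc _ = σ * s * (b * det3 pt pu hw) := by ring
          _ = _ := by rw [← h1]; ring
      by_contra hcon
      have h1 := mul_neg_of_pos_of_neg h.Pw (not_le.1 hcon)
      rw [eP] at h1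
      have h2 := mul_nonneg h.gP.le hbr'
      linarith
    have hαm : m * (c + d) ≤ det3 x hw e / det3 hu hw e := by
      rw [eα]
      have h1 : -(|a| * c * |α pt|) ≤ a₁ * α pt := by
        have h2 : -(a₁ * |α pt|) ≤ a₁ * α pt := by
          have := mul_le_mul_of_nonneg_left (neg_abs_le (α pt)) ha₁
          linarith
        have h3 := mul_le_mul_of_nonneg_right ha1 (abs_nonneg (α pt))
        linarith
      have h2 : m * c ≤ (α pu - |a| * |α pt|) * c :=
        mul_le_mul_of_nonneg_right (min_le_left _ _) hc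
      have h3 : m * d ≤ α pk * d := mul_le_mul_of_nonneg_right (min_le_right _ _) hd
      linarith
    have hβM : det3 hu x e / det3 hu hw e ≤ M * (c + d) := by
      rw [eβ]
      have h1 : a₁ * β pt ≤ |a| * c * |β pt| := by
        have h2 : a₁ * β pt ≤ a₁ * |β pt| := mul_le_mul_of_nonneg_left (le_abs_self _) ha₁
        have h3 := mul_le_mul_of_nonneg_right ha1 (abs_nonneg (β pt))
        linarith
      have h2 : c * β pu ≤ c * |β pu| := mul_le_mul_of_nonneg_left (le_abs_self _) hc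
      have h3 : d * β pk ≤ d * |β pk| := mul_le_mul_of_nonneg_left (le_abs_self _) hd
      have h4 : 0 ≤ |a| * |β pt| * d := by positivity
      have h5 : 0 ≤ |β pu| * d := by positivity
      have h6 : 0 ≤ |β pk| * c := by positivity
      rw [hM]
      linarith
    have hα0 : 0 ≤ det3 x hw e / det3 hu hw e := le_trans (by positivity) hαm
    refine ⟨det3 hu x e / det3 hu hw e, det3 x hw e / det3 hu hw e, hβ0, hα0, ?_, ?_⟩
    · refine hβM.trans ?_
      have h1 : M * (c + d) = M / m * (m * (c + d)) := by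
        field_simp
      rw [h1]
      exact mul_le_mul_of_nonneg_left hαm (by positivity)
    · rw [add_comm]

theorem ev_end {s : ℝ} (hs : s = 1 ∨ s = -1) {pt pu pk pw pz e : E3} {x₀ y₀ δ : ℝ}
    (hδ : 0 < δ) (hx : 0 < x₀) (hy : 0 < y₀) (he : e = x₀ • pu + y₀ • pw - pk)
    (hlam : 0 < s * det3 pu pk pw) (hτ : s * det3 pt pu pw ≠ 0)
    (heu : 0 < y₀ * (s * det3 pt pu pw) - s * det3 pt pu pk) :
    ∀ᶠ q : ℝ × ℝ in 𝓝 (0, 0), ∀ hu hw : E3, hu = pu + q.1 • pt → hw = pw + q.2 • pz →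
      ∀ (ι : Type) [DecidableEq ι] (N : ι → E3) (ε : ℝ),
      (mkE s pt pu pk pw hu hw e ∅ N).Num ε δ →
      ∃ σ κ : ℝ, EC s σ κ q.1 δ pt pu pk pw hu hw e := by
  have hs0 : s ≠ 0 := by rcases hs with h | h <;> rw [h] <;> norm_num
  have e1 : det3 pt pu e = y₀ * det3 pt pu pw - det3 pt pu pk := by rw [he]; exact det_e _ _ _ _ _ _
  have e2 : det3 pk pu e = -(y₀ * det3 pu pk pw) := by
    rw [he]
    simp only [det3, PiLp.add_apply, PiLp.sub_apply, PiLp.smul_apply, smul_eq_mul]; ring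
  have e3 : det3 pu pw e = det3 pu pk pw := by
    rw [he]
    simp only [det3, PiLp.add_apply, PiLp.sub_apply, PiLp.smul_apply, smul_eq_mul]; ring
  have e4 : det3 pk pw e = x₀ * det3 pu pk pw := by
    rw [he]
    simp only [det3, PiLp.add_apply, PiLp.sub_apply, PiLp.smul_apply, smul_eq_mul]; ring
  have hg : 0 < s * det3 pt pu e := by rw [e1]; linarith
  set κ : ℝ := y₀ * det3 pu pk pw / det3 pt pu e with hκd
  have hκ : 0 < κ := by
    have h1 : κ = y₀ * (s * det3 pu pk pw) / (s * det3 pt pu e) := by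
      rw [hκd, mul_left_comm, mul_div_mul_left _ _ hs0]
    rw [h1]
    positivity
  have hAk : det3 pk pu e / det3 pt pu e = -κ := by rw [e2, neg_div]
  have hl0 : det3 pu pk pw ≠ 0 := fun h => by rw [h, mul_zero] at hlam; exact lt_irrefl _ hlam
  -- the sign
  obtain ⟨σ, hσ⟩ : ∃ σ : ℝ, (σ = -1 ∧ s * det3 pt pu pw < 0) ∨ (σ = 1 ∧ 0 < s * det3 pt pu pw) := by
    rcases lt_or_gt_of_ne hτ with h | h
    · exact ⟨-1, Or.inl ⟨rfl, h⟩⟩
    · exact ⟨1, Or.inr ⟨rfl, h⟩⟩
  have hστ : 0 < σ * (s * det3 pt pu pw) := by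
    rcases hσ with ⟨h1, h2⟩ | ⟨h1, h2⟩ <;> rw [h1] <;> linarith
  -- continuity
  have cQ : Continuous fun q : ℝ × ℝ => det3 (pu + q.1 • pt) (pw + q.2 • pz) e := by
    unfold det3; fun_prop
  have cv : ∀ v : E3, Continuous fun q : ℝ × ℝ => det3 v (pw + q.2 • pz) e := fun v => by
    unfold det3; fun_prop
  have cP : Continuous fun q : ℝ × ℝ => σ * (s * det3 pt pu (pw + q.2 • pz)) := by
    unfold det3; fun_prop
  have vQ : det3 (pu + (0:ℝ) • pt) (pw + (0:ℝ) • pz) e = det3 pu pk pw := by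
    rw [zero_smul, zero_smul, add_zero, add_zero, e3]
  have f1 : ∀ᶠ q : ℝ × ℝ in 𝓝 (0, 0), 0 < σ * (s * det3 pt pu (pw + q.2 • pz)) := by
    apply cP.continuousAt.eventually (lt_mem_nhds _)
    change 0 < σ * (s * det3 pt pu (pw + (0:ℝ) • pz))
    rw [zero_smul, add_zero]; exact hστ
  have f2 : ∀ᶠ q : ℝ × ℝ in 𝓝 (0, 0), |q.1| < δ := by
    have hc : Continuous fun q : ℝ × ℝ => |q.1| := by fun_prop
    apply hc.continuousAt.eventually (gt_mem_nhds _)
    simpa using hδ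
  have f5 : ∀ᶠ q : ℝ × ℝ in 𝓝 (0, 0), |q.1| * |det3 pt pk e / det3 pt pu e| < κ / 4 := by
    have hc : Continuous fun q : ℝ × ℝ => |q.1| * |det3 pt pk e / det3 pt pu e| := by fun_prop
    apply hc.continuousAt.eventually (gt_mem_nhds _)
    simp only [abs_zero, zero_mul]
    positivity
  have dv : ∀ v : E3, ContinuousAt (fun q : ℝ × ℝ => det3 v (pw + q.2 • pz) e /
      det3 (pu + q.1 • pt) (pw + q.2 • pz) e) (0, 0) := fun v => by
    apply (cv v).continuousAt.div cQ.continuousAt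
    change det3 (pu + (0:ℝ) • pt) (pw + (0:ℝ) • pz) e ≠ 0
    rw [vQ]; exact hl0
  have f4 : ∀ᶠ q : ℝ × ℝ in 𝓝 (0, 0), 0 < det3 pk (pw + q.2 • pz) e /
      det3 (pu + q.1 • pt) (pw + q.2 • pz) e := by
    apply (dv pk).eventually (lt_mem_nhds _)
    change 0 < det3 pk (pw + (0:ℝ) • pz) e / det3 (pu + (0:ℝ) • pt) (pw + (0:ℝ) • pz) e
    rw [vQ, zero_smul, add_zero, e4, mul_div_assoc, div_self hl0, mul_one]
    exact hx
  have f3 : ∀ᶠ q : ℝ × ℝ in 𝓝 (0, 0), 0 < det3 pu (pw + q.2 • pz) e /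
      det3 (pu + q.1 • pt) (pw + q.2 • pz) e - |q.1| * |det3 pt (pw + q.2 • pz) e /
      det3 (pu + q.1 • pt) (pw + q.2 • pz) e| := by
    have hc : ContinuousAt (fun q : ℝ × ℝ => det3 pu (pw + q.2 • pz) e /
      det3 (pu + q.1 • pt) (pw + q.2 • pz) e - |q.1| * |det3 pt (pw + q.2 • pz) e /
      det3 (pu + q.1 • pt) (pw + q.2 • pz) e|) (0, 0) := by
      apply (dv pu).sub
      apply ContinuousAt.mul
      · exact (continuous_fst.abs).continuousAt
      · exact (dv pt).abs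
    apply hc.eventually (lt_mem_nhds _)
    change 0 < det3 pu (pw + (0:ℝ) • pz) e / det3 (pu + (0:ℝ) • pt) (pw + (0:ℝ) • pz) e -
      |(0:ℝ)| * |det3 pt (pw + (0:ℝ) • pz) e / det3 (pu + (0:ℝ) • pt) (pw + (0:ℝ) • pz) e|
    rw [vQ, zero_smul, add_zero, e3, div_self hl0, abs_zero, zero_mul, sub_zero]
    exact one_pos
  filter_upwards [f1, f2, f3, f4, f5] with q g1 g2 g3 g4 g5
  intro hu hw hhu hhw ι _ N ε hN
  refine ⟨σ, κ, ?_⟩
  rw [← hhu, ← hhw] at g3 g4
  rw [← hhw] at g1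
  have kP : (mkE s pt pu pk pw hu hw e ∅ N).G none = s • crs pt pu := rfl
  have kQ : (mkE s pt pu pk pw hu hw e ∅ N).G (some none) = s • crs hu hw := rfl
  have mQ : (some none : Option (Option ι)) ∈ (mkE s pt pu pk pw hu hw e ∅ N).J := hN.memQ
  have mP : (none : Option (Option ι)) ∈ (mkE s pt pu pk pw hu hw e ∅ N).J := hN.memP
  have gP : 0 < s * det3 pt pu e := hg
  have gQ : 0 < s * det3 hu hw e := by
    have h1 : 0 < (inner ℝ (s • crs hu hw) e : ℝ) := hN.posG _ mQ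
    rwa [real_inner_smul_left, crs_eq_inner] at h1
  have neQP : (some none : Option (Option ι)) ≠ none := by simp
  have nePQ : (none : Option (Option ι)) ≠ some none := by simp
  have Qt : 0 < σ * (s * det3 hu hw pt) := by
    have hpt : (inner ℝ (s • crs hu hw) pt : ℝ) = s * det3 hu hw pt := by
      rw [real_inner_smul_left, crs_eq_inner]
    rcases hσ with ⟨h1, h2⟩ | ⟨h1, h2⟩
    · have h3 := (hN.t1 h2 _ mQ neQP).2.1
      have h4 : (inner ℝ (s • crs hu hw) pt : ℝ) < 0 := h3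
      rw [hpt] at h4
      rw [h1]; linarith
    · have h5 : s * det3 pt pu pk < 0 ∨ 0 < s * det3 pt pu pk := lt_or_gt_of_ne hN.θne
      rcases h5 with h5 | h5
      · have h4 : 0 < (inner ℝ (s • crs hu hw) pt : ℝ) := (hN.t2 h2 h5 _ mQ neQP).2
        rw [hpt] at h4
        rw [h1]; linarith
      · have h4 : 0 < (inner ℝ (s • crs hu hw) pt : ℝ) := (hN.t3 h5 _ mQ neQP).2.1
        rw [hpt] at h4
        rw [h1]; linarith
  have Qk : 0 < σ * (th e (s • crs hu hw) pk - th e (s • crs pt pu) pk) := by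
    rcases hσ with ⟨h1, h2⟩ | ⟨h1, h2⟩
    · have h3 : th e (s • crs hu hw) pk < th e (s • crs pt pu) pk :=
        ((hN.t1' h2).2 _ mP nePQ).2
      rw [h1]; linarith
    · have h3 : th e (s • crs pt pu) pk < th e (s • crs hu hw) pk :=
        (hN.t23 h2 _ mP nePQ).2
      rw [h1]; linarith
  exact { ss := hs0, sig := hσ, eu := hhu, gP := gP, gQ := gQ, Qt := Qt, Pw := g1, Qk := Qk,
          del := hδ, c1 := g2.le, c3 := by linarith, c4 := g4, kap := hκ, Ak := hAk, c5 := g5.le }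

/-- vectors in a plane transversal to `e` are controlled by their projections -/
theorem norm_plane {n e x : E3} (hn : 0 < (inner ℝ n e : ℝ)) (hx : (inner ℝ n x : ℝ) = 0)
    (r : ℝ) : ‖x‖ ≤ (1 + ‖n‖ * ‖e‖ / (inner ℝ n e : ℝ)) * ‖x + r • e‖ := by
  have h1 : (inner ℝ n (x + r • e) : ℝ) = r * (inner ℝ n e : ℝ) := by
    rw [inner_add_right, inner_smul_right, hx, zero_add]
  have h2 : |r| * (inner ℝ n e : ℝ) ≤ ‖n‖ * ‖x + r • e‖ := by
    have h3 := abs_real_inner_le_norm n (x + r • e)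
    rw [h1, abs_mul, abs_of_pos hn] at h3
    exact h3
  have h3 : |r| ≤ ‖n‖ * ‖x + r • e‖ / (inner ℝ n e : ℝ) := by
    rw [le_div_iff₀ hn]; exact h2
  have h4 : ‖x‖ ≤ ‖x + r • e‖ + |r| * ‖e‖ := by
    have h5 : x = (x + r • e) - r • e := by abel
    calc ‖x‖ = ‖(x + r • e) - r • e‖ := by rw [← h5]
      _ ≤ ‖x + r • e‖ + ‖r • e‖ := norm_sub_le _ _
      _ = _ := by rw [norm_smul, Real.norm_eq_abs]
  have h6 : |r| * ‖e‖ ≤ ‖n‖ * ‖x + r • e‖ / (inner ℝ n e : ℝ) * ‖e‖ :=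
    mul_le_mul_of_nonneg_right h3 (norm_nonneg _)
  calc ‖x‖ ≤ ‖x + r • e‖ + ‖n‖ * ‖x + r • e‖ / (inner ℝ n e : ℝ) * ‖e‖ := by linarith
    _ = _ := by ring

theorem th_swap (hu hw e v : E3) : th e ((1:ℝ) • crs hu hw) v = th e ((-1:ℝ) • crs hw hu) v := by
  rw [th_eq _ _ _ _ one_ne_zero, th_eq _ _ _ _ (by norm_num), TSC.det3_swap hu hw v,
    TSC.det3_swap hu hw e, neg_div_neg_eq]

theorem zP_mono {p q : E3} {δ δ' : ℝ} (h : δ ≤ δ') : zP p q δ ⊆ zP p q δ' := by
  rintro x ⟨a, c, ha, hc, hac, rfl⟩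
  exact ⟨a, c, ha, hc, hac.trans (mul_le_mul_of_nonneg_right h hc), rfl⟩

/-- comparison of coordinates with the tilted arm -/
theorem tilt_coord {p q : E3} (h : crs p q ≠ 0) {a x y x' y' : ℝ}
    (he : x • p + y • (q + a • p) = x' • p + y' • (q + a • p)) : x = x' ∧ y = y' := by
  have h1 : (x + y * a) • p + y • q = (x' + y' * a) • p + y' • q := by
    calc _ = x • p + y • (q + a • p) := by module
      _ = x' • p + y' • (q + a • p) := he
      _ = _ := by module
  obtain ⟨h2, h3⟩ := TSC.PSI_.co_inj h h1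
  rw [h3] at h2
  exact ⟨by linarith, h3⟩

variable {V : Type} [DecidableEq V] {L : Pg V} {t u k w z : V}

theorem assemble {x₀ y₀ : ℝ} (hE : L.Ear t u k w z) (hEe : L.EarE t u k w z x₀ y₀)
    {a a' δ σ σ' κ κ' : ℝ} (hok : (L.hat t u k w z a a').Ok)
    (EU : EC 1 σ κ a δ (L.p t) (L.p u) (L.p k) (L.p w) (L.p u + a • L.p t)
      (L.p w + a' • L.p z) (L.ee u k w x₀ y₀))
    (EW : EC (-1) σ' κ' a' δ (L.p z) (L.p w) (L.p k) (L.p u) (L.p w + a' • L.p z)
      (L.p u + a • L.p t) (L.ee u k w x₀ y₀))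
    (V3 : L.Vinj t u k w z (L.ee u k w x₀ y₀) (3 * δ)) :
    ∃ (C : ℝ) (Ψ : E3 → E3), L.PsiOK t u k w z (L.ee u k w x₀ y₀) δ a a' C Ψ := by
  obtain ⟨pr, hpr⟩ := TSC.PRE_proof V L hE.ok
  have hnd := hE.nodup
  simp only [List.nodup_cons, List.mem_cons, List.not_mem_nil, or_false, not_or,
    List.nodup_nil, and_true, not_false_eq_true] at hnd
  obtain ⟨⟨ntu, ntk, ntw, ntz⟩, ⟨nuk, nuw, nuz⟩, ⟨nkw, nkz⟩, nwz⟩ := hnd
  rw [← ne_eq] at ntu ntk ntw ntz nuk nuw nuz nkw nkz nwz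
  have hδ : 0 < δ := EU.del
  set e : E3 := L.ee u k w x₀ y₀ with he
  set hu : E3 := L.p u + a • L.p t with hhu
  set hw : E3 := L.p w + a' • L.p z with hhw
  set TU : E3 → ℝ := TT 1 (L.p t) (L.p u) (L.p w) hu hw e with hTU
  set TW : E3 → ℝ := TT (-1) (L.p z) (L.p w) (L.p u) hw hu e with hTW
  set H : Pg V := L.hat t u k w z a a' with hH
  have sinj : ∀ i ∈ L.S, ∀ j ∈ L.S, L.s i = L.s j → i = j := hE.ok.inj
  have ac : ∀ c : ℝ, 0 ≤ c → a * c ≤ δ * c := fun c hc =>
    mul_le_mul_of_nonneg_right ((le_abs_self a).trans EU.c1) hc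
  have ac' : ∀ c : ℝ, 0 ≤ c → a' * c ≤ δ * c := fun c hc =>
    mul_le_mul_of_nonneg_right ((le_abs_self a').trans EW.c1) hc
  -- independence
  have it : crs (L.p t) (L.p u) ≠ 0 := by
    have := TSC.PSI_.nor_ne hE.ok hpr hE.memt
    rwa [hE.st] at this
  have iw : crs (L.p z) (L.p w) ≠ 0 := by
    have := TSC.PSI_.nor_ne hE.ok hpr hE.memw
    rw [hE.sw] at this
    rw [TSC.crs_anti]
    exact neg_ne_zero.2 this
  -- the time function on the faces
  let T : V → E3 → ℝ := fun i => if i = t ∨ i = u then TU else if i = k ∨ i = w then TW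
    else fun _ => 0
  have Tt : T t = TU := if_pos (Or.inl rfl)
  have Tu : T u = TU := if_pos (Or.inr rfl)
  have Tk : T k = TW := by
    change (if k = t ∨ k = u then TU else if k = k ∨ k = w then TW else fun _ => 0) = TW
    rw [if_neg (by rintro (h | h); exacts [ntk h.symm, nuk h.symm]), if_pos (Or.inl rfl)]
  have Tw : T w = TW := by
    change (if w = t ∨ w = u then TU else if w = k ∨ w = w then TW else fun _ => 0) = TW
    rw [if_neg (by rintro (h | h); exacts [ntw h.symm, nuw h.symm]), if_pos (Or.inr rfl)]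
  have Ti : ∀ i, i ≠ t → i ≠ u → i ≠ k → i ≠ w → T i = fun _ => 0 := by
    intro i h1 h2 h3 h4
    change (if i = t ∨ i = u then TU else if i = k ∨ i = w then TW else fun _ => 0) = fun _ => 0
    rw [if_neg (by tauto), if_neg (by tauto)]
  have Tc : ∀ i, Continuous (T i) := by
    intro i
    change Continuous (if i = t ∨ i = u then TU else if i = k ∨ i = w then TW else fun _ => 0)
    split_ifs
    · exact TT_cont _ _ _ _ _ _ _
    · exact TT_cont _ _ _ _ _ _ _
    · exact continuous_const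
  have T0 : ∀ i, T i 0 = 0 := by
    intro i
    have h1 : TU 0 = 0 := by
      have := EU.zero (a₁ := 0) (c := 0) (by simp)
      simpa using this
    have h2 : TW 0 = 0 := by
      have := EW.zero (a₁ := 0) (c := 0) (by simp)
      simpa using this
    change (if i = t ∨ i = u then TU else if i = k ∨ i = w then TW else fun _ => 0) 0 = 0
    split_ifs
    · exact h1
    · exact h2
    · rfl
  have Tray : ∀ i ∈ L.S, ∀ d : ℝ, 0 ≤ d → T i (d • L.p (L.s i)) = T (L.s i) (d • L.p (L.s i)) := by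
    intro i hi d hd
    by_cases h1 : i = t
    · rw [h1, hE.st, Tt, Tu]
    by_cases h2 : i = u
    · rw [h2, hE.su, Tu, Tk]
      have k1 : TU (d • L.p k) = th e ((1:ℝ) • crs hu hw) (d • L.p k) := EU.ray hd
      have k2 : TW (d • L.p k) = th e ((-1:ℝ) • crs hw hu) (d • L.p k) := EW.ray hd
      rw [k1, k2, th_swap]
    by_cases h3 : i = k
    · rw [h3, hE.sk, Tk, Tw]
    by_cases h4 : i = w
    · rw [h4, hE.sw, Tw, Ti z ntz.symm nuz.symm nkz.symm nwz.symm]
      have k1 : TW (d • L.p z + (0:ℝ) • L.p w) = 0 := EW.zero (a₁ := d) (c := 0) (by simpa using hd)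
      rw [zero_smul, add_zero] at k1
      exact k1
    rw [Ti i h1 h2 h3 h4]
    have m2 : L.s i ≠ u := fun h => h1 (sinj i hi t hE.memt (by rw [h, hE.st]))
    have m3 : L.s i ≠ k := fun h => h2 (sinj i hi u hE.memu (by rw [h, hE.su]))
    have m4 : L.s i ≠ w := fun h => h3 (sinj i hi k hE.memk (by rw [h, hE.sk]))
    by_cases m1 : L.s i = t
    · rw [m1, Tt]
      have k1 : TU (d • L.p t + (0:ℝ) • L.p u) = 0 := EU.zero (a₁ := d) (c := 0) (by simpa using hd)
      rw [zero_smul, add_zero] at k1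
      exact k1.symm
    · rw [Ti _ m1 m2 m3 m4]
  obtain ⟨Ψ, hΨc, hΨ⟩ := TSC.PSI_.glue hE.ok hpr
    (fun i c d => (c • L.p i + d • L.p (L.s i)) + T i (c • L.p i + d • L.p (L.s i)) • e)
    (by
      intro i
      have h1 : Continuous fun x : ℝ × ℝ => x.1 • L.p i + x.2 • L.p (L.s i) := by fun_prop
      exact h1.add (((Tc i).comp h1).smul continuous_const))
    (by
      intro i
      simp only [zero_smul, add_zero, T0])
    (by
      intro i hi d hd
      simp only [zero_smul, add_zero, zero_add]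
      rw [Tray i hi d hd])
  have hU1 : ∀ a₁ c : ℝ, 0 ≤ a₁ → 0 ≤ c → ∀ x : E3, x = a₁ • L.p t + c • L.p u →
      Ψ x = x + TU x • e := by
    intro a₁ c ha hc x hx
    have h1 := hΨ t hE.memt a₁ c ha hc
    rw [hE.st, ← hx, Tt] at h1
    exact h1
  have hU2 : ∀ c d : ℝ, 0 ≤ c → 0 ≤ d → ∀ x : E3, x = c • L.p u + d • L.p k →
      Ψ x = x + TU x • e := by
    intro a₁ c ha hc x hx
    have h1 := hΨ u hE.memu a₁ c ha hc
    rw [hE.su, ← hx, Tu] at h1
    exact h1
  have hW2 : ∀ d c : ℝ, 0 ≤ d → 0 ≤ c → ∀ x : E3, x = d • L.p k + c • L.p w →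
      Ψ x = x + TW x • e := by
    intro a₁ c ha hc x hx
    have h1 := hΨ k hE.memk a₁ c ha hc
    rw [hE.sk, ← hx, Tk] at h1
    exact h1
  have hW1 : ∀ a₁ c : ℝ, 0 ≤ a₁ → 0 ≤ c → ∀ x : E3, x = a₁ • L.p z + c • L.p w →
      Ψ x = x + TW x • e := by
    intro a₁ c ha hc x hx
    have h1 := hΨ w hE.memw c a₁ hc ha
    rw [hE.sw, add_comm (c • L.p w), ← hx, Tw] at h1
    exact h1
  have hU : ∀ x ∈ L.zU t u δ, Ψ x = x + TU x • e := by
    rintro x (⟨a₁, c, ha, hc, -, hx⟩ | ⟨c, d, hc, hd, hx⟩)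
    · exact hU1 a₁ c ha hc x hx
    · rw [hE.su] at hx
      exact hU2 c d hc hd x hx
  have hW : ∀ x ∈ L.zW k w z δ, Ψ x = x + TW x • e := by
    rintro x (⟨c, d, hc, hd, hx⟩ | ⟨a₁, c, ha, hc, -, hx⟩)
    · rw [hE.sk] at hx
      exact hW2 c d hc hd x hx
    · exact hW1 a₁ c ha hc x hx
  -- the locations
  obtain ⟨C1, hC1⟩ := EU.loc
  obtain ⟨C2, hC2⟩ := EW.loc
  have lU : ∀ x ∈ L.zU t u δ, Ψ x ∈ zP (L.p t) hu (2 * δ) ∨ Ψ x ∈ zP hw hu C1 := by
    intro x hx
    rw [hU x hx]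
    rcases hx with ⟨a₁, c, ha, hc, hac, hx⟩ | ⟨c, d, hc, hd, hx⟩
    · exact hC1 a₁ c 0 ha hc le_rfl (Or.inl ⟨rfl, hac⟩) x (by rw [hx]; module)
    · rw [hE.su] at hx
      exact hC1 0 c d le_rfl hc hd (Or.inr rfl) x (by rw [hx]; module)
  have lW : ∀ x ∈ L.zW k w z δ, Ψ x ∈ zP (L.p z) hw (2 * δ) ∨ Ψ x ∈ zP hu hw C2 := by
    intro x hx
    rw [hW x hx]
    rcases hx with ⟨d, c, hd, hc, hx⟩ | ⟨a₁, c, ha, hc, hac, hx⟩
    · rw [hE.sk] at hx
      exact hC2 0 c d le_rfl hc hd (Or.inr rfl) x (by rw [hx]; module)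
    · exact hC2 a₁ c 0 ha hc le_rfl (Or.inl ⟨rfl, hac⟩) x (by rw [hx]; module)
  -- the tilted polygon
  have pU : H.p u = hu := by simp [hH, Pg.hat, hhu]
  have pW : H.p w = hw := by simp [hH, Pg.hat, hhw, nuw.symm]
  have pI : ∀ i, i ≠ u → i ≠ w → H.p i = L.p i := by
    intro i h1 h2
    simp [hH, Pg.hat, h1, h2]
  have sU : H.s u = w := by simp [hH, Pg.hat, Pg.erase, hE.su, hE.sk]
  have sI : ∀ i ∈ L.S, i ≠ u → H.s i = L.s i := by
    intro i hi h
    have h1 : L.s i ≠ k := fun h' => h (sinj i hi u hE.memu (by rw [h', hE.su]))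
    simp [hH, Pg.hat, Pg.erase, h1]
  have mS : ∀ i ∈ L.S, i ≠ k → i ∈ H.S := by
    intro i hi h
    exact Finset.mem_erase.2 ⟨h, hi⟩
  have sT : H.s t = u := by rw [sI t hE.memt ntu, hE.st]
  have sW : H.s w = z := by rw [sI w hE.memw nuw.symm, hE.sw]
  have pT : H.p t = L.p t := pI t ntu ntw
  have pZ : H.p z = L.p z := pI z nuz.symm nwz.symm
  have ft : ∀ x, (∃ x₁ x₂ : ℝ, 0 ≤ x₁ ∧ 0 ≤ x₂ ∧ x = x₁ • L.p t + x₂ • hu) → x ∈ H.face t := by
    rintro x ⟨x₁, x₂, h1, h2, h3⟩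
    exact ⟨x₁, x₂, h1, h2, by rw [pT, sT, pU]; exact h3⟩
  have fu : ∀ x, (∃ x₁ x₂ : ℝ, 0 ≤ x₁ ∧ 0 ≤ x₂ ∧ x = x₁ • hu + x₂ • hw) → x ∈ H.face u := by
    rintro x ⟨x₁, x₂, h1, h2, h3⟩
    exact ⟨x₁, x₂, h1, h2, by rw [pU, sU, pW]; exact h3⟩
  have fw : ∀ x, (∃ x₁ x₂ : ℝ, 0 ≤ x₁ ∧ 0 ≤ x₂ ∧ x = x₁ • L.p z + x₂ • hw) → x ∈ H.face w := by
    rintro x ⟨x₁, x₂, h1, h2, h3⟩
    exact ⟨x₂, x₁, h2, h1, by rw [pW, sW, pZ, add_comm]; exact h3⟩
  have fi : ∀ i ∈ L.S, i ≠ t → i ≠ u → i ≠ k → i ≠ w → ∀ x ∈ L.face i, x ∈ H.face i := by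
    rintro i hi h1 h2 h3 h4 x ⟨x₁, x₂, k1, k2, k3⟩
    have m2 : L.s i ≠ u := fun h => h1 (sinj i hi t hE.memt (by rw [h, hE.st]))
    have m4 : L.s i ≠ w := fun h => h3 (sinj i hi k hE.memk (by rw [h, hE.sk]))
    exact ⟨x₁, x₂, k1, k2, by rw [sI i hi h2, pI i h2 h4, pI _ m2 m4]; exact k3⟩
  -- points outside of the zone
  have hout : ∀ x ∈ L.cone, x ∉ L.zU t u δ → x ∉ L.zW k w z δ → Ψ x = x ∧
      ((∃ i ∈ L.S, i ≠ t ∧ i ≠ u ∧ i ≠ k ∧ i ≠ w ∧ x ∈ L.face i) ∨
      (∃ a₁ c : ℝ, 0 ≤ a₁ ∧ 0 ≤ c ∧ δ * c < a₁ ∧ x = a₁ • L.p t + c • L.p u) ∨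
      (∃ a₁ c : ℝ, 0 ≤ a₁ ∧ 0 ≤ c ∧ δ * c < a₁ ∧ x = a₁ • L.p z + c • L.p w)) := by
    rintro x ⟨i, hi, c, d, hc, hd, hx⟩ hxU hxW
    by_cases h2 : i = u
    · exact absurd (Or.inr ⟨c, d, hc, hd, h2 ▸ hx⟩) hxU
    by_cases h3 : i = k
    · exact absurd (Or.inl ⟨c, d, hc, hd, h3 ▸ hx⟩) hxW
    by_cases h1 : i = t
    · rw [h1, hE.st] at hx
      have h5 : δ * d < c := by
        by_contra hcon
        exact hxU (Or.inl ⟨c, d, hc, hd, not_lt.1 hcon, hx⟩)
      refine ⟨?_, Or.inr (Or.inl ⟨c, d, hc, hd, h5, hx⟩)⟩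
      rw [hU1 c d hc hd x hx]
      have k1 : TU x = 0 := by
        rw [hx]
        exact EU.zero (by linarith [ac d hd])
      rw [k1, zero_smul, add_zero]
    by_cases h4 : i = w
    · rw [h4, hE.sw] at hx
      have hx' : x = d • L.p z + c • L.p w := by rw [hx, add_comm]
      have h5 : δ * c < d := by
        by_contra hcon
        exact hxW (Or.inr ⟨d, c, hd, hc, not_lt.1 hcon, hx'⟩)
      refine ⟨?_, Or.inr (Or.inr ⟨d, c, hd, hc, h5, hx'⟩)⟩
      rw [hW1 d c hd hc x hx']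
      have k1 : TW x = 0 := by
        rw [hx']
        exact EW.zero (by linarith [ac' c hc])
      rw [k1, zero_smul, add_zero]
    · refine ⟨?_, Or.inl ⟨i, hi, h1, h2, h3, h4, c, d, hc, hd, hx⟩⟩
      have k1 := hΨ i hi c d hc hd
      rw [← hx, Ti i h1 h2 h3 h4, zero_smul, add_zero] at k1
      exact k1
  -- a point of the zone and a point outside of the zone have different images
  have hsub : ∀ x ∈ L.zU t u δ ∪ L.zW k w z δ, x ∈ L.zU t u (3 * δ) ∪ L.zW k w z (3 * δ) := by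
    have h3 : δ ≤ 3 * δ := by linarith
    rintro x ((hx | hx) | (hx | hx))
    · exact Or.inl (Or.inl (zP_mono h3 hx))
    · exact Or.inl (Or.inr hx)
    · exact Or.inr (Or.inl hx)
    · exact Or.inr (Or.inr (zP_mono h3 hx))
  have hzr : ∀ x ∈ L.zU t u δ ∪ L.zW k w z δ, ∃ r : ℝ, Ψ x = x + r • e := by
    rintro x (hx | hx)
    · exact ⟨_, hU x hx⟩
    · exact ⟨_, hW x hx⟩
  have hzero : (0:E3) ∈ L.zU t u δ := Or.inl ⟨0, 0, le_rfl, le_rfl, by simp, by simp⟩
  have hkey : ∀ x ∈ L.zU t u δ ∪ L.zW k w z δ, ∀ y ∈ L.cone, y ∉ L.zU t u δ →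
      y ∉ L.zW k w z δ → Ψ x = y → False := by
    intro x hx y hy hyU hyW hxy
    have hy0 : y ≠ 0 := by
      rintro rfl
      exact hyU hzero
    obtain ⟨-, hcase⟩ := hout y hy hyU hyW
    have hl : y ∈ zP (L.p t) hu (2 * δ) ∨ y ∈ H.face u ∨ y ∈ zP (L.p z) hw (2 * δ) := by
      rw [← hxy]
      rcases hx with hx | hx
      · rcases lU x hx with h | ⟨b, c, hb, hc, -, h⟩
        · exact Or.inl h
        · exact Or.inr (Or.inl (fu _ ⟨c, b, hc, hb, by rw [h, add_comm]⟩))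
      · rcases lW x hx with h | ⟨b, c, hb, hc, -, h⟩
        · exact Or.inr (Or.inr h)
        · exact Or.inr (Or.inl (fu _ ⟨b, c, hb, hc, h⟩))
    -- a contradiction from the injectivity on the larger zone
    have hV : y ∈ L.zU t u (3 * δ) ∪ L.zW k w z (3 * δ) → False := by
      intro hyz
      obtain ⟨r, hr⟩ := hzr x hx
      have h1 : y = x := by
        apply V3 y hyz x (hsub x hx) r
        rw [← hxy, hr]
      rw [h1] at hyU hyW
      rcases hx with hx | hx
      · exact hyU hx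
      · exact hyW hx
    rcases hcase with ⟨i, hi, h1, h2, h3, h4, hyi⟩ | ⟨a₁, c, ha, hc, hac, hya⟩ |
      ⟨a₁, c, ha, hc, hac, hya⟩
    · have hyi' := fi i hi h1 h2 h3 h4 y hyi
      have hiS := mS i hi h3
      have m2 : H.s i ≠ u := by
        rw [sI i hi h2]
        exact fun h => h1 (sinj i hi t hE.memt (by rw [h, hE.st]))
      have m4 : H.s i ≠ w := by
        rw [sI i hi h2]
        exact fun h => h3 (sinj i hi k hE.memk (by rw [h, hE.sk]))
      rcases hl with ⟨b, c', hb, hc', hbc, h⟩ | h | ⟨b, c', hb, hc', hbc, h⟩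
      · rcases hok.simple i hiS t (mS t hE.memt ntk) h1 y hyi' (ft y ⟨b, c', hb, hc', h⟩) with
          ⟨k1, l, hl, k2⟩ | ⟨k1, -⟩ | k1
        · rw [pT] at k2
          have k3 : b • L.p t + c' • (L.p u + a • L.p t) =
              l • L.p t + (0:ℝ) • (L.p u + a • L.p t) := by
            rw [zero_smul, add_zero, ← k2, h]
          obtain ⟨k4, k5⟩ := tilt_coord it k3
          rw [k5, mul_zero] at hbc
          have k6 : b = 0 := le_antisymm hbc hb
          apply hy0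
          rw [h, k6, k5]; simp
        · exact h2 (k1.trans sT)
        · exact hy0 k1
      · rcases hok.simple i hiS u (mS u hE.memu nuk) h2 y hyi' h with
          ⟨k1, -⟩ | ⟨k1, -⟩ | k1
        · exact m2 k1.symm
        · exact h4 (k1.trans sU)
        · exact hy0 k1
      · rcases hok.simple i hiS w (mS w hE.memw nkw.symm) h4 y hyi'
          (fw y ⟨b, c', hb, hc', h⟩) with
          ⟨k1, -⟩ | ⟨k1, l, hl, k2⟩ | k1
        · exact m4 k1.symm
        · rw [k1, sW, pZ] at k2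
          have k3 : b • L.p z + c' • (L.p w + a' • L.p z) =
              l • L.p z + (0:ℝ) • (L.p w + a' • L.p z) := by
            rw [zero_smul, add_zero, ← k2, h]
          obtain ⟨k4, k5⟩ := tilt_coord iw k3
          rw [k5, mul_zero] at hbc
          have k6 : b = 0 := le_antisymm hbc hb
          apply hy0
          rw [h, k6, k5]; simp
        · exact hy0 k1
    · have hyt : y = (a₁ - a * c) • L.p t + c • hu := by
        rw [hya, hhu]; module
      have h5 : 0 < a₁ - a * c := by linarith [ac c hc]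
      have hyf : y ∈ H.face t := ft y ⟨_, _, h5.le, hc, hyt⟩
      rcases hl with ⟨b, c', hb, hc', hbc, h⟩ | h | ⟨b, c', hb, hc', hbc, h⟩
      · have k3 : b • L.p t + c' • (L.p u + a • L.p t) =
            (a₁ - a * c) • L.p t + c • (L.p u + a • L.p t) := by
          rw [← hhu, ← hyt, h]
        obtain ⟨k4, k5⟩ := tilt_coord it k3
        rw [k4, k5] at hbc
        apply hV
        left; left
        exact ⟨a₁, c, ha, hc, by linarith [ac c hc], hya⟩
      · rcases hok.simple t (mS t hE.memt ntk) u (mS u hE.memu nuk) ntu y hyf h with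
          ⟨k1, l, hl, k2⟩ | ⟨k1, -⟩ | k1
        · rw [pU] at k2
          have k3 : (0:ℝ) • L.p t + l • (L.p u + a • L.p t) =
              (a₁ - a * c) • L.p t + c • (L.p u + a • L.p t) := by
            rw [zero_smul, zero_add, ← hhu, ← hyt, k2]
          obtain ⟨k4, k5⟩ := tilt_coord it k3
          linarith
        · rw [sU] at k1
          exact ntw k1
        · exact hy0 k1
      · rcases hok.simple t (mS t hE.memt ntk) w (mS w hE.memw nkw.symm) ntw y hyf
          (fw y ⟨b, c', hb, hc', h⟩) with ⟨k1, -⟩ | ⟨k1, -⟩ | k1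
        · rw [sT] at k1
          exact nuw k1.symm
        · rw [sW] at k1
          exact ntz k1
        · exact hy0 k1
    · have hyt : y = (a₁ - a' * c) • L.p z + c • hw := by
        rw [hya, hhw]; module
      have h5 : 0 < a₁ - a' * c := by linarith [ac' c hc]
      have hyf : y ∈ H.face w := fw y ⟨_, _, h5.le, hc, hyt⟩
      rcases hl with ⟨b, c', hb, hc', hbc, h⟩ | h | ⟨b, c', hb, hc', hbc, h⟩
      · rcases hok.simple t (mS t hE.memt ntk) w (mS w hE.memw nkw.symm) ntw y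
          (ft y ⟨b, c', hb, hc', h⟩) hyf with ⟨k1, -⟩ | ⟨k1, -⟩ | k1
        · rw [sT] at k1
          exact nuw k1.symm
        · rw [sW] at k1
          exact ntz k1
        · exact hy0 k1
      · rcases hok.simple u (mS u hE.memu nuk) w (mS w hE.memw nkw.symm) nuw y h hyf with
          ⟨k1, l, hl, k2⟩ | ⟨k1, -⟩ | k1
        · rw [pW] at k2
          have k3 : (0:ℝ) • L.p z + l • (L.p w + a' • L.p z) =
              (a₁ - a' * c) • L.p z + c • (L.p w + a' • L.p z) := by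
            rw [zero_smul, zero_add, ← hhw, ← hyt, k2]
          obtain ⟨k4, k5⟩ := tilt_coord iw k3
          linarith
        · rw [sW] at k1
          exact nuz k1
        · exact hy0 k1
      · have k3 : b • L.p z + c' • (L.p w + a' • L.p z) =
            (a₁ - a' * c) • L.p z + c • (L.p w + a' • L.p z) := by
          rw [← hhw, ← hyt, h]
        obtain ⟨k4, k5⟩ := tilt_coord iw k3
        rw [k4, k5] at hbc
        apply hV
        right; right
        exact ⟨a₁, c, ha, hc, by linarith [ac' c hc], hya⟩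
  -- constants
  obtain ⟨CU, hCU0, hCU⟩ := TT_bd 1 (L.p t) (L.p u) (L.p w) hu hw e
  obtain ⟨CW, hCW0, hCW⟩ := TT_bd (-1) (L.p z) (L.p w) (L.p u) hw hu e
  have gP : 0 < (inner ℝ (crs (L.p t) (L.p u)) e : ℝ) := by
    rw [crs_eq_inner, he]; unfold Pg.ee; rw [det_e]; exact hEe.eu
  have gW : 0 < (inner ℝ (crs (L.p w) (L.p z)) e : ℝ) := by
    have h1 : det3 (L.p w) (L.p z) (x₀ • L.p u + y₀ • L.p w - L.p k) =
        x₀ * det3 (L.p u) (L.p w) (L.p z) - det3 (L.p k) (L.p w) (L.p z) := by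
      simp only [det3, PiLp.add_apply, PiLp.sub_apply, PiLp.smul_apply, smul_eq_mul]; ring
    rw [crs_eq_inner, he]; unfold Pg.ee; rw [h1]; exact hEe.ew
  have gB : 0 < (inner ℝ (crs (L.p u) (L.p k)) e : ℝ) := by
    have h1 : det3 (L.p u) (L.p k) (x₀ • L.p u + y₀ • L.p w - L.p k) =
        y₀ * det3 (L.p u) (L.p k) (L.p w) := by
      simp only [det3, PiLp.add_apply, PiLp.sub_apply, PiLp.smul_apply, smul_eq_mul]; ring
    rw [crs_eq_inner, he]; unfold Pg.ee; rw [h1]; exact mul_pos hEe.y0 hE.pos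
  have gA : 0 < (inner ℝ (crs (L.p k) (L.p w)) e : ℝ) := by
    have h1 : det3 (L.p k) (L.p w) (x₀ • L.p u + y₀ • L.p w - L.p k) =
        x₀ * det3 (L.p u) (L.p k) (L.p w) := by
      simp only [det3, PiLp.add_apply, PiLp.sub_apply, PiLp.smul_apply, smul_eq_mul]; ring
    rw [crs_eq_inner, he]; unfold Pg.ee; rw [h1]; exact mul_pos hEe.x0 hE.pos
  have pl : ∀ p q : E3, ∀ x₁ x₂ : ℝ, (inner ℝ (crs p q) (x₁ • p + x₂ • q) : ℝ) = 0 := by
    intro p q x₁ x₂
    rw [crs_eq_inner, TSC.det3_add3, TSC.det3_smul3, TSC.det3_smul3, TSC.det3_self13,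
      TSC.det3_self23]
    ring
  set K1 : ℝ := ‖crs (L.p t) (L.p u)‖ * ‖e‖ / (inner ℝ (crs (L.p t) (L.p u)) e : ℝ) with hK1
  set K2 : ℝ := ‖crs (L.p w) (L.p z)‖ * ‖e‖ / (inner ℝ (crs (L.p w) (L.p z)) e : ℝ) with hK2
  set K3 : ℝ := ‖crs (L.p u) (L.p k)‖ * ‖e‖ / (inner ℝ (crs (L.p u) (L.p k)) e : ℝ) with hK3
  set K4 : ℝ := ‖crs (L.p k) (L.p w)‖ * ‖e‖ / (inner ℝ (crs (L.p k) (L.p w)) e : ℝ) with hK4
  have p1 : 0 ≤ K1 := div_nonneg (by positivity) gP.le
  have p2 : 0 ≤ K2 := div_nonneg (by positivity) gW.le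
  have p3 : 0 ≤ K3 := div_nonneg (by positivity) gB.le
  have p4 : 0 ≤ K4 := div_nonneg (by positivity) gA.le
  have p5 : 0 ≤ CU * ‖e‖ := by positivity
  have p6 : 0 ≤ CW * ‖e‖ := by positivity
  set C : ℝ := 1 + K1 + K2 + K3 + K4 + CU * ‖e‖ + CW * ‖e‖ + |C1| + |C2| with hC
  have hCC1 : C1 ≤ C := by
    have := le_abs_self C1
    have := abs_nonneg C2
    linarith
  have hCC2 : C2 ≤ C := by
    have := le_abs_self C2
    have := abs_nonneg C1
    linarith
  have hC1' : 1 ≤ C := by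
    have := abs_nonneg C2
    have := abs_nonneg C1
    linarith
  have a1 := abs_nonneg C1
  have a2 := abs_nonneg C2
  have hlow : ∀ K : ℝ, 1 + K ≤ C → ∀ x y : E3, ‖x‖ ≤ (1 + K) * ‖y‖ → ‖x‖ ≤ C * ‖y‖ := by
    intro K hK x y hxy
    exact hxy.trans (mul_le_mul_of_nonneg_right hK (norm_nonneg _))
  have hup : ∀ (x : E3) (r K : ℝ), |r| ≤ K * ‖x‖ → 1 + K * ‖e‖ ≤ C → ‖x + r • e‖ ≤ C * ‖x‖ := by
    intro x r K hr hK
    have h1 : ‖x + r • e‖ ≤ ‖x‖ + |r| * ‖e‖ := by
      refine (norm_add_le _ _).trans ?_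
      rw [norm_smul, Real.norm_eq_abs]
    have h2 := mul_le_mul_of_nonneg_right hr (norm_nonneg e)
    have h3 := mul_le_mul_of_nonneg_right hK (norm_nonneg x)
    linarith
  refine ⟨C, Ψ, hC1', hΨc, ?_, ?_, ?_, fun x hx h1 h2 => (hout x hx h1 h2).1, ?_, ?_, ?_⟩
  · -- injectivity
    intro x hx y hy hxy
    by_cases h1 : x ∈ L.zU t u δ ∪ L.zW k w z δ
    · by_cases h2 : y ∈ L.zU t u δ ∪ L.zW k w z δ
      · obtain ⟨r, hr⟩ := hzr x h1
        obtain ⟨r', hr'⟩ := hzr y h2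
        apply V3 x (hsub x h1) y (hsub y h2) (r' - r)
        have h3 : x + r • e = y + r' • e := by rw [← hr, ← hr', hxy]
        have h4 : x = y + r' • e - r • e := by rw [← h3]; abel
        rw [h4]; module
      · have h3 : y ∉ L.zU t u δ := fun h => h2 (Or.inl h)
        have h4 : y ∉ L.zW k w z δ := fun h => h2 (Or.inr h)
        exact (hkey x h1 y hy h3 h4 (hxy.trans (hout y hy h3 h4).1)).elim
    · have h3 : x ∉ L.zU t u δ := fun h => h1 (Or.inl h)
      have h4 : x ∉ L.zW k w z δ := fun h => h1 (Or.inr h)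
      by_cases h2 : y ∈ L.zU t u δ ∪ L.zW k w z δ
      · exact (hkey y h2 x hx h3 h4 (hxy.symm.trans (hout x hx h3 h4).1)).elim
      · have h5 : y ∉ L.zU t u δ := fun h => h2 (Or.inl h)
        have h6 : y ∉ L.zW k w z δ := fun h => h2 (Or.inr h)
        rw [← (hout x hx h3 h4).1, hxy, (hout y hy h5 h6).1]
  · -- maps
    intro x hx
    by_cases h1 : x ∈ L.zU t u δ
    · rcases lU x h1 with ⟨b, c, hb, hc, -, h⟩ | ⟨b, c, hb, hc, -, h⟩
      · exact ⟨t, mS t hE.memt ntk, ft _ ⟨b, c, hb, hc, h⟩⟩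
      · exact ⟨u, mS u hE.memu nuk, fu _ ⟨c, b, hc, hb, by rw [h, add_comm]⟩⟩
    by_cases h2 : x ∈ L.zW k w z δ
    · rcases lW x h2 with ⟨b, c, hb, hc, -, h⟩ | ⟨b, c, hb, hc, -, h⟩
      · exact ⟨w, mS w hE.memw nkw.symm, fw _ ⟨b, c, hb, hc, h⟩⟩
      · exact ⟨u, mS u hE.memu nuk, fu _ ⟨b, c, hb, hc, h⟩⟩
    obtain ⟨h3, h4⟩ := hout x hx h1 h2
    rw [h3]
    rcases h4 with ⟨i, hi, k1, k2, k3, k4, hyi⟩ | ⟨a₁, c, ha, hc, hac, hya⟩ |
      ⟨a₁, c, ha, hc, hac, hya⟩
    · exact ⟨i, mS i hi k3, fi i hi k1 k2 k3 k4 x hyi⟩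
    · exact ⟨t, mS t hE.memt ntk, ft _ ⟨a₁ - a * c, c, by linarith [ac c hc], hc,
        by rw [hya, hhu]; module⟩⟩
    · exact ⟨w, mS w hE.memw nkw.symm, fw _ ⟨a₁ - a' * c, c, by linarith [ac' c hc], hc,
        by rw [hya, hhw]; module⟩⟩
  · -- norms
    intro x hx
    by_cases h1 : x ∈ L.zU t u δ
    · have h3 := hU x h1
      refine ⟨?_, ?_⟩
      · rw [h3]
        rcases h1 with ⟨b, c, hb, hc, -, h⟩ | ⟨b, c, hb, hc, h⟩
        · exact hlow K1 (by linarith) _ _ (norm_plane gP (by rw [h, pl]) _)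
        · rw [hE.su] at h
          exact hlow K3 (by linarith) _ _ (norm_plane gB (by rw [h, pl]) _)
      · rw [h3]
        exact hup x _ CU (hCU x) (by linarith)
    by_cases h2 : x ∈ L.zW k w z δ
    · have h3 := hW x h2
      refine ⟨?_, ?_⟩
      · rw [h3]
        rcases h2 with ⟨b, c, hb, hc, h⟩ | ⟨b, c, hb, hc, -, h⟩
        · rw [hE.sk] at h
          exact hlow K4 (by linarith) _ _ (norm_plane gA (by rw [h, pl]) _)
        · exact hlow K2 (by linarith) _ _ (norm_plane gW (by rw [h, add_comm, pl]) _)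
      · rw [h3]
        exact hup x _ CW (hCW x) (by linarith)
    rw [(hout x hx h1 h2).1]
    have h5 : 1 * ‖x‖ ≤ C * ‖x‖ := mul_le_mul_of_nonneg_right hC1' (norm_nonneg _)
    rw [one_mul] at h5
    exact ⟨h5, h5⟩
  · intro x hx
    exact hzr x hx
  · intro x hx
    rcases lU x hx with h | h
    · exact Or.inl h
    · exact Or.inr (zP_mono hCC1 h)
  · intro x hx
    rcases lW x hx with h | h
    · exact Or.inl h
    · exact Or.inr (zP_mono hCC2 h)

end PSI_

open PSI_ in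
theorem psi_proof (h1 : Stmt_Vinj) : Stmt_Psi := by
  intro V _ L t u k w z x₀ y₀ hE hEe
  obtain ⟨δv, hδv, hv⟩ := h1 V L t u k w z x₀ y₀ hE hEe
  refine ⟨min (δv / 3) (1 / 2), lt_min (by positivity) (by norm_num), fun ε δ hε hεδ hδ => ?_⟩
  have hδ0 : 0 < δ := by linarith
  have hδ3 : 3 * δ ≤ δv := by
    have := hδ.trans (min_le_left _ _)
    linarith
  have V3 := hv (3 * δ) (by linarith) hδ3
  have evU := ev_end (s := 1) (pt := L.p t) (pu := L.p u) (pk := L.p k) (pw := L.p w)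
    (pz := L.p z) (e := L.ee u k w x₀ y₀) (Or.inl rfl) hδ0 hEe.x0 hEe.y0 rfl
    (by rw [one_mul]; exact hE.pos) (by rw [one_mul]; exact hE.τu)
    (by rw [one_mul, one_mul]; exact hEe.eu)
  have d1 : det3 (L.p w) (L.p k) (L.p u) = -det3 (L.p u) (L.p k) (L.p w) := by
    simp only [det3]; ring
  have d2 : det3 (L.p z) (L.p w) (L.p u) = -det3 (L.p u) (L.p w) (L.p z) := by
    simp only [det3]; ring
  have d3 : det3 (L.p z) (L.p w) (L.p k) = -det3 (L.p k) (L.p w) (L.p z) := by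
    simp only [det3]; ring
  have evW := ev_end (s := -1) (pt := L.p z) (pu := L.p w) (pk := L.p k) (pw := L.p u)
    (pz := L.p t) (e := L.ee u k w x₀ y₀) (Or.inr rfl) hδ0 hEe.y0 hEe.x0
    (by unfold Pg.ee; rw [add_comm]) (by rw [d1]; linarith [hE.pos])
    (by rw [d2, neg_one_mul, neg_neg]; exact hE.τw)
    (by rw [d2, d3, neg_one_mul, neg_one_mul, neg_neg, neg_neg]; exact hEe.ew)
  have hsw : Tendsto (fun q : ℝ × ℝ => (q.2, q.1)) (𝓝 (0, 0)) (𝓝 (0, 0)) := by
    have hc : Continuous fun q : ℝ × ℝ => (q.2, q.1) := by fun_prop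
    exact hc.tendsto (0, 0)
  have evW' := hsw.eventually evW
  obtain ⟨a₀, ha₀, H⟩ := Metric.eventually_nhds_iff.1 (evU.and evW')
  refine ⟨a₀, ha₀, fun a a' hT hok NU NW => ?_⟩
  have hd : dist (a, a') ((0:ℝ), (0:ℝ)) < a₀ := by
    rw [Prod.dist_eq]
    apply max_lt
    · rw [Real.dist_eq, sub_zero]; exact hT.2.1
    · rw [Real.dist_eq, sub_zero]; exact hT.2.2.2
  obtain ⟨H1, H2⟩ := H hd
  obtain ⟨σ, κ, EU⟩ := H1 _ _ rfl rfl (Sym2 V) (fun _ => 0) ε NU
  obtain ⟨σ', κ', EW⟩ := H2 _ _ rfl rfl (Sym2 V) (fun _ => 0) ε NW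
  exact assemble hE hEe hok EU EW V3

end Pool.Agent.TSM
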