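import Pool.Agent.TSM.VStmts

set_option autoImplicit false

/-!
# REV: reversal of the orientation
-/

namespace Pool.Agent.TSM

open Set Filter Topology Metric

namespace REV_

theorem inner3 (a b : E3) : (inner ℝ a b : ℝ) = a 0 * b 0 + a 1 * b 1 + a 2 * b 2 := by
  simp [PiLp.inner_apply, Fin.sum_univ_three]
  ring

theorem ext3 {a b : E3} (h0 : a 0 = b 0) (h1 : a 1 = b 1) (h2 : a 2 = b 2) : a = b := by
  ext i
  fin_cases i
  · exact h0
  · exact h1
  · exact h2

theorem crs_zero (a b : E3) : crs a b 0 = a 1 * b 2 - a 2 * b 1 := rfl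
theorem crs_one (a b : E3) : crs a b 1 = a 2 * b 0 - a 0 * b 2 := rfl
theorem crs_two (a b : E3) : crs a b 2 = a 0 * b 1 - a 1 * b 0 := rfl

theorem crs_swap (a b : E3) : crs a b = - crs b a := by
  refine ext3 ?_ ?_ ?_ <;> simp only [crs_zero, crs_one, crs_two, PiLp.neg_apply] <;> ring

theorem det3_neg1 (a b c : E3) : det3 (-a) b c = - det3 a b c := by
  simp only [det3, PiLp.neg_apply]; ring
theorem det3_neg2 (a b c : E3) : det3 a (-b) c = - det3 a b c := by
  simp only [det3, PiLp.neg_apply]; ring
theorem det3_neg3 (a b c : E3) : det3 a b (-c) = - det3 a b c := by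
  simp only [det3, PiLp.neg_apply]; ring
theorem det3_swap13 (a b c : E3) : det3 c b a = -det3 a b c := by simp only [det3]; ring

theorem ev_neg (Z : Aff) (y : E3) : ev (-Z) y = - ev Z y := by
  unfold ev
  rw [Prod.fst_neg, Prod.snd_neg, inner_neg_left]
  ring

/-- if `a p + b r + m = 0` then the two normals at the flat vertex are positive multiples -/
theorem flat_nor (p m r : E3) (a b : ℝ) (ha : 0 < a) (_hb : 0 < b)
    (h : a • p + b • r + m = 0) : crs p m = (b / a) • crs m r := by
  have h0 : a * p 0 + b * r 0 + m 0 = 0 := by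
    have := congrArg (fun v : E3 => v 0) h
    simpa using this
  have h1 : a * p 1 + b * r 1 + m 1 = 0 := by
    have := congrArg (fun v : E3 => v 1) h
    simpa using this
  have h2 : a * p 2 + b * r 2 + m 2 = 0 := by
    have := congrArg (fun v : E3 => v 2) h
    simpa using this
  have e0 : m 0 = -(a * p 0 + b * r 0) := by linarith
  have e1 : m 1 = -(a * p 1 + b * r 1) := by linarith
  have e2 : m 2 = -(a * p 2 + b * r 2) := by linarith
  refine ext3 ?_ ?_ ?_ <;>
    simp only [crs_zero, crs_one, crs_two, PiLp.smul_apply, smul_eq_mul, e0, e1, e2] <;>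
    field_simp <;> ring

section

variable {V : Type} [DecidableEq V]

/-- the reversed polygon -/
abbrev rv (L : Pg V) (s' : V → V) : Pg V := ⟨L.S, s', L.p, L.X⟩

variable (L : Pg V) (hL : L.Ok) (s' : V → V) (hs : ∀ i ∈ L.S, s' (L.s i) = i)

include hL in
theorem surj : ∀ j ∈ L.S, ∃ i ∈ L.S, L.s i = j := by
  intro j hj
  have h := Finset.surj_on_of_inj_on_of_card_le (s := L.S) (t := L.S) (fun i _ => L.s i)
    (fun i hi => hL.maps i hi) (fun i j hi hj h => hL.inj i hi j hj h) (le_refl _) j hj
  obtain ⟨i, hi, h⟩ := h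
  exact ⟨i, hi, h.symm⟩

include hL hs in
theorem maps' : ∀ j ∈ L.S, s' j ∈ L.S := by
  intro j hj
  obtain ⟨i, hi, rfl⟩ := surj L hL j hj
  rw [hs i hi]
  exact hi

include hL hs in
theorem ss' : ∀ j ∈ L.S, L.s (s' j) = j := by
  intro j hj
  obtain ⟨i, hi, rfl⟩ := surj L hL j hj
  rw [hs i hi]

include hL hs in
theorem nor' : ∀ j ∈ L.S, (rv L s').nor j = - L.nor (s' j) := by
  intro j hj
  unfold Pg.nor
  show crs (L.p j) (L.p (s' j)) = - crs (L.p (s' j)) (L.p (L.s (s' j)))
  rw [ss' L hL s' hs j hj, ← crs_swap]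

include hL hs in
theorem face' : ∀ j ∈ L.S, (rv L s').face j = L.face (s' j) := by
  intro j hj
  have h := ss' L hL s' hs j hj
  ext x
  constructor
  · rintro ⟨a, b, ha, hb, hx⟩
    refine ⟨b, a, hb, ha, ?_⟩
    rw [h, hx]
    exact add_comm _ _
  · rintro ⟨a, b, ha, hb, hx⟩
    refine ⟨b, a, hb, ha, ?_⟩
    rw [h] at hx
    rw [hx]
    exact add_comm _ _

include hL hs in
theorem cone' : (rv L s').cone = L.cone := by
  ext x
  constructor
  · rintro ⟨i, hi, hx⟩
    rw [face' L hL s' hs i hi] at hx
    exact ⟨s' i, maps' L hL s' hs i hi, hx⟩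
  · rintro ⟨i, hi, hx⟩
    refine ⟨L.s i, hL.maps i hi, ?_⟩
    rw [face' L hL s' hs _ (hL.maps i hi), hs i hi]
    exact hx

include hL hs in
theorem turn' : ∀ i ∈ L.S, (rv L s').turn (L.s (L.s i)) = - L.turn i := by
  intro i hi
  unfold Pg.turn
  show det3 (L.p (L.s (L.s i))) (L.p (s' (L.s (L.s i)))) (L.p (s' (s' (L.s (L.s i))))) = _
  rw [hs _ (hL.maps i hi), hs i hi, det3_swap13]

/-- the flat relation -/
theorem corner_nor (m : V) (hm : L.CornerAt m) :
    ∃ q ∈ L.S, L.s q = m ∧ ∃ r : ℝ, 0 < r ∧ L.nor q = r • L.nor m := by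
  obtain ⟨_, q, hq, hqm, ⟨a, b, ha, hb, h⟩, _⟩ := hm
  refine ⟨q, hq, hqm, b / a, div_pos hb ha, ?_⟩
  unfold Pg.nor
  rw [hqm]
  exact flat_nor _ _ _ a b ha hb h

include hL in
theorem corner_of (m : V) (hm : L.X = some m) : L.CornerAt m := by
  rcases hL.kind with ⟨h, _⟩ | ⟨m', h, h'⟩
  · rw [h] at hm
    exact absurd hm (by simp)
  · rw [h] at hm
    rw [← Option.some.inj hm]
    exact h'

include hL hs in
theorem ok' : (rv L s').Ok := by
  refine
    { maps := maps' L hL s' hs
      inj := ?_
      trans := ?_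
      card := hL.card
      gen := ?_
      simple := ?_
      kind := ?_ }
  · intro i hi j hj h
    have h1 := ss' L hL s' hs i hi
    have h2 := ss' L hL s' hs j hj
    have h' : s' i = s' j := h
    rw [← h1, h', h2]
  · intro i hi j hj
    obtain ⟨m, hm⟩ := hL.trans j hj i hi
    refine ⟨m, ?_⟩
    have key : ∀ n : ℕ, ∀ k ∈ L.S, s'^[n] (L.s^[n] k) = k := by
      intro n
      induction n with
      | zero => intro k _; rfl
      | succ n ih =>
        intro k hk
        rw [Function.iterate_succ_apply, Function.iterate_succ_apply']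
        have hmem : L.s^[n] k ∈ L.S := by
          clear ih
          induction n with
          | zero => exact hk
          | succ n ih2 =>
            rw [Function.iterate_succ_apply']
            exact hL.maps _ ih2
        rw [hs _ hmem]
        exact ih k hk
    have := key m j hj
    rw [hm] at this
    exact this
  · intro i hi j hj k hk hij hik hjk hF
    refine hL.gen i hi j hj k hk hij hik hjk ?_
    rintro ⟨m, q, hX, hq, hqm, hset⟩
    refine hF ⟨m, L.s m, hX, ?_, ?_, ?_⟩
    · rw [← hqm]
      exact hL.maps _ (hL.maps _ hq)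
    · show s' (L.s m) = m
      rw [← hqm]
      exact hs _ (hL.maps _ hq)
    · show ({i, j, k} : Finset V) = {L.s m, m, s' m}
      rw [hset, ← hqm, hs q hq]
      ext x
      simp only [Finset.mem_insert, Finset.mem_singleton]
      tauto
  · intro i hi j hj hij x hx hx'
    rw [face' L hL s' hs i hi] at hx
    rw [face' L hL s' hs j hj] at hx'
    have h1 := ss' L hL s' hs i hi
    have h2 := ss' L hL s' hs j hj
    have hne : s' i ≠ s' j := by
      intro h
      apply hij
      rw [← h1, h, h2]
    rcases hL.simple (s' i) (maps' L hL s' hs i hi) (s' j) (maps' L hL s' hs j hj) hne x hx hx'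
      with ⟨h3, a, ha, h4⟩ | ⟨h3, a, ha, h4⟩ | h3
    · right; left
      rw [h1] at h3
      exact ⟨h3.symm, a, ha, by rw [h4, h3]⟩
    · left
      rw [h2] at h3
      exact ⟨h3.symm, a, ha, by rw [h4, h3]⟩
    · right; right
      exact h3
  · rcases hL.kind with h | ⟨m, hX, hc⟩
    · left
      exact h
    · right
      refine ⟨m, hX, ?_⟩
      obtain ⟨q₀, hq₀, hqm₀, r, hr, hnor⟩ := corner_nor L m hc
      obtain ⟨hm, q, hq, hqm, ⟨a, b, ha, hb, h⟩, σ, hσ, hneg⟩ := hc
      have hqq : q₀ = q := hL.inj _ hq₀ _ hq (by rw [hqm₀, hqm])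
      rw [hqq] at hnor
      have hsm : s' m = q := by rw [← hqm]; exact hs q hq
      refine ⟨hm, L.s m, hL.maps m hm, hs m hm, ⟨b, a, hb, ha, ?_⟩, -σ, ?_, ?_⟩
      · show b • L.p (L.s m) + a • L.p (s' m) + L.p m = 0
        rw [hsm, ← h]
        congr 1
        exact add_comm _ _
      · rcases hσ with h | h
        · right
          rw [h]
        · left
          rw [h, neg_neg]
      · intro i hi h1 h2 h3
        have h3' : i ≠ q := by
          rw [← hsm]
          exact h3
        have h4 := hneg i hi h3' h2 h1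
        rw [nor' L hL s' hs m hm, hsm, hnor, inner_neg_left, inner_smul_left]
        simp only [conj_trivial]
        have : 0 < r * (-(σ * (inner ℝ (L.nor m) (L.p i) : ℝ))) := by
          apply mul_pos hr
          linarith
        show -σ * -(r * (inner ℝ (L.nor m) (L.p i) : ℝ)) < 0
        linarith

end

end REV_

open REV_ in
theorem rev_proof : Stmt_Rev := by
  intro V _ L hL s' hs
  refine ⟨ok' L hL s' hs, ?_, turn' L hL s' hs⟩
  intro hVM b hb
  obtain ⟨Λ, c, hc, hb1, hb2, hb3⟩ := hb
  have hmaps := maps' L hL s' hs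
  have hss := ss' L hL s' hs
  have hcone := cone' L hL s' hs
  have hnor := nor' L hL s' hs
  have hadm : (rv L s').Adm (fun x => - b x) := by
    refine ⟨Λ, c, hc, ?_, ?_, ?_⟩
    · intro x hx hx0
      rw [hcone] at hx
      rw [norm_neg]
      exact hb1 x hx hx0
    · intro x hx y hy hx0 hy0
      rw [hcone] at hx hy
      have e : -b x - -b y = -(b x - b y) := by abel
      rw [e, norm_neg]
      exact hb2 x hx y hy hx0 hy0
    · intro i hi x hx hx0
      have hi' : i ∈ L.S := hi
      rw [face' L hL s' hs i hi'] at hx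
      rw [hnor i hi', inner_neg_neg]
      exact hb3 (s' i) (hmaps i hi') x hx hx0
  obtain ⟨ε₀, hε₀, H⟩ := hVM _ hadm
  refine ⟨ε₀, hε₀, fun ε hε hε' => ?_⟩
  obtain ⟨Ch, N', hCond, hRes⟩ := H ε hε hε'
  refine ⟨Ch, fun n => - N' n, ?_, ?_⟩
  · -- Cond
    intro i hi
    have hj : L.s (L.s i) ∈ L.S := hL.maps _ (hL.maps i hi)
    have e1 : s' (L.s (L.s i)) = L.s i := hs _ (hL.maps i hi)
    have e2 : s' (L.s i) = i := hs i hi
    obtain ⟨c1, c2, c3⟩ := hCond (L.s (L.s i)) hj
    have c1' : (rv L s').turn (L.s (L.s i)) = 0 → Ch (s' (L.s (L.s i))) = ∅ := c1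
    rw [turn' L hL s' hs i hi, e1] at c1'
    refine ⟨fun h => c1' (by rw [h, neg_zero]), ?_, ?_⟩
    · intro n hn
      have c2' := c2 n (by show n ∈ Ch (s' (L.s (L.s i))); rw [e1]; exact hn)
      obtain ⟨m, hm, d1, d2, d3, d4, d5, d6, d7, d8, σ, d9, d10⟩ := c2'
      have d1' : n = s(s' (L.s (L.s i)), m) := d1
      have d3' : m ≠ s' (L.s (L.s i)) := d3
      have d4' : m ≠ s' (s' (L.s (L.s i))) := d4
      have d5' : ∀ x ∈ L.S, x ≠ s' (L.s (L.s i)) → x ≠ m →
        det3 (L.p (s' (L.s (L.s i)))) (L.p m) (L.p x) ≠ 0 := d5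
      have d6' : Real.sign ((rv L s').turn (L.s (L.s i))) *
        inner ℝ (N' n) (L.p (s' (L.s (L.s i)))) < 0 := d6
      have d7' : 0 < Real.sign ((rv L s').turn (L.s (L.s i))) *
        inner ℝ (N' n) (L.p (s' (L.s (L.s i))) + ε • L.p (L.s (L.s i))) := d7
      have d8' : 0 < Real.sign ((rv L s').turn (L.s (L.s i))) *
        inner ℝ (N' n) (L.p (s' (L.s (L.s i))) + ε • L.p (s' (s' (L.s (L.s i))))) := d8
      have d10' : ‖N' n - σ • crs (L.p (s' (L.s (L.s i)))) (L.p m)‖ ≤ ε := d10
      rw [e1] at d1' d3' d5' d10'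
      rw [e1, e2] at d4'
      rw [turn' L hL s' hs i hi, e1, Real.sign_neg] at d6' d7'
      rw [turn' L hL s' hs i hi, e1, e2, Real.sign_neg] at d8'
      refine ⟨m, hm, d1', d4', d3', d2, d5', ?_, ?_, ?_, -σ, ?_, ?_⟩
      · rw [inner_neg_left]
        linarith
      · rw [inner_neg_left]
        linarith
      · rw [inner_neg_left]
        linarith
      · rcases d9 with h | h
        · right
          rw [h]
        · left
          rw [h, neg_neg]
      · have e : -N' n - -σ • crs (L.p (L.s i)) (L.p m) =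
            -(N' n - σ • crs (L.p (L.s i)) (L.p m)) := by
          rw [neg_smul]
          abel
        rw [e, norm_neg]
        exact d10'
    · intro n hn n' hn' hne
      have c3' := c3 n (by show n ∈ Ch (s' (L.s (L.s i))); rw [e1]; exact hn) n'
        (by show n' ∈ Ch (s' (L.s (L.s i))); rw [e1]; exact hn') hne
      obtain ⟨f1, f2, f3⟩ := c3'
      have f2' : det3 ((rv L s').nor (s' (L.s (L.s i)))) (N' n) (N' n') ≠ 0 := f2
      rw [hnor _ hj, e1, det3_neg1] at f1
      rw [e1, hnor _ (hL.maps i hi), e2, det3_neg1] at f2'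
      refine ⟨?_, ?_, ?_⟩
      · show det3 (L.nor i) (-N' n) (-N' n') ≠ 0
        rw [det3_neg2, det3_neg3, neg_neg]
        exact neg_ne_zero.1 f2'
      · show det3 (L.nor (L.s i)) (-N' n) (-N' n') ≠ 0
        rw [det3_neg2, det3_neg3, neg_neg]
        exact neg_ne_zero.1 f1
      · intro n'' hn'' g1 g2
        show det3 (-N' n) (-N' n') (-N' n'') ≠ 0
        rw [det3_neg1, det3_neg2, det3_neg3, neg_neg]
        exact neg_ne_zero.2
          (f3 n'' (by show n'' ∈ Ch (s' (L.s (L.s i))); rw [e1]; exact hn'') g1 g2)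
  · -- Res
    obtain ⟨o', oN', η, R, M, hη, hR, hX, hmain⟩ := hRes
    refine ⟨fun i => - o' (L.s i), fun n => - oN' n, η, R, M, hη, hR, ?_, ?_⟩
    · intro m hm
      have hcm := corner_of L hL m hm
      have hmS : m ∈ L.S := hcm.1
      obtain ⟨h1, h2⟩ := hX m hm
      constructor
      · show - o' (L.s m) = 0
        rw [h2 (L.s m) (hL.maps m hmS) (hs m hmS), neg_zero]
      · intro q _ hqm
        show - o' (L.s q) = 0
        rw [hqm, h1, neg_zero]
    · intro A B hNear
      obtain ⟨n1, n2, n3⟩ := hNear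
      set A' : V → Aff := fun j => -(A (s' j)) with hA'
      set B' : Sym2 V → Aff := fun n => -(B n) with hB'
      have hNear' : (rv L s').Near Ch N' o' oN' η A' B' := by
        refine ⟨?_, ?_, ?_⟩
        · intro j hj
          have hj' : j ∈ L.S := hj
          obtain ⟨g1, g2⟩ := n1 (s' j) (hmaps j hj')
          constructor
          · show ‖(-(A (s' j))).1 - (rv L s').nor j‖ < η
            rw [hnor j hj', Prod.fst_neg]
            have e : -(A (s' j)).1 - -L.nor (s' j) = -((A (s' j)).1 - L.nor (s' j)) := by abel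
            rw [e, norm_neg]
            exact g1
          · show |(-(A (s' j))).2 - o' j| < η
            rw [Prod.snd_neg]
            have g2' : |(A (s' j)).2 - - o' (L.s (s' j))| < η := g2
            rw [hss j hj'] at g2'
            have e : -(A (s' j)).2 - o' j = -((A (s' j)).2 - - o' j) := by ring
            rw [e, abs_neg]
            exact g2'
        · intro j hj n hn
          obtain ⟨g1, g2⟩ := n2 j hj n hn
          constructor
          · show ‖(-(B n)).1 - N' n‖ < η
            rw [Prod.fst_neg]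
            have e : -(B n).1 - N' n = -((B n).1 - - N' n) := by abel
            rw [e, norm_neg]
            exact g1
          · show |(-(B n)).2 - oN' n| < η
            rw [Prod.snd_neg]
            have e : -(B n).2 - oN' n = -((B n).2 - - oN' n) := by ring
            rw [e, abs_neg]
            exact g2
        · intro m hm
          have hcm := corner_of L hL m hm
          have hmS : m ∈ L.S := hcm.1
          obtain ⟨g1, g2⟩ := n3 m hm
          constructor
          · show -(A (s' m)) = ((rv L s').nor m, 0)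
            rw [g2 (s' m) (hmaps m hmS) (hss m hmS), hnor m hmS]
            exact Prod.ext rfl neg_zero
          · intro q hq hqm
            have hqm' : s' q = m := hqm
            show -(A (s' q)) = ((rv L s').nor q, 0)
            rw [hqm', g1, hnor q hq, hqm']
            exact Prod.ext rfl neg_zero
      obtain ⟨D, hD1, hD2, hDM, hD3⟩ := hmain A' B' hNear'
      rw [hcone] at hD1 hD2 hDM hD3
      refine ⟨D, hD1, ?_, hDM, ?_⟩
      · intro x hx
        obtain ⟨g1, g2⟩ := hD2 x hx
        refine ⟨g1, ?_⟩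
        intro m hm σ hσ
        have hcm := corner_of L hL m hm
        obtain ⟨q, hq, hqm, r, hr, hr'⟩ := corner_nor L m hcm
        have hmS : m ∈ L.S := hcm.1
        have hsm : s' m = q := by rw [← hqm]; exact hs q hq
        have e : (rv L s').nor m = -(r • L.nor m) := by
          rw [hnor m hmS, hsm, hr']
        have e2 : ∀ y : E3, (inner ℝ ((rv L s').nor m) y : ℝ) = -(r * inner ℝ (L.nor m) y) := by
          intro y
          rw [e, inner_neg_left, inner_smul_left]
          simp
        have g3 := g2 m hm (-σ) (by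
          intro i hi
          rw [e2]
          have := hσ i hi
          have h5 : r * (σ * (inner ℝ (L.nor m) (L.p i) : ℝ)) ≤ 0 :=
            mul_nonpos_of_nonneg_of_nonpos hr.le this
          show -σ * -(r * (inner ℝ (L.nor m) (L.p i) : ℝ)) ≤ 0
          linarith)
        rw [e2] at g3
        have h6 : r * (σ * (inner ℝ (L.nor m) (D x) : ℝ)) ≤ 0 := by linarith
        by_contra h7
        have h7' : 0 < σ * (inner ℝ (L.nor m) (D x) : ℝ) := not_le.1 h7
        have := mul_pos hr h7'
        linarith
      · intro x hx hxR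
        obtain ⟨⟨t, ht⟩, z1, z2⟩ := hD3 x hx hxR
        refine ⟨⟨-t, ?_⟩, ?_, ?_⟩
        · rw [ht]
          rw [smul_neg, neg_smul]
        · intro i hi hxi
          have hj : L.s (L.s i) ∈ L.S := hL.maps _ (hL.maps i hi)
          have e1 : s' (L.s (L.s i)) = L.s i := hs _ (hL.maps i hi)
          have e2 : s' (L.s i) = i := hs i hi
          have hxj : x ∈ (rv L s').armZone ε (L.s (L.s i)) := by
            obtain ⟨a, b', ha, hb', hab, h | h⟩ := hxi
            · refine ⟨a, b', ha, hb', hab, Or.inr ?_⟩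
              show x = a • L.p (s' (s' (L.s (L.s i)))) + b' • L.p (s' (L.s (L.s i)))
              rw [e1, e2]
              exact h
            · refine ⟨a, b', ha, hb', hab, Or.inl ?_⟩
              show x = a • L.p (L.s (L.s i)) + b' • L.p (s' (L.s (L.s i)))
              rw [e1]
              exact h
          obtain ⟨k1, Z, hZ, k2⟩ := z1 (L.s (L.s i)) hj hxj
          rw [turn' L hL s' hs i hi, Real.sign_neg] at k1
          have hlst : ∀ Z : Aff, Z ∈ L.lst Ch A B i ↔ -Z ∈ (rv L s').lst Ch A' B' (L.s (L.s i)) := by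
            intro Z
            show (Z = A i ∨ Z = A (L.s i) ∨ ∃ n ∈ Ch (L.s i), Z = B n) ↔
              (-Z = -(A (s' (L.s (L.s i)))) ∨ -Z = -(A (s' (s' (L.s (L.s i))))) ∨
                ∃ n ∈ Ch (s' (L.s (L.s i))), -Z = -(B n))
            rw [e1, e2]
            simp only [neg_inj]
            tauto
          refine ⟨?_, -Z, ?_, ?_⟩
          · intro Z' hZ'
            have := k1 (-Z') ((hlst Z').1 hZ')
            rw [ev_neg] at this
            linarith
          · rw [hlst, neg_neg]
            exact hZ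
          · rw [ev_neg, k2, neg_zero]
        · intro i hi hxi
          have e2 : s' (L.s i) = i := hs i hi
          have hxj : x ∈ (rv L s').faceZone ε (L.s i) := by
            obtain ⟨a, b', ha, hb', h1, h2, h3⟩ := hxi
            refine ⟨b', a, hb', ha, h2, h1, ?_⟩
            show x = b' • L.p (L.s i) + a • L.p (s' (L.s i))
            rw [e2, h3]
            exact add_comm _ _
          have k := z2 (L.s i) (hL.maps i hi) hxj
          have k' : ev (-(A (s' (L.s i)))) (D x) = 0 := k
          rw [e2, ev_neg] at k'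
          linarith

end Pool.Agent.TSM
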