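import Pool.Agent.TSM.SStmts

/-!
# TSM, module RHO: radial projection of the boundary of the polytope onto the smooth convex body
-/

set_option autoImplicit false

namespace Pool.Agent.TSM

open Set Filter Topology Metric
open scoped Manifold ContDiff

namespace RHO_

/-- the point on the ray from `o` through `x` -/
noncomputable def pt (o x : E3) (t : ℝ) : E3 := o + t • (x - o)

theorem ev_pt (φ : Aff) (o x : E3) (t : ℝ) :
    ev φ (pt o x t) = (1 - t) * ev φ o + t * ev φ x := by
  simp only [ev, pt, inner_add_right, inner_smul_right, inner_sub_right]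
  ring

theorem cont_ev (φ : Aff) : Continuous (ev φ) := by
  unfold ev
  fun_prop

theorem exists_m (Φ : Finset Aff) (o : E3) (h : ∀ φ ∈ Φ, ev φ o < 0) :
    ∃ m > 0, ∀ φ ∈ Φ, ev φ o ≤ -m := by
  have h1 : ∀ᶠ m : ℝ in 𝓝[>] 0, ∀ φ ∈ Φ, ev φ o ≤ -m := by
    rw [Filter.eventually_all_finset]
    intro φ hφ
    have h2 : Iio (-(ev φ o)) ∈ 𝓝 (0 : ℝ) := Iio_mem_nhds (by linarith [h φ hφ])
    filter_upwards [mem_nhdsWithin_of_mem_nhds h2] with m hm
    have : m < -(ev φ o) := hm
    linarith
  have h3 : ∀ᶠ m : ℝ in 𝓝[>] 0, 0 < m := self_mem_nhdsWithin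
  obtain ⟨m, hm1, hm2⟩ := (h1.and h3).exists
  exact ⟨m, hm2, hm1⟩

section

variable {l : ℝ} (hl : 0 < l) (h0 : ∀ s, s ≤ -l → theta l s = 0)
  (hnn : ∀ s, 0 ≤ theta l s) (hst : StrictMonoOn (theta l) (Ioi (-l)))
  {Φ : Finset Aff} {o : E3} (ho : ∀ φ ∈ Φ, ev φ o < -l)

include hl h0 hnn hst ho

/-- each summand is monotone along rays, strictly where it is positive -/
theorem term_mono (φ : Aff) (hφ : φ ∈ Φ) (x : E3) {s t : ℝ} (hs : 0 ≤ s) (hst' : s < t) :
    theta l (ev φ (pt o x s)) ≤ theta l (ev φ (pt o x t)) ∧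
      (theta l (ev φ (pt o x s)) ≠ 0 →
        theta l (ev φ (pt o x s)) < theta l (ev φ (pt o x t))) := by
  by_cases h : ev φ (pt o x s) ≤ -l
  · rw [h0 _ h]
    exact ⟨hnn _, fun h1 => absurd rfl h1⟩
  · push Not at h
    have h1 := ho φ hφ
    rw [ev_pt] at h
    have h2 : 0 < s * (ev φ x - ev φ o) := by nlinarith
    have h3 : 0 < ev φ x - ev φ o := by
      by_contra h4
      push Not at h4
      have := mul_nonpos_of_nonneg_of_nonpos hs h4
      linarith
    have h5 : ev φ (pt o x s) < ev φ (pt o x t) := by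
      rw [ev_pt, ev_pt]
      nlinarith [mul_pos (sub_pos.2 hst') h3]
    have h6 : -l < ev φ (pt o x s) := by rw [ev_pt]; exact h
    have h7 : theta l (ev φ (pt o x s)) < theta l (ev φ (pt o x t)) :=
      hst h6 (lt_trans h6 h5) h5
    exact ⟨h7.le, fun _ => h7⟩

theorem HH_mono (x : E3) {s t : ℝ} (hs : 0 ≤ s) (hst' : s < t) :
    HH Φ l (pt o x s) ≤ HH Φ l (pt o x t) ∧
      (-1 < HH Φ l (pt o x s) → HH Φ l (pt o x s) < HH Φ l (pt o x t)) := by
  have h1 := fun φ hφ => term_mono hl h0 hnn hst ho φ hφ x hs hst'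
  refine ⟨?_, fun h => ?_⟩
  · unfold HH
    have := Finset.sum_le_sum (fun φ hφ => (h1 φ hφ).1)
    linarith
  · unfold HH at h ⊢
    have h2 : ∃ φ ∈ Φ, theta l (ev φ (pt o x s)) ≠ 0 := by
      by_contra h3
      push Not at h3
      rw [Finset.sum_eq_zero h3] at h
      linarith
    obtain ⟨φ, hφ, h3⟩ := h2
    have := Finset.sum_lt_sum (fun φ hφ => (h1 φ hφ).1) ⟨φ, hφ, (h1 φ hφ).2 h3⟩
    linarith

/-- sign of `HH` before and after a zero -/
theorem HH_sign (x : E3) {s t : ℝ} (hs : 0 ≤ s) (hst' : s < t) :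
    (HH Φ l (pt o x s) = 0 → 0 < HH Φ l (pt o x t)) ∧
      (HH Φ l (pt o x t) = 0 → HH Φ l (pt o x s) < 0) := by
  have h1 := HH_mono hl h0 hnn hst ho x hs hst'
  refine ⟨fun h => ?_, fun h => ?_⟩
  · have := h1.2 (by rw [h]; norm_num)
    rwa [h] at this
  · by_cases h2 : -1 < HH Φ l (pt o x s)
    · have := h1.2 h2
      rwa [h] at this
    · push Not at h2
      linarith

end

end RHO_

open RHO_ in
/-- RHO. -/
theorem rho_proof (hTh : Stmt_Theta) (_hHd : Stmt_HHd) : Stmt_Rho := by
  intro Φ hP ε hε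
  obtain ⟨o, ho⟩ := hP.int
  obtain ⟨m, hm, hom⟩ := exists_m Φ o ho
  obtain ⟨d0, hd0⟩ := hP.bdd.exists_norm_le
  obtain ⟨d, hd, hdb⟩ : ∃ d > 0, ∀ x ∈ hull Φ, ‖x - o‖ ≤ d := by
    refine ⟨|d0| + ‖o‖ + 1, by positivity, fun x hx => ?_⟩
    have h1 := norm_sub_le x o
    have h2 := hd0 x hx
    have h3 := le_abs_self d0
    linarith
  refine ⟨min m (ε * m / d), by positivity, fun l hl hl0 => ?_⟩
  have hlm : l < m := lt_of_lt_of_le hl0 (min_le_left _ _)
  have hld : l < ε * m / d := lt_of_lt_of_le hl0 (min_le_right _ _)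
  obtain ⟨hC, h0, h1, hgt, hmono, hnn, -, hdp, -, -, -⟩ := hTh l hl
  have hcont : Continuous (theta l) := hC.continuous
  have hst : StrictMonoOn (theta l) (Ioi (-l)) := by
    apply strictMonoOn_of_deriv_pos (convex_Ioi _) hcont.continuousOn
    intro x hx
    rw [interior_Ioi] at hx
    exact hdp x hx
  have hol : ∀ φ ∈ Φ, ev φ o < -l := fun φ hφ => by have := hom φ hφ; linarith
  have hHc : Continuous (HH Φ l) := by
    unfold HH
    exact (continuous_finsetSum _ fun φ _ => hcont.comp (cont_ev φ)).sub continuous_const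
  refine ⟨⟨o, fun φ hφ => (hol φ hφ).le⟩, ?_⟩
  set B : Set E3 := {x | x ∈ hull Φ ∧ ∃ φ ∈ Φ, ev φ x = 0} with hB
  -- existence of the zero
  have hex : ∀ x ∈ B, ∃ t : ℝ, 0 < t ∧ t ≤ 1 ∧ (1 - t) * m ≤ l ∧ HH Φ l (pt o x t) = 0 := by
    intro x hx
    obtain ⟨hxh, φ0, hφ0, hev0⟩ := hx
    set a : ℝ := 1 - l / m with ha
    have hlm1 : l / m < 1 := (div_lt_one hm).2 hlm
    have hlm0 : 0 < l / m := div_pos hl hm
    have ha0 : 0 < a := by rw [ha]; linarith
    have ha1 : a < 1 := by rw [ha]; linarith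
    have hlt : HH Φ l (pt o x a) < 0 := by
      unfold HH
      rw [Finset.sum_eq_zero]
      · norm_num
      · intro φ hφ
        apply h0
        rw [ev_pt]
        have e1 : a * ev φ x ≤ 0 := mul_nonpos_of_nonneg_of_nonpos ha0.le (hxh φ hφ)
        have e2 : (1 - a) * ev φ o ≤ (1 - a) * (-m) :=
          mul_le_mul_of_nonneg_left (hom φ hφ) (by linarith)
        have e3 : (1 - a) * (-m) = -l := by
          rw [ha]; field_simp; ring
        linarith
    have hge : 0 ≤ HH Φ l (pt o x 1) := by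
      have e0 : pt o x 1 = x := by simp [pt]
      rw [e0]
      unfold HH
      have e1 : theta l (ev φ0 x) ≤ ∑ φ ∈ Φ, theta l (ev φ x) :=
        Finset.single_le_sum (f := fun φ => theta l (ev φ x)) (fun φ _ => hnn _) hφ0
      rw [hev0, h1] at e1
      linarith
    have hc : ContinuousOn (fun t => HH Φ l (pt o x t)) (Icc a 1) := by
      apply Continuous.continuousOn
      apply hHc.comp
      unfold pt
      fun_prop
    obtain ⟨t, ht, ht0⟩ := intermediate_value_Icc ha1.le hc ⟨hlt.le, hge⟩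
    refine ⟨t, lt_of_lt_of_le ha0 ht.1, ht.2, ?_, ht0⟩
    have e3 : 1 - t ≤ l / m := by
      have := ht.1
      rw [ha] at this
      linarith
    calc (1 - t) * m ≤ l / m * m := mul_le_mul_of_nonneg_right e3 hm.le
      _ = l := by field_simp
  classical
  let T : E3 → ℝ := fun x => if hx : x ∈ B then (hex x hx).choose else 1
  have hT : ∀ x ∈ B, 0 < T x ∧ T x ≤ 1 ∧ (1 - T x) * m ≤ l ∧ HH Φ l (pt o x (T x)) = 0 := by
    intro x hx
    have : T x = (hex x hx).choose := dif_pos hx
    rw [this]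
    exact (hex x hx).choose_spec
  -- continuity
  have hTc : ContinuousOn T B := by
    intro x0 hx0
    obtain ⟨ht0, -, -, hz⟩ := hT x0 hx0
    have hptc : ∀ a : ℝ, Continuous (fun x => HH Φ l (pt o x a)) := by
      intro a
      apply hHc.comp
      unfold pt
      fun_prop
    have hmem : ∀ᶠ x in 𝓝[B] x0, x ∈ B := self_mem_nhdsWithin
    refine tendsto_order.2 ⟨fun a ha => ?_, fun a ha => ?_⟩
    · rcases le_or_gt 0 a with h | h
      · have e1 : HH Φ l (pt o x0 a) < 0 := (HH_sign hl h0 hnn hst hol x0 h ha).2 hz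
        have e2 : ∀ᶠ x in 𝓝[B] x0, HH Φ l (pt o x a) < 0 :=
          nhdsWithin_le_nhds (((hptc a).continuousAt).eventually (Iio_mem_nhds e1))
        filter_upwards [e2, hmem] with x hx hxB
        by_contra h3
        push Not at h3
        obtain ⟨u0, -, -, u3⟩ := hT x hxB
        rcases h3.lt_or_eq with h4 | h4
        · have := (HH_sign hl h0 hnn hst hol x u0.le h4).1 u3
          linarith
        · rw [h4] at u3
          linarith
      · filter_upwards [hmem] with x hxB
        exact lt_trans h (hT x hxB).1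
    · have e1 : 0 < HH Φ l (pt o x0 a) := (HH_sign hl h0 hnn hst hol x0 ht0.le ha).1 hz
      have e2 : ∀ᶠ x in 𝓝[B] x0, 0 < HH Φ l (pt o x a) :=
        nhdsWithin_le_nhds (((hptc a).continuousAt).eventually (Ioi_mem_nhds e1))
      filter_upwards [e2, hmem] with x hx hxB
      by_contra h3
      push Not at h3
      obtain ⟨u0, -, -, u3⟩ := hT x hxB
      rcases h3.lt_or_eq with h4 | h4
      · have := (HH_sign hl h0 hnn hst hol x (lt_trans ht0 ha).le h4).2 u3
        linarith
      · rw [← h4] at u3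
        linarith
  -- injectivity
  have key : ∀ x ∈ B, ∀ x' ∈ B, T x ≤ T x' → pt o x (T x) = pt o x' (T x') → x = x' := by
    intro x hx x' hx' hle he
    obtain ⟨u0, u1, u2, u3⟩ := hT x hx
    obtain ⟨v0, v1, v2, v3⟩ := hT x' hx'
    have e1 : T x • (x - o) = T x' • (x' - o) := by
      unfold pt at he
      exact add_left_cancel he
    set s : ℝ := T x / T x' with hs
    have hs0 : 0 < s := div_pos u0 v0
    have hs1 : s ≤ 1 := (div_le_one v0).2 hle
    have e2 : x' = pt o x s := by
      unfold pt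
      have : x' - o = s • (x - o) := by
        have e3 : T x' • (x' - o) = T x' • (s • (x - o)) := by
          rw [smul_smul, hs, mul_div_cancel₀ _ v0.ne', e1]
        exact smul_right_injective E3 v0.ne' e3
      rw [← this]
      abel
    rcases hs1.lt_or_eq with h | h
    · exfalso
      obtain ⟨-, ψ, hψ, hψ0⟩ := hx'
      rw [e2, ev_pt] at hψ0
      have e4 : s * ev ψ x ≤ 0 := mul_nonpos_of_nonneg_of_nonpos hs0.le (hx.1 ψ hψ)
      have e5 : (1 - s) * ev ψ o < 0 :=
        mul_neg_of_pos_of_neg (by linarith) (by linarith [hol ψ hψ])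
      linarith
    · rw [e2, h]
      simp [pt]
  refine ⟨fun x => pt o x (T x), ?_, ?_, ?_⟩
  · unfold pt
    exact continuousOn_const.add (hTc.smul (continuousOn_id.sub continuousOn_const))
  · intro x hx x' hx' he
    rcases le_total (T x) (T x') with h | h
    · exact key x hx x' hx' h he
    · exact (key x' hx' x hx h he.symm).symm
  · intro x hxh hxφ
    have hxB : x ∈ B := ⟨hxh, hxφ⟩
    obtain ⟨u0, u1, u2, u3⟩ := hT x hxB
    refine ⟨u3, ?_, fun huniq => ?_⟩
    · have e1 : pt o x (T x) - x = (-(1 - T x)) • (x - o) := by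
        unfold pt
        rw [neg_smul, sub_smul, one_smul]
        abel
      show ‖pt o x (T x) - x‖ < ε
      rw [e1, norm_smul, norm_neg, Real.norm_eq_abs, abs_of_nonneg (by linarith)]
      have e2 : (1 - T x) ≤ l / m := (le_div_iff₀ hm).2 u2
      calc (1 - T x) * ‖x - o‖ ≤ l / m * d :=
            mul_le_mul e2 (hdb x hxh) (norm_nonneg _) (by positivity)
        _ < (ε * m / d) / m * d := by
            apply mul_lt_mul_of_pos_right _ hd
            exact (div_lt_div_iff_of_pos_right hm).2 hld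
        _ = ε := by field_simp
    · obtain ⟨φ0, hφ0, hev0⟩ := hxφ
      have hHx : HH Φ l (pt o x 1) = 0 := by
        have e0 : pt o x 1 = x := by simp [pt]
        rw [e0]
        unfold HH
        rw [Finset.sum_eq_single_of_mem φ0 hφ0, hev0, h1]
        · ring
        · intro ψ hψ hne
          apply h0
          by_contra h3
          push Not at h3
          exact hne (huniq ψ hψ φ0 hφ0 h3 (by rw [hev0]; linarith))
      have hT1 : T x = 1 := by
        rcases u1.lt_or_eq with h | h
        · have := (HH_sign hl h0 hnn hst hol x u0.le h).1 u3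
          linarith
        · exact h
      show pt o x (T x) = x
      rw [hT1]
      simp [pt]

end Pool.Agent.TSM
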