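import Pool.Agent.TSM.Imm

/-!
# TSM: definitions for the smoothing theorem (Part S)
-/

set_option autoImplicit false

namespace Pool.Agent.TSM

open Set Filter Topology
open scoped Manifold ContDiff

/-- affine functions `x ↦ ⟪n, x⟫ - c` on `E3` -/
abbrev Aff := E3 × ℝ

/-- the three normals are linearly independent -/
def Indep (a b c : Aff) : Prop := LinearIndependent ℝ ![a.1, b.1, c.1]

/-- the 3-valent saddle function -/
noncomputable def G3 (a b c : Aff) (x : E3) : ℝ := max (min (ev a x) (ev b x)) (ev c x)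

/-- near `x` the map `D` parametrises injectively a 3-valent saddle, an edge or a plane -/
def Good {M : Type} [TopologicalSpace M] (D : M → E3) (x : M) : Prop :=
  ∃ U ∈ 𝓝 x, InjOn D U ∧ ∃ a b c : Aff, Indep a b c ∧ ∀ y ∈ U, G3 a b c (D y) = 0

/-- near `x` the map `D` is injective with values in the boundary of the polytope -/
def OutGood {M : Type} [TopologicalSpace M] (Φ : Finset Aff) (D : M → E3) (x : M) : Prop :=
  ∃ U ∈ 𝓝 x, InjOn D U ∧ ∀ y ∈ U, ∃ φ ∈ Φ, ev φ (D y) = 0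

structure Poly (Φ : Finset Aff) : Prop where
  unit : ∀ φ ∈ Φ, ‖φ.1‖ = 1
  inj : ∀ φ ∈ Φ, ∀ ψ ∈ Φ, φ.1 = ψ.1 → φ = ψ
  bdd : Bornology.IsBounded (hull Φ)
  int : ∃ o, ∀ φ ∈ Φ, ev φ o < 0

/-- input of the smoothing theorem -/
structure PreSmooth {M : Type} [TopologicalSpace M] (Φ : Finset Aff) (D : M → E3) : Prop where
  poly : Poly Φ
  cont : Continuous D
  inC : ∀ x, D x ∈ hull Φ
  good : ∀ x, (∀ φ ∈ Φ, ∀ ψ ∈ Φ, ev φ (D x) = 0 → ev ψ (D x) = 0 → φ = ψ) → Good D x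
  out : ∀ x, (∃ φ ∈ Φ, ∃ ψ ∈ Φ, φ ≠ ψ ∧ ev φ (D x) = 0 ∧ ev ψ (D x) = 0) → OutGood Φ D x
  ext : ∀ x y, D x = D y → D x ∈ extremePoints ℝ (hull Φ) → x = y

/-- THE SMOOTHING THEOREM (Part S) -/
def Stmt_Smooth : Prop :=
  ∀ (M : Type) [TopologicalSpace M] [CompactSpace M] [T2Space M] [ChartedSpace E2 M]
    (Φ : Finset Aff) (D : M → E3), PreSmooth Φ D → ∀ ε : ℝ, 0 < ε →
    ∃ g : M → E3, LocImm g ∧ TPP g ∧ ∀ x, ‖g x - D x‖ < ε

/-! ### smoothing functions -/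

/-- smooth convex function which is `max s 0` outside `(-1,1)` and strictly convex inside -/
structure IsPhi (φ : ℝ → ℝ) : Prop where
  smooth : ContDiff ℝ ∞ φ
  zero : ∀ s, s ≤ -1 → φ s = 0
  one : ∀ s, 1 ≤ s → φ s = s
  even : ∀ s, φ s - φ (-s) = s
  ge : ∀ s, max s 0 ≤ φ s
  le : ∀ s, φ s ≤ max s 0 + 1
  d_nonneg : ∀ s, 0 ≤ deriv φ s
  d_le : ∀ s, deriv φ s ≤ 1
  d_pos : ∀ s, -1 < s → 0 < deriv φ s
  d_lt : ∀ s, s < 1 → deriv φ s < 1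
  dd_nonneg : ∀ s, 0 ≤ deriv (deriv φ) s
  dd_pos : ∀ s, -1 < s → s < 1 → 0 < deriv (deriv φ) s

noncomputable def smax (φ : ℝ → ℝ) (ε a b : ℝ) : ℝ := b + ε * φ ((a - b) / ε)

/-- smoothing of `G3` -/
noncomputable def F3 (φ : ℝ → ℝ) (ε : ℝ) (a b c : Aff) (x : E3) : ℝ :=
  smax φ ε (-(smax φ ε (-(ev a x)) (-(ev b x)))) (ev c x)

/-- the normals which matter at a zero `y` of `G3 a b c` -/
def Nrm (a b c : Aff) (y : E3) : Set E3 :=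
  {n | (n = c.1 ∧ ev c y = 0) ∨ (n = a.1 ∧ ev a y = 0 ∧ 0 ≤ ev b y) ∨
    (n = b.1 ∧ ev b y = 0 ∧ 0 ≤ ev a y)}

noncomputable def theta (l s : ℝ) : ℝ :=
  expNegInvGlue ((s + l) / (4 * l)) / expNegInvGlue (1 / 4)

/-- the smooth convex body is `{HH Φ l ≤ 0}` -/
noncomputable def HH (Φ : Finset Aff) (l : ℝ) (x : E3) : ℝ := (∑ φ ∈ Φ, theta l (ev φ x)) - 1

/-- near `x`, `g` parametrises injectively a smoothed saddle with normals in `N` -/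
def GoodSm {M : Type} [TopologicalSpace M] (N : Set E3) (g : M → E3) (x : M) : Prop :=
  ∃ U ∈ 𝓝 x, InjOn g U ∧ ∃ (φ : ℝ → ℝ) (ε : ℝ) (a b c : Aff), IsPhi φ ∧ 0 < ε ∧ Indep a b c ∧
    a.1 ∈ N ∧ b.1 ∈ N ∧ c.1 ∈ N ∧ ∀ y ∈ U, F3 φ ε a b c (g y) = 0

/-- near `x`, `g` parametrises injectively the smooth convex surface -/
def OutSm {M : Type} [TopologicalSpace M] (Φ : Finset Aff) (l : ℝ) (g : M → E3) (x : M) : Prop :=
  ∃ U ∈ 𝓝 x, InjOn g U ∧ ∀ y ∈ U, HH Φ l (g y) = 0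

/-- finite cover of `K` by good charts with a partition of unity which is locally Lipschitz
with respect to `D` -/
structure GCover {M : Type} [TopologicalSpace M] (D : M → E3) (K : Set M) (m : ℕ)
    (U : Fin m → Set M) (a b c : Fin m → Aff) (e : Fin m → E3) (χ : Fin m → M → ℝ) : Prop where
  opn : ∀ j, IsOpen (U j)
  inj : ∀ j, InjOn D (U j)
  ind : ∀ j, Indep (a j) (b j) (c j)
  ua : ∀ j, ‖(a j).1‖ = 1
  ub : ∀ j, ‖(b j).1‖ = 1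
  uc : ∀ j, ‖(c j).1‖ = 1
  zero : ∀ j, ∀ x ∈ U j, G3 (a j) (b j) (c j) (D x) = 0
  ea : ∀ j, inner ℝ (a j).1 (e j) = 1
  eb : ∀ j, inner ℝ (b j).1 (e j) = 1
  ec : ∀ j, inner ℝ (c j).1 (e j) = 1
  cont : ∀ j, Continuous (χ j)
  nonneg : ∀ j x, 0 ≤ χ j x
  le : ∀ x, ∑ j, χ j x ≤ 1
  supp : ∀ j, closure (Function.support (χ j)) ⊆ U j
  sum : ∀ x ∈ K, ∑ j, χ j x = 1
  lip : ∀ j x, ∃ V ∈ 𝓝 x, ∃ L : ℝ, ∀ y ∈ V, ∀ z ∈ V, |χ j y - χ j z| ≤ L * ‖D y - D z‖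

/-- the smoothed map on the good part -/
noncomputable def gsm {M : Type} (D : M → E3) (m : ℕ) (a b c : Fin m → Aff) (e : Fin m → E3)
    (χ : Fin m → M → ℝ) (φ : ℝ → ℝ) (ε : ℝ) (x : M) : E3 :=
  D x - ∑ j, (χ j x * F3 φ ε (a j) (b j) (c j) (D x)) • e j

end Pool.Agent.TSM
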