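import Pool.Agent.TSM.VStmts3

/-!
# TSM, Part VM: assembly of the ear step
-/

set_option autoImplicit false

namespace Pool.Agent.TSM

open Set Filter Topology Metric

namespace STEP_

variable {V : Type} [DecidableEq V]

theorem crs_neg_swap (a b : E3) : (-1 : ℝ) • crs a b = crs b a := by
  ext i
  fin_cases i <;> simp [crs] <;> ring

theorem crs_add_right (a b : E3) (r : ℝ) : crs a (b + r • a) = crs a b := by
  ext i
  fin_cases i <;> simp [crs] <;> ring

theorem crs_add_left (a b : E3) (r : ℝ) : crs (a + r • b) b = crs a b := by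
  ext i
  fin_cases i <;> simp [crs] <;> ring

section
variable {L : Pg V} {t u k w z : V} (h : L.Ear t u k w z)
include h

theorem ne_all : t ≠ u ∧ t ≠ k ∧ t ≠ w ∧ t ≠ z ∧ u ≠ k ∧ u ≠ w ∧ u ≠ z ∧ k ≠ w ∧ k ≠ z ∧ w ≠ z := by
  have := h.nodup
  simp only [List.nodup_cons, List.mem_cons, not_or, List.not_mem_nil, not_false_iff,
    List.nodup_nil, and_true] at this
  tauto

theorem hat_s (a a' : ℝ) {i : V} (hi : i ∈ L.S) (hu : i ≠ u) :
    (L.hat t u k w z a a').s i = L.s i := by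
  have : L.s i ≠ k := fun hk => hu (h.ok.inj i hi u h.memu (hk.trans h.su.symm))
  simp [Pg.hat, Pg.erase, this]

theorem hat_su (a a' : ℝ) : (L.hat t u k w z a a').s u = w := by
  simp [Pg.hat, Pg.erase, h.su, h.sk]

theorem hat_nor (a a' : ℝ) {i : V} (hi : i ∈ L.S) (hu : i ≠ u) (hk : i ≠ k) :
    (L.hat t u k w z a a').nor i = L.nor i := by
  obtain ⟨tu, tk, tw, tz, uk, uw, uz, kw, kz, wz⟩ := ne_all h
  unfold Pg.nor
  rw [hat_s h a a' hi hu]
  by_cases h1 : i = w
  · subst h1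
    rw [h.sw]
    have e1 : (L.hat t u k i z a a').p i = L.p i + a' • L.p z := by
      simp [Pg.hat, uw.symm]
    have e2 : (L.hat t u k i z a a').p z = L.p z := by
      simp [Pg.hat, uz.symm, wz.symm]
    rw [e1, e2, crs_add_left]
  · have e1 : (L.hat t u k w z a a').p i = L.p i := by
      simp [Pg.hat, hu, h1]
    rw [e1]
    by_cases h2 : i = t
    · subst h2
      rw [h.st]
      have e2 : (L.hat i u k w z a a').p u = L.p u + a • L.p i := by
        simp [Pg.hat]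
      rw [e2, crs_add_right]
    · have h3 : L.s i ≠ u := fun hh => h2 (h.ok.inj i hi t h.memt (hh.trans h.st.symm))
      have h4 : L.s i ≠ w := fun hh => hk (h.ok.inj i hi k h.memk (hh.trans h.sk.symm))
      have e2 : (L.hat t u k w z a a').p (L.s i) = L.p (L.s i) := by
        simp [Pg.hat, h3, h4]
      rw [e2]

theorem hat_noru (a a' : ℝ) :
    (L.hat t u k w z a a').nor u = crs (L.p u + a • L.p t) (L.p w + a' • L.p z) := by
  obtain ⟨tu, tk, tw, tz, uk, uw, uz, kw, kz, wz⟩ := ne_all h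
  unfold Pg.nor
  rw [hat_su h]
  simp [Pg.hat, uw.symm]

end

theorem surj_of_inj {L : Pg V} (hok : L.Ok) {j : V} (hj : j ∈ L.S) : ∃ i ∈ L.S, L.s i = j := by
  have h1 : L.S.image L.s = L.S := by
    apply Finset.eq_of_subset_of_card_le
    · intro x hx
      obtain ⟨i, hi, rfl⟩ := Finset.mem_image.1 hx
      exact hok.maps i hi
    · rw [Finset.card_image_of_injOn (fun i hi j hj hij => hok.inj i hi j hj hij)]
  rw [← h1] at hj
  obtain ⟨i, hi, h⟩ := Finset.mem_image.1 hj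
  exact ⟨i, hi, h⟩

/-- a chamfer label of the hat polygon is never the label of the chord `u w` -/
theorem ne_uw {L : Pg V} {t u k w z : V} (h : L.Ear t u k w z) (a a' : ℝ)
    (hok : (L.hat t u k w z a a').Ok) {ε' : ℝ} {Ch : V → Finset (Sym2 V)} {N : Sym2 V → E3}
    (hc : (L.hat t u k w z a a').Cond ε' Ch N) {j : V} (hj : j ∈ (L.hat t u k w z a a').S)
    {n : Sym2 V} (hn : n ∈ Ch j) : n ≠ s(u, w) := by
  obtain ⟨tu, tk, tw, tz, uk, uw, uz, kw, kz, wz⟩ := ne_all h
  obtain ⟨i, hi, rfl⟩ := surj_of_inj hok hj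
  obtain ⟨m, hm, hnm, h1, h2, h3, -⟩ := (hc i hi).2.1 n hn
  intro heq
  rw [hnm] at heq
  rcases Sym2.eq_iff.1 heq with ⟨ha, hb⟩ | ⟨ha, hb⟩
  · apply h3
    rw [ha, hat_su h, hb]
  · apply h1
    rw [hb]
    have hui : u ∈ (L.hat t u k w z a a').S := Finset.mem_erase.2 ⟨uk, h.memu⟩
    exact hok.inj u hui i hi (by rw [hat_su h, ha])

end STEP_

open STEP_

theorem step_proof (hPrep : Stmt_Prep) (hGeoe : Stmt_Geoe) (hTilt : Stmt_Tilt)
    (hNumu : Stmt_Numu) (hCndn : Stmt_Cndn) (hPsi : Stmt_Psi) (hFld : Stmt_Fld)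
    (hExt : Stmt_Ext) (hKap : Stmt_Kap) (hVinj : Stmt_Vinj) (hEnd : Stmt_End)
    (hDnew : Stmt_Dnew) (hChg : Stmt_Chg) (hTrans : Stmt_Trans) : Stmt_Step := by
  classical
  intro V _ L u k ok card hu su ok' earc pos IH b hb
  obtain ⟨t, w, z, hE⟩ := hPrep V L u k ok card hu su ok' earc pos
  obtain ⟨tu, tk, tw, tz, uk, uw, uz, kw, kz, wz⟩ := ne_all hE
  obtain ⟨x₀, y₀, hEE⟩ := hGeoe V L t u k w z hE
  obtain ⟨δ1, hδ1, hnum⟩ := hNumu V L t u k w z x₀ y₀ hE hEE
  obtain ⟨δ2, hδ2, hpsi⟩ := hPsi V L t u k w z x₀ y₀ hE hEE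
  obtain ⟨δ3, hδ3, hfld⟩ := hFld V L t u k w z x₀ y₀ hE hEE b hb
  obtain ⟨δ4, hδ4, hvinj⟩ := hVinj V L t u k w z x₀ y₀ hE hEE
  obtain ⟨δ, hδ, d1, d2, d3, d4, d5⟩ : ∃ δ : ℝ, 0 < δ ∧ δ ≤ δ1 ∧ δ ≤ δ2 ∧ δ ≤ δ3 ∧ δ ≤ δ4 ∧
      δ ≤ 1 / 2 :=
    ⟨min (min δ1 δ2) (min (min δ3 δ4) (1 / 2)), by positivity,
      (min_le_left _ _).trans (min_le_left _ _), (min_le_left _ _).trans (min_le_right _ _),
      (min_le_right _ _).trans ((min_le_left _ _).trans (min_le_left _ _)),
      (min_le_right _ _).trans ((min_le_left _ _).trans (min_le_right _ _)),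
      (min_le_right _ _).trans (min_le_right _ _)⟩
  obtain ⟨b₁, hb1, hb1z, a3, ha3, hb1h⟩ := hfld δ hδ d3
  obtain ⟨κ₁, hκ, hkap⟩ := hKap V L t u k w z x₀ y₀ hE hEE δ hδ
  have hvin := hvinj δ hδ d4
  obtain ⟨μ, ε1, hμ, hε1, hchg⟩ := hChg V L ok
  obtain ⟨ε2, hε2, htr⟩ := hTrans V L ok b₁ b hb1 hb μ hμ
  refine ⟨min (min ε1 ε2) (min (δ / 2) (1 / 4)), by positivity, fun ε hε hεlt => ?_⟩
  have hεε1 : ε < ε1 := hεlt.trans_le ((min_le_left _ _).trans (min_le_left _ _))
  have hεε2 : ε < ε2 := hεlt.trans_le ((min_le_left _ _).trans (min_le_right _ _))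
  have hεδ : 2 * ε ≤ δ := by
    have := hεlt.trans_le ((min_le_right _ _).trans (min_le_left _ _)); linarith
  have hε4 : ε ≤ 1 / 4 := (hεlt.trans_le ((min_le_right _ _).trans (min_le_right _ _))).le
  obtain ⟨a1, ha1, hnum⟩ := hnum ε δ hε hεδ d1
  obtain ⟨a2, ha2, hpsi⟩ := hpsi ε δ hε hεδ d2
  obtain ⟨a4, ha4, hcn⟩ := hCndn V L t u k w z x₀ y₀ hE hEE ε δ hε
  obtain ⟨a5, ha5, htilt⟩ := hTilt V L t u k w z hE
  obtain ⟨a₀, ha0, q1, q2, q3, q4, q5, q6⟩ : ∃ a₀ : ℝ, 0 < a₀ ∧ a₀ ≤ a1 ∧ a₀ ≤ a2 ∧ a₀ ≤ a3 ∧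
      a₀ ≤ a4 ∧ a₀ ≤ a5 ∧ a₀ ≤ δ / 2 :=
    ⟨min (min a1 a2) (min (min a3 a4) (min a5 (δ / 2))), by positivity,
      (min_le_left _ _).trans (min_le_left _ _), (min_le_left _ _).trans (min_le_right _ _),
      (min_le_right _ _).trans ((min_le_left _ _).trans (min_le_left _ _)),
      (min_le_right _ _).trans ((min_le_left _ _).trans (min_le_right _ _)),
      (min_le_right _ _).trans ((min_le_right _ _).trans (min_le_left _ _)),
      (min_le_right _ _).trans ((min_le_right _ _).trans (min_le_right _ _))⟩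
  -- choice of the tilts
  have key : ∀ c : ℝ, c ≠ 0 → ∃ a : ℝ, 0 < c * a ∧ |a| < a₀ := by
    intro c hc
    refine ⟨Real.sign c * (a₀ / 2), ?_, ?_⟩
    · rcases lt_or_gt_of_ne hc with h | h
      · rw [Real.sign_of_neg h]; nlinarith
      · rw [Real.sign_of_pos h]; nlinarith
    · rcases lt_or_gt_of_ne hc with h | h
      · rw [Real.sign_of_neg h, abs_lt]; constructor <;> linarith
      · rw [Real.sign_of_pos h, abs_lt]; constructor <;> linarith
  obtain ⟨a, hap, haa⟩ := key (det3 (L.p t) (L.p u) (L.p w) * det3 (L.p t) (L.p u) (L.p k))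
    (mul_ne_zero hE.τu hE.θu)
  obtain ⟨a', hap', haa'⟩ := key (det3 (L.p u) (L.p w) (L.p z) * det3 (L.p k) (L.p w) (L.p z))
    (mul_ne_zero hE.τw hE.θw)
  have tok : ∀ r : ℝ, a₀ ≤ r → L.TiltOK t u k w z r a a' := fun r hr =>
    ⟨hap, haa.trans_le hr, hap', haa'.trans_le hr⟩
  obtain ⟨hatok, sgu, sgw, hhalf⟩ := htilt a a' (haa.trans_le q5) (haa'.trans_le q5)
  obtain ⟨nU0, nW0, ε5, hε5, hnum'⟩ := hnum a a' (tok a1 q1) hatok
  obtain ⟨C, Ψ, hΨ⟩ := hpsi a a' (tok a2 q2) hatok nU0 nW0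
  obtain ⟨hAdm, b1t, b1w, b1u⟩ := hb1h a a' (haa.trans_le q3) (haa'.trans_le q3) hatok
  obtain ⟨ε6, hε6, hcn'⟩ := hcn a a' (tok a4 q4) hatok
  obtain ⟨μ', ε3, hμ', hε3, hchg'⟩ := hChg V (L.hat t u k w z a a') hatok
  obtain ⟨ε4, hε4', hext⟩ := hExt V (L.hat t u k w z a a') hatok b₁ hAdm μ' hμ'
  obtain ⟨ε7, hε7, hvm⟩ := IH (L.hat t u k w z a a') hatok rfl b₁ hAdm
  have hC : 0 < C := lt_of_lt_of_le one_pos hΨ.C1
  obtain ⟨ε', hε', p3, p4, p5, p6, p7, p8, p9⟩ : ∃ ε' : ℝ, 0 < ε' ∧ ε' < ε3 ∧ ε' < ε4 ∧ ε' < ε5 ∧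
      ε' < ε6 ∧ ε' < ε7 ∧ ε' ≤ ε / 4 ∧ ε' * C ≤ 1 := by
    have hpos : 0 < min (min (min ε3 ε4) (min ε5 ε6)) (min (min ε7 (ε / 4)) (1 / C)) := by
      positivity
    set m := min (min (min ε3 ε4) (min ε5 ε6)) (min (min ε7 (ε / 4)) (1 / C)) with hm
    have l1 : m ≤ ε3 := (min_le_left _ _).trans ((min_le_left _ _).trans (min_le_left _ _))
    have l2 : m ≤ ε4 := (min_le_left _ _).trans ((min_le_left _ _).trans (min_le_right _ _))
    have l3 : m ≤ ε5 := (min_le_left _ _).trans ((min_le_right _ _).trans (min_le_left _ _))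
    have l4 : m ≤ ε6 := (min_le_left _ _).trans ((min_le_right _ _).trans (min_le_right _ _))
    have l5 : m ≤ ε7 := (min_le_right _ _).trans ((min_le_left _ _).trans (min_le_left _ _))
    have l6 : m ≤ ε / 4 := (min_le_right _ _).trans ((min_le_left _ _).trans (min_le_right _ _))
    have l7 : m ≤ 1 / C := (min_le_right _ _).trans (min_le_right _ _)
    refine ⟨m / 2, by positivity, by linarith, by linarith, by linarith, by linarith, by linarith,
      by linarith, ?_⟩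
    have h8 : m / 2 ≤ 1 / C := by linarith
    calc m / 2 * C ≤ 1 / C * C := by gcongr
      _ = 1 := by field_simp
  obtain ⟨Ch, N, hcond, hres⟩ := hvm ε' hε' p7
  have hresx := hext ε' hε' p4 (Sym2 V) Ch N (hchg' ε' hε' p3 Ch N hcond) hres
  obtain ⟨numU, numW⟩ := hnum' ε' hε' p5 Ch N hcond
  have hcondL := hcn' ε' hε' p6 Ch N hcond numU numW
  obtain ⟨o, oN, η, R', M', hη, hR', hoff, hD⟩ := hresx
  -- bound of the offsets
  obtain ⟨K, hK1, hK2⟩ : ∃ K : ℝ, (∀ i ∈ L.S, |o i| + 1 ≤ K) ∧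
      (∀ n ∈ Ch u ∪ Ch w, |oN n| + 1 ≤ K) := by
    refine ⟨(∑ i ∈ L.S, |o i|) + (∑ n ∈ Ch u ∪ Ch w, |oN n|) + 1, fun i hi => ?_, fun n hn => ?_⟩
    · have h1 := Finset.single_le_sum (f := fun i => |o i|) (fun i _ => abs_nonneg _) hi
      have h2 : 0 ≤ ∑ n ∈ Ch u ∪ Ch w, |oN n| := Finset.sum_nonneg fun i _ => abs_nonneg _
      linarith
    · have h1 := Finset.single_le_sum (f := fun n => |oN n|) (fun i _ => abs_nonneg _) hn
      have h2 : 0 ≤ ∑ i ∈ L.S, |o i| := Finset.sum_nonneg fun i _ => abs_nonneg _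
      linarith
  obtain ⟨R1, hR1, hEU⟩ := hEnd _ (L.endU t u k w z x₀ y₀ a a' (Ch u) N) ε δ numU κ₁ hκ K
  obtain ⟨R2, hR2, hEW⟩ := hEnd _ (L.endW t u k w z x₀ y₀ a a' (Ch w) N) ε δ numW κ₁ hκ K
  obtain ⟨R₁, hR₁, r1, r2, r3⟩ : ∃ R₁ : ℝ, 0 < R₁ ∧ R1 ≤ R₁ ∧ R2 ≤ R₁ ∧ C * R' ≤ R₁ :=
    ⟨max (max R1 R2) (C * R'), lt_max_of_lt_left (lt_max_of_lt_left hR1),
      (le_max_left _ _).trans (le_max_left _ _), (le_max_right _ _).trans (le_max_left _ _),
      le_max_right _ _⟩
  obtain ⟨cU, hEU⟩ := hEU R₁ r1 (R₁ + 1)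
  obtain ⟨cW, hEW⟩ := hEW R₁ r2 (R₁ + 1)
  obtain ⟨ηU, R3U, MU, hηU, hEU⟩ := hEU (max cU cW) (le_max_left _ _)
  obtain ⟨ηW, R3W, MW, hηW, hEW⟩ := hEW (max cU cW) (le_max_right _ _)
  set c₀ := max cU cW with hc₀
  set e := L.ee u k w x₀ y₀ with he
  obtain ⟨η₁, hη₁, e1, e2, e3, e4⟩ : ∃ η₁ : ℝ, 0 < η₁ ∧ η₁ ≤ ηU ∧ η₁ ≤ ηW ∧ η₁ ≤ η ∧ η₁ ≤ 1 :=
    ⟨min (min ηU ηW) (min η 1), by positivity,
      (min_le_left _ _).trans (min_le_left _ _), (min_le_left _ _).trans (min_le_right _ _),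
      (min_le_right _ _).trans (min_le_left _ _), (min_le_right _ _).trans (min_le_right _ _)⟩
  refine ⟨L.chN t u k w z Ch, L.nN t u k w z a a' N, hcondL, ?_⟩
  refine htr ε hε hεε2 (Sym2 V) _ _ (hchg ε hε hεε1 _ _ hcondL) ?_
  -- Res for the field b₁
  set oNew : V → ℝ := fun i => if i = u then c₀ * inner ℝ (L.nor u) e
    else if i = k then c₀ * inner ℝ (L.nor k) e else o i with hoNew
  set oNN : Sym2 V → ℝ := fun n => if n = s(u, w) then o u else oN n with hoNN
  refine ⟨oNew, oNN, η₁, max (R₁ + 1) (max R3U R3W),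
    |max MU MW| * ‖L.ee u k w x₀ y₀‖ + |M'| * C + C + 1, hη₁,
    lt_max_of_lt_left (by linarith), ?_, ?_⟩
  · intro m hm
    have m1 : m ≠ u := fun h => hE.Xu (by rw [hm, h])
    have m2 : m ≠ k := fun h => hE.Xk (by rw [hm, h])
    have m3 : m ≠ w := fun h => hE.Xw (by rw [hm, h])
    obtain ⟨h1, h2⟩ := hoff m hm
    refine ⟨by simp [hoNew, m1, m2, h1], fun q hq hqm => ?_⟩
    have q1 : q ≠ u := fun h => m2 (by rw [← hqm, h, hE.su])
    have q2 : q ≠ k := fun h => m3 (by rw [← hqm, h, hE.sk])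
    have := h2 q (Finset.mem_erase.2 ⟨q2, hq⟩) (by rw [hat_s hE a a' hq q1, hqm])
    simp [hoNew, q1, q2, this]
  intro A B hnear
  obtain ⟨n1, n2, n3⟩ := hnear
  set B' : Sym2 V → Aff := fun n =>
    if ∃ j ∈ L.S, n ∈ L.chN t u k w z Ch j then B n else (L.nN t u k w z a a' N n, oNN n) with hB'
  have hB'n : ∀ n, ‖(B' n).1 - L.nN t u k w z a a' N n‖ < η₁ ∧ |(B' n).2 - oNN n| < η₁ := by
    intro n
    by_cases hn : ∃ j ∈ L.S, n ∈ L.chN t u k w z Ch j
    · obtain ⟨j, hj, hnj⟩ := hn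
      have : B' n = B n := by
        simp only [hB']
        rw [if_pos ⟨j, hj, hnj⟩]
      rw [this]
      exact n2 j hj n hnj
    · have : B' n = (L.nN t u k w z a a' N n, oNN n) := by
        simp only [hB']
        rw [if_neg hn]
      rw [this]
      simpa using hη₁
  have hnNuw : L.nN t u k w z a a' N s(u, w) = crs (L.p u + a • L.p t) (L.p w + a' • L.p z) := by
    simp [Pg.nN]
  have hoNuw : oNN s(u, w) = o u := by simp [hoNN]
  have hnNn : ∀ n, n ≠ s(u, w) → L.nN t u k w z a a' N n = N n := by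
    intro n hn; simp [Pg.nN, hn]
  have hoNn : ∀ n, n ≠ s(u, w) → oNN n = oN n := by
    intro n hn; simp only [hoNN, if_neg hn]
  have memu' : u ∈ (L.hat t u k w z a a').S := Finset.mem_erase.2 ⟨uk, hE.memu⟩
  have memw' : w ∈ (L.hat t u k w z a a').S := Finset.mem_erase.2 ⟨kw.symm, hE.memw⟩
  -- the planes of the hat polygon
  have hnear' : (L.hat t u k w z a a').Near Ch N o oN η (Pg.hA u w A B') B' := by
    refine ⟨fun i hi => ?_, fun j hj n hn => ?_, fun m hm => ?_⟩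
    · obtain ⟨hik, hiS⟩ := Finset.mem_erase.1 hi
      by_cases hiu : i = u
      · subst hiu
        have : Pg.hA i w A B' i = B' s(i, w) := by simp [Pg.hA]
        rw [this, hat_noru hE, ← hnNuw]
        obtain ⟨g1, g2⟩ := hB'n s(i, w)
        rw [hoNuw] at g2
        exact ⟨g1.trans_le e3, g2.trans_le e3⟩
      · have : Pg.hA u w A B' i = A i := by simp [Pg.hA, hiu]
        rw [this, hat_nor hE a a' hiS hiu hik]
        obtain ⟨g1, g2⟩ := n1 i hiS
        have : oNew i = o i := by simp [hoNew, hiu, hik]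
        rw [this] at g2
        exact ⟨g1.trans_le e3, g2.trans_le e3⟩
    · have hne := ne_uw hE a a' hatok hcond hj hn
      obtain ⟨g1, g2⟩ := hB'n n
      rw [hnNn n hne] at g1
      rw [hoNn n hne] at g2
      exact ⟨g1.trans_le e3, g2.trans_le e3⟩
    · have m1 : m ≠ u := fun h => hE.Xu (by rw [← h]; exact hm)
      have m2 : m ≠ k := fun h => hE.Xk (by rw [← h]; exact hm)
      have m3 : m ≠ w := fun h => hE.Xw (by rw [← h]; exact hm)
      obtain ⟨g1, g2⟩ := n3 m hm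
      have hmS : m ∈ L.S := by
        rcases ok.kind with ⟨h0, -⟩ | ⟨m', hm', hc⟩
        · have : L.X = some m := hm
          rw [h0] at this
          exact absurd this (by simp)
        · have : L.X = some m := hm
          rw [hm'] at this
          have : m' = m := by simpa using this
          rw [← this]; exact hc.1
      refine ⟨?_, fun q hq hqm => ?_⟩
      · have : Pg.hA u w A B' m = A m := by simp [Pg.hA, m1]
        rw [this, hat_nor hE a a' hmS m1 m2, g1]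
      · obtain ⟨hqk, hqS⟩ := Finset.mem_erase.1 hq
        have q1 : q ≠ u := by
          intro h
          rw [h, hat_su hE] at hqm
          exact m3 hqm.symm
        have : Pg.hA u w A B' q = A q := by simp [Pg.hA, q1]
        rw [this, hat_nor hE a a' hqS q1 hqk]
        rw [hat_s hE a a' hqS q1] at hqm
        exact g2 q hqS hqm
  obtain ⟨D', dcont, dgood, dbound, dfar⟩ := hD _ _ hnear'
  -- closeness at the ends
  have absle : ∀ x y : ℝ, |x - y| < η₁ → |y| + 1 ≤ K → |x| ≤ K := by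
    intro x y h1 h2
    have : |x| ≤ |x - y| + |y| := by
      calc |x| = |(x - y) + y| := by ring_nf
        _ ≤ _ := abs_add_le _ _
    linarith
  have oku : ∀ n, (n = s(u, w) ∨ n ∈ Ch u ∪ Ch w) → |(B' n).2| ≤ K := by
    intro n hn
    by_cases hne : n = s(u, w)
    · subst hne
      have := (hB'n s(u, w)).2
      rw [hoNuw] at this
      exact absle _ _ this (hK1 u hE.memu)
    · rcases hn with h | h
      · exact absurd h hne
      · have := (hB'n n).2
        rw [hoNn n hne] at this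
        exact absle _ _ this (hK2 n h)
  have onew : ∀ i, i ≠ u → i ≠ k → oNew i = o i := fun i h1 h2 => by simp [hoNew, h1, h2]
  have onewu : oNew u = c₀ * inner ℝ (L.nor u) e := by simp [hoNew]
  have onewk : oNew k = c₀ * inner ℝ (L.nor k) e := by simp [hoNew, uk.symm]
  have noru : L.nor u = crs (L.p u) (L.p k) := by simp [Pg.nor, hE.su]
  have nork : L.nor k = crs (L.p k) (L.p w) := by simp [Pg.nor, hE.sk]
  have nort : L.nor t = crs (L.p t) (L.p u) := by simp [Pg.nor, hE.st]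
  have norw : L.nor w = crs (L.p w) (L.p z) := by simp [Pg.nor, hE.sw]
  have closeU : (L.endU t u k w z x₀ y₀ a a' (Ch u) N).Close K c₀ η₁
      (zf (A t) (B' s(u, w)) B') (A k) (A u) := by
    refine ⟨fun i hi => ?_, ?_, ?_, ?_, ?_⟩
    · rcases i with _ | _ | n
      · have h1 := n1 t hE.memt
        rw [onew t tu tk] at h1
        refine ⟨?_, absle _ _ h1.2 (hK1 t hE.memt)⟩
        have := h1.1
        rw [nort] at this
        simpa [zf, Pg.endU, mkE] using this
      · refine ⟨?_, oku _ (Or.inl rfl)⟩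
        have := (hB'n s(u, w)).1
        rw [hnNuw] at this
        simpa [zf, Pg.endU, mkE] using this
      · have hn : n ∈ Ch u := by
          simpa [Pg.endU, mkE] using hi
        have hne := ne_uw hE a a' hatok hcond memu' hn
        refine ⟨?_, oku _ (Or.inr (Finset.mem_union_left _ hn))⟩
        have := (hB'n n).1
        rw [hnNn n hne] at this
        simpa [zf, Pg.endU, mkE] using this
    · have := (n1 k hE.memk).1
      rw [nork] at this
      simpa [Pg.endU, mkE] using this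
    · have := (n1 k hE.memk).2
      rw [onewk, nork] at this
      simpa [Pg.endU, mkE] using this
    · have := (n1 u hE.memu).1
      rw [noru] at this
      simpa [Pg.endU, mkE] using this
    · have := (n1 u hE.memu).2
      rw [onewu, noru] at this
      simpa [Pg.endU, mkE] using this
  have closeW : (L.endW t u k w z x₀ y₀ a a' (Ch w) N).Close K c₀ η₁
      (zf (A w) (B' s(u, w)) B') (A u) (A k) := by
    refine ⟨fun i hi => ?_, ?_, ?_, ?_, ?_⟩
    · rcases i with _ | _ | n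
      · have h1 := n1 w hE.memw
        rw [onew w uw.symm kw.symm] at h1
        refine ⟨?_, absle _ _ h1.2 (hK1 w hE.memw)⟩
        have := h1.1
        rw [norw, ← crs_neg_swap] at this
        exact this
      · refine ⟨?_, oku _ (Or.inl rfl)⟩
        have := (hB'n s(u, w)).1
        rw [hnNuw, ← crs_neg_swap] at this
        exact this
      · have hn : n ∈ Ch w := by
          simpa [Pg.endW, mkE] using hi
        have hne := ne_uw hE a a' hatok hcond memw' hn
        refine ⟨?_, oku _ (Or.inr (Finset.mem_union_right _ hn))⟩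
        have := (hB'n n).1
        rw [hnNn n hne] at this
        exact this
    · have := (n1 u hE.memu).1
      rw [noru, ← crs_neg_swap] at this
      exact this
    · have := (n1 u hE.memu).2
      rw [onewu, noru, ← crs_neg_swap] at this
      exact this
    · have := (n1 k hE.memk).1
      rw [nork, ← crs_neg_swap] at this
      exact this
    · have := (n1 k hE.memk).2
      rw [onewk, nork, ← crs_neg_swap] at this
      exact this
  obtain ⟨tU, gU, gM⟩ := hEU η₁ (max R3U R3W) (max MU MW) e1 (le_max_left _ _) (le_max_left _ _)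
    _ _ _ closeU
  obtain ⟨tW, gW, -⟩ := hEW η₁ (max R3U R3W) (max MU MW) e2 (le_max_right _ _) (le_max_right _ _)
    _ _ _ closeW
  have sit : L.Sit t u k w z x₀ y₀ ε δ ε' a a' C κ₁ R₁ (R₁ + 1) (max R3U R3W) (max MU MW) R' M'
      Ψ b₁ D' Ch N A B' :=
    { ear := hE
      earE := hEE
      eps := hε
      eps4 := hε4
      del := hεδ
      del2 := d5
      eps' := hε'
      epse := p8
      epsC := p9
      ha := haa.le.trans q6
      ha' := haa'.le.trans q6
      kap := hκ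
      hR1 := hR₁
      hR12 := by linarith
      hRC := r3
      hRp := hR'
      psi := hΨ
      vinj := hvin
      kapOK := hkap
      b1z := hb1z
      b1t := b1t
      b1w := b1w
      b1u := b1u
      hatok := hatok
      sgu := sgu
      sgw := sgw
      half := hhalf
      dcont := dcont
      dgood := dgood
      dbound := dbound
      dfar := dfar
      exact := n3
      tU := tU
      gU := gU
      tW := tW
      gW := gW
      gM := gM }
  obtain ⟨D, c1, c2, c3, c4⟩ := hDnew V L t u k w z x₀ y₀ ε δ ε' a a' C κ₁ R₁ (R₁ + 1)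
    (max R3U R3W) (max MU MW) R' M' Ψ b₁ D' Ch N A B' sit
  refine ⟨D, c1, c2, c3, fun x hx hxR => ?_⟩
  obtain ⟨f1, f2, f3⟩ := c4 x hx hxR
  have hlst : ∀ i ∈ L.S, L.lst (L.chN t u k w z Ch) A B i = L.lst (L.chN t u k w z Ch) A B' i := by
    intro i hi
    have hBB : ∀ n ∈ L.chN t u k w z Ch (L.s i), B' n = B n := by
      intro n hn
      simp only [hB']
      rw [if_pos ⟨L.s i, ok.maps i hi, hn⟩]
    ext Z
    unfold Pg.lst
    simp only [Set.mem_ofPred_eq]
    constructor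
    · rintro (h | h | ⟨n, hn, h⟩)
      · exact Or.inl h
      · exact Or.inr (Or.inl h)
      · exact Or.inr (Or.inr ⟨n, hn, by rw [hBB n hn, h]⟩)
    · rintro (h | h | ⟨n, hn, h⟩)
      · exact Or.inl h
      · exact Or.inr (Or.inl h)
      · exact Or.inr (Or.inr ⟨n, hn, by rw [h, hBB n hn]⟩)
  refine ⟨f1, fun i hi hxi => ?_, f3⟩
  have := f2 i hi hxi
  unfold Pg.ArmEq at this ⊢
  rw [hlst i hi]
  exact this

end Pool.Agent.TSM
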