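import Pool.Agent.TSM.VBase2

/-!
# TSM module TILT: the tilted rest polygon is admissible
-/

set_option autoImplicit false

namespace Pool.Agent.TSM

open Set Filter Topology Metric

namespace TILT_

/-! ### vectors -/

theorem det3_self1 (a b : E3) : det3 b a b = 0 := by unfold det3; ring
theorem det3_self2 (a b : E3) : det3 a b b = 0 := by unfold det3; ring
theorem det3_self3 (a b : E3) : det3 a a b = 0 := by unfold det3; ring

theorem det3_lin (x y z : E3) (a b c : ℝ) :
    det3 (a • x + b • y + c • z) y z = a * det3 x y z := by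
  unfold det3
  simp only [PiLp.add_apply, PiLp.smul_apply, smul_eq_mul]
  ring

theorem det3_zero (y z : E3) : det3 0 y z = 0 := by
  unfold det3; simp

theorem indep3 {x y z : E3} (h : det3 x y z ≠ 0) {a b c : ℝ}
    (h0 : a • x + b • y + c • z = 0) : a = 0 ∧ b = 0 ∧ c = 0 := by
  have h1 : a * det3 x y z = 0 := by rw [← det3_lin x y z a b c, h0, det3_zero]
  have h2 : b * det3 x y z = 0 := by
    rw [det3_cyc x y z, ← det3_lin y z x b c a]
    have : b • y + c • z + a • x = 0 := by rw [← h0]; abel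
    rw [this, det3_zero]
  have h3 : c * det3 x y z = 0 := by
    rw [det3_cyc x y z, det3_cyc y z x, ← det3_lin z x y c a b]
    have : c • z + a • x + b • y = 0 := by rw [← h0]; abel
    rw [this, det3_zero]
  exact ⟨(mul_eq_zero.1 h1).resolve_right h, (mul_eq_zero.1 h2).resolve_right h,
    (mul_eq_zero.1 h3).resolve_right h⟩

theorem det3_cont {α : Type*} [TopologicalSpace α] {f g h : α → E3} (hf : Continuous f)
    (hg : Continuous g) (hh : Continuous h) : Continuous fun x => det3 (f x) (g x) (h x) := by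
  have hc : ∀ {f : α → E3}, Continuous f → ∀ i : Fin 3, Continuous fun x => f x i := by
    intro f hf i
    exact (PiLp.continuous_apply 2 (fun _ : Fin 3 => ℝ) i).comp hf
  unfold det3
  have f0 := hc hf 0
  have f1 := hc hf 1
  have f2 := hc hf 2
  have g0 := hc hg 0
  have g1 := hc hg 1
  have g2 := hc hg 2
  have h0 := hc hh 0
  have h1 := hc hh 1
  have h2 := hc hh 2
  fun_prop

/-- positive independence is an open condition -/
theorem pos_open (v : Fin 4 → E3)
    (h : ∀ c : Fin 4 → ℝ, (∀ l, 0 ≤ c l) → ∑ l, c l • v l = 0 → c = 0) :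
    ∃ δ : ℝ, 0 < δ ∧ ∀ v' : Fin 4 → E3, (∀ l, ‖v' l - v l‖ < δ) →
      ∀ c : Fin 4 → ℝ, (∀ l, 0 ≤ c l) → ∑ l, c l • v' l = 0 → c = 0 := by
  have hK : IsCompact (stdSimplex ℝ (Fin 4)) := isCompact_stdSimplex ℝ (Fin 4)
  have hne : (stdSimplex ℝ (Fin 4)).Nonempty := ⟨_, single_mem_stdSimplex ℝ (0 : Fin 4)⟩
  have hcont : Continuous fun c : Fin 4 → ℝ => ‖∑ l, c l • v l‖ := by fun_prop
  obtain ⟨c₀, hc₀, hmin⟩ := hK.exists_isMinOn hne hcont.continuousOn
  have hpos : 0 < ‖∑ l, c₀ l • v l‖ := by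
    rw [norm_pos_iff]
    intro h0
    have h1 := h c₀ hc₀.1 h0
    have h2 := hc₀.2
    rw [h1] at h2
    simp at h2
  refine ⟨‖∑ l, c₀ l • v l‖, hpos, ?_⟩
  intro v' hv' c hc h0
  by_contra hc0
  have hT : 0 < ∑ l, c l := by
    rcases (Finset.sum_nonneg fun l _ => hc l).lt_or_eq with h1 | h1
    · exact h1
    · exfalso
      apply hc0
      funext l
      exact (Finset.sum_eq_zero_iff_of_nonneg fun l _ => hc l).1 h1.symm l (Finset.mem_univ l)
  set T := ∑ l, c l with hTdef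
  set d : Fin 4 → ℝ := fun l => T⁻¹ * c l with hd
  have hdpos : ∀ l, 0 ≤ d l := fun l => mul_nonneg (inv_nonneg.2 hT.le) (hc l)
  have hdsum : ∑ l, d l = 1 := by
    rw [hd, ← Finset.mul_sum, inv_mul_cancel₀ hT.ne']
  have h1 : ‖∑ l, c₀ l • v l‖ ≤ ‖∑ l, d l • v l‖ := hmin (⟨hdpos, hdsum⟩ : d ∈ stdSimplex ℝ (Fin 4))
  have h2 : ∑ l, d l • v l = -∑ l, d l • (v' l - v l) := by
    have h3 : ∑ l, d l • v' l = 0 := by
      have : ∑ l, d l • v' l = T⁻¹ • ∑ l, c l • v' l := by
        rw [Finset.smul_sum]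
        exact Finset.sum_congr rfl fun l _ => by rw [hd, smul_smul]
      rw [this, h0, smul_zero]
    simp only [smul_sub, Finset.sum_sub_distrib]
    rw [h3]
    abel
  have h3 : ‖∑ l, d l • (v' l - v l)‖ < ‖∑ l, c₀ l • v l‖ := by
    calc ‖∑ l, d l • (v' l - v l)‖ ≤ ∑ l, ‖d l • (v' l - v l)‖ := norm_sum_le _ _
      _ = ∑ l, d l * ‖v' l - v l‖ := by
          refine Finset.sum_congr rfl fun l _ => ?_
          rw [norm_smul, Real.norm_of_nonneg (hdpos l)]
      _ < ∑ l, d l * ‖∑ l, c₀ l • v l‖ := by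
          obtain ⟨l₀, -, hl₀⟩ := Finset.exists_ne_zero_of_sum_ne_zero
            (s := Finset.univ) (f := d) (by rw [hdsum]; exact one_ne_zero)
          refine Finset.sum_lt_sum (fun l _ => mul_le_mul_of_nonneg_left (hv' l).le (hdpos l))
            ⟨l₀, Finset.mem_univ _, ?_⟩
          exact mul_lt_mul_of_pos_left (hv' l₀) (lt_of_le_of_ne (hdpos l₀) (Ne.symm hl₀))
      _ = ‖∑ l, c₀ l • v l‖ := by rw [← Finset.sum_mul, hdsum, one_mul]
  rw [h2, norm_neg] at h1
  exact absurd h1 (not_le.2 h3)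

/-- uniform positivity on the sphere -/
theorem uniform {V : Type} (S : Finset V) (p : V → E3)
    (h : ∀ ν : E3, ν ≠ 0 → ∃ i ∈ S, 0 < (inner ℝ ν (p i) : ℝ)) :
    ∃ δ : ℝ, 0 < δ ∧ ∀ p' : V → E3, (∀ i ∈ S, ‖p' i - p i‖ < δ) →
      ∀ ν : E3, ν ≠ 0 → ∃ i ∈ S, 0 < (inner ℝ ν (p' i) : ℝ) := by
  classical
  have hne : (sphere (0 : E3) 1).Nonempty := NormedSpace.sphere_nonempty.2 zero_le_one
  have hS : S.Nonempty := by
    obtain ⟨ν, hν⟩ := hne
    obtain ⟨i, hi, -⟩ := h ν (ne_of_mem_sphere hν one_ne_zero)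
    exact ⟨i, hi⟩
  have hcont : Continuous (fun ν : E3 => S.sup' hS (fun i => (inner ℝ ν (p i) : ℝ))) := by
    refine Continuous.finset_sup'_apply hS fun x _ => ?_
    fun_prop
  obtain ⟨ν₀, hν₀, hmin⟩ := (isCompact_sphere (0 : E3) 1).exists_isMinOn hne hcont.continuousOn
  refine ⟨S.sup' hS (fun i => (inner ℝ ν₀ (p i) : ℝ)), ?_, ?_⟩
  · obtain ⟨i, hi, hpos⟩ := h ν₀ (ne_of_mem_sphere hν₀ one_ne_zero)
    exact lt_of_lt_of_le hpos (Finset.le_sup' (fun i => (inner ℝ ν₀ (p i) : ℝ)) hi)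
  · intro p' hp' ν hν
    have hνpos : 0 < ‖ν‖ := norm_pos_iff.2 hν
    set w : E3 := ‖ν‖⁻¹ • ν with hw
    have hw1 : ‖w‖ = 1 := by
      rw [hw, norm_smul, norm_inv, norm_norm, inv_mul_cancel₀ hνpos.ne']
    obtain ⟨i, hi, hie⟩ := Finset.exists_mem_eq_sup' hS (fun i => (inner ℝ w (p i) : ℝ))
    refine ⟨i, hi, ?_⟩
    have h1 : S.sup' hS (fun i => (inner ℝ ν₀ (p i) : ℝ)) ≤ inner ℝ w (p i) := by
      rw [← hie]
      exact hmin (by rw [mem_sphere_zero_iff_norm]; exact hw1)
    have h2 : |(inner ℝ w (p' i - p i) : ℝ)| < S.sup' hS (fun i => (inner ℝ ν₀ (p i) : ℝ)) := by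
      refine lt_of_le_of_lt (abs_real_inner_le_norm _ _) ?_
      rw [hw1, one_mul]
      exact hp' i hi
    have h3 : 0 < (inner ℝ w (p' i) : ℝ) := by
      have e : (inner ℝ w (p' i) : ℝ) = inner ℝ w (p i) + inner ℝ w (p' i - p i) := by
        rw [← inner_add_right]; congr 1; abel
      rw [e]
      have := (abs_lt.1 h2).1
      linarith
    have h4 : ν = ‖ν‖ • w := by
      rw [hw, smul_smul, mul_inv_cancel₀ hνpos.ne', one_smul]
    rw [h4, inner_smul_left]
    exact mul_pos hνpos h3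

/-! ### polygons -/

variable {V : Type} [DecidableEq V]

theorem s_ne {E : Pg V} (hE : E.Ok) {i : V} (hi : i ∈ E.S) : E.s i ≠ i := by
  intro h
  have h1 : ∀ m : ℕ, E.s^[m] i = i := fun m => Function.iterate_fixed h m
  have h2 : E.S ⊆ {i} := by
    intro j hj
    obtain ⟨m, hm⟩ := hE.trans i hi j hj
    rw [h1] at hm
    rw [Finset.mem_singleton]; exact hm.symm
  have h3 := Finset.card_le_card h2
  rw [Finset.card_singleton] at h3
  have := hE.card
  omega

theorem ss_ne {E : Pg V} (hE : E.Ok) {i : V} (hi : i ∈ E.S) : E.s (E.s i) ≠ i := by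
  intro h
  have h1 : ∀ m : ℕ, E.s^[m] i = i ∨ E.s^[m] i = E.s i := by
    intro m
    induction m with
    | zero => left; rfl
    | succ m ih =>
      rw [Function.iterate_succ_apply']
      rcases ih with ih | ih
      · right; rw [ih]
      · left; rw [ih, h]
  have h2 : E.S ⊆ {i, E.s i} := by
    intro j hj
    obtain ⟨m, hm⟩ := hE.trans i hi j hj
    rw [Finset.mem_insert, Finset.mem_singleton, ← hm]
    exact h1 m
  have h3 := (Finset.card_le_card h2).trans Finset.card_le_two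
  have := hE.card
  omega

theorem exists_third {E : Pg V} (hE : E.Ok) {i j : V} (hi : i ∈ E.S) (hj : j ∈ E.S)
    (hij : i ≠ j) : ∃ l ∈ E.S, i ≠ l ∧ j ≠ l ∧ ¬ E.Flat i j l := by
  have hcard : 1 < ((E.S.erase i).erase j).card := by
    rw [Finset.card_erase_of_mem (Finset.mem_erase.2 ⟨hij.symm, hj⟩), Finset.card_erase_of_mem hi]
    have := hE.card
    omega
  obtain ⟨l₁, hl₁, l₂, hl₂, hne⟩ := Finset.one_lt_card.1 hcard
  simp only [Finset.mem_erase] at hl₁ hl₂
  by_cases h1 : E.Flat i j l₁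
  · by_cases h2 : E.Flat i j l₂
    · exfalso
      obtain ⟨m, q, hX, hq, hqm, he⟩ := h1
      obtain ⟨m', q', hX', hq', hqm', he'⟩ := h2
      have hmm : m = m' := by rw [hX] at hX'; exact Option.some.inj hX'
      subst hmm
      have hqq : q = q' := hE.inj q hq q' hq' (by rw [hqm, hqm'])
      subst hqq
      have h3 : l₁ ∈ ({i, j, l₂} : Finset V) := by
        rw [he', ← he]; simp
      simp only [Finset.mem_insert, Finset.mem_singleton] at h3
      rcases h3 with h3 | h3 | h3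
      · exact hl₁.2.1 h3
      · exact hl₁.1 h3
      · exact hne h3
    · exact ⟨l₂, hl₂.2.2, hl₂.2.1.symm, hl₂.1.symm, h2⟩
  · exact ⟨l₁, hl₁.2.2, hl₁.2.1.symm, hl₁.1.symm, h1⟩

/-- the genericity condition for positions `p` -/
def GenP (E : Pg V) (p : V → E3) : Prop :=
  ∀ i ∈ E.S, ∀ j ∈ E.S, ∀ k ∈ E.S, i ≠ j → i ≠ k → j ≠ k → ¬ E.Flat i j k →
    det3 (p i) (p j) (p k) ≠ 0

/-- the relation at the flat vertex for positions `p` -/
def RelP (E : Pg V) (p : V → E3) : Prop :=
  ∀ m, E.X = some m → ∀ q ∈ E.S, E.s q = m →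
    ∃ a b : ℝ, 0 < a ∧ 0 < b ∧ a • p q + b • p (E.s m) + p m = 0

theorem indep_two {E : Pg V} (hE : E.Ok) {p : V → E3} (hG : GenP E p) {i j : V} (hi : i ∈ E.S)
    (hj : j ∈ E.S) (hij : i ≠ j) {a b : ℝ} (h : a • p i + b • p j = 0) : a = 0 ∧ b = 0 := by
  obtain ⟨l, hl, h1, h2, h3⟩ := exists_third hE hi hj hij
  have h4 := hG i hi j hj l hl hij h1 h2 h3
  have h5 : a • p i + b • p j + (0 : ℝ) • p l = 0 := by rw [zero_smul, add_zero, h]
  obtain ⟨h6, h7, -⟩ := indep3 h4 h5
  exact ⟨h6, h7⟩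

/-- adjacent faces meet in a ray -/
theorem adj {E : Pg V} (hE : E.Ok) {p : V → E3} (hG : GenP E p) (hR : RelP E p) {i : V}
    (hi : i ∈ E.S) {α β γ δ : ℝ} (hα : 0 ≤ α) (hδ : 0 ≤ δ)
    (h : α • p i + β • p (E.s i) = γ • p (E.s i) + δ • p (E.s (E.s i))) : α = 0 := by
  set j := E.s i with hj
  set k := E.s j with hk
  have hjS : j ∈ E.S := hE.maps i hi
  have hkS : k ∈ E.S := hE.maps j hjS
  have hij : i ≠ j := (s_ne hE hi).symm
  have hjk : j ≠ k := (s_ne hE hjS).symm
  have hik : i ≠ k := (ss_ne hE hi).symm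
  by_cases hF : E.Flat i j k
  · obtain ⟨m, q, hX, hq, hqm, he⟩ := hF
    obtain ⟨a, b, ha, hb, hab⟩ := hR m hX q hq hqm
    have hmS : m ∈ E.S := hqm ▸ hE.maps q hq
    have hqm' : q ≠ m := by rw [← hqm]; exact (s_ne hE hq).symm
    have hmsm : m ≠ E.s m := (s_ne hE hmS).symm
    have hqsm : q ≠ E.s m := by rw [← hqm]; exact (ss_ne hE hq).symm
    set c : V → ℝ := fun x => if x = q then a else if x = m then 1 else b with hc
    have hcpos : ∀ x, 0 < c x := by
      intro x
      simp only [hc]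
      split_ifs
      · exact ha
      · exact one_pos
      · exact hb
    have h1 : ∑ x ∈ ({q, m, E.s m} : Finset V), c x • p x = 0 := by
      rw [Finset.sum_insert, Finset.sum_insert, Finset.sum_singleton]
      · have c1 : c q = a := by simp [hc]
        have c2 : c m = 1 := by simp [hc, hqm'.symm]
        have c3 : c (E.s m) = b := by simp [hc, hqsm.symm, hmsm.symm]
        rw [c1, c2, c3, one_smul, ← hab]
        abel
      · rw [Finset.mem_singleton]; exact hmsm
      · simp only [Finset.mem_insert, Finset.mem_singleton, not_or]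
        exact ⟨hqm', hqsm⟩
    rw [← he, Finset.sum_insert, Finset.sum_insert, Finset.sum_singleton] at h1
    · have h2 : (c k * α + δ * c i) • p i + (c k * β - c k * γ + δ * c j) • p j = 0 := by
        have h3 : c k • p k = -(c i • p i + c j • p j) := by
          rw [eq_neg_iff_add_eq_zero, ← h1]; abel
        have h4 : c k • (α • p i + β • p j) = c k • (γ • p j + δ • p k) := by rw [h]
        have h5 : c k • (δ • p k) = δ • (c k • p k) := smul_comm _ _ _
        rw [smul_add, smul_add, h5, h3] at h4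
        have h6 : c k • α • p i + c k • β • p j -
            (c k • γ • p j + δ • -(c i • p i + c j • p j)) = 0 := by
          rw [h4, sub_self]
        rw [← h6]
        module
      have h3 := (indep_two hE hG hi hjS hij h2).1
      have h4 : 0 ≤ δ * c i := mul_nonneg hδ (hcpos i).le
      have h5 : 0 ≤ c k * α := mul_nonneg (hcpos k).le hα
      have h6 : c k * α = 0 := by linarith
      exact (mul_eq_zero.1 h6).resolve_left (hcpos k).ne'
    · rw [Finset.mem_singleton]; exact hjk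
    · simp only [Finset.mem_insert, Finset.mem_singleton, not_or]
      exact ⟨hij, hik⟩
  · have h1 := hG i hi j hjS k hkS hij hik hjk hF
    have h2 : α • p i + (β - γ) • p j + (-δ) • p k = 0 := by
      have h3 : α • p i + β • p j - (γ • p j + δ • p k) = 0 := by rw [h, sub_self]
      rw [← h3]
      module
    exact (indep3 h1 h2).1

theorem near (p : V → E3) (x : V) {δ : ℝ} (hδ : 0 < δ) :
    ∀ᶠ p' : V → E3 in 𝓝 p, ‖p' x - p x‖ < δ := by
  have h1 := ((continuous_apply x).tendsto p).eventually (Metric.ball_mem_nhds (p x) hδ)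
  filter_upwards [h1] with p' hp'
  rwa [dist_eq_norm] at hp'

theorem ev_gen {E : Pg V} (hE : E.Ok) : ∀ᶠ p' in 𝓝 E.p, GenP E p' := by
  unfold GenP
  rw [Filter.eventually_all_finset]; intro i hi
  rw [Filter.eventually_all_finset]; intro j hj
  rw [Filter.eventually_all_finset]; intro k hk
  by_cases hc : i ≠ j ∧ i ≠ k ∧ j ≠ k ∧ ¬ E.Flat i j k
  · have h0 : Continuous fun p' : V → E3 => det3 (p' i) (p' j) (p' k) :=
      det3_cont (continuous_apply i) (continuous_apply j) (continuous_apply k)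
    have h1 := h0.continuousAt.eventually_ne
        (hE.gen i hi j hj k hk hc.1 hc.2.1 hc.2.2.1 hc.2.2.2)
    filter_upwards [h1] with p' hp' _ _ _ _ using hp'
  · exact Eventually.of_forall fun p' h1 h2 h3 h4 => absurd ⟨h1, h2, h3, h4⟩ hc

theorem face_sep {E : Pg V} (hE : E.Ok) {i j : V} (hi : i ∈ E.S) (hj : j ∈ E.S) (hij : i ≠ j)
    (h1 : j ≠ E.s i) (h2 : i ≠ E.s j) (c : Fin 4 → ℝ) (hc : ∀ l, 0 ≤ c l)
    (h0 : ∑ l, c l • (![E.p i, E.p (E.s i), -E.p j, -E.p (E.s j)] : Fin 4 → E3) l = 0) :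
    c = 0 := by
  have hG : GenP E E.p := hE.gen
  simp only [Fin.sum_univ_four, Matrix.cons_val_zero, Matrix.cons_val_one, Matrix.cons_val] at h0
  have h3 : c 0 • E.p i + c 1 • E.p (E.s i) = c 2 • E.p j + c 3 • E.p (E.s j) := by
    rw [← sub_eq_zero, ← h0]
    module
  have h4 := hE.simple i hi j hj hij (c 0 • E.p i + c 1 • E.p (E.s i))
    ⟨c 0, c 1, hc 0, hc 1, rfl⟩ ⟨c 2, c 3, hc 2, hc 3, h3⟩
  rcases h4 with h4 | h4 | h4
  · exact absurd h4.1 h1
  · exact absurd h4.1 h2
  · obtain ⟨h5, h6⟩ := indep_two hE hG hi (hE.maps i hi) (s_ne hE hi).symm h4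
    obtain ⟨h7, h8⟩ := indep_two hE hG hj (hE.maps j hj) (s_ne hE hj).symm (h3 ▸ h4)
    funext l
    fin_cases l
    · exact h5
    · exact h6
    · exact h7
    · exact h8

theorem ev_sep {E : Pg V} (hE : E.Ok) : ∀ᶠ p' in 𝓝 E.p, ∀ i ∈ E.S, ∀ j ∈ E.S, i ≠ j →
    j ≠ E.s i → i ≠ E.s j → ∀ c : Fin 4 → ℝ, (∀ l, 0 ≤ c l) →
    ∑ l, c l • (![p' i, p' (E.s i), -p' j, -p' (E.s j)] : Fin 4 → E3) l = 0 → c = 0 := by
  rw [Filter.eventually_all_finset]; intro i hi
  rw [Filter.eventually_all_finset]; intro j hj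
  by_cases hc : i ≠ j ∧ j ≠ E.s i ∧ i ≠ E.s j
  · obtain ⟨δ, hδ, h1⟩ := pos_open _ (face_sep hE hi hj hc.1 hc.2.1 hc.2.2)
    filter_upwards [near E.p i hδ, near E.p (E.s i) hδ, near E.p j hδ, near E.p (E.s j) hδ]
      with p' k1 k2 k3 k4 _ _ _
    apply h1
    intro l
    fin_cases l
    · exact k1
    · exact k2
    · have : -p' j - -E.p j = -(p' j - E.p j) := by abel
      show ‖-p' j - -E.p j‖ < δ
      rw [this, norm_neg]; exact k3
    · have : -p' (E.s j) - -E.p (E.s j) = -(p' (E.s j) - E.p (E.s j)) := by abel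
      show ‖-p' (E.s j) - -E.p (E.s j)‖ < δ
      rw [this, norm_neg]; exact k4
  · exact Eventually.of_forall fun p' h1 h2 h3 => absurd ⟨h1, h2, h3⟩ hc

theorem ev_closed {E : Pg V} (h : ∀ ν : E3, ν ≠ 0 → ∃ i ∈ E.S, 0 < (inner ℝ ν (E.p i) : ℝ)) :
    ∀ᶠ p' in 𝓝 E.p, ∀ ν : E3, ν ≠ 0 → ∃ i ∈ E.S, 0 < (inner ℝ ν (p' i) : ℝ) := by
  obtain ⟨δ, hδ, h1⟩ := uniform E.S E.p h
  have h2 : ∀ᶠ p' in 𝓝 E.p, ∀ i ∈ E.S, ‖p' i - E.p i‖ < δ := by
    rw [Filter.eventually_all_finset]; intro i _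
    exact near E.p i hδ
  filter_upwards [h2] with p' hp'
  exact h1 p' hp'

theorem ev_corner {E : Pg V} {m q : V} {σ : ℝ}
    (h : ∀ i ∈ E.S, i ≠ q → i ≠ m → i ≠ E.s m → σ * (inner ℝ (E.nor m) (E.p i) : ℝ) < 0) :
    ∀ᶠ p' in 𝓝 E.p, ∀ i ∈ E.S, i ≠ q → i ≠ m → i ≠ E.s m →
      σ * (inner ℝ (crs (p' m) (p' (E.s m))) (p' i) : ℝ) < 0 := by
  rw [Filter.eventually_all_finset]; intro i hi
  by_cases hc : i ≠ q ∧ i ≠ m ∧ i ≠ E.s m
  · have h1 := h i hi hc.1 hc.2.1 hc.2.2
    unfold Pg.nor at h1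
    rw [crs_eq_inner] at h1
    have h2 : Continuous fun p' : V → E3 => σ * det3 (p' m) (p' (E.s m)) (p' i) :=
      continuous_const.mul (det3_cont (continuous_apply m) (continuous_apply (E.s m))
        (continuous_apply i))
    have h3 := h2.continuousAt.eventually_lt_const h1
    filter_upwards [h3] with p' hp' _ _ _
    rw [crs_eq_inner]
    exact hp'
  · exact Eventually.of_forall fun p' h1 h2 h3 => absurd ⟨h1, h2, h3⟩ hc

theorem open_ok {E : Pg V} (hE : E.Ok) :
    ∀ᶠ p' in 𝓝 E.p, RelP E p' → (Pg.mk E.S E.s p' E.X : Pg V).Ok := by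
  have hkind : ∀ᶠ p' in 𝓝 E.p, RelP E p' →
      ((Pg.mk E.S E.s p' E.X : Pg V).X = none ∧
        ∀ ν : E3, ν ≠ 0 → ∃ i ∈ E.S, 0 < (inner ℝ ν (p' i) : ℝ)) ∨
      ∃ m, (Pg.mk E.S E.s p' E.X : Pg V).X = some m ∧
        (Pg.mk E.S E.s p' E.X : Pg V).CornerAt m := by
    rcases hE.kind with ⟨hX, h1⟩ | ⟨m, hX, hm, q, hq, hqm, -, σ, hσ, h2⟩
    · filter_upwards [ev_closed h1] with p' hp' _
      exact Or.inl ⟨hX, hp'⟩
    · filter_upwards [ev_corner h2] with p' hp' hR
      exact Or.inr ⟨m, hX, hm, q, hq, hqm, hR m hX q hq hqm, σ, hσ, hp'⟩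
  filter_upwards [ev_gen hE, ev_sep hE, hkind] with p' hG hsep hk hR
  refine ⟨hE.maps, hE.inj, hE.trans, hE.card, hG, ?_, hk hR⟩
  intro i hi j hj hij x hxi hxj
  obtain ⟨a, b, ha, hb, hx1⟩ := hxi
  obtain ⟨c, d, hc, hd, hx2⟩ := hxj
  simp only at hx1 hx2
  by_cases h1 : j = E.s i
  · left
    refine ⟨h1, b, hb, ?_⟩
    have h2 : a • p' i + b • p' (E.s i) = c • p' (E.s i) + d • p' (E.s (E.s i)) := by
      rw [← hx1, hx2, h1]
    have h3 := adj hE hG hR hi ha hd h2
    rw [hx1, h3, zero_smul, zero_add, h1]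
  · by_cases h1' : i = E.s j
    · right; left
      refine ⟨h1', d, hd, ?_⟩
      have h2 : c • p' j + d • p' (E.s j) = a • p' (E.s j) + b • p' (E.s (E.s j)) := by
        rw [← hx2, hx1, h1']
      have h3 := adj hE hG hR hj hc hb h2
      rw [hx2, h3, zero_smul, zero_add, h1']
    · right; right
      have h2 := hsep i hi j hj hij h1 h1' ![a, b, c, d] (by
        intro l
        fin_cases l
        · exact ha
        · exact hb
        · exact hc
        · exact hd) (by
        simp only [Fin.sum_univ_four, Matrix.cons_val_zero, Matrix.cons_val_one, Matrix.cons_val]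
        have : a • p' i + b • p' (E.s i) - (c • p' j + d • p' (E.s j)) = 0 := by
          rw [← hx1, ← hx2, sub_self]
        rw [← this]
        module)
      have h3 : a = 0 := congrFun h2 0
      have h4 : b = 0 := congrFun h2 1
      rw [hx1, h3, h4, zero_smul, zero_smul, add_zero]

/-! ### the tilt -/

/-- the tilted positions -/
def F (L : Pg V) (t u w z : V) (x : ℝ × ℝ) : V → E3 :=
  fun i => if i = u then L.p u + x.1 • L.p t else if i = w then L.p w + x.2 • L.p z else L.p i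

theorem F_zero (L : Pg V) (t u w z : V) : F L t u w z (0, 0) = L.p := by
  funext i
  unfold F
  by_cases h1 : i = u
  · rw [if_pos h1, zero_smul, add_zero, h1]
  · rw [if_neg h1]
    by_cases h2 : i = w
    · rw [if_pos h2, zero_smul, add_zero, h2]
    · rw [if_neg h2]

theorem F_cont (L : Pg V) (t u w z : V) : Continuous (F L t u w z) := by
  apply continuous_pi
  intro i
  unfold F
  by_cases h1 : i = u
  · simp only [if_pos h1]; fun_prop
  · by_cases h2 : i = w
    · simp only [if_neg h1, if_pos h2]; fun_prop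
    · simp only [if_neg h1, if_neg h2]; fun_prop

theorem F_tendsto (L : Pg V) (t u w z : V) :
    Tendsto (F L t u w z) (𝓝 ((0, 0) : ℝ × ℝ)) (𝓝 L.p) := by
  have h := (F_cont L t u w z).tendsto (0, 0)
  rwa [F_zero] at h

theorem F_u (L : Pg V) (t u w z : V) (x : ℝ × ℝ) : F L t u w z x u = L.p u + x.1 • L.p t := by
  unfold F; rw [if_pos rfl]

theorem F_w (L : Pg V) (t u w z : V) (x : ℝ × ℝ) (h : w ≠ u) :
    F L t u w z x w = L.p w + x.2 • L.p z := by
  unfold F; rw [if_neg h, if_pos rfl]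

theorem F_i (L : Pg V) (t u w z : V) (x : ℝ × ℝ) {i : V} (h : i ≠ u) (h' : i ≠ w) :
    F L t u w z x i = L.p i := by
  unfold F; rw [if_neg h, if_neg h']

theorem sign_ev {α : Type*} [TopologicalSpace α] {f : α → ℝ} (hf : Continuous f) {x₀ : α}
    (h : f x₀ ≠ 0) : ∀ᶠ x in 𝓝 x₀, Real.sign (f x) = Real.sign (f x₀) := by
  rcases lt_or_gt_of_ne h with h1 | h1
  · filter_upwards [hf.continuousAt.eventually_lt_const h1] with x hx
    rw [Real.sign_of_neg hx, Real.sign_of_neg h1]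
  · filter_upwards [hf.continuousAt.eventually_const_lt h1] with x hx
    rw [Real.sign_of_pos hx, Real.sign_of_pos h1]

theorem ne_all {L : Pg V} {t u k w z : V} (h : L.Ear t u k w z) :
    t ≠ u ∧ t ≠ k ∧ t ≠ w ∧ t ≠ z ∧ u ≠ k ∧ u ≠ w ∧ u ≠ z ∧ k ≠ w ∧ k ≠ z ∧ w ≠ z := by
  have := h.nodup
  simp only [List.nodup_cons, List.mem_cons, List.not_mem_nil, or_false, not_or,
    List.nodup_nil, and_true] at this
  tauto

theorem es_t {L : Pg V} {t u k w z : V} (h : L.Ear t u k w z) : (L.erase k).s t = u := by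
  show (if L.s t = k then L.s k else L.s t) = u
  rw [h.st, if_neg (ne_all h).2.2.2.2.1]

theorem es_u {L : Pg V} {t u k w z : V} (h : L.Ear t u k w z) : (L.erase k).s u = w := by
  show (if L.s u = k then L.s k else L.s u) = w
  rw [h.su, if_pos rfl, h.sk]

theorem es_w {L : Pg V} {t u k w z : V} (h : L.Ear t u k w z) : (L.erase k).s w = z := by
  show (if L.s w = k then L.s k else L.s w) = z
  rw [h.sw, if_neg (ne_all h).2.2.2.2.2.2.2.2.1.symm]

theorem ev_rel {L : Pg V} {t u k w z : V} (h : L.Ear t u k w z) :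
    ∀ᶠ x in 𝓝 ((0, 0) : ℝ × ℝ), RelP (L.erase k) (F L t u w z x) := by
  obtain ⟨htu, htk, htw, htz, huk, huw, huz, hkw, hkz, hwz⟩ := ne_all h
  have hE := h.ok'
  rcases hE.kind with ⟨hX, -⟩ | ⟨m, hX, hm, q, hq, hqm, ⟨a0, b0, ha0, hb0, hrel⟩, -⟩
  · refine Eventually.of_forall fun x m hm => ?_
    rw [hX] at hm
    exact absurd hm (by simp)
  · have hmu : m ≠ u := fun e => h.Xu (by rw [← e]; exact hX)
    have hmw : m ≠ w := fun e => h.Xw (by rw [← e]; exact hX)
    have huS : u ∈ (L.erase k).S := Finset.mem_erase.2 ⟨huk, h.memu⟩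
    have hwS : w ∈ (L.erase k).S := Finset.mem_erase.2 ⟨hkw.symm, h.memw⟩
    have htS : t ∈ (L.erase k).S := Finset.mem_erase.2 ⟨htk, h.memt⟩
    have hqu : q ≠ u := by
      intro e
      rw [e, es_u h] at hqm
      exact hmw hqm.symm
    have hsw : (L.erase k).s m ≠ w := by
      intro e
      exact hmu (hE.inj m hm u huS (by rw [e, es_u h]))
    set c : ℝ × ℝ → ℝ := fun x => 1 - (if q = w then a0 * x.2 else 0) -
      (if (L.erase k).s m = u then b0 * x.1 else 0) with hc
    have hcc : Continuous c := by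
      rw [hc]
      refine (continuous_const.sub ?_).sub ?_
      · split_ifs <;> fun_prop
      · split_ifs <;> fun_prop
    have hc0 : 0 < c (0, 0) := by simp [hc]
    filter_upwards [hcc.continuousAt.eventually_const_lt hc0] with x hx
    intro m' hX' q' hq' hqm'
    have hmm : m = m' := Option.some.inj (hX.symm.trans hX')
    subst hmm
    have hqq : q' = q := hE.inj q' hq' q hq (by rw [hqm, hqm'])
    subst hqq
    refine ⟨(c x)⁻¹ * a0, (c x)⁻¹ * b0, mul_pos (inv_pos.2 hx) ha0, mul_pos (inv_pos.2 hx) hb0, ?_⟩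
    have hFm : F L t u w z x m = L.p m := F_i L t u w z x hmu hmw
    have hFq : F L t u w z x q' = L.p q' + (if q' = w then x.2 else 0) • L.p m := by
      by_cases e : q' = w
      · have e2 : m = z := by rw [← hqm, e, es_w h]
        rw [if_pos e, e2, e, F_w L t u w z x huw.symm]
      · rw [if_neg e, F_i L t u w z x hqu e, zero_smul, add_zero]
    have hFs : F L t u w z x ((L.erase k).s m) =
        L.p ((L.erase k).s m) + (if (L.erase k).s m = u then x.1 else 0) • L.p m := by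
      by_cases e : (L.erase k).s m = u
      · have e2 : m = t := hE.inj m hm t htS (by rw [e, es_t h])
        rw [if_pos e, e, F_u, e2]
      · rw [if_neg e, F_i L t u w z x e hsw, zero_smul, add_zero]
    rw [hFm, hFq, hFs]
    have hrel' : a0 • L.p q' + b0 • L.p ((L.erase k).s m) + L.p m = 0 := hrel
    have hkey : a0 • (L.p q' + (if q' = w then x.2 else 0) • L.p m) +
        b0 • (L.p ((L.erase k).s m) + (if (L.erase k).s m = u then x.1 else 0) • L.p m) +
        c x • L.p m = 0 := by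
      have e1 : c x = 1 - a0 * (if q' = w then x.2 else 0) -
          b0 * (if (L.erase k).s m = u then x.1 else 0) := by
        simp only [hc]
        split_ifs <;> ring
      rw [e1, ← hrel']
      module
    have h5 := congrArg (fun y => (c x)⁻¹ • y) hkey
    simp only [smul_zero] at h5
    rw [smul_add, smul_add, smul_smul, smul_smul, smul_smul, inv_mul_cancel₀ hx.ne',
      one_smul] at h5
    exact h5

theorem ev_ok {L : Pg V} {t u k w z : V} (h : L.Ear t u k w z) :
    ∀ᶠ x in 𝓝 ((0, 0) : ℝ × ℝ), (L.hat t u k w z x.1 x.2).Ok := by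
  have h0 : Tendsto (F L t u w z) (𝓝 ((0, 0) : ℝ × ℝ)) (𝓝 (L.erase k).p) := F_tendsto L t u w z
  have h1 := h0.eventually (open_ok h.ok')
  filter_upwards [h1, ev_rel h] with x hx hR
  exact hx hR

theorem ev_last {L : Pg V} {t u k w z : V} (h : L.Ear t u k w z) :
    ∀ᶠ x in 𝓝 ((0, 0) : ℝ × ℝ), ∀ m, L.X = some m → ∀ σ : ℝ,
      (∀ i ∈ L.S, σ * inner ℝ (L.nor m) (L.p i) ≤ 0) →
        ∀ i ∈ (L.hat t u k w z x.1 x.2).S,
          σ * inner ℝ ((L.hat t u k w z x.1 x.2).nor m) ((L.hat t u k w z x.1 x.2).p i) ≤ 0 := by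
  obtain ⟨htu, htk, htw, htz, huk, huw, huz, hkw, hkz, hwz⟩ := ne_all h
  rcases h.ok.kind with ⟨hX, -⟩ | ⟨m, hX, hm, q, hq, hqm, ⟨a0, b0, ha0, hb0, hrel⟩, σ0, hσ0, hst⟩
  · refine Eventually.of_forall fun x m hm => ?_
    rw [hX] at hm
    exact absurd hm (by simp)
  · have hmu : m ≠ u := fun e => h.Xu (by rw [← e]; exact hX)
    have hmw : m ≠ w := fun e => h.Xw (by rw [← e]; exact hX)
    have hmk : m ≠ k := fun e => h.Xk (by rw [← e]; exact hX)
    have hsk : L.s m ≠ k := fun e => hmu (h.ok.inj m hm u h.memu (by rw [e, h.su]))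
    have hsw : L.s m ≠ w := fun e => hmk (h.ok.inj m hm k h.memk (by rw [e, h.sk]))
    have hqu : q ≠ u := by
      intro e; rw [e, h.su] at hqm; exact hmk hqm.symm
    have key : ∀ (f : V) (x : ℝ × ℝ → E3), Continuous x → x (0, 0) = L.p f →
        σ0 * inner ℝ (L.nor m) (L.p f) < 0 →
        ∀ᶠ y in 𝓝 ((0, 0) : ℝ × ℝ), ∀ σ : ℝ, σ * inner ℝ (L.nor m) (L.p f) ≤ 0 →
          σ * inner ℝ (L.nor m) (x y) ≤ 0 := by
      intro f x hx hx0 hlt
      have hc : Continuous fun y => σ0 * (inner ℝ (L.nor m) (x y) : ℝ) := by fun_prop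
      have hlt' : σ0 * (inner ℝ (L.nor m) (x (0, 0)) : ℝ) < 0 := by rw [hx0]; exact hlt
      filter_upwards [hc.continuousAt.eventually_lt_const hlt'] with y hy σ hσ
      have hss : σ0 * σ0 = 1 := by rcases hσ0 with e | e <;> rw [e] <;> norm_num
      have h1 : 0 ≤ σ * σ0 := by
        by_contra hneg
        have h2 := mul_pos_of_neg_of_neg (not_le.1 hneg) hlt
        have h3 : σ * σ0 * (σ0 * inner ℝ (L.nor m) (L.p f)) =
            σ0 * σ0 * (σ * inner ℝ (L.nor m) (L.p f)) := by ring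
        rw [h3, hss, one_mul] at h2
        exact absurd hσ (not_le.2 h2)
      have h2 : σ * inner ℝ (L.nor m) (x y) =
          σ * σ0 * (σ0 * inner ℝ (L.nor m) (x y)) := by
        have : σ * σ0 * (σ0 * inner ℝ (L.nor m) (x y)) =
            σ0 * σ0 * (σ * inner ℝ (L.nor m) (x y)) := by ring
        rw [this, hss, one_mul]
      rw [h2]
      exact mul_nonpos_of_nonneg_of_nonpos h1 hy.le
    have evu : ∀ᶠ y in 𝓝 ((0, 0) : ℝ × ℝ), ∀ σ : ℝ, σ * inner ℝ (L.nor m) (L.p u) ≤ 0 →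
        σ * inner ℝ (L.nor m) (L.p u + y.1 • L.p t) ≤ 0 := by
      by_cases e : m = t
      · refine Eventually.of_forall fun y σ _ => ?_
        have h1 : inner ℝ (L.nor m) (L.p u + y.1 • L.p t) = (0 : ℝ) := by
          unfold Pg.nor
          rw [e, h.st, inner_add_right, inner_smul_right, crs_eq_inner, crs_eq_inner,
            det3_self1, det3_self2]
          ring
        rw [h1, mul_zero]
      · refine key u _ (by fun_prop) (by simp) (hst u h.memu hqu.symm hmu.symm ?_)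
        intro e2
        exact e (h.ok.inj m hm t h.memt (by rw [h.st, e2]))
    have evw : ∀ᶠ y in 𝓝 ((0, 0) : ℝ × ℝ), ∀ σ : ℝ, σ * inner ℝ (L.nor m) (L.p w) ≤ 0 →
        σ * inner ℝ (L.nor m) (L.p w + y.2 • L.p z) ≤ 0 := by
      by_cases e : m = z
      · refine Eventually.of_forall fun y σ _ => ?_
        have hqw : q = w := h.ok.inj q hq w h.memw (by rw [hqm, h.sw, e])
        have h0 : inner ℝ (L.nor m) (L.p m) = (0 : ℝ) := by
          unfold Pg.nor
          rw [crs_eq_inner, det3_self1]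
        have h0' : inner ℝ (L.nor m) (L.p (L.s m)) = (0 : ℝ) := by
          unfold Pg.nor
          rw [crs_eq_inner, det3_self2]
        have h1 : inner ℝ (L.nor m) (L.p w) = (0 : ℝ) := by
          have h2 : inner ℝ (L.nor m) (a0 • L.p q + b0 • L.p (L.s m) + L.p m) = (0 : ℝ) := by
            rw [hrel, inner_zero_right]
          rw [inner_add_right, inner_add_right, inner_smul_right, inner_smul_right, h0, h0',
            hqw, mul_zero, add_zero, add_zero] at h2
          exact (mul_eq_zero.1 h2).resolve_left ha0.ne'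
        rw [inner_add_right, inner_smul_right, h1, ← e, h0]
        simp
      · refine key w _ (by fun_prop) (by simp) (hst w h.memw ?_ hmw.symm hsw.symm)
        intro e2
        apply e
        rw [← hqm, ← e2, h.sw]
    filter_upwards [evu, evw] with x hxu hxw
    intro m' hX' σ hσ i hi
    have hmm : m = m' := Option.some.inj (hX.symm.trans hX')
    subst hmm
    have hes : (L.erase k).s m = L.s m := by
      show (if L.s m = k then L.s k else L.s m) = L.s m
      rw [if_neg hsk]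
    have hFm : F L t u w z x m = L.p m := F_i L t u w z x hmu hmw
    have hnor : (L.hat t u k w z x.1 x.2).nor m = L.nor m := by
      show crs (F L t u w z x m) (F L t u w z x ((L.erase k).s m)) = crs (L.p m) (L.p (L.s m))
      rw [hes, hFm]
      by_cases e : L.s m = u
      · have e2 : m = t := h.ok.inj m hm t h.memt (by rw [e, h.st])
        rw [e, F_u, e2]
        ext l
        fin_cases l <;> simp [crs] <;> ring
      · rw [F_i L t u w z x e hsw]
    rw [hnor]
    show σ * inner ℝ (L.nor m) (F L t u w z x i) ≤ 0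
    have hiS : i ∈ L.S := Finset.mem_of_mem_erase hi
    by_cases e1 : i = u
    · rw [e1, F_u]
      exact hxu σ (hσ u h.memu)
    · by_cases e2 : i = w
      · rw [e2, F_w L t u w z x huw.symm]
        exact hxw σ (hσ w h.memw)
      · rw [F_i L t u w z x e1 e2]
        exact hσ i hiS

theorem ev_turn {L : Pg V} {t u k w z : V} (h : L.Ear t u k w z) :
    ∀ᶠ x in 𝓝 ((0, 0) : ℝ × ℝ),
      Real.sign ((L.hat t u k w z x.1 x.2).turn t) = Real.sign (det3 (L.p t) (L.p u) (L.p w)) ∧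
      Real.sign ((L.hat t u k w z x.1 x.2).turn u) =
        Real.sign (det3 (L.p u) (L.p w) (L.p z)) := by
  have hf : ∀ i : V, Continuous fun x => F L t u w z x i := fun i =>
    (continuous_apply i).comp (F_cont L t u w z)
  have h1 := sign_ev (det3_cont (hf t) (hf u) (hf w)) (x₀ := ((0, 0) : ℝ × ℝ))
    (by rw [F_zero]; exact h.τu)
  have h2 := sign_ev (det3_cont (hf u) (hf w) (hf z)) (x₀ := ((0, 0) : ℝ × ℝ))
    (by rw [F_zero]; exact h.τw)
  filter_upwards [h1, h2] with x h1 h2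
  rw [F_zero] at h1 h2
  constructor
  · rw [← h1]
    show Real.sign (det3 (F L t u w z x t) (F L t u w z x ((L.erase k).s t))
      (F L t u w z x ((L.erase k).s ((L.erase k).s t)))) = _
    rw [es_t h, es_u h]
  · rw [← h2]
    show Real.sign (det3 (F L t u w z x u) (F L t u w z x ((L.erase k).s u))
      (F L t u w z x ((L.erase k).s ((L.erase k).s u)))) = _
    rw [es_u h, es_w h]

end TILT_

theorem tilt_proof : Stmt_Tilt := by
  intro V _ L t u k w z h
  obtain ⟨ε, hε, h1⟩ := Metric.eventually_nhds_iff.1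
    ((TILT_.ev_ok h).and ((TILT_.ev_turn h).and (TILT_.ev_last h)))
  refine ⟨ε, hε, fun a a' ha ha' => ?_⟩
  have h2 : dist ((a, a') : ℝ × ℝ) (0, 0) < ε := by
    rw [Prod.dist_eq, Real.dist_eq, Real.dist_eq, sub_zero, sub_zero]
    exact max_lt ha ha'
  obtain ⟨k1, k2, k3⟩ := h1 h2
  exact ⟨k1, k2.1, k2.2, k3⟩

end Pool.Agent.TSM
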