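import Pool.Agent.TSM.VStmts2

/-!
# TSM, Part VM: basic lemmas for the second batch
-/

set_option autoImplicit false

namespace Pool.Agent.TSM

open Set Filter Topology Metric

theorem crs_eq_inner (a b c : E3) : (inner ℝ (crs a b) c : ℝ) = det3 a b c := by
  simp [crs, det3, PiLp.inner_apply, Fin.sum_univ_three]
  ring

theorem det3_cyc (a b c : E3) : det3 a b c = det3 b c a := by
  unfold det3; ring

theorem det3_swap (a b c : E3) : det3 a b c = -det3 b a c := by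
  unfold det3; ring

theorem ev_line {Z : Aff} {e : E3} (h : (inner ℝ Z.1 e : ℝ) ≠ 0) (x : E3) (t : ℝ) :
    ev Z (x + t • e) = inner ℝ Z.1 e * (t - tz e Z x) := by
  unfold tz ev
  rw [inner_add_right, inner_smul_right]
  field_simp
  ring

theorem tz_cont (e : E3) (Z : Aff) : Continuous (tz e Z) := by
  unfold tz ev
  fun_prop

namespace EndD

variable {ι : Type} [DecidableEq ι]

theorem mx_le_iff (E : EndD ι) (Z : ι → Aff) (s : Finset ι) (x : E3) (t : ℝ) :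
    E.mx Z s x ≤ t ↔ tz E.e (Z E.iQ) x ≤ t ∧ ∀ i ∈ s, tz E.e (Z i) x ≤ t := by
  unfold mx
  exact Finset.fold_max_le t

theorem le_mx_iff (E : EndD ι) (Z : ι → Aff) (s : Finset ι) (x : E3) (t : ℝ) :
    t ≤ E.mx Z s x ↔ t ≤ tz E.e (Z E.iQ) x ∨ ∃ i ∈ s, t ≤ tz E.e (Z i) x := by
  unfold mx
  exact Finset.le_fold_max t

theorem le_mn_iff (E : EndD ι) (Z : ι → Aff) (s : Finset ι) (x : E3) (t : ℝ) :
    t ≤ E.mn Z s x ↔ t ≤ tz E.e (Z E.iQ) x ∧ ∀ i ∈ s, t ≤ tz E.e (Z i) x := by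
  unfold mn
  exact Finset.le_fold_min t

theorem mn_le_iff (E : EndD ι) (Z : ι → Aff) (s : Finset ι) (x : E3) (t : ℝ) :
    E.mn Z s x ≤ t ↔ tz E.e (Z E.iQ) x ≤ t ∨ ∃ i ∈ s, tz E.e (Z i) x ≤ t := by
  unfold mn
  exact Finset.fold_min_le t

theorem exists_mx (E : EndD ι) (Z : ι → Aff) (s : Finset ι) (x : E3) (h : E.iQ ∈ s) :
    ∃ i ∈ s, E.mx Z s x = tz E.e (Z i) x := by
  have h0 := (E.le_mx_iff Z s x (E.mx Z s x)).1 le_rfl
  have h1 := (E.mx_le_iff Z s x (E.mx Z s x)).1 le_rfl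
  rcases h0 with h0 | ⟨i, hi, h0⟩
  · exact ⟨E.iQ, h, le_antisymm h0 h1.1⟩
  · exact ⟨i, hi, le_antisymm h0 (h1.2 i hi)⟩

theorem exists_mn (E : EndD ι) (Z : ι → Aff) (s : Finset ι) (x : E3) (h : E.iQ ∈ s) :
    ∃ i ∈ s, E.mn Z s x = tz E.e (Z i) x := by
  have h0 := (E.mn_le_iff Z s x (E.mn Z s x)).1 le_rfl
  have h1 := (E.le_mn_iff Z s x (E.mn Z s x)).1 le_rfl
  rcases h0 with h0 | ⟨i, hi, h0⟩
  · exact ⟨E.iQ, h, le_antisymm h1.1 h0⟩
  · exact ⟨i, hi, le_antisymm (h1.2 i hi) h0⟩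

theorem tz_le_mx (E : EndD ι) (Z : ι → Aff) (s : Finset ι) (x : E3) (i : ι) (h : i ∈ s) :
    tz E.e (Z i) x ≤ E.mx Z s x :=
  ((E.mx_le_iff Z s x (E.mx Z s x)).1 le_rfl).2 i h

theorem mn_le_tz (E : EndD ι) (Z : ι → Aff) (s : Finset ι) (x : E3) (i : ι) (h : i ∈ s) :
    E.mn Z s x ≤ tz E.e (Z i) x :=
  ((E.le_mn_iff Z s x (E.mn Z s x)).1 le_rfl).2 i h

/-- the maximum over all planes splits off the plane `iP` -/
theorem mx_split (E : EndD ι) (Z : ι → Aff) (x : E3) (h : E.iP ∈ E.J) :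
    E.mx Z E.J x = max (tz E.e (Z E.iP) x) (E.mx Z (E.J.erase E.iP) x) := by
  apply le_antisymm
  · rw [mx_le_iff]
    refine ⟨le_max_of_le_right ((E.mx_le_iff Z _ x _).1 le_rfl).1, fun i hi => ?_⟩
    by_cases hp : i = E.iP
    · subst hp; exact le_max_left _ _
    · exact le_max_of_le_right (E.tz_le_mx Z _ x i (Finset.mem_erase.2 ⟨hp, hi⟩))
  · apply max_le (E.tz_le_mx Z _ x _ h)
    rw [mx_le_iff]
    refine ⟨((E.mx_le_iff Z _ x _).1 le_rfl).1, fun i hi => ?_⟩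
    exact E.tz_le_mx Z _ x i (Finset.mem_of_mem_erase hi)

theorem mx_cont (E : EndD ι) (Z : ι → Aff) (s : Finset ι) : Continuous (E.mx Z s) := by
  unfold mx
  induction s using Finset.induction_on with
  | empty => simpa using tz_cont _ _
  | insert a s ha ih =>
    simp only [Finset.fold_insert ha]
    exact (tz_cont _ _).max ih

theorem mn_cont (E : EndD ι) (Z : ι → Aff) (s : Finset ι) : Continuous (E.mn Z s) := by
  unfold mn
  induction s using Finset.induction_on with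
  | empty => simpa using tz_cont _ _
  | insert a s ha ih =>
    simp only [Finset.fold_insert ha]
    exact (tz_cont _ _).min ih

theorem ab_cont (E : EndD ι) (A B : Aff) : Continuous (E.ab A B) :=
  (tz_cont _ _).max (tz_cont _ _)

theorem tM_cont (E : EndD ι) (Z : ι → Aff) (A B : Aff) : Continuous (E.tM Z A B) :=
  (tz_cont _ _).min (E.ab_cont A B)

theorem tO_cont (E : EndD ι) (Z : ι → Aff) : Continuous (E.tO Z) := by
  unfold tO
  split_ifs
  · exact E.mn_cont Z _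
  · exact E.mx_cont Z _

theorem tN_cont (E : EndD ι) (Z : ι → Aff) (A B : Aff) : Continuous (E.tN Z A B) := by
  unfold tN
  split_ifs
  · exact (E.mn_cont Z _).min (E.ab_cont A B)
  · exact (E.mx_cont Z _).min (E.ab_cont A B)
  · exact (tz_cont _ _).max ((E.mx_cont Z _).min (E.ab_cont A B))

end EndD

end Pool.Agent.TSM
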