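import Pool.Agent.TSM.SDefs

/-!
# TSM: spherical polygons and their cones (Parts EL and VM)

A polygon is a finite set `S` of labels with a cyclic successor function `s` and directions `p`.
`X = none`: closed type (link of an inner vertex).  `X = some m`: corner type (link of a corner):
`m` is a flat vertex inside the big flat sector (angle `> π`) spanned by the two faces at `m`.
-/

set_option autoImplicit false

namespace Pool.Agent.TSM

open Set Filter Topology

/-- cross product -/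
noncomputable def crs (a b : E3) : E3 :=
  !₂[a 1 * b 2 - a 2 * b 1, a 2 * b 0 - a 0 * b 2, a 0 * b 1 - a 1 * b 0]

structure Pg (V : Type) [DecidableEq V] where
  S : Finset V
  s : V → V
  p : V → E3
  X : Option V

namespace Pg

variable {V : Type} [DecidableEq V]

/-- the face between `i` and `s i` -/
def face (L : Pg V) (i : V) : Set E3 :=
  {x | ∃ a b : ℝ, 0 ≤ a ∧ 0 ≤ b ∧ x = a • L.p i + b • L.p (L.s i)}

/-- the cone over the polygon -/
def cone (L : Pg V) : Set E3 := {x | ∃ i ∈ L.S, x ∈ L.face i}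

/-- oriented normal of the face `i` -/
noncomputable def nor (L : Pg V) (i : V) : E3 := crs (L.p i) (L.p (L.s i))

/-- the turn at `s i` -/
noncomputable def turn (L : Pg V) (i : V) : ℝ :=
  det3 (L.p i) (L.p (L.s i)) (L.p (L.s (L.s i)))

/-- cut off the vertex `k` -/
def erase (L : Pg V) (k : V) : Pg V where
  S := L.S.erase k
  s := fun i => if L.s i = k then L.s k else L.s i
  p := L.p
  X := L.X

/-- the three labels are the flat vertex and its two neighbours -/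
def Flat (L : Pg V) (i j k : V) : Prop :=
  ∃ m q, L.X = some m ∧ q ∈ L.S ∧ L.s q = m ∧ ({i, j, k} : Finset V) = {q, m, L.s m}

/-- corner type: `m` is the flat vertex -/
def CornerAt (L : Pg V) (m : V) : Prop :=
  m ∈ L.S ∧ ∃ q ∈ L.S, L.s q = m ∧
    (∃ a b : ℝ, 0 < a ∧ 0 < b ∧ a • L.p q + b • L.p (L.s m) + L.p m = 0) ∧
    ∃ σ : ℝ, (σ = 1 ∨ σ = -1) ∧ ∀ i ∈ L.S, i ≠ q → i ≠ m → i ≠ L.s m →
      σ * (inner ℝ (L.nor m) (L.p i) : ℝ) < 0

structure Ok (L : Pg V) : Prop where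
  maps : ∀ i ∈ L.S, L.s i ∈ L.S
  inj : ∀ i ∈ L.S, ∀ j ∈ L.S, L.s i = L.s j → i = j
  trans : ∀ i ∈ L.S, ∀ j ∈ L.S, ∃ m : ℕ, L.s^[m] i = j
  card : 4 ≤ L.S.card
  gen : ∀ i ∈ L.S, ∀ j ∈ L.S, ∀ k ∈ L.S, i ≠ j → i ≠ k → j ≠ k → ¬ L.Flat i j k →
    det3 (L.p i) (L.p j) (L.p k) ≠ 0
  simple : ∀ i ∈ L.S, ∀ j ∈ L.S, i ≠ j → ∀ x, x ∈ L.face i → x ∈ L.face j →
    (j = L.s i ∧ ∃ a : ℝ, 0 ≤ a ∧ x = a • L.p j) ∨
    (i = L.s j ∧ ∃ a : ℝ, 0 ≤ a ∧ x = a • L.p i) ∨ x = 0
  kind : (L.X = none ∧ ∀ ν : E3, ν ≠ 0 → ∃ i ∈ L.S, 0 < (inner ℝ ν (L.p i) : ℝ)) ∨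
    ∃ m, L.X = some m ∧ L.CornerAt m

end Pg

/-- side conditions of a genuine ear at `k`: the two neighbouring sides do not enter the ear
triangle (`t u k w w'` consecutive vertices) -/
def Pg.EarC {V : Type} [DecidableEq V] (L : Pg V) (k : V) : Prop :=
  ∀ t ∈ L.S, ∀ u ∈ L.S, L.s t = u → L.s u = k →
    (L.turn u * det3 (L.p t) (L.p u) (L.p (L.s k)) < 0 →
      L.turn u * det3 (L.p t) (L.p u) (L.p k) < 0) ∧
    (L.turn u * det3 (L.p u) (L.p (L.s k)) (L.p (L.s (L.s k))) < 0 →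
      L.turn u * det3 (L.p k) (L.p (L.s k)) (L.p (L.s (L.s k))) < 0)

/-- EL (ear theorem): every polygon with at least five vertices has a vertex which can be cut off
such that the rest is again a simple generic polygon of the same type. -/
def Stmt_EL : Prop :=
  ∀ (V : Type) [DecidableEq V] (L : Pg V), L.Ok → 5 ≤ L.S.card →
    ∃ k ∈ L.S, (L.erase k).Ok ∧ L.EarC k

end Pool.Agent.TSM
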