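import Pool.Agent.TSM.VStmts3

/-!
# TSM, batch 3, VINJ: vertical lines meet the zone at most once
-/

set_option autoImplicit false

namespace Pool.Agent.TSM

namespace VINJ_

theorem det3_lin1 (a c : ℝ) (p q r s : E3) :
    det3 (a • p + c • q) r s = a * det3 p r s + c * det3 q r s := by
  simp only [det3, PiLp.add_apply, PiLp.smul_apply, smul_eq_mul]
  ring

theorem det3_lin2 (a c : ℝ) (p q r s : E3) :
    det3 r (a • p + c • q) s = a * det3 r p s + c * det3 r q s := by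
  simp only [det3, PiLp.add_apply, PiLp.smul_apply, smul_eq_mul]
  ring

theorem zero_of {u v : ℝ} (hu : 0 ≤ u) (hv : 0 ≤ v) (h : u + v = 0) : u = 0 ∧ v = 0 :=
  ⟨by linarith, by linarith⟩

/-- The abstract statement: two coordinates on the zone. -/
theorem core {pt pu pk pw pz : E3} {A B : E3 → ℝ}
    (hA : ∀ (a c : ℝ) (p q : E3), A (a • p + c • q) = a * A p + c * A q)
    (hB : ∀ (a c : ℝ) (p q : E3), B (a • p + c • q) = a * B p + c * B q)
    {lam x₀ y₀ : ℝ} (hl : 0 < lam) (hx : 0 < x₀) (hy : 0 < y₀)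
    (Au : A pu = lam) (Aw : A pw = 0) (Ak : A pk = x₀ * lam) (Az : A pz < 0)
    (Bu : B pu = 0) (Bw : B pw = lam) (Bk : B pk = y₀ * lam) (Bt : B pt < 0)
    {δ : ℝ} (hδ1 : δ * |A pt| ≤ lam / 2) (hδ2 : δ * |B pz| ≤ lam / 2)
    (Fu Fk Zu Zw : Set E3)
    (hFu : ∀ x ∈ Fu, ∃ c d : ℝ, 0 ≤ c ∧ 0 ≤ d ∧ x = c • pu + d • pk)
    (hFk : ∀ x ∈ Fk, ∃ d c : ℝ, 0 ≤ d ∧ 0 ≤ c ∧ x = d • pk + c • pw)
    (hZu : ∀ x ∈ Zu, ∃ a c : ℝ, 0 ≤ a ∧ 0 ≤ c ∧ a ≤ δ * c ∧ x = a • pt + c • pu)
    (hZw : ∀ x ∈ Zw, ∃ a c : ℝ, 0 ≤ a ∧ 0 ≤ c ∧ a ≤ δ * c ∧ x = a • pz + c • pw)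
    (x y : E3) (hx1 : x ∈ Fu ∨ x ∈ Fk ∨ x ∈ Zu ∨ x ∈ Zw)
    (hy1 : y ∈ Fu ∨ y ∈ Fk ∨ y ∈ Zu ∨ y ∈ Zw) (eA : A x = A y) (eB : B x = B y) : x = y := by
  -- lower bounds on the arms
  have lowU : ∀ a c : ℝ, 0 ≤ a → 0 ≤ c → a ≤ δ * c → c * (lam / 2) ≤ a * A pt + c * A pu := by
    intro a c ha hc hac
    have h1 : a * |A pt| ≤ c * (lam / 2) := by
      calc a * |A pt| ≤ (δ * c) * |A pt| := mul_le_mul_of_nonneg_right hac (abs_nonneg _)
        _ = c * (δ * |A pt|) := by ring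
        _ ≤ c * (lam / 2) := mul_le_mul_of_nonneg_left hδ1 hc
    have h2 : -(a * |A pt|) ≤ a * A pt := by
      rw [← mul_neg]
      exact mul_le_mul_of_nonneg_left (neg_abs_le _) ha
    rw [Au]
    linarith
  have lowW : ∀ a c : ℝ, 0 ≤ a → 0 ≤ c → a ≤ δ * c → c * (lam / 2) ≤ a * B pz + c * B pw := by
    intro a c ha hc hac
    have h1 : a * |B pz| ≤ c * (lam / 2) := by
      calc a * |B pz| ≤ (δ * c) * |B pz| := mul_le_mul_of_nonneg_right hac (abs_nonneg _)
        _ = c * (δ * |B pz|) := by ring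
        _ ≤ c * (lam / 2) := mul_le_mul_of_nonneg_left hδ2 hc
    have h2 : -(a * |B pz|) ≤ a * B pz := by
      rw [← mul_neg]
      exact mul_le_mul_of_nonneg_left (neg_abs_le _) ha
    rw [Bw]
    linarith
  have hl2 : 0 < lam / 2 := by linarith
  -- the six mixed and four pure cases
  have FuFu : ∀ x ∈ Fu, ∀ y ∈ Fu, A x = A y → B x = B y → x = y := by
    intro x hx2 y hy2 eA eB
    obtain ⟨c, d, hc, hd, rfl⟩ := hFu x hx2
    obtain ⟨c', d', hc', hd', rfl⟩ := hFu y hy2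
    simp only [hA, hB, Au, Ak, Bu, Bk, mul_zero, zero_add] at eA eB
    have h1 : d = d' := mul_right_cancel₀ (mul_pos hy hl).ne' eB
    subst h1
    have h2 : c = c' := mul_right_cancel₀ hl.ne' (by linarith)
    rw [h2]
  have FkFk : ∀ x ∈ Fk, ∀ y ∈ Fk, A x = A y → B x = B y → x = y := by
    intro x hx2 y hy2 eA eB
    obtain ⟨c, d, hc, hd, rfl⟩ := hFk x hx2
    obtain ⟨c', d', hc', hd', rfl⟩ := hFk y hy2
    simp only [hA, hB, Aw, Ak, Bw, Bk, mul_zero, add_zero] at eA eB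
    have h1 : c = c' := mul_right_cancel₀ (mul_pos hx hl).ne' eA
    subst h1
    have h2 : d = d' := mul_right_cancel₀ hl.ne' (by linarith)
    rw [h2]
  have ZuZu : ∀ x ∈ Zu, ∀ y ∈ Zu, A x = A y → B x = B y → x = y := by
    intro x hx2 y hy2 eA eB
    obtain ⟨a, c, ha, hc, hac, rfl⟩ := hZu x hx2
    obtain ⟨a', c', ha', hc', hac', rfl⟩ := hZu y hy2
    simp only [hA, hB, Au, Bu, mul_zero, add_zero] at eA eB
    have h1 : a = a' := mul_right_cancel₀ Bt.ne eB
    subst h1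
    have h2 : c = c' := mul_right_cancel₀ hl.ne' (by linarith)
    rw [h2]
  have ZwZw : ∀ x ∈ Zw, ∀ y ∈ Zw, A x = A y → B x = B y → x = y := by
    intro x hx2 y hy2 eA eB
    obtain ⟨a, c, ha, hc, hac, rfl⟩ := hZw x hx2
    obtain ⟨a', c', ha', hc', hac', rfl⟩ := hZw y hy2
    simp only [hA, hB, Aw, Bw, mul_zero, add_zero] at eA eB
    have h1 : a = a' := mul_right_cancel₀ Az.ne eA
    subst h1
    have h2 : c = c' := mul_right_cancel₀ hl.ne' (by linarith)
    rw [h2]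
  have FuFk : ∀ x ∈ Fu, ∀ y ∈ Fk, A x = A y → B x = B y → x = y := by
    intro x hx2 y hy2 eA eB
    obtain ⟨c, d, hc, hd, rfl⟩ := hFu x hx2
    obtain ⟨d', c', hd', hc', rfl⟩ := hFk y hy2
    simp only [hA, hB, Au, Aw, Ak, Bu, Bw, Bk, mul_zero, zero_add, add_zero] at eA eB
    -- c lam + d x₀ lam = d' x₀ lam,  d y₀ lam = d' y₀ lam + c' lam
    have e1 : c + x₀ * (d - d') = 0 := by
      have : (c + x₀ * (d - d')) * lam = 0 := by linear_combination eA
      exact (mul_eq_zero.1 this).resolve_right hl.ne'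
    have e2 : c' + y₀ * (d' - d) = 0 := by
      have : (c' + y₀ * (d' - d)) * lam = 0 := by linear_combination -eB
      exact (mul_eq_zero.1 this).resolve_right hl.ne'
    have e3 : d ≤ d' := by
      by_contra hcon
      push Not at hcon
      have : 0 < x₀ * (d - d') := mul_pos hx (by linarith)
      linarith
    have e4 : d' ≤ d := by
      by_contra hcon
      push Not at hcon
      have : 0 < y₀ * (d' - d) := mul_pos hy (by linarith)
      linarith
    have e5 : d = d' := le_antisymm e3 e4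
    subst e5
    have e6 : c = 0 := by simpa using e1
    have e7 : c' = 0 := by simpa using e2
    rw [e6, e7, zero_smul, zero_smul, zero_add, add_zero]
  have FuZu : ∀ x ∈ Fu, ∀ y ∈ Zu, A x = A y → B x = B y → x = y := by
    intro x hx2 y hy2 eA eB
    obtain ⟨c, d, hc, hd, rfl⟩ := hFu x hx2
    obtain ⟨a, c', ha, hc', hac, rfl⟩ := hZu y hy2
    simp only [hA, hB, Au, Ak, Bu, Bk, mul_zero, zero_add, add_zero] at eA eB
    obtain ⟨e1, e2⟩ := zero_of (u := d * (y₀ * lam)) (v := a * (-B pt)) (by positivity)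
      (mul_nonneg ha (by linarith)) (by linear_combination eB)
    have e3 : d = 0 := (mul_eq_zero.1 e1).resolve_right (mul_pos hy hl).ne'
    have e4 : a = 0 := (mul_eq_zero.1 e2).resolve_right (by linarith [Bt] : (-B pt) > 0).ne'
    subst e3 e4
    have h2 : c = c' := mul_right_cancel₀ hl.ne' (by linarith)
    rw [h2, zero_smul, zero_smul, zero_add, add_zero]
  have FkZw : ∀ x ∈ Fk, ∀ y ∈ Zw, A x = A y → B x = B y → x = y := by
    intro x hx2 y hy2 eA eB
    obtain ⟨d, c, hd, hc, rfl⟩ := hFk x hx2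
    obtain ⟨a, c', ha, hc', hac, rfl⟩ := hZw y hy2
    simp only [hA, hB, Aw, Ak, Bw, Bk, mul_zero, zero_add, add_zero] at eA eB
    obtain ⟨e1, e2⟩ := zero_of (u := d * (x₀ * lam)) (v := a * (-A pz)) (by positivity)
      (mul_nonneg ha (by linarith)) (by linear_combination eA)
    have e3 : d = 0 := (mul_eq_zero.1 e1).resolve_right (mul_pos hx hl).ne'
    have e4 : a = 0 := (mul_eq_zero.1 e2).resolve_right (by linarith [Az] : (-A pz) > 0).ne'
    subst e3 e4
    have h2 : c = c' := mul_right_cancel₀ hl.ne' (by linarith)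
    rw [h2, zero_smul, zero_smul]
  have FuZw : ∀ x ∈ Fu, ∀ y ∈ Zw, A x = A y → B x = B y → x = y := by
    intro x hx2 y hy2 eA eB
    obtain ⟨c, d, hc, hd, rfl⟩ := hFu x hx2
    obtain ⟨a, c', ha, hc', hac, rfl⟩ := hZw y hy2
    have hlow := lowW a c' ha hc' hac
    simp only [hA, hB, Au, Aw, Ak, Bu, Bw, Bk, mul_zero, zero_add, add_zero] at eA eB hlow
    obtain ⟨e1, e2⟩ := zero_of (u := c * lam + d * (x₀ * lam)) (v := a * (-A pz)) (by positivity)
      (mul_nonneg ha (by linarith)) (by linear_combination eA)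
    obtain ⟨e3, e4⟩ := zero_of (u := c * lam) (v := d * (x₀ * lam)) (by positivity)
      (by positivity) e1
    have e5 : c = 0 := (mul_eq_zero.1 e3).resolve_right hl.ne'
    have e6 : d = 0 := (mul_eq_zero.1 e4).resolve_right (mul_pos hx hl).ne'
    have e7 : a = 0 := (mul_eq_zero.1 e2).resolve_right (by linarith [Az] : (-A pz) > 0).ne'
    subst e5 e6 e7
    have e8 : c' * lam = 0 := by linarith
    have e9 : c' = 0 := (mul_eq_zero.1 e8).resolve_right hl.ne'
    rw [e9]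
    simp
  have FkZu : ∀ x ∈ Fk, ∀ y ∈ Zu, A x = A y → B x = B y → x = y := by
    intro x hx2 y hy2 eA eB
    obtain ⟨d, c, hd, hc, rfl⟩ := hFk x hx2
    obtain ⟨a, c', ha, hc', hac, rfl⟩ := hZu y hy2
    simp only [hA, hB, Au, Aw, Ak, Bu, Bw, Bk, mul_zero, zero_add, add_zero] at eA eB
    obtain ⟨e1, e2⟩ := zero_of (u := d * (y₀ * lam) + c * lam) (v := a * (-B pt)) (by positivity)
      (mul_nonneg ha (by linarith)) (by linear_combination eB)
    obtain ⟨e3, e4⟩ := zero_of (u := d * (y₀ * lam)) (v := c * lam) (by positivity)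
      (by positivity) e1
    have e5 : c = 0 := (mul_eq_zero.1 e4).resolve_right hl.ne'
    have e6 : d = 0 := (mul_eq_zero.1 e3).resolve_right (mul_pos hy hl).ne'
    have e7 : a = 0 := (mul_eq_zero.1 e2).resolve_right (by linarith [Bt] : (-B pt) > 0).ne'
    subst e5 e6 e7
    have e8 : c' * lam = 0 := by linarith
    have e9 : c' = 0 := (mul_eq_zero.1 e8).resolve_right hl.ne'
    rw [e9]
    simp
  have ZuZw : ∀ x ∈ Zu, ∀ y ∈ Zw, A x = A y → B x = B y → x = y := by
    intro x hx2 y hy2 eA eB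
    obtain ⟨a, c, ha, hc, hac, rfl⟩ := hZu x hx2
    obtain ⟨a', c', ha', hc', hac', rfl⟩ := hZw y hy2
    have hlow := lowU a c ha hc hac
    simp only [hA, hB, Au, Aw, Bu, Bw, mul_zero, add_zero] at eA eB hlow
    have h0 : 0 ≤ c * (lam / 2) := by positivity
    have h1 : 0 ≤ a' * (-A pz) := mul_nonneg ha' (by linarith)
    have e1 : c * (lam / 2) = 0 := by linarith
    have e2 : a' * (-A pz) = 0 := by linarith
    have e3 : c = 0 := (mul_eq_zero.1 e1).resolve_right hl2.ne'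
    have e4 : a' = 0 := (mul_eq_zero.1 e2).resolve_right (by linarith [Az] : (-A pz) > 0).ne'
    subst e3 e4
    have e5 : a = 0 := le_antisymm (by simpa using hac) ha
    subst e5
    have e8 : c' * lam = 0 := by linarith
    have e9 : c' = 0 := (mul_eq_zero.1 e8).resolve_right hl.ne'
    rw [e9]
    simp
  rcases hx1 with h | h | h | h <;> rcases hy1 with h' | h' | h' | h'
  · exact FuFu x h y h' eA eB
  · exact FuFk x h y h' eA eB
  · exact FuZu x h y h' eA eB
  · exact FuZw x h y h' eA eB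
  · exact (FuFk y h' x h eA.symm eB.symm).symm
  · exact FkFk x h y h' eA eB
  · exact FkZu x h y h' eA eB
  · exact FkZw x h y h' eA eB
  · exact (FuZu y h' x h eA.symm eB.symm).symm
  · exact (FkZu y h' x h eA.symm eB.symm).symm
  · exact ZuZu x h y h' eA eB
  · exact ZuZw x h y h' eA eB
  · exact (FuZw y h' x h eA.symm eB.symm).symm
  · exact (FkZw y h' x h eA.symm eB.symm).symm
  · exact (ZuZw y h' x h eA.symm eB.symm).symm
  · exact ZwZw x h y h' eA eB

end VINJ_

open VINJ_ in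
theorem vinj_proof : Stmt_Vinj := by
  intro V _ L t u k w z x₀ y₀ hE hEE
  set e := L.ee u k w x₀ y₀ with he
  set A : E3 → ℝ := fun x => det3 x (L.p w) e with hAdef
  set B : E3 → ℝ := fun x => det3 (L.p u) x e with hBdef
  set lam := det3 (L.p u) (L.p k) (L.p w) with hlam
  have hl : 0 < lam := hE.pos
  have Au : A (L.p u) = lam := by
    simp only [hAdef, he, Pg.ee, hlam, det3, PiLp.add_apply, PiLp.sub_apply, PiLp.smul_apply,
      smul_eq_mul]
    ring
  have Aw : A (L.p w) = 0 := by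
    simp only [hAdef, det3]
    ring
  have Ak : A (L.p k) = x₀ * lam := by
    simp only [hAdef, he, Pg.ee, hlam, det3, PiLp.add_apply, PiLp.sub_apply, PiLp.smul_apply,
      smul_eq_mul]
    ring
  have Az : A (L.p z) < 0 := by
    have h1 : A (L.p z) = -(x₀ * det3 (L.p u) (L.p w) (L.p z) - det3 (L.p k) (L.p w) (L.p z)) := by
      simp only [hAdef, he, Pg.ee, det3, PiLp.add_apply, PiLp.sub_apply, PiLp.smul_apply,
        smul_eq_mul]
      ring
    rw [h1]
    linarith [hEE.ew]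
  have Bu : B (L.p u) = 0 := by
    simp only [hBdef, det3]
    ring
  have Bw : B (L.p w) = lam := by
    simp only [hBdef, he, Pg.ee, hlam, det3, PiLp.add_apply, PiLp.sub_apply, PiLp.smul_apply,
      smul_eq_mul]
    ring
  have Bk : B (L.p k) = y₀ * lam := by
    simp only [hBdef, he, Pg.ee, hlam, det3, PiLp.add_apply, PiLp.sub_apply, PiLp.smul_apply,
      smul_eq_mul]
    ring
  have Bt : B (L.p t) < 0 := by
    have h1 : B (L.p t) = -(y₀ * det3 (L.p t) (L.p u) (L.p w) - det3 (L.p t) (L.p u) (L.p k)) := by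
      simp only [hBdef, he, Pg.ee, det3, PiLp.add_apply, PiLp.sub_apply, PiLp.smul_apply,
        smul_eq_mul]
      ring
    rw [h1]
    linarith [hEE.eu]
  have hA : ∀ (a c : ℝ) (p q : E3), A (a • p + c • q) = a * A p + c * A q := fun a c p q =>
    det3_lin1 a c p q _ _
  have hB : ∀ (a c : ℝ) (p q : E3), B (a • p + c • q) = a * B p + c * B q := fun a c p q =>
    det3_lin2 a c p q _ _
  have Ae : A e = 0 := by
    simp only [hAdef, det3]
    ring
  have Be : B e = 0 := by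
    simp only [hBdef, det3]
    ring
  have hden : 0 < 2 * (1 + |A (L.p t)| + |B (L.p z)|) := by positivity
  refine ⟨lam / (2 * (1 + |A (L.p t)| + |B (L.p z)|)), by positivity, ?_⟩
  intro δ hδ0 hδ
  have hδ' : δ * (2 * (1 + |A (L.p t)| + |B (L.p z)|)) ≤ lam := (le_div_iff₀ hden).1 hδ
  have hd1 : δ * |A (L.p t)| ≤ lam / 2 := by
    have h1 : 0 ≤ δ * (1 + |B (L.p z)|) := by positivity
    nlinarith
  have hd2 : δ * |B (L.p z)| ≤ lam / 2 := by
    have h1 : 0 ≤ δ * (1 + |A (L.p t)|) := by positivity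
    nlinarith
  intro x hx y hy r hxy
  have eA : A x = A y := by
    have := hA 1 r y e
    rw [one_smul, ← hxy, Ae, one_mul, mul_zero, add_zero] at this
    exact this
  have eB : B x = B y := by
    have := hB 1 r y e
    rw [one_smul, ← hxy, Be, one_mul, mul_zero, add_zero] at this
    exact this
  have hcases : ∀ x, x ∈ L.zU t u δ ∪ L.zW k w z δ → x ∈ L.face u ∨ x ∈ L.face k ∨
      x ∈ zP (L.p t) (L.p u) δ ∨ x ∈ zP (L.p z) (L.p w) δ := by
    rintro x ((h | h) | (h | h))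
    · exact Or.inr (Or.inr (Or.inl h))
    · exact Or.inl h
    · exact Or.inr (Or.inl h)
    · exact Or.inr (Or.inr (Or.inr h))
  refine core (pt := L.p t) (pu := L.p u) (pk := L.p k) (pw := L.p w) (pz := L.p z)
    hA hB hl hEE.x0 hEE.y0 Au Aw Ak Az Bu Bw Bk Bt hd1 hd2
    (L.face u) (L.face k) (zP (L.p t) (L.p u) δ) (zP (L.p z) (L.p w) δ) ?_ ?_ ?_ ?_ x y
    (hcases x hx) (hcases y hy) eA eB
  · rintro x ⟨a, b, ha, hb, h⟩
    rw [hE.su] at h
    exact ⟨a, b, ha, hb, h⟩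
  · rintro x ⟨a, b, ha, hb, h⟩
    rw [hE.sk] at h
    exact ⟨a, b, ha, hb, h⟩
  · rintro x ⟨a, c, ha, hc, hac, h⟩
    exact ⟨a, c, ha, hc, hac, h⟩
  · rintro x ⟨a, c, ha, hc, hac, h⟩
    exact ⟨a, c, ha, hc, hac, h⟩

end Pool.Agent.TSM
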