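import Pool.Agent.TSM.VStmts3

/-!
# TSM, Part VM: the far equations outside the zone
-/

set_option autoImplicit false

namespace Pool.Agent.TSM

open Set Filter Topology Metric

namespace ZEQO_

theorem det3_first (p q r : E3) (c : ℝ) : det3 (p + c • q) q r = det3 p q r := by
  unfold det3
  simp only [PiLp.add_apply, PiLp.smul_apply, smul_eq_mul]
  ring

theorem det3_third (p q r : E3) (c : ℝ) : det3 p q (r + c • q) = det3 p q r := by
  unfold det3
  simp only [PiLp.add_apply, PiLp.smul_apply, smul_eq_mul]
  ring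

end ZEQO_

open ZEQO_ in
theorem zeqo_proof : Stmt_Zeqo := by
  intro V _ L t u k w z ε δ ε' a a' hE hε hε4 h2ε hδ2 hε' hε'4 ha ha' hH Ch A B x y hx hxU hxW hX
  obtain ⟨⟨hArm, hFace⟩, hExt⟩ := hX
  have nd := hE.nodup
  simp only [List.nodup_cons, List.mem_cons, List.not_mem_nil, or_false, not_or,
    List.nodup_nil, and_true, not_false_eq_true] at nd
  obtain ⟨⟨tu, tk, tw, tz'⟩, ⟨uk, uw, uz⟩, ⟨kw, kz⟩, wz⟩ := nd
  have haa := abs_le.1 ha
  have haa' := abs_le.1 ha'
  have inj := hE.ok.inj
  have maps := hE.ok.maps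
  -- the tilted polygon
  have Hs : ∀ i, i ∈ L.S → i ≠ u → (L.hat t u k w z a a').s i = L.s i := by
    intro i hi hiu
    show (if L.s i = k then L.s k else L.s i) = L.s i
    rw [if_neg]
    intro h
    exact hiu (inj i hi u hE.memu (h.trans hE.su.symm))
  have Hp : ∀ i, i ≠ u → i ≠ w → (L.hat t u k w z a a').p i = L.p i := by
    intro i h1 h2
    show (if i = u then _ else if i = w then _ else L.p i) = L.p i
    rw [if_neg h1, if_neg h2]
  have Hpu : (L.hat t u k w z a a').p u = L.p u + a • L.p t := by
    show (if u = u then _ else _) = _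
    rw [if_pos rfl]
  have Hpw : (L.hat t u k w z a a').p w = L.p w + a' • L.p z := by
    show (if w = u then _ else if w = w then _ else _) = _
    rw [if_neg (Ne.symm uw), if_pos rfl]
  have HS : ∀ i, i ∈ L.S → i ≠ k → i ∈ (L.hat t u k w z a a').S :=
    fun i hi hk => Finset.mem_erase.2 ⟨hk, hi⟩
  -- exclusions
  have xP : ∀ α β : ℝ, 0 ≤ α → 0 ≤ β → α ≤ δ * β → x = α • L.p t + β • L.p u → False :=
    fun α β h1 h2 h3 h4 => hxU (Or.inl ⟨α, β, h1, h2, h3, h4⟩)
  have xU : ∀ α β : ℝ, 0 ≤ α → 0 ≤ β → x = α • L.p u + β • L.p k → False := by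
    intro α β h1 h2 h3
    exact hxU (Or.inr ⟨α, β, h1, h2, by rw [hE.su]; exact h3⟩)
  have xK : ∀ α β : ℝ, 0 ≤ α → 0 ≤ β → x = α • L.p k + β • L.p w → False := by
    intro α β h1 h2 h3
    exact hxW (Or.inl ⟨α, β, h1, h2, by rw [hE.sk]; exact h3⟩)
  have xZ : ∀ α β : ℝ, 0 ≤ α → 0 ≤ β → α ≤ δ * β → x = α • L.p z + β • L.p w → False :=
    fun α β h1 h2 h3 h4 => hxW (Or.inr ⟨α, β, h1, h2, h3, h4⟩)
  have sne : ∀ i ∈ L.S, i ≠ t → i ≠ u → i ≠ k → L.s i ≠ u ∧ L.s i ≠ k ∧ L.s i ≠ w := by
    intro i hi h1 h2 h3
    refine ⟨fun h => ?_, fun h => ?_, fun h => ?_⟩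
    · exact h1 (inj i hi t hE.memt (h.trans hE.st.symm))
    · exact h2 (inj i hi u hE.memu (h.trans hE.su.symm))
    · exact h3 (inj i hi k hE.memk (h.trans hE.sk.symm))
  have hε'1 : ε' ≤ 1 / 16 := by linarith
  constructor
  · intro i hi hxi
    have hit : i ≠ t := by
      rintro rfl
      obtain ⟨α, β, h1, h2, h3, h4⟩ := hxi
      rw [hE.st, hE.su] at h4
      rcases h4 with h4 | h4
      · exact xP α β h1 h2 (h3.trans (mul_le_mul_of_nonneg_right h2ε h2)) h4
      · exact xU β α h2 h1 (by rw [h4, add_comm])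
    have hiu : i ≠ u := by
      rintro rfl
      obtain ⟨α, β, h1, h2, h3, h4⟩ := hxi
      rw [hE.su, hE.sk] at h4
      rcases h4 with h4 | h4
      · exact xU α β h1 h2 h4
      · exact xK β α h2 h1 (by rw [h4, add_comm])
    have hik : i ≠ k := by
      rintro rfl
      obtain ⟨α, β, h1, h2, h3, h4⟩ := hxi
      rw [hE.sk, hE.sw] at h4
      rcases h4 with h4 | h4
      · exact xK α β h1 h2 h4
      · exact xZ α β h1 h2 (h3.trans (mul_le_mul_of_nonneg_right h2ε h2)) h4
    obtain ⟨ju, jk, jw⟩ := sne i hi hit hiu hik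
    have hj : L.s i ∈ L.S := maps i hi
    have hsi := Hs i hi hiu
    have hsj := Hs (L.s i) hj ju
    have hpj := Hp (L.s i) ju jw
    -- position of x
    have key : x ∈ (L.hat t u k w z a a').armZone ε' i ∨
        x ∈ (L.hat t u k w z a a').faceZone ε' i ∨
        x ∈ (L.hat t u k w z a a').faceZone ε' (L.s i) := by
      obtain ⟨α, β, h1, h2, h3, h4⟩ := hxi
      have hεβ : 2 * ε * β ≤ β / 2 := by nlinarith
      rcases h4 with h4 | h4
      · -- x in the face i
        have main : ∀ β' : ℝ, β / 2 ≤ β' →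
            x = α • (L.hat t u k w z a a').p i + β' • L.p (L.s i) →
            x ∈ (L.hat t u k w z a a').armZone ε' i ∨
            x ∈ (L.hat t u k w z a a').faceZone ε' i ∨
            x ∈ (L.hat t u k w z a a').faceZone ε' (L.s i) := by
          intro β' hβ' hxx
          have hβ0 : 0 ≤ β' := by linarith
          rcases le_total α (2 * ε' * β') with h5 | h5
          · left
            refine ⟨α, β', h1, hβ0, h5, Or.inl ?_⟩
            rw [hsi, hpj]; exact hxx
          · right; left
            refine ⟨α, β', h1, hβ0, ?_, ?_, ?_⟩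
            · nlinarith [mul_nonneg hε'.le hβ0]
            · have : ε' * α ≤ 1 * α := mul_le_mul_of_nonneg_right (by linarith) h1
              linarith
            · rw [hsi, hpj]; exact hxx
        by_cases hiw : i = w
        · subst hiw
          apply main (β - a' * α)
          · have h6 : a' * α ≤ δ / 2 * α := mul_le_mul_of_nonneg_right haa'.2 h1
            nlinarith
          · rw [Hpw, h4, hE.sw]
            module
        · apply main β (by linarith)
          rw [Hp i hiu hiw]; exact h4
      · -- x in the face s i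
        have main : ∀ β' : ℝ, β / 2 ≤ β' →
            x = α • (L.hat t u k w z a a').p (L.s (L.s i)) + β' • L.p (L.s i) →
            x ∈ (L.hat t u k w z a a').armZone ε' i ∨
            x ∈ (L.hat t u k w z a a').faceZone ε' i ∨
            x ∈ (L.hat t u k w z a a').faceZone ε' (L.s i) := by
          intro β' hβ' hxx
          have hβ0 : 0 ≤ β' := by linarith
          rcases le_total α (2 * ε' * β') with h5 | h5
          · left
            refine ⟨α, β', h1, hβ0, h5, Or.inr ?_⟩
            rw [hsi, hsj, hpj]; exact hxx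
          · right; right
            refine ⟨β', α, hβ0, h1, ?_, ?_, ?_⟩
            · have : ε' * α ≤ 1 * α := mul_le_mul_of_nonneg_right (by linarith) h1
              linarith
            · nlinarith [mul_nonneg hε'.le hβ0]
            · rw [hsj, hpj, hxx, add_comm]
        by_cases hjt : L.s i = t
        · apply main (β - a * α)
          · have h6 : a * α ≤ δ / 2 * α := mul_le_mul_of_nonneg_right haa.2 h1
            nlinarith
          · rw [hjt, hE.st, Hpu, h4, hjt, hE.st]
            module
        · apply main β (by linarith)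
          have n1 : L.s (L.s i) ≠ u := fun h => hjt (inj _ hj t hE.memt (h.trans hE.st.symm))
          have n2 : L.s (L.s i) ≠ w := fun h => jk (inj _ hj k hE.memk (h.trans hE.sk.symm))
          rw [Hp _ n1 n2]; exact h4
    -- same planes
    have lstEq : ∀ Z, Z ∈ (L.hat t u k w z a a').lst Ch (Pg.hA u w A B) B i ↔
        Z ∈ L.lst (L.chN t u k w z Ch) A B i := by
      intro Z
      have c1 : Pg.hA u w A B i = A i := by
        show (if i = u then _ else A i) = A i
        rw [if_neg hiu]
      have c2 : Pg.hA u w A B (L.s i) = A (L.s i) := by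
        show (if L.s i = u then _ else A (L.s i)) = A (L.s i)
        rw [if_neg ju]
      have c3 : L.chN t u k w z Ch (L.s i) = Ch (L.s i) := by
        unfold Pg.chN
        rw [if_neg jk, if_neg ju, if_neg jw]
      show (Z = Pg.hA u w A B i ∨ Z = Pg.hA u w A B ((L.hat t u k w z a a').s i) ∨
        ∃ n ∈ Ch ((L.hat t u k w z a a').s i), Z = B n) ↔
        (Z = A i ∨ Z = A (L.s i) ∨ ∃ n ∈ L.chN t u k w z Ch (L.s i), Z = B n)
      rw [hsi, c1, c2, c3]
    -- same turn
    have turnEq : (L.hat t u k w z a a').turn i = L.turn i := by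
      show det3 ((L.hat t u k w z a a').p i) ((L.hat t u k w z a a').p
        ((L.hat t u k w z a a').s i)) ((L.hat t u k w z a a').p
        ((L.hat t u k w z a a').s ((L.hat t u k w z a a').s i))) =
        det3 (L.p i) (L.p (L.s i)) (L.p (L.s (L.s i)))
      rw [hsi, hsj, hpj]
      have e1 : ∀ r : E3, det3 ((L.hat t u k w z a a').p i) (L.p (L.s i)) r =
          det3 (L.p i) (L.p (L.s i)) r := by
        intro r
        by_cases hiw : i = w
        · subst hiw
          rw [Hpw, hE.sw]
          exact det3_first _ _ _ _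
        · rw [Hp i hiu hiw]
      rw [e1]
      by_cases hjt : L.s i = t
      · rw [hjt, hE.st, Hpu]
        exact det3_third _ _ _ _
      · have n1 : L.s (L.s i) ≠ u := fun h => hjt (inj _ hj t hE.memt (h.trans hE.st.symm))
        have n2 : L.s (L.s i) ≠ w := fun h => jk (inj _ hj k hE.memk (h.trans hE.sk.symm))
        rw [Hp _ n1 n2]
    have trans : (L.hat t u k w z a a').ArmEq Ch (Pg.hA u w A B) B i y →
        L.ArmEq (L.chN t u k w z Ch) A B i y := by
      rintro ⟨h1, Z, hZ, hZ0⟩
      refine ⟨fun Z' hZ' => ?_, Z, (lstEq Z).1 hZ, hZ0⟩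
      rw [← turnEq]
      exact h1 Z' ((lstEq Z').2 hZ')
    have flat : L.turn i = 0 → (∃ Z ∈ L.lst (L.chN t u k w z Ch) A B i, ev Z y = 0) →
        L.ArmEq (L.chN t u k w z Ch) A B i y := by
      intro h0 hZ
      refine ⟨fun Z' _ => ?_, hZ⟩
      rw [h0, Real.sign_zero, zero_mul]
    have hiS := HS i hi hik
    have hjS := HS (L.s i) hj jk
    rcases key with h | h | h
    · exact trans (hArm i hiS h)
    · by_cases h0 : L.turn i = 0
      · apply flat h0
        refine ⟨A i, Or.inl rfl, ?_⟩
        have h5 := hFace i hiS h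
        have c1 : Pg.hA u w A B i = A i := by
          show (if i = u then _ else A i) = A i
          rw [if_neg hiu]
        rwa [c1] at h5
      · exact trans (hExt i hiS (by rw [turnEq]; exact h0) (Or.inl h))
    · by_cases h0 : L.turn i = 0
      · apply flat h0
        refine ⟨A (L.s i), Or.inr (Or.inl rfl), ?_⟩
        have h5 := hFace (L.s i) hjS h
        have c2 : Pg.hA u w A B (L.s i) = A (L.s i) := by
          show (if L.s i = u then _ else A (L.s i)) = A (L.s i)
          rw [if_neg ju]
        rwa [c2] at h5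
      · refine trans (hExt i hiS (by rw [turnEq]; exact h0) (Or.inr ?_))
        rw [hsi]; exact h
  · intro i hi hxi
    obtain ⟨α, β, h1, h2, h3, h4, h5⟩ := hxi
    have hiu : i ≠ u := by
      rintro rfl
      rw [hE.su] at h5
      exact xU α β h1 h2 h5
    have hik : i ≠ k := by
      rintro rfl
      rw [hE.sk] at h5
      exact xK α β h1 h2 h5
    have c1 : Pg.hA u w A B i = A i := by
      show (if i = u then _ else A i) = A i
      rw [if_neg hiu]
    rw [← c1]
    apply hFace i (HS i hi hik)
    have hsi := Hs i hi hiu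
    by_cases hit : i = t
    · subst hit
      rw [hE.st] at h5
      have h6 : δ * β < α := by
        by_contra h7
        exact xP α β h1 h2 (not_lt.1 h7) h5
      have h7 : a * β ≤ δ / 2 * β := mul_le_mul_of_nonneg_right haa.2 h2
      have h8 : -(δ / 2) * β ≤ a * β := mul_le_mul_of_nonneg_right haa.1 h2
      have h9 : 2 * ε * β ≤ δ * β := mul_le_mul_of_nonneg_right h2ε h2
      have h10 : ε' * β ≤ ε / 4 * β := mul_le_mul_of_nonneg_right hε'4 h2
      have h11 : 0 ≤ ε * β := by positivity
      refine ⟨α - a * β, β, by linarith, h2, by linarith, ?_, ?_⟩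
      · have h12 : α - a * β ≤ 3 / 2 * α := by linarith
        have h13 : ε' * (α - a * β) ≤ ε' * (3 / 2 * α) := mul_le_mul_of_nonneg_left h12 hε'.le
        have h14 : ε' * α ≤ ε / 4 * α := mul_le_mul_of_nonneg_right hε'4 h1
        have h15 : 0 ≤ ε * α := by positivity
        linarith
      · rw [hsi, hE.st, Hp i tu tw, Hpu, h5]
        module
    · by_cases hiw : i = w
      · subst hiw
        rw [hE.sw] at h5
        have h6 : δ * α < β := by
          by_contra h7
          exact xZ β α h2 h1 (not_lt.1 h7) (by rw [h5, add_comm])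
        have h7 : a' * α ≤ δ / 2 * α := mul_le_mul_of_nonneg_right haa'.2 h1
        have h8 : -(δ / 2) * α ≤ a' * α := mul_le_mul_of_nonneg_right haa'.1 h1
        have h9 : 2 * ε * α ≤ δ * α := mul_le_mul_of_nonneg_right h2ε h1
        have h10 : ε' * α ≤ ε / 4 * α := mul_le_mul_of_nonneg_right hε'4 h1
        have h11 : 0 ≤ ε * α := by positivity
        refine ⟨α, β - a' * α, h1, by linarith, ?_, by linarith, ?_⟩
        · have h12 : β - a' * α ≤ 3 / 2 * β := by linarith
          have h13 : ε' * (β - a' * α) ≤ ε' * (3 / 2 * β) := mul_le_mul_of_nonneg_left h12 hε'.le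
          have h14 : ε' * β ≤ ε / 4 * β := mul_le_mul_of_nonneg_right hε'4 h2
          have h15 : 0 ≤ ε * β := by positivity
          linarith
        · rw [hsi, hE.sw, Hpw, Hp z (Ne.symm uz) (Ne.symm wz), h5]
          module
      · obtain ⟨ju, jk, jw⟩ := sne i hi hit hiu hik
        have h10 : ε' * β ≤ ε * β := mul_le_mul_of_nonneg_right (by linarith) h2
        have h11 : ε' * α ≤ ε * α := mul_le_mul_of_nonneg_right (by linarith) h1
        refine ⟨α, β, h1, h2, by linarith, by linarith, ?_⟩
        rw [hsi, Hp i hiu hiw, Hp _ ju jw]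
        exact h5

end Pool.Agent.TSM
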