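import Pool.Agent.TSM.VStmts3

/-!
# TSM, ZEQU: the far equations on the zone at `u`
-/

set_option autoImplicit false

namespace Pool.Agent.TSM

open Set Filter Topology Metric

namespace ZEQU_

theorem uniq {p q r : E3} (h : det3 p q r ≠ 0) {a b a' b' : ℝ}
    (he : a • p + b • q = a' • p + b' • q) : a = a' ∧ b = b' := by
  constructor
  · have h1 : det3 (a • p + b • q) q r = a * det3 p q r := by
      simp only [det3, PiLp.add_apply, PiLp.smul_apply, smul_eq_mul]; ring
    have h2 : det3 (a' • p + b' • q) q r = a' * det3 p q r := by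
      simp only [det3, PiLp.add_apply, PiLp.smul_apply, smul_eq_mul]; ring
    rw [he, h2] at h1
    exact (mul_right_cancel₀ h h1).symm
  · have h1 : det3 p (a • p + b • q) r = b * det3 p q r := by
      simp only [det3, PiLp.add_apply, PiLp.smul_apply, smul_eq_mul]; ring
    have h2 : det3 p (a' • p + b' • q) r = b' * det3 p q r := by
      simp only [det3, PiLp.add_apply, PiLp.smul_apply, smul_eq_mul]; ring
    rw [he, h2] at h1
    exact (mul_right_cancel₀ h h1).symm

theorem uniq_left {p q r : E3} (h : det3 p q r ≠ 0) {a b α : ℝ}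
    (he : a • p + b • q = α • p) : a = α ∧ b = 0 := by
  have : a • p + b • q = α • p + (0 : ℝ) • q := by rw [he, zero_smul, add_zero]
  exact uniq h this

theorem uniq_right {p q r : E3} (h : det3 p q r ≠ 0) {a b α : ℝ}
    (he : a • p + b • q = α • q) : a = 0 ∧ b = α := by
  have : a • p + b • q = (0 : ℝ) • p + α • q := by rw [he, zero_smul, zero_add]
  exact uniq h this

section
variable {V : Type} [DecidableEq V] {L : Pg V} {t u k w z : V}

/-- the zone at `u` and the arm zones -/
theorem arms (hE : L.Ear t u k w z) {ε δ : ℝ} (h0 : 0 < ε) (h4 : ε ≤ 1 / 4)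
    (hδ2 : δ ≤ 1 / 2) {x : E3} (hx : x ∈ L.zU t u δ) (hx0 : x ≠ 0) {i : V} (hi : i ∈ L.S)
    (ha : x ∈ L.armZone ε i) :
    (i = t ∧ (x ∈ zP (L.p t) (L.p u) (2 * ε) ∨ x ∈ zP (L.p k) (L.p u) (2 * ε))) ∨
    (i = u ∧ x ∈ zP (L.p u) (L.p k) (2 * ε)) := by
  have hok := hE.ok
  have dtu : det3 (L.p t) (L.p u) (L.p k) ≠ 0 := hE.θu
  have duk : det3 (L.p u) (L.p k) (L.p t) ≠ 0 := by rw [← det3_cyc]; exact dtu
  have dkw : det3 (L.p k) (L.p w) (L.p z) ≠ 0 := hE.θw
  obtain ⟨a, b, ha0, hb0, hab, hform⟩ := ha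
  -- b > 0
  have hbpos : 0 < b := by
    rcases lt_or_eq_of_le hb0 with h | h
    · exact h
    · exfalso
      have : a = 0 := le_antisymm (by rw [← h] at hab; simpa using hab) ha0
      rcases hform with h' | h'
      · apply hx0; rw [h', this, ← h]; simp
      · apply hx0; rw [h', this, ← h]; simp
  rcases hform with hform | hform
  · -- first form: x in face i
    have hfi : x ∈ L.face i := ⟨a, b, ha0, hb0, hform⟩
    rcases hx with ⟨a0, c0, h1, h2, h3, h5⟩ | ⟨c0, d0, h1, h2, h5⟩
    · have hft : x ∈ L.face t := ⟨a0, c0, h1, h2, by rw [hE.st]; exact h5⟩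
      by_cases hit : i = t
      · subst hit
        left
        refine ⟨rfl, Or.inl ⟨a, b, ha0, hb0, hab, ?_⟩⟩
        rw [hE.st] at hform; exact hform
      · exfalso
        rcases hok.simple t hE.memt i hi (Ne.symm hit) x hft hfi with
          ⟨hiu, α, _, hα⟩ | ⟨_, α, _, hα⟩ | h
        · rw [hE.st] at hiu
          subst hiu
          rw [hE.su] at hform
          have := (uniq_left duk (hform.symm.trans hα)).2
          exact hbpos.ne' this
        · have := (uniq_left dtu (h5.symm.trans hα)).2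
          rw [this, mul_zero] at h3
          have ha0' : a0 = 0 := le_antisymm h3 h1
          apply hx0
          rw [h5, this, ha0']; simp
        · exact hx0 h
    · rw [hE.su] at h5
      have hfu : x ∈ L.face u := ⟨c0, d0, h1, h2, by rw [hE.su]; exact h5⟩
      by_cases hiu : i = u
      · subst hiu
        right
        rw [hE.su] at hform
        exact ⟨rfl, a, b, ha0, hb0, hab, hform⟩
      · rcases hok.simple u hE.memu i hi (Ne.symm hiu) x hfu hfi with
          ⟨hik, α, _, hα⟩ | ⟨hui, α, hα0, hα⟩ | h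
        · exfalso
          rw [hE.su] at hik
          subst hik
          rw [hE.sk] at hform
          exact hbpos.ne' (uniq_left dkw (hform.symm.trans hα)).2
        · left
          have hit : i = t := hok.inj i hi t hE.memt (hui.symm.trans hE.st.symm)
          refine ⟨hit, Or.inl ⟨0, α, le_rfl, hα0, by positivity, ?_⟩⟩
          rw [hα, zero_smul, zero_add]
        · exact absurd h hx0
  · -- second form: x in face (s i)
    have hsi : L.s i ∈ L.S := hok.maps i hi
    have hfi : x ∈ L.face (L.s i) := ⟨b, a, hb0, ha0, by rw [hform, add_comm]⟩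
    rcases hx with ⟨a0, c0, h1, h2, h3, h5⟩ | ⟨c0, d0, h1, h2, h5⟩
    · have hft : x ∈ L.face t := ⟨a0, c0, h1, h2, by rw [hE.st]; exact h5⟩
      by_cases hit : L.s i = t
      · exfalso
        rw [hit, hE.st] at hform
        have he : b • L.p t + a • L.p u = a0 • L.p t + c0 • L.p u := by
          rw [← h5, hform, add_comm]
        obtain ⟨e1, e2⟩ := uniq dtu he
        have hc0 : 0 < a0 := by rw [← e1]; exact hbpos
        have : c0 ≤ 2 * ε * a0 := by rw [← e1, ← e2]; exact hab
        have h6 : a0 ≤ δ * (2 * ε * a0) := by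
          have hc : 0 ≤ c0 := h2
          have hδ0 : 0 ≤ δ := by
            by_contra hneg
            have : δ * c0 ≤ 0 := mul_nonpos_of_nonpos_of_nonneg (not_le.1 hneg).le hc
            linarith
          exact h3.trans (mul_le_mul_of_nonneg_left this hδ0)
        have h7 : δ * (2 * ε * a0) ≤ 1 / 2 * (2 * ε * a0) :=
          mul_le_mul_of_nonneg_right hδ2 (by positivity)
        nlinarith
      · rcases hok.simple t hE.memt (L.s i) hsi (Ne.symm hit) x hft hfi with
          ⟨hiu, α, hα0, hα⟩ | ⟨_, α, _, hα⟩ | h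
        · left
          have hit' : i = t := hok.inj i hi t hE.memt hiu
          refine ⟨hit', Or.inl ⟨0, α, le_rfl, hα0, by positivity, ?_⟩⟩
          rw [hα, zero_smul, zero_add, hiu, hE.st]
        · exfalso
          have := (uniq_left dtu (h5.symm.trans hα)).2
          rw [this, mul_zero] at h3
          have ha0' : a0 = 0 := le_antisymm h3 h1
          apply hx0
          rw [h5, this, ha0']; simp
        · exact absurd h hx0
    · rw [hE.su] at h5
      have hfu : x ∈ L.face u := ⟨c0, d0, h1, h2, by rw [hE.su]; exact h5⟩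
      by_cases hiu : L.s i = u
      · left
        have hit : i = t := hok.inj i hi t hE.memt (hiu.trans hE.st.symm)
        rw [hiu, hE.su] at hform
        exact ⟨hit, Or.inr ⟨a, b, ha0, hb0, hab, hform⟩⟩
      · rcases hok.simple u hE.memu (L.s i) hsi (Ne.symm hiu) x hfu hfi with
          ⟨hik, α, hα0, hα⟩ | ⟨hui, α, _, hα⟩ | h
        · right
          have hiu' : i = u := hok.inj i hi u hE.memu hik
          refine ⟨hiu', 0, α, le_rfl, hα0, by positivity, ?_⟩
          rw [hα, zero_smul, zero_add, hik, hE.su]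
        · exfalso
          have hst : L.s i = t := hok.inj (L.s i) hsi t hE.memt (hui.symm.trans hE.st.symm)
          rw [hst, hE.st] at hform
          have he : b • L.p t + a • L.p u = α • L.p u := by
            rw [← hα, hform, add_comm]
          exact hbpos.ne' (uniq_right dtu he).1
        · exact absurd h hx0

/-- the zone at `u` and the face zones -/
theorem faces (hE : L.Ear t u k w z) {ε δ : ℝ} (h0 : 0 < ε)
    {x : E3} (hx : x ∈ L.zU t u δ) (hx0 : x ≠ 0) {i : V} (hi : i ∈ L.S)
    (ha : x ∈ L.faceZone ε i) :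
    (i = t ∧ ∃ a c : ℝ, 0 ≤ c ∧ ε * c ≤ a ∧ a ≤ δ * c ∧ x = a • L.p t + c • L.p u) ∨
    (i = u ∧ ∃ c d : ℝ, 0 ≤ c ∧ 0 ≤ d ∧ ε * c ≤ d ∧ ε * d ≤ c ∧
      x = c • L.p u + d • L.p k) := by
  have hok := hE.ok
  have dtu : det3 (L.p t) (L.p u) (L.p k) ≠ 0 := hE.θu
  have duk : det3 (L.p u) (L.p k) (L.p t) ≠ 0 := by rw [← det3_cyc]; exact dtu
  have dkw : det3 (L.p k) (L.p w) (L.p z) ≠ 0 := hE.θw
  obtain ⟨a, b, ha0, hb0, hab, hba, hform⟩ := ha
  have hbpos : 0 < b := by
    rcases lt_or_eq_of_le hb0 with h | h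
    · exact h
    · exfalso
      have h1 : ε * a ≤ 0 := by rw [h]; exact hba
      have : a = 0 := le_antisymm (by nlinarith) ha0
      apply hx0; rw [hform, this, ← h]; simp
  have hapos : 0 < a := lt_of_lt_of_le (mul_pos h0 hbpos) hab
  have hfi : x ∈ L.face i := ⟨a, b, ha0, hb0, hform⟩
  rcases hx with ⟨a0, c0, h1, h2, h3, h5⟩ | ⟨c0, d0, h1, h2, h5⟩
  · have hft : x ∈ L.face t := ⟨a0, c0, h1, h2, by rw [hE.st]; exact h5⟩
    by_cases hit : i = t
    · subst hit
      left
      rw [hE.st] at hform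
      obtain ⟨e1, e2⟩ := uniq dtu (hform.symm.trans h5)
      exact ⟨rfl, a, b, hb0, hab, by rw [e1, e2]; exact h3, hform⟩
    · exfalso
      rcases hok.simple t hE.memt i hi (Ne.symm hit) x hft hfi with
        ⟨hiu, α, _, hα⟩ | ⟨_, α, _, hα⟩ | h
      · rw [hE.st] at hiu
        subst hiu
        rw [hE.su] at hform
        exact hbpos.ne' (uniq_left duk (hform.symm.trans hα)).2
      · have := (uniq_left dtu (h5.symm.trans hα)).2
        rw [this, mul_zero] at h3
        have ha0' : a0 = 0 := le_antisymm h3 h1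
        apply hx0
        rw [h5, this, ha0']; simp
      · exact hx0 h
  · rw [hE.su] at h5
    have hfu : x ∈ L.face u := ⟨c0, d0, h1, h2, by rw [hE.su]; exact h5⟩
    by_cases hiu : i = u
    · subst hiu
      right
      rw [hE.su] at hform
      exact ⟨rfl, a, b, ha0, hb0, hba, hab, hform⟩
    · exfalso
      rcases hok.simple u hE.memu i hi (Ne.symm hiu) x hfu hfi with
        ⟨hik, α, _, hα⟩ | ⟨hui, α, hα0, hα⟩ | h
      · rw [hE.su] at hik
        subst hik
        rw [hE.sk] at hform
        exact hbpos.ne' (uniq_left dkw (hform.symm.trans hα)).2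
      · have hit : i = t := hok.inj i hi t hE.memt (hui.symm.trans hE.st.symm)
        subst hit
        rw [hE.st] at hform
        exact hapos.ne' (uniq_right dtu (hform.symm.trans hα)).1
      · exact hx0 h

end

end ZEQU_

open ZEQU_ in
theorem zequ_proof : Stmt_Zequ := by
  intro V _ L t u k w z x₀ y₀ ε δ a a' κ₁ R₁ R₂ R₃ M hE h0 h4 h2 hδ2 Ch N A B hT x hx hx0
    hR1 hR3
  set E := L.endU t u k w z x₀ y₀ a a' (Ch u) N with hEdef
  set Z := zf (A t) (B s(u, w)) B with hZ
  set T := E.tN Z (A k) (A u) x with hTdef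
  have he : E.e = L.ee u k w x₀ y₀ := rfl
  have hnd := hE.nodup
  have huk : u ≠ k := by
    intro h; subst h; simp at hnd
  have huw : u ≠ w := by
    intro h; subst h; simp at hnd
  -- positivity
  have pP : 0 < (inner ℝ (A t).1 (L.ee u k w x₀ y₀) : ℝ) := hT.pos.1 none (by
    simp [hEdef, Pg.endU, mkE])
  have pQ : 0 < (inner ℝ (B s(u, w)).1 (L.ee u k w x₀ y₀) : ℝ) := hT.pos.1 (some none) (by
    simp [hEdef, Pg.endU, mkE])
  have pN : ∀ n ∈ Ch u, 0 < (inner ℝ (B n).1 (L.ee u k w x₀ y₀) : ℝ) := fun n hn =>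
    hT.pos.1 (some (some n)) (by simp [hEdef, Pg.endU, mkE, hn])
  have pA : 0 < (inner ℝ (A k).1 (L.ee u k w x₀ y₀) : ℝ) := hT.pos.2.1
  have pB : 0 < (inner ℝ (A u).1 (L.ee u k w x₀ y₀) : ℝ) := hT.pos.2.2
  have mP : (none : Option (Option (Sym2 V))) ∈ E.J := by simp [hEdef, Pg.endU, mkE]
  have mQ : (some none : Option (Option (Sym2 V))) ∈ E.J := by simp [hEdef, Pg.endU, mkE]
  have mN : ∀ n ∈ Ch u, (some (some n) : Option (Option (Sym2 V))) ∈ E.J := fun n hn => by
    simp [hEdef, Pg.endU, mkE, hn]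
  have hτ : E.τ = det3 (L.p t) (L.p u) (L.p w) := by simp [hEdef, Pg.endU, mkE]
  have hθ : E.θ = det3 (L.p t) (L.p u) (L.p k) := by simp [hEdef, Pg.endU, mkE]
  have hturn : L.turn t = det3 (L.p t) (L.p u) (L.p k) := by
    unfold Pg.turn; rw [hE.st, hE.su]
  have hturnu : L.turn u = det3 (L.p u) (L.p k) (L.p w) := by
    unfold Pg.turn; rw [hE.su, hE.sk]
  have chk : L.chN t u k w z Ch k = ∅ := by unfold Pg.chN; rw [if_pos rfl]
  have evn : ∀ (P : Aff), 0 < (inner ℝ P.1 (L.ee u k w x₀ y₀) : ℝ) →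
      T ≤ tz (L.ee u k w x₀ y₀) P x → ev P (x + T • L.ee u k w x₀ y₀) ≤ 0 := by
    intro P hP hle
    rw [ev_line hP.ne']
    exact mul_nonpos_of_nonneg_of_nonpos hP.le (by linarith)
  have evp : ∀ (P : Aff), 0 < (inner ℝ P.1 (L.ee u k w x₀ y₀) : ℝ) →
      tz (L.ee u k w x₀ y₀) P x ≤ T → 0 ≤ ev P (x + T • L.ee u k w x₀ y₀) := by
    intro P hP hle
    rw [ev_line hP.ne']
    exact mul_nonneg hP.le (by linarith)
  have ev0 : ∀ (P : Aff), 0 < (inner ℝ P.1 (L.ee u k w x₀ y₀) : ℝ) →
      T = tz (L.ee u k w x₀ y₀) P x → ev P (x + T • L.ee u k w x₀ y₀) = 0 := by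
    intro P hP hle
    rw [ev_line hP.ne', hle, sub_self, mul_zero]
  refine ⟨fun i hi ha => ?_, fun i hi ha => ?_⟩
  · rcases arms hE h0 h4 hδ2 hx hx0 hi ha with ⟨hit, hz⟩ | ⟨hiu, hz⟩
    · subst hit
      have hzone : x ∈ E.Old (2 * ε) ∪ E.New (2 * ε) := by
        rcases hz with ⟨a, c, h1, h2, h3, h5⟩ | ⟨a, c, h1, h2, h3, h5⟩
        · exact Or.inl ⟨a, c, h1, h2, h3, h5⟩
        · refine Or.inr ⟨c, a, h2, h1, h3, ?_⟩
          rw [h5, add_comm]; rfl
      rcases lt_or_ge (det3 (L.p i) (L.p u) (L.p w)) 0 with hneg | hpos'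
      · -- type I
        have hθneg := hE.cu hneg
        have harm := hT.arm1 (by rw [hτ]; exact hneg) x hzone hR3
        have hsgn : Real.sign (L.turn i) = -1 := by rw [hturn]; exact Real.sign_of_neg hθneg
        have hch : L.chN i u k w z Ch u = insert s(u, w) (Ch u) := by
          unfold Pg.chN; rw [if_neg huk, if_pos rfl, if_pos hneg]
        have hT1 : T ≤ E.mn Z E.J x := harm.le.trans (min_le_left _ _)
        have hT2 : T ≤ tz (L.ee u k w x₀ y₀) (A u) x := harm.le.trans (min_le_right _ _)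
        have tP : T ≤ tz (L.ee u k w x₀ y₀) (A i) x := hT1.trans (E.mn_le_tz Z E.J x none mP)
        have tQ : T ≤ tz (L.ee u k w x₀ y₀) (B s(u, w)) x :=
          hT1.trans (E.mn_le_tz Z E.J x (some none) mQ)
        have tN : ∀ n ∈ Ch u, T ≤ tz (L.ee u k w x₀ y₀) (B n) x := fun n hn =>
          hT1.trans (E.mn_le_tz Z E.J x (some (some n)) (mN n hn))
        refine ⟨?_, ?_⟩
        · intro P hP
          rw [hsgn, neg_one_mul, neg_nonneg]
          rcases hP with h | h | ⟨n, hn, h⟩
          · rw [h]; exact evn _ pP tP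
          · rw [h, hE.st]; exact evn _ pB hT2
          · rw [hE.st, hch] at hn
            rw [h]
            rcases Finset.mem_insert.1 hn with hn | hn
            · rw [hn]; exact evn _ pQ tQ
            · exact evn _ (pN n hn) (tN n hn)
        · rcases min_choice (E.mn Z E.J x) (tz E.e (A u) x) with hm | hm
          · have hmT : T = E.mn Z E.J x := harm.trans hm
            have mQ' : E.iQ ∈ E.J := mQ
            obtain ⟨j, hj, hjx⟩ := E.exists_mn Z E.J x mQ'
            have hjT : T = tz (L.ee u k w x₀ y₀) (Z j) x := hmT.trans hjx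
            rcases j with _ | _ | n
            · exact ⟨A i, Or.inl rfl, ev0 _ pP hjT⟩
            · refine ⟨B s(u, w), Or.inr (Or.inr ⟨s(u, w), ?_, rfl⟩), ev0 _ pQ hjT⟩
              rw [hE.st, hch]; exact Finset.mem_insert_self _ _
            · have hn : n ∈ Ch u := by
                simpa [hEdef, Pg.endU, mkE] using hj
              refine ⟨B n, Or.inr (Or.inr ⟨n, ?_, rfl⟩), ev0 _ (pN n hn) hjT⟩
              rw [hE.st, hch]; exact Finset.mem_insert_of_mem hn
          · refine ⟨A u, Or.inr (Or.inl (by rw [hE.st])), ev0 _ pB ?_⟩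
            exact harm.trans hm
      · have hpos : 0 < det3 (L.p i) (L.p u) (L.p w) := lt_of_le_of_ne hpos' (Ne.symm hE.τu)
        have hch : L.chN i u k w z Ch u = ∅ := by
          unfold Pg.chN; rw [if_neg huk, if_pos rfl, if_neg (not_lt.2 hpos')]
        rcases lt_or_gt_of_ne hE.θu with hθn | hθp
        · -- type II
          have harm := hT.arm2 (by rw [hτ]; exact hpos) (by rw [hθ]; exact hθn) x hzone hR3
          have hsgn : Real.sign (L.turn i) = -1 := by rw [hturn]; exact Real.sign_of_neg hθn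
          have tP : T ≤ tz (L.ee u k w x₀ y₀) (A i) x := harm.le.trans (min_le_left _ _)
          have tB : T ≤ tz (L.ee u k w x₀ y₀) (A u) x := harm.le.trans (min_le_right _ _)
          refine ⟨?_, ?_⟩
          · intro P hP
            rw [hsgn, neg_one_mul, neg_nonneg]
            rcases hP with h | h | ⟨n, hn, h⟩
            · rw [h]; exact evn _ pP tP
            · rw [h, hE.st]; exact evn _ pB tB
            · rw [hE.st, hch] at hn
              exact absurd hn (Finset.notMem_empty _)
          · rcases min_choice (tz E.e (Z E.iP) x) (tz E.e (A u) x) with hm | hm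
            · exact ⟨A i, Or.inl rfl, ev0 _ pP (harm.trans hm)⟩
            · exact ⟨A u, Or.inr (Or.inl (by rw [hE.st])), ev0 _ pB (harm.trans hm)⟩
        · -- type III
          have harm := hT.arm3 (by rw [hθ]; exact hθp) x hzone hR3
          have hsgn : Real.sign (L.turn i) = 1 := by rw [hturn]; exact Real.sign_of_pos hθp
          have tP : tz (L.ee u k w x₀ y₀) (A i) x ≤ T := (le_max_left _ _).trans harm.ge
          have tB : tz (L.ee u k w x₀ y₀) (A u) x ≤ T := (le_max_right _ _).trans harm.ge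
          refine ⟨?_, ?_⟩
          · intro P hP
            rw [hsgn, one_mul]
            rcases hP with h | h | ⟨n, hn, h⟩
            · rw [h]; exact evp _ pP tP
            · rw [h, hE.st]; exact evp _ pB tB
            · rw [hE.st, hch] at hn
              exact absurd hn (Finset.notMem_empty _)
          · rcases max_choice (tz E.e (Z E.iP) x) (tz E.e (A u) x) with hm | hm
            · exact ⟨A i, Or.inl rfl, ev0 _ pP (harm.trans hm)⟩
            · exact ⟨A u, Or.inr (Or.inl (by rw [hE.st])), ev0 _ pB (harm.trans hm)⟩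
    · -- the arm k
      subst hiu
      obtain ⟨c, d, h1, h2', h3, h5⟩ := hz
      have hcd : ε * c ≤ d := by nlinarith [mul_nonneg h0.le h2', mul_nonneg h0.le h1]
      have hear := (hT.ear c d h1 h2' hcd x h5 hR3).1
      have hab : T = max (tz (L.ee i k w x₀ y₀) (A k) x) (tz (L.ee i k w x₀ y₀) (A i) x) := hear
      have hsgn : Real.sign (L.turn i) = 1 := by
        rw [hturnu]; exact Real.sign_of_pos hE.pos
      refine ⟨?_, ?_⟩
      · intro P hP
        rw [hsgn, one_mul]
        rcases hP with h | h | ⟨n, hn, h⟩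
        · rw [h]; exact evp _ pB (by rw [hab]; exact le_max_right _ _)
        · rw [h, hE.su]; exact evp _ pA (by rw [hab]; exact le_max_left _ _)
        · rw [hE.su, chk] at hn
          exact absurd hn (Finset.notMem_empty _)
      · rcases max_choice (tz (L.ee i k w x₀ y₀) (A k) x) (tz (L.ee i k w x₀ y₀) (A i) x) with
          hm | hm
        · exact ⟨A k, Or.inr (Or.inl (by rw [hE.su])), ev0 _ pA (hab.trans hm)⟩
        · exact ⟨A i, Or.inl rfl, ev0 _ pB (hab.trans hm)⟩
  · rcases faces hE h0 hx hx0 hi ha with ⟨hit, a1, c, h1, h2', h3, h5⟩ |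
      ⟨hiu, c, d, h1, h2', h3, h5, h6⟩
    · subst hit
      exact ev0 _ pP (hT.outer a1 c h1 h2' h3 x h5 hR1).1
    · subst hiu
      exact ev0 _ pB ((hT.ear c d h1 h2' h3 x h6 hR3).2 h5)

end Pool.Agent.TSM
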