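import Pool.Agent.TSM.VStmts3

/-!
# TSM, Part VM: module ZEQW, the far equations on the zone at `w`
-/

set_option autoImplicit false

namespace Pool.Agent.TSM

open Set Filter Topology Metric

namespace ZEQW_

variable {V : Type} [DecidableEq V] {L : Pg V}

theorem det3_comb' (a b c d : E3) (x y : ℝ) :
    det3 (x • a + y • b) c d = x * det3 a c d + y * det3 b c d := by
  simp [det3]; ring

theorem det3_left (a b : E3) : det3 a b a = 0 := by simp [det3]; ring

theorem det3_same (a b : E3) : det3 a a b = 0 := by simp [det3]; ring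

theorem card_le_of_closed (h : L.Ok) {i : V} (hi : i ∈ L.S) (T : Finset V) (hiT : i ∈ T)
    (hT : ∀ j ∈ T, L.s j ∈ T) : L.S.card ≤ T.card := by
  apply Finset.card_le_card
  intro j hj
  obtain ⟨m, hm⟩ := h.trans i hi j hj
  rw [← hm]
  clear hm
  induction m with
  | zero => exact hiT
  | succ n ih => rw [Function.iterate_succ_apply']; exact hT _ ih

theorem s_ne (h : L.Ok) {i : V} (hi : i ∈ L.S) : L.s i ≠ i := by
  intro e
  have := card_le_of_closed h hi {i} (by simp) (by
    intro j hj; rw [Finset.mem_singleton] at hj; rw [hj, e]; simp)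
  have h4 := h.card
  simp at this; omega

theorem exists_det (h : L.Ok) {i j : V} (hi : i ∈ L.S) (hj : j ∈ L.S) (hij : i ≠ j) :
    ∃ k ∈ L.S, det3 (L.p i) (L.p j) (L.p k) ≠ 0 := by
  by_contra hcon
  push Not at hcon
  have h4 := h.card
  have c1 : 2 ≤ ((L.S.erase i).erase j).card := by
    have e1 := Finset.card_erase_of_mem hi
    have e2 := Finset.card_erase_of_mem (Finset.mem_erase.2 ⟨hij.symm, hj⟩)
    omega
  obtain ⟨k, hk, k', hk', hkk⟩ := Finset.one_lt_card.1 (by omega : 1 < ((L.S.erase i).erase j).card)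
  simp only [Finset.mem_erase] at hk hk'
  have f1 : L.Flat i j k := by
    by_contra hf
    exact h.gen i hi j hj k hk.2.2 hij hk.2.1.symm hk.1.symm hf (hcon k hk.2.2)
  have f2 : L.Flat i j k' := by
    by_contra hf
    exact h.gen i hi j hj k' hk'.2.2 hij hk'.2.1.symm hk'.1.symm hf (hcon k' hk'.2.2)
  obtain ⟨m, q, x1, q1, s1, t1⟩ := f1
  obtain ⟨m', q', x2, q2, s2, t2⟩ := f2
  have hm : m = m' := by
    have := x1.symm.trans x2
    exact Option.some.inj this
  subst hm
  have hq : q = q' := h.inj q q1 q' q2 (s1.trans s2.symm)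
  subst hq
  have hset : ({i, j, k} : Finset V) = {i, j, k'} := t1.trans t2.symm
  have : k ∈ ({i, j, k'} : Finset V) := by rw [← hset]; simp
  simp only [Finset.mem_insert, Finset.mem_singleton] at this
  rcases this with e | e | e
  · exact hk.2.1 e
  · exact hk.1 e
  · exact hkk e

theorem coord (h : L.Ok) {i : V} (hi : i ∈ L.S) {a b a' b' : ℝ}
    (e : a • L.p i + b • L.p (L.s i) = a' • L.p i + b' • L.p (L.s i)) : a = a' ∧ b = b' := by
  obtain ⟨k, hk, hd⟩ := exists_det h hi (h.maps i hi) (s_ne h hi).symm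
  constructor
  · have e1 := det3_comb' (L.p i) (L.p (L.s i)) (L.p (L.s i)) (L.p k) a b
    have e2 := det3_comb' (L.p i) (L.p (L.s i)) (L.p (L.s i)) (L.p k) a' b'
    rw [e, e2, det3_same, mul_zero, mul_zero, add_zero, add_zero] at e1
    exact (mul_right_cancel₀ hd e1).symm
  · have e1 := det3_comb' (L.p i) (L.p (L.s i)) (L.p k) (L.p i) a b
    have e2 := det3_comb' (L.p i) (L.p (L.s i)) (L.p k) (L.p i) a' b'
    have e3 : det3 (L.p (L.s i)) (L.p k) (L.p i) = det3 (L.p i) (L.p (L.s i)) (L.p k) :=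
      (det3_cyc _ _ _).symm
    rw [e, e2, det3_left, mul_zero, mul_zero, zero_add, zero_add, e3] at e1
    exact (mul_right_cancel₀ hd e1).symm

/-- common points of two faces, in coordinates -/
theorem two (h : L.Ok) {i g : V} (hi : i ∈ L.S) (hg : g ∈ L.S) (hig : i ≠ g) {x : E3}
    (hx : x ≠ 0) {a b a' b' : ℝ} (ha : 0 ≤ a) (hb : 0 ≤ b) (ha' : 0 ≤ a') (hb' : 0 ≤ b')
    (e1 : x = a • L.p i + b • L.p (L.s i)) (e2 : x = a' • L.p g + b' • L.p (L.s g)) :
    (g = L.s i ∧ a = 0 ∧ b' = 0 ∧ a' = b) ∨ (i = L.s g ∧ b = 0 ∧ a' = 0 ∧ b' = a) := by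
  rcases h.simple i hi g hg hig x ⟨a, b, ha, hb, e1⟩ ⟨a', b', ha', hb', e2⟩ with
    ⟨h1, c, -, h3⟩ | ⟨h1, c, -, h3⟩ | h1
  · left
    have k1 := coord h hi (a := a) (b := b) (a' := 0) (b' := c) (by
      rw [← e1, zero_smul, zero_add, ← h1]; exact h3)
    have k2 := coord h hg (a := a') (b := b') (a' := c) (b' := 0) (by
      rw [← e2, zero_smul, add_zero]; exact h3)
    exact ⟨h1, k1.1, k2.2, by rw [k2.1, k1.2]⟩
  · right
    have k1 := coord h hi (a := a) (b := b) (a' := c) (b' := 0) (by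
      rw [← e1, zero_smul, add_zero]; exact h3)
    have k2 := coord h hg (a := a') (b := b') (a' := 0) (b' := c) (by
      rw [← e2, zero_smul, zero_add, ← h1]; exact h3)
    exact ⟨h1, k1.2, k2.1, by rw [k2.2, k1.1]⟩
  · exact absurd h1 hx

/-- coordinates of a point of the zone -/
theorem zone {t u k w z : V} (h : L.Ear t u k w z) {δ : ℝ} {x : E3} (hx : x ∈ L.zW k w z δ) :
    (∃ a b : ℝ, 0 ≤ a ∧ 0 ≤ b ∧ x = a • L.p k + b • L.p (L.s k)) ∨
    ∃ a c : ℝ, 0 ≤ a ∧ 0 ≤ c ∧ a ≤ δ * c ∧ x = c • L.p w + a • L.p (L.s w) := by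
  rcases hx with ⟨a, b, ha, hb, e⟩ | ⟨a, c, ha, hc, hac, e⟩
  · exact Or.inl ⟨a, b, ha, hb, e⟩
  · refine Or.inr ⟨a, c, ha, hc, hac, ?_⟩
    rw [h.sw, e, add_comm]

theorem arm_excl {t u k w z : V} (h : L.Ear t u k w z) {ε δ : ℝ} (hε4 : ε ≤ 1 / 4)
    (hδ2 : δ ≤ 1 / 2) {x : E3} (hx0 : x ≠ 0) (hx : x ∈ L.zW k w z δ)
    {i : V} (hi : i ∈ L.S) (hxi : x ∈ L.armZone ε i) :
    (i = k ∧ ∃ a b : ℝ, 0 ≤ a ∧ 0 ≤ b ∧ a ≤ 2 * ε * b ∧
      (x = a • L.p k + b • L.p w ∨ x = a • L.p z + b • L.p w)) ∨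
    (i = u ∧ ∃ a b : ℝ, 0 ≤ a ∧ 0 ≤ b ∧ a ≤ 2 * ε * b ∧ x = a • L.p w + b • L.p k) := by
  obtain ⟨a, b, ha, hb, hab, hx'⟩ := hxi
  have hnd := h.nodup
  simp only [List.nodup_cons, List.mem_cons, List.not_mem_nil, not_or, or_false, not_false_eq_true,
    List.nodup_nil, and_true] at hnd
  obtain ⟨⟨htu, htk, htw, htz⟩, ⟨huk, huw, huz⟩, ⟨hkw, hkz⟩, hwz⟩ := hnd
  have hb0 : b ≠ 0 := by
    rintro rfl
    have ha0 : a = 0 := by linarith
    rw [ha0] at hx'
    rcases hx' with hx' | hx' <;> exact hx0 (by rw [hx']; simp)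
  have hbp : 0 < b := lt_of_le_of_ne hb (Ne.symm hb0)
  by_cases hik : i = k
  · subst hik
    rw [h.sk, h.sw] at hx'
    exact Or.inl ⟨rfl, a, b, ha, hb, hab, hx'⟩
  by_cases hiu : i = u
  · subst hiu
    rw [h.su, h.sk] at hx'
    rcases hx' with hx' | hx'
    · rcases zone h hx with ⟨a1, b1, ha1, hb1, e1⟩ | ⟨a1, c1, ha1, hc1, hac, e1⟩
      · have e2 : x = a • L.p i + b • L.p (L.s i) := by rw [h.su]; exact hx'
        rcases two h.ok h.memu h.memk huk hx0 ha hb ha1 hb1 e2 e1 with h1 | h1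
        · refine Or.inr ⟨rfl, a, b, ha, hb, hab, ?_⟩
          rw [hx', h1.2.1, zero_smul, zero_smul]
        · exact absurd (h1.1.trans h.sk) huw
      · have e2 : x = a • L.p i + b • L.p (L.s i) := by rw [h.su]; exact hx'
        rcases two h.ok h.memu h.memw huw hx0 ha hb hc1 ha1 e2 e1 with h1 | h1
        · exact absurd (h1.1.trans h.su).symm hkw
        · exact absurd (h1.1.trans h.sw) huz
    · exact Or.inr ⟨rfl, a, b, ha, hb, hab, hx'⟩
  exfalso
  have hjw : L.s i ≠ w := fun h1 => hik (h.ok.inj i hi k h.memk (h1.trans h.sk.symm))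
  have hjk : L.s i ≠ k := fun h1 => hiu (h.ok.inj i hi u h.memu (h1.trans h.su.symm))
  have hsi := h.ok.maps i hi
  rcases hx' with hx' | hx'
  · rcases zone h hx with ⟨a1, b1, ha1, hb1, e1⟩ | ⟨a1, c1, ha1, hc1, hac, e1⟩
    · rcases two h.ok hi h.memk hik hx0 ha hb ha1 hb1 hx' e1 with h1 | h1
      · exact hjk h1.1.symm
      · exact hb0 h1.2.1
    · by_cases hiw : i = w
      · subst hiw
        have k1 := coord h.ok hi (hx'.symm.trans e1)
        rw [k1.1, k1.2] at hab
        have : 0 < a1 := by rw [← k1.2]; exact hbp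
        nlinarith
      · rcases two h.ok hi h.memw hiw hx0 ha hb hc1 ha1 hx' e1 with h1 | h1
        · exact hjw h1.1.symm
        · exact hb0 h1.2.1
  · rw [add_comm] at hx'
    rcases zone h hx with ⟨a1, b1, ha1, hb1, e1⟩ | ⟨a1, c1, ha1, hc1, hac, e1⟩
    · rcases two h.ok hsi h.memk hjk hx0 hb ha ha1 hb1 hx' e1 with h1 | h1
      · exact hb0 h1.2.1
      · exact hik (h.ok.inj i hi k h.memk h1.1)
    · rcases two h.ok hsi h.memw hjw hx0 hb ha hc1 ha1 hx' e1 with h1 | h1
      · exact hb0 h1.2.1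
      · have : c1 = 0 := h1.2.2.1
        rw [this, mul_zero] at hac
        have h2 : a1 = b := h1.2.2.2
        linarith

theorem face_excl {t u k w z : V} (h : L.Ear t u k w z) {ε δ : ℝ} (hε : 0 < ε)
    {x : E3} (hx0 : x ≠ 0) (hx : x ∈ L.zW k w z δ)
    {i : V} (hi : i ∈ L.S) (hxi : x ∈ L.faceZone ε i) :
    (i = k ∧ ∃ a b : ℝ, 0 ≤ a ∧ 0 ≤ b ∧ ε * b ≤ a ∧ ε * a ≤ b ∧
      x = b • L.p w + a • L.p k) ∨
    (i = w ∧ ∃ a b : ℝ, 0 ≤ a ∧ 0 ≤ b ∧ ε * b ≤ a ∧ ε * a ≤ b ∧ a ≤ δ * b ∧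
      x = a • L.p z + b • L.p w) := by
  obtain ⟨a, b, ha, hb, hba, hab, hx'⟩ := hxi
  have ha0 : a ≠ 0 := by
    rintro rfl
    have hb0 : b = 0 := by nlinarith
    exact hx0 (by rw [hx', hb0]; simp)
  have hb0 : b ≠ 0 := by
    rintro rfl
    have ha0 : a = 0 := by nlinarith
    exact hx0 (by rw [hx', ha0]; simp)
  rcases zone h hx with ⟨a1, b1, ha1, hb1, e1⟩ | ⟨a1, c1, ha1, hc1, hac, e1⟩
  · by_cases hik : i = k
    · subst hik
      refine Or.inl ⟨rfl, a, b, ha, hb, hba, hab, ?_⟩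
      rw [hx', h.sk, add_comm]
    · exfalso
      rcases two h.ok hi h.memk hik hx0 ha hb ha1 hb1 hx' e1 with h1 | h1
      · exact ha0 h1.2.1
      · exact hb0 h1.2.1
  · by_cases hiw : i = w
    · subst hiw
      have k1 := coord h.ok hi (hx'.symm.trans e1)
      refine Or.inr ⟨rfl, b, a, hb, ha, hab, hba, ?_, ?_⟩
      · rw [k1.1, k1.2]; exact hac
      · rw [hx', h.sw, add_comm]
    · exfalso
      rcases two h.ok hi h.memw hiw hx0 ha hb hc1 ha1 hx' e1 with h1 | h1
      · exact ha0 h1.2.1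
      · exact hb0 h1.2.1

theorem ev_lo {Y : Aff} {e x : E3} {t : ℝ} (h : 0 < (inner ℝ Y.1 e : ℝ)) (ht : t ≤ tz e Y x) :
    0 ≤ (-1 : ℝ) * ev Y (x + t • e) := by
  rw [ev_line h.ne']
  have : 0 ≤ (inner ℝ Y.1 e : ℝ) * (tz e Y x - t) := mul_nonneg h.le (by linarith)
  linarith

theorem ev_hi {Y : Aff} {e x : E3} {t : ℝ} (h : 0 < (inner ℝ Y.1 e : ℝ)) (ht : tz e Y x ≤ t) :
    0 ≤ (1 : ℝ) * ev Y (x + t • e) := by
  rw [ev_line h.ne']
  have : 0 ≤ (inner ℝ Y.1 e : ℝ) * (t - tz e Y x) := mul_nonneg h.le (by linarith)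
  linarith

theorem ev_ze {Y : Aff} {e x : E3} {t : ℝ} (h : 0 < (inner ℝ Y.1 e : ℝ)) (ht : t = tz e Y x) :
    ev Y (x + t • e) = 0 := by
  rw [ev_line h.ne', ht, sub_self, mul_zero]

end ZEQW_

open ZEQW_

theorem zeqw_proof : Stmt_Zeqw := by
  intro V _ L t u k w z x₀ y₀ ε δ a a' κ₁ R₁ R₂ R₃ M h hε hε4 hδ hδ2 Ch N A B hT x hx hx0 hR1 hR3
  have hnd := h.nodup
  simp only [List.nodup_cons, List.mem_cons, List.not_mem_nil, not_or, or_false, not_false_eq_true,
    List.nodup_nil, and_true] at hnd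
  obtain ⟨⟨htu, htk, htw, htz⟩, ⟨huk, huw, huz⟩, ⟨hkw, hkz⟩, hwz⟩ := hnd
  set E := L.endW t u k w z x₀ y₀ a a' (Ch w) N with hE
  set Z := zf (A w) (B s(u, w)) B with hZ
  have epu : E.pu = L.p w := rfl
  have ept : E.pt = L.p z := rfl
  have epk : E.pk = L.p k := rfl
  have eee : L.ee u k w x₀ y₀ = E.e := rfl
  have eθ : E.θ = det3 (L.p k) (L.p w) (L.p z) := by
    change (-1 : ℝ) * det3 (L.p z) (L.p w) (L.p k) = _
    simp only [det3]
    ring
  have eτ : E.τ = det3 (L.p u) (L.p w) (L.p z) := by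
    change (-1 : ℝ) * det3 (L.p z) (L.p w) (L.p u) = _
    simp only [det3]
    ring
  have hJ : E.J = insert none (insert (some none) ((Ch w).image fun n => some (some n))) := rfl
  have z1 : Z none = A w := rfl
  have z2 : Z (some none) = B s(u, w) := rfl
  have z3 : ∀ n, Z (some (some n)) = B n := fun n => rfl
  have j1 : (none : Option (Option (Sym2 V))) ∈ E.J := by rw [hJ]; simp
  have j2 : (some none : Option (Option (Sym2 V))) ∈ E.J := by rw [hJ]; simp
  have j3 : ∀ n ∈ Ch w, (some (some n) : Option (Option (Sym2 V))) ∈ E.J := by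
    intro n hn
    rw [hJ]
    simp [hn]
  obtain ⟨hposZ, hposA, hposB⟩ := hT.pos
  have pAw : 0 < (inner ℝ (A w).1 E.e : ℝ) := hposZ _ j1
  have hchk : L.chN t u k w z Ch k = ∅ := by simp [Pg.chN]
  have hchw : L.chN t u k w z Ch w =
      if det3 (L.p u) (L.p w) (L.p z) < 0 then insert s(u, w) (Ch w) else ∅ := by
    simp [Pg.chN, Ne.symm hkw, Ne.symm huw]
  have hturnk : L.turn k = det3 (L.p k) (L.p w) (L.p z) := by
    unfold Pg.turn
    rw [h.sk, h.sw]
  have hturnu : L.turn u = det3 (L.p u) (L.p k) (L.p w) := by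
    unfold Pg.turn
    rw [h.su, h.sk]
  rw [eee]
  constructor
  · intro i hi hxi
    rcases arm_excl h hε4 hδ2 hx0 hx hi hxi with ⟨rfl, a1, b1, ha1, hb1, hab, hx'⟩ |
      ⟨rfl, a1, b1, ha1, hb1, hab, hx'⟩
    · -- the arm w
      have hmem : x ∈ E.Old (2 * ε) ∪ E.New (2 * ε) := by
        rcases hx' with hx' | hx'
        · refine Or.inr ⟨b1, a1, hb1, ha1, hab, ?_⟩
          rw [hx', epu, epk, add_comm]
        · exact Or.inl ⟨a1, b1, ha1, hb1, hab, hx'⟩
      rcases lt_trichotomy (det3 (L.p u) (L.p w) (L.p z)) 0 with hτ | hτ | hτ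
      · -- type I
        have hθ := h.cw hτ
        have htN := hT.arm1 (by rw [eτ]; exact hτ) x hmem hR3
        rw [if_pos hτ] at hchw
        refine ⟨?_, ?_⟩
        · intro Y hY
          rw [hturnk, Real.sign_of_neg hθ]
          rcases hY with rfl | rfl | ⟨n, hn, rfl⟩
          · exact ev_lo hposB (by rw [htN]; exact min_le_right _ _)
          · rw [h.sk]
            exact ev_lo pAw (by rw [htN]; exact (min_le_left _ _).trans (E.mn_le_tz Z _ x _ j1))
          · rw [h.sk, hchw, Finset.mem_insert] at hn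
            rcases hn with rfl | hn
            · exact ev_lo (hposZ _ j2)
                (by rw [htN]; exact (min_le_left _ _).trans (E.mn_le_tz Z _ x _ j2))
            · exact ev_lo (hposZ _ (j3 n hn))
                (by rw [htN]; exact (min_le_left _ _).trans (E.mn_le_tz Z _ x _ (j3 n hn)))
        · rcases min_choice (E.mn Z E.J x) (tz E.e (A i) x) with hm | hm
          · obtain ⟨l, hl, hl'⟩ := E.exists_mn Z E.J x j2
            rw [hm, hl'] at htN
            rw [hJ, Finset.mem_insert, Finset.mem_insert, Finset.mem_image] at hl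
            rcases hl with rfl | rfl | ⟨n, hn, rfl⟩
            · exact ⟨A w, Or.inr (Or.inl (by rw [h.sk])), ev_ze pAw htN⟩
            · refine ⟨B s(u, w), Or.inr (Or.inr ⟨s(u, w), ?_, rfl⟩), ev_ze (hposZ _ j2) htN⟩
              rw [h.sk, hchw]
              exact Finset.mem_insert_self _ _
            · refine ⟨B n, Or.inr (Or.inr ⟨n, ?_, rfl⟩), ev_ze (hposZ _ (j3 n hn)) htN⟩
              rw [h.sk, hchw]
              exact Finset.mem_insert_of_mem hn
          · rw [hm] at htN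
            exact ⟨A i, Or.inl rfl, ev_ze hposB htN⟩
      · exact absurd hτ h.τw
      · rw [if_neg (not_lt.2 hτ.le)] at hchw
        rcases lt_trichotomy (det3 (L.p i) (L.p w) (L.p z)) 0 with hθ | hθ | hθ
        · -- type II
          have htN := hT.arm2 (by rw [eτ]; exact hτ) (by rw [eθ]; exact hθ) x hmem hR3
          refine ⟨?_, ?_⟩
          · intro Y hY
            rw [hturnk, Real.sign_of_neg hθ]
            rcases hY with rfl | rfl | ⟨n, hn, rfl⟩
            · exact ev_lo hposB (by rw [htN]; exact min_le_right _ _)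
            · rw [h.sk]
              exact ev_lo pAw (by rw [htN]; exact min_le_left _ _)
            · rw [h.sk, hchw] at hn
              exact absurd hn (Finset.notMem_empty _)
          · rcases min_choice (tz E.e (Z E.iP) x) (tz E.e (A i) x) with hm | hm
            · rw [hm] at htN
              exact ⟨A w, Or.inr (Or.inl (by rw [h.sk])), ev_ze pAw htN⟩
            · rw [hm] at htN
              exact ⟨A i, Or.inl rfl, ev_ze hposB htN⟩
        · exact absurd hθ h.θw
        · -- type III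
          have htN := hT.arm3 (by rw [eθ]; exact hθ) x hmem hR3
          refine ⟨?_, ?_⟩
          · intro Y hY
            rw [hturnk, Real.sign_of_pos hθ]
            rcases hY with rfl | rfl | ⟨n, hn, rfl⟩
            · exact ev_hi hposB (by rw [htN]; exact le_max_right _ _)
            · rw [h.sk]
              exact ev_hi pAw (by rw [htN]; exact le_max_left _ _)
            · rw [h.sk, hchw] at hn
              exact absurd hn (Finset.notMem_empty _)
          · rcases max_choice (tz E.e (Z E.iP) x) (tz E.e (A i) x) with hm | hm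
            · rw [hm] at htN
              exact ⟨A w, Or.inr (Or.inl (by rw [h.sk])), ev_ze pAw htN⟩
            · rw [hm] at htN
              exact ⟨A i, Or.inl rfl, ev_ze hposB htN⟩
    · -- the arm k
      have hεab : ε * a1 ≤ b1 := by nlinarith
      have htN := (hT.ear a1 b1 ha1 hb1 hεab x (by rw [epu, epk]; exact hx') hR3).1
      have hab' : E.ab (A i) (A k) x = max (tz E.e (A i) x) (tz E.e (A k) x) := rfl
      rw [hab'] at htN
      refine ⟨?_, ?_⟩
      · intro Y hY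
        rw [hturnu, Real.sign_of_pos h.pos]
        rcases hY with rfl | rfl | ⟨n, hn, rfl⟩
        · exact ev_hi hposA (by rw [htN]; exact le_max_left _ _)
        · rw [h.su]
          exact ev_hi hposB (by rw [htN]; exact le_max_right _ _)
        · rw [h.su, hchk] at hn
          exact absurd hn (Finset.notMem_empty _)
      · rcases max_choice (tz E.e (A i) x) (tz E.e (A k) x) with hm | hm
        · rw [hm] at htN
          exact ⟨A i, Or.inl rfl, ev_ze hposA htN⟩
        · rw [hm] at htN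
          exact ⟨A k, Or.inr (Or.inl (by rw [h.su])), ev_ze hposB htN⟩
  · intro i hi hxi
    rcases face_excl h hε hx0 hx hi hxi with ⟨rfl, a1, b1, ha1, hb1, hba, hab, hx'⟩ |
      ⟨rfl, a1, b1, ha1, hb1, hba, hab, hδ', hx'⟩
    · have htN := (hT.ear b1 a1 hb1 ha1 hba x (by rw [epu, epk]; exact hx') hR3).2 hab
      exact ev_ze hposB htN
    · have htN := (hT.outer a1 b1 hb1 hba hδ' x (by rw [epu, ept]; exact hx') hR1).1
      exact ev_ze pAw htN

end Pool.Agent.TSM
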