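import Pool.Agent.TSE.EL
import Pool.Agent.TSM.BASC
import Pool.Agent.TSM.BASK
import Pool.Agent.TSM.BAS
import Pool.Agent.TSM.REV
import Pool.Agent.TSM.IND
import Pool.Agent.TSM.CHG
import Pool.Agent.TSM.FPOS
import Pool.Agent.TSM.FMAR
import Pool.Agent.TSM.FDEP
import Pool.Agent.TSM.FTAU
import Pool.Agent.TSM.FINJ
import Pool.Agent.TSM.FGER
import Pool.Agent.TSM.FAR
import Pool.Agent.TSM.TRANS
import Pool.Agent.TSM.LIN
import Pool.Agent.TSM.TILT
import Pool.Agent.TSM.NUMU
import Pool.Agent.TSM.GEOE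
import Pool.Agent.TSM.PREP
import Pool.Agent.TSM.ENT1
import Pool.Agent.TSM.ENT2
import Pool.Agent.TSM.ENT3
import Pool.Agent.TSM.ENG2
import Pool.Agent.TSM.ENG3
import Pool.Agent.TSM.ENGM
import Pool.Agent.TSM.END
import Pool.Agent.TSM.VINJ
import Pool.Agent.TSM.PSI
import Pool.Agent.TSM.FLD
import Pool.Agent.TSM.EXT
import Pool.Agent.TSM.KAP
import Pool.Agent.TSM.DOU
import Pool.Agent.TSM.DOW
import Pool.Agent.TSM.GLUC
import Pool.Agent.TSM.GLUG
import Pool.Agent.TSM.GLUS
import Pool.Agent.TSM.HALF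
import Pool.Agent.TSM.ZEQO
import Pool.Agent.TSM.ZEQU
import Pool.Agent.TSM.ZEQW
import Pool.Agent.TSM.DNEW
import Pool.Agent.TSM.STEP

/-!
# TSM: the local resolution theorem `Stmt_VM`
-/

set_option autoImplicit false

namespace Pool.Agent.TSM

theorem ftau : Stmt_FTau := ftau_proof fpos_proof fmar_proof fdep_proof

theorem far : Stmt_Far := far_proof ftau finj_proof fger_proof

theorem trans : Stmt_Trans := trans_proof far

theorem bas : Stmt_Bas := bas_proof basc_proof bask_proof trans

theorem ext : Stmt_Ext := ext_proof ftau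

theorem vm_of (h1 : Stmt_Eng1) (h2 : Stmt_Cndn) : Stmt_VM :=
  ind_proof Pool.Agent.TSE.el bas rev_proof
    (step_proof prep_proof geoe_proof tilt_proof (numu_proof lin_proof) h2
      (psi_proof vinj_proof) fld_proof ext kap_proof vinj_proof
      (end_proof ent1_proof ent2_proof ent3_proof h1 eng2_proof eng3_proof engm_proof)
      (dnew_proof gluc_proof glug_proof (glus_proof dou_proof dow_proof)
        (half_proof dou_proof dow_proof) zeqo_proof zequ_proof zeqw_proof)
      chg_proof trans)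

end Pool.Agent.TSM
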