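import Pool.Agent.TSM.VMAsm
import Pool.Agent.TSM.ENG1
import Pool.Agent.TSM.CNDN
import Pool.Agent.TSC.Final

/-!
# TSM: the closed local resolution theorems
-/

set_option autoImplicit false

namespace Pool.Agent.TSM

/-- the local resolution theorem -/
theorem vm : Stmt_VM := vm_of eng1_proof cndn_proof

/-- the local resolution theorem with chamfers at every non-flat arm -/
theorem vm2 : Stmt_VM2 := Pool.Agent.TSC.vm2_of vm

end Pool.Agent.TSM
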