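import Pool.Agent.TSM.VDefs

/-!
# TSM, Part VM: definitions for the local resolution theorem
-/

set_option autoImplicit false

namespace Pool.Agent.TSM

open Set Filter Topology

/-- `D` restricted to `C` is, near `x`, injective with a 3-valent saddle, edge or plane germ. -/
def GoodOn (C : Set E3) (D : E3 → E3) (x : E3) : Prop :=
  ∃ U ∈ 𝓝[C] x, InjOn D U ∧ ∃ a b c : Aff, Indep a b c ∧ ∀ y ∈ U, G3 a b c (D y) = 0

namespace Pg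

variable {V : Type} [DecidableEq V] {κ : Type}

/-- the planes which meet at the arm `s i`: the two faces `i`, `s i` and the chamfers -/
def lst (L : Pg V) (Ch : V → Finset κ) (A : V → Aff) (B : κ → Aff) (i : V) : Set Aff :=
  {Z | Z = A i ∨ Z = A (L.s i) ∨ ∃ n ∈ Ch (L.s i), Z = B n}

/-- `min` (if the turn is positive) or `max` (if it is negative) of the planes is zero -/
def ArmEq (L : Pg V) (Ch : V → Finset κ) (A : V → Aff) (B : κ → Aff) (i : V) (y : E3) : Prop :=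
  (∀ Z ∈ L.lst Ch A B i, 0 ≤ Real.sign (L.turn i) * ev Z y) ∧ ∃ Z ∈ L.lst Ch A B i, ev Z y = 0

/-- part of the cone near the arm `s i` -/
def armZone (L : Pg V) (ε : ℝ) (i : V) : Set E3 :=
  {x | ∃ a b : ℝ, 0 ≤ a ∧ 0 ≤ b ∧ a ≤ 2 * ε * b ∧
    (x = a • L.p i + b • L.p (L.s i) ∨ x = a • L.p (L.s (L.s i)) + b • L.p (L.s i))}

/-- part of the face `i` away from the arms `i` and `s i` -/
def faceZone (L : Pg V) (ε : ℝ) (i : V) : Set E3 :=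
  {x | ∃ a b : ℝ, 0 ≤ a ∧ 0 ≤ b ∧ ε * b ≤ a ∧ ε * a ≤ b ∧ x = a • L.p i + b • L.p (L.s i)}

/-- the equations of the far surface at the point `y` belonging to the parameter `x` -/
def ZoneEq (L : Pg V) (Ch : V → Finset κ) (A : V → Aff) (B : κ → Aff) (ε : ℝ) (x y : E3) : Prop :=
  (∀ i ∈ L.S, x ∈ L.armZone ε i → L.ArmEq Ch A B i y) ∧
    ∀ i ∈ L.S, x ∈ L.faceZone ε i → ev (A i) y = 0

/-- admissible direction fields on the cone -/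
def Tame (L : Pg V) (Λ c : ℝ) (b : E3 → E3) : Prop :=
  0 < c ∧ (∀ x ∈ L.cone, x ≠ 0 → ‖b x‖ ≤ Λ) ∧
    (∀ x ∈ L.cone, ∀ y ∈ L.cone, x ≠ 0 → y ≠ 0 → ‖x‖ * ‖b x - b y‖ ≤ Λ * ‖x - y‖) ∧
    ∀ i ∈ L.S, ∀ x ∈ L.face i, x ≠ 0 → c ≤ inner ℝ (L.nor i) (b x)

def Adm (L : Pg V) (b : E3 → E3) : Prop := ∃ Λ c : ℝ, L.Tame Λ c b

/-- general conditions on the chamfer normals (`μ` is a constant depending only on `L`) -/
def CondG (L : Pg V) (μ ε : ℝ) (Ch : V → Finset κ) (N : κ → E3) : Prop :=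
  ∀ i ∈ L.S, (L.turn i = 0 → Ch (L.s i) = ∅) ∧
    (∀ n ∈ Ch (L.s i),
      Real.sign (L.turn i) * inner ℝ (N n) (L.p (L.s i)) < 0 ∧
      0 < Real.sign (L.turn i) * inner ℝ (N n) (L.p (L.s i) + ε • L.p i) ∧
      0 < Real.sign (L.turn i) * inner ℝ (N n) (L.p (L.s i) + ε • L.p (L.s (L.s i))) ∧
      ∃ x y : ℝ, 0 ≤ x ∧ 0 ≤ y ∧ μ ≤ x + y ∧ x + y ≤ 1 / μ ∧
        ‖N n - (x • L.nor i + y • L.nor (L.s i))‖ ≤ ε / μ) ∧
    (∀ n ∈ Ch (L.s i), ∀ n' ∈ Ch (L.s i), n ≠ n' →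
      det3 (L.nor i) (N n) (N n') ≠ 0 ∧ det3 (L.nor (L.s i)) (N n) (N n') ≠ 0 ∧
      ∀ n'' ∈ Ch (L.s i), n'' ≠ n → n'' ≠ n' → det3 (N n) (N n') (N n'') ≠ 0)

/-- the planes `A`, `B` are `η`-close to the planes with normals `nor`, `N` and offsets `o`, `oN`;
the flat sector of a corner polygon is exact -/
def Near (L : Pg V) (Ch : V → Finset κ) (N : κ → E3) (o : V → ℝ) (oN : κ → ℝ) (η : ℝ)
    (A : V → Aff) (B : κ → Aff) : Prop :=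
  (∀ i ∈ L.S, ‖(A i).1 - L.nor i‖ < η ∧ |(A i).2 - o i| < η) ∧
  (∀ j ∈ L.S, ∀ n ∈ Ch j, ‖(B n).1 - N n‖ < η ∧ |(B n).2 - oN n| < η) ∧
  (∀ m, L.X = some m → A m = (L.nor m, 0) ∧ ∀ q ∈ L.S, L.s q = m → A q = (L.nor q, 0))

/-- for corner polygons: `y` is on the correct side of the flat sector -/
def Half (L : Pg V) (y : E3) : Prop :=
  ∀ m, L.X = some m → ∀ σ : ℝ, (∀ i ∈ L.S, σ * inner ℝ (L.nor m) (L.p i) ≤ 0) →
    σ * inner ℝ (L.nor m) y ≤ 0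

/-- RESOLUTION: for suitable offsets and all planes near the given ones the cone over `L` has a
good resolution `D` which far out is the projection along `b` to the far surface. -/
def Res (L : Pg V) (Ch : V → Finset κ) (N : κ → E3) (ε : ℝ) (b : E3 → E3) : Prop :=
  ∃ (o : V → ℝ) (oN : κ → ℝ) (η R M : ℝ), 0 < η ∧ 0 < R ∧
    (∀ m, L.X = some m → o m = 0 ∧ ∀ q ∈ L.S, L.s q = m → o q = 0) ∧
    ∀ (A : V → Aff) (B : κ → Aff), L.Near Ch N o oN η A B →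
      ∃ D : E3 → E3, ContinuousOn D L.cone ∧ (∀ x ∈ L.cone, GoodOn L.cone D x ∧ L.Half (D x)) ∧
        (∀ x ∈ L.cone, ‖D x - x‖ ≤ M * (1 + ‖x‖)) ∧
        ∀ x ∈ L.cone, R ≤ ‖x‖ → (∃ t : ℝ, D x = x - t • b x) ∧ L.ZoneEq Ch A B ε x (D x)

/-- the conditions on the chamfers in the induction: chamfers are near chord planes -/
def Cond (L : Pg V) (ε : ℝ) (Ch : V → Finset (Sym2 V)) (N : Sym2 V → E3) : Prop :=
  ∀ i ∈ L.S, (L.turn i = 0 → Ch (L.s i) = ∅) ∧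
    (∀ n ∈ Ch (L.s i), ∃ m ∈ L.S, n = s(L.s i, m) ∧ m ≠ i ∧ m ≠ L.s i ∧ m ≠ L.s (L.s i) ∧
      (∀ x ∈ L.S, x ≠ L.s i → x ≠ m → det3 (L.p (L.s i)) (L.p m) (L.p x) ≠ 0) ∧
      Real.sign (L.turn i) * inner ℝ (N n) (L.p (L.s i)) < 0 ∧
      0 < Real.sign (L.turn i) * inner ℝ (N n) (L.p (L.s i) + ε • L.p i) ∧
      0 < Real.sign (L.turn i) * inner ℝ (N n) (L.p (L.s i) + ε • L.p (L.s (L.s i))) ∧
      ∃ σ : ℝ, (σ = 1 ∨ σ = -1) ∧ ‖N n - σ • crs (L.p (L.s i)) (L.p m)‖ ≤ ε) ∧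
    (∀ n ∈ Ch (L.s i), ∀ n' ∈ Ch (L.s i), n ≠ n' →
      det3 (L.nor i) (N n) (N n') ≠ 0 ∧ det3 (L.nor (L.s i)) (N n) (N n') ≠ 0 ∧
      ∀ n'' ∈ Ch (L.s i), n'' ≠ n → n'' ≠ n' → det3 (N n) (N n') (N n'') ≠ 0)

/-- the local resolution theorem for the polygon `L` -/
def VMat (L : Pg V) : Prop :=
  ∀ b : E3 → E3, L.Adm b → ∃ ε₀ : ℝ, 0 < ε₀ ∧ ∀ ε : ℝ, 0 < ε → ε < ε₀ →
    ∃ (Ch : V → Finset (Sym2 V)) (N : Sym2 V → E3), L.Cond ε Ch N ∧ L.Res Ch N ε b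

end Pg

/-- VM: the local resolution theorem. -/
def Stmt_VM : Prop := ∀ (V : Type) [DecidableEq V] (L : Pg V), L.Ok → L.VMat

/-- VM2: the form used in the assembly: at least one chamfer at every arm which is not flat. -/
def Stmt_VM2 : Prop :=
  ∀ (V : Type) [DecidableEq V] (L : Pg V), L.Ok → ∀ b : E3 → E3, L.Adm b →
    ∃ μ ε₀ : ℝ, 0 < μ ∧ 0 < ε₀ ∧ ∀ ε : ℝ, 0 < ε → ε < ε₀ →
    ∃ (κ : Type) (Ch : V → Finset κ) (N : κ → E3), L.CondG μ ε Ch N ∧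
      (∀ i ∈ L.S, L.turn i ≠ 0 → (Ch (L.s i)).Nonempty) ∧ L.Res Ch N ε b

end Pool.Agent.TSM
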