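import Pool.Agent.TSM.VMDefs

/-!
# TSM, Part VM: exact statements, first batch (far field, change of direction field, base,
reversal, induction)
-/

set_option autoImplicit false

namespace Pool.Agent.TSM

open Set Filter Topology Metric

namespace Pg

variable {V : Type} [DecidableEq V] {κ : Type}

/-- `Near` with bounded offsets -/
def NearK (L : Pg V) (Ch : V → Finset κ) (N : κ → E3) (K η : ℝ)
    (A : V → Aff) (B : κ → Aff) : Prop :=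
  (∀ i ∈ L.S, ‖(A i).1 - L.nor i‖ < η ∧ |(A i).2| ≤ K) ∧
  (∀ j ∈ L.S, ∀ n ∈ Ch j, ‖(B n).1 - N n‖ < η ∧ |(B n).2| ≤ K) ∧
  (∀ m, L.X = some m → A m = (L.nor m, 0) ∧ ∀ q ∈ L.S, L.s q = m → A q = (L.nor q, 0))

/-- the conclusions about the far map `x ↦ x - τ x • β x` -/
def FarOK (L : Pg V) (Ch : V → Finset κ) (A : V → Aff) (B : κ → Aff) (ε C R : ℝ)
    (β : E3 → E3) (τ : E3 → ℝ) : Prop :=
  ContinuousOn (fun x => x - τ x • β x) {x | x ∈ L.cone ∧ R ≤ ‖x‖} ∧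
  ∀ x ∈ L.cone, R ≤ ‖x‖ →
    L.ZoneEq Ch A B ε x (x - τ x • β x) ∧ |τ x| ≤ C * ε * ‖x‖ ∧ L.Half (x - τ x • β x) ∧
    (∀ t : ℝ, L.ZoneEq Ch A B ε x (x - t • β x) → t = τ x) ∧
    (∀ i ∈ L.S, x ∈ L.faceZone ε i → L.turn i ≠ 0 → L.ArmEq Ch A B i (x - τ x • β x)) ∧
    (∀ i ∈ L.S, x ∈ L.faceZone ε (L.s i) → L.turn i ≠ 0 → L.ArmEq Ch A B i (x - τ x • β x))

end Pg

/-- CHG: chord conditions imply the general conditions. -/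
def Stmt_Chg : Prop :=
  ∀ (V : Type) [DecidableEq V] (L : Pg V), L.Ok → ∃ μ ε₀ : ℝ, 0 < μ ∧ 0 < ε₀ ∧
    ∀ ε : ℝ, 0 < ε → ε < ε₀ → ∀ (Ch : V → Finset (Sym2 V)) (N : Sym2 V → E3),
      L.Cond ε Ch N → L.CondG μ ε Ch N

/-- FPOS: all planes at an arm are positive on the direction field near the arm. -/
def Stmt_FPos : Prop :=
  ∀ (V : Type) [DecidableEq V] (L : Pg V), L.Ok → ∀ Λ c μ : ℝ, 0 < c → 0 < μ →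
    ∃ ε₀ c' : ℝ, 0 < ε₀ ∧ 0 < c' ∧ ∀ ε : ℝ, 0 < ε → ε < ε₀ →
    ∀ (κ : Type) (Ch : V → Finset κ) (N : κ → E3), L.CondG μ ε Ch N →
    ∀ β : E3 → E3, L.Tame Λ c β → ∀ i ∈ L.S, ∀ x ∈ L.armZone ε i, x ≠ 0 →
      c' ≤ inner ℝ (L.nor i) (β x) ∧ c' ≤ inner ℝ (L.nor (L.s i)) (β x) ∧
      ∀ n ∈ Ch (L.s i), c' ≤ inner ℝ (N n) (β x)

/-- FMAR: planes which are inactive are inactive with a linear margin. -/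
def Stmt_FMar : Prop :=
  ∀ (V : Type) [DecidableEq V] (L : Pg V), L.Ok → ∀ μ ε : ℝ, 0 < μ → 0 < ε → ε < 1 / 4 →
    ∀ (κ : Type) (Ch : V → Finset κ) (N : κ → E3), L.CondG μ ε Ch N →
    ∃ m : ℝ, 0 < m ∧ ∀ i ∈ L.S, L.turn i ≠ 0 → ∀ a b : ℝ, 0 ≤ a → 0 ≤ b → ε * b ≤ a →
      (∀ x : E3, x = a • L.p i + b • L.p (L.s i) →
        m * ‖x‖ ≤ Real.sign (L.turn i) * inner ℝ (L.nor (L.s i)) x ∧
        ∀ n ∈ Ch (L.s i), m * ‖x‖ ≤ Real.sign (L.turn i) * inner ℝ (N n) x) ∧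
      (∀ x : E3, x = a • L.p (L.s (L.s i)) + b • L.p (L.s i) →
        m * ‖x‖ ≤ Real.sign (L.turn i) * inner ℝ (L.nor i) x ∧
        ∀ n ∈ Ch (L.s i), m * ‖x‖ ≤ Real.sign (L.turn i) * inner ℝ (N n) x)

/-- FDEP: depth of the chamfers. -/
def Stmt_FDep : Prop :=
  ∀ (V : Type) [DecidableEq V] (L : Pg V), L.Ok → ∀ μ : ℝ, 0 < μ → ∃ C : ℝ, 0 < C ∧
    ∀ ε : ℝ, 0 < ε → ε < 1 / 4 → ∀ (κ : Type) (Ch : V → Finset κ) (N : κ → E3),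
    L.CondG μ ε Ch N → ∀ i ∈ L.S, ∀ x ∈ L.armZone ε i,
      |(inner ℝ (L.nor i) x : ℝ)| ≤ C * ε * ‖x‖ ∧
      |(inner ℝ (L.nor (L.s i)) x : ℝ)| ≤ C * ε * ‖x‖ ∧
      ∀ n ∈ Ch (L.s i), |(inner ℝ (N n) x : ℝ)| ≤ C * ε * ‖x‖ ∧ ‖N n‖ ≤ C

/-- FTAU (uses FPOS, FMAR, FDEP): the far map exists, is unique and continuous. -/
def Stmt_FTau : Prop :=
  ∀ (V : Type) [DecidableEq V] (L : Pg V), L.Ok → ∀ Λ c μ : ℝ, 0 < c → 0 < μ →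
    ∃ ε₀ C : ℝ, 0 < ε₀ ∧ 0 < C ∧ ∀ ε : ℝ, 0 < ε → ε < ε₀ →
    ∀ (κ : Type) (Ch : V → Finset κ) (N : κ → E3), L.CondG μ ε Ch N →
    ∃ η : ℝ, 0 < η ∧ ∀ K : ℝ, ∃ R : ℝ, 0 < R ∧ ∀ (A : V → Aff) (B : κ → Aff),
    L.NearK Ch N K η A B → ∀ β : E3 → E3, L.Tame Λ c β → ∃ τ : E3 → ℝ,
      L.FarOK Ch A B ε C R β τ

/-- FINJ: small displacements along a tame field are locally injective. -/
def Stmt_FInj : Prop :=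
  ∀ (V : Type) [DecidableEq V] (L : Pg V), L.Ok → ∀ Λ c : ℝ, 0 < c → ∃ δ : ℝ, 0 < δ ∧
    ∀ β : E3 → E3, L.Tame Λ c β → ∀ x ∈ L.cone, x ≠ 0 → ∃ U ∈ 𝓝[L.cone] x,
      ∀ y ∈ U, ∀ z ∈ U, ∀ t t' : ℝ, |t| ≤ δ * ‖x‖ → |t'| ≤ δ * ‖x‖ →
        y - t • β y = z - t' • β z → y = z

/-- FGER: the arm equation has good germs far out; plane germs. -/
def Stmt_FGer : Prop :=
  (∀ (V : Type) [DecidableEq V] (L : Pg V), L.Ok → ∀ μ ε : ℝ, 0 < μ → 0 < ε → ε < 1 / 4 →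
    ∀ (κ : Type) (Ch : V → Finset κ) (N : κ → E3), L.CondG μ ε Ch N →
    ∃ η : ℝ, 0 < η ∧ ∀ K : ℝ, ∃ R : ℝ, 0 < R ∧ ∀ (A : V → Aff) (B : κ → Aff),
    L.NearK Ch N K η A B → ∀ i ∈ L.S, ∀ y : E3, R ≤ ‖y‖ → L.ArmEq Ch A B i y →
      ∃ a b c : Aff, Indep a b c ∧ ∃ r > 0, ∀ z ∈ ball y r, L.ArmEq Ch A B i z →
        G3 a b c z = 0) ∧
  (∀ (a : Aff) (y : E3), a.1 ≠ 0 → ev a y = 0 → ∃ a' b' c' : Aff, Indep a' b' c' ∧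
    ∃ r > 0, ∀ z ∈ ball y r, ev a z = 0 → G3 a' b' c' z = 0)

/-- FAR (uses FTAU, FINJ, FGER): the far map is good. -/
def Stmt_Far : Prop :=
  ∀ (V : Type) [DecidableEq V] (L : Pg V), L.Ok → ∀ Λ c μ : ℝ, 0 < c → 0 < μ →
    ∃ ε₀ C : ℝ, 0 < ε₀ ∧ 0 < C ∧ ∀ ε : ℝ, 0 < ε → ε < ε₀ →
    ∀ (κ : Type) (Ch : V → Finset κ) (N : κ → E3), L.CondG μ ε Ch N →
    ∃ η : ℝ, 0 < η ∧ ∀ K : ℝ, ∃ R : ℝ, 0 < R ∧ ∀ (A : V → Aff) (B : κ → Aff),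
    L.NearK Ch N K η A B → ∀ β : E3 → E3, L.Tame Λ c β → ∃ τ : E3 → ℝ,
      L.FarOK Ch A B ε C R β τ ∧
      ∀ x ∈ L.cone, R < ‖x‖ → GoodOn L.cone (fun y => y - τ y • β y) x

/-- TRANS (uses FAR): change of the direction field. -/
def Stmt_Trans : Prop :=
  ∀ (V : Type) [DecidableEq V] (L : Pg V), L.Ok → ∀ b₁ b₂ : E3 → E3, L.Adm b₁ → L.Adm b₂ →
    ∀ μ : ℝ, 0 < μ → ∃ ε₀ : ℝ, 0 < ε₀ ∧ ∀ ε : ℝ, 0 < ε → ε < ε₀ →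
    ∀ (κ : Type) (Ch : V → Finset κ) (N : κ → E3), L.CondG μ ε Ch N →
      L.Res Ch N ε b₁ → L.Res Ch N ε b₂

/-- BASC: base case, closed type. -/
def Stmt_Basc : Prop :=
  ∀ (V : Type) [DecidableEq V] (L : Pg V), L.Ok → L.X = none → L.S.card = 4 →
    ∃ e : E3, (∀ i ∈ L.S, 0 < (inner ℝ (L.nor i) e : ℝ)) ∧ ∃ ε₀ : ℝ, 0 < ε₀ ∧
    ∀ ε : ℝ, 0 < ε → ε < ε₀ →
      L.Res (fun _ => (∅ : Finset (Sym2 V))) (fun _ => 0) ε (fun _ => e)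

/-- BASK: base case, corner type. -/
def Stmt_Bask : Prop :=
  ∀ (V : Type) [DecidableEq V] (L : Pg V) (m : V), L.Ok → L.X = some m → L.S.card = 4 →
    ∃ e : E3, (∀ i ∈ L.S, 0 < (inner ℝ (L.nor i) e : ℝ)) ∧ ∃ ε₀ : ℝ, 0 < ε₀ ∧
    ∀ ε : ℝ, 0 < ε → ε < ε₀ →
      L.Res (fun _ => (∅ : Finset (Sym2 V))) (fun _ => 0) ε (fun _ => e)

/-- BAS (uses BASC, BASK, TRANS): polygons with four vertices. -/
def Stmt_Bas : Prop :=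
  ∀ (V : Type) [DecidableEq V] (L : Pg V), L.Ok → L.S.card = 4 → L.VMat

/-- REV: reversal of the orientation. -/
def Stmt_Rev : Prop :=
  ∀ (V : Type) [DecidableEq V] (L : Pg V), L.Ok → ∀ s' : V → V, (∀ i ∈ L.S, s' (L.s i) = i) →
    Pg.Ok (⟨L.S, s', L.p, L.X⟩ : Pg V) ∧
    (Pg.VMat (⟨L.S, s', L.p, L.X⟩ : Pg V) → L.VMat) ∧
    ∀ i ∈ L.S, Pg.turn (⟨L.S, s', L.p, L.X⟩ : Pg V) (L.s (L.s i)) = - L.turn i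

/-- STEP: cutting off a left ear. -/
def Stmt_Step : Prop :=
  ∀ (V : Type) [DecidableEq V] (L : Pg V) (u k : V), L.Ok → 5 ≤ L.S.card → u ∈ L.S →
    L.s u = k → (L.erase k).Ok → L.EarC k → 0 < L.turn u →
    (∀ L' : Pg V, L'.Ok → L'.S = L.S.erase k → L'.VMat) → L.VMat

/-- IND (uses EL, BAS, REV, STEP): the local resolution theorem. -/
def Stmt_Ind : Prop := Stmt_EL → Stmt_Bas → Stmt_Rev → Stmt_Step → Stmt_VM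

end Pool.Agent.TSM
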