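import Pool.Agent.TSM.VStmts

/-!
# TSM, Part VM: exact statements, second batch (the ear step)

`t u k w z` are consecutive vertices of the polygon `L`, `k` is cut off.
-/

set_option autoImplicit false

namespace Pool.Agent.TSM

open Set Filter Topology Metric

/-! ### vertical projection: times of the planes -/

/-- parameter of the zero of the plane `Z` on the line `x + t e` -/
noncomputable def tz (e : E3) (Z : Aff) (x : E3) : ℝ := -(ev Z x) / inner ℝ Z.1 e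

/-- linear version -/
noncomputable def th (e n x : E3) : ℝ := -(inner ℝ n x : ℝ) / inner ℝ n e

/-- data at one end of the ear: the arm `pu`, its old neighbour `pt`, its new neighbour `pk`, the
vertical direction `e`, the normals `nB` (ear face at `pu`), `nA` (other ear face), and a finite
family `G i`, `i ∈ J`, of normals containing the old face `G iP` and the chord face `G iQ` -/
structure EndD (ι : Type) where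
  pt : E3
  pu : E3
  pk : E3
  e : E3
  nB : E3
  nA : E3
  J : Finset ι
  iP : ι
  iQ : ι
  G : ι → E3
  θ : ℝ
  τ : ℝ

namespace EndD

variable {ι : Type} [DecidableEq ι]

/-- largest time of the planes `Z i`, `i ∈ s` (and of `Z iQ`) -/
noncomputable def mx (E : EndD ι) (Z : ι → Aff) (s : Finset ι) (x : E3) : ℝ :=
  s.fold max (tz E.e (Z E.iQ) x) (fun i => tz E.e (Z i) x)

/-- smallest time of the planes `Z i`, `i ∈ s` (and of `Z iQ`) -/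
noncomputable def mn (E : EndD ι) (Z : ι → Aff) (s : Finset ι) (x : E3) : ℝ :=
  s.fold min (tz E.e (Z E.iQ) x) (fun i => tz E.e (Z i) x)

/-- time of `min A B` -/
noncomputable def ab (E : EndD ι) (A B : Aff) (x : E3) : ℝ := max (tz E.e A x) (tz E.e B x)

/-- time of the old surface -/
noncomputable def tO (E : EndD ι) (Z : ι → Aff) (x : E3) : ℝ :=
  if E.τ < 0 then E.mn Z E.J x else E.mx Z E.J x

/-- time of the new surface -/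
noncomputable def tN (E : EndD ι) (Z : ι → Aff) (A B : Aff) (x : E3) : ℝ :=
  if E.τ < 0 then min (E.mn Z E.J x) (E.ab A B x)
  else if E.θ < 0 then min (E.mx Z E.J x) (E.ab A B x)
  else max (tz E.e (Z E.iP) x) (min (E.mx Z (E.J.erase E.iP) x) (E.ab A B x))

/-- time of the ear surface near the arm `k` -/
noncomputable def tM (E : EndD ι) (Z : ι → Aff) (A B : Aff) (x : E3) : ℝ :=
  min (tz E.e (Z E.iQ) x) (E.ab A B x)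

/-- the numerical conditions at one end -/
structure Num (E : EndD ι) (ε δ : ℝ) : Prop where
  eps : 0 < ε
  del : 2 * ε ≤ δ
  memP : E.iP ∈ E.J
  memQ : E.iQ ∈ E.J
  PQ : E.iP ≠ E.iQ
  posG : ∀ i ∈ E.J, 0 < (inner ℝ (E.G i) E.e : ℝ)
  posA : 0 < (inner ℝ E.nA E.e : ℝ)
  posB : 0 < (inner ℝ E.nB E.e : ℝ)
  Pt : (inner ℝ (E.G E.iP) E.pt : ℝ) = 0
  Pu : (inner ℝ (E.G E.iP) E.pu : ℝ) = 0
  Pk : (inner ℝ (E.G E.iP) E.pk : ℝ) = E.θ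
  Bt : (inner ℝ E.nB E.pt : ℝ) = E.θ
  Bu : (inner ℝ E.nB E.pu : ℝ) = 0
  Bk : (inner ℝ E.nB E.pk : ℝ) = 0
  Ak : (inner ℝ E.nA E.pk : ℝ) = 0
  Au : 0 < (inner ℝ E.nA E.pu : ℝ)
  Qk : (inner ℝ (E.G E.iQ) E.pk : ℝ) < 0
  dne : det3 E.pt E.pu E.pk ≠ 0
  θne : E.θ ≠ 0
  τne : E.τ ≠ 0
  θτ : E.τ < 0 → E.θ < 0
  AB : th E.e E.nA (E.pu + δ • E.pt) < th E.e E.nB (E.pu + δ • E.pt)
  ind3 : ∀ i ∈ E.J, ∀ j ∈ E.J, ∀ l ∈ E.J, i ≠ j → i ≠ l → j ≠ l →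
    det3 (E.G i) (E.G j) (E.G l) ≠ 0
  indB : ∀ i ∈ E.J, ∀ j ∈ E.J, i ≠ j → det3 E.nB (E.G i) (E.G j) ≠ 0
  indM : det3 E.nA E.nB (E.G E.iQ) ≠ 0
  t1 : E.τ < 0 → ∀ i ∈ E.J, i ≠ E.iP →
    0 < (inner ℝ (E.G i) E.pu : ℝ) ∧ (inner ℝ (E.G i) E.pt : ℝ) < 0 ∧
    ε * inner ℝ (E.G i) E.pt + inner ℝ (E.G i) E.pu < 0 ∧
    ε * inner ℝ (E.G i) E.pk + inner ℝ (E.G i) E.pu < 0
  t1' : E.τ < 0 → th E.e (E.G E.iQ) E.pt < th E.e E.nB E.pt ∧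
    ∀ i ∈ E.J, i ≠ E.iQ → th E.e (E.G E.iQ) E.pu < th E.e (E.G i) E.pu ∧
      th E.e (E.G E.iQ) E.pk < th E.e (E.G i) E.pk
  t2 : 0 < E.τ → E.θ < 0 → ∀ i ∈ E.J, i ≠ E.iP →
    0 < (inner ℝ (E.G i) E.pu : ℝ) ∧ 0 < (inner ℝ (E.G i) E.pt : ℝ)
  t3 : 0 < E.θ → ∀ i ∈ E.J, i ≠ E.iP →
    (inner ℝ (E.G i) E.pu : ℝ) < 0 ∧ 0 < (inner ℝ (E.G i) E.pt : ℝ) ∧
    0 < ε * inner ℝ (E.G i) E.pt + inner ℝ (E.G i) E.pu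
  t23 : 0 < E.τ → ∀ i ∈ E.J, i ≠ E.iQ →
    th E.e (E.G i) (E.pu + E.pk) < th E.e (E.G E.iQ) (E.pu + E.pk) ∧
    th E.e (E.G i) E.pk < th E.e (E.G E.iQ) E.pk

/-- the planes `Z i`, `A`, `B` are near the exact ones; `A` and `B` are shifted by `c₀ e` -/
def Close (E : EndD ι) (K c₀ η : ℝ) (Z : ι → Aff) (A B : Aff) : Prop :=
  (∀ i ∈ E.J, ‖(Z i).1 - E.G i‖ < η ∧ |(Z i).2| ≤ K) ∧
  ‖A.1 - E.nA‖ < η ∧ |A.2 - c₀ * inner ℝ E.nA E.e| < η ∧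
  ‖B.1 - E.nB‖ < η ∧ |B.2 - c₀ * inner ℝ E.nB E.e| < η

/-- points of the old face near the arm -/
def Old (E : EndD ι) (δ : ℝ) : Set E3 :=
  {x | ∃ a c : ℝ, 0 ≤ a ∧ 0 ≤ c ∧ a ≤ δ * c ∧ x = a • E.pt + c • E.pu}

/-- points of the ear face with `d ≤ m c` -/
def New (E : EndD ι) (m : ℝ) : Set E3 :=
  {x | ∃ c d : ℝ, 0 ≤ c ∧ 0 ≤ d ∧ d ≤ m * c ∧ x = c • E.pu + d • E.pk}

/-- all points of the ear face -/
def NewF (E : EndD ι) : Set E3 :=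
  {x | ∃ c d : ℝ, 0 ≤ c ∧ 0 ≤ d ∧ x = c • E.pu + d • E.pk}

/-- the conclusions about the times -/
structure TSpec (E : EndD ι) (ε δ κ₁ R₁ R₂ R₃ M : ℝ) (Z : ι → Aff) (A B : Aff) : Prop where
  pos : (∀ i ∈ E.J, 0 < (inner ℝ (Z i).1 E.e : ℝ)) ∧ 0 < (inner ℝ A.1 E.e : ℝ) ∧
    0 < (inner ℝ B.1 E.e : ℝ)
  diag : ∀ c d : ℝ, 0 ≤ c → c ≤ d → ∀ x : E3, x = c • E.pu + d • E.pk → R₁ ≤ ‖x‖ →
    E.tN Z A B x = E.tM Z A B x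
  outer : ∀ a c : ℝ, 0 ≤ c → ε * c ≤ a → a ≤ δ * c → ∀ x : E3, x = a • E.pt + c • E.pu →
    R₁ ≤ ‖x‖ → E.tN Z A B x = tz E.e (Z E.iP) x ∧ E.tO Z x = tz E.e (Z E.iP) x
  near : ∀ x ∈ E.Old δ ∪ E.NewF, R₁ ≤ ‖x‖ → ‖x‖ ≤ R₂ → E.tN Z A B x = E.tO Z x
  arm1 : E.τ < 0 → ∀ x ∈ E.Old (2 * ε) ∪ E.New (2 * ε), R₃ ≤ ‖x‖ →
    E.tN Z A B x = min (E.mn Z E.J x) (tz E.e B x)
  arm2 : 0 < E.τ → E.θ < 0 → ∀ x ∈ E.Old (2 * ε) ∪ E.New (2 * ε), R₃ ≤ ‖x‖ →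
    E.tN Z A B x = min (tz E.e (Z E.iP) x) (tz E.e B x)
  arm3 : 0 < E.θ → ∀ x ∈ E.Old (2 * ε) ∪ E.New (2 * ε), R₃ ≤ ‖x‖ →
    E.tN Z A B x = max (tz E.e (Z E.iP) x) (tz E.e B x)
  ear : ∀ c d : ℝ, 0 ≤ c → 0 ≤ d → ε * c ≤ d → ∀ x : E3, x = c • E.pu + d • E.pk → R₃ ≤ ‖x‖ →
    E.tN Z A B x = E.ab A B x ∧ (ε * d ≤ c → E.tN Z A B x = tz E.e B x)
  le : ∀ x ∈ E.Old δ ∪ E.NewF, R₁ ≤ ‖x‖ → E.tN Z A B x ≤ E.tO Z x ∧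
    (E.tN Z A B x = E.tO Z x ∨ -(κ₁ * ‖x‖) ≤ E.tN Z A B x) ∧
    (E.τ < 0 → E.tN Z A B x ≤ tz E.e (Z E.iP) x) ∧
    (0 < E.θ → tz E.e (Z E.iP) x ≤ E.tN Z A B x)
  bound : ∀ x : E3, |E.tN Z A B x| ≤ M * (1 + ‖x‖)

/-- the conclusions about the germs -/
def Ger (E : EndD ι) (δ R₁ : ℝ) (Z : ι → Aff) (A B : Aff) : Prop :=
  ∀ x ∈ E.Old δ ∪ E.New 2, R₁ ≤ ‖x‖ → ∃ a b c : Aff, Indep a b c ∧
    ∀ᶠ y in 𝓝 x, G3 a b c (y + E.tN Z A B y • E.e) = 0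

end EndD

/-- ENT1: times at an end of type I (`τ < 0`). -/
def Stmt_Ent1 : Prop :=
  ∀ (ι : Type) [DecidableEq ι] (E : EndD ι) (ε δ : ℝ), E.Num ε δ → E.τ < 0 →
  ∀ κ₁ : ℝ, 0 < κ₁ → ∀ K : ℝ, ∃ R₁ : ℝ, 0 < R₁ ∧ ∀ R₂ : ℝ, ∃ cm : ℝ, ∀ c₀ : ℝ, cm ≤ c₀ →
  ∃ η R₃ M : ℝ, 0 < η ∧ ∀ (Z : ι → Aff) (A B : Aff), E.Close K c₀ η Z A B →
    E.TSpec ε δ κ₁ R₁ R₂ R₃ M Z A B

/-- ENT2: times at an end of type II (`θ < 0 < τ`). -/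
def Stmt_Ent2 : Prop :=
  ∀ (ι : Type) [DecidableEq ι] (E : EndD ι) (ε δ : ℝ), E.Num ε δ → 0 < E.τ → E.θ < 0 →
  ∀ κ₁ : ℝ, 0 < κ₁ → ∀ K : ℝ, ∃ R₁ : ℝ, 0 < R₁ ∧ ∀ R₂ : ℝ, ∃ cm : ℝ, ∀ c₀ : ℝ, cm ≤ c₀ →
  ∃ η R₃ M : ℝ, 0 < η ∧ ∀ (Z : ι → Aff) (A B : Aff), E.Close K c₀ η Z A B →
    E.TSpec ε δ κ₁ R₁ R₂ R₃ M Z A B

/-- ENT3: times at an end of type III (`0 < θ`). -/
def Stmt_Ent3 : Prop :=
  ∀ (ι : Type) [DecidableEq ι] (E : EndD ι) (ε δ : ℝ), E.Num ε δ → 0 < E.θ →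
  ∀ κ₁ : ℝ, 0 < κ₁ → ∀ K : ℝ, ∃ R₁ : ℝ, 0 < R₁ ∧ ∀ R₂ : ℝ, ∃ cm : ℝ, ∀ c₀ : ℝ, cm ≤ c₀ →
  ∃ η R₃ M : ℝ, 0 < η ∧ ∀ (Z : ι → Aff) (A B : Aff), E.Close K c₀ η Z A B →
    E.TSpec ε δ κ₁ R₁ R₂ R₃ M Z A B

/-- ENG1: germs at an end of type I. -/
def Stmt_Eng1 : Prop :=
  ∀ (ι : Type) [DecidableEq ι] (E : EndD ι) (ε δ : ℝ), E.Num ε δ → E.τ < 0 →
  ∀ K : ℝ, ∃ R₁ : ℝ, 0 < R₁ ∧ ∃ cm : ℝ, ∀ c₀ : ℝ, cm ≤ c₀ →
  ∃ η : ℝ, 0 < η ∧ ∀ (Z : ι → Aff) (A B : Aff), E.Close K c₀ η Z A B → E.Ger δ R₁ Z A B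

/-- ENG2: germs at an end of type II. -/
def Stmt_Eng2 : Prop :=
  ∀ (ι : Type) [DecidableEq ι] (E : EndD ι) (ε δ : ℝ), E.Num ε δ → 0 < E.τ → E.θ < 0 →
  ∀ K : ℝ, ∃ R₁ : ℝ, 0 < R₁ ∧ ∃ cm : ℝ, ∀ c₀ : ℝ, cm ≤ c₀ →
  ∃ η : ℝ, 0 < η ∧ ∀ (Z : ι → Aff) (A B : Aff), E.Close K c₀ η Z A B → E.Ger δ R₁ Z A B

/-- ENG3: germs at an end of type III. -/
def Stmt_Eng3 : Prop :=
  ∀ (ι : Type) [DecidableEq ι] (E : EndD ι) (ε δ : ℝ), E.Num ε δ → 0 < E.θ →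
  ∀ K : ℝ, ∃ R₁ : ℝ, 0 < R₁ ∧ ∃ cm : ℝ, ∀ c₀ : ℝ, cm ≤ c₀ →
  ∃ η : ℝ, 0 < η ∧ ∀ (Z : ι → Aff) (A B : Aff), E.Close K c₀ η Z A B → E.Ger δ R₁ Z A B

/-- ENGM: germ of the ear. -/
def Stmt_Engm : Prop :=
  ∀ (ι : Type) [DecidableEq ι] (E : EndD ι) (ε δ : ℝ), E.Num ε δ →
  ∀ K : ℝ, ∀ c₀ : ℝ, ∃ η : ℝ, 0 < η ∧ ∀ (Z : ι → Aff) (A B : Aff), E.Close K c₀ η Z A B →
    ∃ a b c : Aff, Indep a b c ∧ ∀ y : E3, G3 a b c (y + E.tM Z A B y • E.e) = 0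

/-- END (uses ENT1 ENT2 ENT3 ENG1 ENG2 ENG3 ENGM): all conclusions at one end. -/
def Stmt_End : Prop :=
  ∀ (ι : Type) [DecidableEq ι] (E : EndD ι) (ε δ : ℝ), E.Num ε δ →
  ∀ κ₁ : ℝ, 0 < κ₁ → ∀ K : ℝ, ∃ R₁ : ℝ, 0 < R₁ ∧ ∀ R₁' : ℝ, R₁ ≤ R₁' → ∀ R₂ : ℝ,
  ∃ cm : ℝ, ∀ c₀ : ℝ, cm ≤ c₀ → ∃ η R₃ M : ℝ, 0 < η ∧
  ∀ η' R₃' M' : ℝ, η' ≤ η → R₃ ≤ R₃' → M ≤ M' →
  ∀ (Z : ι → Aff) (A B : Aff), E.Close K c₀ η' Z A B →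
    E.TSpec ε δ κ₁ R₁' R₂ R₃' M' Z A B ∧ E.Ger δ R₁' Z A B ∧
    ∃ a b c : Aff, Indep a b c ∧ ∀ y : E3, G3 a b c (y + E.tM Z A B y • E.e) = 0

/-! ### the ends of an ear -/

/-- end data from vectors; `s = 1` at `u`, `s = -1` at `w` -/
noncomputable def mkE {κ : Type} [DecidableEq κ] (s : ℝ) (pt pu pk pw hu hw e : E3)
    (Ns : Finset κ) (N : κ → E3) : EndD (Option (Option κ)) where
  pt := pt
  pu := pu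
  pk := pk
  e := e
  nB := s • crs pu pk
  nA := s • crs pk pw
  J := insert none (insert (some none) (Ns.image fun n => some (some n)))
  iP := none
  iQ := some none
  G := fun i => match i with
    | none => s • crs pt pu
    | some none => s • crs hu hw
    | some (some n) => N n
  θ := s * det3 pt pu pk
  τ := s * det3 pt pu pw

/-- LIN (linear algebra at one end): the chord conditions imply the numerical conditions. -/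
def Stmt_Lin : Prop :=
  ∀ (s : ℝ) (pt pu pk pw pz : E3) (x₀ y₀ : ℝ), (s = 1 ∨ s = -1) → 0 < x₀ → 0 < y₀ →
  ∀ e : E3, e = x₀ • pu + y₀ • pw - pk →
  0 < s * det3 pu pk pw → s * det3 pt pu pw ≠ 0 → s * det3 pt pu pk ≠ 0 →
  (s * det3 pt pu pw < 0 → s * det3 pt pu pk < 0) →
  0 < y₀ * (s * det3 pt pu pw) - s * det3 pt pu pk →
  ∃ δ₀ : ℝ, 0 < δ₀ ∧ ∀ (μ : Type) (M : Finset μ) (q : μ → E3),
  (∀ m ∈ M, det3 pu (q m) pt ≠ 0 ∧ det3 pu (q m) pw ≠ 0 ∧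
    (∀ m' ∈ M, m ≠ m' → det3 pu (q m) (q m') ≠ 0) ∧
    ∀ σ : ℝ, (σ = 1 ∨ σ = -1) → 0 < (s * det3 pt pu pw) * (σ * det3 pu (q m) pt) →
      0 < (s * det3 pt pu pw) * (σ * det3 pu (q m) pw) → 0 < σ * det3 pu (q m) e) →
  ∀ ε δ : ℝ, 0 < ε → 2 * ε ≤ δ → δ ≤ δ₀ →
  ∃ a₀ : ℝ, 0 < a₀ ∧ ∀ a a' : ℝ, 0 < (s * det3 pt pu pw) * (s * det3 pt pu pk) * a →
    |a| < a₀ → |a'| < a₀ → ∀ hu hw : E3, hu = pu + a • pt → hw = pw + a' • pz →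
  ∃ ε₀ : ℝ, 0 < ε₀ ∧ ∀ ε' : ℝ, 0 < ε' → ε' < ε₀ →
  ∀ (κ : Type) [DecidableEq κ] (Ns : Finset κ) (N : κ → E3) (f : κ → μ),
  (∀ n ∈ Ns, f n ∈ M ∧ (∀ n' ∈ Ns, n ≠ n' → f n ≠ f n') ∧
    (s * det3 pt pu pw) * inner ℝ (N n) hu < 0 ∧
    0 < (s * det3 pt pu pw) * inner ℝ (N n) (hu + ε' • pt) ∧
    0 < (s * det3 pt pu pw) * inner ℝ (N n) (hu + ε' • hw) ∧
    ∃ σ : ℝ, (σ = 1 ∨ σ = -1) ∧ ‖N n - σ • crs hu (q (f n))‖ ≤ ε') →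
  (∀ n ∈ Ns, ∀ n' ∈ Ns, n ≠ n' →
    det3 (crs pt pu) (N n) (N n') ≠ 0 ∧ det3 (crs hu hw) (N n) (N n') ≠ 0 ∧
    ∀ n'' ∈ Ns, n'' ≠ n → n'' ≠ n' → det3 (N n) (N n') (N n'') ≠ 0) →
  (mkE s pt pu pk pw hu hw e Ns N).Num ε δ

namespace Pg

variable {V : Type} [DecidableEq V]

/-- `t u k w z` are consecutive vertices and `k` is a left ear -/
structure Ear (L : Pg V) (t u k w z : V) : Prop where
  ok : L.Ok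
  ok' : (L.erase k).Ok
  card : 5 ≤ L.S.card
  memt : t ∈ L.S
  memu : u ∈ L.S
  memk : k ∈ L.S
  memw : w ∈ L.S
  memz : z ∈ L.S
  st : L.s t = u
  su : L.s u = k
  sk : L.s k = w
  sw : L.s w = z
  nodup : [t, u, k, w, z].Nodup
  Xu : L.X ≠ some u
  Xk : L.X ≠ some k
  Xw : L.X ≠ some w
  pos : 0 < det3 (L.p u) (L.p k) (L.p w)
  θu : det3 (L.p t) (L.p u) (L.p k) ≠ 0
  τu : det3 (L.p t) (L.p u) (L.p w) ≠ 0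
  θw : det3 (L.p k) (L.p w) (L.p z) ≠ 0
  τw : det3 (L.p u) (L.p w) (L.p z) ≠ 0
  cu : det3 (L.p t) (L.p u) (L.p w) < 0 → det3 (L.p t) (L.p u) (L.p k) < 0
  cw : det3 (L.p u) (L.p w) (L.p z) < 0 → det3 (L.p k) (L.p w) (L.p z) < 0

/-- the vertical direction -/
def ee (L : Pg V) (u k w : V) (x₀ y₀ : ℝ) : E3 := x₀ • L.p u + y₀ • L.p w - L.p k

/-- the vertical direction is good for all chords -/
structure EarE (L : Pg V) (t u k w z : V) (x₀ y₀ : ℝ) : Prop where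
  x0 : 0 < x₀
  y0 : 0 < y₀
  eu : 0 < y₀ * det3 (L.p t) (L.p u) (L.p w) - det3 (L.p t) (L.p u) (L.p k)
  ew : 0 < x₀ * det3 (L.p u) (L.p w) (L.p z) - det3 (L.p k) (L.p w) (L.p z)
  chu : ∀ m ∈ L.S, ∀ σ : ℝ, (σ = 1 ∨ σ = -1) → m ≠ u →
    0 < det3 (L.p t) (L.p u) (L.p w) * (σ * det3 (L.p u) (L.p m) (L.p t)) →
    0 < det3 (L.p t) (L.p u) (L.p w) * (σ * det3 (L.p u) (L.p m) (L.p w)) →
    0 < σ * det3 (L.p u) (L.p m) (L.ee u k w x₀ y₀)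
  chw : ∀ m ∈ L.S, ∀ σ : ℝ, (σ = 1 ∨ σ = -1) → m ≠ w →
    0 < det3 (L.p u) (L.p w) (L.p z) * (σ * det3 (L.p w) (L.p m) (L.p z)) →
    0 < det3 (L.p u) (L.p w) (L.p z) * (σ * det3 (L.p w) (L.p m) (L.p u)) →
    0 < σ * det3 (L.p w) (L.p m) (L.ee u k w x₀ y₀)

/-- the tilted rest polygon -/
def hat (L : Pg V) (t u k w z : V) (a a' : ℝ) : Pg V where
  S := L.S.erase k
  s := (L.erase k).s
  p := fun i => if i = u then L.p u + a • L.p t else if i = w then L.p w + a' • L.p z else L.p i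
  X := L.X

/-- the tilts have the right signs and are small -/
def TiltOK (L : Pg V) (t u k w z : V) (a₀ a a' : ℝ) : Prop :=
  0 < det3 (L.p t) (L.p u) (L.p w) * det3 (L.p t) (L.p u) (L.p k) * a ∧ |a| < a₀ ∧
  0 < det3 (L.p u) (L.p w) (L.p z) * det3 (L.p k) (L.p w) (L.p z) * a' ∧ |a'| < a₀

/-- the end at `u` -/
noncomputable def endU (L : Pg V) (t u k w z : V) (x₀ y₀ a a' : ℝ) (Ns : Finset (Sym2 V))
    (N : Sym2 V → E3) : EndD (Option (Option (Sym2 V))) :=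
  mkE 1 (L.p t) (L.p u) (L.p k) (L.p w) (L.p u + a • L.p t) (L.p w + a' • L.p z)
    (L.ee u k w x₀ y₀) Ns N

/-- the end at `w` -/
noncomputable def endW (L : Pg V) (t u k w z : V) (x₀ y₀ a a' : ℝ) (Ns : Finset (Sym2 V))
    (N : Sym2 V → E3) : EndD (Option (Option (Sym2 V))) :=
  mkE (-1) (L.p z) (L.p w) (L.p k) (L.p u) (L.p w + a' • L.p z) (L.p u + a • L.p t)
    (L.ee u k w x₀ y₀) Ns N

/-- the new chamfers -/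
noncomputable def chN (L : Pg V) (t u k w z : V) (Ch : V → Finset (Sym2 V)) :
    V → Finset (Sym2 V) :=
  fun i => if i = k then ∅
    else if i = u then
      (if det3 (L.p t) (L.p u) (L.p w) < 0 then insert s(u, w) (Ch u) else ∅)
    else if i = w then
      (if det3 (L.p u) (L.p w) (L.p z) < 0 then insert s(u, w) (Ch w) else ∅)
    else Ch i

/-- the new chamfer normals -/
noncomputable def nN (L : Pg V) (t u k w z : V) (a a' : ℝ) (N : Sym2 V → E3) : Sym2 V → E3 :=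
  fun n => if n = s(u, w) then crs (L.p u + a • L.p t) (L.p w + a' • L.p z) else N n

end Pg

/-- GEOE: choice of the vertical direction. -/
def Stmt_Geoe : Prop :=
  ∀ (V : Type) [DecidableEq V] (L : Pg V) (t u k w z : V), L.Ear t u k w z →
    ∃ x₀ y₀ : ℝ, L.EarE t u k w z x₀ y₀

/-- PREP: the hypotheses of the ear step give ear data. -/
def Stmt_Prep : Prop :=
  ∀ (V : Type) [DecidableEq V] (L : Pg V) (u k : V), L.Ok → 5 ≤ L.S.card → u ∈ L.S →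
    L.s u = k → (L.erase k).Ok → L.EarC k → 0 < L.turn u → ∃ t w z : V, L.Ear t u k w z

/-- TILT: the tilted rest polygon is admissible. -/
def Stmt_Tilt : Prop :=
  ∀ (V : Type) [DecidableEq V] (L : Pg V) (t u k w z : V), L.Ear t u k w z →
    ∃ a₀ : ℝ, 0 < a₀ ∧ ∀ a a' : ℝ, |a| < a₀ → |a'| < a₀ →
      (L.hat t u k w z a a').Ok ∧
      Real.sign ((L.hat t u k w z a a').turn t) = Real.sign (det3 (L.p t) (L.p u) (L.p w)) ∧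
      Real.sign ((L.hat t u k w z a a').turn u) = Real.sign (det3 (L.p u) (L.p w) (L.p z)) ∧
      ∀ m, L.X = some m → ∀ σ : ℝ, (∀ i ∈ L.S, σ * inner ℝ (L.nor m) (L.p i) ≤ 0) →
        ∀ i ∈ (L.hat t u k w z a a').S,
          σ * inner ℝ ((L.hat t u k w z a a').nor m) ((L.hat t u k w z a a').p i) ≤ 0

/-- CNDN: the new chamfers satisfy the chord conditions. -/
def Stmt_Cndn : Prop :=
  ∀ (V : Type) [DecidableEq V] (L : Pg V) (t u k w z : V) (x₀ y₀ : ℝ), L.Ear t u k w z →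
    L.EarE t u k w z x₀ y₀ → ∀ ε δ : ℝ, 0 < ε → ∃ a₀ : ℝ, 0 < a₀ ∧ ∀ a a' : ℝ,
    L.TiltOK t u k w z a₀ a a' → (L.hat t u k w z a a').Ok → ∃ ε₀ : ℝ, 0 < ε₀ ∧
    ∀ ε' : ℝ, 0 < ε' → ε' < ε₀ → ∀ (Ch : V → Finset (Sym2 V)) (N : Sym2 V → E3),
    (L.hat t u k w z a a').Cond ε' Ch N →
    (L.endU t u k w z x₀ y₀ a a' (Ch u) N).Num ε δ →
    (L.endW t u k w z x₀ y₀ a a' (Ch w) N).Num ε δ →
    L.Cond ε (L.chN t u k w z Ch) (L.nN t u k w z a a' N)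

/-- NUMU (uses LIN): the numerical conditions at both ends. -/
def Stmt_Numu : Prop :=
  ∀ (V : Type) [DecidableEq V] (L : Pg V) (t u k w z : V) (x₀ y₀ : ℝ), L.Ear t u k w z →
    L.EarE t u k w z x₀ y₀ → ∃ δ₀ : ℝ, 0 < δ₀ ∧ ∀ ε δ : ℝ, 0 < ε → 2 * ε ≤ δ → δ ≤ δ₀ →
    ∃ a₀ : ℝ, 0 < a₀ ∧ ∀ a a' : ℝ, L.TiltOK t u k w z a₀ a a' → (L.hat t u k w z a a').Ok →
    (L.endU t u k w z x₀ y₀ a a' ∅ (fun _ => 0)).Num ε δ ∧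
    (L.endW t u k w z x₀ y₀ a a' ∅ (fun _ => 0)).Num ε δ ∧
    ∃ ε₀ : ℝ, 0 < ε₀ ∧
    ∀ ε' : ℝ, 0 < ε' → ε' < ε₀ → ∀ (Ch : V → Finset (Sym2 V)) (N : Sym2 V → E3),
    (L.hat t u k w z a a').Cond ε' Ch N →
    (L.endU t u k w z x₀ y₀ a a' (Ch u) N).Num ε δ ∧
    (L.endW t u k w z x₀ y₀ a a' (Ch w) N).Num ε δ

end Pool.Agent.TSM
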