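import Pool.Agent.TSM.VBase2

/-!
# TSM, Part VM: exact statements, third batch (gluing in the ear step)
-/

set_option autoImplicit false

namespace Pool.Agent.TSM

open Set Filter Topology Metric

/-- the part of the plane sector `p q` near the ray `q` -/
def zP (p q : E3) (δ : ℝ) : Set E3 :=
  {x | ∃ a c : ℝ, 0 ≤ a ∧ 0 ≤ c ∧ a ≤ δ * c ∧ x = a • p + c • q}

/-- family of planes at one end -/
def zf {κ : Type} (P Q : Aff) (B : κ → Aff) : Option (Option κ) → Aff := fun i =>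
  match i with
  | none => P
  | some none => Q
  | some (some n) => B n

open Classical in
/-- the new resolution -/
noncomputable def dN (ZU ZW : Set E3) (e : E3) (R : ℝ) (tU tW : E3 → ℝ) (F : E3 → E3)
    (x : E3) : E3 :=
  if R ≤ ‖x‖ ∧ x ∈ ZU then x + tU x • e
  else if R ≤ ‖x‖ ∧ x ∈ ZW then x + tW x • e else F x

namespace Pg

variable {V : Type} [DecidableEq V] {κ : Type}

/-- zone at `u` -/
def zU (L : Pg V) (t u : V) (δ : ℝ) : Set E3 := zP (L.p t) (L.p u) δ ∪ L.face u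

/-- zone at `w` -/
def zW (L : Pg V) (k w z : V) (δ : ℝ) : Set E3 := L.face k ∪ zP (L.p z) (L.p w) δ

/-- the extended far equations -/
def ZoneX (L : Pg V) (Ch : V → Finset κ) (A : V → Aff) (B : κ → Aff) (ε : ℝ) (x y : E3) : Prop :=
  L.ZoneEq Ch A B ε x y ∧ ∀ i ∈ L.S, L.turn i ≠ 0 →
    (x ∈ L.faceZone ε i ∨ x ∈ L.faceZone ε (L.s i)) → L.ArmEq Ch A B i y

/-- `Res` with the extended far equations -/
def ResX (L : Pg V) (Ch : V → Finset κ) (N : κ → E3) (ε : ℝ) (b : E3 → E3) : Prop :=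
  ∃ (o : V → ℝ) (oN : κ → ℝ) (η R M : ℝ), 0 < η ∧ 0 < R ∧
    (∀ m, L.X = some m → o m = 0 ∧ ∀ q ∈ L.S, L.s q = m → o q = 0) ∧
    ∀ (A : V → Aff) (B : κ → Aff), L.Near Ch N o oN η A B →
      ∃ D : E3 → E3, ContinuousOn D L.cone ∧ (∀ x ∈ L.cone, GoodOn L.cone D x ∧ L.Half (D x)) ∧
        (∀ x ∈ L.cone, ‖D x - x‖ ≤ M * (1 + ‖x‖)) ∧
        ∀ x ∈ L.cone, R ≤ ‖x‖ → (∃ t : ℝ, D x = x - t • b x) ∧ L.ZoneX Ch A B ε x (D x)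

/-- the vertical projection from the cone of `L` to the cone of the tilted rest polygon -/
structure PsiOK (L : Pg V) (t u k w z : V) (e : E3) (δ a a' C : ℝ) (Ψ : E3 → E3) : Prop where
  C1 : 1 ≤ C
  cont : ContinuousOn Ψ L.cone
  inj : InjOn Ψ L.cone
  maps : MapsTo Ψ L.cone (L.hat t u k w z a a').cone
  norm : ∀ x ∈ L.cone, ‖x‖ ≤ C * ‖Ψ x‖ ∧ ‖Ψ x‖ ≤ C * ‖x‖
  out : ∀ x ∈ L.cone, x ∉ L.zU t u δ → x ∉ L.zW k w z δ → Ψ x = x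
  vert : ∀ x ∈ L.zU t u δ ∪ L.zW k w z δ, ∃ r : ℝ, Ψ x = x + r • e
  locU : ∀ x ∈ L.zU t u δ,
    Ψ x ∈ zP (L.p t) (L.p u + a • L.p t) (2 * δ) ∨
    Ψ x ∈ zP (L.p w + a' • L.p z) (L.p u + a • L.p t) C
  locW : ∀ x ∈ L.zW k w z δ,
    Ψ x ∈ zP (L.p z) (L.p w + a' • L.p z) (2 * δ) ∨
    Ψ x ∈ zP (L.p u + a • L.p t) (L.p w + a' • L.p z) C

/-- vertical lines meet the zone at most once -/
def Vinj (L : Pg V) (t u k w z : V) (e : E3) (δ : ℝ) : Prop :=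
  ∀ x ∈ L.zU t u δ ∪ L.zW k w z δ, ∀ y ∈ L.zU t u δ ∪ L.zW k w z δ, ∀ r : ℝ,
    x = y + r • e → x = y

/-- the planes of the tilted rest polygon -/
def hA (u w : V) (A : V → Aff) (B : Sym2 V → Aff) : V → Aff :=
  fun i => if i = u then B s(u, w) else A i

/-- `κ₁` is small enough for the half space condition -/
def KapOK (L : Pg V) (t u k w z : V) (e : E3) (δ κ₁ : ℝ) : Prop :=
  (∀ x ∈ L.zU t u δ, ∀ (P : Aff) (tN tO : ℝ), (L.X = some t → P = (L.nor t, 0)) →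
    tN ≤ tO → (tN = tO ∨ -(κ₁ * ‖x‖) ≤ tN) →
    (det3 (L.p t) (L.p u) (L.p w) < 0 → tN ≤ tz e P x) →
    (0 < det3 (L.p t) (L.p u) (L.p k) → tz e P x ≤ tN) →
    L.Half (x + tO • e) → L.Half (x + tN • e)) ∧
  (∀ x ∈ L.zW k w z δ, ∀ (P : Aff) (tN tO : ℝ), (L.X = some z → P = (L.nor w, 0)) →
    tN ≤ tO → (tN = tO ∨ -(κ₁ * ‖x‖) ≤ tN) →
    (det3 (L.p u) (L.p w) (L.p z) < 0 → tN ≤ tz e P x) →
    (0 < det3 (L.p k) (L.p w) (L.p z) → tz e P x ≤ tN) →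
    L.Half (x + tO • e) → L.Half (x + tN • e))

/-- everything that is known when the new resolution is built for given planes `A`, `B` -/
structure Sit (L : Pg V) (t u k w z : V) (x₀ y₀ ε δ ε' a a' C κ₁ R₁ R₂ R₃ M R' M' : ℝ)
    (Ψ b₁ D' : E3 → E3) (Ch : V → Finset (Sym2 V)) (N : Sym2 V → E3)
    (A : V → Aff) (B : Sym2 V → Aff) : Prop where
  ear : L.Ear t u k w z
  earE : L.EarE t u k w z x₀ y₀
  eps : 0 < ε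
  eps4 : ε ≤ 1 / 4
  del : 2 * ε ≤ δ
  del2 : δ ≤ 1 / 2
  eps' : 0 < ε'
  epse : ε' ≤ ε / 4
  epsC : ε' * C ≤ 1
  ha : |a| ≤ δ / 2
  ha' : |a'| ≤ δ / 2
  kap : 0 < κ₁
  hR1 : 0 < R₁
  hR12 : R₁ < R₂
  hRC : C * R' ≤ R₁
  hRp : 0 < R'
  psi : L.PsiOK t u k w z (L.ee u k w x₀ y₀) δ a a' C Ψ
  vinj : L.Vinj t u k w z (L.ee u k w x₀ y₀) δ
  kapOK : L.KapOK t u k w z (L.ee u k w x₀ y₀) δ κ₁
  b1z : ∀ x ∈ L.zU t u δ ∪ L.zW k w z δ, b₁ x = L.ee u k w x₀ y₀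
  b1t : ∀ x ∈ zP (L.p t) (L.p u + a • L.p t) (2 * δ), b₁ x = L.ee u k w x₀ y₀
  b1w : ∀ x ∈ zP (L.p z) (L.p w + a' • L.p z) (2 * δ), b₁ x = L.ee u k w x₀ y₀
  b1u : ∀ x ∈ (L.hat t u k w z a a').face u, b₁ x = L.ee u k w x₀ y₀
  hatok : (L.hat t u k w z a a').Ok
  sgu : Real.sign ((L.hat t u k w z a a').turn t) = Real.sign (det3 (L.p t) (L.p u) (L.p w))
  sgw : Real.sign ((L.hat t u k w z a a').turn u) = Real.sign (det3 (L.p u) (L.p w) (L.p z))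
  half : ∀ m, L.X = some m → ∀ σ : ℝ, (∀ i ∈ L.S, σ * inner ℝ (L.nor m) (L.p i) ≤ 0) →
    ∀ i ∈ (L.hat t u k w z a a').S,
      σ * inner ℝ ((L.hat t u k w z a a').nor m) ((L.hat t u k w z a a').p i) ≤ 0
  dcont : ContinuousOn D' (L.hat t u k w z a a').cone
  dgood : ∀ x ∈ (L.hat t u k w z a a').cone, GoodOn (L.hat t u k w z a a').cone D' x ∧
    (L.hat t u k w z a a').Half (D' x)
  dbound : ∀ x ∈ (L.hat t u k w z a a').cone, ‖D' x - x‖ ≤ M' * (1 + ‖x‖)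
  dfar : ∀ x ∈ (L.hat t u k w z a a').cone, R' ≤ ‖x‖ → (∃ r : ℝ, D' x = x - r • b₁ x) ∧
    (L.hat t u k w z a a').ZoneX Ch (hA u w A B) B ε' x (D' x)
  exact : ∀ m, L.X = some m → A m = (L.nor m, 0) ∧ ∀ q ∈ L.S, L.s q = m → A q = (L.nor q, 0)
  tU : (L.endU t u k w z x₀ y₀ a a' (Ch u) N).TSpec ε δ κ₁ R₁ R₂ R₃ M
    (zf (A t) (B s(u, w)) B) (A k) (A u)
  gU : (L.endU t u k w z x₀ y₀ a a' (Ch u) N).Ger δ R₁ (zf (A t) (B s(u, w)) B) (A k) (A u)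
  tW : (L.endW t u k w z x₀ y₀ a a' (Ch w) N).TSpec ε δ κ₁ R₁ R₂ R₃ M
    (zf (A w) (B s(u, w)) B) (A u) (A k)
  gW : (L.endW t u k w z x₀ y₀ a a' (Ch w) N).Ger δ R₁ (zf (A w) (B s(u, w)) B) (A u) (A k)
  gM : ∃ p q r : Aff, Indep p q r ∧ ∀ y : E3, G3 p q r
    (y + (L.endU t u k w z x₀ y₀ a a' (Ch u) N).tM (zf (A t) (B s(u, w)) B) (A k) (A u) y •
      L.ee u k w x₀ y₀) = 0

/-- the new resolution -/
noncomputable def dNew (L : Pg V) (t u k w z : V) (x₀ y₀ δ a a' R₁ R₂ : ℝ)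
    (Ψ D' : E3 → E3) (Ch : V → Finset (Sym2 V)) (N : Sym2 V → E3)
    (A : V → Aff) (B : Sym2 V → Aff) : E3 → E3 :=
  dN (L.zU t u δ) (L.zW k w z δ) (L.ee u k w x₀ y₀) ((R₁ + R₂) / 2)
    ((L.endU t u k w z x₀ y₀ a a' (Ch u) N).tN (zf (A t) (B s(u, w)) B) (A k) (A u))
    ((L.endW t u k w z x₀ y₀ a a' (Ch w) N).tN (zf (A w) (B s(u, w)) B) (A u) (A k))
    (fun x => D' (Ψ x))

/-- abstract gluing data -/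
structure Glu (L : Pg V) (t u k w z : V) (e : E3) (ε δ R₁ R₂ : ℝ) (F : E3 → E3)
    (tU tW tM : E3 → ℝ) : Prop where
  ear : L.Ear t u k w z
  eps : 0 < ε
  del : 2 * ε ≤ δ
  del2 : δ ≤ 1 / 2
  hR1 : 0 < R₁
  hR12 : R₁ < R₂
  vinj : L.Vinj t u k w z e δ
  Fcont : ContinuousOn F L.cone
  Fgood : ∀ x ∈ L.cone, GoodOn L.cone F x
  cU : Continuous tU
  cW : Continuous tW
  nearU : ∀ x ∈ L.zU t u δ, R₁ ≤ ‖x‖ → ‖x‖ ≤ R₂ → F x = x + tU x • e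
  nearW : ∀ x ∈ L.zW k w z δ, R₁ ≤ ‖x‖ → ‖x‖ ≤ R₂ → F x = x + tW x • e
  outU : ∀ a c : ℝ, 0 ≤ c → ε * c ≤ a → a ≤ δ * c → ∀ x : E3, x = a • L.p t + c • L.p u →
    R₁ ≤ ‖x‖ → F x = x + tU x • e
  outW : ∀ a c : ℝ, 0 ≤ c → ε * c ≤ a → a ≤ δ * c → ∀ x : E3, x = a • L.p z + c • L.p w →
    R₁ ≤ ‖x‖ → F x = x + tW x • e
  diagU : ∀ c d : ℝ, 0 ≤ c → c ≤ d → ∀ x : E3, x = c • L.p u + d • L.p k → R₁ ≤ ‖x‖ →
    tU x = tM x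
  diagW : ∀ c d : ℝ, 0 ≤ c → c ≤ d → ∀ x : E3, x = c • L.p w + d • L.p k → R₁ ≤ ‖x‖ →
    tW x = tM x
  gerU : ∀ x ∈ zP (L.p t) (L.p u) δ ∪ zP (L.p k) (L.p u) 2, R₁ ≤ ‖x‖ →
    ∃ p q r : Aff, Indep p q r ∧ ∀ᶠ y in 𝓝 x, G3 p q r (y + tU y • e) = 0
  gerW : ∀ x ∈ zP (L.p z) (L.p w) δ ∪ zP (L.p k) (L.p w) 2, R₁ ≤ ‖x‖ →
    ∃ p q r : Aff, Indep p q r ∧ ∀ᶠ y in 𝓝 x, G3 p q r (y + tW y • e) = 0
  gerM : ∃ p q r : Aff, Indep p q r ∧ ∀ y : E3, G3 p q r (y + tM y • e) = 0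

end Pg

/-- VINJ: vertical lines meet the zone at most once. -/
def Stmt_Vinj : Prop :=
  ∀ (V : Type) [DecidableEq V] (L : Pg V) (t u k w z : V) (x₀ y₀ : ℝ), L.Ear t u k w z →
    L.EarE t u k w z x₀ y₀ → ∃ δ₀ : ℝ, 0 < δ₀ ∧ ∀ δ : ℝ, 0 < δ → δ ≤ δ₀ →
      L.Vinj t u k w z (L.ee u k w x₀ y₀) δ

/-- PSI (uses VINJ): the vertical projection. -/
def Stmt_Psi : Prop :=
  ∀ (V : Type) [DecidableEq V] (L : Pg V) (t u k w z : V) (x₀ y₀ : ℝ), L.Ear t u k w z →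
    L.EarE t u k w z x₀ y₀ → ∃ δ₀ : ℝ, 0 < δ₀ ∧ ∀ ε δ : ℝ, 0 < ε → 2 * ε ≤ δ → δ ≤ δ₀ →
    ∃ a₀ : ℝ, 0 < a₀ ∧ ∀ a a' : ℝ, L.TiltOK t u k w z a₀ a a' → (L.hat t u k w z a a').Ok →
      (L.endU t u k w z x₀ y₀ a a' ∅ (fun _ => 0)).Num ε δ →
      (L.endW t u k w z x₀ y₀ a a' ∅ (fun _ => 0)).Num ε δ →
      ∃ (C : ℝ) (Ψ : E3 → E3), L.PsiOK t u k w z (L.ee u k w x₀ y₀) δ a a' C Ψ

/-- FLD: the direction field which is vertical on the zone. -/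
def Stmt_Fld : Prop :=
  ∀ (V : Type) [DecidableEq V] (L : Pg V) (t u k w z : V) (x₀ y₀ : ℝ), L.Ear t u k w z →
    L.EarE t u k w z x₀ y₀ → ∀ b : E3 → E3, L.Adm b → ∃ δ₀ : ℝ, 0 < δ₀ ∧
    ∀ δ : ℝ, 0 < δ → δ ≤ δ₀ → ∃ b₁ : E3 → E3, L.Adm b₁ ∧
      (∀ x ∈ L.zU t u δ ∪ L.zW k w z δ, b₁ x = L.ee u k w x₀ y₀) ∧
      ∃ a₀ : ℝ, 0 < a₀ ∧ ∀ a a' : ℝ, |a| < a₀ → |a'| < a₀ → (L.hat t u k w z a a').Ok →
        (L.hat t u k w z a a').Adm b₁ ∧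
        (∀ x ∈ zP (L.p t) (L.p u + a • L.p t) (2 * δ), b₁ x = L.ee u k w x₀ y₀) ∧
        (∀ x ∈ zP (L.p z) (L.p w + a' • L.p z) (2 * δ), b₁ x = L.ee u k w x₀ y₀) ∧
        ∀ x ∈ (L.hat t u k w z a a').face u, b₁ x = L.ee u k w x₀ y₀

/-- EXT (uses FTAU): the far equations can be extended. -/
def Stmt_Ext : Prop :=
  ∀ (V : Type) [DecidableEq V] (L : Pg V), L.Ok → ∀ b : E3 → E3, L.Adm b → ∀ μ : ℝ, 0 < μ →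
    ∃ ε₀ : ℝ, 0 < ε₀ ∧ ∀ ε : ℝ, 0 < ε → ε < ε₀ →
    ∀ (κ : Type) (Ch : V → Finset κ) (N : κ → E3), L.CondG μ ε Ch N →
      L.Res Ch N ε b → L.ResX Ch N ε b

/-- KAP: the half space condition. -/
def Stmt_Kap : Prop :=
  ∀ (V : Type) [DecidableEq V] (L : Pg V) (t u k w z : V) (x₀ y₀ : ℝ), L.Ear t u k w z →
    L.EarE t u k w z x₀ y₀ → ∀ δ : ℝ, 0 < δ → ∃ κ₁ : ℝ, 0 < κ₁ ∧
      L.KapOK t u k w z (L.ee u k w x₀ y₀) δ κ₁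

/-- DOU: the old resolution on the zone at `u`. -/
def Stmt_Dou : Prop :=
  ∀ (V : Type) [DecidableEq V] (L : Pg V) (t u k w z : V)
    (x₀ y₀ ε δ ε' a a' C κ₁ R₁ R₂ R₃ M R' M' : ℝ) (Ψ b₁ D' : E3 → E3)
    (Ch : V → Finset (Sym2 V)) (N : Sym2 V → E3) (A : V → Aff) (B : Sym2 V → Aff),
    L.Sit t u k w z x₀ y₀ ε δ ε' a a' C κ₁ R₁ R₂ R₃ M R' M' Ψ b₁ D' Ch N A B →
    ∀ x ∈ L.zU t u δ, R₁ ≤ ‖x‖ → D' (Ψ x) = x +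
      (L.endU t u k w z x₀ y₀ a a' (Ch u) N).tO (zf (A t) (B s(u, w)) B) x •
        L.ee u k w x₀ y₀

/-- DOW: the old resolution on the zone at `w`. -/
def Stmt_Dow : Prop :=
  ∀ (V : Type) [DecidableEq V] (L : Pg V) (t u k w z : V)
    (x₀ y₀ ε δ ε' a a' C κ₁ R₁ R₂ R₃ M R' M' : ℝ) (Ψ b₁ D' : E3 → E3)
    (Ch : V → Finset (Sym2 V)) (N : Sym2 V → E3) (A : V → Aff) (B : Sym2 V → Aff),
    L.Sit t u k w z x₀ y₀ ε δ ε' a a' C κ₁ R₁ R₂ R₃ M R' M' Ψ b₁ D' Ch N A B →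
    ∀ x ∈ L.zW k w z δ, R₁ ≤ ‖x‖ → D' (Ψ x) = x +
      (L.endW t u k w z x₀ y₀ a a' (Ch w) N).tO (zf (A w) (B s(u, w)) B) x •
        L.ee u k w x₀ y₀

/-- GLUC: the glued map is continuous. -/
def Stmt_Gluc : Prop :=
  ∀ (V : Type) [DecidableEq V] (L : Pg V) (t u k w z : V) (e : E3) (ε δ R₁ R₂ : ℝ)
    (F : E3 → E3) (tU tW tM : E3 → ℝ), L.Glu t u k w z e ε δ R₁ R₂ F tU tW tM →
    ContinuousOn (dN (L.zU t u δ) (L.zW k w z δ) e ((R₁ + R₂) / 2) tU tW F) L.cone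

/-- GLUG: the glued map is good. -/
def Stmt_Glug : Prop :=
  ∀ (V : Type) [DecidableEq V] (L : Pg V) (t u k w z : V) (e : E3) (ε δ R₁ R₂ : ℝ)
    (F : E3 → E3) (tU tW tM : E3 → ℝ), L.Glu t u k w z e ε δ R₁ R₂ F tU tW tM →
    ∀ x ∈ L.cone,
      GoodOn L.cone (dN (L.zU t u δ) (L.zW k w z δ) e ((R₁ + R₂) / 2) tU tW F) x

/-- GLUS (uses DOU DOW): the gluing data in the situation `Sit`. -/
def Stmt_Glus : Prop :=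
  ∀ (V : Type) [DecidableEq V] (L : Pg V) (t u k w z : V)
    (x₀ y₀ ε δ ε' a a' C κ₁ R₁ R₂ R₃ M R' M' : ℝ) (Ψ b₁ D' : E3 → E3)
    (Ch : V → Finset (Sym2 V)) (N : Sym2 V → E3) (A : V → Aff) (B : Sym2 V → Aff),
    L.Sit t u k w z x₀ y₀ ε δ ε' a a' C κ₁ R₁ R₂ R₃ M R' M' Ψ b₁ D' Ch N A B →
    L.Glu t u k w z (L.ee u k w x₀ y₀) ε δ R₁ R₂ (fun x => D' (Ψ x))
      ((L.endU t u k w z x₀ y₀ a a' (Ch u) N).tN (zf (A t) (B s(u, w)) B) (A k) (A u))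
      ((L.endW t u k w z x₀ y₀ a a' (Ch w) N).tN (zf (A w) (B s(u, w)) B) (A u) (A k))
      ((L.endU t u k w z x₀ y₀ a a' (Ch u) N).tM (zf (A t) (B s(u, w)) B) (A k) (A u))

/-- HALF (uses DOU DOW): the half space condition and the bound for the new resolution. -/
def Stmt_Half : Prop :=
  ∀ (V : Type) [DecidableEq V] (L : Pg V) (t u k w z : V)
    (x₀ y₀ ε δ ε' a a' C κ₁ R₁ R₂ R₃ M R' M' : ℝ) (Ψ b₁ D' : E3 → E3)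
    (Ch : V → Finset (Sym2 V)) (N : Sym2 V → E3) (A : V → Aff) (B : Sym2 V → Aff),
    L.Sit t u k w z x₀ y₀ ε δ ε' a a' C κ₁ R₁ R₂ R₃ M R' M' Ψ b₁ D' Ch N A B →
    ∀ x ∈ L.cone, L.Half (L.dNew t u k w z x₀ y₀ δ a a' R₁ R₂ Ψ D' Ch N A B x) ∧
      ‖L.dNew t u k w z x₀ y₀ δ a a' R₁ R₂ Ψ D' Ch N A B x - x‖ ≤
        (|M| * ‖L.ee u k w x₀ y₀‖ + |M'| * C + C + 1) * (1 + ‖x‖)

/-- ZEQO: the far equations outside the zone. -/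
def Stmt_Zeqo : Prop :=
  ∀ (V : Type) [DecidableEq V] (L : Pg V) (t u k w z : V) (ε δ ε' a a' : ℝ),
    L.Ear t u k w z → 0 < ε → ε ≤ 1 / 4 → 2 * ε ≤ δ → δ ≤ 1 / 2 → 0 < ε' → ε' ≤ ε / 4 →
    |a| ≤ δ / 2 → |a'| ≤ δ / 2 → (L.hat t u k w z a a').Ok →
    ∀ (Ch : V → Finset (Sym2 V)) (A : V → Aff) (B : Sym2 V → Aff) (x y : E3),
    x ∈ L.cone → x ∉ L.zU t u δ → x ∉ L.zW k w z δ →
    (L.hat t u k w z a a').ZoneX Ch (Pg.hA u w A B) B ε' x y →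
    L.ZoneEq (L.chN t u k w z Ch) A B ε x y

/-- ZEQU: the far equations on the zone at `u`. -/
def Stmt_Zequ : Prop :=
  ∀ (V : Type) [DecidableEq V] (L : Pg V) (t u k w z : V) (x₀ y₀ ε δ a a' κ₁ R₁ R₂ R₃ M : ℝ),
    L.Ear t u k w z → 0 < ε → ε ≤ 1 / 4 → 2 * ε ≤ δ → δ ≤ 1 / 2 →
    ∀ (Ch : V → Finset (Sym2 V)) (N : Sym2 V → E3) (A : V → Aff) (B : Sym2 V → Aff),
    (L.endU t u k w z x₀ y₀ a a' (Ch u) N).TSpec ε δ κ₁ R₁ R₂ R₃ M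
      (zf (A t) (B s(u, w)) B) (A k) (A u) →
    ∀ x ∈ L.zU t u δ, x ≠ 0 → R₁ ≤ ‖x‖ → R₃ ≤ ‖x‖ →
    L.ZoneEq (L.chN t u k w z Ch) A B ε x (x +
      (L.endU t u k w z x₀ y₀ a a' (Ch u) N).tN (zf (A t) (B s(u, w)) B) (A k) (A u) x •
        L.ee u k w x₀ y₀)

/-- ZEQW: the far equations on the zone at `w`. -/
def Stmt_Zeqw : Prop :=
  ∀ (V : Type) [DecidableEq V] (L : Pg V) (t u k w z : V) (x₀ y₀ ε δ a a' κ₁ R₁ R₂ R₃ M : ℝ),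
    L.Ear t u k w z → 0 < ε → ε ≤ 1 / 4 → 2 * ε ≤ δ → δ ≤ 1 / 2 →
    ∀ (Ch : V → Finset (Sym2 V)) (N : Sym2 V → E3) (A : V → Aff) (B : Sym2 V → Aff),
    (L.endW t u k w z x₀ y₀ a a' (Ch w) N).TSpec ε δ κ₁ R₁ R₂ R₃ M
      (zf (A w) (B s(u, w)) B) (A u) (A k) →
    ∀ x ∈ L.zW k w z δ, x ≠ 0 → R₁ ≤ ‖x‖ → R₃ ≤ ‖x‖ →
    L.ZoneEq (L.chN t u k w z Ch) A B ε x (x +
      (L.endW t u k w z x₀ y₀ a a' (Ch w) N).tN (zf (A w) (B s(u, w)) B) (A u) (A k) x •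
        L.ee u k w x₀ y₀)

/-- DNEW (uses GLUC GLUG GLUS HALF ZEQO ZEQU ZEQW): the new resolution for given planes. -/
def Stmt_Dnew : Prop :=
  ∀ (V : Type) [DecidableEq V] (L : Pg V) (t u k w z : V)
    (x₀ y₀ ε δ ε' a a' C κ₁ R₁ R₂ R₃ M R' M' : ℝ) (Ψ b₁ D' : E3 → E3)
    (Ch : V → Finset (Sym2 V)) (N : Sym2 V → E3) (A : V → Aff) (B : Sym2 V → Aff),
    L.Sit t u k w z x₀ y₀ ε δ ε' a a' C κ₁ R₁ R₂ R₃ M R' M' Ψ b₁ D' Ch N A B →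
    ∃ D : E3 → E3, ContinuousOn D L.cone ∧ (∀ x ∈ L.cone, GoodOn L.cone D x ∧ L.Half (D x)) ∧
      (∀ x ∈ L.cone, ‖D x - x‖ ≤
        (|M| * ‖L.ee u k w x₀ y₀‖ + |M'| * C + C + 1) * (1 + ‖x‖)) ∧
      ∀ x ∈ L.cone, max R₂ R₃ ≤ ‖x‖ →
        (∃ r : ℝ, D x = x - r • b₁ x) ∧ L.ZoneEq (L.chN t u k w z Ch) A B ε x (D x)

end Pool.Agent.TSM
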